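import Mathlib

/-! ROW V1: Vaughan's identity. -/

namespace Pool.Agent.LibHG31

open Finset
open scoped ArithmeticFunction.vonMangoldt ArithmeticFunction.Moebius

/-- `c_d = ∑_{uv = d, u,v ≤ U} μ(u) Λ(v)` -/
noncomputable def ccf (U d : ℕ) : ℝ :=
  ∑ p ∈ d.divisorsAntidiagonal.filter (fun p => p.1 ≤ U ∧ p.2 ≤ U),
    ((ArithmeticFunction.moebius p.1 : ℤ) : ℝ) * Λ p.2

/-- `a_m = ∑_{u | m, u ≤ U} μ(u)` -/
noncomputable def aaf (U m : ℕ) : ℝ :=
  ∑ u ∈ m.divisors.filter (fun u => u ≤ U), ((ArithmeticFunction.moebius u : ℤ) : ℝ)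

/-- for `1 < m ≤ U` the sum is over all divisors, hence 0 -/
theorem aaf_eq_zero (U m : ℕ) (h1 : 1 < m) (h2 : m ≤ U) : aaf U m = 0 := by
  unfold aaf
  have hf : m.divisors.filter (fun u => u ≤ U) = m.divisors := by
    refine Finset.filter_true_of_mem fun u hu => ?_
    exact (Nat.divisor_le hu).trans h2
  rw [hf]
  have h3 : ∑ u ∈ m.divisors, ArithmeticFunction.moebius u = 0 := by
    have h4 := ArithmeticFunction.coe_mul_zeta_apply (R := ℤ) (f := ArithmeticFunction.moebius) (x := m)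
    rw [ArithmeticFunction.moebius_mul_coe_zeta, ArithmeticFunction.one_apply_ne (by omega)] at h4
    exact h4.symm
  rw [← Int.cast_sum, h3, Int.cast_zero]

private theorem V1_mu (u : ℕ) : |((ArithmeticFunction.moebius u : ℤ) : ℝ)| ≤ 1 := by
  have h := ArithmeticFunction.abs_moebius_le_one (n := u)
  exact_mod_cast h

theorem abs_aaf_le (U m : ℕ) : |aaf U m| ≤ m.divisors.card := by
  unfold aaf
  refine (Finset.abs_sum_le_sum_abs _ _).trans ?_
  refine (Finset.sum_le_sum (fun u _ => V1_mu u)).trans ?_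
  rw [Finset.sum_const, nsmul_eq_mul, mul_one]
  exact_mod_cast Finset.card_filter_le _ _

/-- `|c_d| ≤ ∑_{v | d} Λ(v) = log d` -/
theorem abs_ccf_le (U d : ℕ) (hd : 1 ≤ d) : |ccf U d| ≤ Real.log d := by
  unfold ccf
  refine (Finset.abs_sum_le_sum_abs _ _).trans ?_
  have h1 : ∑ p ∈ d.divisorsAntidiagonal.filter (fun p => p.1 ≤ U ∧ p.2 ≤ U),
      |((ArithmeticFunction.moebius p.1 : ℤ) : ℝ) * Λ p.2| ≤
      ∑ p ∈ d.divisorsAntidiagonal.filter (fun p => p.1 ≤ U ∧ p.2 ≤ U), Λ p.2 := by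
    refine Finset.sum_le_sum fun p _ => ?_
    rw [abs_mul, abs_of_nonneg (ArithmeticFunction.vonMangoldt_nonneg (n := p.2))]
    calc |((ArithmeticFunction.moebius p.1 : ℤ) : ℝ)| * Λ p.2 ≤ 1 * Λ p.2 :=
          mul_le_mul_of_nonneg_right (V1_mu _) ArithmeticFunction.vonMangoldt_nonneg
      _ = Λ p.2 := one_mul _
  refine h1.trans ?_
  have h2 : ∑ p ∈ d.divisorsAntidiagonal.filter (fun p => p.1 ≤ U ∧ p.2 ≤ U), Λ p.2 ≤
      ∑ p ∈ d.divisorsAntidiagonal, Λ p.2 :=
    Finset.sum_le_sum_of_subset_of_nonneg (Finset.filter_subset _ _)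
      (fun _ _ _ => ArithmeticFunction.vonMangoldt_nonneg)
  refine h2.trans ?_
  rw [Nat.sum_divisorsAntidiagonal' (fun _ v => Λ v), ArithmeticFunction.vonMangoldt_sum]

/-- `c_d = 0` for `d > U^2` -/
theorem ccf_eq_zero (U d : ℕ) (hd : U ^ 2 < d) : ccf U d = 0 := by
  unfold ccf
  have hf : d.divisorsAntidiagonal.filter (fun p => p.1 ≤ U ∧ p.2 ≤ U) = ∅ := by
    refine Finset.filter_false_of_mem fun p hp => ?_
    rintro ⟨h1, h2⟩
    have h3 := (Nat.mem_divisorsAntidiagonal.1 hp).1
    have h4 : p.1 * p.2 ≤ U * U := Nat.mul_le_mul h1 h2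
    rw [h3] at h4
    nlinarith
  rw [hf, Finset.sum_empty]

/-- truncation of an arithmetic function to the arguments at most `U` -/
private noncomputable def V1_low (U : ℕ) (f : ArithmeticFunction ℝ) : ArithmeticFunction ℝ :=
  ⟨fun n => if n ≤ U then f n else 0, by simp⟩

private noncomputable def V1_high (U : ℕ) (f : ArithmeticFunction ℝ) : ArithmeticFunction ℝ :=
  ⟨fun n => if U < n then f n else 0, by simp⟩

private theorem V1_low_apply (U : ℕ) (f : ArithmeticFunction ℝ) (n : ℕ) :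
    V1_low U f n = if n ≤ U then f n else 0 := rfl

private theorem V1_high_apply (U : ℕ) (f : ArithmeticFunction ℝ) (n : ℕ) :
    V1_high U f n = if U < n then f n else 0 := rfl

private theorem V1_split (U : ℕ) (f : ArithmeticFunction ℝ) : f = V1_low U f + V1_high U f := by
  ext n
  rw [ArithmeticFunction.add_apply, V1_low_apply, V1_high_apply]
  by_cases h : n ≤ U
  · rw [if_pos h, if_neg (by omega), add_zero]
  · rw [if_neg h, if_pos (by omega), zero_add]

private noncomputable def V1_m : ArithmeticFunction ℝ :=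
  ((ArithmeticFunction.moebius : ArithmeticFunction ℤ) : ArithmeticFunction ℝ)

private theorem V1_m_apply (n : ℕ) : V1_m n = ((ArithmeticFunction.moebius n : ℤ) : ℝ) := rfl

private theorem V1_conv (U n : ℕ) (g : ArithmeticFunction ℝ) :
    (V1_low U V1_m * g) n = ∑ p ∈ n.divisorsAntidiagonal.filter (fun p => p.1 ≤ U),
        ((ArithmeticFunction.moebius p.1 : ℤ) : ℝ) * g p.2 := by
  rw [ArithmeticFunction.mul_apply, Finset.sum_filter]
  refine Finset.sum_congr rfl fun p _ => ?_
  rw [V1_low_apply, V1_m_apply]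
  split_ifs with h
  · rfl
  · rw [zero_mul]

private theorem V1_aaf (U m : ℕ) :
    (V1_low U V1_m * (ArithmeticFunction.zeta : ArithmeticFunction ℝ)) m = aaf U m := by
  rw [ArithmeticFunction.coe_mul_zeta_apply]
  unfold aaf
  rw [Finset.sum_filter]
  refine Finset.sum_congr rfl fun u _ => ?_
  rw [V1_low_apply, V1_m_apply]

private theorem V1_ccf (U d : ℕ) : (V1_low U V1_m * V1_low U Λ) d = ccf U d := by
  rw [ArithmeticFunction.mul_apply]
  unfold ccf
  rw [Finset.sum_filter]
  refine Finset.sum_congr rfl fun p _ => ?_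
  rw [V1_low_apply, V1_low_apply, V1_m_apply]
  by_cases h1 : p.1 ≤ U
  · by_cases h2 : p.2 ≤ U
    · rw [if_pos h1, if_pos h2, if_pos ⟨h1, h2⟩]
    · rw [if_neg h2, mul_zero, if_neg (fun h => h2 h.2)]
  · rw [if_neg h1, zero_mul, if_neg (fun h => h1 h.1)]

private theorem V1_one (U : ℕ) (hU : 1 ≤ U) : aaf U 1 = 1 := by
  unfold aaf
  have hf : (Nat.divisors 1).filter (fun u => u ≤ U) = {1} := by
    rw [Nat.divisors_one]
    refine Finset.filter_true_of_mem fun u hu => ?_
    rw [Finset.mem_singleton] at hu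
    omega
  rw [hf, Finset.sum_singleton, ArithmeticFunction.moebius_apply_one, Int.cast_one]

/-- **Vaughan's identity** for `n > U`.
Proof: `Λ * 1 = log` (`ArithmeticFunction.vonMangoldt_mul_zeta`), so with `μ_{≤U}` (truncated)
`μ_{≤U} * log = μ_{≤U} * 1 * Λ_{≤U} + μ_{≤U} * 1 * Λ_{>U} = 1 * c + Λ_{>U} + ∑_{m > 1} a_m Λ_{>U}(n/m)`, because `(μ_{≤U} * 1)(m) = a_m`,
`a_1 = 1` (`U ≥ 1`) and `a_m = 0` for `1 < m ≤ U`. All sums are over `n.divisorsAntidiagonal`; the triple convolution may be handled by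
working with `ArithmeticFunction ℝ` objects (associativity and commutativity for free) and evaluating at `n`. -/
theorem vaughan (U n : ℕ) (hU : 1 ≤ U) (hn : U < n) :
    Λ n = ∑ p ∈ n.divisorsAntidiagonal.filter (fun p => p.1 ≤ U),
        ((ArithmeticFunction.moebius p.1 : ℤ) : ℝ) * Real.log p.2
      - ∑ d ∈ n.divisors, ccf U d
      - ∑ p ∈ n.divisorsAntidiagonal.filter (fun p => U < p.1 ∧ U < p.2), aaf U p.1 * Λ p.2 := by
  have hfun : V1_low U V1_m * ArithmeticFunction.log =
      (V1_low U V1_m * V1_low U Λ) * (ArithmeticFunction.zeta : ArithmeticFunction ℝ) +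
        (V1_low U V1_m * (ArithmeticFunction.zeta : ArithmeticFunction ℝ)) * V1_high U Λ := by
    have h1 : (ArithmeticFunction.log : ArithmeticFunction ℝ) =
        (V1_low U Λ + V1_high U Λ) * (ArithmeticFunction.zeta : ArithmeticFunction ℝ) := by
      rw [← V1_split, ArithmeticFunction.vonMangoldt_mul_zeta]
    rw [h1]
    ring
  have h2 := congrArg (fun F : ArithmeticFunction ℝ => F n) hfun
  simp only [ArithmeticFunction.add_apply] at h2
  rw [V1_conv, ArithmeticFunction.coe_mul_zeta_apply] at h2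
  have h3 : ∑ p ∈ n.divisorsAntidiagonal.filter (fun p => p.1 ≤ U),
        ((ArithmeticFunction.moebius p.1 : ℤ) : ℝ) * (ArithmeticFunction.log : ArithmeticFunction ℝ) p.2 =
      ∑ p ∈ n.divisorsAntidiagonal.filter (fun p => p.1 ≤ U),
        ((ArithmeticFunction.moebius p.1 : ℤ) : ℝ) * Real.log p.2 :=
    Finset.sum_congr rfl fun p _ => by rw [ArithmeticFunction.log_apply]
  have h4 : ∑ d ∈ n.divisors, (V1_low U V1_m * V1_low U Λ) d = ∑ d ∈ n.divisors, ccf U d :=
    Finset.sum_congr rfl fun d _ => V1_ccf U d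
  have hn0 : n ≠ 0 := by omega
  have h5 : ((V1_low U V1_m * (ArithmeticFunction.zeta : ArithmeticFunction ℝ)) * V1_high U Λ) n =
      Λ n + ∑ p ∈ n.divisorsAntidiagonal.filter (fun p => U < p.1 ∧ U < p.2), aaf U p.1 * Λ p.2 := by
    rw [ArithmeticFunction.mul_apply]
    have hmem : ((1, n) : ℕ × ℕ) ∈ n.divisorsAntidiagonal :=
      Nat.mem_divisorsAntidiagonal.2 ⟨one_mul n, hn0⟩
    rw [← Finset.add_sum_erase _ _ hmem]
    congr 1
    · show (V1_low U V1_m * (ArithmeticFunction.zeta : ArithmeticFunction ℝ)) 1 * V1_high U Λ n = Λ n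
      rw [V1_aaf, V1_one U hU, one_mul, V1_high_apply, if_pos hn]
    · have hsub : n.divisorsAntidiagonal.filter (fun p => U < p.1 ∧ U < p.2) ⊆
          n.divisorsAntidiagonal.erase (1, n) := by
        intro p hp
        obtain ⟨hp1, hp2, -⟩ := Finset.mem_filter.1 hp
        refine Finset.mem_erase.2 ⟨?_, hp1⟩
        rintro rfl
        have : U < 1 := hp2
        omega
      rw [← Finset.sum_subset hsub]
      · refine Finset.sum_congr rfl fun p hp => ?_
        obtain ⟨-, -, hp3⟩ := Finset.mem_filter.1 hp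
        rw [V1_aaf, V1_high_apply, if_pos hp3]
      · intro p hp hp'
        obtain ⟨hp1, hp2⟩ := Finset.mem_erase.1 hp
        rw [V1_aaf, V1_high_apply]
        by_cases hb : U < p.2
        · have ha : p.1 ≤ U := by
            by_contra hcon
            exact hp' (Finset.mem_filter.2 ⟨hp2, by omega, hb⟩)
          obtain ⟨hpm, -⟩ := Nat.mem_divisorsAntidiagonal.1 hp2
          have h10 : p.1 ≠ 0 := by
            intro h0
            rw [h0, zero_mul] at hpm
            exact hn0 hpm.symm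
          have h11 : p.1 ≠ 1 := by
            intro h1
            rw [h1, one_mul] at hpm
            exact hp1 (Prod.ext h1 hpm)
          rw [aaf_eq_zero U p.1 (by omega) ha, zero_mul]
        · rw [if_neg hb, mul_zero]
  rw [h3, h4, h5] at h2
  linarith

end Pool.Agent.LibHG31
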