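import Pool.Agent.LibHG31.V2
import Pool.Agent.LibMaier.Density

/-! ROW V3 (STRONG): Type II part. -/

namespace Pool.Agent.LibHG31

open Finset
open scoped ArithmeticFunction.vonMangoldt ArithmeticFunction.Moebius

theorem V3_one_le_log (X : ℕ) (hX : 2 ≤ X) : 1 ≤ 2 * Real.log X := by
  have h1 : Real.log 2 ≤ Real.log X := Real.log_le_log (by norm_num) (by exact_mod_cast hX)
  have h2 := Real.log_two_gt_d9
  linarith

theorem V3_log_two_mul (X : ℕ) (hX : 2 ≤ X) : Real.log (2 * X) ≤ 2 * Real.log X := by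
  have hX0 : (0 : ℝ) < X := by exact_mod_cast (by omega : 0 < X)
  rw [Real.log_mul (by norm_num) hX0.ne']
  have h1 : Real.log 2 ≤ Real.log X := Real.log_le_log (by norm_num) (by exact_mod_cast hX)
  linarith

theorem sum_tau_sq_le : ∃ C : ℝ, 0 < C ∧ ∀ M X : ℕ, 2 ≤ X → 1 ≤ M → M ≤ X →
    ∑ m ∈ Ico M (2 * M), ((m.divisors.card : ℝ)) ^ 2 ≤ C * M * Real.log X ^ 4 := by
  refine ⟨512, by norm_num, ?_⟩
  intro M X hX hM hMX
  have h1 : ∑ m ∈ Ico M (2 * M), ((m.divisors.card : ℝ)) ^ 2 ≤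
      ∑ m ∈ Ico M (2 * M), (2 * M : ℝ) * (((m.divisors.card : ℝ)) ^ 2 / m) := by
    refine Finset.sum_le_sum fun m hm => ?_
    rw [mem_Ico] at hm
    have hm0 : (0 : ℝ) < m := by exact_mod_cast (by omega : 0 < m)
    have hm2 : (m : ℝ) ≤ 2 * M := by exact_mod_cast hm.2.le
    rw [mul_div_assoc', le_div_iff₀ hm0]
    have : (0 : ℝ) ≤ ((m.divisors.card : ℝ)) ^ 2 := by positivity
    nlinarith
  rw [← Finset.mul_sum] at h1
  have h2 : ∑ m ∈ Ico M (2 * M), (((m.divisors.card : ℝ)) ^ 2 / m) ≤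
      ∑ k ∈ Icc 1 (2 * M), ((k.divisors.card : ℝ)) ^ 2 / k := by
    apply Finset.sum_le_sum_of_subset_of_nonneg
    · intro m hm
      rw [mem_Ico] at hm
      rw [mem_Icc]
      omega
    · intro i _ _
      positivity
  have h3 := Pool.Agent.LibMaier.sum_div_card_sq_le (2 * M)
  have h4 : Pool.Agent.LibMaier.Hs (2 * M) ≤ 4 * Real.log X := by
    refine Pool.Agent.LibMaier.Hs_le.trans ?_
    have h5 : Real.log ((2 * M : ℕ) : ℝ) ≤ Real.log (2 * X) := by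
      apply Real.log_le_log
      · exact_mod_cast (by omega : 0 < 2 * M)
      · push_cast
        have : (M : ℝ) ≤ X := by exact_mod_cast hMX
        linarith
    have h6 := V3_log_two_mul X hX
    have h7 := V3_one_le_log X hX
    linarith
  have h8 : Pool.Agent.LibMaier.Hs (2 * M) ^ 4 ≤ (4 * Real.log X) ^ 4 :=
    pow_le_pow_left₀ (Pool.Agent.LibMaier.Hs_nonneg _) h4 4
  have hM0 : (0 : ℝ) ≤ M := Nat.cast_nonneg M
  calc ∑ m ∈ Ico M (2 * M), ((m.divisors.card : ℝ)) ^ 2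
      ≤ 2 * M * ∑ m ∈ Ico M (2 * M), (((m.divisors.card : ℝ)) ^ 2 / m) := h1
    _ ≤ 2 * M * (4 * Real.log X) ^ 4 := by
        refine mul_le_mul_of_nonneg_left (h2.trans (h3.trans h8)) (by positivity)
    _ = 512 * M * Real.log X ^ 4 := by ring

/-- Cauchy-Schwarz -/
theorem V3_cauchy (S : Finset ℕ) (a : ℕ → ℝ) (g : ℕ → ℂ) (A B : ℝ) (hA : ∑ m ∈ S, a m ^ 2 ≤ A)
    (hB : ∑ m ∈ S, ‖g m‖ ^ 2 ≤ B) : ‖∑ m ∈ S, (a m : ℂ) * g m‖ ≤ Real.sqrt A * Real.sqrt B := by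
  have h1 : ‖∑ m ∈ S, (a m : ℂ) * g m‖ ≤ ∑ m ∈ S, |a m| * ‖g m‖ := by
    refine (norm_sum_le _ _).trans (le_of_eq ?_)
    refine Finset.sum_congr rfl fun m _ => ?_
    rw [norm_mul, Complex.norm_real, Real.norm_eq_abs]
  refine h1.trans ?_
  have h2 := Real.sum_mul_le_sqrt_mul_sqrt S (fun m => |a m|) (fun m => ‖g m‖)
  refine h2.trans (mul_le_mul (Real.sqrt_le_sqrt ?_) (Real.sqrt_le_sqrt hB) (Real.sqrt_nonneg _) (Real.sqrt_nonneg _))
  simpa using hA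

theorem V3_Lam_le (X n N : ℕ) (hX : 2 ≤ X) (hn : n < 2 * N) (hN : N ≤ X) : Λ n ≤ 2 * Real.log X := by
  refine (ArithmeticFunction.vonMangoldt_le_log).trans ?_
  rcases Nat.eq_zero_or_pos n with rfl | hn0
  · have := V3_one_le_log X hX
    simp
    linarith
  · refine le_trans (Real.log_le_log (by exact_mod_cast hn0) ?_) (V3_log_two_mul X hX)
    have : n ≤ 2 * X := by omega
    exact_mod_cast this

theorem V3_sqrt_mul_le (A B R : ℝ) (hA : 0 ≤ A) (hR : 0 ≤ R) (h : A * B ≤ R ^ 2) :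
    Real.sqrt A * Real.sqrt B ≤ R := by
  rw [← Real.sqrt_mul hA]
  exact Real.sqrt_le_iff.mpr ⟨hR, h⟩

theorem box_le : ∃ C : ℝ, 0 < C ∧ ∀ (X U M N : ℕ) (f : ℕ → ℂ) (E2 : ℝ),
    3 ≤ X → 1 ≤ U → U ≤ M → U ≤ N → 0 < E2 → E2 ≤ 1 → (∀ n, ‖f n‖ ≤ 1) → (∀ n, X ≤ n → f n = 0) →
    (∀ M' N' : ℕ, U ≤ M' → M' ≤ N' → M' * N' ≤ X → ∀ β : ℕ → ℂ, (∀ n, ‖β n‖ ≤ 1) →
      ∑ m ∈ Ico M' (2 * M'), ‖∑ n ∈ Ico N' (2 * N'), β n * f (m * n)‖ ^ 2 ≤ E2 * N' * X) →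
    ∀ (S T : Finset ℕ), S ⊆ Ico M (2 * M) → T ⊆ Ico N (2 * N) →
    ‖∑ m ∈ S, ∑ n ∈ T, ((aaf U m * Λ n : ℝ) : ℂ) * f (m * n)‖ ≤ C * X * Real.log X ^ 6 * E2 ^ (1 / 4 : ℝ) := by
  obtain ⟨C₁, hC₁, hτ⟩ := sum_tau_sq_le
  refine ⟨4 * C₁ + 4, by positivity, ?_⟩
  intro X U M N f E2 hX hU hM hN hE hE1 hf hfX hyp S T hS hT
  have hX2 : 2 ≤ X := by omega
  set ℓ := Real.log X with hℓ
  have hX3 : (3 : ℝ) ≤ X := by exact_mod_cast hX
  have hX0 : (0 : ℝ) < X := by linarith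
  have hℓ1 : 1 ≤ ℓ := by
    rw [hℓ, Real.le_log_iff_exp_le hX0]
    have := Real.exp_one_lt_d9
    linarith
  have hℓ0 : 0 < ℓ := by linarith
  set e : ℝ := E2 ^ (1 / 4 : ℝ) with he
  have he0 : 0 < e := Real.rpow_pos_of_pos hE _
  have he1 : e ≤ 1 := Real.rpow_le_one hE.le hE1 (by norm_num)
  have he4 : e ^ 4 = E2 := by
    rw [he, ← Real.rpow_natCast, ← Real.rpow_mul hE.le]
    norm_num
  have hgoal0 : 0 ≤ (4 * C₁ + 4) * X * ℓ ^ 6 * e := by positivity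
  have hM1 : 1 ≤ M := hU.trans hM
  have hN1 : 1 ≤ N := hU.trans hN
  by_cases hMN : X ≤ M * N
  · have h0 : ∑ m ∈ S, ∑ n ∈ T, ((aaf U m * Λ n : ℝ) : ℂ) * f (m * n) = 0 := by
      refine Finset.sum_eq_zero fun m hm => Finset.sum_eq_zero fun n hn => ?_
      have hm' := mem_Ico.mp (hS hm)
      have hn' := mem_Ico.mp (hT hn)
      rw [hfX (m * n) (hMN.trans (Nat.mul_le_mul hm'.1 hn'.1)), mul_zero]
    rw [h0, norm_zero]
    exact hgoal0
  push Not at hMN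
  have hMNR : (M : ℝ) * N ≤ X := by exact_mod_cast hMN.le
  have hMX : M ≤ X := (Nat.le_mul_of_pos_right M hN1).trans hMN.le
  have hNX : N ≤ X := (Nat.le_mul_of_pos_left N hM1).trans hMN.le
  have hM0 : (0 : ℝ) < M := by exact_mod_cast hM1
  have hN0 : (0 : ℝ) < N := by exact_mod_cast hN1
  have hasq : ∑ m ∈ S, aaf U m ^ 2 ≤ C₁ * M * ℓ ^ 4 := by
    refine le_trans ?_ (hτ M X hX2 hM1 hMX)
    refine (Finset.sum_le_sum (g := fun m => ((m.divisors.card : ℝ)) ^ 2) fun m _ => ?_).trans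
      (Finset.sum_le_sum_of_subset_of_nonneg hS fun _ _ _ => by positivity)
    rw [← sq_abs]
    exact pow_le_pow_left₀ (abs_nonneg _) (abs_aaf_le U m) 2
  have hΛ0 : ∀ n, 0 ≤ Λ n := fun n => ArithmeticFunction.vonMangoldt_nonneg
  have hΛT : ∀ n ∈ T, Λ n ≤ 2 * ℓ := fun n hn =>
    V3_Lam_le X n N hX2 (mem_Ico.mp (hT hn)).2 hNX
  have hTcard : (T.card : ℝ) ≤ N := by
    have := card_le_card hT
    rw [Nat.card_Ico] at this
    have h2 : T.card ≤ N := by omega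
    exact_mod_cast h2
  have hXpow : ∀ k ≤ 6, (X : ℝ) * ℓ ^ k * e ≤ X * ℓ ^ 6 * e := by
    intro k hk
    have := pow_le_pow_right₀ hℓ1 hk
    gcongr
  rcases le_or_gt M N with hle | hlt
  · -- Case `M ≤ N`
    let β : ℕ → ℂ := fun n => if n ∈ T then ((Λ n / (2 * ℓ) : ℝ) : ℂ) else 0
    have hβ : ∀ n, ‖β n‖ ≤ 1 := by
      intro n
      simp only [β]
      split_ifs with hn
      · rw [Complex.norm_real, Real.norm_of_nonneg (div_nonneg (hΛ0 n) (by linarith)),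
          div_le_one (by linarith)]
        exact hΛT n hn
      · simp
    have h1 := hyp M N hM hle hMN.le β hβ
    have h2 : ∑ m ∈ S, ∑ n ∈ T, ((aaf U m * Λ n : ℝ) : ℂ) * f (m * n) =
        ∑ m ∈ S, (aaf U m : ℂ) * (((2 * ℓ : ℝ) : ℂ) * ∑ n ∈ Ico N (2 * N), β n * f (m * n)) := by
      refine Finset.sum_congr rfl fun m _ => ?_
      have h3 : ∑ n ∈ Ico N (2 * N), β n * f (m * n) =
          ∑ n ∈ T, ((Λ n / (2 * ℓ) : ℝ) : ℂ) * f (m * n) := by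
        rw [← Finset.sum_subset hT]
        · refine Finset.sum_congr rfl fun n hn => ?_
          simp only [β, if_pos hn]
        · intro n _ hn
          simp only [β, if_neg hn, zero_mul]
      rw [h3, Finset.mul_sum, Finset.mul_sum]
      refine Finset.sum_congr rfl fun n _ => ?_
      have h4 : ((2 * ℓ : ℝ) : ℂ) * ((Λ n / (2 * ℓ) : ℝ) : ℂ) = ((Λ n : ℝ) : ℂ) := by
        rw [← Complex.ofReal_mul]
        congr 1
        field_simp
      rw [← mul_assoc, ← mul_assoc, mul_assoc ((aaf U m : ℝ) : ℂ), h4]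
      push_cast
      ring
    rw [h2]
    have hB : ∑ m ∈ S, ‖((2 * ℓ : ℝ) : ℂ) * ∑ n ∈ Ico N (2 * N), β n * f (m * n)‖ ^ 2 ≤
        (2 * ℓ) ^ 2 * (E2 * N * X) := by
      have h5 : ∀ m, ‖((2 * ℓ : ℝ) : ℂ) * ∑ n ∈ Ico N (2 * N), β n * f (m * n)‖ ^ 2 =
          (2 * ℓ) ^ 2 * ‖∑ n ∈ Ico N (2 * N), β n * f (m * n)‖ ^ 2 := by
        intro m
        rw [norm_mul, mul_pow, Complex.norm_real, Real.norm_of_nonneg (by linarith)]
      simp only [h5]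
      rw [← Finset.mul_sum]
      refine mul_le_mul_of_nonneg_left (le_trans ?_ h1) (by positivity)
      exact Finset.sum_le_sum_of_subset_of_nonneg hS fun _ _ _ => by positivity
    refine (V3_cauchy S (fun m => aaf U m) _ _ _ hasq hB).trans ?_
    have hR : Real.sqrt (C₁ * M * ℓ ^ 4) * Real.sqrt ((2 * ℓ) ^ 2 * (E2 * N * X)) ≤
        2 * (C₁ + 1) * (X * ℓ ^ 3 * e) := by
      apply V3_sqrt_mul_le _ _ _ (by positivity) (by positivity)
      rw [← he4]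
      have e1 : C₁ * M * ℓ ^ 4 * ((2 * ℓ) ^ 2 * (e ^ 4 * N * X)) =
          (4 * X * ℓ ^ 6 * e ^ 2) * (C₁ * (M * N) * e ^ 2) := by ring
      have e2 : (2 * (C₁ + 1) * (X * ℓ ^ 3 * e)) ^ 2 =
          (4 * X * ℓ ^ 6 * e ^ 2) * ((C₁ + 1) ^ 2 * X) := by ring
      rw [e1, e2]
      apply mul_le_mul_of_nonneg_left _ (by positivity)
      have h6 : e ^ 2 ≤ 1 := pow_le_one₀ he0.le he1
      calc C₁ * (M * N) * e ^ 2 ≤ C₁ * X * 1 := by gcongr
        _ ≤ (C₁ + 1) ^ 2 * X := by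
          rw [mul_one]
          exact mul_le_mul_of_nonneg_right (by nlinarith) hX0.le
    refine hR.trans ?_
    have h7 := hXpow 3 (by norm_num)
    have h8 : 0 ≤ (X : ℝ) * ℓ ^ 6 * e := by positivity
    calc 2 * (C₁ + 1) * (X * ℓ ^ 3 * e) ≤ 2 * (C₁ + 1) * (X * ℓ ^ 6 * e) :=
          mul_le_mul_of_nonneg_left h7 (by positivity)
      _ ≤ (4 * C₁ + 4) * X * ℓ ^ 6 * e := by nlinarith
  · -- Case `N < M`
    let a1 : ℕ → ℝ := fun m => if |aaf U m| ≤ 1 / e then aaf U m else 0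
    let a2 : ℕ → ℝ := fun m => if |aaf U m| ≤ 1 / e then 0 else aaf U m
    have ha12 : ∀ m, aaf U m = a1 m + a2 m := by
      intro m
      simp only [a1, a2]
      split_ifs <;> simp
    have hsplit : ∑ m ∈ S, ∑ n ∈ T, ((aaf U m * Λ n : ℝ) : ℂ) * f (m * n) =
        (∑ n ∈ T, ((Λ n : ℝ) : ℂ) * ∑ m ∈ S, ((a1 m : ℝ) : ℂ) * f (n * m)) +
        ∑ m ∈ S, ∑ n ∈ T, ((a2 m * Λ n : ℝ) : ℂ) * f (m * n) := by
      have h1 : (∑ n ∈ T, ((Λ n : ℝ) : ℂ) * ∑ m ∈ S, ((a1 m : ℝ) : ℂ) * f (n * m)) =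
          ∑ m ∈ S, ∑ n ∈ T, ((a1 m * Λ n : ℝ) : ℂ) * f (m * n) := by
        rw [Finset.sum_comm]
        refine Finset.sum_congr rfl fun n _ => ?_
        rw [Finset.mul_sum]
        refine Finset.sum_congr rfl fun m _ => ?_
        rw [mul_comm n m]
        push_cast
        ring
      rw [h1, ← Finset.sum_add_distrib]
      refine Finset.sum_congr rfl fun m _ => ?_
      rw [← Finset.sum_add_distrib]
      refine Finset.sum_congr rfl fun n _ => ?_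
      rw [ha12 m]
      push_cast
      ring
    rw [hsplit]
    -- first part
    have hpart1 : ‖∑ n ∈ T, ((Λ n : ℝ) : ℂ) * ∑ m ∈ S, ((a1 m : ℝ) : ℂ) * f (n * m)‖ ≤
        2 * (X * ℓ ^ 1 * e) := by
      let β : ℕ → ℂ := fun m => if m ∈ S then ((a1 m * e : ℝ) : ℂ) else 0
      have hβ : ∀ m, ‖β m‖ ≤ 1 := by
        intro m
        simp only [β]
        split_ifs with hm
        · rw [Complex.norm_real, Real.norm_eq_abs, abs_mul, abs_of_pos he0]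
          simp only [a1]
          split_ifs with h
          · rwa [le_div_iff₀ he0] at h
          · simp
        · simp
      have h1 := hyp N M hN hlt.le (by rw [mul_comm]; exact hMN.le) β hβ
      have hB : ∑ n ∈ T, ‖∑ m ∈ S, ((a1 m : ℝ) : ℂ) * f (n * m)‖ ^ 2 ≤
          (1 / e) ^ 2 * (E2 * M * X) := by
        have h2 : ∀ n, ∑ m ∈ S, ((a1 m : ℝ) : ℂ) * f (n * m) =
            ((1 / e : ℝ) : ℂ) * ∑ m ∈ Ico M (2 * M), β m * f (n * m) := by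
          intro n
          have h3 : ∑ m ∈ Ico M (2 * M), β m * f (n * m) =
              ∑ m ∈ S, ((a1 m * e : ℝ) : ℂ) * f (n * m) := by
            rw [← Finset.sum_subset hS]
            · refine Finset.sum_congr rfl fun m hm => ?_
              simp only [β, if_pos hm]
            · intro m _ hm
              simp only [β, if_neg hm, zero_mul]
          rw [h3, Finset.mul_sum]
          refine Finset.sum_congr rfl fun m _ => ?_
          rw [← mul_assoc, ← Complex.ofReal_mul]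
          congr 2
          field_simp
        have h4 : ∀ n, ‖∑ m ∈ S, ((a1 m : ℝ) : ℂ) * f (n * m)‖ ^ 2 =
            (1 / e) ^ 2 * ‖∑ m ∈ Ico M (2 * M), β m * f (n * m)‖ ^ 2 := by
          intro n
          rw [h2 n, norm_mul, mul_pow, Complex.norm_real, Real.norm_of_nonneg (by positivity)]
        simp only [h4]
        rw [← Finset.mul_sum]
        refine mul_le_mul_of_nonneg_left (le_trans ?_ h1) (by positivity)
        exact Finset.sum_le_sum_of_subset_of_nonneg hT fun _ _ _ => by positivity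
      have hA : ∑ n ∈ T, (Λ n) ^ 2 ≤ N * (2 * ℓ) ^ 2 := by
        calc ∑ n ∈ T, (Λ n) ^ 2 ≤ ∑ n ∈ T, (2 * ℓ) ^ 2 :=
              Finset.sum_le_sum fun n hn => pow_le_pow_left₀ (hΛ0 n) (hΛT n hn) 2
          _ = T.card * (2 * ℓ) ^ 2 := by rw [Finset.sum_const, nsmul_eq_mul]
          _ ≤ N * (2 * ℓ) ^ 2 := by gcongr
      refine (V3_cauchy T (fun n => Λ n) _ _ _ hA hB).trans ?_
      apply V3_sqrt_mul_le _ _ _ (by positivity) (by positivity)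
      rw [← he4]
      have e1 : N * (2 * ℓ) ^ 2 * ((1 / e) ^ 2 * (e ^ 4 * M * X)) =
          (4 * X * ℓ ^ 2 * e ^ 2) * (M * N) := by
        field_simp
        ring
      have e2 : (2 * (X * ℓ ^ 1 * e)) ^ 2 = (4 * X * ℓ ^ 2 * e ^ 2) * X := by ring
      rw [e1, e2]
      exact mul_le_mul_of_nonneg_left hMNR (by positivity)
    -- second part
    have hpart2 : ‖∑ m ∈ S, ∑ n ∈ T, ((a2 m * Λ n : ℝ) : ℂ) * f (m * n)‖ ≤
        2 * C₁ * (X * ℓ ^ 5 * e) := by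
      have h1 : ‖∑ m ∈ S, ∑ n ∈ T, ((a2 m * Λ n : ℝ) : ℂ) * f (m * n)‖ ≤
          ∑ m ∈ S, ∑ n ∈ T, (e * aaf U m ^ 2) * (2 * ℓ) := by
        refine (norm_sum_le _ _).trans (Finset.sum_le_sum fun m _ => ?_)
        refine (norm_sum_le _ _).trans (Finset.sum_le_sum fun n hn => ?_)
        rw [norm_mul, Complex.norm_real, Real.norm_eq_abs, abs_mul, abs_of_nonneg (hΛ0 n)]
        have h2 : |a2 m| ≤ e * aaf U m ^ 2 := by
          simp only [a2]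
          split_ifs with h
          · simp
            positivity
          · push Not at h
            rw [div_lt_iff₀ he0] at h
            rw [← sq_abs]
            nlinarith [abs_nonneg (aaf U m)]
        calc |a2 m| * Λ n * ‖f (m * n)‖ ≤ (e * aaf U m ^ 2) * (2 * ℓ) * 1 := by
              have := hΛT n hn
              have := hf (m * n)
              have := hΛ0 n
              gcongr
          _ = _ := mul_one _
      refine h1.trans ?_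
      simp only [Finset.sum_const, nsmul_eq_mul]
      have h3 : ∑ m ∈ S, (T.card : ℝ) * (e * aaf U m ^ 2 * (2 * ℓ)) =
          T.card * e * (2 * ℓ) * ∑ m ∈ S, aaf U m ^ 2 := by
        rw [Finset.mul_sum]
        refine Finset.sum_congr rfl fun m _ => ?_
        ring
      rw [h3]
      calc (T.card : ℝ) * e * (2 * ℓ) * ∑ m ∈ S, aaf U m ^ 2 ≤ N * e * (2 * ℓ) * (C₁ * M * ℓ ^ 4) := by
            gcongr
        _ = 2 * C₁ * ℓ ^ 5 * e * (M * N) := by ring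
        _ ≤ 2 * C₁ * ℓ ^ 5 * e * X := mul_le_mul_of_nonneg_left hMNR (by positivity)
        _ = 2 * C₁ * (X * ℓ ^ 5 * e) := by ring
    have h7 := hXpow 1 (by norm_num)
    have h8 := hXpow 5 (by norm_num)
    have h9 : 0 ≤ (X : ℝ) * ℓ ^ 6 * e := by positivity
    refine (norm_add_le _ _).trans ((add_le_add hpart1 hpart2).trans ?_)
    calc 2 * (X * ℓ ^ 1 * e) + 2 * C₁ * (X * ℓ ^ 5 * e) ≤
          2 * (X * ℓ ^ 6 * e) + 2 * C₁ * (X * ℓ ^ 6 * e) :=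
          add_le_add (mul_le_mul_of_nonneg_left h7 (by norm_num))
            (mul_le_mul_of_nonneg_left h8 (by positivity))
      _ ≤ (4 * C₁ + 4) * X * ℓ ^ 6 * e := by nlinarith

/-- **the tool (VG)**. Dyadic decomposition of `bil U X f`: `Ico (U+1) X` is covered by the disjoint sets
`Ico (U 2^i) (U 2^(i+1)) ∩ Ico (U+1) X`, `i < ⌈log2 X⌉ + 1`; `≤ (2 log X / log 2 + 2)²` boxes. -/
theorem VG : ∃ C : ℝ, 0 < C ∧ ∀ (X U : ℕ) (f : ℕ → ℂ) (B : ℕ → ℝ) (E2 : ℝ),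
    2 ≤ U → U ^ 2 ≤ X → (∀ n, ‖f n‖ ≤ 1) → (∀ n, X ≤ n → f n = 0) → (∀ m, 0 ≤ B m) →
    (∀ m ∈ Icc 1 (U ^ 2), ∀ Y ≤ X, ‖∑ k ∈ (range Y).filter (fun k => m ∣ k), f k‖ ≤ B m) →
    0 < E2 → E2 ≤ 1 →
    (∀ M N : ℕ, U ≤ M → M ≤ N → M * N ≤ X → ∀ β : ℕ → ℂ, (∀ n, ‖β n‖ ≤ 1) →
      ∑ m ∈ Ico M (2 * M), ‖∑ n ∈ Ico N (2 * N), β n * f (m * n)‖ ^ 2 ≤ E2 * N * X) →
    ‖∑ n ∈ range X, ((Λ n : ℝ) : ℂ) * f n‖ ≤
      C * Real.log X ^ 8 * (U + ∑ m ∈ Icc 1 (U ^ 2), B m + X * E2 ^ (1 / 4 : ℝ)) := by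
  obtain ⟨C₁, hC₁, hI⟩ := sum_vonMangoldt_le
  obtain ⟨C₂, hC₂, hII⟩ := box_le
  refine ⟨C₁ + 9 * C₂, by positivity, ?_⟩
  intro X U f B E2 hU hUX hf hfX hB hBm hE0 hE1 hyp
  have hX4 : 4 ≤ X := by nlinarith
  have hℓ1 : 1 ≤ Real.log X := by
    have h1 : Real.log 4 ≤ Real.log X := Real.log_le_log (by norm_num) (by exact_mod_cast hX4)
    have h2 : Real.log 4 = 2 * Real.log 2 := by
      rw [show (4 : ℝ) = 2 ^ 2 by norm_num, Real.log_pow]
      norm_num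
    have h3 := Real.log_two_gt_d9
    linarith
  have h0 := hI X U f B hU hUX hf hfX hB hBm
  have hlog : ((Nat.log 2 X + 1 : ℕ) : ℝ) ≤ 3 * Real.log X := by
    have h1 : ((Nat.log 2 X : ℕ) : ℝ) * Real.log 2 ≤ Real.log X := by
      rw [← Real.log_pow]
      apply Real.log_le_log (by positivity)
      exact_mod_cast Nat.pow_log_le_self 2 (by omega)
    have h2 := Real.log_two_gt_d9
    have h3 : ((Nat.log 2 X : ℕ) : ℝ) ≤ 2 * Real.log X := by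
      have h4 : (0 : ℝ) ≤ ((Nat.log 2 X : ℕ) : ℝ) := Nat.cast_nonneg _
      nlinarith
    push_cast
    linarith
  obtain ⟨k, hk⟩ : ∃ k, k = Nat.log 2 X + 1 := ⟨_, rfl⟩
  rw [← hk] at hlog
  let S : ℕ → Finset ℕ := fun i => (Ico (U + 1) X).filter (fun m => Nat.log 2 (m / U) = i)
  have hmaps : ∀ m ∈ Ico (U + 1) X, Nat.log 2 (m / U) ∈ range k := by
    intro m hm
    rw [mem_Ico] at hm
    rw [mem_range, hk, Nat.lt_succ_iff]
    exact Nat.log_mono_right ((Nat.div_le_self m U).trans hm.2.le)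
  have hsub : ∀ i, S i ⊆ Ico (U * 2 ^ i) (2 * (U * 2 ^ i)) := by
    intro i m hm
    simp only [S, mem_filter, mem_Ico] at hm
    obtain ⟨⟨h1, h2⟩, h3⟩ := hm
    have hq : m / U ≠ 0 := (Nat.div_pos (by omega) (by omega)).ne'
    have h4 : 2 ^ i ≤ m / U := by
      rw [← h3]
      exact Nat.pow_log_le_self 2 hq
    have h5 : m / U < 2 ^ (i + 1) := by
      rw [← h3]
      exact Nat.lt_pow_succ_log_self (by norm_num) _
    rw [mem_Ico]
    constructor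
    · calc U * 2 ^ i ≤ U * (m / U) := Nat.mul_le_mul_left _ h4
        _ ≤ m := Nat.mul_div_le m U
    · rw [Nat.div_lt_iff_lt_mul (by omega)] at h5
      rw [pow_succ] at h5
      nlinarith
  have hbil : bil U X f = ∑ i ∈ range k, ∑ j ∈ range k, ∑ m ∈ S i, ∑ n ∈ S j,
      ((aaf U m * Λ n : ℝ) : ℂ) * f (m * n) := by
    unfold bil
    rw [← Finset.sum_fiberwise_of_maps_to hmaps]
    refine Finset.sum_congr rfl fun i _ => ?_
    rw [Finset.sum_comm (s := range k)]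
    refine Finset.sum_congr rfl fun m _ => ?_
    exact (Finset.sum_fiberwise_of_maps_to hmaps _).symm
  have hbox : ‖bil U X f‖ ≤ (k : ℝ) * (k * (C₂ * X * Real.log X ^ 6 * E2 ^ (1 / 4 : ℝ))) := by
    rw [hbil]
    have h1 : ∀ i j, ‖∑ m ∈ S i, ∑ n ∈ S j, ((aaf U m * Λ n : ℝ) : ℂ) * f (m * n)‖ ≤
        C₂ * X * Real.log X ^ 6 * E2 ^ (1 / 4 : ℝ) := by
      intro i j
      refine hII X U (U * 2 ^ i) (U * 2 ^ j) f E2 (by omega) (by omega) ?_ ?_ hE0 hE1 hf hfX hyp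
        (S i) (S j) (hsub i) (hsub j)
      · exact Nat.le_mul_of_pos_right _ (by positivity)
      · exact Nat.le_mul_of_pos_right _ (by positivity)
    calc ‖∑ i ∈ range k, ∑ j ∈ range k, ∑ m ∈ S i, ∑ n ∈ S j, ((aaf U m * Λ n : ℝ) : ℂ) * f (m * n)‖
        ≤ ∑ i ∈ range k, ‖∑ j ∈ range k, ∑ m ∈ S i, ∑ n ∈ S j,
            ((aaf U m * Λ n : ℝ) : ℂ) * f (m * n)‖ := norm_sum_le _ _
      _ ≤ ∑ i ∈ range k, ∑ j ∈ range k, ‖∑ m ∈ S i, ∑ n ∈ S j,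
            ((aaf U m * Λ n : ℝ) : ℂ) * f (m * n)‖ :=
          Finset.sum_le_sum fun i _ => norm_sum_le _ _
      _ ≤ ∑ i ∈ range k, ∑ j ∈ range k, C₂ * X * Real.log X ^ 6 * E2 ^ (1 / 4 : ℝ) :=
          Finset.sum_le_sum fun i _ => Finset.sum_le_sum fun j _ => h1 i j
      _ = (k : ℝ) * (k * (C₂ * X * Real.log X ^ 6 * E2 ^ (1 / 4 : ℝ))) := by
          simp only [Finset.sum_const, card_range, nsmul_eq_mul]
  have hE4 : 0 ≤ E2 ^ (1 / 4 : ℝ) := Real.rpow_nonneg hE0.le _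
  have hBs : 0 ≤ ∑ m ∈ Icc 1 (U ^ 2), B m := Finset.sum_nonneg fun m _ => hB m
  have hUr : (0 : ℝ) ≤ U := Nat.cast_nonneg _
  have hXr : (0 : ℝ) ≤ X := Nat.cast_nonneg _
  have hpow : Real.log X ^ 3 ≤ Real.log X ^ 8 := pow_le_pow_right₀ hℓ1 (by norm_num)
  have hk2 : (k : ℝ) * (k * (C₂ * X * Real.log X ^ 6 * E2 ^ (1 / 4 : ℝ))) ≤
      9 * C₂ * Real.log X ^ 8 * (X * E2 ^ (1 / 4 : ℝ)) := by
    have h1 : (k : ℝ) * k ≤ (3 * Real.log X) * (3 * Real.log X) :=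
      mul_le_mul hlog hlog (Nat.cast_nonneg _) (by linarith)
    have h2 : 0 ≤ C₂ * X * Real.log X ^ 6 * E2 ^ (1 / 4 : ℝ) := by positivity
    calc (k : ℝ) * (k * (C₂ * X * Real.log X ^ 6 * E2 ^ (1 / 4 : ℝ)))
        = (k * k) * (C₂ * X * Real.log X ^ 6 * E2 ^ (1 / 4 : ℝ)) := by ring
      _ ≤ ((3 * Real.log X) * (3 * Real.log X)) * (C₂ * X * Real.log X ^ 6 * E2 ^ (1 / 4 : ℝ)) :=
          mul_le_mul_of_nonneg_right h1 h2
      _ = 9 * C₂ * Real.log X ^ 8 * (X * E2 ^ (1 / 4 : ℝ)) := by ring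
  have h3 : C₁ * Real.log X ^ 3 * (U + ∑ m ∈ Icc 1 (U ^ 2), B m) ≤
      C₁ * Real.log X ^ 8 * (U + ∑ m ∈ Icc 1 (U ^ 2), B m) :=
    mul_le_mul_of_nonneg_right (mul_le_mul_of_nonneg_left hpow hC₁.le) (by positivity)
  have h4 : 0 ≤ C₁ * Real.log X ^ 8 * (X * E2 ^ (1 / 4 : ℝ)) := by positivity
  have h5 : 0 ≤ 9 * C₂ * Real.log X ^ 8 * (U + ∑ m ∈ Icc 1 (U ^ 2), B m) := by positivity
  calc ‖∑ n ∈ range X, ((Λ n : ℝ) : ℂ) * f n‖
      ≤ C₁ * Real.log X ^ 3 * (U + ∑ m ∈ Icc 1 (U ^ 2), B m) + ‖bil U X f‖ := h0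
    _ ≤ C₁ * Real.log X ^ 8 * (U + ∑ m ∈ Icc 1 (U ^ 2), B m) +
        9 * C₂ * Real.log X ^ 8 * (X * E2 ^ (1 / 4 : ℝ)) := add_le_add h3 (hbox.trans hk2)
    _ ≤ (C₁ + 9 * C₂) * Real.log X ^ 8 * (U + ∑ m ∈ Icc 1 (U ^ 2), B m + X * E2 ^ (1 / 4 : ℝ)) := by
        nlinarith

end Pool.Agent.LibHG31
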