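import Pool.Agent.LibHG31.E3

/-! ROW E4: the product formula for digital sums. -/

namespace Pool.Agent.LibHG31

open Finset

/-- digits below `i` of `v + b^i ε` -/
theorem dg_add_of_lt (b i j v ε : ℕ) (hb : 0 < b) (hj : j < i) : dg b j (v + b ^ i * ε) = dg b j v := by
  obtain ⟨k, rfl⟩ := Nat.exists_eq_add_of_lt hj
  unfold dg
  have e : v + b ^ (j + k + 1) * ε = v + b ^ j * (b * (b ^ k * ε)) := by ring
  rw [e, Nat.add_mul_div_left _ _ (pow_pos hb j), Nat.add_mul_mod_self_left]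

/-- the `i`-th digit of `v + b^i ε` for `v < b^i`, `ε < b` -/
theorem dg_add_self (b i v ε : ℕ) (hb : 0 < b) (hv : v < b ^ i) (hε : ε < b) :
    dg b i (v + b ^ i * ε) = ε := by
  unfold dg
  rw [Nat.add_mul_div_left _ _ (pow_pos hb i), Nat.div_eq_of_lt hv, zero_add, Nat.mod_eq_of_lt hε]

private theorem sum_range_mul' (a b : ℕ) (f : ℕ → ℂ) :
    ∑ n ∈ range (a * b), f n = ∑ ε ∈ range b, ∑ v ∈ range a, f (v + a * ε) := by
  induction b with
  | zero => simp
  | succ b ih =>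
    rw [Nat.mul_succ, Finset.sum_range_add, ih, Finset.sum_range_succ]
    congr 1
    exact Finset.sum_congr rfl fun v _ => by rw [add_comm]

/-- **product formula**. Induction on `i ≥ J`: `n < b^(i+1)` is uniquely `v + b^i ε` (`Finset.sum_bij` or
`Nat.divModEquiv`-like reindexing of `range (b^(i+1))` as `range (b^i) × range b`), the summand factors as
(summand for `v`) * `e(α_i ε) e(-γ b^i ε)`. `om` is an arbitrary function of `n % b^J`; note `(v + b^i ε) % b^J = v % b^J` for `i ≥ J`. -/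
theorem norm_digit_sum (b : ℕ) (hb : 1 ≤ b) (J i : ℕ) (hJ : J ≤ i) (om : ℕ → ℂ) (α : ℕ → ℝ) (γ : ℝ) :
    ‖∑ n ∈ range (b ^ i), om (n % b ^ J) * ee (∑ j ∈ Ico J i, α j * dg b j n) * ee (-(γ * n))‖ =
      ‖∑ v ∈ range (b ^ J), om v * ee (-(γ * v))‖ * ∏ j ∈ Ico J i, (b * phi b (α j - γ * (b : ℝ) ^ j)) := by
  induction i, hJ using Nat.le_induction with
  | base =>
    simp only [Ico_self, Finset.sum_empty, Finset.prod_empty, mul_one, ee_zero]
    congr 1
    refine Finset.sum_congr rfl fun n hn => ?_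
    rw [Nat.mod_eq_of_lt (Finset.mem_range.1 hn)]
  | succ i hi ih =>
    have hb0 : 0 < b := hb
    have hbR : (0 : ℝ) < b := by exact_mod_cast hb0
    have e1 : ∑ n ∈ range (b ^ (i + 1)), om (n % b ^ J) * ee (∑ j ∈ Ico J (i + 1), α j * dg b j n) *
        ee (-(γ * n)) = (∑ ε ∈ range b, ee (ε * (α i - γ * (b : ℝ) ^ i))) *
          ∑ n ∈ range (b ^ i), om (n % b ^ J) * ee (∑ j ∈ Ico J i, α j * dg b j n) * ee (-(γ * n)) := by
      rw [pow_succ, sum_range_mul', Finset.sum_mul_sum]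
      refine Finset.sum_congr rfl fun ε hε => Finset.sum_congr rfl fun v hv => ?_
      have hv' := Finset.mem_range.1 hv
      have hε' := Finset.mem_range.1 hε
      have h1 : (v + b ^ i * ε) % b ^ J = v % b ^ J := by
        obtain ⟨k, rfl⟩ := Nat.exists_eq_add_of_le hi
        rw [pow_add, mul_assoc, Nat.add_mul_mod_self_left]
      have h2 : ∑ j ∈ Ico J (i + 1), α j * dg b j (v + b ^ i * ε) =
          (∑ j ∈ Ico J i, α j * dg b j v) + α i * ε := by
        rw [Finset.sum_Ico_succ_top hi, dg_add_self b i v ε hb0 hv' hε']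
        congr 1
        refine Finset.sum_congr rfl fun j hj => ?_
        rw [dg_add_of_lt b i j v ε hb0 (Finset.mem_Ico.1 hj).2]
      have h3 : ee (-(γ * ((v + b ^ i * ε : ℕ) : ℝ))) * ee (α i * ε) =
          ee (-(γ * v)) * ee (ε * (α i - γ * (b : ℝ) ^ i)) := by
        rw [← ee_add, ← ee_add]
        congr 1
        push_cast
        ring
      rw [h1, h2, ee_add]
      linear_combination (om (v % b ^ J) * ee (∑ j ∈ Ico J i, α j * dg b j v)) * h3
    rw [e1, norm_mul, ih, Finset.prod_Ico_succ_top hi]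
    have e2 : ‖∑ ε ∈ range b, ee (ε * (α i - γ * (b : ℝ) ^ i))‖ = b * phi b (α i - γ * (b : ℝ) ^ i) := by
      unfold phi
      rw [mul_div_assoc']
      exact (mul_div_cancel_left₀ _ hbR.ne').symm
    rw [e2]
    ring

/-- reversal form: `|∑_{u < b^m} e(γ u - θ rv_m(u))| = b^m ∏_{j<m} phi(θ b^(m-1-j) - γ b^j)`. From the previous one with
`J = 0`, `α_j = -θ b^(m-1-j)`, `-γ` for `γ` (and `phi_neg`); `rv b m u = ∑_{j<m} dg b j u * b^(m-1-j)`. -/
theorem norm_rv_sum (b : ℕ) (hb : 1 ≤ b) (m : ℕ) (θ γ : ℝ) :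
    ‖∑ u ∈ range (b ^ m), ee (γ * u - θ * rv b m u)‖ =
      (b : ℝ) ^ m * ∏ j ∈ range m, phi b (θ * (b : ℝ) ^ (m - 1 - j) - γ * (b : ℝ) ^ j) := by
  have h := norm_digit_sum b hb 0 m (Nat.zero_le m) (fun _ => 1) (fun j => -(θ * (b : ℝ) ^ (m - 1 - j))) (-γ)
  have e1 : ∑ u ∈ range (b ^ m), ee (γ * u - θ * rv b m u) =
      ∑ n ∈ range (b ^ m), (1 : ℂ) * ee (∑ j ∈ Ico 0 m, -(θ * (b : ℝ) ^ (m - 1 - j)) * dg b j n) *
        ee (-(-γ * n)) := by
    refine Finset.sum_congr rfl fun u _ => ?_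
    rw [one_mul, ← ee_add]
    congr 1
    have e2 : ((rv b m u : ℕ) : ℝ) = ∑ j ∈ Ico 0 m, (dg b j u : ℝ) * (b : ℝ) ^ (m - 1 - j) := by
      unfold rv
      rw [← Finset.range_eq_Ico]
      push_cast
      rfl
    rw [e2, Finset.mul_sum]
    have e3 : ∑ j ∈ Ico 0 m, -(θ * (b : ℝ) ^ (m - 1 - j)) * (dg b j u : ℝ) =
        -∑ j ∈ Ico 0 m, θ * ((dg b j u : ℝ) * (b : ℝ) ^ (m - 1 - j)) := by
      rw [← Finset.sum_neg_distrib]
      exact Finset.sum_congr rfl fun j _ => by ring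
    rw [e3]
    ring
  rw [e1, h]
  have e4 : ‖∑ v ∈ range (b ^ 0), (1 : ℂ) * ee (-(-γ * v))‖ = 1 := by
    simp [ee_zero]
  rw [e4, one_mul, ← Finset.range_eq_Ico, Finset.prod_mul_distrib, Finset.prod_const, Finset.card_range]
  congr 1
  refine Finset.prod_congr rfl fun j _ => ?_
  rw [← phi_neg]
  congr 1
  ring

end Pool.Agent.LibHG31
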