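import Pool.Agent.LibHG31.Defs

/-! ROW E5: the reversal. -/

namespace Pool.Agent.LibHG31

open Finset

theorem dg_lt (b j n : ℕ) (hb : 0 < b) : dg b j n < b := Nat.mod_lt _ hb

/-- `n < b^L` is the sum of its digits -/
theorem sum_dg (b L n : ℕ) (hb : 0 < b) (hn : n < b ^ L) : ∑ j ∈ range L, dg b j n * b ^ j = n := by
  have h : ∀ L, ∑ j ∈ range L, dg b j n * b ^ j = n % b ^ L := by
    intro L
    induction L with
    | zero => simp [Nat.mod_one]
    | succ L ih =>
      rw [Finset.sum_range_succ, ih, Nat.mod_pow_succ]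
      unfold dg
      ring
  rw [h, Nat.mod_eq_of_lt hn]

private theorem E5_sum_lt (b : ℕ) (hb : 1 ≤ b) (a : ℕ → ℕ) (L : ℕ) (ha : ∀ k < L, a k < b) :
    ∑ k ∈ range L, a k * b ^ k < b ^ L := by
  induction L with
  | zero => simp
  | succ L ih =>
    rw [Finset.sum_range_succ]
    have h1 := ih fun k hk => ha k (by omega)
    have h2 : a L + 1 ≤ b := ha L (by omega)
    have h3 : (a L + 1) * b ^ L ≤ b * b ^ L := Nat.mul_le_mul_right _ h2
    rw [pow_succ]
    nlinarith

private theorem E5_dg_add (b i v ε : ℕ) (hb : 0 < b) : dg b i (v + b ^ (i + 1) * ε) = dg b i v := by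
  unfold dg
  have e : v + b ^ (i + 1) * ε = v + b ^ i * (b * ε) := by ring
  rw [e, Nat.add_mul_div_left _ _ (pow_pos hb i), Nat.add_mul_mod_self_left]

private theorem E5_dg_sum (b : ℕ) (hb : 1 ≤ b) (a : ℕ → ℕ) (L i : ℕ) (ha : ∀ k < L, a k < b) (hi : i < L) :
    dg b i (∑ k ∈ range L, a k * b ^ k) = a i := by
  obtain ⟨m, rfl⟩ := Nat.exists_eq_add_of_le (Nat.succ_le_of_lt hi)
  rw [Finset.sum_range_add]
  have e : ∑ x ∈ range m, a (i.succ + x) * b ^ (i.succ + x) =
      b ^ (i + 1) * ∑ x ∈ range m, a (i.succ + x) * b ^ x := by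
    rw [Finset.mul_sum]
    refine Finset.sum_congr rfl fun x _ => ?_
    rw [Nat.succ_eq_add_one, pow_add b (i + 1) x]
    ring
  rw [e, E5_dg_add b i _ _ hb, Finset.sum_range_succ]
  have h1 : ∑ k ∈ range i, a k * b ^ k < b ^ i := E5_sum_lt b hb a i fun k hk => ha k (by omega)
  unfold dg
  rw [mul_comm (a i), Nat.add_mul_div_left _ _ (pow_pos hb i), Nat.div_eq_of_lt h1, zero_add,
    Nat.mod_eq_of_lt (ha i hi)]

private theorem E5_rv_eq (b L n : ℕ) : rv b L n = ∑ k ∈ range L, dg b (L - 1 - k) n * b ^ k := by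
  unfold rv
  rw [← Finset.sum_range_reflect]
  refine Finset.sum_congr rfl fun j hj => ?_
  have := Finset.mem_range.1 hj
  congr 2
  omega

theorem rv_lt (b L n : ℕ) (hb : 1 ≤ b) : rv b L n < b ^ L := by
  rw [E5_rv_eq]
  exact E5_sum_lt b hb (fun k => dg b (L - 1 - k) n) L fun k _ => dg_lt b _ n hb

/-- the `i`-th digit of the reversal is the digit `L-1-i` of `n`
(`rv b L n = ∑_{i<L} dg b (L-1-i) n * b^i` by `Finset.sum_range_reflect`, and uniqueness of digits). -/
theorem dg_rv (b L n i : ℕ) (hb : 1 ≤ b) (hi : i < L) : dg b i (rv b L n) = dg b (L - 1 - i) n := by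
  rw [E5_rv_eq]
  exact E5_dg_sum b hb (fun k => dg b (L - 1 - k) n) L i (fun k _ => dg_lt b _ n hb) hi

theorem rv_rv (b L n : ℕ) (hb : 1 ≤ b) (hn : n < b ^ L) : rv b L (rv b L n) = n := by
  have h : rv b L (rv b L n) = ∑ j ∈ range L, dg b (L - 1 - j) n * b ^ (L - 1 - j) := by
    conv_lhs => unfold rv
    refine Finset.sum_congr rfl fun j hj => ?_
    have h2 := dg_rv b L n j hb (Finset.mem_range.1 hj)
    unfold rv at h2
    rw [h2]
  rw [h, Finset.sum_range_reflect (fun j => dg b j n * b ^ j) L]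
  exact sum_dg b L n hb hn

theorem rv_injOn (b L : ℕ) (hb : 1 ≤ b) : Set.InjOn (rv b L) {n | n < b ^ L} := by
  intro x hx y hy h
  have h1 := rv_rv b L x hb hx
  have h2 := rv_rv b L y hb hy
  rw [← h1, ← h2]
  exact congrArg _ h

/-- splitting: for `J ≤ L`, `rv b L n = rv b J (n / b^(L-J)) + b^J * rv b (L-J) (n % b^(L-J))` (`n < b^L`):
the `J` top digits of `n` give the `J` low digits of the reversal. -/
theorem rv_split (b L J n : ℕ) (hb : 1 ≤ b) (hJ : J ≤ L) (hn : n < b ^ L) :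
    rv b L n = rv b J (n / b ^ (L - J)) + b ^ J * rv b (L - J) (n % b ^ (L - J)) := by
  obtain ⟨K, rfl⟩ := Nat.exists_eq_add_of_le' hJ
  rw [Nat.add_sub_cancel]
  unfold rv
  rw [Finset.sum_range_add, Finset.mul_sum, add_comm]
  congr 1
  · refine Finset.sum_congr rfl fun j hj => ?_
    have hj' := Finset.mem_range.1 hj
    have h1 : dg b (K + j) n = dg b j (n / b ^ K) := by
      unfold dg
      rw [pow_add, Nat.div_div_eq_div_mul]
    have h2 : K + J - 1 - (K + j) = J - 1 - j := by omega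
    rw [h1, h2]
  · refine Finset.sum_congr rfl fun j hj => ?_
    have hj' := Finset.mem_range.1 hj
    have h1 : dg b j n = dg b j (n % b ^ K) := by
      obtain ⟨k, rfl⟩ := Nat.exists_eq_add_of_lt hj'
      conv_lhs => rw [← Nat.mod_add_div n (b ^ (j + k + 1))]
      have e : b ^ (j + k + 1) * (n / b ^ (j + k + 1)) =
          b ^ (j + 1) * (b ^ k * (n / b ^ (j + k + 1))) := by
        generalize n / b ^ (j + k + 1) = t
        ring
      rw [e, E5_dg_add b j _ _ hb]
    have h2 : K + J - 1 - j = J + (K - 1 - j) := by omega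
    rw [h1, h2, pow_add]
    ring

theorem rv_mod (b L J n : ℕ) (hb : 1 ≤ b) (hJ : J ≤ L) (hn : n < b ^ L) :
    rv b L n % b ^ J = rv b J (n / b ^ (L - J)) := by
  rw [rv_split b L J n hb hJ hn, Nat.add_mul_mod_self_left, Nat.mod_eq_of_lt (rv_lt b J _ hb)]

private theorem E5_II_lt (b L l k : ℕ) (hL : 1 ≤ L) (hl : l < b) (hk : k ∈ II b L l) : k < b ^ L := by
  have h1 := (Finset.mem_Ico.1 hk).2
  have h2 : (l + 1) * b ^ (L - 1) ≤ b * b ^ (L - 1) := Nat.mul_le_mul_right _ hl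
  have h3 : b * b ^ (L - 1) = b ^ L := by
    obtain ⟨m, rfl⟩ := Nat.exists_eq_add_of_le' hL
    rw [Nat.add_sub_cancel]
    ring
  omega

/-- `k` with leading digit `l`: the reversal is `≡ l mod b` -/
theorem rv_mod_b (b L l k : ℕ) (hb : 2 ≤ b) (hL : 1 ≤ L) (hl : l < b) (hk : k ∈ II b L l) :
    rv b L k % b = l := by
  have hb1 : 1 ≤ b := by omega
  have h1 := rv_mod b L 1 k hb1 hL (E5_II_lt b L l k hL hl hk)
  rw [pow_one] at h1
  rw [h1]
  have h2 : k / b ^ (L - 1) = l := by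
    have h3 := Finset.mem_Ico.1 hk
    rw [Nat.div_eq_iff (pow_pos (by omega) _)]
    constructor
    · exact h3.1
    · have h4 : (l + 1) * b ^ (L - 1) = l * b ^ (L - 1) + b ^ (L - 1) := by ring
      have h5 : 0 < b ^ (L - 1) := pow_pos (by omega) _
      omega
  rw [h2]
  simp [rv, dg, Nat.mod_eq_of_lt hl]

private theorem E5_sq (b : ℕ) (hb : 2 ≤ b) : b ^ 2 ≡ 1 [MOD D0 b] := by
  unfold D0
  have h : 1 ≤ b ^ 2 := Nat.one_le_pow _ _ (by omega)
  exact ((Nat.modEq_iff_dvd' h).2 dvd_rfl).symm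

/-- modulo `b² - 1`: `rv b L k ≡ b^(L-1) k` since `b · b ≡ 1`, so `b^(L-1-j) ≡ b^(L-1) b^j`. -/
theorem rv_mod_D0 (b L k : ℕ) (hb : 2 ≤ b) (hL : 1 ≤ L) (hk : k < b ^ L) :
    rv b L k ≡ b ^ (L - 1) * k [MOD D0 b] := by
  have h1 : b ^ (L - 1) * k = ∑ j ∈ range L, dg b j k * (b ^ (L - 1 - j) * (b ^ 2) ^ j) := by
    conv_lhs => rw [← sum_dg b L k (by omega) hk]
    rw [Finset.mul_sum]
    refine Finset.sum_congr rfl fun j hj => ?_
    have hj' := Finset.mem_range.1 hj
    have e : b ^ (L - 1) = b ^ (L - 1 - j) * b ^ j := by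
      rw [← pow_add]
      congr 1
      omega
    rw [e, ← pow_mul]
    ring
  rw [h1]
  unfold rv
  refine Nat.ModEq.sum fun j _ => ?_
  refine Nat.ModEq.mul_left _ ?_
  have h2 : (b ^ 2) ^ j ≡ 1 ^ j [MOD D0 b] := (E5_sq b hb).pow j
  rw [one_pow] at h2
  have h3 := (h2.mul_left (b ^ (L - 1 - j))).symm
  rwa [mul_one] at h3

private theorem E5_rv_succ (b L k : ℕ) : rv b (L + 1) k = rv b L (k / b) + b ^ L * (k % b) := by
  unfold rv
  rw [Finset.sum_range_succ']
  congr 1
  · refine Finset.sum_congr rfl fun j hj => ?_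
    have hj' := Finset.mem_range.1 hj
    have h1 : dg b (j + 1) k = dg b j (k / b) := by
      unfold dg
      rw [pow_succ', Nat.div_div_eq_div_mul]
    have h2 : L + 1 - 1 - (j + 1) = L - 1 - j := by omega
    rw [h1, h2]
  · simp [dg, mul_comm]

/-- the reversal of an `L`-digit number is the `rv` of the frozen statement -/
theorem ofDigits_reverse (b L k : ℕ) (hb : 2 ≤ b) (hL : 1 ≤ L) (h1 : b ^ (L - 1) ≤ k) (h2 : k < b ^ L) :
    Nat.ofDigits b (Nat.digits b k).reverse = rv b L k := by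
  induction L, hL using Nat.le_induction generalizing k with
  | base =>
    have hk0 : k ≠ 0 := by
      simp at h1
      omega
    rw [pow_one] at h2
    rw [Nat.digits_of_lt b k hk0 h2]
    simp [rv, dg, Nat.mod_eq_of_lt h2]
  | succ L hL ih =>
    have hb0 : 0 < b := by omega
    have hk0 : 0 < k := lt_of_lt_of_le (pow_pos hb0 _) h1
    have h3 : b ^ (L - 1) ≤ k / b := by
      rw [Nat.le_div_iff_mul_le hb0, ← pow_succ]
      have : L - 1 + 1 = L + 1 - 1 := by omega
      rwa [this]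
    have h4 : k / b < b ^ L := by
      rw [Nat.div_lt_iff_lt_mul hb0, ← pow_succ]
      exact h2
    have hlen : (Nat.digits b (k / b)).length = L := by
      have hq : k / b ≠ 0 := by
        have : 0 < b ^ (L - 1) := pow_pos hb0 _
        omega
      rw [Nat.digits_len b _ hb hq]
      have h5 : Nat.log b (k / b) = L - 1 := by
        rw [Nat.log_eq_iff (Or.inr ⟨hb, hq⟩)]
        refine ⟨h3, ?_⟩
        have : L - 1 + 1 = L := by omega
        rwa [this]
      omega
    rw [Nat.digits_def' hb hk0, List.reverse_cons, Nat.ofDigits_append, ih (k / b) h3 h4,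
      List.length_reverse, hlen, E5_rv_succ]
    simp [Nat.ofDigits]

/-- lower bound for the reversal of `k` prime to `b` (last digit nonzero) -/
theorem le_rv (b L k : ℕ) (hb : 2 ≤ b) (hL : 1 ≤ L) (h : k.Coprime b) : b ^ (L - 1) ≤ rv b L k := by
  have h1 : 1 ≤ k % b := by
    rcases Nat.eq_zero_or_pos (k % b) with h0 | h0
    · have h2 : b ∣ k := Nat.dvd_of_mod_eq_zero h0
      have h3 : b ∣ Nat.gcd k b := Nat.dvd_gcd h2 dvd_rfl
      rw [h] at h3
      have := Nat.le_of_dvd one_pos h3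
      omega
    · exact h0
  obtain ⟨m, rfl⟩ := Nat.exists_eq_add_of_le' hL
  rw [E5_rv_succ, Nat.add_sub_cancel]
  have h2 : b ^ m * 1 ≤ b ^ m * (k % b) := Nat.mul_le_mul_left _ h1
  omega

/-- coprimality of the reversal with `b^3 - b = b (b^2-1)` for `k` in `KS` with `r` prime to `D0`, `l` prime to `b` -/
theorem rv_coprime (b L l r k : ℕ) (hb : 2 ≤ b) (hL : 1 ≤ L) (hl : l < b) (hlb : l.Coprime b)
    (hr : r.Coprime (D0 b)) (hk : k ∈ KS b L l r) : (rv b L k).Coprime (b ^ 3 - b) := by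
  obtain ⟨hkI, hkb, hkr⟩ := Finset.mem_filter.1 hk
  have hfac : b ^ 3 - b = b * D0 b := by
    unfold D0
    rw [Nat.mul_sub, mul_one]
    congr 1
    ring
  rw [hfac]
  refine Nat.Coprime.mul_right ?_ ?_
  · have h1 := rv_mod_b b L l k hb hL hl hkI
    unfold Nat.Coprime
    rw [Nat.gcd_comm, Nat.gcd_rec, h1]
    exact hlb
  · have h1 := rv_mod_D0 b L k hb hL (E5_II_lt b L l k hL hl hkI)
    have h2 : b ^ (L - 1) * k ≡ b ^ (L - 1) * r [MOD D0 b] := Nat.ModEq.mul_left _ hkr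
    have h3 := h1.trans h2
    have hbD : b.Coprime (D0 b) := by
      have h4 := (E5_sq b hb).gcd_eq
      rw [Nat.gcd_one_left] at h4
      exact Nat.Coprime.coprime_dvd_left (Dvd.intro_left (b ^ 1) (by ring)) h4
    have h5 : (b ^ (L - 1) * r).Coprime (D0 b) := (hbD.pow_left _).mul_left hr
    unfold Nat.Coprime
    rw [h3.gcd_eq]
    exact h5

end Pool.Agent.LibHG31
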