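import Pool.Agent.LibHG31.A2

/-! ROW A2b: `Rrest` by orthogonality and Bessel (cites A1, A2, E2, E5). -/

namespace Pool.Agent.LibHG31

open Finset
open scoped ArithmeticFunction.vonMangoldt

private theorem A2b_RR (b L l r N : ℕ) (hb : 2 ≤ b) (hL : 1 ≤ L) (hl : l < b)
    (hN1 : b ^ (L + 1) ≤ N) (hN2 : N < b ^ (L + 2)) :
    (RR b L l r N : ℂ) = ∑ n ∈ range (XX b L), ∑ k ∈ KS b L l r,
      ((Λ n * Λ k : ℝ) : ℂ) * (if (N : ℤ) - n - rv b L k = 0 then 1 else 0) := by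
  unfold RR
  rw [Finset.sum_comm, Complex.ofReal_sum]
  refine Finset.sum_congr rfl fun k hk => ?_
  have h1 := rv_lt b L k (by omega)
  have h2 : b ^ L ≤ b ^ (L + 1) := Nat.pow_le_pow_right (by omega) (by omega)
  have h3 : b ^ (L + 2) ≤ b ^ (L + 3) := Nat.pow_le_pow_right (by omega) (by omega)
  rw [Finset.sum_eq_single (N - rv b L k)]
  · rw [if_pos]
    · push_cast
      ring
    · have : rv b L k ≤ N := by omega
      push_cast [Nat.cast_sub this]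
      ring
  · intro n _ hn
    rw [if_neg, mul_zero]
    intro h
    apply hn
    omega
  · intro h
    exfalso
    apply h
    rw [mem_range, XX]
    omega

/-- `Rrest` as a Fourier integral. `K = b^(L+5)`.
`RR = ∑_{n<X} ∑_k Λ(n) Λ(k) 1[N - n - rv k = 0]` (`rv k < b^L ≤ N`, `N - rv k < X`), the indicator is `(1/K) ∑_t ee(-m t/K)` with
`m = N - n - rv k`, `|m| < K` (`sum_ee_div`); `Rrho` by `krn_fourier` (`|m| < b^(L+4)`, `Q H' = D0 b^(L-J) < b^(L+2)`, and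
`b^(L+4) + b^(L+2) < b^(L+5)`; in case `b = 2` use the sharper `|m| ≤ b^(L+3)`); then exchange the summations. -/
theorem Rrest_eq (b L J l r N : ℕ) (hb : 2 ≤ b) (hL : 1 ≤ L) (hJ : 2 * J ≤ L) (hl : l < b)
    (hN1 : b ^ (L + 1) ≤ N) (hN2 : N < b ^ (L + 2)) :
    Rrest b L J l r N = (1 / ((b ^ (L + 5) : ℕ) : ℂ)) * ∑ t ∈ range (b ^ (L + 5)),
      (((1 - MM b L J ((t : ℝ) / (b ^ (L + 5) : ℕ)) : ℝ) : ℂ) * S1 b L ((t : ℝ) / (b ^ (L + 5) : ℕ)) *
        S2 b L l r ((t : ℝ) / (b ^ (L + 5) : ℕ))) * ee (-(N * ((t : ℝ) / (b ^ (L + 5) : ℕ)))) := by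
  set K := b ^ (L + 5) with hKdef
  have hK : 0 < K := by positivity
  -- sizes
  have hsize : ∀ n ∈ range (XX b L), ∀ k ∈ KS b L l r,
      |(N : ℤ) - n - rv b L k| + (QQ b J * HH b L J : ℕ) < (K : ℤ) := by
    intro n hn k hk
    rw [mem_range, XX] at hn
    have h1 := rv_lt b L k (by omega)
    have h4 : QQ b J * HH b L J ≤ b ^ (L + 2) := by
      unfold QQ HH D0
      have e : (b ^ 2 - 1) * b ^ J * b ^ (L - 2 * J) = (b ^ 2 - 1) * b ^ (L - J) := by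
        rw [mul_assoc, ← pow_add]
        congr 2
        omega
      rw [e]
      calc (b ^ 2 - 1) * b ^ (L - J) ≤ b ^ 2 * b ^ L :=
            Nat.mul_le_mul (Nat.sub_le _ _) (Nat.pow_le_pow_right (by omega) (by omega))
        _ = b ^ (L + 2) := by rw [← pow_add]; congr 1; omega
    have e3 : b ^ (L + 3) = 8 * 0 + b ^ 3 * b ^ L := by rw [mul_zero, zero_add, ← pow_add]; congr 1; omega
    have e2 : b ^ (L + 2) = b ^ 2 * b ^ L := by rw [← pow_add]; congr 1; omega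
    have e5 : K = b ^ 5 * b ^ L := by rw [hKdef, ← pow_add]; congr 1; omega
    have hP : 0 < b ^ L := by positivity
    have h5 : b ^ 3 + 1 + b ^ 2 < b ^ 5 := by
      have h6 : 2 * b ^ 2 ≤ b ^ 3 := by
        have : b ^ 3 = b * b ^ 2 := by ring
        rw [this]
        exact Nat.mul_le_mul_right _ hb
      have h7 : 4 * b ^ 3 ≤ b ^ 5 := by
        have : b ^ 5 = b ^ 2 * b ^ 3 := by ring
        rw [this]
        apply Nat.mul_le_mul_right
        have := Nat.pow_le_pow_left hb 2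
        omega
      have h8 : 4 ≤ b ^ 2 := by
        have := Nat.pow_le_pow_left hb 2
        omega
      omega
    have h6 : (b ^ 3 + 1 + b ^ 2) * b ^ L < b ^ 5 * b ^ L := Nat.mul_lt_mul_of_pos_right h5 hP
    have h7 : (b ^ 3 + 1 + b ^ 2) * b ^ L = b ^ 3 * b ^ L + b ^ L + b ^ 2 * b ^ L := by ring
    have h9 : |(N : ℤ) - n - rv b L k| ≤ (b ^ 3 * b ^ L + b ^ L : ℕ) := by
      rw [abs_le]
      have h10 : b ^ 2 * b ^ L ≤ b ^ 3 * b ^ L :=
        Nat.mul_le_mul_right _ (Nat.pow_le_pow_right (by omega) (by omega))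
      constructor <;> push_cast <;> push_cast at * <;> linarith
    have h11 : ((b ^ 3 * b ^ L + b ^ L : ℕ) : ℤ) + (QQ b J * HH b L J : ℕ) < (K : ℤ) := by
      rw [e5]
      have : b ^ 3 * b ^ L + b ^ L + QQ b J * HH b L J < b ^ 5 * b ^ L := by omega
      exact_mod_cast this
    linarith
  -- the pointwise identity
  have hpt : ∀ n ∈ range (XX b L), ∀ k ∈ KS b L l r,
      ((Λ n * Λ k : ℝ) : ℂ) * (if (N : ℤ) - n - rv b L k = 0 then 1 else 0) -
        ∑ ρ ∈ Rset b J, ((Λ n * Λ k * krn b L J ((N : ℤ) - n - rv b L k) : ℝ) : ℂ) *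
          ee ((ρ : ℝ) * ((N : ℝ) - n - rv b L k)) =
      (1 / (K : ℂ)) * ∑ t ∈ range K, ((Λ n * Λ k : ℝ) : ℂ) * (((1 - MM b L J ((t : ℝ) / K) : ℝ) : ℂ) *
        ee (-(((N : ℤ) - n - rv b L k : ℤ) * ((t : ℝ) / K)))) := by
    intro n hn k hk
    have hm := hsize n hn k hk
    set m : ℤ := (N : ℤ) - n - rv b L k with hmdef
    have hmr : ((N : ℝ) - n - rv b L k) = (m : ℝ) := by rw [hmdef]; push_cast; ring
    rw [hmr]
    have hKc : (K : ℂ) ≠ 0 := by exact_mod_cast hK.ne'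
    have h1 : (if m = 0 then (1 : ℂ) else 0) = (1 / (K : ℂ)) * ∑ t ∈ range K, ee (-(m * ((t : ℝ) / K))) := by
      have h2 := sum_ee_div K hK (-m)
      have h3 : ∑ h ∈ range K, ee (h * (((-m : ℤ) : ℝ) / K)) = ∑ t ∈ range K, ee (-(m * ((t : ℝ) / K))) := by
        refine Finset.sum_congr rfl fun t _ => ?_
        congr 1
        push_cast
        ring
      rw [← h3, h2]
      by_cases h4 : m = 0
      · rw [if_pos h4, if_pos (by rw [h4]; simp)]
        field_simp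
      · rw [if_neg h4, if_neg, mul_zero]
        intro h5
        apply h4
        have h6 : |(-m)| < (K : ℤ) := by
          rw [abs_neg]
          have : (0 : ℤ) ≤ (QQ b J * HH b L J : ℕ) := by positivity
          linarith
        have h7 := Int.eq_zero_of_abs_lt_dvd h5 h6
        omega
    have h2 : ∀ ρ ∈ Rset b J, ((Λ n * Λ k * krn b L J m : ℝ) : ℂ) * ee ((ρ : ℝ) * m) =
        ((Λ n * Λ k : ℝ) : ℂ) * ((1 / (K : ℂ)) * ∑ t ∈ range K,
          ((fej (HH b L J) (QQ b J * ((t : ℝ) / K + ρ)) : ℝ) : ℂ) * ee (-(m * ((t : ℝ) / K)))) := by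
      intro ρ _
      rw [← krn_fourier b L J hb K hK m hm (ρ : ℝ)]
      push_cast
      ring
    rw [Finset.sum_congr rfl h2, h1, ← Finset.mul_sum, ← Finset.mul_sum, ← mul_sub, ← mul_sub,
      Finset.sum_comm, ← Finset.sum_sub_distrib, ← Finset.mul_sum]
    rw [← mul_assoc, mul_comm ((Λ n * Λ k : ℝ) : ℂ) (1 / (K : ℂ)), mul_assoc]
    congr 2
    refine Finset.sum_congr rfl fun t _ => ?_
    unfold MM
    rw [← Finset.sum_mul]
    push_cast
    ring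
  unfold Rrest
  rw [A2b_RR b L l r N hb hL hl hN1 hN2]
  unfold Rrho
  rw [Finset.sum_comm (s := Rset b J)]
  rw [← Finset.sum_sub_distrib]
  have h3 : ∀ n ∈ range (XX b L), (∑ k ∈ KS b L l r, ((Λ n * Λ k : ℝ) : ℂ) * (if (N : ℤ) - n - rv b L k = 0 then 1 else 0)) -
      ∑ ρ ∈ Rset b J, ∑ k ∈ KS b L l r, ((Λ n * Λ k * krn b L J ((N : ℤ) - n - rv b L k) : ℝ) : ℂ) *
          ee ((ρ : ℝ) * ((N : ℝ) - n - rv b L k)) =
      ∑ k ∈ KS b L l r, (1 / (K : ℂ)) * ∑ t ∈ range K, ((Λ n * Λ k : ℝ) : ℂ) * (((1 - MM b L J ((t : ℝ) / K) : ℝ) : ℂ) *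
        ee (-(((N : ℤ) - n - rv b L k : ℤ) * ((t : ℝ) / K)))) := by
    intro n hn
    rw [Finset.sum_comm (s := Rset b J), ← Finset.sum_sub_distrib]
    exact Finset.sum_congr rfl fun k hk => hpt n hn k hk
  rw [Finset.sum_congr rfl h3]
  have h5 : ∀ F : ℕ → ℕ → ℂ, ∑ n ∈ range (XX b L), ∑ k ∈ KS b L l r, (1 / (K : ℂ)) * F n k =
      (1 / (K : ℂ)) * ∑ n ∈ range (XX b L), ∑ k ∈ KS b L l r, F n k := by
    intro F
    rw [Finset.mul_sum]
    exact Finset.sum_congr rfl fun n _ => (Finset.mul_sum _ _ _).symm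
  rw [h5]
  congr 1
  have h4 : ∀ n ∈ range (XX b L), ∑ k ∈ KS b L l r, ∑ t ∈ range K, ((Λ n * Λ k : ℝ) : ℂ) * (((1 - MM b L J ((t : ℝ) / K) : ℝ) : ℂ) *
        ee (-(((N : ℤ) - n - rv b L k : ℤ) * ((t : ℝ) / K)))) =
      ∑ t ∈ range K, ∑ k ∈ KS b L l r, ((Λ n * Λ k : ℝ) : ℂ) * (((1 - MM b L J ((t : ℝ) / K) : ℝ) : ℂ) *
        ee (-(((N : ℤ) - n - rv b L k : ℤ) * ((t : ℝ) / K)))) := fun n _ => Finset.sum_comm
  rw [Finset.sum_congr rfl h4, Finset.sum_comm]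
  refine Finset.sum_congr rfl fun t _ => ?_
  unfold S1 S2
  rw [mul_assoc, mul_assoc, ← mul_assoc (∑ n ∈ range (XX b L), _) _ _, Finset.sum_mul_sum, Finset.sum_mul, Finset.mul_sum]
  refine Finset.sum_congr rfl fun n _ => ?_
  rw [Finset.sum_mul, Finset.mul_sum]
  refine Finset.sum_congr rfl fun k _ => ?_
  have e : (-(((N : ℤ) - n - rv b L k : ℤ) * ((t : ℝ) / K)) : ℝ) =
      n * ((t : ℝ) / K) + rv b L k * ((t : ℝ) / K) + -(N * ((t : ℝ) / K)) := by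
    push_cast
    ring
  rw [e, ee_add, ee_add]
  push_cast
  ring

/-- **Bessel**. From `Rrest_eq`, `parsevalK` (the sum over `N ∈ Ico (b^(L+1)) (b^(L+2)) ⊆ range K`), the hypothesis and `sum_S2_sq_le`. -/
theorem sum_Rrest_sq_le (b L J l r : ℕ) (hb : 2 ≤ b) (hL : 1 ≤ L) (hJ : 2 * J ≤ L) (hl : l < b) (B : ℝ) (hB : 0 ≤ B)
    (h : ∀ α : ℝ, |1 - MM b L J α| * ‖S1 b L α‖ ≤ B) :
    ∑ N ∈ Ico (b ^ (L + 1)) (b ^ (L + 2)), ‖Rrest b L J l r N‖ ^ 2 ≤
      B ^ 2 * ((b : ℝ) ^ L * (L * Real.log b) ^ 2) := by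
  set K := b ^ (L + 5) with hKdef
  have hK : 0 < K := by positivity
  have hKr : (0 : ℝ) < K := by exact_mod_cast hK
  set c : ℕ → ℂ := fun t => ((1 - MM b L J ((t : ℝ) / K) : ℝ) : ℂ) * S1 b L ((t : ℝ) / K) *
        S2 b L l r ((t : ℝ) / K) with hc
  have h1 : ∀ N ∈ Ico (b ^ (L + 1)) (b ^ (L + 2)), ‖Rrest b L J l r N‖ ^ 2 =
      (1 / (K : ℝ) ^ 2) * ‖∑ t ∈ range K, c t * ee (-(N * ((t : ℝ) / K)))‖ ^ 2 := by
    intro N hN
    rw [mem_Ico] at hN
    rw [Rrest_eq b L J l r N hb hL hJ hl hN.1 hN.2, norm_mul, mul_pow]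
    congr 1
    rw [norm_div, norm_one, Complex.norm_natCast, ← hKdef]
    ring
  rw [Finset.sum_congr rfl h1, ← Finset.mul_sum]
  have h2 : ∑ N ∈ Ico (b ^ (L + 1)) (b ^ (L + 2)), ‖∑ t ∈ range K, c t * ee (-(N * ((t : ℝ) / K)))‖ ^ 2 ≤
      K * ∑ t ∈ range K, ‖c t‖ ^ 2 := by
    rw [← parsevalK K hK c]
    apply Finset.sum_le_sum_of_subset_of_nonneg
    · intro N hN
      rw [mem_Ico] at hN
      rw [mem_range, hKdef]
      exact hN.2.trans_le (Nat.pow_le_pow_right (by omega) (by omega))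
    · intro _ _ _
      positivity
  have h3 : ∑ t ∈ range K, ‖c t‖ ^ 2 ≤ B ^ 2 * ∑ t ∈ range K, ‖S2 b L l r ((t : ℝ) / K)‖ ^ 2 := by
    rw [Finset.mul_sum]
    refine Finset.sum_le_sum fun t _ => ?_
    rw [hc]
    simp only
    rw [norm_mul, norm_mul, mul_pow]
    apply mul_le_mul_of_nonneg_right _ (by positivity)
    apply pow_le_pow_left₀ (by positivity)
    rw [Complex.norm_real, Real.norm_eq_abs]
    exact h _
  have h4 := sum_S2_sq_le b L l r hb hL hl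
  rw [← hKdef] at h4
  calc (1 / (K : ℝ) ^ 2) * ∑ N ∈ Ico (b ^ (L + 1)) (b ^ (L + 2)), ‖∑ t ∈ range K, c t * ee (-(N * ((t : ℝ) / K)))‖ ^ 2
      ≤ (1 / (K : ℝ) ^ 2) * (K * (B ^ 2 * (K * ((b : ℝ) ^ L * (L * Real.log b) ^ 2)))) := by
        apply mul_le_mul_of_nonneg_left _ (by positivity)
        refine h2.trans ?_
        apply mul_le_mul_of_nonneg_left _ hKr.le
        exact h3.trans (mul_le_mul_of_nonneg_left h4 (by positivity))
    _ = B ^ 2 * ((b : ℝ) ^ L * (L * Real.log b) ^ 2) := by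
        field_simp

end Pool.Agent.LibHG31
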