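import Pool.Agent.LibHG31.A3

/-! ROW A3b: bounds for the multiplier `MM`. `P = PP J = 2^(J/4)`, `Q = QQ b J = D0 b^J`, `H' = HH b L J`. -/

namespace Pool.Agent.LibHG31

open Finset

private theorem A3b_PD_pos (b J : ℕ) (hb : 2 ≤ b) : 1 ≤ PP J * D0 b := by
  have h3 := D0_pos b hb
  have h4 : 0 < PP J := by unfold PP; positivity
  exact Nat.mul_pos h4 (by omega)

/-- upper bound of the multiplier: at most one `ρ` has `nd (Q (α + ρ)) < 1/(2 (P D0)²)` (`nd_add_le`, `Rset_sep`), its term is `≤ 1`; the others are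
`≤ (P D0)^4 / H'^2` each (`fej_le` with `c = 1/(2 (P D0)²)`). -/
theorem MM_le (b L J : ℕ) (hb : 2 ≤ b) (α : ℝ) :
    MM b L J α ≤ 1 + ((PP J * D0 b + 1 : ℕ) : ℝ) ^ 6 / (HH b L J : ℝ) ^ 2 := by
  classical
  have hPD := A3b_PD_pos b J hb
  set D : ℝ := ((PP J * D0 b : ℕ) : ℝ) with hD
  have hD1 : (1 : ℝ) ≤ D := by rw [hD]; exact_mod_cast hPD
  have hDpos : (0 : ℝ) < D := by linarith
  set c : ℝ := 1 / (2 * D ^ 2) with hc
  have hcpos : 0 < c := by positivity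
  have hH1 := HH_pos b L J hb
  have hH : (0 : ℝ) < HH b L J := by exact_mod_cast hH1
  set near := (Rset b J).filter (fun ρ : ℚ => nd ((QQ b J : ℝ) * (α + ρ)) < c) with hnear
  have hcard : near.card ≤ 1 := by
    rw [Finset.card_le_one]
    intro ρ hρ ρ' hρ'
    rw [hnear, mem_filter] at hρ hρ'
    by_contra hne
    have h1 := Rset_sep b J hb ρ ρ' hρ.1 hρ'.1 hne
    have h2 : nd ((QQ b J : ℝ) * ((ρ : ℝ) - ρ')) ≤ nd ((QQ b J : ℝ) * (α + ρ)) + nd ((QQ b J : ℝ) * (α + ρ')) := by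
      have e : (QQ b J : ℝ) * ((ρ : ℝ) - ρ') = (QQ b J : ℝ) * (α + ρ) + -((QQ b J : ℝ) * (α + ρ')) := by ring
      rw [e]
      refine (nd_add_le _ _).trans ?_
      rw [nd_neg]
    have h3 : 1 / D ^ 2 = c + c := by
      rw [hc]
      field_simp
      ring
    rw [← hD, h3] at h1
    linarith [hρ.2, hρ'.2]
  have hsplit : MM b L J α = ∑ ρ ∈ near, fej (HH b L J) (QQ b J * (α + ρ)) +
      ∑ ρ ∈ (Rset b J).filter (fun ρ : ℚ => ¬ nd ((QQ b J : ℝ) * (α + ρ)) < c), fej (HH b L J) (QQ b J * (α + ρ)) := by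
    unfold MM
    rw [hnear, Finset.sum_filter_add_sum_filter_not]
  rw [hsplit]
  apply add_le_add
  · calc ∑ ρ ∈ near, fej (HH b L J) (QQ b J * (α + ρ)) ≤ ∑ ρ ∈ near, (1 : ℝ) :=
          Finset.sum_le_sum fun ρ _ => fej_le_one _ _
      _ = near.card := by simp
      _ ≤ 1 := by exact_mod_cast hcard
  · have h1 : ∀ ρ ∈ (Rset b J).filter (fun ρ : ℚ => ¬ nd ((QQ b J : ℝ) * (α + ρ)) < c),
        fej (HH b L J) (QQ b J * (α + ρ)) ≤ D ^ 4 / (HH b L J : ℝ) ^ 2 := by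
      intro ρ hρ
      rw [mem_filter, not_lt] at hρ
      refine (fej_le _ hH1 _ c hcpos hρ.2).trans (le_of_eq ?_)
      rw [hc]
      field_simp
      ring
    refine (Finset.sum_le_sum h1).trans ?_
    rw [Finset.sum_const, nsmul_eq_mul, ← mul_div_assoc]
    apply div_le_div_of_nonneg_right _ (by positivity)
    have h2 : ((((Rset b J).filter (fun ρ : ℚ => ¬ nd ((QQ b J : ℝ) * (α + ρ)) < c)).card : ℕ) : ℝ) ≤
        ((PP J * D0 b + 1 : ℕ) : ℝ) ^ 2 :=
      le_trans (by exact_mod_cast card_filter_le _ _) (card_Rset_le b J hb)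
    have h3 : D ≤ ((PP J * D0 b + 1 : ℕ) : ℝ) := by
      rw [hD]
      push_cast
      linarith
    calc _ ≤ ((PP J * D0 b + 1 : ℕ) : ℝ) ^ 2 * ((PP J * D0 b + 1 : ℕ) : ℝ) ^ 4 :=
          mul_le_mul h2 (pow_le_pow_left₀ hDpos.le h3 4) (by positivity) (by positivity)
      _ = _ := by ring

theorem MM_nonneg (b L J : ℕ) (α : ℝ) : 0 ≤ MM b L J α := by
  unfold MM
  exact Finset.sum_nonneg fun ρ _ => fej_nonneg _ _

/-- **the special point near a fraction with small denominator**: for `y : ℚ` with `y.den ≤ P` there is `ρ ∈ Rset` with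
`Q (y + ρ) ∈ ℤ`. Write `den y = q1 q2`, `q1` composed of the primes dividing `b`, `(q2, b) = 1`; `q1 ∣ b^J` (`dvd_pow_of_le`), so `b^J y = a'/q2`.
Choose `a''` with `b^J a'' ≡ -a' (mod q2)`, `ρ0 = a''/q2`, `ρ = ρ0 - ⌊D0 ρ0⌋/D0` : `D0 ρ ∈ [0,1)`, the denominator of `ρ` divides `q2 D0`, coprime
to `b` (`D0 = b²-1`), `≤ P D0`; `D0 b^J (y + ρ) = D0 (a' + b^J a'')/q2 - b^J ⌊D0 ρ0⌋ ∈ ℤ`. -/
theorem exists_Rset (b J : ℕ) (hb : 2 ≤ b) (y : ℚ) (hy : y.den ≤ PP J) :
    ∃ ρ ∈ Rset b J, ∃ z : ℤ, (QQ b J : ℚ) * (y + ρ) = z := by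
  -- `q2` = the denominator of `b^J y`, coprime to `b`
  set x : ℚ := ((b ^ J : ℕ) : ℚ) * y with hx
  have hx2 : x.den ∣ y.den := by
    have h := Rat.mul_den_dvd ((b ^ J : ℕ) : ℚ) y
    rw [Rat.den_natCast, one_mul] at h
    exact h
  have hxb : x.den.Coprime b := by
    by_contra hnc
    obtain ⟨p, hp, hp1, hp2⟩ := Nat.Prime.not_coprime_iff_dvd.1 hnc
    -- the p-part
    have hyd : y.den ≠ 0 := y.den_nz
    -- q1 = p-part of y.den
    set v := y.den.factorization p with hv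
    have hpv : p ^ v ∣ y.den := Nat.ordProj_dvd _ _
    have hpvle : p ^ v ≤ PP J := (Nat.le_of_dvd (Nat.pos_of_ne_zero hyd) hpv).trans hy
    have hpvb : p ^ v ∣ b ^ J := by
      apply dvd_pow_of_le b J (p ^ v) hb (Nat.one_le_pow _ _ hp.pos) hpvle
      intro r hr hrp
      have : r ∣ p := hr.dvd_of_dvd_pow hrp
      rw [(Nat.prime_dvd_prime_iff_eq hr hp).1 this]
      exact hp2
    obtain ⟨c, hc⟩ := hpvb
    obtain ⟨d, hd⟩ := hpv
    -- then `d * x` is an integer, with `p ∤ d`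
    have hpd : ¬ p ∣ d := by
      intro h
      have h1 : p ^ (v + 1) ∣ y.den := by
        rw [hd, pow_succ]
        exact Nat.mul_dvd_mul_left _ h
      exact Nat.pow_succ_factorization_not_dvd hyd hp h1
    have h2 : ((d : ℕ) : ℚ) * x = ((c : ℤ) * y.num : ℤ) := by
      have h3 : (y.den : ℚ) * y = y.num := Rat.den_mul_eq_num y
      rw [hx, hc]
      push_cast
      rw [← h3, hd]
      push_cast
      ring
    have h4 : x.den ∣ d := by
      have h5 : (d : ℤ) * x.num = ((c : ℤ) * y.num) * x.den := by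
        have h6 : (x.den : ℚ) * x = x.num := Rat.den_mul_eq_num x
        have h7 : (d : ℚ) * x.num = (((c : ℤ) * y.num : ℤ) : ℚ) * x.den := by
          rw [← h2, ← h6]
          ring
        exact_mod_cast h7
      have h6 : (x.den : ℤ) ∣ (d : ℤ) * x.num := ⟨(c : ℤ) * y.num, by rw [h5]; ring⟩
      have h7 : x.den ∣ d * x.num.natAbs := by
        have := Int.natAbs_dvd_natAbs.2 h6
        rwa [Int.natAbs_mul, Int.natAbs_natCast, Int.natAbs_natCast] at this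
      exact Nat.Coprime.dvd_of_dvd_mul_right x.reduced.symm h7
    exact hpd (hp1.trans h4)
  set q2 := x.den with hq2
  have hq2pos : 0 < q2 := x.den_pos
  have hD := D0_pos b hb
  -- Bezout
  have hcop : IsCoprime ((b ^ J : ℕ) : ℤ) (q2 : ℤ) :=
    Nat.isCoprime_iff_coprime.2 (Nat.Coprime.pow_left J hxb.symm)
  obtain ⟨u, w, huw⟩ := hcop
  -- a'' = -u * x.num
  set a2 : ℤ := -(u * x.num) with ha2
  set ρ0 : ℚ := (a2 : ℚ) / q2 with hρ0
  have hq2Q : (q2 : ℚ) ≠ 0 := by exact_mod_cast hq2pos.ne'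
  have hDQ : (D0 b : ℚ) ≠ 0 := by exact_mod_cast (by omega : D0 b ≠ 0)
  have hDQpos : (0 : ℚ) < D0 b := by exact_mod_cast (by omega : 0 < D0 b)
  set f : ℤ := ⌊(D0 b : ℚ) * ρ0⌋ with hf
  set ρ : ℚ := ρ0 - f / D0 b with hρ
  have hρD : ρ * D0 b = (D0 b : ℚ) * ρ0 - f := by
    rw [hρ]
    field_simp
  have hρden : ρ.den ∣ q2 * D0 b := by
    have h1 : ρ = ((a2 * D0 b - f * q2 : ℤ) : ℚ) / ((q2 * D0 b : ℕ) : ℤ) := by
      rw [hρ, hρ0]
      push_cast
      field_simp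
    rw [h1]
    have h2 := Rat.den_dvd (a2 * D0 b - f * q2) ((q2 * D0 b : ℕ) : ℤ)
    rw [Rat.divInt_eq_div] at h2
    exact Int.natCast_dvd_natCast.1 h2
  have hDb : (D0 b).Coprime b := by
    unfold D0
    have h1 : 1 ≤ b ^ 2 := Nat.one_le_pow _ _ (by omega)
    have h2 : Nat.Coprime (b ^ 2 - 1) (b ^ 2) := by
      rw [Nat.coprime_comm]
      have := (Nat.coprime_self_sub_right h1).2 (Nat.coprime_one_right (b ^ 2))
      exact this
    exact Nat.Coprime.coprime_dvd_right (dvd_pow_self b (by norm_num)) h2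
  refine ⟨ρ, mem_Rset b J hb ρ ?_ ?_ ?_ ?_, ?_⟩
  · have h1 : 0 ≤ ρ * D0 b := by
      rw [hρD]
      have := Int.floor_le ((D0 b : ℚ) * ρ0)
      rw [hf]
      linarith
    by_contra h2
    rw [not_le] at h2
    have := mul_neg_of_neg_of_pos h2 hDQpos
    linarith
  · rw [hρD, hf]
    have := Int.lt_floor_add_one ((D0 b : ℚ) * ρ0)
    linarith
  · exact Nat.Coprime.coprime_dvd_left hρden (Nat.Coprime.mul_left hxb hDb)
  · refine (Nat.le_of_dvd (Nat.mul_pos hq2pos (by omega)) hρden).trans ?_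
    apply Nat.mul_le_mul_right
    exact (Nat.le_of_dvd y.den_pos hx2).trans hy
  · refine ⟨D0 b * (w * x.num) - b ^ J * f, ?_⟩
    have h1 : (QQ b J : ℚ) * (y + ρ) = D0 b * x + (b : ℚ) ^ J * (ρ * D0 b) := by
      rw [hx, QQ]
      push_cast
      ring
    rw [h1, hρD, hρ0, ha2]
    have h3 : x = x.num / q2 := (Rat.num_div_den x).symm
    have h4 : (u : ℚ) * (b : ℚ) ^ J + w * q2 = 1 := by
      have := congrArg (fun z : ℤ => (z : ℚ)) huw
      push_cast at this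
      linarith
    push_cast
    have h5 : (D0 b : ℚ) * x + (b : ℚ) ^ J * (D0 b * (-(u * x.num) / q2) - f) =
        D0 b * ((x.num : ℚ) * (1 - u * (b : ℚ) ^ J) / q2) - b ^ J * f := by
      nth_rewrite 1 [h3]
      field_simp
      ring
    rw [h5]
    have h6 : 1 - (u : ℚ) * (b : ℚ) ^ J = w * q2 := by linarith
    rw [h6]
    field_simp

/-- lower bound on the major arcs: `MM ≥` the term of `exists_Rset` `= fej (Q (α - y) + z)`, `one_sub_fej_le`, `nd (Q(α-y)) ≤ Q |α - y|`. -/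
theorem le_MM (b L J : ℕ) (hb : 2 ≤ b) (α : ℝ) (y : ℚ) (hy : y.den ≤ PP J) :
    1 - 4 * Real.pi * (HH b L J : ℝ) * QQ b J * |α - y| ≤ MM b L J α := by
  obtain ⟨ρ, hρ, z, hz⟩ := exists_Rset b J hb y hy
  have h1 : fej (HH b L J) (QQ b J * (α + ρ)) ≤ MM b L J α := by
    unfold MM
    exact Finset.single_le_sum (f := fun ρ : ℚ => fej (HH b L J) (QQ b J * (α + ρ)))
      (fun ρ _ => fej_nonneg _ _) hρ
  have hzr : (QQ b J : ℝ) * ((y : ℝ) + ρ) = z := by
    have := congrArg (fun t : ℚ => (t : ℝ)) hz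
    push_cast at this
    exact this
  have h2 : (QQ b J : ℝ) * (α + ρ) = QQ b J * (α - y) + z := by
    rw [← hzr]
    ring
  rw [h2, fej_add_int] at h1
  have h3 := one_sub_fej_le (HH b L J) (HH_pos b L J hb) (QQ b J * (α - y))
  have h4 : nd ((QQ b J : ℝ) * (α - y)) ≤ QQ b J * |α - y| := by
    have := nd_le_abs_sub ((QQ b J : ℝ) * (α - y)) 0
    rwa [Int.cast_zero, sub_zero, abs_mul, Nat.abs_cast] at this
  have h5 : 4 * Real.pi * (HH b L J : ℝ) * nd ((QQ b J : ℝ) * (α - y)) ≤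
      4 * Real.pi * (HH b L J : ℝ) * (QQ b J * |α - y|) := by
    apply mul_le_mul_of_nonneg_left h4
    have := Real.pi_pos
    positivity
  have e : 4 * Real.pi * (HH b L J : ℝ) * (QQ b J * |α - y|) = 4 * Real.pi * (HH b L J : ℝ) * QQ b J * |α - y| := by ring
  linarith

end Pool.Agent.LibHG31
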