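import Pool.Agent.LibHG31.A4

/-! ROW A4b: Vinogradov's estimate for `∑ Λ(n) e(n α)` (minor arcs) from `VG`. -/

namespace Pool.Agent.LibHG31

open Finset
open scoped ArithmeticFunction.vonMangoldt


/-- block decomposition -/
theorem a4b_blocks (F : ℕ → ℝ) (q : ℕ) (c : ℕ → ℝ) (h : ∀ j, ∑ m ∈ Ico (j * q) (j * q + q), F m ≤ c j) (J : ℕ) :
    ∑ m ∈ range (J * q), F m ≤ ∑ j ∈ range J, c j := by
  induction J with
  | zero => simp
  | succ J ih =>
    rw [Finset.sum_range_succ]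
    have e : ∑ m ∈ range ((J + 1) * q), F m = ∑ m ∈ range (J * q), F m + ∑ m ∈ Ico (J * q) (J * q + q), F m := by
      rw [Finset.range_eq_Ico, Finset.range_eq_Ico, Finset.sum_Ico_consecutive F (Nat.zero_le _) (Nat.le_add_right _ _), add_mul, one_mul]
    rw [e]
    exact add_le_add ih (h J)

/-- `nd (m α) ≥ 1/(2q)` for `0 < 2 m ≤ q` -/
theorem a4b_nd_ge (q : ℕ) (a : ℤ) (ha : IsCoprime a (q : ℤ)) (α : ℝ)
    (hα : |α - a / q| ≤ 1 / (q : ℝ) ^ 2) (m : ℕ) (hm : 1 ≤ m) (hmq : 2 * m ≤ q) :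
    1 / (2 * (q : ℝ)) ≤ nd (m * α) := by
  have hq : 0 < q := by omega
  have hq0 : (0 : ℝ) < q := by exact_mod_cast hq
  have hm0 : (0 : ℝ) < m := by exact_mod_cast hm
  unfold nd
  obtain ⟨t, ht⟩ : ∃ t : ℤ, t = round ((m : ℝ) * α) := ⟨_, rfl⟩
  rw [← ht]
  have h1 : (m : ℤ) * a - t * q ≠ 0 := by
    intro h
    have hd : (q : ℤ) ∣ (m : ℤ) * a := ⟨t, by linarith⟩
    have hd2 : (q : ℤ) ∣ (m : ℤ) := by
      have := ha.symm.dvd_of_dvd_mul_right hd
      exact this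
    have := Int.natCast_dvd_natCast.mp hd2
    have := Nat.le_of_dvd (by omega) this
    omega
  have h2 : (1 : ℝ) ≤ |(m : ℝ) * a - t * q| := by
    have h3 : (1 : ℤ) ≤ |(m : ℤ) * a - t * q| := Int.one_le_abs h1
    have h4 : ((1 : ℤ) : ℝ) ≤ ((|(m : ℤ) * a - t * q| : ℤ) : ℝ) := by exact_mod_cast h3
    simpa using h4
  have h5 : |(m : ℝ) * α - m * (a / q)| ≤ 1 / (2 * (q : ℝ)) := by
    rw [← mul_sub, abs_mul, abs_of_pos hm0]
    calc (m : ℝ) * |α - a / q| ≤ m * (1 / (q : ℝ) ^ 2) := mul_le_mul_of_nonneg_left hα hm0.le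
      _ ≤ 1 / (2 * (q : ℝ)) := by
        rw [mul_one_div, div_le_div_iff₀ (by positivity) (by positivity)]
        have : (2 : ℝ) * m ≤ q := by exact_mod_cast hmq
        nlinarith
  have h6 : |(m : ℝ) * (a / q) - t| = |(m : ℝ) * a - t * q| / q := by
    rw [← abs_of_pos hq0, ← abs_div, abs_of_pos hq0]
    congr 1
    field_simp
  have h7 : (1 : ℝ) / q ≤ |(m : ℝ) * (a / q) - t| := by
    rw [h6]
    gcongr
  have h8 : |(m : ℝ) * (a / q) - t| ≤ |(m : ℝ) * α - t| + |(m : ℝ) * α - m * (a / q)| := by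
    have e : (m : ℝ) * (a / q) - t = ((m : ℝ) * α - t) - ((m : ℝ) * α - m * (a / q)) := by ring
    rw [e]
    exact abs_sub _ _
  have h9 : (1 : ℝ) / q = 1 / (2 * q) + 1 / (2 * q) := by field_simp; norm_num
  linarith

/-- type I sums: `∑_{m ≤ V} max_{Y ≤ X} |∑_{k<Y, m | k} e(kα)|`, with the explicit majorant
`B m = min (X/m + 1) (1/(2 nd(mα)))` (`= X/m+1` if `nd (mα) = 0`).
Dyadic blocks `m ∈ [R,2R)`: `B m ≤ min (2X/R) (...)`; for `2R ≤ q/2` all `nd(mα) ≥ 1/(2q)` (because `m a/q` is at distance `≥ 1/q` from the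
integers and `m/q² ≤ 1/(2q)`) so one may put `A = q`; otherwise `A = 2X/R + 1 ≤ 8X/q + 1`.. -/
theorem A4_typeI_le : ∃ C : ℝ, 0 < C ∧ ∀ (X q : ℕ) (a : ℤ) (α : ℝ) (V : ℕ), 2 ≤ X → 1 ≤ q → q ≤ X → V ≤ X → IsCoprime a (q : ℤ) →
    |α - a / q| ≤ 1 / (q : ℝ) ^ 2 →
    ∑ m ∈ Icc 1 V, (if nd (m * α) = 0 then (X : ℝ) / m + 1 else min ((X : ℝ) / m + 1) (1 / (2 * nd (m * α)))) ≤
      C * Real.log X ^ 2 * ((X : ℝ) / q + V + q) := by
  refine ⟨512, by norm_num, ?_⟩
  intro X q a α V hX hq hqX hVX ha hα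
  have hq0 : (0 : ℝ) < q := by exact_mod_cast hq
  have hq1 : (1 : ℝ) ≤ q := by exact_mod_cast hq
  have hX0 : (0 : ℝ) < X := by exact_mod_cast (by omega : 0 < X)
  obtain ⟨B, hB⟩ : ∃ B : ℕ → ℝ, B = fun m : ℕ => if m = 0 then 0 else
    (if nd (m * α) = 0 then (X : ℝ) / m + 1 else min ((X : ℝ) / m + 1) (1 / (2 * nd (m * α)))) := ⟨_, rfl⟩
  have hBm : ∀ m : ℕ, m ≠ 0 → B m = if nd (m * α) = 0 then (X : ℝ) / m + 1 else
      min ((X : ℝ) / m + 1) (1 / (2 * nd (m * α))) := by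
    intro m hm
    rw [hB]
    simp [hm]
  have hB00 : B 0 = 0 := by rw [hB]; simp
  have hB0 : ∀ m, 0 ≤ B m := by
    intro m
    rcases Nat.eq_zero_or_pos m with rfl | hm
    · rw [hB00]
    · rw [hBm m hm.ne']
      have := nd_nonneg ((m : ℝ) * α)
      split_ifs
      · positivity
      · exact le_min (by positivity) (by positivity)
  have hB1 : ∀ m : ℕ, B m ≤ (X : ℝ) / m + 1 := by
    intro m
    rcases Nat.eq_zero_or_pos m with rfl | hm
    · rw [hB00]; simp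
    · rw [hBm m hm.ne']
      split_ifs
      · exact le_rfl
      · exact min_le_left _ _
  have hB2 : ∀ m : ℕ, 0 < nd (m * α) → B m ≤ 1 / (2 * nd (m * α)) := by
    intro m hm
    rcases Nat.eq_zero_or_pos m with rfl | hm0
    · rw [hB00]; positivity
    · rw [hBm m hm0.ne', if_neg hm.ne']
      exact min_le_right _ _
  -- general block estimate
  have hblk : ∀ (p : ℕ → Prop) [DecidablePred p] (A : ℝ), 1 ≤ A → (∀ m, p m → B m ≤ A) → ∀ d0 : ℕ,
      ∑ m ∈ Ico d0 (d0 + q), (if p m then B m else 0) ≤ 32 * (A + q * (1 + Real.log q)) := by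
    intro p _ A hA hp d0
    have h := A4_std_sum q hq a ha α hα A hA d0 q (fun m => if p m then B m else 0)
      (by
        intro d
        show (if p d then B d else 0) ≤ A
        split_ifs with h
        · exact hp d h
        · linarith)
      (by
        intro d hd
        show (if p d then B d else 0) ≤ _
        split_ifs with h
        · exact hB2 d hd
        · positivity)
    have e : 16 * ((q : ℝ) / q + 1) = 32 := by
      rw [div_self hq0.ne']; norm_num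
    rw [e] at h
    exact h
  -- block zero
  have hlogq0 : 0 ≤ Real.log q := Real.log_natCast_nonneg q
  have hb0 : ∑ m ∈ Ico (0 * q) (0 * q + q), B m ≤
      32 * (q + q * (1 + Real.log q)) + 32 * ((2 * X / q + 1) + q * (1 + Real.log q)) := by
    have e : ∀ m ∈ Ico (0 * q) (0 * q + q), B m = (if 2 * m ≤ q then B m else 0) + (if q < 2 * m then B m else 0) := by
      intro m _
      by_cases h : 2 * m ≤ q
      · rw [if_pos h, if_neg (by omega), add_zero]
      · rw [if_neg h, if_pos (by omega), zero_add]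
    rw [Finset.sum_congr rfl e, Finset.sum_add_distrib]
    refine add_le_add (hblk _ _ hq1 ?_ _) (hblk _ _ ?_ ?_ _)
    · intro m hm
      rcases Nat.eq_zero_or_pos m with rfl | hm0
      · rw [hB00]; exact hq0.le
      · have h1 := a4b_nd_ge q a ha α hα m hm0 hm
        have h2 : 0 < nd (m * α) := lt_of_lt_of_le (by positivity) h1
        refine (hB2 m h2).trans ?_
        rw [div_le_iff₀ (by positivity)]
        rw [div_le_iff₀ (by positivity)] at h1
        nlinarith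
    · have : (0 : ℝ) ≤ 2 * X / q := by positivity
      linarith
    · intro m hm
      have hm0 : 0 < m := by omega
      have hm1 : (0 : ℝ) < m := by exact_mod_cast hm0
      refine (hB1 m).trans ?_
      have h1 : (q : ℝ) ≤ 2 * m := by exact_mod_cast hm.le
      have h2 : (X : ℝ) / m ≤ 2 * X / q := by
        rw [div_le_div_iff₀ hm1 hq0]
        nlinarith
      linarith
  have hbj : ∀ j : ℕ, ∑ m ∈ Ico ((j + 1) * q) ((j + 1) * q + q), B m ≤
      32 * ((X : ℝ) / q * (1 / ((j : ℝ) + 1)) + 1 + q * (1 + Real.log q)) := by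
    intro j
    have e : ∀ m ∈ Ico ((j + 1) * q) ((j + 1) * q + q), B m = (if (j + 1) * q ≤ m then B m else 0) := by
      intro m hm
      rw [if_pos (Finset.mem_Ico.mp hm).1]
    rw [Finset.sum_congr rfl e]
    refine hblk _ _ ?_ ?_ _
    · have : (0 : ℝ) ≤ (X : ℝ) / q * (1 / ((j : ℝ) + 1)) := by positivity
      linarith
    · intro m hm
      have hm0 : 0 < m := lt_of_lt_of_le (Nat.mul_pos (Nat.succ_pos j) hq) hm
      have hm1 : (0 : ℝ) < m := by exact_mod_cast hm0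
      refine (hB1 m).trans ?_
      have h1 : ((j : ℝ) + 1) * q ≤ m := by exact_mod_cast hm
      have h2 : (X : ℝ) / m ≤ (X : ℝ) / q * (1 / ((j : ℝ) + 1)) := by
        rw [← div_eq_mul_one_div, div_div, div_le_div_iff₀ hm1 (by positivity)]
        have : (X : ℝ) * (q * ((j : ℝ) + 1)) ≤ X * m := by
          apply mul_le_mul_of_nonneg_left _ hX0.le
          linarith
        linarith
      linarith
  obtain ⟨c, hc⟩ : ∃ c : ℕ → ℝ, c = fun j : ℕ => if j = 0 then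
    32 * (q + q * (1 + Real.log q)) + 32 * ((2 * X / q + 1) + q * (1 + Real.log q)) else
    32 * ((X : ℝ) / q * (1 / (j : ℝ)) + 1 + q * (1 + Real.log q)) := ⟨_, rfl⟩
  have hblocks := a4b_blocks B q c (by
    intro j
    rcases j with _ | j
    · rw [hc]
      simp only [if_true]
      exact hb0
    · rw [hc]
      simp only [Nat.succ_ne_zero, if_false]
      push_cast
      exact hbj j) (V / q + 1)
  have hle : ∑ m ∈ Icc 1 V, (if nd (m * α) = 0 then (X : ℝ) / m + 1 else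
      min ((X : ℝ) / m + 1) (1 / (2 * nd (m * α)))) ≤ ∑ m ∈ range ((V / q + 1) * q), B m := by
    have e : ∀ m ∈ Icc 1 V, (if nd (m * α) = 0 then (X : ℝ) / m + 1 else
      min ((X : ℝ) / m + 1) (1 / (2 * nd (m * α)))) = B m := by
      intro m hm
      rw [hBm m (by have := (Finset.mem_Icc.mp hm).1; omega)]
    rw [Finset.sum_congr rfl e]
    refine Finset.sum_le_sum_of_subset_of_nonneg ?_ (fun _ _ _ => hB0 _)
    intro m hm
    rw [Finset.mem_Icc] at hm
    rw [Finset.mem_range]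
    have := Nat.lt_div_mul_add hq (a := V)
    rw [add_mul, one_mul]
    omega
  -- sum of the `c j`
  have hsumc : ∑ j ∈ range (V / q + 1), c j ≤
      (32 * (q + q * (1 + Real.log q)) + 32 * ((2 * X / q + 1) + q * (1 + Real.log q))) +
      32 * ((X : ℝ) / q * (1 + Real.log X) + V + V * (1 + Real.log q)) := by
    rw [Finset.sum_range_succ']
    have e0 : c 0 = 32 * (q + q * (1 + Real.log q)) + 32 * ((2 * X / q + 1) + q * (1 + Real.log q)) := by
      rw [hc]; simp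
    rw [e0, add_comm]
    apply add_le_add le_rfl
    have e1 : ∀ j ∈ range (V / q), c (j + 1) = 32 * ((X : ℝ) / q) * (1 / ((j : ℝ) + 1)) + 32 * (1 + q * (1 + Real.log q)) := by
      intro j _
      rw [hc]
      simp only [Nat.succ_ne_zero, if_false]
      push_cast
      ring
    rw [Finset.sum_congr rfl e1, Finset.sum_add_distrib, ← Finset.mul_sum, Finset.sum_const, Finset.card_range,
      nsmul_eq_mul]
    have h1 : ∑ j ∈ range (V / q), (1 / ((j : ℝ) + 1)) ≤ 1 + Real.log X := by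
      have h2 := harmonic_le_one_add_log (V / q)
      have e2 : ((harmonic (V / q) : ℚ) : ℝ) = ∑ j ∈ range (V / q), (1 / ((j : ℝ) + 1)) := by
        rw [harmonic]
        push_cast
        refine Finset.sum_congr rfl fun j _ => ?_
        rw [one_div]
      rw [← e2]
      refine h2.trans ?_
      rcases Nat.eq_zero_or_pos (V / q) with h0 | h0
      · rw [h0]
        simp
        exact Real.log_natCast_nonneg X
      · have h3 : ((V / q : ℕ) : ℝ) ≤ X := by
          have : V / q ≤ X := (Nat.div_le_self V q).trans hVX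
          exact_mod_cast this
        have := Real.log_le_log (by exact_mod_cast h0) h3
        linarith
    have h4 : ((V / q : ℕ) : ℝ) ≤ V := by
      have : V / q ≤ V := Nat.div_le_self V q
      exact_mod_cast this
    have h5 : ((V / q : ℕ) : ℝ) * q ≤ V := by
      have : V / q * q ≤ V := Nat.div_mul_le_self V q
      exact_mod_cast this
    have h6 : 32 * ((X : ℝ) / q) * ∑ j ∈ range (V / q), (1 / ((j : ℝ) + 1)) ≤ 32 * ((X : ℝ) / q) * (1 + Real.log X) :=
      mul_le_mul_of_nonneg_left h1 (by positivity)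
    have h7 : ((V / q : ℕ) : ℝ) * q * (1 + Real.log q) ≤ V * (1 + Real.log q) :=
      mul_le_mul_of_nonneg_right h5 (by linarith)
    nlinarith
  have hlog2 : (0.69 : ℝ) ≤ Real.log X := by
    have h1 : Real.log 2 ≤ Real.log X := Real.log_le_log (by norm_num) (by exact_mod_cast hX)
    have h2 := Real.log_two_gt_d9
    linarith
  have hlogq : Real.log q ≤ Real.log X := Real.log_le_log hq0 (by exact_mod_cast hqX)
  obtain ⟨ℓ, hℓ⟩ : ∃ ℓ, ℓ = Real.log X := ⟨_, rfl⟩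
  rw [← hℓ] at hlog2 hlogq hsumc ⊢
  have hk1 : 1 ≤ 4 * ℓ ^ 2 := by nlinarith
  have hk2 : 1 + ℓ ≤ 4 * ℓ ^ 2 := by nlinarith
  have hk3 : 1 + Real.log q ≤ 4 * ℓ ^ 2 := by linarith
  have hXq : (0 : ℝ) ≤ (X : ℝ) / q := by positivity
  have hV0 : (0 : ℝ) ≤ V := Nat.cast_nonneg V
  have g1 : (q : ℝ) * (1 + Real.log q) ≤ q * (4 * ℓ ^ 2) := mul_le_mul_of_nonneg_left hk3 hq0.le
  have g2 : (X : ℝ) / q * (1 + ℓ) ≤ (X : ℝ) / q * (4 * ℓ ^ 2) := mul_le_mul_of_nonneg_left hk2 hXq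
  have g3 : (V : ℝ) * (1 + Real.log q) ≤ V * (4 * ℓ ^ 2) := mul_le_mul_of_nonneg_left hk3 hV0
  have g4 : (q : ℝ) ≤ q * (4 * ℓ ^ 2) := by nlinarith
  have g5 : (V : ℝ) ≤ V * (4 * ℓ ^ 2) := by nlinarith
  have g6 : (X : ℝ) / q ≤ (X : ℝ) / q * (4 * ℓ ^ 2) := by nlinarith
  have g7 : (1 : ℝ) ≤ q * (4 * ℓ ^ 2) := by nlinarith
  have e2 : 2 * (X : ℝ) / q = 2 * ((X : ℝ) / q) := by ring
  rw [e2] at hsumc
  have hfinal := hle.trans (hblocks.trans hsumc)
  nlinarith [mul_nonneg hXq (sq_nonneg ℓ), mul_nonneg hV0 (sq_nonneg ℓ), mul_nonneg hq0.le (sq_nonneg ℓ)]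

/-- expanding a square and exchanging -/
theorem a4b_sq_expand (S T : Finset ℕ) (z : ℕ → ℕ → ℂ) (G : ℕ → ℕ → ℝ)
    (hG : ∀ n ∈ T, ∀ n' ∈ T, ‖∑ m ∈ S, z m n * (starRingEnd ℂ) (z m n')‖ ≤ G n n') :
    ∑ m ∈ S, ‖∑ n ∈ T, z m n‖ ^ 2 ≤ ∑ n ∈ T, ∑ n' ∈ T, G n n' := by
  have e : ((∑ m ∈ S, ‖∑ n ∈ T, z m n‖ ^ 2 : ℝ) : ℂ) =
      ∑ n ∈ T, ∑ n' ∈ T, ∑ m ∈ S, z m n * (starRingEnd ℂ) (z m n') := by
    have h1 : ∀ m ∈ S, ((‖∑ n ∈ T, z m n‖ ^ 2 : ℝ) : ℂ) = ∑ n ∈ T, ∑ n' ∈ T, z m n * (starRingEnd ℂ) (z m n') := by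
      intro m _
      rw [← Complex.normSq_eq_norm_sq, ← Complex.mul_conj, map_sum, Finset.sum_mul_sum]
    rw [Complex.ofReal_sum, Finset.sum_congr rfl h1, Finset.sum_comm]
    refine Finset.sum_congr rfl fun n _ => ?_
    rw [Finset.sum_comm]
  have h0 : 0 ≤ ∑ m ∈ S, ‖∑ n ∈ T, z m n‖ ^ 2 := Finset.sum_nonneg fun _ _ => sq_nonneg _
  rw [← Real.norm_of_nonneg h0, ← Complex.norm_real, e]
  refine (norm_sum_le _ _).trans (Finset.sum_le_sum fun n hn => ?_)
  exact (norm_sum_le _ _).trans (Finset.sum_le_sum fun n' hn' => hG n hn n' hn')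

/-- pairs at a given distance -/
theorem a4b_pair_count (N : ℕ) (F : ℕ → ℝ) (hF : ∀ d, 0 ≤ F d) (n : ℕ) (hn : n ∈ Ico N (2 * N)) :
    ∑ n' ∈ Ico N (2 * N), F (Nat.dist n n') ≤ 2 * ∑ d ∈ range N, F d := by
  rw [Finset.mem_Ico] at hn
  rw [← Finset.sum_filter_add_sum_filter_not (Ico N (2 * N)) (fun n' => n' < n)]
  have h1 : ∑ n' ∈ (Ico N (2 * N)).filter (fun n' => n' < n), F (Nat.dist n n') ≤ ∑ d ∈ range N, F d := by
    have e : ∑ n' ∈ (Ico N (2 * N)).filter (fun n' => n' < n), F (Nat.dist n n') =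
        ∑ d ∈ ((Ico N (2 * N)).filter (fun n' => n' < n)).image (fun n' => n - n'), F d := by
      rw [Finset.sum_image]
      · refine Finset.sum_congr rfl fun n' hn' => ?_
        rw [Finset.mem_filter] at hn'
        rw [Nat.dist_eq_sub_of_le_right hn'.2.le]
      · intro x hx y hy hxy
        have hx2 := (Finset.mem_filter.mp (Finset.mem_coe.mp hx)).2
        have hy2 := (Finset.mem_filter.mp (Finset.mem_coe.mp hy)).2
        simp only at hxy
        omega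
    rw [e]
    refine Finset.sum_le_sum_of_subset_of_nonneg ?_ (fun _ _ _ => hF _)
    intro d hd
    obtain ⟨n', hn', rfl⟩ := Finset.mem_image.mp hd
    rw [Finset.mem_filter, Finset.mem_Ico] at hn'
    rw [Finset.mem_range]
    omega
  have h2 : ∑ n' ∈ (Ico N (2 * N)).filter (fun n' => ¬ n' < n), F (Nat.dist n n') ≤ ∑ d ∈ range N, F d := by
    have e : ∑ n' ∈ (Ico N (2 * N)).filter (fun n' => ¬ n' < n), F (Nat.dist n n') =
        ∑ d ∈ ((Ico N (2 * N)).filter (fun n' => ¬ n' < n)).image (fun n' => n' - n), F d := by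
      rw [Finset.sum_image]
      · refine Finset.sum_congr rfl fun n' hn' => ?_
        rw [Finset.mem_filter] at hn'
        rw [Nat.dist_eq_sub_of_le (not_lt.mp hn'.2)]
      · intro x hx y hy hxy
        have hx2 := (Finset.mem_filter.mp (Finset.mem_coe.mp hx)).2
        have hy2 := (Finset.mem_filter.mp (Finset.mem_coe.mp hy)).2
        simp only at hxy
        omega
    rw [e]
    refine Finset.sum_le_sum_of_subset_of_nonneg ?_ (fun _ _ _ => hF _)
    intro d hd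
    obtain ⟨n', hn', rfl⟩ := Finset.mem_image.mp hd
    rw [Finset.mem_filter, Finset.mem_Ico] at hn'
    rw [Finset.mem_range]
    omega
  linarith

/-- the inner sum of the type II estimate -/
theorem a4b_inner (X M n n' : ℕ) (α : ℝ) (β : ℕ → ℂ) (hβ : ∀ n, ‖β n‖ ≤ 1) (hn : 1 ≤ n) (hn' : 1 ≤ n') :
    ‖∑ m ∈ Ico M (2 * M), (β n * (if m * n < X then ee (((m * n : ℕ) : ℝ) * α) else 0)) *
      (starRingEnd ℂ) (β n' * (if m * n' < X then ee (((m * n' : ℕ) : ℝ) * α) else 0))‖ ≤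
      (if nd ((Nat.dist n n' : ℕ) * α) = 0 then (M : ℝ) else min (M : ℝ) (1 / (2 * nd ((Nat.dist n n' : ℕ) * α)))) := by
  obtain ⟨x, hx⟩ : ∃ x : ℝ, x = ((n : ℝ) - n') * α := ⟨_, rfl⟩
  have hndx : nd ((Nat.dist n n' : ℕ) * α) = nd x := by
    rcases le_total n n' with h | h
    · rw [Nat.dist_eq_sub_of_le h, Nat.cast_sub h, hx, ← nd_neg]
      congr 1
      ring
    · rw [Nat.dist_eq_sub_of_le_right h, Nat.cast_sub h, hx]
  rw [hndx]
  -- the summand
  obtain ⟨w, hw⟩ : ∃ w : ℕ, w = max n n' := ⟨_, rfl⟩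
  have hw1 : 1 ≤ w := by omega
  have e1 : ∀ m ∈ Ico M (2 * M), (β n * (if m * n < X then ee (((m * n : ℕ) : ℝ) * α) else 0)) *
      (starRingEnd ℂ) (β n' * (if m * n' < X then ee (((m * n' : ℕ) : ℝ) * α) else 0)) =
      (β n * (starRingEnd ℂ) (β n')) * (if m * w < X then ee (m * x) else 0) := by
    intro m _
    have hiff : m * w < X ↔ (m * n < X ∧ m * n' < X) := by
      constructor
      · intro h
        have a1 : m * n ≤ m * w := Nat.mul_le_mul_left m (by omega)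
        have a2 : m * n' ≤ m * w := Nat.mul_le_mul_left m (by omega)
        omega
      · rintro ⟨h1, h2⟩
        rcases le_total n n' with h | h
        · have : w = n' := by omega
          rw [this]; exact h2
        · have : w = n := by omega
          rw [this]; exact h1
    by_cases h1 : m * n < X
    · by_cases h2 : m * n' < X
      · rw [if_pos h1, if_pos h2, if_pos (hiff.mpr ⟨h1, h2⟩), map_mul, conj_ee, mul_mul_mul_comm, ← ee_add]
        congr 2
        rw [hx]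
        push_cast
        ring
      · rw [if_neg h2, if_neg (fun h => h2 (hiff.mp h).2)]
        simp
    · rw [if_neg h1, if_neg (fun h => h1 (hiff.mp h).1)]
      simp
  rw [Finset.sum_congr rfl e1, ← Finset.mul_sum, norm_mul, ← Finset.sum_filter]
  have hb : ‖β n * (starRingEnd ℂ) (β n')‖ ≤ 1 := by
    rw [norm_mul, RCLike.norm_conj]
    exact mul_le_one₀ (hβ n) (norm_nonneg _) (hβ n')
  -- the interval
  obtain ⟨K, hKM, hK⟩ : ∃ K : ℕ, K ≤ M ∧ (Ico M (2 * M)).filter (fun m => m * w < X) = Ico M (M + K) := by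
    refine ⟨min M ((X + w - 1) / w - M), min_le_left _ _, ?_⟩
    ext m
    have hlt : m * w < X ↔ m < (X + w - 1) / w := by
      rw [← Nat.succ_le_iff, ← Nat.succ_le_iff, Nat.le_div_iff_mul_le (by omega), Nat.succ_mul]
      omega
    rw [Finset.mem_filter, Finset.mem_Ico, Finset.mem_Ico, hlt]
    omega
  rw [hK]
  have hS : ‖∑ m ∈ Ico M (M + K), ee (m * x)‖ ≤ (if nd x = 0 then (M : ℝ) else min (M : ℝ) (1 / (2 * nd x))) := by
    have ht : ‖∑ m ∈ Ico M (M + K), ee (m * x)‖ ≤ M := by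
      refine (norm_sum_le _ _).trans ?_
      have : ∑ m ∈ Ico M (M + K), ‖ee (m * x)‖ = K := by simp [norm_ee]
      rw [this]
      exact_mod_cast hKM
    split_ifs with h0
    · exact ht
    · refine le_min ht ?_
      exact norm_geom_le x (lt_of_le_of_ne (nd_nonneg x) (Ne.symm h0)) M K
  calc _ ≤ 1 * ‖∑ m ∈ Ico M (M + K), ee (m * x)‖ := mul_le_mul_of_nonneg_right hb (norm_nonneg _)
    _ ≤ _ := by rw [one_mul]; exact hS

/-- type II sums for `f n = e(nα)` (`n < X`): expand `‖∑_n β_n f(mn)‖²`, exchange: for fixed `n, n'` the inner sum over `m` is over an interval of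
length `≤ M`, ratio `e((n-n')α)`: `≤ min M (1/(2 nd((n-n')α)))` (`norm_geom_le'`); then `A4_std_sum` for `d = |n-n'| < N` (`nd` is even), twice:
`N * 2 * 16 (N/q + 1)(M + q (1 + log q)) ≤ C N X log X (1/q + 1/U + q/X)` using `U ≤ M ≤ N`, `M N ≤ X`. -/
theorem A4_typeII_le : ∃ C : ℝ, 0 < C ∧ ∀ (X U q : ℕ) (a : ℤ) (α : ℝ) (M N : ℕ) (β : ℕ → ℂ), 2 ≤ X → 1 ≤ q → q ≤ X → 1 ≤ U →
    IsCoprime a (q : ℤ) → |α - a / q| ≤ 1 / (q : ℝ) ^ 2 → U ≤ M → M ≤ N → M * N ≤ X → (∀ n, ‖β n‖ ≤ 1) →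
    ∑ m ∈ Ico M (2 * M), ‖∑ n ∈ Ico N (2 * N), β n * (if m * n < X then ee (((m * n : ℕ) : ℝ) * α) else 0)‖ ^ 2 ≤
      (C * Real.log X * (1 / (q : ℝ) + 1 / (U : ℝ) + (q : ℝ) / X)) * N * X := by
  refine ⟨128, by norm_num, ?_⟩
  intro X U q a α M N β hX hq hqX hU ha hα hUM hMN hMNX hβ
  have hM : 1 ≤ M := by omega
  have hN : 1 ≤ N := by omega
  have hq0 : (0 : ℝ) < q := by exact_mod_cast hq
  have hX0 : (0 : ℝ) < X := by exact_mod_cast (by omega : 0 < X)
  have hU0 : (0 : ℝ) < U := by exact_mod_cast hU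
  have hM1 : (1 : ℝ) ≤ M := by exact_mod_cast hM
  have hN1 : (1 : ℝ) ≤ N := by exact_mod_cast hN
  obtain ⟨F, hF⟩ : ∃ F : ℕ → ℝ, F = fun d : ℕ => (if nd ((d : ℕ) * α) = 0 then (M : ℝ) else
    min (M : ℝ) (1 / (2 * nd ((d : ℕ) * α)))) := ⟨_, rfl⟩
  have hF0 : ∀ d, 0 ≤ F d := by
    intro d
    rw [hF]
    show 0 ≤ (if nd ((d : ℕ) * α) = 0 then (M : ℝ) else min (M : ℝ) (1 / (2 * nd ((d : ℕ) * α))))
    have := nd_nonneg ((d : ℝ) * α)
    split_ifs
    · positivity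
    · exact le_min (by positivity) (by positivity)
  have h1 := a4b_sq_expand (Ico M (2 * M)) (Ico N (2 * N))
    (fun m n => β n * (if m * n < X then ee (((m * n : ℕ) : ℝ) * α) else 0)) (fun n n' => F (Nat.dist n n'))
    (by
      intro n hn n' hn'
      rw [Finset.mem_Ico] at hn hn'
      have := a4b_inner X M n n' α β hβ (by omega) (by omega)
      rw [hF]
      exact this)
  refine h1.trans ?_
  have h2 : ∑ n ∈ Ico N (2 * N), ∑ n' ∈ Ico N (2 * N), F (Nat.dist n n') ≤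
      ∑ n ∈ Ico N (2 * N), 2 * ∑ d ∈ range N, F d :=
    Finset.sum_le_sum fun n hn => a4b_pair_count N F hF0 n hn
  refine h2.trans ?_
  rw [Finset.sum_const, Nat.card_Ico, nsmul_eq_mul]
  have eN : ((2 * N - N : ℕ) : ℝ) = N := by
    congr 1
    omega
  rw [eN]
  have h3 := A4_std_sum q hq a ha α hα M hM1 0 N F
    (by
      intro d
      rw [hF]
      show (if nd ((d : ℕ) * α) = 0 then (M : ℝ) else min (M : ℝ) (1 / (2 * nd ((d : ℕ) * α)))) ≤ M
      split_ifs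
      · exact le_rfl
      · exact min_le_left _ _)
    (by
      intro d hd
      rw [hF]
      show (if nd ((d : ℕ) * α) = 0 then (M : ℝ) else min (M : ℝ) (1 / (2 * nd ((d : ℕ) * α)))) ≤ _
      rw [if_neg hd.ne']
      exact min_le_right _ _)
  rw [zero_add, ← Finset.range_eq_Ico] at h3
  have hlog2 : (0.69 : ℝ) ≤ Real.log X := by
    have h1 : Real.log 2 ≤ Real.log X := Real.log_le_log (by norm_num) (by exact_mod_cast hX)
    have h2 := Real.log_two_gt_d9
    linarith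
  have hlogq : Real.log q ≤ Real.log X := Real.log_le_log hq0 (by exact_mod_cast hqX)
  have hlogq0 : 0 ≤ Real.log q := Real.log_natCast_nonneg q
  obtain ⟨ℓ, hℓ⟩ : ∃ ℓ, ℓ = Real.log X := ⟨_, rfl⟩
  rw [← hℓ] at hlog2 hlogq ⊢
  -- `N ≤ X / U`
  have hMNr : (M : ℝ) * N ≤ X := by exact_mod_cast hMNX
  have hUMr : (U : ℝ) ≤ M := by exact_mod_cast hUM
  have hMNr2 : (M : ℝ) ≤ N := by exact_mod_cast hMN
  have hNU : (N : ℝ) ≤ X / U := by
    rw [le_div_iff₀ hU0]
    nlinarith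
  -- the product
  have hprod : ((N : ℝ) / q + 1) * (M + q * (1 + Real.log q)) ≤
      (4 * ℓ) * ((X : ℝ) / q + X / U + q) := by
    have e : ((N : ℝ) / q + 1) * (M + q * (1 + Real.log q)) =
        (M * N) / q + N * (1 + Real.log q) + M + q * (1 + Real.log q) := by
      field_simp
      ring
    rw [e]
    have a1 : ((M : ℝ) * N) / q ≤ X / q := by gcongr
    have a2 : (N : ℝ) * (1 + Real.log q) ≤ (X / U) * (1 + ℓ) := by
      apply mul_le_mul hNU (by linarith) (by linarith) (by positivity)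
    have a3 : (M : ℝ) ≤ X / U := hMNr2.trans hNU
    have a4 : (q : ℝ) * (1 + Real.log q) ≤ q * (1 + ℓ) := by
      apply mul_le_mul_of_nonneg_left (by linarith) hq0.le
    have b1 : (0 : ℝ) ≤ (X : ℝ) / q := by positivity
    have b2 : (0 : ℝ) ≤ (X : ℝ) / U := by positivity
    have c1 : 1 ≤ 4 * ℓ := by linarith
    have c2 : 2 + ℓ ≤ 4 * ℓ := by linarith
    have d1 : (X : ℝ) / q ≤ (4 * ℓ) * ((X : ℝ) / q) := by nlinarith
    have d2 : (X : ℝ) / U * (2 + ℓ) ≤ (4 * ℓ) * ((X : ℝ) / U) := by nlinarith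
    have d3 : (q : ℝ) * (1 + ℓ) ≤ (4 * ℓ) * q := by nlinarith
    nlinarith
  have hN2 : (N : ℝ) * (2 * ∑ d ∈ range N, F d) ≤ N * (2 * (16 * ((N : ℝ) / q + 1) * (M + q * (1 + Real.log q)))) := by
    apply mul_le_mul_of_nonneg_left _ (by linarith)
    linarith
  refine hN2.trans ?_
  have hN3 : N * (2 * (16 * ((N : ℝ) / q + 1) * (M + q * (1 + Real.log q)))) ≤
      N * (32 * ((4 * ℓ) * ((X : ℝ) / q + X / U + q))) := by
    apply mul_le_mul_of_nonneg_left _ (by linarith)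
    nlinarith
  refine hN3.trans (le_of_eq ?_)
  field_simp
  ring

/-- the type I sums for `e(kα)` -/
theorem a4b_typeI_sum (X m Y : ℕ) (α : ℝ) (hm : 1 ≤ m) (hY : Y ≤ X) :
    ‖∑ k ∈ (range Y).filter (fun k => m ∣ k), ee (k * α)‖ ≤
      (if nd (m * α) = 0 then (X : ℝ) / m + 1 else min ((X : ℝ) / m + 1) (1 / (2 * nd (m * α)))) := by
  have hm0 : (0 : ℝ) < m := by exact_mod_cast hm
  obtain ⟨K, hK⟩ : ∃ K : ℕ, K = (Y + m - 1) / m := ⟨_, rfl⟩
  have hlt : ∀ j, m * j < Y ↔ j < K := by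
    intro j
    rw [hK, ← Nat.succ_le_iff, ← Nat.succ_le_iff, Nat.le_div_iff_mul_le (by omega), Nat.succ_mul, mul_comm j m]
    omega
  have e1 : (range Y).filter (fun k => m ∣ k) = (range K).image (fun j => m * j) := by
    ext k
    rw [Finset.mem_filter, Finset.mem_range, Finset.mem_image]
    constructor
    · rintro ⟨h1, j, rfl⟩
      exact ⟨j, Finset.mem_range.mpr ((hlt j).mp h1), rfl⟩
    · rintro ⟨j, hj, rfl⟩
      exact ⟨(hlt j).mpr (Finset.mem_range.mp hj), dvd_mul_right m j⟩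
  rw [e1, Finset.sum_image (fun x _ y _ hxy => Nat.eq_of_mul_eq_mul_left (by omega) hxy)]
  have e2 : ∀ j ∈ range K, ee (((m * j : ℕ) : ℝ) * α) = ee (j * (m * α)) := by
    intro j _
    congr 1
    push_cast
    ring
  rw [Finset.sum_congr rfl e2]
  have hKle : (K : ℝ) ≤ (X : ℝ) / m + 1 := by
    have h1 : K * m ≤ Y + m - 1 := by
      rw [hK]
      exact Nat.div_mul_le_self _ _
    have h2 : (K : ℝ) * m ≤ X + m := by
      have : K * m ≤ X + m := by omega
      exact_mod_cast this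
    have h3 : (X : ℝ) / m + 1 = (X + m) / m := by field_simp
    rw [h3, le_div_iff₀ hm0]
    exact h2
  have ht : ‖∑ j ∈ range K, ee (j * (m * α))‖ ≤ (X : ℝ) / m + 1 := by
    refine (norm_sum_le _ _).trans ?_
    have : ∑ j ∈ range K, ‖ee (j * (m * α))‖ = K := by simp [norm_ee]
    rw [this]
    exact hKle
  split_ifs with h0
  · exact ht
  · refine le_min ht ?_
    have h := norm_geom_le ((m : ℝ) * α) (lt_of_le_of_ne (nd_nonneg _) (Ne.symm h0)) 0 K
    rw [zero_add, ← Finset.range_eq_Ico] at h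
    exact h

theorem a4b_rpow_le (t : ℝ) (ht : 0 ≤ t) : t ^ (1 / 4 : ℝ) ≤ 1 + t := by
  rcases le_total t 1 with h | h
  · have := Real.rpow_le_one ht h (by norm_num : (0 : ℝ) ≤ 1 / 4)
    linarith
  · have := Real.rpow_le_rpow_of_exponent_le h (by norm_num : (1 / 4 : ℝ) ≤ 1)
    rw [Real.rpow_one] at this
    linarith

/-- **Vinogradov**. `VG` with `f n = ee (n α)` for `n < X`, `0` otherwise, `B` from `A4_typeI_le` (for `m ≤ U²`; `∑_{k<Y, m ∣ k} e(kα)` is a geometric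
series with ratio `e(mα)` of `≤ Y/m + 1` terms; set `B m = 0` is not allowed outside, so define `B` by the formula of `A4_typeI_le` for all `m`),
`E2 = min 1 (C log X (1/q+1/U+q/X))`. -/
theorem A4_minor_le : ∃ C : ℝ, 0 < C ∧ ∀ (X U q : ℕ) (a : ℤ) (α : ℝ), 3 ≤ X → 2 ≤ U → U ^ 2 ≤ X → 1 ≤ q → q ≤ X →
    IsCoprime a (q : ℤ) → |α - a / q| ≤ 1 / (q : ℝ) ^ 2 →
    ‖∑ n ∈ range X, ((Λ n : ℝ) : ℂ) * ee (n * α)‖ ≤
      C * Real.log X ^ 11 * ((X : ℝ) / q + (U : ℝ) ^ 2 + q + X * (1 / (q : ℝ) + 1 / (U : ℝ) + (q : ℝ) / X) ^ (1 / 4 : ℝ)) := by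
  obtain ⟨C1, hC1, H1⟩ := VG
  obtain ⟨C2, hC2, H2⟩ := A4_typeI_le
  obtain ⟨C3, hC3, H3⟩ := A4_typeII_le
  refine ⟨C1 * (2 + C2 + C3), by positivity, ?_⟩
  intro X U q a α hX hU hUX hq hqX ha hα
  have hq0 : (0 : ℝ) < q := by exact_mod_cast hq
  have hX0 : (0 : ℝ) < X := by exact_mod_cast (by omega : 0 < X)
  have hU0 : (0 : ℝ) < U := by exact_mod_cast (by omega : 0 < U)
  obtain ⟨R, hR⟩ : ∃ R : ℝ, R = 1 / (q : ℝ) + 1 / (U : ℝ) + (q : ℝ) / X := ⟨_, rfl⟩
  have hR0 : 0 < R := by rw [hR]; positivity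
  obtain ⟨ℓ, hℓ⟩ : ∃ ℓ, ℓ = Real.log X := ⟨_, rfl⟩
  have hℓ1 : 1 ≤ ℓ := by
    rw [hℓ, Real.le_log_iff_exp_le hX0]
    have h1 := Real.exp_one_lt_d9
    have h2 : (3 : ℝ) ≤ X := by exact_mod_cast hX
    linarith
  obtain ⟨E2, hE2⟩ : ∃ E2 : ℝ, E2 = min 1 (C3 * ℓ * R) := ⟨_, rfl⟩
  have hE20 : 0 < E2 := by
    rw [hE2]
    exact lt_min one_pos (by positivity)
  obtain ⟨f, hf⟩ : ∃ f : ℕ → ℂ, f = fun n : ℕ => if n < X then ee (n * α) else 0 := ⟨_, rfl⟩
  obtain ⟨B, hB⟩ : ∃ B : ℕ → ℝ, B = fun m : ℕ => (if nd (m * α) = 0 then (X : ℝ) / m + 1 else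
      min ((X : ℝ) / m + 1) (1 / (2 * nd (m * α)))) := ⟨_, rfl⟩
  have hVG := H1 X U f B E2 hU hUX
    (by
      intro n
      rw [hf]
      show ‖(if n < X then ee (n * α) else 0)‖ ≤ 1
      split_ifs
      · rw [norm_ee]
      · simp)
    (by
      intro n hn
      rw [hf]
      show (if n < X then ee (n * α) else 0) = 0
      rw [if_neg (by omega)])
    (by
      intro m
      rw [hB]
      show 0 ≤ (if nd (m * α) = 0 then (X : ℝ) / m + 1 else min ((X : ℝ) / m + 1) (1 / (2 * nd (m * α))))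
      have := nd_nonneg ((m : ℝ) * α)
      split_ifs
      · positivity
      · exact le_min (by positivity) (by positivity))
    (by
      intro m hm Y hY
      have e : ∑ k ∈ (range Y).filter (fun k => m ∣ k), f k = ∑ k ∈ (range Y).filter (fun k => m ∣ k), ee (k * α) := by
        refine Finset.sum_congr rfl fun k hk => ?_
        have hk1 := Finset.mem_range.mp (Finset.mem_filter.mp hk).1
        rw [hf]
        show (if k < X then ee (k * α) else 0) = ee (k * α)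
        rw [if_pos (by omega)]
      rw [e, hB]
      exact a4b_typeI_sum X m Y α (Finset.mem_Icc.mp hm).1 hY)
    hE20 (by rw [hE2]; exact min_le_left _ _)
    (by
      intro M N hUM hMN hMNX β hβ
      have e : ∑ m ∈ Ico M (2 * M), ‖∑ n ∈ Ico N (2 * N), β n * f (m * n)‖ ^ 2 =
          ∑ m ∈ Ico M (2 * M), ‖∑ n ∈ Ico N (2 * N), β n * (if m * n < X then ee (((m * n : ℕ) : ℝ) * α) else 0)‖ ^ 2 := by
        rw [hf]
      have hN0 : (0 : ℝ) ≤ N := Nat.cast_nonneg N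
      rcases min_choice 1 (C3 * ℓ * R) with h | h
      · rw [hE2, h, one_mul]
        have hb : ∀ m ∈ Ico M (2 * M), ‖∑ n ∈ Ico N (2 * N), β n * f (m * n)‖ ^ 2 ≤ (N : ℝ) ^ 2 := by
          intro m _
          have h1 : ‖∑ n ∈ Ico N (2 * N), β n * f (m * n)‖ ≤ N := by
            refine (norm_sum_le _ _).trans ?_
            have h2 : ∑ n ∈ Ico N (2 * N), ‖β n * f (m * n)‖ ≤ ∑ n ∈ Ico N (2 * N), (1 : ℝ) := by
              refine Finset.sum_le_sum fun n _ => ?_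
              rw [norm_mul]
              refine mul_le_one₀ (hβ n) (norm_nonneg _) ?_
              rw [hf]
              show ‖(if m * n < X then ee (((m * n : ℕ) : ℝ) * α) else 0)‖ ≤ 1
              split_ifs
              · rw [norm_ee]
              · simp
            refine h2.trans ?_
            rw [Finset.sum_const, Nat.card_Ico, nsmul_eq_mul, mul_one]
            have : 2 * N - N = N := by omega
            rw [this]
          exact pow_le_pow_left₀ (norm_nonneg _) h1 2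
        refine (Finset.sum_le_sum hb).trans ?_
        rw [Finset.sum_const, Nat.card_Ico, nsmul_eq_mul]
        have e3 : 2 * M - M = M := by omega
        rw [e3]
        have h4 : (M : ℝ) * N ≤ X := by exact_mod_cast hMNX
        nlinarith
      · rw [hE2, h, e, hR, hℓ]
        exact H3 X U q a α M N β (by omega) hq hqX (by omega) ha hα hUM hMN hMNX hβ)
  have e0 : ∑ n ∈ range X, ((Λ n : ℝ) : ℂ) * f n = ∑ n ∈ range X, ((Λ n : ℝ) : ℂ) * ee (n * α) := by
    refine Finset.sum_congr rfl fun n hn => ?_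
    rw [hf]
    show ((Λ n : ℝ) : ℂ) * (if n < X then ee (n * α) else 0) = _
    rw [if_pos (Finset.mem_range.mp hn)]
  rw [e0] at hVG
  refine hVG.trans ?_
  have hI := H2 X q a α (U ^ 2) (by omega) hq hqX hUX ha hα
  rw [hB, ← hR, ← hℓ]
  rw [← hℓ] at hI
  have hE4 : E2 ^ (1 / 4 : ℝ) ≤ ((1 + C3) * ℓ) * R ^ (1 / 4 : ℝ) := by
    have h1 : E2 ^ (1 / 4 : ℝ) ≤ (C3 * ℓ * R) ^ (1 / 4 : ℝ) :=
      Real.rpow_le_rpow hE20.le (by rw [hE2]; exact min_le_right _ _) (by norm_num)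
    rw [Real.mul_rpow (by positivity) hR0.le] at h1
    refine h1.trans ?_
    apply mul_le_mul_of_nonneg_right _ (Real.rpow_nonneg hR0.le _)
    refine (a4b_rpow_le (C3 * ℓ) (by positivity)).trans ?_
    nlinarith
  obtain ⟨r, hr⟩ : ∃ r, r = R ^ (1 / 4 : ℝ) := ⟨_, rfl⟩
  have hr0 : 0 ≤ r := by rw [hr]; exact Real.rpow_nonneg hR0.le _
  rw [← hr] at hE4 ⊢
  obtain ⟨W, hW⟩ : ∃ W : ℝ, W = (X : ℝ) / q + (U : ℝ) ^ 2 + q := ⟨_, rfl⟩
  have hW0 : 0 ≤ W := by rw [hW]; positivity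
  have hI' : ∑ m ∈ Icc 1 (U ^ 2), (if nd (m * α) = 0 then (X : ℝ) / m + 1 else
      min ((X : ℝ) / m + 1) (1 / (2 * nd (m * α)))) ≤ C2 * ℓ ^ 2 * W := by
    rw [hW]
    push_cast at hI
    exact hI
  have hUW : (U : ℝ) ≤ W := by
    have h1 : (U : ℝ) ≤ (U : ℝ) ^ 2 := by
      have : (1 : ℝ) ≤ U := by exact_mod_cast (by omega : 1 ≤ U)
      nlinarith
    have h2 : (0 : ℝ) ≤ (X : ℝ) / q := by positivity
    rw [hW]
    linarith
  have p1 : ℓ ^ 8 ≤ ℓ ^ 11 := pow_le_pow_right₀ hℓ1 (by norm_num)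
  have p2 : ℓ ^ 10 ≤ ℓ ^ 11 := pow_le_pow_right₀ hℓ1 (by norm_num)
  have p3 : ℓ ^ 9 ≤ ℓ ^ 11 := pow_le_pow_right₀ hℓ1 (by norm_num)
  have hXr : 0 ≤ (X : ℝ) * r := by positivity
  calc C1 * ℓ ^ 8 * ((U : ℝ) + ∑ m ∈ Icc 1 (U ^ 2), (if nd (m * α) = 0 then (X : ℝ) / m + 1 else
        min ((X : ℝ) / m + 1) (1 / (2 * nd (m * α)))) + X * E2 ^ (1 / 4 : ℝ))
      ≤ C1 * ℓ ^ 8 * (W + C2 * ℓ ^ 2 * W + X * (((1 + C3) * ℓ) * r)) := by
        gcongr
    _ = C1 * (ℓ ^ 8 * W + C2 * (ℓ ^ 10 * W) + (1 + C3) * (ℓ ^ 9 * (X * r))) := by ring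
    _ ≤ C1 * (ℓ ^ 11 * W + C2 * (ℓ ^ 11 * W) + (1 + C3) * (ℓ ^ 11 * (X * r))) := by
        gcongr
    _ ≤ C1 * (2 + C2 + C3) * ℓ ^ 11 * (W + X * r) := by
        have q1 : 0 ≤ ℓ ^ 11 * W := by positivity
        have q2 : 0 ≤ ℓ ^ 11 * (X * r) := by positivity
        have e : C1 * (2 + C2 + C3) * ℓ ^ 11 * (W + X * r) =
            C1 * ((2 + C2 + C3) * (ℓ ^ 11 * W) + (2 + C2 + C3) * (ℓ ^ 11 * (X * r))) := by ring
        rw [e]
        apply mul_le_mul_of_nonneg_left _ hC1.le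
        nlinarith [mul_nonneg hC3.le q1, mul_nonneg hC2.le q2, mul_nonneg hC3.le q2, mul_nonneg hC2.le q1]
    _ = _ := by rw [hW]

end Pool.Agent.LibHG31
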