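import Pool.Agent.LibHG31.Defs

/-! Interfaces of the blocks (do not type these; they are the last rows of the blocks) -/

namespace Pool.Agent.LibHG31

open Finset
open scoped ArithmeticFunction.vonMangoldt

/-- BLOCK TT (helper78), revision 2: joint unimodular function of prefix and suffix -/
def TTStmt (b : ℕ) : Prop :=
  ∃ (D : ℕ) (c₁ c C : ℝ), 2 ≤ D ∧ 0 < c₁ ∧ c₁ < 1 ∧ 0 < c ∧ 0 < C ∧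
    ∃ (A₁ A₂ : ℕ), 2 ≤ A₂ ∧ A₂ < A₁ ∧
    ∀ (L J l : ℕ), D ≤ L → D * J ≤ L → 1 ≤ J → 1 ≤ l → l < b →
    ∀ (α : ℕ → ℝ) (Om : ℕ → ℕ → ℂ), (∀ u v, ‖Om u v‖ = 1) →
      ‖∑ n ∈ (II b L l).filter (fun n => n.Coprime b), ((Λ n : ℝ) : ℂ) * ff b L J α Om n‖ ≤
        C * (b : ℝ) ^ L * (L : ℝ) ^ D *
          ((GG b c₁ α (L / A₁) (L / A₂)) ^ c + (b : ℝ) ^ (-(c * L)))

/-- BLOCK A (helper31) -/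
def AStmt (b : ℕ) : Prop :=
  ∃ A₀ : ℕ, ∀ A : ℕ, A₀ ≤ A → ∃ (c : ℝ) (L₀ : ℕ), 0 < c ∧ ∀ L : ℕ, L₀ ≤ L → ∀ l r : ℕ, 1 ≤ l → l < b →
    ∑ N ∈ Ico (b ^ (L + 1)) (b ^ (L + 2)), ‖Rrest b L (L / A) l r N‖ ^ 2 ≤ (b : ℝ) ^ ((3 - c) * L)

/-- BLOCK B (helper31), from TT -/
def BStmt (b : ℕ) : Prop :=
  ∃ A₀ : ℕ, ∀ A : ℕ, A₀ ≤ A → ∀ ε : ℝ, 0 < ε → ∃ L₀ : ℕ, ∀ L : ℕ, L₀ ≤ L → ∀ l r N : ℕ,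
    Good b L l r N →
    ∑ ρ ∈ (Rset b (L / A)).erase 0, ‖Rrho b L (L / A) l r N (ρ : ℝ)‖ ≤ ε * (b : ℝ) ^ L

/-- BLOCK C (helper99 + helper31) -/
def CStmt (b : ℕ) : Prop :=
  ∃ A₀ : ℕ, ∃ c : ℝ, 0 < c ∧ ∀ A : ℕ, A₀ ≤ A → ∃ L₀ : ℕ, ∀ L : ℕ, L₀ ≤ L → ∀ l r N : ℕ,
    Good b L l r N → c * (b : ℝ) ^ L ≤ (Rrho b L (L / A) l r N 0).re

open scoped Classical in
/-- FINAL -/
def HGStmt (b : ℕ) : Prop :=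
  ∃ δ C : ℝ, 0 < δ ∧ ∀ x : ℕ, 1 ≤ x →
    (((Finset.Icc 1 x).filter (fun N => Even N ∧ ¬ ∃ p₁ p₂ : ℕ, p₁.Prime ∧ p₂.Prime ∧
        N = p₁ + Nat.ofDigits b (Nat.digits b p₂).reverse ∧
        Nat.Coprime (Nat.ofDigits b (Nat.digits b p₂).reverse) (b ^ 3 - b))).card : ℝ) ≤
      C * (x : ℝ) ^ (1 - δ)

end Pool.Agent.LibHG31
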