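import Pool.Agent.LibHG31.A2b
import Pool.Agent.LibHG31.A3b
import Pool.Agent.LibHG31.A4b
import Pool.Agent.LibHG31.Iface

/-! ROW A5: assembly of block A. -/

namespace Pool.Agent.LibHG31

open Finset Filter Topology
open scoped ArithmeticFunction.vonMangoldt

/-- trivial bound -/
theorem norm_S1_le (b L : ℕ) (hb : 2 ≤ b) (α : ℝ) : ‖S1 b L α‖ ≤ (b : ℝ) ^ (L + 3) * ((L + 3 : ℕ) * Real.log b) := by
  unfold S1
  refine (norm_sum_le _ _).trans ?_
  have h1 : ∀ n ∈ range (XX b L), ‖((Λ n : ℝ) : ℂ) * ee (n * α)‖ ≤ (L + 3 : ℕ) * Real.log b := by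
    intro n hn
    rw [mem_range, XX] at hn
    rw [norm_mul, norm_ee, mul_one, Complex.norm_real, Real.norm_eq_abs,
      abs_of_nonneg ArithmeticFunction.vonMangoldt_nonneg]
    exact A2_vonMangoldt_le b (L + 3) n hb hn
  refine (Finset.sum_le_sum h1).trans ?_
  rw [Finset.sum_const, card_range, nsmul_eq_mul, XX]
  push_cast
  exact le_rfl

/-- `E = 2^(-L/(16A))` -/
private noncomputable def EE5 (A L : ℕ) : ℝ := (2 : ℝ) ^ (-((L : ℝ) / (16 * A)))

private theorem EE5_pos (A L : ℕ) : 0 < EE5 A L := by unfold EE5; positivity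

private theorem EE5_le_one (A L : ℕ) : EE5 A L ≤ 1 := by
  unfold EE5
  apply Real.rpow_le_one_of_one_le_of_nonpos (by norm_num)
  have : (0 : ℝ) ≤ (L : ℝ) / (16 * A) := by positivity
  linarith

private theorem EE5_pow (A L : ℕ) : EE5 A L ^ 4 = (2 : ℝ) ^ (-((L : ℝ) / (4 * A))) := by
  unfold EE5
  rw [← Real.rpow_natCast, ← Real.rpow_mul (by norm_num)]
  congr 1
  push_cast
  by_cases h : (A : ℝ) = 0
  · rw [h]; simp
  · field_simp
    ring

private theorem divreal (a b : ℕ) (hb : 0 < b) : (a : ℝ) / b - 1 < (a / b : ℕ) ∧ ((a / b : ℕ) : ℝ) ≤ (a : ℝ) / b := by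
  have hb' : (0 : ℝ) < b := by exact_mod_cast hb
  refine ⟨?_, Nat.cast_div_le⟩
  have h1 : a < b * (a / b + 1) := by
    have := Nat.div_add_mod a b
    have h2 := Nat.mod_lt a hb
    rw [mul_add, mul_one]
    omega
  have h2 : (a : ℝ) < b * ((a / b : ℕ) + 1) := by exact_mod_cast h1
  rw [sub_lt_iff_lt_add, div_lt_iff₀ hb']
  linarith

private theorem PP_inv_le (A L : ℕ) (hA : 1 ≤ A) : 1 / (PP (L / A) : ℝ) ≤ 4 * EE5 A L ^ 4 := by
  rw [EE5_pow]
  unfold PP
  push_cast
  rw [one_div, ← Real.rpow_natCast, ← Real.rpow_neg (by norm_num)]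
  have e : (4 : ℝ) * (2 : ℝ) ^ (-((L : ℝ) / (4 * A))) = (2 : ℝ) ^ (2 + -((L : ℝ) / (4 * A))) := by
    rw [Real.rpow_add (by norm_num)]
    norm_num
  rw [e]
  apply Real.rpow_le_rpow_of_exponent_le (by norm_num)
  have h1 := (divreal L A (by omega)).1
  have h2 := (divreal (L / A) 4 (by norm_num)).1
  have hA' : (0 : ℝ) < A := by exact_mod_cast (by omega : 0 < A)
  have h3 : (L : ℝ) / (4 * A) = ((L : ℝ) / A) / 4 := by field_simp
  rw [h3]
  push_cast at h2 ⊢
  linarith

/-- `2^(5.5J - 2L) ≤ 2^(-L)`, in the form used: `P^6 ≤ E H'^2` up to the constant -/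
private theorem tail_le (b A L : ℕ) (hb : 2 ≤ b) (hA : 100 ≤ A) :
    ((PP (L / A) * D0 b + 1 : ℕ) : ℝ) ^ 6 / (HH b L (L / A) : ℝ) ^ 2 ≤ 64 * (b : ℝ) ^ 12 * EE5 A L := by
  set J := L / A with hJ
  have hA' : (0 : ℝ) < A := by exact_mod_cast (by omega : 0 < A)
  have hJL : 100 * J ≤ L := by
    have h1 : A * J ≤ L := Nat.mul_div_le L A
    exact (Nat.mul_le_mul_right _ hA).trans h1
  have hP1 : (1 : ℝ) ≤ PP J := by
    unfold PP
    exact_mod_cast Nat.one_le_two_pow
  have hb1 : (1 : ℝ) ≤ b := by exact_mod_cast (by omega : 1 ≤ b)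
  have hD : (D0 b : ℝ) ≤ (b : ℝ) ^ 2 := by
    unfold D0
    exact_mod_cast Nat.sub_le _ _
  have h1 : ((PP J * D0 b + 1 : ℕ) : ℝ) ≤ 2 * PP J * (b : ℝ) ^ 2 := by
    push_cast
    have h2 : (1 : ℝ) ≤ PP J * (b : ℝ) ^ 2 := by
      have := one_le_pow₀ hb1 (n := 2)
      nlinarith
    have h3 : (PP J : ℝ) * D0 b ≤ PP J * (b : ℝ) ^ 2 := mul_le_mul_of_nonneg_left hD (by linarith)
    linarith
  have h2 : ((PP J * D0 b + 1 : ℕ) : ℝ) ^ 6 ≤ 64 * (b : ℝ) ^ 12 * (PP J : ℝ) ^ 6 := by
    refine (pow_le_pow_left₀ (by positivity) h1 6).trans (le_of_eq ?_)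
    ring
  have h3 : (PP J : ℝ) ^ 6 ≤ (2 : ℝ) ^ (2 * J) := by
    unfold PP
    push_cast
    rw [← pow_mul]
    exact pow_le_pow_right₀ (by norm_num) (by omega)
  have h4 : (2 : ℝ) ^ (2 * (L - 2 * J)) ≤ (HH b L J : ℝ) ^ 2 := by
    unfold HH
    push_cast
    rw [← pow_mul, mul_comm (L - 2 * J) 2]
    exact pow_le_pow_left₀ (by norm_num) (by exact_mod_cast hb) _
  have h5 : (2 : ℝ) ^ (2 * J) / (2 : ℝ) ^ (2 * (L - 2 * J)) ≤ EE5 A L := by
    unfold EE5
    rw [← Real.rpow_natCast, ← Real.rpow_natCast, ← Real.rpow_sub (by norm_num)]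
    apply Real.rpow_le_rpow_of_exponent_le (by norm_num)
    have h6 : ((2 * (L - 2 * J) : ℕ) : ℝ) = 2 * L - 4 * J := by
      rw [Nat.cast_mul, Nat.cast_sub (by omega)]
      push_cast
      ring
    rw [h6]
    have h7 : (100 : ℝ) * J ≤ L := by exact_mod_cast hJL
    have h8 : (L : ℝ) / (16 * A) ≤ L := by
      apply div_le_self (by positivity)
      have : (100 : ℝ) ≤ A := by exact_mod_cast hA
      linarith
    push_cast
    nlinarith [Nat.cast_nonneg (α := ℝ) L]
  have hE := EE5_pos A L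
  calc ((PP J * D0 b + 1 : ℕ) : ℝ) ^ 6 / (HH b L J : ℝ) ^ 2
      ≤ (64 * (b : ℝ) ^ 12 * (2 : ℝ) ^ (2 * J)) / (2 : ℝ) ^ (2 * (L - 2 * J)) := by
        apply div_le_div₀ (by positivity) _ (by positivity) h4
        exact h2.trans (mul_le_mul_of_nonneg_left h3 (by positivity))
    _ = 64 * (b : ℝ) ^ 12 * ((2 : ℝ) ^ (2 * J) / (2 : ℝ) ^ (2 * (L - 2 * J))) := by ring
    _ ≤ _ := mul_le_mul_of_nonneg_left h5 (by positivity)

private theorem abs_one_sub_MM_le (b A L : ℕ) (hb : 2 ≤ b) (hA : 100 ≤ A) (α : ℝ) :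
    |1 - MM b L (L / A) α| ≤ 1 + 64 * (b : ℝ) ^ 12 := by
  have h1 := MM_le b L (L / A) hb α
  have h2 := MM_nonneg b L (L / A) α
  have h3 := tail_le b A L hb hA
  have h4 := EE5_le_one A L
  have h5 : 64 * (b : ℝ) ^ 12 * EE5 A L ≤ 64 * (b : ℝ) ^ 12 := mul_le_of_le_one_right (by positivity) h4
  have h6 : (0 : ℝ) ≤ 64 * (b : ℝ) ^ 12 := by positivity
  rw [abs_le]
  constructor <;> linarith

/-- major arcs -/
private theorem major_le (b A L : ℕ) (hb : 2 ≤ b) (hA : 100 ≤ A) (α : ℝ) (y : ℚ) (hy : y.den ≤ PP (L / A))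
    (hα : |α - y| ≤ PP (L / A) / (b : ℝ) ^ (L + 3)) :
    |1 - MM b L (L / A) α| ≤ (8 * Real.pi + 64 * (b : ℝ) ^ 12) * EE5 A L := by
  set J := L / A with hJ
  have hE := EE5_pos A L
  have hJL : 100 * J ≤ L := by
    have h1 : A * J ≤ L := Nat.mul_div_le L A
    exact (Nat.mul_le_mul_right _ hA).trans h1
  have hb0 : (0 : ℝ) < b := by exact_mod_cast (by omega : 0 < b)
  have hb2 : (2 : ℝ) ≤ b := by exact_mod_cast hb
  have h1 := MM_le b L J hb α
  have h3 := tail_le b A L hb hA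
  have h2 := le_MM b L J hb α y hy
  rw [← hJ] at h3
  have hpi := Real.pi_pos
  have h4 : 4 * Real.pi * (HH b L J : ℝ) * QQ b J * |α - y| ≤ 8 * Real.pi * EE5 A L := by
    have h5 : (HH b L J : ℝ) * QQ b J ≤ (b : ℝ) ^ (L + 2 - J) := by
      have : HH b L J * QQ b J ≤ b ^ (L + 2 - J) := by
        unfold HH QQ D0
        calc b ^ (L - 2 * J) * ((b ^ 2 - 1) * b ^ J) ≤ b ^ (L - 2 * J) * (b ^ 2 * b ^ J) := by
              apply Nat.mul_le_mul_left
              apply Nat.mul_le_mul_right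
              exact Nat.sub_le _ _
          _ = b ^ (L + 2 - J) := by
              rw [← pow_add, ← pow_add]
              congr 1
              omega
      exact_mod_cast this
    have h6 : (b : ℝ) ^ (L + 2 - J) * (PP J / (b : ℝ) ^ (L + 3)) ≤ 2 * EE5 A L := by
      have h7 : (b : ℝ) ^ (L + 2 - J) / (b : ℝ) ^ (L + 3) ≤ 1 / (2 : ℝ) ^ J := by
        rw [div_le_div_iff₀ (by positivity) (by positivity), one_mul]
        calc (b : ℝ) ^ (L + 2 - J) * 2 ^ J ≤ (b : ℝ) ^ (L + 2 - J) * (b : ℝ) ^ J := by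
              apply mul_le_mul_of_nonneg_left _ (by positivity)
              exact pow_le_pow_left₀ (by norm_num) hb2 _
          _ = (b : ℝ) ^ (L + 2) := by rw [← pow_add]; congr 1; omega
          _ ≤ (b : ℝ) ^ (L + 3) := pow_le_pow_right₀ (by linarith) (by omega)
      have h8 : (PP J : ℝ) / (2 : ℝ) ^ J ≤ 2 * EE5 A L := by
        unfold PP EE5
        push_cast
        have e : (2 : ℝ) * (2 : ℝ) ^ (-((L : ℝ) / (16 * A))) = (2 : ℝ) ^ (1 + -((L : ℝ) / (16 * A))) := by
          rw [Real.rpow_add (by norm_num), Real.rpow_one]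
        rw [e, ← Real.rpow_natCast, ← Real.rpow_natCast, ← Real.rpow_sub (by norm_num)]
        apply Real.rpow_le_rpow_of_exponent_le (by norm_num)
        have hA' : (0 : ℝ) < A := by exact_mod_cast (by omega : 0 < A)
        have h9 := (divreal L A (by omega)).1
        have h10 := (divreal J 4 (by norm_num)).2
        rw [← hJ] at h9
        have h11 : (L : ℝ) / (16 * A) = ((L : ℝ) / A) / 16 := by field_simp
        rw [h11]
        push_cast at h10 ⊢
        have h12 : (0 : ℝ) ≤ (L : ℝ) / A := by positivity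
        linarith
      calc (b : ℝ) ^ (L + 2 - J) * (PP J / (b : ℝ) ^ (L + 3)) =
            ((b : ℝ) ^ (L + 2 - J) / (b : ℝ) ^ (L + 3)) * PP J := by ring
        _ ≤ (1 / (2 : ℝ) ^ J) * PP J := mul_le_mul_of_nonneg_right h7 (by positivity)
        _ = (PP J : ℝ) / (2 : ℝ) ^ J := by ring
        _ ≤ _ := h8
    calc 4 * Real.pi * (HH b L J : ℝ) * QQ b J * |α - y| = 4 * Real.pi * (((HH b L J : ℝ) * QQ b J) * |α - y|) := by ring
      _ ≤ 4 * Real.pi * ((b : ℝ) ^ (L + 2 - J) * (PP J / (b : ℝ) ^ (L + 3))) := by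
          apply mul_le_mul_of_nonneg_left _ (by positivity)
          exact mul_le_mul h5 hα (abs_nonneg _) (by positivity)
      _ ≤ 4 * Real.pi * (2 * EE5 A L) := mul_le_mul_of_nonneg_left h6 (by positivity)
      _ = _ := by ring
  have h13 : (0 : ℝ) ≤ 8 * Real.pi * EE5 A L := by positivity
  have h14 : (0 : ℝ) ≤ 64 * (b : ℝ) ^ 12 * EE5 A L := by positivity
  rw [abs_le]
  constructor <;> nlinarith

/-- the supremum. Dirichlet (`Real.exists_rat_abs_sub_le_and_den_le` with `n = b^(L+3) / P`, `P = PP J`, `n + 1 > b^(L+3)/P`): `y : ℚ`,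
`|α - y| ≤ P/(den y * b^(L+3))`, `den y ≤ b^(L+3)/P`.
Case `den y ≤ P`: `le_MM` gives `1 - MM ≤ 4π H' Q P / b^(L+3) ≤ C b^(-J) 2^(J/4)` (`H' Q = D0 b^(L-J)`), `MM_le` gives `MM - 1 ≤ C 2^(6J/4) b^(-2L+4J)`;
times `norm_S1_le`. Both are `≤ b^(-cL)` because `J = L/A`, `A ≥ A₀` (`A₀ = 100`).
Case `P < den y ≤ b^(L+3)/P`: `|α - y| ≤ 1/(den y)^2`; `|1 - MM| ≤ 1 + 1` for large `L` (`MM_le`, `MM_nonneg`) and `A4_minor_le` with `X = b^(L+3)`,
`U = b^(L/10)`. -/
theorem MM_sup_le (b : ℕ) (hb : 2 ≤ b) : ∀ A : ℕ, 100 ≤ A → ∃ (c : ℝ) (L₀ : ℕ), 0 < c ∧ ∀ L : ℕ, L₀ ≤ L → ∀ α : ℝ,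
    |1 - MM b L (L / A) α| * ‖S1 b L α‖ ≤ (b : ℝ) ^ ((1 - c) * L) := by
  intro A hA
  obtain ⟨C, hC, hmin⟩ := A4_minor_le
  have hb0 : (0 : ℝ) < b := by exact_mod_cast (by omega : 0 < b)
  have hb2 : (2 : ℝ) ≤ b := by exact_mod_cast hb
  have hlb : 0 < Real.log b := Real.log_pos (by linarith)
  have hA' : (0 : ℝ) < A := by exact_mod_cast (by omega : 0 < A)
  have hpi := Real.pi_pos
  -- the common bound
  set C' : ℝ := (1 + 64 * (b : ℝ) ^ 12) * (C * Real.log b ^ 11 * (17 + b)) * (b : ℝ) ^ 3 +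
    (8 * Real.pi + 64 * (b : ℝ) ^ 12) * Real.log b * (b : ℝ) ^ 3 with hC'
  have hC'0 : 0 < C' := by positivity
  have hcommon : ∀ L : ℕ, 10 ≤ L → ∀ α : ℝ,
      |1 - MM b L (L / A) α| * ‖S1 b L α‖ ≤ C' * ((b : ℝ) ^ L * ((L + 3 : ℕ) : ℝ) ^ 11 * EE5 A L) := by
    intro L hL α
    set J := L / A with hJ
    set X := b ^ (L + 3) with hX
    have hE := EE5_pos A L
    have hE1 := EE5_le_one A L
    have hXpos : (0 : ℝ) < X := by rw [hX]; push_cast; positivity
    have hXr : (X : ℝ) = (b : ℝ) ^ (L + 3) := by rw [hX]; push_cast; rfl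
    have hPpos : 0 < PP J := by unfold PP; positivity
    have hPr : (0 : ℝ) < PP J := by exact_mod_cast hPpos
    have hL3 : (1 : ℝ) ≤ ((L + 3 : ℕ) : ℝ) := by exact_mod_cast (by omega : 1 ≤ L + 3)
    have hPX : PP J ≤ X := by
      unfold PP
      calc 2 ^ (J / 4) ≤ 2 ^ (L + 3) := by
            apply Nat.pow_le_pow_right (by norm_num)
            have : J ≤ L := Nat.div_le_self L A
            omega
        _ ≤ X := Nat.pow_le_pow_left hb _
    set n := X / PP J with hn
    have hn1 : 1 ≤ n := (Nat.one_le_div_iff hPpos).2 hPX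
    obtain ⟨y, hy1, hy2⟩ := Real.exists_rat_abs_sub_le_and_den_le α (by omega : 0 < n)
    have hyd : (0 : ℝ) < y.den := by exact_mod_cast y.den_pos
    have hnX : (X : ℝ) / PP J ≤ (n : ℝ) + 1 := by
      have := (divreal X (PP J) hPpos).1
      rw [← hn] at this
      linarith
    have hnX2 : (n : ℝ) ≤ (X : ℝ) / PP J := (divreal X (PP J) hPpos).2
    have hXP : (0 : ℝ) < (X : ℝ) / PP J := by positivity
    rcases le_or_gt y.den (PP J) with hcase | hcase
    · -- major
      have h1 : |α - y| ≤ PP J / (b : ℝ) ^ (L + 3) := by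
        refine hy1.trans ?_
        rw [← hXr]
        have h2 : (X : ℝ) / PP J ≤ ((n : ℝ) + 1) * y.den := by
          have h3 : (1 : ℝ) ≤ y.den := by exact_mod_cast y.den_pos
          have h4 : ((n : ℝ) + 1) * 1 ≤ ((n : ℝ) + 1) * y.den := mul_le_mul_of_nonneg_left h3 (by positivity)
          linarith
        calc 1 / (((n : ℝ) + 1) * y.den) ≤ 1 / ((X : ℝ) / PP J) := one_div_le_one_div_of_le hXP h2
          _ = PP J / X := by field_simp
      have h2 := major_le b A L hb hA α y hcase h1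
      have h3 := norm_S1_le b L hb α
      calc |1 - MM b L J α| * ‖S1 b L α‖ ≤
            ((8 * Real.pi + 64 * (b : ℝ) ^ 12) * EE5 A L) * ((b : ℝ) ^ (L + 3) * ((L + 3 : ℕ) * Real.log b)) :=
            mul_le_mul h2 h3 (norm_nonneg _) (by positivity)
        _ = ((8 * Real.pi + 64 * (b : ℝ) ^ 12) * Real.log b * (b : ℝ) ^ 3) *
              ((b : ℝ) ^ L * ((L + 3 : ℕ) : ℝ) ^ 1 * EE5 A L) := by
            rw [pow_add]
            ring
        _ ≤ ((8 * Real.pi + 64 * (b : ℝ) ^ 12) * Real.log b * (b : ℝ) ^ 3) *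
              ((b : ℝ) ^ L * ((L + 3 : ℕ) : ℝ) ^ 11 * EE5 A L) := by
            apply mul_le_mul_of_nonneg_left _ (by positivity)
            apply mul_le_mul_of_nonneg_right _ hE.le
            apply mul_le_mul_of_nonneg_left _ (by positivity)
            exact pow_le_pow_right₀ hL3 (by norm_num)
        _ ≤ _ := by
            apply mul_le_mul_of_nonneg_right _ (by positivity)
            rw [hC']
            have : 0 ≤ (1 + 64 * (b : ℝ) ^ 12) * (C * Real.log b ^ 11 * (17 + b)) * (b : ℝ) ^ 3 := by positivity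
            linarith
    · -- minor
      set q := y.den with hq
      set U := b ^ (L / 10) with hU
      have hUpos : (0 : ℝ) < U := by rw [hU]; push_cast; positivity
      have hU2 : 2 ≤ U := by
        rw [hU]
        calc 2 ≤ b := hb
          _ = b ^ 1 := (pow_one b).symm
          _ ≤ b ^ (L / 10) := Nat.pow_le_pow_right (by omega) (by omega)
      have hUX : U ^ 2 ≤ X := by
        rw [hU, hX, ← pow_mul]
        exact Nat.pow_le_pow_right (by omega) (by omega)
      have hX3 : 3 ≤ X := by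
        rw [hX]
        calc 3 ≤ 2 ^ 2 := by norm_num
          _ ≤ b ^ 2 := Nat.pow_le_pow_left hb 2
          _ ≤ b ^ (L + 3) := Nat.pow_le_pow_right (by omega) (by omega)
      have hnX' : n ≤ X := Nat.div_le_self _ _
      have hqX : q ≤ X := hy2.trans hnX'
      have hcop : IsCoprime y.num (q : ℤ) := by
        have := y.isCoprime_num_den
        exact this
      have hyr : (y : ℝ) = (y.num : ℝ) / q := by
        exact Rat.cast_def y
      have hα : |α - (y.num : ℝ) / q| ≤ 1 / (q : ℝ) ^ 2 := by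
        rw [← hyr]
        refine hy1.trans ?_
        apply one_div_le_one_div_of_le (by positivity)
        rw [sq]
        apply mul_le_mul_of_nonneg_right _ hyd.le
        have : (q : ℝ) ≤ n := by exact_mod_cast hy2
        linarith
      have hm := hmin X U q y.num α hX3 hU2 hUX (by rw [hq]; exact y.den_pos) hqX hcop hα
      have hS : S1 b L α = ∑ n ∈ range X, ((Λ n : ℝ) : ℂ) * ee (n * α) := rfl
      rw [← hS] at hm
      -- the pieces
      have hqr : (PP J : ℝ) ≤ q := by exact_mod_cast hcase.le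
      have hPinv := PP_inv_le A L (by omega)
      rw [← hJ] at hPinv
      have hE4 : EE5 A L ^ 4 ≤ EE5 A L := by
        calc EE5 A L ^ 4 ≤ EE5 A L ^ 1 := pow_le_pow_of_le_one hE.le hE1 (by norm_num)
          _ = EE5 A L := pow_one _
      have p1 : 1 / (q : ℝ) ≤ 4 * EE5 A L ^ 4 := (one_div_le_one_div_of_le hPr hqr).trans hPinv
      have p2 : (X : ℝ) / q ≤ X * (4 * EE5 A L) := by
        have : (X : ℝ) / q = X * (1 / q) := by ring
        rw [this]
        apply mul_le_mul_of_nonneg_left _ hXpos.le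
        exact p1.trans (by linarith)
      have p3 : (q : ℝ) ≤ X * (4 * EE5 A L ^ 4) := by
        have h1 : (q : ℝ) ≤ n := by exact_mod_cast hy2
        have h2 : (X : ℝ) / PP J = X * (1 / PP J) := by ring
        calc (q : ℝ) ≤ X * (1 / PP J) := by rw [← h2]; exact h1.trans hnX2
          _ ≤ _ := mul_le_mul_of_nonneg_left hPinv hXpos.le
      have p4 : (q : ℝ) / X ≤ 4 * EE5 A L ^ 4 := by
        rw [div_le_iff₀ hXpos]
        linarith
      have hLA : (L : ℝ) / (4 * A) ≤ (L : ℝ) / 400 := by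
        apply div_le_div_of_nonneg_left (by positivity) (by norm_num)
        have : (100 : ℝ) ≤ A := by exact_mod_cast hA
        linarith
      have p5 : 1 / (U : ℝ) ≤ b * EE5 A L ^ 4 := by
        rw [EE5_pow, hU]
        push_cast
        rw [one_div, ← Real.rpow_natCast, ← Real.rpow_neg hb0.le]
        have h1 := (divreal L 10 (by norm_num)).1
        calc (b : ℝ) ^ (-((L / 10 : ℕ) : ℝ)) ≤ (b : ℝ) ^ (1 + -((L : ℝ) / 10)) := by
              apply Real.rpow_le_rpow_of_exponent_le (by linarith)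
              push_cast at h1 ⊢
              linarith
          _ = b * (b : ℝ) ^ (-((L : ℝ) / 10)) := by rw [Real.rpow_add hb0, Real.rpow_one]
          _ ≤ b * (2 : ℝ) ^ (-((L : ℝ) / (4 * A))) := by
              apply mul_le_mul_of_nonneg_left _ hb0.le
              calc (b : ℝ) ^ (-((L : ℝ) / 10)) ≤ (2 : ℝ) ^ (-((L : ℝ) / 10)) := by
                    apply Real.rpow_le_rpow_of_nonpos (by norm_num) hb2
                    have : (0 : ℝ) ≤ (L : ℝ) / 10 := by positivity
                    linarith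
                _ ≤ _ := by
                    apply Real.rpow_le_rpow_of_exponent_le (by norm_num)
                    have : (L : ℝ) / 400 ≤ (L : ℝ) / 10 := by
                      apply div_le_div_of_nonneg_left (by positivity) (by norm_num) (by norm_num)
                    linarith
      have p6 : (U : ℝ) ^ 2 ≤ X * EE5 A L := by
        have h1 : (U : ℝ) ^ 2 ≤ (b : ℝ) ^ ((L : ℝ) / 2) := by
          rw [hU]
          push_cast
          rw [← pow_mul, ← Real.rpow_natCast]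
          apply Real.rpow_le_rpow_of_exponent_le (by linarith)
          have h1 := (divreal L 10 (by norm_num)).2
          push_cast at h1 ⊢
          have : (0 : ℝ) ≤ L := by positivity
          linarith
        have h2 : (b : ℝ) ^ ((L : ℝ) / 2) ≤ X * EE5 A L := by
          have h3 : (b : ℝ) ^ (-((L : ℝ) / 2)) ≤ EE5 A L := by
            unfold EE5
            calc (b : ℝ) ^ (-((L : ℝ) / 2)) ≤ (2 : ℝ) ^ (-((L : ℝ) / 2)) := by
                  apply Real.rpow_le_rpow_of_nonpos (by norm_num) hb2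
                  have : (0 : ℝ) ≤ (L : ℝ) / 2 := by positivity
                  linarith
              _ ≤ _ := by
                  apply Real.rpow_le_rpow_of_exponent_le (by norm_num)
                  have : (L : ℝ) / (16 * A) ≤ (L : ℝ) / 2 := by
                    apply div_le_div_of_nonneg_left (by positivity) (by norm_num)
                    have : (100 : ℝ) ≤ A := by exact_mod_cast hA
                    linarith
                  linarith
          have h4 : (b : ℝ) ^ ((L : ℝ) / 2) = (b : ℝ) ^ (L : ℝ) * (b : ℝ) ^ (-((L : ℝ) / 2)) := by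
            rw [← Real.rpow_add hb0]
            congr 1
            ring
          rw [h4, Real.rpow_natCast, hXr]
          apply mul_le_mul _ h3 (by positivity) (by positivity)
          exact pow_le_pow_right₀ (by linarith) (by omega)
        exact h1.trans h2
      have p7 : (1 / (q : ℝ) + 1 / (U : ℝ) + (q : ℝ) / X) ^ (1 / 4 : ℝ) ≤ (8 + b) * EE5 A L := by
        have h1 : 1 / (q : ℝ) + 1 / (U : ℝ) + (q : ℝ) / X ≤ ((8 + b) * EE5 A L) ^ 4 := by
          have h2 : (8 + (b : ℝ)) * EE5 A L ^ 4 ≤ ((8 + b) * EE5 A L) ^ 4 := by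
            rw [mul_pow]
            apply mul_le_mul_of_nonneg_right _ (by positivity)
            calc 8 + (b : ℝ) = (8 + (b : ℝ)) ^ 1 := (pow_one _).symm
              _ ≤ (8 + (b : ℝ)) ^ 4 := pow_le_pow_right₀ (by linarith) (by norm_num)
          linarith
        calc (1 / (q : ℝ) + 1 / (U : ℝ) + (q : ℝ) / X) ^ (1 / 4 : ℝ) ≤ (((8 + b) * EE5 A L) ^ 4) ^ (1 / 4 : ℝ) := by
              apply Real.rpow_le_rpow (by positivity) h1 (by norm_num)
          _ = (8 + b) * EE5 A L := by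
              rw [← Real.rpow_natCast, ← Real.rpow_mul (by positivity)]
              norm_num
      have hbr : (X : ℝ) / q + (U : ℝ) ^ 2 + q + X * (1 / (q : ℝ) + 1 / (U : ℝ) + (q : ℝ) / X) ^ (1 / 4 : ℝ) ≤
          X * ((17 + b) * EE5 A L) := by
        have h1 : X * (1 / (q : ℝ) + 1 / (U : ℝ) + (q : ℝ) / X) ^ (1 / 4 : ℝ) ≤ X * ((8 + b) * EE5 A L) :=
          mul_le_mul_of_nonneg_left p7 hXpos.le
        have h2 : (q : ℝ) ≤ X * (4 * EE5 A L) := p3.trans (by
          apply mul_le_mul_of_nonneg_left _ hXpos.le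
          linarith)
        have h3 : X * (4 * EE5 A L) + X * EE5 A L + X * (4 * EE5 A L) + X * ((8 + b) * EE5 A L) =
          X * ((17 + b) * EE5 A L) := by ring
        linarith
      have hlogX : Real.log X = (L + 3 : ℕ) * Real.log b := by
        rw [hXr, Real.log_pow]
      have h1 := abs_one_sub_MM_le b A L hb hA α
      rw [← hJ] at h1
      calc |1 - MM b L J α| * ‖S1 b L α‖ ≤ (1 + 64 * (b : ℝ) ^ 12) *
            (C * Real.log X ^ 11 * (X * ((17 + b) * EE5 A L))) := by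
            apply mul_le_mul h1 _ (norm_nonneg _) (by positivity)
            refine hm.trans ?_
            apply mul_le_mul_of_nonneg_left hbr
            have : 0 ≤ Real.log X := Real.log_nonneg (by exact_mod_cast (by omega : 1 ≤ X))
            positivity
        _ = ((1 + 64 * (b : ℝ) ^ 12) * (C * Real.log b ^ 11 * (17 + b)) * (b : ℝ) ^ 3) *
              ((b : ℝ) ^ L * ((L + 3 : ℕ) : ℝ) ^ 11 * EE5 A L) := by
            rw [hlogX, hXr, pow_add, mul_pow]
            ring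
        _ ≤ _ := by
            apply mul_le_mul_of_nonneg_right _ (by positivity)
            rw [hC']
            have : 0 ≤ (8 * Real.pi + 64 * (b : ℝ) ^ 12) * Real.log b * (b : ℝ) ^ 3 := by positivity
            linarith
  -- the limit
  set r : ℝ := (2 : ℝ) ^ (-(1 / (32 * A) : ℝ)) with hr
  have hr0 : 0 < r := by positivity
  have hr1 : r < 1 := by
    rw [hr]
    apply Real.rpow_lt_one_of_one_lt_of_neg (by norm_num)
    have : (0 : ℝ) < 1 / (32 * A) := by positivity
    linarith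
  have hlim : Tendsto (fun L : ℕ => (C' / r ^ 3) * (((L + 3 : ℕ) : ℝ) ^ 11 * r ^ (L + 3))) atTop (𝓝 0) := by
    have h1 := tendsto_pow_const_mul_const_pow_of_abs_lt_one 11 (show |r| < 1 by rwa [abs_of_pos hr0])
    have h2 := h1.comp (tendsto_add_atTop_nat 3)
    have h3 := h2.const_mul (C' / r ^ 3)
    rw [mul_zero] at h3
    exact h3
  obtain ⟨L₁, hL₁⟩ := Filter.eventually_atTop.1 (hlim.eventually (ge_mem_nhds (show (0 : ℝ) < 1 by norm_num)))
  refine ⟨Real.log 2 / (32 * A * Real.log b), max 10 L₁, ?_, ?_⟩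
  · have : 0 < Real.log 2 := Real.log_pos (by norm_num)
    positivity
  · intro L hL α
    have hL10 : 10 ≤ L := (le_max_left _ _).trans hL
    have hLL : L₁ ≤ L := (le_max_right _ _).trans hL
    have h1 := hcommon L hL10 α
    have h2 := hL₁ L hLL
    have h3 : EE5 A L = r ^ L * r ^ L := by
      unfold EE5
      rw [hr, ← Real.rpow_natCast, ← Real.rpow_mul (by norm_num), ← Real.rpow_add (by norm_num)]
      congr 1
      field_simp
      ring
    have h4 : C' * ((L + 3 : ℕ) : ℝ) ^ 11 * r ^ L ≤ 1 := by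
      refine le_trans (le_of_eq ?_) h2
      rw [pow_add]
      field_simp
    have h5 : (b : ℝ) ^ ((1 - Real.log 2 / (32 * A * Real.log b)) * L) = (b : ℝ) ^ L * r ^ L := by
      rw [hr, ← Real.rpow_natCast, ← Real.rpow_natCast, ← Real.rpow_mul (by norm_num)]
      rw [Real.rpow_def_of_pos hb0, Real.rpow_def_of_pos hb0, Real.rpow_def_of_pos (by norm_num : (0 : ℝ) < 2), ← Real.exp_add]
      congr 1
      field_simp
      ring
    rw [h5]
    refine h1.trans ?_
    rw [h3]
    calc C' * ((b : ℝ) ^ L * ((L + 3 : ℕ) : ℝ) ^ 11 * (r ^ L * r ^ L)) =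
          ((b : ℝ) ^ L * r ^ L) * (C' * ((L + 3 : ℕ) : ℝ) ^ 11 * r ^ L) := by ring
      _ ≤ ((b : ℝ) ^ L * r ^ L) * 1 := mul_le_mul_of_nonneg_left h4 (by positivity)
      _ = _ := mul_one _

/-- `sum_Rrest_sq_le` with `B = b^((1-c)L)`; `b^(2(1-c)L) b^L (L log b)² ≤ b^((3-c)L)` for large `L`. -/
theorem AStmt_holds (b : ℕ) (hb : 2 ≤ b) : AStmt b := by
  refine ⟨100, fun A hA => ?_⟩
  obtain ⟨c, L₀, hc, hsup⟩ := MM_sup_le b hb A hA
  have hb0 : (0 : ℝ) < b := by exact_mod_cast (by omega : 0 < b)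
  have hb2 : (2 : ℝ) ≤ b := by exact_mod_cast hb
  have hlb : 0 < Real.log b := Real.log_pos (by linarith)
  set r : ℝ := (b : ℝ) ^ (-c) with hr
  have hr0 : 0 < r := by positivity
  have hr1 : r < 1 := by
    rw [hr]
    apply Real.rpow_lt_one_of_one_lt_of_neg (by linarith) (by linarith)
  have hlim : Tendsto (fun L : ℕ => (Real.log b ^ 2) * ((L : ℝ) ^ 2 * r ^ L)) atTop (𝓝 0) := by
    have h1 := tendsto_pow_const_mul_const_pow_of_abs_lt_one 2 (show |r| < 1 by rwa [abs_of_pos hr0])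
    have h3 := h1.const_mul (Real.log b ^ 2)
    rw [mul_zero] at h3
    exact h3
  obtain ⟨L₁, hL₁⟩ := Filter.eventually_atTop.1 (hlim.eventually (ge_mem_nhds (show (0 : ℝ) < 1 by norm_num)))
  refine ⟨c, max (max L₀ L₁) 1, hc, ?_⟩
  intro L hL l r' hl1 hl2
  have hL0 : L₀ ≤ L := (le_max_left _ _).trans ((le_max_left _ _).trans hL)
  have hL1 : L₁ ≤ L := (le_max_right _ _).trans ((le_max_left _ _).trans hL)
  have hL2 : 1 ≤ L := (le_max_right _ _).trans hL
  have hJ : 2 * (L / A) ≤ L := by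
    have h1 : A * (L / A) ≤ L := Nat.mul_div_le L A
    calc 2 * (L / A) ≤ A * (L / A) := Nat.mul_le_mul_right _ (by omega)
      _ ≤ L := h1
  have h1 := sum_Rrest_sq_le b L (L / A) l r' hb hL2 hJ hl2 ((b : ℝ) ^ ((1 - c) * L)) (by positivity) (hsup L hL0)
  refine h1.trans ?_
  have h2 := hL₁ L hL1
  have h3 : (b : ℝ) ^ ((3 - c) * L) = ((b : ℝ) ^ ((1 - c) * L)) ^ 2 * (b : ℝ) ^ L * (b : ℝ) ^ (c * L) := by
    rw [← Real.rpow_natCast, ← Real.rpow_natCast, ← Real.rpow_mul hb0.le, ← Real.rpow_add hb0, ← Real.rpow_add hb0]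
    congr 1
    push_cast
    ring
  rw [h3]
  have h4 : r ^ L * (b : ℝ) ^ (c * L) = 1 := by
    rw [hr, ← Real.rpow_natCast, ← Real.rpow_mul hb0.le, ← Real.rpow_add hb0]
    have : -c * (L : ℝ) + c * L = 0 := by ring
    rw [this, Real.rpow_zero]
  have h5 : (L * Real.log b) ^ 2 ≤ (b : ℝ) ^ (c * L) := by
    have h6 : (L * Real.log b) ^ 2 = ((Real.log b ^ 2) * ((L : ℝ) ^ 2 * r ^ L)) * (b : ℝ) ^ (c * L) := by
      calc (L * Real.log b) ^ 2 = (L * Real.log b) ^ 2 * 1 := (mul_one _).symm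
        _ = (L * Real.log b) ^ 2 * (r ^ L * (b : ℝ) ^ (c * L)) := by rw [h4]
        _ = _ := by ring
    rw [h6]
    exact mul_le_of_le_one_left (by positivity) h2
  calc ((b : ℝ) ^ ((1 - c) * L)) ^ 2 * ((b : ℝ) ^ L * (L * Real.log b) ^ 2) =
        (((b : ℝ) ^ ((1 - c) * L)) ^ 2 * (b : ℝ) ^ L) * (L * Real.log b) ^ 2 := by ring
    _ ≤ (((b : ℝ) ^ ((1 - c) * L)) ^ 2 * (b : ℝ) ^ L) * (b : ℝ) ^ (c * L) :=
        mul_le_mul_of_nonneg_left h5 (by positivity)

end Pool.Agent.LibHG31
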