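import Pool.Agent.LibHG31.A1
import Pool.Agent.LibHG31.E5

/-! ROW A2: `Rrest` by orthogonality and Bessel. -/

namespace Pool.Agent.LibHG31

open Finset
open scoped ArithmeticFunction.vonMangoldt

/-- Parseval on `K` points, general form -/
private theorem A2_parseval_aux {ι : Type} (s : Finset ι) (v : ι → ℤ) (a : ι → ℂ) (K : ℕ) (hK : 0 < K)
    (hv : ∀ i ∈ s, ∀ j ∈ s, i ≠ j → ¬ (K : ℤ) ∣ v i - v j) :
    ∑ t ∈ range K, ‖∑ i ∈ s, a i * ee (t * ((v i : ℝ) / K))‖ ^ 2 = K * ∑ i ∈ s, ‖a i‖ ^ 2 := by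
  classical
  have h1 : ∀ t ∈ range K, ((‖∑ i ∈ s, a i * ee (t * ((v i : ℝ) / K))‖ ^ 2 : ℝ) : ℂ) =
      ∑ i ∈ s, ∑ j ∈ s, (a i * (starRingEnd ℂ) (a j)) * ee (t * (((v i - v j : ℤ) : ℝ) / K)) := by
    intro t _
    rw [← Complex.normSq_eq_norm_sq, ← Complex.mul_conj, map_sum, Finset.sum_mul_sum]
    refine Finset.sum_congr rfl fun i _ => Finset.sum_congr rfl fun j _ => ?_
    rw [map_mul, conj_ee]
    have e : (t : ℝ) * (((v i - v j : ℤ) : ℝ) / K) = t * ((v i : ℝ) / K) + -(t * ((v j : ℝ) / K)) := by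
      push_cast
      ring
    rw [e, ee_add]
    ring
  have h2 : ((∑ t ∈ range K, ‖∑ i ∈ s, a i * ee (t * ((v i : ℝ) / K))‖ ^ 2 : ℝ) : ℂ) =
      ((K * ∑ i ∈ s, ‖a i‖ ^ 2 : ℝ) : ℂ) := by
    rw [Complex.ofReal_sum, Finset.sum_congr rfl h1, Finset.sum_comm]
    have h3 : ∀ i ∈ s, ∑ t ∈ range K, ∑ j ∈ s, (a i * (starRingEnd ℂ) (a j)) * ee (t * (((v i - v j : ℤ) : ℝ) / K)) =
        K * ((‖a i‖ ^ 2 : ℝ) : ℂ) := by
      intro i hi
      rw [Finset.sum_comm, Finset.sum_eq_single i]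
      · rw [← Finset.mul_sum, sum_ee_div K hK, sub_self, if_pos (dvd_zero _), Complex.mul_conj,
          Complex.normSq_eq_norm_sq]
        ring
      · intro j hj hij
        rw [← Finset.mul_sum, sum_ee_div K hK, if_neg (hv i hi j hj hij.symm), mul_zero]
      · intro h
        exact absurd hi h
    rw [Finset.sum_congr rfl h3, ← Finset.mul_sum]
    push_cast
    rfl
  exact_mod_cast h2

/-- Parseval on `K` points: for arbitrary complex `c t`.
Expand the square, exchange, `sum_ee_div`. -/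
theorem parsevalK (K : ℕ) (hK : 0 < K) (c : ℕ → ℂ) :
    ∑ N ∈ range K, ‖∑ t ∈ range K, c t * ee (-(N * ((t : ℝ) / K)))‖ ^ 2 = K * ∑ t ∈ range K, ‖c t‖ ^ 2 := by
  have h := A2_parseval_aux (range K) (fun t => -(t : ℤ)) c K hK (by
    intro i hi j hj hij h
    rw [mem_range] at hi hj
    have h1 : |(-(i : ℤ)) - (-(j : ℤ))| < K := by
      rw [abs_lt]
      constructor <;> omega
    have h2 := Int.eq_zero_of_abs_lt_dvd h h1
    omega)
  rw [← h]
  refine Finset.sum_congr rfl fun N _ => ?_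
  congr 2
  refine Finset.sum_congr rfl fun t _ => ?_
  congr 2
  push_cast
  ring

/-- `∑_t ‖∑_{i ∈ s} a_i e(v_i t/K)‖² = K ∑ ‖a_i‖²` for injective `v : s → [0,K)`. -/
theorem dual_parsevalK {ι : Type} (s : Finset ι) (v : ι → ℕ) (a : ι → ℂ) (K : ℕ) (hK : 0 < K)
    (hv : ∀ i ∈ s, v i < K) (hinj : Set.InjOn v s) :
    ∑ t ∈ range K, ‖∑ i ∈ s, a i * ee (v i * ((t : ℝ) / K))‖ ^ 2 = K * ∑ i ∈ s, ‖a i‖ ^ 2 := by
  have h := A2_parseval_aux s (fun i => (v i : ℤ)) a K hK (by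
    intro i hi j hj hij h
    have h3 := hv i hi
    have h4 := hv j hj
    have h1 : |(v i : ℤ) - (v j : ℤ)| < K := by
      rw [abs_lt]
      constructor <;> omega
    have h2 := Int.eq_zero_of_abs_lt_dvd h h1
    exact hij (hinj hi hj (by omega)))
  rw [← h]
  refine Finset.sum_congr rfl fun N _ => ?_
  congr 2
  refine Finset.sum_congr rfl fun t _ => ?_
  congr 2
  push_cast
  ring

/-- members of `KS` are `< b^L` -/
theorem A2_KS_lt (b L l r k : ℕ) (hb : 2 ≤ b) (hL : 1 ≤ L) (hl : l < b) (hk : k ∈ KS b L l r) : k < b ^ L := by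
  unfold KS II at hk
  rw [mem_filter, mem_Ico] at hk
  have h1 : (l + 1) * b ^ (L - 1) ≤ b * b ^ (L - 1) := Nat.mul_le_mul_right _ hl
  have h2 : b * b ^ (L - 1) = b ^ L := by
    rw [← pow_succ', Nat.sub_add_cancel hL]
  omega

theorem A2_card_KS_le (b L l r : ℕ) (hb : 2 ≤ b) (hL : 1 ≤ L) (hl : l < b) : (KS b L l r).card ≤ b ^ L := by
  have h1 : KS b L l r ⊆ range (b ^ L) := fun k hk => mem_range.2 (A2_KS_lt b L l r k hb hL hl hk)
  have := card_le_card h1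
  rwa [card_range] at this

theorem A2_vonMangoldt_le (b L k : ℕ) (hb : 2 ≤ b) (hk : k < b ^ L) : Λ k ≤ L * Real.log b := by
  refine ArithmeticFunction.vonMangoldt_le_log.trans ?_
  rcases Nat.eq_zero_or_pos k with rfl | h0
  · simp
    positivity
  · rw [← Real.log_pow]
    apply Real.log_le_log
    · exact_mod_cast h0
    · exact_mod_cast hk.le

/-- `S2` in mean square. `rv` is injective on `{k < b^L}` with values `< b^L < b^(L+5)`; `#KS ≤ b^L`; `Λ k ≤ log k ≤ L log b`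
(`ArithmeticFunction.vonMangoldt_le_log`). -/
theorem sum_S2_sq_le (b L l r : ℕ) (hb : 2 ≤ b) (hL : 1 ≤ L) (hl : l < b) :
    ∑ t ∈ range (b ^ (L + 5)), ‖S2 b L l r ((t : ℝ) / (b ^ (L + 5) : ℕ))‖ ^ 2 ≤
      (b ^ (L + 5) : ℕ) * ((b : ℝ) ^ L * (L * Real.log b) ^ 2) := by
  have hlt : ∀ k ∈ KS b L l r, k < b ^ L := fun k hk => A2_KS_lt b L l r k hb hL hl hk
  have h1 := dual_parsevalK (KS b L l r) (rv b L) (fun k => ((Λ k : ℝ) : ℂ)) (b ^ (L + 5)) (by positivity)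
    (by
      intro k hk
      have h2 := rv_lt b L k (by omega)
      have h3 : b ^ L ≤ b ^ (L + 5) := Nat.pow_le_pow_right (by omega) (by omega)
      omega)
    (by
      intro k hk k' hk' h
      exact rv_injOn b L (by omega) (hlt k hk) (hlt k' hk') h)
  unfold S2
  rw [h1]
  apply mul_le_mul_of_nonneg_left _ (by positivity)
  have h4 : ∀ k ∈ KS b L l r, ‖((Λ k : ℝ) : ℂ)‖ ^ 2 ≤ (L * Real.log b) ^ 2 := by
    intro k hk
    rw [Complex.norm_real, Real.norm_eq_abs, abs_of_nonneg ArithmeticFunction.vonMangoldt_nonneg]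
    exact pow_le_pow_left₀ ArithmeticFunction.vonMangoldt_nonneg (A2_vonMangoldt_le b L k hb (hlt k hk)) 2
  refine (Finset.sum_le_sum h4).trans ?_
  rw [Finset.sum_const, nsmul_eq_mul]
  apply mul_le_mul_of_nonneg_right _ (by positivity)
  exact_mod_cast A2_card_KS_le b L l r hb hL hl

/-- the multiplier -/
noncomputable def MM (b L J : ℕ) (α : ℝ) : ℝ :=
  ∑ ρ ∈ Rset b J, fej (HH b L J) (QQ b J * (α + ρ))

end Pool.Agent.LibHG31
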