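import Pool.Agent.LibHG31.E5

/-! ROW D2: removal of the prime powers. -/

namespace Pool.Agent.LibHG31

open Finset
open scoped ArithmeticFunction.vonMangoldt

/-- number of `n < X` that are prime powers but not primes: for each exponent `2 ≤ e ≤ log2 X` at most `√X + 1` bases.
Any bound `≤ 2 √X log2-ish` is fine; e.g. `(√X + 1)(log X / log 2 + 1)`. Mathlib has `Nat.primeCounting`/`Chebyshev` file facts on `ψ - θ` which may also help. -/
theorem card_prime_pow_le (X : ℕ) (hX : 2 ≤ X) :
    (((range X).filter (fun n => IsPrimePow n ∧ ¬ n.Prime)).card : ℝ) ≤ (Real.sqrt X + 1) * (Real.log X / Real.log 2 + 1) := by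
  classical
  have hsub : (range X).filter (fun n => IsPrimePow n ∧ ¬ n.Prime) ⊆
      ((range (Nat.log 2 X + 1)) ×ˢ (range (Nat.sqrt X + 1))).image (fun q => q.2 ^ q.1) := by
    intro n hn
    obtain ⟨hnX, hpp, hnp⟩ := Finset.mem_filter.1 hn
    have hnX := Finset.mem_range.1 hnX
    obtain ⟨p, e, hp, he, rfl⟩ := (isPrimePow_nat_iff n).1 hpp
    have he2 : 2 ≤ e := by
      by_contra hcon
      have he1 : e = 1 := by omega
      rw [he1, pow_one] at hnp
      exact hnp hp
    rw [Finset.mem_image]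
    refine ⟨(e, p), ?_, rfl⟩
    rw [Finset.mem_product, Finset.mem_range, Finset.mem_range]
    refine ⟨?_, ?_⟩
    · have h1 : 2 ^ e ≤ X := (Nat.pow_le_pow_left hp.two_le e).trans hnX.le
      have h2 : e ≤ Nat.log 2 X := Nat.le_log_of_pow_le (by norm_num) h1
      exact Nat.lt_succ_of_le h2
    · have h1 : p * p ≤ X := by
        have h2 : p ^ 2 ≤ p ^ e := Nat.pow_le_pow_right hp.pos he2
        rw [sq] at h2
        omega
      exact Nat.lt_succ_of_le (Nat.le_sqrt.2 h1)
  have hcard := (Finset.card_le_card hsub).trans Finset.card_image_le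
  rw [Finset.card_product, Finset.card_range, Finset.card_range] at hcard
  have h1 : (((range X).filter (fun n => IsPrimePow n ∧ ¬ n.Prime)).card : ℝ) ≤
      ((Nat.log 2 X + 1) * (Nat.sqrt X + 1) : ℕ) := by exact_mod_cast hcard
  refine h1.trans ?_
  push_cast
  have h2 : (Nat.log 2 X : ℝ) ≤ Real.log X / Real.log 2 := by
    have := Real.natLog_le_logb X 2
    simpa [Real.logb] using this
  have h3 : (Nat.sqrt X : ℝ) ≤ Real.sqrt X := Real.nat_sqrt_le_real_sqrt
  have h4 : (0 : ℝ) ≤ Nat.log 2 X := Nat.cast_nonneg _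
  have h5 : (0 : ℝ) ≤ Nat.sqrt X := Nat.cast_nonneg _
  rw [mul_comm]
  exact mul_le_mul (by linarith) (by linarith) (by linarith) (by linarith)

/-- if no `k ∈ KS` has both `k` and `N - rv k` prime, every nonzero term has a proper prime power `k` or `N - rv k` (`rv` injective on `KS`, so each value
`N - rv k` occurs once); each term is `≤ ((L+3) log b)²`. -/
theorem RR_le_of_no_prime (b L l r N : ℕ) (hb : 2 ≤ b) (hL : 1 ≤ L) (hl : l < b) (h1 : b ^ (L + 1) ≤ N) (h2 : N < b ^ (L + 2))
    (h : ∀ k ∈ KS b L l r, ¬ (k.Prime ∧ (N - rv b L k).Prime)) :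
    RR b L l r N ≤ ((L + 3 : ℕ) * Real.log b) ^ 2 *
      (2 * ((Real.sqrt ((b : ℝ) ^ (L + 3)) + 1) * ((L + 3 : ℕ) * Real.log b / Real.log 2 + 1))) := by
  classical
  have hb0 : 0 < b := by omega
  have hb1 : 1 ≤ b := by omega
  set X := b ^ (L + 3) with hX
  set A := (range X).filter (fun n => IsPrimePow n ∧ ¬ n.Prime) with hA
  have hX2 : 2 ≤ X := by
    calc 2 ≤ b := hb
      _ = b ^ 1 := (pow_one b).symm
      _ ≤ b ^ (L + 3) := Nat.pow_le_pow_right hb0 (by omega)
  have hlogb : 0 ≤ Real.log b := Real.log_natCast_nonneg b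
  have hlogX : Real.log (X : ℝ) = (L + 3 : ℕ) * Real.log b := by
    rw [hX]
    push_cast
    rw [Real.log_pow]
    push_cast
    ring
  have hXr : (X : ℝ) = (b : ℝ) ^ (L + 3) := by
    rw [hX]
    push_cast
    rfl
  have hcardA := card_prime_pow_le X hX2
  rw [hlogX] at hcardA
  have hNX : N < X := h2.trans_le (Nat.pow_le_pow_right hb0 (by omega))
  have hLX : b ^ L ≤ X := Nat.pow_le_pow_right hb0 (by omega)
  have hLN : b ^ L ≤ N := (Nat.pow_le_pow_right hb0 (Nat.le_succ L)).trans h1
  have hlam : ∀ n < X, Λ n ≤ (L + 3 : ℕ) * Real.log b := by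
    intro n hn
    rw [← hlogX]
    refine ArithmeticFunction.vonMangoldt_le_log.trans ?_
    rcases Nat.eq_zero_or_pos n with h0 | h0
    · rw [h0, Nat.cast_zero, Real.log_zero]
      exact Real.log_natCast_nonneg X
    · exact Real.log_le_log (by exact_mod_cast h0) (by exact_mod_cast hn.le)
  have hkL : ∀ k ∈ KS b L l r, k < b ^ L := by
    intro k hk
    have h3 := (Finset.mem_Ico.1 (Finset.mem_filter.1 hk).1).2
    have h4 : (l + 1) * b ^ (L - 1) ≤ b * b ^ (L - 1) := Nat.mul_le_mul_right _ hl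
    have h5 : b * b ^ (L - 1) = b ^ L := by
      obtain ⟨m, rfl⟩ := Nat.exists_eq_add_of_le' hL
      rw [Nat.add_sub_cancel]
      ring
    omega
  set M : ℝ := ((L + 3 : ℕ) * Real.log b) ^ 2 with hM
  have hM0 : 0 ≤ M := sq_nonneg _
  have hterm : ∀ k ∈ KS b L l r, Λ k * Λ (N - rv b L k) ≤
      (if k ∈ A then M else 0) + (if N - rv b L k ∈ A then M else 0) := by
    intro k hk
    have hk1 := hkL k hk
    have hkX : k < X := hk1.trans_le hLX
    have hnX : N - rv b L k < X := (Nat.sub_le _ _).trans_lt hNX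
    have hle : Λ k * Λ (N - rv b L k) ≤ M := by
      rw [hM, sq]
      exact mul_le_mul (hlam k hkX) (hlam _ hnX) ArithmeticFunction.vonMangoldt_nonneg
        (by positivity)
    by_cases hz : Λ k * Λ (N - rv b L k) = 0
    · rw [hz]
      have e1 : 0 ≤ (if k ∈ A then M else 0) := by split_ifs <;> simp [hM0]
      have e2 : 0 ≤ (if N - rv b L k ∈ A then M else 0) := by split_ifs <;> simp [hM0]
      linarith
    · have hz1 : IsPrimePow k :=
        ArithmeticFunction.vonMangoldt_ne_zero_iff.1 (left_ne_zero_of_mul hz)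
      have hz2 : IsPrimePow (N - rv b L k) :=
        ArithmeticFunction.vonMangoldt_ne_zero_iff.1 (right_ne_zero_of_mul hz)
      by_cases hp1 : k.Prime
      · have hp2 : ¬ (N - rv b L k).Prime := fun hp2 => h k hk ⟨hp1, hp2⟩
        have hmem : N - rv b L k ∈ A :=
          Finset.mem_filter.2 ⟨Finset.mem_range.2 hnX, hz2, hp2⟩
        have e1 : 0 ≤ (if k ∈ A then M else 0) := by split_ifs <;> simp [hM0]
        rw [if_pos hmem]
        linarith
      · have hmem : k ∈ A := Finset.mem_filter.2 ⟨Finset.mem_range.2 hkX, hz1, hp1⟩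
        have e2 : 0 ≤ (if N - rv b L k ∈ A then M else 0) := by split_ifs <;> simp [hM0]
        rw [if_pos hmem]
        linarith
  unfold RR
  refine (Finset.sum_le_sum hterm).trans ?_
  rw [Finset.sum_add_distrib, ← Finset.sum_filter, ← Finset.sum_filter, Finset.sum_const,
    Finset.sum_const, nsmul_eq_mul, nsmul_eq_mul]
  have hc1 : ((KS b L l r).filter (fun k => k ∈ A)).card ≤ A.card :=
    Finset.card_le_card fun k hk => (Finset.mem_filter.1 hk).2
  have hc2 : ((KS b L l r).filter (fun k => N - rv b L k ∈ A)).card ≤ A.card := by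
    refine Finset.card_le_card_of_injOn (fun k => N - rv b L k) ?_ ?_
    · intro k hk
      exact (Finset.mem_filter.1 (Finset.mem_coe.1 hk)).2
    · intro k hk k' hk' he
      have hk1 := hkL k (Finset.mem_filter.1 (Finset.mem_coe.1 hk)).1
      have hk1' := hkL k' (Finset.mem_filter.1 (Finset.mem_coe.1 hk')).1
      have he' : N - rv b L k = N - rv b L k' := he
      have r1 := rv_lt b L k hb1
      have r2 := rv_lt b L k' hb1
      exact rv_injOn b L hb1 hk1 hk1' (by omega)
  have hc1' : (((KS b L l r).filter (fun k => k ∈ A)).card : ℝ) ≤ A.card := by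
    exact_mod_cast hc1
  have hc2' : (((KS b L l r).filter (fun k => N - rv b L k ∈ A)).card : ℝ) ≤ A.card := by
    exact_mod_cast hc2
  rw [hXr] at hcardA
  have h6 := mul_le_mul_of_nonneg_right (hc1'.trans hcardA) hM0
  have h7 := mul_le_mul_of_nonneg_right (hc2'.trans hcardA) hM0
  linarith

end Pool.Agent.LibHG31
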