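import Pool.Agent.LibHG31.E5

/-! ROW D1: the choice of `l` and `r`. -/

namespace Pool.Agent.LibHG31

open Finset

/-- for `m ≥ 1` and `u` prime to `m`, `N` an integer, `N` even or `m` odd: there is `r < m` (`m ≥ 1`) prime to `m` with `N - u r` prime to `m`.
Prime by prime: for `p ∣ m`, `p ≥ 3`: one of `r ≡ 1, 2 (mod p)` satisfies `u r ≢ N (mod p)`; `p = 2`: `r ≡ 1`, `N - u` is odd. Combine by the Chinese remainder theorem
(e.g. `Nat.recOnPosPrimePosCoprime` on `m`, or a product over `m.primeFactors`). -/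
theorem exists_unit_sub (m : ℕ) (hm : 1 ≤ m) (u : ℤ) (hu : IsCoprime u (m : ℤ)) (N : ℤ) (hN : Even N ∨ ¬ 2 ∣ m) :
    ∃ r : ℕ, r < m ∧ r.Coprime m ∧ IsCoprime (N - u * r) (m : ℤ) := by
  classical
  have hloc : ∀ p : ℕ, p.Prime → p ∣ m → ∃ a : ℕ, ¬ p ∣ a ∧ ¬ (p : ℤ) ∣ N - u * a := by
    intro p hp hpm
    have hpu : ¬ (p : ℤ) ∣ u := by
      intro hd
      have h1 : (p : ℤ) ∣ 1 := by
        obtain ⟨x, y, hxy⟩ := hu
        rw [← hxy]
        exact dvd_add (Dvd.dvd.mul_left hd x)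
          (Dvd.dvd.mul_left (by exact_mod_cast hpm) y)
      have h2 : p ∣ 1 := by exact_mod_cast h1
      exact hp.one_lt.ne' (Nat.dvd_one.1 h2)
    rcases Nat.lt_or_ge p 3 with h3 | h3
    · have hp2 : p = 2 := by
        have := hp.two_le
        omega
      subst hp2
      have hNe : Even N := by
        rcases hN with h | h
        · exact h
        · exact absurd hpm h
      refine ⟨1, by omega, ?_⟩
      intro hd
      obtain ⟨c, hc⟩ := hNe
      apply hpu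
      push_cast at hd ⊢
      obtain ⟨e, he⟩ := hd
      exact ⟨c - e, by linarith⟩
    · by_cases hd : (p : ℤ) ∣ N - u * (1 : ℕ)
      · refine ⟨2, fun h => ?_, fun hd2 => hpu ?_⟩
        · have := Nat.le_of_dvd (by omega) h
          omega
        · have h4 := dvd_sub hd hd2
          have e : (N - u * ((1 : ℕ) : ℤ)) - (N - u * ((2 : ℕ) : ℤ)) = u := by
            push_cast
            ring
          rwa [e] at h4
      · exact ⟨1, fun h => by
          have := Nat.le_of_dvd (by omega) h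
          omega, hd⟩
  choose a ha1 ha2 using hloc
  let A : ℕ → ℕ := fun p => if h : p.Prime ∧ p ∣ m then a p h.1 h.2 else 0
  obtain ⟨r0, hr0⟩ := Nat.chineseRemainderOfFinset A id m.primeFactors
    (fun p hp => (Nat.prime_of_mem_primeFactors hp).ne_zero)
    (fun p hp q hq hpq => (Nat.coprime_primes (Nat.prime_of_mem_primeFactors hp)
      (Nat.prime_of_mem_primeFactors hq)).2 hpq)
  have hr : ∀ p : ℕ, (hp : p.Prime) → (hpm : p ∣ m) → (r0 % m) ≡ a p hp hpm [MOD p] := by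
    intro p hp hpm
    have h1 := hr0 p (Nat.mem_primeFactors.2 ⟨hp, hpm, by omega⟩)
    simp only [A, id] at h1
    rw [dif_pos ⟨hp, hpm⟩] at h1
    exact ((Nat.mod_modEq r0 m).of_dvd hpm).trans h1
  refine ⟨r0 % m, Nat.mod_lt _ (by omega), ?_, ?_⟩
  · apply Nat.Coprime.symm
    apply Nat.coprime_of_dvd
    intro p hp hpm hpr
    apply ha1 p hp hpm
    exact (Nat.modEq_zero_iff_dvd.1 ((hr p hp hpm).symm.trans (Nat.modEq_zero_iff_dvd.2 hpr)))
  · rw [Int.isCoprime_iff_gcd_eq_one, Int.gcd_comm]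
    apply Nat.coprime_of_dvd
    intro p hp hpm hpr
    rw [Int.natAbs_natCast] at hpm
    apply ha2 p hp hpm
    have h1 : (p : ℤ) ∣ N - u * ((r0 % m : ℕ) : ℤ) := Int.natCast_dvd.2 hpr
    have h2 : ((p : ℕ) : ℤ) ∣ ((a p hp hpm : ℕ) : ℤ) - ((r0 % m : ℕ) : ℤ) :=
      (Nat.modEq_iff_dvd).1 (hr p hp hpm)
    have e : N - u * ((a p hp hpm : ℕ) : ℤ) = (N - u * ((r0 % m : ℕ) : ℤ)) -
        u * (((a p hp hpm : ℕ) : ℤ) - ((r0 % m : ℕ) : ℤ)) := by ring
    rw [e]
    exact dvd_sub h1 (Dvd.dvd.mul_left h2 u)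

/-- every even `N` of size `[b^(L+1), b^(L+2))` has an admissible pair. `l`: `exists_unit_sub` with `m = b`, `u = 1` (`l ≠ 0` since `b ≥ 2`); `r`: `m = D0 b`, `u = b^(L-1)`
(prime to `D0 = b²-1`). -/
theorem exists_Good (b L N : ℕ) (hb : 2 ≤ b) (hN : Even N) (h1 : b ^ (L + 1) ≤ N) (h2 : N < b ^ (L + 2)) :
    ∃ l r : ℕ, r < D0 b ∧ Good b L l r N := by
  have hNZ : Even (N : ℤ) := by exact_mod_cast hN
  have hb2 : 4 ≤ b ^ 2 := by nlinarith
  have hD : 1 ≤ D0 b := by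
    unfold D0
    omega
  obtain ⟨l, hl1, hl2, hl3⟩ := exists_unit_sub b (by omega) 1 isCoprime_one_left (N : ℤ)
    (Or.inl hNZ)
  have hcop : IsCoprime ((b : ℤ) ^ (L - 1)) (D0 b : ℤ) := by
    apply IsCoprime.pow_left
    refine ⟨b, -1, ?_⟩
    have e : ((D0 b : ℕ) : ℤ) = (b : ℤ) ^ 2 - 1 := by
      unfold D0
      rw [Nat.cast_sub (by omega)]
      push_cast
      ring
    rw [e]
    ring
  obtain ⟨r, hr1, hr2, hr3⟩ := exists_unit_sub (D0 b) hD ((b : ℤ) ^ (L - 1)) hcop (N : ℤ)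
    (Or.inl hNZ)
  refine ⟨l, r, hr1, h1, h2, ?_, hl1, hl2, ?_, hr2, hr3⟩
  · rcases Nat.eq_zero_or_pos l with h0 | h0
    · subst h0
      have : b = 1 := by simpa using hl2
      omega
    · exact h0
  · rw [one_mul] at hl3
    exact hl3

end Pool.Agent.LibHG31
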