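import Pool.Agent.LibHG31.A2

/-! ROW A3: the multiplier `MM`. Notation: `P = PP J = 2^(J/4)`, `Q = QQ b J = D0 b^J`, `H' = HH b L J`. -/

namespace Pool.Agent.LibHG31

open Finset

/-- every natural `q1 ≤ 2^(J/4)` whose prime factors divide `b` divides `b^J` (each exponent is `≤ log2 q1 ≤ J/4`).
`hq`: every prime factor of `q1` divides `b`. -/
theorem dvd_pow_of_le (b J q1 : ℕ) (hb : 2 ≤ b) (h0 : 1 ≤ q1) (h1 : q1 ≤ PP J) (hq : ∀ p, p.Prime → p ∣ q1 → p ∣ b) :
    q1 ∣ b ^ J := by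
  have hb0 : b ^ J ≠ 0 := by positivity
  rw [← Nat.factorization_le_iff_dvd (by omega) hb0]
  intro p
  rw [Nat.factorization_pow]
  simp only [Finsupp.smul_apply, smul_eq_mul]
  by_cases hp : p.Prime ∧ p ∣ q1
  · obtain ⟨hp, hpq⟩ := hp
    have h2 : 1 ≤ b.factorization p := (hp.dvd_iff_one_le_factorization (by omega)).1 (hq p hp hpq)
    have h3 : q1.factorization p ≤ J := by
      have h4 : p ^ q1.factorization p ≤ q1 := Nat.le_of_dvd (by omega) (Nat.ordProj_dvd q1 p)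
      have h5 : 2 ^ q1.factorization p ≤ p ^ q1.factorization p := Nat.pow_le_pow_left hp.two_le _
      have h6 : 2 ^ q1.factorization p ≤ 2 ^ (J / 4) := by
        unfold PP at h1
        omega
      have h7 := (Nat.pow_le_pow_iff_right (by norm_num : 1 < 2)).1 h6
      omega
    calc q1.factorization p ≤ J * 1 := by omega
      _ ≤ J * b.factorization p := Nat.mul_le_mul_left _ h2
  · have : q1.factorization p = 0 := by
      rw [Nat.factorization_eq_zero_iff]
      by_cases h : p.Prime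
      · right; left
        intro h'
        exact hp ⟨h, h'⟩
      · left; exact h
    rw [this]
    exact Nat.zero_le _

theorem card_Rset_le (b J : ℕ) (hb : 2 ≤ b) : ((Rset b J).card : ℝ) ≤ (PP J * D0 b + 1 : ℕ) ^ 2 := by
  have h : (Rset b J).card ≤ (PP J * D0 b + 1) ^ 2 := by
    unfold Rset
    refine (card_filter_le _ _).trans (card_image_le.trans ?_)
    rw [card_product, card_range, sq]
  exact_mod_cast h

/-- members of `Rset`: denominators `≤ P D0` and coprime to `b` (for `y = p.1/p.2` the denominator of `y` divides `p.2`; `p.2 = 0` gives `y = 0`). -/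
theorem Rset_den (b J : ℕ) (hb : 2 ≤ b) (y : ℚ) (hy : y ∈ Rset b J) :
    0 ≤ y ∧ y * D0 b < 1 ∧ y.den.Coprime b ∧ y.den ≤ PP J * D0 b := by
  unfold Rset at hy
  rw [mem_filter, mem_image] at hy
  obtain ⟨⟨p, hp, rfl⟩, h0, h1, h2⟩ := hy
  refine ⟨h0, h1, h2, ?_⟩
  rw [mem_product, mem_range, mem_range] at hp
  have hpos : 1 ≤ PP J * D0 b := by
    have h3 := D0_pos b hb
    have h4 : 0 < PP J := by unfold PP; positivity
    exact Nat.mul_pos h4 (by omega)
  rcases Nat.eq_zero_or_pos p.2 with h | h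
  · rw [h]
    simpa using hpos
  · have h3 : ((p.1 : ℚ) / p.2).den ∣ p.2 := by
      have h4 := Rat.den_dvd (p.1 : ℤ) (p.2 : ℤ)
      rw [Rat.divInt_eq_div, Int.cast_natCast, Int.cast_natCast] at h4
      exact Int.natCast_dvd_natCast.1 h4
    exact (Nat.le_of_dvd h h3).trans (by omega)

/-- conversely -/
theorem mem_Rset (b J : ℕ) (hb : 2 ≤ b) (y : ℚ) (h0 : 0 ≤ y) (h1 : y * D0 b < 1) (h2 : y.den.Coprime b)
    (h3 : y.den ≤ PP J * D0 b) : y ∈ Rset b J := by
  unfold Rset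
  rw [mem_filter, mem_image]
  refine ⟨⟨(y.num.natAbs, y.den), ?_, ?_⟩, h0, h1, h2⟩
  · rw [mem_product, mem_range, mem_range]
    refine ⟨?_, by simp only; omega⟩
    simp only
    have h4 : y < 1 := by
      have h5 := D0_pos b hb
      have h6 : (1 : ℚ) ≤ D0 b := by exact_mod_cast (by omega : 1 ≤ D0 b)
      nlinarith
    have h5 : y.num < y.den := by
      exact Rat.num_lt_denom_iff.2 h4
    have h6 : 0 ≤ y.num := Rat.num_nonneg.2 h0
    omega
  · simp only
    have h6 : 0 ≤ y.num := Rat.num_nonneg.2 h0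
    have h7 : ((y.num.natAbs : ℕ) : ℚ) = (y.num : ℚ) := by
      rw [Nat.cast_natAbs, abs_of_nonneg h6]
    rw [h7]
    exact Rat.num_div_den y

/-- distance to the integers of a nonintegral fraction -/
theorem nd_rat (y : ℚ) (q : ℕ) (hq : 1 ≤ q) (hd : y.den ∣ q) (hy : y.den ≠ 1) : 1 / (q : ℝ) ≤ nd (y : ℝ) := by
  unfold nd
  set k : ℤ := round (y : ℝ) with hk
  obtain ⟨c, hc⟩ := hd
  have hq0 : (0 : ℝ) < q := by exact_mod_cast hq
  have h1 : (q : ℚ) * (y - k) = ((c : ℤ) * y.num - q * k : ℤ) := by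
    have h2 : (y.den : ℚ) * y = y.num := Rat.den_mul_eq_num y
    rw [hc]
    push_cast
    rw [← h2]
    ring
  have h3 : ((c : ℤ) * y.num - q * k : ℤ) ≠ 0 := by
    intro h
    rw [h] at h1
    have h4 : (y - k : ℚ) = 0 := by
      have : (q : ℚ) ≠ 0 := by exact_mod_cast (by omega : q ≠ 0)
      simpa [this] using h1
    have h5 : y = (k : ℚ) := by linarith
    apply hy
    rw [h5]
    exact Rat.den_intCast k
  have h4 : (1 : ℝ) ≤ |(((c : ℤ) * y.num - q * k : ℤ) : ℝ)| := by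
    rw [← Int.cast_abs]
    exact_mod_cast Int.one_le_abs h3
  have h5 : (((c : ℤ) * y.num - q * k : ℤ) : ℝ) = q * ((y : ℝ) - k) := by
    have h6 : (((q : ℚ) * (y - k) : ℚ) : ℝ) = ((((c : ℤ) * y.num - q * k : ℤ) : ℚ) : ℝ) := by rw [h1]
    push_cast at h6 ⊢
    linarith
  rw [h5, abs_mul, Nat.abs_cast] at h4
  rw [div_le_iff₀ hq0]
  linarith

private theorem A3_den_mul_int (n : ℕ) (y : ℚ) : ((n : ℚ) * y).den ∣ y.den := by
  have h := Rat.mul_den_dvd (n : ℚ) y
  rw [Rat.den_natCast, one_mul] at h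
  exact h

/-- a multiple by a number prime to the denominator of a nonintegral fraction is nonintegral -/
theorem A3_den_ne_one (y : ℚ) (n : ℕ) (hy : y.den ≠ 1) (hn : n.Coprime y.den) : ((n : ℚ) * y).den ≠ 1 := by
  intro h
  apply hy
  have h1 : ((n : ℚ) * y) = (((n : ℚ) * y).num : ℚ) := ((Rat.den_eq_one_iff _).1 h).symm
  have h2 : (n : ℤ) * y.num = ((n : ℚ) * y).num * y.den := by
    have h3 : (y.den : ℚ) * y = y.num := Rat.den_mul_eq_num y
    have h4 : ((n : ℚ)) * y.num = (((n : ℚ) * y).num : ℚ) * y.den := by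
      calc (n : ℚ) * y.num = (n * y) * y.den := by rw [← h3]; ring
        _ = (((n : ℚ) * y).num : ℚ) * y.den := by rw [← h1]
    exact_mod_cast h4
  have h5 : (y.den : ℤ) ∣ (n : ℤ) * y.num := ⟨((n : ℚ) * y).num, by rw [h2]; ring⟩
  have h6 : y.den ∣ n * y.num.natAbs := by
    have := Int.natAbs_dvd_natAbs.2 h5
    rwa [Int.natAbs_mul, Int.natAbs_natCast, Int.natAbs_natCast] at this
  have h7 : y.den ∣ n := (Nat.Coprime.dvd_of_dvd_mul_right y.reduced.symm h6)
  have h8 : y.den ∣ 1 := by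
    have h9 := Nat.dvd_gcd h7 (dvd_refl y.den)
    rwa [hn] at h9
  exact Nat.dvd_one.1 h8

/-- **separation**: for `ρ ≠ ρ'` in `Rset`, `Q (ρ - ρ')` has distance `≥ 1/(P D0)^2` from the integers:
`D0 (ρ - ρ')` is in `(-1,1)`, not `0`, so not an integer; its denominator is coprime to `b`, so `D0 b^J (ρ - ρ')` is not an integer either
(`b^J` is invertible modulo the denominator) and its denominator divides `den ρ * den ρ' ≤ (P D0)²`. Use `nd_rat`
(with a multiple `q = den ρ * den ρ'`). -/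
theorem Rset_sep (b J : ℕ) (hb : 2 ≤ b) (ρ ρ' : ℚ) (h : ρ ∈ Rset b J) (h' : ρ' ∈ Rset b J) (hne : ρ ≠ ρ') :
    1 / ((PP J * D0 b : ℕ) : ℝ) ^ 2 ≤ nd ((QQ b J : ℝ) * ((ρ : ℝ) - ρ')) := by
  obtain ⟨a0, a1, a2, a3⟩ := Rset_den b J hb ρ h
  obtain ⟨c0, c1, c2, c3⟩ := Rset_den b J hb ρ' h'
  set x : ℚ := ρ - ρ' with hx
  have hxd : x.den ∣ ρ.den * ρ'.den := Rat.sub_den_dvd ρ ρ'
  have hD : (0 : ℚ) < D0 b := by exact_mod_cast (by have := D0_pos b hb; omega : 0 < D0 b)
  set y : ℚ := (D0 b : ℚ) * x with hy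
  have hyd : y.den ∣ x.den := A3_den_mul_int _ _
  have hy1 : y.den ≠ 1 := by
    intro h1
    have h2 : (y.num : ℚ) = y := (Rat.den_eq_one_iff _).1 h1
    have h3 : |y| < 1 := by
      rw [abs_lt]
      rw [hy, hx]
      constructor <;> nlinarith
    have h4 : |y.num| < 1 := by
      rw [← h2] at h3
      exact_mod_cast h3
    have h5 : y.num = 0 := Int.abs_lt_one_iff.1 h4
    rw [h5] at h2
    have h6 : x = 0 := by
      have h7 : (D0 b : ℚ) * x = 0 := by rw [← hy, ← h2]; simp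
      rcases mul_eq_zero.1 h7 with h8 | h8
      · exact absurd h8 hD.ne'
      · exact h8
    apply hne
    linarith
  have hcop : (b ^ J).Coprime y.den := by
    apply Nat.Coprime.pow_left
    have h1 : Nat.Coprime (ρ.den * ρ'.den) b := Nat.Coprime.mul_left a2 c2
    exact (Nat.Coprime.coprime_dvd_left (hyd.trans hxd) h1).symm
  have h1 := A3_den_ne_one y (b ^ J) hy1 hcop
  have h2 : ((b ^ J : ℕ) : ℚ) * y = (QQ b J : ℚ) * (ρ - ρ') := by
    rw [hy, hx, QQ]
    push_cast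
    ring
  rw [h2] at h1
  have h3 : ((QQ b J : ℚ) * (ρ - ρ')).den ∣ ρ.den * ρ'.den := (A3_den_mul_int _ _).trans hxd
  have h4 := nd_rat _ (ρ.den * ρ'.den) (Nat.mul_pos ρ.den_pos ρ'.den_pos) h3 h1
  push_cast at h4
  refine le_trans ?_ h4
  have p1 : (0 : ℝ) < ρ.den := by exact_mod_cast ρ.den_pos
  have p2 : (0 : ℝ) < ρ'.den := by exact_mod_cast ρ'.den_pos
  apply one_div_le_one_div_of_le (by positivity)
  rw [sq]
  apply mul_le_mul
  · exact_mod_cast a3
  · exact_mod_cast c3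
  · exact p2.le
  · positivity

end Pool.Agent.LibHG31
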