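import Pool.Agent.LibHG31.D1
import Pool.Agent.LibHG31.D2
import Pool.Agent.LibHG31.A3
import Pool.Agent.LibHG31.Iface

/-! ROW D3: the end. -/

namespace Pool.Agent.LibHG31

open Finset Filter Topology
open scoped ArithmeticFunction.vonMangoldt

open scoped Classical in
/-- exceptional set -/
noncomputable def Exc (b : ℕ) (S : Finset ℕ) : Finset ℕ :=
  S.filter (fun N => Even N ∧ ¬ ∃ p₁ p₂ : ℕ, p₁.Prime ∧ p₂.Prime ∧
        N = p₁ + Nat.ofDigits b (Nat.digits b p₂).reverse ∧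
        Nat.Coprime (Nat.ofDigits b (Nat.digits b p₂).reverse) (b ^ 3 - b))

theorem D3_zero_mem (b J : ℕ) (hb : 2 ≤ b) : (0 : ℚ) ∈ Rset b J := by
  apply mem_Rset b J hb
  · exact le_rfl
  · simp
  · simp
  · have h3 := D0_pos b hb
    have h4 : 0 < PP J := by unfold PP; positivity
    have : 1 ≤ PP J * D0 b := Nat.mul_pos h4 (by omega)
    simpa using this

/-- if there is a good `k` then `N` is represented -/
private theorem D3_repr (b L l r N : ℕ) (hb : 2 ≤ b) (hL : 1 ≤ L) (hg : Good b L l r N)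
    (h : ∃ k ∈ KS b L l r, k.Prime ∧ (N - rv b L k).Prime) :
    ∃ p₁ p₂ : ℕ, p₁.Prime ∧ p₂.Prime ∧
        N = p₁ + Nat.ofDigits b (Nat.digits b p₂).reverse ∧
        Nat.Coprime (Nat.ofDigits b (Nat.digits b p₂).reverse) (b ^ 3 - b) := by
  obtain ⟨hN1, hN2, hl1, hl2, hlb, _, hrD, _⟩ := hg
  obtain ⟨k, hk, hk1, hk2⟩ := h
  have hkI : k ∈ II b L l := (mem_filter.1 hk).1
  have hkI' := mem_Ico.1 hkI
  have h1 : b ^ (L - 1) ≤ k := by
    calc b ^ (L - 1) = 1 * b ^ (L - 1) := (one_mul _).symm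
      _ ≤ l * b ^ (L - 1) := Nat.mul_le_mul_right _ hl1
      _ ≤ k := hkI'.1
  have h2 : k < b ^ L := by
    have h3 : (l + 1) * b ^ (L - 1) ≤ b * b ^ (L - 1) := Nat.mul_le_mul_right _ hl2
    have h4 : b * b ^ (L - 1) = b ^ L := by
      rw [← pow_succ', Nat.sub_add_cancel hL]
    omega
  have h3 := ofDigits_reverse b L k hb hL h1 h2
  have h4 := rv_lt b L k (by omega)
  have h5 : b ^ L ≤ b ^ (L + 1) := Nat.pow_le_pow_right (by omega) (by omega)
  refine ⟨N - rv b L k, k, hk2, hk1, ?_, ?_⟩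
  · rw [h3]
    omega
  · rw [h3]
    exact rv_coprime b L l r k hb hL hl2 hlb hrD hk

/-- one scale. Let `A = max` of the three `A₀` (from `AStmt`, `BStmt`, `CStmt`), `J = L/A`, `ε = c_C/4`. For `N` even in `Ico (b^(L+1)) (b^(L+2))` take `(l,r)` from `exists_Good`.
`RR = Re (Rrest + Rrho 0 + ∑_{ρ ≠ 0} Rrho)` (definition of `Rrest`; `0 ∈ Rset b J`), so if `‖Rrest b L J l r N‖ ≤ (c_C/4) b^L` then `RR ≥ (c_C/2) b^L`, which for large `L` contradicts
`RR_le_of_no_prime` unless some `k ∈ KS` has `k`, `N - rv k` prime; then `p₂ = k`, `p₁ = N - rv k`, `ofDigits_reverse` (`k ∈ II b L l`, `l ≥ 1`), `rv_coprime`.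
Hence `N` exceptional ⇒ `‖Rrest b L J l r N‖ > (c_C/4) b^L` for some `l < b`, `1 ≤ l`, `r < D0 b`; Chebyshev with `AStmt` for each of the `≤ b D0` pairs. -/
theorem Exc_scale_le (b : ℕ) (hb : 2 ≤ b) (hA : AStmt b) (hB : BStmt b) (hC : CStmt b) :
    ∃ (c : ℝ) (L₀ : ℕ), 0 < c ∧ c < 1 ∧ ∀ L : ℕ, L₀ ≤ L →
      ((Exc b (Ico (b ^ (L + 1)) (b ^ (L + 2)))).card : ℝ) ≤ (b : ℝ) ^ ((1 - c) * L) := by
  classical
  obtain ⟨A1, hA1⟩ := hA
  obtain ⟨A2, hA2⟩ := hB
  obtain ⟨A3, cC, hcC, hA3⟩ := hC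
  set A := max A1 (max A2 A3) with hAdef
  obtain ⟨c, LA, hc, hAL⟩ := hA1 A (le_max_left _ _)
  obtain ⟨LB, hBL⟩ := hA2 A ((le_max_left _ _).trans (le_max_right _ _)) (cC / 4) (by positivity)
  obtain ⟨LC, hCL⟩ := hA3 A ((le_max_right _ _).trans (le_max_right _ _))
  have hb0 : (0 : ℝ) < b := by exact_mod_cast (by omega : 0 < b)
  have hb2 : (2 : ℝ) ≤ b := by exact_mod_cast hb
  have hlb : 0 < Real.log b := Real.log_pos (by linarith)
  have hl2 : 0 < Real.log 2 := Real.log_pos (by norm_num)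
  -- smaller exponent
  set c' : ℝ := min c 1 / 2 with hc'
  have hc'0 : 0 < c' := by positivity
  have hc'1 : c' < 1 := by
    have := min_le_right c 1
    rw [hc']
    linarith
  have hcc' : c' < c := by
    have h1 := min_le_left c 1
    rw [hc']
    have : 0 < min c 1 := lt_min hc one_pos
    linarith
  -- first limit: RR bound smaller than (cC/2) b^L
  have hlim1 : Tendsto (fun L : ℕ => (64 * (b : ℝ) ^ 3 * (Real.log b ^ 2 * (Real.log b / Real.log 2 + 1))) *
      (((L + 3 : ℕ) : ℝ) ^ 3 * ((b : ℝ) ^ (-(1 / 2 : ℝ))) ^ (L + 3))) atTop (𝓝 0) := by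
    have hr1 : |(b : ℝ) ^ (-(1 / 2 : ℝ))| < 1 := by
      rw [abs_of_pos (by positivity)]
      exact Real.rpow_lt_one_of_one_lt_of_neg (by linarith) (by norm_num)
    have h1 := tendsto_pow_const_mul_const_pow_of_abs_lt_one 3 hr1
    have h2 := h1.comp (tendsto_add_atTop_nat 3)
    have h3 := h2.const_mul (64 * (b : ℝ) ^ 3 * (Real.log b ^ 2 * (Real.log b / Real.log 2 + 1)))
    rw [mul_zero] at h3
    exact h3
  obtain ⟨L1, hL1⟩ := Filter.eventually_atTop.1 (hlim1.eventually (gt_mem_nhds (show (0 : ℝ) < cC / 2 by positivity)))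
  have hlim2 : Tendsto (fun L : ℕ => ((b : ℝ) * D0 b * (16 / cC ^ 2)) * ((L : ℝ) ^ 0 * ((b : ℝ) ^ (-(c - c'))) ^ L)) atTop (𝓝 0) := by
    have hr1 : |(b : ℝ) ^ (-(c - c'))| < 1 := by
      rw [abs_of_pos (by positivity)]
      exact Real.rpow_lt_one_of_one_lt_of_neg (by linarith) (by linarith)
    have h1 := tendsto_pow_const_mul_const_pow_of_abs_lt_one 0 hr1
    have h3 := h1.const_mul ((b : ℝ) * D0 b * (16 / cC ^ 2))
    rw [mul_zero] at h3
    exact h3
  obtain ⟨L2, hL2⟩ := Filter.eventually_atTop.1 (hlim2.eventually (gt_mem_nhds (show (0 : ℝ) < 1 by norm_num)))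
  refine ⟨c', max (max (max LA LB) (max LC L1)) (max L2 1), hc'0, hc'1, ?_⟩
  intro L hL
  have hLA : LA ≤ L := by omega
  have hLB : LB ≤ L := by omega
  have hLC : LC ≤ L := by omega
  have hLL1 : L1 ≤ L := by omega
  have hLL2 : L2 ≤ L := by omega
  have hL1' : 1 ≤ L := by omega
  set J := L / A with hJ
  have hbL : (0 : ℝ) < (b : ℝ) ^ L := by positivity
  -- exceptional N have a large remainder
  have hexc : ∀ N ∈ Exc b (Ico (b ^ (L + 1)) (b ^ (L + 2))),
      ∃ p ∈ (Ico 1 b) ×ˢ range (D0 b), cC / 4 * (b : ℝ) ^ L < ‖Rrest b L J p.1 p.2 N‖ := by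
    intro N hN
    unfold Exc at hN
    rw [mem_filter, mem_Ico] at hN
    obtain ⟨⟨hN1, hN2⟩, hev, hno⟩ := hN
    obtain ⟨l, r, hr, hg⟩ := exists_Good b L N hb hev hN1 hN2
    refine ⟨(l, r), ?_, ?_⟩
    · rw [mem_product, mem_Ico, mem_range]
      exact ⟨⟨hg.2.2.1, hg.2.2.2.1⟩, hr⟩
    · by_contra hle
      rw [not_lt] at hle
      simp only at hle
      have hnoprime : ∀ k ∈ KS b L l r, ¬ (k.Prime ∧ (N - rv b L k).Prime) := by
        intro k hk hkk
        exact hno (D3_repr b L l r N hb hL1' hg ⟨k, hk, hkk⟩)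
      have hRR := RR_le_of_no_prime b L l r N hb hL1' hg.2.2.2.1 hN1 hN2 hnoprime
      have hBB := hBL L hLB l r N hg
      have hCC := hCL L hLC l r N hg
      -- identity
      have h0mem := D3_zero_mem b J hb
      have hid : (RR b L l r N : ℂ) = Rrest b L J l r N + (Rrho b L J l r N ((0 : ℚ) : ℝ) +
          ∑ ρ ∈ (Rset b J).erase 0, Rrho b L J l r N (ρ : ℝ)) := by
        rw [Finset.add_sum_erase (Rset b J) (fun ρ : ℚ => Rrho b L J l r N (ρ : ℝ)) h0mem]
        unfold Rrest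
        ring
      have hre := congrArg Complex.re hid
      rw [Complex.add_re, Complex.add_re, Complex.ofReal_re] at hre
      have hz : ((0 : ℚ) : ℝ) = 0 := by norm_num
      rw [hz] at hre
      have h1 : -(cC / 4 * (b : ℝ) ^ L) ≤ (Rrest b L J l r N).re := by
        have h2 := Complex.abs_re_le_norm (Rrest b L J l r N)
        have h3 := neg_abs_le (Rrest b L J l r N).re
        linarith
      have h2 : -(cC / 4 * (b : ℝ) ^ L) ≤ (∑ ρ ∈ (Rset b J).erase 0, Rrho b L J l r N (ρ : ℝ)).re := by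
        have h3 := Complex.abs_re_le_norm (∑ ρ ∈ (Rset b J).erase 0, Rrho b L J l r N (ρ : ℝ))
        have h4 := norm_sum_le ((Rset b J).erase 0) (fun ρ : ℚ => Rrho b L J l r N (ρ : ℝ))
        have h5 := neg_abs_le (∑ ρ ∈ (Rset b J).erase 0, Rrho b L J l r N (ρ : ℝ)).re
        linarith
      have h3 : cC / 2 * (b : ℝ) ^ L ≤ RR b L l r N := by linarith
      -- contradiction with the bound
      have h4 := hL1 L hLL1
      have h5 : ((L + 3 : ℕ) * Real.log b) ^ 2 *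
          (2 * ((Real.sqrt ((b : ℝ) ^ (L + 3)) + 1) * ((L + 3 : ℕ) * Real.log b / Real.log 2 + 1))) ≤
          ((64 * (b : ℝ) ^ 3 * (Real.log b ^ 2 * (Real.log b / Real.log 2 + 1))) *
            (((L + 3 : ℕ) : ℝ) ^ 3 * ((b : ℝ) ^ (-(1 / 2 : ℝ))) ^ (L + 3))) * (b : ℝ) ^ L := by
        have hs : Real.sqrt ((b : ℝ) ^ (L + 3)) = (b : ℝ) ^ (L + 3) * ((b : ℝ) ^ (-(1 / 2 : ℝ))) ^ (L + 3) := by
          rw [Real.sqrt_eq_rpow, ← mul_pow, ← Real.rpow_natCast, ← Real.rpow_natCast, ← Real.rpow_mul hb0.le]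
          have e : (b : ℝ) * (b : ℝ) ^ (-(1 / 2 : ℝ)) = (b : ℝ) ^ (1 / 2 : ℝ) := by
            nth_rewrite 1 [← Real.rpow_one (b : ℝ)]
            rw [← Real.rpow_add hb0]
            norm_num
          rw [e, ← Real.rpow_mul hb0.le]
          congr 1
          ring
        have hs1 : 1 ≤ Real.sqrt ((b : ℝ) ^ (L + 3)) := by
          rw [Real.one_le_sqrt]
          exact one_le_pow₀ (by linarith)
        have hLL : (1 : ℝ) ≤ ((L + 3 : ℕ) : ℝ) := by exact_mod_cast (by omega : 1 ≤ L + 3)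
        have h6 : ((L + 3 : ℕ) : ℝ) * Real.log b / Real.log 2 + 1 ≤ ((L + 3 : ℕ) : ℝ) * (Real.log b / Real.log 2 + 1) := by
          rw [mul_add, mul_one, mul_div_assoc]
          linarith
        have h7 : (Real.sqrt ((b : ℝ) ^ (L + 3)) + 1) ≤ 2 * Real.sqrt ((b : ℝ) ^ (L + 3)) := by linarith
        have hlog0 : 0 ≤ Real.log b / Real.log 2 + 1 := by positivity
        calc ((L + 3 : ℕ) * Real.log b) ^ 2 *
          (2 * ((Real.sqrt ((b : ℝ) ^ (L + 3)) + 1) * ((L + 3 : ℕ) * Real.log b / Real.log 2 + 1))) ≤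
            ((L + 3 : ℕ) * Real.log b) ^ 2 *
              (2 * ((2 * Real.sqrt ((b : ℝ) ^ (L + 3))) * (((L + 3 : ℕ) : ℝ) * (Real.log b / Real.log 2 + 1)))) := by
              apply mul_le_mul_of_nonneg_left _ (by positivity)
              apply mul_le_mul_of_nonneg_left _ (by norm_num)
              apply mul_le_mul h7 h6 (by positivity) (by positivity)
          _ = (4 * (b : ℝ) ^ 3 * (Real.log b ^ 2 * (Real.log b / Real.log 2 + 1))) *
            (((L + 3 : ℕ) : ℝ) ^ 3 * ((b : ℝ) ^ (-(1 / 2 : ℝ))) ^ (L + 3)) * (b : ℝ) ^ L := by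
              rw [hs, pow_add (b : ℝ) L 3]
              ring
          _ ≤ _ := by
              apply mul_le_mul_of_nonneg_right _ hbL.le
              apply mul_le_mul_of_nonneg_right _ (by positivity)
              apply mul_le_mul_of_nonneg_right _ (by positivity)
              have : 0 < (b : ℝ) ^ 3 := by positivity
              linarith
      have h6 := mul_lt_mul_of_pos_right h4 hbL
      linarith
  -- Chebyshev
  have hcount : ((Exc b (Ico (b ^ (L + 1)) (b ^ (L + 2)))).card : ℝ) ≤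
      ((b : ℝ) * D0 b) * ((b : ℝ) ^ ((3 - c) * L) / (cC / 4 * (b : ℝ) ^ L) ^ 2) := by
    set S := Ico (b ^ (L + 1)) (b ^ (L + 2)) with hS
    set P := (Ico 1 b) ×ˢ range (D0 b) with hP
    set F : ℕ × ℕ → Finset ℕ := fun p => S.filter (fun N => cC / 4 * (b : ℝ) ^ L < ‖Rrest b L J p.1 p.2 N‖) with hF
    have h1 : Exc b S ⊆ P.biUnion F := by
      intro N hN
      obtain ⟨p, hp, hlt⟩ := hexc N hN
      rw [mem_biUnion]
      refine ⟨p, hp, ?_⟩
      rw [hF, mem_filter]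
      exact ⟨(mem_filter.1 hN).1, hlt⟩
    have h2 : ((Exc b S).card : ℝ) ≤ ∑ p ∈ P, ((F p).card : ℝ) := by
      have := (card_le_card h1).trans card_biUnion_le
      exact_mod_cast this
    have h3 : ∀ p ∈ P, ((F p).card : ℝ) ≤ (b : ℝ) ^ ((3 - c) * L) / (cC / 4 * (b : ℝ) ^ L) ^ 2 := by
      intro p hp
      rw [hP, mem_product, mem_Ico] at hp
      rw [le_div_iff₀ (by positivity)]
      have h4 := hAL L hLA p.1 p.2 hp.1.1 hp.1.2
      have h5 : ((F p).card : ℝ) * (cC / 4 * (b : ℝ) ^ L) ^ 2 ≤ ∑ N ∈ F p, ‖Rrest b L J p.1 p.2 N‖ ^ 2 := by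
        rw [← nsmul_eq_mul, ← Finset.sum_const]
        refine Finset.sum_le_sum fun N hN => ?_
        exact pow_le_pow_left₀ (by positivity) (mem_filter.1 hN).2.le 2
      refine h5.trans (le_trans ?_ h4)
      apply Finset.sum_le_sum_of_subset_of_nonneg (filter_subset _ _)
      intro _ _ _
      positivity
    refine h2.trans ((Finset.sum_le_sum h3).trans ?_)
    rw [Finset.sum_const, nsmul_eq_mul]
    apply mul_le_mul_of_nonneg_right _ (by positivity)
    rw [hP, card_product, Nat.card_Ico, card_range]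
    push_cast
    apply mul_le_mul_of_nonneg_right _ (by positivity)
    exact_mod_cast Nat.sub_le b 1
  refine hcount.trans ?_
  have h7 := (hL2 L hLL2).le
  have h8 : ((b : ℝ) * D0 b) * ((b : ℝ) ^ ((3 - c) * L) / (cC / 4 * (b : ℝ) ^ L) ^ 2) =
      (((b : ℝ) * D0 b * (16 / cC ^ 2)) * ((L : ℝ) ^ 0 * ((b : ℝ) ^ (-(c - c'))) ^ L)) * (b : ℝ) ^ ((1 - c') * L) := by
    have h9 : (b : ℝ) ^ ((3 - c) * L) = ((b : ℝ) ^ L) ^ 2 * (((b : ℝ) ^ (-(c - c'))) ^ L * (b : ℝ) ^ ((1 - c') * L)) := by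
      rw [← Real.rpow_natCast, ← Real.rpow_natCast, ← Real.rpow_natCast, ← Real.rpow_mul hb0.le, ← Real.rpow_mul hb0.le,
        ← Real.rpow_add hb0, ← Real.rpow_add hb0]
      congr 1
      push_cast
      ring
    rw [h9, pow_zero, one_mul]
    field_simp
    ring
  rw [h8]
  exact mul_le_of_le_one_left (by positivity) h7

/-- sum over the scales: `Icc 1 x` is covered by `[1, b^(L₀+1))` and `Ico (b^(L+1)) (b^(L+2))`, `L₀ ≤ L`, `b^(L+1) ≤ x`; geometric series in `b^((1-c)L)`;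
`b^((1-c) L) ≤ x^(1-c)`. `δ = c`. -/
theorem HG_final (b : ℕ) (hb : 2 ≤ b) (hA : AStmt b) (hB : BStmt b) (hC : CStmt b) : HGStmt b := by
  classical
  obtain ⟨c, L₀, hc0, hc1, hsc⟩ := Exc_scale_le b hb hA hB hC
  have hb0 : (0 : ℝ) < b := by exact_mod_cast (by omega : 0 < b)
  have hb1 : (1 : ℝ) < b := by exact_mod_cast (by omega : 1 < b)
  set q : ℝ := (b : ℝ) ^ (1 - c) with hq
  have hq1 : 1 < q := by
    rw [hq]
    exact Real.one_lt_rpow hb1 (by linarith)
  refine ⟨c, (b : ℝ) ^ (L₀ + 1) + q / (q - 1), hc0, ?_⟩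
  intro x hx
  have hxr : (1 : ℝ) ≤ x := by exact_mod_cast hx
  have hxpow : (1 : ℝ) ≤ (x : ℝ) ^ (1 - c) := Real.one_le_rpow hxr (by linarith)
  -- M = largest with b^M ≤ x
  set M := Nat.log b x with hM
  have hMx : b ^ M ≤ x := Nat.pow_log_le_self b (by omega)
  have hxM : x < b ^ (M + 1) := Nat.lt_pow_succ_log_self (by omega) x
  have hcover : (Finset.Icc 1 x).filter (fun N => Even N ∧ ¬ ∃ p₁ p₂ : ℕ, p₁.Prime ∧ p₂.Prime ∧
        N = p₁ + Nat.ofDigits b (Nat.digits b p₂).reverse ∧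
        Nat.Coprime (Nat.ofDigits b (Nat.digits b p₂).reverse) (b ^ 3 - b)) ⊆
      range (b ^ (L₀ + 1)) ∪ (Ico L₀ M).biUnion (fun L => Exc b (Ico (b ^ (L + 1)) (b ^ (L + 2)))) := by
    intro N hN
    rw [mem_filter, mem_Icc] at hN
    obtain ⟨⟨hN1, hN2⟩, hrest⟩ := hN
    rw [mem_union, mem_range, mem_biUnion]
    by_cases h : N < b ^ (L₀ + 1)
    · left; exact h
    · right
      rw [not_lt] at h
      set m := Nat.log b N with hm
      have hmN : b ^ m ≤ N := Nat.pow_log_le_self b (by omega)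
      have hNm : N < b ^ (m + 1) := Nat.lt_pow_succ_log_self (by omega) N
      have hm1 : L₀ + 1 ≤ m := by
        by_contra hlt
        have : b ^ (m + 1) ≤ b ^ (L₀ + 1) := Nat.pow_le_pow_right (by omega) (by omega)
        omega
      have hmM : m ≤ M := Nat.log_mono_right hN2
      refine ⟨m - 1, ?_, ?_⟩
      · rw [mem_Ico]
        omega
      · unfold Exc
        rw [mem_filter, mem_Ico]
        have e1 : m - 1 + 1 = m := by omega
        have e2 : m - 1 + 2 = m + 1 := by omega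
        rw [e1, e2]
        exact ⟨⟨hmN, hNm⟩, hrest⟩
  have hcard := (card_le_card hcover).trans ((card_union_le _ _).trans (add_le_add le_rfl card_biUnion_le))
  rw [card_range] at hcard
  have hcardR : (((Finset.Icc 1 x).filter (fun N => Even N ∧ ¬ ∃ p₁ p₂ : ℕ, p₁.Prime ∧ p₂.Prime ∧
        N = p₁ + Nat.ofDigits b (Nat.digits b p₂).reverse ∧
        Nat.Coprime (Nat.ofDigits b (Nat.digits b p₂).reverse) (b ^ 3 - b))).card : ℝ) ≤
      (b : ℝ) ^ (L₀ + 1) + ∑ L ∈ Ico L₀ M, ((Exc b (Ico (b ^ (L + 1)) (b ^ (L + 2)))).card : ℝ) := by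
    exact_mod_cast hcard
  refine le_trans ?_ (hcardR.trans ?_)
  · apply le_of_eq
    congr 2
  have hgeo : ∑ L ∈ Ico L₀ M, ((Exc b (Ico (b ^ (L + 1)) (b ^ (L + 2)))).card : ℝ) ≤ q / (q - 1) * (x : ℝ) ^ (1 - c) := by
    have h1 : ∑ L ∈ Ico L₀ M, ((Exc b (Ico (b ^ (L + 1)) (b ^ (L + 2)))).card : ℝ) ≤ ∑ L ∈ Ico L₀ M, q ^ L := by
      refine Finset.sum_le_sum fun L hL => ?_
      rw [mem_Ico] at hL
      refine (hsc L hL.1).trans (le_of_eq ?_)
      rw [hq, ← Real.rpow_natCast, ← Real.rpow_mul hb0.le]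
    have h2 : ∑ L ∈ Ico L₀ M, q ^ L ≤ ∑ L ∈ range (M + 1), q ^ L := by
      apply Finset.sum_le_sum_of_subset_of_nonneg
      · intro L hL
        rw [mem_Ico] at hL
        rw [mem_range]
        omega
      · intro _ _ _
        positivity
    have h3 : ∑ L ∈ range (M + 1), q ^ L = (q ^ (M + 1) - 1) / (q - 1) := geom_sum_eq hq1.ne' _
    have h4 : q ^ M ≤ (x : ℝ) ^ (1 - c) := by
      rw [hq, ← Real.rpow_natCast, ← Real.rpow_mul hb0.le, mul_comm, Real.rpow_mul hb0.le, Real.rpow_natCast]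
      apply Real.rpow_le_rpow (by positivity) _ (by linarith)
      exact_mod_cast hMx
    have h5 : (q ^ (M + 1) - 1) / (q - 1) ≤ q / (q - 1) * (x : ℝ) ^ (1 - c) := by
      rw [div_mul_eq_mul_div]
      apply div_le_div_of_nonneg_right _ (by linarith)
      rw [pow_succ]
      have : q ^ M * q ≤ (x : ℝ) ^ (1 - c) * q := mul_le_mul_of_nonneg_right h4 (by linarith)
      linarith
    linarith
  have h6 : (b : ℝ) ^ (L₀ + 1) ≤ (b : ℝ) ^ (L₀ + 1) * (x : ℝ) ^ (1 - c) :=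
    le_mul_of_one_le_right (by positivity) hxpow
  rw [add_mul]
  linarith

end Pool.Agent.LibHG31
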