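import Pool.Agent.LibHG31.E2

/-! ROW A1: the kernel `krn` and the Fejer kernel. -/

namespace Pool.Agent.LibHG31

open Finset

/-- normalized Fejer kernel -/
noncomputable def fej (H : ℕ) (x : ℝ) : ℝ := ‖∑ s ∈ range H, ee (s * x)‖ ^ 2 / (H : ℝ) ^ 2

theorem fej_nonneg (H : ℕ) (x : ℝ) : 0 ≤ fej H x := by
  unfold fej; positivity

private theorem A1_norm_le (H : ℕ) (x : ℝ) : ‖∑ s ∈ range H, ee (s * x)‖ ≤ H := by
  calc ‖∑ s ∈ range H, ee (s * x)‖ ≤ ∑ s ∈ range H, ‖ee (s * x)‖ := norm_sum_le _ _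
    _ = H := by simp [norm_ee]

/-- trivial (`norm_sum_le`, `norm_ee`) -/
theorem fej_le_one (H : ℕ) (x : ℝ) : fej H x ≤ 1 := by
  unfold fej
  apply div_le_one_of_le₀ _ (by positivity)
  exact pow_le_pow_left₀ (norm_nonneg _) (A1_norm_le H x) 2

theorem fej_add_int (H : ℕ) (x : ℝ) (k : ℤ) : fej H (x + k) = fej H x := by
  unfold fej
  congr 3
  refine Finset.sum_congr rfl fun s _ => ?_
  have e : (s : ℝ) * (x + k) = s * x + ((s * k : ℤ) : ℝ) := by push_cast; ring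
  rw [e, ee_add_int]

/-- from `norm_geom_le` (`a = 0`): `‖∑‖ ≤ 1/(2 nd x) ≤ 1/(2c)` -/
theorem fej_le (H : ℕ) (hH : 1 ≤ H) (x c : ℝ) (hc : 0 < c) (h : c ≤ nd x) :
    fej H x ≤ 1 / (4 * c ^ 2 * (H : ℝ) ^ 2) := by
  have h1 := norm_geom_le x (hc.trans_le h) 0 H
  rw [zero_add, ← Finset.range_eq_Ico] at h1
  have h2 : ‖∑ s ∈ range H, ee (s * x)‖ ≤ 1 / (2 * c) :=
    h1.trans (one_div_le_one_div_of_le (by positivity) (by linarith))
  have hH' : (0 : ℝ) < H := by exact_mod_cast hH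
  unfold fej
  calc ‖∑ s ∈ range H, ee (s * x)‖ ^ 2 / (H : ℝ) ^ 2 ≤ (1 / (2 * c)) ^ 2 / (H : ℝ) ^ 2 := by
        gcongr
    _ = 1 / (4 * c ^ 2 * (H : ℝ) ^ 2) := by
        field_simp
        ring

/-- near the integers. `1 - S^2 ≤ 2 (1 - S)` for `S = ‖∑‖/H ∈ [0,1]`, `H (1 - S) ≤ ∑_s ‖1 - ee (s x)‖ ≤ ∑_s 2π s nd x ≤ 2π H² nd x`
(`norm_sub_one_le`, `nd_nat_mul_le`). -/
theorem one_sub_fej_le (H : ℕ) (hH : 1 ≤ H) (x : ℝ) : 1 - fej H x ≤ 4 * Real.pi * H * nd x := by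
  have hH' : (0 : ℝ) < H := by exact_mod_cast hH
  set N := ‖∑ s ∈ range H, ee (s * x)‖ with hN
  have hN0 : 0 ≤ N := norm_nonneg _
  have hNH : N ≤ H := A1_norm_le H x
  have h1 : (H : ℝ) - N ≤ 2 * Real.pi * H ^ 2 * nd x := by
    have h2 : ‖(H : ℂ)‖ ≤ ‖∑ s ∈ range H, (ee (s * x) - 1)‖ + N := by
      have e : (H : ℂ) = -(∑ s ∈ range H, (ee (s * x) - 1)) + ∑ s ∈ range H, ee (s * x) := by
        rw [Finset.sum_sub_distrib]
        simp
      calc ‖(H : ℂ)‖ = ‖-(∑ s ∈ range H, (ee (s * x) - 1)) + ∑ s ∈ range H, ee (s * x)‖ := by rw [← e]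
        _ ≤ _ := by
          refine (norm_add_le _ _).trans ?_
          rw [norm_neg]
    have h3 : ‖∑ s ∈ range H, (ee (s * x) - 1)‖ ≤ ∑ s ∈ range H, 2 * Real.pi * (H * nd x) := by
      refine (norm_sum_le _ _).trans (Finset.sum_le_sum fun s hs => ?_)
      refine (norm_sub_one_le _).trans ?_
      have h4 : nd (s * x) ≤ H * nd x := by
        refine (nd_nat_mul_le s x).trans ?_
        have : (s : ℝ) ≤ H := by exact_mod_cast (Finset.mem_range.1 hs).le
        exact mul_le_mul_of_nonneg_right this (nd_nonneg x)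
      have hpi := Real.pi_pos
      gcongr
    rw [Finset.sum_const, Finset.card_range, nsmul_eq_mul] at h3
    rw [Complex.norm_natCast] at h2
    have e2 : (H : ℝ) * (2 * Real.pi * (H * nd x)) = 2 * Real.pi * H ^ 2 * nd x := by ring
    rw [e2] at h3
    linarith
  unfold fej
  rw [← hN]
  have h5 : 1 - N ^ 2 / (H : ℝ) ^ 2 = ((H : ℝ) - N) * (H + N) / H ^ 2 := by
    field_simp
    ring
  rw [h5, div_le_iff₀ (by positivity)]
  have h6 : ((H : ℝ) - N) * (H + N) ≤ (H - N) * (2 * H) := by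
    apply mul_le_mul_of_nonneg_left _ (by linarith)
    linarith
  refine h6.trans ?_
  have h7 : ((H : ℝ) - N) * (2 * H) ≤ (2 * Real.pi * H ^ 2 * nd x) * (2 * H) :=
    mul_le_mul_of_nonneg_right h1 (by positivity)
  refine h7.trans (le_of_eq ?_)
  ring

/-- complex form of the square: `H^2 fej = ∑_{s,s'} e((s-s') x)` (`Complex.mul_conj`, `conj_ee`, `Finset.sum_mul_sum`). -/
theorem fej_eq (H : ℕ) (hH : 1 ≤ H) (x : ℝ) :
    ((fej H x : ℝ) : ℂ) = (1 / (H : ℂ) ^ 2) * ∑ p ∈ range H ×ˢ range H, ee (((p.1 : ℝ) - p.2) * x) := by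
  have h1 : ∑ p ∈ range H ×ˢ range H, ee (((p.1 : ℝ) - p.2) * x) =
      (∑ s ∈ range H, ee (s * x)) * (starRingEnd ℂ) (∑ s ∈ range H, ee (s * x)) := by
    rw [map_sum, Finset.sum_mul_sum, Finset.sum_product]
    refine Finset.sum_congr rfl fun s _ => Finset.sum_congr rfl fun s' _ => ?_
    rw [conj_ee, ← ee_add]
    congr 1
    ring
  rw [h1, Complex.mul_conj, Complex.normSq_eq_norm_sq]
  unfold fej
  push_cast
  ring

theorem D0_pos (b : ℕ) (hb : 2 ≤ b) : 3 ≤ D0 b := by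
  unfold D0
  have : 2 ^ 2 ≤ b ^ 2 := Nat.pow_le_pow_left hb 2
  omega

theorem QQ_pos (b J : ℕ) (hb : 2 ≤ b) : 1 ≤ QQ b J := by
  unfold QQ
  have h1 := D0_pos b hb
  have h2 : 0 < b ^ J := by positivity
  exact Nat.mul_pos (by omega) h2

theorem HH_pos (b L J : ℕ) (hb : 2 ≤ b) : 1 ≤ HH b L J := by
  unfold HH
  exact Nat.one_le_pow _ _ (by omega)

private theorem A1_card_diff (H : ℕ) (d : ℤ) :
    ((((range H ×ˢ range H).filter (fun p : ℕ × ℕ => ((p.1 : ℤ) - p.2) = d)).card : ℝ)) =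
      max 0 ((H : ℝ) - |(d : ℝ)|) := by
  rcases le_or_gt 0 d with hd | hd
  · obtain ⟨n, rfl⟩ := Int.eq_ofNat_of_zero_le hd
    have h1 : ((range H ×ˢ range H).filter (fun p : ℕ × ℕ => ((p.1 : ℤ) - p.2) = (n : ℤ))) =
        (range (H - n)).image (fun s => (s + n, s)) := by
      ext p
      simp only [mem_filter, mem_product, mem_range, mem_image]
      constructor
      · rintro ⟨⟨h1, h2⟩, h3⟩
        refine ⟨p.2, by omega, ?_⟩
        ext <;> simp <;> omega
      · rintro ⟨s, hs, rfl⟩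
        simp only
        refine ⟨⟨by omega, by omega⟩, by push_cast; ring⟩
    rw [h1, Finset.card_image_of_injective _ (fun a c h => by simpa using congrArg Prod.snd h), card_range]
    rw [show |((n : ℤ) : ℝ)| = n by simp]
    rcases le_total H n with h | h
    · rw [Nat.sub_eq_zero_of_le h, max_eq_left]
      · simp
      · have : (H : ℝ) ≤ n := by exact_mod_cast h
        linarith
    · rw [Nat.cast_sub h, max_eq_right]
      have : (n : ℝ) ≤ H := by exact_mod_cast h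
      linarith
  · obtain ⟨n, hn⟩ := Int.eq_ofNat_of_zero_le (show 0 ≤ -d by omega)
    have hd' : d = -(n : ℤ) := by omega
    subst hd'
    have h1 : ((range H ×ˢ range H).filter (fun p : ℕ × ℕ => ((p.1 : ℤ) - p.2) = -(n : ℤ))) =
        (range (H - n)).image (fun s => (s, s + n)) := by
      ext p
      simp only [mem_filter, mem_product, mem_range, mem_image]
      constructor
      · rintro ⟨⟨h1, h2⟩, h3⟩
        refine ⟨p.1, by omega, ?_⟩
        ext <;> simp <;> omega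
      · rintro ⟨s, hs, rfl⟩
        simp only
        refine ⟨⟨by omega, by omega⟩, by push_cast; ring⟩
    rw [h1, Finset.card_image_of_injective _ (fun a c h => by simpa using congrArg Prod.fst h), card_range]
    rw [show |((-(n : ℤ) : ℤ) : ℝ)| = n by simp]
    rcases le_total H n with h | h
    · rw [Nat.sub_eq_zero_of_le h, max_eq_left]
      · simp
      · have : (H : ℝ) ≤ n := by exact_mod_cast h
        linarith
    · rw [Nat.cast_sub h, max_eq_right]
      have : (n : ℝ) ≤ H := by exact_mod_cast h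
      linarith

/-- **`krn m = #{(s,s') : Q (s - s') = m} / H'^2`**, `H' = HH b L J`.
If `Q ∤ m` the set is empty. If `m = Q d`: `#{(s,s') ∈ [0,H')² : s - s' = d} = max 0 (H' - |d|)`, and
`krn m = (1/H') max 0 (1 - |d|/H') = max 0 (H' - |d|) / H'²`. -/
theorem krn_eq (b L J : ℕ) (hb : 2 ≤ b) (m : ℤ) :
    krn b L J m = (((range (HH b L J) ×ˢ range (HH b L J)).filter
      (fun p : ℕ × ℕ => (QQ b J : ℤ) * ((p.1 : ℤ) - p.2) = m)).card : ℝ) / (HH b L J : ℝ) ^ 2 := by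
  have hQ : (0 : ℝ) < QQ b J := by exact_mod_cast QQ_pos b J hb
  have hQz : (QQ b J : ℤ) ≠ 0 := by have := QQ_pos b J hb; positivity
  have hH : (0 : ℝ) < HH b L J := by exact_mod_cast HH_pos b L J hb
  unfold krn
  split_ifs with h
  · obtain ⟨d, rfl⟩ := h
    have e : ((range (HH b L J) ×ˢ range (HH b L J)).filter
      (fun p : ℕ × ℕ => (QQ b J : ℤ) * ((p.1 : ℤ) - p.2) = (QQ b J : ℤ) * d)) =
      ((range (HH b L J) ×ˢ range (HH b L J)).filter (fun p : ℕ × ℕ => ((p.1 : ℤ) - p.2) = d)) := by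
      refine Finset.filter_congr fun p _ => ?_
      exact mul_right_inj' hQz
    rw [e, A1_card_diff]
    have e1 : |(((QQ b J : ℤ) * d : ℤ) : ℝ)| / (QQ b J * HH b L J) = |(d : ℝ)| / HH b L J := by
      push_cast
      rw [abs_mul, Nat.abs_cast]
      field_simp
    rw [e1]
    have e2 : max 0 (1 - |(d : ℝ)| / HH b L J) = max 0 ((HH b L J : ℝ) - |(d : ℝ)|) / HH b L J := by
      rw [max_div_div_right hH.le 0 ((HH b L J : ℝ) - |(d : ℝ)|) |>.symm]
      · congr 1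
        · simp
        · field_simp
    rw [e2]
    field_simp
  · rw [Finset.filter_eq_empty_iff.2]
    · simp
    · intro p _ hp
      exact h ⟨_, hp.symm⟩

/-- **discrete Fourier expansion** modulo `K`. By `krn_eq` both sides are `(1/H'^2) ∑_{(s,s')}` of
`1[Q(s-s') = m] ee(ρ m)`, respectively `(1/K) ∑_t ee((Q (s-s') - m) t/K) ee(ρ Q (s-s'))` (use `fej_eq` with `x = Q (t/K + ρ)`), and
`|Q(s-s') - m| < K`, so `∑_t` is `K` or `0` (`sum_ee_div`). -/
theorem krn_fourier (b L J : ℕ) (hb : 2 ≤ b) (K : ℕ) (hK : 0 < K) (m : ℤ) (hm : |m| + (QQ b J * HH b L J : ℕ) < (K : ℤ)) (ρ : ℝ) :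
    ((krn b L J m : ℝ) : ℂ) * ee (ρ * m) =
      (1 / (K : ℂ)) * ∑ t ∈ range K, ((fej (HH b L J) (QQ b J * ((t : ℝ) / K + ρ)) : ℝ) : ℂ) *
        ee (-(m * ((t : ℝ) / K))) := by
  have hKc : (K : ℂ) ≠ 0 := by exact_mod_cast hK.ne'
  have hKr : (K : ℝ) ≠ 0 := by exact_mod_cast hK.ne'
  have hH1 := HH_pos b L J hb
  have hHc : (HH b L J : ℂ) ≠ 0 := by
    have : HH b L J ≠ 0 := by omega
    exact_mod_cast this
  set H := HH b L J with hHdef
  set Q := QQ b J with hQdef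
  -- right side
  have h1 : ∀ t ∈ range K, ((fej H (Q * ((t : ℝ) / K + ρ)) : ℝ) : ℂ) * ee (-(m * ((t : ℝ) / K))) =
      (1 / (H : ℂ) ^ 2) * ∑ p ∈ range H ×ˢ range H,
        ee (ρ * (Q * ((p.1 : ℝ) - p.2))) * ee (t * ((((Q : ℤ) * ((p.1 : ℤ) - p.2) - m : ℤ) : ℝ) / K)) := by
    intro t _
    rw [fej_eq H hH1, mul_assoc, Finset.sum_mul]
    congr 1
    refine Finset.sum_congr rfl fun p _ => ?_
    rw [← ee_add, ← ee_add]
    congr 1
    push_cast
    field_simp
    ring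
  rw [Finset.sum_congr rfl h1, ← Finset.mul_sum, Finset.sum_comm]
  have h2 : ∀ p ∈ range H ×ˢ range H,
      ∑ t ∈ range K, ee (ρ * (Q * ((p.1 : ℝ) - p.2))) * ee (t * ((((Q : ℤ) * ((p.1 : ℤ) - p.2) - m : ℤ) : ℝ) / K)) =
      if (Q : ℤ) * ((p.1 : ℤ) - p.2) = m then (K : ℂ) * ee (ρ * m) else 0 := by
    intro p hp
    rw [← Finset.mul_sum, sum_ee_div K hK]
    simp only [mem_product, mem_range] at hp
    split_ifs with h3 h4 h4
    · rw [← h4]
      push_cast
      ring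
    · exfalso
      apply h4
      have h5 : |(Q : ℤ) * ((p.1 : ℤ) - p.2) - m| < K := by
        have h6 : |(Q : ℤ) * ((p.1 : ℤ) - p.2)| ≤ (Q * H : ℕ) := by
          rw [abs_mul, Nat.abs_cast, Nat.cast_mul]
          apply mul_le_mul_of_nonneg_left _ (by positivity)
          rw [abs_le]
          constructor <;> omega
        have h7 := abs_sub ((Q : ℤ) * ((p.1 : ℤ) - p.2)) m
        calc |(Q : ℤ) * ((p.1 : ℤ) - p.2) - m| ≤ |(Q : ℤ) * ((p.1 : ℤ) - p.2)| + |m| := h7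
          _ ≤ (Q * H : ℕ) + |m| := by linarith
          _ < K := by linarith
      have h8 := Int.eq_zero_of_abs_lt_dvd h3 h5
      linarith
    · exfalso
      apply h3
      rw [h4, sub_self]
      exact dvd_zero _
    · simp
  rw [Finset.sum_congr rfl h2, ← Finset.sum_filter, Finset.sum_const, krn_eq b L J hb m]
  rw [nsmul_eq_mul, ← hHdef, ← hQdef]
  push_cast
  field_simp

end Pool.Agent.LibHG31
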