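import Pool.Agent.LibHG31.E1

/-! ROW E2: chord length and geometric sums.
`ee x = exp(2 π i x)`, `nd x` = distance to the nearest integer (Defs.lean, E1.lean). -/

namespace Pool.Agent.LibHG31

open Finset

theorem norm_ee_sub_one (x : ℝ) : ‖ee x - 1‖ = 2 * Real.sin (Real.pi * nd x) := by
  have hx : ee x = ee (x - round x) := by
    have h := ee_add_int (x - round x) (round x)
    rw [sub_add_cancel] at h
    exact h
  have h1 : ‖ee (x - round x) - 1‖ = ‖2 * Real.sin (2 * Real.pi * (x - round x) / 2)‖ := by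
    have h := Complex.norm_exp_I_mul_ofReal_sub_one (2 * Real.pi * (x - round x))
    rw [← h]
    unfold ee
    rw [mul_comm Complex.I]
  rw [hx, h1, Real.norm_eq_abs, abs_mul, abs_two]
  congr 1
  have e : 2 * Real.pi * (x - round x) / 2 = Real.pi * (x - round x) := by ring
  rw [e]
  have hpi := Real.pi_pos
  have hn := nd_le_half x
  rcases le_total 0 (x - round x) with h | h
  · have e2 : nd x = x - round x := abs_of_nonneg h
    rw [← e2]
    apply abs_of_nonneg
    apply Real.sin_nonneg_of_nonneg_of_le_pi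
    · have := nd_nonneg x; positivity
    · nlinarith
  · have e2 : x - round x = -nd x := by
      unfold nd
      rw [abs_of_nonpos h]; ring
    rw [e2, mul_neg, Real.sin_neg, abs_neg]
    apply abs_of_nonneg
    apply Real.sin_nonneg_of_nonneg_of_le_pi
    · have := nd_nonneg x; positivity
    · nlinarith

/-- `‖e(x) - 1‖ = 2 |sin (π x)| ≥ 4 nd x`. -/
theorem four_nd_le (x : ℝ) : 4 * nd x ≤ ‖ee x - 1‖ := by
  rw [norm_ee_sub_one]
  have hpi := Real.pi_pos
  have hn := nd_le_half x
  have h := Real.mul_le_sin (x := Real.pi * nd x) (by have := nd_nonneg x; positivity) (by nlinarith)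
  have e : 2 / Real.pi * (Real.pi * nd x) = 2 * nd x := by field_simp
  rw [e] at h
  linarith

/-- upper bound `‖e(x) - 1‖ ≤ 2 π nd x` (same reduction, `|sin t| ≤ |t|`). -/
theorem norm_sub_one_le (x : ℝ) : ‖ee x - 1‖ ≤ 2 * Real.pi * nd x := by
  rw [norm_ee_sub_one]
  have h := Real.sin_le (x := Real.pi * nd x) (by have := nd_nonneg x; have := Real.pi_pos; positivity)
  linarith

/-- geometric sums over an interval. `(ee x - 1) ∑_{s<n} ee (s x) = ee (n x) - 1` (`geom_sum_eq` / `mul_geom_sum`, `ee_mul_nat`),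
numerator of norm `≤ 2`, denominator `≥ 4 nd x`; shift the interval by `ee_add`. -/
theorem norm_geom_le (x : ℝ) (hx : 0 < nd x) (a n : ℕ) :
    ‖∑ s ∈ Ico a (a + n), ee (s * x)‖ ≤ 1 / (2 * nd x) := by
  have h1 : ∑ s ∈ Ico a (a + n), ee (s * x) = ee (a * x) * ∑ s ∈ range n, ee x ^ s := by
    rw [Finset.sum_Ico_eq_sum_range, Nat.add_sub_cancel_left, Finset.mul_sum]
    refine Finset.sum_congr rfl fun s _ => ?_
    rw [← ee_mul_nat, ← ee_add]
    congr 1
    push_cast
    ring
  have h2 := geom_sum_mul (ee x) n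
  have h3 := four_nd_le x
  have h4 : 0 < ‖ee x - 1‖ := by linarith
  rw [h1, norm_mul, norm_ee, one_mul]
  have h5 : ‖∑ s ∈ range n, ee x ^ s‖ * ‖ee x - 1‖ ≤ 2 := by
    rw [← norm_mul, h2]
    refine (norm_sub_le _ _).trans ?_
    rw [norm_pow, norm_ee, one_pow, norm_one]
    norm_num
  rw [le_div_iff₀ (by positivity)]
  have h6 : 0 ≤ ‖∑ s ∈ range n, ee x ^ s‖ := norm_nonneg _
  nlinarith

/-- trivial bound together with the previous one -/
theorem norm_geom_le' (x : ℝ) (a n : ℕ) (c : ℝ) (hc : 0 < c) (h : c ≤ nd x) :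
    ‖∑ s ∈ Ico a (a + n), ee (s * x)‖ ≤ min (n : ℝ) (1 / (2 * c)) := by
  apply le_min
  · refine (norm_sum_le _ _).trans ?_
    simp [norm_ee]
  · refine (norm_geom_le x (lt_of_lt_of_le hc h) a n).trans ?_
    gcongr

/-- orthogonality: for `0 < q`, `∑_{h<q} e(h n / q) = q` if `q ∣ n`, else `0` (n an integer). -/
theorem sum_ee_div (q : ℕ) (hq : 0 < q) (n : ℤ) :
    ∑ h ∈ range q, ee (h * ((n : ℝ) / q)) = if (q : ℤ) ∣ n then (q : ℂ) else 0 := by
  have hq' : (q : ℝ) ≠ 0 := by exact_mod_cast hq.ne'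
  split_ifs with hd
  · obtain ⟨k, rfl⟩ := hd
    have e : (((q : ℤ) * k : ℤ) : ℝ) / q = (k : ℤ) := by
      push_cast
      field_simp
    rw [e]
    have : ∀ h ∈ range q, ee (h * ((k : ℤ) : ℝ)) = 1 := by
      intro h _
      have := ee_int (h * k)
      push_cast at this
      exact this
    rw [Finset.sum_congr rfl this]
    simp
  · have h1 : ∀ h ∈ range q, ee (h * ((n : ℝ) / q)) = ee ((n : ℝ) / q) ^ h := fun h _ => ee_mul_nat h _
    rw [Finset.sum_congr rfl h1]
    have h2 := geom_sum_mul (ee ((n : ℝ) / q)) q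
    have h3 : ee ((n : ℝ) / q) ^ q = 1 := by
      rw [← ee_mul_nat, mul_div_cancel₀ _ hq', ee_int]
    rw [h3, sub_self] at h2
    rcases mul_eq_zero.1 h2 with h | h
    · exact h
    · exfalso
      apply hd
      have h4 : ee ((n : ℝ) / q) = 1 := sub_eq_zero.1 h
      unfold ee at h4
      rw [Complex.exp_eq_one_iff] at h4
      obtain ⟨k, hk⟩ := h4
      have h5 : (n : ℝ) / q = k := by
        have h6 : ((2 * Real.pi * ((n : ℝ) / q) : ℝ) : ℂ) = ((2 * Real.pi * k : ℝ) : ℂ) := by
          have hI : Complex.I ≠ 0 := Complex.I_ne_zero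
          apply mul_right_cancel₀ hI
          rw [hk]
          push_cast
          ring
        have h7 := Complex.ofReal_injective h6
        have hpi := Real.pi_pos
        exact mul_left_cancel₀ (by positivity : (2 * Real.pi) ≠ 0) h7
      refine ⟨k, ?_⟩
      rw [div_eq_iff hq'] at h5
      have h8 : (n : ℝ) = ((q * k : ℤ) : ℝ) := by push_cast; linarith
      exact_mod_cast h8

end Pool.Agent.LibHG31
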