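import Pool.Agent.LibHG31.V3
import Pool.Agent.LibHG31.E2

/-! ROW A4: Vinogradov's estimate for `∑ Λ(n) e(n α)` (minor arcs) from `VG`. -/

namespace Pool.Agent.LibHG31

open Finset
open scoped ArithmeticFunction.vonMangoldt

/-- distance to the integers of a point close to `s/q` -/
theorem a4_nd_ge (q : ℕ) (hq : 1 ≤ q) (x θ : ℝ) (n : ℤ) (s : ℕ) (hs : s ≤ q) (hx : (q : ℝ) * x = (s : ℝ) + q * n + θ)
    (hθ : |θ| ≤ 3 / 2) (t : ℕ) (ht1 : t ≤ s) (ht2 : t ≤ q - s) : ((t : ℝ) - 3 / 2) / q ≤ nd x := by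
  have hq0 : (0 : ℝ) < q := by exact_mod_cast hq
  unfold nd
  obtain ⟨k, hk⟩ : ∃ k : ℤ, k = round x := ⟨_, rfl⟩
  rw [← hk, div_le_iff₀ hq0]
  have e : |x - k| * q = |(s : ℝ) + q * ((n - k : ℤ) : ℝ) + θ| := by
    rw [← abs_of_pos hq0, ← abs_mul, abs_of_pos hq0]
    congr 1
    push_cast
    linarith
  rw [e]
  have h1 : (t : ℝ) ≤ |(s : ℝ) + q * ((n - k : ℤ) : ℝ)| := by
    rcases le_or_gt 0 (n - k) with h | h
    · have h2 : (0 : ℝ) ≤ ((n - k : ℤ) : ℝ) := by exact_mod_cast h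
      have h3 : (t : ℝ) ≤ s := by exact_mod_cast ht1
      have h4 : 0 ≤ (q : ℝ) * ((n - k : ℤ) : ℝ) := mul_nonneg hq0.le h2
      refine le_trans ?_ (le_abs_self _)
      linarith
    · have h2 : ((n - k : ℤ) : ℝ) ≤ -1 := by
        have : n - k ≤ -1 := by omega
        exact_mod_cast this
      have h3 : (t : ℝ) ≤ (q : ℝ) - s := by
        have h5 : t + s ≤ q := by omega
        have : (t : ℝ) + s ≤ q := by exact_mod_cast h5
        linarith
      refine le_trans ?_ (neg_le_abs _)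
      nlinarith
  have h2 : |(s : ℝ) + q * ((n - k : ℤ) : ℝ)| ≤ |(s : ℝ) + q * ((n - k : ℤ) : ℝ) + θ| + |θ| := by
    have e2 : (s : ℝ) + q * ((n - k : ℤ) : ℝ) = ((s : ℝ) + q * ((n - k : ℤ) : ℝ) + θ) - θ := by ring
    calc |(s : ℝ) + q * ((n - k : ℤ) : ℝ)| = |((s : ℝ) + q * ((n - k : ℤ) : ℝ) + θ) - θ| := by rw [← e2]
      _ ≤ _ := abs_sub _ _
  linarith

/-- the majorant -/
noncomputable def a4h (A : ℝ) (q u : ℕ) : ℝ := if u ≤ 1 then A else (q : ℝ) / (2 * (u : ℝ) - 3)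

theorem a4h_nonneg (A : ℝ) (hA : 0 ≤ A) (q u : ℕ) : 0 ≤ a4h A q u := by
  unfold a4h
  split_ifs with h
  · exact hA
  · have h2 : (2 : ℝ) ≤ u := by exact_mod_cast (by omega : 2 ≤ u)
    have : (0 : ℝ) < 2 * u - 3 := by linarith
    positivity

theorem a4h_sum (A : ℝ) (hA : 0 ≤ A) (q : ℕ) (hq : 1 ≤ q) :
    ∑ u ∈ range (q + 1), a4h A q u ≤ 2 * A + q * (1 + Real.log q) := by
  obtain ⟨p, rfl⟩ : ∃ p, q = p + 1 := ⟨q - 1, by omega⟩
  rw [Finset.sum_range_succ', Finset.sum_range_succ']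
  have e0 : a4h A (p + 1) 0 = A := by unfold a4h; simp
  have e1 : a4h A (p + 1) (0 + 1) = A := by unfold a4h; simp
  rw [e0, e1]
  have h1 : ∀ u ∈ range p, a4h A (p + 1) (u + 1 + 1) ≤ ((p + 1 : ℕ) : ℝ) * ((u : ℝ) + 1)⁻¹ := by
    intro u _
    unfold a4h
    rw [if_neg (by omega), div_eq_mul_inv]
    apply mul_le_mul_of_nonneg_left _ (by positivity)
    apply inv_anti₀ (by positivity)
    push_cast
    have : (0 : ℝ) ≤ u := Nat.cast_nonneg u
    linarith
  have h2 := Finset.sum_le_sum h1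
  rw [← Finset.mul_sum] at h2
  have h3 : ∑ u ∈ range p, ((u : ℝ) + 1)⁻¹ ≤ 1 + Real.log ((p + 1 : ℕ) : ℝ) := by
    have h4 := harmonic_le_one_add_log (p + 1)
    have e2 : ((harmonic (p + 1) : ℚ) : ℝ) = ∑ j ∈ range (p + 1), ((j : ℝ) + 1)⁻¹ := by
      rw [harmonic]
      push_cast
      rfl
    rw [e2, Finset.sum_range_succ] at h4
    have : (0 : ℝ) ≤ ((p : ℝ) + 1)⁻¹ := by positivity
    linarith
  have h5 : ((p + 1 : ℕ) : ℝ) * ∑ u ∈ range p, ((u : ℝ) + 1)⁻¹ ≤ ((p + 1 : ℕ) : ℝ) * (1 + Real.log ((p + 1 : ℕ) : ℝ)) :=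
    mul_le_mul_of_nonneg_left h3 (by positivity)
  linarith

/-- one period, general version -/
theorem a4_period (q : ℕ) (hq : 1 ≤ q) (a : ℤ) (ha : IsCoprime a (q : ℤ)) (α : ℝ)
    (hα : |α - a / q| ≤ 1 / (q : ℝ) ^ 2) (A : ℝ) (hA : 1 ≤ A) (d0 : ℕ) (f : ℕ → ℝ)
    (h1 : ∀ d : ℕ, f d ≤ A) (h2 : ∀ d : ℕ, 0 < nd (d * α) → f d ≤ 1 / (2 * nd (d * α))) :
    ∑ d ∈ Ico d0 (d0 + q), f d ≤ 8 * (A + q * (1 + Real.log q)) := by
  have hq0 : (0 : ℝ) < q := by exact_mod_cast hq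
  have hqZ : (0 : ℤ) < q := by exact_mod_cast hq
  obtain ⟨c, hc⟩ : ∃ c : ℤ, c = round ((q : ℝ) * (d0 * α)) := ⟨_, rfl⟩
  obtain ⟨s, hs⟩ : ∃ s : ℕ → ℕ, s = fun j : ℕ => ((c + j * a) % (q : ℤ)).toNat := ⟨_, rfl⟩
  have hs0 : ∀ j : ℕ, ((s j : ℕ) : ℤ) = (c + j * a) % (q : ℤ) := by
    intro j
    rw [hs]
    exact Int.toNat_of_nonneg (Int.emod_nonneg _ hqZ.ne')
  have hslt : ∀ j : ℕ, s j < q := by
    intro j
    have h := Int.emod_lt_of_pos (c + j * a) hqZ
    rw [← hs0 j] at h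
    exact_mod_cast h
  rw [Finset.sum_Ico_eq_sum_range, Nat.add_sub_cancel_left]
  have hA0 : 0 ≤ A := by linarith
  -- pointwise
  have hpt : ∀ j ∈ range q, f (d0 + j) ≤ a4h A q (s j) + a4h A q (q - 1 - s j + 1) := by
    intro j hj
    have hjq : j < q := Finset.mem_range.mp hj
    have hsj := hslt j
    have e1 : q - 1 - s j + 1 = q - s j := by omega
    rw [e1]
    have n1 := a4h_nonneg A hA0 q (s j)
    have n2 := a4h_nonneg A hA0 q (q - s j)
    obtain ⟨t, ht⟩ : ∃ t : ℕ, t = min (s j) (q - s j) := ⟨_, rfl⟩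
    have hkey : f (d0 + j) ≤ a4h A q t := by
      unfold a4h
      split_ifs with h
      · exact h1 _
      · -- the point
        obtain ⟨θ, hθ⟩ : ∃ θ : ℝ, θ = ((q : ℝ) * (d0 * α) - c) + j * (q * (α - a / q)) := ⟨_, rfl⟩
        have hθ1 : |θ| ≤ 3 / 2 := by
          rw [hθ]
          refine (abs_add_le _ _).trans ?_
          have b1 : |(q : ℝ) * (d0 * α) - c| ≤ 1 / 2 := by
            rw [hc]
            exact abs_sub_round _
          have b2 : |(j : ℝ) * (q * (α - a / q))| ≤ 1 := by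
            rw [abs_mul, abs_mul, Nat.abs_cast, abs_of_pos hq0]
            have hjr : (j : ℝ) ≤ q := by exact_mod_cast hjq.le
            calc (j : ℝ) * (q * |α - a / q|) ≤ q * (q * (1 / (q : ℝ) ^ 2)) := by gcongr
              _ = 1 := by field_simp
          linarith
        have hdecomp : (c + j * a : ℤ) = (s j : ℤ) + q * ((c + j * a) / (q : ℤ)) := by
          rw [hs0 j]
          exact (Int.emod_add_mul_ediv _ _).symm
        have hx : (q : ℝ) * (((d0 + j : ℕ) : ℝ) * α) = ((s j : ℕ) : ℝ) + q * (((c + j * a) / (q : ℤ) : ℤ) : ℝ) + θ := by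
          have hd2 : ((c + j * a : ℤ) : ℝ) = ((s j : ℕ) : ℝ) + q * (((c + j * a) / (q : ℤ) : ℤ) : ℝ) := by
            exact_mod_cast hdecomp
          rw [← hd2, hθ]
          push_cast
          field_simp
          ring
        have hnd := a4_nd_ge q hq _ θ _ (s j) hsj.le hx hθ1 t (by omega) (by omega)
        have ht2 : (2 : ℝ) ≤ t := by exact_mod_cast (by omega : 2 ≤ t)
        have hpos : 0 < ((t : ℝ) - 3 / 2) / q := by
          apply div_pos _ hq0
          linarith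
        refine (h2 _ (lt_of_lt_of_le hpos hnd)).trans ?_
        have hnd2 : (2 * (t : ℝ) - 3) / q ≤ 2 * nd (((d0 + j : ℕ) : ℝ) * α) := by
          have : (2 * (t : ℝ) - 3) / q = 2 * (((t : ℝ) - 3 / 2) / q) := by ring
          rw [this]
          linarith
        have hpos2 : 0 < (2 * (t : ℝ) - 3) / q := by
          apply div_pos _ hq0
          linarith
        calc 1 / (2 * nd (((d0 + j : ℕ) : ℝ) * α)) ≤ 1 / ((2 * (t : ℝ) - 3) / q) :=
              one_div_le_one_div_of_le hpos2 hnd2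
          _ = (q : ℝ) / (2 * (t : ℝ) - 3) := by rw [one_div_div]
    refine hkey.trans ?_
    rcases min_choice (s j) (q - s j) with h | h
    · rw [ht, h]; linarith
    · rw [ht, h]; linarith
  refine (Finset.sum_le_sum hpt).trans ?_
  -- bijection
  have hinj : Set.InjOn s (range q : Set ℕ) := by
    intro i hi j hj hij
    have hi' : i < q := Finset.mem_range.mp (Finset.mem_coe.mp hi)
    have hj' : j < q := Finset.mem_range.mp (Finset.mem_coe.mp hj)
    have e : (c + i * a) % (q : ℤ) = (c + j * a) % (q : ℤ) := by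
      rw [← hs0 i, ← hs0 j, hij]
    have hd : (q : ℤ) ∣ (c + j * a) - (c + i * a) := (Int.emod_emod_of_dvd _ (dvd_refl _) ▸ Int.emod_eq_emod_iff_emod_sub_eq_zero.mp e.symm) |> Int.dvd_of_emod_eq_zero
    have e2 : (c + j * a) - (c + i * a) = ((j : ℤ) - i) * a := by ring
    rw [e2] at hd
    have hd2 : (q : ℤ) ∣ (j : ℤ) - i := ha.symm.dvd_of_dvd_mul_right hd
    obtain ⟨w, hw⟩ := hd2
    have hw0 : w = 0 := by
      by_contra hne
      rcases lt_or_gt_of_ne hne with h | h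
      · have : w ≤ -1 := by omega
        nlinarith
      · have : 1 ≤ w := by omega
        nlinarith
    rw [hw0, mul_zero] at hw
    omega
  have himg : (range q).image s = range q := by
    apply Finset.eq_of_subset_of_card_le
    · intro x hx
      obtain ⟨j, _, rfl⟩ := Finset.mem_image.mp hx
      exact Finset.mem_range.mpr (hslt j)
    · rw [Finset.card_image_of_injOn hinj]
  have hsum : ∑ j ∈ range q, (a4h A q (s j) + a4h A q (q - 1 - s j + 1)) =
      ∑ u ∈ range q, (a4h A q u + a4h A q (q - 1 - u + 1)) := by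
    conv_rhs => rw [← himg]
    rw [Finset.sum_image hinj]
  rw [hsum, Finset.sum_add_distrib, Finset.sum_range_reflect (fun u => a4h A q (u + 1)) q]
  have hs1 := a4h_sum A hA0 q hq
  have b1 : ∑ u ∈ range q, a4h A q u ≤ ∑ u ∈ range (q + 1), a4h A q u := by
    rw [Finset.sum_range_succ]
    have := a4h_nonneg A hA0 q q
    linarith
  have b2 : ∑ u ∈ range q, a4h A q (u + 1) ≤ ∑ u ∈ range (q + 1), a4h A q u := by
    rw [Finset.sum_range_succ' (fun u => a4h A q u)]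
    have := a4h_nonneg A hA0 q 0
    linarith
  have hlog : 0 ≤ Real.log q := Real.log_natCast_nonneg q
  have : 0 ≤ (q : ℝ) * (1 + Real.log q) := by positivity
  linarith

/-- **standard lemma, one period**. `|α - a/q| ≤ 1/q²`, `(a,q) = 1`. For `q` consecutive integers `d = d0 + j`, `0 ≤ j < q`:
`d α = d0 α + j a/q + j β`, `|j β| ≤ 1/q`; the points `j a/q` run over all residues `s/q`. At most `4` values of `j` have
`d α` (mod 1) in a given arc `[t/q, (t+1)/q)` (two such `j, j'` have `‖(j-j') a/q‖ ≤ 1/q + 1/q`... i.e. `(j-j')a mod q` lies in an interval of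
length `≤ 3`), so at most `8` values have `t/q ≤ nd(d α) < (t+1)/q`, and the sum is `≤ 8 (A + ∑_{1≤t≤q/2} q/(2t))`
`≤ 8 (A + q (1 + log q))`. Any other proof is fine. -/
theorem A4_std_period (q : ℕ) (hq : 1 ≤ q) (a : ℤ) (ha : IsCoprime a (q : ℤ)) (α : ℝ)
    (hα : |α - a / q| ≤ 1 / (q : ℝ) ^ 2) (A : ℝ) (hA : 1 ≤ A) (d0 : ℕ) :
    ∑ d ∈ Ico d0 (d0 + q), min A (1 / (2 * nd (d * α))) ≤ 8 * (A + q * (1 + Real.log q)) :=
  a4_period q hq a ha α hα A hA d0 (fun d : ℕ => min A (1 / (2 * nd (d * α)))) (fun _ => min_le_left _ _)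
    (fun _ _ => min_le_right _ _)

/-- (in Lean `1/0 = 0`, so a term with `nd = 0` is counted as `0`; in the next statements the sums are estimated by `A` there, therefore the
version with an explicit bound:) `f d ≤ A` always and `f d ≤ 1/(2 nd (d α))` when `nd (d α) > 0`. -/
theorem A4_std_sum (q : ℕ) (hq : 1 ≤ q) (a : ℤ) (ha : IsCoprime a (q : ℤ)) (α : ℝ)
    (hα : |α - a / q| ≤ 1 / (q : ℝ) ^ 2) (A : ℝ) (hA : 1 ≤ A) (d0 Z : ℕ) (f : ℕ → ℝ)
    (h1 : ∀ d : ℕ, f d ≤ A) (h2 : ∀ d : ℕ, 0 < nd (d * α) → f d ≤ 1 / (2 * nd (d * α))) :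
    ∑ d ∈ Ico d0 (d0 + Z), f d ≤ 16 * ((Z : ℝ) / q + 1) * (A + q * (1 + Real.log q)) := by
  have hq0 : (0 : ℝ) < q := by exact_mod_cast hq
  obtain ⟨g, hg⟩ : ∃ g : ℕ → ℝ, g = fun d => max (f d) 0 := ⟨_, rfl⟩
  have hg0 : ∀ d, 0 ≤ g d := fun d => by rw [hg]; exact le_max_right _ _
  have hfg : ∀ d, f d ≤ g d := fun d => by rw [hg]; exact le_max_left _ _
  have hgA : ∀ d, g d ≤ A := fun d => by rw [hg]; exact max_le (h1 d) (by linarith)
  have hg2 : ∀ d : ℕ, 0 < nd (d * α) → g d ≤ 1 / (2 * nd (d * α)) := fun d hd => by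
    rw [hg]
    exact max_le (h2 d hd) (by positivity)
  obtain ⟨W, hW⟩ : ∃ W : ℝ, W = A + q * (1 + Real.log q) := ⟨_, rfl⟩
  have hlog : 0 ≤ Real.log q := Real.log_natCast_nonneg q
  have hW0 : 0 ≤ W := by
    rw [hW]
    have : 0 ≤ (q : ℝ) * (1 + Real.log q) := by positivity
    linarith
  have hblk : ∀ J : ℕ, ∑ d ∈ Ico d0 (d0 + J * q), g d ≤ J * (8 * W) := by
    intro J
    induction J with
    | zero => simp
    | succ J ih =>
      have e : ∑ d ∈ Ico d0 (d0 + (J + 1) * q), g d =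
          ∑ d ∈ Ico d0 (d0 + J * q), g d + ∑ d ∈ Ico (d0 + J * q) (d0 + J * q + q), g d := by
        rw [Finset.sum_Ico_consecutive g (Nat.le_add_right _ _) (Nat.le_add_right _ _)]
        congr 2
        ring
      rw [e]
      have h3 := a4_period q hq a ha α hα A hA (d0 + J * q) g hgA hg2
      rw [← hW] at h3
      push_cast
      linarith
  rw [← hW]
  calc ∑ d ∈ Ico d0 (d0 + Z), f d ≤ ∑ d ∈ Ico d0 (d0 + Z), g d := Finset.sum_le_sum fun d _ => hfg d
    _ ≤ ∑ d ∈ Ico d0 (d0 + (Z / q + 1) * q), g d := by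
        refine Finset.sum_le_sum_of_subset_of_nonneg ?_ (fun _ _ _ => hg0 _)
        intro d hd
        rw [Finset.mem_Ico] at hd ⊢
        have := Nat.lt_div_mul_add hq (a := Z)
        rw [add_mul, one_mul]
        omega
    _ ≤ ((Z / q + 1 : ℕ) : ℝ) * (8 * W) := hblk _
    _ ≤ ((Z : ℝ) / q + 1) * (8 * W) := by
        apply mul_le_mul_of_nonneg_right _ (by positivity)
        push_cast
        have := Nat.cast_div_le (α := ℝ) (m := Z) (n := q)
        linarith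
    _ ≤ 16 * ((Z : ℝ) / q + 1) * W := by
        have : 0 ≤ ((Z : ℝ) / q + 1) * W := by positivity
        nlinarith

end Pool.Agent.LibHG31
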