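import Pool.Agent.LibHG31.V3
import Pool.Agent.LibHG31.A3

/-! ROW B1: sums over `Λ` twisted by an arbitrary function of (class mod `Q`, cell of length `H`) and `e(-ρ n)`, from `VG`.
`Q = QQ b J = D0 b^J`, `H = Q * HH b L J = D0 b^(L-J)`, `X = XX b L = b^(L+3)`; number of cells `≤ X/H + 2 ≤ b^(J+3) + 2`. -/

namespace Pool.Agent.LibHG31

open Finset
open scoped ArithmeticFunction.vonMangoldt

/-- the sum over one class and one pair of cells -/
theorem b1_piece (Q : ℕ) (c₁ c₂ : ℕ → ℕ)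
    (h1 : Monotone c₁) (h2 : Monotone c₂) (x δ : ℝ) (hδ : 0 < δ) (hx : δ ≤ nd (Q * x)) (a M u v w : ℕ) :
    ‖∑ m ∈ (Ico a (a + M)).filter (fun m => m % Q = u ∧ c₁ m = v ∧ c₂ m = w), ee (m * x)‖ ≤ 1 / (2 * δ) := by
  obtain ⟨S, hS⟩ : ∃ S : Finset ℕ, S = (Ico a (a + M)).filter (fun m => m % Q = u ∧ c₁ m = v ∧ c₂ m = w) := ⟨_, rfl⟩
  rw [← hS]
  rcases S.eq_empty_or_nonempty with h | hne
  · rw [h]
    simp
    positivity
  have hmem : ∀ m, m ∈ S ↔ (a ≤ m ∧ m < a + M) ∧ m % Q = u ∧ c₁ m = v ∧ c₂ m = w := by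
    intro m
    rw [hS, Finset.mem_filter, Finset.mem_Ico]
  obtain ⟨m₀, hm₀⟩ : ∃ m₀, m₀ = S.min' hne := ⟨_, rfl⟩
  obtain ⟨m₁, hm₁⟩ : ∃ m₁, m₁ = S.max' hne := ⟨_, rfl⟩
  have h0S : m₀ ∈ S := by rw [hm₀]; exact S.min'_mem hne
  have h1S : m₁ ∈ S := by rw [hm₁]; exact S.max'_mem hne
  have hle : m₀ ≤ m₁ := by rw [hm₀]; exact S.min'_le _ h1S
  have hQ : 0 < Q := by
    rcases Nat.eq_zero_or_pos Q with h | h
    · exfalso
      rw [h] at hx
      have : nd (((0 : ℕ) : ℝ) * x) = 0 := by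
        unfold nd
        simp
      linarith
    · exact h
  have himg : S = (range ((m₁ - m₀) / Q + 1)).image (fun j => m₀ + Q * j) := by
    have a0 := (hmem m₀).mp h0S
    have a1 := (hmem m₁).mp h1S
    ext m
    constructor
    · intro hm
      have am := (hmem m).mp hm
      have l0 : m₀ ≤ m := by rw [hm₀]; exact S.min'_le _ hm
      have l1 : m ≤ m₁ := by rw [hm₁]; exact S.le_max' _ hm
      rw [Finset.mem_image]
      have hmod : m₀ ≡ m [MOD Q] := by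
        unfold Nat.ModEq
        rw [a0.2.1, am.2.1]
      have hd : Q ∣ m - m₀ := (Nat.modEq_iff_dvd' l0).mp hmod
      obtain ⟨j, hj⟩ := hd
      refine ⟨j, ?_, by omega⟩
      rw [Finset.mem_range, Nat.lt_succ_iff, Nat.le_div_iff_mul_le hQ]
      rw [mul_comm]
      omega
    · intro hm
      obtain ⟨j, hj, rfl⟩ := Finset.mem_image.mp hm
      rw [Finset.mem_range, Nat.lt_succ_iff, Nat.le_div_iff_mul_le hQ, mul_comm] at hj
      have l1 : m₀ + Q * j ≤ m₁ := by omega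
      rw [hmem]
      refine ⟨⟨by omega, by omega⟩, ?_, ?_, ?_⟩
      · rw [Nat.add_mul_mod_self_left]
        exact a0.2.1
      · apply le_antisymm
        · rw [← a1.2.2.1]; exact h1 l1
        · rw [← a0.2.2.1]; exact h1 (Nat.le_add_right _ _)
      · apply le_antisymm
        · rw [← a1.2.2.2]; exact h2 l1
        · rw [← a0.2.2.2]; exact h2 (Nat.le_add_right _ _)
  rw [himg, Finset.sum_image (by
    intro i _ j _ hij
    have hij' : m₀ + Q * i = m₀ + Q * j := hij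
    exact Nat.eq_of_mul_eq_mul_left hQ (by omega))]
  have e : ∀ j ∈ range ((m₁ - m₀) / Q + 1), ee (((m₀ + Q * j : ℕ) : ℝ) * x) = ee (m₀ * x) * ee (j * (Q * x)) := by
    intro j _
    rw [← ee_add]
    congr 1
    push_cast
    ring
  rw [Finset.sum_congr rfl e, ← Finset.mul_sum, norm_mul, norm_ee, one_mul]
  have h := norm_geom_le ((Q : ℝ) * x) (lt_of_lt_of_le hδ hx) 0 ((m₁ - m₀) / Q + 1)
  rw [zero_add, ← Finset.range_eq_Ico] at h
  refine h.trans ?_
  gcongr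

/-- **sums over an interval of `m` when `Q d ρ ∉ ℤ`**. Here `g m = ω₁ (m n % Q) ((m n + τ)/H) * conj ω₂ (m n' % Q) ((m n' + τ)/H)` is abstracted:
`g` is a function of `m % Q` and of two monotone cell indices `c₁ m, c₂ m` with values `≤ R`.
The interval `[a,a+M)` splits into `≤ 2R+1`.. pieces on which `c₁, c₂` are constant (a monotone function with values in `[0,R]` changes at most `R` times; so there are at most
`(R+1)^2` pairs of values and each pair occurs on a subinterval; `(R+1)²` pieces is also allowed below), and each piece in `Q` classes; on each the sum is geometric with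
ratio `e(Q x)`, `≤ 1/(2 nd(Q x)) ≤ 1/(2δ)`. -/
theorem cell_sum_le (Q R : ℕ) (hQ : 1 ≤ Q) (G : ℕ → ℕ → ℕ → ℂ) (hG : ∀ u v w, ‖G u v w‖ ≤ 1) (c₁ c₂ : ℕ → ℕ)
    (h1 : Monotone c₁) (h2 : Monotone c₂) (x δ : ℝ) (hδ : 0 < δ) (hx : δ ≤ nd (Q * x)) (a M : ℕ)
    (hR1 : ∀ m ∈ Ico a (a + M), c₁ m ≤ R) (hR2 : ∀ m ∈ Ico a (a + M), c₂ m ≤ R) :
    ‖∑ m ∈ Ico a (a + M), G (m % Q) (c₁ m) (c₂ m) * ee (m * x)‖ ≤ (Q : ℝ) * ((R : ℝ) + 1) ^ 2 * (1 / (2 * δ)) := by
  have hfib := Finset.sum_fiberwise_of_maps_to (s := Ico a (a + M))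
    (t := range Q ×ˢ (range (R + 1) ×ˢ range (R + 1))) (g := fun m => (m % Q, (c₁ m, c₂ m)))
    (by
      intro m hm
      rw [Finset.mem_product, Finset.mem_product, Finset.mem_range, Finset.mem_range, Finset.mem_range]
      exact ⟨Nat.mod_lt _ hQ, Nat.lt_succ_of_le (hR1 m hm), Nat.lt_succ_of_le (hR2 m hm)⟩)
    (fun m => G (m % Q) (c₁ m) (c₂ m) * ee (m * x))
  rw [← hfib]
  refine (norm_sum_le _ _).trans ?_
  have hb : ∀ p ∈ range Q ×ˢ (range (R + 1) ×ˢ range (R + 1)),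
      ‖∑ m ∈ (Ico a (a + M)).filter (fun m => (m % Q, (c₁ m, c₂ m)) = p), G (m % Q) (c₁ m) (c₂ m) * ee (m * x)‖ ≤
        1 / (2 * δ) := by
    rintro ⟨u, v, w⟩ _
    have e1 : (Ico a (a + M)).filter (fun m => (m % Q, (c₁ m, c₂ m)) = (u, (v, w))) =
        (Ico a (a + M)).filter (fun m => m % Q = u ∧ c₁ m = v ∧ c₂ m = w) := by
      ext m
      simp only [Finset.mem_filter, Prod.mk.injEq]
    rw [e1]
    have e2 : ∑ m ∈ (Ico a (a + M)).filter (fun m => m % Q = u ∧ c₁ m = v ∧ c₂ m = w),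
        G (m % Q) (c₁ m) (c₂ m) * ee (m * x) =
        G u v w * ∑ m ∈ (Ico a (a + M)).filter (fun m => m % Q = u ∧ c₁ m = v ∧ c₂ m = w), ee (m * x) := by
      rw [Finset.mul_sum]
      refine Finset.sum_congr rfl fun m hm => ?_
      obtain ⟨_, h3, h4, h5⟩ := Finset.mem_filter.mp hm
      rw [h3, h4, h5]
    rw [e2, norm_mul]
    calc ‖G u v w‖ * ‖∑ m ∈ (Ico a (a + M)).filter (fun m => m % Q = u ∧ c₁ m = v ∧ c₂ m = w), ee (m * x)‖
        ≤ 1 * ‖∑ m ∈ (Ico a (a + M)).filter (fun m => m % Q = u ∧ c₁ m = v ∧ c₂ m = w), ee (m * x)‖ :=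
          mul_le_mul_of_nonneg_right (hG u v w) (norm_nonneg _)
      _ ≤ 1 / (2 * δ) := by
          rw [one_mul]
          exact b1_piece Q c₁ c₂ h1 h2 x δ hδ hx a M u v w
  refine (Finset.sum_le_sum hb).trans (le_of_eq ?_)
  rw [Finset.sum_const, Finset.card_product, Finset.card_product, Finset.card_range, Finset.card_range, nsmul_eq_mul]
  push_cast
  ring

end Pool.Agent.LibHG31
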