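import Pool.Agent.LibHG31.B1

/-! ROW B1b: sums over `Λ` twisted by an arbitrary function of (class mod `Q`, cell of length `H`) and `e(-ρ n)`, from `VG`.
`Q = QQ b J = D0 b^J`, `H = Q * HH b L J = D0 b^(L-J)`, `X = XX b L = b^(L+3)`; number of cells `≤ X/H + 2 ≤ b^(J+3) + 2`. -/

namespace Pool.Agent.LibHG31

open Finset
open scoped ArithmeticFunction.vonMangoldt


/-- expanding a square and exchanging -/
theorem b1b_sq_expand (S T : Finset ℕ) (z : ℕ → ℕ → ℂ) (G : ℕ → ℕ → ℝ)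
    (hG : ∀ n ∈ T, ∀ n' ∈ T, ‖∑ m ∈ S, z m n * (starRingEnd ℂ) (z m n')‖ ≤ G n n') :
    ∑ m ∈ S, ‖∑ n ∈ T, z m n‖ ^ 2 ≤ ∑ n ∈ T, ∑ n' ∈ T, G n n' := by
  have e : ((∑ m ∈ S, ‖∑ n ∈ T, z m n‖ ^ 2 : ℝ) : ℂ) =
      ∑ n ∈ T, ∑ n' ∈ T, ∑ m ∈ S, z m n * (starRingEnd ℂ) (z m n') := by
    have h1 : ∀ m ∈ S, ((‖∑ n ∈ T, z m n‖ ^ 2 : ℝ) : ℂ) = ∑ n ∈ T, ∑ n' ∈ T, z m n * (starRingEnd ℂ) (z m n') := by
      intro m _
      rw [← Complex.normSq_eq_norm_sq, ← Complex.mul_conj, map_sum, Finset.sum_mul_sum]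
    rw [Complex.ofReal_sum, Finset.sum_congr rfl h1, Finset.sum_comm]
    refine Finset.sum_congr rfl fun n _ => ?_
    rw [Finset.sum_comm]
  have h0 : 0 ≤ ∑ m ∈ S, ‖∑ n ∈ T, z m n‖ ^ 2 := Finset.sum_nonneg fun _ _ => sq_nonneg _
  rw [← Real.norm_of_nonneg h0, ← Complex.norm_real, e]
  refine (norm_sum_le _ _).trans (Finset.sum_le_sum fun n hn => ?_)
  exact (norm_sum_le _ _).trans (Finset.sum_le_sum fun n' hn' => hG n hn n' hn')

/-- pairs at a given distance -/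
theorem b1b_pair_count (N : ℕ) (F : ℕ → ℝ) (hF : ∀ d, 0 ≤ F d) (n : ℕ) (hn : n ∈ Ico N (2 * N)) :
    ∑ n' ∈ Ico N (2 * N), F (Nat.dist n n') ≤ 2 * ∑ d ∈ range N, F d := by
  rw [Finset.mem_Ico] at hn
  rw [← Finset.sum_filter_add_sum_filter_not (Ico N (2 * N)) (fun n' => n' < n)]
  have h1 : ∑ n' ∈ (Ico N (2 * N)).filter (fun n' => n' < n), F (Nat.dist n n') ≤ ∑ d ∈ range N, F d := by
    have e : ∑ n' ∈ (Ico N (2 * N)).filter (fun n' => n' < n), F (Nat.dist n n') =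
        ∑ d ∈ ((Ico N (2 * N)).filter (fun n' => n' < n)).image (fun n' => n - n'), F d := by
      rw [Finset.sum_image]
      · refine Finset.sum_congr rfl fun n' hn' => ?_
        rw [Finset.mem_filter] at hn'
        rw [Nat.dist_eq_sub_of_le_right hn'.2.le]
      · intro x hx y hy hxy
        have hx2 := (Finset.mem_filter.mp (Finset.mem_coe.mp hx)).2
        have hy2 := (Finset.mem_filter.mp (Finset.mem_coe.mp hy)).2
        simp only at hxy
        omega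
    rw [e]
    refine Finset.sum_le_sum_of_subset_of_nonneg ?_ (fun _ _ _ => hF _)
    intro d hd
    obtain ⟨n', hn', rfl⟩ := Finset.mem_image.mp hd
    rw [Finset.mem_filter, Finset.mem_Ico] at hn'
    rw [Finset.mem_range]
    omega
  have h2 : ∑ n' ∈ (Ico N (2 * N)).filter (fun n' => ¬ n' < n), F (Nat.dist n n') ≤ ∑ d ∈ range N, F d := by
    have e : ∑ n' ∈ (Ico N (2 * N)).filter (fun n' => ¬ n' < n), F (Nat.dist n n') =
        ∑ d ∈ ((Ico N (2 * N)).filter (fun n' => ¬ n' < n)).image (fun n' => n' - n), F d := by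
      rw [Finset.sum_image]
      · refine Finset.sum_congr rfl fun n' hn' => ?_
        rw [Finset.mem_filter] at hn'
        rw [Nat.dist_eq_sub_of_le (not_lt.mp hn'.2)]
      · intro x hx y hy hxy
        have hx2 := (Finset.mem_filter.mp (Finset.mem_coe.mp hx)).2
        have hy2 := (Finset.mem_filter.mp (Finset.mem_coe.mp hy)).2
        simp only at hxy
        omega
    rw [e]
    refine Finset.sum_le_sum_of_subset_of_nonneg ?_ (fun _ _ _ => hF _)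
    intro d hd
    obtain ⟨n', hn', rfl⟩ := Finset.mem_image.mp hd
    rw [Finset.mem_filter, Finset.mem_Ico] at hn'
    rw [Finset.mem_range]
    omega
  linarith

theorem b1b_D0_pos (b : ℕ) (hb : 2 ≤ b) : 0 < D0 b := by
  unfold D0
  have : 2 ^ 2 ≤ b ^ 2 := Nat.pow_le_pow_left hb 2
  omega

/-- denominators of `ρ` and of `D0 ρ` -/
theorem b1b_den (b J : ℕ) (hb : 2 ≤ b) (ρ : ℚ) (hρ : ρ ∈ Rset b J) :
    (ρ * (D0 b : ℚ)).den.Coprime b ∧ (ρ * (D0 b : ℚ)).den ≤ PP J * D0 b ∧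
      ρ.den ≤ D0 b * (ρ * (D0 b : ℚ)).den := by
  obtain ⟨h0, h1, hcop, hden⟩ := Rset_den b J hb ρ hρ
  have hD := b1b_D0_pos b hb
  have hd : (ρ * (D0 b : ℚ)).den ∣ ρ.den := by
    have := Rat.mul_den_dvd ρ (D0 b : ℚ)
    simpa using this
  refine ⟨Nat.Coprime.coprime_dvd_left hd hcop, (Nat.le_of_dvd ρ.den_pos hd).trans hden, ?_⟩
  have hDQ : (D0 b : ℚ) ≠ 0 := by exact_mod_cast hD.ne'
  have hdenQ : ((ρ * (D0 b : ℚ)).den : ℚ) ≠ 0 := by exact_mod_cast (ρ * (D0 b : ℚ)).den_pos.ne'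
  have e : ρ = ((ρ * (D0 b : ℚ)).num : ℚ) / (((D0 b * (ρ * (D0 b : ℚ)).den : ℕ) : ℤ) : ℚ) := by
    have h := Rat.mul_den_eq_num (ρ * (D0 b : ℚ))
    rw [← h]
    push_cast
    field_simp
  have hdvd : (ρ.den : ℤ) ∣ ((D0 b * (ρ * (D0 b : ℚ)).den : ℕ) : ℤ) := by
    have h2 := Rat.den_dvd (ρ * (D0 b : ℚ)).num ((D0 b * (ρ * (D0 b : ℚ)).den : ℕ) : ℤ)
    rw [Rat.divInt_eq_div, ← e] at h2
    exact h2
  exact Nat.le_of_dvd (Nat.mul_pos hD (ρ * (D0 b : ℚ)).den_pos) (Int.natCast_dvd_natCast.mp hdvd)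

theorem b1b_nd (b J : ℕ) (hb : 2 ≤ b) (ρ : ℚ) (hρ : ρ ∈ Rset b J) (d : ℤ)
    (hd : ¬ ((ρ * (D0 b : ℚ)).den : ℤ) ∣ d) :
    1 / ((PP J * D0 b : ℕ) : ℝ) ≤ nd ((QQ b J : ℝ) * ((ρ : ℝ) * d)) := by
  obtain ⟨hcop, hle, _⟩ := b1b_den b J hb ρ hρ
  obtain ⟨y0, hy0⟩ : ∃ y0 : ℚ, y0 = ρ * (D0 b : ℚ) := ⟨_, rfl⟩
  rw [← hy0] at hd hcop hle
  have hy0pos := y0.den_pos
  obtain ⟨z, hz⟩ : ∃ z : ℤ, z = (b : ℤ) ^ J * d := ⟨_, rfl⟩
  obtain ⟨y, hy⟩ : ∃ y : ℚ, y = y0 * (z : ℚ) := ⟨_, rfl⟩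
  have hyd : y.den ∣ y0.den := by
    have := Rat.mul_den_dvd y0 (z : ℚ)
    rw [← hy] at this
    simpa using this
  have hy1 : y.den ≠ 1 := by
    intro h
    have h2 := Rat.coe_int_num_of_den_eq_one h
    have h3 : (y0.num : ℚ) * (z : ℚ) = y.num * y0.den := by
      rw [h2, ← Rat.mul_den_eq_num y0, hy]
      ring
    have h4 : y0.num * z = y.num * y0.den := by exact_mod_cast h3
    have h5 : (y0.den : ℤ) ∣ y0.num * z := ⟨y.num, by rw [h4]; ring⟩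
    have h6 : IsCoprime (y0.den : ℤ) y0.num := by
      rw [Int.isCoprime_iff_nat_coprime]
      simpa using y0.reduced.symm
    have h7 := h6.dvd_of_dvd_mul_left h5
    rw [hz] at h7
    have h8 : IsCoprime (y0.den : ℤ) ((b : ℤ) ^ J) := (Nat.isCoprime_iff_coprime.mpr hcop).pow_right
    exact hd (h8.dvd_of_dvd_mul_left h7)
  have hnd := nd_rat y y0.den hy0pos hyd hy1
  have e : (QQ b J : ℝ) * ((ρ : ℝ) * d) = (y : ℝ) := by
    rw [hy, hy0, hz]
    unfold QQ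
    push_cast
    ring
  rw [e]
  refine le_trans ?_ hnd
  have h1 : (0 : ℝ) < y0.den := by exact_mod_cast hy0pos
  have h2 : (y0.den : ℝ) ≤ ((PP J * D0 b : ℕ) : ℝ) := by exact_mod_cast hle
  exact one_div_le_one_div_of_le h1 h2

/-- number of cells -/
theorem b1b_cell (b L J k τ : ℕ) (hb : 2 ≤ b) (h2J : 2 * J ≤ L) (hk : k < XX b L)
    (hτ : τ < QQ b J * HH b L J) : (k + τ) / (QQ b J * HH b L J) ≤ b ^ (J + 3) + 1 := by
  have hD := b1b_D0_pos b hb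
  have hX : XX b L ≤ QQ b J * HH b L J * b ^ (J + 3) := by
    unfold XX QQ HH
    have e : D0 b * b ^ J * b ^ (L - 2 * J) * b ^ (J + 3) = D0 b * b ^ (L + 3) := by
      rw [mul_assoc, mul_assoc, ← pow_add, ← pow_add]
      congr 2
      omega
    rw [e]
    exact Nat.le_mul_of_pos_left _ hD
  apply Nat.le_of_lt_succ
  rw [Nat.div_lt_iff_lt_mul (by omega)]
  have e2 : (b ^ (J + 3) + 1).succ * (QQ b J * HH b L J) =
      QQ b J * HH b L J * b ^ (J + 3) + 2 * (QQ b J * HH b L J) := by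
    rw [Nat.succ_eq_add_one]
    ring
  rw [e2]
  omega

/-- the bound of `cell_sum_le` -/
noncomputable def b1bT (b J : ℕ) : ℝ :=
  (QQ b J : ℝ) * (((b ^ (J + 3) + 1 : ℕ) : ℝ) + 1) ^ 2 * (1 / (2 * (1 / ((PP J * D0 b : ℕ) : ℝ))))

/-- the twisted function -/
noncomputable def b1bf (b L J : ℕ) (ρ : ℚ) (τ : ℕ) (ω : ℕ → ℕ → ℂ) (n : ℕ) : ℂ :=
  if n < XX b L then ω (n % QQ b J) ((n + τ) / (QQ b J * HH b L J)) * ee (-((ρ : ℝ) * n)) else 0

theorem b1bf_norm (b L J : ℕ) (ρ : ℚ) (τ : ℕ) (ω : ℕ → ℕ → ℂ) (hω : ∀ u v, ‖ω u v‖ ≤ 1) (n : ℕ) :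
    ‖b1bf b L J ρ τ ω n‖ ≤ 1 := by
  unfold b1bf
  split_ifs
  · rw [norm_mul, norm_ee, mul_one]
    exact hω _ _
  · simp

theorem b1b_QQ_pos (b J : ℕ) (hb : 2 ≤ b) : 1 ≤ QQ b J := by
  unfold QQ
  exact Nat.mul_pos (b1b_D0_pos b hb) (Nat.pow_pos (by omega))

theorem b1b_PD_pos (b J : ℕ) (hb : 2 ≤ b) : 0 < PP J * D0 b := by
  apply Nat.mul_pos _ (b1b_D0_pos b hb)
  unfold PP
  exact Nat.pow_pos (by omega)

/-- type I -/
theorem b1b_typeI (b : ℕ) (hb : 2 ≤ b) (L J : ℕ) (h2J : 2 * J ≤ L) (ρ : ℚ) (hρ : ρ ∈ Rset b J) (τ : ℕ)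
    (ω : ℕ → ℕ → ℂ) (hτ : τ < QQ b J * HH b L J) (hω : ∀ u v, ‖ω u v‖ ≤ 1) (m Y : ℕ) (hm : 1 ≤ m)
    (hY : Y ≤ XX b L) :
    ‖∑ k ∈ (range Y).filter (fun k => m ∣ k), b1bf b L J ρ τ ω k‖ ≤
      if (ρ * (D0 b : ℚ)).den ∣ m then (XX b L : ℝ) / m + 1 else b1bT b J := by
  have hm0 : (0 : ℝ) < m := by exact_mod_cast hm
  obtain ⟨K, hK⟩ : ∃ K : ℕ, K = (Y + m - 1) / m := ⟨_, rfl⟩
  have hlt : ∀ j, m * j < Y ↔ j < K := by
    intro j
    rw [hK, ← Nat.succ_le_iff, ← Nat.succ_le_iff, Nat.le_div_iff_mul_le (by omega), Nat.succ_mul, mul_comm j m]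
    omega
  have e1 : (range Y).filter (fun k => m ∣ k) = (range K).image (fun j => m * j) := by
    ext k
    rw [Finset.mem_filter, Finset.mem_range, Finset.mem_image]
    constructor
    · rintro ⟨h1, j, rfl⟩
      exact ⟨j, Finset.mem_range.mpr ((hlt j).mp h1), rfl⟩
    · rintro ⟨j, hj, rfl⟩
      exact ⟨(hlt j).mpr (Finset.mem_range.mp hj), dvd_mul_right m j⟩
  rw [e1, Finset.sum_image (fun x _ y _ hxy => Nat.eq_of_mul_eq_mul_left (by omega) hxy)]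
  split_ifs with hdiv
  · refine (norm_sum_le _ _).trans ?_
    have h1 : ∑ j ∈ range K, ‖b1bf b L J ρ τ ω (m * j)‖ ≤ ∑ j ∈ range K, (1 : ℝ) :=
      Finset.sum_le_sum fun j _ => b1bf_norm b L J ρ τ ω hω _
    refine h1.trans ?_
    rw [Finset.sum_const, Finset.card_range, nsmul_eq_mul, mul_one]
    have h1 : K * m ≤ Y + m - 1 := by
      rw [hK]
      exact Nat.div_mul_le_self _ _
    have h2 : (K : ℝ) * m ≤ (XX b L : ℕ) + m := by
      have : K * m ≤ XX b L + m := by omega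
      exact_mod_cast this
    have h3 : ((XX b L : ℕ) : ℝ) / m + 1 = (((XX b L : ℕ) : ℝ) + m) / m := by field_simp
    rw [h3, le_div_iff₀ hm0]
    exact h2
  · have e2 : ∀ j ∈ range K, b1bf b L J ρ τ ω (m * j) =
        (fun u v (_ : ℕ) => ω ((m * u) % QQ b J) v) (j % QQ b J)
          ((fun j => (m * j + τ) / (QQ b J * HH b L J)) j) ((fun _ => 0) j) * ee (j * (-((ρ : ℝ) * m))) := by
      intro j hj
      have hj1 : m * j < XX b L := lt_of_lt_of_le ((hlt j).mpr (Finset.mem_range.mp hj)) hY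
      unfold b1bf
      rw [if_pos hj1]
      show ω ((m * j) % QQ b J) ((m * j + τ) / (QQ b J * HH b L J)) * ee (-((ρ : ℝ) * ((m * j : ℕ) : ℝ))) =
        ω ((m * (j % QQ b J)) % QQ b J) ((m * j + τ) / (QQ b J * HH b L J)) * ee (j * (-((ρ : ℝ) * m)))
      rw [Nat.mul_mod_mod]
      congr 2
      push_cast
      ring
    rw [Finset.sum_congr rfl e2]
    have hcell := cell_sum_le (QQ b J) (b ^ (J + 3) + 1) (b1b_QQ_pos b J hb)
      (fun u v (_ : ℕ) => ω ((m * u) % QQ b J) v) (fun u v _ => hω _ _)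
      (fun j => (m * j + τ) / (QQ b J * HH b L J)) (fun _ => 0)
      (fun i j hij => Nat.div_le_div_right (Nat.add_le_add_right (Nat.mul_le_mul_left m hij) τ))
      (fun _ _ _ => le_rfl) (-((ρ : ℝ) * m)) (1 / ((PP J * D0 b : ℕ) : ℝ))
      (by
        have : (0 : ℝ) < ((PP J * D0 b : ℕ) : ℝ) := by exact_mod_cast b1b_PD_pos b J hb
        positivity)
      (by
        have h := b1b_nd b J hb ρ hρ (m : ℤ) (fun h => hdiv (Int.natCast_dvd_natCast.mp h))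
        rw [mul_neg, nd_neg]
        push_cast at h ⊢
        exact h)
      0 K
      (by
        intro j hj
        rw [Finset.mem_Ico, zero_add] at hj
        exact b1b_cell b L J (m * j) τ hb h2J (lt_of_lt_of_le ((hlt j).mpr hj.2) hY) hτ)
      (by
        intro j _
        exact Nat.zero_le _)
    rw [zero_add, ← Finset.range_eq_Ico] at hcell
    exact hcell

/-- type II, inner sum -/
theorem b1b_inner (b : ℕ) (hb : 2 ≤ b) (L J : ℕ) (h2J : 2 * J ≤ L) (ρ : ℚ) (hρ : ρ ∈ Rset b J) (τ : ℕ)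
    (ω : ℕ → ℕ → ℂ) (hτ : τ < QQ b J * HH b L J) (hω : ∀ u v, ‖ω u v‖ ≤ 1) (M n n' : ℕ)
    (β : ℕ → ℂ) (hβ : ∀ n, ‖β n‖ ≤ 1) (hn : 1 ≤ n) (hn' : 1 ≤ n') :
    ‖∑ m ∈ Ico M (2 * M), (β n * b1bf b L J ρ τ ω (m * n)) * (starRingEnd ℂ) (β n' * b1bf b L J ρ τ ω (m * n'))‖ ≤
      if (ρ * (D0 b : ℚ)).den ∣ Nat.dist n n' then (M : ℝ) else b1bT b J := by
  split_ifs with hdiv
  · refine (norm_sum_le _ _).trans ?_
    have h1 : ∀ m ∈ Ico M (2 * M), ‖(β n * b1bf b L J ρ τ ω (m * n)) *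
        (starRingEnd ℂ) (β n' * b1bf b L J ρ τ ω (m * n'))‖ ≤ 1 := by
      intro m _
      rw [norm_mul, RCLike.norm_conj, norm_mul, norm_mul]
      have a1 := hβ n
      have a2 := hβ n'
      have a3 := b1bf_norm b L J ρ τ ω hω (m * n)
      have a4 := b1bf_norm b L J ρ τ ω hω (m * n')
      exact mul_le_one₀ (mul_le_one₀ a1 (norm_nonneg _) a3) (by positivity) (mul_le_one₀ a2 (norm_nonneg _) a4)
    refine (Finset.sum_le_sum h1).trans ?_
    rw [Finset.sum_const, Nat.card_Ico, nsmul_eq_mul, mul_one]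
    have : 2 * M - M = M := by omega
    rw [this]
  · obtain ⟨x, hx⟩ : ∃ x : ℝ, x = -((ρ : ℝ) * (((n : ℤ) - (n' : ℤ) : ℤ) : ℝ)) := ⟨_, rfl⟩
    obtain ⟨w, hw⟩ : ∃ w : ℕ, w = max n n' := ⟨_, rfl⟩
    have hw1 : 1 ≤ w := by omega
    obtain ⟨g, hg⟩ : ∃ g : ℕ → ℂ, g = fun m => (fun u v w => ω ((u * n) % QQ b J) v *
        (starRingEnd ℂ) (ω ((u * n') % QQ b J) w)) (m % QQ b J)
          ((fun m => (m * n + τ) / (QQ b J * HH b L J)) m) ((fun m => (m * n' + τ) / (QQ b J * HH b L J)) m) *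
          ee (m * x) := ⟨_, rfl⟩
    have e1 : ∀ m ∈ Ico M (2 * M), (β n * b1bf b L J ρ τ ω (m * n)) *
        (starRingEnd ℂ) (β n' * b1bf b L J ρ τ ω (m * n')) =
        (β n * (starRingEnd ℂ) (β n')) * (if m * w < XX b L then g m else 0) := by
      intro m _
      have hiff : m * w < XX b L ↔ (m * n < XX b L ∧ m * n' < XX b L) := by
        constructor
        · intro h
          have a1 : m * n ≤ m * w := Nat.mul_le_mul_left m (by omega)
          have a2 : m * n' ≤ m * w := Nat.mul_le_mul_left m (by omega)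
          omega
        · rintro ⟨h1, h2⟩
          rcases le_total n n' with h | h
          · have : w = n' := by omega
            rw [this]; exact h2
          · have : w = n := by omega
            rw [this]; exact h1
      unfold b1bf
      by_cases h1 : m * n < XX b L
      · by_cases h2 : m * n' < XX b L
        · rw [if_pos h1, if_pos h2, if_pos (hiff.mpr ⟨h1, h2⟩), hg, map_mul, map_mul, conj_ee]
          show _ = (β n * (starRingEnd ℂ) (β n')) * ((ω ((m % QQ b J * n) % QQ b J) ((m * n + τ) / (QQ b J * HH b L J)) *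
            (starRingEnd ℂ) (ω ((m % QQ b J * n') % QQ b J) ((m * n' + τ) / (QQ b J * HH b L J)))) * ee (m * x))
          rw [Nat.mod_mul_mod, Nat.mod_mul_mod]
          have e3 : ee (m * x) = ee (-((ρ : ℝ) * ((m * n : ℕ) : ℝ))) * ee (-(-((ρ : ℝ) * ((m * n' : ℕ) : ℝ)))) := by
            rw [← ee_add]
            congr 1
            rw [hx]
            push_cast
            ring
          rw [e3]
          ring
        · rw [if_neg h2, if_neg (fun h => h2 (hiff.mp h).2)]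
          simp
      · rw [if_neg h1, if_neg (fun h => h1 (hiff.mp h).1)]
        simp
    rw [Finset.sum_congr rfl e1, ← Finset.mul_sum, norm_mul, ← Finset.sum_filter]
    have hbb : ‖β n * (starRingEnd ℂ) (β n')‖ ≤ 1 := by
      rw [norm_mul, RCLike.norm_conj]
      exact mul_le_one₀ (hβ n) (norm_nonneg _) (hβ n')
    obtain ⟨K, hK⟩ : ∃ K : ℕ, (Ico M (2 * M)).filter (fun m => m * w < XX b L) = Ico M (M + K) := by
      refine ⟨min M ((XX b L + w - 1) / w - M), ?_⟩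
      ext m
      have hlt : m * w < XX b L ↔ m < (XX b L + w - 1) / w := by
        rw [← Nat.succ_le_iff, ← Nat.succ_le_iff, Nat.le_div_iff_mul_le (by omega), Nat.succ_mul]
        omega
      rw [Finset.mem_filter, Finset.mem_Ico, Finset.mem_Ico, hlt]
      omega
    have hKlt : ∀ m ∈ Ico M (M + K), m * w < XX b L := by
      intro m hm
      rw [← hK] at hm
      exact (Finset.mem_filter.mp hm).2
    rw [hK]
    have hcell := cell_sum_le (QQ b J) (b ^ (J + 3) + 1) (b1b_QQ_pos b J hb)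
      (fun u v w => ω ((u * n) % QQ b J) v * (starRingEnd ℂ) (ω ((u * n') % QQ b J) w))
      (fun u v w => by
        show ‖ω ((u * n) % QQ b J) v * (starRingEnd ℂ) (ω ((u * n') % QQ b J) w)‖ ≤ 1
        rw [norm_mul, RCLike.norm_conj]
        exact mul_le_one₀ (hω _ _) (norm_nonneg _) (hω _ _))
      (fun m => (m * n + τ) / (QQ b J * HH b L J)) (fun m => (m * n' + τ) / (QQ b J * HH b L J))
      (fun i j hij => Nat.div_le_div_right (Nat.add_le_add_right (Nat.mul_le_mul_right n hij) τ))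
      (fun i j hij => Nat.div_le_div_right (Nat.add_le_add_right (Nat.mul_le_mul_right n' hij) τ))
      x (1 / ((PP J * D0 b : ℕ) : ℝ))
      (by
        have : (0 : ℝ) < ((PP J * D0 b : ℕ) : ℝ) := by exact_mod_cast b1b_PD_pos b J hb
        positivity)
      (by
        have h := b1b_nd b J hb ρ hρ ((n : ℤ) - (n' : ℤ)) (by
          intro h
          apply hdiv
          rcases le_total n n' with h3 | h3
          · rw [Nat.dist_eq_sub_of_le h3]
            have h4 : ((n' - n : ℕ) : ℤ) = -((n : ℤ) - n') := by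
              push_cast [h3]
              ring
            apply Int.natCast_dvd_natCast.mp
            rw [h4]
            exact (dvd_neg).mpr h
          · rw [Nat.dist_eq_sub_of_le_right h3]
            have h4 : ((n - n' : ℕ) : ℤ) = (n : ℤ) - n' := by
              push_cast [h3]
              ring
            apply Int.natCast_dvd_natCast.mp
            rw [h4]
            exact h)
        rw [hx, mul_neg, nd_neg]
        exact h)
      M K
      (by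
        intro m hm
        refine b1b_cell b L J (m * n) τ hb h2J (lt_of_le_of_lt (Nat.mul_le_mul_left m ?_) (hKlt m hm)) hτ
        omega)
      (by
        intro m hm
        refine b1b_cell b L J (m * n') τ hb h2J (lt_of_le_of_lt (Nat.mul_le_mul_left m ?_) (hKlt m hm)) hτ
        omega)
    rw [hg]
    calc _ ≤ 1 * ‖∑ m ∈ Ico M (M + K), ((fun u v w => ω ((u * n) % QQ b J) v *
        (starRingEnd ℂ) (ω ((u * n') % QQ b J) w)) (m % QQ b J)
          ((fun m => (m * n + τ) / (QQ b J * HH b L J)) m) ((fun m => (m * n' + τ) / (QQ b J * HH b L J)) m) *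
          ee (m * x))‖ := mul_le_mul_of_nonneg_right hbb (norm_nonneg _)
      _ ≤ _ := by rw [one_mul]; exact hcell

/-- the multiples of `q'` -/
theorem b1b_harm (X : ℝ) (hX : 1 ≤ X) (V q' : ℕ) (hq' : 1 ≤ q') (hV : (V : ℝ) ≤ X) :
    ∑ m ∈ (Icc 1 V).filter (fun m => q' ∣ m), X / (m : ℝ) ≤ X / q' * (1 + Real.log X) := by
  have hq0 : (0 : ℝ) < q' := by exact_mod_cast hq'
  have e1 : (Icc 1 V).filter (fun m => q' ∣ m) = (range (V / q')).image (fun i => q' * (i + 1)) := by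
    ext m
    rw [Finset.mem_filter, Finset.mem_Icc, Finset.mem_image]
    constructor
    · rintro ⟨⟨h1, h2⟩, j, rfl⟩
      have hj : 1 ≤ j := by
        rcases Nat.eq_zero_or_pos j with h | h
        · rw [h] at h1; omega
        · exact h
      refine ⟨j - 1, ?_, ?_⟩
      · rw [Finset.mem_range]
        have : j ≤ V / q' := by
          rw [Nat.le_div_iff_mul_le (by omega), mul_comm]
          exact h2
        omega
      · congr 1
        omega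
    · rintro ⟨i, hi, rfl⟩
      rw [Finset.mem_range, ← Nat.succ_le_iff, Nat.le_div_iff_mul_le (by omega), mul_comm] at hi
      refine ⟨⟨?_, hi⟩, dvd_mul_right _ _⟩
      exact Nat.mul_pos (by omega) (Nat.succ_pos i)
  rw [e1, Finset.sum_image (by
    intro i _ j _ hij
    have h := Nat.eq_of_mul_eq_mul_left (by omega) hij
    omega)]
  have e2 : ∀ i ∈ range (V / q'), X / (((q' * (i + 1) : ℕ)) : ℝ) = X / q' * ((i : ℝ) + 1)⁻¹ := by
    intro i _
    push_cast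
    rw [← div_eq_mul_inv, div_div]
  rw [Finset.sum_congr rfl e2, ← Finset.mul_sum]
  apply mul_le_mul_of_nonneg_left _ (by positivity)
  have h4 := harmonic_le_one_add_log (V / q')
  have e3 : ((harmonic (V / q') : ℚ) : ℝ) = ∑ j ∈ range (V / q'), ((j : ℝ) + 1)⁻¹ := by
    rw [harmonic]
    push_cast
    rfl
  rw [e3] at h4
  refine h4.trans ?_
  rcases Nat.eq_zero_or_pos (V / q') with h0 | h0
  · rw [h0]
    have := Real.log_nonneg hX
    simp
    exact this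
  · have h3 : ((V / q' : ℕ) : ℝ) ≤ X := by
      have : ((V / q' : ℕ) : ℝ) ≤ V := by exact_mod_cast Nat.div_le_self V q'
      linarith
    have := Real.log_le_log (by exact_mod_cast h0) h3
    linarith

/-- number of multiples below `N` -/
theorem b1b_mult (N q' : ℕ) (hq' : 1 ≤ q') : (((range N).filter (fun d => q' ∣ d)).card : ℝ) ≤ (N : ℝ) / q' + 1 := by
  have hq0 : (0 : ℝ) < q' := by exact_mod_cast hq'
  have h1 : ((range N).filter (fun d => q' ∣ d)).card ≤ N / q' + 1 := by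
    have hsub : (range N).filter (fun d => q' ∣ d) ⊆ (range (N / q' + 1)).image (fun i => q' * i) := by
      intro d hd
      rw [Finset.mem_filter, Finset.mem_range] at hd
      obtain ⟨hd1, j, rfl⟩ := hd
      rw [Finset.mem_image]
      refine ⟨j, ?_, rfl⟩
      rw [Finset.mem_range, Nat.lt_succ_iff, Nat.le_div_iff_mul_le (by omega), mul_comm]
      exact hd1.le
    refine (Finset.card_le_card hsub).trans (Finset.card_image_le.trans ?_)
    rw [Finset.card_range]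
  have h2 : (((range N).filter (fun d => q' ∣ d)).card : ℝ) ≤ ((N / q' + 1 : ℕ) : ℝ) := by exact_mod_cast h1
  refine h2.trans ?_
  push_cast
  have := Nat.cast_div_le (α := ℝ) (m := N) (n := q')
  linarith

theorem b1bT_nonneg (b J : ℕ) : 0 ≤ b1bT b J := by
  unfold b1bT
  positivity

/-- size of `T` -/
theorem b1bT_le (b J : ℕ) (hb : 2 ≤ b) : 1 + b1bT b J ≤ (b : ℝ) ^ (4 * J + 12) := by
  have hb2 : (2 : ℝ) ≤ b := by exact_mod_cast hb
  have hb1 : (1 : ℝ) ≤ b := by linarith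
  have hD : (D0 b : ℝ) ≤ (b : ℝ) ^ 2 := by
    have : D0 b ≤ b ^ 2 := by unfold D0; omega
    exact_mod_cast this
  have hD0 : (0 : ℝ) ≤ D0 b := Nat.cast_nonneg _
  have hP : (PP J : ℝ) ≤ (b : ℝ) ^ J := by
    have : PP J ≤ b ^ J := by
      unfold PP
      calc 2 ^ (J / 4) ≤ 2 ^ J := Nat.pow_le_pow_right (by omega) (Nat.div_le_self J 4)
        _ ≤ b ^ J := Nat.pow_le_pow_left hb J
    exact_mod_cast this
  have hP0 : (0 : ℝ) ≤ PP J := Nat.cast_nonneg _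
  have hR : ((b ^ (J + 3) + 1 : ℕ) : ℝ) + 1 ≤ 2 * (b : ℝ) ^ (J + 3) := by
    push_cast
    have : (2 : ℝ) ≤ (b : ℝ) ^ (J + 3) := by
      calc (2 : ℝ) ≤ b := hb2
        _ = (b : ℝ) ^ 1 := (pow_one _).symm
        _ ≤ (b : ℝ) ^ (J + 3) := pow_le_pow_right₀ hb1 (by omega)
    linarith
  have e : b1bT b J = ((D0 b : ℝ) * (b : ℝ) ^ J) * (((b ^ (J + 3) + 1 : ℕ) : ℝ) + 1) ^ 2 * ((PP J : ℝ) * D0 b / 2) := by
    unfold b1bT QQ
    push_cast
    congr 1
    rw [mul_one_div, one_div_div]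
  have h1 : b1bT b J ≤ ((b : ℝ) ^ 2 * (b : ℝ) ^ J) * (2 * (b : ℝ) ^ (J + 3)) ^ 2 * ((b : ℝ) ^ J * (b : ℝ) ^ 2 / 2) := by
    rw [e]
    gcongr
  have e2 : ((b : ℝ) ^ 2 * (b : ℝ) ^ J) * (2 * (b : ℝ) ^ (J + 3)) ^ 2 * ((b : ℝ) ^ J * (b : ℝ) ^ 2 / 2) =
      2 * (b : ℝ) ^ (4 * J + 10) := by
    ring
  have h3 : (1 : ℝ) ≤ (b : ℝ) ^ (4 * J + 10) := one_le_pow₀ hb1
  have e3 : (b : ℝ) ^ (4 * J + 12) = (b : ℝ) ^ 2 * (b : ℝ) ^ (4 * J + 10) := by ring
  have h4 : (4 : ℝ) ≤ (b : ℝ) ^ 2 := by nlinarith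
  rw [e3]
  rw [e2] at h1
  nlinarith

/-- **(B1)**. `ρ ∈ Rset`, `ρ ≠ 0`: `D0 ρ ∈ (0,1)` has denominator `q' ≥ 2` coprime to `b`, `q ≤ D0 q'` (`q = den ρ`), and `Q ρ d = D0 b^J ρ d` is an integer iff `q' ∣ d`;
otherwise `nd ≥ 1/q' ≥ 1/(P D0)`.
`VG` with `f n = ω (n % Q) ((n + τ)/H) e(-ρ n)` for `n < X`, `U = b^(L/10)`.
Type I: `∑_{k<Y, m ∣ k} f k = ∑_{j < ⌈Y/m⌉} f(m j)`: if `q' ∤ m`: `cell_sum_le` (with `c₂ = 0`): `≤ Q (b^(J+3)+3)² P D0`; if `q' ∣ m`: `≤ X/m + 1`.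
Sum over `m ≤ U²`: `≤ U² Q (b^(J+3)+3)² P D0 + (X/q')(1 + log X) + U²`.
Type II (`U ≤ M ≤ N`, `M N ≤ X`): expand the square; for `n, n'` with `q' ∤ n - n'`: `cell_sum_le` (the range `m max(n,n') < X` is an interval),
else trivially `M`; the number of pairs with `q' ∣ n - n'` is `≤ N (N/q' + 1)·2`. Total `≤ N² Q(b^(J+3)+3)² P D0 + 2 N(N/q'+1) M ≤ N X (2/q' + 2/U + Q(..)/U)`.
With `100 J ≤ L` everything is `≤ C b^L L^9 (q^(-1/4) + b^(-L/50))` (`Q (b^(J+3)+3)² P D0 ≤ C b^(4J) ≤ C b^(L/25)`, `U ≥ b^(L/10 - 1)`). -/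
theorem X1_le (b : ℕ) (hb : 2 ≤ b) : ∃ C : ℝ, 0 < C ∧ ∀ (L J : ℕ), 1 ≤ J → 100 * J ≤ L →
    ∀ ρ ∈ Rset b J, ρ ≠ 0 → ∀ (τ : ℕ) (ω : ℕ → ℕ → ℂ), τ < QQ b J * HH b L J → (∀ u v, ‖ω u v‖ ≤ 1) →
    ‖∑ n ∈ range (XX b L), ((Λ n : ℝ) : ℂ) * (ω (n % QQ b J) ((n + τ) / (QQ b J * HH b L J)) * ee (-((ρ : ℝ) * n)))‖ ≤
      C * (b : ℝ) ^ L * (L : ℝ) ^ 9 * (((ρ.den : ℝ)) ^ (-(1 / 4 : ℝ)) + (b : ℝ) ^ (-(L : ℝ) / 200)) := by
  obtain ⟨C1, hC1, H1⟩ := VG
  obtain ⟨lam, hlam⟩ : ∃ lam : ℝ, lam = Real.log b := ⟨_, rfl⟩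
  have hb2 : (2 : ℝ) ≤ b := by exact_mod_cast hb
  have hb1 : (1 : ℝ) ≤ b := by linarith
  have hb0 : (0 : ℝ) < b := by linarith
  have hlam0 : 0 < lam := by rw [hlam]; exact Real.log_pos (by linarith)
  refine ⟨C1 * (4 * lam) ^ 8 * (1 + 4 * lam) * (2 * (b : ℝ) ^ 18), by positivity, ?_⟩
  intro L J hJ hJL ρ hρ _ τ ω hτ hω
  have h2J : 2 * J ≤ L := by omega
  obtain ⟨q, hq⟩ : ∃ q, q = ρ.den := ⟨_, rfl⟩
  obtain ⟨q', hq'⟩ : ∃ q', q' = (ρ * (D0 b : ℚ)).den := ⟨_, rfl⟩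
  obtain ⟨_, _, hqq⟩ := b1b_den b J hb ρ hρ
  rw [← hq, ← hq'] at hqq
  have hq'1 : 1 ≤ q' := by rw [hq']; exact (ρ * (D0 b : ℚ)).den_pos
  have hq1 : 1 ≤ q := by rw [hq]; exact ρ.den_pos
  have hq0 : (0 : ℝ) < q := by exact_mod_cast hq1
  have hq'0 : (0 : ℝ) < q' := by exact_mod_cast hq'1
  obtain ⟨T, hT⟩ : ∃ T, T = b1bT b J := ⟨_, rfl⟩
  have hT0 : 0 ≤ T := by rw [hT]; exact b1bT_nonneg b J
  have hTle : 1 + T ≤ (b : ℝ) ^ (4 * J + 12) := by rw [hT]; exact b1bT_le b J hb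
  obtain ⟨V, hV⟩ : ∃ V, V = L / 10 := ⟨_, rfl⟩
  obtain ⟨U, hU⟩ : ∃ U, U = b ^ V := ⟨_, rfl⟩
  obtain ⟨X, hX⟩ : ∃ X, X = XX b L := ⟨_, rfl⟩
  have hU2 : 2 ≤ U := by
    rw [hU]
    calc 2 ≤ b := hb
      _ = b ^ 1 := (pow_one b).symm
      _ ≤ b ^ V := Nat.pow_le_pow_right (by omega) (by omega)
  have hUX : U ^ 2 ≤ X := by
    rw [hU, hX]
    unfold XX
    rw [← pow_mul]
    exact Nat.pow_le_pow_right (by omega) (by omega)
  have hU0 : (0 : ℝ) < U := by exact_mod_cast (by omega : 0 < U)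
  have hX1 : (1 : ℝ) ≤ X := by exact_mod_cast (by nlinarith : 1 ≤ X)
  have hX0 : (0 : ℝ) < X := by linarith
  obtain ⟨E2, hE2⟩ : ∃ E2 : ℝ, E2 = min 1 (2 / q' + 2 * (1 + T) / U) := ⟨_, rfl⟩
  have hE20 : 0 < E2 := by
    rw [hE2]
    exact lt_min one_pos (by positivity)
  obtain ⟨B, hB⟩ : ∃ B : ℕ → ℝ, B = fun m : ℕ => (if q' ∣ m then (X : ℝ) / m + 1 else T) := ⟨_, rfl⟩
  have hB0 : ∀ m, 0 ≤ B m := by
    intro m
    rw [hB]
    show 0 ≤ (if q' ∣ m then (X : ℝ) / m + 1 else T)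
    split_ifs
    · positivity
    · exact hT0
  have hVG := H1 X U (b1bf b L J ρ τ ω) B E2 hU2 hUX (b1bf_norm b L J ρ τ ω hω)
    (by
      intro n hn
      unfold b1bf
      rw [if_neg (by omega)])
    hB0
    (by
      intro m hm Y hY
      have h := b1b_typeI b hb L J h2J ρ hρ τ ω hτ hω m Y (Finset.mem_Icc.mp hm).1 (by rw [← hX]; exact hY)
      rw [hB, hT, hX, hq']
      exact h)
    hE20 (by rw [hE2]; exact min_le_left _ _)
    (by
      intro M N hUM hMN hMNX β hβ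
      have hM1 : 1 ≤ M := by omega
      have hN1 : 1 ≤ N := by omega
      have hN0 : (0 : ℝ) < N := by exact_mod_cast hN1
      have hM0 : (0 : ℝ) < M := by exact_mod_cast hM1
      have hMNr : (M : ℝ) * N ≤ X := by exact_mod_cast hMNX
      have hUMr : (U : ℝ) ≤ M := by exact_mod_cast hUM
      have hMNr2 : (M : ℝ) ≤ N := by exact_mod_cast hMN
      rcases min_choice 1 (2 / (q' : ℝ) + 2 * (1 + T) / U) with h | h
      · rw [hE2, h, one_mul]
        have hb3 : ∀ m ∈ Ico M (2 * M), ‖∑ n ∈ Ico N (2 * N), β n * b1bf b L J ρ τ ω (m * n)‖ ^ 2 ≤ (N : ℝ) ^ 2 := by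
          intro m _
          have h1 : ‖∑ n ∈ Ico N (2 * N), β n * b1bf b L J ρ τ ω (m * n)‖ ≤ N := by
            refine (norm_sum_le _ _).trans ?_
            have h2 : ∑ n ∈ Ico N (2 * N), ‖β n * b1bf b L J ρ τ ω (m * n)‖ ≤ ∑ n ∈ Ico N (2 * N), (1 : ℝ) := by
              refine Finset.sum_le_sum fun n _ => ?_
              rw [norm_mul]
              exact mul_le_one₀ (hβ n) (norm_nonneg _) (b1bf_norm b L J ρ τ ω hω _)
            refine h2.trans ?_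
            rw [Finset.sum_const, Nat.card_Ico, nsmul_eq_mul, mul_one]
            have : 2 * N - N = N := by omega
            rw [this]
          exact pow_le_pow_left₀ (norm_nonneg _) h1 2
        refine (Finset.sum_le_sum hb3).trans ?_
        rw [Finset.sum_const, Nat.card_Ico, nsmul_eq_mul]
        have e3 : 2 * M - M = M := by omega
        rw [e3]
        nlinarith
      · rw [hE2, h]
        obtain ⟨F, hF⟩ : ∃ F : ℕ → ℝ, F = fun d => (if q' ∣ d then (M : ℝ) else T) := ⟨_, rfl⟩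
        have hF0 : ∀ d, 0 ≤ F d := by
          intro d
          rw [hF]
          show 0 ≤ (if q' ∣ d then (M : ℝ) else T)
          split_ifs
          · exact hM0.le
          · exact hT0
        have h1 := b1b_sq_expand (Ico M (2 * M)) (Ico N (2 * N))
          (fun m n => β n * b1bf b L J ρ τ ω (m * n)) (fun n n' => F (Nat.dist n n'))
          (by
            intro n hn n' hn'
            rw [Finset.mem_Ico] at hn hn'
            have := b1b_inner b hb L J h2J ρ hρ τ ω hτ hω M n n' β hβ (by omega) (by omega)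
            rw [hF, hT, hq']
            exact this)
        refine h1.trans ?_
        have h2 : ∑ n ∈ Ico N (2 * N), ∑ n' ∈ Ico N (2 * N), F (Nat.dist n n') ≤
            ∑ n ∈ Ico N (2 * N), 2 * ∑ d ∈ range N, F d :=
          Finset.sum_le_sum fun n hn => b1b_pair_count N F hF0 n hn
        refine h2.trans ?_
        rw [Finset.sum_const, Nat.card_Ico, nsmul_eq_mul]
        have eN : ((2 * N - N : ℕ) : ℝ) = N := by
          congr 1
          omega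
        rw [eN]
        have h3 : ∑ d ∈ range N, F d ≤ ((N : ℝ) / q' + 1) * M + N * T := by
          have h4 : ∀ d ∈ range N, F d ≤ (if q' ∣ d then (M : ℝ) else 0) + T := by
            intro d _
            rw [hF]
            show (if q' ∣ d then (M : ℝ) else T) ≤ (if q' ∣ d then (M : ℝ) else 0) + T
            split_ifs
            · linarith
            · linarith
          refine (Finset.sum_le_sum h4).trans ?_
          rw [Finset.sum_add_distrib, ← Finset.sum_filter, Finset.sum_const, Finset.sum_const, Finset.card_range,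
            nsmul_eq_mul, nsmul_eq_mul]
          have h5 := mul_le_mul_of_nonneg_right (b1b_mult N q' hq'1) hM0.le
          linarith
        have hNU : (N : ℝ) ≤ X / U := by
          rw [le_div_iff₀ hU0]
          nlinarith
        have h6 : ((N : ℝ) / q' + 1) * M + N * T ≤ X / q' + (X / U) * (1 + T) := by
          have a1 : (N : ℝ) / q' * M ≤ X / q' := by
            rw [div_mul_eq_mul_div]
            gcongr
            linarith
          have a2 : (M : ℝ) ≤ X / U := hMNr2.trans hNU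
          have a3 : (N : ℝ) * T ≤ (X / U) * T := mul_le_mul_of_nonneg_right hNU hT0
          nlinarith
        calc (N : ℝ) * (2 * ∑ d ∈ range N, F d) ≤ N * (2 * (X / q' + (X / U) * (1 + T))) := by
              apply mul_le_mul_of_nonneg_left _ hN0.le
              linarith
          _ = (2 / (q' : ℝ) + 2 * (1 + T) / U) * N * X := by
              field_simp)
  have e0 : ∑ n ∈ range X, ((Λ n : ℝ) : ℂ) * b1bf b L J ρ τ ω n = ∑ n ∈ range (XX b L), ((Λ n : ℝ) : ℂ) *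
      (ω (n % QQ b J) ((n + τ) / (QQ b J * HH b L J)) * ee (-((ρ : ℝ) * n))) := by
    rw [hX]
    refine Finset.sum_congr rfl fun n hn => ?_
    unfold b1bf
    rw [if_pos (Finset.mem_range.mp hn)]
  rw [e0] at hVG
  refine hVG.trans ?_
  obtain ⟨ℓ, hℓ⟩ : ∃ ℓ, ℓ = Real.log X := ⟨_, rfl⟩
  rw [← hℓ]
  have hXpow : (X : ℝ) = (b : ℝ) ^ (L + 3) := by
    rw [hX]
    unfold XX
    push_cast
    rfl
  have hL1 : (1 : ℝ) ≤ L := by exact_mod_cast (by omega : 1 ≤ L)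
  have hℓle : ℓ ≤ 4 * lam * L := by
    rw [hℓ, hXpow, Real.log_pow, hlam]
    push_cast
    have : 0 ≤ Real.log b := Real.log_nonneg hb1
    nlinarith
  have hℓ0 : 0 ≤ ℓ := by rw [hℓ]; exact Real.log_nonneg hX1
  -- the real power
  obtain ⟨E, hE⟩ : ∃ E : ℝ, E = (b : ℝ) ^ (-(L : ℝ) / 200) := ⟨_, rfl⟩
  have hE0 : 0 < E := by rw [hE]; exact Real.rpow_pos_of_pos hb0 _
  obtain ⟨κ, hκ⟩ : ∃ κ : ℝ, κ = (q : ℝ) ^ (-(1 / 4 : ℝ)) := ⟨_, rfl⟩
  have hκ0 : 0 < κ := by rw [hκ]; exact Real.rpow_pos_of_pos hq0 _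
  rw [← hq, ← hκ, ← hE]
  have hVr : (V : ℝ) ≤ (L : ℝ) / 10 := by
    rw [hV]
    have := Nat.cast_div_le (α := ℝ) (m := L) (n := 10)
    exact_mod_cast this
  have hVr2 : (L : ℝ) / 10 - 1 ≤ V := by
    have h1 : L ≤ 10 * V + 9 := by omega
    have h2 : (L : ℝ) ≤ 10 * V + 9 := by exact_mod_cast h1
    linarith
  have hJr : (J : ℝ) ≤ (L : ℝ) / 100 := by
    have : (100 : ℝ) * J ≤ L := by exact_mod_cast hJL
    linarith
  -- (b) the term with `U^2 (1+T)`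
  have hUU : (U : ℝ) ^ 2 * (1 + T) ≤ (b : ℝ) ^ 12 * (b : ℝ) ^ L * E := by
    have h1 : (U : ℝ) ^ 2 * (1 + T) ≤ (U : ℝ) ^ 2 * (b : ℝ) ^ (4 * J + 12) :=
      mul_le_mul_of_nonneg_left hTle (by positivity)
    refine h1.trans ?_
    have e1 : (U : ℝ) ^ 2 * (b : ℝ) ^ (4 * J + 12) = (b : ℝ) ^ 12 * (b : ℝ) ^ (((2 * V + 4 * J : ℕ)) : ℝ) := by
      rw [Real.rpow_natCast, hU]
      push_cast
      ring
    have e2 : (b : ℝ) ^ 12 * (b : ℝ) ^ L * E = (b : ℝ) ^ 12 * (b : ℝ) ^ ((L : ℝ) + -(L : ℝ) / 200) := by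
      rw [Real.rpow_add hb0, Real.rpow_natCast, hE]
      ring
    rw [e1, e2]
    apply mul_le_mul_of_nonneg_left _ (by positivity)
    apply Real.rpow_le_rpow_of_exponent_le hb1
    push_cast
    linarith
  -- (a)
  have hqinv : (1 : ℝ) / q' ≤ (b : ℝ) ^ 2 / q := by
    rw [div_le_div_iff₀ hq'0 hq0]
    have h1 : (q : ℝ) ≤ (D0 b : ℝ) * q' := by exact_mod_cast hqq
    have h2 : (D0 b : ℝ) ≤ (b : ℝ) ^ 2 := by
      have : D0 b ≤ b ^ 2 := by unfold D0; omega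
      exact_mod_cast this
    nlinarith
  have hqκ : (1 : ℝ) / q ≤ κ := by
    rw [hκ, one_div, ← Real.rpow_neg_one]
    apply Real.rpow_le_rpow_of_exponent_le (by exact_mod_cast hq1)
    norm_num
  have hXq : (X : ℝ) / q' ≤ (b : ℝ) ^ 5 * (b : ℝ) ^ L * κ := by
    have e1 : (X : ℝ) / q' = X * (1 / q') := by ring
    rw [e1]
    calc (X : ℝ) * (1 / q') ≤ X * ((b : ℝ) ^ 2 / q) := mul_le_mul_of_nonneg_left hqinv hX0.le
      _ = (b : ℝ) ^ 5 * (b : ℝ) ^ L * (1 / q) := by rw [hXpow]; ring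
      _ ≤ (b : ℝ) ^ 5 * (b : ℝ) ^ L * κ := mul_le_mul_of_nonneg_left hqκ (by positivity)
  -- (c)
  have hE4 : E2 ^ (1 / 4 : ℝ) ≤ (b : ℝ) ^ 3 * κ + (b : ℝ) ^ 14 * E := by
    have h1 : E2 ^ (1 / 4 : ℝ) ≤ (2 / (q' : ℝ) + 2 * (1 + T) / U) ^ (1 / 4 : ℝ) :=
      Real.rpow_le_rpow hE20.le (by rw [hE2]; exact min_le_right _ _) (by norm_num)
    have h2 := Real.rpow_add_le_add_rpow (p := (1 / 4 : ℝ)) (a := 2 / (q' : ℝ)) (b := 2 * (1 + T) / U)
      (by positivity) (by positivity) (by norm_num) (by norm_num)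
    refine h1.trans (h2.trans ?_)
    apply add_le_add
    · have h3 : 2 / (q' : ℝ) ≤ (b : ℝ) ^ 3 * (1 / q) := by
        have e1 : 2 / (q' : ℝ) = 2 * (1 / q') := by ring
        rw [e1]
        calc 2 * (1 / (q' : ℝ)) ≤ 2 * ((b : ℝ) ^ 2 / q) := by linarith
          _ ≤ b * ((b : ℝ) ^ 2 / q) := mul_le_mul_of_nonneg_right hb2 (by positivity)
          _ = _ := by ring
      have h4 := Real.rpow_le_rpow (by positivity) h3 (by norm_num : (0 : ℝ) ≤ 1 / 4)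
      refine h4.trans ?_
      rw [Real.mul_rpow (by positivity) (by positivity)]
      have e5 : ((1 : ℝ) / q) ^ (1 / 4 : ℝ) = κ := by
        rw [hκ, one_div, Real.inv_rpow hq0.le, ← Real.rpow_neg hq0.le]
      rw [e5]
      apply mul_le_mul_of_nonneg_right _ hκ0.le
      have h6 : (1 : ℝ) ≤ (b : ℝ) ^ 3 := one_le_pow₀ hb1
      have h7 := Real.rpow_le_rpow_of_exponent_le h6 (by norm_num : (1 / 4 : ℝ) ≤ 1)
      rwa [Real.rpow_one] at h7
    · have h3 : 2 * (1 + T) / U ≤ (b : ℝ) ^ 14 * (b : ℝ) ^ (-(3 * (L : ℝ) / 50)) := by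
        have e1 : (U : ℝ) = (b : ℝ) ^ (V : ℝ) := by
          rw [Real.rpow_natCast, hU]
          push_cast
          rfl
        have e2 : 2 * (1 + T) / U ≤ (b : ℝ) * (b : ℝ) ^ (4 * J + 12) / U := by
          gcongr
        refine e2.trans ?_
        have e3 : (b : ℝ) * (b : ℝ) ^ (4 * J + 12) / U = (b : ℝ) ^ 13 * (b : ℝ) ^ (((4 * J : ℕ) : ℝ) - V) := by
          rw [Real.rpow_sub hb0, ← e1, Real.rpow_natCast]
          ring
        have e4 : (b : ℝ) ^ 14 * (b : ℝ) ^ (-(3 * (L : ℝ) / 50)) = (b : ℝ) ^ 13 * (b : ℝ) ^ (1 + -(3 * (L : ℝ) / 50)) := by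
          rw [Real.rpow_add hb0, Real.rpow_one]
          ring
        rw [e3, e4]
        apply mul_le_mul_of_nonneg_left _ (by positivity)
        apply Real.rpow_le_rpow_of_exponent_le hb1
        push_cast
        linarith
      have h4 := Real.rpow_le_rpow (by positivity) h3 (by norm_num : (0 : ℝ) ≤ 1 / 4)
      refine h4.trans ?_
      rw [Real.mul_rpow (by positivity) (Real.rpow_nonneg hb0.le _)]
      apply mul_le_mul
      · have h6 : (1 : ℝ) ≤ (b : ℝ) ^ 14 := one_le_pow₀ hb1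
        have h7 := Real.rpow_le_rpow_of_exponent_le h6 (by norm_num : (1 / 4 : ℝ) ≤ 1)
        rwa [Real.rpow_one] at h7
      · rw [← Real.rpow_mul hb0.le, hE]
        apply Real.rpow_le_rpow_of_exponent_le hb1
        linarith
      · exact Real.rpow_nonneg (Real.rpow_nonneg hb0.le _) _
      · positivity
  -- the sum of `B`
  have hSB : ∑ m ∈ Icc 1 (U ^ 2), B m ≤ (X : ℝ) / q' * (1 + ℓ) + (U : ℝ) ^ 2 * (1 + T) := by
    have h4 : ∀ m ∈ Icc 1 (U ^ 2), B m ≤ (if q' ∣ m then (X : ℝ) / m else 0) + (1 + T) := by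
      intro m _
      rw [hB]
      show (if q' ∣ m then (X : ℝ) / m + 1 else T) ≤ (if q' ∣ m then (X : ℝ) / m else 0) + (1 + T)
      split_ifs
      · linarith
      · linarith
    refine (Finset.sum_le_sum h4).trans ?_
    rw [Finset.sum_add_distrib, ← Finset.sum_filter, Finset.sum_const, Nat.card_Icc, nsmul_eq_mul]
    have h5 := b1b_harm (X : ℝ) hX1 (U ^ 2) q' hq'1 (by exact_mod_cast hUX)
    rw [← hℓ] at h5
    have e6 : ((U ^ 2 + 1 - 1 : ℕ) : ℝ) = (U : ℝ) ^ 2 := by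
      rw [Nat.add_sub_cancel]
      push_cast
      rfl
    rw [e6]
    linarith
  have hUle : (U : ℝ) ≤ (U : ℝ) ^ 2 * (1 + T) := by
    have h1 : (1 : ℝ) ≤ U := by exact_mod_cast (by omega : 1 ≤ U)
    nlinarith [mul_nonneg (sq_nonneg (U : ℝ)) hT0]
  obtain ⟨βL, hβL⟩ : ∃ βL : ℝ, βL = (b : ℝ) ^ L := ⟨_, rfl⟩
  have hβL0 : 0 < βL := by rw [hβL]; positivity
  rw [← hβL] at hUU hXq ⊢
  have hXβ : (X : ℝ) = (b : ℝ) ^ 3 * βL := by rw [hXpow, hβL]; ring
  have hpow1 : ∀ i j : ℕ, i ≤ j → (b : ℝ) ^ i ≤ (b : ℝ) ^ j := fun i j hij => pow_le_pow_right₀ hb1 hij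
  have hsum : (U : ℝ) + ∑ m ∈ Icc 1 (U ^ 2), B m + X * E2 ^ (1 / 4 : ℝ) ≤
      (1 + ℓ) * (βL * ((2 * (b : ℝ) ^ 18) * (κ + E))) := by
    have t1 : (X : ℝ) / q' * (1 + ℓ) ≤ ((b : ℝ) ^ 5 * βL * κ) * (1 + ℓ) :=
      mul_le_mul_of_nonneg_right hXq (by linarith)
    have t2 : (X : ℝ) * E2 ^ (1 / 4 : ℝ) ≤ ((b : ℝ) ^ 3 * βL) * ((b : ℝ) ^ 3 * κ + (b : ℝ) ^ 14 * E) := by
      rw [hXβ]
      exact mul_le_mul_of_nonneg_left hE4 (by positivity)
    have t3 : (U : ℝ) + ∑ m ∈ Icc 1 (U ^ 2), B m + X * E2 ^ (1 / 4 : ℝ) ≤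
        ((b : ℝ) ^ 5 * βL * κ) * (1 + ℓ) + 2 * ((b : ℝ) ^ 12 * βL * E) +
          ((b : ℝ) ^ 3 * βL) * ((b : ℝ) ^ 3 * κ + (b : ℝ) ^ 14 * E) := by
      linarith
    refine t3.trans ?_
    have p5 := hpow1 5 18 (by norm_num)
    have p6 := hpow1 6 18 (by norm_num)
    have p17 : 2 * (b : ℝ) ^ 12 + (b : ℝ) ^ 17 ≤ 2 * (b : ℝ) ^ 18 := by
      have a1 := hpow1 12 17 (by norm_num)
      have a2 : (b : ℝ) ^ 18 = b * (b : ℝ) ^ 17 := by ring
      have a3 : (0 : ℝ) < (b : ℝ) ^ 17 := by positivity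
      nlinarith
    have k1 : 0 ≤ βL * κ := by positivity
    have k2 : 0 ≤ βL * E := by positivity
    have w1 : (b : ℝ) ^ 5 * (βL * κ) * (1 + ℓ) ≤ (b : ℝ) ^ 18 * (βL * κ) * (1 + ℓ) := by
      gcongr
    have w2 : (b : ℝ) ^ 6 * (βL * κ) ≤ (b : ℝ) ^ 18 * (βL * κ) * (1 + ℓ) := by
      calc (b : ℝ) ^ 6 * (βL * κ) ≤ (b : ℝ) ^ 18 * (βL * κ) := by gcongr
        _ ≤ (b : ℝ) ^ 18 * (βL * κ) * (1 + ℓ) := by
          have : 0 ≤ (b : ℝ) ^ 18 * (βL * κ) := by positivity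
          nlinarith
    have w3 : (2 * (b : ℝ) ^ 12 + (b : ℝ) ^ 17) * (βL * E) ≤ 2 * (b : ℝ) ^ 18 * (βL * E) * (1 + ℓ) := by
      calc (2 * (b : ℝ) ^ 12 + (b : ℝ) ^ 17) * (βL * E) ≤ 2 * (b : ℝ) ^ 18 * (βL * E) := by gcongr
        _ ≤ _ := by
          have : 0 ≤ 2 * (b : ℝ) ^ 18 * (βL * E) := by positivity
          nlinarith
    have e7 : (b : ℝ) ^ 5 * βL * κ * (1 + ℓ) + 2 * ((b : ℝ) ^ 12 * βL * E) +
          ((b : ℝ) ^ 3 * βL) * ((b : ℝ) ^ 3 * κ + (b : ℝ) ^ 14 * E) =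
        (b : ℝ) ^ 5 * (βL * κ) * (1 + ℓ) + (b : ℝ) ^ 6 * (βL * κ) +
          (2 * (b : ℝ) ^ 12 + (b : ℝ) ^ 17) * (βL * E) := by ring
    rw [e7]
    have e8 : (1 + ℓ) * (βL * ((2 * (b : ℝ) ^ 18) * (κ + E))) = (b : ℝ) ^ 18 * (βL * κ) * (1 + ℓ) +
        (b : ℝ) ^ 18 * (βL * κ) * (1 + ℓ) + 2 * (b : ℝ) ^ 18 * (βL * E) * (1 + ℓ) := by ring
    rw [e8]
    linarith
  have hl8 : ℓ ^ 8 * (1 + ℓ) ≤ (4 * lam) ^ 8 * (1 + 4 * lam) * (L : ℝ) ^ 9 := by
    have a1 : ℓ ^ 8 ≤ (4 * lam * L) ^ 8 := pow_le_pow_left₀ hℓ0 hℓle 8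
    have a2 : 1 + ℓ ≤ (1 + 4 * lam) * L := by nlinarith
    calc ℓ ^ 8 * (1 + ℓ) ≤ (4 * lam * L) ^ 8 * ((1 + 4 * lam) * L) := by
          apply mul_le_mul a1 a2 (by linarith) (by positivity)
      _ = _ := by ring
  calc C1 * ℓ ^ 8 * ((U : ℝ) + ∑ m ∈ Icc 1 (U ^ 2), B m + X * E2 ^ (1 / 4 : ℝ))
      ≤ C1 * ℓ ^ 8 * ((1 + ℓ) * (βL * ((2 * (b : ℝ) ^ 18) * (κ + E)))) :=
        mul_le_mul_of_nonneg_left hsum (by positivity)
    _ = (ℓ ^ 8 * (1 + ℓ)) * (C1 * (βL * ((2 * (b : ℝ) ^ 18) * (κ + E)))) := by ring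
    _ ≤ ((4 * lam) ^ 8 * (1 + 4 * lam) * (L : ℝ) ^ 9) * (C1 * (βL * ((2 * (b : ℝ) ^ 18) * (κ + E)))) :=
        mul_le_mul_of_nonneg_right hl8 (by positivity)
    _ = _ := by ring

end Pool.Agent.LibHG31
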