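import Pool.Agent.LibHG31.A1
import Pool.Agent.LibHG31.E5

/-! ROW B2: the cells; reduction of `Rrho` to sums over one variable. `H = QQ b J * HH b L J`. -/

namespace Pool.Agent.LibHG31

open Finset
open scoped ArithmeticFunction.vonMangoldt

private theorem HG31_B2_same (H n d τ : ℕ) (hτ : τ < H) (hd : d < H) :
    (n + d + τ) / H = (n + τ) / H ↔
      (n % H + τ + d < H ∨ (H ≤ n % H + τ ∧ n % H + τ + d < 2 * H)) := by
  have hH : 0 < H := by omega
  have hs : n % H < H := Nat.mod_lt _ hH
  have hn : H * (n / H) + n % H = n := Nat.div_add_mod n H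
  set q := n / H with hq
  set s := n % H with hs'
  have e1 : n + τ = H * q + (s + τ) := by omega
  have e2 : n + d + τ = H * q + (s + τ + d) := by omega
  have d1 : (n + τ) / H = q + (s + τ) / H := by
    rw [e1, Nat.mul_add_div hH]
  have d2 : (n + d + τ) / H = q + (s + τ + d) / H := by
    rw [e2, Nat.mul_add_div hH]
  rw [d1, d2]
  by_cases h1 : s + τ < H
  · have z1 : (s + τ) / H = 0 := Nat.div_eq_of_lt h1
    rw [z1]
    by_cases h2 : s + τ + d < H
    · have z2 : (s + τ + d) / H = 0 := Nat.div_eq_of_lt h2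
      rw [z2]; simp [h2]
    · have z2 : 1 ≤ (s + τ + d) / H := (Nat.one_le_div_iff hH).2 (by omega)
      constructor
      · intro h; omega
      · intro h; omega
  · have z1 : (s + τ) / H = 1 := Nat.div_eq_of_lt_le (by omega) (by omega)
    rw [z1]
    by_cases h2 : s + τ + d < 2 * H
    · have z2 : (s + τ + d) / H = 1 := Nat.div_eq_of_lt_le (by omega) (by omega)
      rw [z2]
      constructor
      · intro _; right; exact ⟨by omega, h2⟩
      · intro _; rfl
    · have z2 : 2 ≤ (s + τ + d) / H := (Nat.le_div_iff_mul_le hH).2 (by omega)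
      constructor
      · intro h; omega
      · intro h; omega

private theorem HG31_B2_card (H n d : ℕ) (hH : 1 ≤ H) :
    ((range H).filter (fun τ => (n + d + τ) / H = (n + τ) / H)).card = H - d := by
  by_cases hd : d < H
  · have hs : n % H < H := Nat.mod_lt _ hH
    have hset : (range H).filter (fun τ => (n + d + τ) / H = (n + τ) / H) =
        range (H - d - n % H) ∪ Ico (H - n % H) (min H (2 * H - d - n % H)) := by
      ext τ
      simp only [mem_filter, mem_range, mem_union, mem_Ico]
      constructor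
      · rintro ⟨h1, h2⟩
        rw [HG31_B2_same H n d τ h1 hd] at h2
        omega
      · intro h
        have h1 : τ < H := by omega
        refine ⟨h1, ?_⟩
        rw [HG31_B2_same H n d τ h1 hd]
        omega
    rw [hset, card_union_of_disjoint]
    · rw [card_range, Nat.card_Ico]
      omega
    · rw [disjoint_left]
      intro a ha hb
      rw [mem_range] at ha
      rw [mem_Ico] at hb
      omega
  · have hset : (range H).filter (fun τ => (n + d + τ) / H = (n + τ) / H) = ∅ := by
      apply filter_eq_empty_iff.2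
      intro τ _ h
      have h1 : (n + τ) / H + 1 ≤ (n + d + τ) / H := by
        calc (n + τ) / H + 1 = (n + τ + H) / H := (Nat.add_div_right _ hH).symm
          _ ≤ (n + d + τ) / H := Nat.div_le_div_right (by omega)
      omega
    rw [hset, card_empty]
    omega

/-- number of shifts for which `y` and `n` lie in the same cell of length `H` -/
theorem card_cell (H y n : ℕ) (hH : 1 ≤ H) :
    (((range H).filter (fun τ => (y + τ) / H = (n + τ) / H)).card : ℝ) = max 0 ((H : ℝ) - |(y : ℝ) - n|) := by
  have key : ∀ d : ℕ, (((H - d : ℕ) : ℕ) : ℝ) = max 0 ((H : ℝ) - d) := by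
    intro d
    by_cases h : d ≤ H
    · rw [Nat.cast_sub h, max_eq_right]
      have : (d : ℝ) ≤ H := by exact_mod_cast h
      linarith
    · have h' : H ≤ d := by omega
      rw [Nat.sub_eq_zero_of_le h', max_eq_left]
      · simp
      · have : (H : ℝ) ≤ d := by exact_mod_cast h'
        linarith
  rcases le_total n y with h | h
  · obtain ⟨d, rfl⟩ := Nat.exists_eq_add_of_le h
    rw [HG31_B2_card H n d hH, key d]
    have : |(((n + d : ℕ) : ℕ) : ℝ) - n| = d := by
      push_cast
      rw [add_sub_cancel_left]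
      exact abs_of_nonneg (Nat.cast_nonneg d)
    rw [this]
  · obtain ⟨d, rfl⟩ := Nat.exists_eq_add_of_le h
    have hsym : (range H).filter (fun τ => (y + τ) / H = (y + d + τ) / H) =
        (range H).filter (fun τ => (y + d + τ) / H = (y + τ) / H) := by
      apply filter_congr
      intro τ _
      exact eq_comm
    rw [hsym, HG31_B2_card H y d hH, key d]
    have : |(y : ℝ) - (((y + d : ℕ) : ℕ) : ℝ)| = d := by
      push_cast
      rw [sub_add_cancel_left, abs_neg]
      exact abs_of_nonneg (Nat.cast_nonneg d)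
    rw [this]

/-- the kernel through cells: `krn (y - n) = (Q/H²) #{τ < H : same cell} 1[y ≡ n mod Q]`. -/
theorem krn_cell (b L J : ℕ) (hb : 2 ≤ b) (y n : ℕ) :
    krn b L J ((y : ℤ) - n) = (QQ b J : ℝ) / ((QQ b J * HH b L J : ℕ) : ℝ) ^ 2 *
      ∑ τ ∈ range (QQ b J * HH b L J), (if y % QQ b J = n % QQ b J ∧
        (y + τ) / (QQ b J * HH b L J) = (n + τ) / (QQ b J * HH b L J) then 1 else 0) := by
  have hQ : 1 ≤ QQ b J := QQ_pos b J hb
  have hHH : 1 ≤ HH b L J := HH_pos b L J hb
  have hH : 1 ≤ QQ b J * HH b L J := Nat.one_le_iff_ne_zero.2 (by positivity)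
  have hQr : (0 : ℝ) < (QQ b J : ℝ) := by exact_mod_cast hQ
  have hHr : (0 : ℝ) < (HH b L J : ℝ) := by exact_mod_cast hHH
  by_cases hc : y % QQ b J = n % QQ b J
  · have hdvd : ((QQ b J : ℕ) : ℤ) ∣ ((y : ℤ) - n) := by
      have : n ≡ y [MOD QQ b J] := hc.symm
      exact (Nat.modEq_iff_dvd.1 this)
    unfold krn
    rw [if_pos hdvd]
    simp only [hc, true_and]
    rw [Finset.sum_ite, Finset.sum_const_zero, add_zero, Finset.sum_const, nsmul_eq_mul, mul_one,
      card_cell _ _ _ hH]
    have e1 : |(((y : ℤ) - n : ℤ) : ℝ)| = |(y : ℝ) - n| := by push_cast; rfl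
    rw [e1]
    push_cast
    set A : ℝ := |(y : ℝ) - n| with hA
    set Q : ℝ := (QQ b J : ℝ) with hQdef
    set K : ℝ := (HH b L J : ℝ) with hKdef
    have hQK : 0 < Q * K := mul_pos hQr hHr
    have e2 : max 0 (1 - A / (Q * K)) = (1 / (Q * K)) * max 0 (Q * K - A) := by
      rw [mul_max_of_nonneg _ _ (by positivity), mul_zero]
      congr 1
      field_simp
    rw [e2]
    field_simp
  · have hdvd : ¬ ((QQ b J : ℕ) : ℤ) ∣ ((y : ℤ) - n) := by
      intro h
      apply hc
      have : n ≡ y [MOD QQ b J] := Nat.modEq_iff_dvd.2 h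
      exact this.symm
    unfold krn
    rw [if_neg hdvd]
    simp [hc]

end Pool.Agent.LibHG31
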