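import Pool.Agent.LibHG31.B2

/-! ROW B2b: reduction of `Rrho` to sums over one variable. `H = QQ b J * HH b L J`. -/

namespace Pool.Agent.LibHG31

open Finset
open scoped ArithmeticFunction.vonMangoldt


private theorem B2b_count {κ : Type} (K : Finset κ) (y : κ → ℕ) (hy : Set.InjOn y K)
    (Q H' τ a c : ℕ) (hH : 1 ≤ H') :
    (K.filter (fun k => y k % Q = a ∧ (y k + τ) / (Q * H') = c)).card ≤ H' := by
  have h1 : (K.filter (fun k => y k % Q = a ∧ (y k + τ) / (Q * H') = c)).card ≤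
      (range H').card := by
    apply Finset.card_le_card_of_injOn (fun k => (y k / Q) % H')
    · intro k _
      rw [Finset.mem_coe, mem_range]
      exact Nat.mod_lt _ hH
    · intro k hk k' hk' hkk
      rw [Finset.mem_coe, mem_filter] at hk hk'
      apply hy hk.1 hk'.1
      have e1 : y k % (Q * H') = y k' % (Q * H') := by
        have hkk' : (y k / Q) % H' = (y k' / Q) % H' := hkk
        rw [Nat.mod_mul, Nat.mod_mul, hk.2.1, hk'.2.1, hkk']
      have e2 : (y k + τ) % (Q * H') = (y k' + τ) % (Q * H') := Nat.ModEq.add_right τ e1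
      have e3 := Nat.div_add_mod (y k + τ) (Q * H')
      have e4 := Nat.div_add_mod (y k' + τ) (Q * H')
      rw [hk.2.2, e2] at e3
      rw [hk'.2.2] at e4
      omega
  rwa [card_range] at h1

private theorem B2b_T {ι : Type} (I : Finset ι) (p u : ι → ℂ) (xa xc : ι → ℕ)
    (G : ℕ → ℕ → ℂ) (M B : ℝ) (hM : 0 ≤ M) (hG : ∀ a c, ‖G a c‖ ≤ M)
    (hB : ∀ ω : ℕ → ℕ → ℂ, (∀ a c, ‖ω a c‖ = 1) →
      ‖∑ i ∈ I, p i * (ω (xa i) (xc i) * u i)‖ ≤ B) :
    ‖∑ i ∈ I, p i * u i * G (xa i) (xc i)‖ ≤ M * B := by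
  classical
  set C : Finset (ℕ × ℕ) := I.image (fun i => (xa i, xc i)) with hC
  have hmaps : ∀ i ∈ I, (xa i, xc i) ∈ C := fun i hi => mem_image_of_mem _ hi
  set S : ℕ × ℕ → ℂ := fun c => ∑ i ∈ I.filter (fun i => (xa i, xc i) = c), p i * u i with hS
  have key : ∀ F : ℕ → ℕ → ℂ, ∑ i ∈ I, p i * u i * F (xa i) (xc i) =
      ∑ c ∈ C, S c * F c.1 c.2 := by
    intro F
    rw [← Finset.sum_fiberwise_of_maps_to hmaps]
    apply sum_congr rfl
    intro c _
    rw [hS]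
    simp only
    rw [sum_mul]
    apply sum_congr rfl
    intro i hi
    have h1 := (mem_filter.1 hi).2
    rw [← h1]
  set ω : ℕ → ℕ → ℂ := fun a c => if S (a, c) = 0 then 1 else ((‖S (a, c)‖ : ℝ) : ℂ) / S (a, c)
    with hω
  have hω1 : ∀ a c, ‖ω a c‖ = 1 := by
    intro a c
    simp only [hω]
    split_ifs with h
    · simp
    · rw [norm_div, Complex.norm_real, norm_norm, div_self (norm_ne_zero_iff.2 h)]
  have hω2 : ∀ c : ℕ × ℕ, S c * ω c.1 c.2 = ((‖S c‖ : ℝ) : ℂ) := by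
    intro c
    simp only [hω, Prod.mk.eta]
    split_ifs with h
    · rw [h]; simp
    · field_simp
  have h1 := hB ω hω1
  have h2 : ∑ i ∈ I, p i * (ω (xa i) (xc i) * u i) = ((∑ c ∈ C, ‖S c‖ : ℝ) : ℂ) := by
    have e : ∑ i ∈ I, p i * (ω (xa i) (xc i) * u i) =
        ∑ i ∈ I, p i * u i * ω (xa i) (xc i) := sum_congr rfl fun i _ => by ring
    rw [e, key ω, sum_congr rfl (fun c _ => hω2 c)]
    push_cast
    rfl
  rw [h2, Complex.norm_real, Real.norm_eq_abs,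
    abs_of_nonneg (sum_nonneg fun _ _ => norm_nonneg _)] at h1
  rw [key G]
  refine (norm_sum_le _ _).trans ?_
  calc ∑ c ∈ C, ‖S c * G c.1 c.2‖ ≤ ∑ c ∈ C, M * ‖S c‖ := by
        apply sum_le_sum
        intro c _
        rw [norm_mul, mul_comm]
        exact mul_le_mul_of_nonneg_right (hG _ _) (norm_nonneg _)
    _ = M * ∑ c ∈ C, ‖S c‖ := by rw [mul_sum]
    _ ≤ M * B := mul_le_mul_of_nonneg_left h1 hM

/-- abstract reduction. `I`, `K` finite index sets, weights `0 ≤ p i ≤ W`, `0 ≤ s k ≤ W`, unimodular numbers `u i`, `v k`, natural numbers `x i`, `y k`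
injective on `I`, `K`. A class is a pair (residue mod `Q`, cell of length `H = Q H'`): it contains at most `H'` of the `x i` and at most `H'` of the `y k`.
For each `τ` the double sum over pairs in the same class is `∑_class (∑_i p u)(∑_k s v)`, bounded by `H' W ∑_class |∑_i p_i u_i|`, and the last sum is
`∑_i p_i u_i ω(x_i % Q, (x_i+τ)/H)` with `ω` the inverse phase of the class sum (`1` if the class sum vanishes or is empty), unimodular. -/
theorem cell_reduction {ι κ : Type} (I : Finset ι) (K : Finset κ) (p : ι → ℝ) (s : κ → ℝ) (u : ι → ℂ) (v : κ → ℂ)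
    (x : ι → ℕ) (y : κ → ℕ) (W B : ℝ) (Q H' : ℕ) (hQ : 1 ≤ Q) (hH : 1 ≤ H')
    (hs : ∀ k ∈ K, 0 ≤ s k ∧ s k ≤ W) (hv : ∀ k ∈ K, ‖v k‖ = 1)
    (hy : Set.InjOn y K) (hW : 0 ≤ W)
    (hB : ∀ τ < Q * H', ∀ ω : ℕ → ℕ → ℂ, (∀ a c, ‖ω a c‖ = 1) →
      ‖∑ i ∈ I, ((p i : ℝ) : ℂ) * (ω (x i % Q) ((x i + τ) / (Q * H')) * u i)‖ ≤ B) :
    ‖∑ i ∈ I, ∑ k ∈ K, ((p i * s k * ((Q : ℝ) / ((Q * H' : ℕ) : ℝ) ^ 2 *
      ∑ τ ∈ range (Q * H'), (if y k % Q = x i % Q ∧ (y k + τ) / (Q * H') = (x i + τ) / (Q * H') then (1 : ℝ) else 0)) : ℝ) : ℂ) *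
        (u i * v k)‖ ≤ W * B := by
  set H : ℕ := Q * H' with hHdef
  have hH0 : 0 < H := Nat.mul_pos hQ hH
  have hHR : (0 : ℝ) < (H : ℝ) := by exact_mod_cast hH0
  have hQR : (0 : ℝ) ≤ (Q : ℝ) := Nat.cast_nonneg _
  have hH'R : (0 : ℝ) ≤ (H' : ℝ) := Nat.cast_nonneg _
  have hG : ∀ τ a c : ℕ, ‖∑ k ∈ K.filter (fun k => y k % Q = a ∧ (y k + τ) / H = c),
      ((s k : ℝ) : ℂ) * v k‖ ≤ W * H' := by
    intro τ a c
    refine (norm_sum_le _ _).trans ?_
    have h1 : ∀ k ∈ K.filter (fun k => y k % Q = a ∧ (y k + τ) / H = c),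
        ‖((s k : ℝ) : ℂ) * v k‖ ≤ W := by
      intro k hk
      have hkK := (mem_filter.1 hk).1
      rw [norm_mul, hv k hkK, mul_one, Complex.norm_real, Real.norm_eq_abs,
        abs_of_nonneg (hs k hkK).1]
      exact (hs k hkK).2
    refine (sum_le_sum h1).trans ?_
    rw [sum_const, nsmul_eq_mul, mul_comm]
    apply mul_le_mul_of_nonneg_left _ hW
    exact_mod_cast B2b_count K y hy Q H' τ a c hH
  have hT : ∀ τ < H, ‖∑ i ∈ I, ((p i : ℝ) : ℂ) * u i *
      ∑ k ∈ K.filter (fun k => y k % Q = x i % Q ∧ (y k + τ) / H = (x i + τ) / H),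
        ((s k : ℝ) : ℂ) * v k‖ ≤ (W * H') * B := by
    intro τ hτ
    exact B2b_T I (fun i => ((p i : ℝ) : ℂ)) u (fun i => x i % Q) (fun i => (x i + τ) / H)
      (fun a c => ∑ k ∈ K.filter (fun k => y k % Q = a ∧ (y k + τ) / H = c),
        ((s k : ℝ) : ℂ) * v k) (W * H') B (mul_nonneg hW hH'R) (hG τ)
      (fun ω hω => hB τ hτ ω hω)
  have hsum : ∑ i ∈ I, ∑ k ∈ K, ((p i * s k * ((Q : ℝ) / ((H : ℕ) : ℝ) ^ 2 *
      ∑ τ ∈ range H, (if y k % Q = x i % Q ∧ (y k + τ) / H = (x i + τ) / H then (1 : ℝ)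
        else 0)) : ℝ) : ℂ) * (u i * v k) =
      (((Q : ℝ) / (H : ℝ) ^ 2 : ℝ) : ℂ) * ∑ τ ∈ range H, ∑ i ∈ I, ((p i : ℝ) : ℂ) * u i *
      ∑ k ∈ K.filter (fun k => y k % Q = x i % Q ∧ (y k + τ) / H = (x i + τ) / H),
        ((s k : ℝ) : ℂ) * v k := by
    rw [sum_comm (s := range H), mul_sum]
    apply sum_congr rfl
    intro i _
    rw [mul_sum]
    have h2 : ∀ τ ∈ range H, (((Q : ℝ) / (H : ℝ) ^ 2 : ℝ) : ℂ) * (((p i : ℝ) : ℂ) * u i *
        ∑ k ∈ K.filter (fun k => y k % Q = x i % Q ∧ (y k + τ) / H = (x i + τ) / H),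
          ((s k : ℝ) : ℂ) * v k) =
        ∑ k ∈ K, (((Q : ℝ) / (H : ℝ) ^ 2 : ℝ) : ℂ) * (((p i : ℝ) : ℂ) * u i *
          (((if y k % Q = x i % Q ∧ (y k + τ) / H = (x i + τ) / H then (1 : ℝ) else 0 : ℝ) : ℂ) *
            (((s k : ℝ) : ℂ) * v k))) := by
      intro τ _
      rw [sum_filter, mul_sum, mul_sum]
      apply sum_congr rfl
      intro k _
      split_ifs with hc
      · simp
      · simp
    rw [sum_congr rfl h2, sum_comm]
    apply sum_congr rfl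
    intro k _
    push_cast
    rw [mul_sum, mul_sum, sum_mul]
    apply sum_congr rfl
    intro τ _
    ring
  rw [hsum, norm_mul, Complex.norm_real, Real.norm_eq_abs, abs_of_nonneg (by positivity)]
  have h3 : ‖∑ τ ∈ range H, ∑ i ∈ I, ((p i : ℝ) : ℂ) * u i *
      ∑ k ∈ K.filter (fun k => y k % Q = x i % Q ∧ (y k + τ) / H = (x i + τ) / H),
        ((s k : ℝ) : ℂ) * v k‖ ≤ H * ((W * H') * B) := by
    refine (norm_sum_le _ _).trans ((sum_le_sum fun τ hτ => hT τ (mem_range.1 hτ)).trans ?_)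
    rw [sum_const, card_range, nsmul_eq_mul]
  calc (Q : ℝ) / (H : ℝ) ^ 2 * _ ≤ (Q : ℝ) / (H : ℝ) ^ 2 * (H * ((W * H') * B)) :=
        mul_le_mul_of_nonneg_left h3 (by positivity)
    _ = ((Q : ℝ) * H' / H) * (W * B) := by
        field_simp
    _ = W * B := by
        have h4 : ((Q : ℝ) * H' / H) = 1 := by
          rw [div_eq_one_iff_eq hHR.ne', hHdef]
          push_cast
          ring
        rw [h4, one_mul]

private theorem B2b_KS_lt (b L l r k : ℕ) (hL : 1 ≤ L) (hl : l < b) (hk : k ∈ KS b L l r) :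
    k < b ^ L := by
  have hk' := (mem_filter.1 hk).1
  have h1 := (Finset.mem_Ico.1 hk').2
  have h2 : (l + 1) * b ^ (L - 1) ≤ b * b ^ (L - 1) := Nat.mul_le_mul_right _ hl
  have h3 : b * b ^ (L - 1) = b ^ L := by
    obtain ⟨m, rfl⟩ := Nat.exists_eq_add_of_le' hL
    rw [Nat.add_sub_cancel]
    ring
  omega

private theorem B2b_rv_le (b L N k : ℕ) (hb : 2 ≤ b) (hN1 : b ^ (L + 1) ≤ N) : rv b L k ≤ N := by
  have h1 := rv_lt b L k (by omega)
  have h2 : b ^ L ≤ b ^ (L + 1) := Nat.pow_le_pow_right (by omega) (by omega)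
  omega

private theorem B2b_mangoldt (b L n : ℕ) (hb : 2 ≤ b) (hn : n < b ^ (L + 3)) :
    Λ n ≤ (L + 3 : ℕ) * Real.log b := by
  rcases Nat.eq_zero_or_pos n with h0 | h0
  · subst h0
    have h1 : Λ 0 = 0 := by simp
    rw [h1]
    have : 0 ≤ Real.log b := Real.log_natCast_nonneg b
    positivity
  · refine ArithmeticFunction.vonMangoldt_le_log.trans ?_
    rw [← Real.log_pow]
    apply Real.log_le_log (by exact_mod_cast h0)
    exact_mod_cast hn.le

/-- **reduction to the first variable**. `cell_reduction` with `I = range X`, `x n = n`, `u n = ee(-ρ n)`, `K = KS`, `y k = N - rv k` (natural subtraction, `rv k < b^L ≤ N`;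
injective since `rv` is), `v k = ee(ρ (N - rv k))`, `Λ k ≤ log k ≤ log X`; `krn_cell`. -/
theorem Rrho_le_X1 (b L J l r N : ℕ) (hb : 2 ≤ b) (hL : 1 ≤ L) (hl : l < b) (hN1 : b ^ (L + 1) ≤ N) (hN2 : N < b ^ (L + 2))
    (ρ B : ℝ)
    (hB : ∀ τ < QQ b J * HH b L J, ∀ ω : ℕ → ℕ → ℂ, (∀ a c, ‖ω a c‖ = 1) →
      ‖∑ n ∈ range (XX b L), ((Λ n : ℝ) : ℂ) * (ω (n % QQ b J) ((n + τ) / (QQ b J * HH b L J)) * ee (-(ρ * n)))‖ ≤ B) :
    ‖Rrho b L J l r N ρ‖ ≤ ((L + 3 : ℕ) * Real.log b) * B := by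
  have hb0 : 0 < b := by omega
  have hrvN : ∀ k, rv b L k ≤ N := fun k => B2b_rv_le b L N k hb hN1
  have hred := cell_reduction (range (XX b L)) (KS b L l r) (fun n => Λ n) (fun k => Λ k)
    (fun n => ee (-(ρ * n))) (fun k => ee (ρ * ((N : ℝ) - rv b L k))) (fun n => n)
    (fun k => N - rv b L k) ((L + 3 : ℕ) * Real.log b) B (QQ b J) (HH b L J) (QQ_pos b J hb)
    (HH_pos b L J hb) (fun k hk => ⟨ArithmeticFunction.vonMangoldt_nonneg,
      B2b_mangoldt b L k hb (lt_of_lt_of_le (B2b_KS_lt b L l r k hL hl hk)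
        (Nat.pow_le_pow_right hb0 (by omega)))⟩) (fun k _ => norm_ee _) ?_
    (by positivity) hB
  · refine le_trans (le_of_eq ?_) hred
    unfold Rrho
    congr 1
    apply sum_congr rfl
    intro n _
    apply sum_congr rfl
    intro k _
    have e1 : (N : ℤ) - n - rv b L k = ((N - rv b L k : ℕ) : ℤ) - n := by
      have := hrvN k
      push_cast [Nat.cast_sub this]
      ring
    have e2 : ee (ρ * ((N : ℝ) - n - rv b L k)) =
        ee (-(ρ * n)) * ee (ρ * ((N : ℝ) - rv b L k)) := by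
      rw [← ee_add]
      congr 1
      ring
    rw [e1, krn_cell b L J hb (N - rv b L k) n, e2]
  · intro k hk k' hk' hkk
    have hkk' : N - rv b L k = N - rv b L k' := hkk
    have h1 := hrvN k
    have h2 := hrvN k'
    have h3 : rv b L k = rv b L k' := by omega
    exact rv_injOn b L (by omega) (B2b_KS_lt b L l r k hL hl hk)
      (B2b_KS_lt b L l r k' hL hl hk') h3

/-- **reduction to the second variable** (the roles exchanged). -/
theorem Rrho_le_X2 (b L J l r N : ℕ) (hb : 2 ≤ b) (hL : 1 ≤ L) (hl : l < b) (hN1 : b ^ (L + 1) ≤ N) (hN2 : N < b ^ (L + 2))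
    (ρ B : ℝ)
    (hB : ∀ τ < QQ b J * HH b L J, ∀ ω : ℕ → ℕ → ℂ, (∀ a c, ‖ω a c‖ = 1) →
      ‖∑ k ∈ KS b L l r, ((Λ k : ℝ) : ℂ) * (ω ((N - rv b L k) % QQ b J) ((N - rv b L k + τ) / (QQ b J * HH b L J)) *
        ee (-(ρ * rv b L k)))‖ ≤ B) :
    ‖Rrho b L J l r N ρ‖ ≤ ((L + 3 : ℕ) * Real.log b) * B := by
  have hb0 : 0 < b := by omega
  have hrvN : ∀ k, rv b L k ≤ N := fun k => B2b_rv_le b L N k hb hN1
  have hred := cell_reduction (KS b L l r) (range (XX b L)) (fun k => Λ k) (fun n => Λ n)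
    (fun k => ee (-(ρ * rv b L k))) (fun n => ee (ρ * ((N : ℝ) - n)))
    (fun k => N - rv b L k) (fun n => n) ((L + 3 : ℕ) * Real.log b) B (QQ b J) (HH b L J)
    (QQ_pos b J hb) (HH_pos b L J hb) (fun n hn => ⟨ArithmeticFunction.vonMangoldt_nonneg,
      B2b_mangoldt b L n hb (mem_range.1 hn)⟩) (fun n _ => norm_ee _)
    (fun n _ n' _ h => h) (by positivity) hB
  refine le_trans (le_of_eq ?_) hred
  unfold Rrho
  rw [sum_comm]
  congr 1
  apply sum_congr rfl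
  intro k _
  apply sum_congr rfl
  intro n _
  have e1 : (N : ℤ) - n - rv b L k = ((N - rv b L k : ℕ) : ℤ) - n := by
    have := hrvN k
    push_cast [Nat.cast_sub this]
    ring
  have e2 : ee (ρ * ((N : ℝ) - n - rv b L k)) =
      ee (-(ρ * rv b L k)) * ee (ρ * ((N : ℝ) - n)) := by
    rw [← ee_add]
    congr 1
    ring
  have e3 : ∀ τ : ℕ, (if (N - rv b L k) % QQ b J = n % QQ b J ∧
      (N - rv b L k + τ) / (QQ b J * HH b L J) = (n + τ) / (QQ b J * HH b L J) then (1 : ℝ)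
        else 0) = (if n % QQ b J = (N - rv b L k) % QQ b J ∧
      (n + τ) / (QQ b J * HH b L J) = (N - rv b L k + τ) / (QQ b J * HH b L J) then (1 : ℝ)
        else 0) := fun τ => if_congr (by rw [eq_comm, eq_comm (a := (N - rv b L k + τ) / _)]) rfl rfl
  rw [e1, krn_cell b L J hb (N - rv b L k) n, e2, sum_congr rfl (fun τ _ => e3 τ),
    mul_comm (Λ n) (Λ k)]

end Pool.Agent.LibHG31
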