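import Pool.Agent.LibHG31.B2
import Pool.Agent.LibHG31.Iface

/-! ROW B3: the sum over `k` from block TT (with `2J` in place of `J`). -/

namespace Pool.Agent.LibHG31

open Finset
open scoped ArithmeticFunction.vonMangoldt

/-- the digital product for the frequency `ρ` -/
noncomputable def Gr (b : ℕ) (c ρ : ℝ) (L s t : ℕ) : ℝ :=
  ∏ j ∈ Ico s t, (1 - c * nd ((D0 b : ℝ) * ρ * (b : ℝ) ^ (L - 2 - j)) ^ 2)

/-- the residue of `N - rv k` mod `Q = D0 b^J` is a function of the `2J` top digits of `k`, for `k ∈ KS` (`k ≡ r mod D0`):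
two such `k, k'` with the same prefix have `rv k ≡ rv k'` mod `b^(2J)` (`rv_mod`) and mod `D0` (`rv_mod_D0`), hence mod `Q` (coprime), and `rv k, rv k' < b^L ≤ N`.
Choose `F` by choice. -/
theorem exists_prefixF (b L J l r N : ℕ) (hb : 2 ≤ b) (hL : 1 ≤ L) (hJ : 2 * J ≤ L) (hl : l < b) (hN1 : b ^ (L + 1) ≤ N) :
    ∃ F : ℕ → ℕ, ∀ k ∈ KS b L l r, (N - rv b L k) % QQ b J = F (k / b ^ (L - 2 * J)) := by
  classical
  have hb1 : 1 ≤ b := by omega
  have hlt : ∀ k ∈ KS b L l r, k < b ^ L := by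
    intro k hk
    have h1 := (Finset.mem_Ico.1 (Finset.mem_filter.1 hk).1).2
    have h2 : (l + 1) * b ^ (L - 1) ≤ b * b ^ (L - 1) := Nat.mul_le_mul_right _ hl
    have h3 : b * b ^ (L - 1) = b ^ L := by
      obtain ⟨m, rfl⟩ := Nat.exists_eq_add_of_le' hL
      rw [Nat.add_sub_cancel]
      ring
    omega
  have hNL : b ^ L ≤ N := (Nat.pow_le_pow_right (by omega) (Nat.le_succ L)).trans hN1
  have key : ∀ k ∈ KS b L l r, ∀ k' ∈ KS b L l r, k / b ^ (L - 2 * J) = k' / b ^ (L - 2 * J) →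
      (N - rv b L k) % QQ b J = (N - rv b L k') % QQ b J := by
    intro k hk k' hk' he
    have h1 := hlt k hk
    have h2 := hlt k' hk'
    have h3 : rv b L k ≡ rv b L k' [MOD b ^ J] := by
      have h4 : rv b L k ≡ rv b L k' [MOD b ^ (2 * J)] := by
        unfold Nat.ModEq
        rw [rv_mod b L (2 * J) k hb1 hJ h1, rv_mod b L (2 * J) k' hb1 hJ h2, he]
      exact h4.of_dvd (pow_dvd_pow b (by omega))
    have h5 : rv b L k ≡ rv b L k' [MOD D0 b] := by
      have h6 := rv_mod_D0 b L k hb hL h1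
      have h7 := rv_mod_D0 b L k' hb hL h2
      have h8 : k ≡ k' [MOD D0 b] :=
        (Finset.mem_filter.1 hk).2.2.trans (Finset.mem_filter.1 hk').2.2.symm
      exact h6.trans ((h8.mul_left _).trans h7.symm)
    have hcop : (D0 b).Coprime (b ^ J) := by
      refine Nat.Coprime.pow_right _ ?_
      have h9 : b ^ 2 ≡ 1 [MOD D0 b] := by
        unfold D0
        exact ((Nat.modEq_iff_dvd' (Nat.one_le_pow _ _ (by omega))).2 dvd_rfl).symm
      have h4 := h9.gcd_eq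
      rw [Nat.gcd_one_left] at h4
      exact (Nat.Coprime.coprime_dvd_left (Dvd.intro_left (b ^ 1) (by ring)) h4).symm
    have h10 : rv b L k ≡ rv b L k' [MOD QQ b J] :=
      (Nat.modEq_and_modEq_iff_modEq_mul hcop).1 ⟨h5, h3⟩
    have r1 := (rv_lt b L k hb1).le.trans hNL
    have r2 := (rv_lt b L k' hb1).le.trans hNL
    have h11 : (N - rv b L k) + rv b L k ≡ (N - rv b L k') + rv b L k' [MOD QQ b J] := by
      rw [Nat.sub_add_cancel r1, Nat.sub_add_cancel r2]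
    exact Nat.ModEq.add_right_cancel h10 h11
  refine ⟨fun u => if h : ∃ k, k ∈ KS b L l r ∧ k / b ^ (L - 2 * J) = u then
    (N - rv b L h.choose) % QQ b J else 0, fun k hk => ?_⟩
  have hex : ∃ k', k' ∈ KS b L l r ∧ k' / b ^ (L - 2 * J) = k / b ^ (L - 2 * J) := ⟨k, hk, rfl⟩
  change _ = if h : ∃ k', k' ∈ KS b L l r ∧ k' / b ^ (L - 2 * J) = k / b ^ (L - 2 * J) then
    (N - rv b L h.choose) % QQ b J else 0
  rw [dif_pos hex]
  exact key k hk _ hex.choose_spec.1 hex.choose_spec.2.symm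

/-- the cell of `N - rv k` is a function of the `2J` low digits of `k`, except for few `k`.
`rv k = b^(L-2J) rv_{2J}(k % b^(2J)) + w`, `0 ≤ w < b^(L-2J)` (top digits of the reversal). With `z = N + τ - b^(L-2J) rv_{2J}(v)`, `v = k % b^(2J)`, the cell is `z/H` unless
`z % H < b^(L-2J)` (`H = D0 b^(L-J)`); there are at most `b^J + 2` values of `rv_{2J}(v)` that are bad (they are `≡` determined: `z` in `(t H - .., t H + b^(L-2J))`, one value of
`rv_{2J}(v)` for every multiple `tH` in an interval of length `b^L`), hence at most `(b^J+2) b^(L-2J) ≤ 3 b^(L-J)` bad `k < b^L` (`rv_{2J}` is injective). -/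
theorem exists_cell (b L J N τ : ℕ) (hb : 2 ≤ b) (hJ1 : 1 ≤ J) (hJ : 2 * J ≤ L) (hN1 : b ^ (L + 1) ≤ N) :
    ∃ (F : ℕ → ℕ) (E : Finset ℕ), E ⊆ range (b ^ L) ∧ (E.card : ℝ) ≤ 3 * (b : ℝ) ^ (L - J) ∧
      ∀ k < b ^ L, k ∉ E → (N - rv b L k + τ) / (QQ b J * HH b L J) = F (k % b ^ (2 * J)) := by
  classical
  have hb1 : 1 ≤ b := by omega
  have hb0 : 0 < b := by omega
  set W := b ^ (L - 2 * J) with hWdef
  have hW : 0 < W := pow_pos hb0 _
  have hQ : 0 < QQ b J := by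
    unfold QQ D0
    have h1 : 1 < b ^ 2 := Nat.one_lt_pow (by omega) (by omega)
    exact Nat.mul_pos (by omega) (pow_pos hb0 _)
  have hbJ : 0 < b ^ J := pow_pos hb0 _
  have hQJ : b ^ J ≤ QQ b J := by
    unfold QQ D0
    have h1 : 1 < b ^ 2 := Nat.one_lt_pow (by omega) (by omega)
    exact Nat.le_mul_of_pos_left _ (by omega)
  have hHH : HH b L J = W := rfl
  have hLL : L - (L - 2 * J) = 2 * J := by omega
  have hpow : b ^ L = W * b ^ (2 * J) := by
    rw [hWdef, ← pow_add]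
    congr 1
    omega
  have hNL : b ^ L ≤ N := (Nat.pow_le_pow_right (by omega) (Nat.le_succ L)).trans hN1
  set q := (N + τ) / W with hq
  have hsplit : ∀ k < b ^ L, rv b L k = rv b (L - 2 * J) (k / b ^ (2 * J)) +
      W * rv b (2 * J) (k % b ^ (2 * J)) := by
    intro k hk
    have h1 := rv_split b L (L - 2 * J) k hb1 (Nat.sub_le _ _) hk
    rw [hLL] at h1
    exact h1
  have hV : ∀ v, rv b (2 * J) v < b ^ (2 * J) := fun v => rv_lt b (2 * J) v hb1
  have hqV : ∀ v, rv b (2 * J) v ≤ q := by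
    intro v
    rw [hq, Nat.le_div_iff_mul_le hW]
    have h1 := hV v
    have h2 : rv b (2 * J) v * W ≤ b ^ (2 * J) * W := Nat.mul_le_mul_right _ h1.le
    rw [mul_comm (b ^ (2 * J)) W, ← hpow] at h2
    omega
  have hz : ∀ v, N + τ - W * rv b (2 * J) v = W * (q - rv b (2 * J) v) + (N + τ) % W := by
    intro v
    have h1 := Nat.div_add_mod (N + τ) W
    have h2 := hqV v
    rw [← hq] at h1
    have h3 : W * rv b (2 * J) v ≤ W * q := Nat.mul_le_mul_left _ h2
    rw [Nat.mul_sub]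
    omega
  have hr : (N + τ) % W < W := Nat.mod_lt _ hW
  refine ⟨fun v => (N + τ - W * rv b (2 * J) v) / (QQ b J * HH b L J),
    (range (b ^ L)).filter (fun k => (q - rv b (2 * J) (k % b ^ (2 * J))) % QQ b J = 0),
    Finset.filter_subset _ _, ?_, ?_⟩
  · have hcard : ((range (b ^ L)).filter
        (fun k => (q - rv b (2 * J) (k % b ^ (2 * J))) % QQ b J = 0)).card ≤
        (range W ×ˢ range (b ^ (2 * J) / QQ b J + 1)).card := by
      refine Finset.card_le_card_of_injOn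
        (fun k => (k / b ^ (2 * J), rv b (2 * J) (k % b ^ (2 * J)) / QQ b J)) ?_ ?_
      · intro k hk
        have hk1 := Finset.mem_filter.1 (Finset.mem_coe.1 hk)
        have hk2 := Finset.mem_range.1 hk1.1
        rw [Finset.mem_coe, Finset.mem_product]
        refine ⟨Finset.mem_range.2 ?_, Finset.mem_range.2 ?_⟩
        · change k / b ^ (2 * J) < W
          rw [Nat.div_lt_iff_lt_mul (pow_pos hb0 _), ← hpow]
          exact hk2
        · exact Nat.lt_succ_of_le (Nat.div_le_div_right (hV _).le)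
      · intro k hk k' hk' he
        have hk1 := (Finset.mem_filter.1 (Finset.mem_coe.1 hk)).2
        have hk1' := (Finset.mem_filter.1 (Finset.mem_coe.1 hk')).2
        have he1 : k / b ^ (2 * J) = k' / b ^ (2 * J) := (Prod.ext_iff.1 he).1
        have he2 : rv b (2 * J) (k % b ^ (2 * J)) / QQ b J =
          rv b (2 * J) (k' % b ^ (2 * J)) / QQ b J := (Prod.ext_iff.1 he).2
        have h3 : ∀ v, (q - rv b (2 * J) v) % QQ b J = 0 → rv b (2 * J) v ≡ q [MOD QQ b J] := by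
          intro v hv
          exact (Nat.modEq_iff_dvd' (hqV v)).2 (Nat.dvd_of_mod_eq_zero hv)
        have h4 : rv b (2 * J) (k % b ^ (2 * J)) % QQ b J =
            rv b (2 * J) (k' % b ^ (2 * J)) % QQ b J := (h3 _ hk1).trans (h3 _ hk1').symm
        have h5 : rv b (2 * J) (k % b ^ (2 * J)) = rv b (2 * J) (k' % b ^ (2 * J)) := by
          rw [← Nat.div_add_mod (rv b (2 * J) (k % b ^ (2 * J))) (QQ b J), he2, h4,
            Nat.div_add_mod]
        have h6 : k % b ^ (2 * J) = k' % b ^ (2 * J) :=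
          rv_injOn b (2 * J) hb1 (Nat.mod_lt _ (pow_pos hb0 _)) (Nat.mod_lt _ (pow_pos hb0 _)) h5
        rw [← Nat.div_add_mod k (b ^ (2 * J)), he1, h6, Nat.div_add_mod]
    rw [Finset.card_product, Finset.card_range, Finset.card_range] at hcard
    have h1 : b ^ (2 * J) / QQ b J ≤ b ^ J := by
      have h2 : b ^ (2 * J) / QQ b J ≤ b ^ (2 * J) / b ^ J := Nat.div_le_div_left hQJ hbJ
      have h3 : b ^ (2 * J) / b ^ J = b ^ J := by
        rw [two_mul, pow_add, Nat.mul_div_cancel _ hbJ]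
      omega
    have h4 : W * (b ^ (2 * J) / QQ b J + 1) ≤ W * (3 * b ^ J) :=
      Nat.mul_le_mul_left _ (by omega)
    have h5 : W * (3 * b ^ J) = 3 * b ^ (L - J) := by
      have e : L - J = (L - 2 * J) + J := by omega
      rw [e, pow_add, ← hWdef]
      ring
    have h6 := hcard.trans (h4.trans_eq h5)
    exact_mod_cast h6
  · intro k hk hkE
    have h1 : (q - rv b (2 * J) (k % b ^ (2 * J))) % QQ b J ≠ 0 := by
      intro h2
      exact hkE (Finset.mem_filter.2 ⟨Finset.mem_range.2 hk, h2⟩)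
    change (N - rv b L k + τ) / (QQ b J * HH b L J) =
      (N + τ - W * rv b (2 * J) (k % b ^ (2 * J))) / (QQ b J * HH b L J)
    rw [hHH]
    have h3 := hsplit k hk
    have h4 : rv b (L - 2 * J) (k / b ^ (2 * J)) < W := rv_lt b _ _ hb1
    have h5 := rv_lt b L k hb1
    have h6 := hz (k % b ^ (2 * J))
    have h7 : N - rv b L k + τ = (N + τ - W * rv b (2 * J) (k % b ^ (2 * J))) -
        rv b (L - 2 * J) (k / b ^ (2 * J)) := by
      omega
    rw [h7, h6]
    generalize rv b (L - 2 * J) (k / b ^ (2 * J)) = w at h4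
    generalize q - rv b (2 * J) (k % b ^ (2 * J)) = m at h1
    generalize (N + τ) % W = ρ at hr
    obtain ⟨t, s, hs, hm⟩ : ∃ t s, s < QQ b J ∧ m = QQ b J * t + s :=
      ⟨m / QQ b J, m % QQ b J, Nat.mod_lt _ hQ, (Nat.div_add_mod m _).symm⟩
    have hs0 : 0 < s := by
      rcases Nat.eq_zero_or_pos s with h8 | h8
      · exfalso
        apply h1
        rw [hm, h8, add_zero, Nat.mul_mod_right]
      · exact h8
    have h9 : W * m + ρ = QQ b J * W * t + (W * s + ρ) := by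
      rw [hm]
      ring
    have h10 : W * 1 ≤ W * s := Nat.mul_le_mul_left _ hs0
    have h11 : W * s + W ≤ QQ b J * W := by
      have h12 : W * (s + 1) ≤ W * QQ b J := Nat.mul_le_mul_left _ hs
      rw [mul_comm (QQ b J) W]
      have h13 : W * (s + 1) = W * s + W := by ring
      omega
    have h14 : W * m + ρ - w = QQ b J * W * t + (W * s + ρ - w) := by
      omega
    have hpos : 0 < QQ b J * W := Nat.mul_pos hQ hW
    rw [h14, h9, Nat.mul_add_div hpos, Nat.mul_add_div hpos, Nat.div_eq_of_lt (by omega),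
      Nat.div_eq_of_lt (by omega)]

/-- **digit form of the phase**: for `n < b^L`, `4J ≤ L`, any real `ρ` and `h`,
`e(-ρ rv n + h n/D0) = P(prefix) S(suffix) e(∑_{2J ≤ j < L-2J} α_j dg_j n)` with `α_j = -ρ b^(L-1-j) + h b^j/D0`, `P, S` unimodular
(digits `j ≥ L-2J` are functions of `n / b^(L-2J)`, digits `j < 2J` of `n % b^(2J)`; `sum_dg`). -/
theorem exists_phase (b L J : ℕ) (hb : 2 ≤ b) (hJ : 4 * J ≤ L) (ρ : ℝ) (h : ℕ) :
    ∃ P S : ℕ → ℂ, (∀ u, ‖P u‖ = 1) ∧ (∀ v, ‖S v‖ = 1) ∧ ∀ n < b ^ L,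
      ee (-(ρ * rv b L n) + (h : ℝ) * n / D0 b) = P (n / b ^ (L - 2 * J)) * S (n % b ^ (2 * J)) *
        ee (∑ j ∈ Ico (2 * J) (L - 2 * J), (-(ρ * (b : ℝ) ^ (L - 1 - j)) + (h : ℝ) * (b : ℝ) ^ j / D0 b) * dg b j n) := by
  have hb0 : 0 < b := by omega
  set K := L - 2 * J with hK
  refine ⟨fun u => ee (∑ j ∈ Ico K L, (-(ρ * (b : ℝ) ^ (L - 1 - j)) +
      (h : ℝ) * (b : ℝ) ^ j / D0 b) * dg b (j - K) u),
    fun v => ee (∑ j ∈ Ico 0 (2 * J), (-(ρ * (b : ℝ) ^ (L - 1 - j)) +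
      (h : ℝ) * (b : ℝ) ^ j / D0 b) * dg b j v), fun u => norm_ee _, fun v => norm_ee _, ?_⟩
  intro n hn
  change _ = ee (∑ j ∈ Ico K L, (-(ρ * (b : ℝ) ^ (L - 1 - j)) +
      (h : ℝ) * (b : ℝ) ^ j / D0 b) * dg b (j - K) (n / b ^ K)) *
      ee (∑ j ∈ Ico 0 (2 * J), (-(ρ * (b : ℝ) ^ (L - 1 - j)) +
      (h : ℝ) * (b : ℝ) ^ j / D0 b) * dg b j (n % b ^ (2 * J))) * _
  rw [← ee_add, ← ee_add]
  congr 1
  have e1 : ∑ j ∈ Ico K L, (-(ρ * (b : ℝ) ^ (L - 1 - j)) +
      (h : ℝ) * (b : ℝ) ^ j / D0 b) * dg b (j - K) (n / b ^ K) =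
      ∑ j ∈ Ico K L, (-(ρ * (b : ℝ) ^ (L - 1 - j)) +
      (h : ℝ) * (b : ℝ) ^ j / D0 b) * dg b j n := by
    refine Finset.sum_congr rfl fun j hj => ?_
    have hj1 := (Finset.mem_Ico.1 hj).1
    have h1 : dg b (j - K) (n / b ^ K) = dg b j n := by
      unfold dg
      rw [Nat.div_div_eq_div_mul, ← pow_add, Nat.add_sub_cancel' hj1]
    rw [h1]
  have e2 : ∑ j ∈ Ico 0 (2 * J), (-(ρ * (b : ℝ) ^ (L - 1 - j)) +
      (h : ℝ) * (b : ℝ) ^ j / D0 b) * dg b j (n % b ^ (2 * J)) =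
      ∑ j ∈ Ico 0 (2 * J), (-(ρ * (b : ℝ) ^ (L - 1 - j)) +
      (h : ℝ) * (b : ℝ) ^ j / D0 b) * dg b j n := by
    refine Finset.sum_congr rfl fun j hj => ?_
    have hj1 := (Finset.mem_Ico.1 hj).2
    have h1 : dg b j (n % b ^ (2 * J)) = dg b j n := by
      obtain ⟨m, hm⟩ := Nat.exists_eq_add_of_lt hj1
      unfold dg
      conv_rhs => rw [← Nat.mod_add_div n (b ^ (2 * J))]
      have e : b ^ (2 * J) * (n / b ^ (2 * J)) = b ^ j * (b * (b ^ m * (n / b ^ (2 * J)))) := by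
        generalize n / b ^ (2 * J) = t
        rw [hm]
        ring
      rw [e, Nat.add_mul_div_left _ _ (pow_pos hb0 j), Nat.add_mul_mod_self_left]
    rw [h1]
  have e3 : (rv b L n : ℝ) = ∑ j ∈ Ico 0 L, (dg b j n : ℝ) * (b : ℝ) ^ (L - 1 - j) := by
    unfold rv
    rw [Finset.range_eq_Ico]
    push_cast
    rfl
  have e4 : (n : ℝ) = ∑ j ∈ Ico 0 L, (dg b j n : ℝ) * (b : ℝ) ^ j := by
    conv_lhs => rw [← sum_dg b L n hb0 hn]
    rw [Finset.range_eq_Ico]
    push_cast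
    rfl
  have e5 : -(ρ * rv b L n) + (h : ℝ) * n / D0 b = ∑ j ∈ Ico 0 L, (-(ρ * (b : ℝ) ^ (L - 1 - j)) +
      (h : ℝ) * (b : ℝ) ^ j / D0 b) * dg b j n := by
    rw [e3]
    conv_lhs => rw [e4]
    rw [Finset.mul_sum, Finset.mul_sum, Finset.sum_div, ← Finset.sum_neg_distrib,
      ← Finset.sum_add_distrib]
    refine Finset.sum_congr rfl fun j _ => ?_
    ring
  have e6 := Finset.sum_Ico_consecutive (fun j => (-(ρ * (b : ℝ) ^ (L - 1 - j)) +
      (h : ℝ) * (b : ℝ) ^ j / D0 b) * (dg b j n : ℝ)) (Nat.zero_le (2 * J))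
      (show 2 * J ≤ K by omega)
  have e7 := Finset.sum_Ico_consecutive (fun j => (-(ρ * (b : ℝ) ^ (L - 1 - j)) +
      (h : ℝ) * (b : ℝ) ^ j / D0 b) * (dg b j n : ℝ)) (Nat.zero_le K)
      (show K ≤ L by omega)
  rw [e1, e2, e5, ← e7, ← e6]
  ring

end Pool.Agent.LibHG31
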