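import Pool.Agent.LibHG31.B3

/-! ROW B3b: the sum over `k` from block TT (with `2J` in place of `J`). -/

namespace Pool.Agent.LibHG31

open Finset
open scoped ArithmeticFunction.vonMangoldt

private theorem B3b_D0_pos (b : ℕ) (hb : 2 ≤ b) : 0 < D0 b := by
  unfold D0
  have : 2 ^ 2 ≤ b ^ 2 := Nat.pow_le_pow_left hb 2
  omega

private theorem B3b_II_lt (b L l n : ℕ) (hL : 1 ≤ L) (hl : l < b) (hn : n ∈ II b L l) :
    n < b ^ L := by
  unfold II at hn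
  rw [mem_Ico] at hn
  have h1 : (l + 1) * b ^ (L - 1) ≤ b * b ^ (L - 1) := Nat.mul_le_mul_right _ hl
  have h2 : b * b ^ (L - 1) = b ^ L := by
    rw [← pow_succ', Nat.sub_add_cancel hL]
  omega

private theorem B3b_GG (b : ℕ) (c ρ : ℝ) (L s t h : ℕ) (hb : 2 ≤ b) (ht : t ≤ L - 1) :
    GG b c (fun j => -(ρ * (b : ℝ) ^ (L - 1 - j)) + (h : ℝ) * (b : ℝ) ^ j / D0 b) s t =
      Gr b c ρ L s t := by
  unfold GG Gr
  refine Finset.prod_congr rfl fun j hj => ?_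
  rw [mem_Ico] at hj
  have hD : ((D0 b : ℕ) : ℝ) = (b : ℝ) ^ 2 - 1 := by
    unfold D0
    have : 1 ≤ b ^ 2 := Nat.one_le_pow _ _ (by omega)
    push_cast [Nat.cast_sub this]
    ring
  obtain ⟨m, hm⟩ : ∃ m, L = m + 2 + j := ⟨L - 2 - j, by omega⟩
  have e1 : L - 1 - j = m + 1 := by omega
  have e2 : L - 1 - (j + 1) = m := by omega
  have e3 : L - 2 - j = m := by omega
  have e : (b : ℝ) * (-(ρ * (b : ℝ) ^ (L - 1 - j)) + (h : ℝ) * (b : ℝ) ^ j / D0 b) -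
      (-(ρ * (b : ℝ) ^ (L - 1 - (j + 1))) + (h : ℝ) * (b : ℝ) ^ (j + 1) / D0 b) =
      -((D0 b : ℝ) * ρ * (b : ℝ) ^ (L - 2 - j)) := by
    rw [e1, e2, e3, pow_succ (b : ℝ) m, pow_succ (b : ℝ) j, hD]
    ring
  simp only [e, nd_neg]

private theorem B3b_detect (b L l r : ℕ) (hb : 2 ≤ b) (g : ℕ → ℂ) (x : ℕ → ℝ) :
    ∑ k ∈ KS b L l r, ((Λ k : ℝ) : ℂ) * (g k * ee (x k)) =
      (1 / (D0 b : ℂ)) * ∑ h ∈ range (D0 b), ee (-((h : ℝ) * r / D0 b)) *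
        ∑ n ∈ (II b L l).filter (fun n => n.Coprime b),
          ((Λ n : ℝ) : ℂ) * (g n * ee (x n + (h : ℝ) * n / D0 b)) := by
  have hD := B3b_D0_pos b hb
  have hD' : (D0 b : ℂ) ≠ 0 := by exact_mod_cast hD.ne'
  have h1 : KS b L l r = ((II b L l).filter (fun n => n.Coprime b)).filter
      (fun k => k ≡ r [MOD D0 b]) := by
    unfold KS
    rw [Finset.filter_filter]
  rw [h1, Finset.sum_filter]
  have h2 : ∀ h ∈ range (D0 b), ee (-((h : ℝ) * r / D0 b)) *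
        ∑ n ∈ (II b L l).filter (fun n => n.Coprime b),
          ((Λ n : ℝ) : ℂ) * (g n * ee (x n + (h : ℝ) * n / D0 b)) =
      ∑ n ∈ (II b L l).filter (fun n => n.Coprime b),
          ((Λ n : ℝ) : ℂ) * (g n * ee (x n)) * ee (h * ((((n : ℤ) - r : ℤ) : ℝ) / D0 b)) := by
    intro h _
    rw [Finset.mul_sum]
    refine Finset.sum_congr rfl fun n _ => ?_
    have e : ee (-((h : ℝ) * r / D0 b)) * ee (x n + (h : ℝ) * n / D0 b) =
        ee (x n) * ee (h * ((((n : ℤ) - r : ℤ) : ℝ) / D0 b)) := by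
      rw [← ee_add, ← ee_add]
      congr 1
      push_cast
      ring
    calc _ = ((Λ n : ℝ) : ℂ) * g n *
          (ee (-((h : ℝ) * r / D0 b)) * ee (x n + (h : ℝ) * n / D0 b)) := by ring
      _ = _ := by rw [e]; ring
  rw [Finset.sum_congr rfl h2, Finset.sum_comm, Finset.mul_sum]
  refine Finset.sum_congr rfl fun n _ => ?_
  rw [← Finset.mul_sum, sum_ee_div (D0 b) hD ((n : ℤ) - r)]
  have h3 : (n ≡ r [MOD D0 b]) ↔ ((D0 b : ℕ) : ℤ) ∣ (n : ℤ) - r := by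
    rw [Nat.modEq_iff_dvd, ← dvd_neg, neg_sub]
  by_cases h4 : n ≡ r [MOD D0 b]
  · rw [if_pos h4, if_pos (h3.1 h4)]
    field_simp
  · rw [if_neg h4, if_neg (fun h => h4 (h3.2 h))]
    simp

/-- **(X2)**. Detect `k ≡ r mod D0` by `(1/D0) ∑_h e(h(k-r)/D0)` (`sum_ee_div`); replace the cell by `F(suffix)` outside `E` (the error is `≤ 2 L log b * 3 b^(L-J)`:
first on `KS`, again when the sum is extended to `II.filter coprime`; simplest: replace before extending). Then each `h` is a sum of `TTStmt` with `2J`, `Om u v = ω (F₁ u) (F₂ v) P u S v`,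
`α_j` as above: `b α_j - α_(j+1) = -ρ b^(L-j) + ρ b^(L-2-j) = -D0 ρ b^(L-2-j)` (`j ≤ L-2`), so `GG b c₁ α s t = Gr b c₁ ρ L s t` for `t ≤ L - 1`. -/
theorem X2_le (b : ℕ) (hb : 2 ≤ b) (hTT : TTStmt b) :
    ∃ (D : ℕ) (c₁ c C : ℝ), 2 ≤ D ∧ 0 < c₁ ∧ c₁ < 1 ∧ 0 < c ∧ 0 < C ∧
    ∃ (A₁ A₂ : ℕ), 2 ≤ A₂ ∧ A₂ < A₁ ∧
    ∀ (L J l r N : ℕ), D ≤ L → D * J ≤ L → 1 ≤ J → 1 ≤ l → l < b → b ^ (L + 1) ≤ N → N < b ^ (L + 2) →
    ∀ (ρ : ℝ) (τ : ℕ) (ω : ℕ → ℕ → ℂ), (∀ u v, ‖ω u v‖ = 1) →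
    ‖∑ k ∈ KS b L l r, ((Λ k : ℝ) : ℂ) * (ω ((N - rv b L k) % QQ b J) ((N - rv b L k + τ) / (QQ b J * HH b L J)) *
        ee (-(ρ * rv b L k)))‖ ≤
        C * (b : ℝ) ^ L * (L : ℝ) ^ D *
          ((Gr b c₁ ρ L (L / A₁) (L / A₂)) ^ c + (b : ℝ) ^ (-(c * L)) + (b : ℝ) ^ (-(J : ℝ))) := by
  obtain ⟨D', c₁, c, C, hD', hc1, hc1', hc, hC, A₁, A₂, hA2, hA12, hT⟩ := hTT
  have hb0 : (0 : ℝ) < b := by exact_mod_cast (by omega : 0 < b)
  have hlogb : 0 < Real.log b := Real.log_pos (by exact_mod_cast (by omega : 1 < b))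
  refine ⟨2 * D' + 4, c₁, c, C + 6 * Real.log b, by omega, hc1, hc1', hc, by positivity,
    A₁, A₂, hA2, hA12, ?_⟩
  intro L J l r N hL hJ hJ1 hl1 hlb hN1 hN2 ρ τ ω hω
  have hL1 : 1 ≤ L := by omega
  have h4J : 4 * J ≤ L := by nlinarith [Nat.zero_le (D' * J)]
  have hDJ : D' * (2 * J) ≤ L := by nlinarith
  obtain ⟨F₁, hF₁⟩ := exists_prefixF b L J l r N hb hL1 (by omega) hlb hN1
  obtain ⟨F₂, E, hE, hEc, hF₂⟩ := exists_cell b L J N τ hb hJ1 (by omega) hN1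
  have hD := B3b_D0_pos b hb
  have hKlt : ∀ k ∈ KS b L l r, k < b ^ L := fun k hk =>
    B3b_II_lt b L l k hL1 hlb (Finset.mem_filter.1 hk).1
  have hΛ : ∀ k, k < b ^ L → Λ k ≤ L * Real.log b := by
    intro k hk
    rcases Nat.eq_zero_or_pos k with h0 | h0
    · subst h0
      simp only [ArithmeticFunction.map_zero]
      positivity
    · refine ArithmeticFunction.vonMangoldt_le_log.trans ?_
      rw [← Real.log_pow]
      exact Real.log_le_log (by exact_mod_cast h0) (by exact_mod_cast hk.le)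
  obtain ⟨g, hg⟩ : ∃ g : ℕ → ℂ, g = fun n => ω (F₁ (n / b ^ (L - 2 * J))) (F₂ (n % b ^ (2 * J))) :=
    ⟨_, rfl⟩
  have hgn : ∀ n, ‖g n‖ = 1 := by
    intro n
    rw [hg]
    exact hω _ _
  obtain ⟨B, hB⟩ : ∃ B, B = C * (b : ℝ) ^ L * (L : ℝ) ^ D' *
          ((Gr b c₁ ρ L (L / A₁) (L / A₂)) ^ c + (b : ℝ) ^ (-(c * L))) := ⟨_, rfl⟩
  -- the sum for each `h`
  have hmain : ∀ h : ℕ, ‖∑ n ∈ (II b L l).filter (fun n => n.Coprime b),
      ((Λ n : ℝ) : ℂ) * (g n * ee (-(ρ * rv b L n) + (h : ℝ) * n / D0 b))‖ ≤ B := by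
    intro h
    obtain ⟨P, S, hP, hS, hPS⟩ := exists_phase b L J hb h4J ρ h
    have h1 := hT L (2 * J) l (by omega) hDJ (by omega) hl1 hlb
      (fun j => -(ρ * (b : ℝ) ^ (L - 1 - j)) + (h : ℝ) * (b : ℝ) ^ j / D0 b)
      (fun u v => ω (F₁ u) (F₂ v) * (P u * S v)) (by
        intro u v
        rw [norm_mul, norm_mul, hω, hP, hS]
        norm_num)
    rw [B3b_GG b c₁ ρ L (L / A₁) (L / A₂) h hb (by
      have h2 : L / A₂ ≤ L / 2 := Nat.div_le_div_left hA2 (by norm_num)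
      omega)] at h1
    rw [hB]
    refine le_trans (le_of_eq ?_) h1
    congr 1
    refine Finset.sum_congr rfl fun n hn => ?_
    have hn' := B3b_II_lt b L l n hL1 hlb (Finset.mem_filter.1 hn).1
    rw [hPS n hn', hg]
    unfold ff
    ring
  -- the main sum
  have hM : ‖∑ k ∈ KS b L l r, ((Λ k : ℝ) : ℂ) * (g k * ee (-(ρ * rv b L k)))‖ ≤ B := by
    rw [B3b_detect b L l r hb g (fun k => -(ρ * rv b L k)), norm_mul]
    have h1 : ‖∑ h ∈ range (D0 b), ee (-((h : ℝ) * r / D0 b)) *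
        ∑ n ∈ (II b L l).filter (fun n => n.Coprime b),
          ((Λ n : ℝ) : ℂ) * (g n * ee (-(ρ * rv b L n) + (h : ℝ) * n / D0 b))‖ ≤ D0 b * B := by
      refine (norm_sum_le _ _).trans ?_
      have h2 : ∀ h ∈ range (D0 b), ‖ee (-((h : ℝ) * r / D0 b)) *
        ∑ n ∈ (II b L l).filter (fun n => n.Coprime b),
          ((Λ n : ℝ) : ℂ) * (g n * ee (-(ρ * rv b L n) + (h : ℝ) * n / D0 b))‖ ≤ B := by
        intro h _
        rw [norm_mul, norm_ee, one_mul]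
        exact hmain h
      refine (Finset.sum_le_sum h2).trans (le_of_eq ?_)
      rw [Finset.sum_const, card_range, nsmul_eq_mul]
    have hDr : (0 : ℝ) < D0 b := by exact_mod_cast hD
    have h3 : ‖(1 / (D0 b : ℂ))‖ = 1 / (D0 b : ℝ) := by
      rw [norm_div, norm_one, Complex.norm_natCast]
    rw [h3]
    calc 1 / (D0 b : ℝ) * _ ≤ 1 / (D0 b : ℝ) * (D0 b * B) :=
          mul_le_mul_of_nonneg_left h1 (by positivity)
      _ = B := by field_simp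
  -- the error
  have hErr : ‖∑ k ∈ KS b L l r, (((Λ k : ℝ) : ℂ) * (ω ((N - rv b L k) % QQ b J)
        ((N - rv b L k + τ) / (QQ b J * HH b L J)) * ee (-(ρ * rv b L k))) -
        ((Λ k : ℝ) : ℂ) * (g k * ee (-(ρ * rv b L k))))‖ ≤
        (3 * (b : ℝ) ^ (L - J)) * (2 * (L * Real.log b)) := by
    refine (norm_sum_le _ _).trans ?_
    have h1 : ∀ k ∈ KS b L l r, ‖((Λ k : ℝ) : ℂ) * (ω ((N - rv b L k) % QQ b J)
        ((N - rv b L k + τ) / (QQ b J * HH b L J)) * ee (-(ρ * rv b L k))) -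
        ((Λ k : ℝ) : ℂ) * (g k * ee (-(ρ * rv b L k)))‖ ≤
        if k ∈ E then 2 * (L * Real.log b) else 0 := by
      intro k hk
      have hkl := hKlt k hk
      split_ifs with hkE
      · have h2 : ‖((Λ k : ℝ) : ℂ) * (ω ((N - rv b L k) % QQ b J)
            ((N - rv b L k + τ) / (QQ b J * HH b L J)) * ee (-(ρ * rv b L k)))‖ = Λ k := by
          rw [norm_mul, norm_mul, hω, norm_ee, Complex.norm_real, Real.norm_eq_abs,
            abs_of_nonneg ArithmeticFunction.vonMangoldt_nonneg]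
          ring
        have h3 : ‖((Λ k : ℝ) : ℂ) * (g k * ee (-(ρ * rv b L k)))‖ = Λ k := by
          rw [norm_mul, norm_mul, hgn, norm_ee, Complex.norm_real, Real.norm_eq_abs,
            abs_of_nonneg ArithmeticFunction.vonMangoldt_nonneg]
          ring
        refine (norm_sub_le _ _).trans ?_
        rw [h2, h3]
        have := hΛ k hkl
        linarith
      · rw [hF₁ k hk, hF₂ k hkl hkE, hg]
        simp
    refine (Finset.sum_le_sum h1).trans ?_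
    rw [← Finset.sum_filter, Finset.sum_const, nsmul_eq_mul]
    have h4 : (((KS b L l r).filter (fun k => k ∈ E)).card : ℝ) ≤ 3 * (b : ℝ) ^ (L - J) := by
      refine le_trans ?_ hEc
      exact_mod_cast Finset.card_le_card fun k hk => (Finset.mem_filter.1 hk).2
    exact mul_le_mul_of_nonneg_right h4 (by positivity)
  rw [Finset.sum_sub_distrib] at hErr
  have hfin := norm_le_norm_sub_add (∑ k ∈ KS b L l r, ((Λ k : ℝ) : ℂ) *
      (ω ((N - rv b L k) % QQ b J) ((N - rv b L k + τ) / (QQ b J * HH b L J)) *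
        ee (-(ρ * rv b L k))))
      (∑ k ∈ KS b L l r, ((Λ k : ℝ) : ℂ) * (g k * ee (-(ρ * rv b L k))))
  have hLr : (1 : ℝ) ≤ L := by exact_mod_cast hL1
  have hpow : (b : ℝ) ^ (L - J) = (b : ℝ) ^ L * (b : ℝ) ^ (-(J : ℝ)) := by
    rw [Real.rpow_neg hb0.le, Real.rpow_natCast, pow_sub₀ _ hb0.ne' (by omega)]
  have hGr : 0 ≤ Gr b c₁ ρ L (L / A₁) (L / A₂) := by
    unfold Gr
    refine Finset.prod_nonneg fun j _ => ?_
    have h1 := nd_nonneg ((D0 b : ℝ) * ρ * (b : ℝ) ^ (L - 2 - j))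
    have h2 := nd_le_half ((D0 b : ℝ) * ρ * (b : ℝ) ^ (L - 2 - j))
    nlinarith [sq_nonneg (nd ((D0 b : ℝ) * ρ * (b : ℝ) ^ (L - 2 - j)))]
  obtain ⟨G, hG⟩ : ∃ G, G = (Gr b c₁ ρ L (L / A₁) (L / A₂)) ^ c + (b : ℝ) ^ (-(c * L)) := ⟨_, rfl⟩
  have hG0 : 0 ≤ G := by
    rw [hG]
    have := Real.rpow_nonneg hGr c
    positivity
  rw [← hG] at hB ⊢
  have hP1 : (L : ℝ) ^ D' ≤ (L : ℝ) ^ (2 * D' + 4) := pow_le_pow_right₀ hLr (by omega)
  have hP2 : (L : ℝ) ≤ (L : ℝ) ^ (2 * D' + 4) := by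
    calc (L : ℝ) = (L : ℝ) ^ 1 := (pow_one _).symm
      _ ≤ _ := pow_le_pow_right₀ hLr (by omega)
  obtain ⟨Y, hY⟩ : ∃ Y, Y = (b : ℝ) ^ (-(J : ℝ)) := ⟨_, rfl⟩
  have hY0 : 0 ≤ Y := by
    rw [hY]
    positivity
  rw [← hY] at hpow ⊢
  obtain ⟨Z, hZ⟩ : ∃ Z, Z = (L : ℝ) ^ (2 * D' + 4) := ⟨_, rfl⟩
  rw [← hZ] at hP1 hP2 ⊢
  have hZ0 : 0 ≤ Z := by linarith
  have hbL : 0 ≤ (b : ℝ) ^ L := by positivity
  have e1 : B ≤ C * (b : ℝ) ^ L * Z * G := by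
    rw [hB]
    gcongr
  have e2 : (3 * (b : ℝ) ^ (L - J)) * (2 * (L * Real.log b)) ≤
      6 * Real.log b * (b : ℝ) ^ L * Z * Y := by
    rw [hpow]
    calc (3 * ((b : ℝ) ^ L * Y)) * (2 * (L * Real.log b)) =
          6 * Real.log b * (b : ℝ) ^ L * L * Y := by ring
      _ ≤ 6 * Real.log b * (b : ℝ) ^ L * Z * Y := by gcongr
  have e3 : 0 ≤ 6 * Real.log b * (b : ℝ) ^ L * Z * G := by positivity
  have e4 : 0 ≤ C * (b : ℝ) ^ L * Z * Y := by positivity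
  have e5 : (C + 6 * Real.log b) * (b : ℝ) ^ L * Z * (G + Y) =
      C * (b : ℝ) ^ L * Z * G + 6 * Real.log b * (b : ℝ) ^ L * Z * Y +
      (6 * Real.log b * (b : ℝ) ^ L * Z * G + C * (b : ℝ) ^ L * Z * Y) := by ring
  rw [e5]
  linarith

end Pool.Agent.LibHG31
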