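import Pool.Agent.LibHG31.A3

/-! ROW B4: counting fractions by their expansions (elementary). -/

namespace Pool.Agent.LibHG31

open Finset

/-- digit at place `i` in the nearest-integer expansion of `x`: `d_i = round(b^(i+1) x) - b round(b^i x)` -/
noncomputable def sdig (b : ℕ) (x : ℝ) (i : ℕ) : ℤ := round ((b : ℝ) ^ (i + 1) * x) - b * round ((b : ℝ) ^ i * x)

/-- `|d_i| ≤ 1/2 + b/2` -/
theorem abs_sdig_le (b : ℕ) (x : ℝ) (i : ℕ) : 2 * |sdig b x i| ≤ b + 1 := by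
  have h1 := abs_sub_round ((b : ℝ) ^ (i + 1) * x)
  have h2 := abs_sub_round ((b : ℝ) ^ i * x)
  have h3 : (sdig b x i : ℝ) = -((b : ℝ) ^ (i + 1) * x - round ((b : ℝ) ^ (i + 1) * x)) +
      b * ((b : ℝ) ^ i * x - round ((b : ℝ) ^ i * x)) := by
    unfold sdig
    push_cast
    ring
  have h4 : |(sdig b x i : ℝ)| ≤ 1 / 2 + b * (1 / 2) := by
    rw [h3]
    refine (abs_add_le _ _).trans ?_
    rw [abs_neg, abs_mul, Nat.abs_cast]
    apply add_le_add h1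
    exact mul_le_mul_of_nonneg_left h2 (by positivity)
  have h5 : (2 : ℝ) * |(sdig b x i : ℝ)| ≤ b + 1 := by linarith
  have h6 : ((2 * |sdig b x i| : ℤ) : ℝ) ≤ ((b + 1 : ℤ) : ℝ) := by
    push_cast
    exact h5
  exact_mod_cast h6

/-- if `nd(b^i x) < 1/(2b)` then `|b^(i+1) x - b round(b^i x)| < 1/2`, so `d_i = 0` -/
theorem nd_of_sdig_ne (b : ℕ) (hb : 1 ≤ b) (x : ℝ) (i : ℕ) (h : sdig b x i ≠ 0) :
    1 / (2 * (b : ℝ)) ≤ nd ((b : ℝ) ^ i * x) := by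
  by_contra hlt
  rw [not_le] at hlt
  apply h
  have hb0 : (0 : ℝ) < b := by exact_mod_cast hb
  unfold nd at hlt
  have h1 : |(b : ℝ) ^ (i + 1) * x - ((b * round ((b : ℝ) ^ i * x) : ℤ) : ℝ)| < 1 / 2 := by
    have e : (b : ℝ) ^ (i + 1) * x - ((b * round ((b : ℝ) ^ i * x) : ℤ) : ℝ) =
        b * ((b : ℝ) ^ i * x - round ((b : ℝ) ^ i * x)) := by
      push_cast
      ring
    rw [e, abs_mul, Nat.abs_cast]
    calc (b : ℝ) * |(b : ℝ) ^ i * x - round ((b : ℝ) ^ i * x)| < b * (1 / (2 * (b : ℝ))) :=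
          mul_lt_mul_of_pos_left hlt hb0
      _ = 1 / 2 := by field_simp
  have h2 : round ((b : ℝ) ^ (i + 1) * x) = b * round ((b : ℝ) ^ i * x) := by
    rw [round_eq, Int.floor_eq_iff]
    rw [abs_lt] at h1
    constructor
    · linarith [h1.1]
    · linarith [h1.2]
  unfold sdig
  rw [h2, sub_self]

/-- telescoping: `b^s x - round(b^s x) = ∑_{i<w} d_(s+i) b^(-i-1) + b^(-w) (b^(s+w) x - round(b^(s+w) x))` -/
theorem sdig_sum (b : ℕ) (hb : 1 ≤ b) (x : ℝ) (s w : ℕ) :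
    (b : ℝ) ^ s * x - round ((b : ℝ) ^ s * x) = ∑ i ∈ range w, (sdig b x (s + i) : ℝ) / (b : ℝ) ^ (i + 1) +
      ((b : ℝ) ^ (s + w) * x - round ((b : ℝ) ^ (s + w) * x)) / (b : ℝ) ^ w := by
  have hb0 : (b : ℝ) ≠ 0 := by
    have : b ≠ 0 := by omega
    exact_mod_cast this
  induction w with
  | zero => simp
  | succ w ih =>
    rw [ih, Finset.sum_range_succ, add_assoc]
    congr 1
    unfold sdig
    have e : s + (w + 1) = s + w + 1 := by ring
    rw [e]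
    push_cast
    field_simp
    ring

private theorem B4_den_mul_int (n : ℕ) (y : ℚ) : ((n : ℚ) * y).den ∣ y.den := by
  have h := Rat.mul_den_dvd (n : ℚ) y
  rw [Rat.den_natCast, one_mul] at h
  exact h

/-- injectivity: equal digits in a window of length `w`, `b^w > Q²`, denominators `≤ Q` and coprime to `b`, `x, y ∈ [0,1)`.
By `sdig_sum`, `b^s (x - y)` is within `b^(-w) < 1/Q²` of an integer, and its denominator divides `den x * den y ≤ Q²`; by `nd_rat` it is an integer, hence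
`x - y` is an integer (its denominator is coprime to `b`), hence `x = y`. -/
theorem sdig_inj (b : ℕ) (hb : 2 ≤ b) (Q w s : ℕ) (hQ : Q ^ 2 < b ^ w) (x y : ℚ) (hx0 : 0 ≤ x) (hx1 : x < 1) (hy0 : 0 ≤ y)
    (hy1 : y < 1) (hxd : x.den ≤ Q) (hyd : y.den ≤ Q) (hxb : x.den.Coprime b) (hyb : y.den.Coprime b)
    (h : ∀ i < w, sdig b x (s + i) = sdig b y (s + i)) : x = y := by
  by_contra hne
  have hb0 : (0 : ℝ) < b := by exact_mod_cast (by omega : 0 < b)
  have hQpos : 0 < Q := lt_of_lt_of_le x.den_pos hxd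
  set z : ℚ := x - y with hz
  have hzd : z.den ∣ x.den * y.den := Rat.sub_den_dvd x y
  have hz1 : z.den ≠ 1 := by
    intro h1
    have h2 : (z.num : ℚ) = z := (Rat.den_eq_one_iff _).1 h1
    have h3 : |z| < 1 := by
      rw [abs_lt, hz]
      constructor <;> linarith
    rw [← h2] at h3
    have h4 : |z.num| < 1 := by exact_mod_cast h3
    have h5 : z.num = 0 := Int.abs_lt_one_iff.1 h4
    rw [h5] at h2
    apply hne
    have : z = 0 := by rw [← h2]; simp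
    linarith
  have hcop : (b ^ s).Coprime z.den := by
    apply Nat.Coprime.pow_left
    exact (Nat.Coprime.coprime_dvd_left hzd (Nat.Coprime.mul_left hxb hyb)).symm
  have h1 := A3_den_ne_one z (b ^ s) hz1 hcop
  have h2 := nd_rat _ (x.den * y.den) (Nat.mul_pos x.den_pos y.den_pos) ((B4_den_mul_int _ _).trans hzd) h1
  have e1 := sdig_sum b (by omega) (x : ℝ) s w
  have e2 := sdig_sum b (by omega) (y : ℝ) s w
  have e3 : ∑ i ∈ range w, (sdig b (x : ℝ) (s + i) : ℝ) / (b : ℝ) ^ (i + 1) =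
      ∑ i ∈ range w, (sdig b (y : ℝ) (s + i) : ℝ) / (b : ℝ) ^ (i + 1) :=
    Finset.sum_congr rfl fun i hi => by rw [h i (mem_range.1 hi)]
  rw [e3] at e1
  have h3 : nd ((((b ^ s : ℕ) : ℚ) * z : ℚ) : ℝ) ≤ 1 / (b : ℝ) ^ w := by
    have h4 := nd_le_abs_sub ((((b ^ s : ℕ) : ℚ) * z : ℚ) : ℝ) (round ((b : ℝ) ^ s * x) - round ((b : ℝ) ^ s * y))
    refine h4.trans ?_
    have e4 : ((((b ^ s : ℕ) : ℚ) * z : ℚ) : ℝ) - ((round ((b : ℝ) ^ s * x) - round ((b : ℝ) ^ s * y) : ℤ) : ℝ) =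
        (((b : ℝ) ^ (s + w) * x - round ((b : ℝ) ^ (s + w) * x)) - ((b : ℝ) ^ (s + w) * y - round ((b : ℝ) ^ (s + w) * y))) /
          (b : ℝ) ^ w := by
      rw [sub_div]
      rw [hz]
      push_cast
      linarith
    rw [e4, abs_div, abs_of_pos (show (0 : ℝ) < (b : ℝ) ^ w by positivity)]
    apply div_le_div_of_nonneg_right _ (by positivity)
    refine (abs_sub _ _).trans ?_
    have h5 := abs_sub_round ((b : ℝ) ^ (s + w) * x)
    have h6 := abs_sub_round ((b : ℝ) ^ (s + w) * y)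
    linarith
  have h4 : 1 / (b : ℝ) ^ w < 1 / ((x.den * y.den : ℕ) : ℝ) := by
    apply one_div_lt_one_div_of_lt
    · exact_mod_cast Nat.mul_pos x.den_pos y.den_pos
    · have h5 : x.den * y.den ≤ Q ^ 2 := by
        rw [sq]
        exact Nat.mul_le_mul hxd hyd
      exact_mod_cast lt_of_le_of_lt h5 hQ
  linarith

/-- not all digits vanish -/
theorem sdig_ne (b : ℕ) (hb : 2 ≤ b) (Q w s : ℕ) (hQ : Q ^ 2 < b ^ w) (x : ℚ) (hxd : x.den ≤ Q) (hxb : x.den.Coprime b)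
    (hx : x.den ≠ 1) : ∃ i < w, sdig b x (s + i) ≠ 0 := by
  by_contra hno
  push_neg at hno
  have hb0 : (0 : ℝ) < b := by exact_mod_cast (by omega : 0 < b)
  have hQpos : 0 < Q := lt_of_lt_of_le x.den_pos hxd
  have hcop : (b ^ s).Coprime x.den := by
    apply Nat.Coprime.pow_left
    exact hxb.symm
  have h1 := A3_den_ne_one x (b ^ s) hx hcop
  have h2 := nd_rat _ x.den x.den_pos (B4_den_mul_int _ _) h1
  have e1 := sdig_sum b (by omega) (x : ℝ) s w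
  have e3 : ∑ i ∈ range w, (sdig b (x : ℝ) (s + i) : ℝ) / (b : ℝ) ^ (i + 1) = 0 :=
    Finset.sum_eq_zero fun i hi => by rw [hno i (mem_range.1 hi)]; simp
  rw [e3, zero_add] at e1
  have h3 : nd ((((b ^ s : ℕ) : ℚ) * x : ℚ) : ℝ) ≤ (1 / 2) / (b : ℝ) ^ w := by
    have h4 := nd_le_abs_sub ((((b ^ s : ℕ) : ℚ) * x : ℚ) : ℝ) (round ((b : ℝ) ^ s * x))
    refine h4.trans ?_
    push_cast
    rw [e1, abs_div, abs_of_pos (show (0 : ℝ) < (b : ℝ) ^ w by positivity)]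
    exact div_le_div_of_nonneg_right (abs_sub_round _) (by positivity)
  have h4 : (1 / 2) / (b : ℝ) ^ w < 1 / (x.den : ℝ) := by
    have h5 : (x.den : ℝ) < (b : ℝ) ^ w := by
      have h6 : x.den ≤ Q ^ 2 := hxd.trans (by nlinarith)
      exact_mod_cast lt_of_le_of_lt h6 hQ
    have h7 : (0 : ℝ) < x.den := by exact_mod_cast x.den_pos
    rw [div_lt_div_iff₀ (by positivity) h7]
    linarith
  linarith

/-- **one window**: `∑_x ∏_{i in window} λ^{[d_i ≠ 0]} ≤ (1 + (b+1) λ)^w - 1` for `0 ≤ λ ≤ 1`: `x ↦ (d_(s+i))_{i<w}` is injective (`sdig_inj`) into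
the nonzero vectors of `{-(b+1)/2,..,(b+1)/2}^w` (at most `b+1` nonzero values), and `∑_{all vectors} ∏ λ^{[d_i≠0]} = (1 + #nonzero λ)^w`
(`Finset.prod_univ_sum` / `Fintype.piFinset`). -/
theorem one_window_le (b : ℕ) (hb : 2 ≤ b) (Q w s : ℕ) (hQ : Q ^ 2 < b ^ w) (T : Finset ℚ)
    (hT : ∀ x ∈ T, 0 ≤ x ∧ x < 1 ∧ x.den ≤ Q ∧ x.den.Coprime b ∧ x.den ≠ 1) (lam : ℝ) (h0 : 0 ≤ lam) (h1 : lam ≤ 1) :
    ∑ x ∈ T, ∏ i ∈ range w, (if sdig b (x : ℝ) (s + i) = 0 then 1 else lam) ≤ (1 + (b + 1) * lam) ^ w - 1 := by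
  classical
  -- the alphabet
  set V : Finset ℤ := (Finset.Icc (-(((b + 1) / 2 : ℕ) : ℤ)) (((b + 1) / 2 : ℕ) : ℤ)) with hV
  have hV0 : (0 : ℤ) ∈ V := by
    rw [hV, mem_Icc]
    constructor <;> omega
  have hVcard : ((V.erase 0).card : ℝ) ≤ b + 1 := by
    rw [card_erase_of_mem hV0, hV, Int.card_Icc]
    have : ((((b + 1) / 2 : ℕ) : ℤ) + 1 - -(((b + 1) / 2 : ℕ) : ℤ)).toNat - 1 ≤ b + 1 := by omega
    exact_mod_cast this
  have hsum : ∑ d ∈ V, (if d = 0 then (1 : ℝ) else lam) ≤ 1 + (b + 1) * lam := by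
    rw [← Finset.add_sum_erase V _ hV0, if_pos rfl]
    have : ∑ d ∈ V.erase 0, (if d = 0 then (1 : ℝ) else lam) = (V.erase 0).card * lam := by
      rw [Finset.sum_congr rfl (fun d hd => if_neg (Finset.ne_of_mem_erase hd)), Finset.sum_const, nsmul_eq_mul]
    rw [this]
    have := mul_le_mul_of_nonneg_right hVcard h0
    linarith
  have hsum0 : 0 ≤ ∑ d ∈ V, (if d = 0 then (1 : ℝ) else lam) :=
    Finset.sum_nonneg fun d _ => by split_ifs <;> linarith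
  -- the code
  set code : ℚ → (Fin w → ℤ) := fun x i => sdig b (x : ℝ) (s + i) with hcode
  have hmem : ∀ x ∈ T, code x ∈ (Fintype.piFinset fun _ : Fin w => V).erase 0 := by
    intro x hx
    rw [mem_erase, Fintype.mem_piFinset]
    constructor
    · intro h
      obtain ⟨i, hi, hne⟩ := sdig_ne b hb Q w s hQ x (hT x hx).2.2.1 (hT x hx).2.2.2.1 (hT x hx).2.2.2.2
      exact hne (congrFun h ⟨i, hi⟩)
    · intro i
      have h2 := abs_sdig_le b (x : ℝ) (s + i)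
      rw [hV, mem_Icc]
      have h3 : |sdig b (x : ℝ) (s + i)| ≤ (((b + 1) / 2 : ℕ) : ℤ) := by omega
      exact abs_le.1 h3
  have hinj : Set.InjOn code T := by
    intro x hx y hy hxy
    obtain ⟨x0, x1, x2, x3, _⟩ := hT x hx
    obtain ⟨y0, y1, y2, y3, _⟩ := hT y hy
    exact sdig_inj b hb Q w s hQ x y x0 x1 y0 y1 x2 y2 x3 y3 fun i hi => congrFun hxy ⟨i, hi⟩
  have h2 : ∀ x ∈ T, ∏ i ∈ range w, (if sdig b (x : ℝ) (s + i) = 0 then 1 else lam) =
      ∏ i : Fin w, (if code x i = 0 then 1 else lam) := by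
    intro x _
    rw [← Fin.prod_univ_eq_prod_range (fun i => if sdig b (x : ℝ) (s + i) = 0 then (1 : ℝ) else lam)]
  rw [Finset.sum_congr rfl h2]
  have h3 : ∑ x ∈ T, ∏ i : Fin w, (if code x i = 0 then (1 : ℝ) else lam) =
      ∑ v ∈ T.image code, ∏ i : Fin w, (if v i = 0 then (1 : ℝ) else lam) := by
    rw [Finset.sum_image hinj]
  rw [h3]
  have h4 : ∑ v ∈ T.image code, ∏ i : Fin w, (if v i = 0 then (1 : ℝ) else lam) ≤
      ∑ v ∈ (Fintype.piFinset fun _ : Fin w => V).erase 0, ∏ i : Fin w, (if v i = 0 then (1 : ℝ) else lam) := by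
    apply Finset.sum_le_sum_of_subset_of_nonneg
    · intro v hv
      obtain ⟨x, hx, rfl⟩ := mem_image.1 hv
      exact hmem x hx
    · intro v _ _
      apply Finset.prod_nonneg
      intro i _
      split_ifs <;> linarith
  have h5 : (0 : Fin w → ℤ) ∈ Fintype.piFinset fun _ : Fin w => V := by
    rw [Fintype.mem_piFinset]
    intro i
    exact hV0
  have h6 : ∑ v ∈ (Fintype.piFinset fun _ : Fin w => V), ∏ i : Fin w, (if v i = 0 then (1 : ℝ) else lam) =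
      (∑ d ∈ V, (if d = 0 then (1 : ℝ) else lam)) ^ w := by
    rw [← Finset.prod_univ_sum (fun _ : Fin w => V) (fun _ d => if d = 0 then (1 : ℝ) else lam)]
    simp
  rw [← Finset.add_sum_erase _ _ h5] at h6
  have h7 : ∏ i : Fin w, (if (0 : Fin w → ℤ) i = 0 then (1 : ℝ) else lam) = 1 := by simp
  rw [h7] at h6
  have h8 : (∑ d ∈ V, (if d = 0 then (1 : ℝ) else lam)) ^ w ≤ (1 + (b + 1) * lam) ^ w :=
    pow_le_pow_left₀ hsum0 hsum w
  linarith

/-- **many windows**. `κ = (1 - c₁/(4b²))^c`. The windows `[s + v w, s + (v+1) w)`, `v < V`, lie in `Ico s t`; all factors are in `[0,1]`. For each `v` let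
`G_v = ∏_{i in window v} κ^{[d_i ≠ 0]}`; the left summand is `≤ ∏_v G_v ≤ (max_v G_v)^V ≤ ∑_v G_v^V` (`V ≥ 1`), and `one_window_le` with `λ = κ^V`. -/
theorem sum_windows_le (b : ℕ) (hb : 2 ≤ b) (c₁ c : ℝ) (h0 : 0 < c₁) (h1 : c₁ < 1) (hc : 0 < c) (Q w V s t : ℕ) (hQ : Q ^ 2 < b ^ w)
    (hV : 1 ≤ V) (hst : s + V * w ≤ t) (T : Finset ℚ)
    (hT : ∀ x ∈ T, 0 ≤ x ∧ x < 1 ∧ x.den ≤ Q ∧ x.den.Coprime b ∧ x.den ≠ 1) :
    ∑ x ∈ T, (∏ i ∈ Ico s t, (1 - c₁ * nd ((x : ℝ) * (b : ℝ) ^ i) ^ 2)) ^ c ≤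
      V * ((1 + (b + 1) * ((1 - c₁ / (4 * (b : ℝ) ^ 2)) ^ c) ^ V) ^ w - 1) := by
  classical
  have hb0 : (0 : ℝ) < b := by exact_mod_cast (by omega : 0 < b)
  have hb2 : (2 : ℝ) ≤ b := by exact_mod_cast hb
  have hk0 : 0 < 1 - c₁ / (4 * (b : ℝ) ^ 2) := by
    have h2 : c₁ / (4 * (b : ℝ) ^ 2) < 1 := by
      rw [div_lt_one (by positivity)]
      nlinarith
    linarith
  have hk1 : 1 - c₁ / (4 * (b : ℝ) ^ 2) ≤ 1 := by
    have h2 : 0 ≤ c₁ / (4 * (b : ℝ) ^ 2) := by positivity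
    linarith
  set κ : ℝ := (1 - c₁ / (4 * (b : ℝ) ^ 2)) ^ c with hκ
  have hκ0 : 0 < κ := by positivity
  have hκ1 : κ ≤ 1 := Real.rpow_le_one hk0.le hk1 hc.le
  -- factor bounds
  have hfac : ∀ (x : ℝ) (i : ℕ), 0 < 1 - c₁ * nd (x * (b : ℝ) ^ i) ^ 2 ∧ 1 - c₁ * nd (x * (b : ℝ) ^ i) ^ 2 ≤ 1 ∧
      (1 - c₁ * nd (x * (b : ℝ) ^ i) ^ 2) ^ c ≤ (if sdig b x i = 0 then 1 else κ) := by
    intro x i
    have h2 := nd_nonneg (x * (b : ℝ) ^ i)
    have h3 := nd_le_half (x * (b : ℝ) ^ i)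
    have h4 : nd (x * (b : ℝ) ^ i) ^ 2 ≤ (1 / 2) ^ 2 := pow_le_pow_left₀ h2 h3 2
    have h5 : 0 < 1 - c₁ * nd (x * (b : ℝ) ^ i) ^ 2 := by nlinarith
    have h6 : 1 - c₁ * nd (x * (b : ℝ) ^ i) ^ 2 ≤ 1 := by nlinarith [sq_nonneg (nd (x * (b : ℝ) ^ i))]
    refine ⟨h5, h6, ?_⟩
    split_ifs with h
    · exact Real.rpow_le_one h5.le h6 hc.le
    · rw [hκ]
      apply Real.rpow_le_rpow h5.le _ hc.le
      have h7 := nd_of_sdig_ne b (by omega) x i h
      rw [mul_comm ((b : ℝ) ^ i) x] at h7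
      have h8 : (1 / (2 * (b : ℝ))) ^ 2 ≤ nd (x * (b : ℝ) ^ i) ^ 2 := pow_le_pow_left₀ (by positivity) h7 2
      have h9 : c₁ / (4 * (b : ℝ) ^ 2) = c₁ * (1 / (2 * (b : ℝ))) ^ 2 := by
        field_simp
        ring
      rw [h9]
      nlinarith
  -- window products
  set G : ℕ → ℚ → ℝ := fun v x => ∏ i ∈ range w, (if sdig b (x : ℝ) (s + v * w + i) = 0 then 1 else κ) with hG
  have hG0 : ∀ v x, 0 ≤ G v x := by
    intro v x
    apply Finset.prod_nonneg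
    intro i _
    split_ifs
    · norm_num
    · exact hκ0.le
  have hreg : ∀ (g : ℕ → ℝ) (W : ℕ), ∏ i ∈ Ico s (s + W * w), g i = ∏ v ∈ range W, ∏ i ∈ range w, g (s + v * w + i) := by
    intro g W
    induction W with
    | zero => simp
    | succ W ih =>
      rw [Finset.prod_range_succ, ← ih, ← Finset.prod_Ico_consecutive g (show s ≤ s + W * w by omega)
        (show s + W * w ≤ s + (W + 1) * w by nlinarith)]
      congr 1
      rw [Finset.prod_Ico_eq_prod_range]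
      have e : s + (W + 1) * w - (s + W * w) = w := by
        have : s + (W + 1) * w = s + W * w + w := by ring
        omega
      rw [e]
  have hprodrange : ∀ x : ℚ, (∏ i ∈ Ico s t, (1 - c₁ * nd ((x : ℝ) * (b : ℝ) ^ i) ^ 2)) ^ c ≤ ∏ v ∈ range V, G v x := by
    intro x
    have hpos : 0 ≤ ∏ i ∈ Ico s (s + V * w), (1 - c₁ * nd ((x : ℝ) * (b : ℝ) ^ i) ^ 2) :=
      Finset.prod_nonneg fun i _ => (hfac x i).1.le
    have h2 : (∏ i ∈ Ico s t, (1 - c₁ * nd ((x : ℝ) * (b : ℝ) ^ i) ^ 2)) ≤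
        ∏ i ∈ Ico s (s + V * w), (1 - c₁ * nd ((x : ℝ) * (b : ℝ) ^ i) ^ 2) := by
      rw [← Finset.prod_Ico_consecutive _ (show s ≤ s + V * w by omega) hst]
      apply mul_le_of_le_one_right hpos
      exact Finset.prod_le_one (fun i _ => (hfac x i).1.le) (fun i _ => (hfac x i).2.1)
    have h3 : (∏ i ∈ Ico s t, (1 - c₁ * nd ((x : ℝ) * (b : ℝ) ^ i) ^ 2)) ^ c ≤
        (∏ i ∈ Ico s (s + V * w), (1 - c₁ * nd ((x : ℝ) * (b : ℝ) ^ i) ^ 2)) ^ c :=
      Real.rpow_le_rpow (Finset.prod_nonneg fun i _ => (hfac x i).1.le) h2 hc.le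
    refine h3.trans ?_
    rw [← Real.finset_prod_rpow _ _ (fun i _ => (hfac x i).1.le)]
    have h4 : ∏ i ∈ Ico s (s + V * w), (1 - c₁ * nd ((x : ℝ) * (b : ℝ) ^ i) ^ 2) ^ c ≤
        ∏ i ∈ Ico s (s + V * w), (if sdig b (x : ℝ) i = 0 then 1 else κ) :=
      Finset.prod_le_prod (fun i _ => Real.rpow_nonneg (hfac x i).1.le _) (fun i _ => (hfac x i).2.2)
    refine h4.trans (le_of_eq ?_)
    rw [hreg]
  have hsumG : ∀ x : ℚ, ∏ v ∈ range V, G v x ≤ ∑ v ∈ range V, G v x ^ V := by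
    intro x
    obtain ⟨v₀, hv₀, hmax⟩ := Finset.exists_max_image (range V) (fun v => G v x) ⟨0, mem_range.2 (by omega)⟩
    calc ∏ v ∈ range V, G v x ≤ ∏ v ∈ range V, G v₀ x := Finset.prod_le_prod (fun v _ => hG0 v x) hmax
      _ = G v₀ x ^ V := by rw [Finset.prod_const, card_range]
      _ ≤ ∑ v ∈ range V, G v x ^ V :=
        Finset.single_le_sum (f := fun v => G v x ^ V) (fun v _ => pow_nonneg (hG0 v x) V) hv₀
  calc ∑ x ∈ T, (∏ i ∈ Ico s t, (1 - c₁ * nd ((x : ℝ) * (b : ℝ) ^ i) ^ 2)) ^ c ≤ ∑ x ∈ T, ∑ v ∈ range V, G v x ^ V :=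
        Finset.sum_le_sum fun x _ => (hprodrange x).trans (hsumG x)
    _ = ∑ v ∈ range V, ∑ x ∈ T, G v x ^ V := Finset.sum_comm
    _ ≤ ∑ v ∈ range V, ((1 + (b + 1) * κ ^ V) ^ w - 1) := by
        refine Finset.sum_le_sum fun v _ => ?_
        have h2 := one_window_le b hb Q w (s + v * w) hQ T hT (κ ^ V) (pow_nonneg hκ0.le V) (pow_le_one₀ hκ0.le hκ1)
        refine le_trans (le_of_eq ?_) h2
        refine Finset.sum_congr rfl fun x _ => ?_
        rw [hG]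
        simp only
        rw [← Finset.prod_pow]
        refine Finset.prod_congr rfl fun i _ => ?_
        split_ifs <;> simp
    _ = V * ((1 + (b + 1) * κ ^ V) ^ w - 1) := by
        rw [Finset.sum_const, card_range, nsmul_eq_mul]

end Pool.Agent.LibHG31
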