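import Pool.Agent.LibHG31.B3
import Pool.Agent.LibHG31.B4

/-! ROW B5: sums of the digital product over the frequencies. -/

namespace Pool.Agent.LibHG31

open Finset

private theorem b5_D0_pos {b : ℕ} (hb : 2 ≤ b) : 0 < D0 b := by
  unfold D0
  have : 2 ^ 2 ≤ b ^ 2 := Nat.pow_le_pow_left hb 2
  omega

private theorem b5_kap {b : ℕ} (hb : 2 ≤ b) {c₁ c : ℝ} (h0 : 0 < c₁) (h1 : c₁ < 1) (hc : 0 < c) :
    0 < (1 - c₁ / (4 * (b : ℝ) ^ 2)) ^ c ∧ (1 - c₁ / (4 * (b : ℝ) ^ 2)) ^ c < 1 := by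
  have hbr : (2 : ℝ) ≤ b := by exact_mod_cast hb
  have h4 : (1 : ℝ) < 4 * (b : ℝ) ^ 2 := by nlinarith
  have h5 : c₁ / (4 * (b : ℝ) ^ 2) < 1 := by
    rw [div_lt_one (by linarith)]
    linarith
  have h6 : 0 < c₁ / (4 * (b : ℝ) ^ 2) := div_pos h0 (by linarith)
  exact ⟨Real.rpow_pos_of_pos (by linarith) _, Real.rpow_lt_one (by linarith) (by linarith) hc⟩

private theorem b5_win {A₁ A₂ n L : ℕ} (h2 : 1 ≤ A₂) (h12 : A₂ < A₁) (h : A₁ * A₂ * n ≤ L) :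
    L / A₁ + n ≤ L / A₂ := by
  rw [Nat.le_div_iff_mul_le (by omega)]
  have h3 : A₁ * (L / A₁) ≤ L := Nat.mul_div_le L A₁
  have h4 : A₁ * ((L / A₁ + n) * A₂) ≤ A₁ * L := by
    calc A₁ * ((L / A₁ + n) * A₂) = A₂ * (A₁ * (L / A₁)) + A₁ * A₂ * n := by ring
      _ ≤ A₂ * L + L := add_le_add (Nat.mul_le_mul_left _ h3) h
      _ = (A₂ + 1) * L := by ring
      _ ≤ A₁ * L := Nat.mul_le_mul_right _ h12
  exact Nat.le_of_mul_le_mul_left h4 (by omega)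

private theorem b5_exp {y : ℝ} (hy : 0 ≤ y) (w : ℕ) : (1 + y) ^ w ≤ Real.exp (w * y) := by
  rw [Real.exp_nat_mul]
  refine pow_le_pow_left₀ (by linarith) ?_ w
  have := Real.add_one_le_exp y
  linarith

/-- `sum_windows_le` for the frequencies: `x = D0 ρ` (`ρ ↦ D0 ρ` injective, `den (D0 ρ) ∣ den ρ`, `D0 ρ ∈ [0,1)`, denominator `1` only for `ρ = 0`), and
`Gr b c₁ ρ L s t = ∏_{i ∈ Ico (L-1-t) (L-1-s)} (1 - c₁ nd (D0 ρ b^i)²)` (`i = L-2-j`). -/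
theorem sum_Gr_le (b : ℕ) (hb : 2 ≤ b) (c₁ c : ℝ) (h0 : 0 < c₁) (h1 : c₁ < 1) (hc : 0 < c) (L J Q w V s t : ℕ) (hQ : Q ^ 2 < b ^ w)
    (hV : 1 ≤ V) (hst : s + V * w ≤ t) (ht : t + 2 ≤ L) :
    ∑ ρ ∈ ((Rset b J).erase 0).filter (fun ρ => ρ.den ≤ Q), (Gr b c₁ (ρ : ℝ) L s t) ^ c ≤
      V * ((1 + (b + 1) * ((1 - c₁ / (4 * (b : ℝ) ^ 2)) ^ c) ^ V) ^ w - 1) := by
  classical
  have hD := b5_D0_pos hb
  have hDq : (D0 b : ℚ) ≠ 0 := by exact_mod_cast hD.ne'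
  set W := ((Rset b J).erase 0).filter (fun ρ => ρ.den ≤ Q) with hW
  have hinj : Set.InjOn (fun ρ : ℚ => (D0 b : ℚ) * ρ) W := fun x _ y _ hxy =>
    mul_left_cancel₀ hDq hxy
  have hT : ∀ x ∈ W.image (fun ρ : ℚ => (D0 b : ℚ) * ρ),
      0 ≤ x ∧ x < 1 ∧ x.den ≤ Q ∧ x.den.Coprime b ∧ x.den ≠ 1 := by
    intro x hx
    obtain ⟨ρ, hρ, rfl⟩ := mem_image.mp hx
    rw [hW, mem_filter, mem_erase] at hρ
    obtain ⟨⟨hne, hR⟩, hQ'⟩ := hρ
    unfold Rset at hR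
    rw [mem_filter] at hR
    obtain ⟨_, h2, h3, h4⟩ := hR
    have hdvd : ((D0 b : ℚ) * ρ).den ∣ ρ.den := by
      have := Rat.mul_den_dvd (D0 b : ℚ) ρ
      simpa using this
    have hx0 : 0 ≤ (D0 b : ℚ) * ρ := by positivity
    have hx1 : (D0 b : ℚ) * ρ < 1 := by rw [mul_comm]; exact h3
    refine ⟨hx0, hx1, (Nat.le_of_dvd ρ.den_pos hdvd).trans hQ', Nat.Coprime.coprime_dvd_left hdvd h4,
      fun hden => ?_⟩
    have hx2 : (D0 b : ℚ) * ρ ≠ 0 := mul_ne_zero hDq hne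
    have h5 : (((D0 b : ℚ) * ρ).num : ℚ) = (D0 b : ℚ) * ρ := Rat.coe_int_num_of_den_eq_one hden
    have h6 : 0 < ((D0 b : ℚ) * ρ).num := Rat.num_pos.mpr (lt_of_le_of_ne hx0 hx2.symm)
    have h7 : (1 : ℚ) ≤ (D0 b : ℚ) * ρ := by
      rw [← h5]
      exact_mod_cast h6
    linarith
  have hmain := sum_windows_le b hb c₁ c h0 h1 hc Q w V (L - 1 - t) (L - 1 - s) hQ hV (by omega)
    (W.image (fun ρ : ℚ => (D0 b : ℚ) * ρ)) hT
  rw [sum_image hinj] at hmain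
  refine le_of_eq_of_le (sum_congr rfl fun ρ _ => ?_) hmain
  congr 1
  unfold Gr
  refine prod_nbij' (fun j => L - 2 - j) (fun j => L - 2 - j) ?_ ?_ ?_ ?_ ?_
  · intro j hj; rw [mem_Ico] at hj ⊢; omega
  · intro j hj; rw [mem_Ico] at hj ⊢; omega
  · intro j hj; rw [mem_Ico] at hj; omega
  · intro j hj; rw [mem_Ico] at hj; omega
  · intro j hj
    push_cast
    rfl

/-- **small denominators**, `Q = L^B`: `w = Nat.log b (Q²) + 1 ≤ C log L`, `V = (L/A₂ - L/A₁)/w ≥ c L/log L`, `(1+y)^w - 1 ≤ exp(w y) - 1 ≤ 2 w y`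
with `y = (b+1) κ^V` super-polynomially small. -/
theorem Gr_small_le (b : ℕ) (hb : 2 ≤ b) (c₁ c : ℝ) (h0 : 0 < c₁) (h1 : c₁ < 1) (hc : 0 < c) (A₁ A₂ : ℕ) (hA : 2 ≤ A₂) (hA' : A₂ < A₁)
    (B K : ℕ) : ∃ L₀ : ℕ, ∀ L : ℕ, L₀ ≤ L → ∀ J : ℕ,
    ∑ ρ ∈ ((Rset b J).erase 0).filter (fun ρ => ρ.den ≤ L ^ B), (Gr b c₁ (ρ : ℝ) L (L / A₁) (L / A₂)) ^ c ≤ 1 / (L : ℝ) ^ K := by
  obtain ⟨hk0, hk1⟩ := b5_kap hb h0 h1 hc
  set κ := (1 - c₁ / (4 * (b : ℝ) ^ 2)) ^ c with hκ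
  have hbr : (2 : ℝ) ≤ b := by exact_mod_cast hb
  -- `m ^ (2K+2) κ ^ m → 0`
  have hlim := (tendsto_pow_const_mul_const_pow_of_abs_lt_one (2 * (K + 1)) (r := κ)
    (by rw [abs_of_pos hk0]; exact hk1)).const_mul (3 * ((b : ℝ) + 1) * 2 ^ (2 * (K + 1)))
  rw [mul_zero] at hlim
  obtain ⟨N₀, hN₀⟩ := Filter.eventually_atTop.mp (hlim.eventually (Iio_mem_nhds one_pos))
  refine ⟨4 + (N₀ + 1) ^ 2 + (A₁ * A₂ * (1 + 16 * B)) ^ 4, ?_⟩
  intro L hL J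
  have hL4 : 4 ≤ L := by omega
  have hLN : (N₀ + 1) ^ 2 ≤ L := by omega
  have hLA : (A₁ * A₂ * (1 + 16 * B)) ^ 4 ≤ L := by omega
  set m := Nat.sqrt L with hm
  have hmN : N₀ + 1 ≤ m := Nat.le_sqrt'.mpr hLN
  have hm1 : 1 ≤ m := by omega
  have hmL : m ^ 2 ≤ L := Nat.sqrt_le' L
  have hLm : L < (m + 1) ^ 2 := Nat.lt_succ_sqrt' L
  set w := Nat.log b ((L ^ B) ^ 2) + 1 with hw
  have hQ : (L ^ B) ^ 2 < b ^ w := Nat.lt_pow_succ_log_self (by omega) _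
  -- size of the window
  have hLr : (1 : ℝ) ≤ L := by exact_mod_cast (by omega : 1 ≤ L)
  set u : ℝ := (L : ℝ) ^ (1 / 4 : ℝ) with hu
  have hu1 : 1 ≤ u := Real.one_le_rpow hLr (by norm_num)
  have hu4 : u ^ 4 = L := by
    rw [hu, ← Real.rpow_natCast, ← Real.rpow_mul (by linarith)]
    norm_num
  have hmu : (m : ℝ) ≤ u ^ 2 := by
    have h3 : (m : ℝ) ^ 2 ≤ (u ^ 2) ^ 2 := by
      have h4 : (m : ℝ) ^ 2 ≤ L := by exact_mod_cast hmL
      calc (m : ℝ) ^ 2 ≤ L := h4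
        _ = (u ^ 2) ^ 2 := by rw [← hu4]; ring
    exact le_of_sq_le_sq h3 (by positivity)
  have hwu : (w : ℝ) ≤ 1 + 16 * B * u := by
    have h3 : (Nat.log b ((L ^ B) ^ 2) : ℝ) ≤ Real.logb b (((L ^ B) ^ 2 : ℕ) : ℝ) :=
      Real.natLog_le_logb _ _
    have h4 : Real.logb b (((L ^ B) ^ 2 : ℕ) : ℝ) = 2 * B * Real.log L / Real.log b := by
      rw [Real.logb]
      push_cast
      rw [Real.log_pow, Real.log_pow]
      push_cast
      ring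
    have h5 : Real.log L ≤ 4 * u := by
      have := Real.log_le_rpow_div (x := (L : ℝ)) (by linarith) (ε := 1 / 4) (by norm_num)
      rw [← hu] at this
      linarith
    have h6 : 1 / 2 ≤ Real.log b := by
      have := Real.log_two_gt_d9
      have h7 := Real.log_le_log (by norm_num) hbr
      linarith
    have h8 : 0 ≤ Real.log L := Real.log_nonneg hLr
    have h9 : 2 * B * Real.log L / Real.log b ≤ 16 * B * u := by
      rw [div_le_iff₀ (by linarith)]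
      have hB : (0 : ℝ) ≤ B := Nat.cast_nonneg B
      have h10 : 2 * (B : ℝ) * Real.log L ≤ 2 * B * (4 * u) := by gcongr
      have h11 : 16 * (B : ℝ) * u * (1 / 2) ≤ 16 * B * u * Real.log b := by gcongr
      linarith
    rw [hw]
    push_cast
    linarith
  have hwin : A₁ * A₂ * (m * w) ≤ L := by
    have h3 : ((A₁ * A₂ * (1 + 16 * B) : ℕ) : ℝ) ≤ u := by
      have h4 : (((A₁ * A₂ * (1 + 16 * B)) ^ 4 : ℕ) : ℝ) ≤ L := by exact_mod_cast hLA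
      have h5 : ((A₁ * A₂ * (1 + 16 * B) : ℕ) : ℝ) ^ 4 ≤ u ^ 4 := by
        rw [hu4]
        exact_mod_cast h4
      exact le_of_pow_le_pow_left₀ (by norm_num) (by linarith) h5
    have h6 : (m : ℝ) * w ≤ (1 + 16 * B) * u ^ 3 := by
      have h7 : (m : ℝ) * w ≤ u ^ 2 * (1 + 16 * B * u) :=
        mul_le_mul hmu hwu (by positivity) (by positivity)
      have h8 : u ^ 2 ≤ u ^ 3 := pow_le_pow_right₀ hu1 (by norm_num)
      have h9 : u ^ 2 * (1 + 16 * B * u) = u ^ 2 + 16 * B * u ^ 3 := by ring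
      linarith
    have h10 : ((A₁ * A₂ * (m * w) : ℕ) : ℝ) ≤ L := by
      push_cast at h3 ⊢
      calc (A₁ : ℝ) * A₂ * (m * w) ≤ A₁ * A₂ * ((1 + 16 * B) * u ^ 3) := by gcongr
        _ = (A₁ * A₂ * (1 + 16 * B)) * u ^ 3 := by ring
        _ ≤ u * u ^ 3 := by gcongr
        _ = L := by rw [← hu4]; ring
    exact_mod_cast h10
  have hwin2 := b5_win (by omega : 1 ≤ A₂) hA' hwin
  have ht2 : L / A₂ + 2 ≤ L := by
    have : L / A₂ ≤ L / 2 := Nat.div_le_div_left hA (by norm_num)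
    omega
  refine (sum_Gr_le b hb c₁ c h0 h1 hc L J (L ^ B) w m (L / A₁) (L / A₂) hQ hm1 hwin2 ht2).trans ?_
  rw [← hκ]
  have hmwL : m * w ≤ L := by
    exact (Nat.le_add_left _ _).trans (hwin2.trans (Nat.div_le_self _ _))
  have hmwr : (m : ℝ) * w ≤ L := by exact_mod_cast hmwL
  have hmr : (1 : ℝ) ≤ m := by exact_mod_cast hm1
  have hwr : (w : ℝ) ≤ L := by
    have : (0 : ℝ) ≤ w := Nat.cast_nonneg w
    nlinarith
  have hκm : 0 < κ ^ m := pow_pos hk0 m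
  set y := ((b : ℝ) + 1) * κ ^ m with hy
  have hy0 : 0 < y := by positivity
  -- smallness
  have hsmall : 3 * y * (L : ℝ) ^ (K + 1) ≤ 1 := by
    have h3 := hN₀ m (by omega)
    have h4 : (L : ℝ) ≤ (2 * m) ^ 2 := by
      have h5 : (L : ℝ) ≤ ((m : ℝ) + 1) ^ 2 := by exact_mod_cast hLm.le
      nlinarith
    have h6 : (L : ℝ) ^ (K + 1) ≤ ((2 * (m : ℝ)) ^ 2) ^ (K + 1) :=
      pow_le_pow_left₀ (by linarith) h4 _
    calc 3 * y * (L : ℝ) ^ (K + 1) ≤ 3 * y * ((2 * (m : ℝ)) ^ 2) ^ (K + 1) := by gcongr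
      _ = 3 * ((b : ℝ) + 1) * 2 ^ (2 * (K + 1)) * ((m : ℝ) ^ (2 * (K + 1)) * κ ^ m) := by
        rw [hy, ← pow_mul, mul_pow]
        ring
      _ ≤ 1 := h3.le
  have hLK : (1 : ℝ) ≤ (L : ℝ) ^ K := one_le_pow₀ hLr
  have hwy : (w : ℝ) * y ≤ 1 := by
    have h3 : (L : ℝ) ≤ (L : ℝ) ^ (K + 1) := by
      rw [pow_succ]
      nlinarith
    have h4 : (w : ℝ) * y ≤ (L : ℝ) ^ (K + 1) * y := by
      have := hwr.trans h3
      gcongr
    have h5 : 0 ≤ (L : ℝ) ^ (K + 1) * y := by positivity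
    linarith
  have h3 : (1 + y) ^ w - 1 ≤ 3 * (w * y) := by
    have h4 := b5_exp hy0.le w
    have h5 := Real.add_one_le_exp (-((w : ℝ) * y))
    have h6 : Real.exp ((w : ℝ) * y) * Real.exp (-((w : ℝ) * y)) = 1 := by
      rw [← Real.exp_add]; simp
    have h7 : Real.exp ((w : ℝ) * y) ≤ 3 := by
      calc Real.exp ((w : ℝ) * y) ≤ Real.exp 1 := Real.exp_le_exp.mpr hwy
        _ ≤ 3 := by have := Real.exp_one_lt_d9; linarith
    have h8 : 0 < Real.exp ((w : ℝ) * y) := Real.exp_pos _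
    have h9 : 0 ≤ (w : ℝ) * y := by positivity
    have h10 : Real.exp ((w : ℝ) * y) * (1 - (w : ℝ) * y) ≤ 1 := by
      rw [← h6]
      apply mul_le_mul_of_nonneg_left _ h8.le
      linarith
    nlinarith
  calc (m : ℝ) * ((1 + y) ^ w - 1) ≤ m * (3 * (w * y)) := by gcongr
    _ = 3 * y * (m * w) := by ring
    _ ≤ 3 * y * L := by gcongr
    _ ≤ 1 / (L : ℝ) ^ K := by
      rw [le_div_iff₀ (by positivity)]
      calc 3 * y * L * (L : ℝ) ^ K = 3 * y * (L : ℝ) ^ (K + 1) := by ring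
        _ ≤ 1 := hsmall

/-- **large denominators**. `θ = (1/A₂ - 1/A₁)/2`, `κ = (1 - c₁/(4b²))^c < 1`. `w = Nat.log b (Q²) + 1 ≤ 2 log_b Q + 1`; since `Q ≤ 2 P D0`, `P = 2^(J/4)`, `J = L/A`:
`w ≤ J/2 + C_b ≤ L/A` for large `L`, `V = (L/A₂ - L/A₁)/w ≥ θ A/2` for `A ≥ 4/θ`. The bound is
`V exp(w (b+1) κ^V) ≤ L exp((2 log_b Q + 1)(b+1) κ^(θA/2)) ≤ 3 L Q^(1/16)` once `(b+1) κ^(θA/2) ≤ (log b)/32` and `≤ 1`. -/
theorem Gr_large_le (b : ℕ) (hb : 2 ≤ b) (c₁ c : ℝ) (h0 : 0 < c₁) (h1 : c₁ < 1) (hc : 0 < c) (A₁ A₂ : ℕ) (hA : 2 ≤ A₂) (hA' : A₂ < A₁) :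
    ∃ A₀ : ℕ, ∀ A : ℕ, A₀ ≤ A → ∃ L₀ : ℕ, ∀ L : ℕ, L₀ ≤ L → ∀ Q : ℕ, 1 ≤ Q → Q ≤ 2 * (PP (L / A) * D0 b) →
    ∑ ρ ∈ ((Rset b (L / A)).erase 0).filter (fun ρ => ρ.den ≤ Q), (Gr b c₁ (ρ : ℝ) L (L / A₁) (L / A₂)) ^ c ≤
      3 * L * (Q : ℝ) ^ (1 / 16 : ℝ) := by
  obtain ⟨hk0, hk1⟩ := b5_kap hb h0 h1 hc
  set κ := (1 - c₁ / (4 * (b : ℝ) ^ 2)) ^ c with hκ
  have hbr : (2 : ℝ) ≤ b := by exact_mod_cast hb
  have hl2 := Real.log_two_gt_d9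
  have hlb : Real.log 2 ≤ Real.log b := Real.log_le_log (by norm_num) hbr
  obtain ⟨M, hM⟩ := exists_pow_lt_of_lt_one (show (0 : ℝ) < Real.log 2 / 32 / (b + 1) by
    apply div_pos (by linarith) (by linarith)) hk1
  -- number of windows
  set V := M + 1 with hV
  refine ⟨A₁ * A₂ * V, ?_⟩
  intro A hA0
  have hApos : 0 < A := lt_of_lt_of_le (by
    have : 0 < A₁ * A₂ := Nat.mul_pos (by omega) (by omega)
    positivity) hA0
  refine ⟨4 + V + A * (6 + 4 * D0 b), ?_⟩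
  intro L hL Q hQ1 hQ2
  set w := Nat.log b (Q ^ 2) + 1 with hw
  have hQ : Q ^ 2 < b ^ w := Nat.lt_pow_succ_log_self (by omega) _
  have hLA : 6 + 4 * D0 b ≤ L / A := by
    rw [Nat.le_div_iff_mul_le hApos]
    have : (6 + 4 * D0 b) * A = A * (6 + 4 * D0 b) := by ring
    omega
  have hwle : w ≤ L / A := by
    have h3 : 2 ^ (w - 1) ≤ Q ^ 2 := by
      calc 2 ^ (w - 1) ≤ b ^ (w - 1) := Nat.pow_le_pow_left hb _
        _ = b ^ Nat.log b (Q ^ 2) := by rw [hw, Nat.add_sub_cancel]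
        _ ≤ Q ^ 2 := Nat.pow_log_le_self b (by positivity)
    have h4 : Q ^ 2 ≤ 2 ^ (2 + L / A / 2 + 2 * D0 b) := by
      have h5 : D0 b ≤ 2 ^ D0 b := Nat.lt_two_pow_self.le
      calc Q ^ 2 ≤ (2 * (PP (L / A) * D0 b)) ^ 2 := Nat.pow_le_pow_left hQ2 2
        _ = 4 * (2 ^ (L / A / 4)) ^ 2 * (D0 b) ^ 2 := by unfold PP; ring
        _ ≤ 4 * (2 ^ (L / A / 4)) ^ 2 * (2 ^ D0 b) ^ 2 := by gcongr
        _ = 2 ^ (2 + 2 * (L / A / 4) + 2 * D0 b) := by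
          rw [pow_add, pow_add, pow_mul', pow_mul']
          norm_num
        _ ≤ 2 ^ (2 + L / A / 2 + 2 * D0 b) := by
          apply Nat.pow_le_pow_right (by norm_num)
          omega
    have h6 : w - 1 ≤ 2 + L / A / 2 + 2 * D0 b :=
      (Nat.pow_le_pow_iff_right (by norm_num : 1 < 2)).mp (h3.trans h4)
    omega
  have hwin : A₁ * A₂ * (V * w) ≤ L := by
    calc A₁ * A₂ * (V * w) = A₁ * A₂ * V * w := by ring
      _ ≤ A * (L / A) := Nat.mul_le_mul hA0 hwle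
      _ ≤ L := Nat.mul_div_le L A
  have hwin2 := b5_win (by omega : 1 ≤ A₂) hA' hwin
  have ht2 : L / A₂ + 2 ≤ L := by
    have : L / A₂ ≤ L / 2 := Nat.div_le_div_left hA (by norm_num)
    omega
  refine (sum_Gr_le b hb c₁ c h0 h1 hc L (L / A) Q w V (L / A₁) (L / A₂) hQ (by omega) hwin2
    ht2).trans ?_
  rw [← hκ]
  have hbp : (0 : ℝ) < (b : ℝ) + 1 := by linarith
  set y := ((b : ℝ) + 1) * κ ^ V with hy
  have hy0 : 0 ≤ y := by positivity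
  have hy1 : y ≤ Real.log 2 / 32 := by
    have h3 : κ ^ V ≤ κ ^ M := pow_le_pow_of_le_one hk0.le hk1.le (by omega)
    have h4 : κ ^ V ≤ Real.log 2 / 32 / (b + 1) := h3.trans hM.le
    rw [le_div_iff₀ hbp] at h4
    linarith
  have hQr : (1 : ℝ) ≤ Q := by exact_mod_cast hQ1
  have hlQ : 0 ≤ Real.log Q := Real.log_nonneg hQr
  have hwr : (w : ℝ) ≤ 2 * Real.log Q / Real.log b + 1 := by
    have h3 : (Nat.log b (Q ^ 2) : ℝ) ≤ Real.logb b ((Q ^ 2 : ℕ) : ℝ) := Real.natLog_le_logb _ _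
    have h4 : Real.logb b ((Q ^ 2 : ℕ) : ℝ) = 2 * Real.log Q / Real.log b := by
      rw [Real.logb]
      push_cast
      rw [Real.log_pow]
      push_cast
      ring
    rw [hw]
    push_cast
    linarith
  have hlog2 : Real.log 2 < 1 := by
    have := Real.log_two_lt_d9
    linarith
  have hwy : (w : ℝ) * y ≤ Real.log Q * (1 / 16) + 1 := by
    have hlbp : 0 < Real.log b := by linarith
    have h3 : (w : ℝ) * y ≤ (2 * Real.log Q / Real.log b + 1) * (Real.log b / 32) := by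
      apply mul_le_mul hwr (by linarith) hy0 (by positivity)
    have h4 : (2 * Real.log Q / Real.log b + 1) * y ≤ Real.log Q * (1 / 16) + 1 := by
      have h5 : 2 * Real.log Q / Real.log b * y ≤ 2 * Real.log Q / Real.log b * (Real.log b / 32) :=
        mul_le_mul_of_nonneg_left (by linarith) (by positivity)
      have h6 : 2 * Real.log Q / Real.log b * (Real.log b / 32) = Real.log Q * (1 / 16) := by
        field_simp
        ring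
      have h7 : (2 * Real.log Q / Real.log b + 1) * y = 2 * Real.log Q / Real.log b * y + y := by
        ring
      linarith
    exact (mul_le_mul_of_nonneg_right hwr hy0).trans h4
  have hexp : (1 + y) ^ w ≤ 3 * (Q : ℝ) ^ (1 / 16 : ℝ) := by
    calc (1 + y) ^ w ≤ Real.exp (w * y) := b5_exp hy0 w
      _ ≤ Real.exp (Real.log Q * (1 / 16) + 1) := Real.exp_le_exp.mpr hwy
      _ = Real.exp 1 * (Q : ℝ) ^ (1 / 16 : ℝ) := by
        rw [Real.exp_add, Real.rpow_def_of_pos (by linarith), mul_comm]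
      _ ≤ 3 * (Q : ℝ) ^ (1 / 16 : ℝ) := by
        have := Real.exp_one_lt_d9
        gcongr
        linarith
  have hVL : (V : ℝ) ≤ L := by
    have : V ≤ L := by omega
    exact_mod_cast this
  have h8 : (1 + y) ^ w - 1 ≤ 3 * (Q : ℝ) ^ (1 / 16 : ℝ) := by linarith
  have h9 : 0 ≤ 3 * (Q : ℝ) ^ (1 / 16 : ℝ) := by positivity
  calc (V : ℝ) * ((1 + y) ^ w - 1) ≤ V * (3 * (Q : ℝ) ^ (1 / 16 : ℝ)) := by gcongr
    _ ≤ L * (3 * (Q : ℝ) ^ (1 / 16 : ℝ)) := by gcongr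
    _ = 3 * L * (Q : ℝ) ^ (1 / 16 : ℝ) := by ring

end Pool.Agent.LibHG31
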