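import Pool.Agent.LibHG31.B5

/-! ROW B5b: sum over the frequencies, combination of small and large denominators. -/

namespace Pool.Agent.LibHG31

open Finset


private theorem B5b_Gr_nonneg (b : ℕ) (c ρ : ℝ) (h0 : 0 < c) (h1 : c < 1) (L s t : ℕ) : 0 ≤ Gr b c ρ L s t := by
  unfold Gr
  refine Finset.prod_nonneg fun j _ => ?_
  have h2 : nd ((D0 b : ℝ) * ρ * (b : ℝ) ^ (L - 2 - j)) ≤ 1 / 2 := abs_sub_round _
  have h3 : 0 ≤ nd ((D0 b : ℝ) * ρ * (b : ℝ) ^ (L - 2 - j)) := abs_nonneg _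
  nlinarith

private theorem B5b_min_le {x y : ℝ} (hx : 0 ≤ x) (hy : 0 ≤ y) :
    min x y ≤ x ^ (1 / 2 : ℝ) * y ^ (1 / 2 : ℝ) := by
  have hm : 0 ≤ min x y := le_min hx hy
  have h1 : min x y = (min x y) ^ (1 / 2 : ℝ) * (min x y) ^ (1 / 2 : ℝ) := by
    rw [← Real.sqrt_eq_rpow, Real.mul_self_sqrt hm]
  rw [h1]
  exact mul_le_mul (Real.rpow_le_rpow hm (min_le_left _ _) (by norm_num))
    (Real.rpow_le_rpow hm (min_le_right _ _) (by norm_num)) (Real.rpow_nonneg hm _)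
    (Real.rpow_nonneg hx _)

private theorem B5b_den_le (b J : ℕ) {ρ : ℚ} (h : ρ ∈ (Rset b J).erase 0) : ρ.den ≤ PP J * D0 b := by
  rw [Finset.mem_erase] at h
  obtain ⟨hne, h⟩ := h
  unfold Rset at h
  rw [Finset.mem_filter, Finset.mem_image] at h
  obtain ⟨⟨⟨p, q⟩, hp, rfl⟩, -⟩ := h
  rw [Finset.mem_product, Finset.mem_range, Finset.mem_range] at hp
  have hq : q ≠ 0 := by
    rintro rfl
    simp at hne
  have h1 : ((p : ℚ) / q).den ∣ q := by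
    have h2 := Rat.den_dvd (p : ℤ) (q : ℤ)
    rw [Rat.divInt_eq_div] at h2
    rw [← Int.natCast_dvd_natCast]
    simpa only [Int.cast_natCast] using h2
  exact le_trans (Nat.le_of_dvd (Nat.pos_of_ne_zero hq) h1) (by have := hp.2; simp only at this; omega)

/-- **combination**. `B = 16 (K + 3)`. Denominators `≤ L^B`: `Gr_small_le` (exponent `K + 1`). Denominators `> L^B`: dyadic blocks `2^i ≤ den < 2^(i+1)`,
`min x y ≤ x^(1/2) y^(1/2)`, so the block is `≤ 2^(-i/8) ∑ Gr^(c/2) ≤ 2^(-i/8) 3 L 2^((i+1)/16) ≤ 4 L 2^(-i/16)`, `2^(-i/16) ≤ 2 L^(-K-3)`, and there are `≤ L` blocks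
(`2^i ≤ P D0 ≤ 2^(L/4) D0`). -/
theorem Gr_min_sum_le (b : ℕ) (hb : 2 ≤ b) (c₁ c : ℝ) (h0 : 0 < c₁) (h1 : c₁ < 1) (hc : 0 < c) (A₁ A₂ : ℕ) (hA : 2 ≤ A₂) (hA' : A₂ < A₁)
    (K : ℕ) : ∃ A₀ : ℕ, ∀ A : ℕ, A₀ ≤ A → ∃ L₀ : ℕ, ∀ L : ℕ, L₀ ≤ L →
    ∑ ρ ∈ (Rset b (L / A)).erase 0, min ((ρ.den : ℝ) ^ (-(1 / 4 : ℝ))) ((Gr b c₁ (ρ : ℝ) L (L / A₁) (L / A₂)) ^ c) ≤ 1 / (L : ℝ) ^ K := by
  obtain ⟨A₀, hA₀⟩ := Gr_large_le b hb c₁ (c / 2) h0 h1 (half_pos hc) A₁ A₂ hA hA'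
  obtain ⟨L₁, hL₁⟩ := Gr_small_le b hb c₁ c h0 h1 hc A₁ A₂ hA hA' (16 * (K + 3)) (K + 1)
  refine ⟨A₀, fun A hAA => ?_⟩
  obtain ⟨L₂, hL₂⟩ := hA₀ A hAA
  refine ⟨L₁ + L₂ + 2 * D0 b + 5, fun L hL => ?_⟩
  have hL5 : (5 : ℝ) ≤ L := by exact_mod_cast (by omega : 5 ≤ L)
  have hL0 : (0 : ℝ) < L := by linarith
  have hs := hL₁ L (by omega) (L / A)
  have hl := hL₂ L (by omega)
  set T := (Rset b (L / A)).erase 0 with hT
  set g : ℚ → ℝ := fun ρ => Gr b c₁ (ρ : ℝ) L (L / A₁) (L / A₂) with hg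
  have hg0 : ∀ ρ, 0 ≤ g ρ := fun ρ => B5b_Gr_nonneg b c₁ _ h0 h1 L _ _
  set m : ℚ → ℝ := fun ρ => min ((ρ.den : ℝ) ^ (-(1 / 4 : ℝ))) ((g ρ) ^ c) with hm
  change ∑ ρ ∈ T, m ρ ≤ _
  -- the number of blocks
  have hden : ∀ ρ ∈ T, ρ.den < 2 ^ L := by
    intro ρ hρ
    refine lt_of_le_of_lt (B5b_den_le b _ hρ) ?_
    have e1 : PP (L / A) ≤ 2 ^ (L / 4) := by
      unfold PP
      exact Nat.pow_le_pow_right (by norm_num) (Nat.div_le_div_right (Nat.div_le_self _ _))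
    have e2 : D0 b < 2 ^ (D0 b) := Nat.lt_two_pow_self
    calc PP (L / A) * D0 b ≤ 2 ^ (L / 4) * D0 b := Nat.mul_le_mul_right _ e1
      _ < 2 ^ (L / 4) * 2 ^ (D0 b) := Nat.mul_lt_mul_of_pos_left e2 (by positivity)
      _ = 2 ^ (L / 4 + D0 b) := (pow_add _ _ _).symm
      _ ≤ 2 ^ L := Nat.pow_le_pow_right (by norm_num) (by omega)
  -- one block
  have hblock : ∀ i ∈ range L, ∑ ρ ∈ (T.filter fun ρ => ¬ ρ.den ≤ L ^ (16 * (K + 3))) with Nat.log 2 ρ.den = i, m ρ ≤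
      4 / (L : ℝ) ^ (K + 2) := by
    intro i _
    set U := (T.filter fun ρ => ¬ ρ.den ≤ L ^ (16 * (K + 3))).filter fun ρ => Nat.log 2 ρ.den = i with hU
    rcases U.eq_empty_or_nonempty with he | ⟨ρ₀, hρ₀⟩
    · rw [he, Finset.sum_empty]
      positivity
    · have hmem : ∀ ρ ∈ U, ρ ∈ T ∧ L ^ (16 * (K + 3)) < ρ.den ∧ 2 ^ i ≤ ρ.den ∧ ρ.den < 2 ^ (i + 1) := by
        intro ρ hρ
        rw [hU, Finset.mem_filter, Finset.mem_filter] at hρ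
        obtain ⟨⟨a1, a2⟩, a3⟩ := hρ
        refine ⟨a1, not_le.1 a2, ?_, ?_⟩
        · rw [← a3]; exact Nat.pow_log_le_self 2 ρ.den_nz
        · rw [← a3]; exact Nat.lt_pow_succ_log_self (by norm_num) _
      obtain ⟨b1, b2, b3, b4⟩ := hmem ρ₀ hρ₀
      have hQ := hl (2 ^ (i + 1)) Nat.one_le_two_pow (by
        rw [pow_succ, mul_comm]
        exact Nat.mul_le_mul_left _ (b3.trans (B5b_den_le b _ b1)))
      have hterm : ∀ ρ ∈ U, m ρ ≤ ((2 : ℝ) ^ i) ^ (-(1 / 8 : ℝ)) * (g ρ) ^ (c / 2) := by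
        intro ρ hρ
        obtain ⟨-, -, c3, -⟩ := hmem ρ hρ
        have hd0 : (0 : ℝ) < ρ.den := by exact_mod_cast ρ.den_pos
        refine le_trans (B5b_min_le (Real.rpow_nonneg hd0.le _) (Real.rpow_nonneg (hg0 ρ) _)) ?_
        rw [← Real.rpow_mul hd0.le, ← Real.rpow_mul (hg0 ρ)]
        have e1 : (-(1 / 4 : ℝ)) * (1 / 2) = -(1 / 8) := by norm_num
        have e2 : c * (1 / 2) = c / 2 := by ring
        rw [e1, e2]
        refine mul_le_mul_of_nonneg_right ?_ (Real.rpow_nonneg (hg0 ρ) _)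
        refine Real.rpow_le_rpow_of_nonpos (by positivity) ?_ (by norm_num)
        exact_mod_cast c3
      have hsub : ∑ ρ ∈ U, (g ρ) ^ (c / 2) ≤ 3 * L * (((2 ^ (i + 1) : ℕ) : ℝ)) ^ (1 / 16 : ℝ) := by
        refine le_trans (Finset.sum_le_sum_of_subset_of_nonneg ?_ fun ρ _ _ => Real.rpow_nonneg (hg0 ρ) _) hQ
        intro ρ hρ
        obtain ⟨c1, -, -, c4⟩ := hmem ρ hρ
        exact Finset.mem_filter.2 ⟨c1, c4.le⟩
      have hy : ((L : ℝ) ^ (16 * (K + 3))) ≤ (2 : ℝ) ^ (i + 1) := by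
        exact_mod_cast (b2.trans b4).le
      refine le_trans (Finset.sum_le_sum hterm) ?_
      rw [← Finset.mul_sum]
      refine le_trans (mul_le_mul_of_nonneg_left hsub (Real.rpow_nonneg (by positivity) _)) ?_
      push_cast
      have hy0 : (0 : ℝ) < (2 : ℝ) ^ (i + 1) := by positivity
      have e3 : ((2 : ℝ) ^ i) ^ (-(1 / 8 : ℝ)) = 2 ^ (1 / 8 : ℝ) * ((2 : ℝ) ^ (i + 1)) ^ (-(1 / 8 : ℝ)) := by
        rw [pow_succ, Real.mul_rpow (by positivity) (by norm_num), mul_comm (2 ^ (1 / 8 : ℝ)), mul_assoc,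
          ← Real.rpow_add (by norm_num)]
        norm_num
      have e4 : ((2 : ℝ) ^ (i + 1)) ^ (-(1 / 8 : ℝ)) * ((2 : ℝ) ^ (i + 1)) ^ (1 / 16 : ℝ) =
          ((2 : ℝ) ^ (i + 1)) ^ (-(1 / 16 : ℝ)) := by
        rw [← Real.rpow_add hy0]
        norm_num
      have e5 : ((2 : ℝ) ^ (i + 1)) ^ (-(1 / 16 : ℝ)) ≤ ((L : ℝ) ^ (16 * (K + 3))) ^ (-(1 / 16 : ℝ)) :=
        Real.rpow_le_rpow_of_nonpos (by positivity) hy (by norm_num)
      have e6 : ((L : ℝ) ^ (16 * (K + 3))) ^ (-(1 / 16 : ℝ)) = 1 / (L : ℝ) ^ (K + 3) := by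
        rw [← Real.rpow_natCast, ← Real.rpow_mul hL0.le]
        have : ((16 * (K + 3) : ℕ) : ℝ) * (-(1 / 16)) = -((K + 3 : ℕ) : ℝ) := by push_cast; ring
        rw [this, Real.rpow_neg hL0.le, Real.rpow_natCast, one_div]
      have e7 : (2 : ℝ) ^ (1 / 8 : ℝ) ≤ 4 / 3 := by
        have : (4 / 3 : ℝ) = ((4 / 3 : ℝ) ^ (8 : ℝ)) ^ (1 / 8 : ℝ) := by
          rw [← Real.rpow_mul (by norm_num)]
          norm_num
        rw [this]
        refine Real.rpow_le_rpow (by norm_num) ?_ (by norm_num)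
        norm_num
      have e8 : ((2 : ℝ) ^ i) ^ (-(1 / 8 : ℝ)) * (3 * L * ((2 : ℝ) ^ (i + 1)) ^ (1 / 16 : ℝ)) =
          3 * L * 2 ^ (1 / 8 : ℝ) * ((2 : ℝ) ^ (i + 1)) ^ (-(1 / 16 : ℝ)) := by
        rw [e3, ← e4]
        ring
      rw [e8]
      rw [e6] at e5
      have e9 : (L : ℝ) ^ (K + 3) = L * (L : ℝ) ^ (K + 2) := by ring
      calc 3 * L * 2 ^ (1 / 8 : ℝ) * ((2 : ℝ) ^ (i + 1)) ^ (-(1 / 16 : ℝ))
          ≤ 3 * L * (4 / 3) * (1 / (L : ℝ) ^ (K + 3)) := by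
            refine mul_le_mul (mul_le_mul_of_nonneg_left e7 (by positivity)) e5 (Real.rpow_nonneg (by positivity) _) (by positivity)
        _ = 4 / (L : ℝ) ^ (K + 2) := by
            rw [e9]
            field_simp
  -- the sum of the blocks
  have hbig : ∑ ρ ∈ T.filter (fun ρ => ¬ ρ.den ≤ L ^ (16 * (K + 3))), m ρ ≤ 4 / (L : ℝ) ^ (K + 1) := by
    rw [← Finset.sum_fiberwise_of_maps_to (s := T.filter (fun ρ => ¬ ρ.den ≤ L ^ (16 * (K + 3)))) (t := range L)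
      (g := fun ρ => Nat.log 2 ρ.den) (fun ρ hρ => by
        rw [Finset.mem_range]
        exact Nat.log_lt_of_lt_pow ρ.den_nz (hden ρ (Finset.mem_filter.1 hρ).1))]
    refine le_trans (Finset.sum_le_sum hblock) ?_
    rw [Finset.sum_const, Finset.card_range, nsmul_eq_mul]
    refine le_of_eq ?_
    rw [pow_succ (L : ℝ) (K + 1)]
    field_simp
  have hsmall : ∑ ρ ∈ T.filter (fun ρ => ρ.den ≤ L ^ (16 * (K + 3))), m ρ ≤ 1 / (L : ℝ) ^ (K + 1) :=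
    le_trans (Finset.sum_le_sum fun ρ _ => min_le_right _ _) hs
  rw [← Finset.sum_filter_add_sum_filter_not T (fun ρ => ρ.den ≤ L ^ (16 * (K + 3)))]
  refine le_trans (add_le_add hsmall hbig) ?_
  rw [← add_div, div_le_div_iff₀ (by positivity) (by positivity), pow_succ]
  have : (0 : ℝ) < (L : ℝ) ^ K := by positivity
  nlinarith

end Pool.Agent.LibHG31
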