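import Pool.Agent.LibHG31.B5b
import Pool.Agent.LibHG31.B1b
import Pool.Agent.LibHG31.B2b
import Pool.Agent.LibHG31.B3b

/-! ROW B5c: assembly of block B. -/

namespace Pool.Agent.LibHG31

open Finset

private theorem B5c_Gr_nonneg (b : ℕ) (c ρ : ℝ) (h0 : 0 < c) (h1 : c < 1) (L s t : ℕ) :
    0 ≤ Gr b c ρ L s t := by
  unfold Gr
  refine Finset.prod_nonneg fun j _ => ?_
  have h2 : nd ((D0 b : ℝ) * ρ * (b : ℝ) ^ (L - 2 - j)) ≤ 1 / 2 := abs_sub_round _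
  have h3 : 0 ≤ nd ((D0 b : ℝ) * ρ * (b : ℝ) ^ (L - 2 - j)) := abs_nonneg _
  nlinarith [mul_self_le_mul_self h3 h2]

private theorem B5c_card (b J : ℕ) (hb : 2 ≤ b) :
    ((((Rset b J).erase 0).card : ℕ) : ℝ) ≤ 4 * (D0 b : ℝ) ^ 2 * (b : ℝ) ^ ((J : ℝ) / 2) := by
  have h1 : ((Rset b J).erase 0).card ≤ (PP J * D0 b + 1) * (PP J * D0 b + 1) := by
    refine (Finset.card_erase_le).trans ?_
    unfold Rset
    refine (Finset.card_filter_le _ _).trans (Finset.card_image_le.trans ?_)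
    rw [Finset.card_product, Finset.card_range]
  have hD : 1 ≤ D0 b := le_trans (by norm_num) (D0_pos b hb)
  have hP : 1 ≤ PP J := Nat.one_le_two_pow
  have h2 : PP J * D0 b + 1 ≤ 2 * (PP J * D0 b) := by
    have := Nat.mul_le_mul hP hD
    omega
  have h3 : ((((Rset b J).erase 0).card : ℕ) : ℝ) ≤
      ((2 * (PP J * D0 b) * (2 * (PP J * D0 b)) : ℕ) : ℝ) :=
    Nat.cast_le.2 (h1.trans (Nat.mul_le_mul h2 h2))
  have h4 : ((PP J : ℝ)) ^ 2 ≤ (b : ℝ) ^ ((J : ℝ) / 2) := by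
    have hb1 : (2 : ℝ) ≤ b := by exact_mod_cast hb
    have h5 : ((PP J : ℝ)) = (2 : ℝ) ^ ((J / 4 : ℕ) : ℝ) := by
      rw [Real.rpow_natCast]
      unfold PP
      push_cast
      rfl
    have h6 : ((J / 4 : ℕ) : ℝ) ≤ (J : ℝ) / 4 := Nat.cast_div_le
    rw [h5, ← Real.rpow_natCast, ← Real.rpow_mul (by norm_num)]
    calc (2 : ℝ) ^ (((J / 4 : ℕ) : ℝ) * ((2 : ℕ) : ℝ)) ≤ (2 : ℝ) ^ ((J : ℝ) / 2) := by
          refine Real.rpow_le_rpow_of_exponent_le (by norm_num) ?_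
          push_cast
          linarith
      _ ≤ (b : ℝ) ^ ((J : ℝ) / 2) := Real.rpow_le_rpow (by norm_num) hb1 (by positivity)
  refine h3.trans ?_
  push_cast
  calc 2 * ((PP J : ℝ) * (D0 b : ℝ)) * (2 * ((PP J : ℝ) * (D0 b : ℝ)))
      = 4 * (D0 b : ℝ) ^ 2 * (PP J : ℝ) ^ 2 := by ring
    _ ≤ 4 * (D0 b : ℝ) ^ 2 * (b : ℝ) ^ ((J : ℝ) / 2) :=
        mul_le_mul_of_nonneg_left h4 (by positivity)

private theorem B5c_lim (b : ℕ) (hb : 2 ≤ b) (κ C C' : ℝ) (hκ : 0 < κ) (d : ℕ) :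
    Filter.Tendsto (fun L : ℕ => C / (L : ℝ) + C' * ((L : ℝ) ^ d * (b : ℝ) ^ (-(κ * L))))
      Filter.atTop (nhds 0) := by
  have hb1 : (1 : ℝ) < b := by exact_mod_cast hb
  have h1 : Filter.Tendsto (fun L : ℕ => C / (L : ℝ)) Filter.atTop (nhds 0) :=
    tendsto_const_div_atTop_nhds_zero_nat C
  have h2 : Filter.Tendsto (fun L : ℕ => (L : ℝ) ^ d * (b : ℝ) ^ (-(κ * L))) Filter.atTop
      (nhds 0) := by
    have h3 := (tendsto_rpow_mul_exp_neg_mul_atTop_nhds_zero (d : ℝ) (κ * Real.log b)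
      (mul_pos hκ (Real.log_pos hb1))).comp tendsto_natCast_atTop_atTop
    refine h3.congr fun L => ?_
    show ((L : ℝ)) ^ ((d : ℕ) : ℝ) * Real.exp (-(κ * Real.log b) * L) = _
    rw [Real.rpow_natCast, Real.rpow_def_of_pos (by linarith : (0 : ℝ) < b)]
    congr 2
    ring
  have h4 := h1.add (h2.const_mul C')
  rw [mul_zero, add_zero] at h4
  exact h4

/-- **BLOCK B**. `Rrho_le_X1` + `X1_le` and `Rrho_le_X2` + `X2_le` give for `ρ ∈ (Rset b J).erase 0`, `J = L/A`: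
`‖Rrho‖ ≤ C b^L L^(D+10) (min(den^(-1/4), Gr^c) + b^(-L/200) + b^(-cL) + b^(-J))` (`min (a+a') (b+b') ≤ min a b + a' + b'`); `#Rset ≤ (P D0 + 1)² ≤ C 2^(J/2)` and
`2^(J/2) (b^(-L/200) + b^(-cL) + b^(-J)) ≤ b^(-c'L)` for `A ≥ max(400, 4/c)`; `Gr_min_sum_le` with `K = D + 12`.
`A₀ ≥ max(100, D, ...)` so that `100 J ≤ L`, `D J ≤ L`; `J ≥ 1` for `L ≥ A`. `Good` gives `l ≥ 1`, `l < b`, the bounds of `N`. -/
theorem BStmt_holds (b : ℕ) (hb : 2 ≤ b) (hTT : TTStmt b) : BStmt b := by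
  obtain ⟨C₁, hC₁, hX1⟩ := X1_le b hb
  obtain ⟨D, c₁, c, C₂, hD, h0, h1, hc, hC₂, A₁, A₂, hA2, hA1, hX2⟩ := X2_le b hb hTT
  obtain ⟨A₀, hA₀⟩ := Gr_min_sum_le b hb c₁ c h0 h1 hc A₁ A₂ hA2 hA1 (D + 11)
  refine ⟨max A₀ (max 200 (max D ⌈1 / c⌉₊)), fun A hA ε hε => ?_⟩
  obtain ⟨L₁, hL₁⟩ := hA₀ A (le_trans (le_max_left _ _) hA)
  have hA' := le_trans (le_max_right _ _) hA
  have hA200 : 200 ≤ A := le_trans (le_max_left _ _) hA'
  have hA'' := le_trans (le_max_right _ _) hA'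
  have hAD : D ≤ A := le_trans (le_max_left _ _) hA''
  have hAc : 1 / c ≤ A := Nat.ceil_le.1 (le_trans (le_max_right _ _) hA'')
  have hb1 : (1 : ℝ) < b := by exact_mod_cast hb
  have hlog : 0 < Real.log b := Real.log_pos hb1
  have hAR : (200 : ℝ) ≤ A := by exact_mod_cast hA200
  have hA0 : (0 : ℝ) < A := by linarith
  set C : ℝ := 4 * Real.log b * (C₁ + C₂) with hC
  have hC0 : 0 < C := by positivity
  set κ : ℝ := min (1 / 400) (min (c / 2) (1 / (2 * A))) with hκ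
  have hκ0 : 0 < κ := lt_min (by norm_num) (lt_min (by positivity) (by positivity))
  have hκ1 : κ ≤ 1 / 400 := min_le_left _ _
  have hκ2 : κ ≤ c / 2 := (min_le_right _ _).trans (min_le_left _ _)
  have hκ3 : κ ≤ 1 / (2 * A) := (min_le_right _ _).trans (min_le_right _ _)
  set C' : ℝ := C * (4 * (D0 b : ℝ) ^ 2) * (3 * (b : ℝ) ^ (1 / 2 : ℝ)) with hC'
  obtain ⟨L₂, hL₂⟩ := Filter.eventually_atTop.1
    ((B5c_lim b hb κ C C' hκ0 (D + 10)).eventually (gt_mem_nhds hε))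
  refine ⟨max L₁ (max L₂ (max A D)), fun L hL l r N hG => ?_⟩
  have hLL1 : L₁ ≤ L := le_trans (le_max_left _ _) hL
  have hL' := le_trans (le_max_right _ _) hL
  have hLL2 : L₂ ≤ L := le_trans (le_max_left _ _) hL'
  have hL'' := le_trans (le_max_right _ _) hL'
  have hLA : A ≤ L := le_trans (le_max_left _ _) hL''
  have hLD : D ≤ L := le_trans (le_max_right _ _) hL''
  obtain ⟨hN1, hN2, hl1, hlb, -⟩ := hG
  have hL1 : 1 ≤ L := by omega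
  have hLR : (1 : ℝ) ≤ L := by exact_mod_cast hL1
  have hJ1 : 1 ≤ L / A := (Nat.one_le_div_iff (by omega)).2 hLA
  have hAJ : A * (L / A) ≤ L := Nat.mul_div_le L A
  have h100 : 100 * (L / A) ≤ L := le_trans (Nat.mul_le_mul_right _ (by omega)) hAJ
  have hDJ : D * (L / A) ≤ L := le_trans (Nat.mul_le_mul_right _ hAD) hAJ
  set J := L / A with hJ
  have hJle : (J : ℝ) ≤ (L : ℝ) / A := Nat.cast_div_le
  have hJge : (L : ℝ) / A - 1 ≤ J := by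
    have h2 : L < A * (J + 1) := Nat.lt_mul_div_succ L (by omega)
    have h3 : (L : ℝ) < A * (J + 1) := by exact_mod_cast h2
    rw [sub_le_iff_le_add, div_le_iff₀ hA0]
    linarith
  set E1 : ℝ := (b : ℝ) ^ (-(L : ℝ) / 200) with hE1
  set E2 : ℝ := (b : ℝ) ^ (-(c * L)) with hE2
  set E3 : ℝ := (b : ℝ) ^ (-(J : ℝ)) with hE3
  have hE1p : 0 < E1 := by positivity
  have hE2p : 0 < E2 := by positivity
  have hE3p : 0 < E3 := by positivity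
  set M : ℝ := C * (b : ℝ) ^ L * (L : ℝ) ^ (D + 10) with hM
  have hM0 : 0 < M := by positivity
  have hgen : ∀ (K' : ℝ) (e : ℕ) (T : ℝ), 0 ≤ K' → K' ≤ C₁ + C₂ → e ≤ D + 9 → 0 ≤ T →
      ((L + 3 : ℕ) * Real.log b) * (K' * (b : ℝ) ^ L * (L : ℝ) ^ e * T) ≤ M * T := by
    intro K' e T hK hK2 he hT
    have h2 : ((L + 3 : ℕ) : ℝ) * (L : ℝ) ^ e ≤ 4 * (L : ℝ) * (L : ℝ) ^ (D + 9) := by
      refine mul_le_mul ?_ (pow_le_pow_right₀ hLR he) (by positivity) (by positivity)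
      push_cast
      linarith
    have h3 : K' * (Real.log b * (b : ℝ) ^ L * T) ≤ (C₁ + C₂) * (Real.log b * (b : ℝ) ^ L * T) :=
      mul_le_mul_of_nonneg_right hK2 (by positivity)
    calc ((L + 3 : ℕ) * Real.log b) * (K' * (b : ℝ) ^ L * (L : ℝ) ^ e * T)
        = (((L + 3 : ℕ) : ℝ) * (L : ℝ) ^ e) * (K' * (Real.log b * (b : ℝ) ^ L * T)) := by ring
      _ ≤ (4 * (L : ℝ) * (L : ℝ) ^ (D + 9)) * ((C₁ + C₂) * (Real.log b * (b : ℝ) ^ L * T)) :=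
          mul_le_mul h2 h3 (by positivity) (by positivity)
      _ = M * T := by
          rw [hM, hC]
          ring
  have key : ∀ ρ ∈ (Rset b J).erase 0, ‖Rrho b L J l r N (ρ : ℝ)‖ ≤
      M * (min ((ρ.den : ℝ) ^ (-(1 / 4 : ℝ))) ((Gr b c₁ (ρ : ℝ) L (L / A₁) (L / A₂)) ^ c) +
        (E1 + E2 + E3)) := by
    intro ρ hρ
    obtain ⟨hρ0, hρ1⟩ := Finset.mem_erase.1 hρ
    set x : ℝ := (ρ.den : ℝ) ^ (-(1 / 4 : ℝ)) with hx
    set y : ℝ := (Gr b c₁ (ρ : ℝ) L (L / A₁) (L / A₂)) ^ c with hy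
    have hx0 : 0 ≤ x := Real.rpow_nonneg (Nat.cast_nonneg _) _
    have hy0 : 0 ≤ y := Real.rpow_nonneg (B5c_Gr_nonneg b c₁ _ h0 h1 _ _ _) _
    have h2 : ‖Rrho b L J l r N (ρ : ℝ)‖ ≤ M * (x + E1) :=
      (Rrho_le_X1 b L J l r N hb hL1 hlb hN1 hN2 (ρ : ℝ) _
        (fun τ hτ ω hω => hX1 L J hJ1 h100 ρ hρ1 hρ0 τ ω hτ fun u v => (hω u v).le)).trans
        (hgen C₁ 9 (x + E1) hC₁.le (by linarith) (by omega) (by positivity))
    have h3 : ‖Rrho b L J l r N (ρ : ℝ)‖ ≤ M * (y + E2 + E3) :=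
      (Rrho_le_X2 b L J l r N hb hL1 hlb hN1 hN2 (ρ : ℝ) _
        (fun τ hτ ω hω => hX2 L J l r N hLD hDJ hJ1 hl1 hlb hN1 hN2 (ρ : ℝ) τ ω hω)).trans
        (hgen C₂ D (y + E2 + E3) hC₂.le (by linarith) (by omega) (by positivity))
    rcases le_total x y with hxy | hxy
    · rw [min_eq_left hxy]
      refine h2.trans (mul_le_mul_of_nonneg_left ?_ hM0.le)
      linarith
    · rw [min_eq_right hxy]
      refine h3.trans (mul_le_mul_of_nonneg_left ?_ hM0.le)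
      linarith
  have hexp : ∀ e : ℝ, (J : ℝ) / 2 + e ≤ 1 / 2 - κ * L →
      (b : ℝ) ^ ((J : ℝ) / 2) * (b : ℝ) ^ e ≤ (b : ℝ) ^ (1 / 2 : ℝ) * (b : ℝ) ^ (-(κ * L)) := by
    intro e he
    rw [← Real.rpow_add (by linarith), ← Real.rpow_add (by linarith)]
    refine Real.rpow_le_rpow_of_exponent_le hb1.le ?_
    linarith
  have hL0 : (0 : ℝ) < L := by linarith
  have hJ200 : (J : ℝ) ≤ (L : ℝ) / 200 :=
    hJle.trans (div_le_div_of_nonneg_left hL0.le (by norm_num) hAR)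
  have hJc : (J : ℝ) ≤ c * L := by
    refine hJle.trans ?_
    rw [div_le_iff₀ hA0]
    have h2 : 1 ≤ c * A := by
      rw [div_le_iff₀ hc] at hAc
      linarith
    nlinarith
  have hκL1 : κ * L ≤ 1 / 400 * L := mul_le_mul_of_nonneg_right hκ1 hL0.le
  have hκL2 : κ * L ≤ c / 2 * L := mul_le_mul_of_nonneg_right hκ2 hL0.le
  have hκL3 : κ * L ≤ 1 / (2 * A) * L := mul_le_mul_of_nonneg_right hκ3 hL0.le
  have hsum : (b : ℝ) ^ ((J : ℝ) / 2) * (E1 + E2 + E3) ≤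
      3 * ((b : ℝ) ^ (1 / 2 : ℝ) * (b : ℝ) ^ (-(κ * L))) := by
    have h2 := hexp (-(L : ℝ) / 200) (by linarith)
    have h3 := hexp (-(c * L)) (by linarith)
    have h4 := hexp (-(J : ℝ)) (by
      have h5 : 1 / (2 * (A : ℝ)) * L = (L : ℝ) / A / 2 := by
        field_simp
      rw [h5] at hκL3
      linarith)
    rw [mul_add, mul_add]
    linarith
  have hcard := B5c_card b J hb
  have hmin := hL₁ L hLL1
  rw [← hJ] at hmin
  have hε' := hL₂ L hLL2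
  calc ∑ ρ ∈ (Rset b J).erase 0, ‖Rrho b L J l r N (ρ : ℝ)‖
      ≤ ∑ ρ ∈ (Rset b J).erase 0,
        M * (min ((ρ.den : ℝ) ^ (-(1 / 4 : ℝ))) ((Gr b c₁ (ρ : ℝ) L (L / A₁) (L / A₂)) ^ c) +
          (E1 + E2 + E3)) := Finset.sum_le_sum key
    _ = M * (∑ ρ ∈ (Rset b J).erase 0,
        min ((ρ.den : ℝ) ^ (-(1 / 4 : ℝ))) ((Gr b c₁ (ρ : ℝ) L (L / A₁) (L / A₂)) ^ c) +
          ((Rset b J).erase 0).card * (E1 + E2 + E3)) := by
        rw [← Finset.mul_sum, Finset.sum_add_distrib, Finset.sum_const, nsmul_eq_mul]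
    _ ≤ M * (1 / (L : ℝ) ^ (D + 11) +
          4 * (D0 b : ℝ) ^ 2 * (3 * ((b : ℝ) ^ (1 / 2 : ℝ) * (b : ℝ) ^ (-(κ * L))))) := by
        refine mul_le_mul_of_nonneg_left (add_le_add hmin ?_) hM0.le
        calc (((Rset b J).erase 0).card : ℝ) * (E1 + E2 + E3)
            ≤ 4 * (D0 b : ℝ) ^ 2 * (b : ℝ) ^ ((J : ℝ) / 2) * (E1 + E2 + E3) :=
              mul_le_mul_of_nonneg_right hcard (by positivity)
          _ = 4 * (D0 b : ℝ) ^ 2 * ((b : ℝ) ^ ((J : ℝ) / 2) * (E1 + E2 + E3)) := by ring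
          _ ≤ _ := mul_le_mul_of_nonneg_left hsum (by positivity)
    _ = (C / (L : ℝ) + C' * ((L : ℝ) ^ (D + 10) * (b : ℝ) ^ (-(κ * L)))) * (b : ℝ) ^ L := by
        rw [hM, hC']
        field_simp
        ring
    _ ≤ ε * (b : ℝ) ^ L := mul_le_mul_of_nonneg_right hε'.le (by positivity)

end Pool.Agent.LibHG31
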