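import Pool.Agent.LibHG31.KIface
import Pool.Agent.LibPL63.B0i

/-!
Block C of HG31 (the special frequency `ρ = 0`): definitions.

`x = L log b`; Gaussian sums `GS c x = ∑ c n gw(log n - x)/n` of LibPL63; frequencies `λ` real.
-/

namespace Pool.Agent.LibHG31

open Finset Complex MeasureTheory
open scoped ArithmeticFunction.vonMangoldt ComplexConjugate
open Pool.Agent.LibPL63 (GS)
open Pool.Agent.LibMaier (gw)

/-- `n^(iλ)` (equal to `1` at `n = 0`) -/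
noncomputable def cp (lam : ℝ) (n : ℕ) : ℂ := cexp (((lam * Real.log n : ℝ) : ℂ) * I)

/-- the twist `χ(n) n^(iλ)` -/
noncomputable def tw {q : ℕ} (χ : DirichletCharacter ℂ q) (lam : ℝ) (n : ℕ) : ℂ :=
  χ (n : ZMod q) * cp lam n

/-- the constant `b D0 / φ(b D0)` -/
noncomputable def kap (b : ℕ) : ℝ := ((b * D0 b : ℕ) : ℝ) / ((b * D0 b).totient : ℝ)

/-- the model `Λ#` -/
noncomputable def LamS (b n : ℕ) : ℝ := if n.Coprime (b * D0 b) then kap b else 0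

/-- `Δ = Λ - Λ#` -/
noncomputable def Dl (b n : ℕ) : ℝ := Λ n - LamS b n

/-- the twisted Gaussian sums of `Δ` -/
noncomputable def DD (b : ℕ) {q : ℕ} (χ : DirichletCharacter ℂ q) (x lam : ℝ) : ℂ :=
  GS (fun n => ((Dl b n : ℝ) : ℂ) * tw χ lam n) x

/-! ### Fourier analysis on the logarithmic scale -/

/-- Gaussian smoothing of width `δ` -/
noncomputable def sm (δ : ℝ) (G : ℝ → ℂ) (v : ℝ) : ℂ :=
  ∫ w, G w * ((gw ((v - w) / δ) / δ : ℝ) : ℂ)

/-- Fourier transform -/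
noncomputable def FT (G : ℝ → ℂ) (lam : ℝ) : ℂ := ∫ w, G w * cexp (-(((lam * w : ℝ) : ℂ) * I))

/-! ### the location functions -/

/-- `H` -/
noncomputable def Hr (b L J : ℕ) : ℝ := (QQ b J : ℝ) * HH b L J

/-- `h(v) = (1/H)(1-|v|/H)_+` -/
noncomputable def hh (b L J : ℕ) (v : ℝ) : ℝ := (1 / Hr b L J) * max 0 (1 - |v| / Hr b L J)

/-- `x = L log b` -/
noncomputable def xL (b L : ℕ) : ℝ := L * Real.log b

/-- `N - rev k`, up to `b^(L-M)`, as a function of the suffix `s = k mod b^M` -/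
noncomputable def ys (b L M N s : ℕ) : ℝ := (N : ℝ) - (b : ℝ) ^ (L - M) * rv b M s

/-- the location function attached to the suffix `s` -/
noncomputable def Gs (b L J M N s : ℕ) (v : ℝ) : ℂ :=
  ((hh b L J (ys b L M N s - Real.exp v) * Real.exp v / gw (v - xL b L) : ℝ) : ℂ)

/-- an integer `≡ N - rv_J(u) mod b^J`, `≡ N - b^(L-1) r mod D0` -/
def Zf (b L J r N u : ℕ) : ℤ :=
  (N : ℤ) - rv b J u - (b : ℤ) ^ (2 * J) * ((b : ℤ) ^ (L - 1) * r - rv b J u)

open scoped Classical in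
/-- the prefix function attached to the character `χ` -/
noncomputable def Fp (b L J N l r : ℕ) (χ : DirichletCharacter ℂ (QQ b J)) (v : ℝ) : ℂ :=
  if (l : ℝ) * (b : ℝ) ^ (L - 1) ≤ Real.exp v ∧ Real.exp v < ((l : ℝ) + 1) * (b : ℝ) ^ (L - 1) then
    conj (χ ((Zf b L J r N ⌊Real.exp v / (b : ℝ) ^ (L - J)⌋₊ : ℤ) : ZMod (QQ b J))) *
      ((Real.exp v / gw (v - xL b L) : ℝ) : ℂ)
  else 0

/-- the length of the suffix -/
def MC (J : ℕ) : ℕ := 12 * J + 2

/-- the width of the smoothings -/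
noncomputable def del (b J : ℕ) : ℝ := ((b : ℝ) ^ (5 * J))⁻¹

/-- the sum over `k` -/
noncomputable def TC (b L J N l r : ℕ) (χ : DirichletCharacter ℂ (QQ b J)) (lam : ℝ) : ℂ :=
  ∑ k ∈ KS b L l r, ((Dl b k : ℝ) : ℂ) * conj (χ (((N : ℤ) - rv b L k : ℤ) : ZMod (QQ b J))) *
    FT (Gs b L J (MC J) N (k % b ^ (MC J))) lam

/-- the sum of the product of the two errors -/
noncomputable def EE (b L J N l r : ℕ) : ℝ :=
  ∑ k ∈ KS b L l r, ∑ n ∈ range (XX b L), Dl b k * Dl b n * krn b L J ((N : ℤ) - n - rv b L k)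

/-- the same with the location of `rev k` given by the suffix -/
noncomputable def EEs (b L J N l r : ℕ) : ℝ :=
  ∑ k ∈ KS b L l r, ∑ n ∈ range (XX b L), Dl b k * Dl b n *
    (if (QQ b J : ℤ) ∣ (N : ℤ) - n - rv b L k then
      (QQ b J : ℝ) * hh b L J (ys b L (MC J) N (k % b ^ (MC J)) - n) else 0)

/-- the admissible sizes: `b ≥ 2`, `J ≥ 1`, `D0 ≤ b^J / 2`, `L ≥ 1000 J` -/
def Adm (b L J : ℕ) : Prop := 2 ≤ b ∧ 1 ≤ J ∧ 2 * D0 b ≤ b ^ J ∧ 1000 * J ≤ L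

end Pool.Agent.LibHG31
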