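import Pool.Agent.LibHG31.C0

/-! ROW CA1: hybrid large sieve for ONE modulus and unit spaced frequencies.
PLAN. `K = 2T+1`. For every complex function `S` on `ℤ` with `‖S m‖²`:
`∑_{|m|≤T} ‖S m‖² ≤ (2/K) ∑_{m1,m2<K} ‖S (m1-m2)‖²` (each `m`, `|m| ≤ T`, is `m1-m2` for at least `K-T ≥ K/2` pairs).
Expand the square, sum over `χ` (`DirichletCharacter.sum_char_inv_mul_char_eq`, or Mathlib's orthogonality; as in
`LibPL63.ap_sum_abs_le`): only `n ≡ n' mod q` (and prime to `q`) stay, with factor `φ(q) ≤ q`: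
`≤ (2/K) q ∑_{n ≡ n'} ‖a n‖ ‖a n'‖ ‖∑_{m<K} e^{im(log n - log n')}‖²`; `‖a n‖‖a n'‖ ≤ (‖a n‖²+‖a n'‖²)/2`, symmetric.
Kernel: `‖∑_{m<K} e^{imα}‖² ≤ min(K², (π/α)²)` for `0 < |α| ≤ π` (geometric sum, `|e^{iα}-1| ≥ 2|α|/π`), and for
`n' = n + q j` in the block `|α| = |log n - log n'| ≥ q|j|/(2N)`, `|α| ≤ log 2`. `∑_j min(K², (2πN/(qj))²) ≤ K² +
2 (K² + 2·K·2πN/q)` (split at `j ≤ 2πN/(qK)`; `∑_{j>y} 1/j² ≤ 2/y` etc.). Total about `(2/K) q (4.3K² + 12πKN/q)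
≤ 26 qT + 76 N ≤ 200 N`. Constants are not critical: if you get another constant, take `C` there. -/

namespace Pool.Agent.LibHG31

open Finset Complex
open scoped ComplexConjugate

private theorem ca1_expand {ρ : Type} (R : Finset ρ) (I : Finset ℕ) (u : ℕ → ℂ) (G : ρ → ℕ → ℂ) :
    ((∑ r ∈ R, ‖∑ n ∈ I, u n * G r n‖ ^ 2 : ℝ) : ℂ) =
      ∑ n ∈ I, ∑ n' ∈ I, u n * conj (u n') * ∑ r ∈ R, G r n * conj (G r n') := by
  have h1 : ∀ r, ((‖∑ n ∈ I, u n * G r n‖ ^ 2 : ℝ) : ℂ) =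
      ∑ n ∈ I, ∑ n' ∈ I, u n * conj (u n') * (G r n * conj (G r n')) := by
    intro r
    rw [← Complex.normSq_eq_norm_sq, ← Complex.mul_conj, map_sum, Finset.sum_mul_sum]
    refine Finset.sum_congr rfl fun n _ => Finset.sum_congr rfl fun n' _ => ?_
    rw [map_mul]
    ring
  rw [Complex.ofReal_sum, Finset.sum_congr rfl fun r _ => h1 r, Finset.sum_comm]
  refine Finset.sum_congr rfl fun n _ => ?_
  rw [Finset.sum_comm]
  refine Finset.sum_congr rfl fun n' _ => ?_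
  rw [Finset.mul_sum]

private theorem ca1_general {ρ : Type} (R : Finset ρ) (I : Finset ℕ) (u : ℕ → ℂ) (G : ρ → ℕ → ℂ)
    (k : ℕ → ℕ → ℝ) (B : ℝ)
    (hk : ∀ n ∈ I, ∀ n' ∈ I, ‖∑ r ∈ R, G r n * conj (G r n')‖ ≤ k n n')
    (hsym : ∀ n n', k n n' = k n' n) (hk0 : ∀ n n', 0 ≤ k n n')
    (hB : ∀ n ∈ I, ∑ n' ∈ I, k n n' ≤ B) :
    ∑ r ∈ R, ‖∑ n ∈ I, u n * G r n‖ ^ 2 ≤ B * ∑ n ∈ I, ‖u n‖ ^ 2 := by
  have h0 : 0 ≤ ∑ r ∈ R, ‖∑ n ∈ I, u n * G r n‖ ^ 2 := Finset.sum_nonneg fun r _ => by positivity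
  have h1 : ∑ r ∈ R, ‖∑ n ∈ I, u n * G r n‖ ^ 2 ≤ ∑ n ∈ I, ∑ n' ∈ I, ‖u n‖ * ‖u n'‖ * k n n' := by
    have h2 : ∑ r ∈ R, ‖∑ n ∈ I, u n * G r n‖ ^ 2 =
        ‖((∑ r ∈ R, ‖∑ n ∈ I, u n * G r n‖ ^ 2 : ℝ) : ℂ)‖ := by
      rw [Complex.norm_real, Real.norm_of_nonneg h0]
    rw [h2, ca1_expand]
    refine (norm_sum_le _ _).trans (Finset.sum_le_sum fun n hn => ?_)
    refine (norm_sum_le _ _).trans (Finset.sum_le_sum fun n' hn' => ?_)
    rw [norm_mul, norm_mul, RCLike.norm_conj]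
    exact mul_le_mul_of_nonneg_left (hk n hn n' hn') (by positivity)
  have h2 : ∑ n ∈ I, ∑ n' ∈ I, ‖u n‖ * ‖u n'‖ * k n n' ≤
      ∑ n ∈ I, ∑ n' ∈ I, (‖u n‖ ^ 2 * k n n' / 2 + ‖u n'‖ ^ 2 * k n n' / 2) := by
    refine Finset.sum_le_sum fun n _ => Finset.sum_le_sum fun n' _ => ?_
    nlinarith [hk0 n n', sq_nonneg (‖u n‖ - ‖u n'‖), mul_nonneg (hk0 n n') (sq_nonneg (‖u n‖ - ‖u n'‖))]
  have h3 : ∑ n ∈ I, ∑ n' ∈ I, (‖u n‖ ^ 2 * k n n' / 2 + ‖u n'‖ ^ 2 * k n n' / 2) =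
      ∑ n ∈ I, ‖u n‖ ^ 2 * ∑ n' ∈ I, k n n' := by
    have e1 : ∑ n ∈ I, ∑ n' ∈ I, ‖u n'‖ ^ 2 * k n n' / 2 = ∑ n ∈ I, ∑ n' ∈ I, ‖u n‖ ^ 2 * k n n' / 2 := by
      rw [Finset.sum_comm]
      refine Finset.sum_congr rfl fun n _ => Finset.sum_congr rfl fun n' _ => ?_
      rw [hsym]
    simp only [Finset.sum_add_distrib]
    rw [e1, ← Finset.sum_add_distrib]
    refine Finset.sum_congr rfl fun n _ => ?_
    rw [← Finset.sum_add_distrib, Finset.mul_sum]
    refine Finset.sum_congr rfl fun n' _ => ?_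
    ring
  calc _ ≤ _ := h1
    _ ≤ _ := h2
    _ = _ := h3
    _ ≤ ∑ n ∈ I, ‖u n‖ ^ 2 * B := Finset.sum_le_sum fun n hn =>
        mul_le_mul_of_nonneg_left (hB n hn) (by positivity)
    _ = B * ∑ n ∈ I, ‖u n‖ ^ 2 := by rw [Finset.mul_sum]; exact Finset.sum_congr rfl fun n _ => by ring

/-- the Dirichlet kernel -/
private noncomputable def ca1_D (K : ℕ) (α : ℝ) : ℂ := ∑ m ∈ range K, cexp (I * ((m * α : ℝ) : ℂ))

private theorem ca1_D_le (K : ℕ) (α : ℝ) : ‖ca1_D K α‖ ≤ K := by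
  unfold ca1_D
  refine (norm_sum_le _ _).trans ?_
  rw [Finset.sum_congr rfl fun m _ => by rw [mul_comm I, Complex.norm_exp_ofReal_mul_I]]
  simp

private theorem ca1_D_le' (K : ℕ) (α : ℝ) (h0 : α ≠ 0) (hπ : |α| ≤ Real.pi) :
    ‖ca1_D K α‖ * |α| ≤ Real.pi := by
  have h1 : ca1_D K α * (cexp (I * (α : ℂ)) - 1) = cexp (I * (α : ℂ)) ^ K - 1 := by
    unfold ca1_D
    rw [← geom_sum_mul]
    congr 1
    refine Finset.sum_congr rfl fun m _ => ?_
    rw [← Complex.exp_nat_mul]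
    congr 1
    push_cast
    ring
  have h2 : ‖cexp (I * (α : ℂ)) ^ K - 1‖ ≤ 2 := by
    refine (norm_sub_le _ _).trans ?_
    rw [norm_pow, mul_comm I, Complex.norm_exp_ofReal_mul_I, one_pow, norm_one]
    norm_num
  have h3 : 2 * |α| / Real.pi ≤ ‖cexp (I * (α : ℂ)) - 1‖ := by
    rw [Complex.norm_exp_I_mul_ofReal_sub_one, norm_mul, Real.norm_eq_abs, Real.norm_eq_abs]
    have h4 : 2 / Real.pi * (|α| / 2) ≤ Real.sin (|α| / 2) :=
      Real.mul_le_sin (by positivity) (by linarith)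
    have h5 : Real.sin (|α| / 2) ≤ |Real.sin (α / 2)| := by
      rcases abs_cases α with ⟨h, _⟩ | ⟨h, _⟩
      · rw [h]; exact le_abs_self _
      · rw [h, neg_div, Real.sin_neg]; exact neg_le_abs _
    have h6 : |(2 : ℝ)| = 2 := abs_of_pos (by norm_num)
    rw [h6]
    calc 2 * |α| / Real.pi = 2 * (2 / Real.pi * (|α| / 2)) := by ring
      _ ≤ 2 * |Real.sin (α / 2)| := by linarith
  have h4 : ‖ca1_D K α‖ * ‖cexp (I * (α : ℂ)) - 1‖ ≤ 2 := by
    rw [← norm_mul, h1]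
    exact h2
  have h5 : ‖ca1_D K α‖ * (2 * |α| / Real.pi) ≤ 2 :=
    (mul_le_mul_of_nonneg_left h3 (norm_nonneg _)).trans h4
  have hpi := Real.pi_pos
  have h6 : ‖ca1_D K α‖ * (2 * |α| / Real.pi) = 2 * (‖ca1_D K α‖ * |α|) / Real.pi := by ring
  rw [h6, div_le_iff₀ hpi] at h5
  linarith

/-- the telescoping majorant -/
private theorem ca1_tau {z K y j : ℝ} (hz : 0 ≤ z) (hK : 0 < K) (hy : 0 < y) (hj : 1 ≤ j)
    (h1 : z ≤ K) (h2 : z * j ≤ y) :
    z ^ 2 ≤ 4 * y ^ 2 * (1 / (j - 1 + y / K) - 1 / (j + y / K)) := by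
  set u := y / K with hu
  have hu0 : 0 < u := div_pos hy hK
  have h3 : z * u ≤ y := by
    have : K * u = y := by rw [hu]; field_simp
    nlinarith
  have h4 : z * (j + u) ≤ 2 * y := by nlinarith
  have h5 : 0 < j - 1 + u := by linarith
  have h6 : 0 < j + u := by linarith
  have h7 : 1 / (j - 1 + u) - 1 / (j + u) = 1 / ((j - 1 + u) * (j + u)) := by
    field_simp
    ring
  rw [h7, mul_one_div, le_div_iff₀ (mul_pos h5 h6)]
  have h8 : z ^ 2 * ((j - 1 + u) * (j + u)) ≤ z ^ 2 * ((j + u) * (j + u)) := by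
    refine mul_le_mul_of_nonneg_left ?_ (by positivity)
    exact mul_le_mul_of_nonneg_right (by linarith) h6.le
  have h9 : (z * (j + u)) ^ 2 ≤ (2 * y) ^ 2 := pow_le_pow_left₀ (by positivity) h4 2
  nlinarith

private theorem ca1_tele (u : ℝ) (M : ℕ) :
    ∑ j ∈ Icc 1 M, (1 / ((j : ℝ) - 1 + u) - 1 / ((j : ℝ) + u)) = 1 / u - 1 / ((M : ℝ) + u) := by
  induction M with
  | zero => simp
  | succ M ih =>
    rw [Finset.sum_Icc_succ_top (by omega), ih]
    push_cast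
    ring_nf

private theorem ca1_orth (q : ℕ) [NeZero q] (n n' : ℕ) :
    ‖∑ χ : DirichletCharacter ℂ q, χ (n : ZMod q) * conj (χ (n' : ZMod q))‖ ≤
      if n ≡ n' [MOD q] then (q : ℝ) else 0 := by
  by_cases hu : IsUnit (n' : ZMod q)
  · have h1 : ∑ χ : DirichletCharacter ℂ q, χ (n : ZMod q) * conj (χ (n' : ZMod q)) =
        ∑ χ : DirichletCharacter ℂ q, χ (n' : ZMod q)⁻¹ * χ (n : ZMod q) := by
      refine Finset.sum_congr rfl fun χ _ => ?_
      rw [mul_comm]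
      congr 1
      have h2 : χ ((n' : ZMod q)⁻¹) * χ (n' : ZMod q) = 1 := by
        rw [← map_mul, ZMod.inv_mul_of_unit _ hu, map_one]
      have h3 : ‖χ (n' : ZMod q)‖ = 1 := DirichletCharacter.unit_norm_eq_one χ hu.unit
      have h4 : conj (χ (n' : ZMod q)) * χ (n' : ZMod q) = 1 := by
        rw [mul_comm, Complex.mul_conj, Complex.normSq_eq_norm_sq, h3]
        norm_num
      have h5 : χ (n' : ZMod q) ≠ 0 := by
        intro h; rw [h, norm_zero] at h3; exact zero_ne_one h3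
      exact mul_right_cancel₀ h5 (h4.trans h2.symm)
    rw [h1, DirichletCharacter.sum_char_inv_mul_char_eq ℂ hu]
    by_cases h : n ≡ n' [MOD q]
    · rw [if_pos h, if_pos ((ZMod.natCast_eq_natCast_iff _ _ _).2 h.symm)]
      rw [Complex.norm_natCast]
      exact_mod_cast Nat.totient_le q
    · rw [if_neg h, if_neg fun h' => h ((ZMod.natCast_eq_natCast_iff _ _ _).1 h').symm]
      simp
  · have h1 : ∑ χ : DirichletCharacter ℂ q, χ (n : ZMod q) * conj (χ (n' : ZMod q)) = 0 := by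
      refine Finset.sum_eq_zero fun χ _ => ?_
      rw [MulChar.map_nonunit χ hu]
      simp
    rw [h1, norm_zero]
    split_ifs <;> positivity

private theorem ca1_inj (M : ℕ) (s : Finset ℕ) (e : ℕ → ℕ) (hinj : Set.InjOn e s)
    (hm : ∀ i ∈ s, e i ∈ Icc 1 M) (τ : ℕ → ℝ) (hτ : ∀ j, 1 ≤ j → 0 ≤ τ j) :
    ∑ i ∈ s, τ (e i) ≤ ∑ j ∈ Icc 1 M, τ j := by
  rw [← Finset.sum_image hinj]
  refine Finset.sum_le_sum_of_subset_of_nonneg ?_ fun j hj _ => hτ j (Finset.mem_Icc.1 hj).1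
  intro j hj
  obtain ⟨i, hi, rfl⟩ := Finset.mem_image.1 hj
  exact hm i hi

private noncomputable def ca1_ta (y K : ℝ) (j : ℕ) : ℝ :=
  4 * y ^ 2 * (1 / ((j : ℝ) - 1 + y / K) - 1 / ((j : ℝ) + y / K))

private theorem ca1_ta_nonneg {y K : ℝ} (hy : 0 < y) (hK : 0 < K) (j : ℕ) (hj : 1 ≤ j) :
    0 ≤ ca1_ta y K j := by
  unfold ca1_ta
  have hu : 0 < y / K := div_pos hy hK
  have hj' : (1 : ℝ) ≤ j := by exact_mod_cast hj
  have h1 : 1 / ((j : ℝ) + y / K) ≤ 1 / ((j : ℝ) - 1 + y / K) :=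
    one_div_le_one_div_of_le (by linarith) (by linarith)
  have h2 : 0 ≤ 1 / ((j : ℝ) - 1 + y / K) - 1 / ((j : ℝ) + y / K) := by linarith
  positivity

private theorem ca1_sum_ta {y K : ℝ} (hy : 0 < y) (hK : 0 < K) (M : ℕ) :
    ∑ j ∈ Icc 1 M, ca1_ta y K j ≤ 4 * y * K := by
  unfold ca1_ta
  rw [← Finset.mul_sum, ca1_tele]
  have hu : 0 < y / K := div_pos hy hK
  have h1 : 0 ≤ 1 / ((M : ℝ) + y / K) := by positivity
  have h2 : 4 * y ^ 2 * (1 / (y / K)) = 4 * y * K := by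
    field_simp
  have h3 : 4 * y ^ 2 * (1 / (y / K) - 1 / ((M : ℝ) + y / K)) =
      4 * y * K - 4 * y ^ 2 * (1 / ((M : ℝ) + y / K)) := by
    rw [mul_sub, h2]
  rw [h3]
  have h4 : 0 ≤ 4 * y ^ 2 * (1 / ((M : ℝ) + y / K)) := by positivity
  linarith

private theorem ca1_log {N n n' : ℕ} (hn : n ∈ Ico N (2 * N)) (hn' : n' ∈ Ico N (2 * N))
    (hlt : n' < n) : ((n - n' : ℕ) : ℝ) / (2 * N) ≤ Real.log n - Real.log n' ∧
      Real.log n - Real.log n' ≤ Real.pi ∧ Real.log n - Real.log n' ≠ 0 := by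
  obtain ⟨h1, h2⟩ := Finset.mem_Ico.1 hn
  obtain ⟨h3, h4⟩ := Finset.mem_Ico.1 hn'
  have hN : 0 < N := by omega
  have hn'0 : (0 : ℝ) < n' := by exact_mod_cast (by omega : 0 < n')
  have hn0 : (0 : ℝ) < n := by exact_mod_cast (by omega : 0 < n)
  have hN0 : (0 : ℝ) < N := by exact_mod_cast hN
  have h5 : Real.log (n' / n) ≤ n' / n - 1 := Real.log_le_sub_one_of_pos (by positivity)
  rw [Real.log_div hn'0.ne' hn0.ne'] at h5
  have h6 : ((n - n' : ℕ) : ℝ) = n - n' := by rw [Nat.cast_sub hlt.le]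
  have hlt' : (n' : ℝ) < n := by exact_mod_cast hlt
  have h7 : ((n : ℝ) - n') / (2 * N) ≤ (n - n') / n := by
    refine div_le_div_of_nonneg_left (by linarith) hn0 ?_
    exact_mod_cast h2.le
  have h8 : ((n : ℝ) - n') / n = 1 - n' / n := by field_simp
  have h9 : 0 < ((n : ℝ) - n') / (2 * N) := div_pos (by linarith) (by positivity)
  refine ⟨by rw [h6]; linarith, ?_, ?_⟩
  · have h10 : (n : ℝ) ≤ 2 * n' := by
      have : n ≤ 2 * n' := by omega
      exact_mod_cast this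
    have h11 : Real.log n ≤ Real.log (2 * n') := Real.log_le_log hn0 h10
    rw [Real.log_mul (by norm_num) hn'0.ne'] at h11
    have h12 := Real.log_two_lt_d9
    have h13 := Real.pi_gt_three
    linarith
  · intro h
    linarith

private theorem ca1_log' {N n n' : ℕ} (hn : n ∈ Ico N (2 * N)) (hn' : n' ∈ Ico N (2 * N))
    (hne : n ≠ n') : (((n - n') + (n' - n) : ℕ) : ℝ) / (2 * N) ≤ |Real.log n - Real.log n'| ∧
      |Real.log n - Real.log n'| ≤ Real.pi ∧ Real.log n - Real.log n' ≠ 0 := by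
  rcases lt_or_gt_of_ne hne with h | h
  · obtain ⟨h1, h2, h3⟩ := ca1_log hn' hn h
    have h4 : (n - n') + (n' - n) = n' - n := by omega
    have h5 : 0 ≤ Real.log n' - Real.log n :=
      le_trans (by positivity) h1
    rw [h4, abs_sub_comm, abs_of_nonneg h5]
    exact ⟨h1, h2, fun h6 => h3 (by linarith)⟩
  · obtain ⟨h1, h2, h3⟩ := ca1_log hn hn' h
    have h4 : (n - n') + (n' - n) = n - n' := by omega
    have h5 : 0 ≤ Real.log n - Real.log n' :=
      le_trans (by positivity) h1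
    rw [h4, abs_of_nonneg h5]
    exact ⟨h1, h2, h3⟩

/-- the majorant of the kernel -/
private noncomputable def ca1_k (q : ℕ) (y K : ℝ) (n n' : ℕ) : ℝ :=
  if n ≡ n' [MOD q] then
    q * (if n = n' then K ^ 2 else ca1_ta y K (((n - n') + (n' - n)) / q)) else 0

private theorem ca1_dvd {q n n' : ℕ} (h : n ≡ n' [MOD q]) : q ∣ (n - n') + (n' - n) := by
  rcases le_total n n' with h1 | h1
  · have h2 := (Nat.modEq_iff_dvd' h1).1 h
    have h3 : (n - n') + (n' - n) = n' - n := by omega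
    rwa [h3]
  · have h2 := (Nat.modEq_iff_dvd' h1).1 h.symm
    have h3 : (n - n') + (n' - n) = n - n' := by omega
    rwa [h3]

private theorem ca1_k_symm (q : ℕ) (y K : ℝ) (n n' : ℕ) : ca1_k q y K n n' = ca1_k q y K n' n := by
  unfold ca1_k
  have h1 : (n ≡ n' [MOD q]) ↔ (n' ≡ n [MOD q]) := ⟨fun h => h.symm, fun h => h.symm⟩
  have h2 : (n = n') ↔ (n' = n) := eq_comm
  rw [add_comm (n - n')]
  simp only [h1, h2]

private theorem ca1_div_pos {q n n' : ℕ} (hq : 0 < q) (h : n ≡ n' [MOD q]) (hne : n ≠ n') :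
    1 ≤ ((n - n') + (n' - n)) / q := by
  obtain ⟨j, hj⟩ := ca1_dvd h
  rw [hj, Nat.mul_div_cancel_left _ hq]
  rcases Nat.eq_zero_or_pos j with h0 | h0
  · rw [h0, mul_zero] at hj
    omega
  · exact h0

private theorem ca1_k_nonneg {q : ℕ} (hq : 0 < q) {y K : ℝ} (hy : 0 < y) (hK : 0 < K) (n n' : ℕ) :
    0 ≤ ca1_k q y K n n' := by
  unfold ca1_k
  split_ifs with h1 h2
  · positivity
  · have := ca1_ta_nonneg hy hK _ (ca1_div_pos hq h1 h2)
    positivity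
  · exact le_rfl

private theorem ca1_sum_k {q N : ℕ} (hq : 0 < q) {y K : ℝ} (hy : 0 < y) (hK : 0 < K) (n : ℕ)
    (hn : n ∈ Ico N (2 * N)) :
    ∑ n' ∈ Ico N (2 * N), ca1_k q y K n n' ≤ q * (K ^ 2 + 8 * y * K) := by
  have hqR : (0 : ℝ) ≤ q := by positivity
  have h0 : ∀ n' ∈ Ico N (2 * N), ca1_k q y K n n' =
      q * ((if n' = n then K ^ 2 else 0) +
        (if n < n' ∧ n ≡ n' [MOD q] then ca1_ta y K ((n' - n) / q) else 0) +
        (if n' < n ∧ n ≡ n' [MOD q] then ca1_ta y K ((n - n') / q) else 0)) := by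
    intro n' _
    unfold ca1_k
    by_cases h1 : n ≡ n' [MOD q]
    · rw [if_pos h1]
      congr 1
      rcases lt_trichotomy n n' with h | h | h
      · rw [if_neg h.ne, if_neg h.ne', if_pos ⟨h, h1⟩, if_neg (by omega)]
        have : (n - n') + (n' - n) = n' - n := by omega
        rw [this]
        ring
      · subst h
        simp
      · rw [if_neg h.ne', if_neg h.ne, if_neg (by omega), if_pos ⟨h, h1⟩]
        have : (n - n') + (n' - n) = n - n' := by omega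
        rw [this]
        ring
    · have h2 : n' ≠ n := by
        rintro rfl
        exact h1 (Nat.ModEq.refl _)
      rw [if_neg h1, if_neg h2, if_neg fun h => h1 h.2, if_neg fun h => h1 h.2]
      ring
  rw [Finset.sum_congr rfl h0, ← Finset.mul_sum]
  refine mul_le_mul_of_nonneg_left ?_ hqR
  rw [Finset.sum_add_distrib, Finset.sum_add_distrib]
  have hA : ∑ n' ∈ Ico N (2 * N), (if n' = n then K ^ 2 else 0) = K ^ 2 := by
    rw [Finset.sum_ite_eq' (Ico N (2 * N)) n, if_pos hn]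
  have hcast := Finset.mem_Ico.1 hn
  have hB : ∑ n' ∈ Ico N (2 * N),
      (if n < n' ∧ n ≡ n' [MOD q] then ca1_ta y K ((n' - n) / q) else 0) ≤ 4 * y * K := by
    rw [← Finset.sum_filter]
    refine le_trans (ca1_inj N _ (fun n' => (n' - n) / q) ?_ ?_ (ca1_ta y K)
      fun j hj => ca1_ta_nonneg hy hK j hj) (ca1_sum_ta hy hK N)
    · intro x hx x' hx' he
      obtain ⟨hx1, hx2, hx3⟩ := Finset.mem_filter.1 hx
      obtain ⟨hx1', hx2', hx3'⟩ := Finset.mem_filter.1 hx'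
      have h1 := (Nat.modEq_iff_dvd' hx2.le).1 hx3
      have h2 := (Nat.modEq_iff_dvd' hx2'.le).1 hx3'
      have h3 := Nat.div_mul_cancel h1
      have h4 := Nat.div_mul_cancel h2
      have he' : (x - n) / q = (x' - n) / q := he
      rw [he'] at h3
      omega
    · intro x hx
      obtain ⟨hx1, hx2, hx3⟩ := Finset.mem_filter.1 hx
      have h1 := (Nat.modEq_iff_dvd' hx2.le).1 hx3
      have h4 := Finset.mem_Ico.1 hx1
      refine Finset.mem_Icc.2 ⟨Nat.div_pos (Nat.le_of_dvd (by omega) h1) hq, ?_⟩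
      exact (Nat.div_le_self _ _).trans (by omega)
  have hC : ∑ n' ∈ Ico N (2 * N),
      (if n' < n ∧ n ≡ n' [MOD q] then ca1_ta y K ((n - n') / q) else 0) ≤ 4 * y * K := by
    rw [← Finset.sum_filter]
    refine le_trans (ca1_inj N _ (fun n' => (n - n') / q) ?_ ?_ (ca1_ta y K)
      fun j hj => ca1_ta_nonneg hy hK j hj) (ca1_sum_ta hy hK N)
    · intro x hx x' hx' he
      obtain ⟨hx1, hx2, hx3⟩ := Finset.mem_filter.1 hx
      obtain ⟨hx1', hx2', hx3'⟩ := Finset.mem_filter.1 hx'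
      have h1 := (Nat.modEq_iff_dvd' hx2.le).1 hx3.symm
      have h2 := (Nat.modEq_iff_dvd' hx2'.le).1 hx3'.symm
      have h3 := Nat.div_mul_cancel h1
      have h4 := Nat.div_mul_cancel h2
      have he' : (n - x) / q = (n - x') / q := he
      rw [he'] at h3
      omega
    · intro x hx
      obtain ⟨hx1, hx2, hx3⟩ := Finset.mem_filter.1 hx
      have h1 := (Nat.modEq_iff_dvd' hx2.le).1 hx3.symm
      have h4 := Finset.mem_Ico.1 hx1
      refine Finset.mem_Icc.2 ⟨Nat.div_pos (Nat.le_of_dvd (by omega) h1) hq, ?_⟩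
      exact (Nat.div_le_self _ _).trans (by omega)
  rw [hA]
  linarith

private theorem ca1_pairs (T : ℕ) (g : ℤ → ℝ) (hg : ∀ m, 0 ≤ g m) :
    ((T : ℝ) + 1) * ∑ m ∈ Icc (-(T : ℤ)) T, g m ≤
      ∑ p ∈ range (2 * T + 1) ×ˢ range (2 * T + 1), g ((p.1 : ℤ) - p.2) := by
  have h1 : ((T : ℝ) + 1) * ∑ m ∈ Icc (-(T : ℤ)) T, g m =
      ∑ z ∈ Icc (-(T : ℤ)) T ×ˢ range (T + 1), g z.1 := by
    rw [Finset.sum_product]
    simp only [Finset.sum_const, Finset.card_range, nsmul_eq_mul]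
    rw [← Finset.mul_sum]
    push_cast
    ring
  rw [h1]
  let φ : ℤ × ℕ → ℕ × ℕ := fun z => (z.2 + z.1.toNat, z.2 + (-z.1).toNat)
  have hφ : ∀ z : ℤ × ℕ, ((φ z).1 : ℤ) - (φ z).2 = z.1 := by
    intro z
    change ((z.2 + z.1.toNat : ℕ) : ℤ) - ((z.2 + (-z.1).toNat : ℕ) : ℤ) = z.1
    omega
  have hinj : Set.InjOn φ (Icc (-(T : ℤ)) T ×ˢ range (T + 1) : Finset (ℤ × ℕ)) := by
    intro z _ z' _ he
    have h2 : z.1 = z'.1 := by rw [← hφ z, ← hφ z', he]
    have h3 : z.2 + z.1.toNat = z'.2 + z'.1.toNat := congrArg Prod.fst he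
    rw [h2] at h3
    exact Prod.ext h2 (by omega)
  have h2 : ∑ z ∈ Icc (-(T : ℤ)) T ×ˢ range (T + 1), g z.1 =
      ∑ p ∈ (Icc (-(T : ℤ)) T ×ˢ range (T + 1)).image φ, g ((p.1 : ℤ) - p.2) := by
    rw [Finset.sum_image hinj]
    exact Finset.sum_congr rfl fun z _ => by rw [hφ]
  rw [h2]
  refine Finset.sum_le_sum_of_subset_of_nonneg ?_ fun p _ _ => hg _
  intro p hp
  obtain ⟨z, hz, rfl⟩ := Finset.mem_image.1 hp
  obtain ⟨hz1, hz2⟩ := Finset.mem_product.1 hz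
  have h3 := Finset.mem_Icc.1 hz1
  have h4 := Finset.mem_range.1 hz2
  refine Finset.mem_product.2 ⟨Finset.mem_range.2 ?_, Finset.mem_range.2 ?_⟩
  · change z.2 + z.1.toNat < 2 * T + 1
    omega
  · change z.2 + (-z.1).toNat < 2 * T + 1
    omega

/-- the family of pairs (character mod `q`, frequency) -/
noncomputable def Fam (q : ℕ) [NeZero q] (T : ℕ) : Finset (DirichletCharacter ℂ q × ℤ) :=
  (univ : Finset (DirichletCharacter ℂ q)) ×ˢ Icc (-(T : ℤ)) T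

private theorem ca1_gram (q : ℕ) [NeZero q] (K : ℕ) (n n' : ℕ) :
    ∑ r ∈ (univ : Finset (DirichletCharacter ℂ q)) ×ˢ (range K ×ˢ range K),
      (r.1 (n : ZMod q) * cexp (I * ((((r.2.1 : ℤ) - r.2.2 : ℤ) : ℝ) * Real.log n : ℝ))) *
        conj (r.1 (n' : ZMod q) * cexp (I * ((((r.2.1 : ℤ) - r.2.2 : ℤ) : ℝ) * Real.log n' : ℝ))) =
    (∑ χ : DirichletCharacter ℂ q, χ (n : ZMod q) * conj (χ (n' : ZMod q))) *
      ((‖ca1_D K (Real.log n - Real.log n')‖ ^ 2 : ℝ) : ℂ) := by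
  rw [← Complex.normSq_eq_norm_sq, ← Complex.mul_conj, Finset.sum_product, Finset.sum_mul]
  refine Finset.sum_congr rfl fun χ _ => ?_
  rw [Finset.sum_product]
  unfold ca1_D
  rw [map_sum, Finset.sum_mul_sum, Finset.mul_sum]
  refine Finset.sum_congr rfl fun m _ => ?_
  rw [Finset.mul_sum]
  refine Finset.sum_congr rfl fun m' _ => ?_
  simp only [map_mul, ← Complex.exp_conj, Complex.conj_I, Complex.conj_ofReal]
  rw [mul_mul_mul_comm, ← Complex.exp_add, ← Complex.exp_add]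
  congr 2
  push_cast
  ring

theorem ls_one (q : ℕ) [NeZero q] (T N : ℕ) (θ : ℝ) (hT : 1 ≤ T) (hN : q * T ≤ N) (a : ℕ → ℂ) :
    ∑ r ∈ Fam q T, ‖∑ n ∈ Ico N (2 * N), a n * tw r.1 ((r.2 : ℝ) + θ) n‖ ^ 2 ≤
      200 * N * ∑ n ∈ Ico N (2 * N), ‖a n‖ ^ 2 := by
  have hq : 0 < q := Nat.pos_of_ne_zero (NeZero.ne q)
  have hN0 : 0 < N := lt_of_lt_of_le (Nat.mul_pos hq hT) hN
  set K : ℕ := 2 * T + 1 with hK
  set y : ℝ := 2 * Real.pi * N / q with hy
  have hqR : (0 : ℝ) < q := by exact_mod_cast hq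
  have hNR : (0 : ℝ) < N := by exact_mod_cast hN0
  have hpi := Real.pi_pos
  have hy0 : 0 < y := by rw [hy]; positivity
  have hKR : (0 : ℝ) < K := by rw [hK]; positivity
  set u : ℕ → ℂ := fun n => a n * cp θ n with hu
  have hun : ∀ n, ‖u n‖ = ‖a n‖ := by
    intro n
    rw [hu]
    unfold cp
    rw [norm_mul, Complex.norm_exp_ofReal_mul_I, mul_one]
  set G : DirichletCharacter ℂ q × ℕ × ℕ → ℕ → ℂ := fun r n =>
    r.1 (n : ZMod q) * cexp (I * ((((r.2.1 : ℤ) - r.2.2 : ℤ) : ℝ) * Real.log n : ℝ)) with hG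
  have hmain := ca1_general ((univ : Finset (DirichletCharacter ℂ q)) ×ˢ (range K ×ˢ range K))
    (Ico N (2 * N)) u G (ca1_k q y K) (q * ((K : ℝ) ^ 2 + 8 * y * K)) ?_ (ca1_k_symm q y K)
    (ca1_k_nonneg hq hy0 hKR) (fun n hn => ca1_sum_k hq hy0 hKR n hn)
  · have h1 : ((T : ℝ) + 1) *
        ∑ r ∈ Fam q T, ‖∑ n ∈ Ico N (2 * N), a n * tw r.1 ((r.2 : ℝ) + θ) n‖ ^ 2 ≤
        ∑ r ∈ (univ : Finset (DirichletCharacter ℂ q)) ×ˢ (range K ×ˢ range K),
          ‖∑ n ∈ Ico N (2 * N), u n * G r n‖ ^ 2 := by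
      unfold Fam
      rw [Finset.sum_product, Finset.sum_product, Finset.mul_sum]
      refine Finset.sum_le_sum fun χ _ => ?_
      have h2 := ca1_pairs T (fun m => ‖∑ n ∈ Ico N (2 * N), u n *
        (χ (n : ZMod q) * cexp (I * ((m : ℝ) * Real.log n : ℝ)))‖ ^ 2) fun m => by positivity
      refine le_trans (le_of_eq ?_) h2
      congr 1
      refine Finset.sum_congr rfl fun m _ => ?_
      congr 2
      refine Finset.sum_congr rfl fun n _ => ?_
      rw [hu]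
      unfold tw cp
      have e1 : cexp (((((m : ℝ) + θ) * Real.log n : ℝ) : ℂ) * I) =
          cexp (((θ * Real.log n : ℝ) : ℂ) * I) * cexp (I * ((m : ℝ) * Real.log n : ℝ)) := by
        rw [← Complex.exp_add]
        congr 1
        push_cast
        ring
      change a n * (χ (n : ZMod q) * cexp (((((m : ℝ) + θ) * Real.log n : ℝ) : ℂ) * I)) = _
      rw [e1]
      ring
    have h2 : ∑ n ∈ Ico N (2 * N), ‖u n‖ ^ 2 = ∑ n ∈ Ico N (2 * N), ‖a n‖ ^ 2 :=
      Finset.sum_congr rfl fun n _ => by rw [hun]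
    rw [h2] at hmain
    have h3 := h1.trans hmain
    have hS : 0 ≤ ∑ n ∈ Ico N (2 * N), ‖a n‖ ^ 2 := Finset.sum_nonneg fun n _ => by positivity
    have hTR : (1 : ℝ) ≤ T := by exact_mod_cast hT
    have hNT : (q : ℝ) * T ≤ N := by exact_mod_cast hN
    have hKT : (K : ℝ) = 2 * T + 1 := by rw [hK]; push_cast; ring
    have h4 : (q : ℝ) * ((K : ℝ) ^ 2 + 8 * y * K) ≤ (T + 1) * (200 * N) := by
      have h5 : (q : ℝ) * y = 2 * Real.pi * N := by rw [hy]; field_simp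
      have h6 : (q : ℝ) * ((K : ℝ) ^ 2 + 8 * y * K) = q * (K : ℝ) ^ 2 + 16 * Real.pi * N * K := by
        calc _ = q * (K : ℝ) ^ 2 + 8 * (q * y) * K := by ring
          _ = _ := by rw [h5]; ring
      rw [h6, hKT]
      have h7 : (2 * (T : ℝ) + 1) ≤ 2 * (T + 1) := by linarith
      have h8 : (2 * (T : ℝ) + 1) ≤ 3 * T := by linarith
      have h9 : (q : ℝ) * (2 * (T : ℝ) + 1) ^ 2 ≤ 6 * N * (T + 1) := by
        have h10 : (2 * (T : ℝ) + 1) ^ 2 ≤ 3 * T * (2 * (T + 1)) := by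
          rw [sq]
          exact mul_le_mul h8 h7 (by positivity) (by positivity)
        calc (q : ℝ) * (2 * (T : ℝ) + 1) ^ 2 ≤ q * (3 * T * (2 * (T + 1))) :=
              mul_le_mul_of_nonneg_left h10 hqR.le
          _ = 6 * (q * T) * (T + 1) := by ring
          _ ≤ 6 * N * (T + 1) := by
              refine mul_le_mul_of_nonneg_right ?_ (by positivity)
              linarith
      have h11 : 16 * Real.pi * N * (2 * (T : ℝ) + 1) ≤ 16 * 3.1416 * N * (2 * (T + 1)) := by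
        refine mul_le_mul ?_ h7 (by positivity) (by positivity)
        refine mul_le_mul_of_nonneg_right ?_ hNR.le
        have := Real.pi_lt_d4
        linarith
      nlinarith [mul_pos hNR (by linarith : (0 : ℝ) < (T : ℝ) + 1)]
    have h5 : ((T : ℝ) + 1) *
        ∑ r ∈ Fam q T, ‖∑ n ∈ Ico N (2 * N), a n * tw r.1 ((r.2 : ℝ) + θ) n‖ ^ 2 ≤
        ((T : ℝ) + 1) * (200 * N * ∑ n ∈ Ico N (2 * N), ‖a n‖ ^ 2) := by
      refine h3.trans ((mul_le_mul_of_nonneg_right h4 hS).trans (le_of_eq ?_))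
      ring
    exact le_of_mul_le_mul_left h5 (by positivity)
  · intro n hn n' hn'
    have hgram : ∑ r ∈ (univ : Finset (DirichletCharacter ℂ q)) ×ˢ (range K ×ˢ range K),
        G r n * conj (G r n') = _ := ca1_gram q K n n'
    rw [hgram, norm_mul, Complex.norm_real, Real.norm_of_nonneg (by positivity)]
    have h1 := ca1_orth q n n'
    unfold ca1_k
    by_cases hmod : n ≡ n' [MOD q]
    · rw [if_pos hmod] at h1 ⊢
      refine mul_le_mul h1 ?_ (by positivity) hqR.le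
      by_cases hne : n = n'
      · rw [if_pos hne]
        exact pow_le_pow_left₀ (norm_nonneg _) (ca1_D_le K _) 2
      · rw [if_neg hne]
        obtain ⟨h2, h3, h4⟩ := ca1_log' hn hn' hne
        have h5 := ca1_D_le' K _ h4 h3
        have hdvd := ca1_dvd hmod
        have hj1 := ca1_div_pos hq hmod hne
        set j : ℕ := ((n - n') + (n' - n)) / q with hj
        have h6 : (((n - n') + (n' - n) : ℕ) : ℝ) = j * q := by
          rw [← Nat.div_mul_cancel hdvd]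
          push_cast
          rfl
        rw [h6] at h2
        refine ca1_tau (norm_nonneg _) hKR hy0 (by exact_mod_cast hj1) (ca1_D_le K _) ?_
        have h7 : ‖ca1_D K (Real.log n - Real.log n')‖ * ((j : ℝ) * q / (2 * N)) ≤ Real.pi :=
          (mul_le_mul_of_nonneg_left h2 (norm_nonneg _)).trans h5
        rw [hy, le_div_iff₀ hqR]
        have h8 : ‖ca1_D K (Real.log n - Real.log n')‖ * ((j : ℝ) * q / (2 * N)) =
            ‖ca1_D K (Real.log n - Real.log n')‖ * j * q / (2 * N) := by ring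
        rw [h8, div_le_iff₀ (by positivity)] at h7
        linarith
    · rw [if_neg hmod] at h1 ⊢
      have h2 : ‖∑ χ : DirichletCharacter ℂ q, χ (n : ZMod q) * conj (χ (n' : ZMod q))‖ = 0 :=
        le_antisymm h1 (norm_nonneg _)
      rw [h2, zero_mul]

end Pool.Agent.LibHG31
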