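import Pool.Agent.LibHG31.CA3
import Pool.Agent.LibH.PNTRem

/-! ROW CA5: type I sums without logarithm, twisted.
PLAN. `f(v) = v^(iλ) gw(log v - y)/v`. (a) `∑ c_n f(n)` with `c_n = χ(n) - [χ = 1] φ(q)/q` has partial sums `≤ 2q` in norm
(`LibMaier.norm_charsum_le` for `χ ≠ 1`; for `χ = 1`: `#{n ≤ N, (n,q)=1} = (φ(q)/q) N + O(q)`, `Nat.filter_coprime_Ico_eq_totient`
blocks); Abel summation (`LibPL63.abel_id` for complex weights, or `LibMaier.abel_bdd`) gives `≤ 2q ∑ ‖f(n)-f(n+1)‖`, and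
`‖f(n)-f(n+1)‖ ≤ |g(n)-g(n+1)| + |λ| g(n) / n` with `g(n) = gw(log n - y)/n`; total variation of `g`: `LibPL63.tv_le` as in
`norm_GS_char_le` (`≤ 2 exp(-y)`), `∑ g(n)/n = ∑ gw(log n - y)/n² ≤ C exp(-y)` (compare with the integral, or
`gw(log n - y)/n² ≤ exp(-y)·gw(log n-y) e^{y}/n ..`: `e^{-2u}gw(u-y) = e^{-y} e^{-u} · gw(u-y)e^{-(u-y)} `, and
`gw(s)e^{-s} ≤ C gw(s/2)`, sum of `gw((log n - y)/2)/n` bounded).
(b) `∑_n f(n) = ∫_1^∞ f + O(∫|f'|)`, `∫_1^∞ f(v) dv = ∫_0^∞ e^{iλu} gw(u-y) du = e^{iλy-λ²/2} - ∫_{u<0}`, the last is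
`≤ e^{-y²/2} ≤ 2 e^{-y}` for `y ≥ 0`. -/

namespace Pool.Agent.LibHG31

open Finset Complex MeasureTheory Filter Topology
open Pool.Agent.LibPL63 (GS gw_shift_le summable_GS)
open Pool.Agent.LibMaier (gw gw_nonneg)
open Pool.Agent.LibH (integrable_gw integral_gw integrable_abs_gw)

open scoped Classical in
/-- the main term -/
noncomputable def mainI {q : ℕ} (χ : DirichletCharacter ℂ q) (lam y : ℝ) : ℂ :=
  if χ = 1 then (((q.totient : ℝ) / q : ℝ) : ℂ) * cexp (((lam * y : ℝ) : ℂ) * I - ((lam ^ 2 / 2 : ℝ) : ℂ)) else 0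

/-! ### the weight on the logarithmic scale -/

/-- the weight with the twist -/
noncomputable def ca5_ph (lam y u : ℝ) : ℂ :=
  cexp (((lam * u : ℝ) : ℂ) * I) * ((gw (u - y) * Real.exp (-u) : ℝ) : ℂ)

/-- its derivative -/
noncomputable def ca5_dph (lam y u : ℝ) : ℂ :=
  ca5_ph lam y u * ((lam : ℂ) * I - ((u - y + 1 : ℝ) : ℂ))

/-- the majorant of the derivative -/
noncomputable def ca5_B (lam y u : ℝ) : ℝ :=
  Real.exp (1 / 2 - y) * ((|lam| + |u + (1 - y)|) * gw (u + (1 - y)))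

theorem ca5_gw_eq (y u : ℝ) :
    gw (u - y) * Real.exp (-u) = Real.exp (1 / 2 - y) * gw (u + (1 - y)) := by
  unfold gw
  rw [div_mul_eq_mul_div, mul_div_assoc', ← Real.exp_add, ← Real.exp_add]
  congr 2
  ring

theorem ca5_gw_der (v : ℝ) : HasDerivAt gw (-v * gw v) v := by
  have h1 : HasDerivAt (fun v : ℝ => -v ^ 2 / 2) (-v) v := by
    have h := ((hasDerivAt_pow 2 v).neg).div_const 2
    refine h.congr_deriv ?_
    simp only [Nat.cast_ofNat, Nat.add_one_sub_one, pow_one]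
    ring
  have h2 := h1.exp.div_const (Real.sqrt (2 * Real.pi))
  refine HasDerivAt.congr_deriv (f := gw) h2 ?_
  unfold gw
  ring

theorem ca5_gw_cont : Continuous gw :=
  continuous_iff_continuousAt.2 fun v => (ca5_gw_der v).continuousAt

theorem ca5_ph_der (lam y u : ℝ) :
    HasDerivAt (fun u => ca5_ph lam y u) (ca5_dph lam y u) u := by
  have h3 : HasDerivAt (fun u : ℝ => gw (u - y)) (-(u - y) * gw (u - y)) u := by
    have h := (ca5_gw_der (u - y)).comp u ((hasDerivAt_id u).sub_const y)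
    refine h.congr_deriv ?_
    ring
  have h4 : HasDerivAt (fun u : ℝ => Real.exp (-u)) (-Real.exp (-u)) u := by
    refine (hasDerivAt_neg u).exp.congr_deriv ?_
    ring
  have h5 := (h3.mul h4).ofReal_comp
  have h6 : HasDerivAt (fun u : ℝ => cexp (((lam * u : ℝ) : ℂ) * I))
      (cexp (((lam * u : ℝ) : ℂ) * I) * ((lam : ℂ) * I)) u := by
    have h7 : HasDerivAt (fun u : ℝ => lam * u) lam u := by
      have := (hasDerivAt_id u).const_mul lam
      simpa using this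
    exact (h7.ofReal_comp.mul_const I).cexp
  refine (h6.mul h5).congr_deriv ?_
  unfold ca5_dph ca5_ph
  simp only [Pi.mul_apply]
  push_cast
  ring

theorem ca5_ph_cont (lam y : ℝ) : Continuous fun u => ca5_ph lam y u :=
  continuous_iff_continuousAt.2 fun u => (ca5_ph_der lam y u).continuousAt

theorem ca5_dph_cont (lam y : ℝ) : Continuous fun u => ca5_dph lam y u := by
  unfold ca5_dph
  exact (ca5_ph_cont lam y).mul (by fun_prop)

theorem ca5_norm_ph (lam y u : ℝ) : ‖ca5_ph lam y u‖ = gw (u - y) * Real.exp (-u) := by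
  unfold ca5_ph
  rw [norm_mul, Complex.norm_exp_ofReal_mul_I, one_mul, Complex.norm_real, Real.norm_eq_abs,
    abs_of_nonneg (mul_nonneg (gw_nonneg _) (Real.exp_pos _).le)]

theorem ca5_norm_dph (lam y u : ℝ) : ‖ca5_dph lam y u‖ ≤ ca5_B lam y u := by
  unfold ca5_dph ca5_B
  rw [norm_mul, ca5_norm_ph, ca5_gw_eq]
  have h1 : ‖(lam : ℂ) * I - ((u - y + 1 : ℝ) : ℂ)‖ ≤ |lam| + |u + (1 - y)| := by
    refine (norm_sub_le _ _).trans ?_
    rw [norm_mul, Complex.norm_I, mul_one, Complex.norm_real, Complex.norm_real,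
      Real.norm_eq_abs, Real.norm_eq_abs, show u - y + 1 = u + (1 - y) by ring]
  have h2 : 0 ≤ Real.exp (1 / 2 - y) * gw (u + (1 - y)) :=
    mul_nonneg (Real.exp_pos _).le (gw_nonneg _)
  calc _ ≤ Real.exp (1 / 2 - y) * gw (u + (1 - y)) * (|lam| + |u + (1 - y)|) :=
        mul_le_mul_of_nonneg_left h1 h2
    _ = _ := by ring

theorem ca5_B_nonneg (lam y u : ℝ) : 0 ≤ ca5_B lam y u :=
  (norm_nonneg _).trans (ca5_norm_dph lam y u)

theorem ca5_B_cont (lam y : ℝ) : Continuous fun u => ca5_B lam y u := by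
  unfold ca5_B
  have h := ca5_gw_cont
  fun_prop

/-- the constant -/
noncomputable def ca5_K : ℝ := ∫ v, |v| * gw v

theorem ca5_K_nonneg : 0 ≤ ca5_K :=
  integral_nonneg fun _ => mul_nonneg (abs_nonneg _) (gw_nonneg _)

theorem ca5_B_int (lam y : ℝ) : Integrable fun u => ca5_B lam y u := by
  unfold ca5_B
  have h1 : Integrable fun v : ℝ => (|lam| + |v|) * gw v := by
    have h := (integrable_gw.const_mul |lam|).add integrable_abs_gw
    refine h.congr (Eventually.of_forall fun v => ?_)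
    simp only [Pi.add_apply]
    ring
  exact (h1.comp_add_right (1 - y)).const_mul _

theorem ca5_B_integral (lam y : ℝ) :
    ∫ u, ca5_B lam y u = Real.exp (1 / 2 - y) * (|lam| + ca5_K) := by
  unfold ca5_B
  rw [integral_const_mul, integral_add_right_eq_self (fun v : ℝ => (|lam| + |v|) * gw v) (1 - y)]
  congr 1
  have h1 : ∀ v : ℝ, (|lam| + |v|) * gw v = |lam| * gw v + |v| * gw v := fun v => by ring
  simp_rw [h1]
  rw [integral_add (integrable_gw.const_mul |lam|) integrable_abs_gw, integral_const_mul,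
    integral_gw, mul_one]
  rfl

theorem ca5_diff (lam y : ℝ) {a b : ℝ} (hab : a ≤ b) :
    ‖ca5_ph lam y b - ca5_ph lam y a‖ ≤ ∫ u in a..b, ca5_B lam y u := by
  rw [← intervalIntegral.integral_eq_sub_of_hasDerivAt (fun u _ => ca5_ph_der lam y u)
    ((ca5_dph_cont lam y).intervalIntegrable a b)]
  exact intervalIntegral.norm_integral_le_of_norm_le hab
    (Eventually.of_forall fun u _ => ca5_norm_dph lam y u)
    ((ca5_B_cont lam y).intervalIntegrable a b)

/-- the points `log (k + 1)` -/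
noncomputable def ca5_a (k : ℕ) : ℝ := Real.log ((k : ℝ) + 1)

theorem ca5_a_zero : ca5_a 0 = 0 := by simp [ca5_a]

theorem ca5_a_exp (k : ℕ) : Real.exp (ca5_a k) = (k : ℝ) + 1 := by
  unfold ca5_a
  exact Real.exp_log (by positivity)

theorem ca5_a_mono (k : ℕ) : ca5_a k ≤ ca5_a (k + 1) := by
  unfold ca5_a
  refine Real.log_le_log (by positivity) ?_
  push_cast
  linarith

theorem ca5_a_tendsto : Tendsto ca5_a atTop atTop := by
  unfold ca5_a
  refine Real.tendsto_log_atTop.comp ?_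
  exact tendsto_atTop_add_const_right _ _ tendsto_natCast_atTop_atTop

/-- the variation on the interval number `k` -/
noncomputable def ca5_V (lam y : ℝ) (k : ℕ) : ℝ := ∫ u in (ca5_a k)..(ca5_a (k + 1)), ca5_B lam y u

theorem ca5_V_sum (lam y : ℝ) (N : ℕ) :
    ∑ k ∈ range N, ca5_V lam y k ≤ Real.exp (1 / 2 - y) * (|lam| + ca5_K) := by
  unfold ca5_V
  rw [intervalIntegral.sum_integral_adjacent_intervals (a := ca5_a)
    (fun k _ => (ca5_B_cont lam y).intervalIntegrable _ _), ← ca5_B_integral]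
  have h1 : ca5_a 0 ≤ ca5_a N := by
    have : Monotone ca5_a := monotone_nat_of_le_succ ca5_a_mono
    exact this (Nat.zero_le N)
  rw [intervalIntegral.integral_of_le h1]
  exact setIntegral_le_integral (ca5_B_int lam y) (Eventually.of_forall fun u => ca5_B_nonneg lam y u)

/-- summation by parts -/
theorem ca5_abel (c F : ℕ → ℂ) (n : ℕ) :
    ∑ m ∈ range n, c m * F m = F n * ∑ m ∈ range n, c m +
      ∑ m ∈ range n, (F m - F (m + 1)) * ∑ k ∈ range (m + 1), c k := by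
  induction n with
  | zero => simp
  | succ n ih =>
    rw [Finset.sum_range_succ, ih, Finset.sum_range_succ (fun m => (F m - F (m + 1)) *
      ∑ k ∈ range (m + 1), c k), Finset.sum_range_succ c n]
    ring

/-- the terms -/
noncomputable def ca5_F (lam y : ℝ) (k : ℕ) : ℂ := ca5_ph lam y (ca5_a k)

theorem ca5_F_re (y : ℝ) (k : ℕ) : gw (ca5_a k - y) * Real.exp (-ca5_a k) =
    gw (Real.log ((k + 1 : ℕ) : ℝ) - y) / ((k + 1 : ℕ) : ℝ) := by
  rw [Real.exp_neg, ca5_a_exp, ← div_eq_mul_inv]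
  unfold ca5_a
  push_cast
  rfl

theorem ca5_F_eq (lam y : ℝ) (k : ℕ) : ca5_F lam y k =
    cp lam (k + 1) * ((gw (Real.log ((k + 1 : ℕ) : ℝ) - y) / ((k + 1 : ℕ) : ℝ) : ℝ) : ℂ) := by
  unfold ca5_F ca5_ph cp
  rw [ca5_F_re]
  unfold ca5_a
  push_cast
  rfl

theorem ca5_F_norm (lam y : ℝ) (k : ℕ) : ‖ca5_F lam y k‖ ≤ Real.exp (-y) := by
  unfold ca5_F
  rw [ca5_norm_ph, ca5_F_re]
  exact gw_shift_le y (Nat.succ_ne_zero k)

theorem ca5_F_summable (lam y : ℝ) : Summable (ca5_F lam y) := by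
  have h1 : LSeriesSummable (1 : ℕ → ℂ) ((1 : ℂ) + ((1 : ℝ) : ℂ)) :=
    LSeriesSummable_one_iff.2 (by simp)
  have h2 := (summable_GS h1 y).norm
  have h3 := (summable_nat_add_iff 1).2 h2
  refine Summable.of_norm_bounded h3 fun k => le_of_eq ?_
  unfold ca5_F
  rw [ca5_norm_ph, ca5_F_re, norm_mul, Pi.one_apply, norm_one, one_mul, Complex.norm_real,
    Real.norm_eq_abs, abs_of_nonneg (div_nonneg (gw_nonneg _) (Nat.cast_nonneg _))]

/-- the bound -/
noncomputable def ca5_T (lam y : ℝ) : ℝ := Real.exp (1 / 2 - y) * (|lam| + ca5_K)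

/-- sums with coefficients with bounded partial sums -/
theorem ca5_bdd (c : ℕ → ℂ) {q : ℝ} (hc : ∀ n, ‖∑ k ∈ range n, c k‖ ≤ q) (lam y : ℝ) (N : ℕ) :
    ‖∑ k ∈ range N, c k * ca5_F lam y k‖ ≤ q * (Real.exp (-y) + ca5_T lam y) := by
  have hq : 0 ≤ q := (norm_nonneg _).trans (hc 0)
  rw [ca5_abel]
  refine (norm_add_le _ _).trans ?_
  have h1 : ‖ca5_F lam y N * ∑ m ∈ range N, c m‖ ≤ Real.exp (-y) * q := by
    rw [norm_mul]
    exact mul_le_mul (ca5_F_norm lam y N) (hc N) (norm_nonneg _) (Real.exp_pos _).le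
  have h2 : ‖∑ m ∈ range N, (ca5_F lam y m - ca5_F lam y (m + 1)) * ∑ k ∈ range (m + 1), c k‖ ≤
      ca5_T lam y * q := by
    refine (norm_sum_le _ _).trans ?_
    calc ∑ m ∈ range N, ‖(ca5_F lam y m - ca5_F lam y (m + 1)) * ∑ k ∈ range (m + 1), c k‖
        ≤ ∑ m ∈ range N, ca5_V lam y m * q := by
          refine Finset.sum_le_sum fun m _ => ?_
          rw [norm_mul]
          refine mul_le_mul ?_ (hc _) (norm_nonneg _) ?_
          · rw [norm_sub_rev]
            exact ca5_diff lam y (ca5_a_mono m)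
          · exact (norm_nonneg _).trans (ca5_diff lam y (ca5_a_mono m))
      _ = (∑ m ∈ range N, ca5_V lam y m) * q := by rw [Finset.sum_mul]
      _ ≤ ca5_T lam y * q := mul_le_mul_of_nonneg_right (ca5_V_sum lam y N) hq
  linarith

/-! ### the main term -/

/-- the weight times the Jacobian -/
noncomputable def ca5_psi (lam y u : ℝ) : ℂ := cexp (((lam * u : ℝ) : ℂ) * I) * ((gw (u - y) : ℝ) : ℂ)

theorem ca5_psi_eq (lam y u : ℝ) :
    ca5_ph lam y u * ((Real.exp u : ℝ) : ℂ) = ca5_psi lam y u := by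
  unfold ca5_ph ca5_psi
  rw [mul_assoc, ← Complex.ofReal_mul, mul_assoc (gw (u - y)), ← Real.exp_add, neg_add_cancel,
    Real.exp_zero, mul_one]

theorem ca5_psi_norm (lam y u : ℝ) : ‖ca5_psi lam y u‖ = gw (u - y) := by
  unfold ca5_psi
  rw [norm_mul, Complex.norm_exp_ofReal_mul_I, one_mul, Complex.norm_real, Real.norm_eq_abs,
    abs_of_nonneg (gw_nonneg _)]

theorem ca5_psi_cont (lam y : ℝ) : Continuous fun u => ca5_psi lam y u := by
  unfold ca5_psi
  have h := ca5_gw_cont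
  have h1 : Continuous fun u : ℝ => gw (u - y) := h.comp (by fun_prop)
  exact (by fun_prop : Continuous fun u : ℝ => cexp (((lam * u : ℝ) : ℂ) * I)).mul
    (Complex.continuous_ofReal.comp h1)

theorem ca5_psi_int (lam y : ℝ) : Integrable fun u => ca5_psi lam y u := by
  refine Integrable.mono' (integrable_gw.comp_sub_right y) (ca5_psi_cont lam y).aestronglyMeasurable
    (Eventually.of_forall fun u => le_of_eq ?_)
  exact ca5_psi_norm lam y u

theorem ca5_cmp (lam y : ℝ) (k : ℕ) :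
    ‖ca5_F lam y k - ∫ u in (ca5_a k)..(ca5_a (k + 1)), ca5_psi lam y u‖ ≤ ca5_V lam y k := by
  have hk := ca5_a_mono k
  have h1 : ∫ u in (ca5_a k)..(ca5_a (k + 1)), Real.exp u = 1 := by
    rw [integral_exp, ca5_a_exp, ca5_a_exp]
    push_cast
    ring
  have h2 : ca5_F lam y k = ∫ u in (ca5_a k)..(ca5_a (k + 1)), ca5_F lam y k * ((Real.exp u : ℝ) : ℂ) := by
    rw [intervalIntegral.integral_const_mul, intervalIntegral.integral_ofReal, h1]
    simp
  have hc1 : Continuous fun u : ℝ => ca5_F lam y k * ((Real.exp u : ℝ) : ℂ) := by fun_prop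
  have h3 : ca5_F lam y k - ∫ u in (ca5_a k)..(ca5_a (k + 1)), ca5_psi lam y u =
      ∫ u in (ca5_a k)..(ca5_a (k + 1)), (ca5_F lam y k - ca5_ph lam y u) * ((Real.exp u : ℝ) : ℂ) := by
    conv_lhs => rw [h2]
    rw [← intervalIntegral.integral_sub (hc1.intervalIntegrable _ _)
      ((ca5_psi_cont lam y).intervalIntegrable _ _)]
    refine intervalIntegral.integral_congr fun u _ => ?_
    rw [← ca5_psi_eq, sub_mul]
  rw [h3]
  have h4 : ‖∫ u in (ca5_a k)..(ca5_a (k + 1)), (ca5_F lam y k - ca5_ph lam y u) *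
      ((Real.exp u : ℝ) : ℂ)‖ ≤ ∫ u in (ca5_a k)..(ca5_a (k + 1)), ca5_V lam y k * Real.exp u := by
    refine intervalIntegral.norm_integral_le_of_norm_le hk (Eventually.of_forall fun u hu => ?_) ?_
    · rw [norm_mul, Complex.norm_real, Real.norm_eq_abs, abs_of_pos (Real.exp_pos _)]
      refine mul_le_mul_of_nonneg_right ?_ (Real.exp_pos _).le
      rw [norm_sub_rev]
      refine (ca5_diff lam y hu.1.le).trans ?_
      exact intervalIntegral.integral_mono_interval le_rfl hu.1.le hu.2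
        (Eventually.of_forall fun v => ca5_B_nonneg lam y v)
        ((ca5_B_cont lam y).intervalIntegrable _ _)
    · exact (Continuous.intervalIntegrable (by fun_prop) _ _)
  rw [intervalIntegral.integral_const_mul, h1, mul_one] at h4
  exact h4

theorem ca5_cmp_sum (lam y : ℝ) (N : ℕ) :
    ‖∑ k ∈ range N, ca5_F lam y k - ∫ u in (0 : ℝ)..(ca5_a N), ca5_psi lam y u‖ ≤ ca5_T lam y := by
  have h1 : ∫ u in (0 : ℝ)..(ca5_a N), ca5_psi lam y u =
      ∑ k ∈ range N, ∫ u in (ca5_a k)..(ca5_a (k + 1)), ca5_psi lam y u := by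
    rw [intervalIntegral.sum_integral_adjacent_intervals (a := ca5_a)
      (fun k _ => (ca5_psi_cont lam y).intervalIntegrable _ _), ca5_a_zero]
  rw [h1, ← Finset.sum_sub_distrib]
  refine (norm_sum_le _ _).trans ((Finset.sum_le_sum fun k _ => ca5_cmp lam y k).trans ?_)
  exact ca5_V_sum lam y N

theorem ca5_cmp_tsum (lam y : ℝ) :
    ‖∑' k, ca5_F lam y k - ∫ u in Set.Ioi (0 : ℝ), ca5_psi lam y u‖ ≤ ca5_T lam y := by
  have h1 := (ca5_F_summable lam y).hasSum.tendsto_sum_nat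
  have h2 : Tendsto (fun N : ℕ => ∫ u in (0 : ℝ)..(ca5_a N), ca5_psi lam y u) atTop
      (𝓝 (∫ u in Set.Ioi (0 : ℝ), ca5_psi lam y u)) :=
    intervalIntegral_tendsto_integral_Ioi 0 (ca5_psi_int lam y).integrableOn ca5_a_tendsto
  exact le_of_tendsto (h1.sub h2).norm (Eventually.of_forall fun N => ca5_cmp_sum lam y N)

theorem ca5_fourier (lam : ℝ) :
    ∫ v : ℝ, cexp (((lam * v : ℝ) : ℂ) * I) * ((gw v : ℝ) : ℂ) = cexp (-((lam ^ 2 / 2 : ℝ) : ℂ)) := by
  have hb : 0 < ((1 / 2 : ℂ)).re := by norm_num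
  have h := fourierIntegral_gaussian hb (lam : ℂ)
  have hpi : ((Real.pi : ℂ) / (1 / 2)) ^ (1 / 2 : ℂ) = ((Real.sqrt (2 * Real.pi) : ℝ) : ℂ) := by
    rw [Real.sqrt_eq_rpow, Complex.ofReal_cpow (by positivity)]
    congr 1
    · push_cast
      ring
    · push_cast
      rfl
  have hs : ((Real.sqrt (2 * Real.pi) : ℝ) : ℂ) ≠ 0 := by
    rw [Complex.ofReal_ne_zero]
    positivity
  have h2 : ∀ v : ℝ, cexp (((lam * v : ℝ) : ℂ) * I) * ((gw v : ℝ) : ℂ) =
      (cexp (I * lam * v) * cexp (-(1 / 2) * (v : ℂ) ^ 2)) * (((Real.sqrt (2 * Real.pi) : ℝ) : ℂ))⁻¹ := by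
    intro v
    have e1 : cexp (I * lam * v) = cexp (((lam * v : ℝ) : ℂ) * I) := by
      congr 1
      push_cast
      ring
    have e2 : cexp (-(1 / 2) * (v : ℂ) ^ 2) = ((Real.exp (-v ^ 2 / 2) : ℝ) : ℂ) := by
      rw [Complex.ofReal_exp]
      congr 1
      push_cast
      ring
    rw [e1, e2]
    unfold gw
    rw [Complex.ofReal_div, div_eq_mul_inv, mul_assoc]
  simp_rw [h2]
  rw [integral_mul_const, h, hpi, mul_comm, ← mul_assoc, inv_mul_cancel₀ hs, one_mul]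
  congr 1
  push_cast
  ring

theorem ca5_psi_integral (lam y : ℝ) :
    ∫ u, ca5_psi lam y u = cexp (((lam * y : ℝ) : ℂ) * I - ((lam ^ 2 / 2 : ℝ) : ℂ)) := by
  have h1 : ∀ u : ℝ, ca5_psi lam y u = (fun v : ℝ => cexp (((lam * y : ℝ) : ℂ) * I) *
      (cexp (((lam * v : ℝ) : ℂ) * I) * ((gw v : ℝ) : ℂ))) (u - y) := by
    intro u
    simp only [ca5_psi]
    rw [← mul_assoc, ← Complex.exp_add]
    congr 2
    push_cast
    ring
  simp_rw [h1]
  rw [integral_sub_right_eq_self (fun v : ℝ => cexp (((lam * y : ℝ) : ℂ) * I) *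
      (cexp (((lam * v : ℝ) : ℂ) * I) * ((gw v : ℝ) : ℂ))) y, integral_const_mul, ca5_fourier,
    ← Complex.exp_add, ← sub_eq_add_neg]

theorem ca5_tail (lam y : ℝ) :
    ‖∫ u in Set.Iic (0 : ℝ), ca5_psi lam y u‖ ≤ Real.exp (1 / 2 - y) := by
  have h1 : Integrable fun u : ℝ => Real.exp (1 / 2 - y) * gw (u + (1 - y)) :=
    (integrable_gw.comp_add_right (1 - y)).const_mul _
  have h2 : ‖∫ u in Set.Iic (0 : ℝ), ca5_psi lam y u‖ ≤
      ∫ u in Set.Iic (0 : ℝ), Real.exp (1 / 2 - y) * gw (u + (1 - y)) := by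
    refine norm_integral_le_of_norm_le h1.integrableOn ?_
    filter_upwards [ae_restrict_mem measurableSet_Iic] with u hu
    rw [ca5_psi_norm, ← ca5_gw_eq]
    have h3 : 1 ≤ Real.exp (-u) := Real.one_le_exp (by
      have : u ≤ 0 := hu
      linarith)
    exact le_mul_of_one_le_right (gw_nonneg _) h3
  refine h2.trans ?_
  have h4 : ∫ u in Set.Iic (0 : ℝ), Real.exp (1 / 2 - y) * gw (u + (1 - y)) ≤
      ∫ u : ℝ, Real.exp (1 / 2 - y) * gw (u + (1 - y)) :=
    setIntegral_le_integral h1 (Eventually.of_forall fun u =>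
      mul_nonneg (Real.exp_pos _).le (gw_nonneg _))
  refine h4.trans (le_of_eq ?_)
  rw [integral_const_mul, integral_add_right_eq_self gw (1 - y), integral_gw, mul_one]

theorem ca5_main (lam y : ℝ) :
    ‖∑' k, ca5_F lam y k - cexp (((lam * y : ℝ) : ℂ) * I - ((lam ^ 2 / 2 : ℝ) : ℂ))‖ ≤
      ca5_T lam y + Real.exp (1 / 2 - y) := by
  have h1 : ∫ u, ca5_psi lam y u = (∫ u in Set.Iic (0 : ℝ), ca5_psi lam y u) +
      ∫ u in Set.Ioi (0 : ℝ), ca5_psi lam y u :=
    (intervalIntegral.integral_Iic_add_Ioi (ca5_psi_int lam y).integrableOn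
      (ca5_psi_int lam y).integrableOn).symm
  rw [← ca5_psi_integral, h1]
  have h2 : ∑' k, ca5_F lam y k - ((∫ u in Set.Iic (0 : ℝ), ca5_psi lam y u) +
      ∫ u in Set.Ioi (0 : ℝ), ca5_psi lam y u) =
      (∑' k, ca5_F lam y k - ∫ u in Set.Ioi (0 : ℝ), ca5_psi lam y u) -
        ∫ u in Set.Iic (0 : ℝ), ca5_psi lam y u := by ring
  rw [h2]
  exact (norm_sub_le _ _).trans (add_le_add (ca5_cmp_tsum lam y) (ca5_tail lam y))

/-! ### the characters -/

theorem ca5_periodic {q : ℕ} (hq : 0 < q) (c : ℕ → ℂ) (hper : ∀ k, c (q + k) = c k)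
    (h0 : ∑ k ∈ range q, c k = 0) (h1 : ∀ k, ‖c k‖ ≤ 1) (N : ℕ) : ‖∑ k ∈ range N, c k‖ ≤ q := by
  induction N using Nat.strong_induction_on with
  | _ N ih =>
    rcases lt_or_ge N q with h | h
    · calc ‖∑ k ∈ range N, c k‖ ≤ ∑ k ∈ range N, ‖c k‖ := norm_sum_le _ _
        _ ≤ ∑ k ∈ range N, 1 := Finset.sum_le_sum fun k _ => h1 k
        _ ≤ q := by simp; exact_mod_cast h.le
    · obtain ⟨m, rfl⟩ := Nat.exists_eq_add_of_le h
      rw [Finset.sum_range_add, h0, zero_add, Finset.sum_congr rfl fun k _ => hper k]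
      exact ih m (by omega)

open scoped Classical in
/-- the mean value of the character -/
noncomputable def ca5_e {q : ℕ} (χ : DirichletCharacter ℂ q) : ℝ :=
  if χ = 1 then (q.totient : ℝ) / q else 0

theorem ca5_e_nonneg {q : ℕ} (χ : DirichletCharacter ℂ q) : 0 ≤ ca5_e χ := by
  unfold ca5_e
  split_ifs
  · positivity
  · exact le_rfl

theorem ca5_e_le {q : ℕ} [NeZero q] (χ : DirichletCharacter ℂ q) : ca5_e χ ≤ 1 := by
  unfold ca5_e
  have hq : (0 : ℝ) < q := by exact_mod_cast Nat.pos_of_ne_zero (NeZero.ne q)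
  split_ifs
  · rw [div_le_one hq]
    exact_mod_cast Nat.totient_le q
  · exact zero_le_one

theorem ca5_sum_char {q : ℕ} [NeZero q] (χ : DirichletCharacter ℂ q) :
    ∑ k ∈ range q, (χ (k : ZMod q) - ((ca5_e χ : ℝ) : ℂ)) = 0 := by
  classical
  have hq : (q : ℂ) ≠ 0 := by exact_mod_cast NeZero.ne q
  have h0 : ∑ k ∈ range q, χ (k : ZMod q) = ∑ a : ZMod q, χ a := by
    refine Finset.sum_nbij' (fun k : ℕ => (k : ZMod q)) (fun a : ZMod q => a.val) ?_ ?_ ?_ ?_ ?_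
    · intro k _; exact Finset.mem_univ _
    · intro a _; exact Finset.mem_range.2 (ZMod.val_lt a)
    · intro k hk; exact ZMod.val_cast_of_lt (Finset.mem_range.1 hk)
    · intro a _; exact ZMod.natCast_zmod_val a
    · intro k _; rfl
  rw [Finset.sum_sub_distrib, h0, Finset.sum_const, Finset.card_range, nsmul_eq_mul]
  unfold ca5_e
  by_cases hχ : χ = 1
  · rw [if_pos hχ, hχ, MulChar.sum_one_eq_card_units, ZMod.card_units_eq_totient]
    push_cast
    field_simp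
    ring
  · rw [if_neg hχ, MulChar.sum_eq_zero_of_ne_one hχ]
    simp

theorem ca5_char_norm {q : ℕ} [NeZero q] (χ : DirichletCharacter ℂ q) (k : ℕ) :
    ‖χ (k : ZMod q) - ((ca5_e χ : ℝ) : ℂ)‖ ≤ 1 := by
  by_cases hχ : χ = 1
  · have h0 := ca5_e_nonneg χ
    have h1 := ca5_e_le χ
    by_cases hu : IsUnit (k : ZMod q)
    · have h2 : χ (k : ZMod q) = 1 := by
        rw [hχ]
        exact MulChar.one_apply hu
      rw [h2, ← Complex.ofReal_one, ← Complex.ofReal_sub, Complex.norm_real, Real.norm_eq_abs,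
        abs_of_nonneg (by linarith)]
      linarith
    · rw [MulChar.map_nonunit χ hu, zero_sub, norm_neg, Complex.norm_real, Real.norm_eq_abs,
        abs_of_nonneg h0]
      exact h1
  · have h2 : ca5_e χ = 0 := by
      unfold ca5_e
      rw [if_neg hχ]
    rw [h2, Complex.ofReal_zero, sub_zero]
    exact DirichletCharacter.norm_le_one χ _

theorem ca5_char_partial {q : ℕ} [NeZero q] (χ : DirichletCharacter ℂ q) (N : ℕ) :
    ‖∑ k ∈ range N, (χ ((k + 1 : ℕ) : ZMod q) - ((ca5_e χ : ℝ) : ℂ))‖ ≤ 2 * q := by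
  have hq : 0 < q := Nat.pos_of_ne_zero (NeZero.ne q)
  have hq1 : (1 : ℝ) ≤ q := by exact_mod_cast hq
  have h1 := ca5_periodic hq (fun k : ℕ => χ (k : ZMod q) - ((ca5_e χ : ℝ) : ℂ))
    (fun k => by simp) (ca5_sum_char χ) (ca5_char_norm χ) (N + 1)
  rw [Finset.sum_range_succ'] at h1
  have h2 := ca5_char_norm χ 0
  have h3 : ∑ k ∈ range N, (χ ((k + 1 : ℕ) : ZMod q) - ((ca5_e χ : ℝ) : ℂ)) =
      (∑ k ∈ range N, (χ ((k + 1 : ℕ) : ZMod q) - ((ca5_e χ : ℝ) : ℂ)) +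
        (χ ((0 : ℕ) : ZMod q) - ((ca5_e χ : ℝ) : ℂ))) -
        (χ ((0 : ℕ) : ZMod q) - ((ca5_e χ : ℝ) : ℂ)) := by ring
  rw [h3]
  refine (norm_sub_le _ _).trans ?_
  linarith

theorem tw_GS : ∃ C : ℝ, 0 < C ∧ ∀ (q : ℕ) [NeZero q] (χ : DirichletCharacter ℂ q) (lam y : ℝ), 0 ≤ y →
    ‖GS (tw χ lam) y - mainI χ lam y‖ ≤ C * q * (1 + |lam|) * Real.exp (-y) := by
  have hK := ca5_K_nonneg
  refine ⟨2 * (1 + Real.exp (1 / 2) * (1 + ca5_K)) + Real.exp (1 / 2) * (2 + ca5_K), by positivity,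
    fun q _ χ lam y _ => ?_⟩
  have hq1 : (1 : ℝ) ≤ q := by exact_mod_cast Nat.pos_of_ne_zero (NeZero.ne q)
  have hF := ca5_F_summable lam y
  -- the sum in terms of `F`
  have hχF : Summable fun k : ℕ => χ ((k + 1 : ℕ) : ZMod q) * ca5_F lam y k := by
    refine Summable.of_norm_bounded hF.norm fun k => ?_
    rw [norm_mul]
    exact mul_le_of_le_one_left (norm_nonneg _) (DirichletCharacter.norm_le_one χ _)
  have hterm : ∀ k : ℕ, tw χ lam (k + 1) *
      ((gw (Real.log ((k + 1 : ℕ) : ℝ) - y) / ((k + 1 : ℕ) : ℝ) : ℝ) : ℂ) =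
      χ ((k + 1 : ℕ) : ZMod q) * ca5_F lam y k := by
    intro k
    rw [ca5_F_eq, ← mul_assoc]
    rfl
  have hGS : GS (tw χ lam) y = ∑' k : ℕ, χ ((k + 1 : ℕ) : ZMod q) * ca5_F lam y k := by
    have hs : Summable fun n : ℕ => tw χ lam n * ((gw (Real.log n - y) / n : ℝ) : ℂ) := by
      rw [← summable_nat_add_iff 1]
      exact hχF.congr fun k => (hterm k).symm
    unfold Pool.Agent.LibPL63.GS
    rw [hs.tsum_eq_zero_add]
    have h0 : tw χ lam 0 * ((gw (Real.log ((0 : ℕ) : ℝ) - y) / ((0 : ℕ) : ℝ) : ℝ) : ℂ) = 0 := by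
      simp
    rw [h0, zero_add]
    exact tsum_congr hterm
  have hsplit : GS (tw χ lam) y =
      ∑' k : ℕ, (χ ((k + 1 : ℕ) : ZMod q) - ((ca5_e χ : ℝ) : ℂ)) * ca5_F lam y k +
        ((ca5_e χ : ℝ) : ℂ) * ∑' k : ℕ, ca5_F lam y k := by
    have h1 : ∑' k : ℕ, (χ ((k + 1 : ℕ) : ZMod q) - ((ca5_e χ : ℝ) : ℂ)) * ca5_F lam y k =
        ∑' k : ℕ, χ ((k + 1 : ℕ) : ZMod q) * ca5_F lam y k -
          ∑' k : ℕ, ((ca5_e χ : ℝ) : ℂ) * ca5_F lam y k := by
      rw [← hχF.tsum_sub (hF.mul_left _)]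
      exact tsum_congr fun k => sub_mul _ _ _
    rw [h1, hGS, tsum_mul_left]
    ring
  have hmain : mainI χ lam y = ((ca5_e χ : ℝ) : ℂ) *
      cexp (((lam * y : ℝ) : ℂ) * I - ((lam ^ 2 / 2 : ℝ) : ℂ)) := by
    unfold mainI ca5_e
    split_ifs
    · rfl
    · simp
  have hA : ‖∑' k : ℕ, (χ ((k + 1 : ℕ) : ZMod q) - ((ca5_e χ : ℝ) : ℂ)) * ca5_F lam y k‖ ≤
      2 * q * (Real.exp (-y) + ca5_T lam y) := by
    have hs : Summable fun k : ℕ => (χ ((k + 1 : ℕ) : ZMod q) - ((ca5_e χ : ℝ) : ℂ)) * ca5_F lam y k :=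
      (hχF.sub (hF.mul_left ((ca5_e χ : ℝ) : ℂ))).congr fun k => (sub_mul _ _ _).symm
    exact le_of_tendsto hs.hasSum.tendsto_sum_nat.norm
      (Eventually.of_forall fun N => ca5_bdd _ (ca5_char_partial χ) lam y N)
  have hB : ‖((ca5_e χ : ℝ) : ℂ) * (∑' k : ℕ, ca5_F lam y k -
      cexp (((lam * y : ℝ) : ℂ) * I - ((lam ^ 2 / 2 : ℝ) : ℂ)))‖ ≤
      ca5_T lam y + Real.exp (1 / 2 - y) := by
    rw [norm_mul, Complex.norm_real, Real.norm_eq_abs, abs_of_nonneg (ca5_e_nonneg χ)]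
    exact (mul_le_of_le_one_left (norm_nonneg _) (ca5_e_le χ)).trans (ca5_main lam y)
  have hexp : Real.exp (1 / 2 - y) = Real.exp (1 / 2) * Real.exp (-y) := by
    rw [← Real.exp_add, ← sub_eq_add_neg]
  have h2 : GS (tw χ lam) y - mainI χ lam y =
      ∑' k : ℕ, (χ ((k + 1 : ℕ) : ZMod q) - ((ca5_e χ : ℝ) : ℂ)) * ca5_F lam y k +
        ((ca5_e χ : ℝ) : ℂ) * (∑' k : ℕ, ca5_F lam y k -
          cexp (((lam * y : ℝ) : ℂ) * I - ((lam ^ 2 / 2 : ℝ) : ℂ))) := by
    rw [hsplit, hmain]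
    ring
  rw [h2]
  refine (norm_add_le _ _).trans ((add_le_add hA hB).trans ?_)
  unfold ca5_T
  rw [hexp]
  set E := Real.exp (-y) with hE
  set e := Real.exp (1 / 2) with he
  set K := ca5_K with hKd
  have hE0 : 0 ≤ E := (Real.exp_pos _).le
  have he0 : 0 ≤ e := (Real.exp_pos _).le
  have hl : 0 ≤ |lam| := abs_nonneg lam
  have h3 : |lam| + K ≤ (1 + K) * (1 + |lam|) := by nlinarith
  have h4 : E + e * E * (|lam| + K) ≤ (1 + e * (1 + K)) * ((1 + |lam|) * E) := by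
    have h5 : e * E * (|lam| + K) ≤ e * E * ((1 + K) * (1 + |lam|)) :=
      mul_le_mul_of_nonneg_left h3 (by positivity)
    have h6 : E ≤ (1 + |lam|) * E := le_mul_of_one_le_left hE0 (by linarith)
    calc E + e * E * (|lam| + K) ≤ (1 + |lam|) * E + e * E * ((1 + K) * (1 + |lam|)) :=
          add_le_add h6 h5
      _ = _ := by ring
  have h7 : e * E * (|lam| + K) + e * E ≤ e * (2 + K) * ((1 + |lam|) * E) := by
    have h8 : |lam| + K + 1 ≤ (2 + K) * (1 + |lam|) := by nlinarith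
    calc e * E * (|lam| + K) + e * E = e * E * (|lam| + K + 1) := by ring
      _ ≤ e * E * ((2 + K) * (1 + |lam|)) := mul_le_mul_of_nonneg_left h8 (by positivity)
      _ = _ := by ring
  have h9 : e * (2 + K) * ((1 + |lam|) * E) ≤ q * (e * (2 + K) * ((1 + |lam|) * E)) :=
    le_mul_of_one_le_left (by positivity) hq1
  calc 2 * q * (E + e * E * (|lam| + K)) + (e * E * (|lam| + K) + e * E)
      ≤ 2 * q * ((1 + e * (1 + K)) * ((1 + |lam|) * E)) + q * (e * (2 + K) * ((1 + |lam|) * E)) :=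
        add_le_add (mul_le_mul_of_nonneg_left h4 (by positivity)) (h7.trans h9)
    _ = (2 * (1 + e * (1 + K)) + e * (2 + K)) * q * (1 + |lam|) * E := by ring

end Pool.Agent.LibHG31
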