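import Pool.Agent.LibHG31.CF3
import Pool.Agent.LibHG31.CA5

/-! ROW CA10: trivial bounds. -/

namespace Pool.Agent.LibHG31

open Finset Complex MeasureTheory
open scoped ArithmeticFunction.vonMangoldt
open Pool.Agent.LibPL63 (GS)
open Pool.Agent.LibMaier (gw)

theorem ca10_tw_one (n : ℕ) : tw (1 : DirichletCharacter ℂ 1) 0 n = 1 := by
  unfold tw cp
  have : (1 : DirichletCharacter ℂ 1) (n : ZMod 1) = 1 := MulChar.one_apply (by
      rw [Subsingleton.elim (n : ZMod 1) 1]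
      exact isUnit_one)
  rw [this]
  simp

theorem ca10_summable_gw (x : ℝ) : Summable (fun n : ℕ => gw (Real.log n - x) / n) := by
  have h1 := LibPL63.summable_GS (c := fun _ => (1 : ℂ)) (σ := 1)
    (ca3_summable_one (σ := 1) one_pos) x
  have h2 := h1.norm
  refine h2.congr fun n => ?_
  rw [one_mul, Complex.norm_real, Real.norm_eq_abs, abs_of_nonneg (cf3_w0 n x)]

theorem ca10_gw_sum : ∃ C : ℝ, 0 < C ∧ ∀ x : ℝ, 0 ≤ x → ∑' n : ℕ, gw (Real.log n - x) / n ≤ C := by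
  obtain ⟨C, hC, h⟩ := tw_GS
  refine ⟨1 + 1 + C, by linarith, fun x hx => ?_⟩
  have h1 := h 1 (1 : DirichletCharacter ℂ 1) 0 x hx
  have h2 : GS (tw (1 : DirichletCharacter ℂ 1) 0) x = ((∑' n : ℕ, gw (Real.log n - x) / n : ℝ) : ℂ) := by
    unfold LibPL63.GS
    rw [Complex.ofReal_tsum]
    apply tsum_congr
    intro n
    rw [ca10_tw_one, one_mul]
  have h3 : ‖mainI (1 : DirichletCharacter ℂ 1) 0 x‖ ≤ 1 := by
    unfold mainI
    rw [if_pos rfl]
    simp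
  have h4 : Real.exp (-x) ≤ 1 := Real.exp_le_one_iff.2 (by linarith)
  rw [h2] at h1
  have h5 : ‖((∑' n : ℕ, gw (Real.log n - x) / n : ℝ) : ℂ)‖ ≤ 1 + C := by
    have h6 := norm_sub_norm_le ((∑' n : ℕ, gw (Real.log n - x) / n : ℝ) : ℂ)
      (mainI (1 : DirichletCharacter ℂ 1) 0 x)
    have h7 : C * Real.exp (-x) ≤ C := mul_le_of_le_one_right hC.le h4
    have h8 := h6.trans h1
    rw [abs_zero, Nat.cast_one, add_zero, mul_one, mul_one] at h8
    linarith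
  rw [Complex.norm_real, Real.norm_eq_abs] at h5
  linarith [le_abs_self (∑' n : ℕ, gw (Real.log n - x) / n)]

theorem ca10_kap_nonneg (b : ℕ) : 0 ≤ kap b := by
  unfold kap
  positivity

theorem ca10_Dl_abs (b n : ℕ) : |Dl b n| ≤ Λ n + kap b := by
  unfold Dl
  have h1 : |LamS b n| ≤ kap b := by
    unfold LamS
    split_ifs
    · exact (abs_of_nonneg (ca10_kap_nonneg b)).le
    · simpa using ca10_kap_nonneg b
  have h2 := abs_sub (Λ n) (LamS b n)
  have h3 : |Λ n| = Λ n := abs_of_nonneg ArithmeticFunction.vonMangoldt_nonneg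
  linarith

theorem Dl_sum (b : ℕ) (hb : 2 ≤ b) : ∃ C : ℝ, 0 < C ∧ ∀ x : ℝ, 1 ≤ x →
    Summable (fun n : ℕ => |Dl b n| * (gw (Real.log n - x) / n)) ∧
    ∑' n : ℕ, |Dl b n| * (gw (Real.log n - x) / n) ≤ C := by
  obtain ⟨K, hK, hS⟩ := LibH.S0_remainder
  obtain ⟨C1, hC1, h1⟩ := ca10_gw_sum
  have hk := ca10_kap_nonneg b
  refine ⟨1 + K + kap b * C1, by positivity, fun x hx => ?_⟩
  have hs1 : Summable (fun n : ℕ => Λ n * (gw (Real.log n - x) / n)) := LibMaier.summable_wn x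
  have hs2 := (ca10_summable_gw x).mul_left (kap b)
  have hle : ∀ n : ℕ, |Dl b n| * (gw (Real.log n - x) / n) ≤
      Λ n * (gw (Real.log n - x) / n) + kap b * (gw (Real.log n - x) / n) := by
    intro n
    rw [← add_mul]
    exact mul_le_mul_of_nonneg_right (ca10_Dl_abs b n) (cf3_w0 n x)
  have hs : Summable (fun n : ℕ => |Dl b n| * (gw (Real.log n - x) / n)) :=
    Summable.of_nonneg_of_le (fun n => mul_nonneg (abs_nonneg _) (cf3_w0 n x)) hle (hs1.add hs2)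
  refine ⟨hs, ?_⟩
  refine (hs.tsum_le_tsum hle (hs1.add hs2)).trans ?_
  rw [hs1.tsum_add hs2, tsum_mul_left]
  have h2 : ∑' n : ℕ, Λ n * (gw (Real.log n - x) / n) ≤ 1 + K := by
    have h3 := hS x hx
    have h4 : ∑' n : ℕ, Λ n * (gw (Real.log n - x) / n) = LibMaier.S0 x := rfl
    rw [h4]
    have h5 := (abs_le.1 h3).2
    have h6 : K / x ≤ K := div_le_self hK.le hx
    linarith
  have h3 := mul_le_mul_of_nonneg_left (h1 x (by linarith)) hk
  linarith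

theorem ca10_DD_form (b : ℕ) {q : ℕ} (χ : DirichletCharacter ℂ q) (x lam : ℝ) :
    DD b χ x lam = GS (fun n => (((Dl b n : ℝ) : ℂ) * χ (n : ZMod q)) * cp lam n) x := by
  unfold DD tw
  congr 1
  funext n
  ring

theorem ca10_summable_D (b : ℕ) (hb : 2 ≤ b) {q : ℕ} (χ : DirichletCharacter ℂ q) {x : ℝ} (hx : 1 ≤ x) :
    Summable (fun n : ℕ => ‖((Dl b n : ℝ) : ℂ) * χ (n : ZMod q)‖ * (gw (Real.log n - x) / n)) ∧
    ∑' n : ℕ, ‖((Dl b n : ℝ) : ℂ) * χ (n : ZMod q)‖ * (gw (Real.log n - x) / n) ≤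
      ∑' n : ℕ, |Dl b n| * (gw (Real.log n - x) / n) := by
  obtain ⟨C, hC, h⟩ := Dl_sum b hb
  have hle : ∀ n : ℕ, ‖((Dl b n : ℝ) : ℂ) * χ (n : ZMod q)‖ * (gw (Real.log n - x) / n) ≤
      |Dl b n| * (gw (Real.log n - x) / n) := by
    intro n
    apply mul_le_mul_of_nonneg_right _ (cf3_w0 n x)
    rw [norm_mul, Complex.norm_real, Real.norm_eq_abs]
    exact mul_le_of_le_one_right (abs_nonneg _) (χ.norm_le_one _)
  have hs := Summable.of_nonneg_of_le (fun n => mul_nonneg (norm_nonneg _) (cf3_w0 n x)) hle (h x hx).1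
  exact ⟨hs, hs.tsum_le_tsum hle (h x hx).1⟩

theorem DD_triv (b : ℕ) (hb : 2 ≤ b) : ∃ C : ℝ, 0 < C ∧ ∀ (q : ℕ) (χ : DirichletCharacter ℂ q) (x lam : ℝ),
    1 ≤ x → ‖DD b χ x lam‖ ≤ C := by
  obtain ⟨C, hC, h⟩ := Dl_sum b hb
  refine ⟨C, hC, fun q χ x lam hx => ?_⟩
  rw [ca10_DD_form]
  obtain ⟨h1, h2⟩ := ca10_summable_D b hb χ hx
  exact (norm_GS_cp_le _ x lam h1).trans (h2.trans (h x hx).2)

theorem continuous_DD (b : ℕ) (hb : 2 ≤ b) {q : ℕ} (χ : DirichletCharacter ℂ q) {x : ℝ} (hx : 1 ≤ x) :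
    Continuous fun lam : ℝ => DD b χ x lam := by
  simp_rw [ca10_DD_form]
  exact continuous_GS_cp _ x (ca10_summable_D b hb χ hx).1

end Pool.Agent.LibHG31
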