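import Pool.Agent.LibHG31.CA9
import Pool.Agent.LibHG31.CA10

/-! ROW CA11: the `ℓ¹` bound for `Δ`. -/

namespace Pool.Agent.LibHG31

open Finset Complex
open scoped ArithmeticFunction.vonMangoldt
open Pool.Agent.LibPL63 (GS)
open Pool.Agent.LibMaier (gw)

theorem ca11_coprime {b : ℕ} (n j : ℕ) (hj : 1 ≤ j) : n.Coprime (QQ b j) ↔ n.Coprime (b * D0 b) := by
  unfold QQ
  rw [Nat.coprime_mul_iff_right, Nat.coprime_mul_iff_right, Nat.coprime_pow_right_iff (by omega)]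
  exact and_comm

theorem ca11_D0_pos {b : ℕ} (hb : 2 ≤ b) : 0 < D0 b := by
  unfold D0
  have : 2 ^ 2 ≤ b ^ 2 := Nat.pow_le_pow_left hb 2
  omega

theorem ca11_QQ_ne {b : ℕ} (hb : 2 ≤ b) (j : ℕ) : QQ b j ≠ 0 := by
  unfold QQ
  have := ca11_D0_pos hb
  exact Nat.mul_ne_zero (by omega) (pow_ne_zero _ (by omega))

theorem ca11_LamS (b : ℕ) (hb : 2 ≤ b) {j : ℕ} (hj : 1 ≤ j) (χ : DirichletCharacter ℂ (QQ b j)) (n : ℕ) :
    ((LamS b n : ℝ) : ℂ) * χ (n : ZMod (QQ b j)) = (kap b : ℂ) * χ (n : ZMod (QQ b j)) := by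
  have : NeZero (QQ b j) := ⟨ca11_QQ_ne hb j⟩
  unfold LamS
  split_ifs with h
  · rfl
  · have h1 : χ (n : ZMod (QQ b j)) = 0 := MulChar.map_nonunit _ fun hu =>
      h ((ca11_coprime n j hj).1 ((ZMod.isUnit_iff_coprime _ _).1 hu))
    rw [h1, mul_zero, mul_zero]

theorem DD_eq (b : ℕ) (hb : 2 ≤ b) {j : ℕ} (hj : 1 ≤ j) (χ : DirichletCharacter ℂ (QQ b j)) (x lam : ℝ) :
    DD b χ x lam = GS (tw χ lam * (fun n : ℕ ↦ (Λ n : ℂ))) x - (kap b : ℂ) * GS (tw χ lam) x := by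
  have s1 := LibPL63.summable_GS (summable_twL χ lam (σ := 1) one_pos) x
  have s2 := (LibPL63.summable_GS (summable_tw χ lam (σ := 1) one_pos) x).mul_left (kap b : ℂ)
  unfold DD LibPL63.GS
  rw [← tsum_mul_left, ← s1.tsum_sub s2]
  apply tsum_congr
  intro n
  rw [Pi.mul_apply]
  have h1 := ca11_LamS b hb hj χ n
  unfold tw Dl
  have h2 : ((Λ n - LamS b n : ℝ) : ℂ) * (χ (n : ZMod (QQ b j)) * cp lam n) =
      χ (n : ZMod (QQ b j)) * cp lam n * (Λ n : ℂ) -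
        (((LamS b n : ℝ) : ℂ) * χ (n : ZMod (QQ b j))) * cp lam n := by
    push_cast
    ring
  show ((Λ n - LamS b n : ℝ) : ℂ) * (χ (n : ZMod (QQ b j)) * cp lam n) * ((gw (Real.log n - x) / n : ℝ) : ℂ) =
    χ (n : ZMod (QQ b j)) * cp lam n * (Λ n : ℂ) * ((gw (Real.log n - x) / n : ℝ) : ℂ) -
      (kap b : ℂ) * (χ (n : ZMod (QQ b j)) * cp lam n * ((gw (Real.log n - x) / n : ℝ) : ℂ))
  rw [h2, h1]
  ring

open scoped Classical in
theorem ca11_tw_sum : ∃ C : ℝ, 0 < C ∧ ∀ (q : ℕ) [NeZero q] (T : ℕ) (θ x : ℝ), 1 ≤ T → 0 ≤ θ → θ ≤ 1 →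
    60 ≤ x → (q : ℝ) * T ≤ Real.exp (x / 40) →
    ∑ r ∈ Fam q T, ‖GS (tw r.1 ((r.2 : ℝ) + θ)) x‖ ≤ C := by
  obtain ⟨C1, hC1, h1⟩ := tw_GS
  obtain ⟨C2, hC2, h2⟩ := gauss_sum_le
  refine ⟨9 * C1 + C2, by positivity, fun q _ T θ x hT hθ hθ1 hx hq => ?_⟩
  have hq1 : (1 : ℝ) ≤ q := by exact_mod_cast Nat.one_le_iff_ne_zero.2 (NeZero.ne q)
  have hT1 : (1 : ℝ) ≤ T := by exact_mod_cast hT
  have hterm : ∀ r ∈ Fam q T, ‖GS (tw r.1 ((r.2 : ℝ) + θ)) x‖ ≤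
      C1 * q * (3 * T) * Real.exp (-x) +
        (if r.1 = 1 then (1 + |(r.2 : ℝ) + θ|) * Real.exp (-(((r.2 : ℝ) + θ) ^ 2 / 2)) else 0) := by
    intro r hr
    have hr2 : r.2 ∈ Icc (-(T : ℤ)) T := (Finset.mem_product.1 hr).2
    obtain ⟨hr3, hr4⟩ := Finset.mem_Icc.1 hr2
    have hr5 : |(r.2 : ℝ)| ≤ T := by
      rw [abs_le]
      constructor
      · exact_mod_cast hr3
      · exact_mod_cast hr4
    have hr6 : 1 + |(r.2 : ℝ) + θ| ≤ 3 * T := by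
      have := abs_add_le (r.2 : ℝ) θ
      rw [abs_of_nonneg hθ] at this
      linarith
    have h3 := h1 q r.1 ((r.2 : ℝ) + θ) x (by linarith)
    have h4 : ‖mainI r.1 ((r.2 : ℝ) + θ) x‖ ≤
        (if r.1 = 1 then (1 + |(r.2 : ℝ) + θ|) * Real.exp (-(((r.2 : ℝ) + θ) ^ 2 / 2)) else 0) := by
      unfold mainI
      split_ifs with hχ
      · rw [norm_mul, Complex.norm_real, Real.norm_eq_abs, Complex.norm_exp]
        have h5 : (((((r.2 : ℝ) + θ) * x : ℝ) : ℂ) * I - (((((r.2 : ℝ) + θ) ^ 2 / 2 : ℝ)) : ℂ)).re =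
            -(((r.2 : ℝ) + θ) ^ 2 / 2) := by
          rw [Complex.sub_re, Complex.ofReal_re, Complex.re_ofReal_mul, Complex.I_re, mul_zero, zero_sub]
        rw [h5]
        have h6 : |((q.totient : ℝ) / q)| ≤ 1 := by
          rw [abs_of_nonneg (by positivity), div_le_one (by linarith)]
          exact_mod_cast Nat.totient_le q
        have h7 : (1 : ℝ) ≤ 1 + |(r.2 : ℝ) + θ| := by linarith [abs_nonneg ((r.2 : ℝ) + θ)]
        exact mul_le_mul_of_nonneg_right (h6.trans h7) (Real.exp_pos _).le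
      · simp
    have h5 : C1 * q * (1 + |(r.2 : ℝ) + θ|) * Real.exp (-x) ≤ C1 * q * (3 * T) * Real.exp (-x) := by
      gcongr
    have h6 := norm_sub_norm_le (GS (tw r.1 ((r.2 : ℝ) + θ)) x) (mainI r.1 ((r.2 : ℝ) + θ) x)
    linarith
  refine (Finset.sum_le_sum hterm).trans ?_
  rw [Finset.sum_add_distrib, Finset.sum_const, nsmul_eq_mul]
  have hcard : ((Fam q T).card : ℝ) ≤ q * (3 * T) := by
    unfold Fam
    rw [Finset.card_product]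
    push_cast
    have h3 : (((univ : Finset (DirichletCharacter ℂ q)).card : ℕ) : ℝ) ≤ q := by
      exact_mod_cast LibMaier.card_chars_le q _
    have h4 : (((Icc (-(T : ℤ)) T).card : ℕ) : ℝ) ≤ 3 * T := by
      rw [Int.card_Icc]
      have h5 : ((T : ℤ) + 1 - -(T : ℤ)).toNat = 2 * T + 1 := by omega
      rw [h5]
      push_cast
      linarith
    exact mul_le_mul h3 h4 (Nat.cast_nonneg _) (Nat.cast_nonneg _)
  have hfirst : ((Fam q T).card : ℝ) * (C1 * q * (3 * T) * Real.exp (-x)) ≤ 9 * C1 := by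
    have h3 : ((Fam q T).card : ℝ) * (C1 * q * (3 * T) * Real.exp (-x)) ≤
        (q * (3 * T)) * (C1 * q * (3 * T) * Real.exp (-x)) :=
      mul_le_mul_of_nonneg_right hcard (by positivity)
    have h4 : (q : ℝ) * (3 * T) * (C1 * q * (3 * T) * Real.exp (-x)) =
        9 * C1 * ((q * T) ^ 2 * Real.exp (-x)) := by ring
    have h5 : ((q : ℝ) * T) ^ 2 * Real.exp (-x) ≤ 1 := by
      calc ((q : ℝ) * T) ^ 2 * Real.exp (-x) ≤ (Real.exp (x / 40)) ^ 2 * Real.exp (-x) := by gcongr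
        _ = Real.exp (2 * (x / 40) + -x) := by
            rw [← Real.exp_nat_mul, ← Real.exp_add]
            push_cast
            rfl
        _ ≤ 1 := Real.exp_le_one_iff.2 (by linarith)
    rw [h4] at h3
    have h6 := mul_le_mul_of_nonneg_left h5 (show 0 ≤ 9 * C1 by positivity)
    linarith
  have hsecond : ∑ r ∈ Fam q T, (if r.1 = 1 then (1 + |(r.2 : ℝ) + θ|) *
      Real.exp (-(((r.2 : ℝ) + θ) ^ 2 / 2)) else 0) ≤ C2 := by
    unfold Fam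
    rw [Finset.sum_product]
    have h3 : ∀ χ ∈ (univ : Finset (DirichletCharacter ℂ q)),
        ∑ m ∈ Icc (-(T : ℤ)) T, (if (χ, m).1 = 1 then (1 + |((χ, m).2 : ℝ) + θ|) *
          Real.exp (-((((χ, m).2 : ℝ) + θ) ^ 2 / 2)) else 0) =
        if χ = 1 then ∑ m ∈ Icc (-(T : ℤ)) T, (1 + |(m : ℝ) + θ|) * Real.exp (-(((m : ℝ) + θ) ^ 2 / 2)) else 0 := by
      intro χ _
      split_ifs with h
      · rfl
      · simp
    rw [Finset.sum_congr rfl h3, Finset.sum_ite_eq' univ (1 : DirichletCharacter ℂ q), if_pos (Finset.mem_univ _)]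
    exact h2 T θ hθ hθ1
  linarith

theorem l1_disc_D (b : ℕ) (hb : 2 ≤ b) : ∃ C : ℝ, 0 < C ∧ ∀ (j : ℕ) [NeZero (QQ b j)] (T : ℕ) (θ x : ℝ), 1 ≤ j →
    1 ≤ T → 0 ≤ θ → θ ≤ 1 → 60 ≤ x → (QQ b j : ℝ) * T ≤ Real.exp (x / 40) →
    ∑ r ∈ Fam (QQ b j) T, ‖DD b r.1 x ((r.2 : ℝ) + θ)‖ ≤ C * x ^ 6 := by
  obtain ⟨C1, hC1, h1⟩ := l1_disc
  obtain ⟨C2, hC2, h2⟩ := ca11_tw_sum
  have hk := ca10_kap_nonneg b
  refine ⟨C1 + kap b * C2, by positivity, fun j _ T θ x hj hT hθ hθ1 hx hq => ?_⟩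
  have h3 := h1 (QQ b j) T θ x hT hθ hθ1 hx hq
  have h4 := h2 (QQ b j) T θ x hT hθ hθ1 hx hq
  have h5 : ∀ r ∈ Fam (QQ b j) T, ‖DD b r.1 x ((r.2 : ℝ) + θ)‖ ≤
      ‖GS (tw r.1 ((r.2 : ℝ) + θ) * (fun n : ℕ ↦ (Λ n : ℂ))) x‖ + kap b * ‖GS (tw r.1 ((r.2 : ℝ) + θ)) x‖ := by
    intro r _
    rw [DD_eq b hb hj]
    refine (norm_sub_le _ _).trans ?_
    rw [norm_mul, Complex.norm_real, Real.norm_eq_abs, abs_of_nonneg hk]
  refine (Finset.sum_le_sum h5).trans ?_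
  rw [Finset.sum_add_distrib, ← Finset.mul_sum]
  have h6 := mul_le_mul_of_nonneg_left h4 hk
  have h7 : (1 : ℝ) ≤ x ^ 6 := one_le_pow₀ (by linarith)
  have h8 : kap b * C2 ≤ kap b * C2 * x ^ 6 := le_mul_of_one_le_right (by positivity) h7
  linarith

end Pool.Agent.LibHG31
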