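import Pool.Agent.LibHG31.CA11

/-! ROW CA12: the continuous `ℓ¹` bound.
PLAN: `T = ⌈x/δ⌉₊`. `∫_{-T}^{T+1} F = ∑_{m=-T}^{T} ∫_0^1 F(m+θ) dθ ≤ C x^6` with `F = ∑_χ ‖DD b χ x ·‖` (continuous, CA10)
and `exp ≤ 1`. On `|λ| ≥ T`: `exp(-δ²λ²/2) ≤ exp(-x²/4) exp(-δ²λ²/4)`, `F ≤ q C` (DD_triv, number of characters
`≤ q`), `∫ exp(-δ²λ²/4) = 2√π/δ`: `≤ C (q/δ) exp(-x²/4) ≤ C`. -/

namespace Pool.Agent.LibHG31

open Finset Complex MeasureTheory
open Pool.Agent.LibPL63 (GS)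

theorem ca12_sum_range (T : ℕ) (f : ℝ → ℝ) :
    ∑ m ∈ Icc (-(T : ℤ)) T, f m = ∑ k ∈ range (2 * T + 1), f (-(T : ℝ) + k) := by
  symm
  refine Finset.sum_nbij' (fun k : ℕ => (k : ℤ) - T) (fun m : ℤ => (m + T).toNat) ?_ ?_ ?_ ?_ ?_
  · intro k hk
    rw [Finset.mem_range] at hk
    rw [Finset.mem_Icc]
    omega
  · intro m hm
    rw [Finset.mem_Icc] at hm
    rw [Finset.mem_range]
    omega
  · intro k hk
    simp
  · intro m hm
    rw [Finset.mem_Icc] at hm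
    show (((m + T).toNat : ℕ) : ℤ) - T = m
    omega
  · intro k hk
    congr 1
    push_cast
    ring

theorem ca12_integral (T : ℕ) (F : ℝ → ℝ) (hF : Continuous F) (B : ℝ)
    (h : ∀ θ : ℝ, 0 ≤ θ → θ ≤ 1 → ∑ m ∈ Icc (-(T : ℤ)) T, F ((m : ℝ) + θ) ≤ B) :
    ∫ y in (-(T : ℝ))..((T : ℝ) + 1), F y ≤ B := by
  have h1 := intervalIntegral.sum_integral_adjacent_intervals (μ := volume) (f := F)
    (a := fun k : ℕ => -(T : ℝ) + k) (n := 2 * T + 1) (fun k _ => hF.intervalIntegrable _ _)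
  have h2 : (-(T : ℝ) + ((0 : ℕ) : ℝ)) = -(T : ℝ) := by simp
  have h3 : (-(T : ℝ) + ((2 * T + 1 : ℕ) : ℝ)) = (T : ℝ) + 1 := by
    push_cast
    ring
  simp only [h2, h3] at h1
  rw [← h1]
  have h4 : ∀ k ∈ range (2 * T + 1), ∫ y in (-(T : ℝ) + k)..(-(T : ℝ) + ((k + 1 : ℕ) : ℝ)), F y =
      ∫ θ in (0 : ℝ)..1, F (-(T : ℝ) + k + θ) := by
    intro k _
    rw [intervalIntegral.integral_comp_add_left (fun y => F y) (-(T : ℝ) + k)]
    congr 1
    · ring
    · push_cast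
      ring
  rw [Finset.sum_congr rfl h4, ← intervalIntegral.integral_finsetSum]
  · calc ∫ θ in (0 : ℝ)..1, ∑ k ∈ range (2 * T + 1), F (-(T : ℝ) + k + θ) ≤ ∫ θ in (0 : ℝ)..1, B := by
          apply intervalIntegral.integral_mono_on (by norm_num)
          · apply Continuous.intervalIntegrable
            fun_prop
          · exact intervalIntegrable_const
          · intro θ hθ
            rw [← ca12_sum_range T (fun y => F (y + θ))]
            exact h θ hθ.1 hθ.2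
      _ = B := by simp
  · intro k _
    apply Continuous.intervalIntegrable
    fun_prop

theorem ca12_gauss {δ : ℝ} (hδ : 0 < δ) :
    ∫ lam : ℝ, Real.exp (-(δ ^ 2 / 4) * lam ^ 2) ≤ 4 / δ := by
  rw [integral_gaussian]
  have h1 : Real.pi / (δ ^ 2 / 4) ≤ (4 / δ) ^ 2 := by
    have := Real.pi_le_four
    rw [div_pow, div_div_eq_mul_div, div_le_div_iff_of_pos_right (by positivity)]
    linarith
  calc √(Real.pi / (δ ^ 2 / 4)) ≤ √((4 / δ) ^ 2) := Real.sqrt_le_sqrt h1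
    _ = 4 / δ := Real.sqrt_sq (by positivity)

theorem l1_cont (b : ℕ) (hb : 2 ≤ b) : ∃ C : ℝ, 0 < C ∧ ∀ (j : ℕ) [NeZero (QQ b j)] (δ x : ℝ), 1 ≤ j →
    0 < δ → δ ≤ 1 → 60 ≤ x → (QQ b j : ℝ) * (x / δ + 2) ≤ Real.exp (x / 40) →
    Integrable (fun lam : ℝ => Real.exp (-(δ ^ 2 * lam ^ 2 / 2)) *
      ∑ χ : DirichletCharacter ℂ (QQ b j), ‖DD b χ x lam‖) ∧
    ∫ lam : ℝ, Real.exp (-(δ ^ 2 * lam ^ 2 / 2)) *
      ∑ χ : DirichletCharacter ℂ (QQ b j), ‖DD b χ x lam‖ ≤ C * x ^ 6 := by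
  obtain ⟨C1, hC1, h1⟩ := l1_disc_D b hb
  obtain ⟨C2, hC2, h2⟩ := DD_triv b hb
  refine ⟨C1 + 4 * C2, by positivity, fun j _ δ x hj hδ hδ1 hx hq => ?_⟩
  set q : ℝ := (QQ b j : ℝ) with hqdef
  have hq0 : 0 ≤ q := Nat.cast_nonneg _
  set F : ℝ → ℝ := fun lam => ∑ χ : DirichletCharacter ℂ (QQ b j), ‖DD b χ x lam‖ with hFdef
  have hFc : Continuous F := continuous_finsetSum _ fun χ _ => (continuous_DD b hb χ (by linarith)).norm
  have hF0 : ∀ lam, 0 ≤ F lam := fun lam => Finset.sum_nonneg fun χ _ => norm_nonneg _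
  have hFb : ∀ lam, F lam ≤ q * C2 := by
    intro lam
    calc F lam ≤ ∑ χ : DirichletCharacter ℂ (QQ b j), C2 :=
          Finset.sum_le_sum fun χ _ => h2 _ χ x lam (by linarith)
      _ = (((univ : Finset (DirichletCharacter ℂ (QQ b j))).card : ℕ) : ℝ) * C2 := by
          rw [Finset.sum_const, nsmul_eq_mul]
      _ ≤ q * C2 := by
          apply mul_le_mul_of_nonneg_right _ hC2.le
          have h3 : (((univ : Finset (DirichletCharacter ℂ (QQ b j))).card : ℕ) : ℝ) ≤ ((QQ b j : ℕ) : ℝ) := by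
            exact_mod_cast LibMaier.card_chars_le (QQ b j) _
          exact h3
  have hg1 : Integrable (fun lam : ℝ => Real.exp (-(δ ^ 2 / 2) * lam ^ 2)) :=
    integrable_exp_neg_mul_sq (by positivity)
  have hg2 : Integrable (fun lam : ℝ => Real.exp (-(δ ^ 2 / 4) * lam ^ 2)) :=
    integrable_exp_neg_mul_sq (by positivity)
  have hint : Integrable (fun lam : ℝ => Real.exp (-(δ ^ 2 * lam ^ 2 / 2)) * F lam) := by
    refine Integrable.mono' (hg1.mul_const (q * C2)) ?_ ?_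
    · apply Continuous.aestronglyMeasurable
      fun_prop
    · refine Filter.Eventually.of_forall fun lam => ?_
      rw [Real.norm_eq_abs, abs_of_nonneg (mul_nonneg (Real.exp_pos _).le (hF0 _))]
      have : -(δ ^ 2 * lam ^ 2 / 2) = -(δ ^ 2 / 2) * lam ^ 2 := by ring
      rw [this]
      exact mul_le_mul_of_nonneg_left (hFb lam) (Real.exp_pos _).le
  refine ⟨hint, ?_⟩
  set T : ℕ := ⌈x / δ⌉₊ with hT
  have hxδ : x ≤ x / δ := by
    rw [le_div_iff₀ hδ]
    exact mul_le_of_le_one_right (by linarith) hδ1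
  have hT1 : x / δ ≤ T := Nat.le_ceil _
  have hT2 : (T : ℝ) < x / δ + 1 := Nat.ceil_lt_add_one (by linarith)
  have hT3 : 1 ≤ T := by
    have : (1 : ℝ) ≤ T := by linarith
    exact_mod_cast this
  have hqT : q * T ≤ Real.exp (x / 40) :=
    (mul_le_mul_of_nonneg_left (by linarith) hq0).trans hq
  have hA : ∫ y in (-(T : ℝ))..((T : ℝ) + 1), F y ≤ C1 * x ^ 6 := by
    apply ca12_integral T F hFc
    intro θ hθ hθ1
    have h3 := h1 j T θ x hj hT3 hθ hθ1 hx hqT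
    unfold Fam at h3
    rw [Finset.sum_product_right] at h3
    exact h3
  set A : Set ℝ := Set.Ioc (-(T : ℝ)) ((T : ℝ) + 1) with hAdef
  have hAm : MeasurableSet A := measurableSet_Ioc
  have hFA : Integrable (A.indicator F) := by
    rw [integrable_indicator_iff hAm]
    exact (hFc.integrableOn_Icc (a := -(T : ℝ)) (b := (T : ℝ) + 1)).mono_set Set.Ioc_subset_Icc_self
  have hle : ∀ lam : ℝ, Real.exp (-(δ ^ 2 * lam ^ 2 / 2)) * F lam ≤
      A.indicator F lam + Real.exp (-(x ^ 2 / 4)) * (q * C2) * Real.exp (-(δ ^ 2 / 4) * lam ^ 2) := by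
    intro lam
    by_cases hm : lam ∈ A
    · rw [Set.indicator_of_mem hm]
      have h3 : Real.exp (-(δ ^ 2 * lam ^ 2 / 2)) ≤ 1 := Real.exp_le_one_iff.2 (by
        have : 0 ≤ δ ^ 2 * lam ^ 2 / 2 := by positivity
        linarith)
      have h4 : Real.exp (-(δ ^ 2 * lam ^ 2 / 2)) * F lam ≤ F lam :=
        mul_le_of_le_one_left (hF0 _) h3
      have h5 : 0 ≤ Real.exp (-(x ^ 2 / 4)) * (q * C2) * Real.exp (-(δ ^ 2 / 4) * lam ^ 2) := by positivity
      linarith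
    · rw [Set.indicator_of_notMem hm, zero_add]
      have h3 : (T : ℝ) ≤ |lam| := by
        by_contra hc
        push Not at hc
        obtain ⟨h4, h5⟩ := abs_lt.1 hc
        exact hm ⟨h4, by linarith⟩
      have h4 : x ≤ δ * |lam| := by
        have : x / δ ≤ |lam| := hT1.trans h3
        rw [div_le_iff₀ hδ] at this
        linarith
      have h5 : x ^ 2 ≤ δ ^ 2 * lam ^ 2 := by
        calc x ^ 2 ≤ (δ * |lam|) ^ 2 := pow_le_pow_left₀ (by linarith) h4 2
          _ = δ ^ 2 * lam ^ 2 := by rw [mul_pow, sq_abs]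
      have h6 : Real.exp (-(δ ^ 2 * lam ^ 2 / 2)) ≤
          Real.exp (-(x ^ 2 / 4)) * Real.exp (-(δ ^ 2 / 4) * lam ^ 2) := by
        rw [← Real.exp_add]
        apply Real.exp_le_exp.2
        linarith
      calc Real.exp (-(δ ^ 2 * lam ^ 2 / 2)) * F lam
          ≤ (Real.exp (-(x ^ 2 / 4)) * Real.exp (-(δ ^ 2 / 4) * lam ^ 2)) * (q * C2) :=
            mul_le_mul h6 (hFb lam) (hF0 lam) (by positivity)
        _ = _ := by ring
  have hint2 : Integrable (fun lam : ℝ => A.indicator F lam +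
      Real.exp (-(x ^ 2 / 4)) * (q * C2) * Real.exp (-(δ ^ 2 / 4) * lam ^ 2)) :=
    hFA.add (hg2.const_mul _)
  refine (integral_mono hint hint2 hle).trans ?_
  rw [integral_add hFA (hg2.const_mul _), integral_indicator hAm, integral_const_mul]
  have h7 : ∫ y in A, F y ≤ C1 * x ^ 6 := by
    rw [hAdef, ← intervalIntegral.integral_of_le (by linarith)]
    exact hA
  have h8 : Real.exp (-(x ^ 2 / 4)) * (q * C2) * ∫ lam : ℝ, Real.exp (-(δ ^ 2 / 4) * lam ^ 2) ≤ 4 * C2 := by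
    have h9 : Real.exp (-(x ^ 2 / 4)) * (q * C2) * ∫ lam : ℝ, Real.exp (-(δ ^ 2 / 4) * lam ^ 2) ≤
        Real.exp (-(x ^ 2 / 4)) * (q * C2) * (4 / δ) :=
      mul_le_mul_of_nonneg_left (ca12_gauss hδ) (by positivity)
    have h10 : Real.exp (-(x ^ 2 / 4)) * (q * C2) * (4 / δ) = 4 * C2 * ((q / δ) * Real.exp (-(x ^ 2 / 4))) := by
      ring
    have h11 : q / δ ≤ Real.exp (x / 40) := by
      refine le_trans ?_ hq
      have h12 : 1 / δ ≤ x / δ + 2 := by
        have : 1 / δ ≤ x / δ := by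
          apply div_le_div_of_nonneg_right _ hδ.le
          linarith
        linarith
      calc q / δ = q * (1 / δ) := by ring
        _ ≤ q * (x / δ + 2) := mul_le_mul_of_nonneg_left h12 hq0
    have h12 : (q / δ) * Real.exp (-(x ^ 2 / 4)) ≤ 1 := by
      calc (q / δ) * Real.exp (-(x ^ 2 / 4)) ≤ Real.exp (x / 40) * Real.exp (-(x ^ 2 / 4)) :=
            mul_le_mul_of_nonneg_right h11 (Real.exp_pos _).le
        _ = Real.exp (x / 40 + -(x ^ 2 / 4)) := by rw [← Real.exp_add]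
        _ ≤ 1 := Real.exp_le_one_iff.2 (by nlinarith)
    rw [h10] at h9
    have h13 := mul_le_mul_of_nonneg_left h12 (show 0 ≤ 4 * C2 by positivity)
    linarith
  have h14 : (1 : ℝ) ≤ x ^ 6 := one_le_pow₀ (by linarith)
  have h15 : 4 * C2 ≤ 4 * C2 * x ^ 6 := le_mul_of_one_le_right (by positivity) h14
  linarith

end Pool.Agent.LibHG31
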