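import Pool.Agent.LibHG31.CA1

/-! ROW CA2: the same on the line `Re = 1 + σ`.
PLAN: copy `LibPL63.dyadic_large_sieve` and `LibPL63.large_sieve_line` (file LibPL63/B0d.lean, 120 lines), with `cf r n`
replaced by `tw r.1 (r.2+θ) n` (norm `≤ 1`), `ls_one` instead of `large_sieve_primitive` (block `N = 2^i`,
`2 * 2^i = 2^(i+1)`), factor `200 * 2^i` instead of `2 * 2^i`: `√(200 2^i (i+2)^4 2^(-i) 2^(-2σi)) ≤ 15 (i+2)² 2^(-σi)`,
`LibPL63.sum_sq_geom_le` gives `5000/σ³`. -/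

namespace Pool.Agent.LibHG31

open Finset Complex
open Pool.Agent.LibPL63 (N2)

private theorem ca2_norm_tw {q : ℕ} (χ : DirichletCharacter ℂ q) (lam : ℝ) (n : ℕ) :
    ‖tw χ lam n‖ ≤ 1 := by
  unfold tw cp
  rw [norm_mul, Complex.norm_exp_ofReal_mul_I, mul_one]
  exact χ.norm_le_one _

open Filter Topology in
private theorem ca2_dyadic (q : ℕ) [NeZero q] (T : ℕ) (θ : ℝ) (hT : 1 ≤ T) (i0 : ℕ)
    (hi0 : q * T ≤ 2 ^ i0) (c : ℕ → ℂ) (hc0 : ∀ n < 2 ^ i0, c n = 0)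
    (hcs : Summable fun n => ‖c n‖) (Θ : ℝ)
    (hΘ : ∀ N, i0 ≤ N → ∑ i ∈ Ico i0 N,
      Real.sqrt (200 * 2 ^ i * ∑ n ∈ Ico (2 ^ i) (2 ^ (i + 1)), ‖c n‖ ^ 2) ≤ Θ) :
    N2 (Fam q T) (fun r => ∑' n, c n * tw r.1 ((r.2 : ℝ) + θ) n) ≤ Θ := by
  classical
  have hblock : ∀ i, i0 ≤ i →
      N2 (Fam q T) (fun r => ∑ n ∈ Ico (2 ^ i) (2 ^ (i + 1)), c n * tw r.1 ((r.2 : ℝ) + θ) n) ≤
      Real.sqrt (200 * 2 ^ i * ∑ n ∈ Ico (2 ^ i) (2 ^ (i + 1)), ‖c n‖ ^ 2) := by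
    intro i hi
    unfold N2
    apply Real.sqrt_le_sqrt
    have h1 := ls_one q T (2 ^ i) θ hT
      (hi0.trans (Nat.pow_le_pow_right (by norm_num) hi)) c
    have h2 : 2 * 2 ^ i = 2 ^ (i + 1) := by rw [pow_succ]; ring
    rw [h2] at h1
    push_cast at h1
    exact h1
  have hpart : ∀ N, i0 ≤ N →
      N2 (Fam q T) (fun r => ∑ n ∈ range (2 ^ N), c n * tw r.1 ((r.2 : ℝ) + θ) n) ≤ Θ := by
    intro N hN
    have h1 : ∀ r : DirichletCharacter ℂ q × ℤ,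
        ∑ n ∈ range (2 ^ N), c n * tw r.1 ((r.2 : ℝ) + θ) n =
        ∑ i ∈ Ico i0 N, ∑ n ∈ Ico (2 ^ i) (2 ^ (i + 1)), c n * tw r.1 ((r.2 : ℝ) + θ) n := by
      intro r
      rw [← Pool.Agent.LibPL63.sum_Ico_dyadic _ i0 N hN, Finset.range_eq_Ico,
        ← Finset.sum_Ico_consecutive (fun n => c n * tw r.1 ((r.2 : ℝ) + θ) n)
          (Nat.zero_le (2 ^ i0)) (Nat.pow_le_pow_right (by norm_num) hN)]
      have h2 : ∑ n ∈ Ico 0 (2 ^ i0), c n * tw r.1 ((r.2 : ℝ) + θ) n = 0 := by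
        refine Finset.sum_eq_zero fun n hn => ?_
        rw [hc0 n (Finset.mem_Ico.1 hn).2, zero_mul]
      rw [h2, zero_add]
    simp_rw [h1]
    refine (Pool.Agent.LibPL63.N2_sum_le (Fam q T) (Ico i0 N)
      fun i r => ∑ n ∈ Ico (2 ^ i) (2 ^ (i + 1)), c n * tw r.1 ((r.2 : ℝ) + θ) n).trans ?_
    refine le_trans (Finset.sum_le_sum fun i hi => hblock i (Finset.mem_Ico.1 hi).1) (hΘ N hN)
  have hlim : Tendsto
      (fun N : ℕ => N2 (Fam q T) (fun r => ∑ n ∈ range (2 ^ N), c n * tw r.1 ((r.2 : ℝ) + θ) n))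
      atTop (𝓝 (N2 (Fam q T) (fun r => ∑' n, c n * tw r.1 ((r.2 : ℝ) + θ) n))) := by
    unfold N2
    apply (Real.continuous_sqrt.tendsto _).comp
    apply tendsto_finsetSum
    intro r _
    have hs : Summable fun n => c n * tw r.1 ((r.2 : ℝ) + θ) n := by
      refine Summable.of_norm_bounded hcs fun n => ?_
      rw [norm_mul]
      exact mul_le_of_le_one_right (norm_nonneg _) (ca2_norm_tw r.1 _ n)
    have h1 : Tendsto (fun N : ℕ => ∑ n ∈ range (2 ^ N), c n * tw r.1 ((r.2 : ℝ) + θ) n) atTop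
        (𝓝 (∑' n, c n * tw r.1 ((r.2 : ℝ) + θ) n)) :=
      hs.hasSum.tendsto_sum_nat.comp (tendsto_pow_atTop_atTop_of_one_lt (by norm_num))
    exact (h1.norm).pow 2
  exact le_of_tendsto hlim ((eventually_ge_atTop i0).mono hpart)

theorem line_one (q : ℕ) [NeZero q] (T : ℕ) (θ : ℝ) (hT : 1 ≤ T) (i0 : ℕ) (hi0 : q * T ≤ 2 ^ i0)
    (a : ℕ → ℂ) (ha0 : ∀ n < 2 ^ i0, a n = 0)
    (ha : ∀ i : ℕ, ∑ n ∈ Ico (2 ^ i) (2 ^ (i + 1)), ‖a n‖ ^ 2 / (n : ℝ) ≤ ((i : ℝ) + 2) ^ 4)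
    {w : ℂ} (hσ : 0 < w.re) (hσ1 : w.re ≤ 1)
    (has : Summable fun n : ℕ => ‖a n * (n : ℂ) ^ (-(1 + w))‖) :
    N2 (Fam q T) (fun r => ∑' n : ℕ, a n * (n : ℂ) ^ (-(1 + w)) * tw r.1 ((r.2 : ℝ) + θ) n) ≤
      5000 / w.re ^ 3 := by
  refine ca2_dyadic q T θ hT i0 hi0 _ (fun n hn => by rw [ha0 n hn, zero_mul]) has _ ?_
  intro N _
  have h1 : ∀ i ∈ Ico i0 N, Real.sqrt (200 * 2 ^ i * ∑ n ∈ Ico (2 ^ i) (2 ^ (i + 1)),
      ‖a n * (n : ℂ) ^ (-(1 + w))‖ ^ 2) ≤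
      15 * (((i : ℝ) + 2) ^ 2 * (2 : ℝ) ^ (-(w.re * i))) := by
    intro i _
    apply Real.sqrt_le_iff.2
    constructor
    · positivity
    have h2 : ∀ n ∈ Ico (2 ^ i) (2 ^ (i + 1)), ‖a n * (n : ℂ) ^ (-(1 + w))‖ ^ 2 ≤
        ‖a n‖ ^ 2 / (n : ℝ) * (((2 : ℝ) ^ i)⁻¹ * ((2 : ℝ) ^ (-(w.re * i))) ^ 2) := by
      intro n hn
      have hn1 : 2 ^ i ≤ n := (Finset.mem_Ico.1 hn).1
      have hn0 : 0 < n := lt_of_lt_of_le (Nat.pow_pos (by norm_num)) hn1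
      have hnR : (0 : ℝ) < n := by exact_mod_cast hn0
      have hnR1 : (2 : ℝ) ^ i ≤ n := by exact_mod_cast hn1
      rw [norm_mul, mul_pow, Complex.norm_natCast_cpow_of_pos hn0]
      have h3 : (-(1 + w)).re = -(1 + w.re) := by simp
      rw [h3, div_mul_eq_mul_div, mul_div_assoc]
      apply mul_le_mul_of_nonneg_left _ (by positivity)
      have h4 : ((n : ℝ) ^ (-(1 + w.re))) ^ 2 = (n : ℝ)⁻¹ * ((n : ℝ)⁻¹ * ((n : ℝ) ^ (-w.re)) ^ 2) := by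
        rw [show -(1 + w.re) = -1 + -w.re by ring, Real.rpow_add hnR, Real.rpow_neg_one]
        ring
      rw [h4, div_eq_mul_inv, mul_comm]
      apply mul_le_mul_of_nonneg_right _ (by positivity)
      apply mul_le_mul
      · exact inv_anti₀ (by positivity) hnR1
      · apply pow_le_pow_left₀ (Real.rpow_nonneg hnR.le _)
        have h5 : (2 : ℝ) ^ (-(w.re * i)) = ((2 : ℝ) ^ i) ^ (-w.re) := by
          rw [← Real.rpow_natCast (2 : ℝ) i, ← Real.rpow_mul (by norm_num)]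
          congr 1
          ring
        rw [h5]
        exact Real.rpow_le_rpow_of_nonpos (by positivity) hnR1 (by linarith)
      · positivity
      · positivity
    have h5 : ∑ n ∈ Ico (2 ^ i) (2 ^ (i + 1)), ‖a n * (n : ℂ) ^ (-(1 + w))‖ ^ 2 ≤
        ((i : ℝ) + 2) ^ 4 * (((2 : ℝ) ^ i)⁻¹ * ((2 : ℝ) ^ (-(w.re * i))) ^ 2) := by
      refine (Finset.sum_le_sum h2).trans ?_
      rw [← Finset.sum_mul]
      exact mul_le_mul_of_nonneg_right (ha i) (by positivity)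
    calc 200 * 2 ^ i * ∑ n ∈ Ico (2 ^ i) (2 ^ (i + 1)), ‖a n * (n : ℂ) ^ (-(1 + w))‖ ^ 2
        ≤ 200 * 2 ^ i * (((i : ℝ) + 2) ^ 4 * (((2 : ℝ) ^ i)⁻¹ * ((2 : ℝ) ^ (-(w.re * i))) ^ 2)) :=
          mul_le_mul_of_nonneg_left h5 (by positivity)
      _ = 200 * (((i : ℝ) + 2) ^ 2 * (2 : ℝ) ^ (-(w.re * i))) ^ 2 := by
          have : (2 : ℝ) ^ i ≠ 0 := by positivity
          field_simp
      _ ≤ (15 * (((i : ℝ) + 2) ^ 2 * (2 : ℝ) ^ (-(w.re * i)))) ^ 2 := by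
          have := sq_nonneg (((i : ℝ) + 2) ^ 2 * (2 : ℝ) ^ (-(w.re * i)))
          nlinarith
  refine (Finset.sum_le_sum h1).trans ?_
  rw [← Finset.mul_sum]
  calc 15 * ∑ i ∈ Ico i0 N, ((i : ℝ) + 2) ^ 2 * (2 : ℝ) ^ (-(w.re * i))
      ≤ 15 * (300 / w.re ^ 3) :=
        mul_le_mul_of_nonneg_left (Pool.Agent.LibPL63.sum_sq_geom_le hσ hσ1 _) (by norm_num)
    _ = 4500 / w.re ^ 3 := by ring
    _ ≤ 5000 / w.re ^ 3 := div_le_div_of_nonneg_right (by norm_num) (by positivity)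

end Pool.Agent.LibHG31
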