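import Pool.Agent.LibHG31.C0

/-! ROW CA3: Vaughan's identity with the twist `tw χ lam`. -/

namespace Pool.Agent.LibHG31

open Finset Complex MeasureTheory
open scoped ArithmeticFunction.vonMangoldt ArithmeticFunction.Moebius
open Pool.Agent.LibPL63 (GS low high beta)

section

variable {q : ℕ} (χ : DirichletCharacter ℂ q) (lam : ℝ)

theorem cp_mul {m n : ℕ} (hm : m ≠ 0) (hn : n ≠ 0) : cp lam (m * n) = cp lam m * cp lam n := by
  unfold cp
  rw [← Complex.exp_add]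
  congr 1
  rw [Nat.cast_mul, Real.log_mul (by exact_mod_cast hm) (by exact_mod_cast hn)]
  push_cast
  ring

theorem norm_cp (n : ℕ) : ‖cp lam n‖ = 1 := by
  unfold cp
  rw [Complex.norm_exp_ofReal_mul_I]

theorem norm_tw_le (n : ℕ) : ‖tw χ lam n‖ ≤ 1 := by
  unfold tw
  rw [norm_mul, norm_cp, mul_one]
  exact χ.norm_le_one _

theorem tw_mul {m n : ℕ} (hm : m ≠ 0) (hn : n ≠ 0) : tw χ lam (m * n) = tw χ lam m * tw χ lam n := by
  unfold tw
  rw [cp_mul lam hm hn, Nat.cast_mul, map_mul]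
  ring

theorem tw_conv (a b : ℕ → ℂ) :
    tw χ lam * LSeries.convolution a b = LSeries.convolution (tw χ lam * a) (tw χ lam * b) := by
  funext n
  rw [Pi.mul_apply, LSeries.convolution_def, LSeries.convolution_def]
  simp only
  rw [Finset.mul_sum]
  refine Finset.sum_congr rfl fun p hp => ?_
  obtain ⟨h1, h2⟩ := Nat.mem_divisorsAntidiagonal.1 hp
  have hp1 : p.1 ≠ 0 := by
    intro h
    rw [h, zero_mul] at h1
    exact h2 h1.symm
  have hp2 : p.2 ≠ 0 := by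
    intro h
    rw [h, mul_zero] at h1
    exact h2 h1.symm
  rw [Pi.mul_apply, Pi.mul_apply, ← h1, tw_mul χ lam hp1 hp2]
  ring

theorem ca3_summable_tw_mul {a : ℕ → ℂ} {σ : ℝ} (ha : LSeriesSummable a ((1 : ℂ) + σ)) :
    LSeriesSummable (tw χ lam * a) ((1 : ℂ) + σ) := by
  refine LibPL63.summable_of_norm_le (fun n => ?_) ha
  rw [Pi.mul_apply, norm_mul]
  exact mul_le_of_le_one_left (norm_nonneg _) (norm_tw_le χ lam n)

theorem ca3_summable_one {σ : ℝ} (hσ : 0 < σ) : LSeriesSummable (1 : ℕ → ℂ) ((1 : ℂ) + σ) :=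
  LSeriesSummable_one_iff.2 (by simp; exact hσ)

theorem summable_tw {σ : ℝ} (hσ : 0 < σ) : LSeriesSummable (tw χ lam) ((1 : ℂ) + σ) := by
  refine LibPL63.summable_of_norm_le (g := (1 : ℕ → ℂ)) (fun n => ?_) (ca3_summable_one hσ)
  rw [Pi.one_apply, norm_one]
  exact norm_tw_le χ lam n

theorem ca3_summable_L {σ : ℝ} (hσ : 0 < σ) : LSeriesSummable (fun n : ℕ ↦ (Λ n : ℂ)) ((1 : ℂ) + σ) :=
  ArithmeticFunction.LSeriesSummable_vonMangoldt (by simp; exact hσ)

theorem summable_twL {σ : ℝ} (hσ : 0 < σ) :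
    LSeriesSummable (tw χ lam * (fun n : ℕ ↦ (Λ n : ℂ))) ((1 : ℂ) + σ) :=
  ca3_summable_tw_mul χ lam (ca3_summable_L hσ)

theorem ca3_conv_one : LSeries.convolution (fun n : ℕ ↦ (Λ n : ℂ)) (1 : ℕ → ℂ) = fun n : ℕ ↦ (Complex.log n : ℂ) := by
  have h := DirichletCharacter.convolution_twist_vonMangoldt (1 : DirichletCharacter ℂ 1)
  have h3 : (fun n : ℕ => (1 : DirichletCharacter ℂ 1) (n : ZMod 1)) = (1 : ℕ → ℂ) := by
    funext n
    exact MulChar.one_apply (by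
      rw [Subsingleton.elim (n : ZMod 1) 1]
      exact isUnit_one)
  rw [h3, one_mul, one_mul] at h
  exact h

theorem ca3_summable_log {σ : ℝ} (hσ : 0 < σ) : LSeriesSummable (fun n : ℕ ↦ (Complex.log n : ℂ)) ((1 : ℂ) + σ) := by
  rw [← ca3_conv_one]
  exact (ca3_summable_L hσ).convolution (ca3_summable_one hσ)

theorem summable_twLog {σ : ℝ} (hσ : 0 < σ) :
    LSeriesSummable (tw χ lam * (fun n : ℕ ↦ (Complex.log n : ℂ))) ((1 : ℂ) + σ) :=
  ca3_summable_tw_mul χ lam (ca3_summable_log hσ)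

theorem ca3_summable_mu {σ : ℝ} (hσ : 0 < σ) : LSeriesSummable (fun n : ℕ ↦ (μ n : ℂ)) ((1 : ℂ) + σ) := by
  refine LibPL63.summable_of_norm_le (g := (1 : ℕ → ℂ)) (fun n => ?_) (ca3_summable_one hσ)
  rw [Pi.one_apply, norm_one, Complex.norm_intCast]
  exact_mod_cast ArithmeticFunction.abs_moebius_le_one

theorem summable_twMu {σ : ℝ} (hσ : 0 < σ) :
    LSeriesSummable (tw χ lam * (fun n : ℕ ↦ (μ n : ℂ))) ((1 : ℂ) + σ) :=
  ca3_summable_tw_mul χ lam (ca3_summable_mu hσ)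

theorem ca3_low_tw (U : ℕ) (f : ℕ → ℂ) : low U (tw χ lam * f) = tw χ lam * low U f := by
  funext n
  simp only [low, Pi.mul_apply]
  split_ifs <;> simp

theorem ca3_high_tw (U : ℕ) (f : ℕ → ℂ) : high U (tw χ lam * f) = tw χ lam * high U f := by
  funext n
  simp only [high, Pi.mul_apply]
  split_ifs <;> simp

theorem ca3_tw_one : tw χ lam = tw χ lam * (1 : ℕ → ℂ) := by
  funext n
  simp

theorem ca3_tw_delta : tw χ lam * LSeries.delta = LSeries.delta := by
  funext n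
  rw [Pi.mul_apply]
  rcases eq_or_ne n 1 with rfl | hn
  · unfold tw cp
    simp [LSeries.delta]
  · simp [LSeries.delta, hn]

theorem ca3_twist_beta (V : ℕ) : tw χ lam * beta V = LSeries.delta -
    LSeries.convolution (low V (tw χ lam * (fun n : ℕ ↦ (μ n : ℂ)))) (tw χ lam) := by
  rw [beta, mul_sub, ca3_tw_delta, ca3_low_tw, tw_conv, ← ca3_tw_one]

theorem ca3_LlogEq {σ : ℝ} (hσ : 0 < σ) (t : ℝ) :
    LSeries (tw χ lam * (fun n : ℕ ↦ (Complex.log n : ℂ))) (1 + ((σ : ℂ) + t * I)) =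
      LSeries (tw χ lam * (fun n : ℕ ↦ (Λ n : ℂ))) (1 + ((σ : ℂ) + t * I)) *
        LSeries (tw χ lam) (1 + ((σ : ℂ) + t * I)) := by
  rw [← LSeries_convolution' (LibPL63.summable_line _ (summable_twL χ lam hσ) t)
    (LibPL63.summable_line _ (summable_tw χ lam hσ) t)]
  congr 1
  rw [← ca3_conv_one, tw_conv, ← ca3_tw_one]

/-- **Vaughan's identity** -/
theorem vaughan_tw (U : ℕ) (x : ℝ) :
    GS (tw χ lam * (fun n : ℕ ↦ (Λ n : ℂ))) x =
      GS (low U (tw χ lam * (fun n : ℕ ↦ (Λ n : ℂ)))) x +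
      GS (LSeries.convolution (low U (tw χ lam * (fun n : ℕ ↦ (μ n : ℂ))))
        (tw χ lam * (fun n : ℕ ↦ (Complex.log n : ℂ)))) x -
      GS (LSeries.convolution (low U (tw χ lam * (fun n : ℕ ↦ (Λ n : ℂ))))
        (LSeries.convolution (low U (tw χ lam * (fun n : ℕ ↦ (μ n : ℂ)))) (tw χ lam))) x +
      GS (LSeries.convolution (high U (tw χ lam * (fun n : ℕ ↦ (Λ n : ℂ)))) (tw χ lam * beta U)) x := by
  have hσ : (0 : ℝ) < 1 := one_pos
  set σ : ℝ := 1 with hσdef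
  have hΛ := summable_twL χ lam hσ
  have hχ := summable_tw χ lam hσ
  have hlog := summable_twLog χ lam hσ
  have hA : LSeriesSummable (low U (tw χ lam * (fun n : ℕ ↦ (Λ n : ℂ)))) ((1 : ℂ) + σ) :=
    LibPL63.summable_of_norm_le (LibPL63.norm_low_le U _) hΛ
  have hA' : LSeriesSummable (high U (tw χ lam * (fun n : ℕ ↦ (Λ n : ℂ)))) ((1 : ℂ) + σ) :=
    LibPL63.summable_of_norm_le (LibPL63.norm_high_le U _) hΛ
  have hG : LSeriesSummable (low U (tw χ lam * (fun n : ℕ ↦ (μ n : ℂ)))) ((1 : ℂ) + σ) :=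
    LibPL63.summable_of_norm_le (LibPL63.norm_low_le U _) (summable_twMu χ lam hσ)
  have hGχ : LSeriesSummable (LSeries.convolution (low U (tw χ lam * (fun n : ℕ ↦ (μ n : ℂ)))) (tw χ lam))
    ((1 : ℂ) + σ) := hG.convolution hχ
  have hδ : LSeriesSummable LSeries.delta ((1 : ℂ) + σ) := by
    refine LibPL63.summable_of_norm_le (g := (1 : ℕ → ℂ)) (fun n => ?_) (ca3_summable_one hσ)
    rw [LSeries.delta, Pi.one_apply]
    split_ifs <;> simp
  have hB : LSeriesSummable (tw χ lam * beta U) ((1 : ℂ) + σ) := by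
    rw [ca3_twist_beta]
    exact hδ.sub hGχ
  have h2 := hG.convolution hlog
  have h3 := hA.convolution hGχ
  have h4 := hA'.convolution hB
  have hpi : ((2 * Real.pi : ℝ) : ℂ) ≠ 0 := by
    rw [Complex.ofReal_ne_zero]
    have := Real.pi_pos
    positivity
  have i1 := LibPL63.integrable_ker_LSeries _ hA x
  have i2 := LibPL63.integrable_ker_LSeries _ h2 x
  have i3 := LibPL63.integrable_ker_LSeries _ h3 x
  have i4 := LibPL63.integrable_ker_LSeries _ h4 x
  have key : ∀ f1 f2 f3 f4 : ℝ → ℂ, Integrable f1 → Integrable f2 → Integrable f3 → Integrable f4 →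
      ∫ t, (f1 t + f2 t - f3 t + f4 t) = (∫ t, f1 t) + (∫ t, f2 t) - (∫ t, f3 t) + ∫ t, f4 t := by
    intro f1 f2 f3 f4 j1 j2 j3 j4
    have k1 : ∫ t, (f1 t + f2 t - f3 t + f4 t) = (∫ t, (f1 t + f2 t - f3 t)) + ∫ t, f4 t :=
      integral_add ((j1.add j2).sub j3) j4
    have k2 : ∫ t, (f1 t + f2 t - f3 t) = (∫ t, (f1 t + f2 t)) - ∫ t, f3 t :=
      integral_sub (j1.add j2) j3
    rw [k1, k2, integral_add j1 j2]
  apply mul_left_cancel₀ hpi
  rw [mul_add, mul_sub, mul_add, ← LibPL63.mellin _ hΛ, ← LibPL63.mellin _ hA, ← LibPL63.mellin _ h2,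
    ← LibPL63.mellin _ h3, ← LibPL63.mellin _ h4, ← key _ _ _ _ i1 i2 i3 i4]
  congr 1
  funext t
  have e1 := ca3_LlogEq χ lam hσ t
  set s : ℂ := 1 + ((σ : ℂ) + t * I) with hs
  have sΛ := LibPL63.summable_line _ hΛ t
  have sχ := LibPL63.summable_line _ hχ t
  have slog := LibPL63.summable_line _ hlog t
  have sA := LibPL63.summable_line _ hA t
  have sA' := LibPL63.summable_line _ hA' t
  have sG := LibPL63.summable_line _ hG t
  have sGχ := LibPL63.summable_line _ hGχ t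
  have sδ := LibPL63.summable_line _ hδ t
  have sB := LibPL63.summable_line _ hB t
  rw [← hs] at sΛ sχ slog sA sA' sG sGχ sδ sB
  have e2 : LSeries (high U (tw χ lam * (fun n : ℕ ↦ (Λ n : ℂ)))) s =
      LSeries (tw χ lam * (fun n : ℕ ↦ (Λ n : ℂ))) s - LSeries (low U (tw χ lam * (fun n : ℕ ↦ (Λ n : ℂ)))) s := by
    have h : LSeries (tw χ lam * (fun n : ℕ ↦ (Λ n : ℂ))) s =
        LSeries (low U (tw χ lam * (fun n : ℕ ↦ (Λ n : ℂ))) + high U (tw χ lam * (fun n : ℕ ↦ (Λ n : ℂ)))) s := by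
      rw [LibPL63.low_add_high]
    rw [h, LSeries_add sA sA']
    ring
  have e3 : LSeries (tw χ lam * beta U) s =
      1 - LSeries (low U (tw χ lam * (fun n : ℕ ↦ (μ n : ℂ)))) s * LSeries (tw χ lam) s := by
    rw [ca3_twist_beta, LSeries_sub sδ sGχ, LSeries_delta, LSeries_convolution' sG sχ]
    rfl
  rw [LSeries_convolution' sG slog, LSeries_convolution' sA sGχ, LSeries_convolution' sG sχ,
    LSeries_convolution' sA' sB, e1, e2, e3]
  ring

end

end Pool.Agent.LibHG31
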