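import Pool.Agent.LibHG31.CA5

/-! ROW CA6: type I sums with logarithm, twisted.
PLAN: as CA5 with `f(v) = log v · v^(iλ) gw(log v - y)/v`; `∫_0^∞ (1 + u(1+|λ|+|u-y|)) gw(u-y) e^{-u} du ≤ C (1+|λ|)(1+y) e^{-y}`;
main term `∫_{-∞}^{∞} u e^{iλu} gw(u-y) du = (y + iλ) e^{iλy-λ²/2}`; the part `u < 0` is `≤ e^{-y²/2} ≤ 2e^{-y}`. -/

namespace Pool.Agent.LibHG31

open Finset Complex
open Pool.Agent.LibPL63 (GS)
open MeasureTheory Filter Topology
open Pool.Agent.LibMaier (gw gw_nonneg gauss_int integrable_gaussian_quarter integral_gaussian_quarter)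

private theorem ca6_abel (c g : ℕ → ℂ) (n : ℕ) :
    ∑ m ∈ range n, c m * g m = g n * ∑ m ∈ range n, c m +
      ∑ m ∈ range n, (g m - g (m + 1)) * ∑ k ∈ range (m + 1), c k := by
  induction n with
  | zero => simp
  | succ n ih =>
    rw [Finset.sum_range_succ, ih, Finset.sum_range_succ (fun m => (g m - g (m + 1)) *
      ∑ k ∈ range (m + 1), c k), Finset.sum_range_succ c n]
    ring

private theorem ca6_per (q : ℕ) (hq : 0 < q) (c : ℕ → ℂ) (hper : ∀ n, c (n + q) = c n)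
    (h1 : ∀ n, ‖c n‖ ≤ 1) (h0 : ∑ k ∈ range q, c k = 0) (N : ℕ) : ‖∑ k ∈ range N, c k‖ ≤ q := by
  induction N using Nat.strong_induction_on with
  | _ N ih =>
    rcases lt_or_ge N q with h | h
    · calc ‖∑ k ∈ range N, c k‖ ≤ ∑ k ∈ range N, ‖c k‖ := norm_sum_le _ _
        _ ≤ ∑ k ∈ range N, 1 := Finset.sum_le_sum fun k _ => h1 k
        _ ≤ q := by simp; exact_mod_cast h.le
    · obtain ⟨M, rfl⟩ := Nat.exists_eq_add_of_le h
      have : ∑ k ∈ range (q + M), c k = ∑ k ∈ range M, c k := by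
        rw [Finset.sum_range_add, h0, zero_add]
        exact Finset.sum_congr rfl fun k _ => by rw [add_comm, hper]
      rw [this]; exact ih M (by omega)

open scoped Classical in
private noncomputable def ca6_rho {q : ℕ} (χ : DirichletCharacter ℂ q) : ℝ :=
  if χ = 1 then (q.totient : ℝ) / q else 0

private theorem ca6_rho_nonneg {q : ℕ} (χ : DirichletCharacter ℂ q) : 0 ≤ ca6_rho χ := by
  unfold ca6_rho
  split_ifs
  · positivity
  · exact le_rfl

private theorem ca6_rho_le {q : ℕ} [NeZero q] (χ : DirichletCharacter ℂ q) : ca6_rho χ ≤ 1 := by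
  unfold ca6_rho
  split_ifs
  · apply div_le_one_of_le₀ _ (Nat.cast_nonneg _)
    exact_mod_cast Nat.totient_le q
  · exact zero_le_one

private theorem ca6_sum_one {q : ℕ} [NeZero q] :
    ∑ k ∈ range q, (1 : DirichletCharacter ℂ q) (k : ZMod q) = (q.totient : ℂ) := by
  rw [Nat.totient_eq_card_coprime, Finset.card_filter]
  push_cast
  refine Finset.sum_congr rfl fun k _ => ?_
  by_cases h : q.Coprime k
  · rw [if_pos h]
    exact MulChar.one_apply ((ZMod.isUnit_iff_coprime k q).2 h.symm)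
  · rw [if_neg h]
    apply MulChar.map_nonunit
    intro h'
    exact h ((ZMod.isUnit_iff_coprime k q).1 h').symm

private theorem ca6_partial {q : ℕ} [NeZero q] (χ : DirichletCharacter ℂ q) (N : ℕ) :
    ‖∑ k ∈ range N, (χ ((k : ℕ) : ZMod q) - (ca6_rho χ : ℂ))‖ ≤ q := by
  have hq : 0 < q := Nat.pos_of_ne_zero (NeZero.ne q)
  apply ca6_per q hq
  · intro n
    simp
  · intro n
    by_cases hχ : χ = 1
    · have h0 := ca6_rho_nonneg χ
      have h1 := ca6_rho_le χ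
      have h2 : χ ((n : ℕ) : ZMod q) = 1 ∨ χ ((n : ℕ) : ZMod q) = 0 := by
        rw [hχ]
        by_cases h : IsUnit ((n : ℕ) : ZMod q)
        · left; exact MulChar.one_apply h
        · right; exact MulChar.map_nonunit _ h
      rcases h2 with h2 | h2
      · rw [h2, ← Complex.ofReal_one, ← Complex.ofReal_sub, Complex.norm_real, Real.norm_eq_abs,
          abs_le]
        constructor <;> linarith
      · rw [h2, zero_sub, norm_neg, Complex.norm_real, Real.norm_eq_abs, abs_le]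
        constructor <;> linarith
    · have : ca6_rho χ = 0 := by unfold ca6_rho; rw [if_neg hχ]
      rw [this, Complex.ofReal_zero, sub_zero]
      exact DirichletCharacter.norm_le_one χ _
  · rw [Finset.sum_sub_distrib, Finset.sum_const, card_range, nsmul_eq_mul]
    by_cases hχ : χ = 1
    · rw [hχ, ca6_sum_one]
      unfold ca6_rho
      rw [if_pos rfl]
      have : (q : ℂ) ≠ 0 := by exact_mod_cast hq.ne'
      push_cast
      field_simp
      ring
    · have : ca6_rho χ = 0 := by unfold ca6_rho; rw [if_neg hχ]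
      rw [this, Complex.ofReal_zero, mul_zero, sub_zero]
      exact Pool.Agent.LibMaier.sum_range_char hχ

private theorem ca6_partial' {q : ℕ} [NeZero q] (χ : DirichletCharacter ℂ q) (N : ℕ) :
    ‖∑ k ∈ range N, (χ (((k + 1 : ℕ) : ℕ) : ZMod q) - (ca6_rho χ : ℂ))‖ ≤ 2 * q := by
  have h1 := ca6_partial χ (N + 1)
  have h2 := ca6_partial χ 1
  rw [Finset.sum_range_succ'] at h1
  rw [Finset.sum_range_one] at h2
  have h3 : ∑ k ∈ range N, (χ (((k + 1 : ℕ) : ℕ) : ZMod q) - (ca6_rho χ : ℂ)) =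
      (∑ k ∈ range N, (χ (((k + 1 : ℕ) : ℕ) : ZMod q) - (ca6_rho χ : ℂ)) +
        (χ (((0 : ℕ) : ℕ) : ZMod q) - (ca6_rho χ : ℂ))) - (χ (((0 : ℕ) : ℕ) : ZMod q) - (ca6_rho χ : ℂ)) := by
    ring
  rw [h3]
  refine (norm_sub_le _ _).trans ?_
  linarith

private theorem ca6_diff (Φ Φ' : ℝ → ℂ) (hd : ∀ u, HasDerivAt Φ (Φ' u) u) (hc : Continuous Φ')
    {a b : ℝ} (hab : a ≤ b) : ‖Φ a - Φ b‖ ≤ ∫ u in a..b, ‖Φ' u‖ := by
  have h := intervalIntegral.integral_eq_sub_of_hasDerivAt (fun u _ => hd u)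
    (hc.intervalIntegrable a b)
  rw [norm_sub_rev, ← h]
  exact intervalIntegral.norm_integral_le_integral_norm hab

private theorem ca6_block (Φ Φ' : ℝ → ℂ) (hd : ∀ u, HasDerivAt Φ (Φ' u) u) (hc : Continuous Φ')
    {a b : ℝ} (hab : a ≤ b) (h1 : Real.exp b - Real.exp a = 1) :
    ‖Φ a - ∫ u in a..b, Φ u * (Real.exp u : ℂ)‖ ≤ ∫ u in a..b, ‖Φ' u‖ := by
  have hcΦ : Continuous Φ := continuous_iff_continuousAt.2 fun u => (hd u).continuousAt
  have hce : Continuous fun u : ℝ => (Real.exp u : ℂ) := Complex.continuous_ofReal.comp Real.continuous_exp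
  have h2 : ∫ u in a..b, Φ a * (Real.exp u : ℂ) = Φ a := by
    rw [intervalIntegral.integral_const_mul, intervalIntegral.integral_ofReal, integral_exp, h1]
    simp
  have h3 : Φ a - ∫ u in a..b, Φ u * (Real.exp u : ℂ) = ∫ u in a..b, (Φ a - Φ u) * (Real.exp u : ℂ) := by
    have : ∀ u : ℝ, (Φ a - Φ u) * (Real.exp u : ℂ) = Φ a * (Real.exp u : ℂ) - Φ u * (Real.exp u : ℂ) :=
      fun u => by ring
    simp_rw [this]
    have i1 : IntervalIntegrable (fun u : ℝ => Φ a * (Real.exp u : ℂ)) volume a b :=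
      (continuous_const.mul hce).intervalIntegrable a b
    have i2 : IntervalIntegrable (fun u : ℝ => Φ u * (Real.exp u : ℂ)) volume a b :=
      (hcΦ.mul hce).intervalIntegrable a b
    rw [intervalIntegral.integral_sub i1 i2, h2]
  set V : ℝ := ∫ u in a..b, ‖Φ' u‖ with hV
  have hn : Continuous fun u => ‖Φ' u‖ := hc.norm
  have h4 : ‖∫ u in a..b, (Φ a - Φ u) * (Real.exp u : ℂ)‖ ≤ ∫ u in a..b, V * Real.exp u := by
    apply intervalIntegral.norm_integral_le_of_norm_le hab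
    · refine Eventually.of_forall fun u hu => ?_
      rw [norm_mul, Complex.norm_real, Real.norm_eq_abs, abs_of_pos (Real.exp_pos u)]
      apply mul_le_mul_of_nonneg_right _ (Real.exp_pos u).le
      refine (ca6_diff Φ Φ' hd hc hu.1.le).trans ?_
      rw [hV, ← intervalIntegral.integral_add_adjacent_intervals (hn.intervalIntegrable a u)
        (hn.intervalIntegrable u b)]
      have : 0 ≤ ∫ v in u..b, ‖Φ' v‖ :=
        intervalIntegral.integral_nonneg hu.2 fun v _ => norm_nonneg _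
      linarith
    · exact (continuous_const.mul Real.continuous_exp).intervalIntegrable a b
  rw [h3]
  refine h4.trans ?_
  rw [intervalIntegral.integral_const_mul, integral_exp, h1, mul_one]

private theorem ca6_gen {q : ℕ} [NeZero q] (χ : DirichletCharacter ℂ q) (Φ Φ' : ℝ → ℂ)
    (hd : ∀ u, HasDerivAt Φ (Φ' u) u) (hc : Continuous Φ') (B : ℝ)
    (hB : ∀ T : ℝ, 0 ≤ T → ∫ u in (0 : ℝ)..T, ‖Φ' u‖ ≤ B) (hΦ0 : Tendsto Φ atTop (𝓝 0)) (S : ℂ)
    (hS : Tendsto (fun N : ℕ => ∑ n ∈ range N, χ (((n + 1 : ℕ) : ℕ) : ZMod q) * Φ (Real.log ((n + 1 : ℕ) : ℝ)))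
      atTop (𝓝 S)) (J : ℂ)
    (hJ : Tendsto (fun T : ℝ => ∫ u in (0 : ℝ)..T, Φ u * (Real.exp u : ℂ)) atTop (𝓝 J)) :
    ‖S - (ca6_rho χ : ℂ) * J‖ ≤ 3 * q * B := by
  have hq : (1 : ℝ) ≤ q := by exact_mod_cast Nat.one_le_iff_ne_zero.2 (NeZero.ne q)
  have hcΦ : Continuous Φ := continuous_iff_continuousAt.2 fun u => (hd u).continuousAt
  have hce : Continuous fun u : ℝ => (Real.exp u : ℂ) := Complex.continuous_ofReal.comp Real.continuous_exp
  have hn : Continuous fun u => ‖Φ' u‖ := hc.norm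
  set g : ℕ → ℂ := fun n => Φ (Real.log ((n + 1 : ℕ) : ℝ)) with hg
  have hlog : ∀ n : ℕ, Real.log ((n + 1 : ℕ) : ℝ) ≤ Real.log ((n + 1 + 1 : ℕ) : ℝ) := fun n =>
    Real.log_le_log (by positivity) (by push_cast; linarith)
  have hexp : ∀ n : ℕ, Real.exp (Real.log ((n + 1 + 1 : ℕ) : ℝ)) - Real.exp (Real.log ((n + 1 : ℕ) : ℝ)) = 1 := by
    intro n
    rw [Real.exp_log (by positivity), Real.exp_log (by positivity)]
    push_cast
    ring
  have hlog0 : ∀ n : ℕ, 0 ≤ Real.log ((n + 1 : ℕ) : ℝ) := fun n =>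
    Real.log_nonneg (by push_cast; linarith [(Nat.cast_nonneg n : (0 : ℝ) ≤ n)])
  have hvar : ∀ N : ℕ, ∑ n ∈ range N, ∫ u in (Real.log ((n + 1 : ℕ) : ℝ))..(Real.log ((n + 1 + 1 : ℕ) : ℝ)), ‖Φ' u‖ ≤ B := by
    intro N
    have := intervalIntegral.sum_integral_adjacent_intervals (f := fun u => ‖Φ' u‖) (μ := volume)
      (a := fun n : ℕ => Real.log ((n + 1 : ℕ) : ℝ)) (n := N) (fun k _ => hn.intervalIntegrable _ _)
    rw [this]
    have h0 : Real.log ((0 + 1 : ℕ) : ℝ) = 0 := by simp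
    simp only [h0]
    exact hB _ (hlog0 N)
  have hB0 : 0 ≤ B := by
    have := hB 0 le_rfl
    simpa using this
  have hA : ∀ N : ℕ, ‖∑ n ∈ range N, (χ (((n + 1 : ℕ) : ℕ) : ZMod q) - (ca6_rho χ : ℂ)) * g n‖ ≤
      2 * q * (‖g N‖ + B) := by
    intro N
    rw [ca6_abel]
    refine (norm_add_le _ _).trans ?_
    have e1 : ‖g N * ∑ m ∈ range N, (χ (((m + 1 : ℕ) : ℕ) : ZMod q) - (ca6_rho χ : ℂ))‖ ≤ ‖g N‖ * (2 * q) := by
      rw [norm_mul]
      exact mul_le_mul_of_nonneg_left (ca6_partial' χ N) (norm_nonneg _)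
    have e2 : ‖∑ m ∈ range N, (g m - g (m + 1)) * ∑ k ∈ range (m + 1), (χ (((k + 1 : ℕ) : ℕ) : ZMod q) - (ca6_rho χ : ℂ))‖ ≤
        B * (2 * q) := by
      calc _ ≤ ∑ m ∈ range N, ‖(g m - g (m + 1)) * ∑ k ∈ range (m + 1), (χ (((k + 1 : ℕ) : ℕ) : ZMod q) - (ca6_rho χ : ℂ))‖ :=
            norm_sum_le _ _
        _ ≤ ∑ m ∈ range N, (∫ u in (Real.log ((m + 1 : ℕ) : ℝ))..(Real.log ((m + 1 + 1 : ℕ) : ℝ)), ‖Φ' u‖) * (2 * q) := by
            refine Finset.sum_le_sum fun m _ => ?_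
            rw [norm_mul]
            exact mul_le_mul (ca6_diff Φ Φ' hd hc (hlog m)) (ca6_partial' χ (m + 1)) (norm_nonneg _)
              (intervalIntegral.integral_nonneg (hlog m) fun v _ => norm_nonneg _)
        _ = (∑ m ∈ range N, (∫ u in (Real.log ((m + 1 : ℕ) : ℝ))..(Real.log ((m + 1 + 1 : ℕ) : ℝ)), ‖Φ' u‖)) * (2 * q) := by
            rw [Finset.sum_mul]
        _ ≤ B * (2 * q) := mul_le_mul_of_nonneg_right (hvar N) (by positivity)
    linarith
  have hC : ∀ N : ℕ, ‖∑ n ∈ range N, g n - ∫ u in (0 : ℝ)..(Real.log ((N + 1 : ℕ) : ℝ)), Φ u * (Real.exp u : ℂ)‖ ≤ B := by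
    intro N
    have h1 := intervalIntegral.sum_integral_adjacent_intervals (f := fun u => Φ u * (Real.exp u : ℂ)) (μ := volume)
      (a := fun n : ℕ => Real.log ((n + 1 : ℕ) : ℝ)) (n := N) (fun k _ => (hcΦ.mul hce).intervalIntegrable _ _)
    have h0 : Real.log ((0 + 1 : ℕ) : ℝ) = 0 := by simp
    simp only [h0] at h1
    rw [← h1, ← Finset.sum_sub_distrib]
    refine (norm_sum_le _ _).trans ?_
    refine le_trans (Finset.sum_le_sum fun n _ => ?_) (hvar N)
    exact ca6_block Φ Φ' hd hc (hlog n) (hexp n)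
  have hD : ∀ N : ℕ, ‖∑ n ∈ range N, χ (((n + 1 : ℕ) : ℕ) : ZMod q) * g n -
      (ca6_rho χ : ℂ) * ∫ u in (0 : ℝ)..(Real.log ((N + 1 : ℕ) : ℝ)), Φ u * (Real.exp u : ℂ)‖ ≤
      2 * q * (‖g N‖ + B) + B := by
    intro N
    have e : ∑ n ∈ range N, χ (((n + 1 : ℕ) : ℕ) : ZMod q) * g n -
      (ca6_rho χ : ℂ) * ∫ u in (0 : ℝ)..(Real.log ((N + 1 : ℕ) : ℝ)), Φ u * (Real.exp u : ℂ) =
      ∑ n ∈ range N, (χ (((n + 1 : ℕ) : ℕ) : ZMod q) - (ca6_rho χ : ℂ)) * g n +
      (ca6_rho χ : ℂ) * (∑ n ∈ range N, g n - ∫ u in (0 : ℝ)..(Real.log ((N + 1 : ℕ) : ℝ)), Φ u * (Real.exp u : ℂ)) := by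
      rw [mul_sub, Finset.mul_sum]
      simp_rw [sub_mul]
      rw [Finset.sum_sub_distrib]
      ring
    rw [e]
    refine (norm_add_le _ _).trans (add_le_add (hA N) ?_)
    rw [norm_mul, Complex.norm_real, Real.norm_eq_abs, abs_of_nonneg (ca6_rho_nonneg χ)]
    calc ca6_rho χ * _ ≤ 1 * B := mul_le_mul (ca6_rho_le χ) (hC N) (norm_nonneg _) zero_le_one
      _ = B := one_mul B
  have hlogT : Tendsto (fun N : ℕ => Real.log ((N + 1 : ℕ) : ℝ)) atTop atTop :=
    Real.tendsto_log_atTop.comp (tendsto_natCast_atTop_atTop.comp (tendsto_add_atTop_nat 1))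
  have hgT : Tendsto (fun N : ℕ => ‖g N‖) atTop (𝓝 0) := by
    have := (hΦ0.comp hlogT).norm
    rwa [norm_zero] at this
  have hL := (hS.sub ((hJ.comp hlogT).const_mul (ca6_rho χ : ℂ))).norm
  have hR : Tendsto (fun N : ℕ => 2 * (q : ℝ) * (‖g N‖ + B) + B) atTop (𝓝 (2 * (q : ℝ) * (0 + B) + B)) :=
    ((hgT.add_const B).const_mul _).add_const B
  have := le_of_tendsto_of_tendsto' hL hR hD
  refine this.trans ?_
  nlinarith


/-! the calculus -/

private theorem ca6_gw_pos (v : ℝ) : 0 < gw v := by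
  unfold gw
  have := Real.pi_pos
  positivity

private theorem ca6_gw_le (v : ℝ) : gw v ≤ Real.exp (-v ^ 2 / 2) := by
  unfold gw
  apply div_le_self (Real.exp_pos _).le
  apply Real.le_sqrt_of_sq_le
  have := Real.pi_gt_three
  linarith

private theorem ca6_gw_deriv (v : ℝ) : HasDerivAt gw (-v * gw v) v := by
  unfold gw
  have h1 : HasDerivAt (fun v : ℝ => -v ^ 2 / 2) (-v) v := by
    have := ((hasDerivAt_pow 2 v).neg).div_const 2
    refine this.congr_deriv ?_
    push_cast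
    ring
  have h2 := (h1.exp).div_const (Real.sqrt (2 * Real.pi))
  refine h2.congr_deriv ?_
  ring

private theorem ca6_gw_cont : Continuous gw :=
  continuous_iff_continuousAt.2 fun v => (ca6_gw_deriv v).continuousAt

/-- the phase -/
private noncomputable def ca6_e (lam u : ℝ) : ℂ := cexp (((lam * u : ℝ) : ℂ) * I)

private theorem ca6_e_norm (lam u : ℝ) : ‖ca6_e lam u‖ = 1 := by
  unfold ca6_e
  rw [Complex.norm_exp_ofReal_mul_I]

private theorem ca6_e_deriv (lam u : ℝ) : HasDerivAt (ca6_e lam) (((lam : ℂ) * I) * ca6_e lam u) u := by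
  unfold ca6_e
  have h1 : HasDerivAt (fun u : ℝ => ((lam * u : ℝ) : ℂ) * I) ((lam : ℂ) * I) u := by
    have h0 : HasDerivAt (fun u : ℝ => lam * u) lam u := by
      simpa using (hasDerivAt_id u).const_mul lam
    exact (h0.ofReal_comp).mul_const I
  refine h1.cexp.congr_deriv ?_
  ring

private theorem ca6_e_cont (lam : ℝ) : Continuous (ca6_e lam) :=
  continuous_iff_continuousAt.2 fun v => (ca6_e_deriv lam v).continuousAt

private noncomputable def ca6_w (y u : ℝ) : ℝ := gw (u - y) * Real.exp (-u)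

private theorem ca6_w_deriv (y u : ℝ) : HasDerivAt (ca6_w y) ((-(u - y) - 1) * ca6_w y u) u := by
  unfold ca6_w
  have h1 : HasDerivAt (fun u : ℝ => gw (u - y)) (-(u - y) * gw (u - y)) u := by
    have h0 : HasDerivAt (fun u : ℝ => u - y) 1 u := (hasDerivAt_id u).sub_const y
    have := HasDerivAt.comp u (ca6_gw_deriv (u - y)) h0
    rw [mul_one] at this
    exact this
  have h2 : HasDerivAt (fun u : ℝ => Real.exp (-u)) (-Real.exp (-u)) u := by
    have h0 : HasDerivAt (fun u : ℝ => -u) (-1) u := (hasDerivAt_id u).neg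
    have := h0.exp
    refine this.congr_deriv ?_
    ring
  refine (h1.mul h2).congr_deriv ?_
  ring

private noncomputable def ca6_P (lam y u : ℝ) : ℂ := (u : ℂ) * (ca6_e lam u * (ca6_w y u : ℂ))

private noncomputable def ca6_P' (lam y u : ℝ) : ℂ :=
  (1 + (u : ℂ) * ((lam : ℂ) * I - ((u - y : ℝ) : ℂ) - 1)) * (ca6_e lam u * (ca6_w y u : ℂ))

private theorem ca6_P_deriv (lam y u : ℝ) : HasDerivAt (ca6_P lam y) (ca6_P' lam y u) u := by
  unfold ca6_P ca6_P'
  have h1 : HasDerivAt (fun u : ℝ => (u : ℂ)) 1 u := Complex.ofRealCLM.hasDerivAt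
  have h2 := (ca6_e_deriv lam u).mul ((ca6_w_deriv y u).ofReal_comp)
  refine (h1.mul h2).congr_deriv ?_
  rw [Pi.mul_apply]
  push_cast
  ring

private theorem ca6_P'_cont (lam y : ℝ) : Continuous (ca6_P' lam y) := by
  unfold ca6_P'
  have h1 := ca6_e_cont lam
  have h2 : Continuous (ca6_w y) :=
    continuous_iff_continuousAt.2 fun v => (ca6_w_deriv y v).continuousAt
  have h3 : Continuous fun u : ℝ => (ca6_w y u : ℂ) := Complex.continuous_ofReal.comp h2
  have h4 : Continuous fun u : ℝ => ((u - y : ℝ) : ℂ) :=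
    Complex.continuous_ofReal.comp (continuous_id.sub continuous_const)
  exact (continuous_const.add (Complex.continuous_ofReal.mul
    ((continuous_const.sub h4).sub continuous_const))).mul (h1.mul h3)

private theorem ca6_w_nonneg (y u : ℝ) : 0 ≤ ca6_w y u :=
  mul_nonneg (gw_nonneg _) (Real.exp_pos _).le

private theorem ca6_sq_exp (s : ℝ) : (1 + |s|) ^ 2 * (Real.exp (-s ^ 2 / 2) * Real.exp |s|) ≤
    Real.exp 9 * Real.exp (-s ^ 2 / 4) := by
  have h1 : 1 + |s| ≤ Real.exp |s| := by linarith [Real.add_one_le_exp |s|]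
  have h2 : (1 + |s|) ^ 2 ≤ Real.exp (2 * |s|) := by
    calc (1 + |s|) ^ 2 ≤ (Real.exp |s|) ^ 2 := by
          apply pow_le_pow_left₀ (by positivity) h1
      _ = Real.exp (2 * |s|) := by rw [← Real.exp_nat_mul]; norm_num
  calc (1 + |s|) ^ 2 * (Real.exp (-s ^ 2 / 2) * Real.exp |s|)
      ≤ Real.exp (2 * |s|) * (Real.exp (-s ^ 2 / 2) * Real.exp |s|) :=
        mul_le_mul_of_nonneg_right h2 (by positivity)
    _ = Real.exp (3 * |s| - s ^ 2 / 2) := by
        rw [← Real.exp_add, ← Real.exp_add]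
        congr 1
        ring
    _ ≤ Real.exp (9 + -s ^ 2 / 4) := by
        apply Real.exp_le_exp.2
        have h3 : |s| ^ 2 = s ^ 2 := sq_abs s
        nlinarith [sq_nonneg (|s| / 2 - 3)]
    _ = _ := Real.exp_add _ _

private theorem ca6_P'_bound (lam y u : ℝ) (hy : 0 ≤ y) (hu : 0 ≤ u) :
    ‖ca6_P' lam y u‖ ≤ 2 * (1 + |lam|) * (1 + y) * Real.exp (-y) *
      (Real.exp 9 * Real.exp (-(u - y) ^ 2 / 4)) := by
  unfold ca6_P'
  rw [norm_mul, norm_mul, ca6_e_norm, one_mul, Complex.norm_real, Real.norm_eq_abs,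
    abs_of_nonneg (ca6_w_nonneg y u)]
  set s := u - y with hs
  have hl : 0 ≤ |lam| := abs_nonneg _
  have hsn : 0 ≤ |s| := abs_nonneg _
  have hle : u ≤ (1 + y) * (1 + |s|) := by
    have := le_abs_self s
    nlinarith [mul_nonneg hy hsn]
  have h1 : ‖(1 : ℂ) + (u : ℂ) * ((lam : ℂ) * I - ((s : ℝ) : ℂ) - 1)‖ ≤
      2 * (1 + |lam|) * (1 + y) * (1 + |s|) ^ 2 := by
    have a1 : ‖(lam : ℂ) * I - ((s : ℝ) : ℂ) - 1‖ ≤ |lam| + |s| + 1 := by
      refine (norm_sub_le _ _).trans ?_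
      refine add_le_add ((norm_sub_le _ _).trans ?_) (by simp)
      apply add_le_add
      · rw [norm_mul, Complex.norm_I, mul_one, Complex.norm_real, Real.norm_eq_abs]
      · rw [Complex.norm_real, Real.norm_eq_abs]
    have a2 : |lam| + |s| + 1 ≤ (1 + |lam|) * (1 + |s|) := by nlinarith [mul_nonneg hl hsn]
    calc ‖(1 : ℂ) + (u : ℂ) * ((lam : ℂ) * I - ((s : ℝ) : ℂ) - 1)‖
        ≤ ‖(1 : ℂ)‖ + ‖(u : ℂ) * ((lam : ℂ) * I - ((s : ℝ) : ℂ) - 1)‖ := norm_add_le _ _
      _ ≤ 1 + u * (|lam| + |s| + 1) := by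
          rw [norm_one, norm_mul, Complex.norm_real, Real.norm_eq_abs, abs_of_nonneg hu]
          linarith [mul_le_mul_of_nonneg_left a1 hu]
      _ ≤ 1 + ((1 + y) * (1 + |s|)) * ((1 + |lam|) * (1 + |s|)) := by
          have := mul_le_mul hle a2 (by positivity) (by positivity)
          linarith
      _ ≤ 2 * (1 + |lam|) * (1 + y) * (1 + |s|) ^ 2 := by
          have a3 : 1 ≤ ((1 + |lam|) * (1 + y)) * (1 + |s|) ^ 2 := by
            have b1 : 1 ≤ 1 + |lam| := by linarith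
            have b2 : 1 ≤ 1 + y := by linarith
            have b3 : 1 ≤ 1 + |s| := by linarith
            have b4 : 1 ≤ (1 + |s|) ^ 2 := one_le_pow₀ b3
            have b5 : 1 ≤ (1 + |lam|) * (1 + y) := by nlinarith
            nlinarith
          nlinarith
  have h2 : ca6_w y u ≤ Real.exp (-y) * (Real.exp (-s ^ 2 / 2) * Real.exp |s|) := by
    unfold ca6_w
    rw [← hs]
    have b1 := ca6_gw_le s
    have b2 : Real.exp (-u) ≤ Real.exp (-y) * Real.exp |s| := by
      rw [← Real.exp_add]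
      apply Real.exp_le_exp.2
      have := neg_abs_le s
      linarith
    calc gw s * Real.exp (-u) ≤ Real.exp (-s ^ 2 / 2) * (Real.exp (-y) * Real.exp |s|) :=
          mul_le_mul b1 b2 (Real.exp_pos _).le (Real.exp_pos _).le
      _ = _ := by ring
  calc ‖(1 : ℂ) + (u : ℂ) * ((lam : ℂ) * I - ((s : ℝ) : ℂ) - 1)‖ * ca6_w y u
      ≤ (2 * (1 + |lam|) * (1 + y) * (1 + |s|) ^ 2) *
        (Real.exp (-y) * (Real.exp (-s ^ 2 / 2) * Real.exp |s|)) :=
        mul_le_mul h1 h2 (ca6_w_nonneg y u) (by positivity)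
    _ = 2 * (1 + |lam|) * (1 + y) * Real.exp (-y) *
        ((1 + |s|) ^ 2 * (Real.exp (-s ^ 2 / 2) * Real.exp |s|)) := by ring
    _ ≤ _ := mul_le_mul_of_nonneg_left (ca6_sq_exp s) (by positivity)

private theorem ca6_shift_int (y : ℝ) : Integrable fun u : ℝ => Real.exp (-(u - y) ^ 2 / 4) :=
  integrable_gaussian_quarter.comp_sub_right y

private theorem ca6_shift_le (y : ℝ) : ∫ u : ℝ, Real.exp (-(u - y) ^ 2 / 4) ≤ 4 := by
  rw [integral_sub_right_eq_self (fun u : ℝ => Real.exp (-u ^ 2 / 4)) y]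
  exact integral_gaussian_quarter

private theorem ca6_B (lam y : ℝ) (hy : 0 ≤ y) (T : ℝ) (hT : 0 ≤ T) :
    ∫ u in (0 : ℝ)..T, ‖ca6_P' lam y u‖ ≤ 8 * Real.exp 9 * (1 + |lam|) * (1 + y) * Real.exp (-y) := by
  have hi := ca6_shift_int y
  have hK : 0 ≤ 2 * (1 + |lam|) * (1 + y) * Real.exp (-y) * Real.exp 9 := by positivity
  have h1 : ∫ u in (0 : ℝ)..T, ‖ca6_P' lam y u‖ ≤
      ∫ u in (0 : ℝ)..T, 2 * (1 + |lam|) * (1 + y) * Real.exp (-y) * Real.exp 9 * Real.exp (-(u - y) ^ 2 / 4) := by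
    apply intervalIntegral.integral_mono_on hT
    · exact (ca6_P'_cont lam y).norm.intervalIntegrable _ _
    · exact (hi.const_mul _).intervalIntegrable
    · intro u hu
      have := ca6_P'_bound lam y u hy hu.1
      linarith
  refine h1.trans ?_
  rw [intervalIntegral.integral_const_mul]
  have h2 : ∫ u in (0 : ℝ)..T, Real.exp (-(u - y) ^ 2 / 4) ≤ 4 := by
    rw [intervalIntegral.integral_of_le hT]
    refine (setIntegral_le_integral hi (Eventually.of_forall fun u => (Real.exp_pos _).le)).trans ?_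
    exact ca6_shift_le y
  have := mul_le_mul_of_nonneg_left h2 hK
  linarith

private theorem ca6_P_tendsto (lam y : ℝ) : Tendsto (ca6_P lam y) atTop (𝓝 0) := by
  have h1 : Tendsto (fun u : ℝ => u ^ 1 * Real.exp (-u)) atTop (𝓝 0) :=
    Real.tendsto_pow_mul_exp_neg_atTop_nhds_zero 1
  refine squeeze_zero_norm' ?_ h1
  filter_upwards [eventually_ge_atTop (0 : ℝ)] with u hu
  unfold ca6_P
  rw [norm_mul, norm_mul, ca6_e_norm, one_mul, Complex.norm_real, Complex.norm_real,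
    Real.norm_eq_abs, Real.norm_eq_abs, abs_of_nonneg hu, abs_of_nonneg (ca6_w_nonneg y u), pow_one]
  apply mul_le_mul_of_nonneg_left _ hu
  unfold ca6_w
  have : gw (u - y) ≤ 1 := (ca6_gw_le _).trans (Real.exp_le_one_iff.2 (by nlinarith [sq_nonneg (u - y)]))
  calc gw (u - y) * Real.exp (-u) ≤ 1 * Real.exp (-u) :=
        mul_le_mul_of_nonneg_right this (Real.exp_pos _).le
    _ = _ := one_mul _


private noncomputable def ca6_F (lam y u : ℝ) : ℂ := (u : ℂ) * (ca6_e lam u * (gw (u - y) : ℂ))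

private theorem ca6_P_exp (lam y u : ℝ) : ca6_P lam y u * (Real.exp u : ℂ) = ca6_F lam y u := by
  unfold ca6_P ca6_F ca6_w
  have : (Real.exp (-u) : ℂ) * (Real.exp u : ℂ) = 1 := by
    rw [← Complex.ofReal_mul, ← Real.exp_add, neg_add_cancel, Real.exp_zero, Complex.ofReal_one]
  push_cast at this ⊢
  linear_combination ((u : ℂ) * ca6_e lam u * (gw (u - y) : ℂ)) * this

private theorem ca6_F_cont (lam y : ℝ) : Continuous (ca6_F lam y) := by
  unfold ca6_F
  exact Complex.continuous_ofReal.mul ((ca6_e_cont lam).mul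
    (Complex.continuous_ofReal.comp (ca6_gw_cont.comp (continuous_id.sub continuous_const))))

private theorem ca6_F_norm (lam y u : ℝ) : ‖ca6_F lam y u‖ = |u| * gw (u - y) := by
  unfold ca6_F
  rw [norm_mul, norm_mul, ca6_e_norm, one_mul, Complex.norm_real, Complex.norm_real,
    Real.norm_eq_abs, Real.norm_eq_abs, abs_of_nonneg (gw_nonneg _)]

private theorem ca6_gw_exp (s : ℝ) : (1 + |s|) ^ 2 * gw s ≤ Real.exp 9 * Real.exp (-s ^ 2 / 4) := by
  refine le_trans ?_ (ca6_sq_exp s)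
  apply mul_le_mul_of_nonneg_left _ (by positivity)
  refine (ca6_gw_le s).trans ?_
  exact le_mul_of_one_le_right (Real.exp_pos _).le (Real.one_le_exp (abs_nonneg s))

private theorem ca6_F_bound (lam y u : ℝ) (hy : 0 ≤ y) :
    ‖ca6_F lam y u‖ ≤ (1 + y) * (Real.exp 9 * Real.exp (-(u - y) ^ 2 / 4)) := by
  rw [ca6_F_norm]
  set s := u - y with hs
  have hsn : 0 ≤ |s| := abs_nonneg _
  have h1 : |u| ≤ (1 + y) * (1 + |s|) ^ 2 := by
    have h2 : |u| ≤ |s| + y := by
      have : u = s + y := by rw [hs]; ring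
      rw [this]
      refine (abs_add_le _ _).trans ?_
      rw [abs_of_nonneg hy]
    nlinarith [mul_nonneg hy hsn, mul_nonneg hy (mul_nonneg hsn hsn), mul_nonneg hsn hsn]
  calc |u| * gw s ≤ ((1 + y) * (1 + |s|) ^ 2) * gw s := mul_le_mul_of_nonneg_right h1 (gw_nonneg s)
    _ = (1 + y) * ((1 + |s|) ^ 2 * gw s) := by ring
    _ ≤ _ := mul_le_mul_of_nonneg_left (ca6_gw_exp s) (by positivity)

private theorem ca6_F_int (lam y : ℝ) (hy : 0 ≤ y) : Integrable (ca6_F lam y) := by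
  refine Integrable.mono' (((ca6_shift_int y).const_mul (Real.exp 9)).const_mul (1 + y))
    (ca6_F_cont lam y).aestronglyMeasurable (Eventually.of_forall fun u => ?_)
  exact ca6_F_bound lam y u hy

private theorem ca6_F_neg (lam y u : ℝ) (hy : 0 ≤ y) (hu : u ≤ 0) :
    ‖ca6_F lam y u‖ ≤ Real.exp 10 * Real.exp (-y) * Real.exp (-u ^ 2 / 4) := by
  rw [ca6_F_norm]
  have h1 : gw (u - y) ≤ Real.exp 1 * Real.exp (-y) * Real.exp (-u ^ 2 / 2) := by
    refine (ca6_gw_le _).trans ?_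
    rw [← Real.exp_add, ← Real.exp_add]
    apply Real.exp_le_exp.2
    nlinarith [mul_nonneg hy (neg_nonneg.2 hu), sq_nonneg (y - 1)]
  have h2 : |u| * Real.exp (-u ^ 2 / 2) ≤ Real.exp 9 * Real.exp (-u ^ 2 / 4) := by
    refine le_trans ?_ (ca6_sq_exp u)
    have h3 : |u| ≤ (1 + |u|) ^ 2 := by nlinarith [abs_nonneg u]
    have h4 : Real.exp (-u ^ 2 / 2) ≤ Real.exp (-u ^ 2 / 2) * Real.exp |u| :=
      le_mul_of_one_le_right (Real.exp_pos _).le (Real.one_le_exp (abs_nonneg u))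
    exact mul_le_mul h3 h4 (Real.exp_pos _).le (by positivity)
  calc |u| * gw (u - y) ≤ |u| * (Real.exp 1 * Real.exp (-y) * Real.exp (-u ^ 2 / 2)) :=
        mul_le_mul_of_nonneg_left h1 (abs_nonneg _)
    _ = Real.exp 1 * Real.exp (-y) * (|u| * Real.exp (-u ^ 2 / 2)) := by ring
    _ ≤ Real.exp 1 * Real.exp (-y) * (Real.exp 9 * Real.exp (-u ^ 2 / 4)) :=
        mul_le_mul_of_nonneg_left h2 (by positivity)
    _ = (Real.exp 1 * Real.exp 9) * Real.exp (-y) * Real.exp (-u ^ 2 / 4) := by ring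
    _ = _ := by rw [← Real.exp_add]; norm_num

private noncomputable def ca6_h (lam s : ℝ) : ℂ := ca6_e lam s * (gw s : ℂ)

private theorem ca6_h_deriv (lam s : ℝ) :
    HasDerivAt (ca6_h lam) (((lam : ℂ) * I) * ca6_h lam s - (s : ℂ) * ca6_h lam s) s := by
  unfold ca6_h
  refine ((ca6_e_deriv lam s).mul ((ca6_gw_deriv s).ofReal_comp)).congr_deriv ?_
  push_cast
  ring

private theorem ca6_h_cont (lam : ℝ) : Continuous (ca6_h lam) :=
  continuous_iff_continuousAt.2 fun v => (ca6_h_deriv lam v).continuousAt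

private theorem ca6_h_norm (lam s : ℝ) : ‖ca6_h lam s‖ = gw s := by
  unfold ca6_h
  rw [norm_mul, ca6_e_norm, one_mul, Complex.norm_real, Real.norm_eq_abs, abs_of_nonneg (gw_nonneg _)]

private theorem ca6_h_int (lam : ℝ) : Integrable (ca6_h lam) := by
  refine Integrable.mono' (integrable_gaussian_quarter.const_mul (Real.exp 9))
    (ca6_h_cont lam).aestronglyMeasurable (Eventually.of_forall fun s => ?_)
  rw [ca6_h_norm]
  refine le_trans ?_ (ca6_gw_exp s)
  exact le_mul_of_one_le_left (gw_nonneg s) (one_le_pow₀ (by linarith [abs_nonneg s]))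

private theorem ca6_sh_int (lam : ℝ) : Integrable (fun s : ℝ => (s : ℂ) * ca6_h lam s) := by
  refine Integrable.mono' (integrable_gaussian_quarter.const_mul (Real.exp 9))
    (Complex.continuous_ofReal.mul (ca6_h_cont lam)).aestronglyMeasurable (Eventually.of_forall fun s => ?_)
  rw [norm_mul, ca6_h_norm, Complex.norm_real, Real.norm_eq_abs]
  refine le_trans ?_ (ca6_gw_exp s)
  apply mul_le_mul_of_nonneg_right _ (gw_nonneg s)
  nlinarith [abs_nonneg s]

private theorem ca6_int_h (lam : ℝ) : ∫ s : ℝ, ca6_h lam s = cexp (-((lam ^ 2 / 2 : ℝ) : ℂ)) := by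
  have h := gauss_int 0 (-lam)
  have hsq : (0 : ℝ) < Real.sqrt (2 * Real.pi) := Real.sqrt_pos.2 (by have := Real.pi_pos; positivity)
  have hsq2 : Real.sqrt (2 * Real.pi) * Real.sqrt (2 * Real.pi) = 2 * Real.pi :=
    Real.mul_self_sqrt (by have := Real.pi_pos; positivity)
  have h1 : ∀ t : ℝ, cexp ((((0 : ℝ) : ℂ) + t * I) ^ 2 / 2 - (((0 : ℝ) : ℂ) + t * I) * ((-lam : ℝ) : ℂ)) =
      (Real.sqrt (2 * Real.pi) : ℂ) * ca6_h lam t := by
    intro t
    unfold ca6_h ca6_e gw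
    have e1 : (Real.sqrt (2 * Real.pi) : ℂ) ≠ 0 := by exact_mod_cast hsq.ne'
    have e2 : cexp ((((0 : ℝ) : ℂ) + t * I) ^ 2 / 2 - (((0 : ℝ) : ℂ) + t * I) * ((-lam : ℝ) : ℂ)) =
        cexp (((lam * t : ℝ) : ℂ) * I) * cexp (((-t ^ 2 / 2 : ℝ) : ℂ)) := by
      rw [← Complex.exp_add]
      congr 1
      push_cast
      have : (I : ℂ) ^ 2 = -1 := Complex.I_sq
      linear_combination ((t : ℂ) ^ 2 / 2) * this
    rw [e2, ← Complex.ofReal_exp, Complex.ofReal_div (Real.exp _)]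
    field_simp
  simp_rw [h1] at h
  rw [integral_const_mul] at h
  have e1 : (Real.sqrt (2 * Real.pi) : ℂ) ≠ 0 := by exact_mod_cast hsq.ne'
  apply mul_left_cancel₀ e1
  rw [h, ← Complex.ofReal_neg, ← Complex.ofReal_exp, ← Complex.ofReal_mul]
  congr 1
  unfold gw
  have : -(-lam) ^ 2 / 2 = -(lam ^ 2 / 2) := by ring
  rw [this]
  set S : ℝ := Real.sqrt (2 * Real.pi) with hS
  set E : ℝ := Real.exp (-(lam ^ 2 / 2)) with hE
  rw [mul_div_assoc', div_eq_iff hsq.ne']
  linear_combination (-E) * hsq2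

private theorem ca6_int_sh (lam : ℝ) : ∫ s : ℝ, (s : ℂ) * ca6_h lam s =
    ((lam : ℂ) * I) * cexp (-((lam ^ 2 / 2 : ℝ) : ℂ)) := by
  have h := integral_eq_zero_of_hasDerivAt_of_integrable (ca6_h_deriv lam)
    (((ca6_h_int lam).const_mul _).sub (ca6_sh_int lam)) (ca6_h_int lam)
  rw [integral_sub ((ca6_h_int lam).const_mul _) (ca6_sh_int lam), integral_const_mul, ca6_int_h] at h
  linear_combination -h

private theorem ca6_int_F (lam y : ℝ) : ∫ u : ℝ, ca6_F lam y u =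
    ((y : ℂ) + lam * I) * cexp (((lam * y : ℝ) : ℂ) * I - ((lam ^ 2 / 2 : ℝ) : ℂ)) := by
  rw [← integral_add_right_eq_self (ca6_F lam y) y]
  have h1 : ∀ s : ℝ, ca6_F lam y (s + y) =
      ca6_e lam y * ((s : ℂ) * ca6_h lam s) + (ca6_e lam y * (y : ℂ)) * ca6_h lam s := by
    intro s
    unfold ca6_F ca6_h
    have : ca6_e lam (s + y) = ca6_e lam s * ca6_e lam y := by
      unfold ca6_e
      rw [← Complex.exp_add]
      congr 1
      push_cast
      ring
    rw [this, add_sub_cancel_right]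
    push_cast
    ring
  simp_rw [h1]
  rw [integral_add ((ca6_sh_int lam).const_mul _) ((ca6_h_int lam).const_mul _), integral_const_mul,
    integral_const_mul, ca6_int_sh, ca6_int_h, sub_eq_add_neg, Complex.exp_add]
  unfold ca6_e
  ring

private theorem ca6_J (lam y : ℝ) (hy : 0 ≤ y) :
    Tendsto (fun T : ℝ => ∫ u in (0 : ℝ)..T, ca6_P lam y u * (Real.exp u : ℂ)) atTop
      (𝓝 (∫ u in Set.Ioi (0 : ℝ), ca6_F lam y u)) := by
  simp_rw [ca6_P_exp]
  exact intervalIntegral_tendsto_integral_Ioi 0 (ca6_F_int lam y hy).integrableOn tendsto_id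

private theorem ca6_half (lam y : ℝ) (hy : 0 ≤ y) :
    ‖(∫ u in Set.Ioi (0 : ℝ), ca6_F lam y u) -
      ((y : ℂ) + lam * I) * cexp (((lam * y : ℝ) : ℂ) * I - ((lam ^ 2 / 2 : ℝ) : ℂ))‖ ≤
      4 * Real.exp 10 * Real.exp (-y) := by
  have hi := ca6_F_int lam y hy
  have h1 := intervalIntegral.integral_Iic_add_Ioi (f := ca6_F lam y) (b := 0) (μ := volume)
    hi.integrableOn hi.integrableOn
  rw [ca6_int_F] at h1
  rw [← h1, sub_add_cancel_right, norm_neg]
  have hK : 0 ≤ Real.exp 10 * Real.exp (-y) := by positivity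
  have hg : Integrable fun u : ℝ => Real.exp 10 * Real.exp (-y) * Real.exp (-u ^ 2 / 4) :=
    integrable_gaussian_quarter.const_mul _
  calc ‖∫ u in Set.Iic (0 : ℝ), ca6_F lam y u‖
      ≤ ∫ u in Set.Iic (0 : ℝ), Real.exp 10 * Real.exp (-y) * Real.exp (-u ^ 2 / 4) := by
        apply norm_integral_le_of_norm_le hg.integrableOn
        filter_upwards [ae_restrict_mem measurableSet_Iic] with u hu
        exact ca6_F_neg lam y u hy hu
    _ ≤ ∫ u : ℝ, Real.exp 10 * Real.exp (-y) * Real.exp (-u ^ 2 / 4) :=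
        setIntegral_le_integral hg (Eventually.of_forall fun u => by positivity)
    _ = Real.exp 10 * Real.exp (-y) * ∫ u : ℝ, Real.exp (-u ^ 2 / 4) := integral_const_mul _ _
    _ ≤ Real.exp 10 * Real.exp (-y) * 4 := mul_le_mul_of_nonneg_left integral_gaussian_quarter hK
    _ = _ := by ring

private theorem ca6_summable {q : ℕ} [NeZero q] (χ : DirichletCharacter ℂ q) (lam y : ℝ) :
    Tendsto (fun N : ℕ => ∑ n ∈ range N, χ (((n + 1 : ℕ) : ℕ) : ZMod q) * ca6_P lam y (Real.log ((n + 1 : ℕ) : ℝ)))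
      atTop (𝓝 (GS (tw χ lam * (fun n : ℕ ↦ (Complex.log n : ℂ))) y)) := by
  have hs := Pool.Agent.LibPL63.summable_GS (summable_twLog χ lam one_pos) y
  have h1 := hs.hasSum.tendsto_sum_nat
  have h2 := h1.comp (tendsto_add_atTop_nat 1)
  refine h2.congr fun N => ?_
  simp only [Function.comp]
  rw [Finset.sum_range_succ']
  have h0 : (tw χ lam * (fun n : ℕ ↦ (Complex.log n : ℂ))) 0 * ((gw (Real.log ((0 : ℕ) : ℝ) - y) / ((0 : ℕ) : ℝ) : ℝ) : ℂ) = 0 := by
    simp
  rw [h0, add_zero]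
  refine Finset.sum_congr rfl fun n _ => ?_
  rw [Pi.mul_apply]
  unfold tw cp ca6_P ca6_e ca6_w
  have hn : (0 : ℝ) < ((n + 1 : ℕ) : ℝ) := by positivity
  rw [Real.exp_neg, Real.exp_log hn, ← Complex.natCast_log, div_eq_mul_inv]
  push_cast
  ring

theorem tw_GS_log : ∃ C : ℝ, 0 < C ∧ ∀ (q : ℕ) [NeZero q] (χ : DirichletCharacter ℂ q) (lam y : ℝ), 0 ≤ y →
    ‖GS (tw χ lam * (fun n : ℕ ↦ (Complex.log n : ℂ))) y - ((y : ℂ) + lam * I) * mainI χ lam y‖ ≤
      C * q * (1 + |lam|) * (1 + y) * Real.exp (-y) := by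
  refine ⟨24 * Real.exp 9 + 4 * Real.exp 10, by positivity, ?_⟩
  intro q _ χ lam y hy
  have hq : (1 : ℝ) ≤ q := by exact_mod_cast Nat.one_le_iff_ne_zero.2 (NeZero.ne q)
  have h1 := ca6_gen χ (ca6_P lam y) (ca6_P' lam y) (ca6_P_deriv lam y) (ca6_P'_cont lam y)
    (8 * Real.exp 9 * (1 + |lam|) * (1 + y) * Real.exp (-y)) (ca6_B lam y hy) (ca6_P_tendsto lam y)
    _ (ca6_summable χ lam y) _ (ca6_J lam y hy)
  have h2 := ca6_half lam y hy
  set G := GS (tw χ lam * (fun n : ℕ ↦ (Complex.log n : ℂ))) y with hG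
  set J := ∫ u in Set.Ioi (0 : ℝ), ca6_F lam y u with hJ
  set M := ((y : ℂ) + lam * I) * cexp (((lam * y : ℝ) : ℂ) * I - ((lam ^ 2 / 2 : ℝ) : ℂ)) with hM
  have h3 : ((y : ℂ) + lam * I) * mainI χ lam y = (ca6_rho χ : ℂ) * M := by
    unfold mainI ca6_rho
    split_ifs
    · rw [hM]; ring
    · simp
  rw [h3]
  have h4 : G - (ca6_rho χ : ℂ) * M = (G - (ca6_rho χ : ℂ) * J) + (ca6_rho χ : ℂ) * (J - M) := by ring
  rw [h4]
  refine (norm_add_le _ _).trans ?_
  have h5 : ‖(ca6_rho χ : ℂ) * (J - M)‖ ≤ 4 * Real.exp 10 * Real.exp (-y) := by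
    rw [norm_mul, Complex.norm_real, Real.norm_eq_abs, abs_of_nonneg (ca6_rho_nonneg χ)]
    calc ca6_rho χ * ‖J - M‖ ≤ 1 * (4 * Real.exp 10 * Real.exp (-y)) :=
          mul_le_mul (ca6_rho_le χ) h2 (norm_nonneg _) zero_le_one
      _ = _ := one_mul _
  have h6 : Real.exp (-y) ≤ q * (1 + |lam|) * (1 + y) * Real.exp (-y) := by
    have b1 : 1 ≤ 1 + |lam| := by linarith [abs_nonneg lam]
    have b2 : 1 ≤ 1 + y := by linarith
    have b3 : 1 ≤ q * (1 + |lam|) := by nlinarith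
    have b4 : 1 ≤ q * (1 + |lam|) * (1 + y) := by nlinarith
    exact le_mul_of_one_le_left (Real.exp_pos _).le b4
  have h7 := mul_le_mul_of_nonneg_left h6 (by positivity : (0 : ℝ) ≤ 4 * Real.exp 10)
  linarith

end Pool.Agent.LibHG31
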