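import Pool.Agent.LibHG31.CA6

/-! ROW CA7: the type I parts of Vaughan's identity.
PLAN: copy `LibPL63.norm_SS_sub_typeII_le` (B0h.lean) with `tw χ lam` in place of `χ`, `vaughan_tw`, `LibPL63.GS_conv_fin`,
`tw_GS`, `tw_GS_log` (all arguments `x - log n`, `x - log n - log m` with `n, m ≤ U ≤ e^{x/5}` are `≥ 0`).
Main terms (only `χ = 1`; `‖mainI χ lam y‖ ≤ e^{-λ²/2}`): second part `∑_{m≤U} (1/m)(x+|λ|)e^{-λ²/2} ≤ (1+x/5)(x+|λ|)e^{-λ²/2}`
(harmonic sum `LibMaier.Hs_le`), third part `∑_{m≤U} (Λ m/m) ∑_{m'≤U} (1/m') e^{-λ²/2} ≤ (x/5)(1+x/5)² e^{-λ²/2}`. -/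

namespace Pool.Agent.LibHG31

open Finset Complex
open scoped ArithmeticFunction.vonMangoldt ArithmeticFunction.Moebius
open Pool.Agent.LibPL63 (GS low high beta)

theorem ca7_norm_mainI_le {q : ℕ} [NeZero q] (χ : DirichletCharacter ℂ q) (lam y : ℝ) :
    ‖mainI χ lam y‖ ≤ Real.exp (-(lam ^ 2 / 2)) := by
  classical
  unfold mainI
  split_ifs
  · rw [norm_mul, Complex.norm_exp, Complex.norm_real, Real.norm_eq_abs]
    have hq : (0 : ℝ) < q := by exact_mod_cast Nat.pos_of_ne_zero (NeZero.ne q)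
    have h1 : |(q.totient : ℝ) / q| ≤ 1 := by
      rw [abs_of_nonneg (by positivity), div_le_one hq]
      exact_mod_cast Nat.totient_le q
    have h2 : (((lam * y : ℝ) : ℂ) * I - ((lam ^ 2 / 2 : ℝ) : ℂ)).re = -(lam ^ 2 / 2) := by
      simp only [Complex.sub_re, Complex.mul_re, Complex.ofReal_re, Complex.I_re, mul_zero,
        Complex.ofReal_im, Complex.I_im, mul_one, sub_self, zero_sub]
    rw [h2]
    calc |(q.totient : ℝ) / q| * Real.exp (-(lam ^ 2 / 2)) ≤ 1 * Real.exp (-(lam ^ 2 / 2)) :=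
          mul_le_mul_of_nonneg_right h1 (Real.exp_pos _).le
      _ = Real.exp (-(lam ^ 2 / 2)) := one_mul _
  · rw [norm_zero]
    exact (Real.exp_pos _).le

open scoped Classical in
theorem ca7_norm_mainI_le' {q : ℕ} [NeZero q] (χ : DirichletCharacter ℂ q) (lam y : ℝ) :
    ‖mainI χ lam y‖ ≤ if χ = 1 then Real.exp (-(lam ^ 2 / 2)) else 0 := by
  split_ifs with h
  · exact ca7_norm_mainI_le χ lam y
  · unfold mainI
    rw [if_neg h, norm_zero]

theorem ca7_norm_twL_le {q : ℕ} (χ : DirichletCharacter ℂ q) (lam : ℝ) (n : ℕ) :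
    ‖(tw χ lam * (fun n : ℕ ↦ (Λ n : ℂ))) n‖ ≤ Λ n := by
  rw [Pi.mul_apply, norm_mul, Complex.norm_real, Real.norm_eq_abs,
    abs_of_nonneg ArithmeticFunction.vonMangoldt_nonneg]
  calc ‖tw χ lam n‖ * Λ n ≤ 1 * Λ n :=
        mul_le_mul_of_nonneg_right (norm_tw_le χ lam n) ArithmeticFunction.vonMangoldt_nonneg
    _ = Λ n := one_mul _

theorem ca7_GS_low_le {q : ℕ} (χ : DirichletCharacter ℂ q) (lam : ℝ) {U : ℕ} {x : ℝ} (hx : 4 ≤ x)
    (hU : (U : ℝ) ≤ Real.exp (x / 5)) :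
    ‖GS (low U (tw χ lam * (fun n : ℕ ↦ (Λ n : ℂ)))) x‖ ≤ Real.exp (-x) := by
  have h1 : GS (low U (tw χ lam * (fun n : ℕ ↦ (Λ n : ℂ)))) x =
      ∑ n ∈ Icc 1 U, low U (tw χ lam * (fun n : ℕ ↦ (Λ n : ℂ))) n *
      ((Pool.Agent.LibMaier.gw (Real.log n - x) / n : ℝ) : ℂ) := by
    refine tsum_eq_sum fun n hn => ?_
    rcases eq_or_ne n 0 with rfl | h0
    · simp
    · rw [low, if_neg, zero_mul]
      rw [Finset.mem_Icc] at hn
      omega
  rw [h1]
  refine (norm_sum_le _ _).trans ?_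
  have h2 : ∀ n ∈ Icc 1 U, ‖low U (tw χ lam * (fun n : ℕ ↦ (Λ n : ℂ))) n *
      ((Pool.Agent.LibMaier.gw (Real.log n - x) / n : ℝ) : ℂ)‖ ≤
      Real.exp (-(8 * x ^ 2 / 25)) := by
    intro n hn
    obtain ⟨hn1, hn2⟩ := Finset.mem_Icc.1 hn
    have hnR : (1 : ℝ) ≤ n := by exact_mod_cast hn1
    have hn0 : (0 : ℝ) < n := by linarith
    have hlogn : Real.log n ≤ x / 5 := by
      rw [Real.log_le_iff_le_exp hn0]
      exact le_trans (by exact_mod_cast hn2) hU
    have hlog0 : 0 ≤ Real.log n := Real.log_nonneg hnR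
    have h3 : ‖low U (tw χ lam * (fun n : ℕ ↦ (Λ n : ℂ))) n‖ ≤ n := by
      refine (Pool.Agent.LibPL63.norm_low_le _ _ _).trans ?_
      refine (ca7_norm_twL_le χ lam n).trans ?_
      exact ArithmeticFunction.vonMangoldt_le_log.trans
        (by linarith [Real.log_le_sub_one_of_pos hn0])
    rw [norm_mul, Complex.norm_real, Real.norm_eq_abs,
      abs_of_nonneg (div_nonneg (Pool.Agent.LibMaier.gw_nonneg _) hn0.le)]
    calc ‖low U (tw χ lam * (fun n : ℕ ↦ (Λ n : ℂ))) n‖ *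
          (Pool.Agent.LibMaier.gw (Real.log n - x) / n) ≤
          n * (Pool.Agent.LibMaier.gw (Real.log n - x) / n) :=
          mul_le_mul_of_nonneg_right h3 (div_nonneg (Pool.Agent.LibMaier.gw_nonneg _) hn0.le)
      _ = Pool.Agent.LibMaier.gw (Real.log n - x) := by field_simp
      _ ≤ Real.exp (-(Real.log n - x) ^ 2 / 2) := by
          unfold Pool.Agent.LibMaier.gw
          apply div_le_self (Real.exp_pos _).le
          apply Real.le_sqrt_of_sq_le
          have := Real.pi_gt_three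
          linarith
      _ ≤ Real.exp (-(8 * x ^ 2 / 25)) := by
          apply Real.exp_le_exp.2
          nlinarith
  refine (Finset.sum_le_sum h2).trans ?_
  rw [Finset.sum_const, Nat.card_Icc, nsmul_eq_mul]
  calc ((U + 1 - 1 : ℕ) : ℝ) * Real.exp (-(8 * x ^ 2 / 25))
      ≤ Real.exp (x / 5) * Real.exp (-(8 * x ^ 2 / 25)) := by
        apply mul_le_mul_of_nonneg_right _ (Real.exp_pos _).le
        simpa using hU
    _ = Real.exp (x / 5 + -(8 * x ^ 2 / 25)) := by rw [Real.exp_add]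
    _ ≤ Real.exp (-x) := Real.exp_le_exp.2 (by nlinarith)

open scoped Classical in
theorem typeI_le : ∃ C : ℝ, 0 < C ∧ ∀ (q : ℕ) [NeZero q] (χ : DirichletCharacter ℂ q) (lam : ℝ) (U : ℕ) (x : ℝ),
    1 ≤ U → 4 ≤ x → (U : ℝ) ≤ Real.exp (x / 5) →
    ‖GS (tw χ lam * (fun n : ℕ ↦ (Λ n : ℂ))) x‖ ≤
      C * q * (1 + |lam|) * (x + 1) ^ 2 * Real.exp (-x) * (U : ℝ) ^ 2 +
      (if χ = 1 then C * x ^ 3 * (1 + |lam|) * Real.exp (-(lam ^ 2 / 2)) else 0) +
      ‖GS (LSeries.convolution (high U (tw χ lam * (fun n : ℕ ↦ (Λ n : ℂ)))) (tw χ lam * beta U)) x‖ := by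
  classical
  obtain ⟨C1, hC1, H1⟩ := tw_GS
  obtain ⟨C2, hC2, H2⟩ := tw_GS_log
  refine ⟨3 + C1 + C2, by positivity, ?_⟩
  intro q _ χ lam U x hU1 hx hU
  have hq : (1 : ℝ) ≤ q := by exact_mod_cast Nat.one_le_iff_ne_zero.2 (NeZero.ne q)
  have hUR : (1 : ℝ) ≤ U := by exact_mod_cast hU1
  have hx0 : 0 < x := by linarith
  have hl0 : 0 ≤ |lam| := abs_nonneg _
  obtain ⟨mb, hmb⟩ : ∃ mb : ℝ, mb = if χ = 1 then Real.exp (-(lam ^ 2 / 2)) else 0 := ⟨_, rfl⟩
  have hmb0 : 0 ≤ mb := by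
    rw [hmb]
    split_ifs
    · exact (Real.exp_pos _).le
    · exact le_rfl
  have hmain : ∀ y, ‖mainI χ lam y‖ ≤ mb := fun y => by
    rw [hmb]
    exact ca7_norm_mainI_le' χ lam y
  -- the two bounds
  have hT : ∀ y : ℝ, 0 ≤ y → ‖GS (tw χ lam) y‖ ≤ C1 * q * (1 + |lam|) * Real.exp (-y) + mb := by
    intro y hy
    have h1 := H1 q χ lam y hy
    have h2 := norm_add_le (GS (tw χ lam) y - mainI χ lam y) (mainI χ lam y)
    rw [sub_add_cancel] at h2
    linarith [hmain y]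
  have hG : ∀ y : ℝ, 0 ≤ y → ‖GS (tw χ lam * (fun n : ℕ ↦ (Complex.log n : ℂ))) y‖ ≤
      C2 * q * (1 + |lam|) * (1 + y) * Real.exp (-y) + (y + |lam|) * mb := by
    intro y hy
    have h1 := H2 q χ lam y hy
    have h2 := norm_add_le (GS (tw χ lam * (fun n : ℕ ↦ (Complex.log n : ℂ))) y -
      ((y : ℂ) + lam * I) * mainI χ lam y) (((y : ℂ) + lam * I) * mainI χ lam y)
    rw [sub_add_cancel] at h2
    have h3 : ‖((y : ℂ) + lam * I) * mainI χ lam y‖ ≤ (y + |lam|) * mb := by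
      rw [norm_mul]
      apply mul_le_mul _ (hmain y) (norm_nonneg _) (by positivity)
      refine (norm_add_le _ _).trans ?_
      rw [norm_mul, Complex.norm_I, mul_one, Complex.norm_real, Complex.norm_real,
        Real.norm_eq_abs, Real.norm_eq_abs, abs_of_nonneg hy]
    linarith
  have hlogn : ∀ n ∈ Icc 1 U, 0 ≤ Real.log n ∧ Real.log n ≤ x / 5 := by
    intro n hn
    obtain ⟨hn1, hn2⟩ := Finset.mem_Icc.1 hn
    have hnR : (1 : ℝ) ≤ n := by exact_mod_cast hn1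
    refine ⟨Real.log_nonneg hnR, ?_⟩
    rw [Real.log_le_iff_le_exp (by linarith)]
    exact le_trans (by exact_mod_cast hn2) hU
  have hexp : ∀ n ∈ Icc 1 U, ∀ y : ℝ, 1 / (n : ℝ) * Real.exp (-(y - Real.log n)) = Real.exp (-y) := by
    intro n hn y
    obtain ⟨hn1, hn2⟩ := Finset.mem_Icc.1 hn
    have hnR : (0 : ℝ) < n := by exact_mod_cast hn1
    rw [show -(y - Real.log n) = -y + Real.log n by ring, Real.exp_add, Real.exp_log hnR]
    field_simp
  have hharm : ∑ n ∈ Icc 1 U, (1 : ℝ) / n ≤ 1 + x / 5 := by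
    have h1 : ∑ n ∈ Icc 1 U, (1 : ℝ) / n ≤ 1 + Real.log U := Pool.Agent.LibMaier.Hs_le
    have h2 := (hlogn U (Finset.mem_Icc.2 ⟨hU1, le_rfl⟩)).2
    linarith
  have hμ : ∀ n, ‖low U (tw χ lam * (fun n : ℕ ↦ (μ n : ℂ))) n‖ ≤ 1 := by
    intro n
    refine (Pool.Agent.LibPL63.norm_low_le _ _ _).trans ?_
    rw [Pi.mul_apply, norm_mul]
    refine mul_le_one₀ (norm_tw_le χ lam n) (norm_nonneg _) ?_
    rw [Complex.norm_intCast]
    exact_mod_cast ArithmeticFunction.abs_moebius_le_one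
  have hlow : ∀ f : ℕ → ℂ, ∀ n, U < n → low U f n = 0 := by
    intro f n hn
    rw [low, if_neg (by omega)]
  set R := (q : ℝ) * (1 + |lam|) with hR
  have hR1 : 1 ≤ R := by
    rw [hR]
    nlinarith
  have hR0 : 0 ≤ R := by linarith
  -- the four parts
  have b1 := ca7_GS_low_le χ lam hx hU
  have b2 : ‖GS (LSeries.convolution (low U (tw χ lam * (fun n : ℕ ↦ (μ n : ℂ))))
      (tw χ lam * (fun n : ℕ ↦ (Complex.log n : ℂ)))) x‖ ≤
      U * (C2 * R * (1 + x) * Real.exp (-x)) + (1 + x / 5) * ((x + |lam|) * mb) := by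
    rw [Pool.Agent.LibPL63.GS_conv_fin _ _ U (hlow _) (summable_twLog χ lam one_pos)]
    refine (norm_sum_le _ _).trans ?_
    have h1 : ∀ n ∈ Icc 1 U, ‖low U (tw χ lam * (fun n : ℕ ↦ (μ n : ℂ))) n / n *
        GS (tw χ lam * (fun n : ℕ ↦ (Complex.log n : ℂ))) (x - Real.log n)‖ ≤
        C2 * R * (1 + x) * Real.exp (-x) + 1 / (n : ℝ) * ((x + |lam|) * mb) := by
      intro n hn
      obtain ⟨h2, h3⟩ := hlogn n hn
      have hn1 : (0 : ℝ) < n := by exact_mod_cast (Finset.mem_Icc.1 hn).1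
      have hy : 0 ≤ x - Real.log n := by linarith
      have hE := hexp n hn x
      have hE0 : 0 < Real.exp (-(x - Real.log n)) := Real.exp_pos _
      rw [norm_mul, norm_div, Complex.norm_natCast]
      calc ‖low U (tw χ lam * (fun n : ℕ ↦ (μ n : ℂ))) n‖ / n *
            ‖GS (tw χ lam * (fun n : ℕ ↦ (Complex.log n : ℂ))) (x - Real.log n)‖
          ≤ 1 / n * (C2 * q * (1 + |lam|) * (1 + (x - Real.log n)) *
              Real.exp (-(x - Real.log n)) + ((x - Real.log n) + |lam|) * mb) := by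
            apply mul_le_mul (div_le_div_of_nonneg_right (hμ n) hn1.le) (hG _ hy)
              (norm_nonneg _) (by positivity)
        _ = C2 * R * (1 + (x - Real.log n)) * (1 / (n : ℝ) * Real.exp (-(x - Real.log n))) +
              1 / (n : ℝ) * (((x - Real.log n) + |lam|) * mb) := by rw [hR]; ring
        _ = C2 * R * (1 + (x - Real.log n)) * Real.exp (-x) +
              1 / (n : ℝ) * (((x - Real.log n) + |lam|) * mb) := by rw [hE]
        _ ≤ C2 * R * (1 + x) * Real.exp (-x) + 1 / (n : ℝ) * ((x + |lam|) * mb) := by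
            apply add_le_add
            · apply mul_le_mul_of_nonneg_right _ (Real.exp_pos _).le
              exact mul_le_mul_of_nonneg_left (by linarith) (by positivity)
            · apply mul_le_mul_of_nonneg_left _ (by positivity)
              exact mul_le_mul_of_nonneg_right (by linarith) hmb0
    refine (Finset.sum_le_sum h1).trans ?_
    rw [Finset.sum_add_distrib, Finset.sum_const, Nat.card_Icc, nsmul_eq_mul, ← Finset.sum_mul]
    apply add_le_add
    · simp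
    · exact mul_le_mul_of_nonneg_right hharm (by positivity)
  have b3' : ∀ y : ℝ, x / 5 ≤ y →
      ‖GS (LSeries.convolution (low U (tw χ lam * (fun n : ℕ ↦ (μ n : ℂ)))) (tw χ lam)) y‖ ≤
      U * (C1 * R * Real.exp (-y)) + (1 + x / 5) * mb := by
    intro y hy
    rw [Pool.Agent.LibPL63.GS_conv_fin _ _ U (hlow _) (summable_tw χ lam one_pos)]
    refine (norm_sum_le _ _).trans ?_
    have h1 : ∀ n ∈ Icc 1 U, ‖low U (tw χ lam * (fun n : ℕ ↦ (μ n : ℂ))) n / n *
        GS (tw χ lam) (y - Real.log n)‖ ≤ C1 * R * Real.exp (-y) + 1 / (n : ℝ) * mb := by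
      intro n hn
      obtain ⟨h2, h3⟩ := hlogn n hn
      have hn1 : (0 : ℝ) < n := by exact_mod_cast (Finset.mem_Icc.1 hn).1
      have hE := hexp n hn y
      rw [norm_mul, norm_div, Complex.norm_natCast]
      calc ‖low U (tw χ lam * (fun n : ℕ ↦ (μ n : ℂ))) n‖ / n * ‖GS (tw χ lam) (y - Real.log n)‖
          ≤ 1 / n * (C1 * q * (1 + |lam|) * Real.exp (-(y - Real.log n)) + mb) := by
            apply mul_le_mul (div_le_div_of_nonneg_right (hμ n) hn1.le)
              (hT _ (by linarith)) (norm_nonneg _) (by positivity)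
        _ = C1 * R * (1 / (n : ℝ) * Real.exp (-(y - Real.log n))) + 1 / (n : ℝ) * mb := by
            rw [hR]; ring
        _ = C1 * R * Real.exp (-y) + 1 / (n : ℝ) * mb := by rw [hE]
    refine (Finset.sum_le_sum h1).trans ?_
    rw [Finset.sum_add_distrib, Finset.sum_const, Nat.card_Icc, nsmul_eq_mul, ← Finset.sum_mul]
    apply add_le_add
    · simp
    · exact mul_le_mul_of_nonneg_right hharm hmb0
  have b3 : ‖GS (LSeries.convolution (low U (tw χ lam * (fun n : ℕ ↦ (Λ n : ℂ))))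
      (LSeries.convolution (low U (tw χ lam * (fun n : ℕ ↦ (μ n : ℂ)))) (tw χ lam))) x‖ ≤
      U * (x / 5 * (U * (C1 * R * Real.exp (-x)))) +
        (1 + x / 5) * (x / 5 * ((1 + x / 5) * mb)) := by
    have hGS : LSeriesSummable (low U (tw χ lam * (fun n : ℕ ↦ (μ n : ℂ)))) ((1 : ℂ) + (1 : ℝ)) :=
      Pool.Agent.LibPL63.summable_of_norm_le (Pool.Agent.LibPL63.norm_low_le U _)
        (summable_twMu χ lam one_pos)
    rw [Pool.Agent.LibPL63.GS_conv_fin _ _ U (hlow _)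
      (hGS.convolution (summable_tw χ lam one_pos))]
    refine (norm_sum_le _ _).trans ?_
    have h1 : ∀ n ∈ Icc 1 U, ‖low U (tw χ lam * (fun n : ℕ ↦ (Λ n : ℂ))) n / n *
        GS (LSeries.convolution (low U (tw χ lam * (fun n : ℕ ↦ (μ n : ℂ)))) (tw χ lam))
          (x - Real.log n)‖ ≤ x / 5 * (U * (C1 * R * Real.exp (-x))) +
            1 / (n : ℝ) * (x / 5 * ((1 + x / 5) * mb)) := by
      intro n hn
      obtain ⟨h2, h3⟩ := hlogn n hn
      have hn1 : (0 : ℝ) < n := by exact_mod_cast (Finset.mem_Icc.1 hn).1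
      have hE := hexp n hn x
      have hΛ : ‖low U (tw χ lam * (fun n : ℕ ↦ (Λ n : ℂ))) n‖ ≤ x / 5 := by
        refine (Pool.Agent.LibPL63.norm_low_le _ _ _).trans ?_
        refine (ca7_norm_twL_le χ lam n).trans ?_
        exact ArithmeticFunction.vonMangoldt_le_log.trans h3
      rw [norm_mul, norm_div, Complex.norm_natCast]
      calc ‖low U (tw χ lam * (fun n : ℕ ↦ (Λ n : ℂ))) n‖ / n *
            ‖GS (LSeries.convolution (low U (tw χ lam * (fun n : ℕ ↦ (μ n : ℂ)))) (tw χ lam))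
              (x - Real.log n)‖
          ≤ (x / 5) / n * (U * (C1 * R * Real.exp (-(x - Real.log n))) + (1 + x / 5) * mb) := by
            apply mul_le_mul (div_le_div_of_nonneg_right hΛ hn1.le) (b3' _ (by linarith))
              (norm_nonneg _) (by positivity)
        _ = x / 5 * (U * (C1 * R * (1 / (n : ℝ) * Real.exp (-(x - Real.log n))))) +
            1 / (n : ℝ) * (x / 5 * ((1 + x / 5) * mb)) := by ring
        _ = x / 5 * (U * (C1 * R * Real.exp (-x))) +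
            1 / (n : ℝ) * (x / 5 * ((1 + x / 5) * mb)) := by rw [hE]
    refine (Finset.sum_le_sum h1).trans ?_
    rw [Finset.sum_add_distrib, Finset.sum_const, Nat.card_Icc, nsmul_eq_mul, ← Finset.sum_mul]
    apply add_le_add
    · simp
    · exact mul_le_mul_of_nonneg_right hharm (by positivity)
  rw [vaughan_tw χ lam U x]
  have hE : 0 < Real.exp (-x) := Real.exp_pos _
  have hU2 : (U : ℝ) ≤ (U : ℝ) ^ 2 := by nlinarith
  have hU3 : (1 : ℝ) ≤ (U : ℝ) ^ 2 := by nlinarith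
  set Z := R * (x + 1) ^ 2 * Real.exp (-x) * (U : ℝ) ^ 2 with hZ
  have hZ0 : 0 ≤ Z := by positivity
  have hx1 : (1 : ℝ) ≤ (x + 1) ^ 2 := by nlinarith
  have hx2 : x + 1 ≤ (x + 1) ^ 2 := by nlinarith
  have c1 : Real.exp (-x) ≤ Z := by
    have h1 : 1 ≤ R * (x + 1) ^ 2 * (U : ℝ) ^ 2 := by
      have h2 : 1 ≤ R * (x + 1) ^ 2 := one_le_mul_of_one_le_of_one_le hR1 hx1
      exact one_le_mul_of_one_le_of_one_le h2 hU3
    calc Real.exp (-x) = 1 * Real.exp (-x) := (one_mul _).symm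
      _ ≤ (R * (x + 1) ^ 2 * (U : ℝ) ^ 2) * Real.exp (-x) := mul_le_mul_of_nonneg_right h1 hE.le
      _ = Z := by rw [hZ]; ring
  have c2 : U * (C2 * R * (1 + x) * Real.exp (-x)) ≤ C2 * Z := by
    have h1 : (U : ℝ) * (1 + x) ≤ (U : ℝ) ^ 2 * (x + 1) ^ 2 := by
      apply mul_le_mul hU2 (by linarith) (by positivity) (by positivity)
    calc U * (C2 * R * (1 + x) * Real.exp (-x)) = C2 * R * Real.exp (-x) * (U * (1 + x)) := by ring
      _ ≤ C2 * R * Real.exp (-x) * ((U : ℝ) ^ 2 * (x + 1) ^ 2) :=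
          mul_le_mul_of_nonneg_left h1 (by positivity)
      _ = C2 * Z := by rw [hZ]; ring
  have c3 : U * (x / 5 * (U * (C1 * R * Real.exp (-x)))) ≤ C1 * Z := by
    have h1 : x / 5 ≤ (x + 1) ^ 2 := by nlinarith
    calc U * (x / 5 * (U * (C1 * R * Real.exp (-x)))) =
          C1 * R * Real.exp (-x) * (U : ℝ) ^ 2 * (x / 5) := by ring
      _ ≤ C1 * R * Real.exp (-x) * (U : ℝ) ^ 2 * (x + 1) ^ 2 :=
          mul_le_mul_of_nonneg_left h1 (by positivity)
      _ = C1 * Z := by rw [hZ]; ring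
  set Y := x ^ 3 * (1 + |lam|) * mb with hY
  have hY0 : 0 ≤ Y := by positivity
  have hx5 : 1 + x / 5 ≤ x := by linarith
  have c4 : (1 + x / 5) * ((x + |lam|) * mb) ≤ Y := by
    have h1 : x + |lam| ≤ x * (1 + |lam|) := by nlinarith
    have h2 : (1 + x / 5) * (x + |lam|) ≤ x * (x * (1 + |lam|)) :=
      mul_le_mul hx5 h1 (by positivity) hx0.le
    have h3 : x * (x * (1 + |lam|)) ≤ x ^ 3 * (1 + |lam|) := by
      have h4 : x ^ 2 ≤ x ^ 3 := by nlinarith [sq_nonneg x]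
      calc x * (x * (1 + |lam|)) = x ^ 2 * (1 + |lam|) := by ring
        _ ≤ x ^ 3 * (1 + |lam|) := mul_le_mul_of_nonneg_right h4 (by positivity)
    calc (1 + x / 5) * ((x + |lam|) * mb) = ((1 + x / 5) * (x + |lam|)) * mb := by ring
      _ ≤ (x ^ 3 * (1 + |lam|)) * mb := mul_le_mul_of_nonneg_right (h2.trans h3) hmb0
      _ = Y := hY.symm
  have c5 : (1 + x / 5) * (x / 5 * ((1 + x / 5) * mb)) ≤ Y := by
    have h1 : (1 + x / 5) * (x / 5) * (1 + x / 5) ≤ x ^ 3 := by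
      have h2 : (1 + x / 5) * (x / 5) ≤ x * x := mul_le_mul hx5 (by linarith) (by positivity) hx0.le
      calc (1 + x / 5) * (x / 5) * (1 + x / 5) ≤ x * x * x :=
            mul_le_mul h2 hx5 (by positivity) (by positivity)
        _ = x ^ 3 := by ring
    have h3 : x ^ 3 ≤ x ^ 3 * (1 + |lam|) := by
      have : 0 ≤ x ^ 3 * |lam| := by positivity
      nlinarith
    calc (1 + x / 5) * (x / 5 * ((1 + x / 5) * mb)) =
          ((1 + x / 5) * (x / 5) * (1 + x / 5)) * mb := by ring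
      _ ≤ (x ^ 3 * (1 + |lam|)) * mb := mul_le_mul_of_nonneg_right (h1.trans h3) hmb0
      _ = Y := hY.symm
  have hif : (if χ = 1 then (3 + C1 + C2) * x ^ 3 * (1 + |lam|) * Real.exp (-(lam ^ 2 / 2)) else 0) =
      (3 + C1 + C2) * Y := by
    rw [hY, hmb]
    split_ifs
    · ring
    · ring
  have hZ' : (3 + C1 + C2) * q * (1 + |lam|) * (x + 1) ^ 2 * Real.exp (-x) * (U : ℝ) ^ 2 =
      (3 + C1 + C2) * Z := by
    rw [hZ, hR]
    ring
  rw [hif, hZ']
  refine (norm_add_le _ _).trans ?_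
  refine add_le_add ?_ le_rfl
  refine (norm_sub_le _ _).trans ?_
  refine (add_le_add (norm_add_le _ _) le_rfl).trans ?_
  have hC1Y : 0 ≤ (1 + C1 + C2) * Y := by positivity
  calc _ ≤ Real.exp (-x) + (U * (C2 * R * (1 + x) * Real.exp (-x)) +
        (1 + x / 5) * ((x + |lam|) * mb)) + (U * (x / 5 * (U * (C1 * R * Real.exp (-x)))) +
        (1 + x / 5) * (x / 5 * ((1 + x / 5) * mb))) := add_le_add (add_le_add b1 b2) b3
    _ ≤ Z + (C2 * Z + Y) + (C1 * Z + Y) := by linarith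
    _ ≤ (3 + C1 + C2) * Z + (3 + C1 + C2) * Y := by nlinarith

end Pool.Agent.LibHG31
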