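import Pool.Agent.LibHG31.CA2
import Pool.Agent.LibHG31.CA3

/-! ROW CA8: type II sums over the family. -/

namespace Pool.Agent.LibHG31

open Finset Complex
open scoped ArithmeticFunction.vonMangoldt ArithmeticFunction.Moebius
open Pool.Agent.LibPL63 (GS low high beta N2)

theorem ca8_LSeries_tw {q : ℕ} (χ : DirichletCharacter ℂ q) (lam : ℝ) (a : ℕ → ℂ) (ha0 : a 0 = 0) (s : ℂ) :
    LSeries (tw χ lam * a) s = ∑' n : ℕ, a n * (n : ℂ) ^ (-s) * tw χ lam n := by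
  unfold LSeries
  apply tsum_congr
  intro n
  rcases eq_or_ne n 0 with rfl | hn
  · simp [ha0]
  · rw [LSeries.term_of_ne_zero hn, Pi.mul_apply, Complex.cpow_neg, div_eq_mul_inv]
    ring

theorem ca8_high_tw {q : ℕ} (χ : DirichletCharacter ℂ q) (lam : ℝ) (U : ℕ) (f : ℕ → ℂ) :
    high U (tw χ lam * f) = tw χ lam * high U f := by
  funext n
  simp only [high, Pi.mul_apply]
  split_ifs <;> simp

theorem typeII_le (q : ℕ) [NeZero q] (T : ℕ) (θ : ℝ) (hT : 1 ≤ T) (i0 : ℕ) (hi0 : q * T ≤ 2 ^ i0)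
    {x : ℝ} (hx : 1 ≤ x) :
    ∑ r ∈ Fam q T, ‖GS (LSeries.convolution
      (high (2 ^ i0) (tw r.1 ((r.2 : ℝ) + θ) * (fun n : ℕ ↦ (Λ n : ℂ))))
      (tw r.1 ((r.2 : ℝ) + θ) * beta (2 ^ i0))) x‖ ≤ 10 ^ 9 * x ^ 6 := by
  classical
  have hx0 : 0 < x := by linarith
  set σ : ℝ := 1 / x with hσ
  have hσ0 : 0 < σ := by positivity
  have hσ1 : σ ≤ 1 := by rw [hσ, div_le_one hx0]; exact hx
  have hw : ∀ t : ℝ, ((σ : ℂ) + t * I).re = σ := fun t => by simp
  have hΛs : LSeriesSummable (high (2 ^ i0) (fun n : ℕ ↦ (Λ n : ℂ))) ((1 : ℂ) + σ) :=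
    LibPL63.summable_of_norm_le (LibPL63.norm_high_le _ _)
      (ArithmeticFunction.LSeriesSummable_vonMangoldt (by simp; exact hσ0))
  have hβs := LibPL63.summable_beta (2 ^ i0) hσ0
  have h1le : 1 ≤ 2 ^ i0 := Nat.one_le_two_pow
  have hA0 : high (2 ^ i0) (fun n => (Λ n : ℂ)) 0 = 0 := by rw [high, if_pos (Nat.zero_le _)]
  have hB0 : beta (2 ^ i0) 0 = 0 := LibPL63.beta_eq_zero (Nat.zero_le _)
  have hA : ∀ t : ℝ, N2 (Fam q T) (fun r => LSeries (high (2 ^ i0)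
      (tw r.1 ((r.2 : ℝ) + θ) * (fun n : ℕ ↦ (Λ n : ℂ)))) (1 + ((σ : ℂ) + t * I))) ≤
      5000 * x ^ 3 := by
    intro t
    have h := line_one q T θ hT i0 hi0 (high (2 ^ i0) (fun n => (Λ n : ℂ)))
      (fun n hn => by rw [high, if_pos hn.le]) (fun i => ?_) (w := (σ : ℂ) + t * I)
      (by rw [hw]; exact hσ0) (by rw [hw]; exact hσ1)
      (LibPL63.summable_norm_of_LSeries hA0 (LibPL63.summable_line _ hΛs t))
    · rw [hw] at h
      have h2 : 5000 / σ ^ 3 = 5000 * x ^ 3 := by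
        rw [hσ]
        field_simp
      rw [h2] at h
      refine le_trans (le_of_eq ?_) h
      congr 1
      funext r
      rw [ca8_high_tw, ca8_LSeries_tw _ _ _ hA0]
    · refine le_trans (Finset.sum_le_sum fun n _ => ?_) (LibPL63.blockA_le i)
      apply div_le_div_of_nonneg_right _ (Nat.cast_nonneg n)
      apply pow_le_pow_left₀ (norm_nonneg _)
      refine (LibPL63.norm_high_le _ _ _).trans ?_
      rw [Complex.norm_real, Real.norm_eq_abs, abs_of_nonneg ArithmeticFunction.vonMangoldt_nonneg]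
  have hB : ∀ t : ℝ, N2 (Fam q T) (fun r => LSeries (tw r.1 ((r.2 : ℝ) + θ) * beta (2 ^ i0))
      (1 + ((σ : ℂ) + t * I))) ≤ 5000 * x ^ 3 := by
    intro t
    have h := line_one q T θ hT i0 hi0 (beta (2 ^ i0))
      (fun n hn => LibPL63.beta_eq_zero hn.le) (fun i => ?_) (w := (σ : ℂ) + t * I)
      (by rw [hw]; exact hσ0) (by rw [hw]; exact hσ1)
      (LibPL63.summable_norm_of_LSeries hB0 (LibPL63.summable_line _ hβs t))
    · rw [hw] at h
      have h2 : 5000 / σ ^ 3 = 5000 * x ^ 3 := by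
        rw [hσ]
        field_simp
      rw [h2] at h
      refine le_trans (le_of_eq ?_) h
      congr 1
      funext r
      rw [ca8_LSeries_tw _ _ _ hB0]
    · refine le_trans (Finset.sum_le_sum fun n _ => ?_) (LibPL63.blockB_le i)
      apply div_le_div_of_nonneg_right _ (Nat.cast_nonneg n)
      exact pow_le_pow_left₀ (norm_nonneg _) (LibPL63.norm_beta_le h1le n) 2
  have hsA : ∀ r ∈ Fam q T, LSeriesSummable (high (2 ^ i0)
      (tw r.1 ((r.2 : ℝ) + θ) * (fun n : ℕ ↦ (Λ n : ℂ)))) ((1 : ℂ) + σ) := fun r _ =>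
    LibPL63.summable_of_norm_le (LibPL63.norm_high_le _ _) (summable_twL r.1 _ hσ0)
  have hsB : ∀ r ∈ Fam q T, LSeriesSummable (tw r.1 ((r.2 : ℝ) + θ) * beta (2 ^ i0)) ((1 : ℂ) + σ) := fun r _ =>
    LibPL63.summable_of_norm_le (fun n => by
      rw [Pi.mul_apply, norm_mul]
      exact mul_le_of_le_one_left (norm_nonneg _) (norm_tw_le r.1 _ _)) hβs
  have h := LibPL63.bilinear_family (Fam q T)
    (fun r => high (2 ^ i0) (tw r.1 ((r.2 : ℝ) + θ) * (fun n : ℕ ↦ (Λ n : ℂ))))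
    (fun r => tw r.1 ((r.2 : ℝ) + θ) * beta (2 ^ i0)) hσ0 hsA hsB hA hB x
  refine h.trans ?_
  have h3 : Real.exp (σ ^ 2 / 2 + σ * x) ≤ 8 := by
    refine le_trans (Real.exp_le_exp.2 ?_) Pool.Agent.LibMaier.exp_two_le
    have h4 : σ * x = 1 := by
      rw [hσ]
      field_simp
    rw [h4]
    nlinarith
  calc Real.exp (σ ^ 2 / 2 + σ * x) * (5000 * x ^ 3 * (5000 * x ^ 3))
      ≤ 8 * (5000 * x ^ 3 * (5000 * x ^ 3)) := mul_le_mul_of_nonneg_right h3 (by positivity)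
    _ ≤ 10 ^ 9 * x ^ 6 := by
        have : 0 ≤ x ^ 6 := by positivity
        nlinarith

end Pool.Agent.LibHG31
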