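import Pool.Agent.LibHG31.CA7
import Pool.Agent.LibHG31.CA8

/-! ROW CA9: the `ℓ¹` bound for `Λ`.
PLAN: as `LibPL63.sum_SS_le` (B0i.lean): `N = ⌊e^{x/5}⌋`, `i0 = Nat.log 2 N`, `U = 2^i0`; `q T ≤ e^{x/40} ≤ 2^i0`;
`typeI_le` + `typeII_le`. First part: `#Fam ≤ q(2T+1) ≤ 3qT` (`LibMaier.card_chars_le`), `q(1+|λ|) ≤ q(2+T) ≤ 3qT`:
`≤ 9C (qT)² (x+1)² e^{-x+2x/5} ≤ C'`. Second part: `∑_{|m|≤T} (1+|m+θ|) e^{-(m+θ)²/2} ≤ C` uniformly (`0 ≤ θ ≤ 1`). -/

namespace Pool.Agent.LibHG31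

open Finset Complex
open scoped ArithmeticFunction.vonMangoldt
open Pool.Agent.LibPL63 (GS)

private theorem ca9_geom (T : ℕ) {r : ℝ} (h0 : 0 ≤ r) (h1 : r < 1) (A : Finset ℤ)
    (hA : ∀ m ∈ A, m.natAbs ≤ T) (hinj : Set.InjOn Int.natAbs A) :
    ∑ m ∈ A, r ^ m.natAbs ≤ (1 - r)⁻¹ := by
  have h2 : ∑ m ∈ A, r ^ m.natAbs = ∑ k ∈ A.image Int.natAbs, r ^ k :=
    (Finset.sum_image (f := fun k => r ^ k) hinj).symm
  rw [h2, ← tsum_geometric_of_lt_one h0 h1]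
  exact (summable_geometric_of_lt_one h0 h1).sum_le_tsum _ fun k _ => pow_nonneg h0 k

private theorem ca9_point (m : ℤ) {θ : ℝ} (h0 : 0 ≤ θ) (h1 : θ ≤ 1) :
    (1 + |(m : ℝ) + θ|) * Real.exp (-(((m : ℝ) + θ) ^ 2 / 2)) ≤
      2 * Real.exp 1 * Real.exp (-(1 / 2)) ^ m.natAbs := by
  set y : ℝ := (m : ℝ) + θ with hy
  have e1 : 1 + |y| ≤ 2 * Real.exp (|y| / 2) := by
    have := Real.add_one_le_exp (|y| / 2)
    have h2 := abs_nonneg y
    linarith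
  have e2 : Real.exp (-(y ^ 2 / 2)) ≤ Real.exp (1 / 2 - |y|) := by
    apply Real.exp_le_exp.2
    have h2 : y ^ 2 = |y| ^ 2 := (sq_abs y).symm
    rw [h2]
    nlinarith [sq_nonneg (|y| - 1)]
  have e3 : |(m : ℝ)| - 1 ≤ |y| := by
    have h2 : |(m : ℝ)| ≤ |y| + |θ| := by
      have : (m : ℝ) = y - θ := by rw [hy]; ring
      rw [this]
      exact abs_sub _ _
    rw [abs_of_nonneg h0] at h2
    linarith
  have e4 : ((m.natAbs : ℕ) : ℝ) = |(m : ℝ)| := by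
    rw [Nat.cast_natAbs, Int.cast_abs]
  calc (1 + |y|) * Real.exp (-(y ^ 2 / 2)) ≤
        (2 * Real.exp (|y| / 2)) * Real.exp (1 / 2 - |y|) :=
        mul_le_mul e1 e2 (Real.exp_pos _).le (by positivity)
    _ = 2 * Real.exp (1 / 2 - |y| / 2) := by
        rw [mul_assoc, ← Real.exp_add]
        congr 2
        ring
    _ ≤ 2 * Real.exp (1 + (m.natAbs : ℝ) * (-(1 / 2))) := by
        rw [e4]
        have : 1 / 2 - |y| / 2 ≤ 1 + |(m : ℝ)| * (-(1 / 2)) := by linarith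
        linarith [Real.exp_le_exp.2 this]
    _ = 2 * Real.exp 1 * Real.exp (-(1 / 2)) ^ m.natAbs := by
        rw [Real.exp_add, Real.exp_nat_mul]
        ring

private theorem ca9_gauss : ∃ C : ℝ, 0 < C ∧ ∀ (T : ℕ) (θ : ℝ), 0 ≤ θ → θ ≤ 1 →
    ∑ m ∈ Icc (-(T : ℤ)) T, (1 + |(m : ℝ) + θ|) * Real.exp (-(((m : ℝ) + θ) ^ 2 / 2)) ≤ C := by
  have hr0 : 0 ≤ Real.exp (-(1 / 2)) := (Real.exp_pos _).le
  have hr1 : Real.exp (-(1 / 2)) < 1 := by
    rw [Real.exp_lt_one_iff]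
    norm_num
  have hr2 : 0 < (1 - Real.exp (-(1 / 2)))⁻¹ := inv_pos.2 (by linarith)
  refine ⟨2 * Real.exp 1 * ((1 - Real.exp (-(1 / 2)))⁻¹ + (1 - Real.exp (-(1 / 2)))⁻¹),
    by positivity, ?_⟩
  intro T θ h0 h1
  refine (Finset.sum_le_sum fun m _ => ca9_point m h0 h1).trans ?_
  rw [← Finset.mul_sum]
  apply mul_le_mul_of_nonneg_left _ (by positivity)
  rw [← Finset.sum_filter_add_sum_filter_not (Icc (-(T : ℤ)) T) (fun m => 0 ≤ m)]
  apply add_le_add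
  · apply ca9_geom T hr0 hr1
    · intro m hm
      rw [Finset.mem_filter, Finset.mem_Icc] at hm
      omega
    · intro m hm m' hm' h
      rw [Finset.mem_coe, Finset.mem_filter, Finset.mem_Icc] at hm hm'
      omega
  · apply ca9_geom T hr0 hr1
    · intro m hm
      rw [Finset.mem_filter, Finset.mem_Icc] at hm
      omega
    · intro m hm m' hm' h
      rw [Finset.mem_coe, Finset.mem_filter, Finset.mem_Icc] at hm hm'
      omega

theorem l1_disc : ∃ C : ℝ, 0 < C ∧ ∀ (q : ℕ) [NeZero q] (T : ℕ) (θ x : ℝ), 1 ≤ T → 0 ≤ θ → θ ≤ 1 →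
    60 ≤ x → (q : ℝ) * T ≤ Real.exp (x / 40) →
    ∑ r ∈ Fam q T, ‖GS (tw r.1 ((r.2 : ℝ) + θ) * (fun n : ℕ ↦ (Λ n : ℂ))) x‖ ≤ C * x ^ 6 := by
  classical
  obtain ⟨C1, hC1, hI⟩ := typeI_le
  obtain ⟨C2, hC2, hG⟩ := ca9_gauss
  refine ⟨36 * C1 + C1 * C2 + 10 ^ 9, by positivity, ?_⟩
  intro q _ T θ x hT hθ0 hθ1 hx hqT
  have hx0 : 0 < x := by linarith
  set N : ℕ := ⌊Real.exp (x / 5)⌋₊ with hN
  have hNle : (N : ℝ) ≤ Real.exp (x / 5) := Nat.floor_le (Real.exp_pos _).le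
  have hNlt : Real.exp (x / 5) < N + 1 := Nat.lt_floor_add_one _
  have hN0 : N ≠ 0 := by
    intro h
    rw [h] at hNlt
    have h2 : (1 : ℝ) < Real.exp (x / 5) := Real.one_lt_exp_iff.2 (by positivity)
    norm_num at hNlt
    linarith
  set i0 : ℕ := Nat.log 2 N with hi0
  have h1 : 2 ^ i0 ≤ N := Nat.pow_log_le_self 2 hN0
  have h2 : N < 2 ^ (i0 + 1) := Nat.lt_pow_succ_log_self (by norm_num) N
  have hU : ((2 ^ i0 : ℕ) : ℝ) ≤ Real.exp (x / 5) := le_trans (by exact_mod_cast h1) hNle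
  have hi : q * T ≤ 2 ^ i0 := by
    by_contra hcon
    push Not at hcon
    have h3 : N + 1 ≤ 2 * (q * T) := by
      have : 2 ^ (i0 + 1) = 2 * 2 ^ i0 := by rw [pow_succ]; ring
      omega
    have h4 : ((N : ℝ) + 1) ≤ 2 * ((q : ℝ) * T) := by exact_mod_cast h3
    have h6 : Real.exp (x / 5) = Real.exp (x / 40) * Real.exp (7 * x / 40) := by
      rw [← Real.exp_add]
      congr 1
      ring
    have h7 : 2 ≤ Real.exp (7 * x / 40) := by
      have h8 := Real.add_one_le_exp (7 * x / 40)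
      linarith
    have h9 : 0 < Real.exp (x / 40) := Real.exp_pos _
    nlinarith
  have hTR : (1 : ℝ) ≤ T := by exact_mod_cast hT
  have hqR : (0 : ℝ) ≤ q := Nat.cast_nonneg _
  set U : ℝ := ((2 ^ i0 : ℕ) : ℝ) with hUdef
  have hU0 : 0 ≤ U := Nat.cast_nonneg _
  have hII := typeII_le q T θ hT i0 hi (x := x) (by linarith)
  have hlam : ∀ r ∈ Fam q T, |(r.2 : ℝ) + θ| ≤ T + 1 := by
    intro r hr
    have h3 := (Finset.mem_product.1 hr).2
    rw [Finset.mem_Icc] at h3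
    have h4 : (-(T : ℝ)) ≤ (r.2 : ℝ) := by exact_mod_cast h3.1
    have h5 : (r.2 : ℝ) ≤ T := by exact_mod_cast h3.2
    rw [abs_le]
    constructor <;> linarith
  have hterm : ∀ r ∈ Fam q T,
      ‖GS (tw r.1 ((r.2 : ℝ) + θ) * (fun n : ℕ ↦ (Λ n : ℂ))) x‖ ≤
      C1 * q * (3 * T) * (x + 1) ^ 2 * Real.exp (-x) * U ^ 2 +
      (if r.1 = 1 then C1 * x ^ 3 * ((1 + |(r.2 : ℝ) + θ|) *
        Real.exp (-(((r.2 : ℝ) + θ) ^ 2 / 2))) else 0) +
      ‖GS (LSeries.convolution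
        (Pool.Agent.LibPL63.high (2 ^ i0) (tw r.1 ((r.2 : ℝ) + θ) * (fun n : ℕ ↦ (Λ n : ℂ))))
        (tw r.1 ((r.2 : ℝ) + θ) * Pool.Agent.LibPL63.beta (2 ^ i0))) x‖ := by
    intro r hr
    refine (hI q r.1 ((r.2 : ℝ) + θ) (2 ^ i0) x Nat.one_le_two_pow (by linarith) hU).trans ?_
    apply add_le_add _ le_rfl
    apply add_le_add
    · have h3 := hlam r hr
      have h4 : 1 + |(r.2 : ℝ) + θ| ≤ 3 * T := by linarith
      have h5 : 0 ≤ C1 * q := by positivity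
      have h6 : 0 ≤ (x + 1) ^ 2 * Real.exp (-x) * U ^ 2 := by positivity
      calc C1 * q * (1 + |(r.2 : ℝ) + θ|) * (x + 1) ^ 2 * Real.exp (-x) * U ^ 2
          = (C1 * q) * (1 + |(r.2 : ℝ) + θ|) * ((x + 1) ^ 2 * Real.exp (-x) * U ^ 2) := by ring
        _ ≤ (C1 * q) * (3 * T) * ((x + 1) ^ 2 * Real.exp (-x) * U ^ 2) :=
            mul_le_mul_of_nonneg_right (mul_le_mul_of_nonneg_left h4 h5) h6
        _ = _ := by ring
    · split_ifs with hc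
      · apply le_of_eq; ring
      · exact le_rfl
  refine (Finset.sum_le_sum hterm).trans ?_
  rw [Finset.sum_add_distrib, Finset.sum_add_distrib, Finset.sum_const, nsmul_eq_mul]
  -- cardinality
  have hcard : ((Fam q T).card : ℝ) ≤ 3 * (q * T) := by
    unfold Fam
    rw [Finset.card_product, Int.card_Icc]
    have h3 := Pool.Agent.LibMaier.card_chars_le q (univ : Finset (DirichletCharacter ℂ q))
    have h4 : ((T : ℤ) + 1 - -(T : ℤ)).toNat = 2 * T + 1 := by omega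
    rw [h4]
    have h5 : ((univ : Finset (DirichletCharacter ℂ q)).card * (2 * T + 1) : ℕ) ≤
        q * (3 * T) := Nat.mul_le_mul h3 (by omega)
    have h6 : (((univ : Finset (DirichletCharacter ℂ q)).card * (2 * T + 1) : ℕ) : ℝ) ≤
        ((q * (3 * T) : ℕ) : ℝ) := by exact_mod_cast h5
    refine h6.trans (le_of_eq ?_)
    push_cast
    ring
  have hpow : x ^ 2 ≤ x ^ 6 := pow_le_pow_right₀ (by linarith) (by norm_num)
  have hpow3 : x ^ 3 ≤ x ^ 6 := pow_le_pow_right₀ (by linarith) (by norm_num)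
  have hfirst : ((Fam q T).card : ℝ) * (C1 * q * (3 * T) * (x + 1) ^ 2 * Real.exp (-x) * U ^ 2) ≤
      36 * C1 * x ^ 6 := by
    have hqT0 : 0 ≤ (q : ℝ) * T := by positivity
    calc ((Fam q T).card : ℝ) * (C1 * q * (3 * T) * (x + 1) ^ 2 * Real.exp (-x) * U ^ 2)
        ≤ (3 * (q * T)) * (C1 * q * (3 * T) * (x + 1) ^ 2 * Real.exp (-x) * U ^ 2) :=
          mul_le_mul_of_nonneg_right hcard (by positivity)
      _ = 9 * C1 * (x + 1) ^ 2 * ((q * T) ^ 2 * Real.exp (-x) * U ^ 2) := by ring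
      _ ≤ 9 * C1 * (x + 1) ^ 2 *
          (Real.exp (x / 40) ^ 2 * Real.exp (-x) * Real.exp (x / 5) ^ 2) := by
          apply mul_le_mul_of_nonneg_left _ (by positivity)
          apply mul_le_mul _ (pow_le_pow_left₀ hU0 hU 2) (by positivity) (by positivity)
          exact mul_le_mul_of_nonneg_right (pow_le_pow_left₀ hqT0 hqT 2) (Real.exp_pos _).le
      _ = 9 * C1 * (x + 1) ^ 2 * Real.exp (-(11 * x / 20)) := by
          rw [← Real.exp_nat_mul, ← Real.exp_nat_mul, ← Real.exp_add, ← Real.exp_add]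
          congr 2
          push_cast
          ring
      _ ≤ 9 * C1 * (x + 1) ^ 2 * 1 := by
          apply mul_le_mul_of_nonneg_left _ (by positivity)
          exact Real.exp_le_one_iff.2 (by linarith)
      _ ≤ 9 * C1 * (4 * x ^ 2) * 1 := by
          have h3 : (x + 1) ^ 2 ≤ 4 * x ^ 2 := by nlinarith
          have h4 : 0 ≤ 9 * C1 := by positivity
          nlinarith [mul_le_mul_of_nonneg_left h3 h4]
      _ = 36 * C1 * x ^ 2 := by ring
      _ ≤ 36 * C1 * x ^ 6 := mul_le_mul_of_nonneg_left hpow (by positivity)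
  have hsecond : ∑ r ∈ Fam q T, (if r.1 = 1 then C1 * x ^ 3 * ((1 + |(r.2 : ℝ) + θ|) *
        Real.exp (-(((r.2 : ℝ) + θ) ^ 2 / 2))) else 0) ≤ C1 * C2 * x ^ 6 := by
    unfold Fam
    rw [Finset.sum_product, Finset.sum_eq_single (1 : DirichletCharacter ℂ q)]
    · simp only [if_true]
      rw [← Finset.mul_sum]
      calc C1 * x ^ 3 * ∑ m ∈ Icc (-(T : ℤ)) T, (1 + |(m : ℝ) + θ|) *
            Real.exp (-(((m : ℝ) + θ) ^ 2 / 2)) ≤ C1 * x ^ 3 * C2 :=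
            mul_le_mul_of_nonneg_left (hG T θ hθ0 hθ1) (by positivity)
        _ = C1 * C2 * x ^ 3 := by ring
        _ ≤ C1 * C2 * x ^ 6 := mul_le_mul_of_nonneg_left hpow3 (by positivity)
    · intro χ _ hχ
      apply Finset.sum_eq_zero
      intro m _
      simp only [if_neg hχ]
    · intro h
      exact absurd (Finset.mem_univ _) h
  calc _ ≤ 36 * C1 * x ^ 6 + C1 * C2 * x ^ 6 + 10 ^ 9 * x ^ 6 :=
        add_le_add (add_le_add hfirst hsecond) hII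
    _ = _ := by ring

/-- `∑_{|m| ≤ T} (1+|m+θ|) e^{-(m+θ)²/2}` is bounded -/
theorem gauss_sum_le : ∃ C : ℝ, 0 < C ∧ ∀ (T : ℕ) (θ : ℝ), 0 ≤ θ → θ ≤ 1 →
    ∑ m ∈ Icc (-(T : ℤ)) T, (1 + |(m : ℝ) + θ|) * Real.exp (-(((m : ℝ) + θ) ^ 2 / 2)) ≤ C := by
  exact ca9_gauss

end Pool.Agent.LibHG31
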