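import Pool.Agent.LibHG31.CA3
import Pool.Agent.LibMaier.Contour

/-! ROW CB1: twisted Gaussian sums inside a zero-free rectangle. -/

namespace Pool.Agent.LibHG31

open Finset Complex DirichletCharacter MeasureTheory
open scoped ArithmeticFunction.vonMangoldt
open Pool.Agent.LibPL63 (GS)
open Pool.Agent.LibMaier (LL LS)

/-- general contour shift with the Gaussian kernel -/
theorem cb1_contour {f : ℂ → ℂ} {a D M R x : ℝ} (ha0 : 0 < a) (ha1 : a ≤ 1) (hR0 : 0 ≤ R) (hx : 1 ≤ x)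
    (hfd : ∀ w : ℂ, -a ≤ w.re → w.re ≤ 1 / x → |w.im| ≤ R → DifferentiableAt ℂ f w)
    (hfb : ∀ w : ℂ, -a ≤ w.re → w.re ≤ 1 / x → |w.im| ≤ R → ‖f w‖ ≤ D)
    (hM : ∀ t : ℝ, ‖f (((1 / x : ℝ) : ℂ) + t * I)‖ ≤ M)
    (hm : AEStronglyMeasurable (fun t : ℝ => f (((1 / x : ℝ) : ℂ) + t * I)) volume) :
    ‖∫ t : ℝ, LibPL63.ker x (((1 / x : ℝ) : ℂ) + t * I) * f (((1 / x : ℝ) : ℂ) + t * I)‖ ≤
      4 * R * (Real.exp (-(a * x)) * D) + 32 * (Real.exp (-R ^ 2 / 2) * D) +
        32 * M * Real.exp (-R ^ 2 / 4) := by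
  set σ : ℝ := 1 / x with hσ
  have hσ0 : 0 < σ := by rw [hσ]; positivity
  have hσ1 : σ ≤ 1 := by rw [hσ, div_le_one (by linarith)]; exact hx
  have hσx : σ * x = 1 := by rw [hσ]; field_simp
  have hre : ∀ t : ℝ, ((σ : ℂ) + t * I).re = σ := fun t => by simp
  have hM0 : 0 ≤ M := (norm_nonneg _).trans (hM 0)
  have hD0 : 0 ≤ D := (norm_nonneg _).trans (hfb 0 (by simp; exact ha0.le) (by simpa using hσ0.le)
    (by simpa using hR0))
  set K : ℂ → ℂ := fun w => LibPL63.ker x w * f w with hK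
  have hker : ∀ s t : ℝ, ‖LibPL63.ker x ((s : ℂ) + t * I)‖ = Real.exp ((s ^ 2 - t ^ 2) / 2 + s * x) := by
    intro s t
    exact LibMaier.norm_kernel s t x
  have hkerd : Differentiable ℂ (LibPL63.ker x) := by
    unfold LibPL63.ker
    fun_prop
  have hint : Integrable fun t : ℝ => K ((σ : ℂ) + t * I) := by
    refine Integrable.mono' ((LibMaier.integrable_kernel σ x).norm.mul_const M) ?_ ?_
    · exact (LibMaier.integrable_kernel σ x).aestronglyMeasurable.mul hm
    · filter_upwards with t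
      simp only [hK]
      rw [norm_mul]
      exact mul_le_mul_of_nonneg_left (hM t) (norm_nonneg _)
  have hdiff : DifferentiableOn ℂ K ((Set.uIcc (-a) σ) ×ℂ (Set.uIcc (-R) R)) := by
    intro w hw
    rw [Complex.mem_reProdIm, Set.uIcc_of_le (by linarith), Set.uIcc_of_le (by linarith),
      Set.mem_Icc, Set.mem_Icc] at hw
    obtain ⟨⟨h1, h2⟩, h3, h4⟩ := hw
    exact ((hkerd w).mul (hfd w h1 h2 (abs_le.2 ⟨h3, h4⟩))).differentiableWithinAt
  have hrect := Complex.integral_boundary_rect_eq_zero_of_differentiableOn K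
    (((-a : ℝ) : ℂ) + ((-R : ℝ) : ℂ) * I) ((σ : ℂ) + (R : ℂ) * I) (by simpa using hdiff)
  have e1 : (((-a : ℝ) : ℂ) + ((-R : ℝ) : ℂ) * I).re = -a := by simp
  have e2 : (((-a : ℝ) : ℂ) + ((-R : ℝ) : ℂ) * I).im = -R := by simp
  have e3 : ((σ : ℂ) + (R : ℂ) * I).re = σ := by simp
  have e4 : ((σ : ℂ) + (R : ℂ) * I).im = R := by simp
  rw [e1, e2, e3, e4] at hrect
  -- bounds for the four sides
  have hbnd : ∀ w : ℂ, -a ≤ w.re → w.re ≤ σ → |w.im| ≤ R →
      ‖K w‖ ≤ Real.exp ((w.re ^ 2 - w.im ^ 2) / 2 + w.re * x) * D := by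
    intro w h1 h2 h3
    simp only [hK]
    rw [norm_mul]
    have h4 : ‖LibPL63.ker x w‖ = Real.exp ((w.re ^ 2 - w.im ^ 2) / 2 + w.re * x) := by
      have := hker w.re w.im
      rwa [Complex.re_add_im] at this
    rw [h4]
    exact mul_le_mul_of_nonneg_left (hfb w h1 h2 h3) (Real.exp_pos _).le
  have hleft : ‖∫ y : ℝ in (-R)..R, K (((-a : ℝ) : ℂ) + y * I)‖ ≤
      (2 * Real.exp (-(a * x)) * D) * |R - (-R)| := by
    apply intervalIntegral.norm_integral_le_of_norm_le_const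
    intro y hy
    rw [Set.uIoc_of_le (by linarith), Set.mem_Ioc] at hy
    have h1 := hbnd (((-a : ℝ) : ℂ) + y * I) (by simp) (by simp; linarith)
      (by simp; rw [abs_le]; constructor <;> linarith)
    refine h1.trans ?_
    apply mul_le_mul_of_nonneg_right _ hD0
    have h2 : (((-a : ℝ) : ℂ) + y * I).re = -a := by simp
    have h3 : (((-a : ℝ) : ℂ) + y * I).im = y := by simp
    rw [h2, h3]
    calc Real.exp (((-a) ^ 2 - y ^ 2) / 2 + -a * x)
        ≤ Real.exp (1 / 2 + -(a * x)) := by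
          apply Real.exp_le_exp.2
          nlinarith [sq_nonneg y]
      _ = Real.exp (1 / 2) * Real.exp (-(a * x)) := Real.exp_add _ _
      _ ≤ 2 * Real.exp (-(a * x)) := by
          have : Real.exp (1 / 2) ≤ 2 := by
            have h4 := Real.exp_one_lt_d9
            have h5 : Real.exp (1 / 2) * Real.exp (1 / 2) = Real.exp 1 := by
              rw [← Real.exp_add]; norm_num
            have h6 := Real.exp_pos (1 / 2)
            nlinarith
          gcongr
  have hhor : ∀ y : ℝ, |y| = R → ‖∫ u : ℝ in (-a)..σ, K ((u : ℂ) + y * I)‖ ≤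
      (8 * Real.exp (-R ^ 2 / 2) * D) * |σ - (-a)| := by
    intro y hy
    apply intervalIntegral.norm_integral_le_of_norm_le_const
    intro u hu
    rw [Set.uIoc_of_le (by linarith), Set.mem_Ioc] at hu
    have h1 := hbnd ((u : ℂ) + y * I) (by simp; linarith) (by simp; linarith)
      (by simp; rw [hy])
    refine h1.trans ?_
    apply mul_le_mul_of_nonneg_right _ hD0
    have h2 : ((u : ℂ) + y * I).re = u := by simp
    have h3 : ((u : ℂ) + y * I).im = y := by simp
    rw [h2, h3]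
    have h4 : y ^ 2 = R ^ 2 := by rw [← sq_abs, hy]
    have h5 : u * x ≤ 1 := by
      have : u * x ≤ σ * x := mul_le_mul_of_nonneg_right hu.2 (by linarith)
      linarith
    have h6 : u ^ 2 ≤ 1 := by nlinarith
    calc Real.exp ((u ^ 2 - y ^ 2) / 2 + u * x)
        ≤ Real.exp (2 + -R ^ 2 / 2) := by
          apply Real.exp_le_exp.2
          rw [h4]
          linarith
      _ = Real.exp 2 * Real.exp (-R ^ 2 / 2) := Real.exp_add _ _
      _ ≤ 8 * Real.exp (-R ^ 2 / 2) := by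
          have := LibMaier.exp_two_le
          gcongr
  have hmid : ‖∫ y : ℝ in (-R)..R, K ((σ : ℂ) + y * I)‖ ≤
      (2 * Real.exp (-(a * x)) * D) * (2 * R) +
        2 * ((8 * Real.exp (-R ^ 2 / 2) * D) * 2) := by
    have hb := hhor R (abs_of_nonneg hR0)
    have ha := hhor (-R) (by rw [abs_neg, abs_of_nonneg hR0])
    have hlen : |σ - (-a)| ≤ 2 := by rw [abs_le]; constructor <;> linarith
    have h8 : 0 ≤ 8 * Real.exp (-R ^ 2 / 2) * D := by positivity
    have hb2 := hb.trans (mul_le_mul_of_nonneg_left hlen h8)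
    have ha2 := ha.trans (mul_le_mul_of_nonneg_left hlen h8)
    have hl : |R - (-R)| = 2 * R := by rw [abs_of_nonneg] <;> linarith
    rw [hl] at hleft
    have heq : I • ∫ y : ℝ in (-R)..R, K ((σ : ℂ) + y * I) =
        (I • ∫ y : ℝ in (-R)..R, K (((-a : ℝ) : ℂ) + y * I)) -
        (∫ u : ℝ in (-a)..σ, K ((u : ℂ) + ((-R : ℝ) : ℂ) * I)) +
        ∫ u : ℝ in (-a)..σ, K ((u : ℂ) + (R : ℂ) * I) := by
      linear_combination hrect
    have hn : ‖∫ y : ℝ in (-R)..R, K ((σ : ℂ) + y * I)‖ =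
        ‖I • ∫ y : ℝ in (-R)..R, K ((σ : ℂ) + y * I)‖ := by
      rw [norm_smul, Complex.norm_I, one_mul]
    rw [hn, heq]
    have hn2 : ‖I • ∫ y : ℝ in (-R)..R, K (((-a : ℝ) : ℂ) + y * I)‖ =
        ‖∫ y : ℝ in (-R)..R, K (((-a : ℝ) : ℂ) + y * I)‖ := by
      rw [norm_smul, Complex.norm_I, one_mul]
    refine (norm_add_le _ _).trans ?_
    have h9 := norm_sub_le (I • ∫ y : ℝ in (-R)..R, K (((-a : ℝ) : ℂ) + y * I))
      (∫ u : ℝ in (-a)..σ, K ((u : ℂ) + ((-R : ℝ) : ℂ) * I))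
    rw [hn2] at h9
    linarith
  have hmC : MeasurableSet (Set.Ioc (-R) R)ᶜ := measurableSet_Ioc.compl
  have htail : ‖∫ t in (Set.Ioc (-R) R)ᶜ, K ((σ : ℂ) + t * I)‖ ≤ 32 * M * Real.exp (-R ^ 2 / 4) := by
    calc ‖∫ t in (Set.Ioc (-R) R)ᶜ, K ((σ : ℂ) + t * I)‖
        ≤ ∫ t in (Set.Ioc (-R) R)ᶜ, ‖K ((σ : ℂ) + t * I)‖ := norm_integral_le_integral_norm _
      _ ≤ ∫ t in (Set.Ioc (-R) R)ᶜ, (8 * M * Real.exp (-R ^ 2 / 4)) * Real.exp (-t ^ 2 / 4) := by
          apply setIntegral_mono_on hint.norm.integrableOn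
            (LibMaier.integrable_gaussian_quarter.const_mul _).integrableOn hmC
          intro t ht
          have ht2 : R ^ 2 ≤ t ^ 2 := by
            rw [Set.mem_compl_iff, Set.mem_Ioc, not_and_or, not_lt, not_le] at ht
            rcases ht with h | h
            · nlinarith
            · nlinarith
          simp only [hK]
          rw [norm_mul, hker]
          have h2 : Real.exp ((σ ^ 2 - t ^ 2) / 2 + σ * x) ≤
              8 * Real.exp (-R ^ 2 / 4) * Real.exp (-t ^ 2 / 4) := by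
            calc Real.exp ((σ ^ 2 - t ^ 2) / 2 + σ * x)
                ≤ Real.exp (2 + -R ^ 2 / 4 + -t ^ 2 / 4) := by
                  apply Real.exp_le_exp.2
                  nlinarith
              _ = Real.exp 2 * Real.exp (-R ^ 2 / 4) * Real.exp (-t ^ 2 / 4) := by
                  rw [Real.exp_add, Real.exp_add]
              _ ≤ 8 * Real.exp (-R ^ 2 / 4) * Real.exp (-t ^ 2 / 4) := by
                  have := LibMaier.exp_two_le
                  gcongr
          calc Real.exp ((σ ^ 2 - t ^ 2) / 2 + σ * x) * ‖f ((σ : ℂ) + t * I)‖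
              ≤ (8 * Real.exp (-R ^ 2 / 4) * Real.exp (-t ^ 2 / 4)) * M := by
                have := hM t
                gcongr
            _ = _ := by ring
      _ ≤ ∫ t : ℝ, (8 * M * Real.exp (-R ^ 2 / 4)) * Real.exp (-t ^ 2 / 4) := by
          apply setIntegral_le_integral (LibMaier.integrable_gaussian_quarter.const_mul _)
          exact Filter.Eventually.of_forall fun t => by positivity
      _ = (8 * M * Real.exp (-R ^ 2 / 4)) * ∫ t : ℝ, Real.exp (-t ^ 2 / 4) :=
          integral_const_mul _ _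
      _ ≤ (8 * M * Real.exp (-R ^ 2 / 4)) * 4 :=
          mul_le_mul_of_nonneg_left LibMaier.integral_gaussian_quarter (by positivity)
      _ = 32 * M * Real.exp (-R ^ 2 / 4) := by ring
  have hsplit : ∫ t : ℝ, K ((σ : ℂ) + t * I) =
      (∫ y : ℝ in (-R)..R, K ((σ : ℂ) + y * I)) +
        ∫ t in (Set.Ioc (-R) R)ᶜ, K ((σ : ℂ) + t * I) := by
    rw [intervalIntegral.integral_of_le (by linarith)]
    exact (integral_add_compl measurableSet_Ioc hint).symm
  change ‖∫ t : ℝ, K ((σ : ℂ) + t * I)‖ ≤ _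
  rw [hsplit]
  refine (norm_add_le _ _).trans ((add_le_add hmid htail).trans (le_of_eq ?_))
  ring

/-- the L-series of the twist -/
theorem cb1_LSeries {q : ℕ} (χ : DirichletCharacter ℂ q) (lam : ℝ) (s : ℂ) :
    LSeries (tw χ lam * (fun n : ℕ ↦ (Λ n : ℂ))) s =
      LSeries ((fun n : ℕ => χ (n : ZMod q)) * (fun n : ℕ => (Λ n : ℂ))) (s - lam * I) := by
  unfold LSeries
  apply tsum_congr
  intro n
  rcases eq_or_ne n 0 with rfl | hn
  · simp
  · have hn0 : (n : ℂ) ≠ 0 := by exact_mod_cast hn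
    rw [LSeries.term_of_ne_zero hn, LSeries.term_of_ne_zero hn, Complex.cpow_sub _ _ hn0]
    have h1 : (n : ℂ) ^ ((lam : ℂ) * I) = cp lam n := by
      rw [Complex.cpow_def_of_ne_zero hn0, ← Complex.natCast_log, cp]
      congr 1
      push_cast
      ring
    rw [h1]
    simp only [Pi.mul_apply, tw]
    have h2 : cp lam n ≠ 0 := Complex.exp_ne_zero _
    have h3 : (n : ℂ) ^ s ≠ 0 := by
      rw [Complex.cpow_def_of_ne_zero hn0]
      exact Complex.exp_ne_zero _
    field_simp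

theorem norm_GS_low {q : ℕ} [NeZero q] {χ : DirichletCharacter ℂ q} (hχ : χ ≠ 1) {α T : ℝ} (hα0 : 0 < α)
    (hα : α ≤ 1 / 4) (hz : ∀ ρ : ℂ, LFunction χ ρ = 0 → |ρ.im| ≤ T → ρ.re ≤ 1 - α)
    {lam : ℝ} (hT : 2 + |lam| ≤ T) {x : ℝ} (hx : 1 ≤ x) :
    ‖GS (tw χ lam * (fun n : ℕ ↦ (Λ n : ℂ))) x‖ ≤
      (T * Real.exp (-(α * x / 4)) + 6 * Real.exp (-(T - 2 - |lam|) ^ 2 / 2)) *
      (20 * (LL q T + 3) / α ^ 2) + 6 * LS (1 / x) * Real.exp (-(T - 2 - |lam|) ^ 2 / 4) := by
  set D : ℝ := 20 * (LL q T + 3) / α ^ 2 with hD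
  set R : ℝ := T - 2 - |lam| with hR
  have hR0 : 0 ≤ R := by rw [hR]; linarith
  have hx0 : 0 < x := by linarith
  have hσ0 : 0 < 1 / x := by positivity
  have hσ1 : 1 / x ≤ 1 := by rw [div_le_one (by linarith)]; exact hx
  have hL : Differentiable ℂ (LFunction χ) := differentiable_LFunction hχ
  have hd : Differentiable ℂ (deriv (LFunction χ)) :=
    fun z => (hL.contDiff (n := 2)).differentiable_deriv_two z
  have hlam1 := neg_abs_le lam
  have hlam2 := le_abs_self lam
  have hne : ∀ w : ℂ, -(α / 4) ≤ w.re → |w.im| ≤ R → LFunction χ (1 + w - lam * I) ≠ 0 := by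
    intro w h1 h3 h0
    obtain ⟨h4, h5⟩ := abs_le.1 h3
    have := hz (1 + w - lam * I) h0 (by
      simp only [Complex.add_im, Complex.sub_im, Complex.one_im, zero_add, Complex.mul_im, Complex.ofReal_re,
        Complex.I_im, mul_one, Complex.ofReal_im, Complex.I_re, mul_zero, add_zero]
      rw [abs_le]
      constructor <;> rw [hR] at * <;> linarith)
    simp at this
    linarith
  have hdiff0 : ∀ w : ℂ, LFunction χ (1 + w - lam * I) ≠ 0 →
      DifferentiableAt ℂ (fun w => LibMaier.ND χ (1 + w - lam * I)) w := by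
    intro w hne
    unfold LibMaier.ND
    have h5 : DifferentiableAt ℂ (fun w : ℂ => deriv (LFunction χ) (1 + w - lam * I)) w :=
      (hd _).comp w (by fun_prop)
    have h6 : DifferentiableAt ℂ (fun w : ℂ => LFunction χ (1 + w - lam * I)) w :=
      (hL _).comp w (by fun_prop)
    exact (h5.div h6 hne).neg
  have key := cb1_contour (f := fun w => LibMaier.ND χ (1 + w - lam * I)) (a := α / 4) (D := D)
    (M := LS (1 / x)) (R := R) (x := x) (by positivity) (by linarith) hR0 hx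
    (fun w h1 _ h3 => hdiff0 w (hne w h1 h3))
    (fun w h1 h2 h3 => by
      obtain ⟨h4, h5⟩ := abs_le.1 h3
      apply LibMaier.ND_norm_le hχ hα0 hα hz
      · simp; linarith
      · simp; linarith
      · simp only [Complex.add_im, Complex.sub_im, Complex.one_im, zero_add, Complex.mul_im, Complex.ofReal_re,
          Complex.I_im, mul_one, Complex.ofReal_im, Complex.I_re, mul_zero, add_zero]
        rw [abs_le]
        constructor <;> rw [hR] at * <;> linarith)
    (fun t => by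
      have e : 1 + (((1 / x : ℝ) : ℂ) + t * I) - lam * I = 1 + (((1 / x : ℝ) : ℂ) + ((t - lam : ℝ) : ℂ) * I) := by
        push_cast; ring
      rw [e]
      have hre : ((((1 / x : ℝ) : ℂ) + ((t - lam : ℝ) : ℂ) * I)).re = 1 / x := by
        rw [Complex.add_re, Complex.ofReal_re, Complex.re_ofReal_mul, Complex.I_re, mul_zero, add_zero]
      have := LibMaier.norm_ND_le_LS χ (w := ((1 / x : ℝ) : ℂ) + ((t - lam : ℝ) : ℂ) * I) (by
        rw [hre]; exact hσ0)
      rwa [hre] at this)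
    (by
      apply Continuous.aestronglyMeasurable
      rw [continuous_iff_continuousAt]
      intro t
      have h0 : LFunction χ (1 + (((1 / x : ℝ) : ℂ) + t * I) - lam * I) ≠ 0 := by
        apply DirichletCharacter.LFunction_ne_zero_of_one_le_re _ (Or.inl hχ)
        simp
        exact hx0.le
      have h1 := (hdiff0 _ h0).continuousAt
      exact ContinuousAt.comp (f := fun t : ℝ => ((1 / x : ℝ) : ℂ) + t * I)
        (g := fun w => LibMaier.ND χ (1 + w - lam * I)) h1 (by fun_prop))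
  have hmel := LibPL63.mellin (tw χ lam * (fun n : ℕ ↦ (Λ n : ℂ))) (summable_twL χ lam hσ0) x
  have heq : ∫ t : ℝ, LibPL63.ker x (((1 / x : ℝ) : ℂ) + t * I) *
      LSeries (tw χ lam * (fun n : ℕ ↦ (Λ n : ℂ))) (1 + (((1 / x : ℝ) : ℂ) + t * I)) =
      ∫ t : ℝ, LibPL63.ker x (((1 / x : ℝ) : ℂ) + t * I) *
        LibMaier.ND χ (1 + (((1 / x : ℝ) : ℂ) + t * I) - lam * I) := by
    congr 1
    ext t
    rw [cb1_LSeries, LibMaier.ND_eq]
    simp
    exact hx0
  rw [heq] at hmel
  rw [hmel, norm_mul, Complex.norm_real, Real.norm_eq_abs, abs_of_nonneg (by positivity)] at key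
  have hpi : 3 < Real.pi := Real.pi_gt_three
  have h11 : 6 * ‖GS (tw χ lam * (fun n : ℕ ↦ (Λ n : ℂ))) x‖ ≤
      2 * Real.pi * ‖GS (tw χ lam * (fun n : ℕ ↦ (Λ n : ℂ))) x‖ :=
    mul_le_mul_of_nonneg_right (by linarith) (norm_nonneg _)
  have hD0 : 0 ≤ D := by
    have := LibMaier.ND_norm_le hχ hα0 hα hz (s := 1) (by simp; positivity) (by simp) (by
      simp; linarith [abs_nonneg lam])
    exact (norm_nonneg _).trans this
  have hax : α / 4 * x = α * x / 4 := by ring
  rw [hax] at key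
  have hE1 := Real.exp_pos (-(α * x / 4))
  have hE2 := Real.exp_pos (-R ^ 2 / 2)
  have hE3 := Real.exp_pos (-R ^ 2 / 4)
  have hLS := LibMaier.LS_nonneg (1 / x)
  have hTR : R ≤ T := by rw [hR]; linarith [abs_nonneg lam]
  have p1 : 0 ≤ Real.exp (-(α * x / 4)) * D := by positivity
  have p2 : 0 ≤ Real.exp (-R ^ 2 / 2) * D := by positivity
  have p3 : 0 ≤ LS (1 / x) * Real.exp (-R ^ 2 / 4) := by positivity
  have p4 : R * (Real.exp (-(α * x / 4)) * D) ≤ T * (Real.exp (-(α * x / 4)) * D) :=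
    mul_le_mul_of_nonneg_right hTR p1
  have p5 : 0 ≤ T * (Real.exp (-(α * x / 4)) * D) := by
    have : 0 ≤ T := hR0.trans hTR
    positivity
  nlinarith

end Pool.Agent.LibHG31
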