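import Pool.Agent.LibHG31.C0
import Pool.Agent.LibMaier.Contour

/-! ROW CB2: the real zeros of the real characters modulo `D0 b^j` (all `j`) keep a distance from 1.
PLAN: `R = rad(b D0)`. (a) for `n ≡ 1 mod 8R` and all `k ≥ 1` there is `x`, prime to `R`, with `x² ≡ n mod 8R^k` (induction:
`x' = x + 4R^k s`, `s x ≡ -t mod R`, `x² = n + 8R^k t`). So `n` is a square modulo `q = QQ b j`. (b) hence a real `χ mod q`
(`χ² = 1`) is trivial on the units `≡ 1 mod 8R`; lift `χ` to `q' = lcm(q, 8R)` and use `DirichletCharacter.factorsThrough_iff_ker_unitsMap`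
(or the like): `χ` lifted = lift of some `ψ mod 8R`, `ψ ≠ 1`, `ψ² = 1`. (c) `LFunction_changeLevel`: `L(s,χ') = L(s,ψ) ∏(1 - ψ(p)p^(-s))`,
same for `χ`; for real `β > 0` zeros are the same (`|p^(-β)| < 1`). (d) finitely many `ψ mod 8R`; `L(1,ψ) ≠ 0`
(`DirichletCharacter.LFunction_apply_one_ne_zero`), continuity: no zero on `(1-c, 1]`, and none for `β ≥ 1`
(`LFunction_ne_zero_of_one_le_re`). For `β ≤ 0`: `β ≤ 1 - c` with `c ≤ 1/4`. -/

namespace Pool.Agent.LibHG31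

open Finset Complex DirichletCharacter

theorem exists_sq (R : ℕ) (hR : 1 ≤ R) (n : ℤ) (hn : n ≡ 1 [ZMOD (8 * R : ℤ)]) (k : ℕ) (hk : 1 ≤ k) :
    ∃ x : ℤ, IsCoprime x (R : ℤ) ∧ x ^ 2 ≡ n [ZMOD (8 * (R : ℤ) ^ k)] := by
  induction k, hk using Nat.le_induction with
  | base =>
    refine ⟨1, isCoprime_one_left, ?_⟩
    rw [pow_one, one_pow]
    exact hn.symm
  | succ k hk ih =>
    obtain ⟨x, hx, hx2⟩ := ih
    obtain ⟨t, ht⟩ := hx2.symm.dvd
    -- x ^ 2 - n = 8 R^k t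
    obtain ⟨y, z, hyz⟩ := hx
    -- y x + z R = 1
    set s : ℤ := -(t * y) with hs
    refine ⟨x + 4 * (R : ℤ) ^ k * s, ?_, ?_⟩
    · obtain ⟨i, rfl⟩ : ∃ i, k = i + 1 := ⟨k - 1, by omega⟩
      refine ⟨y, z - 4 * (R : ℤ) ^ i * s * y, ?_⟩
      rw [pow_succ]
      linear_combination hyz
    · refine (Int.modEq_iff_dvd.mpr ?_)
      obtain ⟨i, rfl⟩ : ∃ i, k = i + 1 := ⟨k - 1, by omega⟩
      refine ⟨-(t * z) - 2 * (R : ℤ) ^ i * s ^ 2, ?_⟩
      have e : x ^ 2 = n + 8 * (R : ℤ) ^ (i + 1) * t := by linarith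
      rw [hs]
      ring_nf
      ring_nf at e hyz
      linear_combination (-1 : ℤ) * e + 8 * (R : ℤ) ^ (i + 1) * t * hyz

theorem real_zero_gap (b : ℕ) (hb : 2 ≤ b) : ∃ c : ℝ, 0 < c ∧ c ≤ 1 / 4 ∧
    ∀ (j : ℕ) [NeZero (QQ b j)] (χ : DirichletCharacter ℂ (QQ b j)), χ ≠ 1 → χ ^ 2 = 1 →
      ∀ β : ℝ, LFunction χ (β : ℂ) = 0 → β ≤ 1 - c := by
  have hD0 : 0 < D0 b := by
    unfold D0
    have : 2 ^ 2 ≤ b ^ 2 := Nat.pow_le_pow_left hb 2
    omega
  set R : ℕ := b * D0 b with hR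
  have hR1 : 1 ≤ R := Nat.mul_pos (by omega) hD0
  have h8R : NeZero (8 * R) := ⟨by omega⟩
  have hev : ∀ᶠ β : ℝ in nhds (1 : ℝ), ∀ ψ : DirichletCharacter ℂ (8 * R), ψ ≠ 1 →
      LFunction ψ (β : ℂ) ≠ 0 := by
    rw [Filter.eventually_all]
    intro ψ
    by_cases hψ : ψ = 1
    · exact Filter.Eventually.of_forall fun β h => absurd hψ h
    · have h1 : LFunction ψ ((1 : ℝ) : ℂ) ≠ 0 := by
        rw [Complex.ofReal_one]
        exact LFunction_apply_one_ne_zero hψ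
      have hc : Continuous (fun β : ℝ => LFunction ψ (β : ℂ)) :=
        (differentiable_LFunction hψ).continuous.comp Complex.continuous_ofReal
      exact (hc.continuousAt.eventually_ne h1).mono fun β hβ _ => hβ
  obtain ⟨ε, hε, hεb⟩ := Metric.eventually_nhds_iff.mp hev
  refine ⟨min ε (1 / 4), lt_min hε (by norm_num), min_le_right _ _, ?_⟩
  intro j hne χ hχ hχ2 β hβ
  by_contra hlt
  rw [not_le] at hlt
  have hβ0 : 3 / 4 < β := by
    have := min_le_right ε (1 / 4)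
    linarith
  -- the common multiple
  set Q : ℕ := 8 * R ^ (j + 1) with hQ
  have hQ0 : NeZero Q := ⟨by positivity⟩
  have hqQ : QQ b j ∣ Q := by
    refine Dvd.dvd.mul_left ?_ 8
    unfold QQ
    rw [hR, mul_pow, mul_comm (b ^ (j + 1))]
    exact Nat.mul_dvd_mul (dvd_pow_self _ (by omega)) (Nat.pow_dvd_pow b (by omega))
  have h8Q : 8 * R ∣ Q := Nat.mul_dvd_mul_left 8 (dvd_pow_self R (by omega))
  set χ' : DirichletCharacter ℂ Q := changeLevel hqQ χ with hχ'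
  have hχ'2 : χ' ^ 2 = 1 := by
    rw [hχ', ← map_pow, hχ2, map_one]
  have hfac : χ'.FactorsThrough (8 * R) := by
    rw [DirichletCharacter.factorsThrough_iff_ker_unitsMap h8Q]
    intro u hu
    rw [MonoidHom.mem_ker] at hu ⊢
    have h1 : ((u : ZMod Q).cast : ZMod (8 * R)) = 1 := by
      have := congrArg (fun v : (ZMod (8 * R))ˣ => (v : ZMod (8 * R))) hu
      simpa [ZMod.unitsMap_val] using this
    obtain ⟨x, hx⟩ : ∃ x : ℤ, ((x : ℤ) : ZMod Q) = (u : ZMod Q) := ZMod.intCast_surjective _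
    have h2 : ((x : ℤ) : ZMod (8 * R)) = ((1 : ℤ) : ZMod (8 * R)) := by
      have e : (((x : ℤ) : ZMod Q).cast : ZMod (8 * R)) = ((x : ℤ) : ZMod (8 * R)) :=
        ZMod.cast_intCast h8Q x
      rw [← e, hx, h1]
      simp
    have h3 : x ≡ 1 [ZMOD (8 * R : ℤ)] := by
      have := (ZMod.intCast_eq_intCast_iff x 1 (8 * R)).mp h2
      exact_mod_cast this
    obtain ⟨y, _, hy⟩ := exists_sq R hR1 x h3 (j + 1) (by omega)
    have h4 : (((y : ℤ) : ZMod Q)) ^ 2 = (u : ZMod Q) := by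
      rw [← hx, ← Int.cast_pow]
      refine (ZMod.intCast_eq_intCast_iff _ _ _).mpr ?_
      rw [hQ]
      exact_mod_cast hy
    have h5 : IsUnit ((y : ℤ) : ZMod Q) := by
      have : IsUnit ((((y : ℤ) : ZMod Q)) ^ 2) := by rw [h4]; exact u.isUnit
      exact (isUnit_pow_iff (by norm_num)).mp this
    apply Units.ext
    rw [MulChar.coe_toUnitHom, ← h4, map_pow, ← MulChar.pow_apply' _ (by norm_num), hχ'2,
      MulChar.one_apply h5]
    simp
  obtain ⟨hd, ψ, hψ⟩ := hfac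
  have hψ1 : ψ ≠ 1 := by
    rintro rfl
    rw [map_one, hχ'] at hψ
    exact hχ ((changeLevel_eq_one_iff hqQ).mp hψ)
  have hβ1 : (β : ℂ) ≠ 1 ∨ True := Or.inr trivial
  have hL1 : LFunction χ' (β : ℂ) = 0 := by
    rw [hχ', LFunction_changeLevel hqQ χ (Or.inl hχ), hβ, zero_mul]
  rw [hψ, LFunction_changeLevel hd ψ (Or.inl hψ1)] at hL1
  rcases mul_eq_zero.mp hL1 with h | h
  · rcases lt_or_ge β 1 with h1 | h1
    · refine hεb (y := β) ?_ ψ hψ1 h
      rw [Real.dist_eq, abs_lt]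
      have := min_le_left ε (1 / 4)
      constructor <;> linarith
    · exact LFunction_ne_zero_of_one_le_re ψ (Or.inl hψ1) (by simpa using h1) h
  · obtain ⟨p, hp, hp0⟩ := Finset.prod_eq_zero_iff.mp h
    have hpp : p.Prime := Nat.prime_of_mem_primeFactors hp
    have h1 : ψ (p : ZMod (8 * R)) * (p : ℂ) ^ (-(β : ℂ)) = 1 := by
      linear_combination -hp0
    have h2 : ‖ψ (p : ZMod (8 * R)) * (p : ℂ) ^ (-(β : ℂ))‖ < 1 := by
      rw [norm_mul, Complex.norm_natCast_cpow_of_pos hpp.pos]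
      have h3 : (p : ℝ) ^ ((-(β : ℂ)).re) < 1 := by
        refine Real.rpow_lt_one_of_one_lt_of_neg (by exact_mod_cast hpp.one_lt) ?_
        simp only [Complex.neg_re, Complex.ofReal_re]
        linarith
      have h4 := DirichletCharacter.norm_le_one ψ (p : ZMod (8 * R))
      have h5 : 0 ≤ (p : ℝ) ^ ((-(β : ℂ)).re) := by positivity
      nlinarith [norm_nonneg (ψ (p : ZMod (8 * R)))]
    rw [h1, norm_one] at h2
    exact lt_irrefl _ h2

end Pool.Agent.LibHG31
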