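import Pool.Agent.LibHG31.CB1
import Pool.Agent.LibHG31.CB2
import Pool.Agent.LibHG31.CA11
import Pool.Agent.LibMaier.SmallBound

/-! ROW CB3: low frequencies, non principal characters. -/

namespace Pool.Agent.LibHG31

open Finset Complex DirichletCharacter Filter
open scoped ArithmeticFunction.vonMangoldt
open Pool.Agent.LibPL63 (GS)
open Pool.Agent.LibMaier (LL LS kk)

private theorem cb3_log_le (ε : ℝ) (hε : 0 < ε) :
    ∀ᶠ x : ℝ in atTop, Real.log x ≤ ε * Real.sqrt x := by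
  have h := (isLittleO_log_rpow_atTop (show (0 : ℝ) < 1 / 2 by norm_num)).bound hε
  filter_upwards [h, eventually_ge_atTop (1 : ℝ)] with x hx hx1
  rw [Real.norm_eq_abs, Real.norm_eq_abs] at hx
  rw [Real.sqrt_eq_rpow]
  rw [abs_of_nonneg (Real.rpow_nonneg (by linarith) _)] at hx
  exact (le_abs_self _).trans hx

private theorem cb3_pow_le (C : ℝ) (M : ℕ) :
    ∀ᶠ x : ℝ in atTop, C * x ^ M ≤ Real.exp (Real.sqrt x) := by
  have h1 := cb3_log_le (1 / (2 * M + 1)) (by positivity)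
  have h2 : ∀ᶠ x : ℝ in atTop, 2 * |C| ≤ Real.sqrt x := by
    have := Real.tendsto_sqrt_atTop.eventually_ge_atTop (2 * |C|)
    exact this
  filter_upwards [h1, h2, eventually_ge_atTop (1 : ℝ)] with x hx1 hx2 hx3
  have hx0 : 0 < x := by linarith
  have hs : 0 ≤ Real.sqrt x := Real.sqrt_nonneg _
  have h3 : x ^ M ≤ Real.exp (Real.sqrt x / 2) := by
    have h4 : x ^ M = Real.exp (M * Real.log x) := by
      rw [Real.exp_nat_mul, Real.exp_log hx0]
    rw [h4]
    apply Real.exp_le_exp.2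
    have h5 : (M : ℝ) * Real.log x ≤ M * (1 / (2 * M + 1) * Real.sqrt x) :=
      mul_le_mul_of_nonneg_left hx1 (Nat.cast_nonneg _)
    refine h5.trans ?_
    have h6 : (M : ℝ) * (1 / (2 * M + 1)) ≤ 1 / 2 := by
      rw [mul_one_div, div_le_div_iff₀ (by positivity) (by norm_num)]
      linarith
    calc (M : ℝ) * (1 / (2 * M + 1) * Real.sqrt x) = (M : ℝ) * (1 / (2 * M + 1)) * Real.sqrt x := by ring
      _ ≤ 1 / 2 * Real.sqrt x := mul_le_mul_of_nonneg_right h6 hs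
      _ = Real.sqrt x / 2 := by ring
  have h7 : C ≤ Real.exp (Real.sqrt x / 2) := by
    have := Real.add_one_le_exp (Real.sqrt x / 2)
    have := le_abs_self C
    linarith
  calc C * x ^ M ≤ Real.exp (Real.sqrt x / 2) * x ^ M := mul_le_mul_of_nonneg_right h7 (by positivity)
    _ ≤ Real.exp (Real.sqrt x / 2) * Real.exp (Real.sqrt x / 2) :=
      mul_le_mul_of_nonneg_left h3 (Real.exp_pos _).le
    _ = Real.exp (Real.sqrt x) := by rw [← Real.exp_add]; congr 1; ring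

/-- a power times `exp (-κ x / log x)` is tiny -/
theorem cb3_final (C κ : ℝ) (M : ℕ) (hκ : 0 < κ) :
    ∀ᶠ x : ℝ in atTop, C * x ^ M * Real.exp (-(κ * x / Real.log x)) ≤ Real.exp (-(2 * Real.sqrt x)) := by
  have h1 := cb3_log_le (κ / 3) (by positivity)
  filter_upwards [h1, cb3_pow_le C M, eventually_gt_atTop (1 : ℝ)] with x hx1 hx2 hx3
  have hx0 : 0 < x := by linarith
  have hs : 0 ≤ Real.sqrt x := Real.sqrt_nonneg _
  have hss : Real.sqrt x * Real.sqrt x = x := Real.mul_self_sqrt hx0.le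
  have hlog : 0 < Real.log x := Real.log_pos hx3
  have h4 : 3 * Real.sqrt x ≤ κ * x / Real.log x := by
    rw [le_div_iff₀ hlog]
    calc 3 * Real.sqrt x * Real.log x ≤ 3 * Real.sqrt x * (κ / 3 * Real.sqrt x) :=
          mul_le_mul_of_nonneg_left hx1 (by positivity)
      _ = κ * (Real.sqrt x * Real.sqrt x) := by ring
      _ = κ * x := by rw [hss]
  calc C * x ^ M * Real.exp (-(κ * x / Real.log x)) ≤ Real.exp (Real.sqrt x) *
        Real.exp (-(κ * x / Real.log x)) := mul_le_mul_of_nonneg_right hx2 (Real.exp_pos _).le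
    _ ≤ Real.exp (Real.sqrt x) * Real.exp (-(3 * Real.sqrt x)) := by
      apply mul_le_mul_of_nonneg_left _ (Real.exp_pos _).le
      apply Real.exp_le_exp.2
      linarith
    _ = Real.exp (-(2 * Real.sqrt x)) := by rw [← Real.exp_add]; congr 1; ring

theorem cb3_kap_nonneg (b : ℕ) : 0 ≤ kap b := by
  unfold kap
  positivity

theorem low_nonprincipal (b K : ℕ) (hb : 2 ≤ b) : ∃ x0 : ℝ, 1 ≤ x0 ∧ ∀ x : ℝ, x0 ≤ x →
    ∀ (j : ℕ) [NeZero (QQ b j)] (χ : DirichletCharacter ℂ (QQ b j)) (lam : ℝ), 1 ≤ j → (b : ℝ) ^ j ≤ x ^ K → χ ≠ 1 →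
      |lam| ≤ x ^ K → ‖DD b χ x lam‖ ≤ Real.exp (-Real.sqrt x) := by
  obtain ⟨c, hc0, hc4, hc⟩ := real_zero_gap b hb
  obtain ⟨L0, hL1, hzf⟩ := Pool.Agent.LibMaier.zero_free
  obtain ⟨C1, hC1, htw⟩ := tw_GS
  have hkk : (0 : ℝ) < kk := by unfold kk; norm_num
  obtain ⟨A, hA⟩ : ∃ A : ℝ, A = 2 * K + 3 := ⟨_, rfl⟩
  have hA0 : 0 < A := by rw [hA]; positivity
  obtain ⟨C2, hC2⟩ : ∃ C2 : ℝ, C2 = 20 * (A + 3) * (A / kk) ^ 2 := ⟨_, rfl⟩
  have hC20 : 0 ≤ C2 := by rw [hC2]; positivity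
  have hkap := cb3_kap_nonneg b
  have hev : ∀ᶠ x : ℝ in atTop, 5 ≤ x ∧ (D0 b : ℝ) ≤ x ∧ L0 ≤ Real.log x ∧ kk / (A * c) ≤ Real.log x ∧
      (C2 + 5190 + kap b * (2 * C1)) * x ^ (2 * K + 6) * Real.exp (-(kk / (4 * A) * x / Real.log x)) ≤
        Real.exp (-(2 * Real.sqrt x)) := by
    filter_upwards [eventually_ge_atTop (5 : ℝ), eventually_ge_atTop (D0 b : ℝ),
      Real.tendsto_log_atTop.eventually_ge_atTop L0,
      Real.tendsto_log_atTop.eventually_ge_atTop (kk / (A * c)),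
      cb3_final (C2 + 5190 + kap b * (2 * C1)) (kk / (4 * A)) (2 * K + 6) (by positivity)] with x h1 h2 h3 h4 h5
    exact ⟨h1, h2, h3, h4, h5⟩
  obtain ⟨x1, hx1⟩ := eventually_atTop.1 hev
  refine ⟨max x1 1, le_max_right _ _, ?_⟩
  intro x hx j _ χ lam hj hbj hχ hlam
  obtain ⟨h5, hD0, hL0, hcl, hfin⟩ := hx1 x ((le_max_left _ _).trans hx)
  have hx0 : 0 < x := by linarith
  have hlogx : 1 ≤ Real.log x := hL1.trans hL0
  have hlogx' : Real.log x ≤ x := (Real.log_le_sub_one_of_pos hx0).trans (by linarith)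
  have hxK : 1 ≤ x ^ K := one_le_pow₀ (by linarith)
  -- the modulus
  obtain ⟨q, hq⟩ : ∃ q : ℝ, q = (QQ b j : ℝ) := ⟨_, rfl⟩
  have hq1 : 1 ≤ q := by
    rw [hq]
    exact_mod_cast Nat.one_le_iff_ne_zero.2 (NeZero.ne (QQ b j))
  have hqx : q ≤ x ^ (K + 1) := by
    rw [hq, QQ]
    push_cast
    calc (D0 b : ℝ) * (b : ℝ) ^ j ≤ x * x ^ K := mul_le_mul hD0 hbj (by positivity) hx0.le
      _ = x ^ (K + 1) := by ring
  obtain ⟨T, hT⟩ : ∃ T : ℝ, T = x ^ K + x + 2 := ⟨_, rfl⟩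
  have hT0 : 0 < T := by rw [hT]; positivity
  have hTlam : x ≤ T - 2 - |lam| := by rw [hT]; linarith
  have hTx : 2 * T + 3 ≤ x ^ (K + 2) := by
    have e : x ^ (K + 2) = x ^ K * x ^ 2 := by ring
    rw [e, hT]
    nlinarith [mul_nonneg (sub_nonneg.2 hxK) hx0.le, mul_nonneg (sub_nonneg.2 hxK) (sq_nonneg x), mul_nonneg (sub_nonneg.2 h5) hx0.le]
  have hT6 : T + 6 ≤ x ^ (K + 2) := by
    have : 3 ≤ T := by rw [hT]; linarith
    linarith
  -- LL
  have hLL2 : LL (QQ b j) (2 * T) ≤ A * Real.log x := by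
    unfold LL
    rw [← hq]
    calc Real.log (q * (2 * T + 3)) ≤ Real.log (x ^ (K + 1) * x ^ (K + 2)) := by
          apply Real.log_le_log (by positivity)
          exact mul_le_mul hqx hTx (by positivity) (by positivity)
      _ = A * Real.log x := by
          rw [← pow_add, Real.log_pow, hA]
          push_cast
          ring
  have hLL1 : LL (QQ b j) T ≤ A * Real.log x := by
    refine le_trans ?_ hLL2
    unfold LL
    rw [← hq]
    apply Real.log_le_log (by positivity)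
    apply mul_le_mul_of_nonneg_left _ (by linarith)
    linarith
  have hLL0 : L0 ≤ LL (QQ b j) (2 * T) := by
    refine hL0.trans ?_
    unfold LL
    rw [← hq]
    apply Real.log_le_log hx0
    have : x ≤ 2 * T + 3 := by rw [hT]; linarith
    nlinarith
  have hLLpos : 0 < LL (QQ b j) (2 * T) := by linarith
  obtain ⟨α, hα⟩ : ∃ α : ℝ, α = kk / (A * Real.log x) := ⟨_, rfl⟩
  have hα0 : 0 < α := by rw [hα]; positivity
  have hαc : α ≤ c := by
    rw [hα, div_le_iff₀ (by positivity)]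
    rw [div_le_iff₀ (by positivity)] at hcl
    nlinarith
  have hα4 : α ≤ 1 / 4 := hαc.trans hc4
  have hαL : α ≤ kk / LL (QQ b j) (2 * T) := by
    rw [hα]
    exact div_le_div_of_nonneg_left hkk.le hLLpos hLL2
  have hz : ∀ ρ : ℂ, LFunction χ ρ = 0 → |ρ.im| ≤ T → ρ.re ≤ 1 - α := by
    intro ρ hρ hρT
    by_cases hcase : ρ.im ≠ 0 ∨ χ ^ 2 ≠ 1
    · have := hzf (QQ b j) (2 * T) (by linarith) hLL0 χ hχ ρ hρ (by linarith) hcase
      linarith
    · push Not at hcase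
      have hρr : ρ = (ρ.re : ℂ) := by
        apply Complex.ext
        · simp
        · simp [hcase.1]
      rw [hρr] at hρ
      have := hc j χ hχ hcase.2 ρ.re hρ
      linarith
  have hlow := norm_GS_low hχ hα0 hα4 hz (lam := lam) (by linarith) (x := x) (by linarith)
  obtain ⟨E, hE⟩ : ∃ E : ℝ, E = Real.exp (-(α * x / 4)) := ⟨_, rfl⟩
  have hE0 : 0 < E := by rw [hE]; exact Real.exp_pos _
  have hαx : α * x / 4 ≤ x / 16 := by nlinarith
  have hsq : x ^ 2 ≤ (T - 2 - |lam|) ^ 2 := pow_le_pow_left₀ hx0.le hTlam 2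
  have hx2 : 5 * x ≤ x ^ 2 := by nlinarith
  have hE2 : Real.exp (-(T - 2 - |lam|) ^ 2 / 2) ≤ E := by
    rw [hE]
    apply Real.exp_le_exp.2
    linarith
  have hE3 : Real.exp (-(T - 2 - |lam|) ^ 2 / 4) ≤ E := by
    rw [hE]
    apply Real.exp_le_exp.2
    linarith
  have hE4 : Real.exp (-x) ≤ E := by
    rw [hE]
    apply Real.exp_le_exp.2
    linarith
  have hEeq : Real.exp (-(kk / (4 * A) * x / Real.log x)) = E := by
    rw [hE, hα]
    congr 1
    field_simp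
  have hLS := Pool.Agent.LibMaier.LS_inv_le (x := x) (by linarith)
  have hLS0 := Pool.Agent.LibMaier.LS_nonneg (1 / x)
  have hLL00 : 0 ≤ LL (QQ b j) T := by
    unfold LL
    rw [← hq]
    apply Real.log_nonneg
    nlinarith
  -- first factor
  have hf1 : T * Real.exp (-(α * x / 4)) + 6 * Real.exp (-(T - 2 - |lam|) ^ 2 / 2) ≤ x ^ (K + 2) * E := by
    rw [← hE]
    calc T * E + 6 * Real.exp (-(T - 2 - |lam|) ^ 2 / 2) ≤ T * E + 6 * E := by linarith
      _ = (T + 6) * E := by ring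
      _ ≤ x ^ (K + 2) * E := mul_le_mul_of_nonneg_right hT6 hE0.le
  have hf10 : 0 ≤ T * Real.exp (-(α * x / 4)) + 6 * Real.exp (-(T - 2 - |lam|) ^ 2 / 2) := by positivity
  have hf2 : 20 * (LL (QQ b j) T + 3) / α ^ 2 ≤ C2 * x ^ 3 := by
    have e1 : 20 * (LL (QQ b j) T + 3) / α ^ 2 = 20 * (LL (QQ b j) T + 3) * (A * Real.log x / kk) ^ 2 := by
      rw [hα]
      field_simp
    have e2 : C2 * x ^ 3 = 20 * (A * x + 3 * x) * (A * x / kk) ^ 2 := by
      rw [hC2]
      field_simp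
    rw [e1, e2]
    have h6 : A * Real.log x ≤ A * x := mul_le_mul_of_nonneg_left hlogx' hA0.le
    apply mul_le_mul
    · linarith
    · apply pow_le_pow_left₀ (by positivity)
      exact div_le_div_of_nonneg_right h6 hkk.le
    · positivity
    · positivity
  have hf20 : 0 ≤ C2 * x ^ 3 := by positivity
  have hP1 : (T * Real.exp (-(α * x / 4)) + 6 * Real.exp (-(T - 2 - |lam|) ^ 2 / 2)) *
      (20 * (LL (QQ b j) T + 3) / α ^ 2) ≤ x ^ (K + 2) * E * (C2 * x ^ 3) :=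
    mul_le_mul hf1 hf2 (by positivity) (by positivity)
  have hP2 : 6 * LS (1 / x) * Real.exp (-(T - 2 - |lam|) ^ 2 / 4) ≤ 6 * (865 * x ^ 2) * E :=
    mul_le_mul (by linarith) hE3 (Real.exp_pos _).le (by positivity)
  -- powers
  have hx1' : (1 : ℝ) ≤ x := by linarith
  have hpw1 : x ^ (K + 2) * x ^ 3 ≤ x ^ (2 * K + 6) := by
    rw [← pow_add]
    exact pow_le_pow_right₀ hx1' (by omega)
  have hpw2 : x ^ 2 ≤ x ^ (2 * K + 6) := pow_le_pow_right₀ hx1' (by omega)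
  have hpw3 : x ^ (K + 1) * x ^ K ≤ x ^ (2 * K + 6) := by
    rw [← pow_add]
    exact pow_le_pow_right₀ hx1' (by omega)
  have htwx := htw (QQ b j) χ lam x hx0.le
  have hmain : mainI χ lam x = 0 := by
    unfold mainI
    rw [if_neg hχ]
  rw [hmain, sub_zero, ← hq] at htwx
  have hP3 : ‖GS (tw χ lam) x‖ ≤ C1 * x ^ (K + 1) * (2 * x ^ K) * E := by
    refine htwx.trans ?_
    apply mul_le_mul _ hE4 (Real.exp_pos _).le (by positivity)
    apply mul_le_mul _ (by linarith) (by positivity) (by positivity)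
    exact mul_le_mul_of_nonneg_left hqx hC1.le
  rw [DD_eq b hb hj χ x lam]
  refine (norm_sub_le _ _).trans ?_
  rw [norm_mul, Complex.norm_real, Real.norm_eq_abs, abs_of_nonneg hkap]
  have hS1 : ‖GS (tw χ lam * (fun n : ℕ ↦ (Λ n : ℂ))) x‖ ≤ C2 * x ^ (2 * K + 6) * E + 5190 * x ^ (2 * K + 6) * E := by
    refine (hlow.trans (add_le_add hP1 hP2)).trans ?_
    apply add_le_add
    · calc x ^ (K + 2) * E * (C2 * x ^ 3) = (x ^ (K + 2) * x ^ 3) * (C2 * E) := by ring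
        _ ≤ x ^ (2 * K + 6) * (C2 * E) := mul_le_mul_of_nonneg_right hpw1 (by positivity)
        _ = C2 * x ^ (2 * K + 6) * E := by ring
    · calc 6 * (865 * x ^ 2) * E = x ^ 2 * (5190 * E) := by ring
        _ ≤ x ^ (2 * K + 6) * (5190 * E) := mul_le_mul_of_nonneg_right hpw2 (by positivity)
        _ = 5190 * x ^ (2 * K + 6) * E := by ring
  have hS2 : kap b * ‖GS (tw χ lam) x‖ ≤ kap b * (2 * C1) * x ^ (2 * K + 6) * E := by
    calc kap b * ‖GS (tw χ lam) x‖ ≤ kap b * (C1 * x ^ (K + 1) * (2 * x ^ K) * E) :=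
          mul_le_mul_of_nonneg_left hP3 hkap
      _ = (x ^ (K + 1) * x ^ K) * (kap b * (2 * C1) * E) := by ring
      _ ≤ x ^ (2 * K + 6) * (kap b * (2 * C1) * E) := mul_le_mul_of_nonneg_right hpw3 (by positivity)
      _ = kap b * (2 * C1) * x ^ (2 * K + 6) * E := by ring
  refine (add_le_add hS1 hS2).trans ?_
  have hfin' : C2 * x ^ (2 * K + 6) * E + 5190 * x ^ (2 * K + 6) * E + kap b * (2 * C1) * x ^ (2 * K + 6) * E ≤
      Real.exp (-(2 * Real.sqrt x)) := by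
    rw [← hEeq] at *
    calc _ = (C2 + 5190 + kap b * (2 * C1)) * x ^ (2 * K + 6) *
          Real.exp (-(kk / (4 * A) * x / Real.log x)) := by ring
      _ ≤ _ := hfin
  refine hfin'.trans ?_
  apply Real.exp_le_exp.2
  have := Real.sqrt_nonneg x
  linarith

end Pool.Agent.LibHG31
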