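import Pool.Agent.LibHG31.C0
import Pool.Agent.LibH.PNTRem

/-! ROW CB4: the classical zero-free region of zeta. -/

namespace Pool.Agent.LibHG31

open Finset Complex
open Pool.Agent.LibMaier (ND aa kk LL)

/-- `ζ₁` has no zeros on `Re s ≥ 1` -/
theorem cb4_ne {s : ℂ} (hs : 1 ≤ s.re) : riemannZeta₁ s ≠ 0 := by
  by_cases h1 : s = 1
  · rw [h1, riemannZeta₁_one]; exact one_ne_zero
  · have h2 := riemannZeta_ne_zero_of_one_le_re hs
    rw [riemannZeta_eq_inv_sub_mul h1] at h2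
    exact right_ne_zero_of_mul h2

theorem cb4_ND {s : ℂ} (hs : 1 < s.re) : ND (1 : DirichletCharacter ℂ 1) s =
    -(deriv riemannZeta₁ s / riemannZeta₁ s) + 1 / (s - 1) := by
  have h := LibH.ND_eq_GG (s := s - 1) (by rw [Complex.sub_re, Complex.one_re]; linarith)
  rw [LibH.GG, add_sub_cancel] at h
  exact h

theorem cb4_ge {s : ℂ} (hs : 1 < s.re) (hs2 : s.re ≤ 2) : (s.re - 1) ^ 2 / 3 ≤ ‖riemannZeta₁ s‖ := by
  have h1 : s ≠ 1 := by
    rintro rfl
    simp at hs
  have h2 := LibMaier.norm_LFunction_ge (1 : DirichletCharacter ℂ 1) hs hs2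
  rw [DirichletCharacter.LFunction_modOne_eq, riemannZeta_eq_inv_sub_mul h1, norm_mul, norm_inv] at h2
  have h3 : s.re - 1 ≤ ‖s - 1‖ := by
    have := Complex.re_le_norm (s - 1)
    rwa [Complex.sub_re, Complex.one_re] at this
  have h4 : 0 < s.re - 1 := by linarith
  have h5 : 0 < ‖s - 1‖ := h4.trans_le h3
  rw [inv_mul_eq_div, le_div_iff₀ h5] at h2
  calc (s.re - 1) ^ 2 / 3 = (s.re - 1) / 3 * (s.re - 1) := by ring
    _ ≤ (s.re - 1) / 3 * ‖s - 1‖ := by gcongr
    _ ≤ _ := h2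

theorem cb4_re_le {s : ℂ} (hs : 1 < s.re)
    (hs2 : s.re ≤ 2) {T : ℝ} (hT : |s.im| ≤ T) (S : Finset ℂ)
    (hS : ∀ ρ ∈ S, riemannZeta₁ ρ = 0 ∧ ‖ρ - s‖ ≤ 1 / 4) :
    (-(deriv riemannZeta₁ s / riemannZeta₁ s)).re ≤
      8 * Real.log (24 * (T + 3) ^ 2 / (s.re - 1) ^ 2) -
      ∑ ρ ∈ S, (s.re - ρ.re) * (1 / ‖ρ - s‖ ^ 2 - 4) := by
  have hT0 : 0 ≤ T := (abs_nonneg _).trans hT
  set f : ℂ → ℂ := fun z => riemannZeta₁ (s + z) with hf
  have hfd : Differentiable ℂ f :=
    differentiable_riemannZeta₁.comp (differentiable_id.const_add s)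
  have hf0 : f 0 = riemannZeta₁ s := by simp [hf]
  have hne : riemannZeta₁ s ≠ 0 := cb4_ne hs.le
  set K : ℝ := 8 * (T + 3) ^ 2 with hK
  have hKb : ∀ z ∈ Metric.closedBall (0 : ℂ) (1 / 2), ‖f z‖ ≤ K := by
    intro z hz
    have hz1 : ‖z‖ ≤ 1 / 2 := by simpa using hz
    have h1 := abs_le.1 ((Complex.abs_re_le_norm z).trans hz1)
    have h2 := (Complex.abs_im_le_norm z).trans hz1
    refine (LibH.norm_g_le (s := s + z) (by rw [Complex.add_re]; linarith)
      (by rw [Complex.add_re]; linarith)).trans ?_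
    have h3 : |(s + z).im| ≤ T + 1 / 2 := by
      rw [Complex.add_im]
      exact (abs_add_le _ _).trans (add_le_add hT h2)
    have h4 : 0 ≤ |(s + z).im| := abs_nonneg _
    calc 2 * (|(s + z).im| + 5) ^ 2 ≤ 2 * (2 * (T + 3)) ^ 2 := by
          gcongr
          linarith
      _ = K := by rw [hK]; ring
  have hneg : ∀ z ∈ Metric.closedBall (0 : ℂ) (1 / 4), f z = 0 → z.re < 0 := by
    intro z _ hz0
    by_contra hcon
    push Not at hcon
    exact cb4_ne (s := s + z) (by rw [Complex.add_re]; linarith) hz0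
  classical
  set S' : Finset ℂ := S.image (fun ρ => ρ - s) with hS'
  have hS'p : ∀ u ∈ S', f u = 0 ∧ ‖u‖ ≤ 1 / 4 := by
    intro u hu
    rw [hS', Finset.mem_image] at hu
    obtain ⟨ρ, hρ, rfl⟩ := hu
    refine ⟨?_, (hS ρ hρ).2⟩
    simp only [hf]
    rw [add_sub_cancel]
    exact (hS ρ hρ).1
  have hf0' : 0 < ‖f 0‖ := by rw [hf0]; exact norm_pos_iff.2 hne
  obtain ⟨n, hn⟩ : ∃ n : ℕ, K < ‖f 0‖ * ((1 / 2 : ℝ) / (1 / 4)) ^ n := by
    obtain ⟨n, hn⟩ := pow_unbounded_of_one_lt (K / ‖f 0‖) (show (1 : ℝ) < (1 / 2) / (1 / 4) by norm_num)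
    refine ⟨n, ?_⟩
    rw [div_lt_iff₀ hf0'] at hn
    linarith
  have hmain := LibMaier.logDeriv_lower (R := 1 / 2) (r := 1 / 4) (K := K) (by norm_num) (by norm_num) n f S'
    hfd (norm_pos_iff.1 hf0') hKb hneg hS'p hn
  have hderiv : deriv f 0 = deriv riemannZeta₁ s := by
    have := deriv_comp_const_add (f := riemannZeta₁) s 0
    simpa [hf] using this
  rw [hderiv, hf0] at hmain
  have hsum : ∑ u ∈ S', (-u.re) * (1 / ‖u‖ ^ 2 - 1 / (1 / 2 : ℝ) ^ 2) =
      ∑ ρ ∈ S, (s.re - ρ.re) * (1 / ‖ρ - s‖ ^ 2 - 4) := by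
    rw [hS', Finset.sum_image (fun a _ b _ h => by simpa using h)]
    apply Finset.sum_congr rfl
    intro ρ _
    rw [Complex.sub_re]
    norm_num
  rw [hsum] at hmain
  have hlog : Real.log (K / ‖riemannZeta₁ s‖) ≤ Real.log (24 * (T + 3) ^ 2 / (s.re - 1) ^ 2) := by
    apply Real.log_le_log
    · apply div_pos (by positivity) (norm_pos_iff.2 hne)
    · have h1 := cb4_ge hs hs2
      have h2 : 0 < (s.re - 1) ^ 2 := by
        have : 0 < s.re - 1 := by linarith
        positivity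
      rw [div_le_div_iff₀ (norm_pos_iff.2 hne) h2, hK]
      have h3 : 0 ≤ 8 * (T + 3) ^ 2 := by positivity
      nlinarith
  have hr : 2 * Real.log (K / ‖riemannZeta₁ s‖) / (1 / 4) = 8 * Real.log (K / ‖riemannZeta₁ s‖) := by
    ring
  rw [hr] at hmain
  rw [Complex.neg_re]
  linarith

theorem cb4_large : ∃ L₀ : ℝ, 1 ≤ L₀ ∧ ∀ x : ℝ, L₀ ≤ x →
    8 * Real.log (24 * (Real.exp x) ^ 2 / (aa / x) ^ 2) ≤ 32 * x := by
  have ha : 0 < aa := by unfold aa; norm_num
  have h1 : Filter.Tendsto (fun x : ℝ => Real.log x / x) Filter.atTop (nhds 0) := by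
    have := Real.isLittleO_log_id_atTop.tendsto_div_nhds_zero
    simpa using this
  obtain ⟨L₀, hL⟩ := Filter.eventually_atTop.1 ((h1.eventually_lt_const (show (0 : ℝ) < 1 / 4 by norm_num)).and
    ((Filter.eventually_ge_atTop (Real.log 24 + Real.log (1 / aa) * 2)).and (Filter.eventually_ge_atTop (1 : ℝ))))
  refine ⟨max L₀ 1, le_max_right _ _, fun x hx => ?_⟩
  obtain ⟨h2, h3, h4⟩ := hL x ((le_max_left _ _).trans hx)
  have hx0 : 0 < x := by linarith
  rw [div_lt_iff₀ hx0] at h2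
  have h5 : 24 * (Real.exp x) ^ 2 / (aa / x) ^ 2 = 24 * (Real.exp x) ^ 2 * x ^ 2 * (1 / aa) ^ 2 := by
    field_simp
  rw [h5, Real.log_mul (by positivity) (by positivity), Real.log_mul (by positivity) (by positivity),
    Real.log_mul (by norm_num) (by positivity), Real.log_pow, Real.log_pow, Real.log_pow,
    Real.log_exp]
  push_cast
  linarith

/-- the real part of the pole term -/
theorem cb4_pole {e t : ℝ} (he : 0 < e) (he1 : e ≤ 1) (ht : 1 ≤ |t|) : (1 / ((e : ℂ) + t * I)).re ≤ 1 := by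
  rw [one_div, Complex.inv_re]
  have hre : ((e : ℂ) + t * I).re = e := by simp
  have hns : Complex.normSq ((e : ℂ) + t * I) = e ^ 2 + t ^ 2 := by
    rw [Complex.normSq_apply]
    simp
    ring
  rw [hre, hns]
  have h1 : 1 ≤ t ^ 2 := by
    rw [← sq_abs]
    nlinarith
  rw [div_le_one (by positivity)]
  nlinarith [sq_nonneg e]

/-- large heights -/
theorem cb4_far : ∃ L₀ : ℝ, 1 ≤ L₀ ∧ ∀ T : ℝ, 0 ≤ T → L₀ ≤ Real.log (T + 3) → ∀ ρ : ℂ,
    riemannZeta₁ ρ = 0 → 1 ≤ |ρ.im| → |ρ.im| ≤ T / 2 → ρ.re ≤ 1 - kk / Real.log (T + 3) := by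
  obtain ⟨L₁, hL1, hL8, hL⟩ := LibMaier.ND_bounds
  obtain ⟨L₂, hL2, hL2b⟩ := cb4_large
  have ha : 0 < aa := by unfold aa; norm_num
  refine ⟨max L₁ L₂, hL1.trans (le_max_left _ _), ?_⟩
  intro T hT hLT ρ hρ hγ1 hγT
  have hLLeq : LL 1 T = Real.log (T + 3) := by
    rw [LL]
    push_cast
    rw [one_mul]
  obtain ⟨-, hB1⟩ := hL 1 T hT (by rw [hLLeq]; exact (le_max_left _ _).trans hLT)
  rw [hLLeq] at hB1
  have hlarge := hL2b (Real.log (T + 3)) ((le_max_right _ _).trans hLT)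
  have hT3 : 0 < T + 3 := by linarith
  rw [Real.exp_log hT3] at hlarge
  have hLL1 : L₁ ≤ Real.log (T + 3) := (le_max_left _ _).trans hLT
  set L := Real.log (T + 3) with hLdef
  have hL0 : 0 < L := by linarith
  have haL : 0 < aa / L := by positivity
  have haL8 : aa / L ≤ 1 / 8 := by
    rw [div_le_iff₀ hL0]
    linarith
  by_contra hcon
  push Not at hcon
  set β := ρ.re with hβ
  set γ := ρ.im with hγ
  have hkk : kk = aa / 15 := by unfold kk aa; norm_num
  have hβ1 : β < 1 := by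
    by_contra h
    push Not at h
    exact cb4_ne h hρ
  set d : ℝ := 1 + aa / L - β with hd
  have hd0 : aa / L < d := by rw [hd]; linarith
  have hd0' : 0 < d := haL.trans hd0
  have hd1 : d < 16 / 15 * (aa / L) := by
    have hcon' := hcon
    rw [hkk] at hcon'
    have : aa / 15 / L = 1 / 15 * (aa / L) := by ring
    rw [hd]
    linarith
  have hd4 : d ≤ 1 / 4 := by linarith
  have hγT' : |γ| ≤ T := hγT.trans (by linarith [abs_nonneg γ])
  have h2γT : |2 * γ| ≤ T := by rw [abs_mul]; norm_num; linarith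
  have hρeq : ρ = (β : ℂ) + γ * I := by rw [hβ, hγ]; exact (Complex.re_add_im ρ).symm
  have hdist : ‖ρ - (((1 + aa / L : ℝ) : ℂ) + γ * I)‖ = d := by
    have h1 : ρ - (((1 + aa / L : ℝ) : ℂ) + γ * I) = ((-d : ℝ) : ℂ) := by
      rw [hρeq, hd]
      push_cast
      ring
    rw [h1, Complex.norm_real, norm_neg, Real.norm_of_nonneg hd0'.le]
  have hND : (ND (1 : DirichletCharacter ℂ 1) (((1 + aa / L : ℝ) : ℂ) + γ * I)).re ≤
      1 + 32 * L - (1 / d - 1) := by
    set s : ℂ := ((1 + aa / L : ℝ) : ℂ) + γ * I with hs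
    have hsre : s.re = 1 + aa / L := by simp [hs]
    have hsim : s.im = γ := by simp [hs]
    have h1 := cb4_re_le (s := s) (by rw [hsre]; linarith) (by rw [hsre]; linarith) (T := T)
      (by rw [hsim]; exact hγT') {ρ} (by
        intro u hu
        rw [Finset.mem_singleton] at hu
        rw [hu]
        exact ⟨hρ, by rw [hdist]; exact hd4⟩)
    rw [Finset.sum_singleton, hdist, hsre, add_sub_cancel_left] at h1
    have h2 : (1 + aa / L - ρ.re) * (1 / d ^ 2 - 4) = 1 / d - 4 * d := by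
      have : 1 + aa / L - ρ.re = d := rfl
      rw [this]
      field_simp
    rw [h2] at h1
    have h3 : s - 1 = ((aa / L : ℝ) : ℂ) + γ * I := by
      rw [hs]; push_cast; ring
    have h4 := cb4_pole haL (by linarith) hγ1
    rw [cb4_ND (by rw [hsre]; linarith), Complex.add_re, h3]
    linarith
  have h341 := LibMaier.three_four_one (1 : DirichletCharacter ℂ 1) (σ := 1 + aa / L) (by linarith) γ
  rw [one_pow] at h341
  have hND1 : (ND (1 : DirichletCharacter ℂ 1) ((1 + aa / L : ℝ) : ℂ)).re ≤ L / aa + 32 * L := by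
    have h1 := hB1 0 (by simpa using hT)
    have h2 : (((1 + aa / L : ℝ) : ℂ) + ((0 : ℝ) : ℂ) * I) = ((1 + aa / L : ℝ) : ℂ) := by simp
    have h3 : (1 / (((aa / L : ℝ) : ℂ) + ((0 : ℝ) : ℂ) * I)).re = L / aa := by
      have : (1 / (((aa / L : ℝ) : ℂ) + ((0 : ℝ) : ℂ) * I)) = ((L / aa : ℝ) : ℂ) := by
        push_cast
        simp
      rw [this, Complex.ofReal_re]
    rw [h2, h3] at h1
    exact h1
  have hND2 : (ND (1 : DirichletCharacter ℂ 1) (((1 + aa / L : ℝ) : ℂ) + ((2 * γ : ℝ) : ℂ) * I)).re ≤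
      1 + 32 * L := by
    have h1 := hB1 (2 * γ) h2γT
    have h4 := cb4_pole haL (by linarith) (t := 2 * γ) (by rw [abs_mul]; norm_num; linarith)
    linarith
  have hdinv : 15 / 16 * (L / aa) < 1 / d := by
    rw [lt_div_iff₀ hd0']
    have h1 : 15 / 16 * (L / aa) * d < 15 / 16 * (L / aa) * (16 / 15 * (aa / L)) :=
      mul_lt_mul_of_pos_left hd1 (by positivity)
    have h2 : 15 / 16 * (L / aa) * (16 / 15 * (aa / L)) = 1 := by field_simp
    linarith
  have hLaa : L / aa = 1040 * L := by unfold aa; ring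
  rw [hLaa] at hND1 hdinv
  have hL1' : 1 ≤ L := hL1.trans hLL1
  linarith

/-- small heights -/
theorem cb4_near : ∃ δ : ℝ, 0 < δ ∧ ∀ ρ : ℂ, riemannZeta₁ ρ = 0 → |ρ.im| ≤ 1 → ρ.re ≤ 1 - δ := by
  set Z : Set ℂ := (Set.Icc (1 / 2 : ℝ) 2 ×ℂ Set.Icc (-1 : ℝ) 1) ∩ {ρ | riemannZeta₁ ρ = 0} with hZ
  have hZc : IsCompact Z := by
    apply IsCompact.inter_right
    · exact isCompact_Icc.reProdIm isCompact_Icc
    · exact isClosed_eq differentiable_riemannZeta₁.continuous continuous_const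
  rcases Z.eq_empty_or_nonempty with hE | hN
  · refine ⟨1 / 2, by norm_num, fun ρ hρ him => ?_⟩
    by_contra hcon
    push Not at hcon
    have hre : ρ.re < 1 := by
      by_contra h
      push Not at h
      exact cb4_ne h hρ
    have : ρ ∈ Z := ⟨by
      rw [Complex.mem_reProdIm]
      exact ⟨⟨by linarith, by linarith⟩, abs_le.1 him⟩, hρ⟩
    rw [hE] at this
    exact this
  · obtain ⟨z, hz, hmax⟩ := hZc.exists_isMaxOn hN Complex.continuous_re.continuousOn
    have hz1 : z.re < 1 := by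
      by_contra h
      push Not at h
      exact cb4_ne h hz.2
    refine ⟨min (1 / 2) (1 - z.re), lt_min (by norm_num) (by linarith), fun ρ hρ him => ?_⟩
    by_contra hcon
    push Not at hcon
    have hre : ρ.re < 1 := by
      by_contra h
      push Not at h
      exact cb4_ne h hρ
    have h1 := min_le_left (1 / 2 : ℝ) (1 - z.re)
    have h2 := min_le_right (1 / 2 : ℝ) (1 - z.re)
    have : ρ ∈ Z := ⟨by
      rw [Complex.mem_reProdIm]
      exact ⟨⟨by linarith, by linarith⟩, abs_le.1 him⟩, hρ⟩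
    have h3 : ρ.re ≤ z.re := hmax this
    linarith

theorem zeta_free : ∃ c : ℝ, 0 < c ∧ c ≤ 1 / 4 ∧ ∀ (T : ℝ), 0 ≤ T → ∀ ρ : ℂ, riemannZeta₁ ρ = 0 → |ρ.im| ≤ T →
    ρ.re ≤ 1 - c / Real.log (T + 3) := by
  obtain ⟨L₀, hL0, hfar⟩ := cb4_far
  obtain ⟨δ, hδ, hnear⟩ := cb4_near
  have hkk : 0 < kk := by unfold kk; norm_num
  set E : ℝ := Real.exp L₀ with hE
  have hE1 : 1 ≤ E := Real.one_le_exp (by linarith)
  set W : ℝ := 1 + Real.log (2 + E) with hW
  have hW0 : 0 < W := by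
    have : 0 ≤ Real.log (2 + E) := Real.log_nonneg (by linarith)
    rw [hW]; linarith
  refine ⟨min (1 / 4) (min δ (kk / W)), lt_min (by norm_num) (lt_min hδ (by positivity)),
    min_le_left _ _, ?_⟩
  intro T hT ρ hρ hγ
  have hc1 : min (1 / 4) (min δ (kk / W)) ≤ δ := (min_le_right _ _).trans (min_le_left _ _)
  have hc2 : min (1 / 4) (min δ (kk / W)) ≤ kk / W := (min_le_right _ _).trans (min_le_right _ _)
  set c : ℝ := min (1 / 4) (min δ (kk / W)) with hc
  have hc0 : 0 < c := lt_min (by norm_num) (lt_min hδ (by positivity))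
  have hT3 : 0 < T + 3 := by linarith
  have hl1 : 1 ≤ Real.log (T + 3) := by
    rw [Real.le_log_iff_exp_le hT3]
    have := Real.exp_one_lt_d9
    linarith
  rcases le_total |ρ.im| 1 with h1 | h1
  · have h2 := hnear ρ hρ h1
    have h3 : c / Real.log (T + 3) ≤ c := div_le_self hc0.le hl1
    linarith
  · set T' : ℝ := 2 * T + E with hT'
    have hT'0 : 0 ≤ T' := by rw [hT']; linarith
    have hT'3 : 0 < T' + 3 := by linarith
    have h2 : L₀ ≤ Real.log (T' + 3) := by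
      rw [Real.le_log_iff_exp_le hT'3, hT', ← hE]
      linarith
    have h3 := hfar T' hT'0 h2 ρ hρ h1 (by rw [hT']; linarith)
    have h4 : Real.log (T' + 3) ≤ W * Real.log (T + 3) := by
      have h5 : T' + 3 ≤ (2 + E) * (T + 3) := by
        rw [hT']
        nlinarith
      calc Real.log (T' + 3) ≤ Real.log ((2 + E) * (T + 3)) := Real.log_le_log hT'3 h5
        _ = Real.log (2 + E) + Real.log (T + 3) := Real.log_mul (by linarith) hT3.ne'
        _ ≤ Real.log (2 + E) * Real.log (T + 3) + Real.log (T + 3) := by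
            have : 0 ≤ Real.log (2 + E) := Real.log_nonneg (by linarith)
            nlinarith
        _ = W * Real.log (T + 3) := by rw [hW]; ring
    have h6 : 0 < Real.log (T' + 3) := by linarith
    have h7 : c / Real.log (T + 3) ≤ kk / Real.log (T' + 3) := by
      calc c / Real.log (T + 3) ≤ kk / W / Real.log (T + 3) := by gcongr
        _ = kk / (W * Real.log (T + 3)) := by rw [div_div]
        _ ≤ kk / Real.log (T' + 3) := div_le_div_of_nonneg_left hkk.le h6 h4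
    linarith

end Pool.Agent.LibHG31
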