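import Pool.Agent.LibHG31.C0
import Pool.Agent.LibH.PNTRem

/-! ROW CB5: size of `ζ₁'/ζ₁` inside a zero-free rectangle (copy of `LibMaier.ND_norm_le`). -/

namespace Pool.Agent.LibHG31

open Finset Complex
open Pool.Agent.LibMaier (norm_LFunction_ge exists_log)

private theorem cb5_log9 : Real.log 9 ≤ 3 := by
  have h9 : (9 : ℝ) ≤ Real.exp 3 := by
    have h10 : (9 : ℝ) ≤ Real.exp 1 ^ 3 := by
      have h11 : (2.7182818283 : ℝ) < Real.exp 1 := Real.exp_one_gt_d9
      calc (9 : ℝ) ≤ (2.7182818283 : ℝ) ^ 3 := by norm_num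
        _ ≤ Real.exp 1 ^ 3 := pow_le_pow_left₀ (by norm_num) h11.le 3
    rw [← Real.exp_nat_mul] at h10
    norm_num at h10 ⊢
    exact h10
  calc Real.log 9 ≤ Real.log (Real.exp 3) := Real.log_le_log (by norm_num) h9
    _ = 3 := Real.log_exp 3

private theorem cb5_center {s : ℂ} (hs : s.re = 2) : 1 / 3 ≤ ‖riemannZeta₁ s‖ := by
  have h1 := norm_LFunction_ge (1 : DirichletCharacter ℂ 1) (s := s) (by rw [hs]; norm_num) (by rw [hs])
  rw [DirichletCharacter.LFunction_modOne_eq, hs] at h1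
  have hne : s ≠ 1 := by
    intro h
    rw [h] at hs
    norm_num at hs
  rw [riemannZeta_eq_inv_sub_mul hne, norm_mul, norm_inv] at h1
  have h2 : 1 ≤ ‖s - 1‖ := by
    have h3 := Complex.re_le_norm (s - 1)
    rw [Complex.sub_re, hs, Complex.one_re] at h3
    linarith
  have h3 : ‖s - 1‖⁻¹ ≤ 1 := inv_le_one_of_one_le₀ h2
  have h4 : ‖s - 1‖⁻¹ * ‖riemannZeta₁ s‖ ≤ 1 * ‖riemannZeta₁ s‖ :=
    mul_le_mul_of_nonneg_right h3 (norm_nonneg _)
  linarith

theorem zeta1_logDeriv_le : ∃ C : ℝ, 0 < C ∧ ∀ (α T : ℝ), 0 < α → α ≤ 1 / 4 →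
    (∀ ρ : ℂ, riemannZeta₁ ρ = 0 → |ρ.im| ≤ T → ρ.re ≤ 1 - α) →
    ∀ s : ℂ, 1 - α / 4 ≤ s.re → s.re ≤ 2 → |s.im| ≤ T - 2 →
      ‖deriv riemannZeta₁ s / riemannZeta₁ s‖ ≤ C * (Real.log (T + 3) + 1) / α ^ 2 := by
  refine ⟨60, by norm_num, ?_⟩
  intro α T hα0 hα hz s hs hs2 hsT
  have hT2 : 2 ≤ T := by linarith [abs_nonneg s.im]
  set s0 : ℂ := 2 + s.im * I with hs0
  have hs0re : s0.re = 2 := by simp [hs0]
  have hs0im : s0.im = s.im := by simp [hs0]
  set f : ℂ → ℂ := fun z => riemannZeta₁ (s0 + z) with hf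
  have hfd : Differentiable ℂ f :=
    differentiable_riemannZeta₁.comp (differentiable_id.const_add s0)
  set r : ℝ := 1 + α with hr
  have hr0 : 0 < r := by rw [hr]; linarith
  -- nonvanishing
  have hf0 : ∀ z ∈ Metric.ball (0 : ℂ) r, f z ≠ 0 := by
    intro z hzr h0
    have hzn : ‖z‖ < 1 + α := by simpa [hr] using hzr
    have h1 := (abs_le.1 (Complex.abs_re_le_norm z)).1
    have h2 := Complex.abs_im_le_norm z
    have h3 : |(s0 + z).im| ≤ T := by
      rw [Complex.add_im, hs0im]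
      calc |s.im + z.im| ≤ |s.im| + |z.im| := abs_add_le _ _
        _ ≤ T := by linarith
    have h4 := hz (s0 + z) h0 h3
    rw [Complex.add_re, hs0re] at h4
    linarith
  set K : ℝ := 3 * (T + 3) ^ 2 with hK
  have hKb : ∀ z ∈ Metric.ball (0 : ℂ) r, ‖f z‖ ≤ K := by
    intro z hzr
    have hzn : ‖z‖ < 1 + α := by simpa [hr] using hzr
    have h1 := (abs_le.1 (Complex.abs_re_le_norm z)).1
    have h2 : 1 / 2 ≤ (s0 + z).re := by
      rw [Complex.add_re, hs0re]
      linarith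
    refine (Pool.Agent.LibH.norm_zeta1_le h2).trans ?_
    have h3 : ‖s0‖ ≤ 2 + (T - 2) := by
      refine (Complex.norm_le_abs_re_add_abs_im s0).trans ?_
      rw [hs0re, hs0im]
      norm_num
      linarith
    have h4 : ‖s0 + z‖ ≤ T + 5 / 4 := (norm_add_le _ _).trans (by linarith)
    have h5 : ‖s0 + z - 1‖ ≤ T + 9 / 4 := by
      refine (norm_sub_le _ _).trans ?_
      rw [norm_one]
      linarith
    have h6 : ‖s0 + z - 1‖ * (1 + 2 * ‖s0 + z‖) ≤ (T + 9 / 4) * (1 + 2 * (T + 5 / 4)) := by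
      gcongr
    rw [hK]
    nlinarith
  have hf00 : 1 / 3 ≤ ‖f 0‖ := by
    have := cb5_center hs0re
    simp only [hf, add_zero]
    exact this
  obtain ⟨h, hh0, hhd, hh1, hh2⟩ := exists_log hr0 (g := f) hfd.differentiableOn hf0
  set M : ℝ := Real.log (9 * (T + 3) ^ 2) with hM
  have hprod : 1 ≤ (T + 3) ^ 2 := by nlinarith
  have hMpos : 0 < M := Real.log_pos (by linarith)
  have hMle : M ≤ 2 * Real.log (T + 3) + 3 := by
    rw [hM, Real.log_mul (by norm_num) (by positivity), Real.log_pow]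
    have := cb5_log9
    push_cast
    linarith
  have hmaps : Set.MapsTo h (Metric.ball 0 r) {z | z.re ≤ M} := by
    intro z hzr
    have h1 : ‖f z‖ = ‖f 0‖ * Real.exp (h z).re := by
      rw [hh2 z hzr, norm_mul, Complex.norm_exp]
    have h2 : Real.exp (h z).re ≤ 9 * (T + 3) ^ 2 := by
      have h3 := hKb z hzr
      rw [h1, hK] at h3
      have h4 : 0 < Real.exp (h z).re := Real.exp_pos _
      nlinarith
    show (h z).re ≤ M
    rw [hM, ← Real.log_exp (h z).re]
    exact Real.log_le_log (Real.exp_pos _) h2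
  have hbound : ∀ z ∈ Metric.ball (0 : ℂ) r, ‖h z‖ ≤ 2 * M * ‖z‖ / (r - ‖z‖) := fun z hzr =>
    Complex.borelCaratheodory_zero hMpos hhd hmaps hr0 hzr hh0
  -- the point
  set z0 : ℂ := s - s0 with hz0
  have hz0eq : z0 = ((s.re - 2 : ℝ) : ℂ) := by
    rw [hz0, hs0]
    apply Complex.ext <;> simp
  have hz0n : ‖z0‖ ≤ 1 + α / 4 := by
    rw [hz0eq, Complex.norm_real, Real.norm_eq_abs, abs_le]
    constructor <;> linarith
  have hsub : ∀ w ∈ Metric.closedBall z0 (α / 4), ‖w‖ ≤ 1 + α / 2 := by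
    intro w hw
    rw [Metric.mem_closedBall, dist_eq_norm] at hw
    calc ‖w‖ = ‖(w - z0) + z0‖ := by congr 1; ring
      _ ≤ ‖w - z0‖ + ‖z0‖ := norm_add_le _ _
      _ ≤ 1 + α / 2 := by linarith
  have hsphere : ∀ w ∈ Metric.sphere z0 (α / 4), ‖h w‖ ≤ 5 * M / α := by
    intro w hw
    have hwn := hsub w (Metric.sphere_subset_closedBall hw)
    have hwr : w ∈ Metric.ball (0 : ℂ) r := by
      rw [mem_ball_zero_iff, hr]
      linarith
    refine (hbound w hwr).trans ?_
    have h1 : α / 2 ≤ r - ‖w‖ := by rw [hr]; linarith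
    calc 2 * M * ‖w‖ / (r - ‖w‖) ≤ 2 * M * (1 + α / 2) / (α / 2) := by
          apply div_le_div₀ (by positivity) _ (by positivity) h1
          gcongr
      _ ≤ 5 * M / α := by
          rw [div_le_div_iff₀ (by positivity) hα0]
          nlinarith [mul_pos hMpos hα0]
  have hdc : DiffContOnCl ℂ h (Metric.ball z0 (α / 4)) := by
    apply DifferentiableOn.diffContOnCl
    apply hhd.mono
    refine (Metric.closure_ball_subset_closedBall).trans ?_
    intro w hw
    rw [mem_ball_zero_iff, hr]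
    linarith [hsub w hw]
  have hderiv := Complex.norm_deriv_le_of_forall_mem_sphere_norm_le (by positivity) hdc hsphere
  have hz0r : z0 ∈ Metric.ball (0 : ℂ) r := by
    rw [mem_ball_zero_iff, hr]
    linarith
  rw [(hh1 z0 hz0r).deriv] at hderiv
  have hfz : f z0 = riemannZeta₁ s := by
    simp only [hf, hz0]
    congr 1
    ring
  have hdf : deriv f z0 = deriv riemannZeta₁ s := by
    have := deriv_comp_const_add (f := riemannZeta₁) s0 z0
    rw [hf, this]
    congr 1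
    rw [hz0]
    ring
  rw [hfz, hdf] at hderiv
  refine hderiv.trans ?_
  rw [div_div]
  rw [div_le_div_iff₀ (by positivity) (by positivity)]
  have hlog : 0 ≤ Real.log (T + 3) := Real.log_nonneg (by linarith)
  have h1 : 0 ≤ 60 * (Real.log (T + 3) + 1) - 20 * M := by linarith
  nlinarith [mul_nonneg h1 (sq_nonneg α)]

end Pool.Agent.LibHG31
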