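import Pool.Agent.LibHG31.CB4
import Pool.Agent.LibHG31.CB5
import Pool.Agent.LibHG31.CA3
import Pool.Agent.LibHG31.CB1

/-! ROW CB6: the twisted Gaussian sum of `Λ` (prime number theorem with `n^(iλ)`, strong error term). -/

namespace Pool.Agent.LibHG31

open Finset Complex MeasureTheory
open scoped ArithmeticFunction.vonMangoldt
open Pool.Agent.LibPL63 (GS)
open Pool.Agent.LibMaier (gw)

/-- the pole part of the integral -/
theorem cb6_main_int {x σ : ℝ} (lam : ℝ) (hσ : 0 < σ) :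
    Integrable (fun t : ℝ => LibPL63.ker x ((σ : ℂ) + t * I) * (1 / ((σ : ℂ) + t * I - lam * I))) ∧
    ∫ t : ℝ, LibPL63.ker x ((σ : ℂ) + t * I) * (1 / ((σ : ℂ) + t * I - lam * I)) =
      ((2 * Real.pi : ℝ) : ℂ) *
        ∫ u in Set.Ioi (0 : ℝ), ((gw (u - x) : ℝ) : ℂ) * cexp (((lam * u : ℝ) : ℂ) * I) := by
  have hre : ∀ t : ℝ, ((σ : ℂ) + t * I - lam * I).re = σ := fun t => by simp
  have hne : ∀ t : ℝ, (σ : ℂ) + t * I - lam * I ≠ 0 := by
    intro t h
    have := congrArg Complex.re h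
    rw [hre] at this
    simp at this
    linarith
  set f : ℝ → ℝ → ℂ := fun t u => cexp (((σ : ℂ) + t * I) ^ 2 / 2 - ((σ : ℂ) + t * I) * ((u - x : ℝ) : ℂ)) *
    cexp (((lam * u : ℝ) : ℂ) * I) with hf
  have hinner : ∀ t : ℝ, ∫ u in Set.Ioi (0 : ℝ), f t u =
      LibPL63.ker x ((σ : ℂ) + t * I) * (1 / ((σ : ℂ) + t * I - lam * I)) := by
    intro t
    have h1 : ∀ u : ℝ, f t u = LibPL63.ker x ((σ : ℂ) + t * I) *
        cexp (-((σ : ℂ) + t * I - lam * I) * u) := by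
      intro u
      simp only [hf, LibPL63.ker]
      rw [← Complex.exp_add, ← Complex.exp_add]
      congr 1
      push_cast
      ring
    simp_rw [h1]
    rw [integral_const_mul, integral_exp_mul_complex_Ioi (by rw [Complex.neg_re, hre]; linarith) 0]
    congr 1
    simp only [Complex.ofReal_zero, mul_zero, Complex.exp_zero]
    rw [neg_div_neg_eq]
  have hcont : Continuous (Function.uncurry f) := by
    simp only [hf, Function.uncurry_def]
    fun_prop
  have hnorm : ∀ t u : ℝ, ‖f t u‖ = Real.exp (-t ^ 2 / 2) * (Real.exp (σ ^ 2 / 2 + σ * x) * Real.exp (-σ * u)) := by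
    intro t u
    simp only [hf]
    rw [norm_mul, Complex.norm_exp_ofReal_mul_I, mul_one, Complex.norm_exp, Complex.sub_re,
      LibMaier.re_sq_line, ← Real.exp_add, ← Real.exp_add]
    congr 1
    rw [Complex.re_mul_ofReal, LibH.line_re]
    ring
  have hprod : Integrable (Function.uncurry f) (volume.prod (volume.restrict (Set.Ioi (0 : ℝ)))) := by
    have h1 : Integrable (fun t : ℝ => Real.exp (-t ^ 2 / 2)) volume := LibMaier.integrable_gaussian_half
    have h2 : Integrable (fun u : ℝ => Real.exp (σ ^ 2 / 2 + σ * x) * Real.exp (-σ * u))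
        (volume.restrict (Set.Ioi (0 : ℝ))) := by
      apply Integrable.const_mul
      exact integrableOn_exp_mul_Ioi (by linarith) 0
    have h3 := h1.mul_prod h2
    refine h3.mono' hcont.aestronglyMeasurable (Filter.Eventually.of_forall fun p => ?_)
    obtain ⟨t, u⟩ := p
    simp only [Function.uncurry_apply_pair]
    rw [hnorm]
  constructor
  · have h := hprod.integral_prod_left
    refine h.congr (Filter.Eventually.of_forall fun t => ?_)
    exact hinner t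
  · calc ∫ t : ℝ, LibPL63.ker x ((σ : ℂ) + t * I) * (1 / ((σ : ℂ) + t * I - lam * I))
        = ∫ t : ℝ, ∫ u in Set.Ioi (0 : ℝ), f t u := by
          congr 1
          ext t
          exact (hinner t).symm
      _ = ∫ u in Set.Ioi (0 : ℝ), ∫ t : ℝ, f t u := integral_integral_swap hprod
      _ = ∫ u in Set.Ioi (0 : ℝ), ((2 * Real.pi : ℝ) : ℂ) *
            (((gw (u - x) : ℝ) : ℂ) * cexp (((lam * u : ℝ) : ℂ) * I)) := by
          congr 1
          ext u
          simp only [hf]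
          rw [integral_mul_const, LibMaier.gauss_int σ (u - x)]
          push_cast
          ring
      _ = _ := integral_const_mul _ _

/-- Fourier transform of the Gaussian -/
theorem cb6_ft (lam x : ℝ) :
    ∫ u : ℝ, ((gw (u - x) : ℝ) : ℂ) * cexp (((lam * u : ℝ) : ℂ) * I) =
      cexp (((lam * x : ℝ) : ℂ) * I - ((lam ^ 2 / 2 : ℝ) : ℂ)) := by
  have h0 : ∫ v : ℝ, ((gw v : ℝ) : ℂ) * cexp (((lam * v : ℝ) : ℂ) * I) = ((Real.exp (-(lam ^ 2 / 2)) : ℝ) : ℂ) := by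
    have h1 := LibMaier.gauss_int 0 (-lam)
    have hs : 0 < Real.sqrt (2 * Real.pi) := by positivity
    have hsc : ((Real.sqrt (2 * Real.pi) : ℝ) : ℂ) ≠ 0 := by exact_mod_cast hs.ne'
    have h2 : ∀ v : ℝ, ((gw v : ℝ) : ℂ) * cexp (((lam * v : ℝ) : ℂ) * I) =
        (((Real.sqrt (2 * Real.pi))⁻¹ : ℝ) : ℂ) *
          cexp ((((0 : ℝ) : ℂ) + v * I) ^ 2 / 2 - (((0 : ℝ) : ℂ) + v * I) * ((-lam : ℝ) : ℂ)) := by
      intro v
      have e : (((0 : ℝ) : ℂ) + v * I) ^ 2 / 2 - (((0 : ℝ) : ℂ) + v * I) * ((-lam : ℝ) : ℂ) =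
          ((-v ^ 2 / 2 : ℝ) : ℂ) + ((lam * v : ℝ) : ℂ) * I := by
        push_cast
        have : (I : ℂ) ^ 2 = -1 := Complex.I_sq
        ring_nf
        rw [this]
        ring
      rw [e, Complex.exp_add, ← Complex.ofReal_exp, gw]
      push_cast
      ring
    simp_rw [h2]
    rw [integral_const_mul, h1, ← Complex.ofReal_mul, Complex.ofReal_inj, gw]
    have h3 : Real.sqrt (2 * Real.pi) * Real.sqrt (2 * Real.pi) = 2 * Real.pi :=
      Real.mul_self_sqrt (by positivity)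
    rw [neg_sq, ← neg_div]
    field_simp
    rw [sq, h3]
  have h1 := integral_sub_right_eq_self (μ := volume) (fun v : ℝ => ((gw v : ℝ) : ℂ) *
    cexp (((lam * (v + x) : ℝ) : ℂ) * I)) x
  simp only [sub_add_cancel] at h1
  rw [h1]
  have h2 : ∀ v : ℝ, ((gw v : ℝ) : ℂ) * cexp (((lam * (v + x) : ℝ) : ℂ) * I) =
      cexp (((lam * x : ℝ) : ℂ) * I) * (((gw v : ℝ) : ℂ) * cexp (((lam * v : ℝ) : ℂ) * I)) := by
    intro v
    have e : ((lam * (v + x) : ℝ) : ℂ) * I = ((lam * x : ℝ) : ℂ) * I + ((lam * v : ℝ) : ℂ) * I := by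
      push_cast; ring
    rw [e, Complex.exp_add]
    ring
  simp_rw [h2]
  rw [integral_const_mul, h0, Complex.ofReal_exp, ← Complex.exp_add]
  congr 1
  push_cast
  ring

theorem cb6_integrable (lam x : ℝ) :
    Integrable fun u : ℝ => ((gw (u - x) : ℝ) : ℂ) * cexp (((lam * u : ℝ) : ℂ) * I) := by
  have h1 : Integrable fun u : ℝ => gw (u - x) := LibH.integrable_gw.comp_sub_right x
  refine Integrable.mono' h1 ?_ (Filter.Eventually.of_forall fun u => ?_)
  · apply Continuous.aestronglyMeasurable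
    unfold gw
    fun_prop
  · rw [norm_mul, Complex.norm_exp_ofReal_mul_I, mul_one, Complex.norm_real, Real.norm_eq_abs,
      abs_of_nonneg (LibMaier.gw_nonneg _)]

/-- the missing part -/
theorem cb6_tail (lam : ℝ) {x : ℝ} (hx : 0 ≤ x) :
    ‖(∫ u in Set.Ioi (0 : ℝ), ((gw (u - x) : ℝ) : ℂ) * cexp (((lam * u : ℝ) : ℂ) * I)) -
      cexp (((lam * x : ℝ) : ℂ) * I - ((lam ^ 2 / 2 : ℝ) : ℂ))‖ ≤ 4 * Real.exp (-x ^ 2 / 4) := by
  have hint := cb6_integrable lam x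
  have hsplit := integral_add_compl (measurableSet_Ioi (a := (0 : ℝ))) hint
  rw [cb6_ft] at hsplit
  rw [← hsplit, sub_add_cancel_left, norm_neg, Set.compl_Ioi]
  have hq : Integrable fun u : ℝ => Real.exp (-(u - x) ^ 2 / 4) :=
    LibMaier.integrable_gaussian_quarter.comp_sub_right x
  calc ‖∫ u in Set.Iic (0 : ℝ), ((gw (u - x) : ℝ) : ℂ) * cexp (((lam * u : ℝ) : ℂ) * I)‖
      ≤ ∫ u in Set.Iic (0 : ℝ), ‖((gw (u - x) : ℝ) : ℂ) * cexp (((lam * u : ℝ) : ℂ) * I)‖ :=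
        norm_integral_le_integral_norm _
    _ ≤ ∫ u in Set.Iic (0 : ℝ), Real.exp (-x ^ 2 / 4) * Real.exp (-(u - x) ^ 2 / 4) := by
        apply setIntegral_mono_on hint.norm.integrableOn (hq.const_mul _).integrableOn measurableSet_Iic
        intro u hu
        have hu' : u ≤ 0 := hu
        rw [norm_mul, Complex.norm_exp_ofReal_mul_I, mul_one, Complex.norm_real, Real.norm_eq_abs,
          abs_of_nonneg (LibMaier.gw_nonneg _), ← Real.exp_add]
        unfold gw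
        have h1 : 1 ≤ Real.sqrt (2 * Real.pi) := by
          rw [Real.one_le_sqrt]
          have := Real.pi_gt_three
          linarith
        refine (div_le_self (Real.exp_pos _).le h1).trans (Real.exp_le_exp.2 ?_)
        nlinarith
    _ ≤ ∫ u : ℝ, Real.exp (-x ^ 2 / 4) * Real.exp (-(u - x) ^ 2 / 4) := by
        apply setIntegral_le_integral (hq.const_mul _)
        exact Filter.Eventually.of_forall fun t => by positivity
    _ = Real.exp (-x ^ 2 / 4) * ∫ u : ℝ, Real.exp (-u ^ 2 / 4) := by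
        rw [integral_const_mul, integral_sub_right_eq_self (fun u => Real.exp (-u ^ 2 / 4)) x]
    _ ≤ Real.exp (-x ^ 2 / 4) * 4 :=
        mul_le_mul_of_nonneg_left LibMaier.integral_gaussian_quarter (Real.exp_pos _).le
    _ = _ := mul_comm _ _

theorem cb6_poly {c A B : ℝ} (hc : 0 < c) (hA : 1 ≤ A) (hB : 0 ≤ B) :
    ∃ Y : ℝ, 1 ≤ Y ∧ ∀ y : ℝ, Y ≤ y → A * Real.exp (B * y - c * y ^ 3) ≤ Real.exp (-(2 * y ^ 2)) := by
  refine ⟨max 1 ((Real.log A + B + 2) / c), le_max_left _ _, fun y hy => ?_⟩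
  have h1 : 1 ≤ y := (le_max_left _ _).trans hy
  have h2 : (Real.log A + B + 2) / c ≤ y := (le_max_right _ _).trans hy
  rw [div_le_iff₀ hc] at h2
  have hl : 0 ≤ Real.log A := Real.log_nonneg hA
  have hA0 : 0 < A := by linarith
  nth_rewrite 1 [← Real.exp_log hA0]
  rw [← Real.exp_add, Real.exp_le_exp]
  have hy2 : y ≤ y ^ 2 := by nlinarith
  have hy1 : 1 ≤ y ^ 2 := by nlinarith
  have h3 : (Real.log A + B + 2) * y ^ 2 ≤ (y * c) * y ^ 2 :=
    mul_le_mul_of_nonneg_right h2 (by positivity)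
  have h4 : B * y ≤ B * y ^ 2 := mul_le_mul_of_nonneg_left hy2 hB
  have h5 : Real.log A ≤ Real.log A * y ^ 2 := le_mul_of_one_le_right hl hy1
  nlinarith

/-- size on the line -/
theorem cb6_GG_line {x : ℝ} (hx0 : 0 < x) (lam t : ℝ) :
    ‖LibH.GG (((1 / x : ℝ) : ℂ) + t * I - lam * I)‖ ≤ LibMaier.LS (1 / x) + x := by
  have hσ0 : 0 < 1 / x := by positivity
  have e : ((1 / x : ℝ) : ℂ) + t * I - lam * I = ((1 / x : ℝ) : ℂ) + ((t - lam : ℝ) : ℂ) * I := by
    push_cast; ring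
  rw [e]
  have hre2 : ((((1 / x : ℝ) : ℂ) + ((t - lam : ℝ) : ℂ) * I)).re = 1 / x := LibH.line_re _ _
  have h1 := LibH.ND_eq_GG (s := ((1 / x : ℝ) : ℂ) + ((t - lam : ℝ) : ℂ) * I) (by rw [hre2]; exact hσ0)
  have h2 := LibMaier.norm_ND_le_LS (1 : DirichletCharacter ℂ 1)
    (w := ((1 / x : ℝ) : ℂ) + ((t - lam : ℝ) : ℂ) * I) (by rw [hre2]; exact hσ0)
  rw [hre2] at h2
  have h3 : LibH.GG (((1 / x : ℝ) : ℂ) + ((t - lam : ℝ) : ℂ) * I) =
      LibMaier.ND (1 : DirichletCharacter ℂ 1) (1 + (((1 / x : ℝ) : ℂ) + ((t - lam : ℝ) : ℂ) * I)) -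
        1 / (((1 / x : ℝ) : ℂ) + ((t - lam : ℝ) : ℂ) * I) := by
    rw [h1]; ring
  rw [h3]
  refine (norm_sub_le _ _).trans (add_le_add h2 ?_)
  rw [norm_div, norm_one]
  have h4 : 1 / x ≤ ‖((1 / x : ℝ) : ℂ) + ((t - lam : ℝ) : ℂ) * I‖ := by
    have := Complex.abs_re_le_norm (((1 / x : ℝ) : ℂ) + ((t - lam : ℝ) : ℂ) * I)
    rw [hre2, abs_of_pos hσ0] at this
    exact this
  calc 1 / ‖((1 / x : ℝ) : ℂ) + ((t - lam : ℝ) : ℂ) * I‖ ≤ 1 / (1 / x) :=
        one_div_le_one_div_of_le hσ0 h4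
    _ = x := one_div_one_div x

theorem cb6_GG_cont {x : ℝ} (hx0 : 0 < x) (lam : ℝ) :
    Continuous (fun t : ℝ => LibH.GG (((1 / x : ℝ) : ℂ) + t * I - lam * I)) := by
  have hσ0 : 0 < 1 / x := by positivity
  have e : (fun t : ℝ => LibH.GG (((1 / x : ℝ) : ℂ) + t * I - lam * I)) =
      fun t : ℝ => (fun t : ℝ => LibH.GG (((1 / x : ℝ) : ℂ) + t * I)) (t - lam) := by
    ext t
    simp only
    congr 1
    push_cast
    ring
  rw [e]
  exact (LibH.continuous_GG_line hσ0).comp (by fun_prop)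

/-- the contour part -/
theorem cb6_GG {c C : ℝ} (hc : 0 < c) (hc4 : c ≤ 1 / 4)
    (hzf : ∀ (T : ℝ), 0 ≤ T → ∀ ρ : ℂ, riemannZeta₁ ρ = 0 → |ρ.im| ≤ T →
      ρ.re ≤ 1 - c / Real.log (T + 3))
    (hC : ∀ (α T : ℝ), 0 < α → α ≤ 1 / 4 →
      (∀ ρ : ℂ, riemannZeta₁ ρ = 0 → |ρ.im| ≤ T → ρ.re ≤ 1 - α) →
      ∀ s : ℂ, 1 - α / 4 ≤ s.re → s.re ≤ 2 → |s.im| ≤ T - 2 →
        ‖deriv riemannZeta₁ s / riemannZeta₁ s‖ ≤ C * (Real.log (T + 3) + 1) / α ^ 2)
    {T lam x : ℝ} (hT : 2 + |lam| ≤ T) (hx : 1 ≤ x) (hl : 1 ≤ Real.log (T + 3)) :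
    ‖∫ t : ℝ, LibPL63.ker x (((1 / x : ℝ) : ℂ) + t * I) *
        LibH.GG (((1 / x : ℝ) : ℂ) + t * I - lam * I)‖ ≤
      4 * (T - 2 - |lam|) * (Real.exp (-(c / Real.log (T + 3) / 4 * x)) *
        (C * (Real.log (T + 3) + 1) / (c / Real.log (T + 3)) ^ 2)) +
      32 * (Real.exp (-(T - 2 - |lam|) ^ 2 / 2) *
        (C * (Real.log (T + 3) + 1) / (c / Real.log (T + 3)) ^ 2)) +
      32 * (LibMaier.LS (1 / x) + x) * Real.exp (-(T - 2 - |lam|) ^ 2 / 4) := by
  set α : ℝ := c / Real.log (T + 3) with hα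
  have hα0 : 0 < α := by rw [hα]; positivity
  have hα4 : α ≤ 1 / 4 := (div_le_self hc.le hl).trans hc4
  have hT0 : 0 ≤ T := by linarith [abs_nonneg lam]
  have hz := hzf T hT0
  rw [← hα] at hz
  have hx0 : 0 < x := by linarith
  have hσ0 : 0 < 1 / x := by positivity
  have hσ1 : 1 / x ≤ 1 := by rw [div_le_one (by linarith)]; exact hx
  have hlam1 := neg_abs_le lam
  have hlam2 := le_abs_self lam
  have him : ∀ w : ℂ, (1 + (w - lam * I)).im = w.im - lam := by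
    intro w
    simp
  have hre : ∀ w : ℂ, (1 + (w - lam * I)).re = 1 + w.re := by
    intro w
    simp
  have hne : ∀ w : ℂ, -(α / 4) ≤ w.re → |w.im| ≤ T - 2 - |lam| → riemannZeta₁ (1 + (w - lam * I)) ≠ 0 := by
    intro w h1 h3 h0
    obtain ⟨h4, h5⟩ := abs_le.1 h3
    have := hz _ h0 (by
      rw [him, abs_le]
      constructor <;> linarith)
    rw [hre] at this
    linarith
  apply cb1_contour (f := fun w => LibH.GG (w - lam * I)) (a := α / 4) (R := T - 2 - |lam|)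
    (x := x) (by positivity) (by linarith) (by linarith) hx
  · intro w h1 _ h3
    have h0 := hne w h1 h3
    unfold LibH.GG
    have h5 : DifferentiableAt ℂ (fun w : ℂ => deriv riemannZeta₁ (1 + (w - lam * I))) w :=
      (LibH.differentiable_dg _).comp w (by fun_prop)
    have h6 : DifferentiableAt ℂ (fun w : ℂ => riemannZeta₁ (1 + (w - lam * I))) w :=
      (differentiable_riemannZeta₁ _).comp w (by fun_prop)
    exact (h5.div h6 h0).neg
  · intro w h1 h2 h3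
    obtain ⟨h4, h5⟩ := abs_le.1 h3
    simp only [LibH.GG, norm_neg]
    apply hC α T hα0 hα4 hz
    · rw [hre]; linarith
    · rw [hre]; linarith
    · rw [him, abs_le]
      constructor <;> linarith
  · intro t
    exact cb6_GG_line hx0 lam t
  · exact (cb6_GG_cont hx0 lam).aestronglyMeasurable

theorem zeta_GS (K : ℕ) : ∃ x0 : ℝ, 1 ≤ x0 ∧ ∀ x : ℝ, x0 ≤ x → ∀ lam : ℝ, |lam| ≤ x ^ K →
    ‖GS (fun n => (Λ n : ℂ) * cp lam n) x - cexp (((lam * x : ℝ) : ℂ) * I - ((lam ^ 2 / 2 : ℝ) : ℂ))‖ ≤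
      Real.exp (-(2 * Real.sqrt x)) := by
  obtain ⟨c, hc, hc4, hzf⟩ := zeta_free
  obtain ⟨C, hC0, hC⟩ := zeta1_logDeriv_le
  set D₁ : ℝ := 2 * C / c ^ 2 with hD₁
  have hD₁0 : 0 < D₁ := by rw [hD₁]; positivity
  obtain ⟨Y, hY1, hY⟩ := cb6_poly (c := c / 4) (A := 36 * D₁ + 28000) (B := 8) (by positivity)
    (by linarith) (by norm_num)
  set Y' : ℝ := max Y (max 2 (64 * (K + 2) ^ 2)) with hY'
  have hY'1 : 1 ≤ Y' := hY1.trans (le_max_left _ _)
  refine ⟨Y' ^ 4, one_le_pow₀ hY'1, fun x hxY lam hlam => ?_⟩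
  -- the variable `y`
  have hx0 : 0 ≤ x := le_trans (by positivity) hxY
  set y : ℝ := Real.sqrt (Real.sqrt x) with hy
  have hy0 : 0 ≤ y := Real.sqrt_nonneg _
  have hy2 : y ^ 2 = Real.sqrt x := Real.sq_sqrt (Real.sqrt_nonneg _)
  have hy4 : y ^ 4 = x := by
    have : y ^ 4 = (y ^ 2) ^ 2 := by ring
    rw [this, hy2, Real.sq_sqrt hx0]
  have hyY : Y' ≤ y := by
    rw [← hy4] at hxY
    exact (pow_le_pow_iff_left₀ (by linarith) hy0 (by norm_num)).1 hxY
  have hyY1 : Y ≤ y := (le_max_left _ _).trans hyY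
  have hyK : 64 * ((K : ℝ) + 2) ^ 2 ≤ y := ((le_max_right _ _).trans (le_max_right _ _)).trans hyY
  have hy1 : 2 ≤ y := ((le_max_left _ _).trans (le_max_right _ _)).trans hyY
  have hy1' : 1 ≤ y := by linarith
  have hx3 : 3 ≤ x := by
    rw [← hy4]
    calc (3 : ℝ) ≤ 2 ^ 4 := by norm_num
      _ ≤ y ^ 4 := by gcongr
  have hx1 : 1 ≤ x := by linarith
  have hxp : 0 < x := by linarith
  -- the height
  set T : ℝ := x ^ K + x + 2 with hT
  have hxK : 1 ≤ x ^ K := one_le_pow₀ hx1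
  have hTlam : 2 + |lam| ≤ T := by rw [hT]; linarith
  have hT3 : T + 3 ≤ x ^ (K + 2) := by
    rw [hT, pow_add]
    have h1 : x + 6 ≤ x ^ 2 := by nlinarith
    have h2 : x ^ K * (x + 6) ≤ x ^ K * x ^ 2 := mul_le_mul_of_nonneg_left h1 (by positivity)
    nlinarith
  have hT3e : Real.exp 1 ≤ T + 3 := by
    have := Real.exp_one_lt_d9
    rw [hT]; linarith
  have hT30 : 0 < T + 3 := (Real.exp_pos 1).trans_le hT3e
  set ℓ : ℝ := Real.log (T + 3) with hℓ
  have hℓ1 : 1 ≤ ℓ := by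
    rw [hℓ, Real.le_log_iff_exp_le hT30]; exact hT3e
  have hℓy : ℓ ≤ y := by
    have h1 : ℓ ≤ (K + 2) * Real.log x := by
      rw [hℓ]
      calc Real.log (T + 3) ≤ Real.log (x ^ (K + 2)) := Real.log_le_log hT30 hT3
        _ = _ := by rw [Real.log_pow]; push_cast; ring
    have hsy : 0 < Real.sqrt y := Real.sqrt_pos.2 (by linarith)
    have hsy2 : Real.sqrt y ^ 2 = y := Real.sq_sqrt hy0
    have h2 : Real.log x ≤ 8 * Real.sqrt y := by
      have h3 : x = (Real.sqrt y) ^ 8 := by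
        have : (Real.sqrt y) ^ 8 = ((Real.sqrt y) ^ 2) ^ 4 := by ring
        rw [this, hsy2, hy4]
      have h4 := Real.log_le_sub_one_of_pos hsy
      rw [h3, Real.log_pow]
      push_cast
      linarith
    have h5 : 8 * ((K : ℝ) + 2) ≤ Real.sqrt y := by
      apply Real.le_sqrt_of_sq_le
      calc (8 * ((K : ℝ) + 2)) ^ 2 = 64 * ((K : ℝ) + 2) ^ 2 := by ring
        _ ≤ y := hyK
    calc ℓ ≤ (K + 2) * Real.log x := h1
      _ ≤ (K + 2) * (8 * Real.sqrt y) := by gcongr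
      _ = (8 * ((K : ℝ) + 2)) * Real.sqrt y := by ring
      _ ≤ Real.sqrt y * Real.sqrt y := by gcongr
      _ = y := by rw [← sq, hsy2]
  -- the formula
  have hσ0 : 0 < 1 / x := by positivity
  have hfun : (fun n : ℕ => (Λ n : ℂ) * cp lam n) =
      tw (1 : DirichletCharacter ℂ 1) lam * (fun n : ℕ ↦ (Λ n : ℂ)) := by
    ext n
    have h1 : (1 : DirichletCharacter ℂ 1) (n : ZMod 1) = 1 := by
      apply MulChar.one_apply
      exact isUnit_of_subsingleton _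
    simp only [Pi.mul_apply, tw, h1]
    ring
  have hmel := LibPL63.mellin (tw (1 : DirichletCharacter ℂ 1) lam * (fun n : ℕ ↦ (Λ n : ℂ)))
    (summable_twL _ lam hσ0) x
  rw [← hfun] at hmel
  obtain ⟨hi2, hb2⟩ := cb6_main_int (x := x) lam hσ0
  have hi1 : Integrable (fun t : ℝ => LibPL63.ker x (((1 / x : ℝ) : ℂ) + t * I) *
      LibH.GG (((1 / x : ℝ) : ℂ) + t * I - lam * I)) := by
    refine Integrable.mono' ((LibMaier.integrable_kernel (1 / x) x).norm.mul_const (LibMaier.LS (1 / x) + x)) ?_ ?_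
    · exact (LibMaier.integrable_kernel (1 / x) x).aestronglyMeasurable.mul
        (cb6_GG_cont hxp lam).aestronglyMeasurable
    · filter_upwards with t
      rw [norm_mul]
      exact mul_le_mul_of_nonneg_left (cb6_GG_line hxp lam t) (norm_nonneg _)
  have heq : ∫ t : ℝ, LibPL63.ker x (((1 / x : ℝ) : ℂ) + t * I) *
      LSeries (fun n : ℕ => (Λ n : ℂ) * cp lam n) (1 + (((1 / x : ℝ) : ℂ) + t * I)) =
      (∫ t : ℝ, LibPL63.ker x (((1 / x : ℝ) : ℂ) + t * I) *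
        LibH.GG (((1 / x : ℝ) : ℂ) + t * I - lam * I)) +
      ∫ t : ℝ, LibPL63.ker x (((1 / x : ℝ) : ℂ) + t * I) * (1 / (((1 / x : ℝ) : ℂ) + t * I - lam * I)) := by
    rw [← integral_add hi1 hi2]
    congr 1
    ext t
    have hre : (((1 / x : ℝ) : ℂ) + t * I - lam * I).re = 1 / x := by
      rw [Complex.sub_re, LibH.line_re, Complex.re_ofReal_mul, Complex.I_re, mul_zero, sub_zero]
    have e : 1 + (((1 / x : ℝ) : ℂ) + t * I) - lam * I = 1 + (((1 / x : ℝ) : ℂ) + t * I - lam * I) := by ring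
    rw [hfun, cb1_LSeries, e, ← LibMaier.ND_eq, LibH.ND_eq_GG]
    · ring
    · rw [hre]; exact hσ0
    · rw [Complex.add_re, Complex.one_re, hre]; linarith
  rw [heq, hb2] at hmel
  set F : ℂ := ∫ t : ℝ, LibPL63.ker x (((1 / x : ℝ) : ℂ) + t * I) *
        LibH.GG (((1 / x : ℝ) : ℂ) + t * I - lam * I) with hF
  set G : ℂ := GS (fun n : ℕ => (Λ n : ℂ) * cp lam n) x with hG
  set J : ℂ := ∫ u in Set.Ioi (0 : ℝ), ((gw (u - x) : ℝ) : ℂ) * cexp (((lam * u : ℝ) : ℂ) * I) with hJ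
  set Z : ℂ := cexp (((lam * x : ℝ) : ℂ) * I - ((lam ^ 2 / 2 : ℝ) : ℂ)) with hZ
  have htail : ‖J - Z‖ ≤ 4 * Real.exp (-x ^ 2 / 4) := cb6_tail lam hx0
  have hFb := cb6_GG hc hc4 hzf hC hTlam hx1 (by rw [← hℓ]; exact hℓ1)
  rw [← hF, ← hℓ] at hFb
  have hpi : 3 < Real.pi := Real.pi_gt_three
  have hGJ : ‖G - J‖ ≤ ‖F‖ := by
    have h1 : ((2 * Real.pi : ℝ) : ℂ) * (G - J) = F := by linear_combination -hmel
    rw [← h1, norm_mul, Complex.norm_real, Real.norm_eq_abs, abs_of_nonneg (by positivity)]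
    exact le_mul_of_one_le_left (norm_nonneg _) (by linarith)
  have hGZ : ‖G - Z‖ ≤ ‖F‖ + 4 * Real.exp (-x ^ 2 / 4) := by
    have h1 : G - Z = (G - J) + (J - Z) := by ring
    rw [h1]
    exact (norm_add_le _ _).trans (add_le_add hGJ htail)
  -- estimates
  set R : ℝ := T - 2 - |lam| with hR
  have hRx : x ≤ R := by rw [hR, hT]; linarith
  have hRT : R ≤ T := by rw [hR]; linarith [abs_nonneg lam]
  have hR0 : 0 ≤ R := by linarith
  have hy8 : c / 4 * y ^ 3 ≤ x ^ 2 / 4 := by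
    rw [← hy4]
    have h1 : y ^ 3 ≤ y ^ 8 := pow_le_pow_right₀ hy1' (by norm_num)
    have h2 : (y ^ 4) ^ 2 = y ^ 8 := by ring
    rw [h2]
    have h3 : 0 ≤ y ^ 8 := by positivity
    nlinarith [mul_le_mul hc4 h1 (by positivity) (by norm_num)]
  have hRsq : x ^ 2 ≤ R ^ 2 := pow_le_pow_left₀ hx0 hRx 2
  have he1 : Real.exp (-x ^ 2 / 4) ≤ Real.exp (-(c / 4 * y ^ 3)) := Real.exp_le_exp.2 (by linarith)
  have he2 : Real.exp (-R ^ 2 / 4) ≤ Real.exp (-(c / 4 * y ^ 3)) := Real.exp_le_exp.2 (by linarith)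
  have he3 : Real.exp (-R ^ 2 / 2) ≤ Real.exp (-(c / 4 * y ^ 3)) :=
    Real.exp_le_exp.2 (by linarith [sq_nonneg R])
  have hℓ0 : 0 < ℓ := by linarith
  have he4 : Real.exp (-(c / ℓ / 4 * x)) ≤ Real.exp (-(c / 4 * y ^ 3)) := by
    apply Real.exp_le_exp.2
    have h1 : c / y ≤ c / ℓ := div_le_div_of_nonneg_left hc.le hℓ0 hℓy
    have h2 : c / 4 * y ^ 3 = c / y / 4 * x := by
      rw [← hy4]
      field_simp
    rw [h2, neg_le_neg_iff]
    gcongr
  have hDb : C * (ℓ + 1) / (c / ℓ) ^ 2 ≤ D₁ * Real.exp (3 * y) := by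
    have h1 : C * (ℓ + 1) / (c / ℓ) ^ 2 = C / c ^ 2 * ((ℓ + 1) * ℓ ^ 2) := by
      field_simp
    have h2 : (ℓ + 1) * ℓ ^ 2 ≤ (2 * y) * y ^ 2 := by
      gcongr
      linarith
    have h3 : y ^ 3 ≤ Real.exp (3 * y) := by
      have h4 : y ≤ Real.exp y := by linarith [Real.add_one_le_exp y]
      calc y ^ 3 ≤ Real.exp y ^ 3 := by gcongr
        _ = Real.exp (3 * y) := by rw [← Real.exp_nat_mul]; norm_num
    rw [h1]
    calc C / c ^ 2 * ((ℓ + 1) * ℓ ^ 2) ≤ C / c ^ 2 * ((2 * y) * y ^ 2) := by gcongr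
      _ = D₁ * y ^ 3 := by rw [hD₁]; ring
      _ ≤ D₁ * Real.exp (3 * y) := by gcongr
  have hD0 : 0 ≤ C * (ℓ + 1) / (c / ℓ) ^ 2 := by positivity
  have hTe : T ≤ Real.exp y := by
    have h1 : Real.exp ℓ = T + 3 := Real.exp_log hT30
    have h2 := Real.exp_le_exp.2 hℓy
    linarith
  have hLS : LibMaier.LS (1 / x) + x ≤ 866 * Real.exp (8 * y) := by
    have h1 := LibMaier.LS_le hσ0 (by rw [div_le_one hxp]; exact hx1)
    have h2 : 1 / (1 / x) = x := one_div_one_div x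
    have h3 : 108 / (1 / x) ^ 2 = 108 * x ^ 2 := by field_simp
    rw [h2, h3] at h1
    have h4 := Real.log_le_sub_one_of_pos (x := 108 * x ^ 2) (by positivity)
    have h5 : x ≤ x ^ 2 := by nlinarith
    have h6 : x ^ 2 ≤ Real.exp (8 * y) := by
      have h7 : y ≤ Real.exp y := by linarith [Real.add_one_le_exp y]
      calc x ^ 2 = y ^ 8 := by rw [← hy4]; ring
        _ ≤ Real.exp y ^ 8 := by gcongr
        _ = Real.exp (8 * y) := by rw [← Real.exp_nat_mul]; norm_num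
    linarith
  have hLS0 : 0 ≤ LibMaier.LS (1 / x) + x := by
    have := LibMaier.LS_nonneg (1 / x)
    linarith
  set E : ℝ := Real.exp (-(c / 4 * y ^ 3)) with hE
  have hE0 : 0 < E := Real.exp_pos _
  have e8 : ∀ a : ℝ, a ≤ 8 * y → Real.exp a ≤ Real.exp (8 * y) := fun a ha => Real.exp_le_exp.2 ha
  have t1 : 4 * R * (Real.exp (-(c / ℓ / 4 * x)) * (C * (ℓ + 1) / (c / ℓ) ^ 2)) ≤
      4 * D₁ * (Real.exp (8 * y) * E) := by
    calc 4 * R * (Real.exp (-(c / ℓ / 4 * x)) * (C * (ℓ + 1) / (c / ℓ) ^ 2))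
        ≤ 4 * Real.exp y * (E * (D₁ * Real.exp (3 * y))) := by
          have := hRT.trans hTe
          gcongr
      _ = 4 * D₁ * (Real.exp (4 * y) * E) := by
          have : Real.exp (4 * y) = Real.exp y * Real.exp (3 * y) := by
            rw [← Real.exp_add]; congr 1; ring
          rw [this]; ring
      _ ≤ 4 * D₁ * (Real.exp (8 * y) * E) := by
          have := e8 (4 * y) (by linarith)
          gcongr
  have t2 : 32 * (Real.exp (-R ^ 2 / 2) * (C * (ℓ + 1) / (c / ℓ) ^ 2)) ≤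
      32 * D₁ * (Real.exp (8 * y) * E) := by
    calc 32 * (Real.exp (-R ^ 2 / 2) * (C * (ℓ + 1) / (c / ℓ) ^ 2))
        ≤ 32 * (E * (D₁ * Real.exp (3 * y))) := by gcongr
      _ = 32 * D₁ * (Real.exp (3 * y) * E) := by ring
      _ ≤ 32 * D₁ * (Real.exp (8 * y) * E) := by
          have := e8 (3 * y) (by linarith)
          gcongr
  have t3 : 32 * (LibMaier.LS (1 / x) + x) * Real.exp (-R ^ 2 / 4) ≤
      32 * 866 * (Real.exp (8 * y) * E) := by
    calc 32 * (LibMaier.LS (1 / x) + x) * Real.exp (-R ^ 2 / 4)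
        ≤ 32 * (866 * Real.exp (8 * y)) * E := by gcongr
      _ = _ := by ring
  have t4 : 4 * Real.exp (-x ^ 2 / 4) ≤ 4 * (Real.exp (8 * y) * E) := by
    have h1 : 1 ≤ Real.exp (8 * y) := Real.one_le_exp (by positivity)
    have h2 : E ≤ Real.exp (8 * y) * E := le_mul_of_one_le_left hE0.le h1
    linarith
  have hfin := hY y hyY1
  rw [hy2] at hfin
  have hee : Real.exp (8 * y - c / 4 * y ^ 3) = Real.exp (8 * y) * E := by
    rw [hE, ← Real.exp_add]; congr 1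
  rw [hee] at hfin
  have hP : 0 ≤ Real.exp (8 * y) * E := by positivity
  nlinarith

end Pool.Agent.LibHG31
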