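import Pool.Agent.LibHG31.CB3
import Pool.Agent.LibHG31.CB6

/-! ROW CB7: all low frequencies. -/

namespace Pool.Agent.LibHG31

open Finset Complex DirichletCharacter Filter
open scoped ArithmeticFunction.vonMangoldt
open Pool.Agent.LibPL63 (GS)
open Pool.Agent.LibMaier (gw wn summable_wn)

private theorem cb7_D0 {b : ℕ} (hb : 2 ≤ b) : D0 b ≠ 0 := by
  unfold D0
  have : 2 ^ 2 ≤ b ^ 2 := Nat.pow_le_pow_left hb 2
  omega

private theorem cb7_pf {b : ℕ} (hb : 2 ≤ b) {j : ℕ} (hj : 1 ≤ j) :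
    (QQ b j).primeFactors = (b * D0 b).primeFactors := by
  have h0 := cb7_D0 hb
  have hb0 : b ≠ 0 := by omega
  unfold QQ
  rw [Nat.primeFactors_mul h0 (pow_ne_zero _ hb0), Nat.primeFactors_mul hb0 h0,
    Nat.primeFactors_pow b (by omega), Finset.union_comm]

theorem kap_mul (b : ℕ) (hb : 2 ≤ b) {j : ℕ} (hj : 1 ≤ j) :
    kap b * (((QQ b j).totient : ℝ) / (QQ b j : ℝ)) = 1 := by
  have h0 := cb7_D0 hb
  have hb0 : b ≠ 0 := by omega
  have hr0 : b * D0 b ≠ 0 := mul_ne_zero hb0 h0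
  have hq0 : QQ b j ≠ 0 := mul_ne_zero h0 (pow_ne_zero _ hb0)
  have h1 := Nat.totient_mul_prod_primeFactors (QQ b j)
  have h2 := Nat.totient_mul_prod_primeFactors (b * D0 b)
  rw [cb7_pf hb hj] at h1
  have hP : 0 < ∏ p ∈ (b * D0 b).primeFactors, p :=
    Finset.prod_pos fun p hp => (Nat.prime_of_mem_primeFactors hp).pos
  have h3 : (QQ b j).totient * (b * D0 b) = (b * D0 b).totient * QQ b j := by
    apply Nat.eq_of_mul_eq_mul_right hP
    calc (QQ b j).totient * (b * D0 b) * ∏ p ∈ (b * D0 b).primeFactors, p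
        = ((QQ b j).totient * ∏ p ∈ (b * D0 b).primeFactors, p) * (b * D0 b) := by ring
      _ = (QQ b j * ∏ p ∈ (b * D0 b).primeFactors, (p - 1)) * (b * D0 b) := by rw [h1]
      _ = ((b * D0 b) * ∏ p ∈ (b * D0 b).primeFactors, (p - 1)) * QQ b j := by ring
      _ = ((b * D0 b).totient * ∏ p ∈ (b * D0 b).primeFactors, p) * QQ b j := by rw [h2]
      _ = (b * D0 b).totient * QQ b j * ∏ p ∈ (b * D0 b).primeFactors, p := by ring
  have h4 : ((QQ b j).totient : ℝ) * ((b * D0 b : ℕ) : ℝ) = ((b * D0 b).totient : ℝ) * (QQ b j : ℝ) := by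
    exact_mod_cast h3
  have h5 : (((b * D0 b).totient : ℕ) : ℝ) ≠ 0 := by
    have := Nat.totient_pos.2 (Nat.pos_of_ne_zero hr0)
    exact_mod_cast this.ne'
  have h6 : (QQ b j : ℝ) ≠ 0 := by exact_mod_cast hq0
  unfold kap
  rw [div_mul_div_comm, div_eq_one_iff_eq (mul_ne_zero h5 h6), ← h4]
  ring

open scoped Classical in
private theorem cb7_diff {q : ℕ} (hq : q ≠ 0) (lam x : ℝ) :
    ‖GS (tw (1 : DirichletCharacter ℂ q) lam * (fun n : ℕ ↦ (Λ n : ℂ))) x -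
      GS (fun n => (Λ n : ℂ) * cp lam n) x‖ ≤ 4 * q.primeFactors.card * Real.exp (-x / 4) := by
  have hs := summable_wn x
  have hs1 := Pool.Agent.LibPL63.summable_GS (summable_twL (1 : DirichletCharacter ℂ q) lam one_pos) x
  have hW : ∀ n : ℕ, (0 : ℝ) ≤ gw (Real.log n - x) / n := fun n =>
    div_nonneg (Pool.Agent.LibMaier.gw_nonneg _) (Nat.cast_nonneg _)
  have hnorm : ∀ n : ℕ, ‖(Λ n : ℂ) * cp lam n * ((gw (Real.log n - x) / n : ℝ) : ℂ)‖ = wn x n := by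
    intro n
    rw [norm_mul, norm_mul, norm_cp, Complex.norm_real, Complex.norm_real, mul_one, Real.norm_eq_abs,
      Real.norm_eq_abs, abs_of_nonneg ArithmeticFunction.vonMangoldt_nonneg, abs_of_nonneg (hW n)]
    rfl
  have hs2 : Summable fun n : ℕ => (Λ n : ℂ) * cp lam n * ((gw (Real.log n - x) / n : ℝ) : ℂ) := by
    apply Summable.of_norm
    exact hs.congr fun n => (hnorm n).symm
  have hterm : ∀ n : ℕ, ‖(tw (1 : DirichletCharacter ℂ q) lam * (fun n : ℕ ↦ (Λ n : ℂ))) n *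
      ((gw (Real.log n - x) / n : ℝ) : ℂ) - (Λ n : ℂ) * cp lam n * ((gw (Real.log n - x) / n : ℝ) : ℂ)‖ =
      if n.Coprime q then 0 else wn x n := by
    intro n
    rw [Pi.mul_apply, tw]
    split_ifs with h
    · have h1 : (1 : DirichletCharacter ℂ q) (n : ZMod q) = 1 :=
        MulChar.one_apply ((ZMod.isUnit_iff_coprime n q).2 h)
      rw [h1, norm_eq_zero]
      ring
    · have h1 : (1 : DirichletCharacter ℂ q) (n : ZMod q) = 0 :=
        MulChar.map_nonunit _ (fun hu => h ((ZMod.isUnit_iff_coprime n q).1 hu))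
      rw [h1, zero_mul, zero_mul, zero_mul, zero_sub, norm_neg, hnorm n]
  unfold GS
  rw [← hs1.tsum_sub hs2]
  refine (norm_tsum_le_tsum_norm ?_).trans ?_
  · exact (hs1.sub hs2).norm
  · rw [tsum_congr hterm]
    have := Pool.Agent.LibPL63.tsum_not_coprime_le hq x
    convert this using 1

theorem low_all (b K : ℕ) (hb : 2 ≤ b) : ∃ x0 : ℝ, 1 ≤ x0 ∧ ∀ x : ℝ, x0 ≤ x →
    ∀ (j : ℕ) [NeZero (QQ b j)] (χ : DirichletCharacter ℂ (QQ b j)) (lam : ℝ), 1 ≤ j → (b : ℝ) ^ j ≤ x ^ K →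
      |lam| ≤ x ^ K → ‖DD b χ x lam‖ ≤ Real.exp (-Real.sqrt x) := by
  obtain ⟨xa, hxa1, hxa⟩ := low_nonprincipal b K hb
  obtain ⟨xz, hxz1, hxz⟩ := zeta_GS K
  obtain ⟨C1, hC1, htw⟩ := tw_GS
  have hkap := cb3_kap_nonneg b
  obtain ⟨W, hW⟩ : ∃ W : ℝ, W = ((b * D0 b).primeFactors.card : ℝ) := ⟨_, rfl⟩
  have hW0 : 0 ≤ W := by rw [hW]; positivity
  have hev : ∀ᶠ x : ℝ in atTop, 5 ≤ x ∧ (D0 b : ℝ) ≤ x ∧ 1 ≤ Real.log x ∧ 1 ≤ Real.sqrt x ∧
      (4 * W + kap b * (2 * C1)) * x ^ (2 * K + 1) * Real.exp (-(1 / 4 * x / Real.log x)) ≤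
        Real.exp (-(2 * Real.sqrt x)) := by
    filter_upwards [eventually_ge_atTop (5 : ℝ), eventually_ge_atTop (D0 b : ℝ),
      Real.tendsto_log_atTop.eventually_ge_atTop 1, Real.tendsto_sqrt_atTop.eventually_ge_atTop 1,
      cb3_final (4 * W + kap b * (2 * C1)) (1 / 4) (2 * K + 1) (by positivity)] with x h1 h2 h3 h4 h5
    exact ⟨h1, h2, h3, h4, h5⟩
  obtain ⟨x1, hx1⟩ := eventually_atTop.1 hev
  refine ⟨max x1 (max xa xz), hxa1.trans ((le_max_left _ _).trans (le_max_right _ _)), ?_⟩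
  intro x hx j _ χ lam hj hbj hlam
  have hxxa : xa ≤ x := ((le_max_left _ _).trans (le_max_right _ _)).trans hx
  have hxxz : xz ≤ x := ((le_max_right _ _).trans (le_max_right _ _)).trans hx
  by_cases hχ : χ ≠ 1
  · exact hxa x hxxa j χ lam hj hbj hχ hlam
  push Not at hχ
  subst hχ
  obtain ⟨h5, hD0, hlog1, hsq1, hfin⟩ := hx1 x ((le_max_left _ _).trans hx)
  have hx0 : 0 < x := by linarith
  have hx1' : (1 : ℝ) ≤ x := by linarith
  have hxK : 1 ≤ x ^ K := one_le_pow₀ hx1'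
  have hq0 : QQ b j ≠ 0 := NeZero.ne _
  have hqx : (QQ b j : ℝ) ≤ x ^ (K + 1) := by
    rw [QQ]
    push_cast
    calc (D0 b : ℝ) * (b : ℝ) ^ j ≤ x * x ^ K := mul_le_mul hD0 hbj (by positivity) hx0.le
      _ = x ^ (K + 1) := by ring
  have hz := hxz x hxxz lam hlam
  have hd := cb7_diff hq0 lam x
  rw [cb7_pf hb hj, ← hW] at hd
  have ht := htw (QQ b j) 1 lam x hx0.le
  obtain ⟨m, hm⟩ : ∃ m : ℂ, m = cexp (((lam * x : ℝ) : ℂ) * I - ((lam ^ 2 / 2 : ℝ) : ℂ)) := ⟨_, rfl⟩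
  have hmain : mainI (1 : DirichletCharacter ℂ (QQ b j)) lam x =
      ((((QQ b j).totient : ℝ) / (QQ b j : ℕ) : ℝ) : ℂ) * m := by
    unfold mainI
    rw [if_pos rfl, hm]
  rw [hmain] at ht
  rw [← hm] at hz
  have hk : (kap b : ℂ) * ((((QQ b j).totient : ℝ) / (QQ b j : ℕ) : ℝ) : ℂ) = 1 := by
    rw [← Complex.ofReal_mul, kap_mul b hb hj, Complex.ofReal_one]
  obtain ⟨E, hE⟩ : ∃ E : ℝ, E = Real.exp (-(1 / 4 * x / Real.log x)) := ⟨_, rfl⟩
  have hE0 : 0 < E := by rw [hE]; exact Real.exp_pos _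
  have hxl : 1 / 4 * x / Real.log x ≤ x / 4 := by
    rw [div_le_iff₀ (by linarith)]
    nlinarith
  have hE1 : Real.exp (-x / 4) ≤ E := by
    rw [hE]
    apply Real.exp_le_exp.2
    linarith
  have hE2 : Real.exp (-x) ≤ E := by
    rw [hE]
    apply Real.exp_le_exp.2
    linarith
  have hP1 : (1 : ℝ) ≤ x ^ (2 * K + 1) := one_le_pow₀ hx1'
  have hA : ‖GS (tw (1 : DirichletCharacter ℂ (QQ b j)) lam * (fun n : ℕ ↦ (Λ n : ℂ))) x -
      GS (fun n => (Λ n : ℂ) * cp lam n) x‖ ≤ 4 * W * x ^ (2 * K + 1) * E := by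
    refine hd.trans ?_
    apply mul_le_mul _ hE1 (Real.exp_pos _).le (by positivity)
    exact le_mul_of_one_le_right (by positivity) hP1
  have hB : ‖(kap b : ℂ) * GS (tw (1 : DirichletCharacter ℂ (QQ b j)) lam) x - m‖ ≤
      kap b * (2 * C1) * x ^ (2 * K + 1) * E := by
    have e : (kap b : ℂ) * GS (tw (1 : DirichletCharacter ℂ (QQ b j)) lam) x - m =
        (kap b : ℂ) * (GS (tw (1 : DirichletCharacter ℂ (QQ b j)) lam) x -
          ((((QQ b j).totient : ℝ) / (QQ b j : ℕ) : ℝ) : ℂ) * m) := by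
      rw [mul_sub, ← mul_assoc, hk, one_mul]
    rw [e, norm_mul, Complex.norm_real, Real.norm_eq_abs, abs_of_nonneg hkap]
    calc kap b * ‖GS (tw (1 : DirichletCharacter ℂ (QQ b j)) lam) x -
          ((((QQ b j).totient : ℝ) / (QQ b j : ℕ) : ℝ) : ℂ) * m‖
        ≤ kap b * (C1 * (QQ b j : ℝ) * (1 + |lam|) * Real.exp (-x)) := mul_le_mul_of_nonneg_left ht hkap
      _ ≤ kap b * (C1 * x ^ (K + 1) * (2 * x ^ K) * E) := by
          apply mul_le_mul_of_nonneg_left _ hkap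
          apply mul_le_mul _ hE2 (Real.exp_pos _).le (by positivity)
          apply mul_le_mul _ (by linarith) (by positivity) (by positivity)
          exact mul_le_mul_of_nonneg_left hqx hC1.le
      _ = kap b * (2 * C1) * x ^ (2 * K + 1) * E := by ring
  rw [DD_eq b hb hj 1 x lam]
  have hsplit : GS (tw (1 : DirichletCharacter ℂ (QQ b j)) lam * (fun n : ℕ ↦ (Λ n : ℂ))) x -
      (kap b : ℂ) * GS (tw (1 : DirichletCharacter ℂ (QQ b j)) lam) x =
      (GS (tw (1 : DirichletCharacter ℂ (QQ b j)) lam * (fun n : ℕ ↦ (Λ n : ℂ))) x -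
        GS (fun n => (Λ n : ℂ) * cp lam n) x) + (GS (fun n => (Λ n : ℂ) * cp lam n) x - m) -
      ((kap b : ℂ) * GS (tw (1 : DirichletCharacter ℂ (QQ b j)) lam) x - m) := by ring
  rw [hsplit]
  refine (norm_sub_le _ _).trans ?_
  have h1 := norm_add_le (GS (tw (1 : DirichletCharacter ℂ (QQ b j)) lam * (fun n : ℕ ↦ (Λ n : ℂ))) x -
        GS (fun n => (Λ n : ℂ) * cp lam n) x) (GS (fun n => (Λ n : ℂ) * cp lam n) x - m)
  rw [← hE] at hfin
  have h2 : 4 * W * x ^ (2 * K + 1) * E + kap b * (2 * C1) * x ^ (2 * K + 1) * E ≤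
      Real.exp (-(2 * Real.sqrt x)) := by
    calc _ = (4 * W + kap b * (2 * C1)) * x ^ (2 * K + 1) * E := by ring
      _ ≤ _ := hfin
  have h3 : 2 * Real.exp (-(2 * Real.sqrt x)) ≤ Real.exp (-Real.sqrt x) := by
    have h4 : Real.exp (-(2 * Real.sqrt x)) = Real.exp (-Real.sqrt x) * Real.exp (-Real.sqrt x) := by
      rw [← Real.exp_add]
      congr 1
      ring
    have h5 : Real.exp (-Real.sqrt x) ≤ 1 / 2 := by
      have h6 := Real.add_one_le_exp (Real.sqrt x)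
      rw [Real.exp_neg, one_div]
      exact inv_anti₀ (by norm_num) (by linarith)
    rw [h4]
    nlinarith [Real.exp_pos (-Real.sqrt x)]
  linarith

end Pool.Agent.LibHG31
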