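import Pool.Agent.LibHG31.CP3

/-! ROW CP4: the prefix function at the integers.
PLAN: `k ∈ KS`: `e^(log k) = k`, `⌊k / b^(L-J)⌋ = k / b^(L-J)` (`Nat.floor_div_natCast`), `rv b L k ≡ rv b J (k / b^(L-J)) mod b^J`
(the digit `j` of `k` with `j ≥ L-J` is the digit `j-(L-J)` of the quotient, the others are multiplied by `b^J`),
`rv b L k ≡ b^(L-1) k ≡ b^(L-1) r mod D0` (`b² ≡ 1`). So `Zf ≡ N - rv b L k` mod `b^J` and mod `D0` (coprime), `QQ b J = D0 b^J`. -/

namespace Pool.Agent.LibHG31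

open Finset Complex
open scoped ComplexConjugate
open Pool.Agent.LibMaier (gw)

private theorem cp4_dg_lt (b j n : ℕ) (hb : 0 < b) : dg b j n < b := Nat.mod_lt _ hb

/-- `n < b^L` is the sum of its digits -/
private theorem cp4_sum_dg (b L n : ℕ) (hb : 0 < b) (hn : n < b ^ L) : ∑ j ∈ range L, dg b j n * b ^ j = n := by
  have h : ∀ L, ∑ j ∈ range L, dg b j n * b ^ j = n % b ^ L := by
    intro L
    induction L with
    | zero => simp [Nat.mod_one]
    | succ L ih =>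
      rw [Finset.sum_range_succ, ih, Nat.mod_pow_succ]
      unfold dg
      ring
  rw [h, Nat.mod_eq_of_lt hn]

private theorem cp4_e_sum_lt (b : ℕ) (hb : 1 ≤ b) (a : ℕ → ℕ) (L : ℕ) (ha : ∀ k < L, a k < b) :
    ∑ k ∈ range L, a k * b ^ k < b ^ L := by
  induction L with
  | zero => simp
  | succ L ih =>
    rw [Finset.sum_range_succ]
    have h1 := ih fun k hk => ha k (by omega)
    have h2 : a L + 1 ≤ b := ha L (by omega)
    have h3 : (a L + 1) * b ^ L ≤ b * b ^ L := Nat.mul_le_mul_right _ h2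
    rw [pow_succ]
    nlinarith

private theorem cp4_e_dg_add (b i v ε : ℕ) (hb : 0 < b) : dg b i (v + b ^ (i + 1) * ε) = dg b i v := by
  unfold dg
  have e : v + b ^ (i + 1) * ε = v + b ^ i * (b * ε) := by ring
  rw [e, Nat.add_mul_div_left _ _ (pow_pos hb i), Nat.add_mul_mod_self_left]

private theorem cp4_e_dg_sum (b : ℕ) (hb : 1 ≤ b) (a : ℕ → ℕ) (L i : ℕ) (ha : ∀ k < L, a k < b) (hi : i < L) :
    dg b i (∑ k ∈ range L, a k * b ^ k) = a i := by
  obtain ⟨m, rfl⟩ := Nat.exists_eq_add_of_le (Nat.succ_le_of_lt hi)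
  rw [Finset.sum_range_add]
  have e : ∑ x ∈ range m, a (i.succ + x) * b ^ (i.succ + x) =
      b ^ (i + 1) * ∑ x ∈ range m, a (i.succ + x) * b ^ x := by
    rw [Finset.mul_sum]
    refine Finset.sum_congr rfl fun x _ => ?_
    rw [Nat.succ_eq_add_one, pow_add b (i + 1) x]
    ring
  rw [e, cp4_e_dg_add b i _ _ hb, Finset.sum_range_succ]
  have h1 : ∑ k ∈ range i, a k * b ^ k < b ^ i := cp4_e_sum_lt b hb a i fun k hk => ha k (by omega)
  unfold dg
  rw [mul_comm (a i), Nat.add_mul_div_left _ _ (pow_pos hb i), Nat.div_eq_of_lt h1, zero_add,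
    Nat.mod_eq_of_lt (ha i hi)]

private theorem cp4_e_rv_eq (b L n : ℕ) : rv b L n = ∑ k ∈ range L, dg b (L - 1 - k) n * b ^ k := by
  unfold rv
  rw [← Finset.sum_range_reflect]
  refine Finset.sum_congr rfl fun j hj => ?_
  have := Finset.mem_range.1 hj
  congr 2
  omega

private theorem cp4_rv_lt (b L n : ℕ) (hb : 1 ≤ b) : rv b L n < b ^ L := by
  rw [cp4_e_rv_eq]
  exact cp4_e_sum_lt b hb (fun k => dg b (L - 1 - k) n) L fun k _ => cp4_dg_lt b _ n hb

/-- the `i`-th digit of the reversal is the digit `L-1-i` of `n`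
(`rv b L n = ∑_{i<L} dg b (L-1-i) n * b^i` by `Finset.sum_range_reflect`, and uniqueness of digits). -/
private theorem cp4_dg_rv (b L n i : ℕ) (hb : 1 ≤ b) (hi : i < L) : dg b i (rv b L n) = dg b (L - 1 - i) n := by
  rw [cp4_e_rv_eq]
  exact cp4_e_dg_sum b hb (fun k => dg b (L - 1 - k) n) L i (fun k _ => cp4_dg_lt b _ n hb) hi

private theorem cp4_rv_rv (b L n : ℕ) (hb : 1 ≤ b) (hn : n < b ^ L) : rv b L (rv b L n) = n := by
  have h : rv b L (rv b L n) = ∑ j ∈ range L, dg b (L - 1 - j) n * b ^ (L - 1 - j) := by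
    conv_lhs => unfold rv
    refine Finset.sum_congr rfl fun j hj => ?_
    have h2 := cp4_dg_rv b L n j hb (Finset.mem_range.1 hj)
    unfold rv at h2
    rw [h2]
  rw [h, Finset.sum_range_reflect (fun j => dg b j n * b ^ j) L]
  exact cp4_sum_dg b L n hb hn

private theorem cp4_rv_injOn (b L : ℕ) (hb : 1 ≤ b) : Set.InjOn (rv b L) {n | n < b ^ L} := by
  intro x hx y hy h
  have h1 := cp4_rv_rv b L x hb hx
  have h2 := cp4_rv_rv b L y hb hy
  rw [← h1, ← h2]
  exact congrArg _ h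

/-- splitting: for `J ≤ L`, `rv b L n = rv b J (n / b^(L-J)) + b^J * rv b (L-J) (n % b^(L-J))` (`n < b^L`):
the `J` top digits of `n` give the `J` low digits of the reversal. -/
private theorem cp4_rv_split (b L J n : ℕ) (hb : 1 ≤ b) (hJ : J ≤ L) (hn : n < b ^ L) :
    rv b L n = rv b J (n / b ^ (L - J)) + b ^ J * rv b (L - J) (n % b ^ (L - J)) := by
  obtain ⟨K, rfl⟩ := Nat.exists_eq_add_of_le' hJ
  rw [Nat.add_sub_cancel]
  unfold rv
  rw [Finset.sum_range_add, Finset.mul_sum, add_comm]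
  congr 1
  · refine Finset.sum_congr rfl fun j hj => ?_
    have hj' := Finset.mem_range.1 hj
    have h1 : dg b (K + j) n = dg b j (n / b ^ K) := by
      unfold dg
      rw [pow_add, Nat.div_div_eq_div_mul]
    have h2 : K + J - 1 - (K + j) = J - 1 - j := by omega
    rw [h1, h2]
  · refine Finset.sum_congr rfl fun j hj => ?_
    have hj' := Finset.mem_range.1 hj
    have h1 : dg b j n = dg b j (n % b ^ K) := by
      obtain ⟨k, rfl⟩ := Nat.exists_eq_add_of_lt hj'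
      conv_lhs => rw [← Nat.mod_add_div n (b ^ (j + k + 1))]
      have e : b ^ (j + k + 1) * (n / b ^ (j + k + 1)) =
          b ^ (j + 1) * (b ^ k * (n / b ^ (j + k + 1))) := by
        generalize n / b ^ (j + k + 1) = t
        ring
      rw [e, cp4_e_dg_add b j _ _ hb]
    have h2 : K + J - 1 - j = J + (K - 1 - j) := by omega
    rw [h1, h2, pow_add]
    ring

private theorem cp4_rv_mod (b L J n : ℕ) (hb : 1 ≤ b) (hJ : J ≤ L) (hn : n < b ^ L) :
    rv b L n % b ^ J = rv b J (n / b ^ (L - J)) := by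
  rw [cp4_rv_split b L J n hb hJ hn, Nat.add_mul_mod_self_left, Nat.mod_eq_of_lt (cp4_rv_lt b J _ hb)]

private theorem cp4_e_II_lt (b L l k : ℕ) (hL : 1 ≤ L) (hl : l < b) (hk : k ∈ II b L l) : k < b ^ L := by
  have h1 := (Finset.mem_Ico.1 hk).2
  have h2 : (l + 1) * b ^ (L - 1) ≤ b * b ^ (L - 1) := Nat.mul_le_mul_right _ hl
  have h3 : b * b ^ (L - 1) = b ^ L := by
    obtain ⟨m, rfl⟩ := Nat.exists_eq_add_of_le' hL
    rw [Nat.add_sub_cancel]
    ring
  omega

/-- `k` with leading digit `l`: the reversal is `≡ l mod b` -/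
private theorem cp4_rv_mod_b (b L l k : ℕ) (hb : 2 ≤ b) (hL : 1 ≤ L) (hl : l < b) (hk : k ∈ II b L l) :
    rv b L k % b = l := by
  have hb1 : 1 ≤ b := by omega
  have h1 := cp4_rv_mod b L 1 k hb1 hL (cp4_e_II_lt b L l k hL hl hk)
  rw [pow_one] at h1
  rw [h1]
  have h2 : k / b ^ (L - 1) = l := by
    have h3 := Finset.mem_Ico.1 hk
    rw [Nat.div_eq_iff (pow_pos (by omega) _)]
    constructor
    · exact h3.1
    · have h4 : (l + 1) * b ^ (L - 1) = l * b ^ (L - 1) + b ^ (L - 1) := by ring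
      have h5 : 0 < b ^ (L - 1) := pow_pos (by omega) _
      omega
  rw [h2]
  simp [rv, dg, Nat.mod_eq_of_lt hl]

private theorem cp4_e_sq (b : ℕ) (hb : 2 ≤ b) : b ^ 2 ≡ 1 [MOD D0 b] := by
  unfold D0
  have h : 1 ≤ b ^ 2 := Nat.one_le_pow _ _ (by omega)
  exact ((Nat.modEq_iff_dvd' h).2 dvd_rfl).symm

/-- modulo `b² - 1`: `rv b L k ≡ b^(L-1) k` since `b · b ≡ 1`, so `b^(L-1-j) ≡ b^(L-1) b^j`. -/
private theorem cp4_rv_mod_D0 (b L k : ℕ) (hb : 2 ≤ b) (hL : 1 ≤ L) (hk : k < b ^ L) :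
    rv b L k ≡ b ^ (L - 1) * k [MOD D0 b] := by
  have h1 : b ^ (L - 1) * k = ∑ j ∈ range L, dg b j k * (b ^ (L - 1 - j) * (b ^ 2) ^ j) := by
    conv_lhs => rw [← cp4_sum_dg b L k (by omega) hk]
    rw [Finset.mul_sum]
    refine Finset.sum_congr rfl fun j hj => ?_
    have hj' := Finset.mem_range.1 hj
    have e : b ^ (L - 1) = b ^ (L - 1 - j) * b ^ j := by
      rw [← pow_add]
      congr 1
      omega
    rw [e, ← pow_mul]
    ring
  rw [h1]
  unfold rv
  refine Nat.ModEq.sum fun j _ => ?_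
  refine Nat.ModEq.mul_left _ ?_
  have h2 : (b ^ 2) ^ j ≡ 1 ^ j [MOD D0 b] := (cp4_e_sq b hb).pow j
  rw [one_pow] at h2
  have h3 := (h2.mul_left (b ^ (L - 1 - j))).symm
  rwa [mul_one] at h3

theorem CP4_rv_mod_D0 (b L k : ℕ) (hb : 2 ≤ b) (hk : k < b ^ L) (hL : 1 ≤ L) :
    (rv b L k : ℤ) ≡ (b : ℤ) ^ (L - 1) * k [ZMOD (D0 b : ℤ)] := by
  have h := (Int.natCast_modEq_iff).mpr (cp4_rv_mod_D0 b L k hb hL hk)
  push_cast at h
  exact h

theorem rv_mod_pow (b L J k : ℕ) (hJ : J ≤ L) (hk : k < b ^ L) :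
    (rv b L k : ℤ) ≡ rv b J (k / b ^ (L - J)) [ZMOD ((b : ℤ) ^ J)] := by
  rcases Nat.eq_zero_or_pos b with hb | hb
  · subst hb
    rcases Nat.eq_zero_or_pos L with hL | hL
    · subst hL
      have hJ0 : J = 0 := by omega
      subst hJ0
      simpa using Int.modEq_one
    · rw [zero_pow (by omega)] at hk
      omega
  · have h1 := cp4_rv_mod b L J k hb hJ hk
    have h2 : rv b L k ≡ rv b J (k / b ^ (L - J)) [MOD b ^ J] := by
      unfold Nat.ModEq
      rw [h1, Nat.mod_eq_of_lt (cp4_rv_lt b J _ hb)]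
    have h := (Int.natCast_modEq_iff).mpr h2
    push_cast at h
    exact h

private theorem cp4_cop {a a' m : ℤ} (h : IsCoprime a m) (h2 : a' ≡ a [ZMOD m]) : IsCoprime a' m := by
  obtain ⟨t, ht⟩ := (Int.modEq_iff_dvd.mp h2.symm)
  have e2 : a' = a + m * t := by linarith
  rw [e2]
  exact (IsCoprime.add_mul_left_left_iff).mpr h

/-- `N - rev k` is a unit modulo `b D0` (hence modulo `QQ b J`) -/
theorem unit_y (b L J N l r k : ℕ) (h : Adm b L J) (hg : Good b L l r N) (hk : k ∈ KS b L l r) :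
    IsCoprime ((N : ℤ) - rv b L k) ((b * D0 b : ℕ) : ℤ) ∧ IsCoprime ((N : ℤ) - rv b L k) (QQ b J : ℤ) := by
  obtain ⟨hb, hJ, _, hLJ⟩ := h
  obtain ⟨_, _, hl1, hlb, _, hNl, _, hNr⟩ := hg
  have hL : 1 ≤ L := by omega
  have hkI := (Finset.mem_filter.1 hk).1
  have hkL : k < b ^ L := cp4_e_II_lt b L l k hL hlb hkI
  have h1 : (rv b L k : ℤ) ≡ l [ZMOD (b : ℤ)] := by
    have h2 := cp4_rv_mod_b b L l k hb hL hlb hkI
    have h3 : rv b L k ≡ l [MOD b] := by
      unfold Nat.ModEq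
      rw [h2, Nat.mod_eq_of_lt hlb]
    exact (Int.natCast_modEq_iff).mpr h3
  have h2 : (rv b L k : ℤ) ≡ (b : ℤ) ^ (L - 1) * r [ZMOD (D0 b : ℤ)] := by
    refine (CP4_rv_mod_D0 b L k hb hkL hL).trans ?_
    exact ((Int.natCast_modEq_iff).mpr (Finset.mem_filter.1 hk).2.2).mul_left _
  have c1 : IsCoprime ((N : ℤ) - rv b L k) (b : ℤ) := cp4_cop hNl ((Int.ModEq.refl _).sub h1)
  have c2 : IsCoprime ((N : ℤ) - rv b L k) (D0 b : ℤ) := cp4_cop hNr ((Int.ModEq.refl _).sub h2)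
  constructor
  · push_cast
    exact c1.mul_right c2
  · unfold QQ
    push_cast
    exact c2.mul_right (c1.pow_right)

theorem Fp_log (b L J N l r : ℕ) (h : Adm b L J) (hg : Good b L l r N) (χ : DirichletCharacter ℂ (QQ b J)) :
    (∀ k ∈ KS b L l r, Fp b L J N l r χ (Real.log k) * ((gw (Real.log k - xL b L) / k : ℝ) : ℂ) =
      conj (χ (((N : ℤ) - rv b L k : ℤ) : ZMod (QQ b J)))) ∧
    ∀ k : ℕ, k.Coprime b → k ≡ r [MOD D0 b] → k ∉ KS b L l r → Fp b L J N l r χ (Real.log k) = 0 ∨ k = 0 := by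
  obtain ⟨hb, hJ, _, hLJ⟩ := h
  obtain ⟨_, _, hl1, hlb, _, hNl, _, hNr⟩ := hg
  have hL : 1 ≤ L := by omega
  have hbpos : 0 < b ^ (L - 1) := pow_pos (by omega) _
  constructor
  · intro k hk
    have hkI := (Finset.mem_filter.1 hk).1
    have hkL : k < b ^ L := cp4_e_II_lt b L l k hL hlb hkI
    have hkI' := Finset.mem_Ico.1 hkI
    have hk0 : 0 < k := lt_of_lt_of_le (Nat.mul_pos (by omega) hbpos) hkI'.1
    have hkR : (0 : ℝ) < (k : ℝ) := by exact_mod_cast hk0
    have hexp : Real.exp (Real.log k) = k := Real.exp_log hkR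
    have hgw : 0 < gw (Real.log k - xL b L) := by
      unfold Pool.Agent.LibMaier.gw
      positivity
    have hcond : (l : ℝ) * (b : ℝ) ^ (L - 1) ≤ Real.exp (Real.log k) ∧
        Real.exp (Real.log k) < ((l : ℝ) + 1) * (b : ℝ) ^ (L - 1) := by
      rw [hexp]
      constructor
      · exact_mod_cast hkI'.1
      · exact_mod_cast hkI'.2
    have hfl : ⌊Real.exp (Real.log k) / (b : ℝ) ^ (L - J)⌋₊ = k / b ^ (L - J) := by
      rw [hexp, ← Nat.cast_pow]
      exact Nat.floor_div_eq_div _ _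
    have hZ := Zf_mod b L J r N (k / b ^ (L - J)) hb
    have hcop : (D0 b).Coprime (b ^ J) := by
      apply Nat.Coprime.pow_right
      unfold D0
      have h1 : 1 ≤ b ^ 2 := Nat.one_le_pow _ _ (by omega)
      have h2 : (b ^ 2 - 1).Coprime (b ^ 2) := by
        have h3 : (b ^ 2 - 1).Coprime ((b ^ 2 - 1) + 1) := by simp
        have e : (b ^ 2 - 1) + 1 = b ^ 2 := by omega
        rwa [e] at h3
      exact Nat.Coprime.coprime_dvd_right (dvd_pow_self b (by norm_num)) h2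
    have hZ2 : Zf b L J r N (k / b ^ (L - J)) ≡ (N : ℤ) - rv b L k [ZMOD (QQ b J : ℤ)] := by
      have e : ((QQ b J : ℕ) : ℤ) = (D0 b : ℤ) * ((b ^ J : ℕ) : ℤ) := by
        unfold QQ
        push_cast
        rfl
      rw [e]
      refine (Int.modEq_and_modEq_iff_modEq_mul (by simpa using hcop)).mp ⟨?_, ?_⟩
      · refine hZ.2.trans ((Int.ModEq.refl _).sub ?_)
        refine Int.ModEq.symm ((CP4_rv_mod_D0 b L k hb hkL hL).trans ?_)
        exact ((Int.natCast_modEq_iff).mpr (Finset.mem_filter.1 hk).2.2).mul_left _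
      · push_cast
        refine hZ.1.trans ((Int.ModEq.refl _).sub ?_)
        exact (rv_mod_pow b L J k (by omega) hkL).symm
    have hZ3 : ((Zf b L J r N (k / b ^ (L - J)) : ℤ) : ZMod (QQ b J)) =
        (((N : ℤ) - rv b L k : ℤ) : ZMod (QQ b J)) := (ZMod.intCast_eq_intCast_iff _ _ _).mpr hZ2
    unfold Fp
    rw [if_pos hcond, hfl, hZ3, hexp, mul_assoc, ← Complex.ofReal_mul]
    have e : (k : ℝ) / gw (Real.log k - xL b L) * (gw (Real.log k - xL b L) / k) = 1 := by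
      field_simp
    rw [e, Complex.ofReal_one, mul_one]
  · intro k hkb hkr hkn
    rcases Nat.eq_zero_or_pos k with hk0 | hk0
    · right
      exact hk0
    · left
      have hkR : (0 : ℝ) < (k : ℝ) := by exact_mod_cast hk0
      have hexp : Real.exp (Real.log k) = k := Real.exp_log hkR
      unfold Fp
      rw [if_neg]
      rw [hexp]
      rintro ⟨h1, h2⟩
      apply hkn
      unfold KS II
      rw [Finset.mem_filter, Finset.mem_Ico]
      refine ⟨⟨?_, ?_⟩, hkb, hkr⟩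
      · exact_mod_cast h1
      · exact_mod_cast h2

end Pool.Agent.LibHG31
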