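import Pool.Agent.LibHG31.CG1
import Pool.Agent.LibHG31.CP4

/-! ROW CE1: the location of `rev k` may be computed from the suffix.
PLAN: `CG1_krn_eq`; `|(N - rv b L k) - ys| ≤ b^(L-M)` for `k < b^L` (`rv b L k = b^(L-M) rv b M (k % b^M) + rest`, `0 ≤ rest < b^(L-M)`), `hh_lip`;
crude: `∑_{k∈KS}|Dl b k| ≤ C L b^L`, `∑_{n<XX}|Dl b n| ≤ C L b^(L+3)`, factor `QQ b J · b^(L-M)/Hr²`, `M = 12J+2`, `Hr ≥ b^(L-J)`. -/

namespace Pool.Agent.LibHG31

open Finset

theorem ce1_kap_nonneg (b : ℕ) : 0 ≤ kap b := by unfold kap; positivity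

theorem Dl_le (b : ℕ) (hb : 2 ≤ b) : ∃ C : ℝ, 0 < C ∧ ∀ L n : ℕ, 1 ≤ L → n < XX b L → |Dl b n| ≤ C * L := by
  have hb1 : (1 : ℝ) < b := by exact_mod_cast (by omega : 1 < b)
  have hlg : 0 < Real.log b := Real.log_pos hb1
  have hkap := ce1_kap_nonneg b
  refine ⟨4 * Real.log b + kap b, by positivity, ?_⟩
  intro L n hL hn
  have hL' : (1 : ℝ) ≤ L := by exact_mod_cast hL
  have h1 : 0 ≤ ArithmeticFunction.vonMangoldt n := ArithmeticFunction.vonMangoldt_nonneg
  have h2 : ArithmeticFunction.vonMangoldt n ≤ Real.log n := ArithmeticFunction.vonMangoldt_le_log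
  have h3 : 0 ≤ LamS b n ∧ LamS b n ≤ kap b := by
    unfold LamS
    split_ifs
    · exact ⟨hkap, le_rfl⟩
    · exact ⟨le_rfl, hkap⟩
  have h4 : Real.log n ≤ 4 * Real.log b * L := by
    rcases Nat.eq_zero_or_pos n with h0 | h0
    · subst h0; simp; positivity
    · have h5 : (n : ℝ) ≤ (b : ℝ) ^ (L + 3) := by
        have : n ≤ b ^ (L + 3) := hn.le
        exact_mod_cast this
      have h6 : Real.log n ≤ Real.log ((b : ℝ) ^ (L + 3)) := Real.log_le_log (by exact_mod_cast h0) h5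
      rw [Real.log_pow] at h6
      push_cast at h6
      nlinarith
  have h5 : 0 ≤ Real.log n := le_trans h1 h2
  have h6 : kap b ≤ kap b * L := by nlinarith
  unfold Dl
  rw [abs_le]
  constructor
  · nlinarith [h3.1, h3.2]
  · nlinarith [h3.1, h3.2]

/-- splitting the digits -/
theorem ce1_split (b L M k : ℕ) (hM : M ≤ L) :
    rv b L k = b ^ (L - M) * rv b M (k % b ^ M) + rv b (L - M) (k / b ^ M) := by
  unfold rv
  have e0 : range L = range (M + (L - M)) := by congr 1; omega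
  rw [e0, sum_range_add, mul_sum]
  congr 1
  · apply sum_congr rfl
    intro j hj
    rw [mem_range] at hj
    have h1 : dg b j k = dg b j (k % b ^ M) := by
      unfold dg
      have e1 : b ^ M = b ^ j * b ^ (M - j) := by rw [← pow_add]; congr 1; omega
      have e2 : b ^ (M - j) = b * b ^ (M - j - 1) := by rw [← pow_succ']; congr 1; omega
      rw [e1, Nat.mod_mul_right_div_self, e2, Nat.mod_mul_right_mod]
    rw [h1, show L - 1 - j = (L - M) + (M - 1 - j) by omega, pow_add]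
    ring
  · apply sum_congr rfl
    intro i hi
    rw [mem_range] at hi
    have h1 : dg b (M + i) k = dg b i (k / b ^ M) := by
      unfold dg
      rw [Nat.div_div_eq_div_mul, ← pow_add]
    rw [h1]
    congr 2
    omega

theorem ce1_card (b L l r : ℕ) (hb : 2 ≤ b) : (KS b L l r).card ≤ b ^ L := by
  unfold KS II
  refine (card_filter_le _ _).trans ?_
  rw [Nat.card_Ico]
  have h1 : (l + 1) * b ^ (L - 1) - l * b ^ (L - 1) = b ^ (L - 1) := by
    rw [add_mul, one_mul]; omega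
  rw [h1]
  exact Nat.pow_le_pow_right (by omega) (by omega)

theorem ce1_k_lt (b L l r k : ℕ) (hb : 2 ≤ b) (hL : 1 ≤ L) (hlb : l < b) (hk : k ∈ KS b L l r) :
    k < XX b L := by
  unfold KS II at hk
  rw [mem_filter, mem_Ico] at hk
  unfold XX
  have e1 : b ^ L = b * b ^ (L - 1) := by rw [← pow_succ']; congr 1; omega
  have h1 : (l + 1) * b ^ (L - 1) ≤ b ^ L := by rw [e1]; exact Nat.mul_le_mul_right _ hlb
  have h2 : b ^ L ≤ b ^ (L + 3) := Nat.pow_le_pow_right (by omega) (by omega)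
  omega

theorem EE_sub (b : ℕ) (hb : 2 ≤ b) : ∃ C : ℝ, 0 < C ∧ ∀ L J N l r : ℕ, Adm b L J → Good b L l r N →
    |EE b L J N l r - EEs b L J N l r| ≤ C * L ^ 2 * (b : ℝ) ^ L / (b : ℝ) ^ J := by
  obtain ⟨C, hC, H⟩ := Dl_le b hb
  have hb0 : (0 : ℝ) < b := by exact_mod_cast (by omega : 0 < b)
  have hb1 : (1 : ℝ) ≤ b := by exact_mod_cast (by omega : 1 ≤ b)
  refine ⟨C ^ 2, by positivity, ?_⟩
  intro L J N l r hA hg
  have hJ := hA.2.1
  have hLJ := hA.2.2.2
  have hL1 : 1 ≤ L := by omega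
  have hM : MC J ≤ L := by unfold MC; omega
  obtain ⟨-, hHr, -⟩ := Hr_eq b L J hA
  have hHr0 : 0 < Hr b L J := lt_of_lt_of_le (by positivity) hHr
  have hq : ((QQ b J : ℕ) : ℝ) ≤ (b : ℝ) ^ (J + 2) := by
    have h1 : QQ b J ≤ b ^ (J + 2) := by
      unfold QQ D0
      calc (b ^ 2 - 1) * b ^ J ≤ b ^ 2 * b ^ J := Nat.mul_le_mul_right _ (by omega)
        _ = b ^ (J + 2) := by rw [← pow_add]; congr 1; omega
    exact_mod_cast h1
  set R : ℝ := (b : ℝ) ^ (J + 2) * ((b : ℝ) ^ (L - MC J) / ((b : ℝ) ^ (L - J)) ^ 2) with hR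
  have hR0 : 0 ≤ R := by positivity
  unfold EE EEs
  rw [← sum_sub_distrib]
  refine (abs_sum_le_sum_abs _ _).trans ?_
  have hk : ∀ k ∈ KS b L l r, |∑ n ∈ range (XX b L), Dl b k * Dl b n * krn b L J ((N : ℤ) - n - rv b L k) -
      ∑ n ∈ range (XX b L), Dl b k * Dl b n *
        (if (QQ b J : ℤ) ∣ (N : ℤ) - n - rv b L k then
          (QQ b J : ℝ) * hh b L J (ys b L (MC J) N (k % b ^ (MC J)) - n) else 0)| ≤
      (b : ℝ) ^ (L + 3) * ((C * L) * (C * L) * R) := by
    intro k hk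
    rw [← sum_sub_distrib]
    refine (abs_sum_le_sum_abs _ _).trans ?_
    have hkX := ce1_k_lt b L l r k hb hL1 hg.2.2.2.1 hk
    have hloc : |(((N : ℤ) - ((0 : ℕ) : ℤ) - rv b L k : ℤ) : ℝ) - ys b L (MC J) N (k % b ^ (MC J))| ≤
        (b : ℝ) ^ (L - MC J) := by
      have h1 := ce1_split b L (MC J) k hM
      have h2 := CG1_rv_lt b (L - MC J) (k / b ^ (MC J)) hb
      have h3 : ((rv b (L - MC J) (k / b ^ (MC J)) : ℕ) : ℝ) ≤ (b : ℝ) ^ (L - MC J) := by
        exact_mod_cast h2.le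
      have h4 : (0 : ℝ) ≤ ((rv b (L - MC J) (k / b ^ (MC J)) : ℕ) : ℝ) := Nat.cast_nonneg _
      unfold ys
      rw [h1]
      push_cast
      rw [abs_le]
      constructor <;> linarith
    have hn : ∀ n ∈ range (XX b L), |Dl b k * Dl b n * krn b L J ((N : ℤ) - n - rv b L k) -
        Dl b k * Dl b n *
        (if (QQ b J : ℤ) ∣ (N : ℤ) - n - rv b L k then
          (QQ b J : ℝ) * hh b L J (ys b L (MC J) N (k % b ^ (MC J)) - n) else 0)| ≤
        (C * L) * (C * L) * R := by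
      intro n hn
      rw [mem_range] at hn
      rw [← mul_sub, abs_mul, abs_mul]
      have h1 : |krn b L J ((N : ℤ) - n - rv b L k) -
          (if (QQ b J : ℤ) ∣ (N : ℤ) - n - rv b L k then
          (QQ b J : ℝ) * hh b L J (ys b L (MC J) N (k % b ^ (MC J)) - n) else 0)| ≤ R := by
        rw [CG1_krn_eq b L J hA]
        split_ifs
        · rw [← mul_sub, abs_mul, Nat.abs_cast]
          have h2 := hh_lip b L J hA (((N : ℤ) - n - rv b L k : ℤ) : ℝ)
            (ys b L (MC J) N (k % b ^ (MC J)) - n)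
          have h3 : |(((N : ℤ) - n - rv b L k : ℤ) : ℝ) - (ys b L (MC J) N (k % b ^ (MC J)) - n)| ≤
              (b : ℝ) ^ (L - MC J) := by
            refine le_trans (le_of_eq ?_) hloc
            congr 1
            push_cast
            ring
          rw [hR]
          apply mul_le_mul hq (h2.trans _) (abs_nonneg _) (by positivity)
          apply div_le_div₀ (by positivity) h3 (by positivity)
          exact pow_le_pow_left₀ (by positivity) hHr 2
        · rw [sub_zero, abs_zero]; exact hR0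
      apply mul_le_mul _ h1 (abs_nonneg _) (by positivity)
      exact mul_le_mul (H L k hL1 hkX) (H L n hL1 hn) (abs_nonneg _) (by positivity)
    refine (sum_le_card_nsmul _ _ _ hn).trans ?_
    rw [nsmul_eq_mul, card_range]
    unfold XX
    push_cast
    exact le_rfl
  refine (sum_le_card_nsmul _ _ _ hk).trans ?_
  rw [nsmul_eq_mul]
  have hc : (((KS b L l r).card : ℕ) : ℝ) ≤ (b : ℝ) ^ L := by exact_mod_cast ce1_card b L l r hb
  have hRle : (b : ℝ) ^ (L + 3) * R ≤ 1 / (b : ℝ) ^ J := by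
    rw [hR, le_div_iff₀ (by positivity)]
    have e1 : (b : ℝ) ^ (L + 3) * ((b : ℝ) ^ (J + 2) * ((b : ℝ) ^ (L - MC J) / ((b : ℝ) ^ (L - J)) ^ 2)) * (b : ℝ) ^ J =
        ((b : ℝ) ^ (L + 3) * (b : ℝ) ^ (J + 2) * (b : ℝ) ^ (L - MC J) * (b : ℝ) ^ J) / ((b : ℝ) ^ (L - J)) ^ 2 := by
      ring
    rw [e1, div_le_one (by positivity), ← pow_mul, ← pow_add, ← pow_add, ← pow_add]
    apply pow_le_pow_right₀ hb1
    unfold MC at hM ⊢
    omega
  calc (((KS b L l r).card : ℕ) : ℝ) * ((b : ℝ) ^ (L + 3) * ((C * L) * (C * L) * R))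
      ≤ (b : ℝ) ^ L * ((b : ℝ) ^ (L + 3) * ((C * L) * (C * L) * R)) :=
        mul_le_mul_of_nonneg_right hc (by positivity)
    _ = (b : ℝ) ^ L * (C ^ 2 * L ^ 2) * ((b : ℝ) ^ (L + 3) * R) := by ring
    _ ≤ (b : ℝ) ^ L * (C ^ 2 * L ^ 2) * (1 / (b : ℝ) ^ J) :=
        mul_le_mul_of_nonneg_left hRle (by positivity)
    _ = C ^ 2 * L ^ 2 * (b : ℝ) ^ L / (b : ℝ) ^ J := by ring

end Pool.Agent.LibHG31
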