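import Pool.Agent.LibHG31.C0
import Pool.Agent.LibH.PNTRem

/-! ROW CF2: error of the Gaussian smoothing. -/

namespace Pool.Agent.LibHG31

open Finset Complex MeasureTheory
open Pool.Agent.LibMaier (gw)

theorem cf2_abs_le : ∫ u : ℝ, |u| * gw u ≤ 1 := by
  have h1 : (fun u : ℝ => |u| * gw u) = fun u : ℝ => (fun t : ℝ => t * gw t) |u| := by
    funext u
    simp only
    congr 1
    unfold LibMaier.gw
    rw [sq_abs]
  rw [h1, integral_comp_abs (f := fun t : ℝ => t * gw t)]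
  have h2 : ∫ x in Set.Ioi (0 : ℝ), x * gw x = (Real.sqrt (2 * Real.pi))⁻¹ := by
    have h3 := _root_.integral_rpow_mul_exp_neg_mul_rpow (p := 2) (q := 1) (b := 1 / 2) (by norm_num)
      (by norm_num) (by norm_num)
    have h4 : ∫ x in Set.Ioi (0 : ℝ), x * gw x =
        (Real.sqrt (2 * Real.pi))⁻¹ * ∫ x in Set.Ioi (0 : ℝ), x ^ (1 : ℝ) * Real.exp (-(1 / 2) * x ^ (2 : ℝ)) := by
      rw [← integral_const_mul]
      apply setIntegral_congr_fun measurableSet_Ioi
      intro x hx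
      simp only [LibMaier.gw]
      rw [Real.rpow_one, Real.rpow_two]
      have : -x ^ 2 / 2 = -(1 / 2) * x ^ 2 := by ring
      rw [this]
      ring
    rw [h4, h3]
    norm_num
  rw [h2]
  have h3 : (2 : ℝ) ≤ Real.sqrt (2 * Real.pi) := by
    apply Real.le_sqrt_of_sq_le
    have := Real.pi_gt_three
    linarith
  have h4 : (0 : ℝ) < Real.sqrt (2 * Real.pi) := by linarith
  rw [← div_eq_mul_inv, div_le_one h4]
  exact h3

theorem cf2_kernel {δ : ℝ} (hδ : 0 < δ) (v : ℝ) :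
    Integrable (fun w : ℝ => gw ((v - w) / δ) / δ) ∧ ∫ w : ℝ, gw ((v - w) / δ) / δ = 1 ∧
    Integrable (fun w : ℝ => |w - v| * (gw ((v - w) / δ) / δ)) ∧
    ∫ w : ℝ, |w - v| * (gw ((v - w) / δ) / δ) ≤ δ := by
  have hi : Integrable (fun u : ℝ => gw (u / δ)) := LibH.integrable_gw.comp_div hδ.ne'
  have hi2 : Integrable (fun u : ℝ => |u / δ| * gw (u / δ)) :=
    (LibH.integrable_abs_gw).comp_div (g := fun u : ℝ => |u| * gw u) hδ.ne'
  have e1 : (fun w : ℝ => gw ((v - w) / δ) / δ) = fun w : ℝ => (fun u : ℝ => gw (u / δ) / δ) (v - w) := rfl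
  have e2 : (fun w : ℝ => |w - v| * (gw ((v - w) / δ) / δ)) =
      fun w : ℝ => (fun u : ℝ => |u / δ| * gw (u / δ)) (v - w) := by
    funext w
    simp only
    rw [abs_div, abs_of_pos hδ, abs_sub_comm]
    ring
  refine ⟨?_, ?_, ?_, ?_⟩
  · rw [e1]
    exact (hi.div_const δ).comp_sub_left v
  · rw [e1, integral_sub_left_eq_self (fun u : ℝ => gw (u / δ) / δ) volume v, integral_div,
      Measure.integral_comp_div (fun u : ℝ => gw u) δ, LibH.integral_gw, abs_of_pos hδ]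
    simp [hδ.ne']
  · rw [e2]
    exact hi2.comp_sub_left v
  · rw [e2, integral_sub_left_eq_self (fun u : ℝ => |u / δ| * gw (u / δ)) volume v,
      Measure.integral_comp_div (fun u : ℝ => |u| * gw u) δ, abs_of_pos hδ, smul_eq_mul]
    have := cf2_abs_le
    nlinarith

theorem sm_sub_le {δ : ℝ} (hδ : 0 < δ) {G : ℝ → ℂ} (hG : Integrable G) {v K : ℝ}
    (hK : ∀ w, ‖G w - G v‖ ≤ K * |w - v|) : ‖sm δ G v - G v‖ ≤ K * δ := by
  obtain ⟨k1, k2, k3, k4⟩ := cf2_kernel hδ v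
  have hK0 : 0 ≤ K := by
    have h := hK (v + 1)
    have h2 : |v + 1 - v| = 1 := by simp
    rw [h2, mul_one] at h
    exact (norm_nonneg _).trans h
  have hGm : AEStronglyMeasurable G volume := hG.aestronglyMeasurable
  have hi1 : Integrable (fun w : ℝ => (G w - G v) * ((gw ((v - w) / δ) / δ : ℝ) : ℂ)) := by
    refine Integrable.mono' (k3.const_mul K) ?_ ?_
    · exact (hGm.sub aestronglyMeasurable_const).mul k1.ofReal.aestronglyMeasurable
    · refine Filter.Eventually.of_forall fun w => ?_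
      have hk0 : 0 ≤ gw ((v - w) / δ) / δ := div_nonneg (LibMaier.gw_nonneg _) hδ.le
      rw [norm_mul, Complex.norm_real, Real.norm_eq_abs, abs_of_nonneg hk0]
      calc ‖G w - G v‖ * (gw ((v - w) / δ) / δ) ≤ (K * |w - v|) * (gw ((v - w) / δ) / δ) :=
            mul_le_mul_of_nonneg_right (hK w) hk0
        _ = _ := by ring
  have hi2 : Integrable (fun w : ℝ => G v * ((gw ((v - w) / δ) / δ : ℝ) : ℂ)) := k1.ofReal.const_mul _
  have h1 : sm δ G v = (∫ w : ℝ, (G w - G v) * ((gw ((v - w) / δ) / δ : ℝ) : ℂ)) + G v := by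
    have h2 : G v = ∫ w : ℝ, G v * ((gw ((v - w) / δ) / δ : ℝ) : ℂ) := by
      rw [integral_const_mul]
      have h3 : ∫ w : ℝ, ((gw ((v - w) / δ) / δ : ℝ) : ℂ) = ((∫ w : ℝ, gw ((v - w) / δ) / δ : ℝ) : ℂ) :=
        integral_ofReal
      rw [h3, k2]
      simp
    have h4 : (∫ w : ℝ, (G w - G v) * ((gw ((v - w) / δ) / δ : ℝ) : ℂ)) + G v =
        (∫ w : ℝ, (G w - G v) * ((gw ((v - w) / δ) / δ : ℝ) : ℂ)) +
          ∫ w : ℝ, G v * ((gw ((v - w) / δ) / δ : ℝ) : ℂ) := by rw [← h2]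
    rw [h4, ← integral_add hi1 hi2]
    unfold sm
    congr 1
    funext w
    ring
  rw [h1, add_sub_cancel_right]
  refine (norm_integral_le_of_norm_le (k3.const_mul K) (Filter.Eventually.of_forall fun w => ?_)).trans ?_
  · have hk0 : 0 ≤ gw ((v - w) / δ) / δ := div_nonneg (LibMaier.gw_nonneg _) hδ.le
    rw [norm_mul, Complex.norm_real, Real.norm_eq_abs, abs_of_nonneg hk0]
    calc ‖G w - G v‖ * (gw ((v - w) / δ) / δ) ≤ (K * |w - v|) * (gw ((v - w) / δ) / δ) :=
          mul_le_mul_of_nonneg_right (hK w) hk0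
      _ = _ := by ring
  · rw [integral_const_mul]
    exact mul_le_mul_of_nonneg_left k4 hK0

/-- trivial bound -/
theorem sm_le {δ : ℝ} (hδ : 0 < δ) {G : ℝ → ℂ} (hG : Integrable G) {v B : ℝ}
    (hB : ∀ w, ‖G w‖ ≤ B) : ‖sm δ G v‖ ≤ B := by
  obtain ⟨k1, k2, k3, k4⟩ := cf2_kernel hδ v
  unfold sm
  refine (norm_integral_le_of_norm_le (k1.const_mul B) (Filter.Eventually.of_forall fun w => ?_)).trans ?_
  · have hk0 : 0 ≤ gw ((v - w) / δ) / δ := div_nonneg (LibMaier.gw_nonneg _) hδ.le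
    rw [norm_mul, Complex.norm_real, Real.norm_eq_abs, abs_of_nonneg hk0]
    exact mul_le_mul_of_nonneg_right (hB w) hk0
  · rw [integral_const_mul, k2, mul_one]

theorem cf2_norm (lam w : ℝ) : ‖cexp (-(((lam * w : ℝ) : ℂ) * I))‖ = 1 := by
  have : -(((lam * w : ℝ) : ℂ) * I) = ((-(lam * w) : ℝ) : ℂ) * I := by push_cast; ring
  rw [this, Complex.norm_exp_ofReal_mul_I]

theorem FT_le {G : ℝ → ℂ} (lam : ℝ) : ‖FT G lam‖ ≤ ∫ w, ‖G w‖ := by
  unfold FT
  refine (norm_integral_le_integral_norm _).trans (le_of_eq ?_)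
  congr 1
  funext w
  rw [norm_mul, cf2_norm, mul_one]

theorem continuous_FT {G : ℝ → ℂ} (hG : Integrable G) : Continuous (FT G) := by
  unfold FT
  refine continuous_of_dominated (bound := fun w => ‖G w‖) (fun lam => ?_) (fun lam => ?_) hG.norm ?_
  · apply hG.aestronglyMeasurable.mul
    apply Continuous.aestronglyMeasurable
    fun_prop
  · refine Filter.Eventually.of_forall fun w => ?_
    rw [norm_mul, cf2_norm, mul_one]
  · refine Filter.Eventually.of_forall fun w => ?_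
    fun_prop

end Pool.Agent.LibHG31
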