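import Pool.Agent.LibHG31.CF1
import Pool.Agent.LibHG31.CF2

/-! ROW CF3: expansion of a sum with a smoothed location function. -/

namespace Pool.Agent.LibHG31

open Finset Complex MeasureTheory
open Pool.Agent.LibPL63 (GS)
open Pool.Agent.LibMaier (gw)

theorem cf3_w0 (n : ℕ) (x : ℝ) : 0 ≤ gw (Real.log n - x) / n :=
  div_nonneg (LibMaier.gw_nonneg _) (Nat.cast_nonneg n)

theorem cf3_norm_cp (lam : ℝ) (n : ℕ) : ‖cp lam n‖ = 1 := by
  unfold cp
  rw [Complex.norm_exp_ofReal_mul_I]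

theorem cf3_norm_term (c : ℕ → ℂ) (x lam : ℝ) (n : ℕ) :
    ‖c n * cp lam n * ((gw (Real.log n - x) / n : ℝ) : ℂ)‖ = ‖c n‖ * (gw (Real.log n - x) / n) := by
  rw [norm_mul, norm_mul, cf3_norm_cp, mul_one, Complex.norm_real, Real.norm_eq_abs,
    abs_of_nonneg (cf3_w0 n x)]

theorem continuous_GS_cp (c : ℕ → ℂ) (x : ℝ)
    (hc : Summable fun n : ℕ => ‖c n‖ * (gw (Real.log n - x) / n)) :
    Continuous fun lam : ℝ => GS (fun n => c n * cp lam n) x := by
  unfold LibPL63.GS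
  refine continuous_tsum (u := fun n : ℕ => ‖c n‖ * (gw (Real.log n - x) / n)) (fun n => ?_) hc
    (fun n lam => (cf3_norm_term c x lam n).le)
  unfold cp
  fun_prop

theorem norm_GS_cp_le (c : ℕ → ℂ) (x lam : ℝ)
    (hc : Summable fun n : ℕ => ‖c n‖ * (gw (Real.log n - x) / n)) :
    ‖GS (fun n => c n * cp lam n) x‖ ≤ ∑' n : ℕ, ‖c n‖ * (gw (Real.log n - x) / n) := by
  unfold LibPL63.GS
  exact tsum_of_norm_bounded hc.hasSum (fun n => (cf3_norm_term c x lam n).le)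

theorem expand {δ : ℝ} (hδ : 0 < δ) {G : ℝ → ℂ} (hG : Integrable G) (c : ℕ → ℂ) (x : ℝ)
    (hc : Summable fun n : ℕ => ‖c n‖ * (gw (Real.log n - x) / n)) :
    Integrable (fun lam : ℝ => ((Real.exp (-(δ ^ 2 * lam ^ 2 / 2)) : ℝ) : ℂ) * FT G lam *
      GS (fun n => c n * cp lam n) x) ∧
    Summable (fun n : ℕ => c n * sm δ G (Real.log n) * ((gw (Real.log n - x) / n : ℝ) : ℂ)) ∧
    ∑' n : ℕ, c n * sm δ G (Real.log n) * ((gw (Real.log n - x) / n : ℝ) : ℂ) =
      ((1 / (2 * Real.pi) : ℝ) : ℂ) *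
      ∫ lam : ℝ, ((Real.exp (-(δ ^ 2 * lam ^ 2 / 2)) : ℝ) : ℂ) * FT G lam *
        GS (fun n => c n * cp lam n) x := by
  set I1 : ℝ := ∫ w, ‖G w‖ with hI1
  have hI10 : 0 ≤ I1 := integral_nonneg fun w => norm_nonneg _
  have hE := cf1_int hδ
  have hFTc := continuous_FT hG
  have hEn : ∀ lam : ℝ, ‖((Real.exp (-(δ ^ 2 * lam ^ 2 / 2)) : ℝ) : ℂ)‖ = Real.exp (-(δ ^ 2 * lam ^ 2 / 2)) := by
    intro lam
    rw [Complex.norm_real, Real.norm_eq_abs, abs_of_pos (Real.exp_pos _)]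
  set F : ℕ → ℝ → ℂ := fun n lam => ((Real.exp (-(δ ^ 2 * lam ^ 2 / 2)) : ℝ) : ℂ) * FT G lam *
    (c n * cp lam n * ((gw (Real.log n - x) / n : ℝ) : ℂ)) with hF
  have hFn : ∀ n lam, ‖F n lam‖ ≤ (‖c n‖ * (gw (Real.log n - x) / n)) * (I1 * Real.exp (-(δ ^ 2 * lam ^ 2 / 2))) := by
    intro n lam
    simp only [hF]
    rw [norm_mul, norm_mul, cf3_norm_term, hEn]
    have h1 := FT_le (G := G) lam
    have h2 : 0 ≤ ‖c n‖ * (gw (Real.log n - x) / n) := mul_nonneg (norm_nonneg _) (cf3_w0 n x)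
    calc Real.exp (-(δ ^ 2 * lam ^ 2 / 2)) * ‖FT G lam‖ * (‖c n‖ * (gw (Real.log n - x) / n))
        ≤ Real.exp (-(δ ^ 2 * lam ^ 2 / 2)) * I1 * (‖c n‖ * (gw (Real.log n - x) / n)) := by
          gcongr
      _ = _ := by ring
  have hFc : ∀ n, Continuous (F n) := by
    intro n
    simp only [hF]
    apply Continuous.mul
    · exact Continuous.mul (by fun_prop) hFTc
    · unfold cp
      fun_prop
  have hFi : ∀ n, Integrable (F n) := fun n =>
    Integrable.mono' ((hE.const_mul I1).const_mul _) (hFc n).aestronglyMeasurable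
      (Filter.Eventually.of_forall (hFn n))
  have hS : Summable fun n => ∫ lam, ‖F n lam‖ := by
    refine Summable.of_nonneg_of_le (fun n => integral_nonneg fun _ => norm_nonneg _) (fun n => ?_)
      (hc.mul_right (∫ lam, I1 * Real.exp (-(δ ^ 2 * lam ^ 2 / 2))))
    rw [← integral_const_mul]
    exact integral_mono (hFi n).norm ((hE.const_mul I1).const_mul _) (hFn n)
  have hval : ∀ n, ∫ lam, F n lam = ((2 * Real.pi : ℝ) : ℂ) *
      (c n * sm δ G (Real.log n) * ((gw (Real.log n - x) / n : ℝ) : ℂ)) := by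
    intro n
    rw [sm_eq hδ hG]
    have h1 : ∀ lam, F n lam = (c n * ((gw (Real.log n - x) / n : ℝ) : ℂ)) *
        (((Real.exp (-(δ ^ 2 * lam ^ 2 / 2)) : ℝ) : ℂ) * FT G lam *
        cexp (((lam * Real.log n : ℝ) : ℂ) * I)) := by
      intro lam
      simp only [hF, cp]
      ring
    rw [integral_congr_ae (Filter.Eventually.of_forall h1), integral_const_mul]
    have hpi : (Real.pi : ℂ) ≠ 0 := by exact_mod_cast Real.pi_ne_zero
    generalize (∫ lam : ℝ, ((Real.exp (-(δ ^ 2 * lam ^ 2 / 2)) : ℝ) : ℂ) * FT G lam *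
        cexp (((lam * Real.log n : ℝ) : ℂ) * I)) = J0
    push_cast
    field_simp
  have hsum := hasSum_integral_of_summable_integral_norm hFi hS
  have htsum : ∀ lam, ∑' n, F n lam = ((Real.exp (-(δ ^ 2 * lam ^ 2 / 2)) : ℝ) : ℂ) * FT G lam *
      GS (fun n => c n * cp lam n) x := by
    intro lam
    simp only [hF]
    rw [tsum_mul_left]
    rfl
  simp_rw [htsum] at hsum
  have hpiC : ((2 * Real.pi : ℝ) : ℂ) ≠ 0 := by
    rw [Complex.ofReal_ne_zero]
    have := Real.pi_pos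
    positivity
  refine ⟨?_, ?_, ?_⟩
  · refine Integrable.mono' ((hE.const_mul I1).const_mul (∑' n : ℕ, ‖c n‖ * (gw (Real.log n - x) / n)))
      (((Continuous.mul (by fun_prop) hFTc).mul (continuous_GS_cp c x hc)).aestronglyMeasurable)
      (Filter.Eventually.of_forall fun lam => ?_)
    rw [norm_mul, norm_mul, hEn]
    have h1 := FT_le (G := G) lam
    have h2 := norm_GS_cp_le c x lam hc
    have h3 : 0 ≤ ∑' n : ℕ, ‖c n‖ * (gw (Real.log n - x) / n) :=
      tsum_nonneg fun n => mul_nonneg (norm_nonneg _) (cf3_w0 n x)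
    calc Real.exp (-(δ ^ 2 * lam ^ 2 / 2)) * ‖FT G lam‖ * ‖GS (fun n => c n * cp lam n) x‖
        ≤ Real.exp (-(δ ^ 2 * lam ^ 2 / 2)) * I1 * ∑' n : ℕ, ‖c n‖ * (gw (Real.log n - x) / n) := by
          gcongr
      _ = _ := by ring
  · have h1 := hsum.summable
    have h2 := h1.mul_left (((2 * Real.pi : ℝ) : ℂ))⁻¹
    refine h2.congr fun n => ?_
    rw [hval, ← mul_assoc, inv_mul_cancel₀ hpiC, one_mul]
  · have h1 := hsum.tsum_eq
    simp_rw [hval] at h1
    rw [tsum_mul_left] at h1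
    rw [← h1]
    push_cast at hpiC ⊢
    field_simp

end Pool.Agent.LibHG31
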