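import Pool.Agent.LibHG31.CE1
import Pool.Agent.LibHG31.CF3
import Pool.Agent.LibHG31.CA10

/-! ROW CE2: expansion of `EEs`.
PLAN. Fix `k ∈ KS`, `s = k % b^M`, `y = N - rv b L k` (unit mod `QQ b J`, `unit_y`). By `Gs_log`, `hh_zero` the inner sum over `n` is
`QQ ∑' n, Dl n [n ≡ y mod QQ] Gs s (log n) gw(log n - xL)/n`; replace `Gs s` by `sm (del b J) (Gs s)`: error
`≤ QQ · C b^(2J) δ · ∑|Dl|gw/n ≤ C b^(J+2J-5J) D0` (`sm_sub_le`, `Gs_props`, `Dl_sum`), summed over `k`: `≤ C L b^L b^(-2J)`.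
`QQ [n ≡ y] = (QQ/φ(QQ)) ∑_χ conj χ(y) χ(n)` (`DirichletCharacter.sum_char_inv_mul_char_eq`), `expand` with `c n = Dl n χ(n)`:
`GS (c * cp λ) = DD b χ x λ`. Sum over `k`: the coefficient of `DD b χ x λ` is `TC b L J N l r χ λ`. -/

namespace Pool.Agent.LibHG31

open Finset Complex MeasureTheory
open scoped ComplexConjugate
open Pool.Agent.LibPL63 (GS)
open Pool.Agent.LibMaier (gw)

/-- the Gaussian weight -/
noncomputable def ce2_w (b L n : ℕ) : ℝ := gw (Real.log n - xL b L) / n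

theorem ce2_w_nonneg (b L n : ℕ) : 0 ≤ ce2_w b L n := by
  unfold ce2_w gw; positivity

/-- orthogonality -/
theorem ce2_orth (q : ℕ) [NeZero q] (y : ℤ) (hy : IsCoprime y (q : ℤ)) (n : ℕ) :
    ∑ χ : DirichletCharacter ℂ q, conj (χ ((y : ℤ) : ZMod q)) * χ (n : ZMod q) =
      (q.totient : ℂ) * (if (q : ℤ) ∣ y - n then 1 else 0) := by
  have hu : IsUnit ((y : ℤ) : ZMod q) := by
    rw [ZMod.coe_int_isUnit_iff_isCoprime]; exact hy.symm
  have h1 : ∀ χ : DirichletCharacter ℂ q, conj (χ ((y : ℤ) : ZMod q)) = χ (((y : ℤ) : ZMod q)⁻¹) := by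
    intro χ
    have h2 : χ ((y : ℤ) : ZMod q) * χ (((y : ℤ) : ZMod q)⁻¹) = 1 := by
      rw [← map_mul, ZMod.mul_inv_of_unit _ hu, map_one]
    have h3 : ‖χ ((y : ℤ) : ZMod q)‖ = 1 := by
      obtain ⟨u, hu'⟩ := hu
      rw [← hu']; exact DirichletCharacter.unit_norm_eq_one χ u
    rw [← Complex.inv_eq_conj h3]
    exact (eq_inv_of_mul_eq_one_right h2).symm
  simp_rw [h1]
  rw [DirichletCharacter.sum_char_inv_mul_char_eq ℂ hu (n : ZMod q)]
  have h4 : (((y : ℤ) : ZMod q) = (n : ZMod q)) ↔ ((q : ℤ) ∣ y - n) := by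
    rw [show ((n : ℕ) : ZMod q) = (((n : ℕ) : ℤ) : ZMod q) by push_cast; rfl, eq_comm,
      ZMod.intCast_eq_intCast_iff_dvd_sub]
  by_cases h : (q : ℤ) ∣ y - n
  · rw [if_pos (h4.mpr h), if_pos h, mul_one]
  · rw [if_neg (fun hc => h (h4.mp hc)), if_neg h, mul_zero]

/-- the indicator of the class -/
noncomputable def ce2_ind (b L J N k n : ℕ) : ℂ :=
  if (QQ b J : ℤ) ∣ ((N : ℤ) - rv b L k) - n then 1 else 0

theorem ce2_norm_ind (b L J N k n : ℕ) : ‖ce2_ind b L J N k n‖ ≤ 1 := by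
  unfold ce2_ind; split_ifs <;> simp

/-- the inner sum -/
noncomputable def ce2_I (b L J N k : ℕ) : ℂ :=
  ∑' n : ℕ, ((QQ b J : ℝ) : ℂ) * ce2_ind b L J N k n * ((Dl b n : ℝ) : ℂ) *
    Gs b L J (MC J) N (k % b ^ (MC J)) (Real.log n) * ((ce2_w b L n : ℝ) : ℂ)

/-- the smoothed inner sum -/
noncomputable def ce2_T (b L J N k : ℕ) : ℂ :=
  ∑' n : ℕ, ((QQ b J : ℝ) : ℂ) * ce2_ind b L J N k n * ((Dl b n : ℝ) : ℂ) *
    sm (del b J) (Gs b L J (MC J) N (k % b ^ (MC J))) (Real.log n) * ((ce2_w b L n : ℝ) : ℂ)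

/-- the coefficients -/
noncomputable def ce2_c (b : ℕ) {q : ℕ} (χ : DirichletCharacter ℂ q) (n : ℕ) : ℂ :=
  ((Dl b n : ℝ) : ℂ) * χ (n : ZMod q)

theorem ce2_norm_c (b : ℕ) {q : ℕ} (χ : DirichletCharacter ℂ q) (n : ℕ) : ‖ce2_c b χ n‖ ≤ |Dl b n| := by
  unfold ce2_c
  rw [norm_mul, Complex.norm_real, Real.norm_eq_abs]
  exact mul_le_of_le_one_right (abs_nonneg _) (DirichletCharacter.norm_le_one χ _)

theorem ce2_DD (b : ℕ) {q : ℕ} (χ : DirichletCharacter ℂ q) (x lam : ℝ) :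
    DD b χ x lam = GS (fun n => ce2_c b χ n * cp lam n) x := by
  unfold DD
  congr 1
  funext n
  unfold tw ce2_c
  ring

theorem ce2_I_eq (b L J N l r k : ℕ) (h : Adm b L J) (hg : Good b L l r N) :
    (((∑ n ∈ range (XX b L), Dl b n *
      (if (QQ b J : ℤ) ∣ (N : ℤ) - n - rv b L k then
        (QQ b J : ℝ) * hh b L J (ys b L (MC J) N (k % b ^ (MC J)) - n) else 0) : ℝ)) : ℂ) =
      ce2_I b L J N k := by
  have hterm : ∀ n : ℕ, ((QQ b J : ℝ) : ℂ) * ce2_ind b L J N k n * ((Dl b n : ℝ) : ℂ) *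
      Gs b L J (MC J) N (k % b ^ (MC J)) (Real.log n) * ((ce2_w b L n : ℝ) : ℂ) =
      ((Dl b n * (if (QQ b J : ℤ) ∣ (N : ℤ) - n - rv b L k then
        (QQ b J : ℝ) * hh b L J (ys b L (MC J) N (k % b ^ (MC J)) - n) else 0) : ℝ) : ℂ) := by
    intro n
    have h1 := Gs_log b L J N (k % b ^ (MC J)) h hg.1 hg.2.1 n
    unfold ce2_w
    rw [mul_assoc, h1]
    unfold ce2_ind
    have h2 : ((N : ℤ) - rv b L k) - n = (N : ℤ) - n - rv b L k := by ring
    rw [h2]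
    split_ifs
    · push_cast; ring
    · simp
  unfold ce2_I
  rw [tsum_congr hterm]
  rw [tsum_eq_sum (s := range (XX b L))]
  · push_cast; rfl
  · intro n hn
    rw [mem_range, not_lt] at hn
    rw [hh_zero b L J N (k % b ^ (MC J)) h hg.1 hg.2.1 n hn]
    simp

theorem ce2_sumI (b L J N l r k : ℕ) (h : Adm b L J) (hg : Good b L l r N) :
    Summable (fun n : ℕ => ((QQ b J : ℝ) : ℂ) * ce2_ind b L J N k n * ((Dl b n : ℝ) : ℂ) *
      Gs b L J (MC J) N (k % b ^ (MC J)) (Real.log n) * ((ce2_w b L n : ℝ) : ℂ)) := by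
  apply summable_of_ne_finset_zero (s := range (XX b L))
  intro n hn
  rw [mem_range, not_lt] at hn
  have h1 := Gs_log b L J N (k % b ^ (MC J)) h hg.1 hg.2.1 n
  rw [hh_zero b L J N (k % b ^ (MC J)) h hg.1 hg.2.1 n hn] at h1
  unfold ce2_w
  rw [mul_assoc, h1]
  simp

/-- the Gaussian in `lam` -/
noncomputable def ce2_E (b J : ℕ) (lam : ℝ) : ℂ := ((Real.exp (-(del b J ^ 2 * lam ^ 2 / 2)) : ℝ) : ℂ)

/-- the integrand attached to `k` and `χ` -/
noncomputable def ce2_h (b L J N k : ℕ) (χ : DirichletCharacter ℂ (QQ b J)) (lam : ℝ) : ℂ :=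
  ce2_E b J lam * FT (Gs b L J (MC J) N (k % b ^ (MC J))) lam *
    GS (fun n => ce2_c b χ n * cp lam n) (xL b L)

theorem ce2_T_eq (b L J N l r k : ℕ) [NeZero (QQ b J)] (h : Adm b L J) (hg : Good b L l r N)
    (hk : k ∈ KS b L l r)
    (hs : ∀ χ : DirichletCharacter ℂ (QQ b J), Summable (fun n : ℕ => ce2_c b χ n *
      sm (del b J) (Gs b L J (MC J) N (k % b ^ (MC J))) (Real.log n) * ((ce2_w b L n : ℝ) : ℂ)))
    (he : ∀ χ : DirichletCharacter ℂ (QQ b J), ∑' n : ℕ, ce2_c b χ n *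
      sm (del b J) (Gs b L J (MC J) N (k % b ^ (MC J))) (Real.log n) * ((ce2_w b L n : ℝ) : ℂ) =
      ((1 / (2 * Real.pi) : ℝ) : ℂ) * ∫ lam : ℝ, ce2_h b L J N k χ lam) :
    Summable (fun n : ℕ => ((QQ b J : ℝ) : ℂ) * ce2_ind b L J N k n * ((Dl b n : ℝ) : ℂ) *
      sm (del b J) (Gs b L J (MC J) N (k % b ^ (MC J))) (Real.log n) * ((ce2_w b L n : ℝ) : ℂ)) ∧
    ce2_T b L J N k = (((QQ b J : ℝ) / (QQ b J).totient : ℝ) : ℂ) *
      ∑ χ : DirichletCharacter ℂ (QQ b J), conj (χ (((N : ℤ) - rv b L k : ℤ) : ZMod (QQ b J))) *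
        (((1 / (2 * Real.pi) : ℝ) : ℂ) * ∫ lam : ℝ, ce2_h b L J N k χ lam) := by
  have hy := (unit_y b L J N l r k h hg hk).2
  have hq : 0 < QQ b J := Nat.pos_of_ne_zero (NeZero.ne _)
  have hphi : (((QQ b J).totient : ℕ) : ℂ) ≠ 0 := by
    exact_mod_cast (Nat.totient_pos.mpr hq).ne'
  have hterm : ∀ n : ℕ, ((QQ b J : ℝ) : ℂ) * ce2_ind b L J N k n * ((Dl b n : ℝ) : ℂ) *
      sm (del b J) (Gs b L J (MC J) N (k % b ^ (MC J))) (Real.log n) * ((ce2_w b L n : ℝ) : ℂ) =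
      (((QQ b J : ℝ) / (QQ b J).totient : ℝ) : ℂ) *
      ∑ χ : DirichletCharacter ℂ (QQ b J), conj (χ (((N : ℤ) - rv b L k : ℤ) : ZMod (QQ b J))) *
        (ce2_c b χ n * sm (del b J) (Gs b L J (MC J) N (k % b ^ (MC J))) (Real.log n) *
          ((ce2_w b L n : ℝ) : ℂ)) := by
    intro n
    have h1 := ce2_orth (QQ b J) ((N : ℤ) - rv b L k) hy n
    have h2 : ∑ χ : DirichletCharacter ℂ (QQ b J), conj (χ (((N : ℤ) - rv b L k : ℤ) : ZMod (QQ b J))) *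
        (ce2_c b χ n * sm (del b J) (Gs b L J (MC J) N (k % b ^ (MC J))) (Real.log n) *
          ((ce2_w b L n : ℝ) : ℂ)) =
        (∑ χ : DirichletCharacter ℂ (QQ b J), conj (χ (((N : ℤ) - rv b L k : ℤ) : ZMod (QQ b J))) *
          χ (n : ZMod (QQ b J))) * (((Dl b n : ℝ) : ℂ) *
          sm (del b J) (Gs b L J (MC J) N (k % b ^ (MC J))) (Real.log n) * ((ce2_w b L n : ℝ) : ℂ)) := by
      rw [Finset.sum_mul]
      apply Finset.sum_congr rfl
      intro χ _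
      unfold ce2_c
      ring
    rw [h2, h1]
    unfold ce2_ind
    push_cast
    field_simp
  have hsum1 : ∀ χ : DirichletCharacter ℂ (QQ b J), Summable (fun n : ℕ =>
      conj (χ (((N : ℤ) - rv b L k : ℤ) : ZMod (QQ b J))) *
        (ce2_c b χ n * sm (del b J) (Gs b L J (MC J) N (k % b ^ (MC J))) (Real.log n) *
          ((ce2_w b L n : ℝ) : ℂ))) := fun χ => (hs χ).mul_left _
  have hsum2 := summable_sum (s := (Finset.univ : Finset (DirichletCharacter ℂ (QQ b J))))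
    (fun χ _ => hsum1 χ)
  constructor
  · simp_rw [hterm]
    exact hsum2.mul_left _
  · unfold ce2_T
    simp_rw [hterm]
    rw [tsum_mul_left, Summable.tsum_finsetSum (fun χ _ => hsum1 χ)]
    congr 1
    apply Finset.sum_congr rfl
    intro χ _
    rw [tsum_mul_left, he χ]

theorem ce2_card (b L l r : ℕ) (hb : 2 ≤ b) : (KS b L l r).card ≤ b ^ L := by
  unfold KS II
  refine (card_filter_le _ _).trans ?_
  rw [Nat.card_Ico]
  have h1 : (l + 1) * b ^ (L - 1) - l * b ^ (L - 1) = b ^ (L - 1) := by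
    rw [add_mul, one_mul]; omega
  rw [h1]
  exact Nat.pow_le_pow_right (by omega) (by omega)

theorem ce2_k_lt (b L l r k : ℕ) (hb : 2 ≤ b) (hL : 1 ≤ L) (hlb : l < b) (hk : k ∈ KS b L l r) :
    k < XX b L := by
  unfold KS II at hk
  rw [mem_filter, mem_Ico] at hk
  unfold XX
  have e1 : b ^ L = b * b ^ (L - 1) := by rw [← pow_succ']; congr 1; omega
  have h1 : (l + 1) * b ^ (L - 1) ≤ b ^ L := by rw [e1]; exact Nat.mul_le_mul_right _ hlb
  have h2 : b ^ L ≤ b ^ (L + 3) := Nat.pow_le_pow_right (by omega) (by omega)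
  omega

theorem EEs_expand (b : ℕ) (hb : 2 ≤ b) : ∃ C : ℝ, 0 < C ∧ ∀ (L J N l r : ℕ) [NeZero (QQ b J)], Adm b L J → Good b L l r N →
    Integrable (fun lam : ℝ => ((Real.exp (-(del b J ^ 2 * lam ^ 2 / 2)) : ℝ) : ℂ) *
        ∑ χ : DirichletCharacter ℂ (QQ b J), DD b χ (xL b L) lam * TC b L J N l r χ lam) ∧
    ‖(EEs b L J N l r : ℂ) - (((QQ b J : ℝ) / (QQ b J).totient : ℝ) : ℂ) * ((1 / (2 * Real.pi) : ℝ) : ℂ) *
      ∫ lam : ℝ, ((Real.exp (-(del b J ^ 2 * lam ^ 2 / 2)) : ℝ) : ℂ) *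
        ∑ χ : DirichletCharacter ℂ (QQ b J), DD b χ (xL b L) lam * TC b L J N l r χ lam‖ ≤
      C * L ^ 2 * (b : ℝ) ^ L / (b : ℝ) ^ J := by
  obtain ⟨C1, hC1, H1⟩ := Gs_props b hb
  obtain ⟨C2, hC2, H2⟩ := Dl_sum b hb
  obtain ⟨C3, hC3, H3⟩ := Dl_le b hb
  have hb0 : (0 : ℝ) < b := by exact_mod_cast (by omega : 0 < b)
  have hb1 : (1 : ℝ) ≤ b := by exact_mod_cast (by omega : 1 ≤ b)
  refine ⟨(D0 b + 1) * C1 * C2 * C3, by positivity, ?_⟩
  intro L J N l r _ hA hg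
  have hJ := hA.2.1
  have hLJ := hA.2.2.2
  have hL1 : 1 ≤ L := by omega
  have hL1' : (1 : ℝ) ≤ L := by exact_mod_cast hL1
  have hx1 : 1 ≤ xL b L := by
    unfold xL
    have h1 : (1000 : ℝ) ≤ L := by exact_mod_cast (by omega : 1000 ≤ L)
    have h2 : Real.log 2 ≤ Real.log b := Real.log_le_log (by norm_num) (by exact_mod_cast hb)
    have h3 := Real.log_two_gt_d9
    nlinarith
  obtain ⟨hsm, hle⟩ := H2 (xL b L) hx1
  have hδ : 0 < del b J := by unfold del; positivity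
  -- summability of the coefficients
  have hc : ∀ χ : DirichletCharacter ℂ (QQ b J), Summable fun n : ℕ => ‖ce2_c b χ n‖ *
      (gw (Real.log n - xL b L) / n) := by
    intro χ
    refine Summable.of_nonneg_of_le (fun n => mul_nonneg (norm_nonneg _) (ce2_w_nonneg b L n))
      (fun n => mul_le_mul_of_nonneg_right (ce2_norm_c b χ n) (ce2_w_nonneg b L n)) hsm
  have hex : ∀ (k : ℕ) (χ : DirichletCharacter ℂ (QQ b J)), _ := fun k χ =>
    expand hδ (H1 L J N (k % b ^ (MC J)) hA hg.1 hg.2.1).1 (ce2_c b χ) (xL b L) (hc χ)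
  have hint : ∀ (k : ℕ) (χ : DirichletCharacter ℂ (QQ b J)), Integrable (ce2_h b L J N k χ) :=
    fun k χ => (hex k χ).1
  -- the integrand
  have hfun : (fun lam : ℝ => ((Real.exp (-(del b J ^ 2 * lam ^ 2 / 2)) : ℝ) : ℂ) *
        ∑ χ : DirichletCharacter ℂ (QQ b J), DD b χ (xL b L) lam * TC b L J N l r χ lam) =
      fun lam => ∑ χ : DirichletCharacter ℂ (QQ b J), ∑ k ∈ KS b L l r,
        (((Dl b k : ℝ) : ℂ) * conj (χ (((N : ℤ) - rv b L k : ℤ) : ZMod (QQ b J)))) *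
          ce2_h b L J N k χ lam := by
    funext lam
    rw [Finset.mul_sum]
    apply Finset.sum_congr rfl
    intro χ _
    rw [ce2_DD]
    unfold TC ce2_h ce2_E
    rw [Finset.mul_sum, Finset.mul_sum]
    apply Finset.sum_congr rfl
    intro k _
    ring
  have hint2 : ∀ χ : DirichletCharacter ℂ (QQ b J), Integrable (fun lam => ∑ k ∈ KS b L l r,
        (((Dl b k : ℝ) : ℂ) * conj (χ (((N : ℤ) - rv b L k : ℤ) : ZMod (QQ b J)))) *
          ce2_h b L J N k χ lam) := fun χ =>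
    integrable_finset_sum _ (fun k _ => (hint k χ).const_mul _)
  refine ⟨by rw [hfun]; exact integrable_finset_sum _ (fun χ _ => hint2 χ), ?_⟩
  rw [hfun, integral_finset_sum _ (fun χ _ => hint2 χ)]
  have hswap : ∀ χ : DirichletCharacter ℂ (QQ b J), ∫ lam, ∑ k ∈ KS b L l r,
        (((Dl b k : ℝ) : ℂ) * conj (χ (((N : ℤ) - rv b L k : ℤ) : ZMod (QQ b J)))) *
          ce2_h b L J N k χ lam = ∑ k ∈ KS b L l r,
        (((Dl b k : ℝ) : ℂ) * conj (χ (((N : ℤ) - rv b L k : ℤ) : ZMod (QQ b J)))) *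
          ∫ lam, ce2_h b L J N k χ lam := by
    intro χ
    rw [integral_finset_sum _ (fun k _ => (hint k χ).const_mul _)]
    apply Finset.sum_congr rfl
    intro k _
    rw [integral_const_mul]
  simp_rw [hswap]
  -- the two sides as sums over k
  have hT : ∀ k ∈ KS b L l r, _ := fun k hk => ce2_T_eq b L J N l r k hA hg hk
    (fun χ => (hex k χ).2.1) (fun χ => (hex k χ).2.2)
  have hR : (((QQ b J : ℝ) / (QQ b J).totient : ℝ) : ℂ) * ((1 / (2 * Real.pi) : ℝ) : ℂ) *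
      ∑ χ : DirichletCharacter ℂ (QQ b J), ∑ k ∈ KS b L l r,
        (((Dl b k : ℝ) : ℂ) * conj (χ (((N : ℤ) - rv b L k : ℤ) : ZMod (QQ b J)))) *
          ∫ lam, ce2_h b L J N k χ lam = ∑ k ∈ KS b L l r, ((Dl b k : ℝ) : ℂ) * ce2_T b L J N k := by
    rw [Finset.sum_comm, Finset.mul_sum]
    apply Finset.sum_congr rfl
    intro k hk
    rw [(hT k hk).2, Finset.mul_sum, Finset.mul_sum, Finset.mul_sum]
    apply Finset.sum_congr rfl
    intro χ _
    ring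
  have hLft : (EEs b L J N l r : ℂ) = ∑ k ∈ KS b L l r, ((Dl b k : ℝ) : ℂ) * ce2_I b L J N k := by
    unfold EEs
    rw [Complex.ofReal_sum]
    apply Finset.sum_congr rfl
    intro k _
    rw [← ce2_I_eq b L J N l r k hA hg, ← Complex.ofReal_mul, Finset.mul_sum]
    congr 1
    apply Finset.sum_congr rfl
    intro n _
    ring
  rw [hR, hLft, ← Finset.sum_sub_distrib]
  -- the error for one k
  set K : ℝ := (QQ b J : ℝ) * (C1 * (b : ℝ) ^ (2 * J) * del b J) with hK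
  have hK0 : 0 ≤ K := by positivity
  have herr : ∀ k ∈ KS b L l r, ‖ce2_I b L J N k - ce2_T b L J N k‖ ≤ K * C2 := by
    intro k hk
    unfold ce2_I ce2_T
    rw [← Summable.tsum_sub (ce2_sumI b L J N l r k hA hg) (hT k hk).1]
    have hbd : ∀ n : ℕ, ‖((QQ b J : ℝ) : ℂ) * ce2_ind b L J N k n * ((Dl b n : ℝ) : ℂ) *
        Gs b L J (MC J) N (k % b ^ (MC J)) (Real.log n) * ((ce2_w b L n : ℝ) : ℂ) -
        ((QQ b J : ℝ) : ℂ) * ce2_ind b L J N k n * ((Dl b n : ℝ) : ℂ) *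
        sm (del b J) (Gs b L J (MC J) N (k % b ^ (MC J))) (Real.log n) * ((ce2_w b L n : ℝ) : ℂ)‖ ≤
        K * (|Dl b n| * (gw (Real.log n - xL b L) / n)) := by
      intro n
      have h1 := sm_sub_le hδ (H1 L J N (k % b ^ (MC J)) hA hg.1 hg.2.1).1
        (v := Real.log n) (K := C1 * (b : ℝ) ^ (2 * J))
        (fun w => (H1 L J N (k % b ^ (MC J)) hA hg.1 hg.2.1).2.2 (Real.log n) w)
      have e1 : ((QQ b J : ℝ) : ℂ) * ce2_ind b L J N k n * ((Dl b n : ℝ) : ℂ) *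
        Gs b L J (MC J) N (k % b ^ (MC J)) (Real.log n) * ((ce2_w b L n : ℝ) : ℂ) -
        ((QQ b J : ℝ) : ℂ) * ce2_ind b L J N k n * ((Dl b n : ℝ) : ℂ) *
        sm (del b J) (Gs b L J (MC J) N (k % b ^ (MC J))) (Real.log n) * ((ce2_w b L n : ℝ) : ℂ) =
        -(((QQ b J : ℝ) : ℂ) * ce2_ind b L J N k n * ((Dl b n : ℝ) : ℂ) *
        (sm (del b J) (Gs b L J (MC J) N (k % b ^ (MC J))) (Real.log n) -
          Gs b L J (MC J) N (k % b ^ (MC J)) (Real.log n)) * ((ce2_w b L n : ℝ) : ℂ)) := by ring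
      rw [e1, norm_neg, norm_mul, norm_mul, norm_mul, norm_mul, Complex.norm_real, Complex.norm_real,
        Complex.norm_real, Real.norm_eq_abs, Real.norm_eq_abs, Real.norm_eq_abs,
        abs_of_nonneg (ce2_w_nonneg b L n), abs_of_nonneg (by positivity : (0 : ℝ) ≤ (QQ b J : ℝ))]
      have hq0 : (0 : ℝ) ≤ (QQ b J : ℝ) := by positivity
      have h2 := ce2_norm_ind b L J N k n
      calc (QQ b J : ℝ) * ‖ce2_ind b L J N k n‖ * |Dl b n| *
          ‖sm (del b J) (Gs b L J (MC J) N (k % b ^ (MC J))) (Real.log n) -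
          Gs b L J (MC J) N (k % b ^ (MC J)) (Real.log n)‖ * ce2_w b L n
          ≤ (QQ b J : ℝ) * 1 * |Dl b n| * (C1 * (b : ℝ) ^ (2 * J) * del b J) * ce2_w b L n := by
            apply mul_le_mul_of_nonneg_right _ (ce2_w_nonneg b L n)
            apply mul_le_mul _ h1 (norm_nonneg _) (by positivity)
            apply mul_le_mul_of_nonneg_right _ (abs_nonneg _)
            exact mul_le_mul_of_nonneg_left h2 hq0
        _ = K * (|Dl b n| * (gw (Real.log n - xL b L) / n)) := by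
            rw [hK]; unfold ce2_w; ring
    refine (tsum_of_norm_bounded (hsm.mul_left K).hasSum hbd).trans ?_
    rw [tsum_mul_left]
    exact mul_le_mul_of_nonneg_left hle hK0
  have hfin : ‖∑ k ∈ KS b L l r, (((Dl b k : ℝ) : ℂ) * ce2_I b L J N k - ((Dl b k : ℝ) : ℂ) * ce2_T b L J N k)‖ ≤
      (b : ℝ) ^ L * (C3 * L * (K * C2)) := by
    refine (norm_sum_le _ _).trans ?_
    have h1 : ∀ k ∈ KS b L l r, ‖((Dl b k : ℝ) : ℂ) * ce2_I b L J N k - ((Dl b k : ℝ) : ℂ) * ce2_T b L J N k‖ ≤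
        C3 * L * (K * C2) := by
      intro k hk
      rw [← mul_sub, norm_mul, Complex.norm_real, Real.norm_eq_abs]
      exact mul_le_mul (H3 L k hL1 (ce2_k_lt b L l r k hb hL1 hg.2.2.2.1 hk)) (herr k hk) (norm_nonneg _)
        (by positivity)
    refine (Finset.sum_le_card_nsmul _ _ _ h1).trans ?_
    rw [nsmul_eq_mul]
    apply mul_le_mul_of_nonneg_right _ (by positivity)
    exact_mod_cast ce2_card b L l r hb
  refine hfin.trans ?_
  have hKb : K ≤ (D0 b + 1) * C1 / (b : ℝ) ^ J := by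
    rw [hK]; unfold QQ del
    push_cast
    rw [le_div_iff₀ (by positivity)]
    have e1 : (b : ℝ) ^ (5 * J) = (b : ℝ) ^ J * (b : ℝ) ^ (2 * J) * (b : ℝ) ^ J * (b : ℝ) ^ J := by
      rw [← pow_add, ← pow_add, ← pow_add]; congr 1; ring
    have hp1 : (1 : ℝ) ≤ (b : ℝ) ^ J := one_le_pow₀ hb1
    have hpos : (0 : ℝ) < (b : ℝ) ^ (5 * J) := by positivity
    have hstep : (D0 b : ℝ) * (b : ℝ) ^ J * (C1 * (b : ℝ) ^ (2 * J) * ((b : ℝ) ^ (5 * J))⁻¹) * (b : ℝ) ^ J =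
        (D0 b : ℝ) * C1 * ((b : ℝ) ^ J)⁻¹ := by
      rw [e1]; field_simp
    rw [hstep]
    have h3 : ((b : ℝ) ^ J)⁻¹ ≤ 1 := inv_le_one_of_one_le₀ hp1
    have h4 : 0 ≤ (D0 b : ℝ) * C1 := by positivity
    nlinarith
  calc (b : ℝ) ^ L * (C3 * L * (K * C2)) ≤ (b : ℝ) ^ L * (C3 * L * (((D0 b + 1) * C1 / (b : ℝ) ^ J) * C2)) := by
        apply mul_le_mul_of_nonneg_left _ (by positivity)
        apply mul_le_mul_of_nonneg_left _ (by positivity)
        exact mul_le_mul_of_nonneg_right hKb hC2.le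
    _ = ((D0 b + 1) * C1 * C2 * C3 * L * (b : ℝ) ^ L / (b : ℝ) ^ J) * 1 := by ring
    _ ≤ ((D0 b + 1) * C1 * C2 * C3 * L * (b : ℝ) ^ L / (b : ℝ) ^ J) * L :=
        mul_le_mul_of_nonneg_left hL1' (by positivity)
    _ = (D0 b + 1) * C1 * C2 * C3 * L ^ 2 * (b : ℝ) ^ L / (b : ℝ) ^ J := by ring

end Pool.Agent.LibHG31
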