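import Pool.Agent.LibHG31.CG1

/-! ROW CG3: the coefficients of the suffix function, from (C2').
PLAN: with `z = e^v`, `w = y - z`: `FT (Gs s) lam = ∫ hh(y - z) z^(-iλ)/gw(log z - xL) dz = ∫_{-H}^{H} hh(w) (y_s-w)^(-iλ) /
gw(log (y_s - w) - xL) dw`. Now `y_s - w = b^L (Y - V(s))`, `Y = (N - w)/b^L ∈ [b - 1/2, b² + 1/2]`, `V(s) = rv b M s/b^M`, and
`1/gw(log(b^L t) - xL) = ω(t)`, `ω(t) = 1/gw(log t)`, Lipschitz on `[1/2, b²+1]`, extended by constants (clip `t` to that interval):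
`W = ω∘clip / C_ω` satisfies the hypotheses of `C2pStmt`. Interchange the sum over `s` and the integral over `w`, apply
`C2pStmt` with `-lam` for each `w`, `∫ hh = 1`. `(b^L t)^(-iλ) = b^(-iλL) t^(-iλ)`. -/

namespace Pool.Agent.LibHG31

open Finset Complex MeasureTheory
open Pool.Agent.LibMaier (gw)

/-- `1/gw(log t)` -/
noncomputable def cg3_om (t : ℝ) : ℝ := Real.sqrt (2 * Real.pi) * Real.exp (Real.log t ^ 2 / 2)

/-- clipping to `[1/2, b²+1]` -/
noncomputable def cg3_cl (b : ℕ) (t : ℝ) : ℝ := max (1 / 2) (min t ((b : ℝ) ^ 2 + 1))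

noncomputable def cg3_C0 (b : ℕ) : ℝ := Real.sqrt (2 * Real.pi) * Real.exp (((b : ℝ) ^ 2 + 1) ^ 2 / 2)

noncomputable def cg3_C (b : ℕ) : ℝ := cg3_C0 b * (2 * ((b : ℝ) ^ 2 + 1))

theorem cg3_C0_pos (b : ℕ) : 0 < cg3_C0 b := by unfold cg3_C0; positivity

theorem cg3_C_pos (b : ℕ) : 0 < cg3_C b := by
  have := cg3_C0_pos b
  unfold cg3_C; positivity

theorem cg3_C0_le (b : ℕ) : cg3_C0 b ≤ cg3_C b := by
  have := cg3_C0_pos b
  unfold cg3_C
  have h : (1 : ℝ) ≤ 2 * ((b : ℝ) ^ 2 + 1) := by nlinarith [sq_nonneg (b : ℝ)]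
  nlinarith

theorem cg3_om_nonneg (t : ℝ) : 0 ≤ cg3_om t := by unfold cg3_om; positivity

theorem cg3_om_eq (u : ℝ) : 1 / gw (Real.log u) = cg3_om u := by
  unfold cg3_om gw
  rw [show Real.exp (-Real.log u ^ 2 / 2) = (Real.exp (Real.log u ^ 2 / 2))⁻¹ by
    rw [← Real.exp_neg]; congr 1; ring]
  have h1 : Real.exp (Real.log u ^ 2 / 2) ≠ 0 := (Real.exp_pos _).ne'
  have h2 : Real.sqrt (2 * Real.pi) ≠ 0 := by positivity
  field_simp

theorem cg3_log_bd (b : ℕ) (t : ℝ) (h1 : 1 / 2 ≤ t) (h2 : t ≤ (b : ℝ) ^ 2 + 1) :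
    |Real.log t| ≤ (b : ℝ) ^ 2 + 1 := by
  have ht : 0 < t := by linarith
  have h3 := Real.log_le_sub_one_of_pos ht
  have h4 := Real.one_sub_inv_le_log_of_pos ht
  have h5 : t⁻¹ ≤ 2 := by
    rw [inv_le_comm₀ ht (by norm_num)]; linarith
  rw [abs_le]
  constructor
  · nlinarith [sq_nonneg (b : ℝ)]
  · linarith

theorem cg3_om_le (b : ℕ) (t : ℝ) (h1 : 1 / 2 ≤ t) (h2 : t ≤ (b : ℝ) ^ 2 + 1) : cg3_om t ≤ cg3_C0 b := by
  unfold cg3_om cg3_C0
  apply mul_le_mul_of_nonneg_left _ (Real.sqrt_nonneg _)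
  apply Real.exp_le_exp.mpr
  have h3 := cg3_log_bd b t h1 h2
  have h4 : Real.log t ^ 2 ≤ ((b : ℝ) ^ 2 + 1) ^ 2 := by
    rw [← sq_abs (Real.log t)]
    exact pow_le_pow_left₀ (abs_nonneg _) h3 2
  linarith

theorem cg3_om_deriv (t : ℝ) (ht : 0 < t) :
    HasDerivAt cg3_om (cg3_om t * (Real.log t / t)) t := by
  have h1 : HasDerivAt (fun t : ℝ => Real.log t ^ 2 / 2) (Real.log t / t) t := by
    have h2 := ((Real.hasDerivAt_log ht.ne').pow 2).div_const 2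
    refine h2.congr_deriv ?_
    simp only [Nat.cast_ofNat, Nat.add_one_sub_one, pow_one]
    field_simp
  have h3 := (h1.exp).const_mul (Real.sqrt (2 * Real.pi))
  refine h3.congr_deriv ?_
  unfold cg3_om; ring

theorem cg3_om_lip (b : ℕ) (s t : ℝ) (hs : s ∈ Set.Icc (1 / 2 : ℝ) ((b : ℝ) ^ 2 + 1))
    (ht : t ∈ Set.Icc (1 / 2 : ℝ) ((b : ℝ) ^ 2 + 1)) : |cg3_om s - cg3_om t| ≤ cg3_C b * |s - t| := by
  have := Convex.norm_image_sub_le_of_norm_hasDerivWithin_le (f := cg3_om)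
    (f' := fun t => cg3_om t * (Real.log t / t)) (s := Set.Icc (1 / 2 : ℝ) ((b : ℝ) ^ 2 + 1))
    (C := cg3_C b) (x := t) (y := s)
    (fun x hx => (cg3_om_deriv x (by linarith [hx.1])).hasDerivWithinAt) ?_ (convex_Icc _ _) ht hs
  · simpa [Real.norm_eq_abs] using this
  · rintro x ⟨hx1, hx2⟩
    have hx0 : 0 < x := by linarith
    rw [norm_mul, Real.norm_eq_abs, Real.norm_eq_abs, abs_of_nonneg (cg3_om_nonneg x)]
    unfold cg3_C
    apply mul_le_mul (cg3_om_le b x hx1 hx2) _ (abs_nonneg _) (cg3_C0_pos b).le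
    rw [abs_div, abs_of_pos hx0, div_le_iff₀ hx0]
    have h3 := cg3_log_bd b x hx1 hx2
    nlinarith [sq_nonneg (b : ℝ)]

theorem cg3_cl_mem (b : ℕ) (hb : 2 ≤ b) (t : ℝ) : cg3_cl b t ∈ Set.Icc (1 / 2 : ℝ) ((b : ℝ) ^ 2 + 1) := by
  unfold cg3_cl
  refine ⟨le_max_left _ _, ?_⟩
  apply max_le
  · nlinarith [sq_nonneg (b : ℝ)]
  · exact min_le_right _ _

theorem cg3_cl_eq (b : ℕ) (t : ℝ) (h1 : 1 / 2 ≤ t) (h2 : t ≤ (b : ℝ) ^ 2 + 1) : cg3_cl b t = t := by
  unfold cg3_cl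
  rw [min_eq_left h2, max_eq_right h1]

theorem cg3_cl_lip (b : ℕ) (s t : ℝ) : |cg3_cl b s - cg3_cl b t| ≤ |s - t| := by
  have h := (LipschitzWith.id.min_const ((b : ℝ) ^ 2 + 1)).const_max (1 / 2)
  have h2 := h.dist_le_mul s t
  simpa [Real.dist_eq, cg3_cl] using h2

theorem cg3_cl_cont (b : ℕ) : Continuous (cg3_cl b) := by
  unfold cg3_cl; fun_prop

/-- the weight -/
noncomputable def cg3_W (b : ℕ) (t : ℝ) : ℝ := cg3_om (cg3_cl b t) / cg3_C b

theorem cg3_W_le (b : ℕ) (hb : 2 ≤ b) (t : ℝ) : |cg3_W b t| ≤ 1 := by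
  unfold cg3_W
  rw [abs_div, abs_of_pos (cg3_C_pos b), abs_of_nonneg (cg3_om_nonneg _), div_le_one (cg3_C_pos b)]
  have h := cg3_cl_mem b hb t
  exact (cg3_om_le b _ h.1 h.2).trans (cg3_C0_le b)

theorem cg3_W_lip (b : ℕ) (hb : 2 ≤ b) (s t : ℝ) : |cg3_W b s - cg3_W b t| ≤ |s - t| := by
  unfold cg3_W
  rw [← sub_div, abs_div, abs_of_pos (cg3_C_pos b), div_le_iff₀ (cg3_C_pos b), mul_comm]
  exact (cg3_om_lip b _ _ (cg3_cl_mem b hb s) (cg3_cl_mem b hb t)).trans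
    (mul_le_mul_of_nonneg_left (cg3_cl_lip b s t) (cg3_C_pos b).le)

theorem cg3_hh_cont (b L J : ℕ) : Continuous (hh b L J) := by
  unfold hh; fun_prop

theorem cg3_Hr_pos (b L J : ℕ) (h : Adm b L J) : 0 < Hr b L J := by
  obtain ⟨-, h2, -⟩ := Hr_eq b L J h
  have hb0 : (0 : ℝ) < b := by
    have := h.1
    exact_mod_cast (by omega : 0 < b)
  exact lt_of_lt_of_le (by positivity) h2

theorem cg3_hh_supp (b L J : ℕ) (h : Adm b L J) (v : ℝ) (hv : hh b L J v ≠ 0) : |v| < Hr b L J := by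
  by_contra hc
  rw [not_lt] at hc
  apply hv
  have hH := cg3_Hr_pos b L J h
  unfold hh
  rw [max_eq_left, mul_zero]
  rw [sub_nonpos, le_div_iff₀ hH]; linarith

theorem cg3_hh_ind (b L J : ℕ) (h : Adm b L J) (v : ℝ) :
    hh b L J v ≤ (Set.Icc (-(Hr b L J)) (Hr b L J)).indicator (fun _ => 1 / Hr b L J) v := by
  have hH := cg3_Hr_pos b L J h
  by_cases h0 : hh b L J v = 0
  · rw [h0]
    apply Set.indicator_nonneg
    intro _ _; positivity
  · have h1 := abs_lt.mp (cg3_hh_supp b L J h v h0)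
    rw [Set.indicator_of_mem (show v ∈ Set.Icc _ _ from ⟨h1.1.le, h1.2.le⟩)]
    unfold hh
    have h2 : max 0 (1 - |v| / Hr b L J) ≤ 1 := by
      apply max_le (by norm_num)
      have : 0 ≤ |v| / Hr b L J := by positivity
      linarith
    exact mul_le_of_le_one_right (by positivity) h2

theorem cg3_ind_int (b L J : ℕ) :
    Integrable ((Set.Icc (-(Hr b L J)) (Hr b L J)).indicator (fun _ : ℝ => 1 / Hr b L J)) := by
  rw [integrable_indicator_iff measurableSet_Icc]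
  exact integrableOn_const (by simp)

theorem cg3_hh_int (b L J : ℕ) (h : Adm b L J) : Integrable (hh b L J) := by
  refine (cg3_ind_int b L J).mono' (cg3_hh_cont b L J).aestronglyMeasurable
    (Filter.Eventually.of_forall (fun v => ?_))
  rw [Real.norm_eq_abs, abs_of_nonneg (hh_nonneg b L J v)]
  exact cg3_hh_ind b L J h v

theorem cg3_hh_integral (b L J : ℕ) (h : Adm b L J) : (∫ v, hh b L J v) ≤ 2 := by
  have hH := cg3_Hr_pos b L J h
  calc (∫ v, hh b L J v) ≤ ∫ v, (Set.Icc (-(Hr b L J)) (Hr b L J)).indicator (fun _ : ℝ => 1 / Hr b L J) v :=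
        integral_mono (cg3_hh_int b L J h) (cg3_ind_int b L J) (cg3_hh_ind b L J h)
    _ = 2 := by
        rw [integral_indicator measurableSet_Icc, setIntegral_const]
        simp only [Measure.real, Real.volume_Icc, smul_eq_mul]
        rw [ENNReal.toReal_ofReal (by linarith)]
        field_simp
        ring
    _ ≤ 2 := le_rfl

/-- change of variables -/
theorem cg3_FT (b L J N s : ℕ) (h : Adm b L J) (hN1 : b ^ (L + 1) ≤ N) (lam : ℝ) :
    FT (Gs b L J (MC J) N s) lam = ∫ w, ((hh b L J w : ℝ) : ℂ) *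
      (((1 / gw (Real.log (ys b L (MC J) N s - w) - xL b L) : ℝ) : ℂ) *
      cexp (-(((lam * Real.log (ys b L (MC J) N s - w) : ℝ) : ℂ) * I))) := by
  set y := ys b L (MC J) N s with hy
  set g : ℝ → ℂ := fun z => ((hh b L J (y - z) : ℝ) : ℂ) *
      (((1 / gw (Real.log z - xL b L) : ℝ) : ℂ) *
      cexp (-(((lam * Real.log z : ℝ) : ℂ) * I))) with hg
  have e1 : FT (Gs b L J (MC J) N s) lam = ∫ v in Set.univ, |Real.exp v| • g (Real.exp v) := by
    rw [Measure.restrict_univ]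
    unfold FT Gs
    congr 1
    funext v
    rw [hg]
    simp only [Real.log_exp, abs_of_pos (Real.exp_pos v), Complex.real_smul]
    push_cast
    ring
  have e2 := integral_image_eq_integral_abs_deriv_smul (s := Set.univ) (f := Real.exp) (f' := Real.exp)
    MeasurableSet.univ (fun x _ => (Real.hasDerivAt_exp x).hasDerivWithinAt)
    Real.exp_injective.injOn g
  rw [Set.image_univ, Real.range_exp] at e2
  rw [e1, ← e2]
  have hb2 := h.1
  have hJ := h.2.1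
  have hLJ := h.2.2.2
  have hb0 : (0 : ℝ) < b := by exact_mod_cast (by omega : 0 < b)
  have hM : MC J ≤ L := by unfold MC; omega
  have hyb : (b : ℝ) ^ L ≤ y := by
    rw [hy]; unfold ys
    have h1 := CG1_rv_lt b (MC J) s hb2
    have h2 : ((rv b (MC J) s : ℕ) : ℝ) ≤ (b : ℝ) ^ (MC J) := by exact_mod_cast h1.le
    have h3 : (b : ℝ) ^ (L - MC J) * rv b (MC J) s ≤ (b : ℝ) ^ L := by
      calc (b : ℝ) ^ (L - MC J) * rv b (MC J) s ≤ (b : ℝ) ^ (L - MC J) * (b : ℝ) ^ (MC J) :=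
            mul_le_mul_of_nonneg_left h2 (by positivity)
        _ = (b : ℝ) ^ L := by rw [← pow_add]; congr 1; omega
    have h4 : (b : ℝ) ^ (L + 1) ≤ N := by exact_mod_cast hN1
    have h5 : 2 * (b : ℝ) ^ L ≤ (b : ℝ) ^ (L + 1) := by
      rw [pow_succ']
      have : (2 : ℝ) ≤ b := by exact_mod_cast hb2
      exact mul_le_mul_of_nonneg_right this (by positivity)
    linarith
  have hzero : ∀ z, z ∉ Set.Ioi (0 : ℝ) → g z = 0 := by
    intro z hz
    rw [Set.mem_Ioi, not_lt] at hz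
    have h0 : hh b L J (y - z) = 0 := by
      by_contra hne
      have h1 := cg3_hh_supp b L J h _ hne
      have h2 := (Hr_eq b L J h).2.2
      have h3 := (abs_lt.mp h1).2
      have h4 : 0 < (b : ℝ) ^ L := by positivity
      linarith
    rw [hg]
    simp only [h0, Complex.ofReal_zero, zero_mul]
  rw [setIntegral_eq_integral_of_forall_compl_eq_zero hzero]
  rw [← integral_sub_left_eq_self g volume y]
  congr 1
  funext w
  rw [hg]
  simp only [sub_sub_cancel]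

/-- the clipped integrand -/
noncomputable def cg3_Phi (b L J N s : ℕ) (lam w : ℝ) : ℂ :=
  ((hh b L J w : ℝ) : ℂ) * (((cg3_om (cg3_cl b (((N : ℝ) - w) / (b : ℝ) ^ L -
    rv b (MC J) s / (b : ℝ) ^ (MC J))) : ℝ) : ℂ) *
    cexp (-(((lam * (xL b L + Real.log (cg3_cl b (((N : ℝ) - w) / (b : ℝ) ^ L -
      rv b (MC J) s / (b : ℝ) ^ (MC J)))) : ℝ) : ℂ) * I)))

theorem cg3_T (b L J N s : ℕ) (h : Adm b L J) (hN1 : b ^ (L + 1) ≤ N) (hN2 : N < b ^ (L + 2)) (w : ℝ)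
    (hw : |w| < Hr b L J) :
    3 / 2 ≤ ((N : ℝ) - w) / (b : ℝ) ^ L ∧ ((N : ℝ) - w) / (b : ℝ) ^ L ≤ (b : ℝ) ^ 2 + 1 ∧
    1 / 2 ≤ ((N : ℝ) - w) / (b : ℝ) ^ L - rv b (MC J) s / (b : ℝ) ^ (MC J) ∧
    ((N : ℝ) - w) / (b : ℝ) ^ L - rv b (MC J) s / (b : ℝ) ^ (MC J) ≤ (b : ℝ) ^ 2 + 1 := by
  have hb2 := h.1
  have hb0 : (0 : ℝ) < b := by exact_mod_cast (by omega : 0 < b)
  have hb2' : (2 : ℝ) ≤ b := by exact_mod_cast hb2
  have hbL : (0 : ℝ) < (b : ℝ) ^ L := by positivity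
  have h2 := (Hr_eq b L J h).2.2
  have hw' := abs_lt.mp hw
  have hN1' : (b : ℝ) ^ (L + 1) ≤ N := by exact_mod_cast hN1
  have hN2' : (N : ℝ) ≤ (b : ℝ) ^ (L + 2) := by exact_mod_cast hN2.le
  have p1 : (b : ℝ) ^ (L + 1) = b * (b : ℝ) ^ L := by rw [pow_succ']
  have p2 : (b : ℝ) ^ (L + 2) = (b : ℝ) ^ 2 * (b : ℝ) ^ L := by rw [← pow_add]; congr 1; omega
  have hlow : (b : ℝ) - 1 / 2 ≤ ((N : ℝ) - w) / (b : ℝ) ^ L := by
    rw [le_div_iff₀ hbL]; nlinarith
  have hup : ((N : ℝ) - w) / (b : ℝ) ^ L ≤ (b : ℝ) ^ 2 + 1 / 2 := by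
    rw [div_le_iff₀ hbL]; nlinarith
  have hrv := CG1_rv_lt b (MC J) s hb2
  have hr1 : ((rv b (MC J) s : ℕ) : ℝ) / (b : ℝ) ^ (MC J) ≤ 1 := by
    rw [div_le_one (by positivity)]
    exact_mod_cast hrv.le
  have hr0 : 0 ≤ ((rv b (MC J) s : ℕ) : ℝ) / (b : ℝ) ^ (MC J) := by positivity
  refine ⟨by linarith, by linarith, by linarith, by linarith⟩

theorem cg3_FT2 (b L J N s : ℕ) (h : Adm b L J) (hN1 : b ^ (L + 1) ≤ N) (hN2 : N < b ^ (L + 2)) (lam : ℝ) :
    FT (Gs b L J (MC J) N s) lam = ∫ w, cg3_Phi b L J N s lam w := by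
  rw [cg3_FT b L J N s h hN1 lam]
  congr 1
  funext w
  unfold cg3_Phi
  by_cases h0 : hh b L J w = 0
  · rw [h0]; simp
  · have hw := cg3_hh_supp b L J h w h0
    obtain ⟨-, -, h3, h4⟩ := cg3_T b L J N s h hN1 hN2 w hw
    rw [cg3_cl_eq b _ h3 h4]
    have hb2 := h.1
    have hJ := h.2.1
    have hLJ := h.2.2.2
    have hb0 : (0 : ℝ) < b := by exact_mod_cast (by omega : 0 < b)
    have hM : MC J ≤ L := by unfold MC; omega
    set T := ((N : ℝ) - w) / (b : ℝ) ^ L - rv b (MC J) s / (b : ℝ) ^ (MC J) with hT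
    have hT0 : 0 < T := by linarith
    have e1 : ys b L (MC J) N s - w = (b : ℝ) ^ L * T := by
      rw [hT]; unfold ys
      have hp : (b : ℝ) ^ L = (b : ℝ) ^ (L - MC J) * (b : ℝ) ^ (MC J) := by
        rw [← pow_add]; congr 1; omega
      have h5 : (b : ℝ) ^ (MC J) ≠ 0 := by positivity
      have h6 : (b : ℝ) ^ (L - MC J) ≠ 0 := by positivity
      rw [hp]
      field_simp
      ring
    have e2 : Real.log (ys b L (MC J) N s - w) = xL b L + Real.log T := by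
      rw [e1, Real.log_mul (by positivity) hT0.ne', Real.log_pow]; rfl
    rw [e2, add_sub_cancel_left, cg3_om_eq]

theorem cg3_Phi_int (b L J N s : ℕ) (h : Adm b L J) (lam : ℝ) : Integrable (cg3_Phi b L J N s lam) := by
  have hb2 := h.1
  have hcl : Continuous (fun w : ℝ => cg3_cl b (((N : ℝ) - w) / (b : ℝ) ^ L -
      rv b (MC J) s / (b : ℝ) ^ (MC J))) :=
    (cg3_cl_cont b).comp (by fun_prop)
  have hlog : Continuous (fun w : ℝ => Real.log (cg3_cl b (((N : ℝ) - w) / (b : ℝ) ^ L -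
      rv b (MC J) s / (b : ℝ) ^ (MC J)))) :=
    hcl.log (fun w => by
      have := (cg3_cl_mem b hb2 (((N : ℝ) - w) / (b : ℝ) ^ L - rv b (MC J) s / (b : ℝ) ^ (MC J))).1
      intro h0; rw [h0] at this; norm_num at this)
  have hom : Continuous (fun w : ℝ => cg3_om (cg3_cl b (((N : ℝ) - w) / (b : ℝ) ^ L -
      rv b (MC J) s / (b : ℝ) ^ (MC J)))) := by
    unfold cg3_om
    exact continuous_const.mul (Real.continuous_exp.comp ((hlog.pow 2).div_const 2))
  have hcont : Continuous (cg3_Phi b L J N s lam) := by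
    unfold cg3_Phi
    refine (Complex.continuous_ofReal.comp (cg3_hh_cont b L J)).mul
      ((Complex.continuous_ofReal.comp hom).mul (Complex.continuous_exp.comp ?_))
    exact ((Complex.continuous_ofReal.comp
      (continuous_const.mul (continuous_const.add hlog))).mul continuous_const).neg
  refine ((cg3_hh_int b L J h).mul_const (cg3_C0 b)).mono' hcont.aestronglyMeasurable
    (Filter.Eventually.of_forall (fun w => ?_))
  unfold cg3_Phi
  have hm := cg3_cl_mem b hb2 (((N : ℝ) - w) / (b : ℝ) ^ L - rv b (MC J) s / (b : ℝ) ^ (MC J))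
  rw [norm_mul, norm_mul, Complex.norm_real, Complex.norm_real, Real.norm_eq_abs, Real.norm_eq_abs,
    abs_of_nonneg (hh_nonneg b L J w), abs_of_nonneg (cg3_om_nonneg _), ← neg_mul,
    ← Complex.ofReal_neg, Complex.norm_exp_ofReal_mul_I, mul_one]
  exact mul_le_mul_of_nonneg_left (cg3_om_le b _ hm.1 hm.2) (hh_nonneg b L J w)

theorem G_coupling (b : ℕ) (hb : 2 ≤ b) (h2 : C2pStmt b) : ∃ c C : ℝ, 0 < c ∧ 0 < C ∧ ∀ L J N : ℕ, Adm b L J →
    b ^ (L + 1) ≤ N → N < b ^ (L + 2) → ∀ (ψ : DirichletCharacter ℂ (b ^ (MC J))) (lam : ℝ), 1 ≤ |lam| →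
      lam ^ 2 ≤ (b : ℝ) ^ (MC J) →
      ‖∑ s ∈ range (b ^ (MC J)), ψ (s : ZMod (b ^ (MC J))) * FT (Gs b L J (MC J) N s) lam‖ ≤
        C * (b : ℝ) ^ (MC J) * |lam| ^ (-c) := by
  obtain ⟨c, C, hc, hC, H⟩ := h2
  have hCb := cg3_C_pos b
  refine ⟨c, 2 * (cg3_C b * C), hc, by positivity, ?_⟩
  intro L J N hA hN1 hN2 ψ lam hlam hlam2
  have hb0 : (0 : ℝ) < b := by exact_mod_cast (by omega : 0 < b)
  set K : ℝ := cg3_C b * (C * (b : ℝ) ^ (MC J) * |lam| ^ (-c)) with hK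
  have hlam0 : 0 < |lam| := by linarith
  have hK0 : 0 ≤ K := by positivity
  have e1 : ∑ s ∈ range (b ^ (MC J)), ψ (s : ZMod (b ^ (MC J))) * FT (Gs b L J (MC J) N s) lam =
      ∫ w, ∑ s ∈ range (b ^ (MC J)), ψ (s : ZMod (b ^ (MC J))) * cg3_Phi b L J N s lam w := by
    rw [integral_finset_sum]
    · apply Finset.sum_congr rfl
      intro s _
      rw [cg3_FT2 b L J N s hA hN1 hN2 lam, ← integral_const_mul]
    · intro s _
      exact (cg3_Phi_int b L J N s hA lam).const_mul _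
  rw [e1]
  have hpt : ∀ w, ‖∑ s ∈ range (b ^ (MC J)), ψ (s : ZMod (b ^ (MC J))) * cg3_Phi b L J N s lam w‖ ≤
      hh b L J w * K := by
    intro w
    by_cases h0 : hh b L J w = 0
    · have : ∑ s ∈ range (b ^ (MC J)), ψ (s : ZMod (b ^ (MC J))) * cg3_Phi b L J N s lam w = 0 := by
        apply Finset.sum_eq_zero
        intro s _
        unfold cg3_Phi
        rw [h0]; simp
      rw [this, norm_zero, h0, zero_mul]
    · have hw := cg3_hh_supp b L J hA w h0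
      obtain ⟨hY1, hY2, -, -⟩ := cg3_T b L J N 0 hA hN1 hN2 w hw
      have hH := H (MC J) ψ (((N : ℝ) - w) / (b : ℝ) ^ L) (-lam) (cg3_W b) hY1 hY2
        (by rwa [abs_neg]) (by rwa [neg_sq]) (cg3_W_le b hb) (cg3_W_lip b hb)
      rw [abs_neg] at hH
      have e2 : ∑ s ∈ range (b ^ (MC J)), ψ (s : ZMod (b ^ (MC J))) * cg3_Phi b L J N s lam w =
          (((hh b L J w * cg3_C b : ℝ) : ℂ) * cexp (((-(lam * xL b L) : ℝ) : ℂ) * I)) *
          ∑ v ∈ range (b ^ (MC J)), ψ (v : ZMod (b ^ (MC J))) *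
            ((cg3_W b (((N : ℝ) - w) / (b : ℝ) ^ L - rv b (MC J) v / (b : ℝ) ^ (MC J)) : ℝ) : ℂ) *
            (((((N : ℝ) - w) / (b : ℝ) ^ L - rv b (MC J) v / (b : ℝ) ^ (MC J) : ℝ)) : ℂ) ^
              (((-lam : ℝ) : ℂ) * Complex.I) := by
        rw [Finset.mul_sum]
        apply Finset.sum_congr rfl
        intro s _
        obtain ⟨-, -, h3, h4⟩ := cg3_T b L J N s hA hN1 hN2 w hw
        unfold cg3_Phi cg3_W
        rw [cg3_cl_eq b _ h3 h4]
        set T := ((N : ℝ) - w) / (b : ℝ) ^ L - rv b (MC J) s / (b : ℝ) ^ (MC J) with hT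
        have hT0 : 0 < T := by linarith
        rw [Complex.cpow_def_of_ne_zero (by exact_mod_cast hT0.ne'), ← Complex.ofReal_log hT0.le]
        have e3 : cexp (-(((lam * (xL b L + Real.log T) : ℝ) : ℂ) * I)) =
            cexp (((-(lam * xL b L) : ℝ) : ℂ) * I) *
              cexp (((Real.log T : ℝ) : ℂ) * (((-lam : ℝ) : ℂ) * Complex.I)) := by
          rw [← Complex.exp_add]; congr 1; push_cast; ring
        rw [e3]
        have hC' : (cg3_C b : ℂ) ≠ 0 := by exact_mod_cast hCb.ne'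
        push_cast
        field_simp
      rw [e2, norm_mul, norm_mul, Complex.norm_real, Complex.norm_exp_ofReal_mul_I, mul_one,
        Real.norm_eq_abs, abs_of_nonneg (mul_nonneg (hh_nonneg b L J w) hCb.le), hK, ← mul_assoc]
      exact mul_le_mul_of_nonneg_left hH (mul_nonneg (hh_nonneg b L J w) hCb.le)
  calc ‖∫ w, ∑ s ∈ range (b ^ (MC J)), ψ (s : ZMod (b ^ (MC J))) * cg3_Phi b L J N s lam w‖
      ≤ ∫ w, hh b L J w * K :=
        norm_integral_le_of_norm_le ((cg3_hh_int b L J hA).mul_const K) (Filter.Eventually.of_forall hpt)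
    _ = (∫ w, hh b L J w) * K := integral_mul_const _ _
    _ ≤ 2 * K := mul_le_mul_of_nonneg_right (cg3_hh_integral b L J hA) hK0
    _ = 2 * (cg3_C b * C) * (b : ℝ) ^ (MC J) * |lam| ^ (-c) := by rw [hK]; ring

end Pool.Agent.LibHG31
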