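import Pool.Agent.LibHG31.CT2
import Pool.Agent.LibHG31.CG3
import Pool.Agent.LibHG31.CA12

/-! ROW CT3: bounds for `TC`.
PLAN: `T_expand` + `char_expand` (with `Φ s = FT (Gs .. s) lam`; `B = C` from `FT_le`, `Gs_props`, or `B = C |λ|^(-c)` from
`G_coupling`) + `l1_cont` for `j = MC J`, `δ = del b J`, `x = xL b L` (the hypothesis `QQ b M (x/δ + 2) ≤ e^{x/40} = b^(L/40)` holds for
large `L` by `1000 J ≤ L`) + `‖FT Fp‖ ≤ C b^L` (`FT_le`, `Fp_props`) resp. `F_coupling`. First bound: trivially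
`#KS ≤ b^L`, `|Dl b k| ≤ C L`, `‖FT (Gs..)‖ ≤ C`. `x = L log b`, `x^6 ≤ C L^6`. -/

namespace Pool.Agent.LibHG31

open Finset Complex MeasureTheory
open Pool.Agent.LibPL63 (GS)

private theorem ct3_growth {b L J : ℕ} (h : Adm b L J) (hL : 200000 * b ^ 2 ≤ L) :
    60 ≤ xL b L ∧ (QQ b (MC J) : ℝ) * (xL b L / del b J + 2) ≤ Real.exp (xL b L / 40) := by
  obtain ⟨hb, hJ, hD, hJL⟩ := h
  have hbR : (2 : ℝ) ≤ b := by exact_mod_cast hb
  have hb0 : (0 : ℝ) < b := by linarith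
  have hlog : (1 : ℝ) / 2 ≤ Real.log b := by
    have h1 : Real.log 2 ≤ Real.log b := Real.log_le_log (by norm_num) hbR
    have h2 := Real.log_two_gt_d9
    linarith
  have hLR : (200000 : ℝ) * (b : ℝ) ^ 2 ≤ L := by exact_mod_cast hL
  set x : ℝ := xL b L with hx
  have hxe : x = L * Real.log b := rfl
  have hL0 : (0 : ℝ) ≤ L := Nat.cast_nonneg _
  have hxL : (L : ℝ) / 2 ≤ x := by
    rw [hxe]
    nlinarith
  have hb2 : (4 : ℝ) ≤ (b : ℝ) ^ 2 := by nlinarith
  have hx1 : 100000 * (b : ℝ) ^ 2 ≤ x := by linarith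
  have hx2 : (400000 : ℝ) ≤ x := by linarith
  have hx0 : 0 < x := by linarith
  refine ⟨by linarith, ?_⟩
  have hQ : (QQ b (MC J) : ℝ) ≤ (b : ℝ) ^ (13 * J) * (b : ℝ) ^ 2 / 2 := by
    have h1 : 2 * QQ b (MC J) ≤ b ^ (13 * J) * b ^ 2 := by
      unfold QQ MC
      calc 2 * (D0 b * b ^ (12 * J + 2)) = (2 * D0 b) * b ^ (12 * J + 2) := by ring
        _ ≤ b ^ J * b ^ (12 * J + 2) := Nat.mul_le_mul_right _ hD
        _ = b ^ (13 * J) * b ^ 2 := by rw [← pow_add, ← pow_add]; congr 1; ring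
    have h2 : (2 : ℝ) * (QQ b (MC J) : ℝ) ≤ (b : ℝ) ^ (13 * J) * (b : ℝ) ^ 2 := by exact_mod_cast h1
    linarith
  have hdel : x / del b J = x * (b : ℝ) ^ (5 * J) := by
    unfold del
    rw [div_inv_eq_mul]
  have hp5 : (1 : ℝ) ≤ (b : ℝ) ^ (5 * J) := one_le_pow₀ (by linarith)
  have h3 : x / del b J + 2 ≤ (b : ℝ) ^ (5 * J) * (x + 2) := by
    rw [hdel]
    nlinarith
  have h4 : (b : ℝ) ^ 2 * (x + 2) ≤ Real.exp (7 * x / 1000) := by
    have h5 := Real.quadratic_le_exp_of_nonneg (x := 7 * x / 1000) (by positivity)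
    have h6 : (b : ℝ) ^ 2 * (x + 2) ≤ (7 * x / 1000) ^ 2 / 2 := by
      have h7 : (b : ℝ) ^ 2 * (x + 2) ≤ (x / 100000) * (2 * x) := by
        apply mul_le_mul (by linarith) (by linarith) (by linarith) (by positivity)
      nlinarith
    have h8 : 0 ≤ 7 * x / 1000 := by positivity
    linarith
  have h5 : (b : ℝ) ^ (18 * J) ≤ Real.exp (18 * x / 1000) := by
    have h6 : (b : ℝ) ^ (18 * J) = Real.exp ((18 * J : ℕ) * Real.log b) := by
      rw [Real.exp_nat_mul, Real.exp_log hb0]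
    rw [h6]
    apply Real.exp_le_exp.2
    rw [hxe]
    have h7 : (1000 : ℝ) * J ≤ L := by exact_mod_cast hJL
    push_cast
    nlinarith
  calc (QQ b (MC J) : ℝ) * (x / del b J + 2)
      ≤ ((b : ℝ) ^ (13 * J) * (b : ℝ) ^ 2 / 2) * ((b : ℝ) ^ (5 * J) * (x + 2)) := by
        apply mul_le_mul hQ h3 _ (by positivity)
        rw [hdel]
        positivity
    _ = (b : ℝ) ^ (18 * J) * ((b : ℝ) ^ 2 * (x + 2)) / 2 := by
        have : (b : ℝ) ^ (18 * J) = (b : ℝ) ^ (13 * J) * (b : ℝ) ^ (5 * J) := by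
          rw [← pow_add]
          congr 1
          ring
        rw [this]
        ring
    _ ≤ (b : ℝ) ^ (18 * J) * ((b : ℝ) ^ 2 * (x + 2)) := by
        have : 0 ≤ (b : ℝ) ^ (18 * J) * ((b : ℝ) ^ 2 * (x + 2)) := by positivity
        linarith
    _ ≤ Real.exp (18 * x / 1000) * Real.exp (7 * x / 1000) :=
        mul_le_mul h5 h4 (by positivity) (Real.exp_pos _).le
    _ = Real.exp (x / 40) := by
        rw [← Real.exp_add]
        congr 1
        ring

private theorem ct3_main (b : ℕ) (hb : 2 ≤ b) : ∃ (C : ℝ) (L0 : ℕ), 0 < C ∧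
    ∀ L J N l r : ℕ, L0 ≤ L → Adm b L J → Good b L l r N → ∀ (χ : DirichletCharacter ℂ (QQ b J))
    (lam A B : ℝ), 0 ≤ A → 0 ≤ B → (∀ lam', ‖FT (Fp b L J N l r χ) lam'‖ ≤ A) →
    (∀ ψ : DirichletCharacter ℂ (b ^ (MC J)), ‖∑ s ∈ range (b ^ (MC J)),
      ψ (s : ZMod (b ^ (MC J))) * FT (Gs b L J (MC J) N s) lam‖ ≤ B * (b : ℝ) ^ (MC J)) →
    ‖TC b L J N l r χ lam‖ ≤ C * L ^ 6 * (A * B) + C * L * (b : ℝ) ^ L / (b : ℝ) ^ (2 * J) := by
  obtain ⟨C1, hC1, h1⟩ := T_expand b hb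
  obtain ⟨C2, hC2, h2⟩ := l1_cont b hb
  have hbR : (2 : ℝ) ≤ b := by exact_mod_cast hb
  have hlog0 : 0 ≤ Real.log b := Real.log_natCast_nonneg b
  refine ⟨C1 + b * C2 * Real.log b ^ 6, 200000 * b ^ 2, by positivity, ?_⟩
  intro L J N l r hL hAdm hGood χ lam A B hA hB hF hG
  obtain ⟨hx60, hgr⟩ := ct3_growth hAdm hL
  have hQ0 : QQ b (MC J) ≠ 0 := by
    unfold QQ D0
    have h3 : 4 ≤ b ^ 2 := by nlinarith
    have h4 : 0 < b ^ MC J := pow_pos (by omega) _
    have h5 : 0 < b ^ 2 - 1 := by omega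
    exact (Nat.mul_pos h5 h4).ne'
  haveI : NeZero (QQ b (MC J)) := ⟨hQ0⟩
  have hM : 1 ≤ MC J := by unfold MC; omega
  have hbp : (1 : ℝ) ≤ (b : ℝ) ^ (5 * J) := one_le_pow₀ (by linarith)
  have hdel0 : 0 < del b J := by unfold del; positivity
  have hdel1 : del b J ≤ 1 := by
    unfold del
    exact inv_le_one_of_one_le₀ hbp
  obtain ⟨hint, hle⟩ := h2 (MC J) (del b J) (xL b L) hM hdel0 hdel1 hx60 hgr
  have hr : r.Coprime (D0 b) := hGood.2.2.2.2.2.2.1
  have hexp := h1 L J N l r hAdm hGood χ lam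
  set x : ℝ := xL b L with hx
  have hx0 : 0 ≤ x := by linarith
  set main : ℂ := ∫ lam' : ℝ, ((Real.exp (-(del b J ^ 2 * lam' ^ 2 / 2)) : ℝ) : ℂ) *
    FT (Fp b L J N l r χ) lam' *
    GS (fun k => cc b r (MC J) (fun s => FT (Gs b L J (MC J) N s) lam) k * cp lam' k) x with hmain
  have hmainle : ‖main‖ ≤ A * (b * B) * (C2 * x ^ 6) := by
    rw [hmain]
    refine (norm_integral_le_integral_norm _).trans ?_
    have h3 : ∫ lam' : ℝ, ‖((Real.exp (-(del b J ^ 2 * lam' ^ 2 / 2)) : ℝ) : ℂ) *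
        FT (Fp b L J N l r χ) lam' *
        GS (fun k => cc b r (MC J) (fun s => FT (Gs b L J (MC J) N s) lam) k * cp lam' k) x‖ ≤
        ∫ lam' : ℝ, (A * (b * B)) * (Real.exp (-(del b J ^ 2 * lam' ^ 2 / 2)) *
          ∑ χ : DirichletCharacter ℂ (QQ b (MC J)), ‖DD b χ x lam'‖) := by
      apply integral_mono_of_nonneg
      · exact Filter.Eventually.of_forall fun _ => norm_nonneg _
      · exact hint.const_mul _
      · refine Filter.Eventually.of_forall fun lam' => ?_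
        simp only
        rw [norm_mul, norm_mul, Complex.norm_real, Real.norm_eq_abs, abs_of_pos (Real.exp_pos _)]
        have h4 := char_expand b hb (MC J) r hM hr (fun s => FT (Gs b L J (MC J) N s) lam) B hG
          (x := x) (by linarith) lam'
        have h5 : 0 ≤ ∑ ω : DirichletCharacter ℂ (QQ b (MC J)), ‖DD b ω x lam'‖ :=
          Finset.sum_nonneg fun _ _ => norm_nonneg _
        calc Real.exp (-(del b J ^ 2 * lam' ^ 2 / 2)) * ‖FT (Fp b L J N l r χ) lam'‖ *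
              ‖GS (fun k => cc b r (MC J) (fun s => FT (Gs b L J (MC J) N s) lam) k *
                cp lam' k) x‖
            ≤ (Real.exp (-(del b J ^ 2 * lam' ^ 2 / 2)) * A) *
              (b * B * ∑ ω : DirichletCharacter ℂ (QQ b (MC J)), ‖DD b ω x lam'‖) := by
              apply mul_le_mul _ h4 (norm_nonneg _) (by positivity)
              exact mul_le_mul_of_nonneg_left (hF lam') (Real.exp_pos _).le
          _ = _ := by ring
    refine h3.trans ?_
    rw [integral_const_mul]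
    exact mul_le_mul_of_nonneg_left hle (by positivity)
  have hpi : (1 / (2 * Real.pi) : ℝ) ≤ 1 := by
    have := Real.pi_gt_three
    rw [div_le_one (by positivity)]
    linarith
  have hTC : ‖TC b L J N l r χ lam‖ ≤ C1 * L * (b : ℝ) ^ L / (b : ℝ) ^ (2 * J) +
      A * (b * B) * (C2 * x ^ 6) := by
    have e : TC b L J N l r χ lam = (TC b L J N l r χ lam - ((1 / (2 * Real.pi) : ℝ) : ℂ) * main) +
        ((1 / (2 * Real.pi) : ℝ) : ℂ) * main := by ring
    rw [e]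
    refine (norm_add_le _ _).trans (add_le_add hexp ?_)
    rw [norm_mul, Complex.norm_real, Real.norm_eq_abs, abs_of_nonneg (by positivity)]
    calc (1 / (2 * Real.pi)) * ‖main‖ ≤ 1 * ‖main‖ :=
          mul_le_mul_of_nonneg_right hpi (norm_nonneg _)
      _ = ‖main‖ := one_mul _
      _ ≤ _ := hmainle
  refine hTC.trans ?_
  have hxe : x = L * Real.log b := rfl
  have hbL : 0 ≤ (L : ℝ) * (b : ℝ) ^ L / (b : ℝ) ^ (2 * J) := by positivity
  have hAB : 0 ≤ (L : ℝ) ^ 6 * (A * B) := by positivity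
  have hK : 0 ≤ b * C2 * Real.log b ^ 6 := by positivity
  rw [hxe]
  calc C1 * L * (b : ℝ) ^ L / (b : ℝ) ^ (2 * J) + A * (b * B) * (C2 * (L * Real.log b) ^ 6)
      = C1 * (L * (b : ℝ) ^ L / (b : ℝ) ^ (2 * J)) +
        (b * C2 * Real.log b ^ 6) * (L ^ 6 * (A * B)) := by ring
    _ ≤ (C1 + b * C2 * Real.log b ^ 6) * (L * (b : ℝ) ^ L / (b : ℝ) ^ (2 * J)) +
        (C1 + b * C2 * Real.log b ^ 6) * (L ^ 6 * (A * B)) :=
        add_le_add (mul_le_mul_of_nonneg_right (by linarith) hbL)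
          (mul_le_mul_of_nonneg_right (by linarith) hAB)
    _ = _ := by ring

private theorem ct3_Dl (b : ℕ) (hb : 2 ≤ b) {L k : ℕ} (hL : 1 ≤ L) (hk : k < b ^ L) :
    |Dl b k| ≤ (Real.log b + kap b) * L := by
  have hkap : 0 ≤ kap b := by unfold kap; positivity
  have hlog0 : 0 ≤ Real.log b := Real.log_natCast_nonneg b
  have hLR : (1 : ℝ) ≤ L := by exact_mod_cast hL
  have h1 : |LamS b k| ≤ kap b := by
    unfold LamS
    split_ifs
    · rw [abs_of_nonneg hkap]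
    · simpa using hkap
  have h2 : |(ArithmeticFunction.vonMangoldt k : ℝ)| ≤ L * Real.log b := by
    rw [abs_of_nonneg ArithmeticFunction.vonMangoldt_nonneg]
    rcases Nat.eq_zero_or_pos k with h0 | h0
    · subst h0
      simp
      positivity
    · refine ArithmeticFunction.vonMangoldt_le_log.trans ?_
      rw [← Real.log_pow]
      apply Real.log_le_log (by exact_mod_cast h0)
      exact_mod_cast hk.le
  unfold Dl
  refine (abs_sub _ _).trans ?_
  nlinarith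

private theorem ct3_card (b : ℕ) (hb : 2 ≤ b) {L l r : ℕ} :
    ((KS b L l r).card : ℝ) ≤ (b : ℝ) ^ L := by
  have h1 : (KS b L l r).card ≤ (II b L l).card := Finset.card_filter_le _ _
  have h2 : (II b L l).card = b ^ (L - 1) := by
    unfold II
    rw [Nat.card_Ico]
    have : (l + 1) * b ^ (L - 1) = l * b ^ (L - 1) + b ^ (L - 1) := by ring
    omega
  have h3 : b ^ (L - 1) ≤ b ^ L := Nat.pow_le_pow_right (by omega) (by omega)
  have h4 : (KS b L l r).card ≤ b ^ L := by omega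
  exact_mod_cast h4

theorem T_bounds (b : ℕ) (hb : 2 ≤ b) (h2 : C2Stmt b) (h2p : C2pStmt b) : ∃ (c C : ℝ) (L0 : ℕ), 0 < c ∧ 0 < C ∧
    ∀ L J N l r : ℕ, L0 ≤ L → Adm b L J → Good b L l r N → ∀ (χ : DirichletCharacter ℂ (QQ b J)) (lam : ℝ),
    ‖TC b L J N l r χ lam‖ ≤ C * L * (b : ℝ) ^ L ∧
    (∀ j0 : ℕ, j0 < J → ¬ χ.FactorsThrough (QQ b j0) → ‖TC b L J N l r χ lam‖ ≤
      C * L ^ 6 * (b : ℝ) ^ L * ((b : ℝ) ^ (-(c * j0)) + ((b : ℝ) ^ J)⁻¹)) ∧
    (1 ≤ |lam| → lam ^ 2 ≤ (b : ℝ) ^ (MC J) → ‖TC b L J N l r χ lam‖ ≤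
      C * L ^ 6 * (b : ℝ) ^ L * (|lam| ^ (-c) + ((b : ℝ) ^ J)⁻¹)) := by
  classical
  obtain ⟨C, L0, hC, hmain⟩ := ct3_main b hb
  obtain ⟨CG, hCG, hGs⟩ := Gs_props b hb
  obtain ⟨CF, hCF, hFp⟩ := Fp_props b hb
  obtain ⟨cF, CF', hcF, hCF', hFc⟩ := F_coupling b hb h2
  obtain ⟨cG, CG', hcG, hCG', hGc⟩ := G_coupling b hb h2p
  have hbR : (2 : ℝ) ≤ b := by exact_mod_cast hb
  have hb1 : (1 : ℝ) ≤ b := by linarith
  have hlog0 : 0 ≤ Real.log b := Real.log_natCast_nonneg b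
  have hkap : 0 ≤ kap b := by unfold kap; positivity
  set C0 : ℝ := (Real.log b + kap b) * CG with hC0
  have hC0n : 0 ≤ C0 := by positivity
  set CC : ℝ := C0 + C + C * (CF' * CG) + C * (CF * CG') with hCC
  have hCCpos : 0 < CC := by positivity
  refine ⟨min cF cG, CC, L0, lt_min hcF hcG, hCCpos, ?_⟩
  intro L J N l r hL hAdm hGood χ lam
  have hN1 := hGood.1
  have hN2 := hGood.2.1
  have hl1 := hGood.2.2.1
  have hlb := hGood.2.2.2.1
  have hL1 : 1 ≤ L := by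
    have h3 := hAdm.2.1
    have h4 := hAdm.2.2.2
    omega
  have hLR : (1 : ℝ) ≤ L := by exact_mod_cast hL1
  have hL6 : (L : ℝ) ≤ (L : ℝ) ^ 6 := by
    calc (L : ℝ) = (L : ℝ) ^ 1 := (pow_one _).symm
      _ ≤ (L : ℝ) ^ 6 := pow_le_pow_right₀ hLR (by norm_num)
  have hFTG : ∀ s, ‖FT (Gs b L J (MC J) N s) lam‖ ≤ CG := fun s =>
    (FT_le lam).trans (hGs L J N s hAdm hN1 hN2).2.1
  have hbJ : (0 : ℝ) < (b : ℝ) ^ J := by positivity
  have herr : C * L * (b : ℝ) ^ L / (b : ℝ) ^ (2 * J) ≤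
      C * L ^ 6 * (b : ℝ) ^ L * ((b : ℝ) ^ J)⁻¹ := by
    rw [div_eq_mul_inv]
    apply mul_le_mul _ _ (by positivity) (by positivity)
    · apply mul_le_mul_of_nonneg_right _ (by positivity)
      exact mul_le_mul_of_nonneg_left hL6 hC.le
    · apply inv_anti₀ hbJ
      exact pow_le_pow_right₀ hb1 (by omega)
  refine ⟨?_, ?_, ?_⟩
  · -- trivial bound
    have h3 : ‖TC b L J N l r χ lam‖ ≤
        ∑ k ∈ KS b L l r, ((Real.log b + kap b) * L) * CG := by
      unfold TC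
      refine (norm_sum_le _ _).trans (Finset.sum_le_sum fun k hk => ?_)
      have hkL : k < b ^ L := by
        have h4 := (Finset.mem_Ico.1 (Finset.mem_filter.1 hk).1).2
        have h5 : (l + 1) * b ^ (L - 1) ≤ b * b ^ (L - 1) := Nat.mul_le_mul_right _ hlb
        have h6 : b * b ^ (L - 1) = b ^ L := by
          obtain ⟨m, rfl⟩ := Nat.exists_eq_add_of_le' hL1
          rw [Nat.add_sub_cancel]
          ring
        omega
      rw [norm_mul, norm_mul, Complex.norm_real, Real.norm_eq_abs, RCLike.norm_conj]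
      have h7 := ct3_Dl b hb hL1 hkL
      have h8 : ‖χ (((N : ℤ) - rv b L k : ℤ) : ZMod (QQ b J))‖ ≤ 1 := χ.norm_le_one _
      have h9 : |Dl b k| * ‖χ (((N : ℤ) - rv b L k : ℤ) : ZMod (QQ b J))‖ ≤
          (Real.log b + kap b) * L := by
        calc |Dl b k| * ‖χ (((N : ℤ) - rv b L k : ℤ) : ZMod (QQ b J))‖ ≤ |Dl b k| * 1 :=
              mul_le_mul_of_nonneg_left h8 (abs_nonneg _)
          _ ≤ _ := by rw [mul_one]; exact h7
      exact mul_le_mul h9 (hFTG _) (norm_nonneg _) (by positivity)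
    refine h3.trans ?_
    rw [Finset.sum_const, nsmul_eq_mul]
    have h4 := ct3_card b hb (L := L) (l := l) (r := r)
    calc ((KS b L l r).card : ℝ) * ((Real.log b + kap b) * L * CG)
        ≤ (b : ℝ) ^ L * ((Real.log b + kap b) * L * CG) :=
          mul_le_mul_of_nonneg_right h4 (by positivity)
      _ = C0 * (L * (b : ℝ) ^ L) := by rw [hC0]; ring
      _ ≤ CC * (L * (b : ℝ) ^ L) := by
          apply mul_le_mul_of_nonneg_right _ (by positivity)
          rw [hCC]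
          have h5 : 0 ≤ C * (CF' * CG) := by positivity
          have h6 : 0 ≤ C * (CF * CG') := by positivity
          linarith
      _ = CC * L * (b : ℝ) ^ L := by ring
  · intro j0 hj0 hχ
    have hA0 : 0 ≤ CF' * (b : ℝ) ^ L * (b : ℝ) ^ (-(cF * j0)) := by positivity
    have h3 := hmain L J N l r hL hAdm hGood χ lam (CF' * (b : ℝ) ^ L * (b : ℝ) ^ (-(cF * j0))) CG
      hA0 hCG.le (fun lam' => hFc L J N l r hAdm hGood χ j0 hj0 hχ lam') (fun ψ => by
        refine (norm_sum_le _ _).trans ?_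
        have h4 : ∀ s ∈ range (b ^ (MC J)), ‖ψ (s : ZMod (b ^ (MC J))) *
            FT (Gs b L J (MC J) N s) lam‖ ≤ CG := by
          intro s _
          rw [norm_mul]
          calc ‖ψ (s : ZMod (b ^ (MC J)))‖ * ‖FT (Gs b L J (MC J) N s) lam‖ ≤ 1 * CG :=
                mul_le_mul (ψ.norm_le_one _) (hFTG s) (norm_nonneg _) zero_le_one
            _ = CG := one_mul _
        refine (Finset.sum_le_sum h4).trans ?_
        rw [Finset.sum_const, card_range, nsmul_eq_mul]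
        push_cast
        linarith [mul_comm ((b : ℝ) ^ MC J) CG])
    refine h3.trans ?_
    have hc : (b : ℝ) ^ (-(cF * j0)) ≤ (b : ℝ) ^ (-(min cF cG * j0)) := by
      apply Real.rpow_le_rpow_of_exponent_le hb1
      have := min_le_left cF cG
      have h4 : (0 : ℝ) ≤ j0 := Nat.cast_nonneg _
      nlinarith
    have hX : 0 ≤ (L : ℝ) ^ 6 * (b : ℝ) ^ L := by positivity
    have hR0 : 0 ≤ (b : ℝ) ^ (-(min cF cG * j0)) := by positivity
    have hI0 : 0 ≤ ((b : ℝ) ^ J)⁻¹ := by positivity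
    calc C * L ^ 6 * (CF' * (b : ℝ) ^ L * (b : ℝ) ^ (-(cF * j0)) * CG) +
          C * L * (b : ℝ) ^ L / (b : ℝ) ^ (2 * J)
        ≤ C * L ^ 6 * (CF' * (b : ℝ) ^ L * (b : ℝ) ^ (-(min cF cG * j0)) * CG) +
          C * L ^ 6 * (b : ℝ) ^ L * ((b : ℝ) ^ J)⁻¹ := by
          apply add_le_add _ herr
          apply mul_le_mul_of_nonneg_left _ (by positivity)
          apply mul_le_mul_of_nonneg_right _ hCG.le
          exact mul_le_mul_of_nonneg_left hc (by positivity)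
      _ = (C * (CF' * CG)) * ((L ^ 6 * (b : ℝ) ^ L) * (b : ℝ) ^ (-(min cF cG * j0))) +
          C * ((L ^ 6 * (b : ℝ) ^ L) * ((b : ℝ) ^ J)⁻¹) := by ring
      _ ≤ CC * ((L ^ 6 * (b : ℝ) ^ L) * (b : ℝ) ^ (-(min cF cG * j0))) +
          CC * ((L ^ 6 * (b : ℝ) ^ L) * ((b : ℝ) ^ J)⁻¹) := by
          have h5 : 0 ≤ C * (CF' * CG) := by positivity
          have h6 : 0 ≤ C * (CF * CG') := by positivity
          apply add_le_add
          · apply mul_le_mul_of_nonneg_right _ (by positivity)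
            rw [hCC]; linarith
          · apply mul_le_mul_of_nonneg_right _ (by positivity)
            rw [hCC]; linarith
      _ = _ := by ring
  · intro hlam1 hlam2
    have hB0 : 0 ≤ CG' * |lam| ^ (-cG) := by positivity
    have h3 := hmain L J N l r hL hAdm hGood χ lam (CF * (b : ℝ) ^ L) (CG' * |lam| ^ (-cG))
      (by positivity) hB0 (fun lam' => (FT_le lam').trans (hFp L J N l r hAdm hl1 hlb χ).2.2.1)
      (fun ψ => by
        refine (hGc L J N hAdm hN1 hN2 ψ lam hlam1 hlam2).trans (le_of_eq ?_)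
        ring)
    refine h3.trans ?_
    have hc : |lam| ^ (-cG) ≤ |lam| ^ (-(min cF cG)) := by
      apply Real.rpow_le_rpow_of_exponent_le hlam1
      have := min_le_right cF cG
      linarith
    have hR0 : 0 ≤ |lam| ^ (-(min cF cG)) := by positivity
    have hI0 : 0 ≤ ((b : ℝ) ^ J)⁻¹ := by positivity
    calc C * L ^ 6 * (CF * (b : ℝ) ^ L * (CG' * |lam| ^ (-cG))) +
          C * L * (b : ℝ) ^ L / (b : ℝ) ^ (2 * J)
        ≤ C * L ^ 6 * (CF * (b : ℝ) ^ L * (CG' * |lam| ^ (-(min cF cG)))) +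
          C * L ^ 6 * (b : ℝ) ^ L * ((b : ℝ) ^ J)⁻¹ := by
          apply add_le_add _ herr
          apply mul_le_mul_of_nonneg_left _ (by positivity)
          apply mul_le_mul_of_nonneg_left _ (by positivity)
          exact mul_le_mul_of_nonneg_left hc hCG'.le
      _ = (C * (CF * CG')) * ((L ^ 6 * (b : ℝ) ^ L) * |lam| ^ (-(min cF cG))) +
          C * ((L ^ 6 * (b : ℝ) ^ L) * ((b : ℝ) ^ J)⁻¹) := by ring
      _ ≤ CC * ((L ^ 6 * (b : ℝ) ^ L) * |lam| ^ (-(min cF cG))) +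
          CC * ((L ^ 6 * (b : ℝ) ^ L) * ((b : ℝ) ^ J)⁻¹) := by
          have h5 : 0 ≤ C * (CF' * CG) := by positivity
          have h6 : 0 ≤ C * (CF * CG') := by positivity
          apply add_le_add
          · apply mul_le_mul_of_nonneg_right _ (by positivity)
            rw [hCC]; linarith
          · apply mul_le_mul_of_nonneg_right _ (by positivity)
            rw [hCC]; linarith
      _ = _ := by ring

end Pool.Agent.LibHG31
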