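import Pool.Agent.LibHG31.CE2
import Pool.Agent.LibHG31.CT3
import Pool.Agent.LibHG31.CB7

/-! ROW CE3 (helper99): `EE = o(b^L)`. -/

namespace Pool.Agent.LibHG31

open Finset Complex MeasureTheory DirichletCharacter Filter Topology
open scoped ArithmeticFunction.vonMangoldt
open Pool.Agent.LibPL63 (GS)

theorem ce3_D0_pos {b : ℕ} (hb : 2 ≤ b) : 0 < D0 b := by
  unfold D0
  have : 2 ^ 2 ≤ b ^ 2 := Nat.pow_le_pow_left hb 2
  omega

theorem ce3_QQ_ne {b : ℕ} (hb : 2 ≤ b) (j : ℕ) : QQ b j ≠ 0 := by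
  unfold QQ
  have := ce3_D0_pos hb
  exact Nat.mul_ne_zero (by omega) (pow_ne_zero _ (by omega))

theorem ce3_coprime {b : ℕ} (n j : ℕ) (hj : 1 ≤ j) :
    n.Coprime (QQ b j) ↔ n.Coprime (D0 b) ∧ n.Coprime b := by
  unfold QQ
  rw [Nat.coprime_mul_iff_right, Nat.coprime_pow_right_iff (by omega)]

/-- `DD` depends only on the inducing character -/
theorem ce3_DD_changeLevel (b : ℕ) (hb : 2 ≤ b) {j J : ℕ} (hj : 1 ≤ j) (hJ : 1 ≤ J) (hd : QQ b j ∣ QQ b J)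
    (χ : DirichletCharacter ℂ (QQ b j)) (x lam : ℝ) :
    DD b (changeLevel hd χ) x lam = DD b χ x lam := by
  have : NeZero (QQ b J) := ⟨ce3_QQ_ne hb J⟩
  have : NeZero (QQ b j) := ⟨ce3_QQ_ne hb j⟩
  unfold DD
  congr 1
  funext n
  congr 1
  unfold tw
  congr 1
  by_cases hc : n.Coprime (QQ b J)
  · have hu : IsUnit (n : ZMod (QQ b J)) := (ZMod.isUnit_iff_coprime _ _).2 hc
    have h1 := changeLevel_eq_cast_of_dvd χ hd hu.unit
    rw [IsUnit.unit_spec] at h1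
    rw [h1, ZMod.cast_natCast hd]
  · have hc2 : ¬ n.Coprime (QQ b j) := by
      rw [ce3_coprime n j hj]
      rwa [ce3_coprime n J hJ] at hc
    rw [MulChar.map_nonunit _ fun h => hc ((ZMod.isUnit_iff_coprime _ _).1 h),
      MulChar.map_nonunit _ fun h => hc2 ((ZMod.isUnit_iff_coprime _ _).1 h)]

open scoped Classical in
/-- few characters factor through a given level -/
theorem ce3_card (b : ℕ) (hb : 2 ≤ b) (j J : ℕ) [NeZero (QQ b J)] :
    ((univ : Finset (DirichletCharacter ℂ (QQ b J))).filter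
      fun χ => χ.FactorsThrough (QQ b j)).card ≤ QQ b j := by
  have : NeZero (QQ b j) := ⟨ce3_QQ_ne hb j⟩
  by_cases hd : QQ b j ∣ QQ b J
  · have h1 : ((univ : Finset (DirichletCharacter ℂ (QQ b J))).filter
      fun χ => χ.FactorsThrough (QQ b j)) ⊆
      (univ : Finset (DirichletCharacter ℂ (QQ b j))).image (changeLevel hd) := by
      intro χ hχ
      rw [Finset.mem_filter] at hχ
      rw [Finset.mem_image]
      exact ⟨hχ.2.χ₀, Finset.mem_univ _, hχ.2.eq_changeLevel.symm⟩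
    exact (Finset.card_le_card h1).trans (Finset.card_image_le.trans
      (LibMaier.card_chars_le (QQ b j) _))
  · rw [Finset.filter_eq_empty_iff.2]
    · simp
    · intro χ _ h
      exact hd h.dvd

/-! ### the asymptotic rows -/

theorem ce3_tendsto_A (b : ℕ) (hb : 2 ≤ b) (A : ℕ) (hA : 1 ≤ A) (p : ℕ) :
    Tendsto (fun L : ℕ => (L : ℝ) ^ p / (b : ℝ) ^ (L / A)) atTop (𝓝 0) := by
  have hb1 : (1 : ℝ) < b := by exact_mod_cast (by omega : 1 < b)
  have hb0 : (0 : ℝ) < b := by linarith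
  have h1 : Tendsto (fun n : ℕ => (n : ℝ) ^ p / (b : ℝ) ^ n) atTop (𝓝 0) :=
    tendsto_pow_const_div_const_pow_of_one_lt p hb1
  have h2 : Tendsto (fun L : ℕ => L / A + 1) atTop atTop :=
    (tendsto_add_atTop_nat 1).comp (Nat.tendsto_div_const_atTop (show A ≠ 0 by omega))
  have h3 := (h1.comp h2).const_mul ((A : ℝ) ^ p * b)
  rw [mul_zero] at h3
  refine squeeze_zero (fun L => by positivity) (fun L => ?_) h3
  simp only [Function.comp]
  have h4 : (L : ℝ) ≤ A * ((L / A + 1 : ℕ) : ℝ) := by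
    have : L ≤ A * (L / A + 1) := by
      have := Nat.lt_mul_div_succ L (show 0 < A by omega)
      omega
    exact_mod_cast this
  have h5 : (b : ℝ) ^ (L / A + 1) = b * (b : ℝ) ^ (L / A) := by rw [pow_succ]; ring
  rw [h5]
  calc (L : ℝ) ^ p / (b : ℝ) ^ (L / A) ≤ (A * ((L / A + 1 : ℕ) : ℝ)) ^ p / (b : ℝ) ^ (L / A) := by
        gcongr
    _ = (A : ℝ) ^ p * b * (((L / A + 1 : ℕ) : ℝ) ^ p / (b * (b : ℝ) ^ (L / A))) := by
        rw [mul_pow]
        field_simp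

theorem ce3_tendsto_x (b : ℕ) (hb : 2 ≤ b) : Tendsto (fun L : ℕ => xL b L) atTop atTop := by
  unfold xL
  exact tendsto_natCast_atTop_atTop.atTop_mul_const
    (Real.log_pos (by exact_mod_cast (by omega : 1 < b)))

theorem ce3_tendsto_C (b : ℕ) (hb : 2 ≤ b) (p : ℕ) :
    Tendsto (fun L : ℕ => xL b L ^ p * Real.exp (-Real.sqrt (xL b L))) atTop (𝓝 0) := by
  have h1 : Tendsto (fun L : ℕ => Real.sqrt (xL b L)) atTop atTop :=
    Real.tendsto_sqrt_atTop.comp (ce3_tendsto_x b hb)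
  have h2 := (Real.tendsto_pow_mul_exp_neg_atTop_nhds_zero (2 * p)).comp h1
  refine h2.congr fun L => ?_
  simp only [Function.comp]
  have hx : 0 ≤ xL b L := by
    unfold xL
    exact mul_nonneg (Nat.cast_nonneg _) (Real.log_natCast_nonneg b)
  rw [pow_mul, Real.sq_sqrt hx]

/-! ### the pointwise bound and its integral -/

theorem ce3_exp_tail {b J : ℕ} (hb : 2 ≤ b) {lam : ℝ} (h : (b : ℝ) ^ (MC J) < lam ^ 2) :
    Real.exp (-(del b J ^ 2 * lam ^ 2 / 2)) ≤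
      Real.exp (-((b : ℝ) ^ (2 * J) / 4)) * Real.exp (-(del b J ^ 2 * lam ^ 2 / 4)) := by
  rw [← Real.exp_add]
  apply Real.exp_le_exp.2
  have hb1 : (1 : ℝ) ≤ b := by exact_mod_cast (by omega : 1 ≤ b)
  have hb0 : (0 : ℝ) < b := by linarith
  have h1 : (b : ℝ) ^ (2 * J) ≤ del b J ^ 2 * lam ^ 2 := by
    unfold del
    have h2 : (b : ℝ) ^ (2 * J) ≤ ((b : ℝ) ^ (5 * J))⁻¹ ^ 2 * (b : ℝ) ^ (MC J) := by
      have h3 : (b : ℝ) ^ (MC J) = (b : ℝ) ^ (2 * J) * (b : ℝ) ^ 2 * ((b : ℝ) ^ (5 * J)) ^ 2 := by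
        unfold MC
        rw [← pow_mul, ← pow_add, ← pow_add]
        congr 1
        ring
      rw [h3]
      have h4 : (b : ℝ) ^ (5 * J) ≠ 0 := by positivity
      have h5 : ((b : ℝ) ^ (5 * J))⁻¹ ^ 2 * ((b : ℝ) ^ (2 * J) * (b : ℝ) ^ 2 * ((b : ℝ) ^ (5 * J)) ^ 2) =
          (b : ℝ) ^ (2 * J) * (b : ℝ) ^ 2 := by
        field_simp
      rw [h5]
      have h6 : (1 : ℝ) ≤ (b : ℝ) ^ 2 := one_le_pow₀ hb1
      have h7 : (0 : ℝ) ≤ (b : ℝ) ^ (2 * J) := by positivity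
      nlinarith
    refine h2.trans (mul_le_mul_of_nonneg_left h.le (by positivity))
  linarith

open scoped Classical in
theorem ce3_point (b L J N l r j0 : ℕ) [NeZero (QQ b J)] (hb : 2 ≤ b) {C1 Cd x X B : ℝ}
    (hC1 : 0 ≤ C1) (hCd : 0 ≤ Cd) (hB : 0 ≤ B)
    (hD : ∀ (χ : DirichletCharacter ℂ (QQ b J)) (lam : ℝ), ‖DD b χ x lam‖ ≤ Cd)
    (hlow : ∀ (χ : DirichletCharacter ℂ (QQ b J)) (lam : ℝ), χ.FactorsThrough (QQ b j0) → |lam| ≤ X →
      ‖DD b χ x lam‖ ≤ Real.exp (-Real.sqrt x))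
    (hT1 : ∀ (χ : DirichletCharacter ℂ (QQ b J)) (lam : ℝ), ‖TC b L J N l r χ lam‖ ≤ C1)
    (hT2 : ∀ (χ : DirichletCharacter ℂ (QQ b J)) (lam : ℝ), ¬ χ.FactorsThrough (QQ b j0) →
      ‖TC b L J N l r χ lam‖ ≤ B)
    (hT3 : ∀ (χ : DirichletCharacter ℂ (QQ b J)) (lam : ℝ), X < |lam| → lam ^ 2 ≤ (b : ℝ) ^ (MC J) →
      ‖TC b L J N l r χ lam‖ ≤ B) (lam : ℝ) :
    ‖((Real.exp (-(del b J ^ 2 * lam ^ 2 / 2)) : ℝ) : ℂ) *
        ∑ χ : DirichletCharacter ℂ (QQ b J), DD b χ x lam * TC b L J N l r χ lam‖ ≤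
      B * (Real.exp (-(del b J ^ 2 * lam ^ 2 / 2)) * ∑ χ : DirichletCharacter ℂ (QQ b J), ‖DD b χ x lam‖) +
      (Set.Icc (-X) X).indicator (fun _ => (QQ b j0 : ℝ) * Real.exp (-Real.sqrt x) * C1) lam +
      (QQ b J : ℝ) * Cd * C1 * Real.exp (-((b : ℝ) ^ (2 * J) / 4)) *
        Real.exp (-(del b J ^ 2 * lam ^ 2 / 4)) := by
  set E : ℝ := Real.exp (-(del b J ^ 2 * lam ^ 2 / 2)) with hE
  have hE0 : 0 < E := Real.exp_pos _
  have hE1 : E ≤ 1 := Real.exp_le_one_iff.2 (by have := sq_nonneg (del b J); have := sq_nonneg lam; nlinarith [mul_nonneg (sq_nonneg (del b J)) (sq_nonneg lam)])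
  have hS0 : 0 ≤ ∑ χ : DirichletCharacter ℂ (QQ b J), ‖DD b χ x lam‖ :=
    Finset.sum_nonneg fun _ _ => norm_nonneg _
  have hI0 : 0 ≤ (Set.Icc (-X) X).indicator
      (fun _ => (QQ b j0 : ℝ) * Real.exp (-Real.sqrt x) * C1) lam :=
    Set.indicator_nonneg (fun _ _ => by positivity) _
  have hG0 : 0 ≤ (QQ b J : ℝ) * Cd * C1 * Real.exp (-((b : ℝ) ^ (2 * J) / 4)) *
        Real.exp (-(del b J ^ 2 * lam ^ 2 / 4)) := by positivity
  have hBE : 0 ≤ B * (E * ∑ χ : DirichletCharacter ℂ (QQ b J), ‖DD b χ x lam‖) := by positivity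
  have hn : ‖((E : ℝ) : ℂ) * ∑ χ : DirichletCharacter ℂ (QQ b J), DD b χ x lam * TC b L J N l r χ lam‖ ≤
      E * ∑ χ : DirichletCharacter ℂ (QQ b J), ‖DD b χ x lam‖ * ‖TC b L J N l r χ lam‖ := by
    rw [norm_mul, Complex.norm_real, Real.norm_eq_abs, abs_of_pos hE0]
    apply mul_le_mul_of_nonneg_left _ hE0.le
    refine (norm_sum_le _ _).trans (Finset.sum_le_sum fun χ _ => ?_)
    rw [norm_mul]
  refine hn.trans ?_
  by_cases h1 : lam ^ 2 ≤ (b : ℝ) ^ (MC J)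
  · by_cases h2 : X < |lam|
    · -- high frequency
      have h3 : E * ∑ χ : DirichletCharacter ℂ (QQ b J), ‖DD b χ x lam‖ * ‖TC b L J N l r χ lam‖ ≤
          B * (E * ∑ χ : DirichletCharacter ℂ (QQ b J), ‖DD b χ x lam‖) := by
        have h4 : ∑ χ : DirichletCharacter ℂ (QQ b J), ‖DD b χ x lam‖ * ‖TC b L J N l r χ lam‖ ≤
            ∑ χ : DirichletCharacter ℂ (QQ b J), ‖DD b χ x lam‖ * B :=
          Finset.sum_le_sum fun χ _ => mul_le_mul_of_nonneg_left (hT3 χ lam h2 h1) (norm_nonneg _)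
        rw [← Finset.sum_mul] at h4
        calc _ ≤ E * ((∑ χ : DirichletCharacter ℂ (QQ b J), ‖DD b χ x lam‖) * B) :=
              mul_le_mul_of_nonneg_left h4 hE0.le
          _ = _ := by ring
      linarith
    · push Not at h2
      have hmem : lam ∈ Set.Icc (-X) X := by
        rw [Set.mem_Icc]
        exact abs_le.1 h2
      rw [Set.indicator_of_mem hmem]
      have h3 : ∑ χ : DirichletCharacter ℂ (QQ b J), ‖DD b χ x lam‖ * ‖TC b L J N l r χ lam‖ ≤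
          B * (∑ χ : DirichletCharacter ℂ (QQ b J), ‖DD b χ x lam‖) +
            (QQ b j0 : ℝ) * Real.exp (-Real.sqrt x) * C1 := by
        have h4 : ∀ χ : DirichletCharacter ℂ (QQ b J), ‖DD b χ x lam‖ * ‖TC b L J N l r χ lam‖ ≤
            ‖DD b χ x lam‖ * B + (if χ.FactorsThrough (QQ b j0) then Real.exp (-Real.sqrt x) * C1 else 0) := by
          intro χ
          by_cases h5 : χ.FactorsThrough (QQ b j0)
          · rw [if_pos h5]
            have h6 := mul_le_mul (hlow χ lam h5 h2) (hT1 χ lam) (norm_nonneg _) (Real.exp_pos _).le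
            have h7 : 0 ≤ ‖DD b χ x lam‖ * B := mul_nonneg (norm_nonneg _) hB
            linarith
          · rw [if_neg h5, add_zero]
            exact mul_le_mul_of_nonneg_left (hT2 χ lam h5) (norm_nonneg _)
        refine (Finset.sum_le_sum fun χ _ => h4 χ).trans ?_
        rw [Finset.sum_add_distrib, ← Finset.sum_mul, ← Finset.sum_filter, Finset.sum_const, nsmul_eq_mul]
        have h5 : (((univ : Finset (DirichletCharacter ℂ (QQ b J))).filter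
            fun χ => χ.FactorsThrough (QQ b j0)).card : ℝ) ≤ (QQ b j0 : ℝ) := by
          exact_mod_cast ce3_card b hb j0 J
        have h6 : 0 ≤ Real.exp (-Real.sqrt x) * C1 := by positivity
        have h7 := mul_le_mul_of_nonneg_right h5 h6
        linarith
      have h8 := mul_le_mul_of_nonneg_left h3 hE0.le
      have h9 : 0 ≤ (QQ b j0 : ℝ) * Real.exp (-Real.sqrt x) * C1 := by positivity
      have h10 : E * ((QQ b j0 : ℝ) * Real.exp (-Real.sqrt x) * C1) ≤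
          (QQ b j0 : ℝ) * Real.exp (-Real.sqrt x) * C1 := mul_le_of_le_one_left h9 hE1
      have h11 : E * (B * ∑ χ : DirichletCharacter ℂ (QQ b J), ‖DD b χ x lam‖) =
          B * (E * ∑ χ : DirichletCharacter ℂ (QQ b J), ‖DD b χ x lam‖) := by ring
      rw [mul_add, h11] at h8
      linarith
  · push Not at h1
    have h2 := ce3_exp_tail hb h1
    have h3 : ∑ χ : DirichletCharacter ℂ (QQ b J), ‖DD b χ x lam‖ * ‖TC b L J N l r χ lam‖ ≤
        (QQ b J : ℝ) * (Cd * C1) := by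
      have h4 : ∑ χ : DirichletCharacter ℂ (QQ b J), ‖DD b χ x lam‖ * ‖TC b L J N l r χ lam‖ ≤
          ∑ χ : DirichletCharacter ℂ (QQ b J), Cd * C1 :=
        Finset.sum_le_sum fun χ _ => mul_le_mul (hD χ lam) (hT1 χ lam) (norm_nonneg _) hCd
      rw [Finset.sum_const, nsmul_eq_mul] at h4
      refine h4.trans (mul_le_mul_of_nonneg_right ?_ (by positivity))
      exact_mod_cast LibMaier.card_chars_le (QQ b J) _
    have h4 : 0 ≤ ∑ χ : DirichletCharacter ℂ (QQ b J), ‖DD b χ x lam‖ * ‖TC b L J N l r χ lam‖ :=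
      Finset.sum_nonneg fun _ _ => mul_nonneg (norm_nonneg _) (norm_nonneg _)
    have h5 : E * ∑ χ : DirichletCharacter ℂ (QQ b J), ‖DD b χ x lam‖ * ‖TC b L J N l r χ lam‖ ≤
        (Real.exp (-((b : ℝ) ^ (2 * J) / 4)) * Real.exp (-(del b J ^ 2 * lam ^ 2 / 4))) *
          ((QQ b J : ℝ) * (Cd * C1)) := mul_le_mul h2 h3 h4 (by positivity)
    have h6 : (Real.exp (-((b : ℝ) ^ (2 * J) / 4)) * Real.exp (-(del b J ^ 2 * lam ^ 2 / 4))) *
          ((QQ b J : ℝ) * (Cd * C1)) = (QQ b J : ℝ) * Cd * C1 * Real.exp (-((b : ℝ) ^ (2 * J) / 4)) *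
        Real.exp (-(del b J ^ 2 * lam ^ 2 / 4)) := by ring
    linarith

theorem ce3_gauss {δ : ℝ} (hδ : 0 < δ) : Integrable (fun lam : ℝ => Real.exp (-(δ ^ 2 * lam ^ 2 / 4))) ∧
    ∫ lam : ℝ, Real.exp (-(δ ^ 2 * lam ^ 2 / 4)) ≤ 4 / δ := by
  have h0 : (fun lam : ℝ => Real.exp (-(δ ^ 2 * lam ^ 2 / 4))) =
      fun lam : ℝ => Real.exp (-(δ ^ 2 / 4) * lam ^ 2) := by
    funext lam
    congr 1
    ring
  have hp : 0 < δ ^ 2 / 4 := by positivity
  rw [h0]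
  refine ⟨integrable_exp_neg_mul_sq hp, ?_⟩
  rw [integral_gaussian]
  have h1 : Real.pi / (δ ^ 2 / 4) ≤ (4 / δ) ^ 2 := by
    rw [div_pow, div_div_eq_mul_div, div_le_div_iff_of_pos_right (by positivity)]
    have := Real.pi_le_four
    linarith
  calc Real.sqrt (Real.pi / (δ ^ 2 / 4)) ≤ Real.sqrt ((4 / δ) ^ 2) := Real.sqrt_le_sqrt h1
    _ = 4 / δ := Real.sqrt_sq (by positivity)

open scoped Classical in
theorem ce3_int (b L J N l r j0 : ℕ) [NeZero (QQ b J)] (hb : 2 ≤ b) {C1 Cd x X B S : ℝ}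
    (hC1 : 0 ≤ C1) (hCd : 0 ≤ Cd) (hB : 0 ≤ B) (hX : 0 ≤ X)
    (hD : ∀ (χ : DirichletCharacter ℂ (QQ b J)) (lam : ℝ), ‖DD b χ x lam‖ ≤ Cd)
    (hlow : ∀ (χ : DirichletCharacter ℂ (QQ b J)) (lam : ℝ), χ.FactorsThrough (QQ b j0) → |lam| ≤ X →
      ‖DD b χ x lam‖ ≤ Real.exp (-Real.sqrt x))
    (hT1 : ∀ (χ : DirichletCharacter ℂ (QQ b J)) (lam : ℝ), ‖TC b L J N l r χ lam‖ ≤ C1)
    (hT2 : ∀ (χ : DirichletCharacter ℂ (QQ b J)) (lam : ℝ), ¬ χ.FactorsThrough (QQ b j0) →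
      ‖TC b L J N l r χ lam‖ ≤ B)
    (hT3 : ∀ (χ : DirichletCharacter ℂ (QQ b J)) (lam : ℝ), X < |lam| → lam ^ 2 ≤ (b : ℝ) ^ (MC J) →
      ‖TC b L J N l r χ lam‖ ≤ B)
    (hS1 : Integrable (fun lam : ℝ => Real.exp (-(del b J ^ 2 * lam ^ 2 / 2)) *
      ∑ χ : DirichletCharacter ℂ (QQ b J), ‖DD b χ x lam‖))
    (hS2 : ∫ lam : ℝ, Real.exp (-(del b J ^ 2 * lam ^ 2 / 2)) *
      ∑ χ : DirichletCharacter ℂ (QQ b J), ‖DD b χ x lam‖ ≤ S) :
    ‖∫ lam : ℝ, ((Real.exp (-(del b J ^ 2 * lam ^ 2 / 2)) : ℝ) : ℂ) *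
        ∑ χ : DirichletCharacter ℂ (QQ b J), DD b χ x lam * TC b L J N l r χ lam‖ ≤
      B * S + (QQ b j0 : ℝ) * Real.exp (-Real.sqrt x) * C1 * (2 * X) +
      (QQ b J : ℝ) * Cd * C1 * Real.exp (-((b : ℝ) ^ (2 * J) / 4)) * (4 * (b : ℝ) ^ (5 * J)) := by
  have hb0 : (0 : ℝ) < b := by exact_mod_cast (by omega : 0 < b)
  have hδ : 0 < del b J := by unfold del; positivity
  obtain ⟨hg1, hg2⟩ := ce3_gauss hδ
  have hdiv : 4 / del b J = 4 * (b : ℝ) ^ (5 * J) := by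
    unfold del
    rw [div_inv_eq_mul]
  rw [hdiv] at hg2
  have hi1 := hS1.const_mul B
  have hi2 : Integrable ((Set.Icc (-X) X).indicator
      (fun _ : ℝ => (QQ b j0 : ℝ) * Real.exp (-Real.sqrt x) * C1)) := by
    rw [integrable_indicator_iff measurableSet_Icc]
    exact integrableOn_const (by rw [Real.volume_Icc]; exact ENNReal.ofReal_ne_top)
  have hi3 := hg1.const_mul ((QQ b J : ℝ) * Cd * C1 * Real.exp (-((b : ℝ) ^ (2 * J) / 4)))
  have hI2 : ∫ lam : ℝ, (Set.Icc (-X) X).indicator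
      (fun _ : ℝ => (QQ b j0 : ℝ) * Real.exp (-Real.sqrt x) * C1) lam =
      (QQ b j0 : ℝ) * Real.exp (-Real.sqrt x) * C1 * (2 * X) := by
    rw [integral_indicator measurableSet_Icc, setIntegral_const]
    rw [Measure.real, Real.volume_Icc, ENNReal.toReal_ofReal (by linarith), smul_eq_mul]
    ring
  refine (norm_integral_le_of_norm_le ((hi1.add hi2).add hi3)
    (Filter.Eventually.of_forall fun lam => ?_)).trans ?_
  · exact ce3_point b L J N l r j0 hb hC1 hCd hB hD hlow hT1 hT2 hT3 lam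
  · have e1 : ∫ lam : ℝ, (((fun lam : ℝ => B * (Real.exp (-(del b J ^ 2 * lam ^ 2 / 2)) *
        ∑ χ : DirichletCharacter ℂ (QQ b J), ‖DD b χ x lam‖)) + (Set.Icc (-X) X).indicator
      (fun _ : ℝ => (QQ b j0 : ℝ) * Real.exp (-Real.sqrt x) * C1)) + fun lam : ℝ =>
        (QQ b J : ℝ) * Cd * C1 * Real.exp (-((b : ℝ) ^ (2 * J) / 4)) *
        Real.exp (-(del b J ^ 2 * lam ^ 2 / 4))) lam =
        B * (∫ lam : ℝ, Real.exp (-(del b J ^ 2 * lam ^ 2 / 2)) *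
          ∑ χ : DirichletCharacter ℂ (QQ b J), ‖DD b χ x lam‖) +
        (QQ b j0 : ℝ) * Real.exp (-Real.sqrt x) * C1 * (2 * X) +
        (QQ b J : ℝ) * Cd * C1 * Real.exp (-((b : ℝ) ^ (2 * J) / 4)) *
          ∫ lam : ℝ, Real.exp (-(del b J ^ 2 * lam ^ 2 / 4)) := by
      rw [integral_add' (hi1.add hi2) hi3, integral_add' hi1 hi2, hI2, integral_const_mul,
        integral_const_mul]
    rw [e1]
    have e2 := mul_le_mul_of_nonneg_left hS2 hB
    have e3 := mul_le_mul_of_nonneg_left hg2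
      (show 0 ≤ (QQ b J : ℝ) * Cd * C1 * Real.exp (-((b : ℝ) ^ (2 * J) / 4)) by positivity)
    linarith

/-! ### parameters -/

theorem ce3_x_le (b L : ℕ) : xL b L ≤ b * L := by
  unfold xL
  rw [mul_comm]
  apply mul_le_mul_of_nonneg_right _ (Nat.cast_nonneg _)
  rcases Nat.eq_zero_or_pos b with h | h
  · rw [h]; simp
  · have := Real.log_le_sub_one_of_pos (show (0 : ℝ) < b by exact_mod_cast h)
    linarith

theorem ce3_L_le {b : ℕ} (hb : 2 ≤ b) (L : ℕ) : (L : ℝ) ≤ 2 * xL b L := by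
  unfold xL
  have h1 : (1 : ℝ) / 2 ≤ Real.log b := by
    have h2 : Real.log 2 ≤ Real.log b := Real.log_le_log (by norm_num) (by exact_mod_cast hb)
    have := Real.log_two_gt_d9
    linarith
  have h3 : (0 : ℝ) ≤ L := Nat.cast_nonneg _
  nlinarith

theorem ce3_pow_le {b L J : ℕ} (hb : 2 ≤ b) (hJ : 1000 * J ≤ L) (n : ℕ) :
    (b : ℝ) ^ (n * J) ≤ Real.exp (n * (xL b L / 1000)) := by
  have hb0 : (0 : ℝ) < b := by exact_mod_cast (by omega : 0 < b)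
  have h1 : (b : ℝ) ^ (n * J) = Real.exp ((n * J : ℕ) * Real.log b) := by
    rw [Real.exp_nat_mul, Real.exp_log hb0]
  rw [h1]
  apply Real.exp_le_exp.2
  unfold xL
  have h2 : (1000 : ℝ) * J ≤ L := by exact_mod_cast hJ
  have h3 : 0 ≤ Real.log b := Real.log_natCast_nonneg b
  push_cast
  have h4 : (J : ℝ) ≤ L / 1000 := by linarith
  have h5 : (n : ℝ) * J ≤ n * (L / 1000) := mul_le_mul_of_nonneg_left h4 (Nat.cast_nonneg _)
  calc (n : ℝ) * J * Real.log b ≤ n * (L / 1000) * Real.log b := mul_le_mul_of_nonneg_right h5 h3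
    _ = _ := by ring

theorem ce3_QQ_le {b J : ℕ} : (QQ b J : ℝ) ≤ (b : ℝ) ^ 2 * (b : ℝ) ^ J := by
  unfold QQ D0
  push_cast
  apply mul_le_mul_of_nonneg_right _ (by positivity)
  exact_mod_cast Nat.sub_le _ _

/-- the hypothesis of `l1_cont` -/
theorem ce3_l1hyp {b L J : ℕ} (hb : 2 ≤ b) (hJ : 1000 * J ≤ L)
    (hx : (xL b L + 2) * (b : ℝ) ^ 2 ≤ Real.exp (19 * (xL b L / 1000))) :
    (QQ b J : ℝ) * (xL b L / del b J + 2) ≤ Real.exp (xL b L / 40) := by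
  have hb1 : (1 : ℝ) ≤ b := by exact_mod_cast (by omega : 1 ≤ b)
  have hb0 : (0 : ℝ) < b := by linarith
  have hx0 : 0 ≤ xL b L := by
    unfold xL
    exact mul_nonneg (Nat.cast_nonneg _) (Real.log_natCast_nonneg b)
  have h1 : xL b L / del b J + 2 ≤ (xL b L + 2) * (b : ℝ) ^ (5 * J) := by
    unfold del
    rw [div_inv_eq_mul]
    have : (1 : ℝ) ≤ (b : ℝ) ^ (5 * J) := one_le_pow₀ hb1
    nlinarith
  calc (QQ b J : ℝ) * (xL b L / del b J + 2)
      ≤ ((b : ℝ) ^ 2 * (b : ℝ) ^ J) * ((xL b L + 2) * (b : ℝ) ^ (5 * J)) :=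
        mul_le_mul ce3_QQ_le h1 (by
          have : 0 < del b J := by unfold del; positivity
          positivity) (by positivity)
    _ = ((xL b L + 2) * (b : ℝ) ^ 2) * (b : ℝ) ^ (6 * J) := by
        have : (b : ℝ) ^ (6 * J) = (b : ℝ) ^ J * (b : ℝ) ^ (5 * J) := by
          rw [← pow_add]; congr 1; ring
        rw [this]
        ring
    _ ≤ Real.exp (19 * (xL b L / 1000)) * Real.exp ((6 : ℕ) * (xL b L / 1000)) :=
        mul_le_mul hx (ce3_pow_le hb hJ 6) (by positivity) (Real.exp_pos _).le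
    _ = Real.exp (xL b L / 40) := by
        rw [← Real.exp_add]
        congr 1
        push_cast
        ring

theorem ce3_y6 {y : ℝ} (hy : 1 ≤ y) : y ^ 6 * Real.exp (-(y ^ 2 / 4)) ≤ 6144 / y := by
  have h1 : (y ^ 2 / 4) ^ 4 / 24 ≤ Real.exp (y ^ 2 / 4) := by
    have := Real.pow_div_factorial_le_exp (x := y ^ 2 / 4) (by positivity) 4
    have h2 : ((4).factorial : ℝ) = 24 := by norm_num [Nat.factorial]
    rwa [h2] at this
  rw [Real.exp_neg, ← div_eq_mul_inv, div_le_div_iff₀ (Real.exp_pos _) (by linarith)]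
  have h3 : y ^ 6 * y ≤ y ^ 8 := by
    calc y ^ 6 * y = y ^ 7 := by ring
      _ ≤ y ^ 8 := pow_le_pow_right₀ hy (by norm_num)
  nlinarith

/-- all the work: the bound for one `L` -/
theorem ce3_bound (b : ℕ) (hb : 2 ≤ b) (h2 : C2Stmt b) (h2p : C2pStmt b) :
    ∃ (K : ℕ) (a x0 : ℝ) (L0 : ℕ), 1 ≤ K ∧ 0 < a ∧ 1 ≤ x0 ∧ ∀ L J N l r : ℕ, L0 ≤ L → Adm b L J → Good b L l r N →
      x0 ≤ xL b L → (xL b L + 2) * (b : ℝ) ^ 2 ≤ Real.exp (19 * (xL b L / 1000)) →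
      (b : ℝ) ≤ xL b L ^ K → xL b L ^ K < (b : ℝ) ^ J → 2 ≤ J →
      |EE b L J N l r| ≤ a * ((L : ℝ) ^ 12 / (b : ℝ) ^ J + (xL b L)⁻¹ +
        xL b L ^ (2 * K + 1) * Real.exp (-Real.sqrt (xL b L))) * (b : ℝ) ^ L := by
  obtain ⟨c, C, L0, hc, hC, hT⟩ := T_bounds b hb h2 h2p
  obtain ⟨C1, hC1, hl1⟩ := l1_cont b hb
  obtain ⟨Cd, hCd, hDt⟩ := DD_triv b hb
  obtain ⟨Ce1, hCe1, he1⟩ := EE_sub b hb
  obtain ⟨Ce2, hCe2, he2⟩ := EEs_expand b hb
  set K : ℕ := ⌈13 / c⌉₊ + 1 with hK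
  have hcK : 13 ≤ c * K := by
    have h1 : 13 / c ≤ K := (Nat.le_ceil _).trans (by rw [hK]; push_cast; linarith)
    rw [div_le_iff₀ hc] at h1
    linarith
  obtain ⟨x0, hx0, hlow⟩ := low_all b K hb
  have hb1 : (1 : ℝ) < b := by exact_mod_cast (by omega : 1 < b)
  have hb0 : (0 : ℝ) < b := by linarith
  have hlogb : 0 < Real.log b := Real.log_pos hb1
  have hD0 : 0 < D0 b := ce3_D0_pos hb
  have hkap : 0 < kap b := by
    unfold kap
    have h1 : 0 < b * D0 b := Nat.mul_pos (by omega) hD0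
    have h2 : 0 < (b * D0 b).totient := Nat.totient_pos.2 h1
    positivity
  set bc : ℝ := (b : ℝ) ^ c with hbc
  have hbc0 : 0 < bc := Real.rpow_pos_of_pos hb0 _
  have hbc1 : 1 ≤ bc := Real.one_le_rpow hb1.le hc.le
  refine ⟨K, Ce1 + Ce2 + kap b * (64 * (C * C1 * bc) + C * C1 * (b : ℝ) ^ 6 + 4 * D0 b * C +
    D0 b * Cd * C * 4 * 6144), max x0 60, L0, by omega, by positivity, hx0.trans (le_max_left _ _), ?_⟩
  intro L J N l r hL hadm hg hx1 hx2 hx3 hx4 hJ2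
  obtain ⟨_, hJ1, _, hJL⟩ := id hadm
  have hxx0 : x0 ≤ xL b L := (le_max_left _ _).trans hx1
  have hx60 : 60 ≤ xL b L := (le_max_right _ _).trans hx1
  have hxpos : 0 < xL b L := by linarith
  have hx1' : 1 ≤ xL b L := by linarith
  have hne : NeZero (QQ b J) := ⟨ce3_QQ_ne hb J⟩
  set x : ℝ := xL b L with hxdef
  set X : ℝ := x ^ K with hX
  have hX1 : 1 ≤ X := one_le_pow₀ hx1'
  have hX0 : 0 < X := by linarith
  set bJ : ℝ := (b : ℝ) ^ J with hbJ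
  have hbJ1 : 1 ≤ bJ := one_le_pow₀ hb1.le
  have hbJ0 : 0 < bJ := by linarith
  -- the level
  set j0 : ℕ := max 1 ⌊K * Real.log x / Real.log b⌋₊ with hj0
  have hj01 : 1 ≤ j0 := le_max_left _ _
  have hlogx : 0 ≤ Real.log x := Real.log_nonneg hx1'
  have hlogX : Real.log X = K * Real.log x := by rw [hX, Real.log_pow]
  have hratio0 : 0 ≤ K * Real.log x / Real.log b := by positivity
  have hfl : (⌊K * Real.log x / Real.log b⌋₊ : ℝ) ≤ K * Real.log x / Real.log b := Nat.floor_le hratio0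
  have hfl2 : K * Real.log x / Real.log b < ⌊K * Real.log x / Real.log b⌋₊ + 1 := Nat.lt_floor_add_one _
  have hbj0 : (b : ℝ) ^ j0 ≤ X := by
    have h1 : (j0 : ℝ) * Real.log b ≤ Real.log X := by
      rw [hj0]
      push_cast
      rcases max_cases (1 : ℝ) (⌊K * Real.log x / Real.log b⌋₊ : ℝ) with h | h
      · rw [h.1, one_mul]
        exact Real.log_le_log hb0 hx3
      · rw [h.1, hlogX]
        calc (⌊K * Real.log x / Real.log b⌋₊ : ℝ) * Real.log b ≤ (K * Real.log x / Real.log b) * Real.log b :=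
              mul_le_mul_of_nonneg_right hfl hlogb.le
          _ = K * Real.log x := by field_simp
    have h2 : Real.log ((b : ℝ) ^ j0) ≤ Real.log X := by rwa [Real.log_pow]
    exact (Real.log_le_log_iff (by positivity) hX0).1 h2
  have hj0J : j0 < J := by
    have h1 : K * Real.log x / Real.log b < J := by
      rw [div_lt_iff₀ hlogb, ← hlogX]
      have h2 := Real.log_lt_log hX0 hx4
      have h3 : Real.log bJ = J * Real.log b := by rw [hbJ, Real.log_pow]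
      rwa [h3] at h2
    rw [hj0]
    apply max_lt (by omega)
    exact (Nat.floor_lt hratio0).2 h1
  -- powers
  have hxc : x ^ (-(c * K)) ≤ x ^ (-(13 : ℝ)) := Real.rpow_le_rpow_of_exponent_le hx1' (by linarith)
  have hx13 : x ^ (-(13 : ℝ)) = (x ^ 13)⁻¹ := by
    rw [Real.rpow_neg hxpos.le]
    congr 1
    exact_mod_cast Real.rpow_natCast x 13
  rw [hx13] at hxc
  have hpj : (b : ℝ) ^ (-(c * j0)) ≤ bc * (x ^ 13)⁻¹ := by
    have h1 : Real.log X - Real.log b ≤ j0 * Real.log b := by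
      have h2 : Real.log X ≤ (⌊K * Real.log x / Real.log b⌋₊ + 1) * Real.log b := by
        rw [hlogX, ← div_le_iff₀ hlogb]
        exact hfl2.le
      have h3 : (⌊K * Real.log x / Real.log b⌋₊ : ℝ) ≤ j0 := by
        rw [hj0]
        exact_mod_cast le_max_right _ _
      nlinarith
    have h4 : (b : ℝ) ^ (-(c * j0)) ≤ bc * x ^ (-(c * K)) := by
      rw [hbc, Real.rpow_def_of_pos hb0, Real.rpow_def_of_pos hb0, Real.rpow_def_of_pos hxpos, ← Real.exp_add]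
      apply Real.exp_le_exp.2
      rw [hlogX] at h1
      nlinarith [mul_le_mul_of_nonneg_left h1 hc.le]
    exact h4.trans (mul_le_mul_of_nonneg_left hxc hbc0.le)
  -- the bounds for TC
  set η : ℝ := bc * (x ^ 13)⁻¹ + bJ⁻¹ with hη
  have hη0 : 0 ≤ η := by positivity
  have hLnn : (0 : ℝ) ≤ L := Nat.cast_nonneg _
  have hT' := hT L J N l r hL hadm hg
  have hT1 : ∀ (χ : DirichletCharacter ℂ (QQ b J)) (lam : ℝ),
      ‖TC b L J N l r χ lam‖ ≤ C * L * (b : ℝ) ^ L := fun χ lam => (hT' χ lam).1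
  have hT2 : ∀ (χ : DirichletCharacter ℂ (QQ b J)) (lam : ℝ), ¬ χ.FactorsThrough (QQ b j0) →
      ‖TC b L J N l r χ lam‖ ≤ C * L ^ 6 * (b : ℝ) ^ L * η := by
    intro χ lam hχ
    refine ((hT' χ lam).2.1 j0 hj0J hχ).trans (mul_le_mul_of_nonneg_left ?_ (by positivity))
    rw [hη]
    linarith
  have hT3 : ∀ (χ : DirichletCharacter ℂ (QQ b J)) (lam : ℝ), X < |lam| → lam ^ 2 ≤ (b : ℝ) ^ (MC J) →
      ‖TC b L J N l r χ lam‖ ≤ C * L ^ 6 * (b : ℝ) ^ L * η := by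
    intro χ lam h3 h4
    refine ((hT' χ lam).2.2 (hX1.trans h3.le) h4).trans (mul_le_mul_of_nonneg_left ?_ (by positivity))
    have h5 : |lam| ^ (-c) ≤ X ^ (-c) := Real.rpow_le_rpow_of_nonpos hX0 h3.le (by linarith)
    have h6 : X ^ (-c) = x ^ (-(c * K)) := by
      rw [hX, ← Real.rpow_natCast, ← Real.rpow_mul hxpos.le]
      congr 1
      ring
    rw [h6] at h5
    have h7 : (x ^ 13)⁻¹ ≤ bc * (x ^ 13)⁻¹ := le_mul_of_one_le_left (by positivity) hbc1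
    rw [hη]
    linarith
  have hDt' : ∀ (χ : DirichletCharacter ℂ (QQ b J)) (lam : ℝ), ‖DD b χ x lam‖ ≤ Cd := fun χ lam =>
    hDt (QQ b J) χ x lam hx1'
  have hlow' : ∀ (χ : DirichletCharacter ℂ (QQ b J)) (lam : ℝ), χ.FactorsThrough (QQ b j0) → |lam| ≤ X →
      ‖DD b χ x lam‖ ≤ Real.exp (-Real.sqrt x) := by
    intro χ lam hχ hlam
    have hne0 : NeZero (QQ b j0) := ⟨ce3_QQ_ne hb j0⟩
    rw [hχ.eq_changeLevel, ce3_DD_changeLevel b hb hj01 hJ1 hχ.dvd]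
    exact hlow x hxx0 j0 _ lam hj01 hbj0 hlam
  have hδ1 : del b J ≤ 1 := by
    unfold del
    exact inv_le_one_of_one_le₀ (one_le_pow₀ hb1.le)
  have hδ0 : 0 < del b J := by unfold del; positivity
  obtain ⟨hS1, hS2⟩ := hl1 J (del b J) x hJ1 hδ0 hδ1 hx60 (ce3_l1hyp hb hJL hx2)
  have hint := ce3_int b L J N l r j0 hb (C1 := C * L * (b : ℝ) ^ L) (Cd := Cd) (x := x) (X := X)
    (B := C * L ^ 6 * (b : ℝ) ^ L * η) (S := C1 * x ^ 6) (by positivity) hCd.le (by positivity) hX0.le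
    hDt' hlow' hT1 hT2 hT3 hS1 hS2
  obtain ⟨_, hexp⟩ := he2 L J N l r hadm hg
  have hsub := he1 L J N l r hadm hg
  rw [← hxdef] at hexp
  set I0 : ℂ := ∫ lam : ℝ, ((Real.exp (-(del b J ^ 2 * lam ^ 2 / 2)) : ℝ) : ℂ) *
        ∑ χ : DirichletCharacter ℂ (QQ b J), DD b χ x lam * TC b L J N l r χ lam with hI0
  have hkapQ : (QQ b J : ℝ) / (QQ b J).totient = kap b := by
    have h1 := kap_mul b hb hJ1
    have h2 : (0 : ℝ) < (QQ b J).totient := by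
      exact_mod_cast Nat.totient_pos.2 (Nat.pos_of_ne_zero (ce3_QQ_ne hb J))
    have h3 : (0 : ℝ) < QQ b J := by exact_mod_cast Nat.pos_of_ne_zero (ce3_QQ_ne hb J)
    field_simp at h1 ⊢
    linarith
  rw [hkapQ] at hexp
  have hpi := Real.pi_gt_three
  have hmain : ‖((kap b : ℝ) : ℂ) * ((1 / (2 * Real.pi) : ℝ) : ℂ) * I0‖ ≤ kap b * ‖I0‖ := by
    rw [norm_mul, norm_mul, Complex.norm_real, Complex.norm_real, Real.norm_eq_abs, Real.norm_eq_abs,
      abs_of_pos hkap, abs_of_pos (by positivity)]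
    apply mul_le_mul_of_nonneg_right _ (norm_nonneg _)
    have h1 : 1 / (2 * Real.pi) ≤ 1 := by
      rw [div_le_one (by positivity)]
      linarith
    exact mul_le_of_le_one_right hkap.le h1
  have hEEs : |EEs b L J N l r| ≤ kap b * ‖I0‖ + Ce2 * L ^ 2 * (b : ℝ) ^ L / (b : ℝ) ^ J := by
    have h1 : |EEs b L J N l r| = ‖(EEs b L J N l r : ℂ)‖ := by
      rw [Complex.norm_real, Real.norm_eq_abs]
    rw [h1]
    have h2 := norm_sub_norm_le (EEs b L J N l r : ℂ)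
      (((kap b : ℝ) : ℂ) * ((1 / (2 * Real.pi) : ℝ) : ℂ) * I0)
    linarith
  have hEE : |EE b L J N l r| ≤ kap b * ‖I0‖ + (Ce1 + Ce2) * L ^ 2 * (b : ℝ) ^ L / (b : ℝ) ^ J := by
    have h1 : |EE b L J N l r| ≤ |EEs b L J N l r| + |EE b L J N l r - EEs b L J N l r| := by
      have := abs_add_le (EEs b L J N l r) (EE b L J N l r - EEs b L J N l r)
      simpa using this
    have h2 : (Ce1 + Ce2) * (L : ℝ) ^ 2 * (b : ℝ) ^ L / (b : ℝ) ^ J =
        Ce1 * (L : ℝ) ^ 2 * (b : ℝ) ^ L / (b : ℝ) ^ J + Ce2 * (L : ℝ) ^ 2 * (b : ℝ) ^ L / (b : ℝ) ^ J := by ring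
    linarith
  -- final estimates
  have hL1 : (1 : ℝ) ≤ L := by
    have : 1 ≤ L := by omega
    exact_mod_cast this
  have hL2x : (L : ℝ) ≤ 2 * x := ce3_L_le hb L
  have hxbL : x ≤ b * L := ce3_x_le b L
  have hbL0 : (0 : ℝ) < (b : ℝ) ^ L := by positivity
  set P1 : ℝ := (L : ℝ) ^ 12 / bJ with hP1
  set P3 : ℝ := x ^ (2 * K + 1) * Real.exp (-Real.sqrt x) with hP3
  have hP10 : 0 ≤ P1 := by positivity
  have hP30 : 0 ≤ P3 := by positivity
  have hL12 : (L : ℝ) ^ 2 / bJ ≤ P1 := by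
    rw [hP1]
    exact div_le_div_of_nonneg_right (pow_le_pow_right₀ hL1 (by norm_num)) hbJ0.le
  have hL1P : (L : ℝ) / bJ ≤ P1 := by
    rw [hP1]
    exact div_le_div_of_nonneg_right (by
      calc (L : ℝ) = (L : ℝ) ^ 1 := (pow_one _).symm
        _ ≤ _ := pow_le_pow_right₀ hL1 (by norm_num)) hbJ0.le
  -- (a)
  have ha : C * L ^ 6 * (b : ℝ) ^ L * η * (C1 * x ^ 6) ≤
      (64 * (C * C1 * bc) * x⁻¹ + C * C1 * (b : ℝ) ^ 6 * P1) * (b : ℝ) ^ L := by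
    have h1 : (L : ℝ) ^ 6 * (bc * (x ^ 13)⁻¹) * x ^ 6 ≤ 64 * bc * x⁻¹ := by
      have h3 : (L : ℝ) ^ 6 ≤ 64 * x ^ 6 := by
        calc (L : ℝ) ^ 6 ≤ (2 * x) ^ 6 := pow_le_pow_left₀ hLnn hL2x 6
          _ = 64 * x ^ 6 := by ring
      have h4 : 64 * bc * x⁻¹ = (64 * x ^ 6) * (bc * (x ^ 13)⁻¹) * x ^ 6 := by
        field_simp
      rw [h4]
      gcongr
    have h2 : (L : ℝ) ^ 6 * bJ⁻¹ * x ^ 6 ≤ (b : ℝ) ^ 6 * P1 := by
      have h3 : x ^ 6 ≤ (b * L) ^ 6 := pow_le_pow_left₀ hxpos.le hxbL 6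
      calc (L : ℝ) ^ 6 * bJ⁻¹ * x ^ 6 ≤ (L : ℝ) ^ 6 * bJ⁻¹ * (b * L) ^ 6 :=
            mul_le_mul_of_nonneg_left h3 (by positivity)
        _ = _ := by rw [hP1]; ring
    have h3 : C * L ^ 6 * (b : ℝ) ^ L * η * (C1 * x ^ 6) =
        (C * C1 * ((L : ℝ) ^ 6 * (bc * (x ^ 13)⁻¹) * x ^ 6) +
          C * C1 * ((L : ℝ) ^ 6 * bJ⁻¹ * x ^ 6)) * (b : ℝ) ^ L := by
      rw [hη]
      ring
    rw [h3]
    apply mul_le_mul_of_nonneg_right _ hbL0.le
    have h4 := mul_le_mul_of_nonneg_left h1 (show 0 ≤ C * C1 by positivity)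
    have h5 := mul_le_mul_of_nonneg_left h2 (show 0 ≤ C * C1 by positivity)
    linarith
  -- (b)
  have hbb : (QQ b j0 : ℝ) * Real.exp (-Real.sqrt x) * (C * L * (b : ℝ) ^ L) * (2 * X) ≤
      4 * D0 b * C * P3 * (b : ℝ) ^ L := by
    have h1 : (QQ b j0 : ℝ) ≤ D0 b * X := by
      unfold QQ
      push_cast
      exact mul_le_mul_of_nonneg_left hbj0 (Nat.cast_nonneg _)
    have h2 : (QQ b j0 : ℝ) * Real.exp (-Real.sqrt x) * (C * L * (b : ℝ) ^ L) * (2 * X) ≤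
        (D0 b * X) * Real.exp (-Real.sqrt x) * (C * (2 * x) * (b : ℝ) ^ L) * (2 * X) := by
      gcongr
    refine h2.trans (le_of_eq ?_)
    rw [hP3, hX]
    ring
  -- (c)
  have hcc : (QQ b J : ℝ) * Cd * (C * L * (b : ℝ) ^ L) * Real.exp (-((b : ℝ) ^ (2 * J) / 4)) *
      (4 * (b : ℝ) ^ (5 * J)) ≤ D0 b * Cd * C * 4 * 6144 * P1 * (b : ℝ) ^ L := by
    have h1 : (b : ℝ) ^ (2 * J) = bJ ^ 2 := by rw [hbJ, ← pow_mul]; congr 1; ring
    have h2 : (b : ℝ) ^ (5 * J) = bJ ^ 5 := by rw [hbJ, ← pow_mul]; congr 1; ring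
    have h3 : (QQ b J : ℝ) = D0 b * bJ := by unfold QQ; push_cast; rfl
    have h4 := ce3_y6 hbJ1
    rw [h1, h2, h3]
    have h5 : (D0 b * bJ) * Cd * (C * L * (b : ℝ) ^ L) * Real.exp (-(bJ ^ 2 / 4)) * (4 * bJ ^ 5) =
        (D0 b * Cd * C * 4 * (b : ℝ) ^ L * L) * (bJ ^ 6 * Real.exp (-(bJ ^ 2 / 4))) := by ring
    rw [h5]
    calc (D0 b * Cd * C * 4 * (b : ℝ) ^ L * L) * (bJ ^ 6 * Real.exp (-(bJ ^ 2 / 4)))
        ≤ (D0 b * Cd * C * 4 * (b : ℝ) ^ L * L) * (6144 / bJ) :=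
          mul_le_mul_of_nonneg_left h4 (by positivity)
      _ = D0 b * Cd * C * 4 * 6144 * (L / bJ) * (b : ℝ) ^ L := by ring
      _ ≤ _ := by gcongr
  have hI : ‖I0‖ ≤ (64 * (C * C1 * bc) * x⁻¹ + C * C1 * (b : ℝ) ^ 6 * P1) * (b : ℝ) ^ L +
      4 * D0 b * C * P3 * (b : ℝ) ^ L + D0 b * Cd * C * 4 * 6144 * P1 * (b : ℝ) ^ L := by
    refine hint.trans ?_
    linarith
  have hI' := mul_le_mul_of_nonneg_left hI hkap.le
  have hLL : (Ce1 + Ce2) * L ^ 2 * (b : ℝ) ^ L / (b : ℝ) ^ J ≤ (Ce1 + Ce2) * P1 * (b : ℝ) ^ L := by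
    have h1 : (Ce1 + Ce2) * L ^ 2 * (b : ℝ) ^ L / (b : ℝ) ^ J = (Ce1 + Ce2) * (L ^ 2 / bJ) * (b : ℝ) ^ L := by
      rw [hbJ]; ring
    rw [h1]
    gcongr
  refine hEE.trans ((add_le_add hI' hLL).trans ?_)
  have hxi : 0 < x⁻¹ := inv_pos.2 hxpos
  set a1 : ℝ := 64 * (C * C1 * bc) with ha1
  set a2 : ℝ := C * C1 * (b : ℝ) ^ 6 with ha2
  set a3 : ℝ := 4 * D0 b * C with ha3
  set a4 : ℝ := D0 b * Cd * C * 4 * 6144 with ha4
  have q1 : 0 ≤ a1 := by positivity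
  have q2 : 0 ≤ a2 := by positivity
  have q3 : 0 ≤ a3 := by positivity
  have q4 : 0 ≤ a4 := by positivity
  have q5 : kap b * ((a1 * x⁻¹ + a2 * P1) * (b : ℝ) ^ L + a3 * P3 * (b : ℝ) ^ L + a4 * P1 * (b : ℝ) ^ L) +
      (Ce1 + Ce2) * P1 * (b : ℝ) ^ L =
      (kap b * (a1 * x⁻¹ + a2 * P1 + a3 * P3 + a4 * P1) + (Ce1 + Ce2) * P1) * (b : ℝ) ^ L := by ring
  rw [q5]
  apply mul_le_mul_of_nonneg_right _ hbL0.le
  have q6 : kap b * (a1 * x⁻¹ + a2 * P1 + a3 * P3 + a4 * P1) ≤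
      kap b * ((a1 + a2 + a3 + a4) * (P1 + x⁻¹ + P3)) := by
    apply mul_le_mul_of_nonneg_left _ hkap.le
    nlinarith [mul_nonneg q1 hP10, mul_nonneg q1 hP30, mul_nonneg q2 hxi.le, mul_nonneg q2 hP30,
      mul_nonneg q3 hP10, mul_nonneg q3 hxi.le, mul_nonneg q4 hxi.le, mul_nonneg q4 hP30]
  have q7 : (Ce1 + Ce2) * P1 ≤ (Ce1 + Ce2) * (P1 + x⁻¹ + P3) := by
    apply mul_le_mul_of_nonneg_left _ (by positivity)
    linarith
  calc _ ≤ kap b * ((a1 + a2 + a3 + a4) * (P1 + x⁻¹ + P3)) + (Ce1 + Ce2) * (P1 + x⁻¹ + P3) := add_le_add q6 q7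
    _ = _ := by ring

theorem EE_small (b : ℕ) (hb : 2 ≤ b) (h2 : C2Stmt b) (h2p : C2pStmt b) : ∃ A₀ : ℕ, ∀ A : ℕ, A₀ ≤ A →
    ∀ ε : ℝ, 0 < ε → ∃ L₀ : ℕ, ∀ L : ℕ, L₀ ≤ L → ∀ l r N : ℕ, Good b L l r N →
      |EE b L (L / A) N l r| ≤ ε * (b : ℝ) ^ L := by
  obtain ⟨K, a, x0, L0, hK1, ha, hx0, hbd⟩ := ce3_bound b hb h2 h2p
  refine ⟨1000, fun A hA ε hε => ?_⟩
  have hA1 : 1 ≤ A := by omega
  have hb1 : (1 : ℝ) < b := by exact_mod_cast (by omega : 1 < b)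
  have hb0 : (0 : ℝ) < b := by linarith
  have hx := ce3_tendsto_x b hb
  have t1 := ce3_tendsto_A b hb A hA1 12
  have t2 : Tendsto (fun L : ℕ => (xL b L)⁻¹) atTop (𝓝 0) := tendsto_inv_atTop_zero.comp hx
  have t3 := ce3_tendsto_C b hb (2 * K + 1)
  have t4 := ((t1.add t2).add t3).const_mul a
  simp only [add_zero, mul_zero] at t4
  have e1 := t4.eventually (gt_mem_nhds hε)
  have e2 : ∀ᶠ L : ℕ in atTop, (xL b L + 2) * (b : ℝ) ^ 2 ≤ Real.exp (19 * (xL b L / 1000)) := by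
    have h1 : Tendsto (fun y : ℝ => (y + 2) * (b : ℝ) ^ 2 * Real.exp (-(19 * (y / 1000)))) atTop (𝓝 0) := by
      have h2 : Tendsto (fun y : ℝ => 19 * (y / 1000)) atTop atTop :=
        (tendsto_id.atTop_div_const (by norm_num)).const_mul_atTop (by norm_num)
      have h3 := (Real.tendsto_pow_mul_exp_neg_atTop_nhds_zero 1).comp h2
      have h4 := (Real.tendsto_pow_mul_exp_neg_atTop_nhds_zero 0).comp h2
      have h5 := (h3.const_mul (1000 / 19 * (b : ℝ) ^ 2)).add (h4.const_mul (2 * (b : ℝ) ^ 2))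
      simp only [mul_zero, add_zero] at h5
      refine h5.congr fun y => ?_
      simp only [Function.comp, pow_one, pow_zero, one_mul]
      ring
    have h2 := (h1.comp hx).eventually (gt_mem_nhds (show (0 : ℝ) < 1 by norm_num))
    filter_upwards [h2] with L hL
    simp only [Function.comp] at hL
    rw [Real.exp_neg, ← div_eq_mul_inv, div_lt_one (Real.exp_pos _)] at hL
    exact hL.le
  have e3 : ∀ᶠ L : ℕ in atTop, xL b L ^ K < (b : ℝ) ^ (L / A) := by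
    have h1 := (ce3_tendsto_A b hb A hA1 K).const_mul ((b : ℝ) ^ K)
    rw [mul_zero] at h1
    filter_upwards [h1.eventually (gt_mem_nhds (show (0 : ℝ) < 1 by norm_num))] with L hL
    have h2 : (0 : ℝ) < (b : ℝ) ^ (L / A) := by positivity
    rw [← mul_div_assoc, div_lt_one h2] at hL
    refine lt_of_le_of_lt ?_ hL
    rw [← mul_pow]
    apply pow_le_pow_left₀ _ (ce3_x_le b L)
    unfold xL
    exact mul_nonneg (Nat.cast_nonneg _) (Real.log_natCast_nonneg b)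
  have e4 := hx.eventually (eventually_ge_atTop (max x0 (max b 1)))
  obtain ⟨L1, hL1⟩ := eventually_atTop.1 (((e1.and e2).and (e3.and e4)).and
    (eventually_ge_atTop (max L0 (3 * A))))
  refine ⟨L1, fun L hL l r N hg => ?_⟩
  obtain ⟨⟨⟨f1, f2⟩, f3, f4⟩, f5⟩ := hL1 L hL
  have f5a : L0 ≤ L := (le_max_left _ _).trans f5
  have f5b : 3 * A ≤ L := (le_max_right _ _).trans f5
  have hJ3 : 3 ≤ L / A := by
    rw [Nat.le_div_iff_mul_le (by omega)]
    exact f5b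
  have hadm : Adm b L (L / A) := by
    refine ⟨hb, by omega, ?_, ?_⟩
    · unfold D0
      calc 2 * (b ^ 2 - 1) ≤ 2 * b ^ 2 := Nat.mul_le_mul_left _ (Nat.sub_le _ _)
        _ ≤ b * b ^ 2 := Nat.mul_le_mul_right _ hb
        _ = b ^ 3 := by ring
        _ ≤ b ^ (L / A) := Nat.pow_le_pow_right (by omega) hJ3
    · calc 1000 * (L / A) ≤ A * (L / A) := Nat.mul_le_mul_right _ hA
        _ ≤ L := Nat.mul_div_le L A
  have g1 : x0 ≤ xL b L := (le_max_left _ _).trans f4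
  have g2 : (b : ℝ) ≤ xL b L := ((le_max_left _ _).trans (le_max_right _ _)).trans f4
  have g3 : (b : ℝ) ≤ xL b L ^ K := by
    have g4 : 1 ≤ xL b L := hb1.le.trans g2
    calc (b : ℝ) ≤ xL b L := g2
      _ = xL b L ^ 1 := (pow_one _).symm
      _ ≤ xL b L ^ K := pow_le_pow_right₀ g4 hK1
  have g5 := hbd L (L / A) N l r f5a hadm hg g1 f2 g3 f3 (by omega)
  refine g5.trans (mul_le_mul_of_nonneg_right f1.le (by positivity))

end Pool.Agent.LibHG31
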