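import Pool.Agent.LibHG31.C0
import Pool.Agent.LibH.PNTRem

/-! ROW CF1: the Gaussian smoothing in terms of the Fourier transform. -/

namespace Pool.Agent.LibHG31

open Finset Complex MeasureTheory
open Pool.Agent.LibMaier (gw)

theorem cf1_kernel {δ : ℝ} (hδ : 0 < δ) (s : ℝ) :
    ((gw (s / δ) / δ : ℝ) : ℂ) = ((1 / (2 * Real.pi) : ℝ) : ℂ) *
      ∫ lam : ℝ, ((Real.exp (-(δ ^ 2 * lam ^ 2 / 2)) : ℝ) : ℂ) * cexp (((lam * s : ℝ) : ℂ) * I) := by
  have h1 := LibMaier.gauss_int 0 (-(s / δ))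
  have h2 : ∀ lam : ℝ, ((Real.exp (-(δ ^ 2 * lam ^ 2 / 2)) : ℝ) : ℂ) * cexp (((lam * s : ℝ) : ℂ) * I) =
      (fun t : ℝ => cexp ((((0 : ℝ) : ℂ) + t * I) ^ 2 / 2 - (((0 : ℝ) : ℂ) + t * I) * ((-(s / δ) : ℝ) : ℂ))) (δ * lam) := by
    intro lam
    simp only
    rw [Complex.ofReal_exp, ← Complex.exp_add]
    congr 1
    have hI : (I : ℂ) ^ 2 = -1 := Complex.I_sq
    have hδC : (δ : ℂ) ≠ 0 := by exact_mod_cast hδ.ne'
    push_cast
    field_simp
    ring_nf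
    rw [hI]
    ring
  have h5 := Measure.integral_comp_mul_left (fun t : ℝ => cexp ((((0 : ℝ) : ℂ) + t * I) ^ 2 / 2 -
    (((0 : ℝ) : ℂ) + t * I) * ((-(s / δ) : ℝ) : ℂ))) δ
  rw [integral_congr_ae (Filter.Eventually.of_forall h2), h5, h1]
  have h3 : gw (-(s / δ)) = gw (s / δ) := by
    unfold LibMaier.gw
    rw [neg_sq]
  rw [h3, abs_of_pos (inv_pos.2 hδ)]
  have hpi : (Real.pi : ℂ) ≠ 0 := by exact_mod_cast Real.pi_ne_zero
  have hδC : (δ : ℂ) ≠ 0 := by exact_mod_cast hδ.ne'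
  rw [Complex.real_smul]
  push_cast
  field_simp

theorem cf1_int {δ : ℝ} (hδ : 0 < δ) : Integrable fun lam : ℝ => Real.exp (-(δ ^ 2 * lam ^ 2 / 2)) := by
  have h0 : (fun lam : ℝ => Real.exp (-(δ ^ 2 * lam ^ 2 / 2))) =
      fun lam : ℝ => Real.exp (-(δ ^ 2 / 2) * lam ^ 2) := by
    funext lam
    congr 1
    ring
  rw [h0]
  exact integrable_exp_neg_mul_sq (by positivity)

theorem sm_eq {δ : ℝ} (hδ : 0 < δ) {G : ℝ → ℂ} (hG : Integrable G) (v : ℝ) :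
    sm δ G v = ((1 / (2 * Real.pi) : ℝ) : ℂ) *
      ∫ lam : ℝ, ((Real.exp (-(δ ^ 2 * lam ^ 2 / 2)) : ℝ) : ℂ) * FT G lam *
        cexp (((lam * v : ℝ) : ℂ) * I) := by
  unfold sm
  have h1 : ∀ w : ℝ, G w * ((gw ((v - w) / δ) / δ : ℝ) : ℂ) = ((1 / (2 * Real.pi) : ℝ) : ℂ) *
      ∫ lam : ℝ, G w * (((Real.exp (-(δ ^ 2 * lam ^ 2 / 2)) : ℝ) : ℂ) *
        cexp (((lam * (v - w) : ℝ) : ℂ) * I)) := by
    intro w
    rw [cf1_kernel hδ, integral_const_mul]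
    ring
  simp_rw [h1]
  rw [integral_const_mul]
  congr 1
  have hint : Integrable (Function.uncurry fun (w lam : ℝ) =>
      G w * (((Real.exp (-(δ ^ 2 * lam ^ 2 / 2)) : ℝ) : ℂ) *
        cexp (((lam * (v - w) : ℝ) : ℂ) * I))) (volume.prod volume) := by
    have h2 : Integrable (fun p : ℝ × ℝ => G p.1 * ((Real.exp (-(δ ^ 2 * p.2 ^ 2 / 2)) : ℝ) : ℂ))
        (volume.prod volume) := hG.mul_prod (cf1_int hδ).ofReal
    have h3 := h2.bdd_mul (c := 1) (f := fun p : ℝ × ℝ => cexp (((p.2 * (v - p.1) : ℝ) : ℂ) * I)) ?_ ?_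
    · refine h3.congr (Filter.Eventually.of_forall fun p => ?_)
      simp only [Function.uncurry]
      ring
    · apply Continuous.aestronglyMeasurable
      fun_prop
    · refine Filter.Eventually.of_forall fun p => ?_
      rw [Complex.norm_exp_ofReal_mul_I]
  rw [integral_integral_swap hint]
  congr 1
  funext lam
  unfold FT
  rw [← integral_const_mul, ← integral_mul_const]
  congr 1
  funext w
  have h4 : cexp (((lam * (v - w) : ℝ) : ℂ) * I) =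
      cexp (-(((lam * w : ℝ) : ℂ) * I)) * cexp (((lam * v : ℝ) : ℂ) * I) := by
    rw [← Complex.exp_add]
    congr 1
    push_cast
    ring
  rw [h4]
  ring

end Pool.Agent.LibHG31
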