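import Pool.Agent.LibHG31.C0
import Pool.Agent.LibPNT.PNT

/-! ROW CM1: the mass of `KS`.
PLAN: `∑_{k∈II, k≡r mod D0} Λ k = psiAP(..)((l+1)b^(L-1)) - psiAP(..)(l b^(L-1)) + O(log) ~ b^(L-1)/φ(D0)` (`LibPNT.psiAP_tendsto` with
`q = D0 b`; `l` ranges over a finite set, `r mod D0` too), minus the `k` not prime to `b`: prime powers `p^a`, `p | b`: at most `ω(b) (L+1) log b / log 2`
in total weight `≤ C L²`. -/

namespace Pool.Agent.LibHG31

open Finset
open scoped ArithmeticFunction.vonMangoldt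

open Pool.Agent.LibPNT (thetaAP thetaAP_tendsto)

private theorem cm1_sum (b : ℕ) (hb : 2 ≤ b) (L l r : ℕ) (hL : 3 ≤ L) (hl : 1 ≤ l) :
    thetaAP ((r : ℕ) : ZMod (D0 b)) (((l + 1) * b ^ (L - 1) : ℕ) : ℝ) -
      thetaAP ((r : ℕ) : ZMod (D0 b)) ((l * b ^ (L - 1) : ℕ) : ℝ) ≤ ∑ k ∈ KS b L l r, Λ k := by
  unfold thetaAP
  rw [Nat.floor_natCast, Nat.floor_natCast]
  set P : ℕ → Prop := fun p => p.Prime ∧ (p : ZMod (D0 b)) = ((r : ℕ) : ZMod (D0 b)) with hP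
  have hsub : (Icc 1 (l * b ^ (L - 1))).filter P ⊆ (Icc 1 ((l + 1) * b ^ (L - 1))).filter P := by
    refine Finset.filter_subset_filter _ (Finset.Icc_subset_Icc_right ?_)
    exact Nat.mul_le_mul_right _ (by omega)
  rw [← Finset.sum_sdiff hsub, add_sub_cancel_right]
  have hmem : ∀ p ∈ (Icc 1 ((l + 1) * b ^ (L - 1))).filter P \ (Icc 1 (l * b ^ (L - 1))).filter P,
      p.Prime ∧ p ∈ KS b L l r := by
    intro p hp
    rw [Finset.mem_sdiff, Finset.mem_filter, Finset.mem_filter, Finset.mem_Icc, Finset.mem_Icc] at hp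
    obtain ⟨⟨⟨h1, h2⟩, h3, h4⟩, h5⟩ := hp
    have h6 : l * b ^ (L - 1) < p := by
      by_contra h7
      exact h5 ⟨⟨h1, not_lt.mp h7⟩, h3, h4⟩
    have h7 : b ^ 1 < b ^ (L - 1) := Nat.pow_lt_pow_right (by omega) (by omega)
    have h8 : b < p := by
      have h9 : 1 * b ^ (L - 1) ≤ l * b ^ (L - 1) := Nat.mul_le_mul_right _ hl
      rw [pow_one] at h7
      omega
    have hcop : p.Coprime b := by
      rw [h3.coprime_iff_not_dvd]
      intro hd
      exact absurd (Nat.le_of_dvd (by omega) hd) (by omega)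
    refine ⟨h3, ?_⟩
    unfold KS II
    rw [Finset.mem_filter, Finset.mem_Ico]
    refine ⟨⟨h6.le, lt_of_le_of_ne h2 ?_⟩, hcop, ?_⟩
    · intro he
      have hd : b ∣ p := by
        rw [he]
        exact Dvd.dvd.mul_left (dvd_pow_self _ (by omega)) _
      have := Nat.Coprime.eq_one_of_dvd hcop.symm hd
      omega
    · exact (ZMod.natCast_eq_natCast_iff _ _ _).mp h4
  calc ∑ p ∈ (Icc 1 ((l + 1) * b ^ (L - 1))).filter P \ (Icc 1 (l * b ^ (L - 1))).filter P, Real.log p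
      = ∑ p ∈ (Icc 1 ((l + 1) * b ^ (L - 1))).filter P \ (Icc 1 (l * b ^ (L - 1))).filter P, Λ p := by
        refine Finset.sum_congr rfl fun p hp => ?_
        rw [ArithmeticFunction.vonMangoldt_apply_prime (hmem p hp).1]
    _ ≤ ∑ k ∈ KS b L l r, Λ k := by
        refine Finset.sum_le_sum_of_subset_of_nonneg (fun p hp => (hmem p hp).2) fun k _ _ => ?_
        exact ArithmeticFunction.vonMangoldt_nonneg

theorem KS_mass (b : ℕ) (hb : 2 ≤ b) : ∃ (c : ℝ) (L0 : ℕ), 0 < c ∧ ∀ L l r : ℕ, L0 ≤ L → 1 ≤ l → l < b →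
    r.Coprime (D0 b) → c * (b : ℝ) ^ L ≤ ∑ k ∈ KS b L l r, Λ k := by
  have hD : 0 < D0 b := by
    unfold D0
    have : 2 ^ 2 ≤ b ^ 2 := Nat.pow_le_pow_left hb 2
    omega
  haveI : NeZero (D0 b) := ⟨hD.ne'⟩
  have hφ : (0 : ℝ) < ((D0 b).totient : ℝ) := by exact_mod_cast Nat.totient_pos.mpr hD
  have hbR : (0 : ℝ) < (b : ℝ) := by
    have : 0 < b := by omega
    exact_mod_cast this
  set φ : ℝ := ((D0 b).totient : ℝ) with hφdef
  set ε : ℝ := 1 / (4 * b * φ) with hε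
  have hεpos : 0 < ε := by positivity
  have hev : ∀ᶠ x : ℝ in Filter.atTop, ∀ a : ZMod (D0 b), IsUnit a → |thetaAP a x / x - φ⁻¹| < ε := by
    refine Filter.eventually_all.mpr fun a => ?_
    by_cases ha : IsUnit a
    · have h1 := (thetaAP_tendsto ha).eventually (Metric.ball_mem_nhds _ hεpos)
      filter_upwards [h1] with x hx _
      rw [Real.dist_eq] at hx
      exact hx
    · exact Filter.Eventually.of_forall fun x h => absurd h ha
  obtain ⟨X0, hX0⟩ := Filter.eventually_atTop.mp hev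
  refine ⟨1 / (2 * φ * b), max 3 ⌈X0⌉₊, by positivity, ?_⟩
  intro L l r hL hl hlb hr
  have hL3 : 3 ≤ L := le_trans (le_max_left _ _) hL
  have hLX : X0 ≤ L := (Nat.le_ceil X0).trans (by exact_mod_cast le_trans (le_max_right _ _) hL)
  refine le_trans ?_ (cm1_sum b hb L l r hL3 hl)
  have hB : (L : ℝ) ≤ (b : ℝ) ^ (L - 1) := by
    have h1 : L - 1 < b ^ (L - 1) := Nat.lt_pow_self (by omega)
    have h2 : L ≤ b ^ (L - 1) := by omega
    exact_mod_cast h2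
  have hBpos : (0 : ℝ) < (b : ℝ) ^ (L - 1) := by positivity
  have hlR : (1 : ℝ) ≤ l := by exact_mod_cast hl
  have hlbR : (l : ℝ) + 1 ≤ b := by exact_mod_cast hlb
  have ha : IsUnit ((r : ℕ) : ZMod (D0 b)) := (ZMod.isUnit_iff_coprime r (D0 b)).mpr hr
  have hx : X0 ≤ ((l * b ^ (L - 1) : ℕ) : ℝ) := by
    push_cast
    nlinarith
  have hy : X0 ≤ (((l + 1) * b ^ (L - 1) : ℕ) : ℝ) := by
    push_cast
    nlinarith
  have h1 := hX0 _ hx _ ha
  have h2 := hX0 _ hy _ ha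
  rw [abs_lt] at h1 h2
  have hxpos : (0 : ℝ) < ((l * b ^ (L - 1) : ℕ) : ℝ) := by
    push_cast
    positivity
  have hypos : (0 : ℝ) < (((l + 1) * b ^ (L - 1) : ℕ) : ℝ) := by
    push_cast
    positivity
  have h3 : thetaAP ((r : ℕ) : ZMod (D0 b)) ((l * b ^ (L - 1) : ℕ) : ℝ) ≤
      (φ⁻¹ + ε) * ((l * b ^ (L - 1) : ℕ) : ℝ) := by
    rw [← div_le_iff₀ hxpos]
    linarith [h1.2]
  have h4 : (φ⁻¹ - ε) * (((l + 1) * b ^ (L - 1) : ℕ) : ℝ) ≤
      thetaAP ((r : ℕ) : ZMod (D0 b)) (((l + 1) * b ^ (L - 1) : ℕ) : ℝ) := by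
    rw [← le_div_iff₀ hypos]
    linarith [h2.1]
  have hbL : (b : ℝ) ^ L = b * (b : ℝ) ^ (L - 1) := by
    rw [← pow_succ']
    congr 1
    omega
  have h5 : 1 / (2 * φ * b) * (b : ℝ) ^ L = (1 / 2) * φ⁻¹ * (b : ℝ) ^ (L - 1) := by
    rw [hbL]
    field_simp
  rw [h5]
  push_cast at h3 h4 ⊢
  have h6 : ε * (2 * l + 1) ≤ (1 / 2) * φ⁻¹ := by
    have h7 : ε * (2 * b) = (1 / 2) * φ⁻¹ := by
      rw [hε]
      field_simp
      norm_num
    rw [← h7]
    exact mul_le_mul_of_nonneg_left (by linarith) hεpos.le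
  nlinarith

end Pool.Agent.LibHG31
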