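import Pool.Agent.LibHG31.CM3
import Pool.Agent.LibHG31.CE1
import Pool.Agent.LibPNT.PNT

/-! ROW CM4: `∑ Δ(n) W(n) = o(b^L)`.
PLAN: `ap_Dl`: `∑_{n<X, n≡c (q)} Λ n = X/φ(q) + o(X)` (`LibPNT.psiAP_tendsto`, `q = b D0`), `∑ LamS = kap b (X/q + O(1)) = X/φ(q) + O(1)`.
`VV_small`: by `W_struct`, `W(n) = 1[n ≡ c mod b D0] 1[N - n ∈ ∪_a [a b^(L-1), (a+1) b^(L-1))]` except for `n` within `Hr` of one of the `≤ 2b`
boundary points `N - a b^(L-1)`: at most `2b(2Hr+1)` exceptions, each costs `|Dl b n| ≤ C L` (`Dl_le`): `≤ C L b^(L-J)` and `L/b^J → 0` since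
`J = L/A`. `c` = the class with `c ≡ N - l mod b`, `c ≡ N - b^(L-1) r mod D0` (CRT, coprime to `b D0` by `Good`), `a` runs over `a < b`, `(a,b) = 1`;
`ap_Dl` at the `2b` endpoints `X ≤ N < b^(L+2)` (for `X` below the threshold `X0` use the trivial bound). -/

namespace Pool.Agent.LibHG31

open Finset
open scoped ArithmeticFunction.vonMangoldt
open Pool.Agent.LibPNT (psiAP psiAP_tendsto psiAP_nonneg psiAP_le)

private theorem cm4_D0_pos (b : ℕ) (hb : 2 ≤ b) : 0 < D0 b := by
  unfold D0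
  have : 2 ^ 2 ≤ b ^ 2 := Nat.pow_le_pow_left hb 2
  omega

private theorem cm4_psi_eq (q c X : ℕ) :
    ∑ n ∈ (range X).filter (fun n => n ≡ c [MOD q]), Λ n =
      psiAP ((c : ℕ) : ZMod q) ((X - 1 : ℕ) : ℝ) := by
  unfold psiAP
  rw [Nat.floor_natCast, Finset.sum_filter]
  have e : ∀ n : ℕ, ArithmeticFunction.vonMangoldt.residueClass ((c : ℕ) : ZMod q) n =
      if n ≡ c [MOD q] then Λ n else 0 := by
    intro n
    unfold ArithmeticFunction.vonMangoldt.residueClass
    by_cases h : n ≡ c [MOD q]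
    · rw [if_pos h, Set.indicator_of_mem]
      exact (ZMod.natCast_eq_natCast_iff _ _ _).mpr h
    · rw [if_neg h, Set.indicator_of_notMem]
      intro h2
      exact h ((ZMod.natCast_eq_natCast_iff _ _ _).mp h2)
  rw [Finset.sum_congr rfl fun n _ => e n]
  symm
  refine Finset.sum_subset ?_ ?_
  · intro n hn
    rw [Finset.mem_Icc] at hn
    rw [Finset.mem_range]
    omega
  · intro n hn hn'
    rw [Finset.mem_range] at hn
    rw [Finset.mem_Icc] at hn'
    have : n = 0 := by omega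
    subst this
    simp

private theorem cm4_psi_bd (q : ℕ) (hq : 0 < q) (ε : ℝ) (hε : 0 < ε) : ∃ C : ℝ, 0 ≤ C ∧ ∀ (c : ℕ), c.Coprime q →
    ∀ x : ℝ, 0 ≤ x → |psiAP ((c : ℕ) : ZMod q) x - (q.totient : ℝ)⁻¹ * x| ≤ ε * x + C := by
  have : NeZero q := ⟨hq.ne'⟩
  have hφ : (0 : ℝ) < (q.totient : ℝ) := by exact_mod_cast Nat.totient_pos.mpr hq
  have hev : ∀ᶠ x : ℝ in Filter.atTop, ∀ a : ZMod q, IsUnit a → |psiAP a x / x - (q.totient : ℝ)⁻¹| < ε := by
    refine Filter.eventually_all.mpr fun a => ?_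
    by_cases ha : IsUnit a
    · have h1 := (psiAP_tendsto ha).eventually (Metric.ball_mem_nhds _ hε)
      filter_upwards [h1] with x hx _
      rw [Real.dist_eq] at hx
      exact hx
    · exact Filter.Eventually.of_forall fun x h => absurd h ha
  obtain ⟨X1, hX1⟩ := Filter.eventually_atTop.mp hev
  set X0 : ℝ := max X1 1 with hX0
  have hX01 : 1 ≤ X0 := le_max_right _ _
  have hlog : 0 ≤ Real.log 4 := Real.log_nonneg (by norm_num)
  refine ⟨(Real.log 4 + 4) * X0 + (q.totient : ℝ)⁻¹ * X0, by positivity, ?_⟩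
  intro c hc x hx
  have ha : IsUnit ((c : ℕ) : ZMod q) := (ZMod.isUnit_iff_coprime c q).mpr hc
  by_cases hxX : X0 ≤ x
  · have h1 := hX1 x (le_trans (le_max_left _ _) hxX) _ ha
    have hxpos : 0 < x := by linarith
    have h2 : psiAP ((c : ℕ) : ZMod q) x - (q.totient : ℝ)⁻¹ * x =
        (psiAP ((c : ℕ) : ZMod q) x / x - (q.totient : ℝ)⁻¹) * x := by
      field_simp
    rw [h2, abs_mul, abs_of_pos hxpos]
    have h3 : |psiAP ((c : ℕ) : ZMod q) x / x - (q.totient : ℝ)⁻¹| * x ≤ ε * x :=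
      mul_le_mul_of_nonneg_right h1.le hxpos.le
    have h4 : 0 ≤ (Real.log 4 + 4) * X0 + (q.totient : ℝ)⁻¹ * X0 := by positivity
    linarith
  · have hxX' : x ≤ X0 := (not_le.mp hxX).le
    have h1 := psiAP_nonneg ((c : ℕ) : ZMod q) x
    have h2 := psiAP_le ((c : ℕ) : ZMod q) hx
    have h3 : (Real.log 4 + 4) * x ≤ (Real.log 4 + 4) * X0 := mul_le_mul_of_nonneg_left hxX' (by positivity)
    have h4 : (q.totient : ℝ)⁻¹ * x ≤ (q.totient : ℝ)⁻¹ * X0 := mul_le_mul_of_nonneg_left hxX' (by positivity)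
    have h5 : 0 ≤ (q.totient : ℝ)⁻¹ * x := by positivity
    have h6 : 0 ≤ ε * x := by positivity
    rw [abs_le]
    constructor
    · have h7 : 0 ≤ (Real.log 4 + 4) * X0 := by positivity
      linarith
    · have h7 : 0 ≤ (q.totient : ℝ)⁻¹ * X0 := by positivity
      linarith

theorem ap_Dl (b : ℕ) (hb : 2 ≤ b) (ε : ℝ) (hε : 0 < ε) : ∃ C : ℝ, ∀ X c : ℕ, c.Coprime (b * D0 b) →
    |∑ n ∈ (range X).filter (fun n => n ≡ c [MOD (b * D0 b)]), Dl b n| ≤ ε * X + C := by
  have hq : 0 < b * D0 b := Nat.mul_pos (by omega) (cm4_D0_pos b hb)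
  have hφ : (0 : ℝ) < ((b * D0 b).totient : ℝ) := by exact_mod_cast Nat.totient_pos.mpr hq
  have hqR : (0 : ℝ) < ((b * D0 b : ℕ) : ℝ) := by exact_mod_cast hq
  obtain ⟨C1, hC1, hpsi⟩ := cm4_psi_bd (b * D0 b) hq ε hε
  refine ⟨C1 + ((b * D0 b).totient : ℝ)⁻¹ + kap b, ?_⟩
  intro X c hc
  set q : ℕ := b * D0 b with hqdef
  have hkap : kap b = (q : ℝ) * (q.totient : ℝ)⁻¹ := by
    unfold kap
    rw [← hqdef, div_eq_mul_inv]
  have hkap0 : 0 < kap b := by
    rw [hkap]
    positivity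
  -- split
  have e1 : ∑ n ∈ (range X).filter (fun n => n ≡ c [MOD q]), Dl b n =
      ∑ n ∈ (range X).filter (fun n => n ≡ c [MOD q]), Λ n -
        kap b * (((range X).filter (fun n => n ≡ c [MOD q])).card : ℝ) := by
    unfold Dl
    rw [Finset.sum_sub_distrib]
    congr 1
    have e2 : ∀ n ∈ (range X).filter (fun n => n ≡ c [MOD q]), LamS b n = kap b := by
      intro n hn
      have h1 := (Finset.mem_filter.1 hn).2
      have h2 : n.Coprime (b * D0 b) := by
        have h3 : Nat.gcd n q = Nat.gcd c q := h1.gcd_eq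
        unfold Nat.Coprime
        rw [← hqdef, h3]
        exact hc
      unfold LamS
      rw [if_pos h2]
    rw [Finset.sum_congr rfl e2, Finset.sum_const, nsmul_eq_mul, mul_comm]
  rw [e1, cm4_psi_eq q c X]
  have h1 := hpsi c hc ((X - 1 : ℕ) : ℝ) (Nat.cast_nonneg _)
  have hcard : |(((range X).filter (fun n => n ≡ c [MOD q])).card : ℝ) - X / q| ≤ 1 := by
    have h2 := Nat.count_modEq_card X hq c
    rw [Nat.count_eq_card_filter_range] at h2
    rw [h2]
    have h3 : ((X / q : ℕ) : ℝ) ≤ (X : ℝ) / q := Nat.cast_div_le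
    have h4 : (X : ℝ) / q < ((X / q : ℕ) : ℝ) + 1 := by
      rw [div_lt_iff₀ hqR]
      have h5 : X < (X / q + 1) * q := by
        have := Nat.div_add_mod X q
        have h6 := Nat.mod_lt X hq
        nlinarith
      exact_mod_cast h5
    push_cast
    rw [abs_le]
    split_ifs <;> constructor <;> push_cast <;> linarith
  have h2 : |(X : ℝ) * (q.totient : ℝ)⁻¹ - kap b * (((range X).filter (fun n => n ≡ c [MOD q])).card : ℝ)| ≤ kap b := by
    have e3 : (X : ℝ) * (q.totient : ℝ)⁻¹ = kap b * (X / q) := by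
      rw [hkap]
      field_simp
    rw [e3, ← mul_sub, abs_mul, abs_of_pos hkap0, abs_sub_comm]
    nlinarith
  have h3 : |(q.totient : ℝ)⁻¹ * ((X - 1 : ℕ) : ℝ) - (X : ℝ) * (q.totient : ℝ)⁻¹| ≤ (q.totient : ℝ)⁻¹ := by
    have e4 : (q.totient : ℝ)⁻¹ * ((X - 1 : ℕ) : ℝ) - (X : ℝ) * (q.totient : ℝ)⁻¹ =
        (q.totient : ℝ)⁻¹ * (((X - 1 : ℕ) : ℝ) - X) := by ring
    rw [e4, abs_mul, abs_of_pos (inv_pos.mpr hφ)]
    have h5 : |((X - 1 : ℕ) : ℝ) - X| ≤ 1 := by
      rcases Nat.eq_zero_or_pos X with h0 | h0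
      · subst h0
        simp
      · rw [Nat.cast_sub h0]
        push_cast
        rw [abs_le]
        constructor <;> linarith
    have h6 : 0 ≤ (q.totient : ℝ)⁻¹ := by positivity
    nlinarith
  have h4 : ((X - 1 : ℕ) : ℝ) ≤ X := by exact_mod_cast Nat.sub_le X 1
  have h5 : ε * ((X - 1 : ℕ) : ℝ) ≤ ε * X := mul_le_mul_of_nonneg_left h4 hε.le
  rw [abs_le] at h1 h2 h3 ⊢
  constructor
  · linarith [h1.1, h2.1, h3.1]
  · linarith [h1.2, h2.2, h3.2]

private theorem cm4_crt (m n : ℕ) (hm : 0 < m) (hn : 0 < n) (h : m.Coprime n) (u v : ℤ) :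
    ∃ c : ℕ, (c : ℤ) ≡ u [ZMOD (m : ℤ)] ∧ (c : ℤ) ≡ v [ZMOD (n : ℤ)] := by
  obtain ⟨k, h1, h2⟩ := Nat.chineseRemainder h (u % m).toNat (v % n).toNat
  have hmZ : (m : ℤ) ≠ 0 := by exact_mod_cast hm.ne'
  have hnZ : (n : ℤ) ≠ 0 := by exact_mod_cast hn.ne'
  refine ⟨k, ?_, ?_⟩
  · have h3 := (Int.natCast_modEq_iff).mpr h1
    rw [Int.toNat_of_nonneg (Int.emod_nonneg _ hmZ)] at h3
    exact h3.trans (Int.mod_modEq _ _)
  · have h3 := (Int.natCast_modEq_iff).mpr h2
    rw [Int.toNat_of_nonneg (Int.emod_nonneg _ hnZ)] at h3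
    exact h3.trans (Int.mod_modEq _ _)

private theorem cm4_cop {a a' m : ℤ} (h : IsCoprime a m) (h2 : a' ≡ a [ZMOD m]) : IsCoprime a' m := by
  obtain ⟨t, ht⟩ := (Int.modEq_iff_dvd.mp h2.symm)
  have e2 : a' = a + m * t := by linarith
  rw [e2]
  exact (IsCoprime.add_mul_left_left_iff).mpr h

private theorem cm4_copbD (b : ℕ) (hb : 2 ≤ b) : b.Coprime (D0 b) := by
  unfold D0
  have h1 : 1 ≤ b ^ 2 := Nat.one_le_pow _ _ (by omega)
  have h2 : (b ^ 2 - 1).Coprime (b ^ 2) := by
    have h3 : (b ^ 2 - 1).Coprime ((b ^ 2 - 1) + 1) := by simp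
    have e : (b ^ 2 - 1) + 1 = b ^ 2 := by omega
    rwa [e] at h3
  exact (Nat.Coprime.coprime_dvd_right (dvd_pow_self b (by norm_num)) h2).symm

/-- the class of `n` -/
private theorem cm4_class (b L l r N : ℕ) (hb : 2 ≤ b) (hg : Good b L l r N) : ∃ c : ℕ, c.Coprime (b * D0 b) ∧
    ∀ n : ℕ, n ≡ c [MOD (b * D0 b)] ↔
      ((N : ℤ) - n ≡ l [ZMOD (b : ℤ)] ∧ (N : ℤ) - n ≡ (b : ℤ) ^ (L - 1) * r [ZMOD (D0 b : ℤ)]) := by
  obtain ⟨_, _, _, _, _, hNl, _, hNr⟩ := hg
  have hcop := cm4_copbD b hb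
  obtain ⟨c, hc1, hc2⟩ := cm4_crt b (D0 b) (by omega) (cm4_D0_pos b hb) hcop ((N : ℤ) - l)
    ((N : ℤ) - (b : ℤ) ^ (L - 1) * r)
  refine ⟨c, ?_, ?_⟩
  · have c1 := cm4_cop hNl hc1
    have c2 := cm4_cop hNr hc2
    have c3 := c1.mul_right c2
    apply Nat.isCoprime_iff_coprime.mp
    push_cast
    exact c3
  · intro n
    rw [← Nat.modEq_and_modEq_iff_modEq_mul hcop, ← Int.natCast_modEq_iff, ← Int.natCast_modEq_iff]
    constructor
    · rintro ⟨h1, h2⟩
      constructor
      · have h3 := (Int.ModEq.refl (N : ℤ)).sub (h1.trans hc1)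
        rwa [sub_sub_cancel] at h3
      · have h3 := (Int.ModEq.refl (N : ℤ)).sub (h2.trans hc2)
        rwa [sub_sub_cancel] at h3
    · rintro ⟨h1, h2⟩
      constructor
      · have h3 := (Int.ModEq.refl (N : ℤ)).sub h1
        rw [sub_sub_cancel] at h3
        exact h3.trans hc1.symm
      · have h3 := (Int.ModEq.refl (N : ℤ)).sub h2
        rw [sub_sub_cancel] at h3
        exact h3.trans hc2.symm

private theorem cm4_main (b L l r N c : ℕ) (hb : 2 ≤ b) (hL : 1 ≤ L) (hg : Good b L l r N) (ε C : ℝ) (hε : 0 ≤ ε)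
    (hC : 0 ≤ C) (hap : ∀ X : ℕ, |∑ n ∈ (range X).filter (fun n => n ≡ c [MOD (b * D0 b)]), Dl b n| ≤ ε * X + C) :
    |∑ n ∈ (range (XX b L)).filter (fun n => n ≡ c [MOD (b * D0 b)] ∧ n ≤ N ∧ (N - n) / b ^ (L - 1) < b ∧
      ((N - n) / b ^ (L - 1)).Coprime b), Dl b n| ≤ b * (2 * ε * (b : ℝ) ^ (L + 2) + 2 * C) := by
  have hN1 : b ^ (L + 1) ≤ N := hg.1
  have hN2 : N < b ^ (L + 2) := hg.2.1
  set B : ℕ := b ^ (L - 1) with hB
  have hBpos : 0 < B := pow_pos (by omega) _
  have hbL : b ^ L = b * B := by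
    rw [hB, ← pow_succ']
    congr 1
    omega
  have hbL1 : b ^ L ≤ b ^ (L + 1) := Nat.pow_le_pow_right (by omega) (by omega)
  have hXX : b ^ (L + 2) ≤ XX b L := Nat.pow_le_pow_right (by omega) (by omega)
  set F := (range (XX b L)).filter (fun n => n ≡ c [MOD (b * D0 b)] ∧ n ≤ N ∧ (N - n) / B < b ∧
      ((N - n) / B).Coprime b) with hF
  have hmaps : ∀ n ∈ F, (N - n) / B ∈ range b := by
    intro n hn
    rw [Finset.mem_range]
    exact (Finset.mem_filter.1 hn).2.2.2.1
  rw [← Finset.sum_fiberwise_of_maps_to hmaps]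
  refine (Finset.abs_sum_le_sum_abs _ _).trans ?_
  have hterm : ∀ a ∈ range b, |∑ n ∈ F with (N - n) / B = a, Dl b n| ≤ 2 * ε * (b : ℝ) ^ (L + 2) + 2 * C := by
    intro a ha
    rw [Finset.mem_range] at ha
    have hRHS : 0 ≤ 2 * ε * (b : ℝ) ^ (L + 2) + 2 * C := by positivity
    by_cases hac : a.Coprime b
    · have h1 : (a + 1) * B ≤ b * B := Nat.mul_le_mul_right _ ha
      have h2 : (a + 1) * B = a * B + B := by ring
      have hset : (F.filter fun n => (N - n) / B = a) =
          (Ico (N - (a + 1) * B + 1) (N - a * B + 1)).filter (fun n => n ≡ c [MOD (b * D0 b)]) := by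
        ext n
        rw [hF, Finset.mem_filter, Finset.mem_filter, Finset.mem_filter, Finset.mem_Ico, Finset.mem_range]
        constructor
        · rintro ⟨⟨_, h3, h4, _, _⟩, h5⟩
          rw [Nat.div_eq_iff hBpos] at h5
          refine ⟨⟨?_, ?_⟩, h3⟩ <;> omega
        · rintro ⟨⟨h3, h4⟩, h5⟩
          have h6 : (N - n) / B = a := by
            rw [Nat.div_eq_iff hBpos]
            omega
          refine ⟨⟨?_, h5, ?_, ?_, ?_⟩, h6⟩
          · omega
          · omega
          · rw [h6]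
            exact ha
          · rw [h6]
            exact hac
      rw [hset, Finset.sum_filter, Finset.sum_Ico_eq_sub _ (by omega), ← Finset.sum_filter, ← Finset.sum_filter]
      have h3 := hap (N - a * B + 1)
      have h4 := hap (N - (a + 1) * B + 1)
      have h5 : ((N - a * B + 1 : ℕ) : ℝ) ≤ (b : ℝ) ^ (L + 2) := by
        have : N - a * B + 1 ≤ b ^ (L + 2) := by omega
        exact_mod_cast this
      have h6 : ((N - (a + 1) * B + 1 : ℕ) : ℝ) ≤ (b : ℝ) ^ (L + 2) := by
        have : N - (a + 1) * B + 1 ≤ b ^ (L + 2) := by omega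
        exact_mod_cast this
      have h7 := mul_le_mul_of_nonneg_left h5 hε
      have h8 := mul_le_mul_of_nonneg_left h6 hε
      rw [abs_le] at h3 h4 ⊢
      constructor
      · linarith [h3.1, h4.2]
      · linarith [h3.2, h4.1]
    · have hset : (F.filter fun n => (N - n) / B = a) = ∅ := by
        rw [Finset.filter_eq_empty_iff]
        intro n hn h5
        apply hac
        rw [← h5]
        exact (Finset.mem_filter.1 hn).2.2.2.2
      rw [hset, Finset.sum_empty, abs_zero]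
      exact hRHS
  refine (Finset.sum_le_sum hterm).trans ?_
  rw [Finset.sum_const, nsmul_eq_mul, Finset.card_range]

private theorem cm4_growth (K : ℝ) (hK : 0 < K) : ∃ J0 : ℕ, ∀ J : ℕ, J0 ≤ J → K * ((J : ℝ) + 1) ≤ 2 ^ J := by
  have h1 := tendsto_pow_const_div_const_pow_of_one_lt 1 (one_lt_two : (1 : ℝ) < 2)
  have h2 : ∀ᶠ n : ℕ in Filter.atTop, (n : ℝ) ^ 1 / 2 ^ n < 1 / (2 * K) :=
    h1.eventually (gt_mem_nhds (by positivity))
  obtain ⟨J0, hJ0⟩ := Filter.eventually_atTop.mp h2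
  refine ⟨max J0 1, fun J hJ => ?_⟩
  have h3 := hJ0 J (le_trans (le_max_left _ _) hJ)
  have h4 : (1 : ℝ) ≤ J := by exact_mod_cast le_trans (le_max_right _ _) hJ
  rw [pow_one, div_lt_div_iff₀ (by positivity) (by positivity)] at h3
  nlinarith

theorem VV_small (b : ℕ) (hb : 2 ≤ b) : ∃ A₀ : ℕ, ∀ A : ℕ, A₀ ≤ A → ∀ ε : ℝ, 0 < ε → ∃ L₀ : ℕ, ∀ L : ℕ, L₀ ≤ L →
    ∀ l r N : ℕ, Good b L l r N →
      |∑ n ∈ range (XX b L), Dl b n * Wn b L (L / A) N l r n| ≤ ε * (b : ℝ) ^ L := by
  refine ⟨1000, fun A hA ε hε => ?_⟩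
  obtain ⟨C1, hC1, hDl⟩ := Dl_le b hb
  have hbR : (0 : ℝ) < (b : ℝ) := by
    have : 0 < b := by omega
    exact_mod_cast this
  have hbR2 : (2 : ℝ) ≤ (b : ℝ) := by exact_mod_cast hb
  have hDR : (0 : ℝ) < (D0 b : ℝ) := by exact_mod_cast cm4_D0_pos b hb
  have hAR : (0 : ℝ) < (A : ℝ) := by
    have : 0 < A := by omega
    exact_mod_cast this
  set ε' : ℝ := ε / (8 * (b : ℝ) ^ 3) with hε'
  have hε'pos : 0 < ε' := by positivity
  obtain ⟨C0, hC0⟩ := ap_Dl b hb ε' hε'pos
  set C2 : ℝ := max C0 0 with hC2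
  have hC20 : 0 ≤ C2 := le_max_right _ _
  set K : ℝ := 4 * ((b : ℝ) + 1) * D0 b * C1 * A / ε with hK
  have hKpos : 0 < K := by positivity
  obtain ⟨J0, hJ0⟩ := cm4_growth K hKpos
  refine ⟨max (A * (J0 + 3)) ⌈8 * b * C2 / ε⌉₊, ?_⟩
  intro L hL l r N hg
  have hL1 : A * (J0 + 3) ≤ L := le_trans (le_max_left _ _) hL
  have hL2 : 8 * b * C2 / ε ≤ L := (Nat.le_ceil _).trans (by exact_mod_cast le_trans (le_max_right _ _) hL)
  set J : ℕ := L / A with hJdef
  have hJ3 : J0 + 3 ≤ J := by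
    rw [hJdef, Nat.le_div_iff_mul_le (by omega)]
    linarith
  have hAJ : A * J ≤ L := Nat.mul_div_le L A
  have hLJ : 1000 * J ≤ L := le_trans (Nat.mul_le_mul_right _ hA) hAJ
  have hLA : L < A * (J + 1) := by
    have h1 := Nat.div_add_mod L A
    have h2 := Nat.mod_lt L (show 0 < A by omega)
    rw [← hJdef] at h1
    nlinarith
  have hAdm : Adm b L J := by
    refine ⟨hb, by omega, ?_, hLJ⟩
    have h1 : b ^ 3 ≤ b ^ J := Nat.pow_le_pow_right (by omega) (by omega)
    have h2 : 2 * b ^ 2 ≤ b ^ 3 := by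
      have : b ^ 3 = b * b ^ 2 := by ring
      rw [this]
      exact Nat.mul_le_mul_right _ hb
    have h3 : D0 b ≤ b ^ 2 := Nat.sub_le _ _
    omega
  have hLpos : 1 ≤ L := by omega
  obtain ⟨c, hc, hclass⟩ := cm4_class b L l r N hb hg
  have hap : ∀ X : ℕ, |∑ n ∈ (range X).filter (fun n => n ≡ c [MOD (b * D0 b)]), Dl b n| ≤ ε' * X + C2 := by
    intro X
    exact (hC0 X c hc).trans (by linarith [le_max_left C0 0])
  have hmain := cm4_main b L l r N c hb hLpos hg ε' C2 hε'pos.le hC20 hap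
  set B : ℕ := b ^ (L - 1) with hB
  have hBpos : 0 < B := pow_pos (by omega) _
  classical
  set I : ℕ → ℝ := fun n => if (n ≡ c [MOD (b * D0 b)] ∧ n ≤ N ∧ (N - n) / B < b ∧
      ((N - n) / B).Coprime b) then 1 else 0 with hI
  have hI01 : ∀ n, 0 ≤ I n ∧ I n ≤ 1 := by
    intro n
    simp only [hI]
    split_ifs <;> norm_num
  set Hn : ℕ := QQ b J * HH b L J with hHn
  have hHr : Hr b L J = (Hn : ℝ) := by
    rw [hHn]
    push_cast
    rfl
  set Ex : Finset ℕ := (range (b + 1)).biUnion (fun a : ℕ => (range (XX b L)).filter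
    (fun n : ℕ => |(N : ℤ) - n - a * B| < Hn)) with hEx
  have hExcard : (Ex.card : ℝ) ≤ (b + 1) * (2 * Hn) := by
    have h1 : Ex.card ≤ (range (b + 1)).card * (2 * Hn) := by
      refine Finset.card_biUnion_le_card_mul _ _ _ fun a _ => ?_
      have h2 : ((range (XX b L)).filter (fun n : ℕ => |(N : ℤ) - n - a * B| < Hn)).card ≤
          (Finset.Ioo ((N : ℤ) - a * B - Hn) ((N : ℤ) - a * B + Hn)).card := by
        refine Finset.card_le_card_of_injOn (fun n : ℕ => (n : ℤ)) ?_ ?_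
        · intro n hn
          have h3 := (Finset.mem_filter.1 hn).2
          rw [abs_lt] at h3
          rw [Finset.mem_coe, Finset.mem_Ioo]
          constructor <;> linarith [h3.1, h3.2]
        · intro x _ y _ hxy
          exact Int.ofNat_inj.mp hxy
      rw [Int.card_Ioo] at h2
      omega
    rw [Finset.card_range] at h1
    exact_mod_cast h1
  have hWI : ∀ n ∈ range (XX b L), n ∉ Ex → Wn b L J N l r n = I n := by
    intro n hn hnE
    have hstr := W_struct b L J N l r hAdm hg n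
    obtain ⟨_, _, s3, s4, s5⟩ := hstr
    have hfar : ∀ a : ℕ, a ≤ b → (Hn : ℤ) ≤ |(N : ℤ) - n - a * B| := by
      intro a ha
      by_contra hcon
      apply hnE
      rw [hEx, Finset.mem_biUnion]
      exact ⟨a, Finset.mem_range.mpr (by omega), Finset.mem_filter.mpr ⟨hn, not_le.mp hcon⟩⟩
    by_cases hP : n ≡ c [MOD (b * D0 b)]
    · have hP' := (hclass n).mp hP
      by_cases hQ : n ≤ N ∧ (N - n) / B < b ∧ ((N - n) / B).Coprime b
      · have hIn : I n = 1 := by
          simp only [hI]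
          rw [if_pos ⟨hP, hQ⟩]
        rw [hIn]
        obtain ⟨q1, q2, q3⟩ := hQ
        have hd : (N - n) / B = (N - n) / B := rfl
        rw [Nat.div_eq_iff hBpos] at hd
        set a : ℕ := (N - n) / B with hadef
        have e1 : (a + 1) * B = a * B + B := by ring
        have g1 : a * B ≤ N - n := by omega
        have g2 : N - n < (a + 1) * B := by omega
        have f1 := hfar a (by omega)
        have f2 := hfar (a + 1) (by omega)
        have g1' : ((a : ℤ) * B) ≤ (N : ℤ) - n := by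
          have : ((a * B : ℕ) : ℤ) ≤ ((N - n : ℕ) : ℤ) := by exact_mod_cast g1
          rw [Nat.cast_sub q1] at this
          push_cast at this
          exact this
        have g2' : (N : ℤ) - n < ((a : ℤ) + 1) * B := by
          have : ((N - n : ℕ) : ℤ) < (((a + 1) * B : ℕ) : ℤ) := by exact_mod_cast g2
          rw [Nat.cast_sub q1] at this
          push_cast at this
          exact this
        rw [abs_of_nonneg (by linarith)] at f1
        push_cast at f2
        rw [abs_of_neg (by linarith)] at f2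
        have f1' : (a : ℝ) * (b : ℝ) ^ (L - 1) + Hr b L J ≤ (N : ℝ) - n := by
          rw [hHr]
          have h3 : ((a : ℤ) * B + Hn) ≤ (N : ℤ) - n := by linarith
          have h4 : (((a : ℤ) * B + Hn : ℤ) : ℝ) ≤ (((N : ℤ) - n : ℤ) : ℝ) := by exact_mod_cast h3
          rw [hB] at h4
          push_cast at h4
          exact h4
        have f2' : (N : ℝ) - n ≤ ((a : ℝ) + 1) * (b : ℝ) ^ (L - 1) - Hr b L J := by
          rw [hHr]
          have h3 : (N : ℤ) - n ≤ ((a : ℤ) + 1) * B - Hn := by linarith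
          have h4 : (((N : ℤ) - n : ℤ) : ℝ) ≤ ((((a : ℤ) + 1) * B - Hn : ℤ) : ℝ) := by exact_mod_cast h3
          rw [hB] at h4
          push_cast at h4
          exact h4
        exact s4 hP' a q2 q3 f1' f2'
      · have hIn : I n = 0 := by
          simp only [hI]
          rw [if_neg]
          rintro ⟨_, h2⟩
          exact hQ h2
        rw [hIn]
        refine s5 fun a hab hac => ?_
        have hout : (N : ℤ) - n < (a : ℤ) * B ∨ ((a : ℤ) + 1) * B ≤ (N : ℤ) - n := by
          by_contra hcon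
          push Not at hcon
          obtain ⟨h1, h2⟩ := hcon
          apply hQ
          have h0 : (0 : ℤ) ≤ (a : ℤ) * B := by positivity
          have hnN : n ≤ N := by
            have : (n : ℤ) ≤ N := by linarith
            exact_mod_cast this
          have e1 : (a + 1) * B = a * B + B := by ring
          have h3 : (N - n) / B = a := by
            rw [Nat.div_eq_iff hBpos]
            have g1 : a * B ≤ N - n := by
              have : ((a * B : ℕ) : ℤ) ≤ ((N - n : ℕ) : ℤ) := by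
                rw [Nat.cast_sub hnN]
                push_cast
                exact h1
              exact_mod_cast this
            have g2 : N - n < (a + 1) * B := by
              have : ((N - n : ℕ) : ℤ) < (((a + 1) * B : ℕ) : ℤ) := by
                rw [Nat.cast_sub hnN]
                push_cast
                exact h2
              exact_mod_cast this
            omega
          refine ⟨hnN, ?_, ?_⟩
          · rw [h3]
            exact hab
          · rw [h3]
            exact hac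
        rcases hout with ho | ho
        · left
          have f1 := hfar a (by omega)
          rw [abs_of_neg (by linarith)] at f1
          rw [hHr]
          have h3 : (N : ℤ) - n ≤ (a : ℤ) * B - Hn := by linarith
          have h4 : (((N : ℤ) - n : ℤ) : ℝ) ≤ (((a : ℤ) * B - Hn : ℤ) : ℝ) := by exact_mod_cast h3
          rw [hB] at h4
          push_cast at h4
          exact h4
        · right
          have f1 := hfar (a + 1) (by omega)
          push_cast at f1
          rw [abs_of_nonneg (by linarith)] at f1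
          rw [hHr]
          have h3 : ((a : ℤ) + 1) * B + Hn ≤ (N : ℤ) - n := by linarith
          have h4 : ((((a : ℤ) + 1) * B + Hn : ℤ) : ℝ) ≤ (((N : ℤ) - n : ℤ) : ℝ) := by exact_mod_cast h3
          rw [hB] at h4
          push_cast at h4
          exact h4
    · have hIn : I n = 0 := by
        simp only [hI]
        rw [if_neg]
        rintro ⟨h1, _⟩
        exact hP h1
      rw [hIn]
      exact s3 fun hh => hP ((hclass n).mpr hh)
  -- decomposition
  have hdec : ∑ n ∈ range (XX b L), Dl b n * Wn b L J N l r n =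
      ∑ n ∈ range (XX b L), Dl b n * I n + ∑ n ∈ range (XX b L), Dl b n * (Wn b L J N l r n - I n) := by
    rw [← Finset.sum_add_distrib]
    exact Finset.sum_congr rfl fun n _ => by ring
  have hfirst : ∑ n ∈ range (XX b L), Dl b n * I n =
      ∑ n ∈ (range (XX b L)).filter (fun n => n ≡ c [MOD (b * D0 b)] ∧ n ≤ N ∧ (N - n) / B < b ∧
      ((N - n) / B).Coprime b), Dl b n := by
    rw [Finset.sum_filter]
    refine Finset.sum_congr rfl fun n _ => ?_
    simp only [hI]
    rw [mul_ite, mul_one, mul_zero]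
  have hsecond : |∑ n ∈ range (XX b L), Dl b n * (Wn b L J N l r n - I n)| ≤
      ((b + 1) * (2 * Hn)) * (C1 * L) := by
    have h1 : ∑ n ∈ range (XX b L), Dl b n * (Wn b L J N l r n - I n) =
        ∑ n ∈ Ex, Dl b n * (Wn b L J N l r n - I n) := by
      symm
      refine Finset.sum_subset ?_ ?_
      · intro n hn
        rw [hEx, Finset.mem_biUnion] at hn
        obtain ⟨a, _, ha⟩ := hn
        exact (Finset.mem_filter.1 ha).1
      · intro n hn hnE
        rw [hWI n hn hnE, sub_self, mul_zero]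
    rw [h1]
    refine (Finset.abs_sum_le_sum_abs _ _).trans ?_
    have h2 : ∀ n ∈ Ex, |Dl b n * (Wn b L J N l r n - I n)| ≤ C1 * L := by
      intro n hn
      rw [hEx, Finset.mem_biUnion] at hn
      obtain ⟨a, _, ha⟩ := hn
      have hnX := Finset.mem_range.1 (Finset.mem_filter.1 ha).1
      have h3 := hDl L n hLpos hnX
      obtain ⟨s1, s2, _, _, _⟩ := W_struct b L J N l r hAdm hg n
      have h4 := hI01 n
      have h5 : |Wn b L J N l r n - I n| ≤ 1 := by
        rw [abs_le]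
        constructor <;> linarith [h4.1, h4.2]
      rw [abs_mul]
      calc |Dl b n| * |Wn b L J N l r n - I n| ≤ (C1 * L) * 1 :=
            mul_le_mul h3 h5 (abs_nonneg _) (by positivity)
        _ = C1 * L := mul_one _
    refine (Finset.sum_le_sum h2).trans ?_
    rw [Finset.sum_const, nsmul_eq_mul]
    exact mul_le_mul_of_nonneg_right hExcard (by positivity)
  rw [hdec]
  refine (abs_add_le _ _).trans ?_
  rw [hfirst]
  -- sizes
  have hbLpos : (0 : ℝ) < (b : ℝ) ^ L := by positivity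
  have hb1 : (b : ℝ) * (2 * ε' * (b : ℝ) ^ (L + 2) + 2 * C2) ≤ ε / 2 * (b : ℝ) ^ L := by
    have h1 : (b : ℝ) * (2 * ε' * (b : ℝ) ^ (L + 2)) = ε / 4 * (b : ℝ) ^ L := by
      rw [hε', pow_add]
      field_simp
      ring
    have h2 : (b : ℝ) * (2 * C2) ≤ ε / 4 * (b : ℝ) ^ L := by
      have h3 : (L : ℝ) ≤ (b : ℝ) ^ L := by
        have : L ≤ b ^ L := (Nat.lt_pow_self (by omega)).le
        exact_mod_cast this
      have h4 : 8 * b * C2 / ε ≤ (b : ℝ) ^ L := hL2.trans h3
      rw [div_le_iff₀ hε] at h4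
      linarith
    rw [mul_add, h1]
    linarith
  have hb2 : ((b : ℝ) + 1) * (2 * Hn) * (C1 * L) ≤ ε / 2 * (b : ℝ) ^ L := by
    have h1 : (Hn : ℝ) = D0 b * (b : ℝ) ^ (L - J) := by
      have : Hn = D0 b * b ^ (L - J) := by
        rw [hHn]
        unfold QQ HH
        rw [mul_assoc, ← pow_add]
        congr 2
        omega
      rw [this]
      push_cast
      rfl
    have h2 : (b : ℝ) ^ L = (b : ℝ) ^ J * (b : ℝ) ^ (L - J) := by
      rw [← pow_add]
      congr 1
      omega
    have h3 : K * ((J : ℝ) + 1) ≤ (b : ℝ) ^ J :=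
      (hJ0 J (by omega)).trans (pow_le_pow_left₀ (by norm_num) hbR2 J)
    have h4 : (L : ℝ) ≤ A * ((J : ℝ) + 1) := by exact_mod_cast hLA.le
    have h5 : K / A * L ≤ (b : ℝ) ^ J := by
      refine le_trans ?_ h3
      have : K / A * L ≤ K / A * (A * ((J : ℝ) + 1)) := mul_le_mul_of_nonneg_left h4 (by positivity)
      refine this.trans (le_of_eq ?_)
      field_simp
    have h6 : K / A = 4 * ((b : ℝ) + 1) * D0 b * C1 / ε := by
      rw [hK]
      field_simp
    rw [h6, div_mul_eq_mul_div, div_le_iff₀ hε] at h5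
    rw [h1, h2]
    have hp : (0 : ℝ) < (b : ℝ) ^ (L - J) := by positivity
    have h7 := mul_le_mul_of_nonneg_right h5 hp.le
    nlinarith
  calc _ ≤ (b : ℝ) * (2 * ε' * (b : ℝ) ^ (L + 2) + 2 * C2) + ((b : ℝ) + 1) * (2 * Hn) * (C1 * L) :=
        add_le_add hmain hsecond
    _ ≤ ε / 2 * (b : ℝ) ^ L + ε / 2 * (b : ℝ) ^ L := add_le_add hb1 hb2
    _ = ε * (b : ℝ) ^ L := by ring

end Pool.Agent.LibHG31
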