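import Pool.Agent.LibHG31.CE3
import Pool.Agent.LibHG31.CM1
import Pool.Agent.LibHG31.CM4

/-! Assembly of block C. -/

namespace Pool.Agent.LibHG31

open Finset Complex
open scoped ArithmeticFunction.vonMangoldt

theorem kap_pos (b : ℕ) (hb : 2 ≤ b) : 0 < kap b := by
  unfold kap
  have hD : 0 < D0 b := by
    unfold D0
    have : 2 ^ 2 ≤ b ^ 2 := Nat.pow_le_pow_left hb 2
    omega
  have h1 : 0 < b * D0 b := Nat.mul_pos (by omega) hD
  have h2 : 0 < (b * D0 b).totient := Nat.totient_pos.2 h1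
  positivity

theorem LamS_KS (b L l r k : ℕ) (hr : r.Coprime (D0 b)) (hk : k ∈ KS b L l r) : LamS b k = kap b := by
  unfold KS at hk
  rw [Finset.mem_filter] at hk
  obtain ⟨_, h1, h2⟩ := hk
  unfold LamS
  rw [if_pos]
  refine Nat.Coprime.mul_right h1 ?_
  have h3 : Nat.gcd k (D0 b) = Nat.gcd r (D0 b) := Nat.ModEq.gcd_eq h2
  unfold Nat.Coprime at hr ⊢
  rw [h3, hr]

theorem Rrho_zero (b L J l r N : ℕ) :
    (Rrho b L J l r N 0).re = ∑ k ∈ KS b L l r, ∑ n ∈ range (XX b L),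
      Λ k * Λ n * krn b L J ((N : ℤ) - n - rv b L k) := by
  unfold Rrho
  have h1 : ∀ n k : ℕ, ((Λ n * Λ k * krn b L J ((N : ℤ) - n - rv b L k) : ℝ) : ℂ) *
      ee (0 * ((N : ℝ) - n - rv b L k)) =
      ((Λ k * Λ n * krn b L J ((N : ℤ) - n - rv b L k) : ℝ) : ℂ) := by
    intro n k
    rw [zero_mul, ee]
    simp only [mul_zero, Complex.ofReal_zero, zero_mul, Complex.exp_zero, mul_one]
    rw [mul_comm (Λ n)]
  simp_rw [h1]
  rw [Finset.sum_comm]
  simp_rw [← Complex.ofReal_sum]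
  rw [Complex.ofReal_re]

theorem R0_split (b L J l r N : ℕ) (h : Adm b L J) (hg : Good b L l r N) :
    (Rrho b L J l r N 0).re = kap b * ∑ k ∈ KS b L l r, Λ k +
      kap b * ∑ n ∈ range (XX b L), Dl b n * Wn b L J N l r n + EE b L J N l r := by
  rw [Rrho_zero]
  have hr : r.Coprime (D0 b) := hg.2.2.2.2.2.2.1
  have h1 : ∀ k ∈ KS b L l r, ∑ n ∈ range (XX b L), Λ k * Λ n * krn b L J ((N : ℤ) - n - rv b L k) =
      kap b * Λ k + kap b * ∑ n ∈ range (XX b L), Dl b n * krn b L J ((N : ℤ) - n - rv b L k) +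
        ∑ n ∈ range (XX b L), Dl b k * Dl b n * krn b L J ((N : ℤ) - n - rv b L k) := by
    intro k hk
    have h2 := model_mass b L J N l r k h hg hk
    have h3 := LamS_KS b L l r k hr hk
    have h4 : Λ k = kap b + Dl b k := by
      unfold Dl
      rw [h3]
      ring
    have h5 : ∀ n : ℕ, Λ n = LamS b n + Dl b n := by
      intro n
      unfold Dl
      ring
    calc ∑ n ∈ range (XX b L), Λ k * Λ n * krn b L J ((N : ℤ) - n - rv b L k)
        = ∑ n ∈ range (XX b L), (Λ k * (LamS b n * krn b L J ((N : ℤ) - n - rv b L k)) +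
            (kap b * (Dl b n * krn b L J ((N : ℤ) - n - rv b L k)) +
              Dl b k * Dl b n * krn b L J ((N : ℤ) - n - rv b L k))) := by
          refine Finset.sum_congr rfl fun n _ => ?_
          have h6 := h5 n
          have h7 : Λ k * Λ n * krn b L J ((N : ℤ) - n - rv b L k) =
              Λ k * (LamS b n + Dl b n) * krn b L J ((N : ℤ) - n - rv b L k) := by rw [← h6]
          rw [h7]
          have h8 : Λ k * (LamS b n + Dl b n) * krn b L J ((N : ℤ) - n - rv b L k) =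
              Λ k * (LamS b n * krn b L J ((N : ℤ) - n - rv b L k)) +
              Λ k * (Dl b n * krn b L J ((N : ℤ) - n - rv b L k)) := by ring
          rw [h8]
          congr 1
          nth_rewrite 1 [h4]
          ring
      _ = Λ k * ∑ n ∈ range (XX b L), LamS b n * krn b L J ((N : ℤ) - n - rv b L k) +
            (kap b * ∑ n ∈ range (XX b L), Dl b n * krn b L J ((N : ℤ) - n - rv b L k) +
            ∑ n ∈ range (XX b L), Dl b k * Dl b n * krn b L J ((N : ℤ) - n - rv b L k)) := by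
          rw [Finset.sum_add_distrib, Finset.sum_add_distrib, Finset.mul_sum, Finset.mul_sum]
      _ = _ := by rw [h2]; ring
  rw [Finset.sum_congr rfl h1, Finset.sum_add_distrib, Finset.sum_add_distrib, ← Finset.mul_sum,
    ← Finset.mul_sum]
  unfold EE Wn
  congr 2
  congr 1
  rw [Finset.sum_comm]
  refine Finset.sum_congr rfl fun n _ => ?_
  rw [Finset.mul_sum]

theorem adm_of {b L A : ℕ} (hb : 2 ≤ b) (hA : 1000 ≤ A) (hL : 3 * A ≤ L) : Adm b L (L / A) := by
  have h3 : 3 ≤ L / A := by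
    rw [Nat.le_div_iff_mul_le (by omega)]
    exact hL
  refine ⟨hb, by omega, ?_, ?_⟩
  · unfold D0
    calc 2 * (b ^ 2 - 1) ≤ 2 * b ^ 2 := Nat.mul_le_mul_left _ (Nat.sub_le _ _)
      _ ≤ b * b ^ 2 := Nat.mul_le_mul_right _ hb
      _ = b ^ 3 := by ring
      _ ≤ b ^ (L / A) := Nat.pow_le_pow_right (by omega) h3
  · calc 1000 * (L / A) ≤ A * (L / A) := Nat.mul_le_mul_right _ hA
      _ ≤ L := Nat.mul_div_le L A

theorem C_main (b : ℕ) (hb : 2 ≤ b) (h2 : C2Stmt b) (h2p : C2pStmt b) : CStmt b := by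
  obtain ⟨c1, L1, hc1, hmass⟩ := KS_mass b hb
  obtain ⟨A1, hE⟩ := EE_small b hb h2 h2p
  obtain ⟨A2, hV⟩ := VV_small b hb
  have hk := kap_pos b hb
  refine ⟨max (max A1 A2) 1000, kap b * c1 / 2, by positivity, fun A hA => ?_⟩
  have hA1 : A1 ≤ A := le_trans (le_trans (le_max_left _ _) (le_max_left _ _)) hA
  have hA2 : A2 ≤ A := le_trans (le_trans (le_max_right _ _) (le_max_left _ _)) hA
  have hA3 : 1000 ≤ A := le_trans (le_max_right _ _) hA
  obtain ⟨L2, hE2⟩ := hE A hA1 (kap b * c1 / 4) (by positivity)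
  obtain ⟨L3, hV2⟩ := hV A hA2 (c1 / 4) (by positivity)
  refine ⟨max (max L1 L2) (max L3 (3 * A)), fun L hL l r N hg => ?_⟩
  have hL1 : L1 ≤ L := le_trans (le_trans (le_max_left _ _) (le_max_left _ _)) hL
  have hL2 : L2 ≤ L := le_trans (le_trans (le_max_right _ _) (le_max_left _ _)) hL
  have hL3 : L3 ≤ L := le_trans (le_trans (le_max_left _ _) (le_max_right _ _)) hL
  have hL4 : 3 * A ≤ L := le_trans (le_trans (le_max_right _ _) (le_max_right _ _)) hL
  have hadm := adm_of hb hA3 hL4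
  have e1 := hE2 L hL2 l r N hg
  have e2 := hV2 L hL3 l r N hg
  have e3 := hmass L l r hL1 hg.2.2.1 hg.2.2.2.1 hg.2.2.2.2.2.2.1
  rw [R0_split b L (L / A) l r N hadm hg]
  have f1 := (abs_le.1 e1).1
  have f2 := (abs_le.1 e2).1
  have f3 := mul_le_mul_of_nonneg_left f2 hk.le
  have f4 := mul_le_mul_of_nonneg_left e3 hk.le
  have hbL : (0 : ℝ) ≤ (b : ℝ) ^ L := by positivity
  nlinarith

end Pool.Agent.LibHG31
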