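import Pool.Agent.LibHG31.C0
import Pool.Agent.LibH.PNTRem

/-! ROW CG1: the location function attached to the suffix.
Throughout `y = ys ... s` satisfies `N - b^L ≤ y ≤ N` (`rv b M s < b^M` for all `s`), `H = Hr = D0 b^(L-J) ≤ b^L/2`.
PLAN: `Gs v ≠ 0` forces `|y - e^v| < H`, so `b^L/2 ≤ e^v ≤ 2 b^(L+2)` and `|v - xL| ≤ log (2 b²)`: there
`1/gw(v-xL) ≤ C`. Lipschitz: for `v, w` in the range use the product of three Lipschitz factors (`|hh v - hh w| ≤ |v-w|/H²`,
`e^v`, `1/gw`), `H ≥ b^(L-J)`; outside the range `Gs = 0` (take `w` or `v` outside: compare with the endpoint, or prove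
that `Gs` is the product with clipped arguments). `∫‖Gs‖ ≤ (1/min gw) ∫ hh(y - e^v) e^v dv = C ∫ hh = C`
(substitution `z = e^v`, or: `‖Gs‖ ≤ C b^J` on a set `{v : |y - e^v| ≤ H}` of length `≤ C b^(-J)`). -/

namespace Pool.Agent.LibHG31

open Finset Complex MeasureTheory
open Pool.Agent.LibMaier (gw)

theorem CG1_Hr_nonneg (b L J : ℕ) : 0 ≤ Hr b L J := by
  unfold Hr
  positivity

theorem hh_nonneg (b L J : ℕ) (v : ℝ) : 0 ≤ hh b L J v := by
  have h := CG1_Hr_nonneg b L J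
  unfold hh
  positivity

theorem CG1_D0_ge (b : ℕ) (hb : 2 ≤ b) : 3 ≤ D0 b := by
  unfold D0
  have : 2 ^ 2 ≤ b ^ 2 := Nat.pow_le_pow_left hb 2
  omega

theorem Hr_eq (b L J : ℕ) (h : Adm b L J) : Hr b L J = D0 b * (b : ℝ) ^ (L - J) ∧
    (b : ℝ) ^ (L - J) ≤ Hr b L J ∧ Hr b L J ≤ (b : ℝ) ^ L / 2 := by
  obtain ⟨hb, hJ, hD, hL⟩ := h
  have hb0 : (0 : ℝ) < b := by exact_mod_cast (by omega : 0 < b)
  have e1 : Hr b L J = D0 b * (b : ℝ) ^ (L - J) := by
    unfold Hr QQ HH
    push_cast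
    have : L - J = J + (L - 2 * J) := by omega
    rw [this, pow_add]
    ring
  have hD3 : (1 : ℝ) ≤ D0 b := by exact_mod_cast (le_trans (by norm_num) (CG1_D0_ge b hb))
  have hp : (0 : ℝ) < (b : ℝ) ^ (L - J) := pow_pos hb0 _
  refine ⟨e1, ?_, ?_⟩
  · rw [e1]
    exact le_mul_of_one_le_left hp.le hD3
  · rw [e1]
    have h1 : 2 * (D0 b : ℝ) ≤ (b : ℝ) ^ J := by exact_mod_cast hD
    have h2 : (b : ℝ) ^ L = (b : ℝ) ^ J * (b : ℝ) ^ (L - J) := by
      rw [← pow_add]
      congr 1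
      omega
    rw [h2]
    have := mul_le_mul_of_nonneg_right h1 hp.le
    linarith

theorem CG1_Hr_pos (b L J : ℕ) (h : Adm b L J) : 0 < Hr b L J := by
  have hb0 : (0 : ℝ) < b := by exact_mod_cast (by have := h.1; omega : 0 < b)
  exact lt_of_lt_of_le (pow_pos hb0 _) (Hr_eq b L J h).2.1

theorem hh_lip (b L J : ℕ) (h : Adm b L J) (v w : ℝ) : |hh b L J v - hh b L J w| ≤ |v - w| / Hr b L J ^ 2 := by
  have hH := CG1_Hr_pos b L J h
  unfold hh
  rw [← mul_sub, abs_mul, abs_of_pos (one_div_pos.2 hH)]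
  have h1 : |max 0 (1 - |v| / Hr b L J) - max 0 (1 - |w| / Hr b L J)| ≤
      |(1 - |v| / Hr b L J) - (1 - |w| / Hr b L J)| := by
    refine (abs_max_sub_max_le_max (0 : ℝ) (1 - |v| / Hr b L J) 0 (1 - |w| / Hr b L J)).trans ?_
    apply max_le
    · rw [sub_zero, abs_zero]
      exact abs_nonneg _
    · exact le_rfl
  have h2 : |(1 - |v| / Hr b L J) - (1 - |w| / Hr b L J)| ≤ |v - w| / Hr b L J := by
    have e : (1 - |v| / Hr b L J) - (1 - |w| / Hr b L J) = (|w| - |v|) / Hr b L J := by ring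
    rw [e, abs_div, abs_of_pos hH]
    apply div_le_div_of_nonneg_right _ hH.le
    rw [abs_sub_comm v w]
    exact abs_abs_sub_abs_le_abs_sub w v
  calc 1 / Hr b L J * |max 0 (1 - |v| / Hr b L J) - max 0 (1 - |w| / Hr b L J)|
      ≤ 1 / Hr b L J * (|v - w| / Hr b L J) :=
        mul_le_mul_of_nonneg_left (h1.trans h2) (one_div_pos.2 hH).le
    _ = |v - w| / Hr b L J ^ 2 := by
        field_simp

theorem CG1_krn_eq (b L J : ℕ) (h : Adm b L J) (m : ℤ) :
    krn b L J m = if (QQ b J : ℤ) ∣ m then (QQ b J : ℝ) * hh b L J m else 0 := by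
  have hb0 : 0 < b := by have := h.1; omega
  have hQ : (QQ b J : ℝ) ≠ 0 := by
    have : 0 < QQ b J := Nat.mul_pos (by have := CG1_D0_ge b h.1; omega) (pow_pos hb0 J)
    exact_mod_cast this.ne'
  have hHH : (HH b L J : ℝ) ≠ 0 := by
    have : 0 < HH b L J := pow_pos hb0 _
    exact_mod_cast this.ne'
  unfold krn
  split_ifs
  · unfold hh Hr
    field_simp
  · rfl

theorem CG1_rv_lt (b M s : ℕ) (hb : 2 ≤ b) : rv b M s < b ^ M := by
  have h1 : rv b M s ≤ ∑ j ∈ range M, (b - 1) * b ^ (M - 1 - j) := by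
    unfold rv
    apply Finset.sum_le_sum
    intro j _
    apply Nat.mul_le_mul_right
    have : dg b j s < b := Nat.mod_lt _ (by omega)
    omega
  have h2 : ∑ j ∈ range M, (b - 1) * b ^ (M - 1 - j) = b ^ M - 1 := by
    rw [Finset.sum_range_reflect (fun j => (b - 1) * b ^ j) M]
    have key : ∀ m : ℕ, ∑ j ∈ range m, (b - 1) * b ^ j + 1 = b ^ m := by
      intro m
      induction m with
      | zero => simp
      | succ m ih =>
        rw [Finset.sum_range_succ, pow_succ]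
        have e : (b - 1) * b ^ m + b ^ m = b ^ m * b := by
          obtain ⟨a, rfl⟩ : ∃ a, b = a + 1 := ⟨b - 1, by omega⟩
          rw [Nat.add_sub_cancel]
          ring
        omega
    have := key M
    omega
  have h3 : 0 < b ^ M := pow_pos (by omega) _
  omega

theorem CG1_ys (b L J N s : ℕ) (h : Adm b L J) (hN1 : b ^ (L + 1) ≤ N) (hN2 : N < b ^ (L + 2)) :
    (b : ℝ) ^ L ≤ ys b L (MC J) N s ∧ ys b L (MC J) N s < (b : ℝ) ^ (L + 2) := by
  obtain ⟨hb, hJ, hD, hL⟩ := h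
  have hb0 : (0 : ℝ) < b := by exact_mod_cast (by omega : 0 < b)
  have hb2 : (2 : ℝ) ≤ b := by exact_mod_cast hb
  have h1 : ((rv b (MC J) s : ℕ) : ℝ) ≤ (b : ℝ) ^ MC J := by
    exact_mod_cast (CG1_rv_lt b (MC J) s hb).le
  have h2 : (b : ℝ) ^ (L - MC J) * (rv b (MC J) s : ℕ) ≤ (b : ℝ) ^ L := by
    calc (b : ℝ) ^ (L - MC J) * (rv b (MC J) s : ℕ) ≤ (b : ℝ) ^ (L - MC J) * (b : ℝ) ^ MC J :=
          mul_le_mul_of_nonneg_left h1 (pow_pos hb0 _).le
      _ = (b : ℝ) ^ L := by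
          rw [← pow_add]
          congr 1
          unfold MC
          omega
  have h3 : (0 : ℝ) ≤ (b : ℝ) ^ (L - MC J) * (rv b (MC J) s : ℕ) := by positivity
  have h4 : (b : ℝ) ^ (L + 1) ≤ N := by exact_mod_cast hN1
  have h5 : (N : ℝ) < (b : ℝ) ^ (L + 2) := by exact_mod_cast hN2
  have h6 : 2 * (b : ℝ) ^ L ≤ (b : ℝ) ^ (L + 1) := by
    rw [pow_succ, mul_comm]
    exact mul_le_mul_of_nonneg_left hb2 (pow_pos hb0 _).le
  unfold ys
  constructor <;> linarith

theorem CG1_hh_eq_zero (b L J : ℕ) (h : Adm b L J) {v : ℝ} (hv : Hr b L J ≤ |v|) :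
    hh b L J v = 0 := by
  have hH := CG1_Hr_pos b L J h
  unfold hh
  rw [max_eq_left, mul_zero]
  have : 1 ≤ |v| / Hr b L J := (one_le_div hH).2 hv
  linarith

/-- value at the integers -/
theorem Gs_log (b L J N s : ℕ) (h : Adm b L J) (hN1 : b ^ (L + 1) ≤ N) (hN2 : N < b ^ (L + 2)) (n : ℕ) :
    Gs b L J (MC J) N s (Real.log n) * ((gw (Real.log n - xL b L) / n : ℝ) : ℂ) =
      ((hh b L J (ys b L (MC J) N s - n) : ℝ) : ℂ) := by
  have hb0 : (0 : ℝ) < b := by exact_mod_cast (by have := h.1; omega : 0 < b)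
  rcases Nat.eq_zero_or_pos n with rfl | hn
  · have h1 := (CG1_ys b L J N s h hN1 hN2).1
    have h2 := (Hr_eq b L J h).2.2
    have h3 : (0 : ℝ) < (b : ℝ) ^ L := pow_pos hb0 _
    rw [CG1_hh_eq_zero b L J h]
    · simp
    · rw [Nat.cast_zero, sub_zero, abs_of_nonneg (by linarith)]
      linarith
  · have hn0 : (0 : ℝ) < n := by exact_mod_cast hn
    have hg : gw (Real.log n - xL b L) ≠ 0 := by
      unfold gw
      positivity
    unfold Gs
    rw [← Complex.ofReal_mul, Real.exp_log hn0]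
    congr 1
    field_simp

theorem hh_zero (b L J N s : ℕ) (h : Adm b L J) (hN1 : b ^ (L + 1) ≤ N) (hN2 : N < b ^ (L + 2)) (n : ℕ)
    (hn : XX b L ≤ n) : hh b L J (ys b L (MC J) N s - n) = 0 := by
  have hb0 : (0 : ℝ) < b := by exact_mod_cast (by have := h.1; omega : 0 < b)
  have hb2 : (2 : ℝ) ≤ b := by exact_mod_cast h.1
  have h1 := (CG1_ys b L J N s h hN1 hN2).2
  have h2 := (Hr_eq b L J h).2.2
  have h3 : (b : ℝ) ^ (L + 3) ≤ n := by exact_mod_cast hn
  have h4 : 2 * (b : ℝ) ^ (L + 2) ≤ (b : ℝ) ^ (L + 3) := by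
    rw [pow_succ (b : ℝ) (L + 2), mul_comm]
    exact mul_le_mul_of_nonneg_left hb2 (pow_pos hb0 _).le
  have h5 : (b : ℝ) ^ L ≤ (b : ℝ) ^ (L + 2) := pow_le_pow_right₀ (by linarith) (by omega)
  have h6 : (0 : ℝ) < (b : ℝ) ^ L := pow_pos hb0 _
  apply CG1_hh_eq_zero b L J h
  rw [abs_of_nonpos (by linarith)]
  linarith

theorem CG1_hh_le (b L J : ℕ) (h : Adm b L J) (v : ℝ) : hh b L J v ≤ 1 / Hr b L J := by
  have hH := CG1_Hr_pos b L J h
  unfold hh
  have h1 : max 0 (1 - |v| / Hr b L J) ≤ 1 := by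
    apply max_le zero_le_one
    have : 0 ≤ |v| / Hr b L J := div_nonneg (abs_nonneg _) hH.le
    linarith
  exact mul_le_of_le_one_right (one_div_pos.2 hH).le h1

/-- the smooth factor -/
noncomputable def CG1_g (u : ℝ) : ℝ := Real.exp u / gw u

theorem CG1_g_eq (u : ℝ) : CG1_g u = Real.sqrt (2 * Real.pi) * Real.exp (u + u ^ 2 / 2) := by
  unfold CG1_g gw
  have h1 : Real.sqrt (2 * Real.pi) ≠ 0 := by positivity
  have h2 : Real.exp (-u ^ 2 / 2) ≠ 0 := (Real.exp_pos _).ne'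
  have h3 : Real.exp (u + u ^ 2 / 2) = Real.exp u * Real.exp (u ^ 2 / 2) := Real.exp_add _ _
  have h4 : Real.exp (-u ^ 2 / 2) * Real.exp (u ^ 2 / 2) = 1 := by
    rw [← Real.exp_add]
    have : -u ^ 2 / 2 + u ^ 2 / 2 = 0 := by ring
    rw [this, Real.exp_zero]
  rw [h3, div_div_eq_mul_div, div_eq_iff h2]
  calc Real.exp u * Real.sqrt (2 * Real.pi) =
      Real.exp u * Real.sqrt (2 * Real.pi) * (Real.exp (-u ^ 2 / 2) * Real.exp (u ^ 2 / 2)) := by
        rw [h4, mul_one]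
    _ = _ := by ring

theorem CG1_g_pos (u : ℝ) : 0 < CG1_g u := by
  rw [CG1_g_eq]
  positivity

theorem CG1_g_bd (R : ℝ) : ∃ C : ℝ, 0 < C ∧ (∀ u, |u| ≤ R → CG1_g u ≤ C) ∧
    ∀ u v, |u| ≤ R → |v| ≤ R → |CG1_g u - CG1_g v| ≤ C * |u - v| := by
  have hd : ∀ u : ℝ, HasDerivAt CG1_g (CG1_g u * (1 + u)) u := by
    intro u
    have h1 : HasDerivAt (fun u : ℝ => u + u ^ 2 / 2) (1 + u) u := by
      have h2 : HasDerivAt (fun u : ℝ => u ^ 2) (2 * u) u := by
        have := hasDerivAt_pow 2 u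
        simpa using this
      have h2' := (hasDerivAt_id' u).add (h2.div_const 2)
      have e : (2 * u) / 2 = u := by ring
      rw [e] at h2'
      exact h2'
    have h3 := (h1.exp).const_mul (Real.sqrt (2 * Real.pi))
    have h4 : CG1_g = fun u => Real.sqrt (2 * Real.pi) * Real.exp (u + u ^ 2 / 2) :=
      funext CG1_g_eq
    rw [h4]
    have e : Real.sqrt (2 * Real.pi) * Real.exp (u + u ^ 2 / 2) * (1 + u) =
        Real.sqrt (2 * Real.pi) * (Real.exp (u + u ^ 2 / 2) * (1 + u)) := by ring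
    rw [e]
    exact h3
  have hcont : Continuous fun u => CG1_g u * (1 + |u|) := by
    have h4 : CG1_g = fun u => Real.sqrt (2 * Real.pi) * Real.exp (u + u ^ 2 / 2) :=
      funext CG1_g_eq
    rw [h4]
    fun_prop
  obtain ⟨C, hC⟩ := (isCompact_Icc (a := -R) (b := R)).exists_bound_of_continuousOn
    hcont.continuousOn
  have hC' : ∀ u, |u| ≤ R → CG1_g u * (1 + |u|) ≤ |C| + 1 := by
    intro u hu
    have h1 := hC u (abs_le.1 hu)
    rw [Real.norm_eq_abs] at h1
    have h2 := le_abs_self (CG1_g u * (1 + |u|))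
    have h3 := le_abs_self C
    linarith
  refine ⟨|C| + 1, by positivity, ?_, ?_⟩
  · intro u hu
    refine le_trans ?_ (hC' u hu)
    have h1 := CG1_g_pos u
    have h2 := abs_nonneg u
    exact le_mul_of_one_le_right h1.le (by linarith)
  · intro u v hu hv
    have h1 := (convex_Icc (-R) R).norm_image_sub_le_of_norm_hasDerivWithin_le
      (f := CG1_g) (f' := fun u => CG1_g u * (1 + u)) (C := |C| + 1)
      (fun x _ => (hd x).hasDerivWithinAt) (fun x hx => ?_) (abs_le.1 hv) (abs_le.1 hu)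
    · rw [Real.norm_eq_abs, Real.norm_eq_abs] at h1
      exact h1
    · refine le_trans ?_ (hC' x (abs_le.2 hx))
      rw [norm_mul, Real.norm_eq_abs, Real.norm_eq_abs, abs_of_pos (CG1_g_pos x)]
      apply mul_le_mul_of_nonneg_left _ (CG1_g_pos x).le
      exact (abs_add_le 1 x).trans (by rw [abs_one])

theorem Gs_props (b : ℕ) (hb : 2 ≤ b) : ∃ C : ℝ, 0 < C ∧ ∀ L J N s : ℕ, Adm b L J →
    b ^ (L + 1) ≤ N → N < b ^ (L + 2) →
    Integrable (Gs b L J (MC J) N s) ∧ (∫ v, ‖Gs b L J (MC J) N s v‖) ≤ C ∧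
    ∀ v w, ‖Gs b L J (MC J) N s w - Gs b L J (MC J) N s v‖ ≤ C * (b : ℝ) ^ (2 * J) * |w - v| := by
  have hb0 : (0 : ℝ) < b := by exact_mod_cast (by omega : 0 < b)
  have hb2 : (2 : ℝ) ≤ b := by exact_mod_cast hb
  have hb1 : (1 : ℝ) ≤ b := by linarith
  obtain ⟨C, hC0, hC1, hC2⟩ := CG1_g_bd (Real.log (2 * (b : ℝ) ^ 2))
  refine ⟨4 * C * (1 + b ^ 2), by positivity, ?_⟩
  intro L J N s h hN1 hN2
  obtain ⟨hy1, hy2⟩ := CG1_ys b L J N s h hN1 hN2
  obtain ⟨_, hH1, hH2⟩ := Hr_eq b L J h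
  have hH := CG1_Hr_pos b L J h
  have hJL : J ≤ L := by have := h.2.2.2; omega
  have hbL : (0 : ℝ) < (b : ℝ) ^ L := pow_pos hb0 _
  -- the clipped logarithmic range
  obtain ⟨v0, hv0⟩ : ∃ v0 : ℝ, v0 = Real.log ((b : ℝ) ^ L / 2) := ⟨_, rfl⟩
  obtain ⟨v1, hv1⟩ : ∃ v1 : ℝ, v1 = Real.log (2 * (b : ℝ) ^ (L + 2)) := ⟨_, rfl⟩
  have hev0 : Real.exp v0 = (b : ℝ) ^ L / 2 := by rw [hv0, Real.exp_log (by positivity)]
  have hev1 : Real.exp v1 = 2 * (b : ℝ) ^ (L + 2) := by rw [hv1, Real.exp_log (by positivity)]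
  have hbL2 : (b : ℝ) ^ (L + 2) = (b : ℝ) ^ L * (b : ℝ) ^ 2 := pow_add _ _ _
  have hb2sq : (4 : ℝ) ≤ (b : ℝ) ^ 2 := by nlinarith
  have hLL2 : 4 * (b : ℝ) ^ L ≤ (b : ℝ) ^ (L + 2) := by
    rw [hbL2]
    nlinarith
  have hv01 : v0 ≤ v1 := by
    rw [← Real.exp_le_exp, hev0, hev1]
    linarith
  have hxL : xL b L = Real.log ((b : ℝ) ^ L) := by
    unfold xL
    rw [Real.log_pow]
  have hrange : ∀ v, v0 ≤ v → v ≤ v1 → |v - xL b L| ≤ Real.log (2 * (b : ℝ) ^ 2) := by
    intro v h1 h2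
    have e1 : v0 - xL b L = - Real.log 2 := by
      rw [hv0, hxL, Real.log_div hbL.ne' two_ne_zero]
      ring
    have e2 : v1 - xL b L = Real.log (2 * (b : ℝ) ^ 2) := by
      rw [hv1, hxL, hbL2, Real.log_mul two_ne_zero (by positivity),
        Real.log_mul hbL.ne' (by positivity), Real.log_mul two_ne_zero (by positivity)]
      ring
    have e3 : Real.log 2 ≤ Real.log (2 * (b : ℝ) ^ 2) := Real.log_le_log (by norm_num) (by linarith)
    rw [abs_le]
    constructor <;> linarith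
  -- formula
  have hGs : ∀ v, Gs b L J (MC J) N s v =
      ((hh b L J (ys b L (MC J) N s - Real.exp v) * ((b : ℝ) ^ L * CG1_g (v - xL b L)) : ℝ) : ℂ) := by
    intro v
    unfold Gs
    congr 1
    have e1 : Real.exp v = (b : ℝ) ^ L * Real.exp (v - xL b L) := by
      rw [Real.exp_sub, hxL, Real.exp_log hbL]
      field_simp
    have e2 : Real.exp v / gw (v - xL b L) = (b : ℝ) ^ L * CG1_g (v - xL b L) := by
      unfold CG1_g
      conv_lhs => rw [e1]
      ring
    rw [mul_div_assoc, e2]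
  generalize ys b L (MC J) N s = y at hy1 hy2 hGs
  have hGn : ∀ v, ‖Gs b L J (MC J) N s v‖ =
      hh b L J (y - Real.exp v) * ((b : ℝ) ^ L * CG1_g (v - xL b L)) := by
    intro v
    rw [hGs, Complex.norm_real, Real.norm_eq_abs, abs_of_nonneg]
    exact mul_nonneg (hh_nonneg _ _ _ _) (mul_nonneg hbL.le (CG1_g_pos _).le)
  have hout0 : ∀ v, v ≤ v0 → Gs b L J (MC J) N s v = 0 := by
    intro v hv
    have h1 : Real.exp v ≤ (b : ℝ) ^ L / 2 := by rw [← hev0]; exact Real.exp_le_exp.2 hv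
    rw [hGs, CG1_hh_eq_zero b L J h, zero_mul, Complex.ofReal_zero]
    rw [abs_of_nonneg (by linarith)]
    linarith
  have hout1 : ∀ v, v1 ≤ v → Gs b L J (MC J) N s v = 0 := by
    intro v hv
    have h1 : 2 * (b : ℝ) ^ (L + 2) ≤ Real.exp v := by rw [← hev1]; exact Real.exp_le_exp.2 hv
    rw [hGs, CG1_hh_eq_zero b L J h, zero_mul, Complex.ofReal_zero]
    rw [abs_of_nonpos (by linarith)]
    linarith
  -- Lipschitz on the range
  have hH1' : (b : ℝ) ^ L ≤ (b : ℝ) ^ J * Hr b L J := by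
    calc (b : ℝ) ^ L = (b : ℝ) ^ J * (b : ℝ) ^ (L - J) := by
          rw [← pow_add]
          congr 1
          omega
      _ ≤ _ := mul_le_mul_of_nonneg_left hH1 (pow_pos hb0 _).le
  have hbJ1 : (1 : ℝ) ≤ (b : ℝ) ^ J := one_le_pow₀ hb1
  have hA : (b : ℝ) ^ L / Hr b L J ≤ (b : ℝ) ^ J := (div_le_iff₀ hH).2 hH1'
  have hA0 : 0 ≤ (b : ℝ) ^ L / Hr b L J := div_nonneg hbL.le hH.le
  have hA2 : ((b : ℝ) ^ L / Hr b L J) ^ 2 ≤ (b : ℝ) ^ (2 * J) := by
    rw [mul_comm 2 J, pow_mul]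
    exact pow_le_pow_left₀ hA0 hA 2
  have hJ2 : (b : ℝ) ^ J ≤ (b : ℝ) ^ (2 * J) := pow_le_pow_right₀ hb1 (by omega)
  have hlip : ∀ v w, v0 ≤ v → v ≤ v1 → v0 ≤ w → w ≤ v1 →
      ‖Gs b L J (MC J) N s w - Gs b L J (MC J) N s v‖ ≤
        C * (1 + 2 * b ^ 2) * (b : ℝ) ^ (2 * J) * |w - v| := by
    intro v w a1 a2 a3 a4
    have g1 := hC1 _ (hrange v a1 a2)
    have g2 := hC1 _ (hrange w a3 a4)
    have g3 := hC2 _ _ (hrange w a3 a4) (hrange v a1 a2)
    have e0 : w - xL b L - (v - xL b L) = w - v := by ring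
    rw [e0] at g3
    have hexp : |Real.exp w - Real.exp v| ≤ 2 * (b : ℝ) ^ (L + 2) * |w - v| := by
      have h1 := (convex_Icc v0 v1).norm_image_sub_le_of_norm_hasDerivWithin_le
        (f := Real.exp) (f' := Real.exp) (C := 2 * (b : ℝ) ^ (L + 2))
        (fun x _ => (Real.hasDerivAt_exp x).hasDerivWithinAt) (fun x hx => ?_)
        (⟨a1, a2⟩ : v ∈ Set.Icc v0 v1) (⟨a3, a4⟩ : w ∈ Set.Icc v0 v1)
      · rw [Real.norm_eq_abs, Real.norm_eq_abs] at h1
        exact h1
      · rw [Real.norm_eq_abs, abs_of_pos (Real.exp_pos _), ← hev1]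
        exact Real.exp_le_exp.2 hx.2
    have hhl : |hh b L J (y - Real.exp w) - hh b L J (y - Real.exp v)| ≤
        2 * (b : ℝ) ^ (L + 2) * |w - v| / Hr b L J ^ 2 := by
      refine (hh_lip b L J h _ _).trans ?_
      apply div_le_div_of_nonneg_right _ (by positivity)
      have e1 : y - Real.exp w - (y - Real.exp v) = -(Real.exp w - Real.exp v) := by ring
      rw [e1, abs_neg]
      exact hexp
    rw [hGs, hGs, ← Complex.ofReal_sub, Complex.norm_real, Real.norm_eq_abs]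
    have e2 : hh b L J (y - Real.exp w) * ((b : ℝ) ^ L * CG1_g (w - xL b L)) -
        hh b L J (y - Real.exp v) * ((b : ℝ) ^ L * CG1_g (v - xL b L)) =
        (hh b L J (y - Real.exp w) - hh b L J (y - Real.exp v)) *
          ((b : ℝ) ^ L * CG1_g (w - xL b L)) +
        hh b L J (y - Real.exp v) * ((b : ℝ) ^ L * (CG1_g (w - xL b L) - CG1_g (v - xL b L))) := by
      ring
    rw [e2]
    refine (abs_add_le _ _).trans ?_
    rw [abs_mul, abs_mul, abs_mul, abs_mul, abs_of_pos hbL, abs_of_pos (CG1_g_pos _),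
      abs_of_nonneg (hh_nonneg b L J (y - Real.exp v))]
    have t1 : |hh b L J (y - Real.exp w) - hh b L J (y - Real.exp v)| *
        ((b : ℝ) ^ L * CG1_g (w - xL b L)) ≤
        C * (2 * b ^ 2) * (b : ℝ) ^ (2 * J) * |w - v| := by
      calc |hh b L J (y - Real.exp w) - hh b L J (y - Real.exp v)| *
          ((b : ℝ) ^ L * CG1_g (w - xL b L))
          ≤ (2 * (b : ℝ) ^ (L + 2) * |w - v| / Hr b L J ^ 2) * ((b : ℝ) ^ L * C) := by
            apply mul_le_mul hhl (mul_le_mul_of_nonneg_left g2 hbL.le)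
              (mul_nonneg hbL.le (CG1_g_pos _).le) (by positivity)
        _ = C * (2 * b ^ 2) * ((b : ℝ) ^ L / Hr b L J) ^ 2 * |w - v| := by
            rw [hbL2]
            field_simp
        _ ≤ C * (2 * b ^ 2) * (b : ℝ) ^ (2 * J) * |w - v| := by gcongr
    have t2 : hh b L J (y - Real.exp v) *
        ((b : ℝ) ^ L * |CG1_g (w - xL b L) - CG1_g (v - xL b L)|) ≤
        C * (b : ℝ) ^ (2 * J) * |w - v| := by
      calc hh b L J (y - Real.exp v) *
          ((b : ℝ) ^ L * |CG1_g (w - xL b L) - CG1_g (v - xL b L)|)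
          ≤ (1 / Hr b L J) * ((b : ℝ) ^ L * (C * |w - v|)) := by
            apply mul_le_mul (CG1_hh_le b L J h _) (mul_le_mul_of_nonneg_left g3 hbL.le)
              (by positivity) (by positivity)
        _ = C * ((b : ℝ) ^ L / Hr b L J) * |w - v| := by ring
        _ ≤ C * (b : ℝ) ^ (2 * J) * |w - v| := by
            have := hA.trans hJ2
            gcongr
    calc _ ≤ C * (2 * b ^ 2) * (b : ℝ) ^ (2 * J) * |w - v| +
          C * (b : ℝ) ^ (2 * J) * |w - v| := add_le_add t1 t2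
      _ = _ := by ring
  -- clipping
  have hclip : ∀ v, Gs b L J (MC J) N s v = Gs b L J (MC J) N s (max v0 (min v v1)) := by
    intro v
    rcases le_total v v0 with h1 | h1
    · rw [min_eq_left (h1.trans hv01), max_eq_left h1, hout0 v h1, hout0 v0 le_rfl]
    · rcases le_total v v1 with h2 | h2
      · rw [min_eq_left h2, max_eq_right h1]
      · rw [min_eq_right h2, max_eq_right hv01, hout1 v h2, hout1 v1 le_rfl]
  have hclip2 : ∀ v w : ℝ, |max v0 (min w v1) - max v0 (min v v1)| ≤ |w - v| := by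
    intro v w
    have h1 := abs_max_sub_max_le_max v0 (min w v1) v0 (min v v1)
    have h2 := abs_min_sub_min_le_max w v1 v v1
    rw [sub_self, abs_zero] at h1 h2
    have h3 : max (0 : ℝ) |min w v1 - min v v1| ≤ |w - v| := by
      apply max_le (abs_nonneg _)
      refine h2.trans ?_
      exact max_le le_rfl (abs_nonneg _)
    exact h1.trans h3
  have hlip' : ∀ v w, ‖Gs b L J (MC J) N s w - Gs b L J (MC J) N s v‖ ≤
        C * (1 + 2 * b ^ 2) * (b : ℝ) ^ (2 * J) * |w - v| := by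
    intro v w
    rw [hclip v, hclip w]
    refine (hlip _ _ (le_max_left _ _) (max_le hv01 (min_le_right _ _)) (le_max_left _ _)
      (max_le hv01 (min_le_right _ _))).trans ?_
    exact mul_le_mul_of_nonneg_left (hclip2 v w) (by positivity)
  have hcont : Continuous (Gs b L J (MC J) N s) := by
    have hL : LipschitzWith (C * (1 + 2 * b ^ 2) * (b : ℝ) ^ (2 * J)).toNNReal
        (Gs b L J (MC J) N s) := by
      apply LipschitzWith.of_dist_le_mul
      intro v w
      rw [dist_eq_norm, Real.dist_eq, Real.coe_toNNReal _ (by positivity)]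
      exact hlip' w v
    exact hL.continuous
  have hint : Integrable (Gs b L J (MC J) N s) := by
    apply hcont.integrable_of_hasCompactSupport
    apply HasCompactSupport.intro (isCompact_Icc (a := v0) (b := v1))
    intro v hv
    rw [Set.mem_Icc, not_and_or, not_le, not_le] at hv
    rcases hv with hv | hv
    · exact hout0 v hv.le
    · exact hout1 v hv.le
  refine ⟨hint, ?_, ?_⟩
  · -- the integral
    have hyH : 0 < y - Hr b L J := by linarith
    obtain ⟨a, ha⟩ : ∃ a : ℝ, a = Real.log (y - Hr b L J) := ⟨_, rfl⟩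
    obtain ⟨c, hc⟩ : ∃ c : ℝ, c = Real.log (y + Hr b L J) := ⟨_, rfl⟩
    have hea : Real.exp a = y - Hr b L J := by rw [ha, Real.exp_log hyH]
    have hec : Real.exp c = y + Hr b L J := by rw [hc, Real.exp_log (by linarith)]
    have hac : a ≤ c := by
      rw [← Real.exp_le_exp, hea, hec]
      linarith
    have hv0a : v0 ≤ a := by
      rw [← Real.exp_le_exp, hea, hev0]
      linarith
    have hcv1 : c ≤ v1 := by
      rw [← Real.exp_le_exp, hec, hev1]
      linarith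
    have hout : ∀ v, v ∉ Set.Icc a c → ‖Gs b L J (MC J) N s v‖ = 0 := by
      intro v hv
      rw [Set.mem_Icc, not_and_or, not_le, not_le] at hv
      rw [hGn, CG1_hh_eq_zero b L J h, zero_mul]
      rcases hv with hv | hv
      · have h1 : Real.exp v < y - Hr b L J := by rw [← hea]; exact Real.exp_lt_exp.2 hv
        rw [abs_of_nonneg (by linarith)]
        linarith
      · have h1 : y + Hr b L J < Real.exp v := by rw [← hec]; exact Real.exp_lt_exp.2 hv
        rw [abs_of_nonpos (by linarith)]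
        linarith
    have h1 : ∫ v, ‖Gs b L J (MC J) N s v‖ = ∫ v in Set.Icc a c, ‖Gs b L J (MC J) N s v‖ :=
      (setIntegral_eq_integral_of_forall_compl_eq_zero hout).symm
    have h2 : ‖∫ v in Set.Icc a c, ‖Gs b L J (MC J) N s v‖‖ ≤
        ((b : ℝ) ^ L / Hr b L J * C) * volume.real (Set.Icc a c) := by
      apply norm_setIntegral_le_of_norm_le_const
      · rw [Real.volume_Icc]
        exact ENNReal.ofReal_lt_top
      · intro v hv
        rw [norm_norm, hGn]
        calc hh b L J (y - Real.exp v) * ((b : ℝ) ^ L * CG1_g (v - xL b L))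
            ≤ (1 / Hr b L J) * ((b : ℝ) ^ L * C) := by
              apply mul_le_mul (CG1_hh_le b L J h _) _
                (mul_nonneg hbL.le (CG1_g_pos _).le) (by positivity)
              apply mul_le_mul_of_nonneg_left _ hbL.le
              exact hC1 _ (hrange v (hv0a.trans hv.1) (hv.2.trans hcv1))
          _ = _ := by ring
    have h3 : volume.real (Set.Icc a c) = c - a := by
      rw [Measure.real, Real.volume_Icc, ENNReal.toReal_ofReal (by linarith)]
    have h4 : c - a ≤ 4 * Hr b L J / (b : ℝ) ^ L := by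
      have e1 : c - a = Real.log ((y + Hr b L J) / (y - Hr b L J)) := by
        rw [hc, ha, Real.log_div (by linarith) hyH.ne']
      have e2 := Real.log_le_sub_one_of_pos
        (show 0 < (y + Hr b L J) / (y - Hr b L J) from div_pos (by linarith) hyH)
      have e3 : (y + Hr b L J) / (y - Hr b L J) - 1 = 2 * Hr b L J / (y - Hr b L J) := by
        field_simp
        ring
      rw [e1]
      refine e2.trans ?_
      rw [e3, div_le_div_iff₀ hyH hbL]
      nlinarith
    rw [h1]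
    refine (le_abs_self _).trans ?_
    rw [← Real.norm_eq_abs]
    refine h2.trans ?_
    rw [h3]
    calc (b : ℝ) ^ L / Hr b L J * C * (c - a)
        ≤ (b : ℝ) ^ L / Hr b L J * C * (4 * Hr b L J / (b : ℝ) ^ L) :=
          mul_le_mul_of_nonneg_left h4 (by positivity)
      _ = 4 * C := by field_simp
      _ ≤ 4 * C * (1 + b ^ 2) := by
          apply le_mul_of_one_le_right (by positivity)
          linarith
  · intro v w
    refine (hlip' v w).trans ?_
    have h1 : C * (1 + 2 * b ^ 2) ≤ 4 * C * (1 + b ^ 2) := by nlinarith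
    gcongr

end Pool.Agent.LibHG31
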