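import Pool.Agent.LibHG31.CG1
import Pool.Agent.LibHG31.CP4

/-! ROW CM2: the kernel has mass exactly 1 on a class.
PLAN: `∑_{m ∈ ℤ, QQ | m} krn m = (1/HH) ∑_{|i|<HH} (1 - |i|/HH) = 1`. For `y` with `Hr ≤ y`, `y + Hr < XX`:
`∑_{n<XX} krn(y - n) = 1` (only the `n ≡ y mod QQ` count). For `k ∈ KS`: `n ≡ y = N - rv b L k mod QQ` implies `(n, b D0) = 1`
(`unit_y`, `J ≥ 1`), so `LamS b n = kap b`. -/

namespace Pool.Agent.LibHG31

open Finset

private theorem cm2_tri (H : ℕ) (hH : 1 ≤ H) :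
    ∑ i ∈ Ioo (-(H : ℤ)) H, ((H : ℝ) - |(i : ℝ)|) = (H : ℝ) ^ 2 := by
  induction H, hH using Nat.le_induction with
  | base =>
    have e : Ioo (-((1 : ℕ) : ℤ)) ((1 : ℕ) : ℤ) = {0} := by
      ext i
      rw [mem_Ioo, mem_singleton]
      push_cast
      omega
    rw [e]
    simp
  | succ H hH ih =>
    have e1 : ∑ i ∈ Ioo (-((H + 1 : ℕ) : ℤ)) ((H + 1 : ℕ) : ℤ), (((H + 1 : ℕ) : ℝ) - |(i : ℝ)|) =
        ∑ i ∈ Ioo (-((H + 1 : ℕ) : ℤ)) ((H + 1 : ℕ) : ℤ), (((H : ℝ) - |(i : ℝ)|) + 1) := by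
      refine Finset.sum_congr rfl fun i _ => ?_
      push_cast
      ring
    rw [e1, Finset.sum_add_distrib, Finset.sum_const, nsmul_eq_mul, mul_one, Int.card_Ioo]
    have e2 : ∑ i ∈ Ioo (-((H + 1 : ℕ) : ℤ)) ((H + 1 : ℕ) : ℤ), ((H : ℝ) - |(i : ℝ)|) =
        ∑ i ∈ Ioo (-(H : ℤ)) H, ((H : ℝ) - |(i : ℝ)|) := by
      symm
      refine Finset.sum_subset ?_ ?_
      · intro i hi
        rw [mem_Ioo] at hi ⊢
        push_cast
        omega
      · intro i hi hi'
        rw [mem_Ioo] at hi hi'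
        push_cast at hi
        have h1 : |i| = (H : ℤ) := by
          rcases abs_cases i with ⟨h, _⟩ | ⟨h, _⟩ <;> omega
        have h2 : |(i : ℝ)| = (H : ℝ) := by exact_mod_cast h1
        rw [h2, sub_self]
    rw [e2, ih]
    have e3 : (((H + 1 : ℕ) : ℤ) - -((H + 1 : ℕ) : ℤ) - 1).toNat = 2 * H + 1 := by
      push_cast
      omega
    rw [e3]
    push_cast
    ring

private theorem cm2_tri' (H : ℕ) (hH : 1 ≤ H) :
    ∑ i ∈ Ioo (-(H : ℤ)) H, (1 / (H : ℝ)) * (1 - |(i : ℝ)| / H) = 1 := by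
  have hH0 : (H : ℝ) ≠ 0 := by
    have : H ≠ 0 := by omega
    exact_mod_cast this
  have e : ∀ i ∈ Ioo (-(H : ℤ)) H, (1 / (H : ℝ)) * (1 - |(i : ℝ)| / H) =
      (1 / (H : ℝ) ^ 2) * ((H : ℝ) - |(i : ℝ)|) := by
    intro i _
    field_simp
  rw [Finset.sum_congr rfl e, ← Finset.mul_sum, cm2_tri H hH]
  field_simp

private theorem cm2_Hr_pos (b L J : ℕ) (hb : 2 ≤ b) : 0 < Hr b L J := by
  unfold Hr QQ HH D0
  have hb2 : (1 : ℕ) ≤ b ^ 2 - 1 := by
    have : 2 ^ 2 ≤ b ^ 2 := Nat.pow_le_pow_left hb 2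
    omega
  have h3 : (0 : ℝ) < ((b ^ 2 - 1 : ℕ) : ℝ) := by exact_mod_cast hb2
  have h4 : (0 : ℝ) < (b : ℝ) := by
    have : 0 < b := by omega
    exact_mod_cast this
  push_cast [Nat.cast_mul] at *
  positivity

private theorem cm2_krn_zero (b L J : ℕ) (hb : 2 ≤ b) (m : ℤ)
    (h : ¬ ((QQ b J : ℤ) ∣ m ∧ |(m : ℝ)| < Hr b L J)) : krn b L J m = 0 := by
  unfold krn
  by_cases h1 : (QQ b J : ℤ) ∣ m
  · rw [if_pos h1]
    have h2 : Hr b L J ≤ |(m : ℝ)| := by
      by_contra h3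
      exact h ⟨h1, not_le.mp h3⟩
    have hH : 0 < Hr b L J := cm2_Hr_pos b L J hb
    have h5 : 1 - |(m : ℝ)| / (QQ b J * HH b L J) ≤ 0 := by
      have h6 : 1 ≤ |(m : ℝ)| / (QQ b J * HH b L J) := by
        change 1 ≤ |(m : ℝ)| / Hr b L J
        rw [le_div_iff₀ hH, one_mul]
        exact h2
      linarith
    rw [max_eq_left h5, mul_zero]
  · rw [if_neg h1]

theorem krn_mass (b L J : ℕ) (h : Adm b L J) (y : ℤ) (h1 : Hr b L J < y) (h2 : (y : ℝ) + Hr b L J < XX b L) :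
    ∑ n ∈ range (XX b L), krn b L J (y - n) = 1 := by
  obtain ⟨hb, hJ, _, hLJ⟩ := h
  have hD0 : 0 < D0 b := by
    unfold D0
    have : 2 ^ 2 ≤ b ^ 2 := Nat.pow_le_pow_left hb 2
    omega
  have hQ : 0 < QQ b J := by
    unfold QQ
    positivity
  have hH : 1 ≤ HH b L J := Nat.one_le_pow _ _ (by omega)
  have hQZ : (0 : ℤ) < (QQ b J : ℤ) := by exact_mod_cast hQ
  have hQR : (0 : ℝ) < (QQ b J : ℝ) := by exact_mod_cast hQ
  have hHR : (0 : ℝ) < (HH b L J : ℝ) := by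
    have : 0 < HH b L J := by omega
    exact_mod_cast this
  have hHr : Hr b L J = (QQ b J : ℝ) * HH b L J := rfl
  classical
  set K' : Finset ℕ := (range (XX b L)).filter (fun n => (QQ b J : ℤ) ∣ y - n ∧
    |((y - n : ℤ) : ℝ)| < Hr b L J) with hK'
  have hW : ∑ n ∈ range (XX b L), krn b L J (y - n) = ∑ n ∈ K', krn b L J (y - n) := by
    rw [hK', Finset.sum_filter]
    refine Finset.sum_congr rfl fun k _ => ?_
    split_ifs with h1
    · rfl
    · exact cm2_krn_zero b L J hb _ h1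
  rw [hW]
  refine Eq.trans ?_ (cm2_tri' (HH b L J) hH)
  have hback : ∀ i ∈ Ioo (-(HH b L J : ℤ)) (HH b L J), 0 ≤ y - QQ b J * i ∧
      y - QQ b J * i < XX b L ∧ |(QQ b J : ℝ) * i| < Hr b L J := by
    intro i hi
    rw [mem_Ioo, ← abs_lt] at hi
    have hiR : |((i : ℤ) : ℝ)| < HH b L J := by exact_mod_cast hi
    have hmR : |(QQ b J : ℝ) * i| < Hr b L J := by
      rw [abs_mul, abs_of_pos hQR, hHr]
      exact mul_lt_mul_of_pos_left hiR hQR
    have hmR' := hmR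
    rw [abs_lt] at hmR
    refine ⟨?_, ?_, hmR'⟩
    · have : (0 : ℝ) ≤ ((y - QQ b J * i : ℤ) : ℝ) := by
        push_cast
        linarith
      exact_mod_cast this
    · have : ((y - QQ b J * i : ℤ) : ℝ) < ((XX b L : ℕ) : ℝ) := by
        push_cast
        linarith
      exact_mod_cast this
  refine Finset.sum_nbij' (fun n : ℕ => (y - (n : ℤ)) / QQ b J) (fun i : ℤ => (y - QQ b J * i).toNat) ?_ ?_ ?_ ?_ ?_
  · intro n hn
    rw [hK', Finset.mem_filter] at hn
    obtain ⟨_, hd, hl⟩ := hn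
    obtain ⟨i, hi⟩ := hd
    rw [hi, Int.mul_ediv_cancel_left _ hQZ.ne', mem_Ioo, ← abs_lt]
    rw [hi, hHr] at hl
    push_cast at hl
    rw [abs_mul, abs_of_pos hQR] at hl
    have h2 : |((i : ℤ) : ℝ)| < HH b L J := lt_of_mul_lt_mul_left hl hQR.le
    exact_mod_cast h2
  · intro i hi
    obtain ⟨h3, h4, h5⟩ := hback i hi
    rw [hK', Finset.mem_filter, Finset.mem_range]
    have e1 : (((y - QQ b J * i).toNat : ℕ) : ℤ) = y - QQ b J * i := Int.toNat_of_nonneg h3
    have e2 : y - (((y - QQ b J * i).toNat : ℕ) : ℤ) = QQ b J * i := by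
      rw [e1]
      ring
    refine ⟨?_, ?_, ?_⟩
    · omega
    · rw [e2]
      exact Dvd.intro _ rfl
    · rw [e2]
      push_cast
      exact h5
  · intro n hn
    rw [hK', Finset.mem_filter] at hn
    obtain ⟨_, hd, _⟩ := hn
    rw [Int.mul_ediv_cancel' hd]
    have : y - (y - (n : ℤ)) = n := by ring
    rw [this, Int.toNat_natCast]
  · intro i hi
    obtain ⟨h3, _, _⟩ := hback i hi
    rw [Int.toNat_of_nonneg h3]
    have : y - (y - (QQ b J : ℤ) * i) = QQ b J * i := by ring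
    rw [this, Int.mul_ediv_cancel_left _ hQZ.ne']
  · intro n hn
    rw [hK', Finset.mem_filter] at hn
    obtain ⟨_, hd, hl⟩ := hn
    obtain ⟨i, hi⟩ := hd
    rw [hi, Int.mul_ediv_cancel_left _ hQZ.ne']
    rw [hi, hHr] at hl
    push_cast at hl
    rw [abs_mul, abs_of_pos hQR] at hl
    have h3 : |((i : ℤ) : ℝ)| < HH b L J := lt_of_mul_lt_mul_left hl hQR.le
    unfold krn
    rw [if_pos (Dvd.intro _ rfl)]
    push_cast
    rw [abs_mul, abs_of_pos hQR, mul_div_mul_left _ _ hQR.ne']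
    congr 1
    apply max_eq_right
    rw [sub_nonneg, div_le_one hHR]
    exact h3.le

theorem model_mass (b L J N l r k : ℕ) (h : Adm b L J) (hg : Good b L l r N) (hk : k ∈ KS b L l r) :
    ∑ n ∈ range (XX b L), LamS b n * krn b L J ((N : ℤ) - n - rv b L k) = kap b := by
  have hb : 2 ≤ b := h.1
  have hJ : 1 ≤ J := h.2.1
  have hLJ := h.2.2.2
  have hN1 : b ^ (L + 1) ≤ N := hg.1
  have hN2 : N < b ^ (L + 2) := hg.2.1
  have hrv : rv b L k < b ^ L := CG1_rv_lt b L k hb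
  set y : ℤ := (N : ℤ) - rv b L k with hy
  have hu := (unit_y b L J N l r k h hg hk).1
  rw [← hy] at hu
  have hterm : ∀ n ∈ range (XX b L), LamS b n * krn b L J ((N : ℤ) - n - rv b L k) =
      kap b * krn b L J (y - n) := by
    intro n _
    have e : (N : ℤ) - n - rv b L k = y - n := by rw [hy]; ring
    rw [e]
    by_cases hd : (QQ b J : ℤ) ∣ y - n
    · have hdd : ((b * D0 b : ℕ) : ℤ) ∣ y - n := by
        refine dvd_trans ?_ hd
        have : b * D0 b ∣ QQ b J := by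
          unfold QQ
          rw [mul_comm]
          exact Nat.mul_dvd_mul_left _ (dvd_pow_self _ (by omega))
        exact_mod_cast this
      have hc : IsCoprime (n : ℤ) ((b * D0 b : ℕ) : ℤ) := by
        obtain ⟨t, ht⟩ := hdd
        have e2 : (n : ℤ) = y + ((b * D0 b : ℕ) : ℤ) * (-t) := by linarith
        rw [e2]
        exact (IsCoprime.add_mul_left_left_iff).mpr hu
      have hc' : n.Coprime (b * D0 b) := Nat.isCoprime_iff_coprime.mp hc
      unfold LamS
      rw [if_pos hc']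
    · have : krn b L J (y - n) = 0 := cm2_krn_zero b L J hb _ (fun hh => hd hh.1)
      rw [this, mul_zero, mul_zero]
  rw [Finset.sum_congr rfl hterm, ← Finset.mul_sum, krn_mass b L J h y ?_ ?_, mul_one]
  · have h3 := (Hr_eq b L J h).2.2
    have h4 : (b : ℝ) ^ L * 2 ≤ (N : ℝ) := by
      have : b ^ L * 2 ≤ N := by
        refine le_trans ?_ hN1
        rw [pow_succ]
        exact Nat.mul_le_mul_left _ hb
      exact_mod_cast this
    have h5 : (rv b L k : ℝ) < (b : ℝ) ^ L := by exact_mod_cast hrv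
    have h6 : (0 : ℝ) < (b : ℝ) ^ L := by
      have : (0 : ℝ) < (b : ℝ) := by
        have : 0 < b := by omega
        exact_mod_cast this
      positivity
    rw [hy]
    push_cast
    linarith
  · have h3 := (Hr_eq b L J h).2.2
    have h4 : (N : ℝ) + (b : ℝ) ^ L ≤ (XX b L : ℝ) := by
      have h7 : b ^ L ≤ b ^ (L + 2) := Nat.pow_le_pow_right (by omega) (by omega)
      have h8 : b ^ (L + 2) * 2 ≤ b ^ (L + 3) := by
        rw [pow_succ b (L + 2)]
        exact Nat.mul_le_mul_left _ hb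
      have : N + b ^ L ≤ XX b L := by
        unfold XX
        omega
      exact_mod_cast this
    have h6 : (0 : ℝ) < (b : ℝ) ^ L := by
      have : (0 : ℝ) < (b : ℝ) := by
        have : 0 < b := by omega
        exact_mod_cast this
      positivity
    have h9 : (0 : ℝ) ≤ (rv b L k : ℝ) := by positivity
    rw [hy]
    push_cast
    linarith

end Pool.Agent.LibHG31
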