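import Pool.Agent.LibHG31.CM2

/-! ROW CM3: structure of the weight `W(n) = ∑_{k∈KS} krn(N - n - rev k)`.
PLAN: `k ↦ rv b L k` is a bijection of `[0, b^L)` (an involution), and maps `KS` onto
`MS = {m < b^L : m ≡ l mod b, m / b^(L-1) prime to b, m ≡ b^(L-1) r mod D0}` (digit 0 of `m` = leading digit of `k`; `k` prime to `b` iff its
digit 0 is; `CP4_rv_mod_D0`, `b^(2(L-1)) ≡ 1`). So `W(n) = ∑_{m∈MS} krn(t - m)`, `t = N - n`; `krn(t-m) ≠ 0` forces `m ≡ t mod QQ` (so mod `b` and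
mod `D0`) and `|t - m| < Hr`. (i) if `t ≢ l mod b` or `t ≢ b^(L-1) r mod D0`: `W = 0`. (ii) otherwise `W = ∑_{m ≡ t (QQ), m/b^(L-1) prime to b}
krn(t-m)`: all of the kernel if `[t-Hr, t+Hr]` lies in one good block, nothing if it avoids the good blocks, and `0 ≤ W ≤ 1` always
(`krn_mass` with `m` instead of `n`: the same computation). -/

namespace Pool.Agent.LibHG31

open Finset

/-- the weight -/
noncomputable def Wn (b L J N l r n : ℕ) : ℝ := ∑ k ∈ KS b L l r, krn b L J ((N : ℤ) - n - rv b L k)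

private theorem cm3_dg_lt (b j n : ℕ) (hb : 0 < b) : dg b j n < b := Nat.mod_lt _ hb

/-- `n < b^L` is the sum of its digits -/
private theorem cm3_sum_dg (b L n : ℕ) (hb : 0 < b) (hn : n < b ^ L) : ∑ j ∈ range L, dg b j n * b ^ j = n := by
  have h : ∀ L, ∑ j ∈ range L, dg b j n * b ^ j = n % b ^ L := by
    intro L
    induction L with
    | zero => simp [Nat.mod_one]
    | succ L ih =>
      rw [Finset.sum_range_succ, ih, Nat.mod_pow_succ]
      unfold dg
      ring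
  rw [h, Nat.mod_eq_of_lt hn]

private theorem cm3_e_sum_lt (b : ℕ) (hb : 1 ≤ b) (a : ℕ → ℕ) (L : ℕ) (ha : ∀ k < L, a k < b) :
    ∑ k ∈ range L, a k * b ^ k < b ^ L := by
  induction L with
  | zero => simp
  | succ L ih =>
    rw [Finset.sum_range_succ]
    have h1 := ih fun k hk => ha k (by omega)
    have h2 : a L + 1 ≤ b := ha L (by omega)
    have h3 : (a L + 1) * b ^ L ≤ b * b ^ L := Nat.mul_le_mul_right _ h2
    rw [pow_succ]
    nlinarith

private theorem cm3_e_dg_add (b i v ε : ℕ) (hb : 0 < b) : dg b i (v + b ^ (i + 1) * ε) = dg b i v := by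
  unfold dg
  have e : v + b ^ (i + 1) * ε = v + b ^ i * (b * ε) := by ring
  rw [e, Nat.add_mul_div_left _ _ (pow_pos hb i), Nat.add_mul_mod_self_left]

private theorem cm3_e_dg_sum (b : ℕ) (hb : 1 ≤ b) (a : ℕ → ℕ) (L i : ℕ) (ha : ∀ k < L, a k < b) (hi : i < L) :
    dg b i (∑ k ∈ range L, a k * b ^ k) = a i := by
  obtain ⟨m, rfl⟩ := Nat.exists_eq_add_of_le (Nat.succ_le_of_lt hi)
  rw [Finset.sum_range_add]
  have e : ∑ x ∈ range m, a (i.succ + x) * b ^ (i.succ + x) =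
      b ^ (i + 1) * ∑ x ∈ range m, a (i.succ + x) * b ^ x := by
    rw [Finset.mul_sum]
    refine Finset.sum_congr rfl fun x _ => ?_
    rw [Nat.succ_eq_add_one, pow_add b (i + 1) x]
    ring
  rw [e, cm3_e_dg_add b i _ _ hb, Finset.sum_range_succ]
  have h1 : ∑ k ∈ range i, a k * b ^ k < b ^ i := cm3_e_sum_lt b hb a i fun k hk => ha k (by omega)
  unfold dg
  rw [mul_comm (a i), Nat.add_mul_div_left _ _ (pow_pos hb i), Nat.div_eq_of_lt h1, zero_add,
    Nat.mod_eq_of_lt (ha i hi)]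

private theorem cm3_e_rv_eq (b L n : ℕ) : rv b L n = ∑ k ∈ range L, dg b (L - 1 - k) n * b ^ k := by
  unfold rv
  rw [← Finset.sum_range_reflect]
  refine Finset.sum_congr rfl fun j hj => ?_
  have := Finset.mem_range.1 hj
  congr 2
  omega

private theorem cm3_rv_lt (b L n : ℕ) (hb : 1 ≤ b) : rv b L n < b ^ L := by
  rw [cm3_e_rv_eq]
  exact cm3_e_sum_lt b hb (fun k => dg b (L - 1 - k) n) L fun k _ => cm3_dg_lt b _ n hb

/-- the `i`-th digit of the reversal is the digit `L-1-i` of `n`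
(`rv b L n = ∑_{i<L} dg b (L-1-i) n * b^i` by `Finset.sum_range_reflect`, and uniqueness of digits). -/
private theorem cm3_dg_rv (b L n i : ℕ) (hb : 1 ≤ b) (hi : i < L) : dg b i (rv b L n) = dg b (L - 1 - i) n := by
  rw [cm3_e_rv_eq]
  exact cm3_e_dg_sum b hb (fun k => dg b (L - 1 - k) n) L i (fun k _ => cm3_dg_lt b _ n hb) hi

private theorem cm3_rv_rv (b L n : ℕ) (hb : 1 ≤ b) (hn : n < b ^ L) : rv b L (rv b L n) = n := by
  have h : rv b L (rv b L n) = ∑ j ∈ range L, dg b (L - 1 - j) n * b ^ (L - 1 - j) := by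
    conv_lhs => unfold rv
    refine Finset.sum_congr rfl fun j hj => ?_
    have h2 := cm3_dg_rv b L n j hb (Finset.mem_range.1 hj)
    unfold rv at h2
    rw [h2]
  rw [h, Finset.sum_range_reflect (fun j => dg b j n * b ^ j) L]
  exact cm3_sum_dg b L n hb hn

private theorem cm3_rv_injOn (b L : ℕ) (hb : 1 ≤ b) : Set.InjOn (rv b L) {n | n < b ^ L} := by
  intro x hx y hy h
  have h1 := cm3_rv_rv b L x hb hx
  have h2 := cm3_rv_rv b L y hb hy
  rw [← h1, ← h2]
  exact congrArg _ h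

/-- splitting: for `J ≤ L`, `rv b L n = rv b J (n / b^(L-J)) + b^J * rv b (L-J) (n % b^(L-J))` (`n < b^L`):
the `J` top digits of `n` give the `J` low digits of the reversal. -/
private theorem cm3_rv_split (b L J n : ℕ) (hb : 1 ≤ b) (hJ : J ≤ L) (hn : n < b ^ L) :
    rv b L n = rv b J (n / b ^ (L - J)) + b ^ J * rv b (L - J) (n % b ^ (L - J)) := by
  obtain ⟨K, rfl⟩ := Nat.exists_eq_add_of_le' hJ
  rw [Nat.add_sub_cancel]
  unfold rv
  rw [Finset.sum_range_add, Finset.mul_sum, add_comm]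
  congr 1
  · refine Finset.sum_congr rfl fun j hj => ?_
    have hj' := Finset.mem_range.1 hj
    have h1 : dg b (K + j) n = dg b j (n / b ^ K) := by
      unfold dg
      rw [pow_add, Nat.div_div_eq_div_mul]
    have h2 : K + J - 1 - (K + j) = J - 1 - j := by omega
    rw [h1, h2]
  · refine Finset.sum_congr rfl fun j hj => ?_
    have hj' := Finset.mem_range.1 hj
    have h1 : dg b j n = dg b j (n % b ^ K) := by
      obtain ⟨k, rfl⟩ := Nat.exists_eq_add_of_lt hj'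
      conv_lhs => rw [← Nat.mod_add_div n (b ^ (j + k + 1))]
      have e : b ^ (j + k + 1) * (n / b ^ (j + k + 1)) =
          b ^ (j + 1) * (b ^ k * (n / b ^ (j + k + 1))) := by
        generalize n / b ^ (j + k + 1) = t
        ring
      rw [e, cm3_e_dg_add b j _ _ hb]
    have h2 : K + J - 1 - j = J + (K - 1 - j) := by omega
    rw [h1, h2, pow_add]
    ring

private theorem cm3_rv_mod (b L J n : ℕ) (hb : 1 ≤ b) (hJ : J ≤ L) (hn : n < b ^ L) :
    rv b L n % b ^ J = rv b J (n / b ^ (L - J)) := by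
  rw [cm3_rv_split b L J n hb hJ hn, Nat.add_mul_mod_self_left, Nat.mod_eq_of_lt (cm3_rv_lt b J _ hb)]

private theorem cm3_e_II_lt (b L l k : ℕ) (hL : 1 ≤ L) (hl : l < b) (hk : k ∈ II b L l) : k < b ^ L := by
  have h1 := (Finset.mem_Ico.1 hk).2
  have h2 : (l + 1) * b ^ (L - 1) ≤ b * b ^ (L - 1) := Nat.mul_le_mul_right _ hl
  have h3 : b * b ^ (L - 1) = b ^ L := by
    obtain ⟨m, rfl⟩ := Nat.exists_eq_add_of_le' hL
    rw [Nat.add_sub_cancel]
    ring
  omega

/-- `k` with leading digit `l`: the reversal is `≡ l mod b` -/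
private theorem cm3_rv_mod_b (b L l k : ℕ) (hb : 2 ≤ b) (hL : 1 ≤ L) (hl : l < b) (hk : k ∈ II b L l) :
    rv b L k % b = l := by
  have hb1 : 1 ≤ b := by omega
  have h1 := cm3_rv_mod b L 1 k hb1 hL (cm3_e_II_lt b L l k hL hl hk)
  rw [pow_one] at h1
  rw [h1]
  have h2 : k / b ^ (L - 1) = l := by
    have h3 := Finset.mem_Ico.1 hk
    rw [Nat.div_eq_iff (pow_pos (by omega) _)]
    constructor
    · exact h3.1
    · have h4 : (l + 1) * b ^ (L - 1) = l * b ^ (L - 1) + b ^ (L - 1) := by ring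
      have h5 : 0 < b ^ (L - 1) := pow_pos (by omega) _
      omega
  rw [h2]
  simp [rv, dg, Nat.mod_eq_of_lt hl]

private theorem cm3_e_sq (b : ℕ) (hb : 2 ≤ b) : b ^ 2 ≡ 1 [MOD D0 b] := by
  unfold D0
  have h : 1 ≤ b ^ 2 := Nat.one_le_pow _ _ (by omega)
  exact ((Nat.modEq_iff_dvd' h).2 dvd_rfl).symm

/-- modulo `b² - 1`: `rv b L k ≡ b^(L-1) k` since `b · b ≡ 1`, so `b^(L-1-j) ≡ b^(L-1) b^j`. -/
private theorem cm3_rv_mod_D0 (b L k : ℕ) (hb : 2 ≤ b) (hL : 1 ≤ L) (hk : k < b ^ L) :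
    rv b L k ≡ b ^ (L - 1) * k [MOD D0 b] := by
  have h1 : b ^ (L - 1) * k = ∑ j ∈ range L, dg b j k * (b ^ (L - 1 - j) * (b ^ 2) ^ j) := by
    conv_lhs => rw [← cm3_sum_dg b L k (by omega) hk]
    rw [Finset.mul_sum]
    refine Finset.sum_congr rfl fun j hj => ?_
    have hj' := Finset.mem_range.1 hj
    have e : b ^ (L - 1) = b ^ (L - 1 - j) * b ^ j := by
      rw [← pow_add]
      congr 1
      omega
    rw [e, ← pow_mul]
    ring
  rw [h1]
  unfold rv
  refine Nat.ModEq.sum fun j _ => ?_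
  refine Nat.ModEq.mul_left _ ?_
  have h2 : (b ^ 2) ^ j ≡ 1 ^ j [MOD D0 b] := (cm3_e_sq b hb).pow j
  rw [one_pow] at h2
  have h3 := (h2.mul_left (b ^ (L - 1 - j))).symm
  rwa [mul_one] at h3

private theorem cm3_tri (H : ℕ) (hH : 1 ≤ H) :
    ∑ i ∈ Ioo (-(H : ℤ)) H, ((H : ℝ) - |(i : ℝ)|) = (H : ℝ) ^ 2 := by
  induction H, hH using Nat.le_induction with
  | base =>
    have e : Ioo (-((1 : ℕ) : ℤ)) ((1 : ℕ) : ℤ) = {0} := by
      ext i
      rw [mem_Ioo, mem_singleton]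
      push_cast
      omega
    rw [e]
    simp
  | succ H hH ih =>
    have e1 : ∑ i ∈ Ioo (-((H + 1 : ℕ) : ℤ)) ((H + 1 : ℕ) : ℤ), (((H + 1 : ℕ) : ℝ) - |(i : ℝ)|) =
        ∑ i ∈ Ioo (-((H + 1 : ℕ) : ℤ)) ((H + 1 : ℕ) : ℤ), (((H : ℝ) - |(i : ℝ)|) + 1) := by
      refine Finset.sum_congr rfl fun i _ => ?_
      push_cast
      ring
    rw [e1, Finset.sum_add_distrib, Finset.sum_const, nsmul_eq_mul, mul_one, Int.card_Ioo]
    have e2 : ∑ i ∈ Ioo (-((H + 1 : ℕ) : ℤ)) ((H + 1 : ℕ) : ℤ), ((H : ℝ) - |(i : ℝ)|) =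
        ∑ i ∈ Ioo (-(H : ℤ)) H, ((H : ℝ) - |(i : ℝ)|) := by
      symm
      refine Finset.sum_subset ?_ ?_
      · intro i hi
        rw [mem_Ioo] at hi ⊢
        push_cast
        omega
      · intro i hi hi'
        rw [mem_Ioo] at hi hi'
        push_cast at hi
        have h1 : |i| = (H : ℤ) := by
          rcases abs_cases i with ⟨h, _⟩ | ⟨h, _⟩ <;> omega
        have h2 : |(i : ℝ)| = (H : ℝ) := by exact_mod_cast h1
        rw [h2, sub_self]
    rw [e2, ih]
    have e3 : (((H + 1 : ℕ) : ℤ) - -((H + 1 : ℕ) : ℤ) - 1).toNat = 2 * H + 1 := by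
      push_cast
      omega
    rw [e3]
    push_cast
    ring

private theorem cm3_tri' (H : ℕ) (hH : 1 ≤ H) :
    ∑ i ∈ Ioo (-(H : ℤ)) H, (1 / (H : ℝ)) * (1 - |(i : ℝ)| / H) = 1 := by
  have hH0 : (H : ℝ) ≠ 0 := by
    have : H ≠ 0 := by omega
    exact_mod_cast this
  have e : ∀ i ∈ Ioo (-(H : ℤ)) H, (1 / (H : ℝ)) * (1 - |(i : ℝ)| / H) =
      (1 / (H : ℝ) ^ 2) * ((H : ℝ) - |(i : ℝ)|) := by
    intro i _
    field_simp
  rw [Finset.sum_congr rfl e, ← Finset.mul_sum, cm3_tri H hH]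
  field_simp

private theorem cm3_rv_top (b L n : ℕ) (hb : 1 ≤ b) (hL : 1 ≤ L) (hn : n < b ^ L) :
    rv b L n / b ^ (L - 1) = n % b := by
  have h1 := cm3_rv_split b L (L - 1) n hb (Nat.sub_le _ _) hn
  have e1 : L - (L - 1) = 1 := by omega
  rw [e1, pow_one] at h1
  have e2 : rv b 1 (n % b) = n % b := by
    simp [rv, dg]
  rw [e2] at h1
  rw [h1, Nat.add_mul_div_left _ _ (pow_pos (by omega) _),
    Nat.div_eq_of_lt (cm3_rv_lt b (L - 1) _ hb), zero_add]

private theorem cm3_rv_low (b L n : ℕ) (hb : 1 ≤ b) (hL : 1 ≤ L) (hn : n < b ^ L) :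
    rv b L n % b = n / b ^ (L - 1) := by
  have h1 := cm3_rv_mod b L 1 n hb hL hn
  rw [pow_one] at h1
  rw [h1]
  have h2 : n / b ^ (L - 1) < b := by
    rw [Nat.div_lt_iff_lt_mul (pow_pos (by omega) _), ← pow_succ']
    have e : L - 1 + 1 = L := by omega
    rw [e]
    exact hn
  simp [rv, dg, Nat.mod_eq_of_lt h2]

private theorem cm3_krn_nonneg (b L J : ℕ) (m : ℤ) : 0 ≤ krn b L J m := by
  unfold krn
  split_ifs
  · positivity
  · exact le_rfl

private theorem cm3_krn_zero (b L J : ℕ) (hb : 2 ≤ b) (m : ℤ)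
    (h : ¬ ((QQ b J : ℤ) ∣ m ∧ |(m : ℝ)| < Hr b L J)) : krn b L J m = 0 := by
  unfold krn
  by_cases h1 : (QQ b J : ℤ) ∣ m
  · rw [if_pos h1]
    have h2 : Hr b L J ≤ |(m : ℝ)| := by
      by_contra h3
      exact h ⟨h1, not_le.mp h3⟩
    have hH : 0 < Hr b L J := by
      unfold Hr QQ HH D0
      have hb2 : (1 : ℕ) ≤ b ^ 2 - 1 := by
        have : 2 ^ 2 ≤ b ^ 2 := Nat.pow_le_pow_left hb 2
        omega
      have h3 : (0 : ℝ) < ((b ^ 2 - 1 : ℕ) : ℝ) := by exact_mod_cast hb2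
      have h4 : (0 : ℝ) < (b : ℝ) := by
        have : 0 < b := by omega
        exact_mod_cast this
      push_cast [Nat.cast_mul] at *
      positivity
    have h5 : 1 - |(m : ℝ)| / (QQ b J * HH b L J) ≤ 0 := by
      have h6 : 1 ≤ |(m : ℝ)| / (QQ b J * HH b L J) := by
        change 1 ≤ |(m : ℝ)| / Hr b L J
        rw [le_div_iff₀ hH, one_mul]
        exact h2
      linarith
    rw [max_eq_left h5, mul_zero]
  · rw [if_neg h1]

theorem W_struct (b L J N l r : ℕ) (h : Adm b L J) (hg : Good b L l r N) (n : ℕ) :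
    0 ≤ Wn b L J N l r n ∧ Wn b L J N l r n ≤ 1 ∧
    (¬ ((N : ℤ) - n ≡ l [ZMOD (b : ℤ)] ∧ (N : ℤ) - n ≡ (b : ℤ) ^ (L - 1) * r [ZMOD (D0 b : ℤ)]) → Wn b L J N l r n = 0) ∧
    (((N : ℤ) - n ≡ l [ZMOD (b : ℤ)] ∧ (N : ℤ) - n ≡ (b : ℤ) ^ (L - 1) * r [ZMOD (D0 b : ℤ)]) →
      ∀ a : ℕ, a < b → a.Coprime b → (a : ℝ) * (b : ℝ) ^ (L - 1) + Hr b L J ≤ (N : ℝ) - n →
        (N : ℝ) - n ≤ ((a : ℝ) + 1) * (b : ℝ) ^ (L - 1) - Hr b L J → Wn b L J N l r n = 1) ∧
    ((∀ a : ℕ, a < b → a.Coprime b → (N : ℝ) - n ≤ (a : ℝ) * (b : ℝ) ^ (L - 1) - Hr b L J ∨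
      ((a : ℝ) + 1) * (b : ℝ) ^ (L - 1) + Hr b L J ≤ (N : ℝ) - n) → Wn b L J N l r n = 0) := by
  obtain ⟨hb, hJ, _, hLJ⟩ := h
  obtain ⟨_, _, hl1, hlb, _⟩ := hg
  have hb1 : 1 ≤ b := by omega
  have hL : 1 ≤ L := by omega
  have hbpos : 0 < b ^ (L - 1) := pow_pos (by omega) _
  have hbL : b ^ L = b * b ^ (L - 1) := by
    rw [← pow_succ']
    congr 1
    omega
  have hD0 : 0 < D0 b := by
    unfold D0
    have : 2 ^ 2 ≤ b ^ 2 := Nat.pow_le_pow_left hb 2
    omega
  have hQ : 0 < QQ b J := by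
    unfold QQ
    positivity
  have hH : 1 ≤ HH b L J := Nat.one_le_pow _ _ (by omega)
  have hQZ : (0 : ℤ) < (QQ b J : ℤ) := by exact_mod_cast hQ
  have hQR : (0 : ℝ) < (QQ b J : ℝ) := by exact_mod_cast hQ
  have hHR : (0 : ℝ) < (HH b L J : ℝ) := by
    have : 0 < HH b L J := by omega
    exact_mod_cast this
  have hHr : Hr b L J = (QQ b J : ℝ) * HH b L J := rfl
  have hbQ : (b : ℤ) ∣ (QQ b J : ℤ) := by
    unfold QQ
    push_cast
    exact Dvd.dvd.mul_left (dvd_pow_self _ (by omega)) _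
  have hDQ : (D0 b : ℤ) ∣ (QQ b J : ℤ) := by
    unfold QQ
    push_cast
    exact Dvd.intro _ rfl
  set t : ℤ := (N : ℤ) - n with ht
  have htR : (t : ℝ) = (N : ℝ) - n := by rw [ht]; push_cast; ring
  -- elements of `KS`
  have hlt : ∀ k ∈ KS b L l r, k < b ^ L := by
    intro k hk
    have h1 := (Finset.mem_Ico.1 (Finset.mem_filter.1 hk).1).2
    have h2 : (l + 1) * b ^ (L - 1) ≤ b * b ^ (L - 1) := Nat.mul_le_mul_right _ hlb
    omega
  have hkl : ∀ k ∈ KS b L l r, rv b L k % b = l := fun k hk =>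
    cm3_rv_mod_b b L l k hb hL hlb (Finset.mem_filter.1 hk).1
  have hkD : ∀ k ∈ KS b L l r, rv b L k ≡ b ^ (L - 1) * r [MOD D0 b] := fun k hk =>
    (cm3_rv_mod_D0 b L k hb hL (hlt k hk)).trans (Nat.ModEq.mul_left _ (Finset.mem_filter.1 hk).2.2)
  have hktop : ∀ k ∈ KS b L l r, rv b L k / b ^ (L - 1) = k % b := fun k hk =>
    cm3_rv_top b L k hb1 hL (hlt k hk)
  have hnn : 0 ≤ Wn b L J N l r n := Finset.sum_nonneg fun k _ => cm3_krn_nonneg _ _ _ _
  -- the filtered set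
  classical
  set K' : Finset ℕ := (KS b L l r).filter (fun k => (QQ b J : ℤ) ∣ t - rv b L k ∧
    |((t - rv b L k : ℤ) : ℝ)| < Hr b L J) with hK'
  have hW : Wn b L J N l r n = ∑ k ∈ K', krn b L J (t - rv b L k) := by
    unfold Wn
    rw [hK', Finset.sum_filter]
    refine Finset.sum_congr rfl fun k _ => ?_
    split_ifs with h1
    · rfl
    · exact cm3_krn_zero b L J hb _ h1
  set idx : ℕ → ℤ := fun k => (t - rv b L k) / QQ b J with hidx
  have hidx1 : ∀ k ∈ K', t - rv b L k = QQ b J * idx k := by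
    intro k hk
    exact (Int.mul_ediv_cancel' (Finset.mem_filter.1 hk).2.1).symm
  have hidx2 : ∀ k ∈ K', idx k ∈ Ioo (-(HH b L J : ℤ)) (HH b L J) := by
    intro k hk
    have h1 := (Finset.mem_filter.1 hk).2.2
    rw [hidx1 k hk, hHr] at h1
    push_cast at h1
    rw [abs_mul, abs_of_pos hQR] at h1
    have h2 : |((idx k : ℤ) : ℝ)| < HH b L J := lt_of_mul_lt_mul_left h1 hQR.le
    have h3 : |idx k| < (HH b L J : ℤ) := by exact_mod_cast h2
    rw [abs_lt] at h3
    rw [mem_Ioo]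
    exact h3
  have hval : ∀ k ∈ K', krn b L J (t - rv b L k) =
      (1 / (HH b L J : ℝ)) * (1 - |((idx k : ℤ) : ℝ)| / HH b L J) := by
    intro k hk
    unfold krn
    rw [if_pos (Finset.mem_filter.1 hk).2.1, hidx1 k hk]
    have h2 := hidx2 k hk
    rw [mem_Ioo, ← abs_lt] at h2
    have h3 : |((idx k : ℤ) : ℝ)| < HH b L J := by exact_mod_cast h2
    push_cast
    rw [abs_mul, abs_of_pos hQR, mul_div_mul_left _ _ hQR.ne']
    congr 1
    apply max_eq_right
    rw [sub_nonneg, div_le_one hHR]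
    exact h3.le
  have hinj : Set.InjOn idx K' := by
    intro k hk k' hk' he
    have h1 := hidx1 k hk
    have h2 := hidx1 k' hk'
    rw [he] at h1
    have h3 : (rv b L k : ℤ) = rv b L k' := by linarith
    have h4 : rv b L k = rv b L k' := by exact_mod_cast h3
    exact cm3_rv_injOn b L hb1 (hlt k (Finset.mem_filter.1 hk).1) (hlt k' (Finset.mem_filter.1 hk').1) h4
  have hW2 : Wn b L J N l r n =
      ∑ i ∈ K'.image idx, (1 / (HH b L J : ℝ)) * (1 - |((i : ℤ) : ℝ)| / HH b L J) := by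
    rw [hW, Finset.sum_image hinj]
    exact Finset.sum_congr rfl hval
  have hsub : K'.image idx ⊆ Ioo (-(HH b L J : ℤ)) (HH b L J) := by
    intro i hi
    obtain ⟨k, hk, rfl⟩ := Finset.mem_image.1 hi
    exact hidx2 k hk
  refine ⟨hnn, ?_, ?_, ?_, ?_⟩
  · refine le_trans ?_ (le_of_eq (cm3_tri' (HH b L J) hH))
    rw [hW2]
    refine Finset.sum_le_sum_of_subset_of_nonneg hsub fun i hi _ => ?_
    rw [mem_Ioo, ← abs_lt] at hi
    have h3 : |((i : ℤ) : ℝ)| < HH b L J := by exact_mod_cast hi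
    have h4 : |((i : ℤ) : ℝ)| / HH b L J ≤ 1 := by
      rw [div_le_one hHR]
      exact h3.le
    have h5 : 0 ≤ 1 - |((i : ℤ) : ℝ)| / HH b L J := by linarith
    positivity
  · intro hno
    unfold Wn
    refine Finset.sum_eq_zero fun k hk => cm3_krn_zero b L J hb _ ?_
    rintro ⟨h1, _⟩
    apply hno
    constructor
    · have h2 : (b : ℤ) ∣ t - rv b L k := hbQ.trans h1
      have h3 : ((rv b L k : ℕ) : ℤ) ≡ l [ZMOD (b : ℤ)] := by
        have h4 : rv b L k ≡ l [MOD b] := by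
          unfold Nat.ModEq
          rw [hkl k hk, Nat.mod_eq_of_lt hlb]
        exact (Int.natCast_modEq_iff).mpr h4
      exact ((Int.modEq_iff_dvd.mpr h2).symm).trans h3
    · have h2 : (D0 b : ℤ) ∣ t - rv b L k := hDQ.trans h1
      have h3 : ((rv b L k : ℕ) : ℤ) ≡ (b : ℤ) ^ (L - 1) * r [ZMOD (D0 b : ℤ)] := by
        have h4 := (Int.natCast_modEq_iff).mpr (hkD k hk)
        push_cast at h4
        exact h4
      exact ((Int.modEq_iff_dvd.mpr h2).symm).trans h3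
  · rintro ⟨htb, htD⟩ a hab hac h1 h2
    rw [← htR] at h1 h2
    rw [hW2]
    refine Eq.trans ?_ (cm3_tri' (HH b L J) hH)
    refine congrArg (fun S : Finset ℤ => ∑ i ∈ S, (1 / (HH b L J : ℝ)) * (1 - |((i : ℤ) : ℝ)| / HH b L J)) ?_
    refine Finset.Subset.antisymm hsub ?_
    intro i hi
    have hi' := hi
    rw [mem_Ioo, ← abs_lt] at hi'
    have hiR : |((i : ℤ) : ℝ)| < HH b L J := by exact_mod_cast hi'
    -- the number `m = t - QQ i`
    have hmR : |(QQ b J : ℝ) * i| < Hr b L J := by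
      rw [abs_mul, abs_of_pos hQR, hHr]
      exact mul_lt_mul_of_pos_left hiR hQR
    rw [abs_lt] at hmR
    have hlow : ((a * b ^ (L - 1) : ℕ) : ℤ) < t - QQ b J * i := by
      have : (((a * b ^ (L - 1) : ℕ) : ℤ) : ℝ) < ((t - QQ b J * i : ℤ) : ℝ) := by
        push_cast
        linarith
      exact_mod_cast this
    have hup : t - QQ b J * i < (((a + 1) * b ^ (L - 1) : ℕ) : ℤ) := by
      have : ((t - QQ b J * i : ℤ) : ℝ) < ((((a + 1) * b ^ (L - 1) : ℕ) : ℤ) : ℝ) := by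
        push_cast
        linarith
      exact_mod_cast this
    obtain ⟨m, hm⟩ : ∃ m : ℕ, (m : ℤ) = t - QQ b J * i := by
      refine ⟨(t - QQ b J * i).toNat, Int.toNat_of_nonneg ?_⟩
      have : (0 : ℤ) ≤ ((a * b ^ (L - 1) : ℕ) : ℤ) := by positivity
      linarith
    rw [← hm] at hlow hup
    have hlow' : a * b ^ (L - 1) < m := by exact_mod_cast hlow
    have hup' : m < (a + 1) * b ^ (L - 1) := by exact_mod_cast hup
    have hmL : m < b ^ L := by
      have : (a + 1) * b ^ (L - 1) ≤ b * b ^ (L - 1) := Nat.mul_le_mul_right _ hab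
      omega
    have hmtop : m / b ^ (L - 1) = a := by
      rw [Nat.div_eq_iff hbpos]
      have : (a + 1) * b ^ (L - 1) = a * b ^ (L - 1) + b ^ (L - 1) := by ring
      omega
    have hmb : m % b = l := by
      have h3 : (m : ℤ) ≡ l [ZMOD (b : ℤ)] := by
        refine Int.ModEq.trans ?_ htb
        rw [hm]
        refine (Int.modEq_iff_dvd.mpr ?_)
        have e : t - (t - QQ b J * i) = QQ b J * i := by ring
        rw [e]
        exact Dvd.dvd.mul_right hbQ _
      have h4 : m ≡ l [MOD b] := (Int.natCast_modEq_iff).mp h3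
      unfold Nat.ModEq at h4
      rw [h4, Nat.mod_eq_of_lt hlb]
    have hmD : m ≡ b ^ (L - 1) * r [MOD D0 b] := by
      have h3 : (m : ℤ) ≡ (b : ℤ) ^ (L - 1) * r [ZMOD (D0 b : ℤ)] := by
        refine Int.ModEq.trans ?_ htD
        rw [hm]
        refine (Int.modEq_iff_dvd.mpr ?_)
        have e : t - (t - QQ b J * i) = QQ b J * i := by ring
        rw [e]
        exact Dvd.dvd.mul_right hDQ _
      refine (Int.natCast_modEq_iff).mp ?_
      push_cast
      exact h3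
    set k : ℕ := rv b L m with hk
    have hkm : rv b L k = m := cm3_rv_rv b L m hb1 hmL
    have hkL : k < b ^ L := cm3_rv_lt b L m hb1
    have hkKS : k ∈ KS b L l r := by
      unfold KS II
      rw [Finset.mem_filter, Finset.mem_Ico]
      have h3 : k / b ^ (L - 1) = l := by
        rw [hk, cm3_rv_top b L m hb1 hL hmL, hmb]
      refine ⟨?_, ?_, ?_⟩
      · rw [Nat.div_eq_iff hbpos] at h3
        have : (l + 1) * b ^ (L - 1) = l * b ^ (L - 1) + b ^ (L - 1) := by ring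
        omega
      · have h4 : k % b = a := by
          rw [hk, cm3_rv_low b L m hb1 hL hmL, hmtop]
        unfold Nat.Coprime
        rw [Nat.gcd_comm, Nat.gcd_rec, h4]
        exact hac
      · have h4 : k ≡ b ^ (L - 1) * m [MOD D0 b] := cm3_rv_mod_D0 b L m hb hL hmL
        have h5 : b ^ (L - 1) * m ≡ b ^ (L - 1) * (b ^ (L - 1) * r) [MOD D0 b] :=
          Nat.ModEq.mul_left _ hmD
        have h6 : b ^ 2 ≡ 1 [MOD D0 b] := by
          unfold D0
          have h : 1 ≤ b ^ 2 := Nat.one_le_pow _ _ (by omega)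
          exact ((Nat.modEq_iff_dvd' h).2 dvd_rfl).symm
        have h7 : b ^ (L - 1) * (b ^ (L - 1) * r) ≡ r [MOD D0 b] := by
          have e : b ^ (L - 1) * (b ^ (L - 1) * r) = (b ^ 2) ^ (L - 1) * r := by
            rw [← pow_mul, mul_comm 2 (L - 1), pow_mul]
            ring
          rw [e]
          have h8 := (h6.pow (L - 1)).mul_right r
          rw [one_pow, one_mul] at h8
          exact h8
        exact h4.trans (h5.trans h7)
    rw [Finset.mem_image]
    refine ⟨k, ?_, ?_⟩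
    · rw [hK', Finset.mem_filter]
      have e : t - (rv b L k : ℤ) = QQ b J * i := by
        rw [hkm, hm]
        ring
      refine ⟨hkKS, ?_, ?_⟩
      · rw [e]
        exact Dvd.intro _ rfl
      · rw [e]
        push_cast
        rw [abs_lt]
        exact hmR
    · simp only [hidx]
      have e : t - (rv b L k : ℤ) = QQ b J * i := by
        rw [hkm, hm]
        ring
      rw [e, Int.mul_ediv_cancel_left _ hQZ.ne']
  · intro hall
    unfold Wn
    refine Finset.sum_eq_zero fun k hk => cm3_krn_zero b L J hb _ ?_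
    rintro ⟨_, h2⟩
    have hkb : (k % b) < b := Nat.mod_lt _ (by omega)
    have hkc : (k % b).Coprime b := by
      have h3 := (Finset.mem_filter.1 hk).2.1
      unfold Nat.Coprime at h3 ⊢
      rw [Nat.gcd_comm, Nat.gcd_rec] at h3
      exact h3
    have h3 := hktop k hk
    rw [Nat.div_eq_iff hbpos] at h3
    have h4 : (k % b) * b ^ (L - 1) ≤ rv b L k := by omega
    have h5 : rv b L k < ((k % b) + 1) * b ^ (L - 1) := by
      have : ((k % b) + 1) * b ^ (L - 1) = (k % b) * b ^ (L - 1) + b ^ (L - 1) := by ring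
      omega
    have h4' : ((k % b : ℕ) : ℝ) * (b : ℝ) ^ (L - 1) ≤ rv b L k := by exact_mod_cast h4
    have h5' : (rv b L k : ℝ) < (((k % b : ℕ) : ℝ) + 1) * (b : ℝ) ^ (L - 1) := by exact_mod_cast h5
    rw [abs_lt] at h2
    push_cast at h2
    have htR' : (t : ℝ) = (N : ℝ) - n := htR
    rcases hall (k % b) hkb hkc with h6 | h6 <;> linarith [h2.1, h2.2]

end Pool.Agent.LibHG31
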