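import Pool.Agent.LibHG31.C0

/-! ROW CP1: the prefix function.
PLAN. `‖Fp v‖ ≤ e^v/gw(v-xL) ≤ C b^L` on the support (`b^(L-1) ≤ e^v ≤ b^L`). Measurable: finite sum over cells
`u ∈ Ico (l b^(J-1)) ((l+1) b^(J-1))`, `u b^(L-J) ≤ e^v < (u+1) b^(L-J)`, of a constant times a continuous function. The support has length
`≤ log b` ... so `∫‖Fp‖ ≤ C b^L`. Good points: if `e^w` and `k` are in the same cell, or both outside the range, the Lipschitz
constant of `e^v/gw(v-xL)` suffices. Otherwise a multiple `u b^(L-J)`, `l b^(J-1) ≤ u ≤ (l+1) b^(J-1)`, lies between (weakly),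
so `|e^w - k| ≥ b^(L-3J)`; `|w - log k| ≥ |e^w - k|/max(e^w,k)`. If the max is `≤ b^(L+1)`: `2B ≤ 2B b^(3J+1)|w - log k|`. If the
max is `> b^(L+1)`: that one is outside the support, the other one is `< b^L` (or both vanish), `|w - log k| ≥ log b ≥ 1/2`. -/

namespace Pool.Agent.LibHG31

open Finset Complex MeasureTheory
open Pool.Agent.LibMaier (gw)

/-- `k` is not close to the boundary of a cell -/
def GoodK (b L J l k : ℕ) : Prop := 1 ≤ k ∧ ∀ u ∈ Icc (l * b ^ (J - 1)) ((l + 1) * b ^ (J - 1)),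
  (b : ℝ) ^ (L - 3 * J) ≤ |(k : ℝ) - u * (b : ℝ) ^ (L - J)|

/-- the smooth factor -/
noncomputable def cp1_E (b L : ℕ) (v : ℝ) : ℝ := Real.exp v / gw (v - xL b L)

/-- the constant -/
noncomputable def cp1_K (b : ℕ) : ℝ := Real.sqrt (2 * Real.pi) * Real.exp (Real.log b ^ 2 / 2)

theorem cp1_K_pos (b : ℕ) : 0 < cp1_K b := by
  unfold cp1_K; positivity

theorem cp1_E_eq (b L : ℕ) (v : ℝ) :
    cp1_E b L v = Real.sqrt (2 * Real.pi) * Real.exp (v + (v - xL b L) ^ 2 / 2) := by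
  unfold cp1_E gw
  rw [Real.exp_add, show Real.exp (-(v - xL b L) ^ 2 / 2) = (Real.exp ((v - xL b L) ^ 2 / 2))⁻¹ by
    rw [← Real.exp_neg]; congr 1; ring]
  have h1 : Real.exp ((v - xL b L) ^ 2 / 2) ≠ 0 := (Real.exp_pos _).ne'
  have h2 : Real.sqrt (2 * Real.pi) ≠ 0 := by positivity
  field_simp

theorem cp1_E_nonneg (b L : ℕ) (v : ℝ) : 0 ≤ cp1_E b L v := by
  rw [cp1_E_eq]; positivity

theorem cp1_E_cont (b L : ℕ) : Continuous (cp1_E b L) := by
  have : cp1_E b L = fun v => Real.sqrt (2 * Real.pi) * Real.exp (v + (v - xL b L) ^ 2 / 2) := by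
    funext v; exact cp1_E_eq b L v
  rw [this]; fun_prop

theorem cp1_exp_xL (b L : ℕ) (hb : 2 ≤ b) : Real.exp (xL b L) = (b : ℝ) ^ L := by
  have hb0 : (0 : ℝ) < b := by exact_mod_cast (by omega : 0 < b)
  unfold xL
  rw [← Real.log_pow, Real.exp_log (by positivity)]

theorem cp1_E_le (b L : ℕ) (hb : 2 ≤ b) (v : ℝ) (h1 : xL b L - Real.log b ≤ v) (h2 : v ≤ xL b L) :
    cp1_E b L v ≤ cp1_K b * (b : ℝ) ^ L := by
  rw [cp1_E_eq, Real.exp_add]
  have hb0 : (0 : ℝ) < b := by exact_mod_cast (by omega : 0 < b)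
  have e1 : Real.exp v ≤ (b : ℝ) ^ L := by
    rw [← cp1_exp_xL b L hb]; exact Real.exp_le_exp.mpr h2
  have e2 : Real.exp ((v - xL b L) ^ 2 / 2) ≤ Real.exp (Real.log b ^ 2 / 2) := by
    apply Real.exp_le_exp.mpr
    have : (v - xL b L) ^ 2 ≤ Real.log b ^ 2 := by
      apply sq_le_sq'
      · linarith
      · have : 0 ≤ Real.log b := Real.log_nonneg (by exact_mod_cast (by omega : 1 ≤ b))
        linarith
    linarith
  unfold cp1_K
  have := mul_le_mul e1 e2 (Real.exp_pos _).le (by positivity)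
  calc Real.sqrt (2 * Real.pi) * (Real.exp v * Real.exp ((v - xL b L) ^ 2 / 2))
      ≤ Real.sqrt (2 * Real.pi) * ((b : ℝ) ^ L * Real.exp (Real.log b ^ 2 / 2)) :=
        mul_le_mul_of_nonneg_left this (Real.sqrt_nonneg _)
    _ = _ := by ring

theorem cp1_E_deriv (b L : ℕ) (v : ℝ) :
    HasDerivAt (cp1_E b L) ((1 + (v - xL b L)) * cp1_E b L v) v := by
  have h : cp1_E b L = fun v => Real.sqrt (2 * Real.pi) * Real.exp (v + (v - xL b L) ^ 2 / 2) := by
    funext v; exact cp1_E_eq b L v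
  rw [cp1_E_eq, h]
  have h1 : HasDerivAt (fun v : ℝ => v + (v - xL b L) ^ 2 / 2) (1 + (v - xL b L)) v := by
    have h2 := (((hasDerivAt_id v).sub_const (xL b L)).pow 2).div_const 2
    have h3 := (hasDerivAt_id v).add h2
    refine h3.congr_deriv ?_
    simp
  have h4 := (h1.exp).const_mul (Real.sqrt (2 * Real.pi))
  refine h4.congr_deriv ?_
  ring

/-- Lipschitz on the support -/
theorem cp1_E_lip (b L : ℕ) (hb : 2 ≤ b) (v w : ℝ) (h1 : xL b L - Real.log b ≤ v) (h2 : v ≤ xL b L)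
    (h3 : xL b L - Real.log b ≤ w) (h4 : w ≤ xL b L) :
    |cp1_E b L w - cp1_E b L v| ≤ (1 + Real.log b) * (cp1_K b * (b : ℝ) ^ L) * |w - v| := by
  have hl : 0 ≤ Real.log b := Real.log_nonneg (by exact_mod_cast (by omega : 1 ≤ b))
  have := Convex.norm_image_sub_le_of_norm_hasDerivWithin_le (f := cp1_E b L)
    (f' := fun v => (1 + (v - xL b L)) * cp1_E b L v) (s := Set.Icc (xL b L - Real.log b) (xL b L))
    (C := (1 + Real.log b) * (cp1_K b * (b : ℝ) ^ L)) (x := v) (y := w)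
    (fun x _ => (cp1_E_deriv b L x).hasDerivWithinAt) ?_ (convex_Icc _ _) ⟨h1, h2⟩ ⟨h3, h4⟩
  · simpa [Real.norm_eq_abs] using this
  · rintro x ⟨hx1, hx2⟩
    rw [norm_mul, Real.norm_eq_abs, Real.norm_eq_abs, abs_of_nonneg (cp1_E_nonneg b L x)]
    apply mul_le_mul _ (cp1_E_le b L hb x hx1 hx2) (cp1_E_nonneg b L x) (by linarith)
    rw [abs_le]; constructor <;> linarith

/-- logarithms separate -/
theorem cp1_log_sep (x y M : ℝ) (hx : 0 < x) (hy : 0 < y) (hxM : x ≤ M) (hyM : y ≤ M) :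
    |x - y| ≤ M * |Real.log x - Real.log y| := by
  have key : ∀ x y : ℝ, 0 < x → 0 < y → y ≤ M → x ≤ y → |x - y| ≤ M * |Real.log x - Real.log y| := by
    intro x y hx hy hyM hxy
    have h1 := Real.one_sub_inv_le_log_of_pos (div_pos hy hx)
    rw [Real.log_div hy.ne' hx.ne', inv_div] at h1
    have h2 : 0 ≤ Real.log y - Real.log x := sub_nonneg.mpr (Real.log_le_log hx hxy)
    rw [abs_sub_comm, abs_of_nonneg (by linarith : 0 ≤ y - x), abs_sub_comm (Real.log x),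
      abs_of_nonneg h2]
    have h3 : y - x = y * (1 - x / y) := by field_simp
    have h4 : 0 ≤ 1 - x / y := by
      rw [sub_nonneg, div_le_one hy]; exact hxy
    calc y - x = y * (1 - x / y) := h3
      _ ≤ M * (1 - x / y) := mul_le_mul_of_nonneg_right hyM h4
      _ ≤ M * (Real.log y - Real.log x) := mul_le_mul_of_nonneg_left h1 (by linarith)
  rcases le_total x y with h | h
  · exact key x y hx hy hyM h
  · rw [abs_sub_comm, abs_sub_comm (Real.log x)]; exact key y x hy hx hxM h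

/-- separation by a cell boundary -/
theorem cp1_sep (b L J l : ℕ) (hb : 2 ≤ b) (hJ : 1 ≤ J) (hL : J ≤ L) (x y : ℝ) (hx0 : 0 < x) (hy0 : 0 < y)
    (h : ¬ (((l : ℝ) * (b : ℝ) ^ (L - 1) ≤ x ∧ x < ((l : ℝ) + 1) * (b : ℝ) ^ (L - 1)) ∧
      ((l : ℝ) * (b : ℝ) ^ (L - 1) ≤ y ∧ y < ((l : ℝ) + 1) * (b : ℝ) ^ (L - 1)) ∧
      ⌊x / (b : ℝ) ^ (L - J)⌋₊ = ⌊y / (b : ℝ) ^ (L - J)⌋₊))
    (h' : ((l : ℝ) * (b : ℝ) ^ (L - 1) ≤ x ∧ x < ((l : ℝ) + 1) * (b : ℝ) ^ (L - 1)) ∨
      ((l : ℝ) * (b : ℝ) ^ (L - 1) ≤ y ∧ y < ((l : ℝ) + 1) * (b : ℝ) ^ (L - 1))) :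
    ∃ u ∈ Icc (l * b ^ (J - 1)) ((l + 1) * b ^ (J - 1)),
      (x ≤ u * (b : ℝ) ^ (L - J) ∧ (u : ℝ) * (b : ℝ) ^ (L - J) ≤ y) ∨
      (y ≤ u * (b : ℝ) ^ (L - J) ∧ (u : ℝ) * (b : ℝ) ^ (L - J) ≤ x) := by
  have hb0 : (0 : ℝ) < b := by exact_mod_cast (by omega : 0 < b)
  have hc : (0 : ℝ) < (b : ℝ) ^ (L - J) := by positivity
  have e0 : (b : ℝ) ^ (L - 1) = (b : ℝ) ^ (J - 1) * (b : ℝ) ^ (L - J) := by
    rw [← pow_add]; congr 1; omega
  have e1 : ((l * b ^ (J - 1) : ℕ) : ℝ) * (b : ℝ) ^ (L - J) = (l : ℝ) * (b : ℝ) ^ (L - 1) := by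
    rw [e0]; push_cast; ring
  have e2 : (((l + 1) * b ^ (J - 1) : ℕ) : ℝ) * (b : ℝ) ^ (L - J) = ((l : ℝ) + 1) * (b : ℝ) ^ (L - 1) := by
    rw [e0]; push_cast; ring
  have hmono : l * b ^ (J - 1) ≤ (l + 1) * b ^ (J - 1) := Nat.mul_le_mul_right _ (by omega)
  have m1 : l * b ^ (J - 1) ∈ Icc (l * b ^ (J - 1)) ((l + 1) * b ^ (J - 1)) := by
    rw [mem_Icc]; exact ⟨le_rfl, hmono⟩
  have m2 : (l + 1) * b ^ (J - 1) ∈ Icc (l * b ^ (J - 1)) ((l + 1) * b ^ (J - 1)) := by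
    rw [mem_Icc]; exact ⟨hmono, le_rfl⟩
  -- the case of two points of the range
  have key : ∀ x y : ℝ, 0 < x → 0 < y →
      ((l : ℝ) * (b : ℝ) ^ (L - 1) ≤ x ∧ x < ((l : ℝ) + 1) * (b : ℝ) ^ (L - 1)) →
      ((l : ℝ) * (b : ℝ) ^ (L - 1) ≤ y ∧ y < ((l : ℝ) + 1) * (b : ℝ) ^ (L - 1)) →
      ⌊x / (b : ℝ) ^ (L - J)⌋₊ < ⌊y / (b : ℝ) ^ (L - J)⌋₊ →
      ∃ u ∈ Icc (l * b ^ (J - 1)) ((l + 1) * b ^ (J - 1)),
        x ≤ u * (b : ℝ) ^ (L - J) ∧ (u : ℝ) * (b : ℝ) ^ (L - J) ≤ y := by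
    intro x y hx hy hx1 hy1 hlt
    refine ⟨⌊y / (b : ℝ) ^ (L - J)⌋₊, ?_, ?_, ?_⟩
    · rw [mem_Icc]
      constructor
      · apply Nat.le_floor
        rw [le_div_iff₀ hc, e1]; exact hy1.1
      · have : ⌊y / (b : ℝ) ^ (L - J)⌋₊ < (l + 1) * b ^ (J - 1) := by
          rw [Nat.floor_lt (by positivity), div_lt_iff₀ hc, e2]
          exact hy1.2
        exact this.le
    · have h1 := Nat.lt_floor_add_one (x / (b : ℝ) ^ (L - J))
      rw [div_lt_iff₀ hc] at h1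
      have h2 : ((⌊x / (b : ℝ) ^ (L - J)⌋₊ : ℝ) + 1) ≤ (⌊y / (b : ℝ) ^ (L - J)⌋₊ : ℝ) := by
        exact_mod_cast hlt
      exact h1.le.trans (mul_le_mul_of_nonneg_right h2 hc.le)
    · have h1 := Nat.floor_le (show 0 ≤ y / (b : ℝ) ^ (L - J) by positivity)
      rwa [le_div_iff₀ hc] at h1
  by_cases hxs : ((l : ℝ) * (b : ℝ) ^ (L - 1) ≤ x ∧ x < ((l : ℝ) + 1) * (b : ℝ) ^ (L - 1))
  · by_cases hys : ((l : ℝ) * (b : ℝ) ^ (L - 1) ≤ y ∧ y < ((l : ℝ) + 1) * (b : ℝ) ^ (L - 1))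
    · rcases lt_trichotomy ⌊x / (b : ℝ) ^ (L - J)⌋₊ ⌊y / (b : ℝ) ^ (L - J)⌋₊ with hlt | heq | hlt
      · obtain ⟨u, hu, h1⟩ := key x y hx0 hy0 hxs hys hlt
        exact ⟨u, hu, Or.inl h1⟩
      · exact absurd ⟨hxs, hys, heq⟩ h
      · obtain ⟨u, hu, h1⟩ := key y x hy0 hx0 hys hxs hlt
        exact ⟨u, hu, Or.inr h1⟩
    · rw [not_and_or, not_le, not_lt] at hys
      rcases hys with hys | hys
      · refine ⟨_, m1, Or.inr ?_⟩
        rw [e1]; exact ⟨hys.le, hxs.1⟩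
      · refine ⟨_, m2, Or.inl ?_⟩
        rw [e2]; exact ⟨hxs.2.le, hys⟩
  · have hys := h'.resolve_left hxs
    rw [not_and_or, not_le, not_lt] at hxs
    rcases hxs with hxs | hxs
    · refine ⟨_, m1, Or.inl ?_⟩
      rw [e1]; exact ⟨hxs.le, hys.1⟩
    · refine ⟨_, m2, Or.inr ?_⟩
      rw [e2]; exact ⟨hys.2.le, hxs⟩

theorem cp1_supp (b L l : ℕ) (hb : 2 ≤ b) (hL : 1 ≤ L) (hl : 1 ≤ l) (hlb : l < b) (v : ℝ)
    (h1 : (l : ℝ) * (b : ℝ) ^ (L - 1) ≤ Real.exp v) (h2 : Real.exp v < ((l : ℝ) + 1) * (b : ℝ) ^ (L - 1)) :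
    xL b L - Real.log b ≤ v ∧ v ≤ xL b L := by
  have hb0 : (0 : ℝ) < b := by exact_mod_cast (by omega : 0 < b)
  have hl1 : (1 : ℝ) ≤ l := by exact_mod_cast hl
  have hlb1 : (l : ℝ) + 1 ≤ b := by exact_mod_cast hlb
  have e0 : (b : ℝ) ^ L = b * (b : ℝ) ^ (L - 1) := by
    rw [← pow_succ']; congr 1; omega
  have hp : (0 : ℝ) < (b : ℝ) ^ (L - 1) := by positivity
  constructor
  · rw [← Real.exp_le_exp, Real.exp_sub, cp1_exp_xL b L hb, Real.exp_log hb0, e0,
      mul_div_cancel_left₀ _ hb0.ne']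
    nlinarith
  · rw [← Real.exp_le_exp, cp1_exp_xL b L hb, e0]
    nlinarith

theorem cp1_meas (b L J N l r : ℕ) (χ : DirichletCharacter ℂ (QQ b J)) :
    Measurable (Fp b L J N l r χ) := by
  unfold Fp
  refine Measurable.ite ?_ ?_ measurable_const
  · exact (measurableSet_le measurable_const Real.measurable_exp).inter
      (measurableSet_lt Real.measurable_exp measurable_const)
  · refine Measurable.mul ?_ ?_
    · exact (measurable_from_nat (f := fun u : ℕ =>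
        (starRingEnd ℂ) (χ ((Zf b L J r N u : ℤ) : ZMod (QQ b J))))).comp
        (Nat.measurable_floor.comp (Real.measurable_exp.div_const _))
    · exact Complex.measurable_ofReal.comp (cp1_E_cont b L).measurable

theorem cp1_norm_le (b L J N l r : ℕ) (χ : DirichletCharacter ℂ (QQ b J)) (v : ℝ) :
    ‖Fp b L J N l r χ v‖ ≤ cp1_E b L v := by
  unfold Fp
  split_ifs with h
  · rw [norm_mul, RCLike.norm_conj, Complex.norm_real, Real.norm_eq_abs]
    have h1 := DirichletCharacter.norm_le_one χ ((Zf b L J r N ⌊Real.exp v / (b : ℝ) ^ (L - J)⌋₊ : ℤ) : ZMod (QQ b J))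
    have h2 : |Real.exp v / gw (v - xL b L)| = cp1_E b L v := by
      rw [← abs_of_nonneg (cp1_E_nonneg b L v)]; rfl
    rw [h2]
    exact mul_le_of_le_one_left (cp1_E_nonneg b L v) h1
  · rw [norm_zero]; exact cp1_E_nonneg b L v

theorem cp1_bound (b L J N l r : ℕ) (hb : 2 ≤ b) (hL : 1 ≤ L) (hl : 1 ≤ l) (hlb : l < b)
    (χ : DirichletCharacter ℂ (QQ b J)) (v : ℝ) :
    ‖Fp b L J N l r χ v‖ ≤ (Set.Icc (xL b L - Real.log b) (xL b L)).indicator
      (fun _ => cp1_K b * (b : ℝ) ^ L) v := by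
  by_cases h : (l : ℝ) * (b : ℝ) ^ (L - 1) ≤ Real.exp v ∧ Real.exp v < ((l : ℝ) + 1) * (b : ℝ) ^ (L - 1)
  · have h1 := cp1_supp b L l hb hL hl hlb v h.1 h.2
    rw [Set.indicator_of_mem (show v ∈ Set.Icc _ _ from h1)]
    exact (cp1_norm_le b L J N l r χ v).trans (cp1_E_le b L hb v h1.1 h1.2)
  · have h0 : Fp b L J N l r χ v = 0 := by
      unfold Fp; rw [if_neg h]
    rw [h0, norm_zero]
    apply Set.indicator_nonneg
    intro _ _
    have := cp1_K_pos b
    positivity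

theorem Fp_props (b : ℕ) (hb : 2 ≤ b) : ∃ C : ℝ, 0 < C ∧ ∀ L J N l r : ℕ, Adm b L J → 1 ≤ l → l < b →
    ∀ χ : DirichletCharacter ℂ (QQ b J),
    Integrable (Fp b L J N l r χ) ∧ (∀ v, ‖Fp b L J N l r χ v‖ ≤ C * (b : ℝ) ^ L) ∧
    (∫ v, ‖Fp b L J N l r χ v‖) ≤ C * (b : ℝ) ^ L ∧
    ∀ k : ℕ, GoodK b L J l k → ∀ w : ℝ, ‖Fp b L J N l r χ w - Fp b L J N l r χ (Real.log k)‖ ≤
      C * (b : ℝ) ^ (L + 3 * J) * |w - Real.log k| := by
  have hb0 : (0 : ℝ) < b := by exact_mod_cast (by omega : 0 < b)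
  have hb1 : (1 : ℝ) ≤ b := by exact_mod_cast (by omega : 1 ≤ b)
  have hb2 : (2 : ℝ) ≤ b := by exact_mod_cast hb
  have hlg : 0 ≤ Real.log b := Real.log_nonneg hb1
  have hK := cp1_K_pos b
  refine ⟨cp1_K b * (4 * b + Real.log b + 1), by positivity, ?_⟩
  intro L J N l r hA hl hlb χ
  obtain ⟨-, hJ, -, hLJ⟩ := hA
  have hL : 1 ≤ L := by omega
  have hbL : (0 : ℝ) < (b : ℝ) ^ L := by positivity
  set B : ℝ := cp1_K b * (b : ℝ) ^ L with hB
  have hB0 : 0 < B := by positivity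
  have hbd := cp1_bound b L J N l r hb hL hl hlb χ
  have hind : Integrable ((Set.Icc (xL b L - Real.log b) (xL b L)).indicator (fun _ : ℝ => B)) := by
    rw [integrable_indicator_iff measurableSet_Icc]
    exact integrableOn_const (by simp)
  have hint : Integrable (Fp b L J N l r χ) :=
    hind.mono' (cp1_meas b L J N l r χ).aestronglyMeasurable (Filter.Eventually.of_forall hbd)
  have hB1 : ∀ v, ‖Fp b L J N l r χ v‖ ≤ B := by
    intro v
    refine (hbd v).trans ?_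
    apply Set.indicator_le' (fun _ _ => le_rfl) (fun _ _ => hB0.le)
  refine ⟨hint, ?_, ?_, ?_⟩
  · intro v
    refine (hB1 v).trans ?_
    rw [hB]
    have : cp1_K b ≤ cp1_K b * (4 * b + Real.log b + 1) := by nlinarith
    exact mul_le_mul_of_nonneg_right this hbL.le
  · calc (∫ v, ‖Fp b L J N l r χ v‖) ≤ ∫ v, (Set.Icc (xL b L - Real.log b) (xL b L)).indicator (fun _ => B) v :=
          integral_mono hint.norm hind hbd
      _ = Real.log b * B := by
          rw [integral_indicator measurableSet_Icc, setIntegral_const]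
          simp only [Measure.real, Real.volume_Icc, smul_eq_mul]
          rw [ENNReal.toReal_ofReal (by linarith)]
          ring
      _ ≤ _ := by
          rw [hB]
          have h1 : Real.log b * cp1_K b ≤ cp1_K b * (4 * b + Real.log b + 1) := by nlinarith
          calc Real.log b * (cp1_K b * (b : ℝ) ^ L) = (Real.log b * cp1_K b) * (b : ℝ) ^ L := by ring
            _ ≤ _ := mul_le_mul_of_nonneg_right h1 hbL.le
  · rintro k ⟨hk1, hk⟩ w
    have hk0 : (0 : ℝ) < k := by exact_mod_cast hk1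
    have h3J : (1 : ℝ) ≤ (b : ℝ) ^ (3 * J) := one_le_pow₀ hb1
    have hsum : ‖Fp b L J N l r χ w - Fp b L J N l r χ (Real.log k)‖ ≤ 2 * B := by
      refine (norm_sub_le _ _).trans ?_
      linarith [hB1 w, hB1 (Real.log k)]
    have habs : 0 ≤ |w - Real.log k| := abs_nonneg _
    have htarget : ∀ c : ℝ, 0 ≤ c → c ≤ 4 * b + Real.log b + 1 →
        c * B * (b : ℝ) ^ (3 * J) * |w - Real.log k| ≤
        cp1_K b * (4 * b + Real.log b + 1) * (b : ℝ) ^ (L + 3 * J) * |w - Real.log k| := by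
      intro c hc0 hc
      apply mul_le_mul_of_nonneg_right _ habs
      rw [hB, pow_add]
      have : c * cp1_K b ≤ cp1_K b * (4 * b + Real.log b + 1) := by
        rw [mul_comm]; exact mul_le_mul_of_nonneg_left hc hK.le
      calc c * (cp1_K b * (b : ℝ) ^ L) * (b : ℝ) ^ (3 * J)
          = (c * cp1_K b) * ((b : ℝ) ^ L * (b : ℝ) ^ (3 * J)) := by ring
        _ ≤ _ := mul_le_mul_of_nonneg_right this (by positivity)
    by_cases hfar : 1 / 2 ≤ |w - Real.log k|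
    · refine hsum.trans (le_trans ?_ (htarget 4 (by norm_num) (by linarith)))
      have h1 : 1 / 2 * 1 ≤ |w - Real.log k| * (b : ℝ) ^ (3 * J) :=
        mul_le_mul hfar h3J (by norm_num) habs
      nlinarith
    rw [not_le] at hfar
    by_cases hsame : (((l : ℝ) * (b : ℝ) ^ (L - 1) ≤ Real.exp w ∧ Real.exp w < ((l : ℝ) + 1) * (b : ℝ) ^ (L - 1)) ∧
      ((l : ℝ) * (b : ℝ) ^ (L - 1) ≤ (k : ℝ) ∧ (k : ℝ) < ((l : ℝ) + 1) * (b : ℝ) ^ (L - 1)) ∧
      ⌊Real.exp w / (b : ℝ) ^ (L - J)⌋₊ = ⌊(k : ℝ) / (b : ℝ) ^ (L - J)⌋₊)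
    · -- same cell
      obtain ⟨hw, hk2, hfl⟩ := hsame
      have hk2' : (l : ℝ) * (b : ℝ) ^ (L - 1) ≤ Real.exp (Real.log k) ∧
          Real.exp (Real.log k) < ((l : ℝ) + 1) * (b : ℝ) ^ (L - 1) := by
        rwa [Real.exp_log hk0]
      have hws := cp1_supp b L l hb hL hl hlb w hw.1 hw.2
      have hks := cp1_supp b L l hb hL hl hlb (Real.log k) hk2'.1 hk2'.2
      have e1 : Fp b L J N l r χ w - Fp b L J N l r χ (Real.log k) =
          (starRingEnd ℂ) (χ ((Zf b L J r N ⌊(k : ℝ) / (b : ℝ) ^ (L - J)⌋₊ : ℤ) : ZMod (QQ b J))) *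
            (((cp1_E b L w - cp1_E b L (Real.log k) : ℝ)) : ℂ) := by
        unfold Fp
        rw [if_pos hw, if_pos hk2', hfl, Real.exp_log hk0]
        unfold cp1_E
        rw [Real.exp_log hk0]
        push_cast
        ring
      rw [e1, norm_mul, RCLike.norm_conj, Complex.norm_real, Real.norm_eq_abs]
      have h1 := DirichletCharacter.norm_le_one χ ((Zf b L J r N ⌊(k : ℝ) / (b : ℝ) ^ (L - J)⌋₊ : ℤ) : ZMod (QQ b J))
      have h2 := cp1_E_lip b L hb (Real.log k) w hks.1 hks.2 hws.1 hws.2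
      refine (mul_le_of_le_one_left (abs_nonneg _) h1).trans (h2.trans ?_)
      refine le_trans ?_ (htarget (1 + Real.log b) (by linarith) (by linarith))
      rw [← hB]
      apply mul_le_mul_of_nonneg_right _ habs
      have : 0 ≤ (1 + Real.log b) * B := by positivity
      nlinarith
    by_cases hone : ((l : ℝ) * (b : ℝ) ^ (L - 1) ≤ Real.exp w ∧ Real.exp w < ((l : ℝ) + 1) * (b : ℝ) ^ (L - 1)) ∨
      ((l : ℝ) * (b : ℝ) ^ (L - 1) ≤ (k : ℝ) ∧ (k : ℝ) < ((l : ℝ) + 1) * (b : ℝ) ^ (L - 1))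
    · obtain ⟨u, hu, hsep⟩ := cp1_sep b L J l hb hJ (by omega) (Real.exp w) k (Real.exp_pos _) hk0 hsame hone
      have hku := hk u hu
      have hd : (b : ℝ) ^ (L - 3 * J) ≤ |Real.exp w - k| := by
        refine hku.trans ?_
        rcases hsep with ⟨h1, h2⟩ | ⟨h1, h2⟩
        · rw [abs_of_nonneg (by linarith), abs_sub_comm, abs_of_nonneg (by linarith)]
          linarith
        · rw [abs_sub_comm, abs_of_nonneg (by linarith), abs_of_nonneg (by linarith)]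
          linarith
      -- both are at most b^(L+1)
      have hmax : Real.exp w ≤ (b : ℝ) ^ (L + 1) ∧ (k : ℝ) ≤ (b : ℝ) ^ (L + 1) := by
        have he : Real.exp (1 / 2) ≤ 2 := by
          have h1 : Real.exp (1 / 2) ^ 2 = Real.exp 1 := by
            rw [← Real.exp_nat_mul]; norm_num
          have h2 := Real.exp_one_lt_d9
          have h3 : (0 : ℝ) < Real.exp (1 / 2) := Real.exp_pos _
          nlinarith
        have hbb : 2 * (b : ℝ) ^ L ≤ (b : ℝ) ^ (L + 1) := by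
          rw [pow_succ']; nlinarith
        have hwk := abs_lt.mp hfar
        rcases hone with h1 | h1
        · have hws := cp1_supp b L l hb hL hl hlb w h1.1 h1.2
          have h2 : Real.exp w ≤ (b : ℝ) ^ L := by
            rw [← cp1_exp_xL b L hb]; exact Real.exp_le_exp.mpr hws.2
          refine ⟨by linarith, ?_⟩
          have h3 : (k : ℝ) = Real.exp (Real.log k) := (Real.exp_log hk0).symm
          have h4 : Real.exp (Real.log k) ≤ Real.exp (w + 1 / 2) := Real.exp_le_exp.mpr (by linarith)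
          rw [Real.exp_add] at h4
          have h5 : Real.exp w * Real.exp (1 / 2) ≤ (b : ℝ) ^ L * 2 :=
            mul_le_mul h2 he (Real.exp_pos _).le hbL.le
          linarith
        · have h1' : (l : ℝ) * (b : ℝ) ^ (L - 1) ≤ Real.exp (Real.log k) ∧
              Real.exp (Real.log k) < ((l : ℝ) + 1) * (b : ℝ) ^ (L - 1) := by
            rwa [Real.exp_log hk0]
          have hks := cp1_supp b L l hb hL hl hlb (Real.log k) h1'.1 h1'.2
          have h2 : Real.exp (Real.log k) ≤ (b : ℝ) ^ L := by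
            rw [← cp1_exp_xL b L hb]; exact Real.exp_le_exp.mpr hks.2
          have h3 : (k : ℝ) = Real.exp (Real.log k) := (Real.exp_log hk0).symm
          refine ⟨?_, by linarith⟩
          have h4 : Real.exp w ≤ Real.exp (Real.log k + 1 / 2) := Real.exp_le_exp.mpr (by linarith)
          rw [Real.exp_add] at h4
          have h5 : Real.exp (Real.log k) * Real.exp (1 / 2) ≤ (b : ℝ) ^ L * 2 :=
            mul_le_mul h2 he (Real.exp_pos _).le hbL.le
          linarith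
      have hls := cp1_log_sep (Real.exp w) k ((b : ℝ) ^ (L + 1)) (Real.exp_pos _) hk0 hmax.1 hmax.2
      rw [Real.log_exp] at hls
      have hpow : (b : ℝ) ^ L ≤ (b : ℝ) ^ (3 * J) * (b : ℝ) ^ (L - 3 * J) := by
        rw [← pow_add]; apply le_of_eq; congr 1; omega
      have h6 : 1 ≤ b * (b : ℝ) ^ (3 * J) * |w - Real.log k| := by
        have h7 : (b : ℝ) ^ L * 1 ≤ (b : ℝ) ^ L * (b * (b : ℝ) ^ (3 * J) * |w - Real.log k|) := by
          calc (b : ℝ) ^ L * 1 ≤ (b : ℝ) ^ (3 * J) * (b : ℝ) ^ (L - 3 * J) := by linarith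
            _ ≤ (b : ℝ) ^ (3 * J) * ((b : ℝ) ^ (L + 1) * |w - Real.log k|) :=
                mul_le_mul_of_nonneg_left (hd.trans hls) (by positivity)
            _ = _ := by rw [pow_succ]; ring
        exact le_of_mul_le_mul_left h7 hbL
      refine hsum.trans (le_trans ?_ (htarget (4 * b) (by linarith) (by linarith)))
      have : 2 * B * 1 ≤ 2 * B * (b * (b : ℝ) ^ (3 * J) * |w - Real.log k|) :=
        mul_le_mul_of_nonneg_left h6 (by linarith)
      have h8 : 0 ≤ B * (b * (b : ℝ) ^ (3 * J) * |w - Real.log k|) := by positivity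
      nlinarith
    · rw [not_or] at hone
      have e1 : Fp b L J N l r χ w = 0 := by
        unfold Fp; rw [if_neg hone.1]
      have e2 : Fp b L J N l r χ (Real.log k) = 0 := by
        unfold Fp
        rw [if_neg]
        rw [Real.exp_log hk0]; exact hone.2
      rw [e1, e2, sub_zero, norm_zero]
      have : 0 < 4 * (b : ℝ) + Real.log b + 1 := by linarith
      positivity

end Pool.Agent.LibHG31
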