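import Pool.Agent.LibHG31.CP1
import Pool.Agent.LibHG31.CA10

/-! ROW CP2: the bad `k` have small weight.
PLAN: bad and `k ≥ 1`: `|k - u b^(L-J)| < b^(L-3J)` for some `u ∈ Icc`, at most `b^(J-1)+1 ≤ b^J` values of `u`, so at most
`b^J (2 b^(L-3J) + 1) ≤ 3 b^(L-2J)` such `k`, and `b^(L-1)/2 ≤ k ≤ 2 b^L`: `|Dl b k| ≤ log k + kap b ≤ C L`, `gw ≤ 1`,
`1/k ≤ 2 b^(1-L)`. The sum is finite (`tsum_eq_sum`). -/

namespace Pool.Agent.LibHG31

open Finset Complex
open Pool.Agent.LibMaier (gw)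

theorem cp2_kap_nonneg (b : ℕ) : 0 ≤ kap b := by unfold kap; positivity

theorem cp2_Dl_le (b k : ℕ) (hk : 1 ≤ k) : |Dl b k| ≤ Real.log k + kap b := by
  unfold Dl
  have h1 : 0 ≤ ArithmeticFunction.vonMangoldt k := ArithmeticFunction.vonMangoldt_nonneg
  have h2 : ArithmeticFunction.vonMangoldt k ≤ Real.log k := ArithmeticFunction.vonMangoldt_le_log
  have h3 : 0 ≤ LamS b k ∧ LamS b k ≤ kap b := by
    unfold LamS
    have := cp2_kap_nonneg b
    split_ifs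
    · exact ⟨this, le_rfl⟩
    · exact ⟨le_rfl, this⟩
  have h4 : 0 ≤ Real.log k := Real.log_nonneg (by exact_mod_cast hk)
  have h5 := cp2_kap_nonneg b
  rw [abs_le]
  constructor <;> linarith [h3.1, h3.2]

theorem cp2_gw_le (v : ℝ) : 0 ≤ gw v ∧ gw v ≤ 1 := by
  unfold gw
  refine ⟨by positivity, ?_⟩
  rw [div_le_one (by positivity)]
  have h1 : Real.exp (-v ^ 2 / 2) ≤ 1 := by
    rw [Real.exp_le_one_iff]; nlinarith [sq_nonneg v]
  have h2 : (1 : ℝ) ≤ Real.sqrt (2 * Real.pi) := by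
    rw [Real.one_le_sqrt]; nlinarith [Real.pi_gt_three]
  linarith

/-- the bad `k` -/
def cp2_S (b L J l : ℕ) : Finset ℕ :=
  (Icc (l * b ^ (J - 1)) ((l + 1) * b ^ (J - 1))).biUnion
    (fun u => Ioo (u * b ^ (L - J) - b ^ (L - 3 * J)) (u * b ^ (L - J) + b ^ (L - 3 * J)))

theorem cp2_card (b L J l : ℕ) (hb : 2 ≤ b) (hJ : 1 ≤ J) (hL : 3 * J ≤ L) :
    (cp2_S b L J l).card ≤ 2 * b ^ (L - 2 * J) := by
  unfold cp2_S
  refine card_biUnion_le.trans ?_
  have h1 : ∀ u ∈ Icc (l * b ^ (J - 1)) ((l + 1) * b ^ (J - 1)),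
      (Ioo (u * b ^ (L - J) - b ^ (L - 3 * J)) (u * b ^ (L - J) + b ^ (L - 3 * J))).card ≤ 2 * b ^ (L - 3 * J) := by
    intro u _
    rw [Nat.card_Ioo]
    omega
  refine (sum_le_sum h1).trans ?_
  rw [sum_const, Nat.card_Icc, smul_eq_mul]
  have h2 : (l + 1) * b ^ (J - 1) + 1 - l * b ^ (J - 1) = b ^ (J - 1) + 1 := by
    rw [add_mul, one_mul]; omega
  rw [h2]
  have h3 : b ^ (J - 1) + 1 ≤ b ^ J := by
    have h4 : b ^ J = b * b ^ (J - 1) := by rw [← pow_succ']; congr 1; omega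
    have h5 : 1 ≤ b ^ (J - 1) := Nat.one_le_pow _ _ (by omega)
    rw [h4]; nlinarith
  calc (b ^ (J - 1) + 1) * (2 * b ^ (L - 3 * J)) ≤ b ^ J * (2 * b ^ (L - 3 * J)) :=
        Nat.mul_le_mul_right _ h3
    _ = 2 * b ^ (L - 2 * J) := by
        rw [show L - 2 * J = J + (L - 3 * J) by omega, pow_add]; ring

theorem cp2_mem (b L J l k : ℕ) (hk1 : 1 ≤ k) (h : ¬ GoodK b L J l k) : k ∈ cp2_S b L J l := by
  unfold GoodK at h
  rw [not_and] at h
  have h1 := h hk1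
  push Not at h1
  obtain ⟨u, hu, hlt⟩ := h1
  unfold cp2_S
  rw [mem_biUnion]
  refine ⟨u, hu, ?_⟩
  rw [mem_Ioo]
  have h2 := abs_lt.mp hlt
  have h3 : (k : ℝ) < ((u * b ^ (L - J) + b ^ (L - 3 * J) : ℕ) : ℝ) := by push_cast; linarith [h2.2]
  have h4 : ((u * b ^ (L - J) : ℕ) : ℝ) < ((k + b ^ (L - 3 * J) : ℕ) : ℝ) := by push_cast; linarith [h2.1]
  have h3' : k < u * b ^ (L - J) + b ^ (L - 3 * J) := by exact_mod_cast h3
  have h4' : u * b ^ (L - J) < k + b ^ (L - 3 * J) := by exact_mod_cast h4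
  refine ⟨?_, h3'⟩
  omega

theorem cp2_bounds (b L J l k : ℕ) (hb : 2 ≤ b) (hJ : 1 ≤ J) (hL : 3 * J ≤ L) (hl : 1 ≤ l) (hlb : l < b)
    (hk : k ∈ cp2_S b L J l) : b ^ (L - 1) ≤ 2 * k ∧ k ≤ 2 * b ^ L := by
  unfold cp2_S at hk
  rw [mem_biUnion] at hk
  obtain ⟨u, hu, hk⟩ := hk
  rw [mem_Icc] at hu
  rw [mem_Ioo] at hk
  have e0 : b ^ (L - 1) = b ^ (J - 1) * b ^ (L - J) := by
    rw [← pow_add]; congr 1; omega
  have e1 : b ^ L = b * b ^ (L - 1) := by rw [← pow_succ']; congr 1; omega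
  have e2 : 2 * b ^ (L - 3 * J) ≤ b ^ (L - 1) := by
    have h1 : b ^ (L - 3 * J) ≤ b ^ (L - 2) := Nat.pow_le_pow_right (by omega) (by omega)
    have h2 : b ^ (L - 1) = b * b ^ (L - 2) := by rw [← pow_succ']; congr 1; omega
    have h3 : 2 * b ^ (L - 2) ≤ b * b ^ (L - 2) := Nat.mul_le_mul_right _ hb
    omega
  have e3 : b ^ (L - 1) ≤ u * b ^ (L - J) := by
    rw [e0]
    apply Nat.mul_le_mul_right
    calc b ^ (J - 1) = 1 * b ^ (J - 1) := (one_mul _).symm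
      _ ≤ l * b ^ (J - 1) := Nat.mul_le_mul_right _ hl
      _ ≤ u := hu.1
  have e4 : u * b ^ (L - J) ≤ b ^ L := by
    calc u * b ^ (L - J) ≤ ((l + 1) * b ^ (J - 1)) * b ^ (L - J) := Nat.mul_le_mul_right _ hu.2
      _ = (l + 1) * b ^ (L - 1) := by rw [e0]; ring
      _ ≤ b * b ^ (L - 1) := Nat.mul_le_mul_right _ (by omega)
      _ = b ^ L := e1.symm
  have e5 : b ^ (L - 1) ≤ b ^ L := Nat.pow_le_pow_right (by omega) (by omega)
  constructor
  · omega
  · omega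

open scoped Classical in
theorem bad_sum (b : ℕ) (hb : 2 ≤ b) : ∃ C : ℝ, 0 < C ∧ ∀ L J l : ℕ, Adm b L J → 1 ≤ l → l < b →
    ∑' k : ℕ, (if GoodK b L J l k then 0 else |Dl b k| * (gw (Real.log k - xL b L) / k)) ≤
      C * L / (b : ℝ) ^ (2 * J) := by
  have hb0 : (0 : ℝ) < b := by exact_mod_cast (by omega : 0 < b)
  have hb1 : (1 : ℝ) ≤ b := by exact_mod_cast (by omega : 1 ≤ b)
  have hlg : 0 ≤ Real.log b := Real.log_nonneg hb1
  have hl2 : 0 < Real.log 2 := Real.log_pos (by norm_num)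
  have hkap := cp2_kap_nonneg b
  refine ⟨4 * b * (Real.log 2 + Real.log b + kap b), by positivity, ?_⟩
  intro L J l hA hl hlb
  obtain ⟨-, hJ, -, hLJ⟩ := hA
  have hL3 : 3 * J ≤ L := by omega
  have hL1 : 1 ≤ L := by omega
  have hL1' : (1 : ℝ) ≤ L := by exact_mod_cast hL1
  set f : ℕ → ℝ := fun k => if GoodK b L J l k then 0 else |Dl b k| * (gw (Real.log k - xL b L) / k) with hf
  have hz : ∀ k, k ∉ cp2_S b L J l → f k = 0 := by
    intro k hk
    rw [hf]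
    simp only
    rcases Nat.eq_zero_or_pos k with h0 | h1
    · subst h0
      simp
    · by_cases hg : GoodK b L J l k
      · rw [if_pos hg]
      · exact absurd (cp2_mem b L J l k h1 hg) hk
  rw [tsum_eq_sum (s := cp2_S b L J l) (fun k hk => hz k hk)]
  set D : ℝ := (Real.log 2 + Real.log b + kap b) * L * (2 * b / (b : ℝ) ^ L) with hD
  have hD0 : 0 ≤ D := by positivity
  have hterm : ∀ k ∈ cp2_S b L J l, f k ≤ D := by
    intro k hk
    obtain ⟨h1, h2⟩ := cp2_bounds b L J l k hb hJ hL3 hl hlb hk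
    rw [hf]
    simp only
    split_ifs with hg
    · exact hD0
    · have hbp : 1 ≤ b ^ (L - 1) := Nat.one_le_pow _ _ (by omega)
      have hk1 : 1 ≤ k := by omega
      have hk0 : (0 : ℝ) < k := by exact_mod_cast hk1
      have h3 := cp2_Dl_le b k hk1
      have h4 : Real.log k ≤ Real.log 2 + L * Real.log b := by
        have : (k : ℝ) ≤ 2 * (b : ℝ) ^ L := by exact_mod_cast h2
        calc Real.log k ≤ Real.log (2 * (b : ℝ) ^ L) := Real.log_le_log hk0 this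
          _ = Real.log 2 + L * Real.log b := by
            rw [Real.log_mul (by norm_num) (by positivity), Real.log_pow]
      have h5 : |Dl b k| ≤ (Real.log 2 + Real.log b + kap b) * L := by
        have : Real.log 2 ≤ Real.log 2 * L := by nlinarith
        have : kap b ≤ kap b * L := by nlinarith
        linarith
      have h6 := cp2_gw_le (Real.log k - xL b L)
      have h7 : gw (Real.log k - xL b L) / k ≤ 2 * b / (b : ℝ) ^ L := by
        have h8 : (b : ℝ) ^ L ≤ 2 * b * k := by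
          have h9 : ((b ^ (L - 1) : ℕ) : ℝ) ≤ ((2 * k : ℕ) : ℝ) := by exact_mod_cast h1
          push_cast at h9
          have h10 : (b : ℝ) ^ L = b * (b : ℝ) ^ (L - 1) := by rw [← pow_succ']; congr 1; omega
          rw [h10]; nlinarith
        calc gw (Real.log k - xL b L) / k ≤ 1 / k := div_le_div_of_nonneg_right h6.2 hk0.le
          _ ≤ 2 * b / (b : ℝ) ^ L := by
            rw [div_le_div_iff₀ hk0 (by positivity)]; linarith
      rw [hD]
      exact mul_le_mul h5 h7 (div_nonneg h6.1 hk0.le) (by positivity)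
  refine (sum_le_card_nsmul _ _ _ hterm).trans ?_
  rw [nsmul_eq_mul]
  have hc : (((cp2_S b L J l).card : ℕ) : ℝ) ≤ 2 * (b : ℝ) ^ (L - 2 * J) := by
    exact_mod_cast cp2_card b L J l hb hJ hL3
  have hp : (b : ℝ) ^ L = (b : ℝ) ^ (L - 2 * J) * (b : ℝ) ^ (2 * J) := by
    rw [← pow_add]; congr 1; omega
  calc (((cp2_S b L J l).card : ℕ) : ℝ) * D ≤ 2 * (b : ℝ) ^ (L - 2 * J) * D :=
        mul_le_mul_of_nonneg_right hc hD0
    _ = 4 * b * (Real.log 2 + Real.log b + kap b) * L / (b : ℝ) ^ (2 * J) := by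
        rw [hD, hp]
        have h1 : (b : ℝ) ^ (L - 2 * J) ≠ 0 := by positivity
        have h2 : (b : ℝ) ^ (2 * J) ≠ 0 := by positivity
        field_simp
        ring
    _ ≤ _ := le_rfl

end Pool.Agent.LibHG31
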