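import Pool.Agent.LibHG31.CP1

/-! ROW CP3: the Fourier transform of the prefix function, from (C2).
PLAN. Let `j` be the smallest level such that `χ` factors through `QQ b j` (so `j0 < j ≤ J`; `Nat.find`), `χ = changeLevel χ'`.
For a cell `u` (J digits, leading digit `l`): `Zf b L J r N u` is a unit mod `QQ b J` (`≡ N - l mod b`, `≡ N - b^(L-1) r mod D0`), and
`χ(Zf_J(u)) = χ'(Zf_j(u'))` with `u' = u / b^(J-j)` (`rv b J u ≡ rv b j (u / b^(J-j)) mod b^j`; both `≡ N - b^(L-1) r mod D0`).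
So `Fp` is constant (times `e^v/gw(v - xL)`) on the cells of level `j`: `u' b^(L-j) ≤ e^v < (u'+1) b^(L-j)`, and with
`e^v = y b^(L-j)`: `FT Fp lam = b^(-iλ(L-j)) ∑_{u'} conj χ'(Zf_j u') ∫_{u'}^{u'+1} b^L (y/b^j)/gw(log (y/b^j)) y^(-iλ) dy/y`.
`C2Stmt` with `χ'⁻¹` (`conj χ' = χ'⁻¹`; `χ'` does not factor through `QQ b (j-1)` by minimality, nor does `χ'⁻¹`), `Z = Zf b L j r N`,
`z = N - b^(L-1) r`, `-lam`, `W(s) = (s/b)/gw(log(s/b))` on `[1/2, b+1]` clipped and divided by a constant `C_b`; `b^(-cj) ≤ b^(-c j0)`. -/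

namespace Pool.Agent.LibHG31

open Finset Complex MeasureTheory
open scoped ComplexConjugate
open Pool.Agent.LibMaier (gw)

/-- congruences of `Zf` -/
theorem Zf_mod (b L J r N u : ℕ) (hb : 2 ≤ b) : Zf b L J r N u ≡ (N : ℤ) - rv b J u [ZMOD ((b : ℤ) ^ J)] ∧
    Zf b L J r N u ≡ (N : ℤ) - (b : ℤ) ^ (L - 1) * r [ZMOD (D0 b : ℤ)] := by
  constructor
  · rw [Int.modEq_iff_dvd]
    unfold Zf
    refine ⟨(b : ℤ) ^ J * ((b : ℤ) ^ (L - 1) * r - rv b J u), ?_⟩
    rw [two_mul, pow_add]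
    ring
  · have h1 : (b : ℤ) ^ 2 ≡ 1 [ZMOD (D0 b : ℤ)] := by
      rw [Int.modEq_iff_dvd]
      refine ⟨-1, ?_⟩
      have h2 : (D0 b : ℤ) = (b : ℤ) ^ 2 - 1 := by
        unfold D0
        have : 1 ≤ b ^ 2 := Nat.one_le_pow _ _ (by omega)
        push_cast [Nat.cast_sub this]
        ring
      rw [h2]
      ring
    have h3 : (b : ℤ) ^ (2 * J) ≡ 1 [ZMOD (D0 b : ℤ)] := by
      rw [pow_mul]
      have := h1.pow J
      rwa [one_pow] at this
    unfold Zf
    have h4 := (h3.mul_right ((b : ℤ) ^ (L - 1) * r - rv b J u))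
    have h5 := (Int.ModEq.refl ((N : ℤ) - rv b J u) (n := (D0 b : ℤ))).sub h4
    have h6 : (N : ℤ) - rv b J u - 1 * ((b : ℤ) ^ (L - 1) * r - rv b J u) = (N : ℤ) - (b : ℤ) ^ (L - 1) * r := by
      ring
    rw [h6] at h5
    exact h5

theorem CP3_QQ_dvd (b : ℕ) {j J : ℕ} (h : j ≤ J) : QQ b j ∣ QQ b J :=
  Nat.mul_dvd_mul_left _ (pow_dvd_pow _ h)

theorem CP3_rv (b j J u : ℕ) (hj : j ≤ J) :
    (rv b J u : ℤ) ≡ rv b j (u / b ^ (J - j)) [ZMOD ((b : ℤ) ^ j)] := by
  have h : rv b J u = (∑ i ∈ range (J - j), dg b i u * b ^ (J - j - 1 - i)) * b ^ j +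
      rv b j (u / b ^ (J - j)) := by
    unfold rv
    have hJ : range J = range ((J - j) + j) := by
      congr 1
      omega
    rw [hJ, Finset.sum_range_add, Finset.sum_mul]
    congr 1
    · refine Finset.sum_congr rfl fun i hi => ?_
      rw [mem_range] at hi
      rw [mul_assoc, ← pow_add]
      congr 2
      omega
    · refine Finset.sum_congr rfl fun i hi => ?_
      rw [mem_range] at hi
      unfold dg
      rw [pow_add, ← Nat.div_div_eq_div_mul]
      congr 2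
      omega
  rw [h, Int.modEq_iff_dvd]
  refine ⟨-((∑ i ∈ range (J - j), dg b i u * b ^ (J - j - 1 - i) : ℕ) : ℤ), ?_⟩
  push_cast
  ring

theorem CP3_coprime (b j : ℕ) (hb : 2 ≤ b) : (D0 b).Coprime (b ^ j) := by
  apply Nat.Coprime.pow_right
  unfold D0
  have h1 : 2 ^ 2 ≤ b ^ 2 := Nat.pow_le_pow_left hb 2
  have h3 : (b ^ 2).Coprime (b ^ 2 - 1) := by
    have h2 : b ^ 2 = (b ^ 2 - 1) + 1 := by omega
    rw [h2]
    simp
  exact (Nat.Coprime.coprime_dvd_left (dvd_pow_self b (by norm_num)) h3).symm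

theorem CP3_char (b : ℕ) {j J : ℕ} (hb : 2 ≤ b) (hj1 : 1 ≤ j) (hjJ : j ≤ J)
    (χ' : DirichletCharacter ℂ (QQ b j)) (Z z : ℤ) (hz : Z ≡ z [ZMOD ((b : ℤ) ^ j)])
    (hz' : Z ≡ z [ZMOD (D0 b : ℤ)]) :
    DirichletCharacter.changeLevel (CP3_QQ_dvd b hjJ) χ' (Z : ZMod (QQ b J)) = χ' (z : ZMod (QQ b j)) := by
  have hzz : (Z : ZMod (QQ b j)) = (z : ZMod (QQ b j)) := by
    rw [ZMod.intCast_eq_intCast_iff]
    unfold QQ
    push_cast
    rw [← Int.modEq_and_modEq_iff_modEq_mul]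
    · exact ⟨hz', hz⟩
    · have h := CP3_coprime b j hb
      have e1 : (D0 b : ℤ).natAbs = D0 b := Int.natAbs_natCast _
      have e2 : ((b : ℤ) ^ j).natAbs = b ^ j := by
        rw [Int.natAbs_pow, Int.natAbs_natCast]
      rw [e1, e2]
      exact h
  by_cases hu : IsCoprime Z (QQ b J : ℤ)
  · rw [DirichletCharacter.changeLevel_eq_cast_of_dvd' _ _ hu, hzz]
  · have h1 : ¬ IsUnit (Z : ZMod (QQ b J)) := by
      rw [ZMod.coe_int_isUnit_iff_isCoprime, isCoprime_comm]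
      exact hu
    have h2 : ¬ IsUnit (z : ZMod (QQ b j)) := by
      intro h
      apply hu
      rw [← hzz, ZMod.coe_int_isUnit_iff_isCoprime] at h
      unfold QQ at h ⊢
      push_cast at h ⊢
      have h3 := IsCoprime.of_mul_left_left h
      have h4 := IsCoprime.of_mul_left_right h
      rw [IsCoprime.pow_left_iff (by omega)] at h4
      exact (IsCoprime.mul_left h3 (h4.pow_left)).symm
    rw [MulChar.map_nonunit _ h1, MulChar.map_nonunit _ h2]

/-- the weight -/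
noncomputable def CP3_W0 (b : ℕ) (s : ℝ) : ℝ :=
  s * (Real.sqrt (2 * Real.pi) * Real.exp ((Real.log (s / b)) ^ 2 / 2))

theorem CP3_W0_props (b : ℕ) (hb : 2 ≤ b) : ∃ K : ℝ, 0 < K ∧
    (∀ s ∈ Set.Icc (1 : ℝ) b, 0 ≤ CP3_W0 b s ∧ CP3_W0 b s ≤ K) ∧
    ∀ s ∈ Set.Icc (1 : ℝ) b, ∀ t ∈ Set.Icc (1 : ℝ) b, |CP3_W0 b s - CP3_W0 b t| ≤ K * |s - t| := by
  have hb0 : (2 : ℝ) ≤ b := by exact_mod_cast hb
  have hpi := Real.pi_pos
  set E := Real.exp ((Real.log b) ^ 2 / 2) with hE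
  have hlb : 0 ≤ Real.log b := Real.log_nonneg (by linarith)
  have hg : ∀ s ∈ Set.Icc (1 : ℝ) b, |Real.log (s / b)| ≤ Real.log b := by
    intro s hs
    rw [Real.log_div (by linarith [hs.1]) (by linarith), abs_le]
    have h1 := Real.log_nonneg hs.1
    have h2 := Real.log_le_log (by linarith [hs.1]) hs.2
    constructor <;> linarith
  have hexp : ∀ s ∈ Set.Icc (1 : ℝ) b, Real.exp ((Real.log (s / b)) ^ 2 / 2) ≤ E := by
    intro s hs
    apply Real.exp_le_exp.2
    have h1 := hg s hs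
    have h2 := sq_abs (Real.log (s / b))
    have h3 := abs_nonneg (Real.log (s / b))
    nlinarith
  have hs2 : 0 < Real.sqrt (2 * Real.pi) := Real.sqrt_pos.2 (by positivity)
  refine ⟨b * Real.sqrt (2 * Real.pi) * E * (1 + Real.log b), by positivity, ?_, ?_⟩
  · intro s hs
    have h1 := hexp s hs
    have h0 : 0 ≤ s := by linarith [hs.1]
    unfold CP3_W0
    constructor
    · positivity
    · calc s * (Real.sqrt (2 * Real.pi) * Real.exp ((Real.log (s / b)) ^ 2 / 2))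
          ≤ b * (Real.sqrt (2 * Real.pi) * E) := by
            gcongr
            exact hs.2
        _ ≤ b * (Real.sqrt (2 * Real.pi) * E) * (1 + Real.log b) := by
            apply le_mul_of_one_le_right (by positivity)
            linarith
        _ = b * Real.sqrt (2 * Real.pi) * E * (1 + Real.log b) := by ring
  · intro s hs t ht
    have hder : ∀ x ∈ Set.Icc (1 : ℝ) b, HasDerivWithinAt (CP3_W0 b)
        (Real.sqrt (2 * Real.pi) * Real.exp ((Real.log (x / b)) ^ 2 / 2) * (1 + Real.log (x / b)))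
        (Set.Icc (1 : ℝ) b) x := by
      intro x hx
      have hx0 : x ≠ 0 := by linarith [hx.1]
      have hbne : (b : ℝ) ≠ 0 := by linarith
      have h1 : HasDerivAt (fun y : ℝ => y / b) (1 / b) x := (hasDerivAt_id x).div_const _
      have h2 := h1.log (div_ne_zero hx0 hbne)
      have h3 := ((h2.pow 2).div_const 2).exp
      have h4 := (h3.const_mul (Real.sqrt (2 * Real.pi)))
      have h5 := ((hasDerivAt_id x).mul h4).hasDerivWithinAt (s := Set.Icc (1 : ℝ) b)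
      refine (h5.congr_deriv ?_)
      simp only [id, Pi.pow_apply]
      field_simp
      ring
    have hb1 : ∀ x ∈ Set.Icc (1 : ℝ) b,
        ‖Real.sqrt (2 * Real.pi) * Real.exp ((Real.log (x / b)) ^ 2 / 2) * (1 + Real.log (x / b))‖ ≤
        b * Real.sqrt (2 * Real.pi) * E * (1 + Real.log b) := by
      intro x hx
      rw [norm_mul, norm_mul, Real.norm_of_nonneg hs2.le, Real.norm_of_nonneg (Real.exp_pos _).le]
      have h1 := hexp x hx
      have h2 : ‖1 + Real.log (x / b)‖ ≤ 1 + Real.log b := by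
        refine (norm_add_le _ _).trans ?_
        rw [norm_one, Real.norm_eq_abs]
        linarith [hg x hx]
      have h3 : 0 < E := Real.exp_pos _
      calc Real.sqrt (2 * Real.pi) * Real.exp ((Real.log (x / b)) ^ 2 / 2) * ‖1 + Real.log (x / b)‖
          ≤ Real.sqrt (2 * Real.pi) * E * (1 + Real.log b) := by gcongr
        _ ≤ b * (Real.sqrt (2 * Real.pi) * E * (1 + Real.log b)) := by
            apply le_mul_of_one_le_left (by positivity)
            linarith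
        _ = b * Real.sqrt (2 * Real.pi) * E * (1 + Real.log b) := by ring
    have h := Convex.norm_image_sub_le_of_norm_hasDerivWithin_le hder hb1 (convex_Icc (1 : ℝ) b) ht hs
    rw [Real.norm_eq_abs, Real.norm_eq_abs] at h
    exact h

theorem CP3_cell (b L j u : ℕ) (hb : 2 ≤ b) (hj1 : 1 ≤ j) (hjL : j ≤ L) (hu1 : b ^ (j - 1) ≤ u)
    (hu2 : u + 1 ≤ b ^ j) (K : ℝ) (W : ℝ → ℝ) (hW : ∀ s ∈ Set.Icc (1 : ℝ) b, K * W s = CP3_W0 b s) (lam : ℝ) :
    ∫ v in Set.Ico (Real.log (u * (b : ℝ) ^ (L - j))) (Real.log ((u + 1) * (b : ℝ) ^ (L - j))),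
      ((Real.exp v / gw (v - xL b L) : ℝ) : ℂ) * cexp (-(((lam * v : ℝ) : ℂ) * I)) =
    cexp (-(((lam * Real.log ((b : ℝ) ^ (L - j)) : ℝ) : ℂ) * I)) * (((b : ℝ) ^ (L - 1) * K : ℝ) : ℂ) *
      ∫ y in (u : ℝ)..(u + 1), ((W (y / b ^ (j - 1)) / y : ℝ) : ℂ) *
          (y : ℂ) ^ (((-lam : ℝ) : ℂ) * Complex.I) := by
  have hb0 : (2 : ℝ) ≤ b := by exact_mod_cast hb
  have hbpos : (0 : ℝ) < b := by linarith
  have hβ : (0 : ℝ) < (b : ℝ) ^ (L - j) := by positivity
  have hu0 : (1 : ℝ) ≤ u := by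
    have h1 : 1 ≤ b ^ (j - 1) := Nat.one_le_pow _ _ (by omega)
    exact_mod_cast h1.trans hu1
  have hle : Real.log (u * (b : ℝ) ^ (L - j)) ≤ Real.log ((u + 1) * (b : ℝ) ^ (L - j)) := by
    apply Real.log_le_log (by positivity)
    gcongr
    linarith
  rw [integral_Ico_eq_integral_Ioc, ← intervalIntegral.integral_of_le hle]
  have hcont : Continuous (fun v : ℝ => ((Real.exp v / gw (v - xL b L) : ℝ) : ℂ) *
      cexp (-(((lam * v : ℝ) : ℂ) * I))) := by
    have hgw : ∀ v : ℝ, gw (v - xL b L) ≠ 0 := by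
      intro v
      unfold gw
      positivity
    have hgc : Continuous (fun v : ℝ => gw (v - xL b L)) := by
      unfold gw
      fun_prop
    have h1 : Continuous (fun v : ℝ => Real.exp v / gw (v - xL b L)) :=
      Real.continuous_exp.div hgc hgw
    fun_prop
  have hsub := intervalIntegral.integral_deriv_smul_comp (a := (u : ℝ)) (b := (u : ℝ) + 1)
    (f := fun y : ℝ => Real.log (y * (b : ℝ) ^ (L - j))) (f' := fun y : ℝ => y⁻¹)
    (g := fun v : ℝ => ((Real.exp v / gw (v - xL b L) : ℝ) : ℂ) * cexp (-(((lam * v : ℝ) : ℂ) * I)))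
    (by
      intro x hx
      rw [Set.uIcc_of_le (by linarith)] at hx
      have hx0 : (0 : ℝ) < x := by linarith [hx.1]
      have h1 : HasDerivAt (fun y : ℝ => y * (b : ℝ) ^ (L - j)) ((b : ℝ) ^ (L - j)) x := by
        simpa using (hasDerivAt_id x).mul_const ((b : ℝ) ^ (L - j))
      have h2 := h1.log (by positivity)
      refine h2.congr_deriv ?_
      field_simp)
    (by
      apply ContinuousOn.inv₀ continuousOn_id
      intro x hx
      rw [Set.uIcc_of_le (by linarith)] at hx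
      have : (0 : ℝ) < x := by linarith [hx.1]
      exact this.ne')
    hcont
  rw [← hsub, ← intervalIntegral.integral_const_mul]
  apply intervalIntegral.integral_congr
  intro y hy
  rw [Set.uIcc_of_le (by linarith)] at hy
  have hy0 : (0 : ℝ) < y := by linarith [hy.1]
  simp only [Function.comp]
  -- the real part
  have hyb : y / (b : ℝ) ^ (j - 1) ∈ Set.Icc (1 : ℝ) b := by
    have h1 : ((b ^ (j - 1) : ℕ) : ℝ) ≤ u := by exact_mod_cast hu1
    have h2 : ((u + 1 : ℕ) : ℝ) ≤ ((b ^ j : ℕ) : ℝ) := by exact_mod_cast hu2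
    push_cast at h1 h2
    have h3 : (b : ℝ) ^ j = (b : ℝ) ^ (j - 1) * b := by
      rw [← pow_succ]
      congr 1
      omega
    have h4 : (0 : ℝ) < (b : ℝ) ^ (j - 1) := by positivity
    constructor
    · rw [le_div_iff₀ h4]
      linarith [hy.1]
    · rw [div_le_iff₀ h4]
      have := hy.2
      nlinarith
  have hlog : Real.log (y * (b : ℝ) ^ (L - j)) - xL b L = Real.log (y / (b : ℝ) ^ (j - 1) / b) := by
    unfold xL
    rw [Real.log_mul hy0.ne' hβ.ne', Real.log_div (by positivity) hbpos.ne', Real.log_div hy0.ne' (by positivity),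
      Real.log_pow, Real.log_pow]
    have h5 : ((L - j : ℕ) : ℝ) = (L : ℝ) - j := Nat.cast_sub hjL
    have h6 : ((j - 1 : ℕ) : ℝ) = (j : ℝ) - 1 := by
      rw [Nat.cast_sub hj1]
      simp
    rw [h5, h6]
    ring
  have hreal : y⁻¹ * (Real.exp (Real.log (y * (b : ℝ) ^ (L - j))) / gw (Real.log (y * (b : ℝ) ^ (L - j)) - xL b L)) =
      ((b : ℝ) ^ (L - 1) * K) * (W (y / (b : ℝ) ^ (j - 1)) / y) := by
    rw [Real.exp_log (by positivity), hlog]
    have h7 : ((b : ℝ) ^ (L - 1) * K) * (W (y / (b : ℝ) ^ (j - 1)) / y) =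
        (b : ℝ) ^ (L - 1) * (K * W (y / (b : ℝ) ^ (j - 1))) / y := by ring
    rw [h7, hW _ hyb]
    unfold CP3_W0 gw
    have h8 : (b : ℝ) ^ (L - 1) = (b : ℝ) ^ (L - j) * (b : ℝ) ^ (j - 1) := by
      rw [← pow_add]
      congr 1
      omega
    rw [h8]
    have h9 : Real.exp (-(Real.log (y / (b : ℝ) ^ (j - 1) / b)) ^ 2 / 2) =
        (Real.exp ((Real.log (y / (b : ℝ) ^ (j - 1) / b)) ^ 2 / 2))⁻¹ := by
      rw [← Real.exp_neg]
      congr 1
      ring
    rw [h9]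
    have h10 : Real.sqrt (2 * Real.pi) ≠ 0 := by positivity
    have h11 : Real.exp ((Real.log (y / (b : ℝ) ^ (j - 1) / b)) ^ 2 / 2) ≠ 0 := (Real.exp_pos _).ne'
    field_simp
  have hphase : cexp (-(((lam * Real.log (y * (b : ℝ) ^ (L - j)) : ℝ) : ℂ) * I)) =
      cexp (-(((lam * Real.log ((b : ℝ) ^ (L - j)) : ℝ) : ℂ) * I)) * (y : ℂ) ^ (((-lam : ℝ) : ℂ) * Complex.I) := by
    have hy1 : (y : ℂ) ≠ 0 := by exact_mod_cast hy0.ne'
    rw [Complex.cpow_def_of_ne_zero hy1, ← Complex.exp_add, ← Complex.ofReal_log hy0.le,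
      Real.log_mul hy0.ne' hβ.ne']
    congr 1
    push_cast
    ring
  have e1 : y⁻¹ • (((Real.exp (Real.log (y * (b : ℝ) ^ (L - j))) / gw (Real.log (y * (b : ℝ) ^ (L - j)) - xL b L) : ℝ) : ℂ) *
      cexp (-(((lam * Real.log (y * (b : ℝ) ^ (L - j)) : ℝ) : ℂ) * I))) =
      ((y⁻¹ * (Real.exp (Real.log (y * (b : ℝ) ^ (L - j))) / gw (Real.log (y * (b : ℝ) ^ (L - j)) - xL b L)) : ℝ) : ℂ) *
      cexp (-(((lam * Real.log (y * (b : ℝ) ^ (L - j)) : ℝ) : ℂ) * I)) := by
    rw [Complex.real_smul]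
    push_cast
    ring
  rw [e1, hreal, hphase]
  push_cast
  ring

theorem F_coupling (b : ℕ) (hb : 2 ≤ b) (h2 : C2Stmt b) : ∃ c C : ℝ, 0 < c ∧ 0 < C ∧ ∀ L J N l r : ℕ,
    Adm b L J → Good b L l r N → ∀ (χ : DirichletCharacter ℂ (QQ b J)) (j0 : ℕ), j0 < J →
      ¬ χ.FactorsThrough (QQ b j0) → ∀ lam : ℝ,
      ‖FT (Fp b L J N l r χ) lam‖ ≤ C * (b : ℝ) ^ L * (b : ℝ) ^ (-(c * j0)) := by
  classical
  obtain ⟨c, C, hc, hC, hmain⟩ := h2
  obtain ⟨K, hK, hK1, hK2⟩ := CP3_W0_props b hb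
  have hb0 : (2 : ℝ) ≤ b := by exact_mod_cast hb
  have hbpos : (0 : ℝ) < b := by linarith
  refine ⟨c, K * C, hc, by positivity, ?_⟩
  intro L J N l r hadm hgood χ j0 hj0 hnf lam
  obtain ⟨-, hl1, hl2⟩ : True ∧ 1 ≤ l ∧ l < b := ⟨trivial, hgood.2.2.1, hgood.2.2.2.1⟩
  have hcop : IsCoprime ((N : ℤ) - l) (b : ℤ) := hgood.2.2.2.2.2.1
  -- the minimal level
  have hex : ∃ j, j0 < j ∧ χ.FactorsThrough (QQ b j) := ⟨J, hj0, DirichletCharacter.FactorsThrough.same_level χ⟩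
  obtain ⟨j, ⟨hj, hfac⟩, hmin⟩ : ∃ j, (j0 < j ∧ χ.FactorsThrough (QQ b j)) ∧
      ∀ m < j, ¬ (j0 < m ∧ χ.FactorsThrough (QQ b m)) :=
    ⟨Nat.find hex, Nat.find_spec hex, fun m hm => Nat.find_min hex hm⟩
  have hjJ : j ≤ J := by
    by_contra h
    push Not at h
    exact hmin J h ⟨hj0, DirichletCharacter.FactorsThrough.same_level χ⟩
  have hj1 : 1 ≤ j := by omega
  have hJL : J ≤ L := by
    have := hadm.2.2.2
    omega
  have hjL : j ≤ L := hjJ.trans hJL
  have hnf' : ¬ χ.FactorsThrough (QQ b (j - 1)) := by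
    intro h
    rcases Nat.lt_or_ge j0 (j - 1) with h3 | h3
    · exact hmin (j - 1) (by omega) ⟨h3, h⟩
    · have : j - 1 = j0 := by omega
      rw [this] at h
      exact hnf h
  obtain ⟨hd, χ', hχ⟩ := hfac
  have hnf2 : ¬ χ'⁻¹.FactorsThrough (QQ b (j - 1)) := by
    rintro ⟨hd', χ₀, hχ₀⟩
    apply hnf'
    refine ⟨hd'.trans hd, χ₀⁻¹, ?_⟩
    rw [DirichletCharacter.changeLevel_trans _ hd' hd, map_inv, ← hχ₀, inv_inv, hχ]
  -- the weight
  set W : ℝ → ℝ := fun s => CP3_W0 b (max 1 (min b s)) / K with hWdef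
  have hclip : ∀ s : ℝ, max 1 (min (b : ℝ) s) ∈ Set.Icc (1 : ℝ) b := fun s =>
    ⟨le_max_left _ _, max_le (by linarith) (min_le_left _ _)⟩
  have hW1 : ∀ s, |W s| ≤ 1 := by
    intro s
    obtain ⟨h3, h4⟩ := hK1 _ (hclip s)
    simp only [hWdef]
    rw [abs_of_nonneg (by positivity), div_le_one hK]
    exact h4
  have hW2 : ∀ s t, |W s - W t| ≤ |s - t| := by
    intro s t
    have h3 := hK2 _ (hclip s) _ (hclip t)
    simp only [hWdef]
    rw [← sub_div, abs_div, abs_of_pos hK, div_le_iff₀ hK]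
    refine h3.trans ?_
    rw [mul_comm]
    apply mul_le_mul_of_nonneg_right _ hK.le
    have h5 := abs_max_sub_max_le_max (1 : ℝ) (min (b : ℝ) s) 1 (min (b : ℝ) t)
    have h6 := abs_min_sub_min_le_max (b : ℝ) s (b : ℝ) t
    have h7 : max |(1 : ℝ) - 1| |min (b : ℝ) s - min (b : ℝ) t| = |min (b : ℝ) s - min (b : ℝ) t| := by
      rw [sub_self, abs_zero]
      exact max_eq_right (abs_nonneg _)
    have h8 : max |(b : ℝ) - b| |s - t| = |s - t| := by
      rw [sub_self, abs_zero]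
      exact max_eq_right (abs_nonneg _)
    rw [h7] at h5
    rw [h8] at h6
    exact h5.trans h6
  have hWK : ∀ s ∈ Set.Icc (1 : ℝ) b, K * W s = CP3_W0 b s := by
    intro s hs
    simp only [hWdef]
    rw [min_eq_right hs.2, max_eq_right hs.1]
    field_simp
  have hbound := hmain j l hj1 hl1 hl2 χ'⁻¹ hnf2 (N : ℤ) (fun u => Zf b L j r N u) ((N : ℤ) - (b : ℤ) ^ (L - 1) * r)
    hcop (fun u => (Zf_mod b L j r N u hb).1) (fun u => (Zf_mod b L j r N u hb).2) (-lam) W hW1 hW2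
  -- the cells
  set β : ℝ := (b : ℝ) ^ (L - j) with hβdef
  have hβ : 0 < β := by positivity
  have hβ1 : β * (b : ℝ) ^ (j - 1) = (b : ℝ) ^ (L - 1) := by
    rw [hβdef, ← pow_add]
    congr 1
    omega
  set S : ℕ → Set ℝ := fun u => Set.Ico (Real.log (u * β)) (Real.log ((u + 1) * β)) with hSdef
  set I0 := Ico (l * b ^ (j - 1)) ((l + 1) * b ^ (j - 1)) with hI0
  have hbj : 1 ≤ b ^ (j - 1) := Nat.one_le_pow _ _ (by omega)
  have hI1 : ∀ u ∈ I0, b ^ (j - 1) ≤ u ∧ u + 1 ≤ b ^ j := by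
    intro u hu
    rw [hI0, mem_Ico] at hu
    constructor
    · calc b ^ (j - 1) = 1 * b ^ (j - 1) := (one_mul _).symm
        _ ≤ l * b ^ (j - 1) := Nat.mul_le_mul_right _ hl1
        _ ≤ u := hu.1
    · calc u + 1 ≤ (l + 1) * b ^ (j - 1) := hu.2
        _ ≤ b * b ^ (j - 1) := Nat.mul_le_mul_right _ hl2
        _ = b ^ j := by
          rw [← pow_succ']
          congr 1
          omega
  have hSmem : ∀ u ∈ I0, ∀ v, v ∈ S u ↔ (u : ℝ) * β ≤ Real.exp v ∧ Real.exp v < (u + 1) * β := by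
    intro u hu v
    have h3 := (hI1 u hu).1
    have h4 : (0 : ℝ) < u := by
      have : 0 < u := by omega
      exact_mod_cast this
    simp only [hSdef, Set.mem_Ico]
    rw [Real.log_le_iff_le_exp (by positivity), Real.lt_log_iff_exp_lt (by positivity)]
  set hf : ℝ → ℂ := fun v => ((Real.exp v / gw (v - xL b L) : ℝ) : ℂ) with hhf
  have hFp : ∀ v, Fp b L J N l r χ v = ∑ u ∈ I0,
      (S u).indicator (fun v => conj (χ' ((Zf b L j r N u : ℤ) : ZMod (QQ b j))) * hf v) v := by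
    intro v
    unfold Fp
    split_ifs with hv
    · obtain ⟨hv1, hv2⟩ := hv
      have hx0 : 0 < Real.exp v := Real.exp_pos v
      set u0 := ⌊Real.exp v / β⌋₊ with hu0
      have h3 : (u0 : ℝ) ≤ Real.exp v / β := Nat.floor_le (by positivity)
      have h4 : Real.exp v / β < u0 + 1 := Nat.lt_floor_add_one _
      have hu0I : u0 ∈ I0 := by
        rw [hI0, mem_Ico]
        constructor
        · apply Nat.le_floor
          rw [le_div_iff₀ hβ]
          push_cast
          calc (l : ℝ) * (b : ℝ) ^ (j - 1) * β = l * (β * (b : ℝ) ^ (j - 1)) := by ring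
            _ = l * (b : ℝ) ^ (L - 1) := by rw [hβ1]
            _ ≤ Real.exp v := hv1
        · rw [hu0, Nat.floor_lt (by positivity), div_lt_iff₀ hβ]
          push_cast
          calc Real.exp v < ((l : ℝ) + 1) * (b : ℝ) ^ (L - 1) := hv2
            _ = ((l : ℝ) + 1) * (b : ℝ) ^ (j - 1) * β := by rw [← hβ1]; ring
      have hvS : v ∈ S u0 := by
        rw [hSmem u0 hu0I]
        rw [le_div_iff₀ hβ] at h3
        rw [div_lt_iff₀ hβ] at h4
        exact ⟨h3, h4⟩
      rw [Finset.sum_eq_single u0, Set.indicator_of_mem hvS]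
      · congr 2
        rw [hχ]
        have hfl : u0 = ⌊Real.exp v / (b : ℝ) ^ (L - J)⌋₊ / b ^ (J - j) := by
          rw [← Nat.floor_div_natCast, hu0, hβdef]
          congr 1
          push_cast
          rw [div_div, ← pow_add]
          congr 2
          omega
        have hz1 := (Zf_mod b L J r N ⌊Real.exp v / (b : ℝ) ^ (L - J)⌋₊ hb).1
        have hz2 := (Zf_mod b L J r N ⌊Real.exp v / (b : ℝ) ^ (L - J)⌋₊ hb).2
        have hz3 := (Zf_mod b L j r N u0 hb).1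
        have hz4 := (Zf_mod b L j r N u0 hb).2
        have hz5 := CP3_rv b j J ⌊Real.exp v / (b : ℝ) ^ (L - J)⌋₊ hjJ
        rw [← hfl] at hz5
        have hz6 : Zf b L J r N ⌊Real.exp v / (b : ℝ) ^ (L - J)⌋₊ ≡ Zf b L j r N u0 [ZMOD ((b : ℤ) ^ j)] := by
          have hz7 := hz1.of_dvd (pow_dvd_pow (b : ℤ) hjJ)
          exact hz7.trans ((((Int.ModEq.refl (N : ℤ)).sub hz5)).trans hz3.symm)
        exact CP3_char b hb hj1 hjJ χ' _ _ hz6 (hz2.trans hz4.symm)
      · intro u hu hne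
        apply Set.indicator_of_notMem
        intro hvu
        apply hne
        rw [hSmem u hu] at hvu
        rw [hu0]
        symm
        rw [Nat.floor_eq_iff (by positivity), le_div_iff₀ hβ, div_lt_iff₀ hβ]
        exact hvu
      · intro h
        exact absurd hu0I h
    · symm
      apply Finset.sum_eq_zero
      intro u hu
      apply Set.indicator_of_notMem
      intro hvu
      apply hv
      rw [hSmem u hu] at hvu
      rw [hI0, mem_Ico] at hu
      have h3 : ((l * b ^ (j - 1) : ℕ) : ℝ) ≤ u := by exact_mod_cast hu.1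
      have h4 : ((u + 1 : ℕ) : ℝ) ≤ (((l + 1) * b ^ (j - 1) : ℕ) : ℝ) := by exact_mod_cast hu.2
      push_cast at h3 h4
      constructor
      · calc (l : ℝ) * (b : ℝ) ^ (L - 1) = (l * (b : ℝ) ^ (j - 1)) * β := by rw [← hβ1]; ring
          _ ≤ u * β := by gcongr
          _ ≤ Real.exp v := hvu.1
      · calc Real.exp v < (u + 1) * β := hvu.2
          _ ≤ (((l : ℝ) + 1) * (b : ℝ) ^ (j - 1)) * β := by gcongr
          _ = ((l : ℝ) + 1) * (b : ℝ) ^ (L - 1) := by rw [← hβ1]; ring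
  -- the transform
  have hcont : Continuous (fun v : ℝ => hf v * cexp (-(((lam * v : ℝ) : ℂ) * I))) := by
    have hgw : ∀ v : ℝ, gw (v - xL b L) ≠ 0 := by
      intro v
      unfold gw
      positivity
    have hgc : Continuous (fun v : ℝ => gw (v - xL b L)) := by
      unfold gw
      fun_prop
    have h1 : Continuous (fun v : ℝ => Real.exp v / gw (v - xL b L)) :=
      Real.continuous_exp.div hgc hgw
    simp only [hhf]
    fun_prop
  have hFT : FT (Fp b L J N l r χ) lam = ∑ u ∈ I0, conj (χ' ((Zf b L j r N u : ℤ) : ZMod (QQ b j))) *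
      ∫ v in S u, hf v * cexp (-(((lam * v : ℝ) : ℂ) * I)) := by
    unfold FT
    have h3 : ∀ w, Fp b L J N l r χ w * cexp (-(((lam * w : ℝ) : ℂ) * I)) = ∑ u ∈ I0,
        (S u).indicator (fun v => conj (χ' ((Zf b L j r N u : ℤ) : ZMod (QQ b j))) *
          (hf v * cexp (-(((lam * v : ℝ) : ℂ) * I)))) w := by
      intro w
      rw [hFp, Finset.sum_mul]
      refine Finset.sum_congr rfl fun u _ => ?_
      by_cases hw : w ∈ S u
      · rw [Set.indicator_of_mem hw, Set.indicator_of_mem hw, mul_assoc]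
      · rw [Set.indicator_of_notMem hw, Set.indicator_of_notMem hw, zero_mul]
    simp_rw [h3]
    rw [integral_finset_sum]
    · refine Finset.sum_congr rfl fun u _ => ?_
      rw [integral_indicator measurableSet_Ico, integral_const_mul]
    · intro u _
      rw [integrable_indicator_iff measurableSet_Ico]
      exact ((hcont.const_mul _).integrableOn_Icc).mono_set Set.Ico_subset_Icc_self
  have hcell : ∀ u ∈ I0, ∫ v in S u, hf v * cexp (-(((lam * v : ℝ) : ℂ) * I)) =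
      cexp (-(((lam * Real.log β : ℝ) : ℂ) * I)) * (((b : ℝ) ^ (L - 1) * K : ℝ) : ℂ) *
      ∫ y in (u : ℝ)..(u + 1), ((W (y / b ^ (j - 1)) / y : ℝ) : ℂ) *
          (y : ℂ) ^ (((-lam : ℝ) : ℂ) * Complex.I) := fun u hu =>
    CP3_cell b L j u hb hj1 hjL (hI1 u hu).1 (hI1 u hu).2 K W hWK lam
  have hfin : FT (Fp b L J N l r χ) lam =
      cexp (-(((lam * Real.log β : ℝ) : ℂ) * I)) * (((b : ℝ) ^ (L - 1) * K : ℝ) : ℂ) *
      ∑ u ∈ I0, χ'⁻¹ ((Zf b L j r N u : ℤ) : ZMod (QQ b j)) *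
        ∫ y in (u : ℝ)..(u + 1), ((W (y / b ^ (j - 1)) / y : ℝ) : ℂ) *
          (y : ℂ) ^ (((-lam : ℝ) : ℂ) * Complex.I) := by
    rw [hFT, Finset.mul_sum]
    refine Finset.sum_congr rfl fun u hu => ?_
    rw [hcell u hu, ← MulChar.star_apply']
    simp only [RCLike.star_def]
    ring
  rw [hfin, norm_mul, norm_mul]
  have hn1 : ‖cexp (-(((lam * Real.log β : ℝ) : ℂ) * I))‖ = 1 := by
    rw [← neg_mul, ← Complex.ofReal_neg]
    exact Complex.norm_exp_ofReal_mul_I _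
  have hn2 : ‖(((b : ℝ) ^ (L - 1) * K : ℝ) : ℂ)‖ = (b : ℝ) ^ (L - 1) * K := by
    rw [Complex.norm_real, Real.norm_of_nonneg (by positivity)]
  rw [hn1, hn2, one_mul]
  have hn3 : (b : ℝ) ^ (-(c * j)) ≤ (b : ℝ) ^ (-(c * j0)) := by
    apply Real.rpow_le_rpow_of_exponent_le (by linarith)
    have : (j0 : ℝ) ≤ j := by exact_mod_cast hj.le
    nlinarith
  have hn4 : (b : ℝ) ^ (L - 1) ≤ (b : ℝ) ^ L := pow_le_pow_right₀ (by linarith) (by omega)
  calc (b : ℝ) ^ (L - 1) * K * _ ≤ (b : ℝ) ^ (L - 1) * K * (C * (b : ℝ) ^ (-(c * j))) := by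
        apply mul_le_mul_of_nonneg_left hbound (by positivity)
    _ ≤ (b : ℝ) ^ L * K * (C * (b : ℝ) ^ (-(c * j0))) := by gcongr
    _ = K * C * (b : ℝ) ^ L * (b : ℝ) ^ (-(c * j0)) := by ring

end Pool.Agent.LibHG31
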