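import Pool.Agent.LibHG31.CP2
import Pool.Agent.LibHG31.CP4
import Pool.Agent.LibHG31.CG1
import Pool.Agent.LibHG31.CF3

/-! ROW CT1: expansion of `TC` in `k^(iλ')`.
PLAN: by `Fp_log`, `TC = ∑' k, cc k * Fp (log k) * (gw(log k - xL)/k)` (the `k` outside `KS` give 0; `k = 0` has weight 0).
Replace `Fp (log k)` by `sm (del b J) Fp (log k)`: error `≤ ∑' ‖cc k‖ ‖..‖ gw/k`, `‖cc k‖ ≤ C |Dl b k|` (`FT_le`, `Gs_props`); for good `k`
`sm_sub_le` with `K = C b^(L+3J)` (`K δ = C b^(L-2J)`, `Dl_sum`), for bad `k` `‖..‖ ≤ 2 C b^L` (`sm_le`) and `bad_sum`. Then `expand`. -/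

namespace Pool.Agent.LibHG31

open Finset Complex MeasureTheory
open Pool.Agent.LibPL63 (GS)
open Pool.Agent.LibMaier (gw)
open scoped ComplexConjugate

open scoped Classical in
/-- the coefficients -/
noncomputable def cc (b r M : ℕ) (Φ : ℕ → ℂ) (k : ℕ) : ℂ :=
  if k.Coprime b ∧ k ≡ r [MOD D0 b] then ((Dl b k : ℝ) : ℂ) * Φ (k % b ^ M) else 0

theorem T_expand (b : ℕ) (hb : 2 ≤ b) : ∃ C : ℝ, 0 < C ∧ ∀ L J N l r : ℕ, Adm b L J → Good b L l r N →
    ∀ (χ : DirichletCharacter ℂ (QQ b J)) (lam : ℝ),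
    ‖TC b L J N l r χ lam - ((1 / (2 * Real.pi) : ℝ) : ℂ) *
      ∫ lam' : ℝ, ((Real.exp (-(del b J ^ 2 * lam' ^ 2 / 2)) : ℝ) : ℂ) * FT (Fp b L J N l r χ) lam' *
        GS (fun k => cc b r (MC J) (fun s => FT (Gs b L J (MC J) N s) lam) k * cp lam' k) (xL b L)‖ ≤
      C * L * (b : ℝ) ^ L / (b : ℝ) ^ (2 * J) := by
  classical
  obtain ⟨C1, hC1, hFp⟩ := Fp_props b hb
  obtain ⟨C2, hC2, hGs⟩ := Gs_props b hb
  obtain ⟨C3, hC3, hDl⟩ := Dl_sum b hb
  obtain ⟨C4, hC4, hbad⟩ := bad_sum b hb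
  refine ⟨C2 * C1 * C3 + 2 * C2 * C1 * C4, by positivity, ?_⟩
  intro L J N l r hA hg χ lam
  have hb0 : (0 : ℝ) < b := by exact_mod_cast (by omega : 0 < b)
  have hb2 : (2 : ℝ) ≤ b := by exact_mod_cast hb
  obtain ⟨hN1, hN2, hl1, hl2, _⟩ := id hg
  obtain ⟨hF1, hF2, _, hF4⟩ := hFp L J N l r hA hl1 hl2 χ
  have hL1000 : 1000 ≤ L := by
    have h1 := hA.2.1
    have h2 := hA.2.2.2
    omega
  have hLR : (1000 : ℝ) ≤ L := by exact_mod_cast hL1000
  have hx : (1 : ℝ) ≤ xL b L := by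
    unfold xL
    have h1 : Real.log 2 ≤ Real.log b := Real.log_le_log (by norm_num) hb2
    have h2 : (0.6931471803 : ℝ) < Real.log 2 := Real.log_two_gt_d9
    nlinarith
  obtain ⟨hDs, hDt⟩ := hDl (xL b L) hx
  have hw0 : ∀ k : ℕ, 0 ≤ gw (Real.log k - xL b L) / k := fun k =>
    div_nonneg (Pool.Agent.LibMaier.gw_nonneg _) (Nat.cast_nonneg _)
  have hδ : 0 < del b J := by
    unfold del
    positivity
  -- the coefficients
  have hΦ : ∀ s, ‖FT (Gs b L J (MC J) N s) lam‖ ≤ C2 := fun s =>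
    (FT_le lam).trans (hGs L J N s hA hN1 hN2).2.1
  obtain ⟨c, hc⟩ : ∃ c : ℕ → ℂ, c = cc b r (MC J) (fun s => FT (Gs b L J (MC J) N s) lam) :=
    ⟨_, rfl⟩
  have hcn : ∀ k, ‖c k‖ ≤ C2 * |Dl b k| := by
    intro k
    rw [hc]
    unfold cc
    split_ifs
    · rw [norm_mul, Complex.norm_real, Real.norm_eq_abs, mul_comm]
      exact mul_le_mul_of_nonneg_right (hΦ _) (abs_nonneg _)
    · rw [norm_zero]
      positivity
  have hcs : Summable fun n : ℕ => ‖c n‖ * (gw (Real.log n - xL b L) / n) := by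
    refine Summable.of_nonneg_of_le (fun n => mul_nonneg (norm_nonneg _) (hw0 n)) (fun n => ?_)
      (hDs.mul_left C2)
    rw [← mul_assoc]
    exact mul_le_mul_of_nonneg_right (hcn n) (hw0 n)
  obtain ⟨_, hs2, hs3⟩ := expand hδ hF1 c (xL b L) hcs
  -- the exact formula
  have hterm : ∀ k : ℕ, c k * Fp b L J N l r χ (Real.log k) *
      ((gw (Real.log k - xL b L) / k : ℝ) : ℂ) =
      if k ∈ KS b L l r then ((Dl b k : ℝ) : ℂ) *
        conj (χ (((N : ℤ) - rv b L k : ℤ) : ZMod (QQ b J))) *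
        FT (Gs b L J (MC J) N (k % b ^ (MC J))) lam else 0 := by
    intro k
    obtain ⟨hP1, hP2⟩ := Fp_log b L J N l r hA hg χ
    by_cases hk : k ∈ KS b L l r
    · rw [if_pos hk, mul_assoc, hP1 k hk, hc]
      have hk' : k.Coprime b ∧ k ≡ r [MOD D0 b] := (Finset.mem_filter.1 hk).2
      unfold cc
      rw [if_pos hk']
      ring
    · rw [if_neg hk]
      by_cases hk' : k.Coprime b ∧ k ≡ r [MOD D0 b]
      · rcases hP2 k hk'.1 hk'.2 hk with h0 | h0
        · rw [h0]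
          simp
        · rw [h0]
          simp
      · rw [hc]
        unfold cc
        rw [if_neg hk', zero_mul, zero_mul]
  have hsum1 : Summable (fun k : ℕ => c k * Fp b L J N l r χ (Real.log k) *
      ((gw (Real.log k - xL b L) / k : ℝ) : ℂ)) := by
    apply summable_of_ne_finset_zero (s := KS b L l r)
    intro k hk
    rw [hterm, if_neg hk]
  have hTC : TC b L J N l r χ lam = ∑' k : ℕ, c k * Fp b L J N l r χ (Real.log k) *
      ((gw (Real.log k - xL b L) / k : ℝ) : ℂ) := by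
    rw [tsum_eq_sum (s := KS b L l r)]
    · unfold TC
      refine Finset.sum_congr rfl fun k hk => ?_
      rw [hterm, if_pos hk]
    · intro k hk
      rw [hterm, if_neg hk]
  have hRHS : ((1 / (2 * Real.pi) : ℝ) : ℂ) *
      ∫ lam' : ℝ, ((Real.exp (-(del b J ^ 2 * lam' ^ 2 / 2)) : ℝ) : ℂ) *
        FT (Fp b L J N l r χ) lam' *
        GS (fun k => cc b r (MC J) (fun s => FT (Gs b L J (MC J) N s) lam) k * cp lam' k)
          (xL b L) =
      ∑' k : ℕ, c k * sm (del b J) (Fp b L J N l r χ) (Real.log k) *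
        ((gw (Real.log k - xL b L) / k : ℝ) : ℂ) := by
    rw [hs3, hc]
  rw [hRHS, hTC, ← hsum1.tsum_sub hs2]
  -- termwise bound
  have hdelK : C1 * (b : ℝ) ^ (L + 3 * J) * del b J = C1 * ((b : ℝ) ^ L / (b : ℝ) ^ (2 * J)) := by
    unfold del
    have e1 : (b : ℝ) ^ (5 * J) = (b : ℝ) ^ (3 * J) * (b : ℝ) ^ (2 * J) := by
      rw [← pow_add]
      congr 1
      ring
    rw [pow_add, e1]
    field_simp
  have hq0 : (0 : ℝ) ≤ (b : ℝ) ^ L / (b : ℝ) ^ (2 * J) := by positivity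
  have hbound : ∀ k : ℕ, ‖c k * Fp b L J N l r χ (Real.log k) *
      ((gw (Real.log k - xL b L) / k : ℝ) : ℂ) -
      c k * sm (del b J) (Fp b L J N l r χ) (Real.log k) *
        ((gw (Real.log k - xL b L) / k : ℝ) : ℂ)‖ ≤
      C2 * C1 * ((b : ℝ) ^ L / (b : ℝ) ^ (2 * J)) *
        (|Dl b k| * (gw (Real.log k - xL b L) / k)) +
      2 * C2 * C1 * (b : ℝ) ^ L *
        (if GoodK b L J l k then 0 else |Dl b k| * (gw (Real.log k - xL b L) / k)) := by
    intro k
    have e1 : c k * Fp b L J N l r χ (Real.log k) *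
      ((gw (Real.log k - xL b L) / k : ℝ) : ℂ) -
      c k * sm (del b J) (Fp b L J N l r χ) (Real.log k) *
        ((gw (Real.log k - xL b L) / k : ℝ) : ℂ) =
        -(c k * (sm (del b J) (Fp b L J N l r χ) (Real.log k) - Fp b L J N l r χ (Real.log k)) *
          ((gw (Real.log k - xL b L) / k : ℝ) : ℂ)) := by ring
    rw [e1, norm_neg, norm_mul, norm_mul, Complex.norm_real, Real.norm_eq_abs,
      abs_of_nonneg (hw0 k)]
    have hD0 : 0 ≤ |Dl b k| * (gw (Real.log k - xL b L) / k) :=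
      mul_nonneg (abs_nonneg _) (hw0 k)
    by_cases hgood : GoodK b L J l k
    · rw [if_pos hgood, mul_zero, add_zero]
      have h1 := sm_sub_le hδ hF1 (v := Real.log k) (K := C1 * (b : ℝ) ^ (L + 3 * J))
        (hF4 k hgood)
      rw [hdelK] at h1
      calc ‖c k‖ * ‖sm (del b J) (Fp b L J N l r χ) (Real.log k) -
            Fp b L J N l r χ (Real.log k)‖ * (gw (Real.log k - xL b L) / k)
          ≤ (C2 * |Dl b k|) * (C1 * ((b : ℝ) ^ L / (b : ℝ) ^ (2 * J))) *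
            (gw (Real.log k - xL b L) / k) := by
            apply mul_le_mul_of_nonneg_right _ (hw0 k)
            exact mul_le_mul (hcn k) h1 (norm_nonneg _) (by positivity)
        _ = _ := by ring
    · rw [if_neg hgood]
      have h1 : ‖sm (del b J) (Fp b L J N l r χ) (Real.log k) -
            Fp b L J N l r χ (Real.log k)‖ ≤ 2 * C1 * (b : ℝ) ^ L := by
        refine (norm_sub_le _ _).trans ?_
        have h2 := sm_le hδ hF1 (v := Real.log k) (B := C1 * (b : ℝ) ^ L) hF2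
        have h3 := hF2 (Real.log k)
        linarith
      have h4 : ‖c k‖ * ‖sm (del b J) (Fp b L J N l r χ) (Real.log k) -
            Fp b L J N l r χ (Real.log k)‖ * (gw (Real.log k - xL b L) / k) ≤
            2 * C2 * C1 * (b : ℝ) ^ L * (|Dl b k| * (gw (Real.log k - xL b L) / k)) := by
        calc ‖c k‖ * ‖sm (del b J) (Fp b L J N l r χ) (Real.log k) -
              Fp b L J N l r χ (Real.log k)‖ * (gw (Real.log k - xL b L) / k)
            ≤ (C2 * |Dl b k|) * (2 * C1 * (b : ℝ) ^ L) * (gw (Real.log k - xL b L) / k) := by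
              apply mul_le_mul_of_nonneg_right _ (hw0 k)
              exact mul_le_mul (hcn k) h1 (norm_nonneg _) (by positivity)
          _ = _ := by ring
      have h5 : 0 ≤ C2 * C1 * ((b : ℝ) ^ L / (b : ℝ) ^ (2 * J)) *
        (|Dl b k| * (gw (Real.log k - xL b L) / k)) := by positivity
      linarith
  have hbs : Summable fun k : ℕ =>
      (if GoodK b L J l k then 0 else |Dl b k| * (gw (Real.log k - xL b L) / k)) := by
    refine Summable.of_nonneg_of_le (fun k => ?_) (fun k => ?_) hDs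
    · split_ifs
      · exact le_rfl
      · exact mul_nonneg (abs_nonneg _) (hw0 k)
    · split_ifs
      · exact mul_nonneg (abs_nonneg _) (hw0 k)
      · exact le_rfl
  have hS1 := hDs.mul_left (C2 * C1 * ((b : ℝ) ^ L / (b : ℝ) ^ (2 * J)))
  have hS2 := hbs.mul_left (2 * C2 * C1 * (b : ℝ) ^ L)
  have hS := hS1.add hS2
  refine (tsum_of_norm_bounded hS.hasSum hbound).trans ?_
  rw [hS1.tsum_add hS2, tsum_mul_left, tsum_mul_left]
  have hb4 := hbad L J l hA hl1 hl2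
  have t1 : C2 * C1 * ((b : ℝ) ^ L / (b : ℝ) ^ (2 * J)) *
      ∑' k : ℕ, |Dl b k| * (gw (Real.log k - xL b L) / k) ≤
      C2 * C1 * C3 * L * (b : ℝ) ^ L / (b : ℝ) ^ (2 * J) := by
    calc C2 * C1 * ((b : ℝ) ^ L / (b : ℝ) ^ (2 * J)) *
        ∑' k : ℕ, |Dl b k| * (gw (Real.log k - xL b L) / k)
        ≤ C2 * C1 * ((b : ℝ) ^ L / (b : ℝ) ^ (2 * J)) * C3 :=
          mul_le_mul_of_nonneg_left hDt (by positivity)
      _ = C2 * C1 * C3 * 1 * ((b : ℝ) ^ L / (b : ℝ) ^ (2 * J)) := by ring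
      _ ≤ C2 * C1 * C3 * L * ((b : ℝ) ^ L / (b : ℝ) ^ (2 * J)) := by
          apply mul_le_mul_of_nonneg_right _ hq0
          exact mul_le_mul_of_nonneg_left (by linarith) (by positivity)
      _ = _ := by ring
  have t2 : 2 * C2 * C1 * (b : ℝ) ^ L *
      ∑' k : ℕ, (if GoodK b L J l k then 0 else |Dl b k| * (gw (Real.log k - xL b L) / k)) ≤
      2 * C2 * C1 * C4 * L * (b : ℝ) ^ L / (b : ℝ) ^ (2 * J) := by
    calc 2 * C2 * C1 * (b : ℝ) ^ L *
        ∑' k : ℕ, (if GoodK b L J l k then 0 else |Dl b k| * (gw (Real.log k - xL b L) / k))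
        ≤ 2 * C2 * C1 * (b : ℝ) ^ L * (C4 * L / (b : ℝ) ^ (2 * J)) :=
          mul_le_mul_of_nonneg_left hb4 (by positivity)
      _ = _ := by ring
  calc _ ≤ C2 * C1 * C3 * L * (b : ℝ) ^ L / (b : ℝ) ^ (2 * J) +
        2 * C2 * C1 * C4 * L * (b : ℝ) ^ L / (b : ℝ) ^ (2 * J) := add_le_add t1 t2
    _ = _ := by ring

end Pool.Agent.LibHG31
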