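import Pool.Agent.LibHG31.CT1

/-! ROW CT2: expansion of the suffix function in characters.
PLAN. `q1 = b^M`, `φ(q1) = b^(M-1) φ(b) ≥ q1/b`. For `(k,b) = 1`: `Φ(k % q1) = ∑_ψ a_ψ ψ(k)`, `a_ψ = (1/φ(q1)) ∑_{s<q1} Φ(s) conj ψ(s)`
(orthogonality, `DirichletCharacter.sum_char_inv_mul_char_eq`; `conj ψ = ψ⁻¹`), `‖a_ψ‖ ≤ b B`. `[k ≡ r mod D0] = (1/φ(D0)) ∑_ψ' conj ψ'(r) ψ'(k)`
(also for `k` not prime to `D0`, since `(r, D0) = 1`). `ψ(k) ψ'(k) = ω(k)`, `ω = changeLevel ψ * changeLevel ψ'` mod `QQ b M = D0 b^M`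
(`LibPL63.cf_mul_conj` is a model). `(ψ,ψ') ↦ ω` is injective (CRT: take `n ≡ a mod b^M`, `n ≡ 1 mod D0`), so
`∑_{ψ,ψ'} ‖DD b ω x lam'‖ ≤ ∑_ω ‖DD b ω x lam'‖`. `GS` is linear (finite sums of summable series, `Dl_sum`). -/

namespace Pool.Agent.LibHG31

open Finset Complex
open Pool.Agent.LibPL63 (GS)
open Pool.Agent.LibMaier (gw)

theorem CT2_totient (b M : ℕ) (hb : 2 ≤ b) (hM : 1 ≤ M) : b ^ M ≤ b * (b ^ M).totient := by
  have h1 := Nat.totient_mul_prod_primeFactors (b ^ M)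
  have h2 : (b ^ M).primeFactors = b.primeFactors := Nat.primeFactors_pow b (by omega)
  rw [h2] at h1
  have h3 : ∏ p ∈ b.primeFactors, p ≤ b := Nat.le_of_dvd (by omega) (Nat.prod_primeFactors_dvd b)
  have h4 : 1 ≤ ∏ p ∈ b.primeFactors, (p - 1) := by
    apply Nat.succ_le_of_lt
    apply Finset.prod_pos
    intro p hp
    have := (Nat.prime_of_mem_primeFactors hp).two_le
    omega
  calc b ^ M ≤ b ^ M * ∏ p ∈ b.primeFactors, (p - 1) := Nat.le_mul_of_pos_right _ h4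
    _ = (b ^ M).totient * ∏ p ∈ b.primeFactors, p := h1.symm
    _ ≤ (b ^ M).totient * b := Nat.mul_le_mul_left _ h3
    _ = b * (b ^ M).totient := mul_comm _ _

theorem CT2_D0_pos (b : ℕ) (hb : 2 ≤ b) : 0 < D0 b := by
  unfold D0
  have : 2 ^ 2 ≤ b ^ 2 := Nat.pow_le_pow_left hb 2
  omega

theorem CT2_coprime (b M : ℕ) (hb : 2 ≤ b) : (b ^ M).Coprime (D0 b) := by
  apply Nat.Coprime.pow_left
  unfold D0
  have h1 : 2 ^ 2 ≤ b ^ 2 := Nat.pow_le_pow_left hb 2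
  have h2 : b ^ 2 = (b ^ 2 - 1) + 1 := by omega
  have h3 : (b ^ 2).Coprime (b ^ 2 - 1) := by
    rw [h2]
    simp
  exact Nat.Coprime.coprime_dvd_left (dvd_pow_self b (by norm_num)) h3

theorem CT2_dvd1 (b M : ℕ) : b ^ M ∣ QQ b M := Dvd.intro_left _ rfl

theorem CT2_dvd2 (b M : ℕ) : D0 b ∣ QQ b M := Dvd.intro _ rfl

/-- the product character -/
noncomputable def CT2_om (b M : ℕ) (ψ : DirichletCharacter ℂ (b ^ M)) (ψ' : DirichletCharacter ℂ (D0 b)) :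
    DirichletCharacter ℂ (QQ b M) :=
  DirichletCharacter.changeLevel (CT2_dvd1 b M) ψ⁻¹ * DirichletCharacter.changeLevel (CT2_dvd2 b M) ψ'

theorem CT2_om_apply (b M : ℕ) [NeZero (QQ b M)] (ψ : DirichletCharacter ℂ (b ^ M))
    (ψ' : DirichletCharacter ℂ (D0 b)) (n : ℕ) :
    CT2_om b M ψ ψ' (n : ZMod (QQ b M)) = ψ⁻¹ (n : ZMod (b ^ M)) * ψ' (n : ZMod (D0 b)) := by
  unfold CT2_om
  rw [MulChar.mul_apply]
  by_cases hn : IsUnit (n : ZMod (QQ b M))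
  · have h1 := DirichletCharacter.changeLevel_eq_cast_of_dvd ψ⁻¹ (CT2_dvd1 b M) hn.unit
    have h2 := DirichletCharacter.changeLevel_eq_cast_of_dvd ψ' (CT2_dvd2 b M) hn.unit
    rw [IsUnit.unit_spec] at h1 h2
    rw [h1, h2, ZMod.cast_natCast (CT2_dvd1 b M), ZMod.cast_natCast (CT2_dvd2 b M)]
  · rw [MulChar.map_nonunit _ hn, zero_mul]
    have h3 : ¬ n.Coprime (QQ b M) := fun h => hn ((ZMod.isUnit_iff_coprime _ _).2 h)
    unfold QQ at h3
    rw [Nat.coprime_mul_iff_right, not_and_or] at h3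
    rcases h3 with h3 | h3
    · rw [MulChar.map_nonunit ψ' (fun h => h3 ((ZMod.isUnit_iff_coprime _ _).1 h)), mul_zero]
    · rw [MulChar.map_nonunit ψ⁻¹ (fun h => h3 ((ZMod.isUnit_iff_coprime _ _).1 h)), zero_mul]

theorem CT2_om_inj (b M : ℕ) (hb : 2 ≤ b) [NeZero (QQ b M)] {ψ φ : DirichletCharacter ℂ (b ^ M)}
    {ψ' φ' : DirichletCharacter ℂ (D0 b)} (h : CT2_om b M ψ ψ' = CT2_om b M φ φ') : ψ = φ ∧ ψ' = φ' := by
  have hval : ∀ n : ℕ, ψ⁻¹ (n : ZMod (b ^ M)) * ψ' (n : ZMod (D0 b)) =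
      φ⁻¹ (n : ZMod (b ^ M)) * φ' (n : ZMod (D0 b)) := by
    intro n
    rw [← CT2_om_apply, ← CT2_om_apply, h]
  have hc := CT2_coprime b M hb
  haveI : NeZero (b ^ M) := ⟨by positivity⟩
  haveI : NeZero (D0 b) := ⟨(CT2_D0_pos b hb).ne'⟩
  constructor
  · apply inv_injective
    ext a
    obtain ⟨n, hn1, hn2⟩ := Nat.chineseRemainder hc (a : ZMod (b ^ M)).val 1
    have e1 : (n : ZMod (b ^ M)) = a := by
      rw [(ZMod.natCast_eq_natCast_iff _ _ _).2 hn1, ZMod.natCast_val, ZMod.cast_id]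
    have e2 : (n : ZMod (D0 b)) = 1 := by
      have := (ZMod.natCast_eq_natCast_iff _ _ _).2 hn2
      rw [this, Nat.cast_one]
    have h2 := hval n
    rw [e1, e2, map_one, map_one, mul_one, mul_one] at h2
    exact h2
  · ext a
    obtain ⟨n, hn1, hn2⟩ := Nat.chineseRemainder hc 1 (a : ZMod (D0 b)).val
    have e1 : (n : ZMod (b ^ M)) = 1 := by
      have := (ZMod.natCast_eq_natCast_iff _ _ _).2 hn1
      rw [this, Nat.cast_one]
    have e2 : (n : ZMod (D0 b)) = a := by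
      rw [(ZMod.natCast_eq_natCast_iff _ _ _).2 hn2, ZMod.natCast_val, ZMod.cast_id]
    have h2 := hval n
    rw [e1, e2, map_one, map_one, one_mul, one_mul] at h2
    exact h2

/-- the coefficients -/
noncomputable def CT2_A (b M : ℕ) (Φ : ℕ → ℂ) (ψ : DirichletCharacter ℂ (b ^ M)) : ℂ :=
  ((b ^ M).totient : ℂ)⁻¹ * ∑ s ∈ range (b ^ M), ψ (s : ZMod (b ^ M)) * Φ s

noncomputable def CT2_B (b r : ℕ) (ψ' : DirichletCharacter ℂ (D0 b)) : ℂ :=
  ((D0 b).totient : ℂ)⁻¹ * ψ' ((r : ZMod (D0 b))⁻¹)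

theorem CT2_sumA (b M : ℕ) (hb : 2 ≤ b) (hM : 1 ≤ M) (Φ : ℕ → ℂ) (k : ℕ) :
    ∑ ψ : DirichletCharacter ℂ (b ^ M), CT2_A b M Φ ψ * ψ⁻¹ (k : ZMod (b ^ M)) =
      if k.Coprime b then Φ (k % b ^ M) else 0 := by
  haveI : NeZero (b ^ M) := ⟨by positivity⟩
  have hb0 : 0 < b ^ M := by positivity
  by_cases hk : k.Coprime b
  · have hku : IsUnit (k : ZMod (b ^ M)) := (ZMod.isUnit_iff_coprime _ _).2 (Nat.Coprime.pow_right _ hk)
    rw [if_pos hk]
    unfold CT2_A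
    have h1 : ∀ ψ : DirichletCharacter ℂ (b ^ M),
        ((b ^ M).totient : ℂ)⁻¹ * (∑ s ∈ range (b ^ M), ψ (s : ZMod (b ^ M)) * Φ s) * ψ⁻¹ (k : ZMod (b ^ M)) =
        ((b ^ M).totient : ℂ)⁻¹ * ∑ s ∈ range (b ^ M), Φ s * (ψ ((k : ZMod (b ^ M))⁻¹) * ψ (s : ZMod (b ^ M))) := by
      intro ψ
      rw [MulChar.inv_apply_eq_inv', mul_assoc, Finset.sum_mul]
      congr 1
      refine Finset.sum_congr rfl fun s _ => ?_
      have : ψ ((k : ZMod (b ^ M))⁻¹) = (ψ (k : ZMod (b ^ M)))⁻¹ := by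
        apply eq_inv_of_mul_eq_one_left
        rw [← map_mul, ZMod.inv_mul_of_unit _ hku, map_one]
      rw [this]
      ring
    rw [Finset.sum_congr rfl fun ψ _ => h1 ψ, ← Finset.mul_sum, Finset.sum_comm]
    have h2 : ∀ s ∈ range (b ^ M), ∑ ψ : DirichletCharacter ℂ (b ^ M),
        Φ s * (ψ ((k : ZMod (b ^ M))⁻¹) * ψ (s : ZMod (b ^ M))) =
        if s = k % b ^ M then Φ s * ((b ^ M).totient : ℂ) else 0 := by
      intro s hs
      rw [← Finset.mul_sum, DirichletCharacter.sum_char_inv_mul_char_eq ℂ hku]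
      have h3 : ((k : ZMod (b ^ M)) = (s : ZMod (b ^ M))) ↔ s = k % b ^ M := by
        rw [ZMod.natCast_eq_natCast_iff']
        rw [Nat.mod_eq_of_lt (mem_range.1 hs)]
        exact eq_comm
      simp only [h3]
      split_ifs <;> simp
    rw [Finset.sum_congr rfl h2, Finset.sum_ite_eq' (range (b ^ M)) (k % b ^ M),
      if_pos (mem_range.2 (Nat.mod_lt _ hb0))]
    have h4 : ((b ^ M).totient : ℂ) ≠ 0 := by
      exact_mod_cast (Nat.totient_pos.2 hb0).ne'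
    field_simp
  · rw [if_neg hk]
    apply Finset.sum_eq_zero
    intro ψ _
    rw [MulChar.map_nonunit ψ⁻¹, mul_zero]
    intro h
    apply hk
    have h5 := (ZMod.isUnit_iff_coprime _ _).1 h
    exact Nat.Coprime.coprime_dvd_right (dvd_pow_self b (by omega)) h5

theorem CT2_sumB (b r : ℕ) (hb : 2 ≤ b) (hr : r.Coprime (D0 b)) (k : ℕ) :
    ∑ ψ' : DirichletCharacter ℂ (D0 b), CT2_B b r ψ' * ψ' (k : ZMod (D0 b)) =
      if k ≡ r [MOD D0 b] then 1 else 0 := by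
  have h0 := CT2_D0_pos b hb
  haveI : NeZero (D0 b) := ⟨h0.ne'⟩
  have hru : IsUnit (r : ZMod (D0 b)) := (ZMod.isUnit_iff_coprime _ _).2 hr
  unfold CT2_B
  simp_rw [mul_assoc]
  rw [← Finset.mul_sum, DirichletCharacter.sum_char_inv_mul_char_eq ℂ hru]
  have h3 : ((r : ZMod (D0 b)) = (k : ZMod (D0 b))) ↔ k ≡ r [MOD D0 b] := by
    rw [ZMod.natCast_eq_natCast_iff]
    exact ⟨fun h => h.symm, fun h => h.symm⟩
  simp only [h3]
  have h4 : ((D0 b).totient : ℂ) ≠ 0 := by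
    exact_mod_cast (Nat.totient_pos.2 h0).ne'
  split_ifs
  · exact inv_mul_cancel₀ h4
  · exact mul_zero _

theorem CT2_norm_cp (lam : ℝ) (n : ℕ) : ‖cp lam n‖ = 1 := by
  unfold cp
  exact Complex.norm_exp_ofReal_mul_I _

theorem CT2_norm_tw_le {q : ℕ} (χ : DirichletCharacter ℂ q) (lam : ℝ) (n : ℕ) : ‖tw χ lam n‖ ≤ 1 := by
  unfold tw
  rw [norm_mul, CT2_norm_cp, mul_one]
  exact χ.norm_le_one _

theorem char_expand (b : ℕ) (hb : 2 ≤ b) (M r : ℕ) [NeZero (QQ b M)] (hM : 1 ≤ M) (hr : r.Coprime (D0 b)) (Φ : ℕ → ℂ) (B : ℝ)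
    (hB : ∀ ψ : DirichletCharacter ℂ (b ^ M), ‖∑ s ∈ range (b ^ M), ψ (s : ZMod (b ^ M)) * Φ s‖ ≤ B * (b : ℝ) ^ M)
    {x : ℝ} (hx : 1 ≤ x) (lam' : ℝ) :
    ‖GS (fun k => cc b r M Φ k * cp lam' k) x‖ ≤ b * B * ∑ ω : DirichletCharacter ℂ (QQ b M), ‖DD b ω x lam'‖ := by
  classical
  obtain ⟨C, hC, hsum⟩ := Dl_sum b hb
  have hS := (hsum x hx).1
  haveI : NeZero (b ^ M) := ⟨by positivity⟩
  haveI : NeZero (D0 b) := ⟨(CT2_D0_pos b hb).ne'⟩
  have hbM : (0 : ℝ) < (b : ℝ) ^ M := by positivity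
  have hB0 : 0 ≤ B := by
    have h := (norm_nonneg _).trans (hB 1)
    by_contra hneg
    push Not at hneg
    nlinarith
  -- the expansion of the coefficients
  have hcc : ∀ k : ℕ, cc b r M Φ k * cp lam' k = ∑ p : DirichletCharacter ℂ (b ^ M) × DirichletCharacter ℂ (D0 b),
      (CT2_A b M Φ p.1 * CT2_B b r p.2) * (((Dl b k : ℝ) : ℂ) * tw (CT2_om b M p.1 p.2) lam' k) := by
    intro k
    have h1 : cc b r M Φ k = ((Dl b k : ℝ) : ℂ) * ((∑ ψ : DirichletCharacter ℂ (b ^ M), CT2_A b M Φ ψ * ψ⁻¹ (k : ZMod (b ^ M))) *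
        ∑ ψ' : DirichletCharacter ℂ (D0 b), CT2_B b r ψ' * ψ' (k : ZMod (D0 b))) := by
      rw [CT2_sumA b M hb hM, CT2_sumB b r hb hr]
      unfold cc
      by_cases h2 : k.Coprime b
      · by_cases h3 : k ≡ r [MOD D0 b]
        · rw [if_pos ⟨h2, h3⟩, if_pos h2, if_pos h3, mul_one]
        · rw [if_neg (fun h => h3 h.2), if_neg h3, mul_zero, mul_zero]
      · rw [if_neg (fun h => h2 h.1), if_neg h2, zero_mul, mul_zero]
    rw [h1, Finset.sum_mul_sum, ← Finset.univ_product_univ, Finset.sum_product, Finset.mul_sum, Finset.sum_mul]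
    refine Finset.sum_congr rfl fun ψ _ => ?_
    rw [Finset.mul_sum, Finset.sum_mul]
    refine Finset.sum_congr rfl fun ψ' _ => ?_
    unfold tw
    rw [CT2_om_apply]
    ring
  have hterm : ∀ p : DirichletCharacter ℂ (b ^ M) × DirichletCharacter ℂ (D0 b), Summable (fun n : ℕ =>
      (((Dl b n : ℝ) : ℂ) * tw (CT2_om b M p.1 p.2) lam' n) * ((gw (Real.log n - x) / n : ℝ) : ℂ)) := by
    intro p
    apply Summable.of_norm_bounded hS
    intro n
    rw [norm_mul, norm_mul, Complex.norm_real, Complex.norm_real, Real.norm_eq_abs, Real.norm_eq_abs]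
    have h1 := CT2_norm_tw_le (CT2_om b M p.1 p.2) lam' n
    have h2 : 0 ≤ gw (Real.log n - x) / n := by
      apply div_nonneg _ (Nat.cast_nonneg _)
      unfold gw
      positivity
    rw [abs_of_nonneg h2]
    have h3 : |Dl b n| * ‖tw (CT2_om b M p.1 p.2) lam' n‖ ≤ |Dl b n| * 1 := by gcongr
    calc |Dl b n| * ‖tw (CT2_om b M p.1 p.2) lam' n‖ * (gw (Real.log n - x) / n)
        ≤ |Dl b n| * 1 * (gw (Real.log n - x) / n) := by gcongr
      _ = |Dl b n| * (gw (Real.log n - x) / n) := by ring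
  have hGS : GS (fun k => cc b r M Φ k * cp lam' k) x =
      ∑ p : DirichletCharacter ℂ (b ^ M) × DirichletCharacter ℂ (D0 b),
        (CT2_A b M Φ p.1 * CT2_B b r p.2) * DD b (CT2_om b M p.1 p.2) x lam' := by
    unfold DD GS
    have h1 : ∀ p : DirichletCharacter ℂ (b ^ M) × DirichletCharacter ℂ (D0 b),
        (CT2_A b M Φ p.1 * CT2_B b r p.2) * ∑' n : ℕ, (((Dl b n : ℝ) : ℂ) * tw (CT2_om b M p.1 p.2) lam' n) *
          ((gw (Real.log n - x) / n : ℝ) : ℂ) =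
        ∑' n : ℕ, (CT2_A b M Φ p.1 * CT2_B b r p.2) * ((((Dl b n : ℝ) : ℂ) * tw (CT2_om b M p.1 p.2) lam' n) *
          ((gw (Real.log n - x) / n : ℝ) : ℂ)) := fun p => (tsum_mul_left).symm
    rw [Finset.sum_congr rfl fun p _ => h1 p, ← Summable.tsum_finsetSum (fun p _ => (hterm p).mul_left _)]
    refine tsum_congr fun n => ?_
    simp only []
    rw [hcc, Finset.sum_mul]
    refine Finset.sum_congr rfl fun p _ => ?_
    ring
  have hA : ∀ ψ : DirichletCharacter ℂ (b ^ M), ‖CT2_A b M Φ ψ‖ ≤ b * B := by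
    intro ψ
    unfold CT2_A
    have htot : (0 : ℝ) < ((b ^ M).totient : ℝ) := by
      exact_mod_cast Nat.totient_pos.2 (by positivity)
    rw [norm_mul, norm_inv, Complex.norm_natCast, inv_mul_le_iff₀ htot]
    refine (hB ψ).trans ?_
    have h1 : ((b ^ M : ℕ) : ℝ) ≤ ((b * (b ^ M).totient : ℕ) : ℝ) := by
      exact_mod_cast CT2_totient b M hb hM
    push_cast at h1
    calc B * (b : ℝ) ^ M ≤ B * (b * ((b ^ M).totient : ℝ)) := by gcongr
      _ = ((b ^ M).totient : ℝ) * (b * B) := by ring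
  have hBB : ∀ ψ' : DirichletCharacter ℂ (D0 b), ‖CT2_B b r ψ'‖ ≤ 1 := by
    intro ψ'
    unfold CT2_B
    have h1 : (1 : ℝ) ≤ ((D0 b).totient : ℝ) := by
      exact_mod_cast Nat.totient_pos.2 (CT2_D0_pos b hb)
    rw [norm_mul, norm_inv, Complex.norm_natCast]
    have h2 := ψ'.norm_le_one ((r : ZMod (D0 b))⁻¹)
    have h3 : (((D0 b).totient : ℝ))⁻¹ ≤ 1 := inv_le_one_of_one_le₀ h1
    have h4 : 0 ≤ (((D0 b).totient : ℝ))⁻¹ := by positivity
    calc _ ≤ (1 : ℝ) * 1 := by gcongr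
      _ = 1 := one_mul 1
  rw [hGS]
  refine (norm_sum_le _ _).trans ?_
  have hb' : (0 : ℝ) ≤ b * B := by positivity
  have h5 : ∀ p ∈ (Finset.univ : Finset (DirichletCharacter ℂ (b ^ M) × DirichletCharacter ℂ (D0 b))),
      ‖(CT2_A b M Φ p.1 * CT2_B b r p.2) * DD b (CT2_om b M p.1 p.2) x lam'‖ ≤
      b * B * ‖DD b (CT2_om b M p.1 p.2) x lam'‖ := by
    intro p _
    rw [norm_mul, norm_mul]
    have h6 := hA p.1
    have h7 := hBB p.2
    have h8 : ‖CT2_A b M Φ p.1‖ * ‖CT2_B b r p.2‖ ≤ b * B * 1 := by gcongr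
    rw [mul_one] at h8
    gcongr
  refine (Finset.sum_le_sum h5).trans ?_
  rw [← Finset.mul_sum]
  apply mul_le_mul_of_nonneg_left _ hb'
  have h9 : ∑ p : DirichletCharacter ℂ (b ^ M) × DirichletCharacter ℂ (D0 b), ‖DD b (CT2_om b M p.1 p.2) x lam'‖ =
      ∑ ω ∈ (Finset.univ : Finset (DirichletCharacter ℂ (b ^ M) × DirichletCharacter ℂ (D0 b))).image
        (fun p => CT2_om b M p.1 p.2), ‖DD b ω x lam'‖ := by
    rw [Finset.sum_image]
    intro p _ p' _ h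
    obtain ⟨e1, e2⟩ := CT2_om_inj b M hb h
    exact Prod.ext e1 e2
  rw [h9]
  exact Finset.sum_le_sum_of_subset_of_nonneg (Finset.subset_univ _) fun _ _ _ => norm_nonneg _

end Pool.Agent.LibHG31
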