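import Pool.Agent.LibHG31.D4

/-! ROW D5: the two remaining clauses: no representation, and three summands with a short prime. -/

namespace Pool.Agent.LibHG31

open Finset Filter Topology

/-- a member of `reps` gives a representation -/
theorem repr_of_reps (b N : ℕ) (h : 0 < (reps b N).card) :
    ∃ p₁ p₂ : ℕ, p₁.Prime ∧ p₂.Prime ∧ N = p₁ + revb b p₂ ∧ (revb b p₂).Coprime (b ^ 3 - b) := by
  obtain ⟨p, hp⟩ := card_pos.1 h
  obtain ⟨_, h1, h2, h3, h4⟩ := mem_filter.1 hp
  exact ⟨N - revb b p, p, h4, h1, by omega, h2⟩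

theorem D5_pos (b N : ℕ) (c : ℝ) (hc : 0 < c) (hN : 2 ≤ N) (h : ¬ ((reps b N).card : ℝ) < c * (N / Real.log N ^ 2)) :
    0 < (reps b N).card := by
  rw [not_lt] at h
  have h1 : (0 : ℝ) < Real.log N := Real.log_pos (by exact_mod_cast (by omega : 1 < N))
  have h2 : (0 : ℝ) < N := by exact_mod_cast (by omega : 0 < N)
  have h3 : (0 : ℝ) < (reps b N).card := lt_of_lt_of_le (by positivity) h
  exact_mod_cast h3

private theorem D5_primes (y : ℕ) (hy : 2 ≤ y) : ((y : ℝ) * Real.log 2 - Real.log (y + 1)) / Real.log y - 1 ≤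
    (((Finset.range (y + 1)).filter (fun p => p.Prime ∧ Odd p)).card : ℝ) := by
  have h1 := Chebyshev.pi_ge y
  have h2 : (Nat.primeCounting y : ℝ) ≤ (((Finset.range (y + 1)).filter (fun p => p.Prime ∧ Odd p)).card : ℝ) + 1 := by
    have h3 : Nat.primeCounting y ≤ ((Finset.range (y + 1)).filter (fun p => p.Prime ∧ Odd p)).card + 1 := by
      rw [Nat.primeCounting, Nat.primeCounting', Nat.count_eq_card_filter_range]
      have h4 : (Finset.range (y + 1)).filter (fun p => p.Prime) ⊆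
          ((Finset.range (y + 1)).filter (fun p => p.Prime ∧ Odd p)) ∪ {2} := by
        intro p hp
        obtain ⟨hp1, hp2⟩ := mem_filter.1 hp
        rw [mem_union, mem_singleton, mem_filter]
        rcases hp2.eq_two_or_odd' with h | h
        · right; exact h
        · left; exact ⟨hp1, hp2, h⟩
      exact (card_le_card h4).trans ((card_union_le _ _).trans (by simp))
    exact_mod_cast h3
  linarith

/-- **three summands, one short** -/
theorem ternary (b : ℕ) (δ c C : ℝ) (hδ : 0 < δ) (hδ1 : δ < 1) (hc : 0 < c) (hC : 0 < C)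
    (h : ∀ x : ℕ, 1 ≤ x → ((ExcR b c (Finset.Icc 1 x)).card : ℝ) ≤ C * (x : ℝ) ^ (1 - δ)) :
    ∃ N₀ : ℕ, ∀ N : ℕ, N₀ ≤ N → Odd N → ∃ p₀ p₁ p₂ : ℕ, p₀.Prime ∧ p₁.Prime ∧ p₂.Prime ∧
      N = p₀ + p₁ + revb b p₂ ∧ (revb b p₂).Coprime (b ^ 3 - b) ∧ (p₀ : ℝ) ≤ (N : ℝ) ^ (1 - δ / 2) := by
  classical
  have hl2 : 0 < Real.log 2 := Real.log_pos (by norm_num)
  have hl2' : 1 / 2 ≤ Real.log 2 := by linarith [Real.log_two_gt_d9]
  -- the growth
  have hlo := (isLittleO_log_rpow_atTop (show 0 < δ / 2 by positivity)).bound (show 0 < Real.log 2 / (4 * (C + 8)) by positivity)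
  have hlo' := (tendsto_natCast_atTop_atTop (R := ℝ)).eventually hlo
  have hbig : ∀ᶠ N : ℕ in atTop, (3 : ℝ) ≤ (N : ℝ) ^ (1 - δ / 2) :=
    ((tendsto_rpow_atTop (show 0 < 1 - δ / 2 by linarith)).comp (tendsto_natCast_atTop_atTop (R := ℝ))).eventually_ge_atTop 3
  have hbig2 : ∀ᶠ N : ℕ in atTop, (2 : ℝ) * (N : ℝ) ^ (1 - δ / 2) ≤ N := by
    have h1 : ∀ᶠ N : ℕ in atTop, (2 : ℝ) ≤ (N : ℝ) ^ (δ / 2) :=
      ((tendsto_rpow_atTop (show 0 < δ / 2 by linarith)).comp (tendsto_natCast_atTop_atTop (R := ℝ))).eventually_ge_atTop 2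
    filter_upwards [h1, eventually_ge_atTop 1] with N h2 h3
    have h4 : (0 : ℝ) < N := by exact_mod_cast h3
    have h5 : (N : ℝ) = (N : ℝ) ^ (δ / 2) * (N : ℝ) ^ (1 - δ / 2) := by
      rw [← Real.rpow_add h4]
      have : δ / 2 + (1 - δ / 2) = 1 := by ring
      rw [this, Real.rpow_one]
    calc (2 : ℝ) * (N : ℝ) ^ (1 - δ / 2) ≤ (N : ℝ) ^ (δ / 2) * (N : ℝ) ^ (1 - δ / 2) :=
          mul_le_mul_of_nonneg_right h2 (by positivity)
      _ = N := h5.symm
  obtain ⟨N₁, hN₁⟩ := eventually_atTop.1 (hlo'.and (hbig.and (hbig2.and (eventually_ge_atTop 8))))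
  refine ⟨N₁, fun N hN hodd => ?_⟩
  obtain ⟨hA, hB, hD, hE⟩ := hN₁ N hN
  have hN0 : (0 : ℝ) < N := by exact_mod_cast (by omega : 0 < N)
  have hN1 : (1 : ℝ) ≤ N := by exact_mod_cast (by omega : 1 ≤ N)
  set Y : ℝ := (N : ℝ) ^ (1 - δ / 2) with hY
  set y : ℕ := ⌊Y⌋₊ with hy
  have hY0 : 0 ≤ Y := by positivity
  have hyY : (y : ℝ) ≤ Y := Nat.floor_le hY0
  have hYy : Y < y + 1 := Nat.lt_floor_add_one Y
  have hy2 : 2 ≤ y := by
    have : (2 : ℝ) < y + 1 - 0 := by linarith
    have h1 : (3 : ℝ) < (y : ℝ) + 1 + 0 ∨ (3 : ℝ) ≤ y + 1 := by right; linarith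
    have h2 : (3 : ℝ) ≤ ((y + 1 : ℕ) : ℝ) := by push_cast; linarith
    have h3 : 3 ≤ y + 1 := by exact_mod_cast h2
    omega
  have hy2r : (2 : ℝ) ≤ y := by exact_mod_cast hy2
  have hyN : 2 * y ≤ N := by
    have : (2 : ℝ) * y ≤ N := by linarith
    exact_mod_cast this
  have hlogy : 0 < Real.log y := Real.log_pos (by linarith)
  set P := (Finset.range (y + 1)).filter (fun p => p.Prime ∧ Odd p) with hP
  have hPcard := D5_primes y hy2
  -- many primes
  have hlogN : 0 < Real.log N := Real.log_pos (by exact_mod_cast (by omega : 1 < N))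
  have hmany : C * (N : ℝ) ^ (1 - δ) < (P.card : ℝ) := by
    have h1 : Real.log N ≤ Real.log 2 / (4 * (C + 8)) * (N : ℝ) ^ (δ / 2) := by
      have h2 := hA
      rw [Real.norm_of_nonneg hlogN.le, Real.norm_of_nonneg (by positivity)] at h2
      exact h2
    have hu : (1 : ℝ) ≤ (N : ℝ) ^ (1 - δ) := Real.one_le_rpow hN1 (by linarith)
    have hYeq : Y = (N : ℝ) ^ (1 - δ) * (N : ℝ) ^ (δ / 2) := by
      rw [hY, ← Real.rpow_add hN0]
      congr 1
      ring
    have h3 : (4 * (C + 8)) * Real.log N * (N : ℝ) ^ (1 - δ) ≤ Real.log 2 * Y := by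
      rw [hYeq]
      have h4 : (4 * (C + 8)) * Real.log N ≤ Real.log 2 * (N : ℝ) ^ (δ / 2) := by
        calc (4 * (C + 8)) * Real.log N ≤ (4 * (C + 8)) * (Real.log 2 / (4 * (C + 8)) * (N : ℝ) ^ (δ / 2)) :=
              mul_le_mul_of_nonneg_left h1 (by positivity)
          _ = _ := by field_simp
      calc _ ≤ (Real.log 2 * (N : ℝ) ^ (δ / 2)) * (N : ℝ) ^ (1 - δ) := mul_le_mul_of_nonneg_right h4 (by positivity)
        _ = _ := by ring
    have hlogyN : Real.log y ≤ Real.log N := Real.log_le_log (by linarith) (by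
      have : y ≤ N := by omega
      exact_mod_cast this)
    have hlogyN' : Real.log ((y : ℝ) + 1) ≤ Real.log N := Real.log_le_log (by linarith) (by
      have : y + 1 ≤ N := by omega
      exact_mod_cast this)
    have hlogN1 : 1 ≤ Real.log N := by
      have h4 : Real.log (8 : ℝ) ≤ Real.log N := Real.log_le_log (by norm_num) (by exact_mod_cast hE)
      have h5 : Real.log (8 : ℝ) = 3 * Real.log 2 := by
        rw [show (8 : ℝ) = 2 ^ 3 by norm_num, Real.log_pow]
        norm_num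
      linarith
    have hgoal : (C * (N : ℝ) ^ (1 - δ) + 1) * Real.log y + Real.log (y + 1) < (y : ℝ) * Real.log 2 := by
      have h4 : (y : ℝ) * Real.log 2 ≥ Y * Real.log 2 - Real.log 2 := by
        have : Y - 1 ≤ y := by linarith
        nlinarith
      have h5 : (C * (N : ℝ) ^ (1 - δ) + 1) * Real.log y ≤ (C * (N : ℝ) ^ (1 - δ) + 1) * Real.log N :=
        mul_le_mul_of_nonneg_left hlogyN (by positivity)
      have h6 : Real.log 2 ≤ Real.log N := by
        have : Real.log 2 < 1 := by linarith [Real.log_two_lt_d9]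
        linarith
      have h7 : (C * (N : ℝ) ^ (1 - δ) + 1) * Real.log N + Real.log N + Real.log 2 ≤
          (C + 3) * Real.log N * (N : ℝ) ^ (1 - δ) := by
        have h8 : Real.log N ≤ Real.log N * (N : ℝ) ^ (1 - δ) := le_mul_of_one_le_right hlogN.le hu
        have e : (C + 3) * Real.log N * (N : ℝ) ^ (1 - δ) = (C * (N : ℝ) ^ (1 - δ)) * Real.log N + 3 * (Real.log N * (N : ℝ) ^ (1 - δ)) := by ring
        rw [e]
        linarith
      have h9 : 0 < Real.log N * (N : ℝ) ^ (1 - δ) := by positivity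
      nlinarith
    have h10 : C * (N : ℝ) ^ (1 - δ) + 1 < ((y : ℝ) * Real.log 2 - Real.log (y + 1)) / Real.log y := by
      rw [lt_div_iff₀ hlogy]
      linarith
    linarith
  -- some shifted number is not exceptional
  have hex : ∃ p ∈ P, N - p ∉ ExcR b c (Finset.Icc 1 N) := by
    by_contra hno
    push_neg at hno
    have h1 : (P.card : ℝ) ≤ ((ExcR b c (Finset.Icc 1 N)).card : ℝ) := by
      have : P.card ≤ (ExcR b c (Finset.Icc 1 N)).card := by
        apply Finset.card_le_card_of_injOn (fun p => N - p)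
        · intro p hp
          exact hno p hp
        · intro p hp q hq hpq
          have h2 := mem_range.1 (mem_filter.1 (mem_coe.1 hp)).1
          have h3 := mem_range.1 (mem_filter.1 (mem_coe.1 hq)).1
          simp only at hpq
          omega
      exact_mod_cast this
    have h2 := h N (by omega)
    linarith
  obtain ⟨p, hp, hpe⟩ := hex
  obtain ⟨hp1, hp2, hp3⟩ := mem_filter.1 hp
  rw [mem_range] at hp1
  have hNp : 2 ≤ N - p := by omega
  have heven : Even (N - p) := by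
    rw [Nat.even_sub' (by omega)]
    exact ⟨fun _ => hp3, fun _ => hodd⟩
  have hfew : ¬ ((reps b (N - p)).card : ℝ) < c * (((N - p : ℕ) : ℝ) / Real.log ((N - p : ℕ) : ℝ) ^ 2) := by
    intro hlt
    apply hpe
    unfold ExcR
    rw [mem_filter, mem_Icc]
    exact ⟨⟨by omega, by omega⟩, heven, hlt⟩
  obtain ⟨p₁, p₂, h1, h2, h3, h4⟩ := repr_of_reps b (N - p) (D5_pos b (N - p) c hc hNp hfew)
  refine ⟨p, p₁, p₂, hp2, h1, h2, by omega, h4, ?_⟩
  have : (p : ℝ) ≤ y := by exact_mod_cast (by omega : p ≤ y)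
  linarith

end Pool.Agent.LibHG31
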