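import Mathlib

/-!
# LibHG31: definitions (MP_ccee18_nt, primes plus reversed primes, power saving exceptional set)

`b` base, `L` number of digits of the prime `k` that is reversed, `J = L / A` the (short) number of
extreme digits that are treated exactly, `l` the leading digit of `k`, `r` its class mod `b^2 - 1`.
-/

namespace Pool.Agent.LibHG31

open Finset
open scoped ArithmeticFunction.vonMangoldt

/-- `e(x) = exp(2 π i x)` -/
noncomputable def ee (x : ℝ) : ℂ := Complex.exp (((2 * Real.pi * x : ℝ) : ℂ) * Complex.I)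

/-- distance to the nearest integer -/
noncomputable def nd (x : ℝ) : ℝ := |x - round x|

/-- `j`-th digit of `n` in base `b` -/
def dg (b j n : ℕ) : ℕ := n / b ^ j % b

/-- reversal of the `L` lowest digits -/
def rv (b L n : ℕ) : ℕ := ∑ j ∈ range L, dg b j n * b ^ (L - 1 - j)

/-- `b^2 - 1` -/
def D0 (b : ℕ) : ℕ := b ^ 2 - 1

/-- `Q = (b^2-1) b^J` -/
def QQ (b J : ℕ) : ℕ := D0 b * b ^ J

/-- `H' = b^(L-2J)`; the additive window has length `Q H'` -/
def HH (b L J : ℕ) : ℕ := b ^ (L - 2 * J)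

/-- major arcs: denominators `≤ P = 2^(J/4)` -/
def PP (J : ℕ) : ℕ := 2 ^ (J / 4)

/-- all `n` are `< X = b^(L+3)` -/
def XX (b L : ℕ) : ℕ := b ^ (L + 3)

/-- integers with `L` digits and leading digit `l` -/
def II (b L l : ℕ) : Finset ℕ := Ico (l * b ^ (L - 1)) ((l + 1) * b ^ (L - 1))

/-- the range of `k` -/
def KS (b L l r : ℕ) : Finset ℕ := (II b L l).filter (fun k => k.Coprime b ∧ k ≡ r [MOD D0 b])

/-- the counting function -/
noncomputable def RR (b L l r N : ℕ) : ℝ := ∑ k ∈ KS b L l r, Λ k * Λ (N - rv b L k)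

/-- the kernel `Q 1[Q | m] (1/H)(1-|m|/H)_+`, `H = Q H'` -/
noncomputable def krn (b L J : ℕ) (m : ℤ) : ℝ :=
  if (QQ b J : ℤ) ∣ m then (1 / (HH b L J : ℝ)) * max 0 (1 - |(m : ℝ)| / (QQ b J * HH b L J)) else 0

/-- the part of the count at the frequency `ρ` -/
noncomputable def Rrho (b L J l r N : ℕ) (ρ : ℝ) : ℂ :=
  ∑ n ∈ range (XX b L), ∑ k ∈ KS b L l r,
    ((Λ n * Λ k * krn b L J ((N : ℤ) - n - rv b L k) : ℝ) : ℂ) *
      ee (ρ * ((N : ℝ) - n - rv b L k))

/-- representatives modulo `(1/D0) ℤ` of the fractions with denominator `≤ P`, prime to `b` -/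
noncomputable def Rset (b J : ℕ) : Finset ℚ :=
  (((range (PP J * D0 b + 1)) ×ˢ (range (PP J * D0 b + 1))).image
    (fun p : ℕ × ℕ => (p.1 : ℚ) / p.2)).filter
      (fun y => 0 ≤ y ∧ y * D0 b < 1 ∧ y.den.Coprime b)

/-- the remaining part -/
noncomputable def Rrest (b L J l r N : ℕ) : ℂ :=
  (RR b L l r N : ℂ) - ∑ ρ ∈ Rset b J, Rrho b L J l r N (ρ : ℝ)

/-- the exponential sum over the first variable -/
noncomputable def S1 (b L : ℕ) (α : ℝ) : ℂ := ∑ n ∈ range (XX b L), ((Λ n : ℝ) : ℂ) * ee (n * α)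

/-- the exponential sum over the reversed variable -/
noncomputable def S2 (b L l r : ℕ) (α : ℝ) : ℂ :=
  ∑ k ∈ KS b L l r, ((Λ k : ℝ) : ℂ) * ee (rv b L k * α)

/-- `N` has `L+2` digits; digit `l` and class `r` are admissible for `N` -/
def Good (b L l r N : ℕ) : Prop :=
  b ^ (L + 1) ≤ N ∧ N < b ^ (L + 2) ∧ 1 ≤ l ∧ l < b ∧ l.Coprime b ∧ IsCoprime ((N : ℤ) - l) b ∧
    r.Coprime (D0 b) ∧ IsCoprime ((N : ℤ) - b ^ (L - 1) * r) (D0 b)

/-- the digital product attached to the phases `α` -/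
noncomputable def GG (b : ℕ) (c : ℝ) (α : ℕ → ℝ) (s t : ℕ) : ℝ :=
  ∏ j ∈ Ico s t, (1 - c * nd (b * α j - α (j + 1)) ^ 2)

/-- normalized geometric sum over one digit -/
noncomputable def phi (b : ℕ) (x : ℝ) : ℝ := ‖∑ ε ∈ range b, ee (ε * x)‖ / b

/-- level products -/
noncomputable def LP (b : ℕ) (β : ℕ → ℝ) (m h : ℕ) : ℝ :=
  ∏ i ∈ range m, phi b (β i - (h : ℝ) / (b : ℝ) ^ (i + 1))

/-- digital function: an arbitrary joint function `Om` of the prefix (highest `J` digits) and the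
suffix (lowest `J` digits), phases `α j` on the middle digits -/
noncomputable def ff (b L J : ℕ) (α : ℕ → ℝ) (Om : ℕ → ℕ → ℂ) (n : ℕ) : ℂ :=
  Om (n / b ^ (L - J)) (n % b ^ J) * ee (∑ j ∈ Ico J (L - J), α j * dg b j n)

end Pool.Agent.LibHG31
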