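import Pool.Agent.LibHG31.Defs

/-! ROW E1 (helper31): elementary facts on `ee` and `nd`. -/

namespace Pool.Agent.LibHG31

open Finset

theorem ee_add (x y : ℝ) : ee (x + y) = ee x * ee y := by
  unfold ee
  rw [← Complex.exp_add]
  congr 1
  push_cast
  ring

theorem ee_zero : ee 0 = 1 := by simp [ee]

theorem ee_int (n : ℤ) : ee n = 1 := by
  unfold ee
  rw [Complex.exp_eq_one_iff]
  exact ⟨n, by push_cast; ring⟩

theorem ee_nat (n : ℕ) : ee n = 1 := by exact_mod_cast ee_int n

theorem ee_add_int (x : ℝ) (n : ℤ) : ee (x + n) = ee x := by rw [ee_add, ee_int, mul_one]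

theorem norm_ee (x : ℝ) : ‖ee x‖ = 1 := by
  unfold ee
  exact Complex.norm_exp_ofReal_mul_I _

theorem ee_ne_zero (x : ℝ) : ee x ≠ 0 := Complex.exp_ne_zero _

theorem ee_neg (x : ℝ) : ee (-x) = (ee x)⁻¹ := by
  apply eq_inv_of_mul_eq_one_left
  rw [← ee_add, neg_add_cancel, ee_zero]

theorem conj_ee (x : ℝ) : (starRingEnd ℂ) (ee x) = ee (-x) := by
  rw [ee_neg, Complex.inv_def, Complex.normSq_eq_norm_sq, norm_ee]
  simp

theorem ee_mul_nat (n : ℕ) (x : ℝ) : ee (n * x) = ee x ^ n := by
  induction n with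
  | zero => simp [ee_zero]
  | succ n ih =>
    rw [pow_succ, ← ih, ← ee_add]
    congr 1
    push_cast
    ring

theorem nd_nonneg (x : ℝ) : 0 ≤ nd x := abs_nonneg _

theorem nd_le_half (x : ℝ) : nd x ≤ 1 / 2 := abs_sub_round x

theorem nd_le_abs_sub (x : ℝ) (k : ℤ) : nd x ≤ |x - k| := round_le x k

theorem nd_neg (x : ℝ) : nd (-x) = nd x := by
  apply le_antisymm
  · have h := nd_le_abs_sub (-x) (-round x)
    have e : |-x - ((-round x : ℤ) : ℝ)| = nd x := by
      unfold nd
      rw [← abs_neg]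
      congr 1
      push_cast
      ring
    rwa [e] at h
  · have h := nd_le_abs_sub x (-round (-x))
    have e : |x - ((-round (-x) : ℤ) : ℝ)| = nd (-x) := by
      unfold nd
      rw [← abs_neg]
      congr 1
      push_cast
      ring
    rwa [e] at h

theorem nd_add_int (x : ℝ) (k : ℤ) : nd (x + k) = nd x := by
  unfold nd
  rw [round_add_intCast]
  congr 1
  push_cast
  ring

theorem nd_add_le (x y : ℝ) : nd (x + y) ≤ nd x + nd y := by
  have h := nd_le_abs_sub (x + y) (round x + round y)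
  refine h.trans ?_
  have e : x + y - ((round x + round y : ℤ) : ℝ) = (x - round x) + (y - round y) := by
    push_cast
    ring
  rw [e]
  exact abs_add_le _ _

theorem nd_nat_mul_le (n : ℕ) (x : ℝ) : nd (n * x) ≤ n * nd x := by
  have h := nd_le_abs_sub (n * x) (n * round x)
  refine h.trans ?_
  have e : (n : ℝ) * x - (((n : ℤ) * round x : ℤ) : ℝ) = n * (x - round x) := by
    push_cast
    ring
  rw [e, abs_mul, Nat.abs_cast]
  exact le_of_eq rfl

end Pool.Agent.LibHG31
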