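import Pool.Agent.LibHG31.E2

/-! ROW E3: the function `phi b x = |∑_{ε<b} e(ε x)| / b`. -/

namespace Pool.Agent.LibHG31

open Finset

theorem phi_nonneg (b : ℕ) (x : ℝ) : 0 ≤ phi b x := by
  unfold phi; positivity

theorem phi_le_one (b : ℕ) (x : ℝ) : phi b x ≤ 1 := by
  unfold phi
  apply div_le_one_of_le₀
  · refine (norm_sum_le _ _).trans ?_
    simp [norm_ee]
  · positivity

theorem phi_add_int (b : ℕ) (x : ℝ) (k : ℤ) : phi b (x + k) = phi b x := by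
  unfold phi
  congr 2
  refine Finset.sum_congr rfl fun ε _ => ?_
  have h := ee_add_int (ε * x) (ε * k)
  rw [← h]
  congr 1
  push_cast
  ring

theorem phi_neg (b : ℕ) (x : ℝ) : phi b (-x) = phi b x := by
  unfold phi
  congr 1
  have h : ∑ ε ∈ range b, ee (ε * (-x)) = (starRingEnd ℂ) (∑ ε ∈ range b, ee (ε * x)) := by
    rw [map_sum]
    refine Finset.sum_congr rfl fun ε _ => ?_
    rw [conj_ee, mul_neg]
  rw [h, RCLike.norm_conj]

theorem continuous_ee : Continuous ee := by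
  unfold ee
  fun_prop

theorem continuous_phi (b : ℕ) : Continuous (phi b) := by
  unfold phi
  have h : Continuous ee := continuous_ee
  fun_prop

/-- Parseval on `b` equally spaced points.
Plan: expand the square `‖∑_ε e(ε y)‖² = ∑_{ε,ε'} e((ε-ε') y)` and use `sum_ee_div` over `k` with `y = x - k/b`. -/
theorem sum_phi_sq (b : ℕ) (hb : 1 ≤ b) (x : ℝ) : ∑ k ∈ range b, phi b (x - (k : ℝ) / b) ^ 2 = 1 := by
  have hb0 : (b : ℝ) ≠ 0 := by
    have : 0 < b := hb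
    exact_mod_cast this.ne'
  have h1 : ∀ y : ℝ, ((‖∑ ε ∈ range b, ee (ε * y)‖ ^ 2 : ℝ) : ℂ) =
      ∑ ε ∈ range b, ∑ δ ∈ range b, ee (((ε : ℝ) - δ) * y) := by
    intro y
    have h2 := Complex.mul_conj (∑ ε ∈ range b, ee (ε * y))
    rw [Complex.normSq_eq_norm_sq] at h2
    rw [← h2, map_sum, Finset.sum_mul_sum]
    refine Finset.sum_congr rfl fun ε _ => Finset.sum_congr rfl fun δ _ => ?_
    rw [conj_ee, ← ee_add]
    congr 1
    ring
  have h3 : ∑ k ∈ range b, ((‖∑ ε ∈ range b, ee (ε * (x - (k : ℝ) / b))‖ ^ 2 : ℝ) : ℂ) = (b : ℂ) ^ 2 := by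
    simp_rw [h1]
    rw [Finset.sum_comm]
    have h4 : ∀ ε ∈ range b, ∑ k ∈ range b, ∑ δ ∈ range b, ee (((ε : ℝ) - δ) * (x - (k : ℝ) / b)) = b := by
      intro ε hε
      rw [Finset.sum_comm]
      have h5 : ∀ δ ∈ range b, ∑ k ∈ range b, ee (((ε : ℝ) - δ) * (x - (k : ℝ) / b)) =
          if δ = ε then (b : ℂ) else 0 := by
        intro δ hδ
        have h6 : ∀ k ∈ range b, ee (((ε : ℝ) - δ) * (x - (k : ℝ) / b)) =
            ee (((ε : ℝ) - δ) * x) * ee ((k : ℝ) * ((((δ : ℤ) - ε : ℤ) : ℝ) / b)) := by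
          intro k _
          rw [← ee_add]
          congr 1
          push_cast
          ring
        rw [Finset.sum_congr rfl h6, ← Finset.mul_sum, sum_ee_div b hb]
        rw [mem_range] at hε hδ
        by_cases he : δ = ε
        · subst he
          simp [ee_zero]
        · have hnd : ¬ (b : ℤ) ∣ ((δ : ℤ) - ε) := by
            intro hd
            have := Int.eq_zero_of_abs_lt_dvd hd (by rw [abs_lt]; constructor <;> omega)
            omega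
          rw [if_neg hnd, if_neg he, mul_zero]
      rw [Finset.sum_congr rfl h5, Finset.sum_ite_eq' (range b) ε (fun _ => (b : ℂ)), if_pos hε]
    rw [Finset.sum_congr rfl h4]
    simp
    ring
  have h7 : ∑ k ∈ range b, ‖∑ ε ∈ range b, ee (ε * (x - (k : ℝ) / b))‖ ^ 2 = (b : ℝ) ^ 2 := by
    have : ((∑ k ∈ range b, ‖∑ ε ∈ range b, ee (ε * (x - (k : ℝ) / b))‖ ^ 2 : ℝ) : ℂ) = (((b : ℝ) ^ 2 : ℝ) : ℂ) := by
      rw [Complex.ofReal_sum, h3]
      push_cast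
      rfl
    exact Complex.ofReal_injective this
  unfold phi
  simp_rw [div_pow]
  rw [← Finset.sum_div, h7, div_self (pow_ne_zero 2 hb0)]

/-- `phi(x)² ≤ 1 - c nd(x)²`. -/
theorem phi_sq_le (b : ℕ) (hb : 2 ≤ b) : ∃ c : ℝ, 0 < c ∧ c ≤ 1 / 2 ∧ ∀ x : ℝ,
    phi b x ^ 2 ≤ 1 - c * nd x ^ 2 := by
  have hb0 : (2 : ℝ) ≤ b := by exact_mod_cast hb
  refine ⟨1 / b, by positivity, by rw [div_le_div_iff₀ (by positivity) (by norm_num)]; linarith, ?_⟩
  intro x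
  have hn0 := nd_nonneg x
  have hn1 := nd_le_half x
  have h1 : ‖(1 : ℂ) + ee x‖ ≤ 2 - 4 * nd x ^ 2 := by
    have hpar := parallelogram_law_with_norm ℝ (1 : ℂ) (ee x)
    rw [norm_ee, norm_one] at hpar
    have h2 := four_nd_le x
    rw [norm_sub_rev] at h2
    have h3 : ‖(1 : ℂ) + ee x‖ ^ 2 ≤ (2 - 4 * nd x ^ 2) ^ 2 := by
      nlinarith [sq_nonneg (nd x), sq_nonneg (nd x ^ 2)]
    have h4 : 0 ≤ 2 - 4 * nd x ^ 2 := by nlinarith
    exact le_of_sq_le_sq h3 h4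
  have h5 : ‖∑ ε ∈ range b, ee (ε * x)‖ ≤ b - 4 * nd x ^ 2 := by
    obtain ⟨n, rfl⟩ : ∃ n, b = n + 2 := ⟨b - 2, by omega⟩
    rw [Finset.sum_range_succ', Finset.sum_range_succ']
    have e1 : ee ((((0 + 1 : ℕ)) : ℝ) * x) = ee x := by simp
    have e2 : ee (((0 : ℕ) : ℝ) * x) = 1 := by simp [ee_zero]
    rw [e1, e2, add_assoc, add_comm (ee x) 1]
    refine (norm_add_le _ _).trans ?_
    have h6 : ‖∑ k ∈ range n, ee ((((k + 1 + 1 : ℕ)) : ℝ) * x)‖ ≤ n := by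
      refine (norm_sum_le _ _).trans ?_
      simp [norm_ee]
    push_cast at h6 ⊢
    linarith
  have h7 : phi b x ≤ 1 - 1 / b * nd x ^ 2 := by
    unfold phi
    rw [div_le_iff₀ (by linarith)]
    have e3 : (1 - 1 / (b : ℝ) * nd x ^ 2) * b = b - nd x ^ 2 := by
      field_simp
    rw [e3]
    nlinarith
  have h8 := phi_le_one b x
  have h9 := phi_nonneg b x
  nlinarith

/-- the pair inequality: if `b t - t' ≡ ξ` then `phi(t)² phi(t')² ≤ 1 - c nd(ξ)²`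
(`nd ξ ≤ b nd t + nd t'`, so one of `nd t`, `nd t'` is `≥ nd ξ/(b+1)`). -/
theorem phi_pair (b : ℕ) (hb : 2 ≤ b) : ∃ c : ℝ, 0 < c ∧ c < 1 ∧ ∀ t t' : ℝ,
    phi b t ^ 2 * phi b t' ^ 2 ≤ 1 - c * nd (b * t - t') ^ 2 := by
  obtain ⟨c, h0, h1, h⟩ := phi_sq_le b hb
  have hb0 : (2 : ℝ) ≤ b := by exact_mod_cast hb
  refine ⟨c / (b + 1) ^ 2, by positivity, ?_, ?_⟩
  · rw [div_lt_one (by positivity)]
    nlinarith
  intro t t'
  have h2 : nd (b * t - t') ≤ b * nd t + nd t' := by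
    have h3 := nd_add_le (b * t) (-t')
    rw [nd_neg, ← sub_eq_add_neg] at h3
    have h4 := nd_nat_mul_le b t
    linarith
  have h5 := nd_nonneg (b * t - t')
  have h6 := nd_nonneg t
  have h7 := nd_nonneg t'
  have ht := h t
  have ht' := h t'
  have p1 := phi_nonneg b t
  have p2 := phi_nonneg b t'
  have q1 := phi_le_one b t
  have q2 := phi_le_one b t'
  have r1 : phi b t ^ 2 ≤ 1 := by nlinarith
  have r2 : phi b t' ^ 2 ≤ 1 := by nlinarith
  have s1 : 0 ≤ phi b t ^ 2 := sq_nonneg _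
  have s2 : 0 ≤ phi b t' ^ 2 := sq_nonneg _
  have key : ∀ m : ℝ, 0 ≤ m → nd (b * t - t') ≤ (b + 1) * m →
      c / (b + 1) ^ 2 * nd (b * t - t') ^ 2 ≤ c * m ^ 2 := by
    intro m hm hle
    have h8 : nd (b * t - t') ^ 2 ≤ ((b + 1) * m) ^ 2 := by
      apply pow_le_pow_left₀ h5 hle
    calc c / (b + 1) ^ 2 * nd (b * t - t') ^ 2 ≤ c / (b + 1) ^ 2 * ((b + 1) * m) ^ 2 := by gcongr
      _ = c * m ^ 2 := by field_simp
  rcases le_total (nd t) (nd t') with hle | hle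
  · have h9 := key (nd t') h7 (by nlinarith)
    nlinarith
  · have h9 := key (nd t) h6 (by nlinarith)
    nlinarith

theorem prod_pairs_le (p F : ℕ → ℝ) (h0 : ∀ j, 0 ≤ p j) (h1 : ∀ j, p j ≤ 1)
    (hF : ∀ j, p j ^ 2 * p (j + 1) ^ 2 ≤ F j) (s t : ℕ) :
    ∏ j ∈ Ico s t, p j ^ 4 ≤ ∏ j ∈ Ico s (t - 1), F j := by
  have hF0 : ∀ j, 0 ≤ F j := fun j => le_trans (by have := h0 j; positivity) (hF j)
  have key : ∀ n : ℕ, ∏ j ∈ Ico s (s + n + 1), p j ^ 4 ≤ (∏ j ∈ Ico s (s + n), F j) * p (s + n) ^ 2 := by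
    intro n
    induction n with
    | zero =>
      simp only [add_zero, Ico_self, prod_empty, one_mul, Nat.Ico_succ_singleton, prod_singleton]
      have a := h0 s
      have b := h1 s
      have c : p s ^ 2 ≤ 1 := by nlinarith
      have d : 0 ≤ p s ^ 2 := sq_nonneg _
      nlinarith
    | succ n ih =>
      have e1 : s + (n + 1) + 1 = (s + n + 1) + 1 := by omega
      have e2 : s + (n + 1) = (s + n) + 1 := by omega
      rw [e1, e2, Finset.prod_Ico_succ_top (by omega : s ≤ s + n + 1) (fun j => p j ^ 4),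
        Finset.prod_Ico_succ_top (by omega : s ≤ s + n) F]
      have a1 : 0 ≤ p (s + n + 1) ^ 2 := sq_nonneg _
      have a2 : 0 ≤ ∏ j ∈ Ico s (s + n), F j := Finset.prod_nonneg fun j _ => hF0 j
      calc (∏ j ∈ Ico s (s + n + 1), p j ^ 4) * p (s + n + 1) ^ 4
          ≤ ((∏ j ∈ Ico s (s + n), F j) * p (s + n) ^ 2) * p (s + n + 1) ^ 4 := by gcongr
        _ = (∏ j ∈ Ico s (s + n), F j) * (p (s + n) ^ 2 * p (s + n + 1) ^ 2) * p (s + n + 1) ^ 2 := by ring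
        _ ≤ (∏ j ∈ Ico s (s + n), F j) * F (s + n) * p (s + n + 1) ^ 2 := by
            gcongr
            exact hF (s + n)
  rcases Nat.lt_or_ge s t with hst | hst
  · obtain ⟨n, rfl⟩ : ∃ n, t = s + n + 1 := ⟨t - s - 1, by omega⟩
    have e : s + n + 1 - 1 = s + n := by omega
    rw [e]
    refine (key n).trans ?_
    have a1 : p (s + n) ^ 2 ≤ 1 := by have := h0 (s + n); have := h1 (s + n); nlinarith
    have a2 : 0 ≤ ∏ j ∈ Ico s (s + n), F j := Finset.prod_nonneg fun j _ => hF0 j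
    nlinarith
  · rw [Finset.Ico_eq_empty_of_le hst, Finset.Ico_eq_empty_of_le (by omega)]
    simp

/-- products along any sequence: consecutive pairs.
Plan: every factor `phi(u_j)^2` occurs in at most two of the pairs `(j,j+1)`, so
`∏_{s≤j<t} phi(u_j)^4 ≤ ∏_{s≤j<t-1} phi(u_j)² phi(u_{j+1})²` (all `phi ≤ 1`; induction on `t`), then `phi_pair`. -/
theorem prod_phi_le (b : ℕ) (hb : 2 ≤ b) : ∃ c : ℝ, 0 < c ∧ c < 1 ∧ ∀ (u : ℕ → ℝ) (s t : ℕ),
    ∏ j ∈ Ico s t, phi b (u j) ^ 4 ≤ ∏ j ∈ Ico s (t - 1), (1 - c * nd (b * u j - u (j + 1)) ^ 2) ∧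
    ∏ j ∈ Ico s t, phi b (u j) ^ 4 ≤ ∏ j ∈ Ico s (t - 1), (1 - c * nd (b * u (j + 1) - u j) ^ 2) := by
  obtain ⟨c, h0, h1, h⟩ := phi_pair b hb
  refine ⟨c, h0, h1, fun u s t => ⟨?_, ?_⟩⟩
  · exact prod_pairs_le (fun j => phi b (u j)) _ (fun j => phi_nonneg _ _) (fun j => phi_le_one _ _)
      (fun j => h (u j) (u (j + 1))) s t
  · exact prod_pairs_le (fun j => phi b (u j)) _ (fun j => phi_nonneg _ _) (fun j => phi_le_one _ _)
      (fun j => by rw [mul_comm]; exact h (u (j + 1)) (u j)) s t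

/-- the case `u_j = α_j - γ b^j`: `b u_j - u_{j+1} = b α_j - α_{j+1}`. -/
theorem prod_phi_digit_le (b : ℕ) (hb : 2 ≤ b) : ∃ c : ℝ, 0 < c ∧ c < 1 ∧ ∀ (α : ℕ → ℝ) (γ : ℝ) (s t : ℕ),
    ∏ j ∈ Ico s t, phi b (α j - γ * (b : ℝ) ^ j) ^ 4 ≤ GG b c α s (t - 1) := by
  obtain ⟨c, h0, h1, h⟩ := prod_phi_le b hb
  refine ⟨c, h0, h1, fun α γ s t => ?_⟩
  have h2 := (h (fun j => α j - γ * (b : ℝ) ^ j) s t).1
  refine h2.trans (le_of_eq ?_)
  unfold GG
  refine Finset.prod_congr rfl fun j _ => ?_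
  have e : (b : ℝ) * (α j - γ * (b : ℝ) ^ j) - (α (j + 1) - γ * (b : ℝ) ^ (j + 1)) =
      b * α j - α (j + 1) := by ring
  simp only [e]

end Pool.Agent.LibHG31
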