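import Pool.Agent.LibHG31.E3

/-! ROW K1: the average of the digit products over all numerators. -/

namespace Pool.Agent.LibHG31

open Finset

/-- the summand -/
noncomputable def K1_F (c y : ℝ) : ℝ := (1 - c * nd y ^ 2) ^ (1 / 4 : ℝ)

theorem K1_base_nonneg (c : ℝ) (hc : 0 < c) (hc1 : c < 1) (y : ℝ) : 0 ≤ 1 - c * nd y ^ 2 := by
  have h1 := nd_nonneg y
  have h2 := nd_le_half y
  have h3 : nd y ^ 2 ≤ 1 := by nlinarith
  nlinarith [sq_nonneg (nd y)]

theorem K1_base_le (c : ℝ) (hc : 0 < c) (y : ℝ) : 1 - c * nd y ^ 2 ≤ 1 := by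
  nlinarith [sq_nonneg (nd y), mul_nonneg hc.le (sq_nonneg (nd y))]

theorem K1_F_nonneg (c : ℝ) (hc : 0 < c) (hc1 : c < 1) (y : ℝ) : 0 ≤ K1_F c y :=
  Real.rpow_nonneg (K1_base_nonneg c hc hc1 y) _

theorem K1_F_le_one (c : ℝ) (hc : 0 < c) (hc1 : c < 1) (y : ℝ) : K1_F c y ≤ 1 :=
  Real.rpow_le_one (K1_base_nonneg c hc hc1 y) (K1_base_le c hc y) (by norm_num)

theorem K1_F_add_int (c y : ℝ) (k : ℤ) : K1_F c (y + k) = K1_F c y := by
  unfold K1_F
  rw [nd_add_int]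

theorem K1_far (y s : ℝ) (hy : nd y < 1 / 8) (hs : 1 / 4 ≤ s) (hs' : s ≤ 1 / 2) :
    1 / 8 ≤ nd (y + s) := by
  have h1 : 1 / 4 ≤ nd s := by
    unfold nd
    rcases le_or_gt (round s) 0 with h | h
    · have h2 : ((round s : ℤ) : ℝ) ≤ 0 := by exact_mod_cast h
      rw [abs_of_nonneg (by linarith)]
      linarith
    · have h2 : (1 : ℝ) ≤ ((round s : ℤ) : ℝ) := by exact_mod_cast h
      rw [abs_of_nonpos (by linarith)]
      linarith
  have h2 := nd_add_le (y + s) (-y)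
  rw [nd_neg, show y + s + -y = s by ring] at h2
  linarith

/-- `ν ≥ 4` equally spaced points: the average of `(1 - c nd²)^(1/4)` is at most `1 - (1 - (1-c/64)^(1/4))/2`.
Plan: at most `ν/4 + 1 ≤ ν/2` of the points `x + j/ν`, `j < ν`, have `nd < 1/8` (an arc of length `1/4`), the others contribute
`≤ (1 - c/64)^(1/4)`. -/
theorem avg_spaced (c : ℝ) (hc : 0 < c) (hc1 : c < 1) : ∃ κ : ℝ, 0 < κ ∧ κ < 1 ∧ ∀ (ν : ℕ) (x : ℝ), 4 ≤ ν →
    ∑ j ∈ range ν, (1 - c * nd (x + (j : ℝ) / ν) ^ 2) ^ (1 / 4 : ℝ) ≤ κ * ν := by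
  have hτb : 0 ≤ 1 - c / 64 := by linarith
  have hτ1 : (1 - c / 64) ^ (1 / 4 : ℝ) < 1 :=
    Real.rpow_lt_one hτb (by linarith) (by norm_num)
  have hτ0 : 0 ≤ (1 - c / 64) ^ (1 / 4 : ℝ) := Real.rpow_nonneg hτb _
  set τ : ℝ := (1 - c / 64) ^ (1 / 4 : ℝ) with hτ
  refine ⟨1 - (1 - τ) / 2, by linarith, by linarith, ?_⟩
  intro ν x hν
  have hνpos : (0 : ℝ) < ν := by exact_mod_cast (by omega : 0 < ν)
  set near : Finset ℕ := (range ν).filter fun j => nd (x + (j : ℝ) / ν) < 1 / 8 with hnear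
  set far : Finset ℕ := (range ν).filter fun j => ¬ nd (x + (j : ℝ) / ν) < 1 / 8 with hfar
  set m : ℕ := (ν + 3) / 4 with hm
  have hm1 : ν ≤ 4 * m := by omega
  have hm2 : 2 * m ≤ ν := by omega
  have hcard : near.card ≤ far.card := by
    refine Finset.card_le_card_of_injOn (fun j => (j + m) % ν) ?_ ?_
    · intro j hj
      rw [Finset.mem_coe, hnear, mem_filter, mem_range] at hj
      rw [Finset.mem_coe, hfar, mem_filter, mem_range]
      refine ⟨Nat.mod_lt _ (by omega), ?_⟩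
      push Not
      obtain ⟨q, hq⟩ : ∃ q : ℕ, (j + m) % ν + ν * q = j + m :=
        ⟨(j + m) / ν, Nat.mod_add_div (j + m) ν⟩
      have e : x + (((j + m) % ν : ℕ) : ℝ) / ν =
          x + (j : ℝ) / ν + (m : ℝ) / ν + ((-(q : ℤ) : ℤ) : ℝ) := by
        have h3 : (((j + m) % ν + ν * q : ℕ) : ℝ) = ((j + m : ℕ) : ℝ) := by
          rw [hq]
        have h1 : (((j + m) % ν : ℕ) : ℝ) = (j : ℝ) + m - ν * q := by
          rw [Nat.cast_add, Nat.cast_mul, Nat.cast_add] at h3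
          linarith
        rw [h1]
        push_cast
        field_simp
        ring
      rw [e, nd_add_int]
      apply K1_far _ _ hj.2
      · rw [le_div_iff₀ hνpos]
        have : (ν : ℝ) ≤ 4 * m := by exact_mod_cast hm1
        linarith
      · rw [div_le_iff₀ hνpos]
        have : (2 * m : ℝ) ≤ ν := by exact_mod_cast hm2
        linarith
    · intro i hi j hj hij
      rw [Finset.mem_coe, hnear, mem_filter, mem_range] at hi hj
      have h1 : (i + m) ≡ (j + m) [MOD ν] := hij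
      have h2 : i ≡ j [MOD ν] := Nat.ModEq.add_right_cancel' m h1
      have h3 : i % ν = j % ν := h2
      rwa [Nat.mod_eq_of_lt hi.1, Nat.mod_eq_of_lt hj.1] at h3
  have hsum : near.card + far.card = ν := by
    rw [hnear, hfar, Finset.card_filter_add_card_filter_not, card_range]
  have hle : ∑ j ∈ range ν, (1 - c * nd (x + (j : ℝ) / ν) ^ 2) ^ (1 / 4 : ℝ) ≤
      near.card + far.card * τ := by
    rw [← Finset.sum_filter_add_sum_filter_not (range ν)
      (fun j => nd (x + (j : ℝ) / ν) < 1 / 8)]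
    have h1 : ∑ j ∈ near, (1 - c * nd (x + (j : ℝ) / ν) ^ 2) ^ (1 / 4 : ℝ) ≤
        (near.card : ℝ) := by
      refine le_trans (Finset.sum_le_sum (g := fun _ => (1 : ℝ)) fun j _ =>
        K1_F_le_one c hc hc1 (x + (j : ℝ) / ν)) ?_
      simp
    have h2 : ∑ j ∈ far, (1 - c * nd (x + (j : ℝ) / ν) ^ 2) ^ (1 / 4 : ℝ) ≤
        (far.card : ℝ) * τ := by
      refine le_trans (Finset.sum_le_sum (g := fun _ => τ) fun j hj => ?_) ?_
      · rw [hfar, mem_filter] at hj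
        have h3 : 1 / 8 ≤ nd (x + (j : ℝ) / ν) := not_lt.mp hj.2
        refine Real.rpow_le_rpow (K1_base_nonneg c hc hc1 _) ?_ (by norm_num)
        have h7 : 1 / 64 ≤ nd (x + (j : ℝ) / ν) ^ 2 := by nlinarith
        have h8 := mul_le_mul_of_nonneg_left h7 hc.le
        linarith
      · simp
    exact add_le_add h1 h2
  have h3 : (near.card : ℝ) + far.card = ν := by exact_mod_cast hsum
  have h4 : (near.card : ℝ) ≤ far.card := by exact_mod_cast hcard
  have h5 : (near.card : ℝ) + far.card * τ ≤ (1 - (1 - τ) / 2) * ν := by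
    have : (near.card : ℝ) = ν - far.card := by linarith
    rw [this]
    have h6 : (ν : ℝ) / 2 ≤ far.card := by linarith
    nlinarith
  exact le_trans hle h5

/-- if `b ∤ a` (`a` an integer) and `n = b²/gcd(a,b²)` then `n ≥ 4`: there is a prime `p` with `v_p(a) < v_p(b) = v`, so
`v_p(n) ≥ 2v - (v-1) ≥ 2`. -/
theorem four_le_quot (b : ℕ) (hb : 2 ≤ b) (a : ℤ) (ha : ¬ (b : ℤ) ∣ a) :
    4 ≤ b ^ 2 / Int.gcd a ((b : ℤ) ^ 2) := by
  set g : ℕ := Int.gcd a ((b : ℤ) ^ 2) with hg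
  have hgb : g ∣ b ^ 2 := by
    have h := Int.gcd_dvd_right a ((b : ℤ) ^ 2)
    have h2 : ((g : ℕ) : ℤ) ∣ ((b ^ 2 : ℕ) : ℤ) := by
      rw [hg]
      push_cast
      exact h
    exact_mod_cast h2
  have hga : (g : ℤ) ∣ a := Int.gcd_dvd_left a ((b : ℤ) ^ 2)
  have hbpos : 0 < b ^ 2 := by positivity
  have hgpos : 0 < g := Nat.pos_of_dvd_of_pos hgb hbpos
  obtain ⟨n, hn⟩ := hgb
  have hdiv : b ^ 2 / g = n := by
    rw [hn]
    exact Nat.mul_div_cancel_left n hgpos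
  rw [hdiv]
  by_contra hlt
  push Not at hlt
  have hn0 : n ≠ 0 := by
    rintro rfl
    omega
  -- prime case
  have hprime : ∀ p : ℕ, p.Prime → b ^ 2 = g * p → False := by
    intro p hp h
    have hpb : p ∣ b := hp.dvd_of_dvd_pow (Dvd.intro_left g h.symm)
    obtain ⟨b', hb'⟩ := hpb
    have h2 : p * (p * b' ^ 2) = p * g := by
      calc p * (p * b' ^ 2) = (p * b') ^ 2 := by ring
        _ = b ^ 2 := by rw [hb']
        _ = g * p := h
        _ = p * g := by ring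
    have h3 : p * b' ^ 2 = g := Nat.eq_of_mul_eq_mul_left hp.pos h2
    have h4 : b ∣ g := by
      rw [← h3, hb']
      exact ⟨b', by ring⟩
    exact ha (dvd_trans (Int.natCast_dvd_natCast.mpr h4) hga)
  interval_cases n
  · exact hn0 rfl
  · have h1 : b ∣ g := by
      rw [mul_one] at hn
      rw [← hn]
      exact dvd_pow_self b two_ne_zero
    exact ha (dvd_trans (Int.natCast_dvd_natCast.mpr h1) hga)
  · exact hprime 2 Nat.prime_two hn
  · exact hprime 3 Nat.prime_three hn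

theorem K1_sum_mul (F : ℕ → ℝ) (A B : ℕ) :
    ∑ W ∈ range (A * B), F W = ∑ Z ∈ range B, ∑ W ∈ range A, F (A * Z + W) := by
  induction B with
  | zero => simp
  | succ B ih => rw [Nat.mul_succ, Finset.sum_range_add, ih, Finset.sum_range_succ]

theorem K1_sum_zmod (n : ℕ) [NeZero n] (H : ZMod n → ℝ) :
    ∑ j ∈ range n, H (j : ZMod n) = ∑ z : ZMod n, H z := by
  symm
  refine Finset.sum_bij (fun z _ => z.val) ?_ ?_ ?_ ?_
  · intro z _
    exact mem_range.mpr (ZMod.val_lt z)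
  · intro z _ z' _ h
    exact ZMod.val_injective n h
  · intro j hj
    exact ⟨(j : ZMod n), mem_univ _, ZMod.val_cast_of_lt (mem_range.mp hj)⟩
  · intro z _
    rw [ZMod.natCast_zmod_val]

/-- one step: `Z` runs over `range (b^2)`, `a` prime-to-`b`-like (`b ∤ a`), `x` real:
`∑_Z (1 - c nd(x + D0 a Z/b²)²)^(1/4) ≤ κ b²`: `Z ↦ D0 a Z mod b²` runs over the multiples of `g = gcd(a,b²)` (`D0` is prime to `b`), each `g` times. -/
theorem avg_step (b : ℕ) (hb : 2 ≤ b) (c : ℝ) (hc : 0 < c) (hc1 : c < 1) : ∃ κ : ℝ, 0 < κ ∧ κ < 1 ∧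
    ∀ (a : ℤ) (x : ℝ), ¬ (b : ℤ) ∣ a →
      ∑ Z ∈ range (b ^ 2), (1 - c * nd (x + (D0 b : ℝ) * a * Z / (b : ℝ) ^ 2) ^ 2) ^ (1 / 4 : ℝ) ≤ κ * (b : ℝ) ^ 2 := by
  obtain ⟨κ, h0, h1, hκ⟩ := avg_spaced c hc hc1
  refine ⟨κ, h0, h1, ?_⟩
  intro a x ha
  have h4 := four_le_quot b hb a ha
  set g : ℕ := Int.gcd a ((b : ℤ) ^ 2) with hg
  have hgb : g ∣ b ^ 2 := by
    have h := Int.gcd_dvd_right a ((b : ℤ) ^ 2)
    have h2 : ((g : ℕ) : ℤ) ∣ ((b ^ 2 : ℕ) : ℤ) := by
      rw [hg]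
      push_cast
      exact h
    exact_mod_cast h2
  have hbpos : 0 < b ^ 2 := by positivity
  have hgpos : 0 < g := Nat.pos_of_dvd_of_pos hgb hbpos
  obtain ⟨n, hn⟩ := hgb
  have hdiv : b ^ 2 / g = n := by
    rw [hn]
    exact Nat.mul_div_cancel_left n hgpos
  rw [hdiv] at h4
  have hga : (g : ℤ) ∣ a := Int.gcd_dvd_left a ((b : ℤ) ^ 2)
  obtain ⟨a', ha'⟩ := hga
  have : NeZero n := ⟨by omega⟩
  have hnpos : (0 : ℝ) < n := by exact_mod_cast (by omega : 0 < n)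
  have hgpos' : (0 : ℝ) < g := by exact_mod_cast hgpos
  -- coprimality
  have hcop1 : IsCoprime a' (n : ℤ) := by
    have h5 : (g : ℤ) * Int.gcd a' n = g * 1 := by
      have h6 : Int.gcd ((g : ℤ) * a') ((g : ℤ) * n) = (g : ℤ).natAbs * Int.gcd a' n :=
        Int.gcd_mul_left _ _ _
      have h7 : Int.gcd ((g : ℤ) * a') ((g : ℤ) * n) = g := by
        rw [← ha']
        have h8 : ((g : ℤ) * n) = (b : ℤ) ^ 2 := by
          have : ((g * n : ℕ) : ℤ) = ((b ^ 2 : ℕ) : ℤ) := by rw [hn]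
          push_cast at this
          exact this
        rw [h8, hg]
      rw [h7] at h6
      have h9 : (g : ℤ) = (g : ℤ) * Int.gcd a' n := by
        have : (g : ℤ).natAbs = g := Int.natAbs_natCast g
        rw [this] at h6
        exact_mod_cast h6
      rw [mul_one]
      exact h9.symm
    have h10 : ((Int.gcd a' n : ℕ) : ℤ) = 1 :=
      mul_left_cancel₀ (by exact_mod_cast hgpos.ne') h5
    rw [Int.isCoprime_iff_gcd_eq_one]
    exact_mod_cast h10
  have hcop2 : IsCoprime ((D0 b : ℕ) : ℤ) (n : ℤ) := by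
    have hD : ((D0 b : ℕ) : ℤ) = (b : ℤ) ^ 2 - 1 := by
      unfold D0
      rw [Nat.cast_sub (Nat.one_le_iff_ne_zero.mpr (by positivity))]
      push_cast
      ring
    have hn' : (b : ℤ) ^ 2 = g * n := by
      have : ((b ^ 2 : ℕ) : ℤ) = ((g * n : ℕ) : ℤ) := by rw [hn]
      push_cast at this
      exact this
    exact ⟨-1, g, by rw [hD, hn']; ring⟩
  have hcop : IsCoprime (((D0 b : ℕ) : ℤ) * a') (n : ℤ) := IsCoprime.mul_left hcop2 hcop1
  have hunit : IsUnit ((((D0 b : ℕ) : ℤ) * a' : ℤ) : ZMod n) := by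
    obtain ⟨u, v, huv⟩ := hcop
    have h5 : ((u * (((D0 b : ℕ) : ℤ) * a') + v * n : ℤ) : ZMod n) = 1 := by
      rw [huv]
      simp
    push_cast at h5
    rw [ZMod.natCast_self, mul_zero, add_zero] at h5
    push_cast
    exact IsUnit.of_mul_eq_one _ (by rw [mul_comm]; exact h5)
  -- the periodic function
  let G : ZMod n → ℝ := fun z => K1_F c (x + (z.val : ℝ) / n)
  have hG : ∀ k : ℤ, K1_F c (x + (k : ℝ) / n) = G (k : ZMod n) := by
    intro k
    have h5 : (((k : ZMod n).val : ℕ) : ℤ) = k % n := ZMod.val_intCast k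
    have h6 : (((k : ZMod n).val : ℕ) : ℝ) = (k : ℝ) - n * ((k / n : ℤ) : ℝ) := by
      have h7 : (((k : ZMod n).val : ℕ) : ℤ) = k - n * (k / n) := by
        rw [h5]
        have := Int.emod_add_mul_ediv k n
        linarith
      exact_mod_cast h7
    change _ = K1_F c (x + (((k : ZMod n).val : ℕ) : ℝ) / n)
    have h8 : x + (k : ℝ) / n = x + (((k : ZMod n).val : ℕ) : ℝ) / n + ((k / n : ℤ) : ℝ) := by
      rw [h6]
      field_simp
      ring
    rw [h8, K1_F_add_int]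
  have hterm : ∀ Z : ℕ, (1 - c * nd (x + (D0 b : ℝ) * a * Z / (b : ℝ) ^ 2) ^ 2) ^ (1 / 4 : ℝ) =
      G (((((D0 b : ℕ) : ℤ) * a' : ℤ) : ZMod n) * (Z : ZMod n)) := by
    intro Z
    have h5 : x + (D0 b : ℝ) * a * Z / (b : ℝ) ^ 2 =
        x + (((((D0 b : ℕ) : ℤ) * a' * Z : ℤ)) : ℝ) / n := by
      have h6 : (b : ℝ) ^ 2 = g * n := by
        have : ((b ^ 2 : ℕ) : ℝ) = ((g * n : ℕ) : ℝ) := by rw [hn]
        push_cast at this
        exact this
      have h7 : (a : ℝ) = g * a' := by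
        rw [ha']
        push_cast
        ring
      rw [h6, h7]
      push_cast
      field_simp
    have h8 := hG (((D0 b : ℕ) : ℤ) * a' * Z)
    rw [← h5] at h8
    unfold K1_F at h8
    rw [h8]
    congr 1
    push_cast
    ring
  calc ∑ Z ∈ range (b ^ 2), (1 - c * nd (x + (D0 b : ℝ) * a * Z / (b : ℝ) ^ 2) ^ 2) ^ (1 / 4 : ℝ)
      = ∑ Z ∈ range (n * g), G (((((D0 b : ℕ) : ℤ) * a' : ℤ) : ZMod n) * (Z : ZMod n)) := by
        rw [hn, mul_comm g n]
        exact Finset.sum_congr rfl fun Z _ => hterm Z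
    _ = ∑ i ∈ range g, ∑ j ∈ range n,
          G (((((D0 b : ℕ) : ℤ) * a' : ℤ) : ZMod n) * (j : ZMod n)) := by
        rw [K1_sum_mul]
        refine Finset.sum_congr rfl fun i _ => Finset.sum_congr rfl fun j _ => ?_
        push_cast
        rw [ZMod.natCast_self]
        ring_nf
    _ = g * ∑ z : ZMod n, G (((((D0 b : ℕ) : ℤ) * a' : ℤ) : ZMod n) * z) := by
        rw [Finset.sum_const, card_range, nsmul_eq_mul,
          K1_sum_zmod n (fun z => G (((((D0 b : ℕ) : ℤ) * a' : ℤ) : ZMod n) * z))]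
    _ = g * ∑ z : ZMod n, G z := by
        congr 1
        obtain ⟨u, hu⟩ := hunit
        rw [← hu]
        exact Fintype.sum_equiv (Units.mulLeft u) _ _ (fun z => by simp)
    _ = g * ∑ j ∈ range n, (1 - c * nd (x + (j : ℝ) / n) ^ 2) ^ (1 / 4 : ℝ) := by
        congr 1
        rw [← K1_sum_zmod n G]
        refine Finset.sum_congr rfl fun j _ => ?_
        have := hG (j : ℤ)
        push_cast at this
        rw [← this]
        rfl
    _ ≤ g * (κ * n) := mul_le_mul_of_nonneg_left (hκ n x h4) hgpos'.le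
    _ = κ * (b : ℝ) ^ 2 := by
        have h6 : (b : ℝ) ^ 2 = g * n := by
          have : ((b ^ 2 : ℕ) : ℝ) = ((g * n : ℕ) : ℝ) := by rw [hn]
          push_cast at this
          exact this
        rw [h6]
        ring

/-- the sum -/
noncomputable def K1_f (b : ℕ) (c : ℝ) (a : ℤ) (m : ℕ) : ℝ :=
  ∑ W ∈ range (b ^ m), ∏ n ∈ Icc 2 m, K1_F c ((D0 b : ℝ) * a * W / (b : ℝ) ^ n)

theorem K1_prod_nonneg (c : ℝ) (hc : 0 < c) (hc1 : c < 1) (y : ℕ → ℝ) (s : Finset ℕ) :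
    0 ≤ ∏ n ∈ s, K1_F c (y n) :=
  Finset.prod_nonneg fun n _ => K1_F_nonneg c hc hc1 _

theorem K1_prod_step (c : ℝ) (hc : 0 < c) (hc1 : c < 1) (y : ℕ → ℝ) (m : ℕ) :
    ∏ n ∈ Icc 2 (m + 2), K1_F c (y n) ≤ (∏ n ∈ Icc 2 m, K1_F c (y n)) * K1_F c (y (m + 2)) := by
  rw [Finset.prod_Icc_succ_top (by omega : 2 ≤ m + 1 + 1)]
  refine mul_le_mul_of_nonneg_right ?_ (K1_F_nonneg c hc hc1 _)
  rcases Nat.eq_zero_or_pos m with h | h
  · subst h
    exact le_of_eq (by rfl)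
  · rw [Finset.prod_Icc_succ_top (by omega : 2 ≤ m + 1)]
    exact mul_le_of_le_one_right (K1_prod_nonneg c hc hc1 y _) (K1_F_le_one c hc hc1 _)

/-- **average of the product**. `f(m+2) ≤ κ b² f(m)`: write `W = W' + b^m Z`, `W' < b^m`, `Z < b²`; the factors `n ≤ m` depend only on `W'`
(`nd_add_int`), the factor `n = m+1` is dropped, the factor `n = m+2` is averaged by `avg_step`. `f(0) = 1`, `f(1) = b`. -/
theorem avg_prod (b : ℕ) (hb : 2 ≤ b) (c : ℝ) (hc : 0 < c) (hc1 : c < 1) : ∃ κ C : ℝ, 0 < κ ∧ κ < 1 ∧ 0 < C ∧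
    ∀ (a : ℤ) (m : ℕ), ¬ (b : ℤ) ∣ a →
      ∑ W ∈ range (b ^ m), ∏ n ∈ Icc 2 m, (1 - c * nd ((D0 b : ℝ) * a * W / (b : ℝ) ^ n) ^ 2) ^ (1 / 4 : ℝ) ≤
        C * (b : ℝ) ^ m * κ ^ m := by
  obtain ⟨κ, h0, h1, hκ⟩ := avg_step b hb c hc hc1
  have hbR : (0 : ℝ) < b := by exact_mod_cast (by omega : 0 < b)
  have hrec : ∀ (a : ℤ) (m : ℕ), ¬ (b : ℤ) ∣ a →
      K1_f b c a (m + 2) ≤ κ * (b : ℝ) ^ 2 * K1_f b c a m := by
    intro a m ha
    unfold K1_f
    rw [pow_add b m 2, K1_sum_mul, Finset.sum_comm, Finset.mul_sum]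
    refine Finset.sum_le_sum fun W _ => ?_
    have h2 : ∀ Z : ℕ, ∏ n ∈ Icc 2 (m + 2),
        K1_F c ((D0 b : ℝ) * a * ((b ^ m * Z + W : ℕ) : ℝ) / (b : ℝ) ^ n) ≤
        (∏ n ∈ Icc 2 m, K1_F c ((D0 b : ℝ) * a * W / (b : ℝ) ^ n)) *
          K1_F c ((D0 b : ℝ) * a * W / (b : ℝ) ^ (m + 2) + (D0 b : ℝ) * a * Z / (b : ℝ) ^ 2) := by
      intro Z
      refine le_trans (K1_prod_step c hc hc1 _ m) (le_of_eq ?_)
      congr 1
      · refine Finset.prod_congr rfl fun n hn => ?_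
        have hnm : n ≤ m := (mem_Icc.mp hn).2
        have e : (D0 b : ℝ) * a * ((b ^ m * Z + W : ℕ) : ℝ) / (b : ℝ) ^ n =
            (D0 b : ℝ) * a * W / (b : ℝ) ^ n +
              ((((D0 b : ℕ) : ℤ) * a * ((b : ℤ) ^ (m - n) * Z) : ℤ) : ℝ) := by
          have h3 : (b : ℝ) ^ m = (b : ℝ) ^ n * (b : ℝ) ^ (m - n) := by
            rw [← pow_add]
            congr 1
            omega
          push_cast
          rw [h3]
          field_simp
          ring
        rw [e, K1_F_add_int]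
      · congr 1
        push_cast
        rw [pow_add]
        field_simp
        ring
    refine le_trans (Finset.sum_le_sum fun Z _ => h2 Z) ?_
    rw [← Finset.mul_sum]
    have h3 := hκ a ((D0 b : ℝ) * a * W / (b : ℝ) ^ (m + 2)) ha
    have h4 : ∑ Z ∈ range (b ^ 2), K1_F c ((D0 b : ℝ) * a * W / (b : ℝ) ^ (m + 2) +
        (D0 b : ℝ) * a * Z / (b : ℝ) ^ 2) ≤ κ * (b : ℝ) ^ 2 := h3
    have h5 := mul_le_mul_of_nonneg_left h4
      (K1_prod_nonneg c hc hc1 (fun n => (D0 b : ℝ) * a * W / (b : ℝ) ^ n) (Icc 2 m))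
    refine le_trans h5 (le_of_eq ?_)
    ring
  set s : ℝ := Real.sqrt κ with hs
  have hs0 : 0 < s := Real.sqrt_pos.mpr h0
  have hss : s * s = κ := Real.mul_self_sqrt h0.le
  have hs1 : s < 1 := by
    by_contra hcon
    push Not at hcon
    nlinarith
  refine ⟨s, s⁻¹, hs0, hs1, inv_pos.mpr hs0, ?_⟩
  intro a m ha
  have key : ∀ m : ℕ, K1_f b c a m ≤ s⁻¹ * (b : ℝ) ^ m * s ^ m ∧
      K1_f b c a (m + 1) ≤ s⁻¹ * (b : ℝ) ^ (m + 1) * s ^ (m + 1) := by
    intro m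
    induction m with
    | zero =>
      constructor
      · have e : K1_f b c a 0 = 1 := by
          unfold K1_f
          simp
        rw [e]
        simp only [pow_zero, mul_one]
        rw [one_le_inv₀ hs0]
        exact hs1.le
      · have e : K1_f b c a (0 + 1) = b := by
          unfold K1_f
          simp
        rw [e, zero_add, pow_one, pow_one]
        apply le_of_eq
        field_simp
    | succ m ih =>
      refine ⟨ih.2, ?_⟩
      refine le_trans (hrec a m ha) ?_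
      have h2 := mul_le_mul_of_nonneg_left ih.1 (by positivity : 0 ≤ κ * (b : ℝ) ^ 2)
      refine le_trans h2 (le_of_eq ?_)
      rw [← hss]
      ring
  exact (key m).1

end Pool.Agent.LibHG31
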