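import Pool.Agent.LibHG31.E4
import Pool.Agent.LibHG31.E5
import Pool.Agent.LibHG31.K1

/-! ROW K2: the sum over one block of digits, in terms of either frequency. -/

namespace Pool.Agent.LibHG31

open Finset

/-- the product attached to the numerator `W`, denominator `b^m` -/
noncomputable def PW (b : ℕ) (c : ℝ) (a : ℤ) (m : ℕ) (W : ℤ) : ℝ :=
  ∏ n ∈ Icc 2 m, (1 - c * nd ((D0 b : ℝ) * a * W / (b : ℝ) ^ n) ^ 2) ^ (1 / 4 : ℝ)

theorem K2_base_nonneg (c : ℝ) (hc : 0 < c) (hc1 : c < 1) (y : ℝ) : 0 ≤ 1 - c * nd y ^ 2 := by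
  have h1 := nd_nonneg y
  have h2 := nd_le_half y
  have h3 : nd y ^ 2 ≤ 1 := by nlinarith
  nlinarith [sq_nonneg (nd y)]

theorem PW_nonneg (b : ℕ) (c : ℝ) (hc : 0 < c) (hc1 : c < 1) (a : ℤ) (m : ℕ) (W : ℤ) : 0 ≤ PW b c a m W := by
  unfold PW
  exact Finset.prod_nonneg fun n _ => Real.rpow_nonneg (K2_base_nonneg c hc hc1 _) _

/-- `PW` depends on `W` modulo `b^m` only -/
theorem PW_congr (b : ℕ) (hb : 2 ≤ b) (c : ℝ) (a : ℤ) (m : ℕ) (W W' : ℤ) (h : W ≡ W' [ZMOD (b : ℤ) ^ m]) :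
    PW b c a m W = PW b c a m W' := by
  unfold PW
  have hbR : (b : ℝ) ≠ 0 := by
    have : b ≠ 0 := by omega
    exact_mod_cast this
  obtain ⟨k, hk⟩ := h.dvd
  refine Finset.prod_congr rfl fun n hn => ?_
  have hnm : n ≤ m := (mem_Icc.mp hn).2
  have e : (D0 b : ℝ) * a * W' / (b : ℝ) ^ n =
      (D0 b : ℝ) * a * W / (b : ℝ) ^ n +
        ((((D0 b : ℕ) : ℤ) * a * ((b : ℤ) ^ (m - n) * k) : ℤ) : ℝ) := by
    have h1 : W' = W + (b : ℤ) ^ m * k := by linarith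
    have h3 : (b : ℝ) ^ m = (b : ℝ) ^ n * (b : ℝ) ^ (m - n) := by
      rw [← pow_add]
      congr 1
      omega
    rw [h1]
    push_cast
    rw [h3]
    field_simp
  rw [e, nd_add_int]

/-- fourth roots -/
theorem K2_root (m : ℕ) (φ : ℕ → ℝ) (hφ : ∀ j, 0 ≤ φ j) (X : ℝ)
    (h : ∏ j ∈ Ico 0 m, φ j ^ 4 ≤ X) : ∏ j ∈ range m, φ j ≤ X ^ (1 / 4 : ℝ) := by
  have h0 : 0 ≤ ∏ j ∈ range m, φ j := Finset.prod_nonneg fun j _ => hφ j
  have h1 : ∏ j ∈ Ico 0 m, φ j ^ 4 = (∏ j ∈ range m, φ j) ^ 4 := by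
    rw [← Finset.prod_pow, Nat.Ico_zero_eq_range]
  rw [h1] at h
  have h2 := Real.rpow_le_rpow (pow_nonneg h0 4) h (by norm_num : (0 : ℝ) ≤ 1 / 4)
  have h3 : ((∏ j ∈ range m, φ j) ^ 4) ^ (1 / 4 : ℝ) = ∏ j ∈ range m, φ j := by
    have h4 := Real.pow_rpow_inv_natCast h0 (by norm_num : (4 : ℕ) ≠ 0)
    have h5 : ((4 : ℕ) : ℝ)⁻¹ = (1 / 4 : ℝ) := by norm_num
    rw [h5] at h4
    exact h4
  rwa [h3] at h2

theorem K2_D0 (b : ℕ) (hb : 2 ≤ b) : ((D0 b : ℕ) : ℝ) = (b : ℝ) ^ 2 - 1 := by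
  unfold D0
  rw [Nat.cast_sub (Nat.one_le_iff_ne_zero.mpr (by positivity))]
  push_cast
  ring

/-- `θ = a W/b^m` on the reversed side. From `norm_rv_sum` and `prod_phi_le` (first inequality) with `u_j = θ b^(m-1-j) - γ b^j`:
for `j+1 < m`: `b u_j - u_{j+1} = θ (b^(m-j) - b^(m-2-j)) = D0 θ b^(m-2-j) = D0 a W / b^(j+2)`; take 4th roots. -/
theorem block_theta (b : ℕ) (hb : 2 ≤ b) : ∃ c : ℝ, 0 < c ∧ c < 1 ∧ ∀ (a W : ℤ) (m : ℕ) (γ : ℝ),
    ‖∑ u ∈ range (b ^ m), ee (γ * u - (a * W / (b : ℝ) ^ m) * rv b m u)‖ ≤ (b : ℝ) ^ m * PW b c a m W := by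
  obtain ⟨c, h0, h1, hc⟩ := prod_phi_le b hb
  refine ⟨c, h0, h1, ?_⟩
  intro a W m γ
  have hbR : (b : ℝ) ≠ 0 := by
    have : b ≠ 0 := by omega
    exact_mod_cast this
  set θ : ℝ := a * W / (b : ℝ) ^ m with hθ
  rw [norm_rv_sum b (by omega) m θ γ]
  refine mul_le_mul_of_nonneg_left ?_ (by positivity)
  have h2 := (hc (fun j => θ * (b : ℝ) ^ (m - 1 - j) - γ * (b : ℝ) ^ j) 0 m).1
  have h3 := K2_root m _ (fun j => phi_nonneg b _) _ h2
  refine le_trans h3 (le_of_eq ?_)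
  unfold PW
  rw [← Real.finsetProd_rpow _ _ (fun j _ => K2_base_nonneg c h0 h1 _)]
  rw [Nat.Ico_zero_eq_range]
  refine Finset.prod_nbij' (fun j => j + 2) (fun n => n - 2) ?_ ?_ ?_ ?_ ?_
  · intro j hj
    rw [mem_range] at hj
    rw [mem_Icc]
    omega
  · intro n hn
    rw [mem_Icc] at hn
    rw [mem_range]
    omega
  · intro j _
    simp
  · intro n hn
    rw [mem_Icc] at hn
    omega
  · intro j hj
    rw [mem_range] at hj
    have e : (b : ℝ) * (θ * (b : ℝ) ^ (m - 1 - j) - γ * (b : ℝ) ^ j) -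
        (θ * (b : ℝ) ^ (m - 1 - (j + 1)) - γ * (b : ℝ) ^ (j + 1)) =
        (D0 b : ℝ) * a * W / (b : ℝ) ^ (j + 2) := by
      obtain ⟨i, hi⟩ : ∃ i, m = i + j + 2 := ⟨m - j - 2, by omega⟩
      have e1 : m - 1 - j = i + 1 := by omega
      have e2 : m - 1 - (j + 1) = i := by omega
      rw [e1, e2, hθ, K2_D0 b hb, hi]
      have e3 : (b : ℝ) ^ (i + j + 2) = (b : ℝ) ^ i * (b : ℝ) ^ (j + 2) := by
        rw [← pow_add]
        congr 1
      rw [e3]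
      field_simp
      ring
    simp only [e]

/-- `γ = a W/b^m` on the direct side. Second inequality of `prod_phi_le`: `b u_{j+1} - u_j = -D0 γ b^j = -D0 a W/b^(m-j)`. -/
theorem block_gamma (b : ℕ) (hb : 2 ≤ b) : ∃ c : ℝ, 0 < c ∧ c < 1 ∧ ∀ (a W : ℤ) (m : ℕ) (θ : ℝ),
    ‖∑ u ∈ range (b ^ m), ee ((a * W / (b : ℝ) ^ m) * u - θ * rv b m u)‖ ≤ (b : ℝ) ^ m * PW b c a m W := by
  obtain ⟨c, h0, h1, hc⟩ := prod_phi_le b hb
  refine ⟨c, h0, h1, ?_⟩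
  intro a W m θ
  have hbR : (b : ℝ) ≠ 0 := by
    have : b ≠ 0 := by omega
    exact_mod_cast this
  set γ : ℝ := a * W / (b : ℝ) ^ m with hγ
  rw [norm_rv_sum b (by omega) m θ γ]
  refine mul_le_mul_of_nonneg_left ?_ (by positivity)
  have h2 := (hc (fun j => θ * (b : ℝ) ^ (m - 1 - j) - γ * (b : ℝ) ^ j) 0 m).2
  have h3 := K2_root m _ (fun j => phi_nonneg b _) _ h2
  refine le_trans h3 (le_of_eq ?_)
  unfold PW
  rw [← Real.finsetProd_rpow _ _ (fun j _ => K2_base_nonneg c h0 h1 _)]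
  rw [Nat.Ico_zero_eq_range]
  refine Finset.prod_nbij' (fun j => m - j) (fun n => m - n) ?_ ?_ ?_ ?_ ?_
  · intro j hj
    rw [mem_range] at hj
    rw [mem_Icc]
    omega
  · intro n hn
    rw [mem_Icc] at hn
    rw [mem_range]
    omega
  · intro j hj
    rw [mem_range] at hj
    omega
  · intro n hn
    rw [mem_Icc] at hn
    omega
  · intro j hj
    rw [mem_range] at hj
    have e : (b : ℝ) * (θ * (b : ℝ) ^ (m - 1 - (j + 1)) - γ * (b : ℝ) ^ (j + 1)) -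
        (θ * (b : ℝ) ^ (m - 1 - j) - γ * (b : ℝ) ^ j) =
        -((D0 b : ℝ) * a * W / (b : ℝ) ^ (m - j)) := by
      obtain ⟨i, hi⟩ : ∃ i, m = i + j + 2 := ⟨m - j - 2, by omega⟩
      have e1 : m - 1 - j = i + 1 := by omega
      have e2 : m - 1 - (j + 1) = i := by omega
      have e4 : m - j = i + 2 := by omega
      rw [e1, e2, e4, hγ, K2_D0 b hb, hi]
      have e3 : (b : ℝ) ^ (i + j + 2) = (b : ℝ) ^ j * (b : ℝ) ^ (i + 2) := by
        rw [← pow_add]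
        congr 1
        ring
      rw [e3]
      field_simp
      ring
    simp only [e, nd_neg]

/-- `∑_{W < b^m} PW ≤ C b^m κ^m` (K1) -/
theorem sum_PW_le (b : ℕ) (hb : 2 ≤ b) (c : ℝ) (hc : 0 < c) (hc1 : c < 1) : ∃ κ C : ℝ, 0 < κ ∧ κ < 1 ∧ 0 < C ∧
    ∀ (a : ℤ) (m : ℕ), ¬ (b : ℤ) ∣ a → ∑ W ∈ range (b ^ m), PW b c a m W ≤ C * (b : ℝ) ^ m * κ ^ m := by
  obtain ⟨κ, C, h1, h2, h3, h⟩ := avg_prod b hb c hc hc1
  exact ⟨κ, C, h1, h2, h3, fun a m ha => by simpa [PW] using h a m ha⟩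

/-- sums over units through an inverse: if `S` is a finite set, `x : S → ℤ` takes every class mod `b^m` at most `K` times and
`x(s) y(s) ≡ 1 mod b^m`, then `∑_{s∈S} PW(y(s)) ≤ K C b^m κ^m` (inverse classes: `y(s)` takes every class at most `K` times). -/
theorem sum_PW_inv_le (b : ℕ) (hb : 2 ≤ b) (c : ℝ) (hc : 0 < c) (hc1 : c < 1) : ∃ κ C : ℝ, 0 < κ ∧ κ < 1 ∧ 0 < C ∧
    ∀ (a : ℤ) (m K : ℕ) (S : Finset ℕ) (x y : ℕ → ℤ), ¬ (b : ℤ) ∣ a →
      (∀ s ∈ S, x s * y s ≡ 1 [ZMOD (b : ℤ) ^ m]) →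
      (∀ w : ℤ, (S.filter (fun s => x s ≡ w [ZMOD (b : ℤ) ^ m])).card ≤ K) →
      ∑ s ∈ S, PW b c a m (y s) ≤ K * (C * (b : ℝ) ^ m * κ ^ m) := by
  obtain ⟨κ, C, h1, h2, h3, h⟩ := sum_PW_le b hb c hc hc1
  refine ⟨κ, C, h1, h2, h3, ?_⟩
  intro a m K S x y ha hxy hK
  have hM : (0 : ℤ) < (b : ℤ) ^ m := by positivity
  -- the class of `y s`
  let v : ℕ → ℕ := fun s => ((y s) % (b : ℤ) ^ m).toNat
  have hv : ∀ s, ((v s : ℕ) : ℤ) = (y s) % (b : ℤ) ^ m := fun s =>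
    Int.toNat_of_nonneg (Int.emod_nonneg _ hM.ne')
  have hvlt : ∀ s, v s < b ^ m := by
    intro s
    have h4 : ((v s : ℕ) : ℤ) < ((b ^ m : ℕ) : ℤ) := by
      rw [hv]
      push_cast
      exact Int.emod_lt_of_pos _ hM
    exact_mod_cast h4
  have hvy : ∀ s, y s ≡ (v s : ℤ) [ZMOD (b : ℤ) ^ m] := by
    intro s
    rw [hv]
    exact (Int.mod_modEq _ _).symm
  have hmaps : ∀ s ∈ S, v s ∈ range (b ^ m) := fun s _ => mem_range.mpr (hvlt s)
  rw [← Finset.sum_fiberwise_of_maps_to hmaps]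
  have hstep : ∀ w ∈ range (b ^ m), ∑ s ∈ S.filter (fun s => v s = w), PW b c a m (y s) ≤
      K * PW b c a m (w : ℤ) := by
    intro w _
    have e1 : ∑ s ∈ S.filter (fun s => v s = w), PW b c a m (y s) =
        ∑ s ∈ S.filter (fun s => v s = w), PW b c a m (w : ℤ) := by
      refine Finset.sum_congr rfl fun s hs => ?_
      rw [mem_filter] at hs
      have h5 := hvy s
      rw [hs.2] at h5
      exact PW_congr b hb c a m _ _ h5
    rw [e1, Finset.sum_const, nsmul_eq_mul]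
    refine mul_le_mul_of_nonneg_right ?_ (PW_nonneg b c hc hc1 a m _)
    have hcard : (S.filter (fun s => v s = w)).card ≤ K := by
      rcases (S.filter (fun s => v s = w)).eq_empty_or_nonempty with h6 | ⟨s₀, hs₀⟩
      · rw [h6]
        simp
      · refine le_trans (Finset.card_le_card ?_) (hK (x s₀))
        intro s hs
        rw [mem_filter] at hs hs₀ ⊢
        refine ⟨hs.1, ?_⟩
        have h7 : y s ≡ y s₀ [ZMOD (b : ℤ) ^ m] := by
          have h8 := hvy s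
          have h9 := hvy s₀
          rw [hs.2] at h8
          rw [hs₀.2] at h9
          exact h8.trans h9.symm
        have h10 := hxy s hs.1
        have h11 := hxy s₀ hs₀.1
        calc x s = x s * 1 := by ring
          _ ≡ x s * (x s₀ * y s₀) [ZMOD (b : ℤ) ^ m] := Int.ModEq.mul_left _ h11.symm
          _ = x s₀ * (x s * y s₀) := by ring
          _ ≡ x s₀ * (x s * y s) [ZMOD (b : ℤ) ^ m] :=
              Int.ModEq.mul_left _ (Int.ModEq.mul_left _ h7.symm)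
          _ ≡ x s₀ * 1 [ZMOD (b : ℤ) ^ m] := Int.ModEq.mul_left _ h10
          _ = x s₀ := by ring
    exact_mod_cast hcard
  refine le_trans (Finset.sum_le_sum hstep) ?_
  rw [← Finset.mul_sum]
  exact mul_le_mul_of_nonneg_left (h a m ha) (by positivity)

end Pool.Agent.LibHG31
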