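import Pool.Agent.LibHG31.E1

/-! ROW K3a: homomorphisms from `ℤ` to roots of unity; levels of the characters mod `b^M`. Only Mathlib + E1. -/

namespace Pool.Agent.LibHG31

open Finset

/-- homomorphisms from `ℤ` which are `1` at `q` are `z ↦ e(a z/q)`.
Plan: `ζ = g 1` satisfies `ζ^q = g q = 1` (`g n = ζ^n`), so `ζ = exp(2πi a/q)` for some `a < q`
(`Complex.mem_rootsOfUnity` or `IsPrimitiveRoot.eq_pow_of_pow_eq_one` with `Complex.isPrimitiveRoot_exp q`); then `g z = ζ^z` for all integers. -/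
theorem exists_ee_of_hom (q : ℕ) (hq : 0 < q) (g : ℤ → ℂ) (h0 : g 0 = 1)
    (hadd : ∀ x y, g (x + y) = g x * g y) (hm : g q = 1) :
    ∃ a : ℤ, ∀ z : ℤ, g z = ee (a * z / q) := by
  have hqR : (q : ℝ) ≠ 0 := by positivity
  have hnat : ∀ n : ℕ, g n = g 1 ^ n := by
    intro n
    induction n with
    | zero =>
      rw [pow_zero, Nat.cast_zero]
      exact h0
    | succ n ih =>
      rw [pow_succ, ← ih, Nat.cast_succ]
      exact hadd _ _
  have h1 : g 1 ^ q = 1 := by rw [← hnat, hm]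
  have : NeZero q := ⟨hq.ne'⟩
  obtain ⟨a, _, ha⟩ := (Complex.isPrimitiveRoot_exp q hq.ne').eq_pow_of_pow_eq_one h1
  have h2 : g 1 = ee ((a : ℤ) * (1 : ℤ) / q) := by
    rw [← ha]
    unfold ee
    rw [← Complex.exp_nat_mul]
    congr 1
    push_cast
    ring
  refine ⟨(a : ℤ), fun z => ?_⟩
  have hne : ee (((a : ℤ) : ℝ) * ((1 : ℤ) : ℝ) / q) ≠ 0 := ee_ne_zero _
  have hG : ∀ x : ℤ, ee (((a : ℤ) : ℝ) * ((x + 1 : ℤ) : ℝ) / q) =
      ee (((a : ℤ) : ℝ) * (x : ℝ) / q) * ee (((a : ℤ) : ℝ) * ((1 : ℤ) : ℝ) / q) := by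
    intro x
    rw [← ee_add]
    congr 1
    push_cast
    ring
  induction z using Int.induction_on with
  | zero =>
    rw [h0, Int.cast_zero, mul_zero, zero_div, ee_zero]
  | succ n ih =>
    rw [hadd, ih, h2, hG]
  | pred n ih =>
    have h3 : g (-(n : ℤ) - 1) * g 1 = g (-(n : ℤ)) := by
      rw [← hadd, sub_add_cancel]
    have h4 := hG (-(n : ℤ) - 1)
    rw [sub_add_cancel] at h4
    rw [ih, h4, h2] at h3
    exact mul_right_cancel₀ hne h3

/-- **levels** of the characters mod `b^M`: trivial on the units, or induced by a character mod `b^j`, `1 ≤ j ≤ M`, not factoring through `b^(j-1)`.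
Plan: the least `j` with `ψ.FactorsThrough (b^j)` (`j = M` works); `FactorsThrough` gives `b^j ∣ b^M` and `ψ = changeLevel h ψ₀`, so
`ψ v = ψ₀ v` for units (`DirichletCharacter.changeLevel_eq_cast_of_dvd`, `ZMod.cast_intCast`). If `j = 0`: `ψ₀` mod `1` is `1`. If `ψ₀` factored
through `b^(j-1)` then so would `ψ` (`changeLevel_trans`), against minimality. -/
theorem exists_level (b M : ℕ) (hb : 2 ≤ b) (ψ : DirichletCharacter ℂ (b ^ M)) :
    (∀ v : ℤ, IsCoprime v (b : ℤ) → ψ (v : ZMod (b ^ M)) = 1) ∨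
    ∃ (j : ℕ) (ψ₀ : DirichletCharacter ℂ (b ^ j)), 1 ≤ j ∧ j ≤ M ∧ ¬ ψ₀.FactorsThrough (b ^ (j - 1)) ∧
      ∀ v : ℤ, IsCoprime v (b : ℤ) → ψ (v : ZMod (b ^ M)) = ψ₀ (v : ZMod (b ^ j)) := by
  classical
  have hex : ∃ j, ψ.FactorsThrough (b ^ j) := ⟨M, DirichletCharacter.FactorsThrough.same_level ψ⟩
  have hj := Nat.find_spec hex
  have hmin : ∀ i, i < Nat.find hex → ¬ ψ.FactorsThrough (b ^ i) := fun i hi => Nat.find_min hex hi
  have hjM : Nat.find hex ≤ M := Nat.find_min' hex (DirichletCharacter.FactorsThrough.same_level ψ)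
  obtain ⟨hd, ψ₀, hψ⟩ := hj
  have hval : ∀ v : ℤ, IsCoprime v (b : ℤ) →
      ψ (v : ZMod (b ^ M)) = ψ₀ (v : ZMod (b ^ Nat.find hex)) := by
    intro v hv
    have hv2 : IsCoprime v ((b ^ M : ℕ) : ℤ) := by
      push_cast
      exact hv.pow_right
    conv_lhs => rw [hψ]
    exact DirichletCharacter.changeLevel_eq_cast_of_dvd' ψ₀ hd hv2
  by_cases h0 : Nat.find hex = 0
  · left
    intro v hv
    rw [hval v hv]
    have h1 : b ^ Nat.find hex = 1 := by rw [h0, pow_zero]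
    have h2 : ψ₀ = 1 := DirichletCharacter.level_one' ψ₀ h1
    have h3 : IsUnit ((v : ZMod (b ^ Nat.find hex))) := by
      have : Subsingleton (ZMod (b ^ Nat.find hex)) := by
        rw [h1]
        infer_instance
      exact isUnit_of_subsingleton _
    rw [h2]
    exact MulChar.one_apply h3
  · right
    refine ⟨Nat.find hex, ψ₀, by omega, hjM, ?_, hval⟩
    rintro ⟨hd', ψ₁, hψ₁⟩
    refine hmin (Nat.find hex - 1) (by omega) ⟨hd'.trans hd, ψ₁, ?_⟩
    refine hψ.trans ?_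
    rw [hψ₁]
    exact (DirichletCharacter.changeLevel_trans ψ₁ hd' hd).symm

end Pool.Agent.LibHG31
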