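import Pool.Agent.LibHG31.K3

/-! ROW K3b (STRONG): the additive structure of characters on small classes. Only Mathlib + K3a. -/

namespace Pool.Agent.LibHG31

open Finset

theorem K3b_ee_int (z : ℤ) : ee (z : ℝ) = 1 := by
  unfold ee
  rw [Complex.exp_eq_one_iff]
  exact ⟨z, by push_cast; ring⟩

/-- **block structure**: `χ` mod `n = D b^(j₁+j₂)`, `1 ≤ j₂ ≤ j₁`, not factoring through `D b^(j₁+j₂-1)`. There is `a`, not
divisible by `b`, with `χ(Z') = χ(Z) e(-a w' s/b^(j₂))` whenever `Z' ≡ Z` mod `D`, `Z' ≡ Z - b^(j₁) s` mod `b^(j₁+j₂)`, `Z w' ≡ 1` mod `b^(j₂)`.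
Plan: `g y = χ(1 + D b^(j₁) y)`: `g(y+y') = g y g y'` since `n ∣ D² b^(2 j₁)`; `g(b^(j₂)) = 1`; `g y = e(a₀ y/b^(j₂))` by
`exists_ee_of_hom` (`q = b^(j₂)`). If `b ∣ a₀` then `g(b^(j₂-1) y) = 1` for all `y`: `χ` is `1` on all units `≡ 1` mod `D b^(j₁+j₂-1)`
(every unit `x ≡ 1` mod `m` is `1 + m y`), so it factors through `m` (`DirichletCharacter.factorsThrough_iff_ker_unitsMap`), contradiction.
Let `D D' ≡ 1` mod `b^(j₂)` (`D` prime to `b`), `a = a₀ D'` (not divisible by `b`: `D'` is prime to `b` as `j₂ ≥ 1`). If `Z` is not prime to `n` then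
(`j₁ ≥ 1`) neither is `Z'` and both sides are `0` (`Z'` and `Z` have the same gcd with `b` and with `D`). Otherwise
`Z' ≡ Z (1 + D b^(j₁) y)` mod `n` with `y = -D' w' s`: mod `D` clear, mod `b^(j₁+j₂)`: `Z D b^(j₁) D' w' s ≡ b^(j₁) s` as `Z D D' w' ≡ 1` mod `b^(j₂)`
(`Int.ModEq` glue: `Int.modEq_and_modEq_iff_modEq_mul` for coprime moduli). So `χ(Z') = χ(Z) g(y)`. -/
theorem chi_block (b D n m j₁ j₂ : ℕ) (hb : 2 ≤ b) (hD : D.Coprime b) (hD0 : 0 < D)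
    (hn : n = D * b ^ (j₁ + j₂)) (hm : m = D * b ^ (j₁ + j₂ - 1)) (h12 : j₂ ≤ j₁) (h2 : 1 ≤ j₂)
    (χ : DirichletCharacter ℂ n) (hχ : ¬ χ.FactorsThrough m) :
    ∃ a : ℤ, ¬ (b : ℤ) ∣ a ∧ ∀ Z Z' w' s : ℤ, Z' ≡ Z [ZMOD (D : ℤ)] →
      Z' ≡ Z - (b : ℤ) ^ j₁ * s [ZMOD (b : ℤ) ^ (j₁ + j₂)] → Z * w' ≡ 1 [ZMOD (b : ℤ) ^ j₂] →
      χ (Z' : ZMod n) = χ (Z : ZMod n) * ee (-((a : ℝ) * w' * s / (b : ℝ) ^ j₂)) := by
  have hb0 : 0 < b := by omega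
  have hnpos : 0 < n := by rw [hn]; positivity
  have : NeZero n := ⟨hnpos.ne'⟩
  have hnZ : (n : ℤ) = (D : ℤ) * (b : ℤ) ^ (j₁ + j₂) := by rw [hn]; push_cast; ring
  have hmZ : (m : ℤ) = (D : ℤ) * (b : ℤ) ^ (j₁ + j₂ - 1) := by rw [hm]; push_cast; ring
  set A : ℤ := (D : ℤ) * (b : ℤ) ^ j₁ with hA
  have hAA : (n : ℤ) ∣ A * A := by
    rw [hnZ, hA]
    refine ⟨(D : ℤ) * (b : ℤ) ^ (j₁ - j₂), ?_⟩
    have e : (b : ℤ) ^ j₁ * (b : ℤ) ^ j₁ = (b : ℤ) ^ (j₁ + j₂) * (b : ℤ) ^ (j₁ - j₂) := by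
      rw [← pow_add, ← pow_add]
      congr 1
      omega
    calc (D : ℤ) * (b : ℤ) ^ j₁ * ((D : ℤ) * (b : ℤ) ^ j₁)
        = (D : ℤ) * (D : ℤ) * ((b : ℤ) ^ j₁ * (b : ℤ) ^ j₁) := by ring
      _ = (D : ℤ) * (b : ℤ) ^ (j₁ + j₂) * ((D : ℤ) * (b : ℤ) ^ (j₁ - j₂)) := by rw [e]; ring
  have hcong : ∀ x y : ℤ, (n : ℤ) ∣ y - x → χ (x : ZMod n) = χ (y : ZMod n) := by
    intro x y h
    congr 1
    exact (ZMod.intCast_eq_intCast_iff_dvd_sub x y n).mpr h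
  set g : ℤ → ℂ := fun y => χ ((1 + A * y : ℤ) : ZMod n) with hg
  have g0 : g 0 = 1 := by
    simp [hg]
  have gadd : ∀ x y, g (x + y) = g x * g y := by
    intro x y
    have e1 : g x * g y = χ (((1 + A * x) * (1 + A * y) : ℤ) : ZMod n) := by
      simp only [hg]
      rw [← map_mul, ← Int.cast_mul]
    rw [e1]
    simp only [hg]
    refine hcong _ _ ?_
    have e2 : (1 + A * x) * (1 + A * y) - (1 + A * (x + y)) = (A * A) * (x * y) := by ring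
    rw [e2]
    exact Dvd.dvd.mul_right hAA _
  have gq : g ((b ^ j₂ : ℕ) : ℤ) = 1 := by
    have e1 : g ((b ^ j₂ : ℕ) : ℤ) = χ ((1 : ℤ) : ZMod n) := by
      simp only [hg]
      refine hcong _ _ ?_
      refine ⟨-1, ?_⟩
      rw [hnZ, hA, pow_add]
      push_cast
      ring
    rw [e1]
    simp
  obtain ⟨a₀, ha₀⟩ := exists_ee_of_hom (b ^ j₂) (by positivity) g g0 gadd gq
  have hba₀ : ¬ (b : ℤ) ∣ a₀ := by
    rintro ⟨a₁, ha₁⟩
    apply hχ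
    have hdvd : m ∣ n := by
      rw [hn, hm]
      exact Nat.mul_dvd_mul_left D (Nat.pow_dvd_pow b (by omega))
    rw [DirichletCharacter.factorsThrough_iff_ker_unitsMap hdvd]
    intro u hu
    rw [MonoidHom.mem_ker] at hu ⊢
    have h1 : ((u : ZMod n).cast : ZMod m) = 1 := by
      have := congrArg (fun v : (ZMod m)ˣ => (v : ZMod m)) hu
      simpa [ZMod.unitsMap_val] using this
    obtain ⟨x, hx⟩ : ∃ x : ℤ, ((x : ℤ) : ZMod n) = (u : ZMod n) := ZMod.intCast_surjective _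
    have h2 : ((x : ℤ) : ZMod m) = 1 := by
      have e : (((x : ℤ) : ZMod n).cast : ZMod m) = ((x : ℤ) : ZMod m) := ZMod.cast_intCast hdvd x
      rw [← e, hx, h1]
    have h3 : (m : ℤ) ∣ x - 1 := by
      have h4 : ((1 : ℤ) : ZMod m) = ((x : ℤ) : ZMod m) := by rw [h2]; simp
      exact (ZMod.intCast_eq_intCast_iff_dvd_sub 1 x m).mp h4
    obtain ⟨y, hy⟩ := h3
    have h5 : χ ((x : ℤ) : ZMod n) = 1 := by
      have e1 : x = 1 + A * ((b : ℤ) ^ (j₂ - 1) * y) := by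
        have e2 : (b : ℤ) ^ (j₁ + j₂ - 1) = (b : ℤ) ^ j₁ * (b : ℤ) ^ (j₂ - 1) := by
          rw [← pow_add]
          congr 1
          omega
        have e3 : x = 1 + (m : ℤ) * y := by linarith
        rw [e3, hmZ, e2, hA]
        ring
      have e4 : χ ((x : ℤ) : ZMod n) = g ((b : ℤ) ^ (j₂ - 1) * y) := by
        rw [e1]
      rw [e4, ha₀]
      have e5 : ((a₀ : ℝ) * (((b : ℤ) ^ (j₂ - 1) * y : ℤ) : ℝ) / ((b ^ j₂ : ℕ) : ℝ)) = ((a₁ * y : ℤ) : ℝ) := by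
        have hbR : (b : ℝ) ≠ 0 := by exact_mod_cast hb0.ne'
        have e6 : (b : ℝ) ^ j₂ = (b : ℝ) * (b : ℝ) ^ (j₂ - 1) := by
          rw [← pow_succ']
          congr 1
          omega
        rw [ha₁]
        push_cast
        rw [e6]
        field_simp
      rw [e5, K3b_ee_int]
    apply Units.ext
    rw [MulChar.coe_toUnitHom, ← hx, h5]
    simp
  -- inverse of `D`
  have hcop : IsCoprime (D : ℤ) ((b : ℤ) ^ j₂) := by
    have : IsCoprime (D : ℤ) (b : ℤ) := Nat.isCoprime_iff_coprime.mpr hD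
    exact this.pow_right
  obtain ⟨D', v, hDv⟩ := hcop
  have hbD' : IsCoprime (b : ℤ) D' := by
    refine ⟨v * (b : ℤ) ^ (j₂ - 1), D, ?_⟩
    have e6 : (b : ℤ) ^ j₂ = (b : ℤ) ^ (j₂ - 1) * (b : ℤ) := by
      rw [← pow_succ]
      congr 1
      omega
    calc v * (b : ℤ) ^ (j₂ - 1) * b + D * D' = D' * D + v * ((b : ℤ) ^ (j₂ - 1) * b) := by ring
      _ = 1 := by rw [← e6, hDv]
  refine ⟨a₀ * D', ?_, ?_⟩
  · intro h
    exact hba₀ (hbD'.dvd_of_dvd_mul_right h)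
  intro Z Z' w' s hZD hZb hw
  set y : ℤ := -(D' * w' * s) with hy
  have key : (n : ℤ) ∣ Z * (1 + A * y) - Z' := by
    rw [hnZ]
    have hc2 : IsCoprime (D : ℤ) ((b : ℤ) ^ (j₁ + j₂)) := by
      have : IsCoprime (D : ℤ) (b : ℤ) := Nat.isCoprime_iff_coprime.mpr hD
      exact this.pow_right
    refine hc2.mul_dvd ?_ ?_
    · obtain ⟨k, hk⟩ := hZD.dvd
      refine ⟨k + (b : ℤ) ^ j₁ * y * Z, ?_⟩
      rw [hA]
      linear_combination hk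
    · obtain ⟨k, hk⟩ := hZb.dvd
      obtain ⟨k', hk'⟩ := hw.dvd
      -- Z - b^j₁ s - Z' = b^(j₁+j₂) k ; 1 - Z w' = b^j₂ k'
      have e1 : (b : ℤ) ^ (j₁ + j₂) = (b : ℤ) ^ j₁ * (b : ℤ) ^ j₂ := pow_add _ _ _
      rw [e1] at hk ⊢
      refine ⟨k + s * (k' + v * (Z * w')), ?_⟩
      rw [hA, hy]
      linear_combination hk + ((b : ℤ) ^ j₁ * s) * hk' - ((b : ℤ) ^ j₁ * s * Z * w') * hDv
  have e1 : χ (Z' : ZMod n) = χ (Z : ZMod n) * g y := by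
    have e2 : χ (Z : ZMod n) * g y = χ ((Z * (1 + A * y) : ℤ) : ZMod n) := by
      simp only [hg]
      rw [← map_mul, ← Int.cast_mul]
    rw [e2]
    exact hcong _ _ key
  rw [e1, ha₀]
  congr 2
  rw [hy]
  push_cast
  ring

end Pool.Agent.LibHG31
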