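import Pool.Agent.LibHG31.E1

/-! ROW K4a: `y^(i lam)`, linearization on short intervals. Only Mathlib + E1. -/

namespace Pool.Agent.LibHG31

open Finset intervalIntegral

/-- `t^(i lam) = e(lam log t/(2π))` for `t > 0` -/
theorem cpow_eq (t lam : ℝ) (ht : 0 < t) :
    (t : ℂ) ^ ((lam : ℂ) * Complex.I) = ee (lam * Real.log t / (2 * Real.pi)) := by
  have h0 : (t : ℂ) ≠ 0 := by exact_mod_cast ht.ne'
  unfold ee
  rw [Complex.cpow_def_of_ne_zero h0, ← Complex.ofReal_log ht.le]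
  congr 1
  have h1 : 2 * Real.pi * (lam * Real.log t / (2 * Real.pi)) = lam * Real.log t := by
    have := Real.pi_ne_zero
    field_simp
  rw [h1]
  push_cast
  ring

theorem norm_cpow_I (t lam : ℝ) (ht : 0 < t) : ‖(t : ℂ) ^ ((lam : ℂ) * Complex.I)‖ = 1 := by
  rw [cpow_eq t lam ht, norm_ee]

/-- `|e(x) - e(y)| ≤ 2π |x - y|` -/
theorem norm_ee_sub_le (x y : ℝ) : ‖ee x - ee y‖ ≤ 2 * Real.pi * |x - y| := by
  have h1 : ee x - ee y = ee y * (ee (x - y) - 1) := by
    rw [mul_sub, mul_one, ← ee_add]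
    congr 2
    ring
  rw [h1, norm_mul, norm_ee, one_mul]
  have h2 : ee (x - y) = Complex.exp (Complex.I * ((2 * Real.pi * (x - y) : ℝ) : ℂ)) := by
    unfold ee
    rw [mul_comm]
  rw [h2]
  refine (Real.norm_exp_I_mul_ofReal_sub_one_le).trans (le_of_eq ?_)
  rw [Real.norm_eq_abs, abs_mul, abs_of_pos (by positivity : 0 < 2 * Real.pi)]

private theorem K4a_hasDerivAt (τ y : ℝ) (hy : 0 < y) :
    HasDerivAt (fun y : ℝ => ee (τ * Real.log y)) (ee (τ * Real.log y) / y * (2 * Real.pi * τ * Complex.I)) y := by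
  unfold ee
  have h1 : HasDerivAt (fun y : ℝ => (((2 * Real.pi * (τ * Real.log y) : ℝ) : ℂ) * Complex.I))
      (((2 * Real.pi * (τ * y⁻¹) : ℝ) : ℂ) * Complex.I) y := by
    have h0 : HasDerivAt (fun y : ℝ => 2 * Real.pi * (τ * Real.log y)) (2 * Real.pi * (τ * y⁻¹)) y :=
      ((Real.hasDerivAt_log hy.ne').const_mul τ).const_mul (2 * Real.pi)
    exact (h0.ofReal_comp).mul_const Complex.I
  have h2 := h1.cexp
  convert h2 using 1
  have : (y : ℂ) ≠ 0 := by exact_mod_cast hy.ne'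
  push_cast
  field_simp

private theorem K4a_norm_cell (τ u : ℝ) (hu : 0 < u) (hτ : τ ≠ 0) :
    ‖∫ y in u..(u + 1), ee (τ * Real.log y) / y‖ ≤ 1 / (Real.pi * |τ|) := by
  have hk : (2 * Real.pi * τ * Complex.I : ℂ) ≠ 0 := by
    have h1 : (Real.pi : ℂ) ≠ 0 := by exact_mod_cast Real.pi_ne_zero
    have h2 : (τ : ℂ) ≠ 0 := by exact_mod_cast hτ
    simp [h1, h2, Complex.I_ne_zero]
  have hpos : ∀ y ∈ Set.uIcc u (u + 1), 0 < y := by
    intro y hy
    rw [Set.uIcc_of_le (by linarith)] at hy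
    linarith [hy.1]
  have hd : ∀ y ∈ Set.uIcc u (u + 1),
      HasDerivAt (fun y : ℝ => ee (τ * Real.log y)) (ee (τ * Real.log y) / y * (2 * Real.pi * τ * Complex.I)) y :=
    fun y hy => K4a_hasDerivAt τ y (hpos y hy)
  have hcont : ContinuousOn (fun y : ℝ => ee (τ * Real.log y) / y * (2 * Real.pi * τ * Complex.I))
      (Set.uIcc u (u + 1)) := by
    refine ContinuousOn.mul (ContinuousOn.div ?_ ?_ ?_) continuousOn_const
    · exact fun y hy => (hd y hy).continuousAt.continuousWithinAt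
    · exact Complex.continuous_ofReal.continuousOn
    · intro y hy
      exact_mod_cast (hpos y hy).ne'
  have h1 := intervalIntegral.integral_eq_sub_of_hasDerivAt hd hcont.intervalIntegrable
  rw [intervalIntegral.integral_mul_const] at h1
  have h2 : (∫ y in u..(u + 1), ee (τ * Real.log y) / y) =
      (ee (τ * Real.log (u + 1)) - ee (τ * Real.log u)) / (2 * Real.pi * τ * Complex.I) := by
    rw [eq_div_iff hk]
    exact h1
  rw [h2, norm_div]
  have h3 : ‖(2 * Real.pi * τ * Complex.I : ℂ)‖ = 2 * (Real.pi * |τ|) := by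
    rw [norm_mul, norm_mul, norm_mul]
    simp [abs_of_pos Real.pi_pos]
    ring
  rw [h3]
  have h4 : ‖ee (τ * Real.log (u + 1)) - ee (τ * Real.log u)‖ ≤ 2 := by
    refine (norm_sub_le _ _).trans ?_
    rw [norm_ee, norm_ee]
    norm_num
  have h5 : 0 < Real.pi * |τ| := mul_pos Real.pi_pos (abs_pos.mpr hτ)
  rw [div_le_div_iff₀ (by linarith) h5]
  nlinarith

private theorem K4a_log (v : ℝ) (hv : 0 ≤ v) : |Real.log (1 + v) - v| ≤ v ^ 2 := by
  have h1 : Real.log (1 + v) ≤ v := by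
    have := Real.log_le_sub_one_of_pos (show (0 : ℝ) < 1 + v by linarith)
    linarith
  have h2 : v - v ^ 2 ≤ Real.log (1 + v) := by
    have h3 := Real.one_sub_inv_le_log_of_pos (show (0 : ℝ) < 1 + v by linarith)
    have h4 : 1 - (1 + v)⁻¹ = v / (1 + v) := by
      field_simp
      ring
    have h5 : v - v ^ 2 ≤ v / (1 + v) := by
      rw [le_div_iff₀ (by linarith)]
      nlinarith [mul_nonneg hv (mul_nonneg hv hv)]
    linarith
  rw [abs_le]
  constructor <;> nlinarith [sq_nonneg v]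

private theorem K4a_Wcont (W : ℝ → ℝ) (h2 : ∀ s t, |W s - W t| ≤ |s - t|) : Continuous W := by
  have h : LipschitzWith 1 W := by
    refine LipschitzWith.of_dist_le_mul ?_
    intro s t
    rw [Real.dist_eq, Real.dist_eq, NNReal.coe_one, one_mul]
    exact h2 s t
  exact h.continuous

private theorem K4a_cont (B lam p q : ℝ) (W : ℝ → ℝ) (hp : 0 < p) (hpq : p ≤ q)
    (h2 : ∀ s t, |W s - W t| ≤ |s - t|) :
    ContinuousOn (fun y : ℝ => ((W (y / B) / y : ℝ) : ℂ) * ee (lam / (2 * Real.pi) * Real.log y))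
      (Set.uIcc p q) := by
  have hpos : ∀ y ∈ Set.uIcc p q, 0 < y := by
    intro y hy
    rw [Set.uIcc_of_le hpq] at hy
    linarith [hy.1]
  have hW := K4a_Wcont W h2
  refine ContinuousOn.mul ?_ ?_
  · refine Complex.continuous_ofReal.comp_continuousOn ?_
    refine ContinuousOn.div ?_ continuousOn_id fun y hy => (hpos y hy).ne'
    exact (hW.comp (continuous_id.div_const B)).continuousOn
  · exact fun y hy => (K4a_hasDerivAt _ y (hpos y hy)).continuousAt.continuousWithinAt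

private theorem K4a_congr (B lam p q : ℝ) (W : ℝ → ℝ) (hp : 0 < p) (hpq : p ≤ q) :
    (∫ y in p..q, ((W (y / B) / y : ℝ) : ℂ) * (y : ℂ) ^ ((lam : ℂ) * Complex.I)) =
      ∫ y in p..q, ((W (y / B) / y : ℝ) : ℂ) * ee (lam / (2 * Real.pi) * Real.log y) := by
  refine intervalIntegral.integral_congr ?_
  intro y hy
  rw [Set.uIcc_of_le hpq] at hy
  have hy0 : 0 < y := lt_of_lt_of_le hp hy.1
  dsimp only
  rw [cpow_eq y lam hy0]
  congr 2
  ring

/-- large `lam`: `W` is replaced by `W(u/B)` (error `(1/B)(1/u)`), `|∫_u^{u+1} y^(i lam - 1) dy| = |(u+1)^(i lam) - u^(i lam)|/|lam| ≤ 2/|lam|`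
(antiderivative `y^(i lam)/(i lam)`: `integral_cpow` or `HasDerivAt` of `ee (lam log y/(2π))`). -/
theorem cell_large (B lam u : ℝ) (W : ℝ → ℝ) (hB : 0 < B) (hu : 1 ≤ u) (hlam : lam ≠ 0) (h1 : ∀ s, |W s| ≤ 1)
    (h2 : ∀ s t, |W s - W t| ≤ |s - t|) :
    ‖∫ y in u..(u + 1), ((W (y / B) / y : ℝ) : ℂ) * (y : ℂ) ^ ((lam : ℂ) * Complex.I)‖ ≤
      2 / |lam| + 1 / (B * u) := by
  have hu0 : 0 < u := by linarith
  rw [K4a_congr B lam u (u + 1) W hu0 (by linarith)]
  set τ := lam / (2 * Real.pi) with hτ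
  have hτ0 : τ ≠ 0 := by
    rw [hτ]
    have := Real.pi_pos
    positivity
  have hi1 := (K4a_cont B lam u (u + 1) W hu0 (by linarith) h2).intervalIntegrable
    (μ := MeasureTheory.volume)
  have hpos : ∀ y ∈ Set.uIcc u (u + 1), 0 < y := by
    intro y hy
    rw [Set.uIcc_of_le (by linarith)] at hy
    linarith [hy.1]
  have hi2 : IntervalIntegrable (fun y : ℝ => ee (τ * Real.log y) / (y : ℂ)) MeasureTheory.volume
      u (u + 1) := by
    refine ContinuousOn.intervalIntegrable ?_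
    refine ContinuousOn.div ?_ Complex.continuous_ofReal.continuousOn ?_
    · exact fun y hy => (K4a_hasDerivAt _ y (hpos y hy)).continuousAt.continuousWithinAt
    · intro y hy
      exact_mod_cast (hpos y hy).ne'
  have e1 : (∫ y in u..(u + 1), ((W (y / B) / y : ℝ) : ℂ) * ee (τ * Real.log y)) =
      (∫ y in u..(u + 1), (((W (y / B) / y : ℝ) : ℂ) * ee (τ * Real.log y) -
        ((W (u / B) : ℝ) : ℂ) * (ee (τ * Real.log y) / (y : ℂ)))) +
      ((W (u / B) : ℝ) : ℂ) * ∫ y in u..(u + 1), ee (τ * Real.log y) / (y : ℂ) := by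
    rw [intervalIntegral.integral_sub hi1 (hi2.const_mul _), intervalIntegral.integral_const_mul]
    ring
  rw [e1]
  refine (norm_add_le _ _).trans ?_
  have b1 : ‖∫ y in u..(u + 1), (((W (y / B) / y : ℝ) : ℂ) * ee (τ * Real.log y) -
        ((W (u / B) : ℝ) : ℂ) * (ee (τ * Real.log y) / (y : ℂ)))‖ ≤ 1 / (B * u) := by
    refine (intervalIntegral.norm_integral_le_of_norm_le_const (C := 1 / (B * u)) ?_).trans
      (by simp)
    intro y hy
    rw [Set.uIoc_of_le (by linarith)] at hy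
    have hy0 : 0 < y := by linarith [hy.1]
    have e2 : ((W (y / B) / y : ℝ) : ℂ) * ee (τ * Real.log y) -
        ((W (u / B) : ℝ) : ℂ) * (ee (τ * Real.log y) / (y : ℂ)) =
        (((W (y / B) - W (u / B)) / y : ℝ) : ℂ) * ee (τ * Real.log y) := by
      push_cast
      ring
    rw [e2, norm_mul, norm_ee, mul_one, Complex.norm_real, Real.norm_eq_abs, abs_div,
      abs_of_pos hy0]
    have h3 := h2 (y / B) (u / B)
    have h4 : |y / B - u / B| ≤ 1 / B := by
      rw [← sub_div, abs_div, abs_of_pos hB]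
      refine div_le_div_of_nonneg_right ?_ hB.le
      rw [abs_le]
      constructor <;> linarith [hy.1, hy.2]
    calc |W (y / B) - W (u / B)| / y ≤ (1 / B) / u := by
          refine div_le_div₀ (by positivity) (h3.trans h4) hu0 (by linarith [hy.1])
      _ = 1 / (B * u) := by rw [div_div]
  have b2 : ‖((W (u / B) : ℝ) : ℂ) * ∫ y in u..(u + 1), ee (τ * Real.log y) / (y : ℂ)‖ ≤
      2 / |lam| := by
    rw [norm_mul, Complex.norm_real, Real.norm_eq_abs]
    have h3 := K4a_norm_cell τ u hu0 hτ0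
    have h4 : 1 / (Real.pi * |τ|) = 2 / |lam| := by
      rw [hτ, abs_div, abs_of_pos (by positivity : 0 < 2 * Real.pi)]
      have h5 : |lam| ≠ 0 := abs_ne_zero.2 hlam
      have := Real.pi_ne_zero
      field_simp
    rw [h4] at h3
    calc |W (u / B)| * ‖∫ y in u..(u + 1), ee (τ * Real.log y) / (y : ℂ)‖
        ≤ 1 * (2 / |lam|) := mul_le_mul (h1 _) h3 (norm_nonneg _) zero_le_one
      _ = 2 / |lam| := one_mul _
  linarith

/-- linearization on the cell `[U+x, U+x+1]`, `0 ≤ x`, `x + 1 ≤ X`.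
Plan: `ee((lam/(2πU)) x) * ∫_0^1 ee((lam/(2πU)) s) ds = ∫_{U+x}^{U+x+1} ee((lam/(2πU))(y - U)) dy`; difference of the integrands, `y = U + t`, `0 ≤ t ≤ X`:
`|W(y/B) - W(U/B)|/y ≤ X/(B U)`, `|1/y - 1/U| ≤ X/U²`, `(1/U)|y^(i lam) - U^(i lam) e(lam t/(2πU))| ≤ (1/U)|lam| |log(1+t/U) - t/U| ≤ |lam| X²/U³`
(`|log(1+v) - v| ≤ v²` for `v ≥ 0`). `intervalIntegral.norm_integral_le_of_norm_le_const` on an interval of length 1; integrability: continuity on `[U+x, U+x+1]` (`W` is Lipschitz). -/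
theorem cell_linear (B lam U X : ℝ) (x : ℕ) (W : ℝ → ℝ) (hB : 0 < B) (hU : 1 ≤ U) (hx : (x : ℝ) + 1 ≤ X)
    (h1 : ∀ s, |W s| ≤ 1) (h2 : ∀ s t, |W s - W t| ≤ |s - t|) :
    ‖(∫ y in (U + x)..(U + x + 1), ((W (y / B) / y : ℝ) : ℂ) * (y : ℂ) ^ ((lam : ℂ) * Complex.I)) -
      ((W (U / B) / U : ℝ) : ℂ) * (U : ℂ) ^ ((lam : ℂ) * Complex.I) * ee (lam / (2 * Real.pi * U) * x) *
        ∫ s in (0 : ℝ)..1, ee (lam / (2 * Real.pi * U) * s)‖ ≤
      (1 / U) * (X / B + |lam| * X ^ 2 / U ^ 2 + X / U) := by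
  have hU0 : 0 < U := by linarith
  have hx0 : (0 : ℝ) ≤ x := Nat.cast_nonneg x
  have hX0 : 0 ≤ X := by linarith
  rw [K4a_congr B lam (U + x) (U + x + 1) W (by linarith) (by linarith), cpow_eq U lam hU0]
  set τ := lam / (2 * Real.pi) with hτ
  have e0 : lam / (2 * Real.pi * U) = τ / U := by rw [hτ, div_div]
  have e0' : lam * Real.log U / (2 * Real.pi) = τ * Real.log U := by rw [hτ]; ring
  rw [e0, e0']
  have g1 : (∫ y in (U + x)..(U + x + 1), ((W (y / B) / y : ℝ) : ℂ) * ee (τ * Real.log y)) =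
      ∫ s in (0 : ℝ)..1, ((W ((U + x + s) / B) / (U + x + s) : ℝ) : ℂ) *
        ee (τ * Real.log (U + x + s)) := by
    have := intervalIntegral.integral_comp_add_left (a := 0) (b := 1)
      (fun y : ℝ => ((W (y / B) / y : ℝ) : ℂ) * ee (τ * Real.log y)) (U + x)
    rw [this]
    simp
  have hc2 : ContinuousOn (fun s : ℝ => ((W ((U + x + s) / B) / (U + x + s) : ℝ) : ℂ) *
        ee (τ * Real.log (U + x + s))) (Set.uIcc 0 1) := by
    have h3 := K4a_cont B lam (U + x) (U + x + 1) W (by linarith) (by linarith) h2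
    have h4 : ContinuousOn (fun s : ℝ => U + x + s) (Set.uIcc 0 1) := by fun_prop
    refine h3.comp h4 ?_
    intro s hs
    rw [Set.uIcc_of_le zero_le_one] at hs
    rw [Set.uIcc_of_le (by linarith)]
    exact ⟨by linarith [hs.1], by linarith [hs.2]⟩
  have g2 : ((W (U / B) / U : ℝ) : ℂ) * ee (τ * Real.log U) * ee (τ / U * x) *
      (∫ s in (0 : ℝ)..1, ee (τ / U * s)) =
      ∫ s in (0 : ℝ)..1, ((W (U / B) / U : ℝ) : ℂ) * ee (τ * (Real.log U + (x + s) / U)) := by
    rw [← intervalIntegral.integral_const_mul]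
    congr 1
    ext s
    rw [mul_assoc, mul_assoc, ← ee_add, ← ee_add]
    congr 2
    field_simp
  rw [g1, g2, ← intervalIntegral.integral_sub hc2.intervalIntegrable
    (by
      apply Continuous.intervalIntegrable
      unfold ee
      fun_prop)]
  refine (intervalIntegral.norm_integral_le_of_norm_le_const
    (C := (1 / U) * (X / B + |lam| * X ^ 2 / U ^ 2 + X / U)) ?_).trans (by simp)
  intro s hs
  rw [Set.uIoc_of_le zero_le_one] at hs
  have hs0 : 0 < s := hs.1
  have hs1 : s ≤ 1 := hs.2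
  have hy : 0 < U + x + s := by linarith
  have ht0 : 0 ≤ (x : ℝ) + s := by linarith
  have htX : (x : ℝ) + s ≤ X := by linarith
  set P := τ * Real.log (U + x + s) with hP
  set Q := τ * (Real.log U + (x + s) / U) with hQ
  have hv : 0 ≤ (x + s) / U := by positivity
  have hlog : Real.log (U + x + s) = Real.log U + Real.log (1 + (x + s) / U) := by
    rw [← Real.log_mul hU0.ne' (by positivity)]
    congr 1
    field_simp
    ring
  have hPQ : |P - Q| ≤ |τ| * (X ^ 2 / U ^ 2) := by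
    have e : P - Q = τ * (Real.log (1 + (x + s) / U) - (x + s) / U) := by
      rw [hP, hQ, hlog]
      ring
    rw [e, abs_mul]
    refine mul_le_mul_of_nonneg_left ((K4a_log _ hv).trans ?_) (abs_nonneg _)
    rw [div_pow]
    gcongr
  have hee := (norm_ee_sub_le P Q).trans
    (mul_le_mul_of_nonneg_left hPQ (show 0 ≤ 2 * Real.pi by positivity))
  have hτl : 2 * Real.pi * (|τ| * (X ^ 2 / U ^ 2)) = |lam| * X ^ 2 / U ^ 2 := by
    rw [hτ, abs_div, abs_of_pos (by positivity : 0 < 2 * Real.pi)]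
    have := Real.pi_ne_zero
    field_simp
  rw [hτl] at hee
  have e1 : ((W ((U + x + s) / B) / (U + x + s) : ℝ) : ℂ) * ee P -
      ((W (U / B) / U : ℝ) : ℂ) * ee Q =
      (((W ((U + x + s) / B) - W (U / B)) / (U + x + s) : ℝ) : ℂ) * ee P +
      ((W (U / B) * (1 / (U + x + s) - 1 / U) : ℝ) : ℂ) * ee P +
      ((W (U / B) / U : ℝ) : ℂ) * (ee P - ee Q) := by
    push_cast
    ring
  rw [e1]
  refine (norm_add_le _ _).trans ?_
  have hA : ‖(((W ((U + x + s) / B) - W (U / B)) / (U + x + s) : ℝ) : ℂ) * ee P‖ ≤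
      1 / U * (X / B) := by
    rw [norm_mul, norm_ee, mul_one, Complex.norm_real, Real.norm_eq_abs, abs_div, abs_of_pos hy]
    have h3 := h2 ((U + x + s) / B) (U / B)
    have h4 : |(U + x + s) / B - U / B| ≤ X / B := by
      rw [← sub_div, abs_div, abs_of_pos hB]
      refine div_le_div_of_nonneg_right ?_ hB.le
      rw [abs_le]
      constructor <;> linarith
    calc |W ((U + x + s) / B) - W (U / B)| / (U + x + s) ≤ (X / B) / U := by
          refine div_le_div₀ (by positivity) (h3.trans h4) hU0 (by linarith)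
      _ = 1 / U * (X / B) := by ring
  have hBd : ‖((W (U / B) * (1 / (U + x + s) - 1 / U) : ℝ) : ℂ) * ee P‖ ≤ 1 / U * (X / U) := by
    rw [norm_mul, norm_ee, mul_one, Complex.norm_real, Real.norm_eq_abs, abs_mul]
    have h4 : |1 / (U + x + s) - 1 / U| ≤ 1 / U * (X / U) := by
      rw [abs_sub_comm, abs_of_nonneg]
      · have h5 : 1 / U - 1 / (U + x + s) = (x + s) / (U * (U + x + s)) := by
          field_simp
          ring
        rw [h5]
        calc ((x : ℝ) + s) / (U * (U + x + s)) ≤ X / (U * U) := by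
              refine div_le_div₀ hX0 htX (by positivity) ?_
              nlinarith
          _ = 1 / U * (X / U) := by
              field_simp
      · rw [sub_nonneg]
        apply one_div_le_one_div_of_le hU0
        linarith
    calc |W (U / B)| * |1 / (U + x + s) - 1 / U| ≤ 1 * (1 / U * (X / U)) :=
          mul_le_mul (h1 _) h4 (abs_nonneg _) zero_le_one
      _ = _ := one_mul _
  have hC : ‖((W (U / B) / U : ℝ) : ℂ) * (ee P - ee Q)‖ ≤ 1 / U * (|lam| * X ^ 2 / U ^ 2) := by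
    rw [norm_mul, Complex.norm_real, Real.norm_eq_abs, abs_div, abs_of_pos hU0]
    refine mul_le_mul ?_ hee (norm_nonneg _) (by positivity)
    exact div_le_div_of_nonneg_right (h1 _) hU0.le
  have hAB := norm_add_le ((((W ((U + x + s) / B) - W (U / B)) / (U + x + s) : ℝ) : ℂ) * ee P)
    (((W (U / B) * (1 / (U + x + s) - 1 / U) : ℝ) : ℂ) * ee P)
  have hfin : (1 / U) * (X / B + |lam| * X ^ 2 / U ^ 2 + X / U) =
      1 / U * (X / B) + 1 / U * (X / U) + 1 / U * (|lam| * X ^ 2 / U ^ 2) := by ring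
  rw [hfin]
  linarith

theorem norm_int_ee_le (γ : ℝ) : ‖∫ s in (0 : ℝ)..1, ee (γ * s)‖ ≤ 1 := by
  refine (intervalIntegral.norm_integral_le_of_norm_le_const (C := 1) ?_).trans (by simp)
  intro s _
  rw [norm_ee]

end Pool.Agent.LibHG31
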