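import Pool.Agent.LibHG31.K4

/-! ROW K4b: linearization at points, grid sums. Only Mathlib + K4a (`cpow_eq`, `norm_cpow_I`, `norm_ee_sub_le`). -/

namespace Pool.Agent.LibHG31

open Finset intervalIntegral

theorem k4b_log (v : ℝ) (hv : 0 ≤ v) (hv1 : v ≤ 1 / 2) : |Real.log (1 - v) + v| ≤ v ^ 2 := by
  have hz : ‖((-v : ℝ) : ℂ)‖ = v := by
    rw [Complex.norm_real, Real.norm_eq_abs, abs_neg, abs_of_nonneg hv]
  have h1 := Complex.norm_log_one_add_sub_self_le (z := ((-v : ℝ) : ℂ)) (by rw [hz]; linarith)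
  rw [hz] at h1
  have h2 : Complex.log (1 + ((-v : ℝ) : ℂ)) - ((-v : ℝ) : ℂ) =
      ((Real.log (1 - v) + v : ℝ) : ℂ) := by
    have h3 : (1 + ((-v : ℝ) : ℂ)) = ((1 - v : ℝ) : ℂ) := by
      push_cast
      ring
    rw [h3, ← Complex.ofReal_log (by linarith)]
    push_cast
    ring
  rw [h2, Complex.norm_real, Real.norm_eq_abs] at h1
  refine h1.trans ?_
  have h4 : (1 - v)⁻¹ ≤ 2 := by
    rw [inv_le_comm₀ (by linarith) (by norm_num)]
    linarith
  nlinarith [sq_nonneg v]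

/-- the logarithm is 2-Lipschitz on `[1/2, ∞)` -/
theorem k4b_lip (x y : ℝ) (hx : 1 / 2 ≤ x) (hy : 1 / 2 ≤ y) :
    |Real.log x - Real.log y| ≤ 2 * |x - y| := by
  have key : ∀ a b : ℝ, 1 / 2 ≤ a → a ≤ b → Real.log b - Real.log a ≤ 2 * (b - a) := by
    intro a b ha hab
    have ha0 : 0 < a := by linarith
    have hb0 : 0 < b := by linarith
    have h1 : Real.log (b / a) ≤ b / a - 1 := Real.log_le_sub_one_of_pos (by positivity)
    rw [Real.log_div hb0.ne' ha0.ne'] at h1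
    have h2 : b / a - 1 ≤ 2 * (b - a) := by
      have e : b / a - 1 = (b - a) / a := by
        field_simp
      rw [e, div_le_iff₀ ha0]
      nlinarith
    linarith
  rcases le_total x y with h | h
  · have h1 := key x y hx h
    have h2 : Real.log x ≤ Real.log y := Real.log_le_log (by linarith) h
    rw [abs_of_nonpos (by linarith), abs_of_nonpos (by linarith)]
    linarith
  · have h1 := key y x hy h
    have h2 : Real.log y ≤ Real.log x := Real.log_le_log (by linarith) h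
    rw [abs_of_nonneg (by linarith), abs_of_nonneg (by linarith)]
    linarith

theorem k4b_cpow_lip (lam x y : ℝ) (hx : 1 / 2 ≤ x) (hy : 1 / 2 ≤ y) :
    ‖(x : ℂ) ^ ((lam : ℂ) * Complex.I) - (y : ℂ) ^ ((lam : ℂ) * Complex.I)‖ ≤
      2 * |lam| * |x - y| := by
  rw [cpow_eq x lam (by linarith), cpow_eq y lam (by linarith)]
  refine (norm_ee_sub_le _ _).trans ?_
  have hpi := Real.pi_pos
  have e : lam * Real.log x / (2 * Real.pi) - lam * Real.log y / (2 * Real.pi) =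
      lam * (Real.log x - Real.log y) / (2 * Real.pi) := by ring
  rw [e, abs_div, abs_mul, abs_of_pos (by positivity : 0 < 2 * Real.pi), mul_div_cancel₀ _
    (by positivity : 2 * Real.pi ≠ 0)]
  have h1 := mul_le_mul_of_nonneg_left (k4b_lip x y hx hy) (abs_nonneg lam)
  linarith

/-- linearization of `W(η - β V) (η - β V)^(i lam)`, `0 ≤ V ≤ 1`, `0 < β ≤ 1/4`, `η ≥ 1/2`:
`|W(η - βV) - W(η)| ≤ β`, `|log(1 - v) + v| ≤ v²` for `0 ≤ v = βV/η ≤ 2β ≤ 1/2`, so `|..| ≤ |lam| v² ≤ 4 |lam| β²`. -/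
theorem point_linear (lam η β V : ℝ) (W : ℝ → ℝ) (hη : 1 / 2 ≤ η) (hβ : 0 < β) (hβ1 : β ≤ 1 / 4) (hV : 0 ≤ V)
    (hV1 : V ≤ 1) (h1 : ∀ s, |W s| ≤ 1) (h2 : ∀ s t, |W s - W t| ≤ |s - t|) :
    ‖((W (η - β * V) : ℝ) : ℂ) * ((η - β * V : ℝ) : ℂ) ^ ((lam : ℂ) * Complex.I) -
      ((W η : ℝ) : ℂ) * (η : ℂ) ^ ((lam : ℂ) * Complex.I) * ee (-(lam * β / (2 * Real.pi * η) * V))‖ ≤
      β + 4 * |lam| * β ^ 2 := by
  have hpi := Real.pi_pos
  have hη0 : 0 < η := by linarith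
  have hβV : β * V ≤ β := by nlinarith
  have hβV0 : 0 ≤ β * V := by positivity
  have hy : 0 < η - β * V := by linarith
  set v := β * V / η with hv
  have hv0 : 0 ≤ v := by positivity
  have hv2 : v ≤ 2 * β := by
    rw [hv, div_le_iff₀ hη0]
    nlinarith
  have hlog : Real.log (η - β * V) = Real.log η + Real.log (1 - v) := by
    rw [← Real.log_mul hη0.ne' (by linarith)]
    congr 1
    rw [hv]
    field_simp
  have e1 : ((W (η - β * V) : ℝ) : ℂ) * ((η - β * V : ℝ) : ℂ) ^ ((lam : ℂ) * Complex.I) -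
      ((W η : ℝ) : ℂ) * (η : ℂ) ^ ((lam : ℂ) * Complex.I) * ee (-(lam * β / (2 * Real.pi * η) * V)) =
      ((W (η - β * V) - W η : ℝ) : ℂ) * ((η - β * V : ℝ) : ℂ) ^ ((lam : ℂ) * Complex.I) +
      ((W η : ℝ) : ℂ) * (ee (lam * Real.log (η - β * V) / (2 * Real.pi)) -
        ee (lam * Real.log η / (2 * Real.pi) + -(lam * β / (2 * Real.pi * η) * V))) := by
    rw [ee_add, cpow_eq _ lam hy, cpow_eq _ lam hη0]
    push_cast
    ring
  rw [e1]
  refine (norm_add_le _ _).trans (add_le_add ?_ ?_)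
  · rw [norm_mul, norm_cpow_I _ lam hy, mul_one, Complex.norm_real, Real.norm_eq_abs]
    refine (h2 _ _).trans ?_
    rw [show η - β * V - η = -(β * V) by ring, abs_neg, abs_of_nonneg hβV0]
    exact hβV
  · rw [norm_mul, Complex.norm_real, Real.norm_eq_abs]
    have h3 := norm_ee_sub_le (lam * Real.log (η - β * V) / (2 * Real.pi))
      (lam * Real.log η / (2 * Real.pi) + -(lam * β / (2 * Real.pi * η) * V))
    have e2 : lam * Real.log (η - β * V) / (2 * Real.pi) -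
        (lam * Real.log η / (2 * Real.pi) + -(lam * β / (2 * Real.pi * η) * V)) =
        lam * (Real.log (1 - v) + v) / (2 * Real.pi) := by
      rw [hlog, hv]
      field_simp
      ring
    rw [e2, abs_div, abs_mul, abs_of_pos (by positivity : 0 < 2 * Real.pi), mul_div_cancel₀ _
      (by positivity : 2 * Real.pi ≠ 0)] at h3
    have h4 : |Real.log (1 - v) + v| ≤ 4 * β ^ 2 := by
      refine (k4b_log v hv0 (by linarith)).trans ?_
      nlinarith
    have h5 := mul_le_mul_of_nonneg_left h4 (abs_nonneg lam)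
    calc |W η| * _ ≤ 1 * _ := mul_le_mul_of_nonneg_right (h1 η) (norm_nonneg _)
      _ ≤ |lam| * |Real.log (1 - v) + v| := by rw [one_mul]; exact h3
      _ ≤ _ := by linarith

/-- **grid sums**: `q ≥ 1` points, `0 < β ≤ 1`, `1/2 + β ≤ η ≤ Y`.
Plan: replace `W(..)` by `W(η)` (cost `q β`); with `f(x) = (η - βx)^(i lam)`, `|f'| ≤ |lam| β/(η - β) ≤ 2|lam|β`:
`|∑_{i<q} f(i/q) - q ∫_0^1 f| ≤ 2 |lam| β` (`∑ integral over [i/q,(i+1)/q]`: `intervalIntegral.sum_integral_adjacent_intervals`), and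
`|∫_0^1 (η - βx)^(i lam) dx| ≤ 2 Y/(β |lam|)` (antiderivative `-(η - βx)^(1 + i lam)/(β(1 + i lam))`, `|1 + i lam| ≥ |lam|`). -/
theorem grid_sum_le (Y lam η β : ℝ) (q : ℕ) (W : ℝ → ℝ) (hq : 1 ≤ q) (hlam : lam ≠ 0) (hβ : 0 < β) (hβ1 : β ≤ 1)
    (hη : 1 / 2 + β ≤ η) (hηY : η ≤ Y) (h1 : ∀ s, |W s| ≤ 1) (h2 : ∀ s t, |W s - W t| ≤ |s - t|) :
    ‖∑ i ∈ range q, ((W (η - β * i / q) : ℝ) : ℂ) * ((η - β * i / q : ℝ) : ℂ) ^ ((lam : ℂ) * Complex.I)‖ ≤
      q * β + 2 * |lam| * β + 2 * Y * q / (β * |lam|) := by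
  have hq0 : (0 : ℝ) < q := by exact_mod_cast hq
  have hη0 : 0 < η := by linarith
  have hlam0 : 0 < |lam| := abs_pos.2 hlam
  set f : ℝ → ℂ := fun x => ((η - β * x : ℝ) : ℂ) ^ ((lam : ℂ) * Complex.I) with hf
  have hpos : ∀ x : ℝ, x ≤ 1 → 1 / 2 ≤ η - β * x := by
    intro x hx
    nlinarith
  have hcont : ContinuousOn f (Set.Iic 1) := by
    intro x hx
    have h3 : ContinuousAt (fun a : ℝ => (a : ℂ) ^ ((lam : ℂ) * Complex.I)) (η - β * x) :=
      Complex.continuousAt_ofReal_cpow_const _ _ (Or.inr (by have := hpos x hx; linarith))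
    have h4 : ContinuousAt (fun x : ℝ => η - β * x) x := by fun_prop
    exact (ContinuousAt.comp (f := fun x : ℝ => η - β * x) h3 h4).continuousWithinAt
  have hint : ∀ a b : ℝ, a ≤ 1 → b ≤ 1 → IntervalIntegrable f MeasureTheory.volume a b := by
    intro a b ha hb
    refine (hcont.mono ?_).intervalIntegrable
    intro x hx
    rw [Set.mem_uIcc] at hx
    rcases hx with hx | hx <;> exact le_trans hx.2 (by assumption)
  have hlip : ∀ x y : ℝ, x ≤ 1 → y ≤ 1 → ‖f x - f y‖ ≤ 2 * |lam| * β * |x - y| := by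
    intro x y hx hy
    refine (k4b_cpow_lip lam _ _ (hpos x hx) (hpos y hy)).trans ?_
    rw [show η - β * x - (η - β * y) = -(β * (x - y)) by ring, abs_neg, abs_mul, abs_of_pos hβ]
    linarith
  -- step 1
  have hiq : ∀ i ∈ range q, (i : ℝ) / q ≤ 1 := by
    intro i hi
    rw [div_le_one hq0]
    exact_mod_cast (mem_range.1 hi).le
  have s1 : ‖(∑ i ∈ range q, ((W (η - β * i / q) : ℝ) : ℂ) *
      ((η - β * i / q : ℝ) : ℂ) ^ ((lam : ℂ) * Complex.I)) -
      ((W η : ℝ) : ℂ) * ∑ i ∈ range q, f (i / q)‖ ≤ q * β := by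
    rw [mul_sum, ← sum_sub_distrib]
    refine (norm_sum_le _ _).trans ?_
    have h3 : ∀ i ∈ range q, ‖((W (η - β * i / q) : ℝ) : ℂ) *
        ((η - β * i / q : ℝ) : ℂ) ^ ((lam : ℂ) * Complex.I) - ((W η : ℝ) : ℂ) * f (i / q)‖ ≤ β := by
      intro i hi
      have h4 := hiq i hi
      have h5 := hpos _ h4
      have e1 : η - β * i / q = η - β * (i / q) := by ring
      rw [e1]
      change ‖((W (η - β * (i / q)) : ℝ) : ℂ) * ((η - β * (i / q) : ℝ) : ℂ) ^ ((lam : ℂ) * Complex.I) -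
        ((W η : ℝ) : ℂ) * ((η - β * (i / q) : ℝ) : ℂ) ^ ((lam : ℂ) * Complex.I)‖ ≤ β
      rw [← sub_mul, norm_mul, norm_cpow_I _ lam (by linarith), mul_one, ← Complex.ofReal_sub,
        Complex.norm_real, Real.norm_eq_abs]
      refine (h2 _ _).trans ?_
      have h6 : 0 ≤ β * ((i : ℝ) / q) := by positivity
      rw [show η - β * ((i : ℝ) / q) - η = -(β * ((i : ℝ) / q)) by ring, abs_neg, abs_of_nonneg h6]
      nlinarith
    refine (sum_le_sum h3).trans ?_
    rw [sum_const, card_range, nsmul_eq_mul]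
  -- step 2
  have s2 : ‖(∑ i ∈ range q, f (i / q)) - q * ∫ x in (0 : ℝ)..1, f x‖ ≤ 2 * |lam| * β := by
    have e1 : (∫ x in (0 : ℝ)..1, f x) =
        ∑ k ∈ range q, ∫ x in ((k : ℕ) / q : ℝ)..((k + 1 : ℕ) / q : ℝ), f x := by
      rw [sum_integral_adjacent_intervals (a := fun k : ℕ => (k : ℝ) / q)]
      · rw [Nat.cast_zero, zero_div, div_self hq0.ne']
      · intro k hk
        refine hint _ _ ?_ ?_
        · rw [div_le_one hq0]
          exact_mod_cast hk.le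
        · rw [div_le_one hq0]
          exact_mod_cast hk
    rw [e1, mul_sum, ← sum_sub_distrib]
    refine (norm_sum_le _ _).trans ?_
    have h3 : ∀ k ∈ range q, ‖f (k / q) -
        q * ∫ x in ((k : ℕ) / q : ℝ)..((k + 1 : ℕ) / q : ℝ), f x‖ ≤ 2 * |lam| * β / q := by
      intro k hk
      have hk1 : ((k + 1 : ℕ) : ℝ) / q ≤ 1 := by
        rw [div_le_one hq0]
        exact_mod_cast mem_range.1 hk
      have hlen : ((k + 1 : ℕ) : ℝ) / q - (k : ℝ) / q = 1 / q := by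
        push_cast
        ring
      have hkk : (k : ℝ) / q ≤ ((k + 1 : ℕ) : ℝ) / q := by
        rw [← sub_nonneg, hlen]
        positivity
      have e2 : f (k / q) = q * ∫ x in ((k : ℕ) / q : ℝ)..((k + 1 : ℕ) / q : ℝ), f (k / q) := by
        have hqc : (q : ℂ) ≠ 0 := by exact_mod_cast hq0.ne'
        rw [intervalIntegral.integral_const, hlen, Complex.real_smul]
        push_cast
        field_simp
      have e3 : f (k / q) - q * ∫ x in ((k : ℕ) / q : ℝ)..((k + 1 : ℕ) / q : ℝ), f x =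
          q * ∫ x in ((k : ℕ) / q : ℝ)..((k + 1 : ℕ) / q : ℝ), (f (k / q) - f x) := by
        rw [intervalIntegral.integral_sub _root_.intervalIntegrable_const
          (hint _ _ (hkk.trans hk1) hk1), mul_sub, ← e2]
      rw [e3, norm_mul, Complex.norm_natCast]
      have h4 : ‖∫ x in ((k : ℕ) / q : ℝ)..((k + 1 : ℕ) / q : ℝ), (f (k / q) - f x)‖ ≤
          2 * |lam| * β * (1 / q) * |((k + 1 : ℕ) : ℝ) / q - (k : ℝ) / q| := by
        refine intervalIntegral.norm_integral_le_of_norm_le_const ?_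
        intro x hx
        rw [Set.uIoc_of_le hkk] at hx
        refine (hlip _ _ (hkk.trans hk1) (hx.2.trans hk1)).trans ?_
        refine mul_le_mul_of_nonneg_left ?_ (by positivity)
        rw [abs_sub_comm, abs_of_nonneg (by linarith [hx.1])]
        linarith [hx.2]
      rw [hlen, abs_of_pos (by positivity : (0 : ℝ) < 1 / q)] at h4
      calc (q : ℝ) * _ ≤ q * (2 * |lam| * β * (1 / q) * (1 / q)) :=
            mul_le_mul_of_nonneg_left h4 hq0.le
        _ = 2 * |lam| * β / q := by field_simp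
    refine (sum_le_sum h3).trans ?_
    rw [sum_const, card_range, nsmul_eq_mul]
    apply le_of_eq
    field_simp
  -- step 3
  have s3 : ‖∫ x in (0 : ℝ)..1, f x‖ ≤ 2 * Y / (β * |lam|) := by
    have e1 : (∫ x in (0 : ℝ)..1, f x) = (β⁻¹ : ℝ) •
        ∫ y in (η - β * 1)..(η - β * 0), (y : ℂ) ^ ((lam : ℂ) * Complex.I) :=
      intervalIntegral.integral_comp_sub_mul (fun y : ℝ => (y : ℂ) ^ ((lam : ℂ) * Complex.I)) hβ.ne' η
    have hre : (-1 : ℝ) < ((lam : ℂ) * Complex.I).re := by simp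
    rw [e1, integral_cpow (Or.inl hre), norm_smul, norm_div, Real.norm_of_nonneg (by positivity)]
    have h3 : |lam| ≤ ‖(lam : ℂ) * Complex.I + 1‖ := by
      have := Complex.abs_im_le_norm ((lam : ℂ) * Complex.I + 1)
      simpa using this
    have h4 : ∀ y : ℝ, 0 < y → ‖(y : ℂ) ^ ((lam : ℂ) * Complex.I + 1)‖ = y := by
      intro y hy
      rw [Complex.norm_cpow_eq_rpow_re_of_pos hy]
      simp
    have h5 : ‖((η - β * 0 : ℝ) : ℂ) ^ ((lam : ℂ) * Complex.I + 1) -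
        ((η - β * 1 : ℝ) : ℂ) ^ ((lam : ℂ) * Complex.I + 1)‖ ≤ 2 * Y := by
      refine (norm_sub_le _ _).trans ?_
      rw [h4 _ (by linarith), h4 _ (by linarith)]
      linarith
    have h6 : ‖((η - β * 0 : ℝ) : ℂ) ^ ((lam : ℂ) * Complex.I + 1) -
        ((η - β * 1 : ℝ) : ℂ) ^ ((lam : ℂ) * Complex.I + 1)‖ / ‖(lam : ℂ) * Complex.I + 1‖ ≤
        2 * Y / |lam| := div_le_div₀ (by linarith) h5 hlam0 h3
    calc β⁻¹ * _ ≤ β⁻¹ * (2 * Y / |lam|) := mul_le_mul_of_nonneg_left h6 (by positivity)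
      _ = 2 * Y / (β * |lam|) := by
        field_simp
  have s4 : ‖∑ i ∈ range q, f (i / q)‖ ≤ 2 * |lam| * β + q * (2 * Y / (β * |lam|)) := by
    have e1 : (∑ i ∈ range q, f (i / q)) = ((∑ i ∈ range q, f (i / q)) - q * ∫ x in (0 : ℝ)..1, f x) +
        q * ∫ x in (0 : ℝ)..1, f x := by ring
    rw [e1]
    refine (norm_add_le _ _).trans (add_le_add s2 ?_)
    rw [norm_mul, Complex.norm_natCast]
    exact mul_le_mul_of_nonneg_left s3 hq0.le
  have e1 : (∑ i ∈ range q, ((W (η - β * i / q) : ℝ) : ℂ) *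
      ((η - β * i / q : ℝ) : ℂ) ^ ((lam : ℂ) * Complex.I)) =
      ((∑ i ∈ range q, ((W (η - β * i / q) : ℝ) : ℂ) *
      ((η - β * i / q : ℝ) : ℂ) ^ ((lam : ℂ) * Complex.I)) -
      ((W η : ℝ) : ℂ) * ∑ i ∈ range q, f (i / q)) + ((W η : ℝ) : ℂ) * ∑ i ∈ range q, f (i / q) := by
    ring
  rw [e1]
  refine (norm_add_le _ _).trans ?_
  have s5 : ‖((W η : ℝ) : ℂ) * ∑ i ∈ range q, f (i / q)‖ ≤
      2 * |lam| * β + q * (2 * Y / (β * |lam|)) := by
    rw [norm_mul, Complex.norm_real, Real.norm_eq_abs]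
    calc |W η| * _ ≤ 1 * _ := mul_le_mul_of_nonneg_right (h1 η) (norm_nonneg _)
      _ ≤ _ := by rw [one_mul]; exact s4
  have e2 : (q : ℝ) * (2 * Y / (β * |lam|)) = 2 * Y * q / (β * |lam|) := by ring
  rw [e2] at s5
  linarith

end Pool.Agent.LibHG31
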