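import Pool.Agent.LibHG31.E5

/-! ROW K5: splitting the sums over digits, counting classes. -/

namespace Pool.Agent.LibHG31

open Finset

/-- reindexing of an interval of multiples -/
private theorem K5_sum_Ico_mul (F : ℕ → ℂ) (A B q : ℕ) (hq : 0 < q) :
    ∑ u ∈ Ico (A * q) (B * q), F u = ∑ u₁ ∈ Ico A B, ∑ u₂ ∈ range q, F (u₁ * q + u₂) := by
  rw [← Finset.sum_product']
  refine Finset.sum_nbij' (fun u => (u / q, u % q)) (fun p => p.1 * q + p.2) ?_ ?_ ?_ ?_ ?_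
  · intro u hu
    rw [mem_Ico] at hu
    rw [mem_product, mem_Ico, mem_range]
    exact ⟨⟨(Nat.le_div_iff_mul_le hq).mpr hu.1, (Nat.div_lt_iff_lt_mul hq).mpr hu.2⟩,
      Nat.mod_lt _ hq⟩
  · rintro ⟨u₁, u₂⟩ hp
    rw [mem_product, mem_Ico, mem_range] at hp
    obtain ⟨⟨h1, h2⟩, h3⟩ := hp
    rw [mem_Ico]
    refine ⟨(Nat.mul_le_mul_right q h1).trans (Nat.le_add_right _ _), ?_⟩
    calc u₁ * q + u₂ < u₁ * q + q := Nat.add_lt_add_left h3 _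
      _ = (u₁ + 1) * q := by ring
      _ ≤ B * q := Nat.mul_le_mul_right q h2
  · intro u _
    exact Nat.div_add_mod' u q
  · rintro ⟨u₁, u₂⟩ hp
    rw [mem_product, mem_Ico, mem_range] at hp
    obtain ⟨-, h3⟩ := hp
    simp only [Prod.mk.injEq]
    constructor
    · rw [mul_comm, Nat.mul_add_div hq, Nat.div_eq_of_lt h3, add_zero]
    · rw [mul_comm, Nat.mul_add_mod, Nat.mod_eq_of_lt h3]
  · intro u _
    rw [Nat.div_add_mod']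

/-- fibres of the low digits of the reversal -/
private theorem K5_card (b j₁ j₂ l : ℕ) (hb : 2 ≤ b) (h12 : j₂ ≤ j₁) (h1 : 1 ≤ j₁) (hl : l < b) (N w : ℤ) :
    ((II b j₁ l).filter (fun u => N - rv b j₁ u ≡ w [ZMOD (b : ℤ) ^ j₂])).card ≤ b ^ (j₁ - j₂) := by
  have hlt : ∀ u ∈ II b j₁ l, u < b ^ j₁ := by
    intro u hu
    rw [II, mem_Ico] at hu
    calc u < (l + 1) * b ^ (j₁ - 1) := hu.2
      _ ≤ b * b ^ (j₁ - 1) := Nat.mul_le_mul_right _ hl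
      _ = b ^ j₁ := by rw [← pow_succ']; congr 1; omega
  rcases ((II b j₁ l).filter (fun u => N - rv b j₁ u ≡ w [ZMOD (b : ℤ) ^ j₂])).eq_empty_or_nonempty with h0 | ⟨u0, hu0⟩
  · rw [h0]
    simp
  · set t := u0 / b ^ (j₁ - j₂) with ht
    have hsub : (II b j₁ l).filter (fun u => N - rv b j₁ u ≡ w [ZMOD (b : ℤ) ^ j₂]) ⊆
        Ico (t * b ^ (j₁ - j₂)) ((t + 1) * b ^ (j₁ - j₂)) := by
      intro u hu
      rw [mem_filter] at hu hu0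
      have hpos : 0 < b ^ (j₁ - j₂) := by positivity
      have h2 : (rv b j₁ u : ℤ) ≡ rv b j₁ u0 [ZMOD (b : ℤ) ^ j₂] := by
        have h3 := (hu.2.trans hu0.2.symm)
        have h4 := (Int.ModEq.refl N).sub h3
        simpa using h4
      have h3 : rv b j₁ u ≡ rv b j₁ u0 [MOD b ^ j₂] := by
        rw [← Int.natCast_modEq_iff]
        exact_mod_cast h2
      have h4 : rv b j₂ (u / b ^ (j₁ - j₂)) = rv b j₂ (u0 / b ^ (j₁ - j₂)) := by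
        rw [← rv_mod b j₁ j₂ u (by omega) h12 (hlt u hu.1),
          ← rv_mod b j₁ j₂ u0 (by omega) h12 (hlt u0 hu0.1)]
        exact h3
      have hd : ∀ v, v < b ^ j₁ → v / b ^ (j₁ - j₂) < b ^ j₂ := by
        intro v hv
        rw [Nat.div_lt_iff_lt_mul hpos, ← pow_add]
        convert hv using 2
        omega
      have h5 := rv_injOn b j₂ (by omega) (hd u (hlt u hu.1)) (hd u0 (hlt u0 hu0.1)) h4
      rw [mem_Ico]
      have h6 : u / b ^ (j₁ - j₂) = t := h5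
      exact ⟨(Nat.le_div_iff_mul_le hpos).mp h6.ge, (Nat.div_lt_iff_lt_mul hpos).mp (by omega)⟩
    refine (card_le_card hsub).trans ?_
    rw [Nat.card_Ico, ← Nat.sub_mul]
    simp


private theorem K5_sum_range_mul (M N : ℕ) (F : ℕ → ℂ) :
    ∑ v ∈ range (M * N), F v = ∑ v₂ ∈ range N, ∑ v₁ ∈ range M, F (v₁ + M * v₂) := by
  induction N with
  | zero => simp
  | succ N ih =>
    rw [Nat.mul_succ, Finset.sum_range_add, ih, Finset.sum_range_succ]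
    congr 1
    refine Finset.sum_congr rfl fun v _ => ?_
    rw [add_comm]

/-- `v = v₁ + b^m v₂` -/
theorem sum_range_split (b m n : ℕ) (hb : 1 ≤ b) (F : ℕ → ℂ) :
    ∑ v ∈ range (b ^ (m + n)), F v = ∑ v₁ ∈ range (b ^ m), ∑ v₂ ∈ range (b ^ n), F (v₁ + b ^ m * v₂) := by
  rw [pow_add, K5_sum_range_mul, Finset.sum_comm]

/-- `u = u₁ b^(j₂) + u₂`, leading digit `l` -/
theorem sum_II_split (b l j₁ j₂ : ℕ) (hb : 1 ≤ b) (h1 : 1 ≤ j₁) (F : ℕ → ℂ) :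
    ∑ u ∈ Ico (l * b ^ (j₁ + j₂ - 1)) ((l + 1) * b ^ (j₁ + j₂ - 1)), F u =
      ∑ u₁ ∈ Ico (l * b ^ (j₁ - 1)) ((l + 1) * b ^ (j₁ - 1)), ∑ u₂ ∈ range (b ^ j₂), F (u₁ * b ^ j₂ + u₂) := by
  have e : b ^ (j₁ + j₂ - 1) = b ^ (j₁ - 1) * b ^ j₂ := by
    rw [← pow_add]
    congr 1
    omega
  rw [e, ← mul_assoc, ← mul_assoc]
  exact K5_sum_Ico_mul F _ _ _ (pow_pos (by omega) _)

/-- reversal of `u₁ b^(j₂) + u₂`: `rv b (j₁+j₂) (u₁ b^(j₂) + u₂) = rv b j₁ u₁ + b^(j₁) rv b j₂ u₂` for `u₁ < b^(j₁)`, `u₂ < b^(j₂)` (`rv_split`) -/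
theorem rv_append (b j₁ j₂ u₁ u₂ : ℕ) (hb : 1 ≤ b) (h1 : u₁ < b ^ j₁) (h2 : u₂ < b ^ j₂) :
    rv b (j₁ + j₂) (u₁ * b ^ j₂ + u₂) = rv b j₁ u₁ + b ^ j₁ * rv b j₂ u₂ := by
  have hp : 0 < b ^ j₂ := pow_pos (by omega) _
  have hlt : u₁ * b ^ j₂ + u₂ < b ^ (j₁ + j₂) := by
    calc u₁ * b ^ j₂ + u₂ < u₁ * b ^ j₂ + b ^ j₂ := Nat.add_lt_add_left h2 _
      _ = (u₁ + 1) * b ^ j₂ := by ring
      _ ≤ b ^ j₁ * b ^ j₂ := Nat.mul_le_mul_right _ h1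
      _ = b ^ (j₁ + j₂) := (pow_add _ _ _).symm
  have h3 := rv_split b (j₁ + j₂) j₁ (u₁ * b ^ j₂ + u₂) hb (Nat.le_add_right _ _) hlt
  rw [Nat.add_sub_cancel_left] at h3
  have h4 : (u₁ * b ^ j₂ + u₂) / b ^ j₂ = u₁ := by
    rw [mul_comm, Nat.mul_add_div hp, Nat.div_eq_of_lt h2, add_zero]
  have h5 : (u₁ * b ^ j₂ + u₂) % b ^ j₂ = u₂ := by
    rw [mul_comm, Nat.mul_add_mod, Nat.mod_eq_of_lt h2]
  rw [h4, h5] at h3
  exact h3

/-- the same, normalized, for `v₁ + b^m v₂`: `rv/b^(m+n) = rv b m v₁/b^m + b^(-m) rv b n v₂/b^n` -/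
theorem rv_div_add (b m n v₁ v₂ : ℕ) (hb : 1 ≤ b) (h1 : v₁ < b ^ m) (h2 : v₂ < b ^ n) :
    (rv b (m + n) (v₁ + b ^ m * v₂) : ℝ) / (b : ℝ) ^ (m + n) =
      rv b m v₁ / (b : ℝ) ^ m + (1 / (b : ℝ) ^ m) * (rv b n v₂ / (b : ℝ) ^ n) := by
  have h3 : rv b (m + n) (v₁ + b ^ m * v₂) = rv b n v₂ + b ^ n * rv b m v₁ := by
    rw [← rv_append b n m v₂ v₁ hb h2 h1, add_comm m n]
    congr 1
    ring
  have hb0 : (b : ℝ) ≠ 0 := by
    have : (0 : ℝ) < b := by exact_mod_cast hb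
    exact this.ne'
  rw [h3, pow_add]
  push_cast
  field_simp
  ring

/-- `v ↦ rv b n v` is a bijection of `range (b^n)` -/
theorem sum_rv (b n : ℕ) (hb : 1 ≤ b) (F : ℕ → ℂ) : ∑ v ∈ range (b ^ n), F (rv b n v) = ∑ i ∈ range (b ^ n), F i := by
  refine Finset.sum_nbij' (rv b n) (rv b n) ?_ ?_ ?_ ?_ ?_
  · exact fun v _ => Finset.mem_range.2 (rv_lt b n v hb)
  · exact fun v _ => Finset.mem_range.2 (rv_lt b n v hb)
  · exact fun v hv => rv_rv b n v hb (Finset.mem_range.1 hv)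
  · exact fun v hv => rv_rv b n v hb (Finset.mem_range.1 hv)
  · exact fun _ _ => rfl

/-- `rv b j₁ u₁` mod `b^(j₂)` determines the `j₂` top digits of `u₁` (`rv_mod` with `L = j₁`, `J = j₂`; `rv_injOn`), so at most `b^(j₁-j₂)` values of `u₁` -/
theorem card_rv_class_le (b l j₁ j₂ : ℕ) (hb : 2 ≤ b) (hl : l < b) (h1 : 1 ≤ j₁) (h12 : j₂ ≤ j₁) (N w : ℤ) :
    ((Ico (l * b ^ (j₁ - 1)) ((l + 1) * b ^ (j₁ - 1))).filter
      (fun u : ℕ => N - rv b j₁ u ≡ w [ZMOD (b : ℤ) ^ j₂])).card ≤ b ^ (j₁ - j₂) :=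
  K5_card b j₁ j₂ l hb h12 h1 hl N w

theorem card_class_le (b j₁ j₂ : ℕ) (hb : 1 ≤ b) (h12 : j₂ ≤ j₁) (w : ℤ) :
    ((range (b ^ j₁)).filter (fun v : ℕ => (v : ℤ) ≡ w [ZMOD (b : ℤ) ^ j₂])).card ≤ b ^ (j₁ - j₂) := by
  have hp : 0 < b ^ j₂ := pow_pos (by omega) _
  have h := Finset.card_le_card_of_injOn
    (s := (range (b ^ j₁)).filter (fun v : ℕ => (v : ℤ) ≡ w [ZMOD (b : ℤ) ^ j₂]))
    (t := range (b ^ (j₁ - j₂))) (fun v : ℕ => v / b ^ j₂) ?_ ?_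
  · rwa [Finset.card_range] at h
  · intro v hv
    have h1 := Finset.mem_range.1 (Finset.mem_filter.1 hv).1
    refine Finset.mem_coe.2 (Finset.mem_range.2 ?_)
    rw [Nat.div_lt_iff_lt_mul hp, ← pow_add]
    have h2 : j₁ - j₂ + j₂ = j₁ := by omega
    rwa [h2]
  · intro v hv v' hv' hvv
    have h1 := (Finset.mem_filter.1 hv).2
    have h2 := (Finset.mem_filter.1 hv').2
    have h3 : v ≡ v' [MOD b ^ j₂] := by
      rw [← Int.natCast_modEq_iff]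
      push_cast
      exact h1.trans h2.symm
    have h4 : v % b ^ j₂ = v' % b ^ j₂ := h3
    have h5 : v / b ^ j₂ = v' / b ^ j₂ := hvv
    rw [← Nat.div_add_mod v (b ^ j₂), ← Nat.div_add_mod v' (b ^ j₂), h4, h5]

/-- `N - rv b j₁ u₁` is prime to `b` for `u₁` with leading digit `l` (`rv_mod_b`) -/
theorem isCoprime_sub_rv (b l j₁ u : ℕ) (hb : 2 ≤ b) (hl : l < b) (h1 : 1 ≤ j₁) (N : ℤ) (hN : IsCoprime (N - l) (b : ℤ))
    (hu : u ∈ Ico (l * b ^ (j₁ - 1)) ((l + 1) * b ^ (j₁ - 1))) : IsCoprime (N - rv b j₁ u) (b : ℤ) := by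
  have h2 := rv_mod_b b j₁ l u hb h1 hl hu
  have h3 := Nat.div_add_mod (rv b j₁ u) b
  rw [h2] at h3
  have h4 : N - (rv b j₁ u : ℤ) = (N - l) + (b : ℤ) * (-((rv b j₁ u / b : ℕ) : ℤ)) := by
    have h5 : (rv b j₁ u : ℤ) = (b : ℤ) * ((rv b j₁ u / b : ℕ) : ℤ) + l := by
      exact_mod_cast h3.symm
    rw [h5]
    ring
  rw [h4]
  exact IsCoprime.add_mul_left_left_iff.2 hN

end Pool.Agent.LibHG31
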