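import Pool.Agent.LibHG31.Iface

/-! Interfaces of the coupling lemmas (helper31 proves them; block C uses them). -/

namespace Pool.Agent.LibHG31

open Finset

/-- (C2) coupling of a character of level `j` with the reversed digits and a power `y^(iλ)` -/
def C2Stmt (b : ℕ) : Prop :=
  ∃ c C : ℝ, 0 < c ∧ 0 < C ∧ ∀ (j l : ℕ), 1 ≤ j → 1 ≤ l → l < b →
    ∀ χ : DirichletCharacter ℂ (QQ b j), ¬ χ.FactorsThrough (QQ b (j - 1)) →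
    ∀ (N : ℤ) (Z : ℕ → ℤ) (z : ℤ), IsCoprime (N - l) (b : ℤ) →
      (∀ u, Z u ≡ N - rv b j u [ZMOD ((b : ℤ) ^ j)]) → (∀ u, Z u ≡ z [ZMOD (D0 b : ℤ)]) →
    ∀ (lam : ℝ) (W : ℝ → ℝ), (∀ s, |W s| ≤ 1) → (∀ s t, |W s - W t| ≤ |s - t|) →
      ‖∑ u ∈ Ico (l * b ^ (j - 1)) ((l + 1) * b ^ (j - 1)), χ ((Z u : ℤ) : ZMod (QQ b j)) *
        ∫ y in (u : ℝ)..(u + 1), ((W (y / b ^ (j - 1)) / y : ℝ) : ℂ) *
          (y : ℂ) ^ ((lam : ℂ) * Complex.I)‖ ≤ C * (b : ℝ) ^ (-(c * j))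

/-- (C2') coupling of a character of the suffix with the reversed digits -/
def C2pStmt (b : ℕ) : Prop :=
  ∃ c C : ℝ, 0 < c ∧ 0 < C ∧ ∀ (M : ℕ) (ψ : DirichletCharacter ℂ (b ^ M)) (Y lam : ℝ) (W : ℝ → ℝ),
    3 / 2 ≤ Y → Y ≤ (b : ℝ) ^ 2 + 1 → 1 ≤ |lam| → lam ^ 2 ≤ (b : ℝ) ^ M →
    (∀ s, |W s| ≤ 1) → (∀ s t, |W s - W t| ≤ |s - t|) →
      ‖∑ v ∈ range (b ^ M), ψ (v : ZMod (b ^ M)) *
        ((W (Y - rv b M v / (b : ℝ) ^ M) : ℝ) : ℂ) *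
        (((Y - rv b M v / (b : ℝ) ^ M : ℝ)) : ℂ) ^ ((lam : ℂ) * Complex.I)‖ ≤
        C * (b : ℝ) ^ M * |lam| ^ (-c)

end Pool.Agent.LibHG31
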