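import Pool.Agent.LibHG31.K2
import Pool.Agent.LibHG31.K3b
import Pool.Agent.LibHG31.K4
import Pool.Agent.LibHG31.K5
import Pool.Agent.LibHG31.KIface

/-! ROW K6a (STRONG): one block, and the coupling lemma for small `lam` with explicit error. -/

namespace Pool.Agent.LibHG31

open Finset

/-- one block of `u₂`: fixed `u₁`, `U = u₁ b^(j₂)`.
Plan: `χ(Z(u₁ b^(j₂) + u₂)) = χ(Z(u₁ b^(j₂))) e(-a w' rv b j₂ u₂/b^(j₂))` (`hblk` with `s = rv b j₂ u₂`: `rv_append` and `rv b j₂ 0 = 0`), `cell_linear` with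
`x = u₂`, `X = b^(j₂)`: the error is summed over `b^(j₂)` values; the main term is `≤ (1/U) ‖∑_{u₂} ee(γ u₂ - (a w'/b^(j₂)) rv b j₂ u₂)‖ ≤ (1/U) b^(j₂) PW` (`hth` = `block_theta`). -/
theorem block_C2 (b : ℕ) (hb : 2 ≤ b) (c : ℝ) (a w' : ℤ) (j₁ j₂ u₁ : ℕ) (hu0 : 1 ≤ u₁ * b ^ j₂) (G : ℕ → ℂ) (hG : ‖G 0‖ ≤ 1)
    (hblk : ∀ u₂ < b ^ j₂, G u₂ = G 0 * ee (-((a : ℝ) * w' * rv b j₂ u₂ / (b : ℝ) ^ j₂)))
    (hth : ∀ γ : ℝ, ‖∑ u ∈ range (b ^ j₂), ee (γ * u - (a * w' / (b : ℝ) ^ j₂) * rv b j₂ u)‖ ≤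
      (b : ℝ) ^ j₂ * PW b c a j₂ w') (B lam : ℝ) (W : ℝ → ℝ) (hB : 0 < B) (h1 : ∀ s, |W s| ≤ 1)
    (h2 : ∀ s t, |W s - W t| ≤ |s - t|) :
    ‖∑ u₂ ∈ range (b ^ j₂), G u₂ * ∫ y in ((u₁ * b ^ j₂ + u₂ : ℕ) : ℝ)..((u₁ * b ^ j₂ + u₂ : ℕ) + 1),
      ((W (y / B) / y : ℝ) : ℂ) * (y : ℂ) ^ ((lam : ℂ) * Complex.I)‖ ≤
      (1 / (u₁ * b ^ j₂ : ℝ)) * ((b : ℝ) ^ j₂ * PW b c a j₂ w') +
      (b : ℝ) ^ j₂ * ((1 / (u₁ * b ^ j₂ : ℝ)) * ((b : ℝ) ^ j₂ / B +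
        |lam| * ((b : ℝ) ^ j₂) ^ 2 / (u₁ * b ^ j₂ : ℝ) ^ 2 + (b : ℝ) ^ j₂ / (u₁ * b ^ j₂ : ℝ))) := by
  set U : ℝ := (u₁ * b ^ j₂ : ℝ) with hU
  have hU1 : 1 ≤ U := by rw [hU]; exact_mod_cast hu0
  have hU0 : 0 < U := by linarith
  set A : ℂ := ((W (U / B) / U : ℝ) : ℂ) * (U : ℂ) ^ ((lam : ℂ) * Complex.I) with hA
  set T : ℂ := ∫ s in (0 : ℝ)..1, ee (lam / (2 * Real.pi * U) * s) with hT
  have hT1 : ‖T‖ ≤ 1 := norm_int_ee_le _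
  have hA1 : ‖A‖ ≤ 1 / U := by
    rw [hA, norm_mul, norm_cpow_I U lam hU0, mul_one, Complex.norm_real, Real.norm_eq_abs, abs_div,
      abs_of_pos hU0]
    exact div_le_div_of_nonneg_right (h1 _) hU0.le
  set E : ℝ := (1 / U) * ((b : ℝ) ^ j₂ / B + |lam| * ((b : ℝ) ^ j₂) ^ 2 / U ^ 2 + (b : ℝ) ^ j₂ / U) with hE
  have hdec : ∑ u₂ ∈ range (b ^ j₂), G u₂ * ∫ y in ((u₁ * b ^ j₂ + u₂ : ℕ) : ℝ)..((u₁ * b ^ j₂ + u₂ : ℕ) + 1),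
      ((W (y / B) / y : ℝ) : ℂ) * (y : ℂ) ^ ((lam : ℂ) * Complex.I) =
      G 0 * A * T * (∑ u ∈ range (b ^ j₂), ee ((lam / (2 * Real.pi * U)) * u - (a * w' / (b : ℝ) ^ j₂) * rv b j₂ u)) +
      ∑ u₂ ∈ range (b ^ j₂), G u₂ * ((∫ y in (U + (u₂ : ℕ))..(U + (u₂ : ℕ) + 1),
        ((W (y / B) / y : ℝ) : ℂ) * (y : ℂ) ^ ((lam : ℂ) * Complex.I)) - A * ee (lam / (2 * Real.pi * U) * u₂) * T) := by
    rw [Finset.mul_sum, ← Finset.sum_add_distrib]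
    refine Finset.sum_congr rfl fun u hu => ?_
    have e1 : ee ((lam / (2 * Real.pi * U)) * u - (a * w' / (b : ℝ) ^ j₂) * rv b j₂ u) =
        ee (lam / (2 * Real.pi * U) * u) * ee (-((a : ℝ) * w' * rv b j₂ u / (b : ℝ) ^ j₂)) := by
      rw [← ee_add]
      congr 1
      ring
    have e2 : ((u₁ * b ^ j₂ + u : ℕ) : ℝ) = U + (u : ℕ) := by rw [hU]; push_cast; ring
    rw [e1, e2, hblk u (mem_range.mp hu)]
    ring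
  rw [hdec]
  refine (norm_add_le _ _).trans (add_le_add ?_ ?_)
  · rw [norm_mul, norm_mul, norm_mul]
    have h3 := hth (lam / (2 * Real.pi * U))
    have h0 : 0 ≤ (b : ℝ) ^ j₂ * PW b c a j₂ w' := (norm_nonneg _).trans h3
    calc ‖G 0‖ * ‖A‖ * ‖T‖ * ‖∑ u ∈ range (b ^ j₂), ee ((lam / (2 * Real.pi * U)) * u - (a * w' / (b : ℝ) ^ j₂) * rv b j₂ u)‖
        ≤ 1 * (1 / U) * 1 * ((b : ℝ) ^ j₂ * PW b c a j₂ w') := by gcongr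
      _ = (1 / U) * ((b : ℝ) ^ j₂ * PW b c a j₂ w') := by ring
  · refine (norm_sum_le _ _).trans ?_
    have hG1 : ∀ u ∈ range (b ^ j₂), ‖G u‖ ≤ 1 := by
      intro u hu
      rw [hblk u (mem_range.mp hu), norm_mul, norm_ee, mul_one]
      exact hG
    refine (Finset.sum_le_sum (g := fun _ => E) fun u hu => ?_).trans ?_
    · rw [norm_mul]
      have hu' : ((u : ℝ) + 1) ≤ (b : ℝ) ^ j₂ := by
        have := mem_range.mp hu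
        exact_mod_cast this
      have h3 := cell_linear B lam U ((b : ℝ) ^ j₂) u W hB hU1 hu' h1 h2
      calc _ ≤ 1 * E := mul_le_mul (hG1 u hu) h3 (norm_nonneg _) zero_le_one
        _ = E := one_mul _
    · rw [Finset.sum_const, card_range, nsmul_eq_mul]
      push_cast
      exact le_rfl

theorem K6_modEq_of_eq {n x y : ℤ} (h : x = y) : x ≡ y [ZMOD n] := by rw [h]

theorem K6_D0_pos (b : ℕ) (hb : 2 ≤ b) : 0 < D0 b := by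
  unfold D0
  have : 2 ^ 2 ≤ b ^ 2 := Nat.pow_le_pow_left hb 2
  omega

theorem K6_coprime_D0 (b : ℕ) (hb : 2 ≤ b) : (D0 b).Coprime b := by
  rw [← Nat.isCoprime_iff_coprime]
  refine ⟨-1, b, ?_⟩
  unfold D0
  have : 1 ≤ b ^ 2 := Nat.one_le_pow _ _ (by omega)
  push_cast [Nat.cast_sub this]
  ring

/-- **C2**, the case `|lam| ≤ b^(5j/4)`, `j = j₁ + j₂`, `1 ≤ j₂ ≤ j₁`, with explicit error.
Plan: `chi_block` (D = `D0 b`, `n = QQ b j`, `m = QQ b (j-1)`), `sum_II_split`, `block_C2` for every `u₁` (`u₁ b^(j₂) ≥ b^(j-1)`, `B = b^(j-1)`), then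
`∑_{u₁} PW(w'(u₁)) ≤ b^(j₁-j₂) C b^(j₂) κ^(j₂)` (`sum_PW_inv_le` with `K = b^(j₁-j₂)`, `x u = N - rv b j₁ u`, `card_rv_class_le`), there are `b^(j₁-1)` values `u₁`. -/
theorem c2_small (b : ℕ) (hb : 2 ≤ b) : ∃ κ C : ℝ, 0 < κ ∧ κ < 1 ∧ 0 < C ∧ ∀ (j₁ j₂ l : ℕ), 1 ≤ j₂ → j₂ ≤ j₁ → 1 ≤ l → l < b →
    ∀ χ : DirichletCharacter ℂ (QQ b (j₁ + j₂)), ¬ χ.FactorsThrough (QQ b (j₁ + j₂ - 1)) →
    ∀ (N : ℤ) (Z : ℕ → ℤ) (z : ℤ), IsCoprime (N - l) b →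
    (∀ u, Z u ≡ N - rv b (j₁ + j₂) u [ZMOD (b ^ (j₁ + j₂) : ℤ)]) → (∀ u, Z u ≡ z [ZMOD (D0 b : ℤ)]) →
    ∀ (lam : ℝ) (W : ℝ → ℝ), (∀ s, |W s| ≤ 1) → (∀ s t, |W s - W t| ≤ |s - t|) →
    ‖∑ u ∈ Ico (l * b ^ (j₁ + j₂ - 1)) ((l + 1) * b ^ (j₁ + j₂ - 1)), χ ((Z u : ℤ) : ZMod (QQ b (j₁ + j₂))) *
      ∫ y in (u : ℝ)..(u + 1), ((W (y / b ^ (j₁ + j₂ - 1)) / y : ℝ) : ℂ) * (y : ℂ) ^ ((lam : ℂ) * Complex.I)‖ ≤
      C * κ ^ j₂ + C * (b : ℝ) ^ (-(j₁ : ℝ)) + C * |lam| * (b : ℝ) ^ (-(2 * j₁ : ℝ)) := by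
  obtain ⟨c₁, hc₁, hc₁1, hblock⟩ := block_theta b hb
  obtain ⟨κ, C₁, hκ, hκ1, hC₁, hPW⟩ := sum_PW_inv_le b hb c₁ hc₁ hc₁1
  have hβ : (2 : ℝ) ≤ b := by exact_mod_cast hb
  have hβ0 : (0 : ℝ) < b := by linarith
  have hβ1 : (1 : ℝ) ≤ b := by linarith
  refine ⟨κ, C₁ * b + 2 * (b : ℝ) ^ 2, hκ, hκ1, by positivity, ?_⟩
  intro j₁ j₂ l h2 h12 hl hlb χ hχ N Z z hco hZ hZ0 lam W hW1 hW2
  have h1 : 1 ≤ j₁ := h2.trans h12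
  obtain ⟨a, ha, hblk⟩ := chi_block b (D0 b) (QQ b (j₁ + j₂)) (QQ b (j₁ + j₂ - 1)) j₁ j₂ hb
    (K6_coprime_D0 b hb) (K6_D0_pos b hb) rfl rfl h12 h2 χ hχ
  set B : ℝ := (b : ℝ) ^ (j₁ + j₂ - 1) with hB
  have hB0 : 0 < B := by positivity
  have hBb : B * b = (b : ℝ) ^ j₁ * (b : ℝ) ^ j₂ := by
    rw [hB, ← pow_succ, ← pow_add]
    congr 1
    omega
  rw [sum_II_split b l j₁ j₂ (by omega) h1]
  set I₁ : Finset ℕ := Ico (l * b ^ (j₁ - 1)) ((l + 1) * b ^ (j₁ - 1)) with hI₁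
  have hlt : ∀ u ∈ I₁, u < b ^ j₁ := by
    intro u hu
    rw [hI₁, mem_Ico] at hu
    calc u < (l + 1) * b ^ (j₁ - 1) := hu.2
      _ ≤ b * b ^ (j₁ - 1) := Nat.mul_le_mul_right _ hlb
      _ = b ^ j₁ := by rw [← pow_succ']; congr 1; omega
  have hinv : ∀ u : ℕ, ∃ w' : ℤ, u ∈ I₁ → (N - rv b j₁ u) * w' ≡ 1 [ZMOD (b : ℤ) ^ j₂] := by
    intro u
    by_cases hu : u ∈ I₁
    · obtain ⟨p, q, hpq⟩ := (isCoprime_sub_rv b l j₁ u hb hlb h1 N hco hu).pow_right (n := j₂)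
      refine ⟨p, fun _ => ?_⟩
      apply Int.ModEq.symm
      rw [Int.modEq_iff_dvd]
      exact ⟨-q, by linear_combination hpq⟩
    · exact ⟨0, fun h => absurd h hu⟩
  choose w' hw' using hinv
  have hge : ∀ u ∈ I₁, B ≤ (u * b ^ j₂ : ℝ) := by
    intro u hu
    rw [hI₁, mem_Ico] at hu
    have h3 : b ^ (j₁ - 1) ≤ u := by
      calc b ^ (j₁ - 1) = 1 * b ^ (j₁ - 1) := (one_mul _).symm
        _ ≤ l * b ^ (j₁ - 1) := Nat.mul_le_mul_right _ hl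
        _ ≤ u := hu.1
    have h4 : (b : ℝ) ^ (j₁ - 1) ≤ u := by exact_mod_cast h3
    calc B = (b : ℝ) ^ (j₁ - 1) * (b : ℝ) ^ j₂ := by
          rw [hB, ← pow_add]
          congr 1
          omega
      _ ≤ u * b ^ j₂ := by gcongr
  have hB1 : 1 ≤ B := one_le_pow₀ hβ1
  have hrv0 : rv b j₂ 0 = 0 := by simp [rv, dg]
  -- every block
  have hterm : ∀ u₁ ∈ I₁, ‖∑ u₂ ∈ range (b ^ j₂), χ ((Z (u₁ * b ^ j₂ + u₂) : ℤ) : ZMod (QQ b (j₁ + j₂))) *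
      ∫ y in ((u₁ * b ^ j₂ + u₂ : ℕ) : ℝ)..((u₁ * b ^ j₂ + u₂ : ℕ) + 1),
      ((W (y / B) / y : ℝ) : ℂ) * (y : ℂ) ^ ((lam : ℂ) * Complex.I)‖ ≤
      (1 / B) * ((b : ℝ) ^ j₂ * PW b c₁ a j₂ (w' u₁)) +
      (b : ℝ) ^ j₂ * ((1 / B) * ((b : ℝ) ^ j₂ / B +
        |lam| * ((b : ℝ) ^ j₂) ^ 2 / B ^ 2 + (b : ℝ) ^ j₂ / B)) := by
    intro u₁ hu₁
    have hU := hge u₁ hu₁
    have hU1 : 1 ≤ u₁ * b ^ j₂ := by
      have := hB1.trans hU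
      exact_mod_cast this
    have hbl := block_C2 b hb c₁ a (w' u₁) j₁ j₂ u₁ hU1
      (fun u₂ => χ ((Z (u₁ * b ^ j₂ + u₂) : ℤ) : ZMod (QQ b (j₁ + j₂)))) (DirichletCharacter.norm_le_one _ _)
      (by
        intro u₂ hu₂
        refine hblk (Z (u₁ * b ^ j₂ + 0)) (Z (u₁ * b ^ j₂ + u₂)) (w' u₁) (rv b j₂ u₂) ?_ ?_ ?_
        · exact (hZ0 _).trans (hZ0 _).symm
        · have h3 := hZ (u₁ * b ^ j₂ + u₂)
          have h4 := hZ (u₁ * b ^ j₂ + 0)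
          rw [rv_append b j₁ j₂ u₁ u₂ (by omega) (hlt u₁ hu₁) hu₂] at h3
          rw [rv_append b j₁ j₂ u₁ 0 (by omega) (hlt u₁ hu₁) (by positivity), hrv0] at h4
          refine h3.trans ?_
          have h5 := (h4.symm).sub_right ((b : ℤ) ^ j₁ * (rv b j₂ u₂ : ℕ))
          refine Int.ModEq.trans (K6_modEq_of_eq ?_) h5
          push_cast
          ring
        · have h4 := hZ (u₁ * b ^ j₂ + 0)
          rw [rv_append b j₁ j₂ u₁ 0 (by omega) (hlt u₁ hu₁) (by positivity), hrv0] at h4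
          have h5 : Z (u₁ * b ^ j₂ + 0) ≡ N - rv b j₁ u₁ [ZMOD (b : ℤ) ^ j₂] := by
            refine (h4.of_dvd (pow_dvd_pow _ (by omega))).trans (K6_modEq_of_eq ?_)
            push_cast
            ring
          exact (h5.mul_right _).trans (hw' u₁ hu₁))
      (fun γ => hblock a (w' u₁) j₂ γ) B lam W hB0 hW1 hW2
    refine hbl.trans ?_
    have hP : 0 ≤ PW b c₁ a j₂ (w' u₁) := PW_nonneg b c₁ hc₁ hc₁1 _ _ _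
    have hU0 : 0 < (u₁ * b ^ j₂ : ℝ) := by linarith
    gcongr
  refine (norm_sum_le _ _).trans ((Finset.sum_le_sum hterm).trans ?_)
  rw [Finset.sum_add_distrib, ← Finset.mul_sum, ← Finset.mul_sum, Finset.sum_const, nsmul_eq_mul]
  have hcard : ((I₁.card : ℕ) : ℝ) = (b : ℝ) ^ (j₁ - 1) := by
    rw [hI₁, Nat.card_Ico, ← Nat.sub_mul, Nat.add_sub_cancel_left, one_mul]
    push_cast
    rfl
  have hsum := hPW a j₂ (b ^ (j₁ - j₂)) I₁ (fun u => N - rv b j₁ u) w' ha hw'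
    (fun w => card_rv_class_le b l j₁ j₂ hb hlb h1 h12 N w)
  rw [hcard]
  have hp1 : (0 : ℝ) < (b : ℝ) ^ j₁ := by positivity
  have hp2 : (0 : ℝ) < (b : ℝ) ^ j₂ := by positivity
  have e1 : ((b ^ (j₁ - j₂) : ℕ) : ℝ) * (b : ℝ) ^ j₂ = (b : ℝ) ^ j₁ := by
    push_cast
    rw [← pow_add]
    congr 1
    omega
  have e2 : (b : ℝ) ^ (j₁ - 1) * b = (b : ℝ) ^ j₁ := by
    rw [← pow_succ]
    congr 1
    omega
  have e3 : (b : ℝ) ^ (-(j₁ : ℝ)) = 1 / (b : ℝ) ^ j₁ := by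
    rw [Real.rpow_neg hβ0.le, Real.rpow_natCast, one_div]
  have e4 : (b : ℝ) ^ (-(2 * j₁ : ℝ)) = 1 / ((b : ℝ) ^ j₁) ^ 2 := by
    rw [Real.rpow_neg hβ0.le, one_div, mul_comm, Real.rpow_mul hβ0.le, Real.rpow_natCast]
    norm_num
  have e5 : B * b * (1 / B) = b := by field_simp
  rw [e3, e4]
  have hmain : 1 / B * ((b : ℝ) ^ j₂ * ∑ i ∈ I₁, PW b c₁ a j₂ (w' i)) ≤ C₁ * b * κ ^ j₂ := by
    calc 1 / B * ((b : ℝ) ^ j₂ * ∑ i ∈ I₁, PW b c₁ a j₂ (w' i))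
        ≤ 1 / B * ((b : ℝ) ^ j₂ * (((b ^ (j₁ - j₂) : ℕ) : ℝ) * (C₁ * (b : ℝ) ^ j₂ * κ ^ j₂))) := by
          gcongr
      _ = 1 / B * ((b : ℝ) ^ j₂ * ((((b ^ (j₁ - j₂) : ℕ) : ℝ) * (b : ℝ) ^ j₂) * (C₁ * κ ^ j₂))) := by ring
      _ = 1 / B * (((b : ℝ) ^ j₁ * (b : ℝ) ^ j₂) * (C₁ * κ ^ j₂)) := by rw [e1]; ring
      _ = (B * b * (1 / B)) * (C₁ * κ ^ j₂) := by rw [← hBb]; ring
      _ = C₁ * b * κ ^ j₂ := by rw [e5]; ring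
  have herr : (b : ℝ) ^ (j₁ - 1) * ((b : ℝ) ^ j₂ * ((1 / B) * ((b : ℝ) ^ j₂ / B +
        |lam| * ((b : ℝ) ^ j₂) ^ 2 / B ^ 2 + (b : ℝ) ^ j₂ / B))) =
      2 * b * (1 / (b : ℝ) ^ j₁) + b ^ 2 * |lam| * (1 / ((b : ℝ) ^ j₁) ^ 2) := by
    have e6 : B = (b : ℝ) ^ (j₁ - 1) * (b : ℝ) ^ j₂ := by
      rw [hB, ← pow_add]
      congr 1
      omega
    rw [← e2, e6]
    have hq1 : (0 : ℝ) < (b : ℝ) ^ (j₁ - 1) := by positivity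
    field_simp
    ring
  rw [herr]
  have hk : 0 ≤ κ ^ j₂ := by positivity
  have hs1 : 0 ≤ 1 / (b : ℝ) ^ j₁ := by positivity
  have hs2 : 0 ≤ |lam| * (1 / ((b : ℝ) ^ j₁) ^ 2) := by positivity
  have hbb : 2 * (b : ℝ) ≤ C₁ * b + 2 * (b : ℝ) ^ 2 := by nlinarith [mul_pos hC₁ hβ0]
  have hbb2 : (b : ℝ) ^ 2 ≤ C₁ * b + 2 * (b : ℝ) ^ 2 := by nlinarith [mul_pos hC₁ hβ0]
  have hbb3 : C₁ * b ≤ C₁ * b + 2 * (b : ℝ) ^ 2 := by nlinarith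
  have t1 := mul_le_mul_of_nonneg_right hbb3 hk
  have t2 := mul_le_mul_of_nonneg_right hbb hs1
  have t3 := mul_le_mul_of_nonneg_right hbb2 hs2
  linarith [hmain, t1, t2, t3]

end Pool.Agent.LibHG31
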