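import Pool.Agent.LibHG31.K6

/-! ROW K6b: the coupling lemma `C2Stmt` from `c2_small` and `cell_large`. -/

namespace Pool.Agent.LibHG31

open Finset

private theorem K6b_triv (B lam u : ℝ) (W : ℝ → ℝ) (hu : 0 < u) (h1 : ∀ s, |W s| ≤ 1) :
    ‖∫ y in u..(u + 1), ((W (y / B) / y : ℝ) : ℂ) * (y : ℂ) ^ ((lam : ℂ) * Complex.I)‖ ≤ 1 / u := by
  have h := intervalIntegral.norm_integral_le_of_norm_le_const (a := u) (b := u + 1)
    (f := fun y : ℝ => ((W (y / B) / y : ℝ) : ℂ) * (y : ℂ) ^ ((lam : ℂ) * Complex.I))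
    (C := 1 / u) ?_
  · refine h.trans ?_
    rw [add_sub_cancel_left, abs_one, mul_one]
  · intro y hy
    rw [Set.uIoc_of_le (by linarith)] at hy
    have hy0 : 0 < y := hu.trans hy.1
    have h2 : ‖(y : ℂ) ^ ((lam : ℂ) * Complex.I)‖ = 1 := by
      rw [Complex.norm_cpow_eq_rpow_re_of_pos hy0]
      simp
    rw [norm_mul, h2, mul_one, Complex.norm_real, Real.norm_eq_abs, abs_div, abs_of_pos hy0]
    calc |W (y / B)| / y ≤ 1 / y := div_le_div_of_nonneg_right (h1 _) hy0.le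
      _ ≤ 1 / u := one_div_le_one_div_of_le hu hy.1.le

private theorem K6b_card (b j l : ℕ) :
    (Ico (l * b ^ (j - 1)) ((l + 1) * b ^ (j - 1))).card = b ^ (j - 1) := by
  rw [Nat.card_Ico, ← Nat.sub_mul, Nat.add_sub_cancel_left, one_mul]

private theorem K6b_sum (b j l : ℕ) (E : ℝ) (F : ℕ → ℂ)
    (h : ∀ u ∈ Ico (l * b ^ (j - 1)) ((l + 1) * b ^ (j - 1)), ‖F u‖ ≤ E) :
    ‖∑ u ∈ Ico (l * b ^ (j - 1)) ((l + 1) * b ^ (j - 1)), F u‖ ≤ (b : ℝ) ^ (j - 1) * E := by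
  refine (norm_sum_le _ _).trans ((Finset.sum_le_sum h).trans ?_)
  rw [Finset.sum_const, K6b_card, nsmul_eq_mul, Nat.cast_pow]

/-- **C2**. Large `|lam| ≥ b^(5j/4)`: `cell_large` for every `u`, total `≤ b^(j-1) (2/|lam| + b^(-2(j-1)))`. `|lam| ≤ b^(5j/4)`, `j ≥ 4`: `c2_small` with `j₂ = j/4`,
`j₁ = j - j₂ ≥ 3j/4`: `|lam| b^(-2j₁) ≤ b^(-j/4)`. `j ≤ 3`: trivial bound `b^(j-1) · 1/b^(j-1)`, enlarge `C`. -/
theorem c2Stmt (b : ℕ) (hb : 2 ≤ b) : C2Stmt b := by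
  obtain ⟨κ, C0, hκ0, hκ1, hC0, hsmall⟩ := c2_small b hb
  have hbR : (2 : ℝ) ≤ b := by exact_mod_cast hb
  have hb0 : (0 : ℝ) < b := by linarith
  have hb1 : (1 : ℝ) < b := by linarith
  have hlog : 0 < Real.log b := Real.log_pos hb1
  obtain ⟨t, ht0, hκt⟩ : ∃ t : ℝ, 0 < t ∧ (b : ℝ) ^ (-t) = κ := by
    refine ⟨-(Real.log κ / Real.log b), ?_, ?_⟩
    · have := Real.log_neg hκ0 hκ1
      exact neg_pos.2 (div_neg_of_neg_of_pos this hlog)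
    · rw [Real.rpow_def_of_pos hb0, neg_neg, mul_div_cancel₀ _ hlog.ne', Real.exp_log hκ0]
  have hc0 : 0 < min (t / 4) (1 / 4) := lt_min (by linarith) (by norm_num)
  have hct : min (t / 4) (1 / 4) ≤ t / 4 := min_le_left _ _
  have hc4 : min (t / 4) (1 / 4) ≤ 1 / 4 := min_le_right _ _
  generalize min (t / 4) (1 / 4) = c at hc0 hct hc4
  refine ⟨c, C0 * (κ⁻¹ + 2) + 2 + b, hc0, by positivity, ?_⟩
  intro j l hj hl hlb χ hχ N Z z hN hZ hZz lam W h1 h2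
  have hjR : (1 : ℝ) ≤ j := by exact_mod_cast hj
  have hcj : c * j ≤ (j : ℝ) / 4 := by nlinarith
  have hcj0 : 0 ≤ c * j := by positivity
  have hmain : 0 < (b : ℝ) ^ (-(c * j)) := Real.rpow_pos_of_pos hb0 _
  have hexp : ∀ e : ℝ, e ≤ -(c * j) → (b : ℝ) ^ e ≤ (b : ℝ) ^ (-(c * j)) := fun e he =>
    Real.rpow_le_rpow_of_exponent_le hb1.le he
  have hBpos : 0 < (b : ℝ) ^ (j - 1) := by positivity
  have hB1 : 1 ≤ (b : ℝ) ^ (j - 1) := one_le_pow₀ hb1.le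
  have hBr : (b : ℝ) ^ (j - 1) = (b : ℝ) ^ ((j : ℝ) - 1) := by
    rw [← Real.rpow_natCast, Nat.cast_sub hj, Nat.cast_one]
  have hu1 : ∀ u ∈ Ico (l * b ^ (j - 1)) ((l + 1) * b ^ (j - 1)),
      (b : ℝ) ^ (j - 1) ≤ (u : ℝ) := by
    intro u hu
    have h3 : 1 * b ^ (j - 1) ≤ l * b ^ (j - 1) := Nat.mul_le_mul_right _ hl
    have h4 : b ^ (j - 1) ≤ u := by
      have h5 := (Finset.mem_Ico.1 hu).1
      omega
    exact_mod_cast h4
  have hχ1 : ∀ u : ℕ, ‖χ ((Z u : ℤ) : ZMod (QQ b j))‖ ≤ 1 := fun u => χ.norm_le_one _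
  have hκi : 0 < κ⁻¹ := inv_pos.2 hκ0
  by_cases hj4 : 4 ≤ j
  · by_cases hlam : |lam| ≤ (b : ℝ) ^ (5 * (j : ℝ) / 4)
    · obtain ⟨j₁, j₂, hjj, hj2, hj21, hj1r, hj2r⟩ : ∃ j₁ j₂ : ℕ, j = j₁ + j₂ ∧ 1 ≤ j₂ ∧ j₂ ≤ j₁ ∧
          3 * (j : ℝ) / 4 ≤ j₁ ∧ (j : ℝ) / 4 - 1 ≤ j₂ := by
        refine ⟨j - j / 4, j / 4, by omega, by omega, by omega, ?_, ?_⟩
        · have h3 : 3 * j ≤ 4 * (j - j / 4) := by omega
          have h4 : (3 : ℝ) * j ≤ 4 * ((j - j / 4 : ℕ) : ℝ) := by exact_mod_cast h3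
          linarith
        · have h3 : j ≤ 4 * (j / 4) + 3 := by omega
          have h4 : (j : ℝ) ≤ 4 * ((j / 4 : ℕ) : ℝ) + 3 := by exact_mod_cast h3
          linarith
      have h3 : κ ^ j₂ ≤ κ⁻¹ * (b : ℝ) ^ (-(c * j)) := by
        have h4 : κ ^ j₂ = (b : ℝ) ^ (-t * j₂) := by
          rw [← hκt, ← Real.rpow_natCast, ← Real.rpow_mul hb0.le]
        have h5 : κ⁻¹ = (b : ℝ) ^ t := by
          rw [← hκt, Real.rpow_neg hb0.le, inv_inv]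
        rw [h4, h5, ← Real.rpow_add hb0]
        refine Real.rpow_le_rpow_of_exponent_le hb1.le ?_
        nlinarith
      have h4 : (b : ℝ) ^ (-(j₁ : ℝ)) ≤ (b : ℝ) ^ (-(c * j)) := hexp _ (by linarith)
      have h5 : |lam| * (b : ℝ) ^ (-(2 * j₁ : ℝ)) ≤ (b : ℝ) ^ (-(c * j)) := by
        calc |lam| * (b : ℝ) ^ (-(2 * j₁ : ℝ))
            ≤ (b : ℝ) ^ (5 * (j : ℝ) / 4) * (b : ℝ) ^ (-(2 * j₁ : ℝ)) :=
              mul_le_mul_of_nonneg_right hlam (Real.rpow_nonneg hb0.le _)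
          _ = (b : ℝ) ^ (5 * (j : ℝ) / 4 + -(2 * j₁ : ℝ)) := (Real.rpow_add hb0 _ _).symm
          _ ≤ (b : ℝ) ^ (-(c * j)) := hexp _ (by linarith)
      subst hjj
      have h6 := hsmall j₁ j₂ l hj2 hj21 hl hlb χ hχ N Z z hN
        (fun u => by have := hZ u; exact_mod_cast this) hZz lam W h1 h2
      refine h6.trans ?_
      have h7 : C0 * κ ^ j₂ ≤ C0 * (κ⁻¹ * (b : ℝ) ^ (-(c * ((j₁ + j₂ : ℕ) : ℝ)))) :=
        mul_le_mul_of_nonneg_left h3 hC0.le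
      have h8 := mul_le_mul_of_nonneg_left h4 hC0.le
      have h9 := mul_le_mul_of_nonneg_left h5 hC0.le
      have h10 : 0 ≤ (2 + (b : ℝ)) * (b : ℝ) ^ (-(c * ((j₁ + j₂ : ℕ) : ℝ))) := by positivity
      nlinarith
    · push Not at hlam
      have hlam0 : 0 < |lam| := lt_trans (Real.rpow_pos_of_pos hb0 _) hlam
      have h3 : ∀ u ∈ Ico (l * b ^ (j - 1)) ((l + 1) * b ^ (j - 1)),
          ‖χ ((Z u : ℤ) : ZMod (QQ b j)) * ∫ y in (u : ℝ)..(u + 1),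
            ((W (y / b ^ (j - 1)) / y : ℝ) : ℂ) * (y : ℂ) ^ ((lam : ℂ) * Complex.I)‖ ≤
          2 / |lam| + 1 / ((b : ℝ) ^ (j - 1) * (b : ℝ) ^ (j - 1)) := by
        intro u hu
        have h4 := cell_large ((b : ℝ) ^ (j - 1)) lam u W hBpos (hB1.trans (hu1 u hu))
          (abs_pos.1 hlam0) h1 h2
        rw [norm_mul]
        refine (mul_le_of_le_one_left (norm_nonneg _) (hχ1 u)).trans (h4.trans ?_)
        have h5 : 1 / ((b : ℝ) ^ (j - 1) * u) ≤ 1 / ((b : ℝ) ^ (j - 1) * (b : ℝ) ^ (j - 1)) :=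
          one_div_le_one_div_of_le (by positivity) (mul_le_mul_of_nonneg_left (hu1 u hu) hBpos.le)
        linarith
      refine (K6b_sum b j l _ _ h3).trans ?_
      have h6 : (b : ℝ) ^ (j - 1) * (2 / |lam| + 1 / ((b : ℝ) ^ (j - 1) * (b : ℝ) ^ (j - 1))) =
          2 * ((b : ℝ) ^ (j - 1) / |lam|) + 1 / (b : ℝ) ^ (j - 1) := by
        field_simp
      rw [h6]
      have h7 : (b : ℝ) ^ (j - 1) / |lam| ≤ (b : ℝ) ^ (-(c * j)) := by
        rw [div_le_iff₀ hlam0]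
        calc (b : ℝ) ^ (j - 1) = (b : ℝ) ^ ((j : ℝ) - 1) := hBr
          _ ≤ (b : ℝ) ^ (-(c * j) + 5 * (j : ℝ) / 4) :=
              Real.rpow_le_rpow_of_exponent_le hb1.le (by linarith)
          _ = (b : ℝ) ^ (-(c * j)) * (b : ℝ) ^ (5 * (j : ℝ) / 4) := Real.rpow_add hb0 _ _
          _ ≤ (b : ℝ) ^ (-(c * j)) * |lam| := mul_le_mul_of_nonneg_left hlam.le hmain.le
      have h8 : 1 / (b : ℝ) ^ (j - 1) ≤ b * (b : ℝ) ^ (-(c * j)) := by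
        rw [hBr, one_div, ← Real.rpow_neg hb0.le]
        calc (b : ℝ) ^ (-((j : ℝ) - 1)) ≤ (b : ℝ) ^ (1 + -(c * j)) :=
              Real.rpow_le_rpow_of_exponent_le hb1.le (by linarith)
          _ = b * (b : ℝ) ^ (-(c * j)) := by rw [Real.rpow_add hb0, Real.rpow_one]
      have h9 : 0 ≤ C0 * (κ⁻¹ + 2) * (b : ℝ) ^ (-(c * j)) := by positivity
      nlinarith
  · have h3 : ∀ u ∈ Ico (l * b ^ (j - 1)) ((l + 1) * b ^ (j - 1)),
        ‖χ ((Z u : ℤ) : ZMod (QQ b j)) * ∫ y in (u : ℝ)..(u + 1),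
          ((W (y / b ^ (j - 1)) / y : ℝ) : ℂ) * (y : ℂ) ^ ((lam : ℂ) * Complex.I)‖ ≤
        1 / (b : ℝ) ^ (j - 1) := by
      intro u hu
      have hu0 : 0 < (u : ℝ) := lt_of_lt_of_le hBpos (hu1 u hu)
      have h4 := K6b_triv ((b : ℝ) ^ (j - 1)) lam u W hu0 h1
      rw [norm_mul]
      refine (mul_le_of_le_one_left (norm_nonneg _) (hχ1 u)).trans (h4.trans ?_)
      exact one_div_le_one_div_of_le hBpos (hu1 u hu)
    refine (K6b_sum b j l _ _ h3).trans ?_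
    have h6 : (b : ℝ) ^ (j - 1) * (1 / (b : ℝ) ^ (j - 1)) = 1 := by
      field_simp
    rw [h6]
    have hj3 : (j : ℝ) ≤ 3 := by
      have : j ≤ 3 := by omega
      exact_mod_cast this
    have h8 : 1 ≤ b * (b : ℝ) ^ (-(c * j)) := by
      calc (1 : ℝ) = (b : ℝ) ^ (0 : ℝ) := (Real.rpow_zero _).symm
        _ ≤ (b : ℝ) ^ (1 + -(c * j)) :=
            Real.rpow_le_rpow_of_exponent_le hb1.le (by linarith)
        _ = b * (b : ℝ) ^ (-(c * j)) := by rw [Real.rpow_add hb0, Real.rpow_one]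
    have h9 : 0 ≤ (C0 * (κ⁻¹ + 2) + 2) * (b : ℝ) ^ (-(c * j)) := by positivity
    nlinarith

end Pool.Agent.LibHG31
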