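import Pool.Agent.LibHG31.K4b
import Pool.Agent.LibHG31.K5
import Pool.Agent.LibHG31.KIface

/-! ROW K7a: `C2pStmt`, functions of low level. -/

namespace Pool.Agent.LibHG31

open Finset

/-- **low level**: `G` periodic mod `b^j`, `1 ≤ j ≤ M`. Plan: `sum_range_split` (m = j, n = M - j), `rv_div_add`; for fixed `v₁` the sum over `v₂` is
`∑_{i<b^(M-j)} W(η₁ - β i/q) (η₁ - β i/q)^(i lam)` by `sum_rv`, `η₁ = Y - rv b j v₁/b^j ≥ 1/2 + β` (`rv b j v₁ ≤ b^j - 1`), `β = b^(-j)`, `q = b^(M-j)`: `grid_sum_le`. -/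
theorem c2p_low (b j M : ℕ) (hb : 2 ≤ b) (hj : 1 ≤ j) (hjM : j ≤ M) (G : ℕ → ℂ) (hG : ∀ v, ‖G v‖ ≤ 1)
    (hper : ∀ v z, G (v + b ^ j * z) = G v) (Y lam : ℝ) (W : ℝ → ℝ) (hY : 3 / 2 ≤ Y) (hlam : lam ≠ 0)
    (h1 : ∀ s, |W s| ≤ 1) (h2 : ∀ s t, |W s - W t| ≤ |s - t|) :
    ‖∑ v ∈ range (b ^ M), G v * ((W (Y - rv b M v / b ^ M) : ℝ) : ℂ) *
      (((Y - rv b M v / b ^ M : ℝ)) : ℂ) ^ ((lam : ℂ) * Complex.I)‖ ≤
      (b : ℝ) ^ M * (1 / (b : ℝ) ^ j) + 2 * |lam| + 2 * Y * (b : ℝ) ^ M * (b : ℝ) ^ j / |lam| := by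
  obtain ⟨n, rfl⟩ := Nat.exists_eq_add_of_le hjM
  have hβ : (2 : ℝ) ≤ b := by exact_mod_cast hb
  have hb0 : (0 : ℝ) < b := by linarith
  have hb1 : (1 : ℝ) ≤ b := by linarith
  have hpj : (1 : ℝ) ≤ (b : ℝ) ^ j := one_le_pow₀ hb1
  have hpj0 : (0 : ℝ) < (b : ℝ) ^ j := by positivity
  have hpn0 : (0 : ℝ) < (b : ℝ) ^ n := by positivity
  have hl0 : 0 < |lam| := abs_pos.mpr hlam
  set β : ℝ := 1 / (b : ℝ) ^ j with hβdef
  have hβ0 : 0 < β := by positivity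
  have hβ1 : β ≤ 1 := by
    rw [hβdef, div_le_one hpj0]
    exact hpj
  set F : ℝ → ℂ := fun t => ((W t : ℝ) : ℂ) * ((t : ℝ) : ℂ) ^ ((lam : ℂ) * Complex.I) with hF
  rw [sum_range_split b j n (by omega)]
  set R : ℝ := ((b ^ n : ℕ) : ℝ) * β + 2 * |lam| * β + 2 * Y * ((b ^ n : ℕ) : ℝ) / (β * |lam|) with hR
  have hterm : ∀ v₁ ∈ range (b ^ j), ‖∑ v₂ ∈ range (b ^ n), G (v₁ + b ^ j * v₂) *
      ((W (Y - rv b (j + n) (v₁ + b ^ j * v₂) / b ^ (j + n)) : ℝ) : ℂ) *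
      (((Y - rv b (j + n) (v₁ + b ^ j * v₂) / b ^ (j + n) : ℝ)) : ℂ) ^ ((lam : ℂ) * Complex.I)‖ ≤ R := by
    intro v₁ hv₁
    have hv := mem_range.mp hv₁
    set η : ℝ := Y - rv b j v₁ / (b : ℝ) ^ j with hη
    have hrv : ((rv b j v₁ : ℕ) : ℝ) + 1 ≤ (b : ℝ) ^ j := by
      have := rv_lt b j v₁ (by omega)
      exact_mod_cast this
    have hrv0 : (0 : ℝ) ≤ ((rv b j v₁ : ℕ) : ℝ) := Nat.cast_nonneg _
    have hη1 : 1 / 2 + β ≤ η := by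
      have h3 : ((rv b j v₁ : ℕ) : ℝ) / (b : ℝ) ^ j + β ≤ 1 := by
        rw [hβdef, ← add_div, div_le_one hpj0]
        exact hrv
      rw [hη]
      linarith
    have hηY : η ≤ Y := by
      have : 0 ≤ ((rv b j v₁ : ℕ) : ℝ) / (b : ℝ) ^ j := by positivity
      rw [hη]
      linarith
    have e1 : ∑ v₂ ∈ range (b ^ n), G (v₁ + b ^ j * v₂) *
      ((W (Y - rv b (j + n) (v₁ + b ^ j * v₂) / b ^ (j + n)) : ℝ) : ℂ) *
      (((Y - rv b (j + n) (v₁ + b ^ j * v₂) / b ^ (j + n) : ℝ)) : ℂ) ^ ((lam : ℂ) * Complex.I) =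
      G v₁ * ∑ v₂ ∈ range (b ^ n), F (η - β * rv b n v₂ / ((b ^ n : ℕ) : ℝ)) := by
      rw [Finset.mul_sum]
      refine Finset.sum_congr rfl fun v₂ hv₂ => ?_
      have hv2 := mem_range.mp hv₂
      have e2 : Y - (rv b (j + n) (v₁ + b ^ j * v₂) : ℝ) / (b : ℝ) ^ (j + n) =
          η - β * rv b n v₂ / ((b ^ n : ℕ) : ℝ) := by
        rw [rv_div_add b j n v₁ v₂ (by omega) hv hv2, hη, hβdef]
        push_cast
        ring
      rw [e2, hper, mul_assoc]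
    rw [e1, sum_rv b n (by omega) (fun i => F (η - β * i / ((b ^ n : ℕ) : ℝ))), norm_mul]
    have h3 := grid_sum_le Y lam η β (b ^ n) W (Nat.one_le_pow _ _ (by omega)) hlam hβ0 hβ1 hη1 hηY h1 h2
    calc ‖G v₁‖ * ‖∑ i ∈ range (b ^ n), F (η - β * i / ((b ^ n : ℕ) : ℝ))‖ ≤ 1 * R :=
          mul_le_mul (hG _) h3 (norm_nonneg _) zero_le_one
      _ = R := one_mul _
  refine (norm_sum_le _ _).trans ((Finset.sum_le_sum hterm).trans (le_of_eq ?_))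
  rw [Finset.sum_const, card_range, nsmul_eq_mul, hR, hβdef]
  push_cast
  rw [pow_add]
  field_simp

end Pool.Agent.LibHG31
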