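import Pool.Agent.LibHG31.K2
import Pool.Agent.LibHG31.K3b
import Pool.Agent.LibHG31.K4b
import Pool.Agent.LibHG31.K5
import Pool.Agent.LibHG31.KIface

/-! ROW K7b (STRONG): `C2pStmt`, characters of high level. -/

namespace Pool.Agent.LibHG31

open Finset

/-- one block of digits: `v = v₁ + b^(j₁) v₂ + ..`, fixed `v₁` and fixed higher digits -/
theorem K7b_inner (b j₁ j₂ : ℕ) (hb : 2 ≤ b) (h2j : 2 ≤ j₁) (c : ℝ)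
    (hblock : ∀ (a W : ℤ) (m : ℕ) (θ : ℝ),
      ‖∑ u ∈ range (b ^ m), ee ((a * W / (b : ℝ) ^ m) * u - θ * rv b m u)‖ ≤ (b : ℝ) ^ m * PW b c a m W)
    (a w : ℤ) (η lam : ℝ) (W : ℝ → ℝ) (hη : 1 / 2 ≤ η) (h1 : ∀ s, |W s| ≤ 1)
    (h2 : ∀ s t, |W s - W t| ≤ |s - t|) (z : ℂ) (hz : ‖z‖ ≤ 1) :
    ‖∑ v₂ ∈ range (b ^ j₂), z * ee ((a : ℝ) * w * v₂ / (b : ℝ) ^ j₂) *
      (((W (η - 1 / (b : ℝ) ^ j₁ * (rv b j₂ v₂ / (b : ℝ) ^ j₂)) : ℝ) : ℂ) *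
      (((η - 1 / (b : ℝ) ^ j₁ * (rv b j₂ v₂ / (b : ℝ) ^ j₂) : ℝ)) : ℂ) ^ ((lam : ℂ) * Complex.I))‖ ≤
      (b : ℝ) ^ j₂ * PW b c a j₂ w +
        (b : ℝ) ^ j₂ * (1 / (b : ℝ) ^ j₁ + 4 * |lam| * (1 / (b : ℝ) ^ j₁) ^ 2) := by
  have hbR : (2 : ℝ) ≤ (b : ℝ) := by exact_mod_cast hb
  have hb0 : (0 : ℝ) < (b : ℝ) := by linarith
  set β : ℝ := 1 / (b : ℝ) ^ j₁ with hβ
  have hβ0 : 0 < β := by positivity
  have hβ4 : β ≤ 1 / 4 := by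
    rw [hβ]
    have h3 : (4 : ℝ) ≤ (b : ℝ) ^ j₁ := by
      calc (4 : ℝ) = 2 ^ 2 := by norm_num
        _ ≤ (b : ℝ) ^ 2 := by gcongr
        _ ≤ (b : ℝ) ^ j₁ := pow_le_pow_right₀ (by linarith) h2j
    exact one_div_le_one_div_of_le (by norm_num) h3
  have hη0 : 0 < η := by linarith
  set θ : ℝ := lam * β / (2 * Real.pi * η) / (b : ℝ) ^ j₂ with hθ
  -- the linearized terms
  have hterm : ∀ v₂ ∈ range (b ^ j₂), ‖z * ee ((a : ℝ) * w * v₂ / (b : ℝ) ^ j₂) *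
      (((W (η - β * (rv b j₂ v₂ / (b : ℝ) ^ j₂)) : ℝ) : ℂ) *
      (((η - β * (rv b j₂ v₂ / (b : ℝ) ^ j₂) : ℝ)) : ℂ) ^ ((lam : ℂ) * Complex.I)) -
      (z * (((W η : ℝ) : ℂ) * (η : ℂ) ^ ((lam : ℂ) * Complex.I))) *
        ee ((a * w / (b : ℝ) ^ j₂) * v₂ - θ * rv b j₂ v₂)‖ ≤ β + 4 * |lam| * β ^ 2 := by
    intro v₂ _
    have hV0 : (0 : ℝ) ≤ rv b j₂ v₂ / (b : ℝ) ^ j₂ := by positivity
    have hV1 : (rv b j₂ v₂ : ℝ) / (b : ℝ) ^ j₂ ≤ 1 := by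
      rw [div_le_one (by positivity)]
      have := rv_lt b j₂ v₂ (by omega)
      exact_mod_cast this.le
    have hp := point_linear lam η β (rv b j₂ v₂ / (b : ℝ) ^ j₂) W hη hβ0 hβ4 hV0 hV1 h1 h2
    have e : ee ((a * w / (b : ℝ) ^ j₂) * v₂ - θ * rv b j₂ v₂) =
        ee ((a : ℝ) * w * v₂ / (b : ℝ) ^ j₂) *
          ee (-(lam * β / (2 * Real.pi * η) * (rv b j₂ v₂ / (b : ℝ) ^ j₂))) := by
      rw [← ee_add]
      congr 1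
      rw [hθ]
      ring
    rw [e]
    have e2 : z * ee ((a : ℝ) * w * v₂ / (b : ℝ) ^ j₂) *
      (((W (η - β * (rv b j₂ v₂ / (b : ℝ) ^ j₂)) : ℝ) : ℂ) *
      (((η - β * (rv b j₂ v₂ / (b : ℝ) ^ j₂) : ℝ)) : ℂ) ^ ((lam : ℂ) * Complex.I)) -
      (z * (((W η : ℝ) : ℂ) * (η : ℂ) ^ ((lam : ℂ) * Complex.I))) *
        (ee ((a : ℝ) * w * v₂ / (b : ℝ) ^ j₂) *
          ee (-(lam * β / (2 * Real.pi * η) * (rv b j₂ v₂ / (b : ℝ) ^ j₂)))) =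
      (z * ee ((a : ℝ) * w * v₂ / (b : ℝ) ^ j₂)) *
      (((W (η - β * (rv b j₂ v₂ / (b : ℝ) ^ j₂)) : ℝ) : ℂ) *
      (((η - β * (rv b j₂ v₂ / (b : ℝ) ^ j₂) : ℝ)) : ℂ) ^ ((lam : ℂ) * Complex.I) -
      ((W η : ℝ) : ℂ) * (η : ℂ) ^ ((lam : ℂ) * Complex.I) *
          ee (-(lam * β / (2 * Real.pi * η) * (rv b j₂ v₂ / (b : ℝ) ^ j₂)))) := by ring
    rw [e2, norm_mul]
    have h3 : ‖z * ee ((a : ℝ) * w * v₂ / (b : ℝ) ^ j₂)‖ ≤ 1 := by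
      rw [norm_mul, norm_ee, mul_one]
      exact hz
    calc _ ≤ 1 * (β + 4 * |lam| * β ^ 2) := mul_le_mul h3 hp (norm_nonneg _) zero_le_one
      _ = _ := one_mul _
  have hmain : ‖∑ v₂ ∈ range (b ^ j₂), (z * (((W η : ℝ) : ℂ) * (η : ℂ) ^ ((lam : ℂ) * Complex.I))) *
        ee ((a * w / (b : ℝ) ^ j₂) * v₂ - θ * rv b j₂ v₂)‖ ≤ (b : ℝ) ^ j₂ * PW b c a j₂ w := by
    rw [← Finset.mul_sum, norm_mul]
    have h3 : ‖z * (((W η : ℝ) : ℂ) * (η : ℂ) ^ ((lam : ℂ) * Complex.I))‖ ≤ 1 := by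
      rw [norm_mul, norm_mul, norm_cpow_I η lam hη0, mul_one, Complex.norm_real, Real.norm_eq_abs]
      calc ‖z‖ * |W η| ≤ 1 * 1 := mul_le_mul hz (h1 η) (abs_nonneg _) zero_le_one
        _ = 1 := one_mul 1
    calc _ ≤ 1 * ((b : ℝ) ^ j₂ * PW b c a j₂ w) :=
          mul_le_mul h3 (hblock a w j₂ θ) (norm_nonneg _) zero_le_one
      _ = _ := one_mul _
  have hdiff : ‖∑ v₂ ∈ range (b ^ j₂), (z * ee ((a : ℝ) * w * v₂ / (b : ℝ) ^ j₂) *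
      (((W (η - β * (rv b j₂ v₂ / (b : ℝ) ^ j₂)) : ℝ) : ℂ) *
      (((η - β * (rv b j₂ v₂ / (b : ℝ) ^ j₂) : ℝ)) : ℂ) ^ ((lam : ℂ) * Complex.I)) -
      (z * (((W η : ℝ) : ℂ) * (η : ℂ) ^ ((lam : ℂ) * Complex.I))) *
        ee ((a * w / (b : ℝ) ^ j₂) * v₂ - θ * rv b j₂ v₂))‖ ≤
      (b : ℝ) ^ j₂ * (β + 4 * |lam| * β ^ 2) := by
    refine (norm_sum_le_of_le _ hterm).trans ?_
    rw [Finset.sum_const, card_range, nsmul_eq_mul]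
    push_cast
    exact le_rfl
  rw [Finset.sum_sub_distrib] at hdiff
  have h5 := norm_le_norm_add_norm_sub'
    (∑ v₂ ∈ range (b ^ j₂), z * ee ((a : ℝ) * w * v₂ / (b : ℝ) ^ j₂) *
      (((W (η - β * (rv b j₂ v₂ / (b : ℝ) ^ j₂)) : ℝ) : ℂ) *
      (((η - β * (rv b j₂ v₂ / (b : ℝ) ^ j₂) : ℝ)) : ℂ) ^ ((lam : ℂ) * Complex.I)))
    (∑ v₂ ∈ range (b ^ j₂), (z * (((W η : ℝ) : ℂ) * (η : ℂ) ^ ((lam : ℂ) * Complex.I))) *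
        ee ((a * w / (b : ℝ) ^ j₂) * v₂ - θ * rv b j₂ v₂))
  linarith

/-- **high level**, explicit error: `ψ₀` mod `b^(j₁+j₂)` not factoring through `b^(j₁+j₂-1)`, `1 ≤ j₂ ≤ j₁`, `j₁ ≥ 2`. `G v = ψ₀ v` on `v` prime to `b`, `0` else.
Plan: `v = v₁ + b^(j₁) v₂ + b^j v₃` (`sum_range_split` twice), `chi_block` with `D = 1`, `Z = v₁`, `Z' = v₁ + b^(j₁) v₂ + b^j v₃`, `s = -v₂`, `w'` an inverse of `v₁` mod `b^(j₂)`;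
`rv/b^M = V₁ + b^(-j) V₃ + b^(-j₁) V₂` (`rv_div_add` twice), `η = Y - V₁ - b^(-j) V₃ ≥ 1/2`, `β = b^(-j₁) ≤ 1/4`: `point_linear`, error `β + 4|lam|β²` for each of the `b^M` values;
main term: `‖∑_{v₂} ee((a w'/b^(j₂)) v₂ - θ rv b j₂ v₂)‖ ≤ b^(j₂) PW b c a j₂ w'` (`block_gamma`, `θ = lam β/(2π η b^(j₂))`), then `sum_PW_inv_le` over `v₁` (`K = b^(j₁-j₂)`, `card_class_le`)
and the trivial sum over `v₃ < b^(M-j)`. -/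
theorem c2p_high (b : ℕ) (hb : 2 ≤ b) : ∃ κ C : ℝ, 0 < κ ∧ κ < 1 ∧ 0 < C ∧ ∀ (j₁ j₂ M : ℕ), 1 ≤ j₂ → j₂ ≤ j₁ → 2 ≤ j₁ → j₁ + j₂ ≤ M →
    ∀ ψ₀ : DirichletCharacter ℂ (b ^ (j₁ + j₂)), ¬ ψ₀.FactorsThrough (b ^ (j₁ + j₂ - 1)) → ∀ G : ℕ → ℂ,
    (∀ v : ℕ, v.Coprime b → G v = ψ₀ (v : ZMod (b ^ (j₁ + j₂)))) → (∀ v : ℕ, ¬ v.Coprime b → G v = 0) →
    ∀ (Y lam : ℝ) (W : ℝ → ℝ), 3 / 2 ≤ Y → (∀ s, |W s| ≤ 1) → (∀ s t, |W s - W t| ≤ |s - t|) →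
    ‖∑ v ∈ range (b ^ M), G v * ((W (Y - rv b M v / b ^ M) : ℝ) : ℂ) *
      (((Y - rv b M v / b ^ M : ℝ)) : ℂ) ^ ((lam : ℂ) * Complex.I)‖ ≤
      (b : ℝ) ^ M * (C * κ ^ j₂ + 1 / (b : ℝ) ^ j₁ + 4 * |lam| / ((b : ℝ) ^ j₁) ^ 2) := by
  obtain ⟨c, hc0, hc1, hblock⟩ := block_gamma b hb
  obtain ⟨κ, C, hκ0, hκ1, hC, hsum⟩ := sum_PW_inv_le b hb c hc0 hc1
  refine ⟨κ, C, hκ0, hκ1, hC, ?_⟩
  intro j₁ j₂ M h1j h12 h2j hM ψ₀ hψ G hG hG0 Y lam W hY h1 h2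
  obtain ⟨n, rfl⟩ : ∃ n, M = (j₁ + j₂) + n := ⟨M - (j₁ + j₂), by omega⟩
  have hb1 : 1 ≤ b := by omega
  have hbR : (2 : ℝ) ≤ (b : ℝ) := by exact_mod_cast hb
  have hb0 : (0 : ℝ) < (b : ℝ) := by linarith
  obtain ⟨a, hba, hchi⟩ := chi_block b 1 (b ^ (j₁ + j₂)) (b ^ (j₁ + j₂ - 1)) j₁ j₂ hb
    (Nat.coprime_one_left b) one_pos (by ring) (by ring) h12 h1j ψ₀ hψ
  -- inverses
  have hinv : ∀ v : ℕ, ∃ w : ℤ, v.Coprime b → (v : ℤ) * w ≡ 1 [ZMOD (b : ℤ) ^ j₂] := by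
    intro v
    by_cases hv : v.Coprime b
    · have h3 : IsCoprime (v : ℤ) ((b : ℤ) ^ j₂) := by
        have : IsCoprime (v : ℤ) (b : ℤ) := Nat.isCoprime_iff_coprime.mpr hv
        exact this.pow_right
      obtain ⟨x, y, hxy⟩ := h3
      refine ⟨x, fun _ => ?_⟩
      refine (Int.modEq_iff_dvd.mpr ⟨y, ?_⟩)
      linear_combination -hxy
    · exact ⟨0, fun h => absurd h hv⟩
  choose y hy using hinv
  set F : ℕ → ℂ := fun v => G v * ((W (Y - rv b (j₁ + j₂ + n) v / b ^ (j₁ + j₂ + n)) : ℝ) : ℂ) *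
      (((Y - rv b (j₁ + j₂ + n) v / b ^ (j₁ + j₂ + n) : ℝ)) : ℂ) ^ ((lam : ℂ) * Complex.I) with hF
  have hsplit : ∑ v ∈ range (b ^ (j₁ + j₂ + n)), F v =
      ∑ v₁ ∈ range (b ^ j₁), ∑ v₃ ∈ range (b ^ n), ∑ v₂ ∈ range (b ^ j₂),
        F ((v₁ + b ^ j₁ * v₂) + b ^ (j₁ + j₂) * v₃) := by
    rw [sum_range_split b (j₁ + j₂) n hb1 F,
      sum_range_split b j₁ j₂ hb1 (fun u => ∑ v₃ ∈ range (b ^ n), F (u + b ^ (j₁ + j₂) * v₃))]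
    refine Finset.sum_congr rfl fun v₁ _ => ?_
    rw [Finset.sum_comm]
  rw [hsplit]
  set β : ℝ := 1 / (b : ℝ) ^ j₁ with hβ
  have hβ0 : 0 < β := by positivity
  -- bound for fixed `v₁`, `v₃`
  have hbound : ∀ v₁ ∈ range (b ^ j₁), ∀ v₃ ∈ range (b ^ n),
      ‖∑ v₂ ∈ range (b ^ j₂), F ((v₁ + b ^ j₁ * v₂) + b ^ (j₁ + j₂) * v₃)‖ ≤
      (if v₁.Coprime b then (b : ℝ) ^ j₂ * PW b c a j₂ (y v₁) else 0) +
        (b : ℝ) ^ j₂ * (β + 4 * |lam| * β ^ 2) := by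
    intro v₁ hv₁ v₃ hv₃
    rw [mem_range] at hv₁ hv₃
    by_cases hcop : v₁.Coprime b
    · rw [if_pos hcop]
      set η : ℝ := Y - rv b j₁ v₁ / (b : ℝ) ^ j₁ - 1 / (b : ℝ) ^ (j₁ + j₂) * (rv b n v₃ / (b : ℝ) ^ n)
        with hη
      have hηh : 1 / 2 ≤ η := by
        have e1 : (rv b j₁ v₁ : ℝ) + 1 ≤ (b : ℝ) ^ j₁ := by
          have := rv_lt b j₁ v₁ hb1
          exact_mod_cast this
        have e2 : (rv b n v₃ : ℝ) / (b : ℝ) ^ n ≤ 1 := by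
          rw [div_le_one (by positivity)]
          have := rv_lt b n v₃ hb1
          exact_mod_cast this.le
        have e3 : (rv b j₁ v₁ : ℝ) / (b : ℝ) ^ j₁ ≤ 1 - 1 / (b : ℝ) ^ j₁ := by
          have e4 : (1 : ℝ) - 1 / (b : ℝ) ^ j₁ = ((b : ℝ) ^ j₁ - 1) / (b : ℝ) ^ j₁ := by
            rw [sub_div, div_self (by positivity)]
          rw [e4]
          gcongr
          linarith
        have e5 : 1 / (b : ℝ) ^ (j₁ + j₂) ≤ 1 / (b : ℝ) ^ j₁ :=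
          one_div_le_one_div_of_le (by positivity) (pow_le_pow_right₀ (by linarith) (by omega))
        have e6 : 1 / (b : ℝ) ^ (j₁ + j₂) * (rv b n v₃ / (b : ℝ) ^ n) ≤ 1 / (b : ℝ) ^ j₁ * 1 :=
          mul_le_mul e5 e2 (by positivity) (by positivity)
        rw [hη]
        linarith
      have hi := K7b_inner b j₁ j₂ hb h2j c hblock a (y v₁) η lam W hηh h1 h2
        (ψ₀ ((v₁ : ℤ) : ZMod (b ^ (j₁ + j₂)))) (DirichletCharacter.norm_le_one _ _)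
      refine le_trans (le_of_eq ?_) hi
      congr 1
      refine Finset.sum_congr rfl fun v₂ hv₂ => ?_
      rw [mem_range] at hv₂
      have hu : v₁ + b ^ j₁ * v₂ < b ^ (j₁ + j₂) := by
        have e1 : v₁ + b ^ j₁ * v₂ < b ^ j₁ * (v₂ + 1) := by
          rw [mul_add, mul_one]
          omega
        have e2 : b ^ j₁ * (v₂ + 1) ≤ b ^ j₁ * b ^ j₂ := Nat.mul_le_mul_left _ hv₂
        rw [pow_add]
        omega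
      have hr : (rv b (j₁ + j₂ + n) ((v₁ + b ^ j₁ * v₂) + b ^ (j₁ + j₂) * v₃) : ℝ) /
          (b : ℝ) ^ (j₁ + j₂ + n) =
          (rv b j₁ v₁ / (b : ℝ) ^ j₁ + (1 / (b : ℝ) ^ j₁) * (rv b j₂ v₂ / (b : ℝ) ^ j₂)) +
            (1 / (b : ℝ) ^ (j₁ + j₂)) * (rv b n v₃ / (b : ℝ) ^ n) := by
        rw [rv_div_add b (j₁ + j₂) n _ _ hb1 hu hv₃, rv_div_add b j₁ j₂ _ _ hb1 hv₁ hv₂]
      have hY' : Y - (rv b (j₁ + j₂ + n) ((v₁ + b ^ j₁ * v₂) + b ^ (j₁ + j₂) * v₃) : ℝ) /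
          (b : ℝ) ^ (j₁ + j₂ + n) = η - 1 / (b : ℝ) ^ j₁ * (rv b j₂ v₂ / (b : ℝ) ^ j₂) := by
        rw [hr, hη]
        ring
      have hcop' : ((v₁ + b ^ j₁ * v₂) + b ^ (j₁ + j₂) * v₃).Coprime b := by
        have e1 : (v₁ + b ^ j₁ * v₂) + b ^ (j₁ + j₂) * v₃ =
            v₁ + b * (b ^ (j₁ - 1) * v₂ + b ^ (j₁ + j₂ - 1) * v₃) := by
          obtain ⟨i, rfl⟩ : ∃ i, j₁ = i + 1 := ⟨j₁ - 1, by omega⟩
          have e2 : i + 1 + j₂ - 1 = i + j₂ := by omega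
          have e3 : i + 1 - 1 = i := by omega
          rw [e2, e3]
          ring
        rw [e1, Nat.coprime_add_mul_left_left]
        exact hcop
      have hval : G ((v₁ + b ^ j₁ * v₂) + b ^ (j₁ + j₂) * v₃) =
          ψ₀ ((v₁ : ℤ) : ZMod (b ^ (j₁ + j₂))) * ee ((a : ℝ) * (y v₁) * v₂ / (b : ℝ) ^ j₂) := by
        rw [hG _ hcop']
        have e1 := hchi (v₁ : ℤ) (((v₁ + b ^ j₁ * v₂) + b ^ (j₁ + j₂) * v₃ : ℕ) : ℤ) (y v₁) (-(v₂ : ℤ))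
          (by
            refine Int.modEq_iff_dvd.mpr ?_
            simp)
          (by
            refine Int.modEq_iff_dvd.mpr ⟨-(v₃ : ℤ), ?_⟩
            push_cast
            ring)
          (hy v₁ hcop)
        rw [Int.cast_natCast] at e1
        rw [e1]
        congr 2
        push_cast
        ring
      simp only [hF]
      rw [hY', hval]
      ring
    · rw [if_neg hcop, zero_add]
      have hz : ∀ v₂ ∈ range (b ^ j₂), F ((v₁ + b ^ j₁ * v₂) + b ^ (j₁ + j₂) * v₃) = 0 := by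
        intro v₂ _
        have hcop' : ¬ ((v₁ + b ^ j₁ * v₂) + b ^ (j₁ + j₂) * v₃).Coprime b := by
          have e1 : (v₁ + b ^ j₁ * v₂) + b ^ (j₁ + j₂) * v₃ =
              v₁ + b * (b ^ (j₁ - 1) * v₂ + b ^ (j₁ + j₂ - 1) * v₃) := by
            obtain ⟨i, rfl⟩ : ∃ i, j₁ = i + 1 := ⟨j₁ - 1, by omega⟩
            have e2 : i + 1 + j₂ - 1 = i + j₂ := by omega
            have e3 : i + 1 - 1 = i := by omega
            rw [e2, e3]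
            ring
          rw [e1, Nat.coprime_add_mul_left_left]
          exact hcop
        simp only [hF]
        rw [hG0 _ hcop']
        simp
      rw [Finset.sum_eq_zero hz, norm_zero]
      positivity
  -- summation
  have htot : ‖∑ v₁ ∈ range (b ^ j₁), ∑ v₃ ∈ range (b ^ n), ∑ v₂ ∈ range (b ^ j₂),
        F ((v₁ + b ^ j₁ * v₂) + b ^ (j₁ + j₂) * v₃)‖ ≤
      ∑ v₁ ∈ range (b ^ j₁), (b : ℝ) ^ n *
        ((if v₁.Coprime b then (b : ℝ) ^ j₂ * PW b c a j₂ (y v₁) else 0) +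
        (b : ℝ) ^ j₂ * (β + 4 * |lam| * β ^ 2)) := by
    refine norm_sum_le_of_le _ fun v₁ hv₁ => ?_
    refine (norm_sum_le_of_le _ fun v₃ hv₃ => hbound v₁ hv₁ v₃ hv₃).trans ?_
    rw [Finset.sum_const, card_range, nsmul_eq_mul]
    push_cast
    exact le_rfl
  refine htot.trans ?_
  rw [← Finset.mul_sum, Finset.sum_add_distrib, ← Finset.sum_filter, ← Finset.mul_sum,
    Finset.sum_const, card_range, nsmul_eq_mul]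
  have hPW := hsum a j₂ (b ^ (j₁ - j₂)) ((range (b ^ j₁)).filter (fun v => v.Coprime b))
    (fun v => (v : ℤ)) y hba
    (fun s hs => hy s (mem_filter.mp hs).2)
    (by
      intro w
      refine le_trans (Finset.card_le_card ?_) (card_class_le b j₁ j₂ hb1 h12 w)
      intro s hs
      rw [mem_filter] at hs ⊢
      exact ⟨(mem_filter.mp hs.1).1, hs.2⟩)
  have e1 : (b : ℝ) ^ (j₁ - j₂) * (b : ℝ) ^ j₂ = (b : ℝ) ^ j₁ := by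
    rw [← pow_add]
    congr 1
    omega
  push_cast at hPW ⊢
  have e2 : (b : ℝ) ^ n * ((b : ℝ) ^ j₂ *
      ∑ v ∈ (range (b ^ j₁)).filter (fun v => v.Coprime b), PW b c a j₂ (y v)) ≤
      (b : ℝ) ^ (j₁ + j₂ + n) * (C * κ ^ j₂) := by
    calc _ ≤ (b : ℝ) ^ n * ((b : ℝ) ^ j₂ * ((b : ℝ) ^ (j₁ - j₂) * (C * (b : ℝ) ^ j₂ * κ ^ j₂))) := by
          gcongr
      _ = (b : ℝ) ^ n * (b : ℝ) ^ j₂ * ((b : ℝ) ^ (j₁ - j₂) * (b : ℝ) ^ j₂) * (C * κ ^ j₂) := by ring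
      _ = (b : ℝ) ^ (j₁ + j₂ + n) * (C * κ ^ j₂) := by
          rw [e1, pow_add, pow_add]
          ring
  have e3 : (b : ℝ) ^ n * ((b : ℝ) ^ j₁ * ((b : ℝ) ^ j₂ * (β + 4 * |lam| * β ^ 2))) =
      (b : ℝ) ^ (j₁ + j₂ + n) * (1 / (b : ℝ) ^ j₁ + 4 * |lam| / ((b : ℝ) ^ j₁) ^ 2) := by
    rw [hβ, pow_add, pow_add, one_div_pow]
    ring
  rw [mul_add, e3]
  calc _ ≤ (b : ℝ) ^ (j₁ + j₂ + n) * (C * κ ^ j₂) +
        (b : ℝ) ^ (j₁ + j₂ + n) * (1 / (b : ℝ) ^ j₁ + 4 * |lam| / ((b : ℝ) ^ j₁) ^ 2) := by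
        gcongr
    _ = _ := by ring

end Pool.Agent.LibHG31
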