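import Pool.Agent.LibHG31.K7
import Pool.Agent.LibHG31.K7b

/-! ROW K8: `C2pStmt`, assembly. -/

namespace Pool.Agent.LibHG31

open Finset

/-- the argument is at least `1/2` -/
theorem k8_half (b M v : ℕ) (hb : 2 ≤ b) (Y : ℝ) (hY : 3 / 2 ≤ Y) :
    1 / 2 ≤ Y - (rv b M v : ℝ) / (b : ℝ) ^ M := by
  have hb0 : (0 : ℝ) < (b : ℝ) ^ M := by
    have : (0 : ℝ) < b := by exact_mod_cast (by omega : 0 < b)
    positivity
  have h1 : (rv b M v : ℝ) / (b : ℝ) ^ M ≤ 1 := by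
    rw [div_le_one hb0]
    have := rv_lt b M v (by omega)
    exact_mod_cast this.le
  linarith

/-- the trivial bound -/
theorem k8_trivial (b M : ℕ) (hb : 2 ≤ b) (ψ : DirichletCharacter ℂ (b ^ M)) (Y lam : ℝ)
    (W : ℝ → ℝ) (hY : 3 / 2 ≤ Y) (h1 : ∀ s, |W s| ≤ 1) :
    ‖∑ v ∈ range (b ^ M), ψ (v : ZMod (b ^ M)) * ((W (Y - rv b M v / b ^ M) : ℝ) : ℂ) *
      (((Y - rv b M v / b ^ M : ℝ)) : ℂ) ^ ((lam : ℂ) * Complex.I)‖ ≤ (b : ℝ) ^ M := by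
  refine (norm_sum_le _ _).trans ?_
  have h2 : ∀ v ∈ range (b ^ M), ‖ψ (v : ZMod (b ^ M)) *
      ((W (Y - rv b M v / b ^ M) : ℝ) : ℂ) *
      (((Y - rv b M v / b ^ M : ℝ)) : ℂ) ^ ((lam : ℂ) * Complex.I)‖ ≤ 1 := by
    intro v _
    have h3 := k8_half b M v hb Y hY
    rw [norm_mul, norm_mul, norm_cpow_I _ _ (by linarith), mul_one, Complex.norm_real,
      Real.norm_eq_abs]
    exact mul_le_one₀ (DirichletCharacter.norm_le_one ψ _) (abs_nonneg _) (h1 _)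
  refine (Finset.sum_le_card_nsmul _ _ _ h2).trans ?_
  rw [Finset.card_range]
  simp

/-- powers of `L ≥ 1` -/
theorem k8_pow (L x y : ℝ) (hL : 1 ≤ L) (hxy : x ≤ y) : L ^ x ≤ L ^ y :=
  Real.rpow_le_rpow_of_exponent_le hL hxy

/-- the numbers not prime to `b` -/
theorem k8_nonunit (b M v : ℕ) (hM : 1 ≤ M) (ψ : DirichletCharacter ℂ (b ^ M))
    (hv : ¬ v.Coprime b) : ψ (v : ZMod (b ^ M)) = 0 := by
  apply MulChar.map_nonunit
  rw [ZMod.isUnit_iff_coprime]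
  intro h
  exact hv (Nat.Coprime.coprime_dvd_right (dvd_pow_self b (by omega)) h)

/-- low level -/
theorem k8_low (b : ℕ) (hb : 2 ≤ b) (M t : ℕ) (ht : 1 ≤ t) (htM : t ≤ M)
    (ψ : DirichletCharacter ℂ (b ^ M))
    (hper : ∀ v z : ℕ, v.Coprime b → ψ ((v + b ^ t * z : ℕ) : ZMod (b ^ M)) = ψ (v : ZMod (b ^ M)))
    (Y lam : ℝ) (W : ℝ → ℝ) (hY : 3 / 2 ≤ Y) (hY2 : Y ≤ b ^ 2 + 1) (hl1 : 1 ≤ |lam|)
    (hl2 : lam ^ 2 ≤ (b : ℝ) ^ M)
    (ht1 : (b : ℝ) ^ t ≤ |lam| ^ (4 / 5 : ℝ)) (ht2 : |lam| ^ (4 / 5 : ℝ) < (b : ℝ) ^ (t + 1))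
    (h1 : ∀ s, |W s| ≤ 1) (h2 : ∀ s t, |W s - W t| ≤ |s - t|) :
    ‖∑ v ∈ range (b ^ M), ψ (v : ZMod (b ^ M)) * ((W (Y - rv b M v / b ^ M) : ℝ) : ℂ) *
      (((Y - rv b M v / b ^ M : ℝ)) : ℂ) ^ ((lam : ℂ) * Complex.I)‖ ≤
        (b + 2 + 2 * (b ^ 2 + 1)) * (b : ℝ) ^ M * |lam| ^ (-(1 / 5) : ℝ) := by
  have hb0 : (0 : ℝ) < b := by exact_mod_cast (by omega : 0 < b)
  have hbM : (0 : ℝ) < (b : ℝ) ^ M := by positivity
  have hbt : (0 : ℝ) < (b : ℝ) ^ t := by positivity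
  have hL0 : 0 < |lam| := by linarith
  have hlam : lam ≠ 0 := abs_pos.1 hL0
  have hm := c2p_low b t M hb ht htM (fun v => ψ (v : ZMod (b ^ M)))
    (fun v => DirichletCharacter.norm_le_one ψ _) (by
      intro v z
      by_cases hv : v.Coprime b
      · exact hper v z hv
      · have hv2 : ¬ (v + b ^ t * z).Coprime b := by
          intro h
          apply hv
          obtain ⟨t', rfl⟩ : ∃ t', t = t' + 1 := ⟨t - 1, by omega⟩
          have h3 : v + b ^ (t' + 1) * z = v + b * (b ^ t' * z) := by ring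
          rw [h3, Nat.coprime_add_mul_left_left] at h
          exact h
        change ψ ((v + b ^ t * z : ℕ) : ZMod (b ^ M)) = ψ (v : ZMod (b ^ M))
        rw [k8_nonunit b M _ (by omega) ψ hv2, k8_nonunit b M _ (by omega) ψ hv])
    Y lam W hY hlam h1 h2
  refine hm.trans ?_
  set L := |lam| with hL
  have e1 : L ^ (4 / 5 : ℝ) * L ^ (-(4 / 5) : ℝ) = 1 := by
    rw [← Real.rpow_add hL0]; norm_num
  have e2 : L ^ (4 / 5 : ℝ) * L⁻¹ = L ^ (-(1 / 5) : ℝ) := by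
    rw [← Real.rpow_neg_one, ← Real.rpow_add hL0]; norm_num
  have p1 : 0 < L ^ (4 / 5 : ℝ) := Real.rpow_pos_of_pos hL0 _
  have p2 : 0 < L ^ (-(4 / 5) : ℝ) := Real.rpow_pos_of_pos hL0 _
  have p3 : 0 < L ^ (-(1 / 5) : ℝ) := Real.rpow_pos_of_pos hL0 _
  have q1 : L ^ (-(4 / 5) : ℝ) ≤ L ^ (-(1 / 5) : ℝ) := k8_pow _ _ _ hl1 (by norm_num)
  have q2 : L⁻¹ ≤ L ^ (-(1 / 5) : ℝ) := by
    rw [← Real.rpow_neg_one]
    exact k8_pow _ _ _ hl1 (by norm_num)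
  -- first term
  have a1 : (b : ℝ) ^ M * (1 / (b : ℝ) ^ t) ≤ b * (b : ℝ) ^ M * L ^ (-(1 / 5) : ℝ) := by
    have h3 : 1 / (b : ℝ) ^ t ≤ b * L ^ (-(4 / 5) : ℝ) := by
      rw [div_le_iff₀ hbt]
      calc (1 : ℝ) = L ^ (4 / 5 : ℝ) * L ^ (-(4 / 5) : ℝ) := e1.symm
        _ ≤ (b : ℝ) ^ (t + 1) * L ^ (-(4 / 5) : ℝ) := mul_le_mul_of_nonneg_right ht2.le p2.le
        _ = b * L ^ (-(4 / 5) : ℝ) * (b : ℝ) ^ t := by ring
    calc (b : ℝ) ^ M * (1 / (b : ℝ) ^ t) ≤ (b : ℝ) ^ M * (b * L ^ (-(4 / 5) : ℝ)) :=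
          mul_le_mul_of_nonneg_left h3 hbM.le
      _ ≤ (b : ℝ) ^ M * (b * L ^ (-(1 / 5) : ℝ)) :=
          mul_le_mul_of_nonneg_left (mul_le_mul_of_nonneg_left q1 hb0.le) hbM.le
      _ = _ := by ring
  -- second term
  have a2 : 2 * L ≤ 2 * (b : ℝ) ^ M * L ^ (-(1 / 5) : ℝ) := by
    have h3 : L * L ≤ (b : ℝ) ^ M := by
      rw [hL, abs_mul_abs_self, ← sq]
      exact hl2
    have h4 : L ≤ (b : ℝ) ^ M * L⁻¹ := by
      rw [← div_eq_mul_inv, le_div_iff₀ hL0]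
      exact h3
    have h5 : (b : ℝ) ^ M * L⁻¹ ≤ (b : ℝ) ^ M * L ^ (-(1 / 5) : ℝ) :=
      mul_le_mul_of_nonneg_left q2 hbM.le
    linarith
  -- third term
  have a3 : 2 * Y * (b : ℝ) ^ M * (b : ℝ) ^ t / L ≤
      2 * (b ^ 2 + 1) * (b : ℝ) ^ M * L ^ (-(1 / 5) : ℝ) := by
    have h3 : (b : ℝ) ^ t * L⁻¹ ≤ L ^ (-(1 / 5) : ℝ) := by
      rw [← e2]
      exact mul_le_mul_of_nonneg_right ht1 (inv_nonneg.2 hL0.le)
    calc 2 * Y * (b : ℝ) ^ M * (b : ℝ) ^ t / L = 2 * Y * (b : ℝ) ^ M * ((b : ℝ) ^ t * L⁻¹) := by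
          rw [div_eq_mul_inv]; ring
      _ ≤ 2 * Y * (b : ℝ) ^ M * L ^ (-(1 / 5) : ℝ) :=
          mul_le_mul_of_nonneg_left h3 (by positivity)
      _ ≤ 2 * (b ^ 2 + 1) * (b : ℝ) ^ M * L ^ (-(1 / 5) : ℝ) := by
          apply mul_le_mul_of_nonneg_right _ p3.le
          apply mul_le_mul_of_nonneg_right _ hbM.le
          linarith
  calc (b : ℝ) ^ M * (1 / (b : ℝ) ^ t) + 2 * L + 2 * Y * (b : ℝ) ^ M * (b : ℝ) ^ t / L ≤
      b * (b : ℝ) ^ M * L ^ (-(1 / 5) : ℝ) + 2 * (b : ℝ) ^ M * L ^ (-(1 / 5) : ℝ) +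
      2 * (b ^ 2 + 1) * (b : ℝ) ^ M * L ^ (-(1 / 5) : ℝ) := add_le_add (add_le_add a1 a2) a3
    _ = _ := by ring

/-- the exponent of `κ` -/
theorem k8_kappa (b : ℕ) (hb : 2 ≤ b) (κ : ℝ) (hκ : 0 < κ) (hκ1 : κ < 1) (L : ℝ) (hL : 1 ≤ L)
    (j₂ : ℕ) (h : L ^ (4 / 5 : ℝ) ≤ (b : ℝ) ^ (4 * j₂ + 3)) :
    κ ^ j₂ ≤ κ⁻¹ * L ^ (-(-Real.log κ / Real.log b / 5)) := by
  have hb1 : (1 : ℝ) < b := by exact_mod_cast (by omega : 1 < b)
  have hlb : 0 < Real.log b := Real.log_pos hb1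
  have hlk : Real.log κ < 0 := Real.log_neg hκ hκ1
  have hL0 : 0 < L := by linarith
  have hlL : 0 ≤ Real.log L := Real.log_nonneg hL
  rw [← Real.log_le_log_iff (by positivity) (by positivity), Real.log_pow,
    Real.log_mul (by positivity) (by positivity), Real.log_inv, Real.log_rpow hL0]
  have h3 := Real.log_le_log (by positivity) h
  rw [Real.log_rpow hL0, Real.log_pow] at h3
  push_cast at h3
  have h4 : Real.log L / Real.log b ≤ 5 * (j₂ + 1) := by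
    rw [div_le_iff₀ hlb]
    nlinarith
  have h5 : (-Real.log κ) * (Real.log L / Real.log b) ≤ (-Real.log κ) * (5 * (j₂ + 1)) :=
    mul_le_mul_of_nonneg_left h4 (by linarith)
  have h6 : -(-Real.log κ / Real.log b / 5) * Real.log L =
      -((-Real.log κ) * (Real.log L / Real.log b)) / 5 := by
    field_simp
  rw [h6]
  linarith

/-- high level -/
theorem k8_high (b : ℕ) (hb : 2 ≤ b) (κ C L : ℝ) (hκ : 0 < κ) (hκ1 : κ < 1) (hC : 0 < C)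
    (hL : 1 ≤ L) (j₁ j₂ : ℕ) (h12 : 3 * j₂ ≤ j₁) (h3 : j₁ ≤ 3 * j₂ + 3)
    (h : L ^ (4 / 5 : ℝ) ≤ (b : ℝ) ^ (j₁ + j₂)) (c : ℝ) (hc : c ≤ 1 / 5)
    (hc2 : c ≤ -Real.log κ / Real.log b / 5) :
    C * κ ^ j₂ + 1 / (b : ℝ) ^ j₁ + 4 * L / ((b : ℝ) ^ j₁) ^ 2 ≤ (C * κ⁻¹ + 5) * L ^ (-c) := by
  have hb1 : (1 : ℝ) < b := by exact_mod_cast (by omega : 1 < b)
  have hL0 : 0 < L := by linarith
  have hbj : 0 < (b : ℝ) ^ j₁ := by positivity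
  -- `b ^ j₁ ≥ L ^ (3/5)`
  have h4 : L ^ (3 / 5 : ℝ) ≤ (b : ℝ) ^ j₁ := by
    have h5 : (L ^ (3 / 5 : ℝ)) ^ 4 ≤ ((b : ℝ) ^ j₁) ^ 4 := by
      calc (L ^ (3 / 5 : ℝ)) ^ 4 = (L ^ (4 / 5 : ℝ)) ^ 3 := by
            rw [← Real.rpow_natCast, ← Real.rpow_natCast, ← Real.rpow_mul hL0.le,
              ← Real.rpow_mul hL0.le]
            norm_num
        _ ≤ ((b : ℝ) ^ (j₁ + j₂)) ^ 3 := pow_le_pow_left₀ (by positivity) h 3
        _ = (b : ℝ) ^ (3 * j₁ + 3 * j₂) := by rw [← pow_mul]; congr 1; ring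
        _ ≤ (b : ℝ) ^ (4 * j₁) := pow_le_pow_right₀ hb1.le (by omega)
        _ = ((b : ℝ) ^ j₁) ^ 4 := by rw [← pow_mul]; congr 1; ring
    exact le_of_pow_le_pow_left₀ (by norm_num) hbj.le h5
  have p3 : 0 < L ^ (3 / 5 : ℝ) := Real.rpow_pos_of_pos hL0 _
  have a1 : κ ^ j₂ ≤ κ⁻¹ * L ^ (-c) := by
    refine (k8_kappa b hb κ hκ hκ1 L hL j₂ (h.trans (pow_le_pow_right₀ hb1.le (by omega)))).trans ?_
    exact mul_le_mul_of_nonneg_left (k8_pow _ _ _ hL (by linarith)) (by positivity)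
  have a2 : 1 / (b : ℝ) ^ j₁ ≤ L ^ (-c) := by
    have h5 : 1 / (b : ℝ) ^ j₁ ≤ L ^ (-(3 / 5) : ℝ) := by
      rw [Real.rpow_neg hL0.le, ← one_div]
      exact one_div_le_one_div_of_le p3 h4
    exact h5.trans (k8_pow _ _ _ hL (by linarith))
  have a3 : 4 * L / ((b : ℝ) ^ j₁) ^ 2 ≤ 4 * L ^ (-c) := by
    have h5 : 4 * L / ((b : ℝ) ^ j₁) ^ 2 ≤ 4 * L / (L ^ (3 / 5 : ℝ)) ^ 2 :=
      div_le_div_of_nonneg_left (by positivity) (by positivity)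
        (pow_le_pow_left₀ p3.le h4 2)
    have h6 : 4 * L / (L ^ (3 / 5 : ℝ)) ^ 2 = 4 * L ^ (-(1 / 5) : ℝ) := by
      rw [div_eq_iff (by positivity), mul_assoc, ← Real.rpow_natCast, ← Real.rpow_mul hL0.le,
        ← Real.rpow_add hL0]
      norm_num
    rw [h6] at h5
    exact h5.trans (mul_le_mul_of_nonneg_left (k8_pow _ _ _ hL (by linarith)) (by norm_num))
  have a4 : C * κ ^ j₂ ≤ C * (κ⁻¹ * L ^ (-c)) := mul_le_mul_of_nonneg_left a1 hC.le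
  calc C * κ ^ j₂ + 1 / (b : ℝ) ^ j₁ + 4 * L / ((b : ℝ) ^ j₁) ^ 2 ≤
      C * (κ⁻¹ * L ^ (-c)) + L ^ (-c) + 4 * L ^ (-c) := add_le_add (add_le_add a4 a2) a3
    _ = _ := by ring

/-- **C2'**. `exists_level`; put `j = 0` in the first case. Small `|lam| ≤ b^20`: trivial bound `b^M` (`norm_cpow_I`, `Y - V ≥ 1/2`), enlarge `C`. Otherwise let
`t` be the largest integer with `b^t ≤ |lam|^(4/5)` (`t ≥ 1`; `t ≤ M` since `lam² ≤ b^M`). If `j ≤ t`: `ψ` is periodic mod `b^t` as a function on `ℕ` (it is `0` off the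
numbers prime to `b` if `M ≥ 1`): `c2p_low` with level `t`: `b^M b |lam|^(-4/5) + 2|lam| + 2 (b²+1) b^M |lam|^(-1/5)`, `2 |lam| ≤ 2 b^M/|lam|`. If `j > t`: `b^j ≥ |lam|^(4/5)`,
`j₂ = j/4`, `j₁ = j - j₂`: `c2p_high` with `κ^(j/4) ≤ κ^(-1) |lam|^(-c)`, `|lam| b^(-2j₁) ≤ b^(5j/4 - 3j/2)`. -/
theorem c2pStmt (b : ℕ) (hb : 2 ≤ b) : C2pStmt b := by
  obtain ⟨κ, C₁, hκ, hκ1, hC₁, hhigh⟩ := c2p_high b hb
  have hb1 : (1 : ℝ) < b := by exact_mod_cast (by omega : 1 < b)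
  have hb0 : (0 : ℝ) < b := by linarith
  have hlb : 0 < Real.log b := Real.log_pos hb1
  have hlk : Real.log κ < 0 := Real.log_neg hκ hκ1
  set c : ℝ := min (1 / 5) (-Real.log κ / Real.log b / 5) with hc
  have hc0 : 0 < c := lt_min (by norm_num) (by
    have := div_pos (neg_pos.2 hlk) hlb
    linarith)
  have hc1 : c ≤ 1 / 5 := min_le_left _ _
  have hc2 : c ≤ -Real.log κ / Real.log b / 5 := min_le_right _ _
  set C : ℝ := (b : ℝ) ^ 20 + (b + 2 + 2 * (b ^ 2 + 1)) + (C₁ * κ⁻¹ + 5) with hC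
  have hCa : (b : ℝ) ^ 20 ≤ C := by
    have : 0 < C₁ * κ⁻¹ := by positivity
    have : 0 < (b : ℝ) ^ 2 := by positivity
    rw [hC]; linarith
  have hCb : (b + 2 + 2 * (b ^ 2 + 1) : ℝ) ≤ C := by
    have : 0 < C₁ * κ⁻¹ := by positivity
    have : 0 < (b : ℝ) ^ 20 := by positivity
    rw [hC]; linarith
  have hCc : (C₁ * κ⁻¹ + 5 : ℝ) ≤ C := by
    have : 0 < (b : ℝ) ^ 2 := by positivity
    have : 0 < (b : ℝ) ^ 20 := by positivity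
    rw [hC]; linarith
  have hC0 : 0 < C := lt_of_lt_of_le (by positivity) hCa
  refine ⟨c, C, hc0, hC0, ?_⟩
  intro M ψ Y lam W hY hY2 hl1 hl2 h1 h2
  have hL0 : 0 < |lam| := by linarith
  have hbM : (0 : ℝ) < (b : ℝ) ^ M := by positivity
  have pc : 0 < |lam| ^ (-c) := Real.rpow_pos_of_pos hL0 _
  by_cases hsmall : |lam| ≤ (b : ℝ) ^ 20
  · -- trivial bound
    refine (k8_trivial b M hb ψ Y lam W hY h1).trans ?_
    have h3 : |lam| ^ c ≤ (b : ℝ) ^ 20 := by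
      calc |lam| ^ c ≤ |lam| ^ (1 : ℝ) := k8_pow _ _ _ hl1 (by linarith)
        _ = |lam| := Real.rpow_one _
        _ ≤ _ := hsmall
    have h4 : 1 ≤ C * |lam| ^ (-c) := by
      rw [Real.rpow_neg hL0.le, ← div_eq_mul_inv, le_div_iff₀ (Real.rpow_pos_of_pos hL0 _),
        one_mul]
      exact h3.trans hCa
    calc (b : ℝ) ^ M = (b : ℝ) ^ M * 1 := (mul_one _).symm
      _ ≤ (b : ℝ) ^ M * (C * |lam| ^ (-c)) := mul_le_mul_of_nonneg_left h4 hbM.le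
      _ = _ := by ring
  · push Not at hsmall
    have hL45 : (b : ℝ) ^ 16 < |lam| ^ (4 / 5 : ℝ) := by
      have h3 : (b : ℝ) ^ 16 = ((b : ℝ) ^ 20) ^ (4 / 5 : ℝ) := by
        rw [← Real.rpow_natCast, ← Real.rpow_natCast, ← Real.rpow_mul hb0.le]
        norm_num
      rw [h3]
      exact Real.rpow_lt_rpow (by positivity) hsmall (by norm_num)
    obtain ⟨t, ht1, ht2⟩ := exists_nat_pow_near
      (le_of_lt (lt_of_le_of_lt (one_le_pow₀ hb1.le) hL45)) hb1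
    have ht16 : 16 ≤ t := by
      have h3 : (b : ℝ) ^ 16 < (b : ℝ) ^ (t + 1) := hL45.trans ht2
      have h4 := (pow_lt_pow_iff_right₀ hb1).1 h3
      omega
    have htM : t ≤ M := by
      have h3 : (b : ℝ) ^ t ≤ (b : ℝ) ^ M := by
        calc (b : ℝ) ^ t ≤ |lam| ^ (4 / 5 : ℝ) := ht1
          _ ≤ |lam| ^ (2 : ℝ) := k8_pow _ _ _ hl1 (by norm_num)
          _ = lam ^ 2 := by
            rw [show (2 : ℝ) = ((2 : ℕ) : ℝ) by norm_num, Real.rpow_natCast, sq_abs]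
          _ ≤ _ := hl2
      exact (pow_le_pow_iff_right₀ hb1).1 h3
    have hlow : (∀ v z : ℕ, v.Coprime b →
        ψ ((v + b ^ t * z : ℕ) : ZMod (b ^ M)) = ψ (v : ZMod (b ^ M))) →
        ‖∑ v ∈ range (b ^ M), ψ (v : ZMod (b ^ M)) * ((W (Y - rv b M v / b ^ M) : ℝ) : ℂ) *
      (((Y - rv b M v / b ^ M : ℝ)) : ℂ) ^ ((lam : ℂ) * Complex.I)‖ ≤
        C * (b : ℝ) ^ M * |lam| ^ (-c) := by
      intro hper
      refine (k8_low b hb M t (by omega) htM ψ hper Y lam W hY hY2 hl1 hl2 ht1 ht2 h1 h2).trans ?_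
      have h3 : |lam| ^ (-(1 / 5) : ℝ) ≤ |lam| ^ (-c) := k8_pow _ _ _ hl1 (by linarith)
      have h4 : (b + 2 + 2 * (b ^ 2 + 1)) * (b : ℝ) ^ M ≤ C * (b : ℝ) ^ M :=
        mul_le_mul_of_nonneg_right hCb hbM.le
      exact mul_le_mul h4 h3 (Real.rpow_nonneg hL0.le _) (by positivity)
    have hcop : ∀ v : ℕ, v.Coprime b → IsCoprime ((v : ℕ) : ℤ) (b : ℤ) := fun v hv =>
      Nat.isCoprime_iff_coprime.2 hv
    have hcop2 : ∀ v z : ℕ, v.Coprime b → (v + b ^ t * z).Coprime b := by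
      intro v z hv
      obtain ⟨t', rfl⟩ : ∃ t', t = t' + 1 := ⟨t - 1, by omega⟩
      have h3 : v + b ^ (t' + 1) * z = v + b * (b ^ t' * z) := by ring
      rw [h3, Nat.coprime_add_mul_left_left]
      exact hv
    rcases exists_level b M hb ψ with h0 | ⟨j, ψ₀, hj1, hjM, hj2, hj3⟩
    · apply hlow
      intro v z hv
      have h3 := h0 _ (hcop _ hv)
      have h4 := h0 _ (hcop _ (hcop2 v z hv))
      rw [Int.cast_natCast] at h3 h4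
      rw [h3, h4]
    · by_cases hjt : j ≤ t
      · apply hlow
        intro v z hv
        have h3 := hj3 _ (hcop _ hv)
        have h4 := hj3 _ (hcop _ (hcop2 v z hv))
        rw [Int.cast_natCast, Int.cast_natCast] at h3 h4
        rw [h3, h4]
        congr 1
        rw [Nat.cast_add, Nat.cast_mul]
        have h5 : ((b ^ t : ℕ) : ZMod (b ^ j)) = 0 :=
          (ZMod.natCast_eq_zero_iff _ _).2 (pow_dvd_pow b hjt)
        rw [h5, zero_mul, add_zero]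
      · push Not at hjt
        obtain ⟨j₁, j₂, rfl, h12, h123⟩ : ∃ j₁ j₂, j = j₁ + j₂ ∧ 3 * j₂ ≤ j₁ ∧ j₁ ≤ 3 * j₂ + 3 :=
          ⟨j - j / 4, j / 4, by omega, by omega, by omega⟩
        have h3 := hhigh j₁ j₂ M (by omega) (by omega) (by omega) hjM ψ₀ hj2
          (fun v => ψ (v : ZMod (b ^ M))) (by
            intro v hv
            have h3 := hj3 _ (hcop _ hv)
            rw [Int.cast_natCast, Int.cast_natCast] at h3
            exact h3) (fun v hv => k8_nonunit b M v (by omega) ψ hv) Y lam W hY h1 h2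
        refine h3.trans ?_
        have h4 : |lam| ^ (4 / 5 : ℝ) ≤ (b : ℝ) ^ (j₁ + j₂) :=
          ht2.le.trans (pow_le_pow_right₀ hb1.le (by omega))
        have h5 := k8_high b hb κ C₁ |lam| hκ hκ1 hC₁ hl1 j₁ j₂ h12 h123 h4 c hc1 hc2
        calc (b : ℝ) ^ M * (C₁ * κ ^ j₂ + 1 / (b : ℝ) ^ j₁ + 4 * |lam| / ((b : ℝ) ^ j₁) ^ 2) ≤
            (b : ℝ) ^ M * ((C₁ * κ⁻¹ + 5) * |lam| ^ (-c)) :=
              mul_le_mul_of_nonneg_left h5 hbM.le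
          _ ≤ (b : ℝ) ^ M * (C * |lam| ^ (-c)) :=
              mul_le_mul_of_nonneg_left (mul_le_mul_of_nonneg_right hCc pc.le) hbM.le
          _ = _ := by ring

end Pool.Agent.LibHG31
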