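import Pool.Agent.LibHG31.Iface
import Pool.Agent.LibLargeSieve.Basic

/-!
# HG31 block TT: definitions and basic lemmas (all proved)
-/

namespace Pool.Agent.LibHG31.TT

open Finset
open scoped ComplexConjugate

/-! ### the additive character -/

theorem ee_eq (x : ℝ) : ee x = LSieve.e (x : UnitAddCircle) := by
  rw [LSieve.e_coe, ee]
  congr 1
  push_cast
  ring

theorem ee_add (x y : ℝ) : ee (x + y) = ee x * ee y := by
  rw [ee_eq, ee_eq, ee_eq, ← LSieve.e_add, AddCircle.coe_add]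

@[simp] theorem ee_zero : ee 0 = 1 := by
  rw [ee_eq, AddCircle.coe_zero, LSieve.e_zero]

@[simp] theorem norm_ee (x : ℝ) : ‖ee x‖ = 1 := by
  rw [ee_eq, LSieve.norm_e]

theorem ee_ne_zero (x : ℝ) : ee x ≠ 0 := by
  intro h
  have := norm_ee x
  rw [h] at this
  simp at this

theorem ee_neg (x : ℝ) : ee (-x) = conj (ee x) := by
  rw [ee_eq, ee_eq, AddCircle.coe_neg, LSieve.e_neg]

theorem conj_ee (x : ℝ) : conj (ee x) = ee (-x) := (ee_neg x).symm

theorem ee_mul_conj (x : ℝ) : ee x * conj (ee x) = 1 := by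
  rw [conj_ee, ← ee_add]
  simp

theorem ee_sub (x y : ℝ) : ee (x - y) = ee x * conj (ee y) := by
  rw [sub_eq_add_neg, ee_add, ee_neg]

@[simp] theorem ee_int (n : ℤ) : ee n = 1 := by
  have h : (((n : ℝ)) : UnitAddCircle) = 0 := by
    rw [AddCircle.coe_eq_zero_iff]
    exact ⟨n, by simp⟩
  rw [ee_eq, h, LSieve.e_zero]

@[simp] theorem ee_nat (n : ℕ) : ee n = 1 := by
  simpa using ee_int n

theorem ee_add_int (x : ℝ) (n : ℤ) : ee (x + n) = ee x := by
  rw [ee_add, ee_int, mul_one]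

theorem ee_add_nat (x : ℝ) (n : ℕ) : ee (x + n) = ee x := by
  rw [ee_add, ee_nat, mul_one]

/-- `e(n x) = e(x)^n` -/
theorem ee_nat_mul (n : ℕ) (x : ℝ) : ee (n * x) = ee x ^ n := by
  induction n with
  | zero => simp
  | succ n ih =>
    rw [show ((n + 1 : ℕ) : ℝ) * x = n * x + x by push_cast; ring, ee_add, ih, pow_succ]

theorem ee_sum {ι : Type*} (s : Finset ι) (f : ι → ℝ) : ee (∑ i ∈ s, f i) = ∏ i ∈ s, ee (f i) := by
  classical
  induction s using Finset.induction_on with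
  | empty => simp
  | insert a s ha ih => rw [sum_insert ha, prod_insert ha, ee_add, ih]

/-! ### the distance to the nearest integer -/

theorem nd_eq (x : ℝ) : nd x = ‖(x : UnitAddCircle)‖ := by
  rw [UnitAddCircle.norm_eq, nd]

theorem nd_nonneg (x : ℝ) : 0 ≤ nd x := abs_nonneg _

theorem nd_le_half (x : ℝ) : nd x ≤ 1 / 2 := by
  rw [nd_eq]
  exact LSieve.norm_le_half _

theorem nd_add_le (x y : ℝ) : nd (x + y) ≤ nd x + nd y := by
  rw [nd_eq, nd_eq, nd_eq, AddCircle.coe_add]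
  exact norm_add_le _ _

theorem nd_sub_le (x y : ℝ) : nd (x - y) ≤ nd x + nd y := by
  rw [nd_eq, nd_eq, nd_eq, AddCircle.coe_sub]
  exact norm_sub_le _ _

@[simp] theorem nd_neg (x : ℝ) : nd (-x) = nd x := by
  rw [nd_eq, nd_eq, AddCircle.coe_neg, norm_neg]

theorem nd_add_int (x : ℝ) (n : ℤ) : nd (x + n) = nd x := by
  have h : (((n : ℝ)) : UnitAddCircle) = 0 := by
    rw [AddCircle.coe_eq_zero_iff]
    exact ⟨n, by simp⟩
  rw [nd_eq, nd_eq, AddCircle.coe_add, h, add_zero]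

theorem nd_add_nat (x : ℝ) (n : ℕ) : nd (x + n) = nd x := by
  simpa using nd_add_int x n

theorem nd_sub_int (x : ℝ) (n : ℤ) : nd (x - n) = nd x := by
  have := nd_add_int x (-n)
  push_cast at this
  rwa [← sub_eq_add_neg] at this

theorem nd_sub_nat (x : ℝ) (n : ℕ) : nd (x - n) = nd x := by
  simpa using nd_sub_int x n

theorem nd_le_abs (x : ℝ) : nd x ≤ |x| := by
  rw [nd_eq]
  exact LSieve.norm_coe_le x

theorem nd_nat_mul_le (n : ℕ) (x : ℝ) : nd (n * x) ≤ n * nd x := by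
  induction n with
  | zero => simp [nd]
  | succ n ih =>
    rw [show ((n + 1 : ℕ) : ℝ) * x = n * x + x by push_cast; ring]
    refine (nd_add_le _ _).trans ?_
    push_cast
    linarith

theorem four_nd_le (x : ℝ) : 4 * nd x ≤ ‖ee x - 1‖ := by
  rw [ee_eq, nd_eq]
  exact LSieve.four_mul_norm_le _

theorem norm_ee_sub_one_le (x : ℝ) : ‖ee x - 1‖ ≤ 2 * Real.pi * nd x := by
  rw [ee_eq, nd_eq]
  exact LSieve.norm_e_sub_one_le _

/-! ### orthogonality -/

theorem ee_eq_one_iff (x : ℝ) : ee x = 1 ↔ nd x = 0 := by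
  constructor
  · intro h
    have h1 := four_nd_le x
    rw [h, sub_self, norm_zero] at h1
    linarith [nd_nonneg x]
  · intro h
    have h1 := norm_ee_sub_one_le x
    rw [h, mul_zero] at h1
    exact sub_eq_zero.1 (norm_le_zero_iff.1 h1)

theorem nd_eq_zero_iff (x : ℝ) : nd x = 0 ↔ ∃ n : ℤ, x = n := by
  constructor
  · intro h
    exact ⟨round x, by
      have : |x - round x| = 0 := h
      linarith [abs_eq_zero.1 this]⟩
  · rintro ⟨n, rfl⟩
    simp [nd]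

theorem orth (N : ℕ) (hN : 0 < N) (d : ℤ) :
    ∑ j ∈ range N, ee (d * j / N) = if (N : ℤ) ∣ d then (N : ℂ) else 0 := by
  have hN' : (N : ℝ) ≠ 0 := by positivity
  have h1 : ∀ j : ℕ, ee (d * j / N) = ee (d / N) ^ j := by
    intro j
    rw [← ee_nat_mul]
    congr 1
    field_simp
  simp_rw [h1]
  split_ifs with h
  · obtain ⟨k, rfl⟩ := h
    have : (((N : ℤ) * k : ℤ) : ℝ) / N = (k : ℤ) := by
      push_cast
      field_simp
    rw [this, ee_int]
    simp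
  · have hne : ee (d / N) ≠ 1 := by
      intro h2
      rw [ee_eq_one_iff, nd_eq_zero_iff] at h2
      obtain ⟨n, hn⟩ := h2
      apply h
      refine ⟨n, ?_⟩
      have : (d : ℝ) = N * n := by
        field_simp at hn
        linarith
      exact_mod_cast this
    rw [geom_sum_eq hne]
    have h3 : ee (d / N) ^ N = 1 := by
      rw [← ee_nat_mul]
      have : (N : ℝ) * (d / N) = (d : ℤ) := by field_simp
      rw [this, ee_int]
    rw [h3]
    simp

/-! ### the kernels -/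

/-- normalized Dirichlet kernel `φ_b(t) = |b^(-1) ∑_{d < b} e(d t)|` -/
noncomputable def ph (b : ℕ) (t : ℝ) : ℝ := ‖∑ d ∈ range b, ee (d * t)‖ / b

/-- phase of the digits below `L` -/
noncomputable def dp (b L : ℕ) (α : ℕ → ℝ) (k : ℕ) : ℝ := ∑ j ∈ range L, α j * dg b j k

/-- digital function: `w` (any function of the `K` lowest digits) times the phases of the digits
below `L` -/
noncomputable def gf (b K L : ℕ) (α : ℕ → ℝ) (w : ℕ → ℂ) (k : ℕ) : ℂ :=
  w (k % b ^ K) * ee (dp b L α k)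

/-- its normalized Fourier transform -/
noncomputable def FF (b K L : ℕ) (α : ℕ → ℝ) (w : ℕ → ℂ) (x : ℝ) : ℂ :=
  (∑ k ∈ range (b ^ L), gf b K L α w k * ee (-(k * x))) / (b : ℂ) ^ L

/-- the function of the theorem: prefix = digits `≥ L - u`, suffix = digits `< u` -/
noncomputable def fd (b u L : ℕ) (α : ℕ → ℝ) (ω : ℕ → ℕ → ℂ) (k : ℕ) : ℂ :=
  gf b u L α (ω (k / b ^ (L - u))) k

/-- smooth version of `min(X, 1/‖β‖)` -/
noncomputable def mm (X β : ℝ) : ℝ := X / (1 + X * nd β)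

/-- the constant of the two-level `ℓ¹` bound -/
noncomputable def kap (b : ℕ) : ℝ := 1 - 1 / (16 * (b : ℝ) ^ 2)

/-- the number of divisors -/
def tauR (n : ℕ) : ℝ := n.divisors.card

/-- the window product, with the constant `1/(2 b^3)` -/
noncomputable def WW (b : ℕ) (α : ℕ → ℝ) (j₁ j₂ : ℕ) : ℝ := GG b (1 / (2 * (b : ℝ) ^ 3)) α j₁ j₂

/-- the saving: window `[2 D u, 4 D u)` plus `2^(-u)` -/
noncomputable def TH (b D u : ℕ) (α : ℕ → ℝ) : ℝ := WW b α (2 * D * u) (4 * D * u) + (1 / 2) ^ u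

theorem kap_pos (b : ℕ) (hb : 2 ≤ b) : 63 / 64 ≤ kap b := by
  unfold kap
  have : (2 : ℝ) ≤ b := by exact_mod_cast hb
  have h1 : (64 : ℝ) ≤ 16 * (b : ℝ) ^ 2 := by nlinarith
  have h2 : 1 / (16 * (b : ℝ) ^ 2) ≤ 1 / 64 := one_div_le_one_div_of_le (by norm_num) h1
  linarith

theorem kap_lt_one (b : ℕ) (hb : 2 ≤ b) : kap b < 1 := by
  unfold kap
  have : (2 : ℝ) ≤ b := by exact_mod_cast hb
  have : (0 : ℝ) < 1 / (16 * (b : ℝ) ^ 2) := by positivity
  linarith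

theorem mm_nonneg (X β : ℝ) (hX : 0 ≤ X) : 0 ≤ mm X β := by
  unfold mm
  have := nd_nonneg β
  positivity

theorem mm_le (X β : ℝ) (hX : 0 ≤ X) : mm X β ≤ X := by
  unfold mm
  have := nd_nonneg β
  apply div_le_self hX
  nlinarith

theorem mm_le_inv (X β : ℝ) (hX : 0 ≤ X) (hβ : 0 < nd β) : mm X β ≤ 1 / nd β := by
  unfold mm
  have : 0 < 1 + X * nd β := by positivity
  rw [div_le_div_iff₀ this hβ]
  linarith

/-- each factor of the window product is in `[7/8, 1]`, for `b ≥ 2` -/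
theorem factor_mem (b : ℕ) (hb : 2 ≤ b) (x : ℝ) :
    7 / 8 ≤ 1 - nd x ^ 2 / (2 * (b : ℝ) ^ 3) ∧ 1 - nd x ^ 2 / (2 * (b : ℝ) ^ 3) ≤ 1 := by
  have hb' : (2 : ℝ) ≤ b := by exact_mod_cast hb
  have h1 := nd_nonneg x
  have h2 := nd_le_half x
  have h3 : nd x ^ 2 ≤ 1 / 4 := by nlinarith
  have h4 : (8 : ℝ) ≤ (b : ℝ) ^ 3 := by
    calc (8 : ℝ) = 2 ^ 3 := by norm_num
      _ ≤ (b : ℝ) ^ 3 := by gcongr
  have h5 : nd x ^ 2 / (2 * (b : ℝ) ^ 3) ≤ 1 / 8 := by
    rw [div_le_iff₀ (by positivity)]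
    nlinarith
  have h6 : 0 ≤ nd x ^ 2 / (2 * (b : ℝ) ^ 3) := by positivity
  constructor <;> linarith

theorem WW_eq (b : ℕ) (α : ℕ → ℝ) (j₁ j₂ : ℕ) :
    WW b α j₁ j₂ = ∏ j ∈ Ico j₁ j₂, (1 - nd (b * α j - α (j + 1)) ^ 2 / (2 * (b : ℝ) ^ 3)) := by
  unfold WW GG
  refine prod_congr rfl fun j _ => ?_
  ring

theorem WW_nonneg (b : ℕ) (hb : 2 ≤ b) (α : ℕ → ℝ) (j₁ j₂ : ℕ) : 0 ≤ WW b α j₁ j₂ := by
  rw [WW_eq]
  exact prod_nonneg fun j _ => by linarith [(factor_mem b hb (b * α j - α (j + 1))).1]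

theorem WW_le_one (b : ℕ) (hb : 2 ≤ b) (α : ℕ → ℝ) (j₁ j₂ : ℕ) : WW b α j₁ j₂ ≤ 1 := by
  rw [WW_eq]
  exact prod_le_one (fun j _ => by linarith [(factor_mem b hb (b * α j - α (j + 1))).1])
    fun j _ => (factor_mem b hb (b * α j - α (j + 1))).2

theorem TH_pos (b D u : ℕ) (hb : 2 ≤ b) (α : ℕ → ℝ) : 0 < TH b D u α := by
  unfold TH
  have := WW_nonneg b hb α (2 * D * u) (4 * D * u)
  positivity

theorem TH_le_two (b D u : ℕ) (hb : 2 ≤ b) (α : ℕ → ℝ) : TH b D u α ≤ 2 := by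
  unfold TH
  have h1 := WW_le_one b hb α (2 * D * u) (4 * D * u)
  have h2 : ((1 : ℝ) / 2) ^ u ≤ 1 := pow_le_one₀ (by norm_num) (by norm_num)
  linarith

end Pool.Agent.LibHG31.TT
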