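import Pool.Agent.LibHG31.T0

/-! # HG31 block TT: basic facts on `ph`, digits, `gf`, `FF` (all proved) -/

namespace Pool.Agent.LibHG31.TT

open Finset
open scoped ComplexConjugate

/-! ### the kernel -/

theorem ph_nonneg (b : ℕ) (t : ℝ) : 0 ≤ ph b t := by
  unfold ph
  positivity

theorem ph_le_one (b : ℕ) (t : ℝ) : ph b t ≤ 1 := by
  unfold ph
  apply div_le_one_of_le₀ _ (Nat.cast_nonneg b)
  refine (norm_sum_le _ _).trans ?_
  simp

theorem ph_add_int (b : ℕ) (t : ℝ) (n : ℤ) : ph b (t + n) = ph b t := by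
  unfold ph
  congr 2
  refine sum_congr rfl fun d _ => ?_
  have : (d : ℝ) * (t + n) = d * t + ((d * n : ℤ) : ℝ) := by push_cast; ring
  rw [this, ee_add_int]

theorem ph_sub_int (b : ℕ) (t : ℝ) (n : ℤ) : ph b (t - n) = ph b t := by
  have := ph_add_int b t (-n)
  push_cast at this
  rwa [← sub_eq_add_neg] at this

theorem ph_sub_nat (b : ℕ) (t : ℝ) (n : ℕ) : ph b (t - n) = ph b t := by
  simpa using ph_sub_int b t n

/-! ### digits -/

theorem dg_lt (b j k : ℕ) (hb : 0 < b) : dg b j k < b := Nat.mod_lt _ hb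

/-- a digit below `L` depends only on `k % b^L` -/
theorem dg_mod (b j L k : ℕ) (hj : j < L) : dg b j (k % b ^ L) = dg b j k := by
  unfold dg
  obtain ⟨m, rfl⟩ : ∃ m, L = j + (m + 1) := ⟨L - j - 1, by omega⟩
  rw [pow_add, Nat.mod_mul_right_div_self, pow_succ', Nat.mod_mul_right_mod]

/-- the digits `≥ j` depend only on `k / b^j` -/
theorem dg_eq_of_div_eq (b j i k k' : ℕ) (hji : j ≤ i) (h : k / b ^ j = k' / b ^ j) :
    dg b i k = dg b i k' := by
  unfold dg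
  obtain ⟨m, rfl⟩ : ∃ m, i = j + m := ⟨i - j, by omega⟩
  rw [pow_add, ← Nat.div_div_eq_div_mul, h, Nat.div_div_eq_div_mul]

theorem dg_add_mul (b j L v c : ℕ) (hb : 0 < b) (hj : j < L) : dg b j (v + b ^ L * c) = dg b j v := by
  rw [← dg_mod b j L (v + b ^ L * c) hj, Nat.add_mul_mod_self_left, dg_mod b j L v hj]

/-- top digit of `v + b^L d` -/
theorem dg_top (b L v d : ℕ) (hb : 0 < b) (hv : v < b ^ L) (hd : d < b) : dg b L (v + b ^ L * d) = d := by
  unfold dg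
  rw [Nat.add_mul_div_left _ _ (by positivity), Nat.div_eq_of_lt hv, zero_add, Nat.mod_eq_of_lt hd]

theorem dp_mod (b L : ℕ) (α : ℕ → ℝ) (k : ℕ) : dp b L α (k % b ^ L) = dp b L α k := by
  unfold dp
  refine sum_congr rfl fun j hj => ?_
  rw [dg_mod b j L k (mem_range.1 hj)]

theorem mod_pow_mod (b K L k : ℕ) (hKL : K ≤ L) : k % b ^ L % b ^ K = k % b ^ K :=
  Nat.mod_mod_of_dvd _ (pow_dvd_pow _ hKL)

/-- `gf` is periodic mod `b^L` -/
theorem gf_mod (b K L : ℕ) (hKL : K ≤ L) (α : ℕ → ℝ) (w : ℕ → ℂ) (k : ℕ) :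
    gf b K L α w (k % b ^ L) = gf b K L α w k := by
  unfold gf
  rw [dp_mod, mod_pow_mod b K L k hKL]

theorem norm_gf_le (b K L : ℕ) (α : ℕ → ℝ) (w : ℕ → ℂ) (hw : ∀ v, ‖w v‖ ≤ 1) (k : ℕ) :
    ‖gf b K L α w k‖ ≤ 1 := by
  unfold gf
  rw [norm_mul, norm_ee, mul_one]
  exact hw _

theorem norm_fd_le (b u L : ℕ) (α : ℕ → ℝ) (ω : ℕ → ℕ → ℂ) (hω : ∀ c v, ‖ω c v‖ ≤ 1) (k : ℕ) :
    ‖fd b u L α ω k‖ ≤ 1 := norm_gf_le _ _ _ _ _ (fun v => hω _ v) k

/-- the split `k = v + m d`, `v < m`, `d < n` -/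
theorem sum_range_mul_split {M : Type*} [AddCommMonoid M] (m n : ℕ) (f : ℕ → M) :
    ∑ k ∈ range (m * n), f k = ∑ v ∈ range m, ∑ d ∈ range n, f (v + m * d) := by
  rw [sum_comm]
  induction n with
  | zero => simp
  | succ n ih =>
    rw [Nat.mul_succ, sum_range_add, ih, sum_range_succ]
    congr 1
    exact sum_congr rfl fun v _ => by rw [add_comm]

theorem sum_range_pow_succ {M : Type*} [AddCommMonoid M] (b L : ℕ) (f : ℕ → M) :
    ∑ k ∈ range (b ^ (L + 1)), f k = ∑ v ∈ range (b ^ L), ∑ d ∈ range b, f (v + b ^ L * d) := by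
  rw [pow_succ, sum_range_mul_split]

theorem sum_range_pow_add {M : Type*} [AddCommMonoid M] (b L n : ℕ) (f : ℕ → M) :
    ∑ k ∈ range (b ^ (L + n)), f k =
      ∑ v ∈ range (b ^ L), ∑ d ∈ range (b ^ n), f (v + b ^ L * d) := by
  rw [pow_add, sum_range_mul_split]

theorem gf_succ (b K L : ℕ) (hb : 0 < b) (hKL : K ≤ L) (α : ℕ → ℝ) (w : ℕ → ℂ) (v d : ℕ)
    (hv : v < b ^ L) (hd : d < b) :
    gf b K (L + 1) α w (v + b ^ L * d) = gf b K L α w v * ee (α L * d) := by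
  unfold gf
  have h1 : (v + b ^ L * d) % b ^ K = v % b ^ K := by
    obtain ⟨m, rfl⟩ : ∃ m, L = K + m := ⟨L - K, by omega⟩
    rw [pow_add, mul_assoc, Nat.add_mul_mod_self_left]
  have h2 : dp b (L + 1) α (v + b ^ L * d) = dp b L α v + α L * d := by
    unfold dp
    rw [sum_range_succ, dg_top b L v d hb hv hd]
    congr 1
    refine sum_congr rfl fun j hj => ?_
    rw [dg_add_mul b j L v d hb (mem_range.1 hj)]
  rw [h1, h2, ee_add, mul_assoc]

end Pool.Agent.LibHG31.TT
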