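import Mathlib

/-! # HG31 block TT, row T10: elementary number theory of the bad set -/

namespace Pool.Agent.LibHG31.TT

theorem mod_lift (b g lam s ρ : ℕ) (hb : 2 ≤ b) (hg : g ∣ b ^ lam) (hg' : ¬ g ∣ b ^ (lam - s))
    (hs : s ≤ lam) (r : ℕ) (hr0 : 0 < r) (hr : r < 2 ^ ρ) (E : ℕ) :
    ∃ p : ℕ, p.Prime ∧ p ∣ b ∧ ∀ (h h' : ℕ) (x x' : ℤ), |x| ≤ E → |x'| ≤ E →
      (g : ℤ) ∣ h * r - x → (g : ℤ) ∣ h' * r - x' → ∀ i : ℕ, 2 * E < 2 ^ i → i + s + ρ ≤ lam →
        h ≡ h' [MOD b ^ i] → h ≡ h' [MOD p * b ^ i] := by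
  have hb0 : b ≠ 0 := by omega
  have hbl : b ^ lam ≠ 0 := pow_ne_zero _ hb0
  have hg0 : g ≠ 0 := fun h => hbl (by rw [h] at hg; exact zero_dvd_iff.1 hg)
  have hbs : b ^ (lam - s) ≠ 0 := pow_ne_zero _ hb0
  obtain ⟨p, hp⟩ : ∃ p, (b ^ (lam - s)).factorization p < g.factorization p := by
    by_contra hcon
    push Not at hcon
    exact hg' ((Nat.factorization_le_iff_dvd hg0 hbs).1 hcon)
  have hpp : p.Prime := by
    by_contra hnp
    rw [Nat.factorization_eq_zero_of_not_prime g hnp] at hp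
    omega
  have hpg : p ∣ g := Nat.dvd_of_factorization_pos (by omega)
  have hpb : p ∣ b := hpp.dvd_of_dvd_pow (hpg.trans hg)
  have hv1 : 1 ≤ b.factorization p := (hpp.dvd_iff_one_le_factorization hb0).1 hpb
  rw [Nat.factorization_pow, Finsupp.smul_apply, smul_eq_mul] at hp
  refine ⟨p, hpp, hpb, ?_⟩
  intro h h' x x' hx hx' hgx hgx' i hE hi hmod
  set v := b.factorization p with hv
  set w := g.factorization p with hw
  have hvi : i * v + 1 + ρ ≤ w := by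
    have h1 : (i + ρ) * v ≤ (lam - s) * v := Nat.mul_le_mul_right _ (by omega)
    have h2 : ρ ≤ ρ * v := Nat.le_mul_of_pos_right _ hv1
    nlinarith
  -- divisibilities
  have hpw : p ^ w ∣ g := Nat.ordProj_dvd g p
  have hpv : p ^ (i * v) ∣ b ^ i := by
    rw [mul_comm, pow_mul]
    exact pow_dvd_pow_of_dvd (Nat.ordProj_dvd b p) i
  have hbi : ((b ^ i : ℕ) : ℤ) ∣ (h' : ℤ) - h := (Nat.modEq_iff_dvd).1 hmod
  have h1 : ((p ^ (i * v) : ℕ) : ℤ) ∣ (h' : ℤ) - h := (Int.natCast_dvd_natCast.2 hpv).trans hbi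
  have h2 : (g : ℤ) ∣ ((h' : ℤ) - h) * r - (x' - x) := by
    have e : ((h' : ℤ) - h) * r - (x' - x) = (h' * r - x') - (h * r - x) := by ring
    rw [e]
    exact dvd_sub hgx' hgx
  have h3 : ((p ^ (i * v) : ℕ) : ℤ) ∣ (g : ℤ) := by
    apply Int.natCast_dvd_natCast.2
    exact (pow_dvd_pow p (by omega)).trans hpw
  have h4 : ((p ^ (i * v) : ℕ) : ℤ) ∣ x' - x := by
    have a1 := h3.trans h2
    have a2 : ((p ^ (i * v) : ℕ) : ℤ) ∣ ((h' : ℤ) - h) * r := h1.mul_right _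
    have e : x' - x = ((h' : ℤ) - h) * r - (((h' : ℤ) - h) * r - (x' - x)) := by ring
    rw [e]
    exact dvd_sub a2 a1
  have h5 : x' - x = 0 := by
    apply Int.eq_zero_of_abs_lt_dvd h4
    have a1 : (2 : ℤ) ^ i ≤ ((p ^ (i * v) : ℕ) : ℤ) := by
      have : 2 ^ i ≤ p ^ (i * v) := by
        calc 2 ^ i ≤ p ^ i := Nat.pow_le_pow_left hpp.two_le i
          _ ≤ p ^ (i * v) := Nat.pow_le_pow_right hpp.pos (Nat.le_mul_of_pos_right _ hv1)
      exact_mod_cast this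
    have a2 : (2 * E : ℤ) < 2 ^ i := by exact_mod_cast hE
    have a3 : |x' - x| ≤ |x'| + |x| := abs_sub x' x
    linarith
  rw [h5, sub_zero] at h2
  have h6 : ((p ^ w : ℕ) : ℤ) ∣ ((h' : ℤ) - h) * r := (Int.natCast_dvd_natCast.2 hpw).trans h2
  rw [Nat.modEq_iff_dvd, Int.natCast_dvd]
  rw [Int.natCast_dvd] at hbi h6
  rw [Int.natAbs_mul, Int.natAbs_natCast] at h6
  set n := ((h' : ℤ) - h).natAbs with hn
  rcases Nat.eq_zero_or_pos n with hn0 | hn0
  · rw [hn0]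
    exact dvd_zero _
  have hκ : r.factorization p < ρ := by
    by_contra hcon
    push Not at hcon
    have a1 : p ^ r.factorization p ≤ r := Nat.le_of_dvd hr0 (Nat.ordProj_dvd r p)
    have a2 : 2 ^ ρ ≤ p ^ r.factorization p := by
      calc 2 ^ ρ ≤ 2 ^ r.factorization p := Nat.pow_le_pow_right (by norm_num) hcon
        _ ≤ p ^ r.factorization p := Nat.pow_le_pow_left hpp.two_le _
    omega
  have h7 : w ≤ n.factorization p + r.factorization p := by
    have a1 := (hpp.pow_dvd_iff_le_factorization (Nat.mul_ne_zero hn0.ne' hr0.ne')).1 h6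
    rwa [Nat.factorization_mul hn0.ne' hr0.ne', Finsupp.add_apply] at a1
  have h8 : p * b ^ i ≠ 0 := Nat.mul_ne_zero hpp.ne_zero (pow_ne_zero _ hb0)
  rw [← Nat.factorization_le_iff_dvd h8 hn0.ne']
  intro q
  rw [Nat.factorization_mul hpp.ne_zero (pow_ne_zero _ hb0), Finsupp.add_apply]
  have h9 : (b ^ i).factorization q ≤ n.factorization q :=
    (Nat.factorization_le_iff_dvd (pow_ne_zero _ hb0) hn0.ne').2 hbi q
  rcases eq_or_ne q p with rfl | hqp
  · rw [hpp.factorization_self, Nat.factorization_pow, Finsupp.smul_apply, smul_eq_mul, ← hv]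
    omega
  · rw [Nat.Prime.factorization hpp, Finsupp.single_apply, if_neg (Ne.symm hqp), zero_add]
    exact h9

end Pool.Agent.LibHG31.TT
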