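import Pool.Agent.LibHG31.T8
import Pool.Agent.LibHG31.T10

/-! # HG31 block TT, row T11: the mass of the bad set -/

namespace Pool.Agent.LibHG31.TT

open Finset

/-- even and odd pairs together -/
theorem prod_pairs (u : ℕ → ℝ) (j₁ n : ℕ) :
    (∏ l ∈ range n, u (j₁ + 2 * n - 1 - 2 * l)) * (∏ l ∈ range n, u (j₁ + 2 * n - 2 - 2 * l)) =
      ∏ j ∈ Ico j₁ (j₁ + 2 * n), u j := by
  induction n with
  | zero => simp
  | succ n ih =>
    rw [prod_range_succ', prod_range_succ']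
    have e1 : ∀ l ∈ range n, u (j₁ + 2 * (n + 1) - 1 - 2 * (l + 1)) = u (j₁ + 2 * n - 1 - 2 * l) := by
      intro l hl
      rw [mem_range] at hl
      congr 1
      omega
    have e2 : ∀ l ∈ range n, u (j₁ + 2 * (n + 1) - 2 - 2 * (l + 1)) = u (j₁ + 2 * n - 2 - 2 * l) := by
      intro l hl
      rw [mem_range] at hl
      congr 1
      omega
    rw [prod_congr rfl e1, prod_congr rfl e2]
    have e3 : j₁ + 2 * (n + 1) = j₁ + 2 * n + 1 + 1 := by ring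
    rw [e3, Nat.Ico_succ_right_eq_insert_Ico (by omega), prod_insert (by simp),
      Nat.Ico_succ_right_eq_insert_Ico (by omega), prod_insert (by simp), ← ih]
    have e4 : j₁ + 2 * n + 1 + 1 - 1 - 2 * 0 = j₁ + 2 * n + 1 := by omega
    have e5 : j₁ + 2 * n + 1 + 1 - 2 - 2 * 0 = j₁ + 2 * n := by omega
    rw [e4, e5]
    ring

open scoped Classical in
theorem mass_bad (b K lam s ρ j₁ n g r E : ℕ) (hb : 2 ≤ b) (α : ℕ → ℝ) (w : ℕ → ℂ)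
    (hw : ∀ v, ‖w v‖ ≤ 1) (hj : j₁ + 2 * n + 1 ≤ lam) (hK : K ≤ j₁) (hsρ : s + ρ ≤ j₁)
    (hE : 2 * E < 2 ^ (lam - 1 - j₁ - 2 * n)) (hs : s ≤ lam) (hg : g ∣ b ^ lam)
    (hg' : ¬ g ∣ b ^ (lam - s)) (hr0 : 0 < r) (hr : r < 2 ^ ρ) :
    ∑ h ∈ (range (b ^ lam)).filter (fun h : ℕ => ∃ x : ℤ, |x| ≤ E ∧ (g : ℤ) ∣ h * r - x),
      ‖FF b K lam α w (h / (b : ℝ) ^ lam)‖ ^ 2 ≤ Real.sqrt (WW b α j₁ (j₁ + 2 * n)) := by
  obtain ⟨p, hpp, hpb, hp⟩ := mod_lift b g lam s ρ hb hg hg' hs r hr0 hr E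
  set A : Set ℕ := {h : ℕ | ∃ x : ℤ, |x| ≤ E ∧ (g : ℤ) ∣ h * r - x} with hA
  set i₀ := lam - 1 - j₁ - 2 * n with hi₀
  set S := ∑ h ∈ (range (b ^ lam)).filter (fun h : ℕ => ∃ x : ℤ, |x| ≤ E ∧ (g : ℤ) ∣ h * r - x),
      ‖FF b K lam α w (h / (b : ℝ) ^ lam)‖ ^ 2 with hS
  have key : ∀ h ∈ A, ∀ h' ∈ A, ∀ i, i₀ ≤ i → i < i₀ + 1 + 2 * n →
      h ≡ h' [MOD b ^ i] → h ≡ h' [MOD p * b ^ i] := by
    rintro h ⟨x, hx, hgx⟩ h' ⟨x', hx', hgx'⟩ i hi1 hi2 hmod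
    refine hp h h' x x' hx hx' hgx hgx' i ?_ ?_ hmod
    · exact hE.trans_le (Nat.pow_le_pow_right (by norm_num) hi1)
    · omega
  set u : ℕ → ℝ := fun j => 1 - nd (b * α j - α (j + 1)) ^ 2 / (2 * (b : ℝ) ^ 3) with hu
  have h1 : S ≤ ∏ l ∈ range n, u (j₁ + 2 * n - 1 - 2 * l) := by
    have := tree b p K lam i₀ n hb hpp.two_le hpb (by omega) α w hw A
      (fun h hh h' hh' i hi1 hi2 => key h hh h' hh' i hi1 (by omega))
    refine this.trans (le_of_eq ?_)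
    refine prod_congr rfl fun l hl => ?_
    rw [mem_range] at hl
    rw [hu]
    have e1 : lam - 2 - i₀ - 2 * l = j₁ + 2 * n - 1 - 2 * l := by omega
    have e2 : lam - 1 - i₀ - 2 * l = j₁ + 2 * n - 1 - 2 * l + 1 := by omega
    rw [e1, e2]
  have h2 : S ≤ ∏ l ∈ range n, u (j₁ + 2 * n - 2 - 2 * l) := by
    have := tree b p K lam (i₀ + 1) n hb hpp.two_le hpb (by omega) α w hw A
      (fun h hh h' hh' i hi1 hi2 => key h hh h' hh' i (by omega) (by omega))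
    refine this.trans (le_of_eq ?_)
    refine prod_congr rfl fun l hl => ?_
    rw [mem_range] at hl
    rw [hu]
    have e1 : lam - 2 - (i₀ + 1) - 2 * l = j₁ + 2 * n - 2 - 2 * l := by omega
    have e2 : lam - 1 - (i₀ + 1) - 2 * l = j₁ + 2 * n - 2 - 2 * l + 1 := by omega
    rw [e1, e2]
  have hS0 : 0 ≤ S := sum_nonneg fun _ _ => by positivity
  apply Real.le_sqrt_of_sq_le
  rw [WW_eq, ← prod_pairs u j₁ n, sq]
  exact mul_le_mul h1 h2 hS0 (hS0.trans h1)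

end Pool.Agent.LibHG31.TT
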