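import Mathlib

/-!
# ROW T12 (HG31 block TT): removing a factor `B` from the fractions `l/m` (only Mathlib)

PLAN. Put `A(m) = (1/m) ∑_{l<m} Φ(l/m) ≥ 0`. For `m ≥ 1`, `d = gcd(m, B)`, `m' = m/d`, `B' = B/d` coprime to `m'`:
`B l/m = B' l/m'`, and `l ↦ B' l mod m'` takes each value mod `m'` exactly `d` times on `l < m`
(`l = l₀ + m' i`, `l₀ < m'`, `i < d`; `l₀ ↦ B' l₀ % m'` is a bijection of `range m'`), `Φ` is 1-periodic. So
`(1/m) ∑_{l<m} Φ(B l/m) = (d/m) ∑_{l'<m'} Φ(l'/m') = A(m')`. Hence the left side is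
`∑_{m ≤ M₀} A(m/gcd(m,B)) ≤ ∑_{m' ≤ M₀} A(m') #{d : d ∣ B}` (the map `m ↦ (m', d)` is injective, `d ∣ B`, `1 ≤ m' ≤ M₀`).
-/

namespace Pool.Agent.LibHG31.TT

open Finset

private theorem T12_split (m' d : ℕ) (F : ℕ → ℝ) : ∑ l ∈ range (m' * d), F l =
    ∑ i ∈ range d, ∑ l ∈ range m', F (m' * i + l) := by
  induction d with
  | zero => simp
  | succ d ih =>
    rw [Finset.sum_range_succ, ← ih, mul_add, mul_one, Finset.sum_range_add]

private theorem T12_perm (m' B' : ℕ) (hm : 0 < m') (hc : B'.Coprime m') (G : ℕ → ℝ) :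
    ∑ l ∈ range m', G (B' * l % m') = ∑ l ∈ range m', G l := by
  have hinj : Set.InjOn (fun l => B' * l % m') (range m') := by
    intro x hx y hy h
    simp only [coe_range, Set.mem_Iio] at hx hy
    have h1 : B' * x ≡ B' * y [MOD m'] := h
    have h2 := Nat.ModEq.cancel_left_of_coprime (by rw [Nat.gcd_comm]; exact hc) h1
    have h3 : x % m' = y % m' := h2
    rwa [Nat.mod_eq_of_lt hx, Nat.mod_eq_of_lt hy] at h3
  have himg : (range m').image (fun l => B' * l % m') = range m' := by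
    apply Finset.eq_of_subset_of_card_le
    · intro z hz
      obtain ⟨l, _, rfl⟩ := mem_image.1 hz
      exact mem_range.2 (Nat.mod_lt _ hm)
    · rw [card_image_of_injOn hinj]
  nth_rewrite 2 [← himg]
  rw [Finset.sum_image hinj]

private theorem T12_one (Φ : ℝ → ℝ) (h1 : ∀ (x : ℝ) (n : ℤ), Φ (x + n) = Φ x)
    (B m : ℕ) (hB : 0 < B) (hm : 0 < m) :
    (1 / (m : ℝ)) * ∑ l ∈ range m, Φ (B * (l / m)) =
      (1 / ((m / Nat.gcd m B : ℕ) : ℝ)) * ∑ l ∈ range (m / Nat.gcd m B), Φ (l / ((m / Nat.gcd m B : ℕ) : ℝ)) := by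
  set d := Nat.gcd m B with hd
  have hd0 : 0 < d := Nat.gcd_pos_of_pos_left _ hm
  obtain ⟨m', hm'⟩ := Nat.gcd_dvd_left m B
  obtain ⟨B', hB'⟩ := Nat.gcd_dvd_right m B
  rw [← hd] at hm' hB'
  have hm'0 : 0 < m' := Nat.pos_of_ne_zero (by rintro rfl; simp at hm'; omega)
  have hdiv : m / d = m' := by rw [hm']; exact Nat.mul_div_cancel_left _ hd0
  have hcop : B'.Coprime m' := by
    have h2 := Nat.coprime_div_gcd_div_gcd (m := m) (n := B) hd0
    rw [← hd, hdiv] at h2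
    have h3 : B / d = B' := by rw [hB']; exact Nat.mul_div_cancel_left _ hd0
    rw [h3] at h2
    exact h2.symm
  rw [hdiv]
  have hdr : (0 : ℝ) < d := by exact_mod_cast hd0
  have hmr : (0 : ℝ) < m' := by exact_mod_cast hm'0
  have hmr2 : (m : ℝ) = d * m' := by rw [hm']; push_cast; rfl
  have hBr : (B : ℝ) = d * B' := by rw [hB']; push_cast; rfl
  have hterm : ∀ l : ℕ, Φ (B * (l / m)) = Φ (((B' * l % m' : ℕ) : ℝ) / m') := by
    intro l
    have e : (B : ℝ) * (l / m) = ((B' * l % m' : ℕ) : ℝ) / m' + ((B' * l / m' : ℕ) : ℤ) := by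
      have h2 : ((B' * l : ℕ) : ℝ) = m' * (B' * l / m' : ℕ) + (B' * l % m' : ℕ) := by
        exact_mod_cast (Nat.div_add_mod (B' * l) m').symm
      rw [Nat.cast_mul] at h2
      rw [hBr, hmr2, Int.cast_natCast]
      generalize (B' * l / m' : ℕ) = k at h2 ⊢
      generalize (B' * l % m' : ℕ) = r at h2 ⊢
      field_simp
      linarith
    rw [e, h1]
  have hm2 : m = m' * d := by rw [hm', mul_comm]
  have hsum : ∑ l ∈ range m, Φ (B * (l / m)) = d * ∑ l ∈ range m', Φ ((l : ℝ) / m') := by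
    rw [Finset.sum_congr rfl fun l _ => hterm l]
    rw [hm2, T12_split]
    have h3 : ∀ i ∈ range d, ∑ l ∈ range m', Φ (((B' * (m' * i + l) % m' : ℕ) : ℝ) / m') =
        ∑ l ∈ range m', Φ ((l : ℝ) / m') := by
      intro i _
      have h4 : ∀ l ∈ range m', Φ (((B' * (m' * i + l) % m' : ℕ) : ℝ) / m') = Φ (((B' * l % m' : ℕ) : ℝ) / m') := by
        intro l _
        have h5 : B' * (m' * i + l) % m' = B' * l % m' := by
          rw [show B' * (m' * i + l) = B' * l + m' * (B' * i) by ring, Nat.add_mul_mod_self_left]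
        rw [h5]
      rw [Finset.sum_congr rfl h4]
      exact T12_perm m' B' hm'0 hcop (fun l => Φ ((l : ℝ) / m'))
    rw [Finset.sum_congr rfl h3, Finset.sum_const, card_range, nsmul_eq_mul]
  rw [hsum, hmr2]
  field_simp

theorem collapse (Φ : ℝ → ℝ) (h0 : ∀ x, 0 ≤ Φ x) (h1 : ∀ (x : ℝ) (n : ℤ), Φ (x + n) = Φ x)
    (B M₀ : ℕ) (hB : 0 < B) :
    ∑ m ∈ Icc 1 M₀, (1 / (m : ℝ)) * ∑ l ∈ range m, Φ (B * (l / m)) ≤
      B.divisors.card * ∑ m ∈ Icc 1 M₀, (1 / (m : ℝ)) * ∑ l ∈ range m, Φ (l / m) := by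
  set A : ℕ → ℝ := fun m => (1 / (m : ℝ)) * ∑ l ∈ range m, Φ (l / m) with hA
  have hA0 : ∀ m, 0 ≤ A m := by
    intro m
    rw [hA]
    exact mul_nonneg (by positivity) (Finset.sum_nonneg fun l _ => h0 _)
  have h2 : ∀ m ∈ Icc 1 M₀, (1 / (m : ℝ)) * ∑ l ∈ range m, Φ (B * (l / m)) = A (m / Nat.gcd m B) := by
    intro m hm
    rw [mem_Icc] at hm
    exact T12_one Φ h1 B m hB (by omega)
  rw [Finset.sum_congr rfl h2]
  have h3 : ∑ m ∈ Icc 1 M₀, A (m / Nat.gcd m B) =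
      ∑ p ∈ (Icc 1 M₀).image (fun m => (m / Nat.gcd m B, Nat.gcd m B)), A p.1 := by
    rw [Finset.sum_image]
    intro x hx y hy h
    have h4 : x / Nat.gcd x B = y / Nat.gcd y B := congrArg Prod.fst h
    have h5 : Nat.gcd x B = Nat.gcd y B := congrArg Prod.snd h
    have h6 := Nat.div_mul_cancel (Nat.gcd_dvd_left x B)
    have h7 := Nat.div_mul_cancel (Nat.gcd_dvd_left y B)
    rw [← h6, ← h7, h4, h5]
  rw [h3]
  have h4 : ∑ p ∈ (Icc 1 M₀).image (fun m => (m / Nat.gcd m B, Nat.gcd m B)), A p.1 ≤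
      ∑ p ∈ Icc 1 M₀ ×ˢ B.divisors, A p.1 := by
    apply Finset.sum_le_sum_of_subset_of_nonneg
    · intro p hp
      obtain ⟨m, hm, rfl⟩ := mem_image.1 hp
      rw [mem_Icc] at hm
      rw [mem_product, mem_Icc, Nat.mem_divisors]
      have hg : 0 < Nat.gcd m B := Nat.gcd_pos_of_pos_left _ (by omega)
      refine ⟨⟨?_, ?_⟩, Nat.gcd_dvd_right m B, by omega⟩
      · exact Nat.div_pos (Nat.le_of_dvd (by omega) (Nat.gcd_dvd_left m B)) hg
      · exact (Nat.div_le_self _ _).trans hm.2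
    · intro p _ _
      exact hA0 _
  refine h4.trans (le_of_eq ?_)
  rw [Finset.sum_product]
  simp only [Finset.sum_const, nsmul_eq_mul]
  rw [← Finset.mul_sum]

end Pool.Agent.LibHG31.TT
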