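import Pool.Agent.LibHG31.T0

/-!
# ROW T13 (HG31 block TT): l1 bound over all fractions from the large sieve

`LSieve.large_sieve` (Pool/Agent/LibLargeSieve/Basic.lean):
`(S : Finset ι) (x : ι → UnitAddCircle) (H R : ℕ) (hH : 0 < H) (hR : ∀ i ∈ S, #{j ∈ S | ‖x j - x i‖ < 1 / (H : ℝ)} ≤ R) (A : ℤ) (s : Finset ℤ)
 (hs : s ⊆ Ico A (A + H)) (f : ℤ → ℂ) : ∑ i ∈ S, ‖expSum s f (x i)‖ ^ 2 ≤ 9 * R * H * ∑ n ∈ s, ‖f n‖ ^ 2`, `expSum s f x = ∑ n ∈ s, f n * e (n • x)`.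

PLAN. `S(x) = ∑_{k<N} a k e(-k x)`. Let `Q` be the finset of reduced fractions: pairs `(q, a)`, `1 ≤ q ≤ M₀`, `a < q`, `a.Coprime q`, `x (q,a) = -(a/q)`.
Two different such points of the circle are at distance `≥ 1/(q q') ≥ 1/M₀^2 ≥ 1/N` (`nd (a/q - a'/q')` is a positive multiple of `1/(q q')`), so `R = 1`, `H = N`:
`∑_{(q,a)} ‖S(a/q)‖^2 ≤ 9 N ∑ ‖a k‖^2 ≤ 9 N^2`.
`(1/m) ∑_{l<m} ‖S(l/m)‖ = (1/m) ∑_{q ∣ m} ∑_{a<q, (a,q)=1} ‖S(a/q)‖` (`l/m` in lowest terms; `Nat.sum_div_divisors`, `Nat.filter_coprime..`, or a `sum_bij`).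
Sum over `m ≤ M₀`: the coefficient of `‖S(a/q)‖` is `∑_{m ≤ M₀, q ∣ m} 1/m = (1/q) ∑_{i ≤ M₀/q} 1/i ≤ (1/q)(1 + log M₀)` (`harmonic_le_one_add_log`).
Cauchy: `∑_{(q,a)} (1/q) ‖S‖ ≤ (∑_{(q,a)} 1/q^2)^(1/2) (9 N^2)^(1/2) ≤ (∑_{q ≤ M₀} 1/q)^(1/2) 3 N ≤ (1 + log M₀)^(1/2) 3 N ≤ 3 N (1 + log M₀)`.
-/

namespace Pool.Agent.LibHG31.TT

open Finset

/-- the index set of the double sum -/
private def t13P (M₀ : ℕ) : Finset (ℕ × ℕ) :=
  ((Icc 1 M₀) ×ˢ (range M₀)).filter fun p => p.2 < p.1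

/-- the fraction -/
private def t13g (p : ℕ × ℕ) : ℚ := (p.2 : ℚ) / (p.1 : ℚ)

private theorem t13_mem_P {M₀ : ℕ} {p : ℕ × ℕ} : p ∈ t13P M₀ ↔ 1 ≤ p.1 ∧ p.1 ≤ M₀ ∧ p.2 < p.1 := by
  unfold t13P
  simp only [mem_filter, mem_product, mem_Icc, mem_range]
  constructor
  · rintro ⟨⟨⟨h1, h2⟩, _⟩, h3⟩
    exact ⟨h1, h2, h3⟩
  · rintro ⟨h1, h2, h3⟩
    exact ⟨⟨⟨h1, h2⟩, by omega⟩, h3⟩

private theorem t13_sum_P (M₀ : ℕ) (f : ℕ → ℕ → ℝ) :
    ∑ m ∈ Icc 1 M₀, ∑ l ∈ range m, f m l = ∑ p ∈ t13P M₀, f p.1 p.2 := by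
  rw [t13P, sum_filter, sum_product]
  refine sum_congr rfl fun m hm => ?_
  rw [mem_Icc] at hm
  rw [← sum_filter]
  refine sum_congr ?_ fun _ _ => rfl
  ext l
  simp only [mem_range, mem_filter]
  omega

private theorem t13g_nonneg (p : ℕ × ℕ) : 0 ≤ t13g p := by
  unfold t13g; positivity

private theorem t13g_lt_one {M₀ : ℕ} {p : ℕ × ℕ} (hp : p ∈ t13P M₀) : t13g p < 1 := by
  rw [t13_mem_P] at hp
  unfold t13g
  rw [div_lt_one (by exact_mod_cast (by omega : 0 < p.1))]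
  exact_mod_cast hp.2.2

private theorem t13g_den_dvd {M₀ : ℕ} {p : ℕ × ℕ} (_hp : p ∈ t13P M₀) : (t13g p).den ∣ p.1 := by
  have h := Rat.den_dvd (p.2 : ℤ) (p.1 : ℤ)
  have h2 : t13g p = ((p.2 : ℤ) : ℚ) / ((p.1 : ℤ) : ℚ) := by simp [t13g]
  rw [h2]
  rw [Rat.divInt_eq_div] at h
  exact_mod_cast h

private theorem t13_harm (M₀ : ℕ) : ∑ i ∈ Icc 1 M₀, 1 / (i : ℝ) ≤ 1 + Real.log M₀ := by
  have h := harmonic_le_one_add_log M₀
  rw [harmonic_eq_sum_Icc] at h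
  push_cast at h
  simpa [one_div] using h

/-- the coefficient of one reduced fraction -/
private theorem t13_coef (M₀ : ℕ) (r : ℚ) :
    ∑ p ∈ (t13P M₀).filter (fun p => t13g p = r), 1 / (p.1 : ℝ) ≤ (1 / (r.den : ℝ)) * (1 + Real.log M₀) := by
  have hd : 0 < r.den := r.den_pos
  have h1 : ∑ p ∈ (t13P M₀).filter (fun p => t13g p = r), 1 / (p.1 : ℝ) =
      ∑ p ∈ (t13P M₀).filter (fun p => t13g p = r), (1 / (r.den : ℝ)) * (1 / ((p.1 / r.den : ℕ) : ℝ)) := by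
    refine sum_congr rfl fun p hp => ?_
    rw [mem_filter] at hp
    have hdv : r.den ∣ p.1 := by
      have := t13g_den_dvd hp.1
      rwa [hp.2] at this
    obtain ⟨c, hc⟩ := hdv
    have hp1 := (t13_mem_P.1 hp.1).1
    have hc0 : 0 < c := by
      rcases Nat.eq_zero_or_pos c with h | h
      · rw [h, mul_zero] at hc; omega
      · exact h
    rw [hc, Nat.mul_div_cancel_left _ hd]
    push_cast
    rw [one_div_mul_one_div]
  rw [h1, ← mul_sum]
  refine mul_le_mul_of_nonneg_left ?_ (by positivity)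
  refine le_trans ?_ (t13_harm M₀)
  have hinj : Set.InjOn (fun p : ℕ × ℕ => p.1 / r.den) ((t13P M₀).filter (fun p => t13g p = r)) := by
    intro p hp p' hp' h
    rw [mem_coe, mem_filter] at hp hp'
    have hdv : r.den ∣ p.1 := by
      have := t13g_den_dvd hp.1
      rwa [hp.2] at this
    have hdv' : r.den ∣ p'.1 := by
      have := t13g_den_dvd hp'.1
      rwa [hp'.2] at this
    have e1 : p.1 = p'.1 := by
      have h : p.1 / r.den = p'.1 / r.den := h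
      rw [← Nat.div_mul_cancel hdv, ← Nat.div_mul_cancel hdv', h]
    have hp1 := (t13_mem_P.1 hp.1).1
    have e2 : (p.2 : ℚ) / p.1 = (p'.2 : ℚ) / p.1 := by
      have h3 : t13g p = t13g p' := hp.2.trans hp'.2.symm
      unfold t13g at h3
      rw [h3, e1]
    have hne : (p.1 : ℚ) ≠ 0 := by exact_mod_cast (by omega : p.1 ≠ 0)
    have e3 : (p.2 : ℚ) = p'.2 := by
      field_simp at e2
      exact e2
    exact Prod.ext e1 (by exact_mod_cast e3)
  calc ∑ p ∈ (t13P M₀).filter (fun p => t13g p = r), 1 / ((p.1 / r.den : ℕ) : ℝ)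
      = ∑ i ∈ ((t13P M₀).filter (fun p => t13g p = r)).image (fun p : ℕ × ℕ => p.1 / r.den), 1 / (i : ℝ) := by
        rw [sum_image (fun x hx y hy h => hinj hx hy h)]
    _ ≤ ∑ i ∈ Icc 1 M₀, 1 / (i : ℝ) := by
        refine sum_le_sum_of_subset_of_nonneg ?_ fun i _ _ => by positivity
        intro i hi
        rw [mem_image] at hi
        obtain ⟨p, hp, rfl⟩ := hi
        rw [mem_filter] at hp
        have hdv : r.den ∣ p.1 := by
          have := t13g_den_dvd hp.1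
          rwa [hp.2] at this
        have hp1 := t13_mem_P.1 hp.1
        rw [mem_Icc]
        refine ⟨Nat.div_pos (Nat.le_of_dvd (by omega) hdv) hd, (Nat.div_le_self _ _).trans hp1.2.1⟩

/-- the finset of reduced fractions -/
private def t13F (M₀ : ℕ) : Finset ℚ := (t13P M₀).image t13g

private theorem t13F_den {M₀ : ℕ} {r : ℚ} (hr : r ∈ t13F M₀) : 0 ≤ r ∧ r < 1 ∧ r.den ≤ M₀ := by
  rw [t13F, mem_image] at hr
  obtain ⟨p, hp, rfl⟩ := hr
  refine ⟨t13g_nonneg p, t13g_lt_one hp, ?_⟩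
  have h := t13_mem_P.1 hp
  exact (Nat.le_of_dvd (by omega) (t13g_den_dvd hp)).trans h.2.1

/-- the separation -/
private theorem t13_sep {M₀ : ℕ} {r t : ℚ} (hr : r ∈ t13F M₀) (ht : t ∈ t13F M₀) (hne : r ≠ t) :
    1 / ((M₀ : ℝ) ^ 2) ≤ nd ((r : ℝ) - t) := by
  obtain ⟨hr0, hr1, hrd⟩ := t13F_den hr
  obtain ⟨ht0, ht1, htd⟩ := t13F_den ht
  have hpr : (0 : ℝ) < r.den := by exact_mod_cast r.den_pos
  have hpt : (0 : ℝ) < t.den := by exact_mod_cast t.den_pos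
  have hMr : (r.den : ℝ) ≤ M₀ := by exact_mod_cast hrd
  have hMt : (t.den : ℝ) ≤ M₀ := by exact_mod_cast htd
  unfold nd
  set n : ℤ := round ((r : ℝ) - t) with hn
  -- the integer
  have hz : ((r : ℝ) - t - n) * (r.den * t.den) = ((r.num * t.den - t.num * r.den - n * (r.den * t.den) : ℤ) : ℝ) := by
    have e1 : (r : ℝ) * r.den = r.num := by
      have := Rat.mul_den_eq_num r
      exact_mod_cast this
    have e2 : (t : ℝ) * t.den = t.num := by
      have := Rat.mul_den_eq_num t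
      exact_mod_cast this
    push_cast
    rw [← e1, ← e2]
    ring
  have hz0 : (r.num * t.den - t.num * r.den - n * (r.den * t.den) : ℤ) ≠ 0 := by
    intro h0
    rw [h0] at hz
    push_cast at hz
    have h1 : (r : ℝ) - t - n = 0 := by
      rcases mul_eq_zero.1 hz with h | h
      · exact h
      · exfalso
        have : (0 : ℝ) < r.den * t.den := by positivity
        linarith
    have h2 : (r : ℝ) - t = n := by linarith
    have h3 : r - t = (n : ℚ) := by exact_mod_cast h2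
    have h4 : n < 1 := by
      have : (n : ℚ) < 1 := by rw [← h3]; linarith
      exact_mod_cast this
    have h5 : -1 < n := by
      have : (-1 : ℚ) < n := by rw [← h3]; linarith
      exact_mod_cast this
    have h6 : n = 0 := by omega
    rw [h6] at h3
    push_cast at h3
    exact hne (sub_eq_zero.1 h3)
  have habs : (1 : ℝ) ≤ |(r : ℝ) - t - n| * (r.den * t.den) := by
    have h1 : (1 : ℤ) ≤ |(r.num * t.den - t.num * r.den - n * (r.den * t.den) : ℤ)| := Int.one_le_abs hz0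
    have h2 : (1 : ℝ) ≤ |((r.num * t.den - t.num * r.den - n * (r.den * t.den) : ℤ) : ℝ)| := by
      rw [← Int.cast_abs]
      exact_mod_cast h1
    rw [← hz, abs_mul, abs_of_pos (show (0 : ℝ) < r.den * t.den by positivity)] at h2
    exact h2
  have hM0 : (0 : ℝ) < M₀ := lt_of_lt_of_le hpr hMr
  rw [div_le_iff₀ (by positivity)]
  refine habs.trans ?_
  refine mul_le_mul_of_nonneg_left ?_ (abs_nonneg _)
  rw [sq]
  exact mul_le_mul hMr hMt hpt.le hM0.le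

/-- the sum of `1 / q ^ 2` over the reduced fractions -/
private theorem t13_sum_den (M₀ : ℕ) : ∑ r ∈ t13F M₀, (1 / (r.den : ℝ)) ^ 2 ≤ 1 + Real.log M₀ := by
  have hmap : ∀ r ∈ t13F M₀, r.den ∈ Icc 1 M₀ := by
    intro r hr
    rw [mem_Icc]
    exact ⟨r.den_pos, (t13F_den hr).2.2⟩
  rw [← sum_fiberwise_of_maps_to hmap]
  refine le_trans (sum_le_sum fun q hq => ?_) (t13_harm M₀)
  rw [mem_Icc] at hq
  have hcard : ((t13F M₀).filter fun r => r.den = q).card ≤ q := by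
    have h1 : (((t13F M₀).filter fun r => r.den = q).image fun r : ℚ => r.num.toNat).card =
        ((t13F M₀).filter fun r => r.den = q).card := by
      refine card_image_of_injOn ?_
      intro r hr t ht h
      rw [mem_coe, mem_filter] at hr ht
      have hr0 := (t13F_den hr.1).1
      have ht0 := (t13F_den ht.1).1
      have e1 : r.num = t.num := by
        have a1 : 0 ≤ r.num := Rat.num_nonneg.2 hr0
        have a2 : 0 ≤ t.num := Rat.num_nonneg.2 ht0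
        have h : r.num.toNat = t.num.toNat := h
        omega
      exact Rat.ext e1 (hr.2.trans ht.2.symm)
    rw [← h1]
    calc (((t13F M₀).filter fun r => r.den = q).image fun r : ℚ => r.num.toNat).card ≤ (range q).card := by
          refine card_le_card ?_
          intro x hx
          rw [mem_image] at hx
          obtain ⟨r, hr, rfl⟩ := hx
          rw [mem_filter] at hr
          obtain ⟨h0, h1', _⟩ := t13F_den hr.1
          have a1 : 0 ≤ r.num := Rat.num_nonneg.2 h0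
          have a2 : r.num < r.den := by
            exact Rat.num_lt_denom_iff.2 h1'
          rw [mem_range]
          have := hr.2
          omega
      _ = q := card_range q
  calc ∑ r ∈ (t13F M₀).filter (fun r => r.den = q), (1 / (r.den : ℝ)) ^ 2
      = ∑ _r ∈ (t13F M₀).filter (fun r => r.den = q), (1 / (q : ℝ)) ^ 2 := by
        refine sum_congr rfl fun r hr => ?_
        rw [mem_filter] at hr
        rw [hr.2]
    _ = ((t13F M₀).filter (fun r => r.den = q)).card * (1 / (q : ℝ)) ^ 2 := by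
        rw [sum_const, nsmul_eq_mul]
    _ ≤ q * (1 / (q : ℝ)) ^ 2 := by
        refine mul_le_mul_of_nonneg_right ?_ (by positivity)
        exact_mod_cast hcard
    _ = 1 / (q : ℝ) := by
        have : (0 : ℝ) < q := by exact_mod_cast (by omega : 0 < q)
        field_simp

private theorem t13_expSum_eq (N : ℕ) (a : ℕ → ℂ) (x : ℝ) :
    LSieve.expSum (Ico (0 : ℤ) N) (fun n => a n.toNat) ((-x : ℝ) : UnitAddCircle) =
      ∑ k ∈ range N, a k * ee (-(k * x)) := by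
  unfold LSieve.expSum
  have h : Ico (0 : ℤ) N = (range N).image (Nat.cast : ℕ → ℤ) := by
    ext n
    simp only [mem_Ico, mem_image, mem_range]
    constructor
    · rintro ⟨h1, h2⟩
      exact ⟨n.toNat, by omega, by omega⟩
    · rintro ⟨k, hk, rfl⟩
      exact ⟨by omega, by omega⟩
  rw [h, sum_image (fun x _ y _ h => by exact_mod_cast h)]
  refine sum_congr rfl fun k _ => ?_
  rw [ee_eq]
  congr 2
  rw [← AddCircle.coe_zsmul]
  congr 1
  simp

/-- the large sieve for the reduced fractions -/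
private theorem t13_sieve (N M₀ : ℕ) (hM : 1 ≤ M₀) (hN : M₀ ^ 2 ≤ N) (a : ℕ → ℂ) (ha : ∀ k, ‖a k‖ ≤ 1) :
    ∑ r ∈ t13F M₀, ‖∑ k ∈ range N, a k * ee (-(k * (r : ℝ)))‖ ^ 2 ≤ 9 * (N : ℝ) ^ 2 := by
  have hN0 : 0 < N := lt_of_lt_of_le (by positivity) hN
  have hls := LSieve.large_sieve (t13F M₀) (fun r : ℚ => ((-(r : ℝ) : ℝ) : UnitAddCircle)) N 1 hN0 (by
    intro i hi
    rw [card_le_one]
    have key : ∀ j ∈ (t13F M₀).filter (fun j : ℚ => ‖((-(j : ℝ) : ℝ) : UnitAddCircle) - ((-(i : ℝ) : ℝ) : UnitAddCircle)‖ < 1 / (N : ℝ)), j = i := by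
      intro j hj
      rw [mem_filter] at hj
      by_contra hne
      have h1 := t13_sep hi hj.1 (Ne.symm hne)
      have h2 := hj.2
      rw [← AddCircle.coe_sub, ← nd_eq, show -(j : ℝ) - -(i : ℝ) = (i : ℝ) - j by ring] at h2
      have h3 : 1 / (N : ℝ) ≤ 1 / ((M₀ : ℝ) ^ 2) := by
        refine one_div_le_one_div_of_le (by positivity) ?_
        exact_mod_cast hN
      linarith
    intro x hx y hy
    rw [key x hx, key y hy]) 0 (Ico (0 : ℤ) N) (by simp) (fun n => a n.toNat)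
  have hsum : ∑ n ∈ Ico (0 : ℤ) N, ‖(fun n : ℤ => a n.toNat) n‖ ^ 2 ≤ N := by
    calc ∑ n ∈ Ico (0 : ℤ) N, ‖(fun n : ℤ => a n.toNat) n‖ ^ 2 ≤ ∑ n ∈ Ico (0 : ℤ) N, (1 : ℝ) := by
          refine sum_le_sum fun n _ => ?_
          have := ha n.toNat
          have h0 := norm_nonneg (a n.toNat)
          show ‖a n.toNat‖ ^ 2 ≤ 1
          nlinarith
      _ = N := by simp
  have e : ∀ r : ℚ, ‖∑ k ∈ range N, a k * ee (-(k * (r : ℝ)))‖ ^ 2 =
      ‖LSieve.expSum (Ico (0 : ℤ) N) (fun n => a n.toNat) ((-(r : ℝ) : ℝ) : UnitAddCircle)‖ ^ 2 := by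
    intro r
    rw [t13_expSum_eq]
  rw [sum_congr rfl fun r _ => e r]
  refine hls.trans ?_
  have hNr : (0 : ℝ) ≤ N := by positivity
  push_cast
  nlinarith [mul_le_mul_of_nonneg_left hsum hNr]

theorem frac_sum (N M₀ : ℕ) (hM : 1 ≤ M₀) (hN : M₀ ^ 2 ≤ N) (a : ℕ → ℂ) (ha : ∀ k, ‖a k‖ ≤ 1) :
    ∑ m ∈ Icc 1 M₀, (1 / (m : ℝ)) * ∑ l ∈ range m, ‖∑ k ∈ range N, a k * ee (-(k * (l / m)))‖ ≤
      3 * N * (1 + Real.log M₀) ^ 2 := by
  set S : ℚ → ℝ := fun r => ‖∑ k ∈ range N, a k * ee (-(k * (r : ℝ)))‖ with hS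
  have hS0 : ∀ r, 0 ≤ S r := fun r => norm_nonneg _
  set L : ℝ := 1 + Real.log M₀ with hL
  have hL1 : 1 ≤ L := by
    have : 0 ≤ Real.log M₀ := Real.log_nonneg (by exact_mod_cast hM)
    linarith
  have h1 : ∑ m ∈ Icc 1 M₀, (1 / (m : ℝ)) * ∑ l ∈ range m, ‖∑ k ∈ range N, a k * ee (-(k * (l / m)))‖ =
      ∑ p ∈ t13P M₀, (1 / (p.1 : ℝ)) * S (t13g p) := by
    have e1 : ∑ m ∈ Icc 1 M₀, (1 / (m : ℝ)) * ∑ l ∈ range m, ‖∑ k ∈ range N, a k * ee (-(k * (l / m)))‖ =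
        ∑ m ∈ Icc 1 M₀, ∑ l ∈ range m, (1 / (m : ℝ)) * S (t13g (m, l)) := by
      refine sum_congr rfl fun m _ => ?_
      rw [mul_sum]
      refine sum_congr rfl fun l _ => ?_
      simp only [hS, t13g]
      push_cast
      rfl
    rw [e1, t13_sum_P M₀ (fun m l => (1 / (m : ℝ)) * S (t13g (m, l)))]
  have h2 : ∑ p ∈ t13P M₀, (1 / (p.1 : ℝ)) * S (t13g p) =
      ∑ r ∈ t13F M₀, S r * ∑ p ∈ (t13P M₀).filter (fun p => t13g p = r), 1 / (p.1 : ℝ) := by
    rw [← sum_fiberwise_of_maps_to (s := t13P M₀) (t := t13F M₀) (g := t13g)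
      (fun p hp => mem_image_of_mem t13g hp)]
    refine sum_congr rfl fun r _ => ?_
    rw [mul_sum]
    refine sum_congr rfl fun p hp => ?_
    rw [mem_filter] at hp
    rw [hp.2, mul_comm]
  have h3 : ∑ r ∈ t13F M₀, S r * ∑ p ∈ (t13P M₀).filter (fun p => t13g p = r), 1 / (p.1 : ℝ) ≤
      L * ∑ r ∈ t13F M₀, (1 / (r.den : ℝ)) * S r := by
    rw [mul_sum]
    refine sum_le_sum fun r _ => ?_
    calc S r * ∑ p ∈ (t13P M₀).filter (fun p => t13g p = r), 1 / (p.1 : ℝ)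
        ≤ S r * ((1 / (r.den : ℝ)) * L) := mul_le_mul_of_nonneg_left (t13_coef M₀ r) (hS0 r)
      _ = L * ((1 / (r.den : ℝ)) * S r) := by ring
  have h4 : (∑ r ∈ t13F M₀, (1 / (r.den : ℝ)) * S r) ^ 2 ≤ (3 * N * L) ^ 2 := by
    calc (∑ r ∈ t13F M₀, (1 / (r.den : ℝ)) * S r) ^ 2
        ≤ (∑ r ∈ t13F M₀, (1 / (r.den : ℝ)) ^ 2) * ∑ r ∈ t13F M₀, S r ^ 2 := sum_mul_sq_le_sq_mul_sq _ _ _
      _ ≤ L * (9 * (N : ℝ) ^ 2) := by
          refine mul_le_mul (t13_sum_den M₀) (t13_sieve N M₀ hM hN a ha) (sum_nonneg fun r _ => by positivity) (by linarith)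
      _ ≤ (3 * N * L) ^ 2 := by
          have hNN : (0 : ℝ) ≤ (N : ℝ) ^ 2 := by positivity
          have : L ≤ L ^ 2 := by nlinarith
          nlinarith [mul_le_mul_of_nonneg_left this hNN]
  have h5 : ∑ r ∈ t13F M₀, (1 / (r.den : ℝ)) * S r ≤ 3 * N * L :=
    abs_le_of_sq_le_sq' h4 (by positivity) |>.2
  rw [h1, h2]
  refine h3.trans ?_
  calc L * ∑ r ∈ t13F M₀, (1 / (r.den : ℝ)) * S r ≤ L * (3 * N * L) :=
        mul_le_mul_of_nonneg_left h5 (by linarith)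
    _ = 3 * N * L ^ 2 := by ring

end Pool.Agent.LibHG31.TT
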