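import Pool.Agent.LibHG31.T0

/-!
# ROW T14 (HG31 block TT): two small facts

PLANS. `card_divisors_pow`: `Nat.card_divisors : n ≠ 0 → #n.divisors = ∏ x ∈ n.primeFactors, (n.factorization x + 1)`, `Nat.primeFactors_pow`,
`Nat.factorization_pow`: `= ∏_{p ∣ b} (j v_p + 1) ≤ ∏ (j+1)(v_p+1) = (j+1)^(ω(b)) τ(b)`, `ω(b) ≤ b`, `τ(b) ≤ b`. (`j = 0` trivial.)
`exists_D`: `0 ≤ kap b < 1` (`kap_pos`, `kap_lt_one`), `exists_pow_lt_of_lt_one`, `pow_le_pow_of_le_one`.
-/

namespace Pool.Agent.LibHG31.TT

open Finset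

theorem card_divisors_pow (b j : ℕ) (hb : 1 ≤ b) :
    ((b ^ j).divisors.card : ℝ) ≤ b * ((j : ℝ) + 1) ^ b := by
  have h0 : b ≠ 0 := by omega
  have hmain : (b ^ j).divisors.card ≤ b * (j + 1) ^ b := by
    rcases Nat.eq_zero_or_pos j with rfl | hj
    · simp
      omega
    · rw [Nat.card_divisors (pow_ne_zero j h0), Nat.primeFactors_pow b hj.ne', Nat.factorization_pow]
      have h1 : ∏ p ∈ b.primeFactors, ((j • b.factorization) p + 1) ≤
          ∏ p ∈ b.primeFactors, ((j + 1) * (b.factorization p + 1)) := by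
        apply Finset.prod_le_prod' 
        intro p _
        simp only [Finsupp.smul_apply, smul_eq_mul]
        nlinarith
      refine h1.trans ?_
      rw [Finset.prod_mul_distrib, Finset.prod_const, ← Nat.card_divisors h0, mul_comm]
      apply Nat.mul_le_mul
      · calc b.divisors.card ≤ (Finset.Icc 1 b).card := by
              apply card_le_card
              intro d hd
              rw [mem_Icc]
              exact ⟨Nat.pos_of_mem_divisors hd, Nat.divisor_le hd⟩
          _ = b := by simp
      · apply Nat.pow_le_pow_right (by omega)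
        calc b.primeFactors.card ≤ (Finset.Icc 1 b).card := by
              apply card_le_card
              intro p hp
              rw [mem_Icc]
              exact ⟨(Nat.prime_of_mem_primeFactors hp).one_le, Nat.le_of_mem_primeFactors hp⟩
          _ = b := by simp
  exact_mod_cast hmain

theorem exists_D (b : ℕ) (hb : 2 ≤ b) : ∃ D : ℕ, 20 * b ≤ D ∧ kap b ^ (D - 1) ≤ 1 / (b : ℝ) ^ 20 := by
  have hb0 : (0 : ℝ) < b := by exact_mod_cast (by omega : 0 < b)
  obtain ⟨n, hn⟩ := exists_pow_lt_of_lt_one (show (0 : ℝ) < 1 / (b : ℝ) ^ 20 by positivity) (kap_lt_one b hb)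
  refine ⟨max (20 * b) (n + 1), le_max_left _ _, ?_⟩
  refine le_trans ?_ hn.le
  apply pow_le_pow_of_le_one (by have := kap_pos b hb; linarith) (kap_lt_one b hb).le
  have := le_max_right (20 * b) (n + 1)
  omega

end Pool.Agent.LibHG31.TT
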