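import Pool.Agent.LibHG31.T1

/-! # HG31 block TT, row T4: pointwise bounds for the kernel -/

namespace Pool.Agent.LibHG31.TT

open Finset

theorem norm_one_add_ee_le (t : ℝ) : ‖1 + ee t‖ ≤ 2 - 4 * nd t ^ 2 := by
  have h1 : ‖1 + ee t‖ ^ 2 + ‖ee t - 1‖ ^ 2 = 4 := by
    have h := parallelogram_law_with_norm ℝ (1 : ℂ) (ee t)
    rw [norm_ee, norm_one] at h
    have h2 : ‖ee t - 1‖ = ‖1 - ee t‖ := norm_sub_rev _ _
    rw [h2]
    nlinarith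
  have h2 := four_nd_le t
  have h3 := nd_nonneg t
  have h4 := nd_le_half t
  have h5 : 16 * nd t ^ 2 ≤ ‖ee t - 1‖ ^ 2 := by nlinarith
  have h6 : 0 ≤ 2 - 4 * nd t ^ 2 := by nlinarith
  have h7 : ‖1 + ee t‖ ^ 2 ≤ (2 - 4 * nd t ^ 2) ^ 2 := by nlinarith [sq_nonneg (nd t ^ 2)]
  exact le_of_sq_le_sq h7 h6
where
  le_of_sq_le_sq {a b : ℝ} (h : a ^ 2 ≤ b ^ 2) (hb : 0 ≤ b) : a ≤ b := abs_le_of_sq_le_sq' h hb |>.2

theorem ph_le (b : ℕ) (hb : 2 ≤ b) (t : ℝ) : ph b t ≤ 1 - 4 * nd t ^ 2 / b := by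
  obtain ⟨m, rfl⟩ : ∃ m, b = 2 + m := ⟨b - 2, by omega⟩
  have hb' : (0 : ℝ) < ((2 + m : ℕ) : ℝ) := by positivity
  unfold ph
  rw [div_le_iff₀ hb', sum_range_add]
  have h1 : ∑ x ∈ range 2, ee (x * t) = 1 + ee t := by
    simp [sum_range_succ]
  rw [h1]
  have h2 : ‖∑ x ∈ range m, ee (((2 + x : ℕ) : ℝ) * t)‖ ≤ m := by
    refine (norm_sum_le _ _).trans ?_
    simp
  calc ‖1 + ee t + ∑ x ∈ range m, ee (((2 + x : ℕ) : ℝ) * t)‖
      ≤ ‖1 + ee t‖ + ‖∑ x ∈ range m, ee (((2 + x : ℕ) : ℝ) * t)‖ := norm_add_le _ _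
    _ ≤ (2 - 4 * nd t ^ 2) + m := add_le_add (norm_one_add_ee_le t) h2
    _ = (1 - 4 * nd t ^ 2 / ((2 + m : ℕ) : ℝ)) * ((2 + m : ℕ) : ℝ) := by
        field_simp
        push_cast
        ring

theorem ph_sq_le (b : ℕ) (hb : 2 ≤ b) (t : ℝ) : ph b t ^ 2 ≤ 1 - 4 * nd t ^ 2 / b := by
  have h1 := ph_le b hb t
  have h2 := ph_le_one b t
  have h3 := ph_nonneg b t
  nlinarith

theorem ph_mul_nd_le (b : ℕ) (hb : 1 ≤ b) (t : ℝ) : ph b t * nd t ≤ 2 * nd (b * t) / b := by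
  have hb' : (0 : ℝ) < b := by exact_mod_cast hb
  have h1 : (∑ d ∈ range b, ee (d * t)) * (ee t - 1) = ee (b * t) - 1 := by
    simp_rw [ee_nat_mul]
    exact geom_sum_mul _ _
  have h2 : ‖∑ d ∈ range b, ee (d * t)‖ * ‖ee t - 1‖ ≤ 2 * Real.pi * nd (b * t) := by
    rw [← norm_mul, h1]
    exact norm_ee_sub_one_le _
  have h3 : ‖∑ d ∈ range b, ee (d * t)‖ * (4 * nd t) ≤ 2 * Real.pi * nd (b * t) :=
    (mul_le_mul_of_nonneg_left (four_nd_le t) (norm_nonneg _)).trans h2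
  have h4 := nd_nonneg (b * t)
  have h5 := Real.pi_le_four
  unfold ph
  rw [div_mul_eq_mul_div, div_le_div_iff_of_pos_right hb']
  nlinarith

theorem ph_pair (b : ℕ) (hb : 2 ≤ b) (t t' : ℝ) :
    ph b t ^ 2 * ph b t' ^ 2 ≤ 1 - nd (b * t - t') ^ 2 / (2 * (b : ℝ) ^ 3) := by
  have hb' : (2 : ℝ) ≤ b := by exact_mod_cast hb
  have hb0 : (0 : ℝ) < b := by linarith
  have h1 : nd (b * t - t') ≤ b * nd t + nd t' :=
    (nd_sub_le _ _).trans (by linarith [nd_nat_mul_le b t])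
  set M := max (nd t) (nd t') with hM
  have hM0 : 0 ≤ M := (nd_nonneg t).trans (le_max_left _ _)
  have h2 : nd (b * t - t') ≤ (b + 1) * M := by
    have e1 : nd t ≤ M := le_max_left _ _
    have e2 : nd t' ≤ M := le_max_right _ _
    nlinarith
  have h3 : ph b t ^ 2 * ph b t' ^ 2 ≤ 1 - 4 * M ^ 2 / b := by
    have a1 := ph_sq_le b hb t
    have a2 := ph_sq_le b hb t'
    have a3 : ph b t ^ 2 ≤ 1 := pow_le_one₀ (ph_nonneg b t) (ph_le_one b t)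
    have a4 : ph b t' ^ 2 ≤ 1 := pow_le_one₀ (ph_nonneg b t') (ph_le_one b t')
    have a5 : 0 ≤ ph b t ^ 2 := by positivity
    have a6 : 0 ≤ ph b t' ^ 2 := by positivity
    rcases le_total (nd t) (nd t') with h | h
    · rw [hM, max_eq_right h]
      nlinarith
    · rw [hM, max_eq_left h]
      nlinarith
  have h4 : nd (b * t - t') ^ 2 ≤ (b + 1) ^ 2 * M ^ 2 := by
    have := nd_nonneg (b * t - t')
    calc nd (b * t - t') ^ 2 ≤ ((b + 1) * M) ^ 2 := by gcongr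
      _ = _ := by ring
  have h5 : nd (b * t - t') ^ 2 / (2 * (b : ℝ) ^ 3) ≤ 4 * M ^ 2 / b := by
    rw [div_le_div_iff₀ (by positivity) hb0]
    have e3 : ((b : ℝ) + 1) ^ 2 ≤ 8 * b ^ 2 := by nlinarith
    calc nd (b * t - t') ^ 2 * b ≤ ((b + 1) ^ 2 * M ^ 2) * b := by gcongr
      _ ≤ (8 * b ^ 2 * M ^ 2) * b := by gcongr
      _ = 4 * M ^ 2 * (2 * (b : ℝ) ^ 3) := by ring
  linarith

end Pool.Agent.LibHG31.TT
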