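import Pool.Agent.LibHG31.T2
import Pool.Agent.LibHG31.T4

/-!
# ROW T15 (HG31 block TT): pointwise bound of `FF` by the window product and a second window

PLAN. `lam = u + (lam - u)`: `norm_FF_add`, `norm_FF_le_one`: `‖FF b u lam α w x‖ ≤ ∏_{u ≤ j < lam} ph b (α j - b^j x)`; all factors are in `[0,1]`
(`ph_nonneg`, `ph_le_one`), so it is at most `∏_{j ∈ Icc j₁ j₂} ph · ∏_{j ∈ Ico j₀ (j₀+n)} ph` (disjoint sets of indices as `j₂ < j₀`).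
(1) `∏_{j∈Icc j₁ j₂} ph(t_j)^4 ≤ ∏_{j ∈ Ico j₁ j₂} (ph(t_j)^2 ph(t_{j+1})^2) ≤ WW b α j₁ j₂` (induction on `j₂`; `ph_pair` with `b t_j - t_{j+1} = b α_j - α_{j+1}`, `WW_eq`),
    then take fourth roots.
(2) second product `= ‖FF b 0 n (fun i => α (j₀+i)) 1 (b^j₀ x)‖` by `norm_FF_zero`.
-/

namespace Pool.Agent.LibHG31.TT

open Finset

/-- fourth powers of the kernels, by pairs of consecutive factors -/
theorem T15_four (t : ℕ → ℝ) (b : ℕ) (j₁ : ℕ) : ∀ j₂, j₁ ≤ j₂ →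
    ∏ j ∈ Icc j₁ j₂, ph b (t j) ^ 4 ≤
      (∏ j ∈ Ico j₁ j₂, (ph b (t j) ^ 2 * ph b (t (j + 1)) ^ 2)) * ph b (t j₂) ^ 2 := by
  intro j₂ h
  induction j₂, h using Nat.le_induction with
  | base =>
    rw [Icc_self, prod_singleton, Ico_self, prod_empty, one_mul]
    exact pow_le_pow_of_le_one (ph_nonneg _ _) (ph_le_one _ _) (by norm_num)
  | succ j₂ h ih =>
    rw [prod_Icc_succ_top (by omega), prod_Ico_succ_top h]
    calc (∏ j ∈ Icc j₁ j₂, ph b (t j) ^ 4) * ph b (t (j₂ + 1)) ^ 4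
        ≤ ((∏ j ∈ Ico j₁ j₂, (ph b (t j) ^ 2 * ph b (t (j + 1)) ^ 2)) * ph b (t j₂) ^ 2) *
            ph b (t (j₂ + 1)) ^ 4 := mul_le_mul_of_nonneg_right ih (by positivity)
      _ = _ := by ring

theorem T15_ww (b : ℕ) (hb : 2 ≤ b) (α : ℕ → ℝ) (x : ℝ) (j₁ j₂ : ℕ) (h : j₁ ≤ j₂) :
    ∏ j ∈ Icc j₁ j₂, ph b (α j - (b : ℝ) ^ j * x) ≤ WW b α j₁ j₂ ^ (1 / 4 : ℝ) := by
  have h1 := T15_four (fun j => α j - (b : ℝ) ^ j * x) b j₁ j₂ h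
  have h2 : ∏ j ∈ Ico j₁ j₂, (ph b (α j - (b : ℝ) ^ j * x) ^ 2 *
      ph b (α (j + 1) - (b : ℝ) ^ (j + 1) * x) ^ 2) ≤ WW b α j₁ j₂ := by
    rw [WW_eq]
    refine prod_le_prod (fun j _ => by positivity) fun j _ => ?_
    have h3 := ph_pair b hb (α j - (b : ℝ) ^ j * x) (α (j + 1) - (b : ℝ) ^ (j + 1) * x)
    have h4 : (b : ℝ) * (α j - (b : ℝ) ^ j * x) - (α (j + 1) - (b : ℝ) ^ (j + 1) * x) =
        b * α j - α (j + 1) := by ring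
    rw [h4] at h3
    exact h3
  have h3 : ph b (α j₂ - (b : ℝ) ^ j₂ * x) ^ 2 ≤ 1 :=
    pow_le_one₀ (ph_nonneg _ _) (ph_le_one _ _)
  have h4 : (∏ j ∈ Icc j₁ j₂, ph b (α j - (b : ℝ) ^ j * x)) ^ 4 ≤ WW b α j₁ j₂ := by
    rw [← prod_pow]
    refine h1.trans ?_
    calc (∏ j ∈ Ico j₁ j₂, (ph b (α j - (b : ℝ) ^ j * x) ^ 2 *
          ph b (α (j + 1) - (b : ℝ) ^ (j + 1) * x) ^ 2)) * ph b (α j₂ - (b : ℝ) ^ j₂ * x) ^ 2
        ≤ WW b α j₁ j₂ * 1 :=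
          mul_le_mul h2 h3 (by positivity) (WW_nonneg b hb α j₁ j₂)
      _ = WW b α j₁ j₂ := mul_one _
  have h5 : 0 ≤ ∏ j ∈ Icc j₁ j₂, ph b (α j - (b : ℝ) ^ j * x) :=
    prod_nonneg fun j _ => ph_nonneg _ _
  have h6 := Real.rpow_le_rpow (by positivity) h4 (show (0 : ℝ) ≤ 1 / 4 by norm_num)
  have h7 := Real.pow_rpow_inv_natCast h5 (show 4 ≠ 0 by norm_num)
  have h8 : ((4 : ℕ) : ℝ)⁻¹ = 1 / 4 := by norm_num
  rw [h8] at h7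
  rwa [h7] at h6

theorem FF_le_windows (b u lam j₁ j₂ j₀ n : ℕ) (hb : 2 ≤ b) (hj1 : u ≤ j₁) (h12 : j₁ ≤ j₂)
    (h20 : j₂ < j₀) (h0n : j₀ + n ≤ lam) (α : ℕ → ℝ) (w : ℕ → ℂ) (hw : ∀ v, ‖w v‖ ≤ 1) (x : ℝ) :
    ‖FF b u lam α w x‖ ≤ WW b α j₁ j₂ ^ (1 / 4 : ℝ) *
      ‖FF b 0 n (fun i => α (j₀ + i)) (fun _ => 1) ((b : ℝ) ^ j₀ * x)‖ := by
  have hb0 : 0 < b := by omega
  have hlam : u + (lam - u) = lam := by omega
  have h1 := norm_FF_add b u u hb0 le_rfl α w (lam - u) x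
  rw [hlam] at h1
  have h2 : ∏ j ∈ range (lam - u), ph b (α (u + j) - (b : ℝ) ^ (u + j) * x) =
      ∏ j ∈ Ico u lam, ph b (α j - (b : ℝ) ^ j * x) := by
    rw [prod_Ico_eq_prod_range]
  rw [h2] at h1
  have hph : ∀ j, 0 ≤ ph b (α j - (b : ℝ) ^ j * x) ∧ ph b (α j - (b : ℝ) ^ j * x) ≤ 1 :=
    fun j => ⟨ph_nonneg _ _, ph_le_one _ _⟩
  have hdisj : Disjoint (Icc j₁ j₂) (Ico j₀ (j₀ + n)) := by
    rw [disjoint_left]
    intro j hj hj'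
    rw [mem_Icc] at hj
    rw [mem_Ico] at hj'
    omega
  have hsub : Icc j₁ j₂ ∪ Ico j₀ (j₀ + n) ⊆ Ico u lam := by
    intro j hj
    rw [mem_union, mem_Icc, mem_Ico] at hj
    rw [mem_Ico]
    omega
  have h3 : ∏ j ∈ Ico u lam, ph b (α j - (b : ℝ) ^ j * x) ≤
      (∏ j ∈ Icc j₁ j₂, ph b (α j - (b : ℝ) ^ j * x)) *
        ∏ j ∈ Ico j₀ (j₀ + n), ph b (α j - (b : ℝ) ^ j * x) := by
    rw [← prod_union hdisj, ← prod_sdiff hsub]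
    exact mul_le_of_le_one_left (prod_nonneg fun j _ => (hph j).1)
      (prod_le_one (fun j _ => (hph j).1) fun j _ => (hph j).2)
  have h4 : ∏ j ∈ Ico j₀ (j₀ + n), ph b (α j - (b : ℝ) ^ j * x) =
      ‖FF b 0 n (fun i => α (j₀ + i)) (fun _ => 1) ((b : ℝ) ^ j₀ * x)‖ := by
    rw [norm_FF_zero b hb0, prod_Ico_eq_prod_range, Nat.add_sub_cancel_left]
    refine prod_congr rfl fun j _ => ?_
    rw [pow_add]
    congr 2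
    ring
  calc ‖FF b u lam α w x‖ = ‖FF b u u α w x‖ * ∏ j ∈ Ico u lam, ph b (α j - (b : ℝ) ^ j * x) := h1
    _ ≤ 1 * ∏ j ∈ Ico u lam, ph b (α j - (b : ℝ) ^ j * x) :=
        mul_le_mul_of_nonneg_right (norm_FF_le_one b u u hb0 α w hw x)
          (prod_nonneg fun j _ => (hph j).1)
    _ ≤ (∏ j ∈ Icc j₁ j₂, ph b (α j - (b : ℝ) ^ j * x)) *
        ∏ j ∈ Ico j₀ (j₀ + n), ph b (α j - (b : ℝ) ^ j * x) := by
        rw [one_mul]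
        exact h3
    _ ≤ WW b α j₁ j₂ ^ (1 / 4 : ℝ) *
        ‖FF b 0 n (fun i => α (j₀ + i)) (fun _ => 1) ((b : ℝ) ^ j₀ * x)‖ := by
        rw [h4]
        exact mul_le_mul_of_nonneg_right (T15_ww b hb α x j₁ j₂ h12) (norm_nonneg _)

end Pool.Agent.LibHG31.TT
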