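import Pool.Agent.LibHG31.T2

/-!
# ROW T16 (HG31 block TT): multiples of `m` in one cell

PLAN. `B = b^(L-u)`, `u ≤ L - u`. For `k = c B + v`, `v < B`: `k / B = c`, `k % b^u = v % b^u`, `dp b L α k = dp b (L-u) α v + E_c` with
`E_c = ∑_{L-u ≤ j < L} α j dg b j (c B)` independent of `v` (`dg_eq_of_div_eq`, `dg_add_mul`), so `fd b u L α ω k = ee E_c * gf b u (L-u) α (ω c) v`.
`1[m ∣ k] = (1/m) ∑_{l<m} ee (-(k (l/m)))` (`orth` with `d = -k`). Interchange: for each `l`,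
`∑_{v<B} gf .. v * ee (-(v (l/m))) = B * FF b u (L-u) α (ω c) (l/m)`; the other factors have norm 1.
-/

namespace Pool.Agent.LibHG31.TT

open Finset

private theorem T16_fd (b u L : ℕ) (hb : 2 ≤ b) (huL : 2 * u ≤ L) (α : ℕ → ℝ) (ω : ℕ → ℕ → ℂ) (c v : ℕ)
    (hv : v < b ^ (L - u)) :
    fd b u L α ω (c * b ^ (L - u) + v) =
      ee (∑ j ∈ Ico (L - u) L, α j * dg b j (c * b ^ (L - u))) * gf b u (L - u) α (ω c) v := by
  have hb0 : 0 < b := by omega
  have hB : 0 < b ^ (L - u) := by positivity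
  have h1 : (c * b ^ (L - u) + v) / b ^ (L - u) = c := by
    rw [mul_comm, Nat.mul_add_div hB, Nat.div_eq_of_lt hv, add_zero]
  have h1' : (c * b ^ (L - u)) / b ^ (L - u) = c := Nat.mul_div_cancel _ hB
  have h2 : (c * b ^ (L - u) + v) % b ^ u = v % b ^ u := by
    obtain ⟨t, ht⟩ : ∃ t, L - u = u + t := ⟨L - u - u, by omega⟩
    have : c * b ^ (L - u) + v = v + b ^ u * (b ^ t * c) := by
      rw [ht, pow_add]; ring
    rw [this, Nat.add_mul_mod_self_left]
  have h3 : dp b L α (c * b ^ (L - u) + v) = (∑ j ∈ Ico (L - u) L, α j * dg b j (c * b ^ (L - u))) +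
      dp b (L - u) α v := by
    unfold dp
    rw [← Finset.sum_range_add_sum_Ico _ (by omega : L - u ≤ L), add_comm]
    congr 1
    · refine sum_congr rfl fun j hj => ?_
      rw [dg_eq_of_div_eq b (L - u) j (c * b ^ (L - u) + v) (c * b ^ (L - u)) (mem_Ico.1 hj).1
        (by rw [h1, h1'])]
    · refine sum_congr rfl fun j hj => ?_
      rw [show c * b ^ (L - u) + v = v + b ^ (L - u) * c by ring,
        dg_add_mul b j (L - u) v c hb0 (mem_range.1 hj)]
  unfold fd gf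
  rw [h1, h2, h3, ee_add]
  ring

private theorem T16_ind (m : ℕ) (hm : 0 < m) (k : ℕ) :
    (if m ∣ k then (1 : ℂ) else 0) = (1 / (m : ℂ)) * ∑ l ∈ range m, ee (-(k * ((l : ℝ) / m))) := by
  have h := orth m hm (-(k : ℤ))
  have h1 : ∀ l : ℕ, ee (((-(k : ℤ) : ℤ) : ℝ) * l / m) = ee (-(k * ((l : ℝ) / m))) := by
    intro l
    congr 1
    push_cast
    ring
  simp_rw [h1] at h
  rw [h]
  have hm' : (m : ℂ) ≠ 0 := by exact_mod_cast hm.ne'
  by_cases hd : m ∣ k
  · rw [if_pos hd, if_pos]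
    · field_simp
    · rw [dvd_neg]
      exact_mod_cast hd
  · rw [if_neg hd, if_neg]
    · simp
    · rw [dvd_neg]
      exact_mod_cast hd

theorem cell_sum (b u L : ℕ) (hb : 2 ≤ b) (huL : 2 * u ≤ L) (α : ℕ → ℝ) (ω : ℕ → ℕ → ℂ) (c m : ℕ)
    (hm : 0 < m) :
    ‖∑ k ∈ (Ico (c * b ^ (L - u)) ((c + 1) * b ^ (L - u))).filter (fun k => m ∣ k),
      fd b u L α ω k‖ ≤
      ((b : ℝ) ^ (L - u) / m) * ∑ l ∈ range m, ‖FF b u (L - u) α (ω c) (l / m)‖ := by
  have hb0 : (0 : ℝ) < b := by exact_mod_cast (by omega : 0 < b)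
  have hbC : (b : ℂ) ^ (L - u) ≠ 0 := by
    apply pow_ne_zero
    exact_mod_cast (by omega : b ≠ 0)
  set B := b ^ (L - u) with hB
  set E : ℝ := ∑ j ∈ Ico (L - u) L, α j * dg b j (c * B) with hE
  have h1 : ∑ k ∈ (Ico (c * B) ((c + 1) * B)).filter (fun k => m ∣ k), fd b u L α ω k =
      ∑ l ∈ range m, (1 / (m : ℂ)) * (ee E * ee (-(((c * B : ℕ) : ℝ) * ((l : ℝ) / m)))) *
        ((b : ℂ) ^ (L - u) * FF b u (L - u) α (ω c) (l / m)) := by
    rw [sum_filter, sum_Ico_eq_sum_range]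
    have e1 : (c + 1) * B - c * B = B := by rw [add_mul, one_mul, Nat.add_sub_cancel_left]
    rw [e1]
    have e2 : ∀ v ∈ range B, (if m ∣ c * B + v then fd b u L α ω (c * B + v) else 0) =
        ∑ l ∈ range m, (1 / (m : ℂ)) * (ee E * ee (-(((c * B : ℕ) : ℝ) * ((l : ℝ) / m)))) *
          (gf b u (L - u) α (ω c) v * ee (-(v * ((l : ℝ) / m)))) := by
      intro v hv
      have e3 : (if m ∣ c * B + v then fd b u L α ω (c * B + v) else 0) =
          fd b u L α ω (c * B + v) * (if m ∣ c * B + v then (1 : ℂ) else 0) := by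
        split_ifs <;> simp
      rw [e3, T16_ind m hm, T16_fd b u L hb huL α ω c v (mem_range.1 hv), ← hB, ← hE, mul_sum, mul_sum]
      refine sum_congr rfl fun l _ => ?_
      have e4 : ee (-(((c * B + v : ℕ) : ℝ) * ((l : ℝ) / m))) =
          ee (-(((c * B : ℕ) : ℝ) * ((l : ℝ) / m))) * ee (-(v * ((l : ℝ) / m))) := by
        rw [← ee_add]
        congr 1
        push_cast
        ring
      rw [e4]
      ring
    rw [sum_congr rfl e2, sum_comm]
    refine sum_congr rfl fun l _ => ?_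
    rw [← mul_sum]
    congr 1
    unfold FF
    rw [mul_div_cancel₀ _ hbC, ← hB]
  rw [h1]
  refine (norm_sum_le _ _).trans ?_
  rw [mul_sum]
  refine sum_le_sum fun l _ => ?_
  rw [norm_mul, norm_mul, norm_mul, norm_mul, norm_ee, norm_ee, norm_div, norm_one, norm_pow,
    Complex.norm_natCast, Complex.norm_natCast]
  apply le_of_eq
  ring

end Pool.Agent.LibHG31.TT
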