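import Mathlib

/-!
# ROW T18 (HG31 block TT): van der Corput's inequality for a family (only Mathlib)

PLAN. Let `z'(m, j) = z m j` for `N ≤ j < 2N` and `0` otherwise, on `ℤ` (or shift everything by `R` in `ℕ`). For each `m`,
`R ∑_n z'(m,n) = ∑_{j ∈ (N-R, 2N)} ∑_{i<R} z'(m, j+i)` with `N + R - 1 ≤ 2N` values of `j`. Cauchy:
`R^2 |∑_n z'|^2 ≤ 2N ∑_j |∑_{i<R} z'(m,j+i)|^2 = 2N ∑_{i,i'<R} ∑_j z'(m,j+i) conj z'(m,j+i') = 2N ∑_{i,i'<R} c_m(i-i')`,
`c_m(r) = ∑_n z'(m,n+r) conj z'(m,n)`, `c_m(-r) = conj c_m(r)`. Sum over `m ∈ s`; the terms `i = i'` (there are `R`) give `R ∑_m ∑_n |z|^2`, and each `r = |i-i'| ∈ [1,R)`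
occurs at most `2R` times (with `r` and `-r` together): total `≤ 2N (R ∑∑|z|^2 + 2R ∑_{r ∈ [1,R)} ‖∑_m c_m(r)‖)`. Divide by `R^2`. For `1 ≤ r < R ≤ N` the sum `c_m(r)` runs over `n ∈ Ico N (2N - r)`.
-/

namespace Pool.Agent.LibHG31.TT

open Finset
open scoped ComplexConjugate

private theorem T18_dist (R i : ℕ) (hi : i < R) (T : ℕ → ℝ) (hT : ∀ r, 0 ≤ T r) :
    ∑ i' ∈ range R, T ((i - i') + (i' - i)) ≤ T 0 + 2 * ∑ r ∈ Ico 1 R, T r := by
  have h1 : ∑ i' ∈ range R, T ((i - i') + (i' - i)) =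
      ∑ i' ∈ range i, T ((i - i') + (i' - i)) + ∑ i' ∈ Ico i R, T ((i - i') + (i' - i)) := by
    rw [Finset.range_eq_Ico, Finset.range_eq_Ico, Finset.sum_Ico_consecutive _ (Nat.zero_le i) hi.le]
  have hR : ∑ r ∈ Ico 1 R, T r = ∑ k ∈ range (R - 1), T (1 + k) := Finset.sum_Ico_eq_sum_range _ _ _
  have h2 : ∑ i' ∈ range i, T ((i - i') + (i' - i)) ≤ ∑ r ∈ Ico 1 R, T r := by
    rw [hR, ← Finset.sum_range_reflect]
    have h3 : ∀ j ∈ range i, T ((i - (i - 1 - j)) + ((i - 1 - j) - i)) = T (1 + j) := by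
      intro j hj
      rw [mem_range] at hj
      congr 1
      omega
    rw [Finset.sum_congr rfl h3]
    apply Finset.sum_le_sum_of_subset_of_nonneg
    · intro j hj
      rw [mem_range] at hj ⊢
      omega
    · intro _ _ _
      exact hT _
  have h4 : ∑ i' ∈ Ico i R, T ((i - i') + (i' - i)) ≤ T 0 + ∑ r ∈ Ico 1 R, T r := by
    rw [Finset.sum_eq_sum_Ico_succ_bot hi]
    apply add_le_add
    · simp
    · rw [hR, Finset.sum_Ico_eq_sum_range]
      have h3 : ∀ j ∈ range (R - (i + 1)), T ((i - (i + 1 + j)) + ((i + 1 + j) - i)) = T (1 + j) := by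
        intro j hj
        congr 1
        omega
      rw [Finset.sum_congr rfl h3]
      apply Finset.sum_le_sum_of_subset_of_nonneg
      · intro j hj
        rw [mem_range] at hj ⊢
        omega
      · intro _ _ _
        exact hT _
  rw [h1]
  linarith

theorem vdc (N R : ℕ) (hR : 1 ≤ R) (hRN : R ≤ N) (s : Finset ℕ) (z : ℕ → ℕ → ℂ) :
    ∑ m ∈ s, ‖∑ n ∈ Ico N (2 * N), z m n‖ ^ 2 ≤
      (2 * N / R : ℝ) * (∑ m ∈ s, ∑ n ∈ Ico N (2 * N), ‖z m n‖ ^ 2 +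
        2 * ∑ r ∈ Ico 1 R, ‖∑ n ∈ Ico N (2 * N - r), ∑ m ∈ s, z m (n + r) * conj (z m n)‖) := by
  classical
  set Z : ℕ → ℕ → ℂ := fun m j => if N ≤ j ∧ j < 2 * N then z m j else 0 with hZ
  have hZin : ∀ m j, N ≤ j → j < 2 * N → Z m j = z m j := by
    intro m j h1 h2
    rw [hZ]
    simp [h1, h2]
  have hZout : ∀ m j, ¬ (N ≤ j ∧ j < 2 * N) → Z m j = 0 := by
    intro m j h
    rw [hZ]
    simp only
    rw [if_neg h]
  have hRr : (0 : ℝ) < R := by exact_mod_cast hR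
  -- shifted windows
  have hwin : ∀ (F : ℕ → ℂ) (i : ℕ), i < R → (∀ n, ¬ (N ≤ n ∧ n < 2 * N) → F n = 0) →
      ∑ j ∈ Ico (N + 1 - R) (2 * N), F (j + i) = ∑ n ∈ Ico N (2 * N), F n := by
    intro F i hi hF
    rw [Finset.sum_Ico_add' F (N + 1 - R) (2 * N) i]
    symm
    apply Finset.sum_subset
    · intro n hn
      rw [mem_Ico] at hn ⊢
      omega
    · intro n _ hn
      apply hF
      rwa [mem_Ico] at hn
  -- correlation
  set Cm : ℕ → ℕ → ℂ := fun m r => ∑ n ∈ Ico N (2 * N - r), z m (n + r) * conj (z m n) with hCm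
  have hcorr : ∀ m i i', i < R → i' < R → i' ≤ i →
      ∑ j ∈ Ico (N + 1 - R) (2 * N), Z m (j + i) * conj (Z m (j + i')) = Cm m (i - i') := by
    intro m i i' hi hi' hle
    have h1 : ∑ j ∈ Ico (N + 1 - R) (2 * N), Z m (j + i) * conj (Z m (j + i')) =
        ∑ j ∈ Ico (N + 1 - R) (2 * N), (fun n => Z m (n + (i - i')) * conj (Z m n)) (j + i') := by
      refine Finset.sum_congr rfl fun j _ => ?_
      simp only
      congr 2
      omega
    rw [h1, hwin (fun n => Z m (n + (i - i')) * conj (Z m n)) i' hi' (by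
      intro n hn
      change Z m (n + (i - i')) * conj (Z m n) = 0
      rw [hZout m n hn, map_zero, mul_zero])]
    rw [hCm]
    simp only
    symm
    have h2 : ∑ n ∈ Ico N (2 * N - (i - i')), z m (n + (i - i')) * conj (z m n) =
        ∑ n ∈ Ico N (2 * N - (i - i')), Z m (n + (i - i')) * conj (Z m n) := by
      refine Finset.sum_congr rfl fun n hn => ?_
      rw [mem_Ico] at hn
      rw [hZin m (n + (i - i')) (by omega) (by omega), hZin m n hn.1 (by omega)]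
    rw [h2]
    apply Finset.sum_subset
    · intro n hn
      rw [mem_Ico] at hn ⊢
      omega
    · intro n hn hn'
      rw [mem_Ico] at hn hn'
      rw [hZout m (n + (i - i')) (by omega), zero_mul]
  set T : ℕ → ℝ := fun r => ‖∑ m ∈ s, Cm m r‖ with hT
  have hT0 : ∀ r, 0 ≤ T r := fun r => norm_nonneg _
  -- T 0
  have hTzero : T 0 = ∑ m ∈ s, ∑ n ∈ Ico N (2 * N), ‖z m n‖ ^ 2 := by
    have h1 : ∑ m ∈ s, Cm m 0 = ((∑ m ∈ s, ∑ n ∈ Ico N (2 * N), ‖z m n‖ ^ 2 : ℝ) : ℂ) := by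
      rw [hCm]
      push_cast
      refine Finset.sum_congr rfl fun m _ => ?_
      simp only [Nat.sub_zero, add_zero]
      refine Finset.sum_congr rfl fun n _ => ?_
      rw [Complex.mul_conj, Complex.normSq_eq_norm_sq]
      push_cast
      rfl
    rw [hT]
    simp only
    rw [h1, Complex.norm_real, Real.norm_eq_abs, abs_of_nonneg]
    exact Finset.sum_nonneg fun m _ => Finset.sum_nonneg fun n _ => by positivity
  have hTr : ∀ r, T r = ‖∑ n ∈ Ico N (2 * N - r), ∑ m ∈ s, z m (n + r) * conj (z m n)‖ := by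
    intro r
    rw [hT]
    simp only
    rw [hCm]
    simp only
    rw [Finset.sum_comm]
  -- the pair sum
  have hpair : ∑ m ∈ s, ∑ j ∈ Ico (N + 1 - R) (2 * N), ‖∑ i ∈ range R, Z m (j + i)‖ ^ 2 ≤
      ∑ i ∈ range R, ∑ i' ∈ range R, T ((i - i') + (i' - i)) := by
    have h1 : ((∑ m ∈ s, ∑ j ∈ Ico (N + 1 - R) (2 * N), ‖∑ i ∈ range R, Z m (j + i)‖ ^ 2 : ℝ) : ℂ) =
        ∑ i ∈ range R, ∑ i' ∈ range R, ∑ m ∈ s, ∑ j ∈ Ico (N + 1 - R) (2 * N), Z m (j + i) * conj (Z m (j + i')) := by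
      push_cast
      have h2 : ∀ m ∈ s, ∑ j ∈ Ico (N + 1 - R) (2 * N), ((‖∑ i ∈ range R, Z m (j + i)‖ : ℝ) : ℂ) ^ 2 =
          ∑ i ∈ range R, ∑ i' ∈ range R, ∑ j ∈ Ico (N + 1 - R) (2 * N), Z m (j + i) * conj (Z m (j + i')) := by
        intro m _
        have h3 : ∀ j ∈ Ico (N + 1 - R) (2 * N), ((‖∑ i ∈ range R, Z m (j + i)‖ : ℝ) : ℂ) ^ 2 =
            ∑ i ∈ range R, ∑ i' ∈ range R, Z m (j + i) * conj (Z m (j + i')) := by
          intro j _
          rw [← Complex.ofReal_pow, ← Complex.normSq_eq_norm_sq, ← Complex.mul_conj, map_sum, Finset.sum_mul_sum]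
        rw [Finset.sum_congr rfl h3, Finset.sum_comm]
        refine Finset.sum_congr rfl fun i _ => ?_
        rw [Finset.sum_comm]
      rw [Finset.sum_congr rfl h2, Finset.sum_comm]
      refine Finset.sum_congr rfl fun i _ => ?_
      rw [Finset.sum_comm]
    have hnn : 0 ≤ ∑ m ∈ s, ∑ j ∈ Ico (N + 1 - R) (2 * N), ‖∑ i ∈ range R, Z m (j + i)‖ ^ 2 :=
      Finset.sum_nonneg fun m _ => Finset.sum_nonneg fun j _ => by positivity
    have h4 : ∑ m ∈ s, ∑ j ∈ Ico (N + 1 - R) (2 * N), ‖∑ i ∈ range R, Z m (j + i)‖ ^ 2 =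
        ‖((∑ m ∈ s, ∑ j ∈ Ico (N + 1 - R) (2 * N), ‖∑ i ∈ range R, Z m (j + i)‖ ^ 2 : ℝ) : ℂ)‖ := by
      rw [Complex.norm_real, Real.norm_eq_abs, abs_of_nonneg hnn]
    rw [h4, h1]
    refine (norm_sum_le _ _).trans (Finset.sum_le_sum fun i hi => ?_)
    refine (norm_sum_le _ _).trans (Finset.sum_le_sum fun i' hi' => ?_)
    rw [mem_range] at hi hi'
    rcases le_total i' i with h | h
    · have h5 : (i - i') + (i' - i) = i - i' := by omega
      rw [h5]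
      apply le_of_eq
      rw [hT]
      simp only
      congr 1
      exact Finset.sum_congr rfl fun m _ => hcorr m i i' hi hi' h
    · have h5 : (i - i') + (i' - i) = i' - i := by omega
      rw [h5]
      apply le_of_eq
      rw [hT]
      simp only
      rw [← Complex.norm_conj, map_sum]
      congr 1
      refine Finset.sum_congr rfl fun m _ => ?_
      rw [← hcorr m i' i hi' hi h, map_sum]
      refine Finset.sum_congr rfl fun j _ => ?_
      rw [map_mul, Complex.conj_conj, mul_comm]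
  have hpair2 : ∑ i ∈ range R, ∑ i' ∈ range R, T ((i - i') + (i' - i)) ≤ R * (T 0 + 2 * ∑ r ∈ Ico 1 R, T r) := by
    calc ∑ i ∈ range R, ∑ i' ∈ range R, T ((i - i') + (i' - i)) ≤
          ∑ i ∈ range R, (T 0 + 2 * ∑ r ∈ Ico 1 R, T r) :=
          Finset.sum_le_sum fun i hi => T18_dist R i (mem_range.1 hi) T hT0
      _ = _ := by rw [Finset.sum_const, card_range, nsmul_eq_mul]
  -- Cauchy
  have hcauchy : ∀ m ∈ s, (R : ℝ) ^ 2 * ‖∑ n ∈ Ico N (2 * N), z m n‖ ^ 2 ≤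
      (2 * N) * ∑ j ∈ Ico (N + 1 - R) (2 * N), ‖∑ i ∈ range R, Z m (j + i)‖ ^ 2 := by
    intro m _
    have h1 : (R : ℂ) * ∑ n ∈ Ico N (2 * N), z m n = ∑ j ∈ Ico (N + 1 - R) (2 * N), ∑ i ∈ range R, Z m (j + i) := by
      rw [Finset.sum_comm]
      have h2 : ∀ i ∈ range R, ∑ j ∈ Ico (N + 1 - R) (2 * N), Z m (j + i) = ∑ n ∈ Ico N (2 * N), z m n := by
        intro i hi
        rw [hwin (Z m) i (mem_range.1 hi) (hZout m)]
        refine Finset.sum_congr rfl fun n hn => ?_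
        rw [mem_Ico] at hn
        exact hZin m n hn.1 hn.2
      rw [Finset.sum_congr rfl h2, Finset.sum_const, card_range, nsmul_eq_mul]
    have h3 : (R : ℝ) * ‖∑ n ∈ Ico N (2 * N), z m n‖ ≤ ∑ j ∈ Ico (N + 1 - R) (2 * N), ‖∑ i ∈ range R, Z m (j + i)‖ := by
      have h4 : (R : ℝ) * ‖∑ n ∈ Ico N (2 * N), z m n‖ = ‖(R : ℂ) * ∑ n ∈ Ico N (2 * N), z m n‖ := by
        rw [norm_mul, Complex.norm_natCast]
      rw [h4, h1]
      exact norm_sum_le _ _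
    have h6 : (∑ j ∈ Ico (N + 1 - R) (2 * N), ‖∑ i ∈ range R, Z m (j + i)‖) ^ 2 ≤
        ((Ico (N + 1 - R) (2 * N)).card : ℝ) * ∑ j ∈ Ico (N + 1 - R) (2 * N), ‖∑ i ∈ range R, Z m (j + i)‖ ^ 2 :=
      sq_sum_le_card_mul_sum_sq
    have h7 : ((Ico (N + 1 - R) (2 * N)).card : ℝ) ≤ 2 * N := by
      rw [Nat.card_Ico]
      exact_mod_cast Nat.sub_le _ _
    calc (R : ℝ) ^ 2 * ‖∑ n ∈ Ico N (2 * N), z m n‖ ^ 2 = ((R : ℝ) * ‖∑ n ∈ Ico N (2 * N), z m n‖) ^ 2 := by ring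
      _ ≤ (∑ j ∈ Ico (N + 1 - R) (2 * N), ‖∑ i ∈ range R, Z m (j + i)‖) ^ 2 :=
          pow_le_pow_left₀ (by positivity) h3 2
      _ ≤ _ := h6
      _ ≤ _ := mul_le_mul_of_nonneg_right h7 (Finset.sum_nonneg fun j _ => by positivity)
  have hfin : (R : ℝ) ^ 2 * ∑ m ∈ s, ‖∑ n ∈ Ico N (2 * N), z m n‖ ^ 2 ≤
      (2 * N) * (R * (T 0 + 2 * ∑ r ∈ Ico 1 R, T r)) := by
    rw [Finset.mul_sum]
    refine (Finset.sum_le_sum hcauchy).trans ?_
    rw [← Finset.mul_sum]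
    exact mul_le_mul_of_nonneg_left (hpair.trans hpair2) (by positivity)
  have hTeq : ∑ r ∈ Ico 1 R, T r = ∑ r ∈ Ico 1 R, ‖∑ n ∈ Ico N (2 * N - r), ∑ m ∈ s, z m (n + r) * conj (z m n)‖ :=
    Finset.sum_congr rfl fun r _ => hTr r
  rw [← hTzero, ← hTeq]
  have h8 : (2 * N / R : ℝ) * (T 0 + 2 * ∑ r ∈ Ico 1 R, T r) =
      ((2 * N) * (R * (T 0 + 2 * ∑ r ∈ Ico 1 R, T r))) / (R : ℝ) ^ 2 := by
    field_simp
  rw [h8, le_div_iff₀ (by positivity)]
  linarith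

end Pool.Agent.LibHG31.TT
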