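import Pool.Agent.LibHG31.T1

/-! # HG31 block TT, row T19: truncation of the digits -/

namespace Pool.Agent.LibHG31.TT

open Finset
open scoped ComplexConjugate

theorem fd_trunc (b u L lam k δ : ℕ) (hb : 2 ≤ b) (hlam : lam ≤ L - u) (hno : k % b ^ lam + δ < b ^ lam)
    (α : ℕ → ℝ) (ω : ℕ → ℕ → ℂ) :
    fd b u L α ω (k + δ) * conj (fd b u L α ω k) =
      gf b u lam α (ω (k / b ^ (L - u))) (k + δ) * conj (gf b u lam α (ω (k / b ^ (L - u))) k) := by
  have hpos : 0 < b ^ lam := by positivity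
  have h1 : (k + δ) / b ^ lam = k / b ^ lam := by
    have e := Nat.div_add_mod k (b ^ lam)
    have e2 : k + δ = (k % b ^ lam + δ) + b ^ lam * (k / b ^ lam) := by omega
    conv_lhs => rw [e2]
    rw [Nat.add_mul_div_left _ _ hpos, Nat.div_eq_of_lt hno, zero_add]
  have h2 : (k + δ) / b ^ (L - u) = k / b ^ (L - u) := by
    obtain ⟨m, hm⟩ : ∃ m, L - u = lam + m := ⟨L - u - lam, by omega⟩
    rw [hm, pow_add, ← Nat.div_div_eq_div_mul, ← Nat.div_div_eq_div_mul, h1]
  have h3 : ∀ n, dp b L α n = dp b lam α n + ∑ j ∈ Ico lam L, α j * dg b j n := by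
    intro n
    unfold dp
    rw [Finset.range_eq_Ico, Finset.range_eq_Ico, sum_Ico_consecutive _ (by omega) (by omega)]
  have h4 : ∑ j ∈ Ico lam L, α j * (dg b j (k + δ) : ℝ) = ∑ j ∈ Ico lam L, α j * (dg b j k : ℝ) := by
    refine sum_congr rfl fun j hj => ?_
    rw [mem_Ico] at hj
    rw [dg_eq_of_div_eq b lam j (k + δ) k hj.1 h1]
  unfold fd gf
  rw [h2, h3 (k + δ), h3 k, h4]
  set T := ∑ j ∈ Ico lam L, α j * (dg b j k : ℝ) with hT
  rw [ee_add, ee_add, map_mul, map_mul, map_mul]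
  have h5 := ee_mul_conj T
  calc ω (k / b ^ (L - u)) ((k + δ) % b ^ u) * (ee (dp b lam α (k + δ)) * ee T) *
        (conj (ω (k / b ^ (L - u)) (k % b ^ u)) * (conj (ee (dp b lam α k)) * conj (ee T)))
      = ω (k / b ^ (L - u)) ((k + δ) % b ^ u) * ee (dp b lam α (k + δ)) *
        (conj (ω (k / b ^ (L - u)) (k % b ^ u)) * conj (ee (dp b lam α k))) * (ee T * conj (ee T)) := by
          ring
    _ = _ := by rw [h5, mul_one]

end Pool.Agent.LibHG31.TT
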