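import Pool.Agent.LibHG31.T2a

/-!
# ROW T2b (HG31 block TT): Parseval and inversion for `FF`

PLANS.
* `parseval_FF`: `parseval` (T2a) with `N = b^L`, `a = gf`, `‖gf‖ ≤ 1` (`norm_gf_le`). `parseval_FF_one`: same with `‖gf‖ = 1`.
* `gf_eq_sum`: reduce to `k < b^L` by `gf_mod` (and `ee (h * k / b^L)` depends only on `k % b^L`), then
  unfold `FF`, interchange and `orth` (`∑_h ee (h (k - k')/b^L) = b^L 1[k = k']`).
-/

namespace Pool.Agent.LibHG31.TT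

open Finset
open scoped ComplexConjugate

theorem parseval_FF_aux (b K L : ℕ) (hb : 0 < b) (α : ℕ → ℝ) (w : ℕ → ℂ) (x₀ : ℝ) :
    ∑ h ∈ range (b ^ L), ‖FF b K L α w (x₀ + h / (b : ℝ) ^ L)‖ ^ 2 =
      (∑ k ∈ range (b ^ L), ‖gf b K L α w k‖ ^ 2) / (b : ℝ) ^ L := by
  have hb' : (0 : ℝ) < (b : ℝ) ^ L := by positivity
  have h := parseval (b ^ L) (by positivity) (gf b K L α w) x₀
  unfold FF
  simp_rw [norm_div, norm_pow, Complex.norm_natCast, div_pow]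
  rw [← sum_div]
  push_cast at h
  rw [h]
  field_simp

theorem parseval_FF (b K L : ℕ) (hb : 0 < b) (α : ℕ → ℝ) (w : ℕ → ℂ) (hw : ∀ v, ‖w v‖ ≤ 1)
    (x₀ : ℝ) :
    ∑ h ∈ range (b ^ L), ‖FF b K L α w (x₀ + h / (b : ℝ) ^ L)‖ ^ 2 ≤ 1 := by
  rw [parseval_FF_aux b K L hb]
  apply div_le_one_of_le₀ _ (by positivity)
  calc ∑ k ∈ range (b ^ L), ‖gf b K L α w k‖ ^ 2 ≤ ∑ k ∈ range (b ^ L), (1 : ℝ) := by
        refine sum_le_sum fun k _ => ?_
        exact pow_le_one₀ (norm_nonneg _) (norm_gf_le b K L α w hw k)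
    _ = (b : ℝ) ^ L := by simp

/-- for the trivial suffix function there is equality -/
theorem parseval_FF_one (b L : ℕ) (hb : 0 < b) (α : ℕ → ℝ) (x₀ : ℝ) :
    ∑ h ∈ range (b ^ L), ‖FF b 0 L α (fun _ => 1) (x₀ + h / (b : ℝ) ^ L)‖ ^ 2 = 1 := by
  rw [parseval_FF_aux b 0 L hb]
  have h1 : ∀ k, ‖gf b 0 L α (fun _ => 1) k‖ = 1 := by
    intro k
    unfold gf
    simp
  simp_rw [h1]
  have hb' : (0 : ℝ) < (b : ℝ) ^ L := by positivity
  simp [hb'.ne']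

/-- Fourier inversion -/
theorem gf_eq_sum (b K L : ℕ) (hb : 0 < b) (hKL : K ≤ L) (α : ℕ → ℝ) (w : ℕ → ℂ) (k : ℕ) :
    gf b K L α w k =
      ∑ h ∈ range (b ^ L), FF b K L α w (h / (b : ℝ) ^ L) * ee (h * k / (b : ℝ) ^ L) := by
  have hb' : (0 : ℝ) < (b : ℝ) ^ L := by positivity
  have hbC : ((b : ℂ) ^ L) ≠ 0 := by
    have : (b : ℂ) ≠ 0 := by exact_mod_cast hb.ne'
    exact pow_ne_zero _ this
  have hN : 0 < b ^ L := by positivity
  symm
  have h1 : ∀ h : ℕ, FF b K L α w (h / (b : ℝ) ^ L) * ee (h * k / (b : ℝ) ^ L) =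
      ∑ k' ∈ range (b ^ L), (gf b K L α w k' / (b : ℂ) ^ L) *
        ee ((((k : ℤ) - k' : ℤ) : ℝ) * h / ((b ^ L : ℕ) : ℝ)) := by
    intro h
    unfold FF
    rw [div_mul_eq_mul_div, sum_mul, sum_div]
    refine sum_congr rfl fun k' _ => ?_
    have e1 : ee (-(k' * (h / (b : ℝ) ^ L))) * ee (h * k / (b : ℝ) ^ L) =
        ee ((((k : ℤ) - k' : ℤ) : ℝ) * h / ((b ^ L : ℕ) : ℝ)) := by
      rw [← ee_add]
      congr 1
      push_cast
      field_simp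
      ring
    rw [mul_assoc, e1]
    ring
  rw [sum_congr rfl fun h _ => h1 h, sum_comm]
  simp_rw [← mul_sum]
  rw [sum_eq_single (k % b ^ L)]
  · rw [orth (b ^ L) hN, if_pos, gf_mod b K L hKL]
    · push_cast
      field_simp
    · have := Nat.div_add_mod k (b ^ L)
      refine ⟨(k / b ^ L : ℕ), ?_⟩
      push_cast
      zify at this
      linarith
  · intro k' hk' hne
    rw [orth (b ^ L) hN, if_neg, mul_zero]
    intro hdvd
    apply hne
    have h2 : k' ≡ k [MOD b ^ L] := (Nat.modEq_iff_dvd).2 hdvd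
    rw [mem_range] at hk'
    rw [← h2, Nat.mod_eq_of_lt hk']
  · intro h
    exact absurd (mem_range.2 (Nat.mod_lt _ hN)) h

end Pool.Agent.LibHG31.TT
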