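import Pool.Agent.LibHG31.T2a
import Pool.Agent.LibHG31.T2b

/-! (no content, not a row: collects T2a and T2b) -/
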