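import Mathlib

/-!
# ROW T20 (HG31 block TT): counting the pairs with a carry (only Mathlib)

PLAN. Interchange the sums. Fix `m ∈ [M, 2M)` (`m ≥ 1`) and put `j = m n / B + 1`; the condition `B ≤ (m n) % B + m r` means `j B - m r ≤ m n < j B`, i.e. `n` lies in a half-open interval of
(real) length `r`, so for each `j` there are at most `r` values of `n` (two values `n < n'` with the same `j` satisfy `m (n' - n) < m r`; so all of them lie in `[n₀, n₀ + r)`, `n₀` the smallest).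
`j - 1 = m n / B ≤ 4 M N / B`, so there are at most `4MN/B + 1` values of `j`. Total `≤ M (4MN/B + 1) r ≤ M (4 M N/B + 1) b^u`; `B ≥ M b^(2u+2) ≥ 4 M b^(2u)` gives `4MN/B ≤ N/b^(2u)`;
`M b^u N/b^(2u) + M b^u ≤ 2 M N/b^u` (`b^(2u) ≤ N`).
-/

namespace Pool.Agent.LibHG31.TT

open Finset

private theorem T20_fiber (M N r B m j : ℕ) (hm : 1 ≤ m) (hB : 0 < B) :
    #{n ∈ {n ∈ Ico N (2 * N) | B ≤ (m * n) % B + m * r} | m * n / B = j} ≤ r := by
  set F : Finset ℕ := {n ∈ {n ∈ Ico N (2 * N) | B ≤ (m * n) % B + m * r} | m * n / B = j} with hF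
  rcases F.eq_empty_or_nonempty with h | h
  · rw [h]; simp
  · have hsub : F ⊆ Ico (F.min' h) (F.min' h + r) := by
      intro n hn
      have hle : F.min' h ≤ n := Finset.min'_le F n hn
      have hmin := Finset.min'_mem F h
      set n0 := F.min' h with hn0
      rw [hF, mem_filter, mem_filter] at hn hmin
      obtain ⟨⟨_, a2⟩, a3⟩ := hn
      obtain ⟨⟨_, b2⟩, b3⟩ := hmin
      rw [mem_Ico]
      refine ⟨hle, ?_⟩
      have e1 := Nat.div_add_mod (m * n) B
      have e2 := Nat.div_add_mod (m * n0) B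
      rw [a3] at e1
      rw [b3] at e2
      have e3 := Nat.mod_lt (m * n) hB
      have e4 : m * n < m * n0 + m * r := by omega
      rw [← mul_add] at e4
      exact Nat.lt_of_mul_lt_mul_left e4
    have := Finset.card_le_card hsub
    rw [Nat.card_Ico] at this
    omega

private theorem T20_one (M N r B m : ℕ) (hm : m ∈ Ico M (2 * M)) (hM : 1 ≤ M) (hB : 0 < B) :
    #{n ∈ Ico N (2 * N) | B ≤ (m * n) % B + m * r} ≤ r * (4 * M * N / B + 1) := by
  rw [mem_Ico] at hm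
  have h1 := Finset.card_le_mul_card_image_of_maps_to
    (s := {n ∈ Ico N (2 * N) | B ≤ (m * n) % B + m * r}) (t := range (4 * M * N / B + 1))
    (f := fun n => m * n / B) (fun n hn => by
      rw [mem_filter, mem_Ico] at hn
      rw [mem_range, Nat.lt_succ_iff]
      apply Nat.div_le_div_right
      have : m * n ≤ (2 * M) * (2 * N) := Nat.mul_le_mul hm.2.le hn.1.2.le
      calc m * n ≤ (2 * M) * (2 * N) := this
        _ = 4 * M * N := by ring) r
    (fun j _ => T20_fiber M N r B m j (by omega) hB)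
  rwa [card_range] at h1

theorem exc_count (b u M N r B : ℕ) (hb : 2 ≤ b) (hM : 1 ≤ M) (hB : M * b ^ (2 * u + 2) ≤ B)
    (hr : r < b ^ u) (hN : b ^ (2 * u) ≤ N) :
    ((∑ n ∈ Ico N (2 * N), #{m ∈ Ico M (2 * M) | B ≤ (m * n) % B + m * r} : ℕ) : ℝ) ≤
      4 * M * N / (b : ℝ) ^ u := by
  have hb0 : 0 < b := by omega
  have hBpos : 0 < B := lt_of_lt_of_le (Nat.mul_pos (by omega) (pow_pos hb0 _)) hB
  have hswap : ∑ n ∈ Ico N (2 * N), #{m ∈ Ico M (2 * M) | B ≤ (m * n) % B + m * r} =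
      ∑ m ∈ Ico M (2 * M), #{n ∈ Ico N (2 * N) | B ≤ (m * n) % B + m * r} := by
    simp only [Finset.card_filter]
    exact Finset.sum_comm
  rw [hswap]
  have h1 : ∑ m ∈ Ico M (2 * M), #{n ∈ Ico N (2 * N) | B ≤ (m * n) % B + m * r} ≤
      M * (r * (4 * M * N / B + 1)) := by
    refine (Finset.sum_le_sum fun m hm => T20_one M N r B m hm hM hBpos).trans ?_
    rw [Finset.sum_const, Nat.card_Ico, smul_eq_mul]
    apply Nat.mul_le_mul_right
    omega
  have hbR : (2 : ℝ) ≤ b := by exact_mod_cast hb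
  have hbu : (0 : ℝ) < (b : ℝ) ^ u := by positivity
  have hMR : (1 : ℝ) ≤ M := by exact_mod_cast hM
  have hBR : (0 : ℝ) < B := by exact_mod_cast hBpos
  have hrR : (r : ℝ) ≤ (b : ℝ) ^ u := by exact_mod_cast hr.le
  have hNR : (b : ℝ) ^ (2 * u) ≤ N := by exact_mod_cast hN
  have hB4 : 4 * (M : ℝ) * (b : ℝ) ^ (2 * u) ≤ B := by
    have h2 : (M : ℝ) * (b : ℝ) ^ (2 * u + 2) ≤ B := by exact_mod_cast hB
    have h3 : (4 : ℝ) ≤ (b : ℝ) ^ 2 := by nlinarith
    have h4 : (b : ℝ) ^ (2 * u + 2) = (b : ℝ) ^ (2 * u) * (b : ℝ) ^ 2 := pow_add _ _ _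
    have h5 : 0 ≤ (M : ℝ) * (b : ℝ) ^ (2 * u) := by positivity
    rw [h4] at h2
    nlinarith
  have hq : 4 * (M : ℝ) * N / B ≤ N / (b : ℝ) ^ (2 * u) := by
    rw [div_le_div_iff₀ hBR (by positivity)]
    have h5 : (0 : ℝ) ≤ N := Nat.cast_nonneg _
    nlinarith [mul_le_mul_of_nonneg_left hB4 h5]
  have hone : (1 : ℝ) ≤ N / (b : ℝ) ^ (2 * u) := by
    rw [le_div_iff₀ (by positivity)]
    linarith
  have h2 : ((∑ m ∈ Ico M (2 * M), #{n ∈ Ico N (2 * N) | B ≤ (m * n) % B + m * r} : ℕ) : ℝ) ≤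
      ((M * (r * (4 * M * N / B + 1)) : ℕ) : ℝ) := by exact_mod_cast h1
  refine h2.trans ?_
  push_cast
  have h3 : (((4 * M * N / B : ℕ) : ℝ)) ≤ 4 * (M : ℝ) * N / B := by
    have := @Nat.cast_div_le ℝ _ _ _ (4 * M * N) B
    push_cast at this
    exact this
  calc (M : ℝ) * (r * (((4 * M * N / B : ℕ) : ℝ) + 1))
      ≤ M * ((b : ℝ) ^ u * (N / (b : ℝ) ^ (2 * u) + N / (b : ℝ) ^ (2 * u))) := by
        apply mul_le_mul_of_nonneg_left _ (by positivity)
        apply mul_le_mul hrR (by linarith) (by positivity) (by positivity)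
    _ = 2 * M * N / (b : ℝ) ^ u := by
        have : (b : ℝ) ^ (2 * u) = (b : ℝ) ^ u * (b : ℝ) ^ u := by rw [two_mul, pow_add]
        rw [this]
        field_simp
        ring
    _ ≤ 4 * M * N / (b : ℝ) ^ u := by
        apply div_le_div_of_nonneg_right _ hbu.le
        have : (0 : ℝ) ≤ (M : ℝ) * N := by positivity
        linarith

end Pool.Agent.LibHG31.TT
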