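import Pool.Agent.LibHG31.T0

/-!
# ROW T21 (HG31 block TT): geometric sums, intervals
-/

namespace Pool.Agent.LibHG31.TT

open Finset

theorem norm_geo_le (M₁ M₂ : ℕ) (β X : ℝ) (hX0 : 0 < X) (hX : (M₂ : ℝ) - M₁ ≤ X) :
    ‖∑ m ∈ Ico M₁ M₂, ee (m * β)‖ ≤ 2 * mm X β := by
  have hnd := nd_nonneg β
  have hmm : 0 ≤ mm X β := mm_nonneg X β hX0.le
  rcases le_total M₂ M₁ with h | h
  · rw [Finset.Ico_eq_empty_of_le h, Finset.sum_empty, norm_zero]
    linarith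
  · have h1 : ‖∑ m ∈ Ico M₁ M₂, ee (m * β)‖ ≤ X := by
      refine (norm_sum_le _ _).trans ?_
      simp only [norm_ee, Finset.sum_const, Nat.card_Ico, nsmul_eq_mul, mul_one]
      rw [Nat.cast_sub h]
      exact hX
    have h2 : (∑ m ∈ Ico M₁ M₂, ee (m * β)) * (ee β - 1) = ee (M₂ * β) - ee (M₁ * β) := by
      have h3 : ∀ m : ℕ, ee (m * β) * (ee β - 1) = ee ((m + 1 : ℕ) * β) - ee (m * β) := by
        intro m
        have : ((m + 1 : ℕ) : ℝ) * β = m * β + β := by push_cast; ring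
        rw [this, ee_add]
        ring
      rw [Finset.sum_mul, Finset.sum_congr rfl fun m _ => h3 m]
      exact Finset.sum_Ico_sub (fun m : ℕ => ee (m * β)) h
    have h4 : ‖∑ m ∈ Ico M₁ M₂, ee (m * β)‖ * (4 * nd β) ≤ 2 := by
      calc ‖∑ m ∈ Ico M₁ M₂, ee (m * β)‖ * (4 * nd β)
          ≤ ‖∑ m ∈ Ico M₁ M₂, ee (m * β)‖ * ‖ee β - 1‖ :=
            mul_le_mul_of_nonneg_left (four_nd_le β) (norm_nonneg _)
        _ = ‖ee (M₂ * β) - ee (M₁ * β)‖ := by rw [← norm_mul, h2]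
        _ ≤ ‖ee (M₂ * β)‖ + ‖ee (M₁ * β)‖ := norm_sub_le _ _
        _ = 2 := by rw [norm_ee, norm_ee]; norm_num
    unfold mm
    rw [← mul_div_assoc, le_div_iff₀ (by positivity)]
    have h5 : ‖∑ m ∈ Ico M₁ M₂, ee (m * β)‖ * nd β ≤ 1 / 2 := by linarith
    nlinarith

theorem interval_eq (M B n c : ℕ) (hn : 0 < n) (hB : 0 < B) : ∃ M₁ M₂ : ℕ,
    (Ico M (2 * M)).filter (fun m => m * n / B = c) = Ico M₁ M₂ ∧
      (M₂ : ℝ) - M₁ ≤ (B : ℝ) / n + 1 := by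
  have key : ∀ a m : ℕ, (a + n - 1) / n ≤ m ↔ a ≤ m * n := by
    intro a m
    rw [← Nat.lt_add_one_iff, Nat.div_lt_iff_lt_mul hn, Nat.add_mul, one_mul]
    omega
  refine ⟨max M ((c * B + n - 1) / n), min (2 * M) (((c + 1) * B + n - 1) / n), ?_, ?_⟩
  · ext m
    rw [Finset.mem_filter, Finset.mem_Ico, Finset.mem_Ico, max_le_iff, lt_min_iff, key]
    have h1 : m < ((c + 1) * B + n - 1) / n ↔ m * n < (c + 1) * B := by
      rw [← not_le, key, not_le]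
    have h2 : m * n / B = c ↔ c * B ≤ m * n ∧ m * n < (c + 1) * B := by
      rw [← Nat.le_div_iff_mul_le hB, ← Nat.div_lt_iff_lt_mul hB]
      omega
    rw [h1, h2]
    tauto
  · have hn' : (0 : ℝ) < n := by exact_mod_cast hn
    have h1 : ((((c + 1) * B + n - 1) / n : ℕ) : ℝ) ≤ ((c + 1) * B + n - 1 : ℝ) / n := by
      rw [le_div_iff₀ hn']
      have h2 : (((c + 1) * B + n - 1) / n) * n ≤ (c + 1) * B + n - 1 := Nat.div_mul_le_self _ _
      have h3 : (((c + 1) * B + n - 1) / n) * n + 1 ≤ (c + 1) * B + n := by omega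
      have h4 : ((((c + 1) * B + n - 1) / n : ℕ) : ℝ) * n + 1 ≤ ((c : ℝ) + 1) * B + n := by exact_mod_cast h3
      linarith
    have h2 : (c * B : ℝ) / n ≤ (((c * B + n - 1) / n : ℕ) : ℝ) := by
      rw [div_le_iff₀ hn']
      have h3 : c * B ≤ ((c * B + n - 1) / n) * n := (key (c * B) _).1 le_rfl
      exact_mod_cast h3
    have h3 : ((min (2 * M) (((c + 1) * B + n - 1) / n) : ℕ) : ℝ) ≤ ((((c + 1) * B + n - 1) / n : ℕ) : ℝ) := by
      exact_mod_cast min_le_right _ _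
    have h4 : (((c * B + n - 1) / n : ℕ) : ℝ) ≤ ((max M ((c * B + n - 1) / n) : ℕ) : ℝ) := by
      exact_mod_cast le_max_right _ _
    have h5 : ((c + 1) * B + n - 1 : ℝ) / n - (c * B : ℝ) / n ≤ (B : ℝ) / n + 1 := by
      rw [← sub_div, div_add_one hn'.ne', div_le_div_iff_of_pos_right hn']
      linarith
    linarith

end Pool.Agent.LibHG31.TT
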