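import Pool.Agent.LibHG31.T2
import Pool.Agent.LibHG31.T21

/-!
# ROW T22 (HG31 block TT): Fourier expansion of the correlation
-/

namespace Pool.Agent.LibHG31.TT

open Finset
open scoped ComplexConjugate

private theorem t22_expand (b u lam m n r : ℕ) (hb : 0 < b) (hu : u ≤ lam) (α : ℕ → ℝ) (w : ℕ → ℂ) :
    gf b u lam α w (m * n + m * r) * conj (gf b u lam α w (m * n)) =
      ∑ h ∈ range (b ^ lam), ∑ h' ∈ range (b ^ lam),
        FF b u lam α w (h / (b : ℝ) ^ lam) * conj (FF b u lam α w (h' / (b : ℝ) ^ lam)) *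
          ee (m * (((((h : ℤ) - h' : ℤ) : ℝ) * n + h * r) / (b : ℝ) ^ lam)) := by
  have hb' : (b : ℝ) ^ lam ≠ 0 := by positivity
  rw [gf_eq_sum b u lam hb hu α w (m * n + m * r), gf_eq_sum b u lam hb hu α w (m * n), map_sum,
    Finset.sum_mul_sum]
  refine sum_congr rfl fun h _ => sum_congr rfl fun h' _ => ?_
  rw [map_mul, conj_ee]
  have h1 : ee (h * ((m * n + m * r : ℕ) : ℝ) / (b : ℝ) ^ lam) * ee (-(h' * ((m * n : ℕ) : ℝ) / (b : ℝ) ^ lam)) =
      ee (m * (((((h : ℤ) - h' : ℤ) : ℝ) * n + h * r) / (b : ℝ) ^ lam)) := by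
    rw [← ee_add]
    congr 1
    push_cast
    field_simp
    ring
  rw [← h1]
  ring

theorem sum_U_le (b u L lam M N r : ℕ) (hb : 2 ≤ b) (hN : 1 ≤ N) (hu : u ≤ lam) (α : ℕ → ℝ)
    (ω : ℕ → ℕ → ℂ) (hω : ∀ c v, b ^ u ≤ c → ω c v = 0) :
    ∑ n ∈ Ico N (2 * N), ‖∑ m ∈ Ico M (2 * M),
      gf b u lam α (ω (m * n / b ^ (L - u))) (m * n + m * r) *
        conj (gf b u lam α (ω (m * n / b ^ (L - u))) (m * n))‖ ≤
    ∑ c ∈ range (b ^ u), ∑ h ∈ range (b ^ lam), ∑ h' ∈ range (b ^ lam),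
      ‖FF b u lam α (ω c) (h / (b : ℝ) ^ lam)‖ * ‖FF b u lam α (ω c) (h' / (b : ℝ) ^ lam)‖ *
        ∑ n ∈ Ico N (2 * N), 2 * mm ((b : ℝ) ^ (L - u) / N + 1)
          (((((h : ℤ) - h' : ℤ) : ℝ) * n + h * r) / (b : ℝ) ^ lam) := by
  have hb0 : 0 < b := by omega
  have hN0 : (0 : ℝ) < N := by exact_mod_cast hN
  have hX0 : (0 : ℝ) < (b : ℝ) ^ (L - u) / N + 1 := by positivity
  have hper : ∀ n ∈ Ico N (2 * N), ‖∑ m ∈ Ico M (2 * M),
      gf b u lam α (ω (m * n / b ^ (L - u))) (m * n + m * r) *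
        conj (gf b u lam α (ω (m * n / b ^ (L - u))) (m * n))‖ ≤
      ∑ c ∈ range (b ^ u), ∑ h ∈ range (b ^ lam), ∑ h' ∈ range (b ^ lam),
        ‖FF b u lam α (ω c) (h / (b : ℝ) ^ lam)‖ * ‖FF b u lam α (ω c) (h' / (b : ℝ) ^ lam)‖ *
          (2 * mm ((b : ℝ) ^ (L - u) / N + 1)
            (((((h : ℤ) - h' : ℤ) : ℝ) * n + h * r) / (b : ℝ) ^ lam)) := by
    intro n hn
    obtain ⟨hn1, hn2⟩ := Finset.mem_Ico.1 hn
    have hn0 : 0 < n := by omega
    have hnR : (0 : ℝ) < n := by exact_mod_cast hn0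
    have hnN : (N : ℝ) ≤ n := by exact_mod_cast hn1
    have hB0 : 0 < b ^ (L - u) := by positivity
    -- split by the prefix
    have hsplit : ∑ m ∈ Ico M (2 * M),
        gf b u lam α (ω (m * n / b ^ (L - u))) (m * n + m * r) *
          conj (gf b u lam α (ω (m * n / b ^ (L - u))) (m * n)) =
        ∑ c ∈ range (b ^ u), ∑ m ∈ (Ico M (2 * M)).filter (fun m => m * n / b ^ (L - u) = c),
          gf b u lam α (ω c) (m * n + m * r) * conj (gf b u lam α (ω c) (m * n)) := by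
      simp_rw [Finset.sum_filter]
      rw [Finset.sum_comm]
      refine sum_congr rfl fun m _ => ?_
      by_cases hc : m * n / b ^ (L - u) < b ^ u
      · rw [Finset.sum_ite_eq, if_pos (Finset.mem_range.2 hc)]
      · push Not at hc
        have hz : ∀ k, gf b u lam α (ω (m * n / b ^ (L - u))) k = 0 := by
          intro k
          unfold gf
          rw [hω _ _ hc, zero_mul]
        rw [hz, zero_mul]
        symm
        refine Finset.sum_eq_zero fun c hc' => ?_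
        rw [if_neg]
        rintro rfl
        exact absurd (Finset.mem_range.1 hc') (not_lt.2 hc)
    rw [hsplit]
    refine (norm_sum_le _ _).trans (Finset.sum_le_sum fun c _ => ?_)
    obtain ⟨M₁, M₂, hI, hlen⟩ := interval_eq M (b ^ (L - u)) n c hn0 hB0
    rw [hI]
    have hlen' : (M₂ : ℝ) - M₁ ≤ (b : ℝ) ^ (L - u) / N + 1 := by
      refine hlen.trans ?_
      push_cast
      have : (b : ℝ) ^ (L - u) / n ≤ (b : ℝ) ^ (L - u) / N :=
        div_le_div_of_nonneg_left (by positivity) hN0 hnN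
      linarith
    have hex : ∑ m ∈ Ico M₁ M₂, gf b u lam α (ω c) (m * n + m * r) * conj (gf b u lam α (ω c) (m * n)) =
        ∑ h ∈ range (b ^ lam), ∑ h' ∈ range (b ^ lam),
          FF b u lam α (ω c) (h / (b : ℝ) ^ lam) * conj (FF b u lam α (ω c) (h' / (b : ℝ) ^ lam)) *
            ∑ m ∈ Ico M₁ M₂, ee (m * (((((h : ℤ) - h' : ℤ) : ℝ) * n + h * r) / (b : ℝ) ^ lam)) := by
      rw [sum_congr rfl fun m _ => t22_expand b u lam m n r hb0 hu α (ω c), Finset.sum_comm]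
      refine sum_congr rfl fun h _ => ?_
      rw [Finset.sum_comm]
      refine sum_congr rfl fun h' _ => ?_
      rw [Finset.mul_sum]
    rw [hex]
    refine (norm_sum_le _ _).trans (Finset.sum_le_sum fun h _ => ?_)
    refine (norm_sum_le _ _).trans (Finset.sum_le_sum fun h' _ => ?_)
    rw [norm_mul, norm_mul, RCLike.norm_conj]
    exact mul_le_mul_of_nonneg_left (norm_geo_le M₁ M₂ _ _ hX0 hlen') (by positivity)
  refine (Finset.sum_le_sum hper).trans (le_of_eq ?_)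
  rw [Finset.sum_comm]
  refine sum_congr rfl fun c _ => ?_
  rw [Finset.sum_comm]
  refine sum_congr rfl fun h _ => ?_
  rw [Finset.sum_comm]
  refine sum_congr rfl fun h' _ => ?_
  rw [Finset.mul_sum]

end Pool.Agent.LibHG31.TT
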