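import Pool.Agent.LibHG31.T0

/-!
# ROW T23 (HG31 block TT, STRONG): the block sum

PLAN. `g = gcd(D, B) ≥ 1`, `q = B/g ≥ 1`, `D = g D'`, `gcd(D', q) = 1`, `θ' = θ/g`: `(D n + θ)/B = (D' n + θ')/q`.
Split `[N₀, N₀+N)` into at most `N/q + 1` blocks of length `≤ q` (extend the last one: all terms are `≥ 0`). On a full block `n` runs over a complete residue system mod `q`, and so does
`D' n + ⌊θ'⌋`; `nd` is 1-periodic, so the block sum is `∑_{j<q} mm X ((j + t)/q)`, `t = Int.fract θ' ∈ [0,1)`.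
(a) for every `j`: `nd((j+t)/q) ≥ nd(θ')/q` (`nd_nat_mul_le`: `nd(q y) ≤ q nd y`, `q (j+t)/q = j + t ≡ θ'`), so `mm X (..) ≤ X/(1 + X nd(θ')/q)`; use this for `j = 0` and `j = q-1`.
(b) for `1 ≤ j ≤ q-2`: `nd((j+t)/q) ≥ min(j, q-1-j)/q` (`(j+t)/q ∈ (0,1)`), `mm_le_inv`: `mm ≤ q/min(j,q-1-j) ≤ q/j + q/(q-1-j)`; sum `≤ 2q (1 + log q)` (`harmonic_le_one_add_log`).
Total per block `≤ 2 X/(1 + X g nd(θ/g)/B) + 4 (B/g)(1 + log B)`.
-/

namespace Pool.Agent.LibHG31.TT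

open Finset

theorem t23_nd_ge_min (y : ℝ) (u : ℝ) (h0 : u ≤ y) (h1 : u ≤ 1 - y) : u ≤ nd y := by
  unfold nd
  obtain ⟨k, hk⟩ : ∃ k : ℤ, k = round y := ⟨_, rfl⟩
  rw [← hk]
  rcases le_or_gt k 0 with h | h
  · have h2 : (k : ℝ) ≤ 0 := by exact_mod_cast h
    refine le_trans ?_ (le_abs_self _)
    linarith
  · have h2 : (1 : ℝ) ≤ k := by exact_mod_cast h
    refine le_trans ?_ (neg_le_abs _)
    linarith

/-- the majorant -/
noncomputable def t23h (Z : ℝ) (q u : ℕ) : ℝ := if u = 0 then Z else (q : ℝ) * ((u : ℝ))⁻¹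

theorem t23h_nonneg (Z : ℝ) (hZ : 0 ≤ Z) (q u : ℕ) : 0 ≤ t23h Z q u := by
  unfold t23h
  split_ifs
  · exact hZ
  · positivity

theorem t23h_sum (Z : ℝ) (q : ℕ) (hq : 1 ≤ q) :
    ∑ u ∈ range q, t23h Z q u ≤ Z + q * (1 + Real.log q) := by
  obtain ⟨p, rfl⟩ : ∃ p, q = p + 1 := ⟨q - 1, by omega⟩
  rw [Finset.sum_range_succ']
  have e0 : t23h Z (p + 1) 0 = Z := by unfold t23h; simp
  rw [e0]
  have h1 : ∀ u ∈ range p, t23h Z (p + 1) (u + 1) = ((p + 1 : ℕ) : ℝ) * ((u : ℝ) + 1)⁻¹ := by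
    intro u _
    unfold t23h
    rw [if_neg (Nat.succ_ne_zero u)]
    push_cast
    rfl
  rw [Finset.sum_congr rfl h1, ← Finset.mul_sum]
  have h3 : ∑ u ∈ range p, ((u : ℝ) + 1)⁻¹ ≤ 1 + Real.log ((p + 1 : ℕ) : ℝ) := by
    have h4 := harmonic_le_one_add_log (p + 1)
    have e2 : ((harmonic (p + 1) : ℚ) : ℝ) = ∑ j ∈ range (p + 1), ((j : ℝ) + 1)⁻¹ := by
      rw [harmonic]
      push_cast
      rfl
    rw [e2, Finset.sum_range_succ] at h4
    have : (0 : ℝ) ≤ ((p : ℝ) + 1)⁻¹ := by positivity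
    linarith
  have h5 : ((p + 1 : ℕ) : ℝ) * ∑ u ∈ range p, ((u : ℝ) + 1)⁻¹ ≤ ((p + 1 : ℕ) : ℝ) * (1 + Real.log ((p + 1 : ℕ) : ℝ)) :=
    mul_le_mul_of_nonneg_left h3 (by positivity)
  linarith

/-- one full block -/
theorem t23_one (q : ℕ) (hq : 1 ≤ q) (D : ℤ) (hD : IsCoprime D (q : ℤ)) (θ X : ℝ) (hX : 0 ≤ X) (n₀ : ℕ) :
    ∑ n ∈ Ico n₀ (n₀ + q), mm X (((D : ℝ) * n + θ) / q) ≤
      2 * (X / (1 + X * (nd θ / q))) + 4 * (q : ℝ) * (1 + Real.log q) := by
  have hq0 : (0 : ℝ) < q := by exact_mod_cast hq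
  have hqZ : (0 : ℤ) < q := by exact_mod_cast hq
  obtain ⟨c, hc⟩ : ∃ c : ℤ, c = ⌊θ⌋ := ⟨_, rfl⟩
  obtain ⟨t, ht⟩ : ∃ t : ℝ, t = Int.fract θ := ⟨_, rfl⟩
  have ht0 : 0 ≤ t := by rw [ht]; exact Int.fract_nonneg θ
  have ht1 : t < 1 := by rw [ht]; exact Int.fract_lt_one θ
  have hct : θ = c + t := by rw [hc, ht]; exact (Int.floor_add_fract θ).symm
  obtain ⟨Z, hZ⟩ : ∃ Z : ℝ, Z = X / (1 + X * (nd θ / q)) := ⟨_, rfl⟩
  have hnθ := nd_nonneg θ
  have hZ0 : 0 ≤ Z := by rw [hZ]; positivity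
  obtain ⟨s, hs⟩ : ∃ s : ℕ → ℕ, s = fun j : ℕ => ((D * ((n₀ + j : ℕ) : ℤ) + c) % (q : ℤ)).toNat := ⟨_, rfl⟩
  have hs0 : ∀ j : ℕ, ((s j : ℕ) : ℤ) = (D * ((n₀ + j : ℕ) : ℤ) + c) % (q : ℤ) := by
    intro j
    rw [hs]
    exact Int.toNat_of_nonneg (Int.emod_nonneg _ hqZ.ne')
  have hslt : ∀ j : ℕ, s j < q := by
    intro j
    have h := Int.emod_lt_of_pos (D * ((n₀ + j : ℕ) : ℤ) + c) hqZ
    rw [← hs0 j] at h
    exact_mod_cast h
  rw [Finset.sum_Ico_eq_sum_range, Nat.add_sub_cancel_left]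
  -- the values
  have hval : ∀ j : ℕ, mm X (((D : ℝ) * ((n₀ + j : ℕ) : ℝ) + θ) / q) = mm X (((s j : ℕ) + t) / q) := by
    intro j
    have hdecomp : (D * ((n₀ + j : ℕ) : ℤ) + c : ℤ) = (s j : ℤ) + q * ((D * ((n₀ + j : ℕ) : ℤ) + c) / (q : ℤ)) := by
      rw [hs0 j]
      exact (Int.emod_add_mul_ediv _ _).symm
    have hd2 : ((D * ((n₀ + j : ℕ) : ℤ) + c : ℤ) : ℝ) = ((s j : ℕ) : ℝ) +
        q * (((D * ((n₀ + j : ℕ) : ℤ) + c) / (q : ℤ) : ℤ) : ℝ) := by
      exact_mod_cast hdecomp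
    have e : ((D : ℝ) * ((n₀ + j : ℕ) : ℝ) + θ) / q = ((s j : ℕ) + t) / q +
        (((D * ((n₀ + j : ℕ) : ℤ) + c) / (q : ℤ) : ℤ) : ℝ) := by
      have e2 : (D : ℝ) * ((n₀ + j : ℕ) : ℝ) + θ = ((D * ((n₀ + j : ℕ) : ℤ) + c : ℤ) : ℝ) + t := by
        rw [hct]
        push_cast
        ring
      rw [e2, hd2]
      field_simp
      ring
    rw [e]
    unfold mm
    rw [nd_add_int]
  -- pointwise
  have hpt : ∀ j : ℕ, j < q → mm X (((j : ℝ) + t) / q) ≤ t23h Z q j + t23h Z q (q - 1 - j) := by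
    intro j hj
    have n1 := t23h_nonneg Z hZ0 q j
    have n2 := t23h_nonneg Z hZ0 q (q - 1 - j)
    obtain ⟨u, hu⟩ : ∃ u : ℕ, u = min j (q - 1 - j) := ⟨_, rfl⟩
    have hkey : mm X (((j : ℝ) + t) / q) ≤ t23h Z q u := by
      unfold t23h
      split_ifs with h
      · have h1 : nd θ = nd ((q : ℝ) * (((j : ℝ) + t) / q)) := by
          have e3 : (q : ℝ) * (((j : ℝ) + t) / q) = t + (j : ℕ) := by field_simp; ring
          rw [e3, nd_add_nat, hct, add_comm (c : ℝ) t, nd_add_int]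
        have h2 := nd_nat_mul_le q (((j : ℝ) + t) / q)
        rw [← h1] at h2
        have h3 : nd θ / q ≤ nd (((j : ℝ) + t) / q) := by
          rw [div_le_iff₀ hq0]
          linarith
        rw [hZ]
        unfold mm
        have h4 : (0 : ℝ) < 1 + X * (nd θ / q) := by positivity
        gcongr
      · have hu0 : 0 < u := Nat.pos_of_ne_zero h
        have hu1 : (0 : ℝ) < u := by exact_mod_cast hu0
        have hnd : (u : ℝ) / q ≤ nd (((j : ℝ) + t) / q) := by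
          apply t23_nd_ge_min
          · have : (u : ℝ) ≤ j := by exact_mod_cast (by omega : u ≤ j)
            gcongr
            linarith
          · have h5 : u + 1 + j ≤ q := by omega
            have h6 : (u : ℝ) + 1 + j ≤ q := by exact_mod_cast h5
            rw [le_sub_iff_add_le, ← add_div, div_le_one hq0]
            linarith
        have hpos : 0 < (u : ℝ) / q := by positivity
        refine (mm_le_inv X _ hX (lt_of_lt_of_le hpos hnd)).trans ?_
        calc 1 / nd (((j : ℝ) + t) / q) ≤ 1 / ((u : ℝ) / q) := one_div_le_one_div_of_le hpos hnd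
          _ = (q : ℝ) * ((u : ℝ))⁻¹ := by rw [one_div_div, div_eq_mul_inv]
    refine hkey.trans ?_
    rcases min_choice j (q - 1 - j) with h | h
    · rw [hu, h]; linarith
    · rw [hu, h]; linarith
  have hle : ∀ j ∈ range q, mm X (((D : ℝ) * ((n₀ + j : ℕ) : ℝ) + θ) / q) ≤
      t23h Z q (s j) + t23h Z q (q - 1 - s j) := by
    intro j _
    rw [hval j]
    exact hpt (s j) (hslt j)
  refine (Finset.sum_le_sum hle).trans ?_
  -- bijection
  have hinj : Set.InjOn s (range q : Set ℕ) := by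
    intro i hi j hj hij
    have hi' : i < q := Finset.mem_range.mp (Finset.mem_coe.mp hi)
    have hj' : j < q := Finset.mem_range.mp (Finset.mem_coe.mp hj)
    have e : (D * ((n₀ + i : ℕ) : ℤ) + c) % (q : ℤ) = (D * ((n₀ + j : ℕ) : ℤ) + c) % (q : ℤ) := by
      rw [← hs0 i, ← hs0 j, hij]
    have hd : (q : ℤ) ∣ (D * ((n₀ + j : ℕ) : ℤ) + c) - (D * ((n₀ + i : ℕ) : ℤ) + c) :=
      Int.dvd_of_emod_eq_zero (Int.emod_eq_emod_iff_emod_sub_eq_zero.mp e.symm)
    have e2 : (D * ((n₀ + j : ℕ) : ℤ) + c) - (D * ((n₀ + i : ℕ) : ℤ) + c) = D * ((j : ℤ) - i) := by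
      push_cast
      ring
    rw [e2] at hd
    have hd2 : (q : ℤ) ∣ (j : ℤ) - i := hD.symm.dvd_of_dvd_mul_left hd
    obtain ⟨w, hw⟩ := hd2
    have hw0 : w = 0 := by
      by_contra hne
      rcases lt_or_gt_of_ne hne with h | h
      · have : w ≤ -1 := by omega
        nlinarith
      · have : 1 ≤ w := by omega
        nlinarith
    rw [hw0, mul_zero] at hw
    omega
  have himg : (range q).image s = range q := by
    apply Finset.eq_of_subset_of_card_le
    · intro x hx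
      obtain ⟨j, _, rfl⟩ := Finset.mem_image.mp hx
      exact Finset.mem_range.mpr (hslt j)
    · rw [Finset.card_image_of_injOn hinj]
  have hsum : ∑ j ∈ range q, (t23h Z q (s j) + t23h Z q (q - 1 - s j)) =
      ∑ u ∈ range q, (t23h Z q u + t23h Z q (q - 1 - u)) := by
    conv_rhs => rw [← himg]
    rw [Finset.sum_image hinj]
  rw [hsum, Finset.sum_add_distrib, Finset.sum_range_reflect (fun u => t23h Z q u) q]
  have hs1 := t23h_sum Z q hq
  have hlog : 0 ≤ Real.log q := Real.log_natCast_nonneg q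
  have : 0 ≤ (q : ℝ) * (1 + Real.log q) := by positivity
  rw [← hZ]
  linarith

theorem block (B : ℕ) (hB : 0 < B) (D : ℤ) (θ X : ℝ) (hX : 0 ≤ X) (N₀ N : ℕ) :
    ∑ n ∈ Ico N₀ (N₀ + N), mm X (((D : ℝ) * n + θ) / B) ≤
      (N * (Int.gcd D B) / B + 1) *
        (2 * (X / (1 + X * ((Int.gcd D B) * nd (θ / (Int.gcd D B)) / B))) +
          4 * ((B : ℝ) / (Int.gcd D B)) * (1 + Real.log B)) := by
  obtain ⟨g, hg⟩ : ∃ g : ℕ, g = Int.gcd D B := ⟨_, rfl⟩
  rw [← hg]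
  have hg0 : 0 < g := by
    rw [hg]
    exact Int.gcd_pos_of_ne_zero_right D (by exact_mod_cast hB.ne')
  have hgB : g ∣ B := by
    have h := Int.gcd_dvd_right D (B : ℤ)
    rw [← hg] at h
    exact Int.natCast_dvd_natCast.mp h
  obtain ⟨q, hq⟩ := hgB
  have hq0 : 0 < q := by
    rcases Nat.eq_zero_or_pos q with h | h
    · rw [h, mul_zero] at hq
      omega
    · exact h
  obtain ⟨D', hD'⟩ : (g : ℤ) ∣ D := by
    have h := Int.gcd_dvd_left D (B : ℤ)
    rwa [← hg] at h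
  have hcop : IsCoprime D' (q : ℤ) := by
    rw [Int.isCoprime_iff_gcd_eq_one]
    have h1 : Int.gcd D B = g * Int.gcd D' q := by
      rw [hD', hq]
      push_cast
      rw [Int.gcd_mul_left]
      simp
    rw [← hg] at h1
    have h2 : g * 1 = g * Int.gcd D' q := by rw [mul_one]; exact h1
    exact (Nat.eq_of_mul_eq_mul_left hg0 h2).symm
  have hgr : (0 : ℝ) < g := by exact_mod_cast hg0
  have hqr : (0 : ℝ) < q := by exact_mod_cast hq0
  have hBr : (0 : ℝ) < B := by exact_mod_cast hB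
  have hBq : (B : ℝ) = g * q := by rw [hq]; push_cast; ring
  obtain ⟨W, hW⟩ : ∃ W : ℝ, W = 2 * (X / (1 + X * (nd (θ / g) / q))) + 4 * (q : ℝ) * (1 + Real.log q) := ⟨_, rfl⟩
  have hn := nd_nonneg (θ / g)
  have hlogq : 0 ≤ Real.log q := Real.log_natCast_nonneg q
  have hW0 : 0 ≤ W := by rw [hW]; positivity
  have e1 : ∀ n : ℕ, mm X (((D : ℝ) * n + θ) / B) = mm X (((D' : ℝ) * n + θ / g) / q) := by
    intro n
    congr 1
    rw [hBq, hD']
    push_cast
    field_simp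
  have hblk : ∀ J : ℕ, ∑ n ∈ Ico N₀ (N₀ + J * q), mm X (((D : ℝ) * n + θ) / B) ≤ J * W := by
    intro J
    induction J with
    | zero => simp
    | succ J ih =>
      have e : ∑ n ∈ Ico N₀ (N₀ + (J + 1) * q), mm X (((D : ℝ) * n + θ) / B) =
          ∑ n ∈ Ico N₀ (N₀ + J * q), mm X (((D : ℝ) * n + θ) / B) +
            ∑ n ∈ Ico (N₀ + J * q) (N₀ + J * q + q), mm X (((D : ℝ) * n + θ) / B) := by
        rw [Finset.sum_Ico_consecutive _ (Nat.le_add_right _ _) (Nat.le_add_right _ _)]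
        congr 2
        ring
      rw [e]
      have h3 := t23_one q hq0 D' hcop (θ / g) X hX (N₀ + J * q)
      rw [← hW] at h3
      have h4 : ∑ n ∈ Ico (N₀ + J * q) (N₀ + J * q + q), mm X (((D : ℝ) * n + θ) / B) ≤ W := by
        rw [Finset.sum_congr rfl (fun n _ => e1 n)]
        exact h3
      push_cast
      linarith
  calc ∑ n ∈ Ico N₀ (N₀ + N), mm X (((D : ℝ) * n + θ) / B)
      ≤ ∑ n ∈ Ico N₀ (N₀ + (N / q + 1) * q), mm X (((D : ℝ) * n + θ) / B) := by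
        refine Finset.sum_le_sum_of_subset_of_nonneg ?_ (fun _ _ _ => mm_nonneg _ _ hX)
        intro d hd
        rw [Finset.mem_Ico] at hd ⊢
        have := Nat.lt_div_mul_add hq0 (a := N)
        rw [add_mul, one_mul]
        omega
    _ ≤ ((N / q + 1 : ℕ) : ℝ) * W := hblk _
    _ ≤ ((N : ℝ) * g / B + 1) * W := by
        apply mul_le_mul_of_nonneg_right _ hW0
        push_cast
        have h5 := Nat.cast_div_le (α := ℝ) (m := N) (n := q)
        have h6 : (N : ℝ) * g / B = (N : ℝ) / q := by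
          rw [hBq]
          field_simp
        rw [h6]
        linarith
    _ ≤ ((N : ℝ) * g / B + 1) * (2 * (X / (1 + X * (g * nd (θ / g) / B))) +
          4 * ((B : ℝ) / g) * (1 + Real.log B)) := by
        apply mul_le_mul_of_nonneg_left _ (by positivity)
        rw [hW]
        have h7 : (g : ℝ) * nd (θ / g) / B = nd (θ / g) / q := by
          rw [hBq]
          field_simp
        have h8 : (B : ℝ) / g = q := by
          rw [hBq]
          field_simp
        rw [h7, h8]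
        have h9 : Real.log q ≤ Real.log B := by
          apply Real.log_le_log hqr
          rw [hBq]
          have : (1 : ℝ) ≤ g := by exact_mod_cast hg0
          nlinarith
        have h10 : 4 * (q : ℝ) * (1 + Real.log q) ≤ 4 * (q : ℝ) * (1 + Real.log B) := by
          apply mul_le_mul_of_nonneg_left _ (by positivity)
          linarith
        linarith

end Pool.Agent.LibHG31.TT
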