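import Pool.Agent.LibHG31.T9
import Pool.Agent.LibHG31.T11

/-!
# ROW T24 (HG31 block TT): pairs congruent modulo `g`, `g ∤ b^(lam - s)`

`wg b lam g r X h = X / (1 + X g nd(h r/g)/b^lam)` depends only on `h mod g`.

PLAN. `F(h) = ‖FF b K lam α w (h/b^lam)‖`. For `h' ≡ h mod g`: `wg h' = wg h` (`nd` 1-periodic), so `F(h) F(h') wg(h) ≤ (F(h)^2 wg(h) + F(h')^2 wg(h'))/2`; each class mod `g` has `b^lam/g` elements
(`card_class`, T9): the left side is `≤ ∑_h F(h)^2 wg(h)` (symmetry). Call `h` bad if `∃ x : ℤ, |x| ≤ E ∧ g ∣ h r - x`. Bad `h`: `wg ≤ X`, mass `≤ √WW` (`mass_bad`, T11). Not bad: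
`x = h r - g round(h r/g)` has `|x| = g nd(h r/g)`, so `g nd(h r/g) > E ≥ b^lam/(η X)`, `X g nd/b^lam > 1/η`, `wg ≤ X/(1 + 1/η) ≤ η X`; mass `≤ 1` (`parseval_FF` with `x₀ = 0`).
-/

namespace Pool.Agent.LibHG31.TT

open Finset

noncomputable def wg (b lam g r : ℕ) (X : ℝ) (h : ℕ) : ℝ :=
  X / (1 + X * (g * nd (h * r / g) / (b : ℝ) ^ lam))

theorem t24_wg_le (b lam g r : ℕ) (X : ℝ) (hX : 0 < X) (h : ℕ) : wg b lam g r X h ≤ X := by
  unfold wg
  have := nd_nonneg ((h : ℝ) * r / g)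
  apply div_le_self hX.le
  have : 0 ≤ X * (g * nd (h * r / g) / (b : ℝ) ^ lam) := by positivity
  linarith

theorem t24_wg_nonneg (b lam g r : ℕ) (X : ℝ) (hX : 0 < X) (h : ℕ) : 0 ≤ wg b lam g r X h := by
  unfold wg
  have := nd_nonneg ((h : ℝ) * r / g)
  positivity

theorem t24_wg_congr (b lam g r : ℕ) (hg : 0 < g) (X : ℝ) (h h' : ℕ) (hh : h' ≡ h [MOD g]) :
    wg b lam g r X h' = wg b lam g r X h := by
  have hg0 : (g : ℝ) ≠ 0 := by exact_mod_cast hg.ne'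
  unfold wg
  have e : nd ((h' : ℝ) * r / g) = nd ((h : ℝ) * r / g) := by
    have hd := (Nat.modEq_iff_dvd.mp hh)
    obtain ⟨w, hw⟩ := hd
    have hw2 : (h : ℝ) = h' + g * w := by
      have : (h : ℤ) = h' + g * w := by linarith
      exact_mod_cast this
    have e2 : (h : ℝ) * r / g = (h' : ℝ) * r / g + ((w * r : ℤ) : ℝ) := by
      rw [hw2]
      push_cast
      field_simp
    rw [e2, nd_add_int]
  rw [e]

theorem pair_large (b K lam s ρ j₁ n g r E : ℕ) (hb : 2 ≤ b) (α : ℕ → ℝ) (w : ℕ → ℂ)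
    (hw : ∀ v, ‖w v‖ ≤ 1) (hj : j₁ + 2 * n + 1 ≤ lam) (hK : K ≤ j₁) (hsρ : s + ρ ≤ j₁)
    (hE : 2 * E < 2 ^ (lam - 1 - j₁ - 2 * n)) (hs : s ≤ lam) (hg : g ∣ b ^ lam)
    (hg' : ¬ g ∣ b ^ (lam - s)) (hr0 : 0 < r) (hr : r < 2 ^ ρ) (X η : ℝ) (hX : 0 < X) (hη : 0 < η)
    (hEX : (b : ℝ) ^ lam / (η * X) ≤ E) :
    ∑ h ∈ range (b ^ lam), ∑ h' ∈ (range (b ^ lam)).filter (fun h' => h' ≡ h [MOD g]),
      ‖FF b K lam α w (h / (b : ℝ) ^ lam)‖ * ‖FF b K lam α w (h' / (b : ℝ) ^ lam)‖ *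
        ((g : ℝ) / (b : ℝ) ^ lam * wg b lam g r X h) ≤
      X * (η + Real.sqrt (WW b α j₁ (j₁ + 2 * n))) := by
  have hb0 : (0 : ℝ) < b := by exact_mod_cast (by omega : 0 < b)
  have hBpos : 0 < b ^ lam := Nat.pow_pos (by omega)
  have hBr : (0 : ℝ) < (b : ℝ) ^ lam := by positivity
  have hg0 : 0 < g := Nat.pos_of_dvd_of_pos hg hBpos
  have hgr : (0 : ℝ) < g := by exact_mod_cast hg0
  obtain ⟨F, hF⟩ : ∃ F : ℕ → ℝ, F = fun h : ℕ => ‖FF b K lam α w (h / (b : ℝ) ^ lam)‖ := ⟨_, rfl⟩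
  obtain ⟨W, hW⟩ : ∃ W : ℕ → ℝ, W = fun h : ℕ => wg b lam g r X h := ⟨_, rfl⟩
  have hF0 : ∀ h, 0 ≤ F h := fun h => by rw [hF]; exact norm_nonneg _
  have hW0 : ∀ h, 0 ≤ W h := fun h => by rw [hW]; exact t24_wg_nonneg b lam g r X hX h
  have hWX : ∀ h, W h ≤ X := fun h => by rw [hW]; exact t24_wg_le b lam g r X hX h
  have hWc : ∀ h h' : ℕ, h' ≡ h [MOD g] → W h' = W h := fun h h' hh => by
    rw [hW]; exact t24_wg_congr b lam g r hg0 X h h' hh
  obtain ⟨κ, hκ⟩ : ∃ κ : ℝ, κ = (g : ℝ) / (b : ℝ) ^ lam := ⟨_, rfl⟩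
  have hκ0 : 0 ≤ κ := by rw [hκ]; positivity
  have hgoal : ∑ h ∈ range (b ^ lam), ∑ h' ∈ (range (b ^ lam)).filter (fun h' => h' ≡ h [MOD g]),
      ‖FF b K lam α w (h / (b : ℝ) ^ lam)‖ * ‖FF b K lam α w (h' / (b : ℝ) ^ lam)‖ *
        ((g : ℝ) / (b : ℝ) ^ lam * wg b lam g r X h) =
      ∑ h ∈ range (b ^ lam), ∑ h' ∈ (range (b ^ lam)).filter (fun h' => h' ≡ h [MOD g]),
        F h * F h' * (κ * W h) := by
    rw [hF, hW, hκ]
  rw [hgoal]
  -- symmetrization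
  have hcard : ∀ h : ℕ, (((range (b ^ lam)).filter (fun h' => h' ≡ h [MOD g])).card : ℝ) * κ = 1 := by
    intro h
    rw [card_class g (b ^ lam) hg0 hg h, hκ, Nat.cast_div hg hgr.ne']
    push_cast
    field_simp
  have hA : ∑ h ∈ range (b ^ lam), ∑ h' ∈ (range (b ^ lam)).filter (fun h' => h' ≡ h [MOD g]),
      F h ^ 2 * (κ * W h) = ∑ h ∈ range (b ^ lam), F h ^ 2 * W h := by
    refine Finset.sum_congr rfl fun h _ => ?_
    rw [Finset.sum_const, nsmul_eq_mul]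
    have := hcard h
    calc (((range (b ^ lam)).filter (fun h' => h' ≡ h [MOD g])).card : ℝ) * (F h ^ 2 * (κ * W h)) =
        ((((range (b ^ lam)).filter (fun h' => h' ≡ h [MOD g])).card : ℝ) * κ) * (F h ^ 2 * W h) := by ring
      _ = F h ^ 2 * W h := by rw [this, one_mul]
  have hA' : ∑ h ∈ range (b ^ lam), ∑ h' ∈ (range (b ^ lam)).filter (fun h' => h' ≡ h [MOD g]),
      F h' ^ 2 * (κ * W h') = ∑ h ∈ range (b ^ lam), F h ^ 2 * W h := by
    rw [← hA]
    simp only [Finset.sum_filter]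
    rw [Finset.sum_comm]
    refine Finset.sum_congr rfl fun h' _ => Finset.sum_congr rfl fun h _ => ?_
    have hiff : (h' ≡ h [MOD g]) ↔ (h ≡ h' [MOD g]) := ⟨Nat.ModEq.symm, Nat.ModEq.symm⟩
    by_cases hc : h' ≡ h [MOD g]
    · rw [if_pos hc, if_pos (hiff.mp hc)]
    · rw [if_neg hc, if_neg (fun h1 => hc (hiff.mpr h1))]
  have hS : ∑ h ∈ range (b ^ lam), ∑ h' ∈ (range (b ^ lam)).filter (fun h' => h' ≡ h [MOD g]),
        F h * F h' * (κ * W h) ≤ ∑ h ∈ range (b ^ lam), F h ^ 2 * W h := by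
    have h1 : ∑ h ∈ range (b ^ lam), ∑ h' ∈ (range (b ^ lam)).filter (fun h' => h' ≡ h [MOD g]),
        2 * (F h * F h' * (κ * W h)) ≤
        ∑ h ∈ range (b ^ lam), ∑ h' ∈ (range (b ^ lam)).filter (fun h' => h' ≡ h [MOD g]),
          (F h ^ 2 * (κ * W h) + F h' ^ 2 * (κ * W h')) := by
      refine Finset.sum_le_sum fun h _ => Finset.sum_le_sum fun h' hh' => ?_
      have e := hWc h h' (Finset.mem_filter.mp hh').2
      rw [e]
      have h2 : 0 ≤ κ * W h := mul_nonneg hκ0 (hW0 h)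
      nlinarith [mul_nonneg (sq_nonneg (F h - F h')) h2]
    have h3 : ∑ h ∈ range (b ^ lam), ∑ h' ∈ (range (b ^ lam)).filter (fun h' => h' ≡ h [MOD g]),
        2 * (F h * F h' * (κ * W h)) = 2 * ∑ h ∈ range (b ^ lam),
          ∑ h' ∈ (range (b ^ lam)).filter (fun h' => h' ≡ h [MOD g]), F h * F h' * (κ * W h) := by
      rw [Finset.mul_sum]
      refine Finset.sum_congr rfl fun h _ => ?_
      rw [Finset.mul_sum]
    have h4 : ∑ h ∈ range (b ^ lam), ∑ h' ∈ (range (b ^ lam)).filter (fun h' => h' ≡ h [MOD g]),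
          (F h ^ 2 * (κ * W h) + F h' ^ 2 * (κ * W h')) =
        ∑ h ∈ range (b ^ lam), ∑ h' ∈ (range (b ^ lam)).filter (fun h' => h' ≡ h [MOD g]), F h ^ 2 * (κ * W h) +
        ∑ h ∈ range (b ^ lam), ∑ h' ∈ (range (b ^ lam)).filter (fun h' => h' ≡ h [MOD g]), F h' ^ 2 * (κ * W h') := by
      rw [← Finset.sum_add_distrib]
      refine Finset.sum_congr rfl fun h _ => ?_
      rw [Finset.sum_add_distrib]
    rw [h3, h4, hA, hA'] at h1
    linarith
  refine hS.trans ?_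
  classical
  -- bad and good frequencies
  rw [← Finset.sum_filter_add_sum_filter_not (range (b ^ lam))
    (fun h : ℕ => ∃ x : ℤ, |x| ≤ E ∧ (g : ℤ) ∣ h * r - x)]
  have hbad : ∑ h ∈ (range (b ^ lam)).filter (fun h : ℕ => ∃ x : ℤ, |x| ≤ E ∧ (g : ℤ) ∣ h * r - x),
      F h ^ 2 * W h ≤ X * Real.sqrt (WW b α j₁ (j₁ + 2 * n)) := by
    have hm := mass_bad b K lam s ρ j₁ n g r E hb α w hw hj hK hsρ hE hs hg hg' hr0 hr
    calc _ ≤ ∑ h ∈ (range (b ^ lam)).filter (fun h : ℕ => ∃ x : ℤ, |x| ≤ E ∧ (g : ℤ) ∣ h * r - x),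
          X * F h ^ 2 := by
          refine Finset.sum_le_sum fun h _ => ?_
          rw [mul_comm X]
          exact mul_le_mul_of_nonneg_left (hWX h) (sq_nonneg _)
      _ = X * ∑ h ∈ (range (b ^ lam)).filter (fun h : ℕ => ∃ x : ℤ, |x| ≤ E ∧ (g : ℤ) ∣ h * r - x),
          F h ^ 2 := by rw [Finset.mul_sum]
      _ ≤ _ := by
          apply mul_le_mul_of_nonneg_left _ hX.le
          rw [hF]
          exact hm
  have hgood : ∑ h ∈ (range (b ^ lam)).filter (fun h : ℕ => ¬ ∃ x : ℤ, |x| ≤ E ∧ (g : ℤ) ∣ h * r - x),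
      F h ^ 2 * W h ≤ X * η := by
    have hpar := parseval_FF b K lam (by omega) α w hw 0
    calc _ ≤ ∑ h ∈ (range (b ^ lam)).filter (fun h : ℕ => ¬ ∃ x : ℤ, |x| ≤ E ∧ (g : ℤ) ∣ h * r - x),
          (X * η) * F h ^ 2 := by
          refine Finset.sum_le_sum fun h hh => ?_
          rw [mul_comm (X * η)]
          apply mul_le_mul_of_nonneg_left _ (sq_nonneg _)
          have hnb := (Finset.mem_filter.mp hh).2
          push Not at hnb
          obtain ⟨x, hx⟩ : ∃ x : ℤ, x = (h : ℤ) * r - g * round ((h : ℝ) * r / g) := ⟨_, rfl⟩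
          have hxd : (g : ℤ) ∣ h * r - x := ⟨round ((h : ℝ) * r / g), by rw [hx]; ring⟩
          have hxE : ¬ |x| ≤ (E : ℤ) := fun h1 => hnb x h1 hxd
          have hxr : (|x| : ℝ) = g * nd ((h : ℝ) * r / g) := by
            unfold nd
            rw [← abs_of_pos hgr, ← abs_mul, abs_of_pos hgr]
            congr 1
            rw [hx]
            push_cast
            field_simp
          have hlt : (E : ℝ) < g * nd ((h : ℝ) * r / g) := by
            rw [← hxr]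
            have : (E : ℤ) < |x| := not_le.mp hxE
            exact_mod_cast this
          rw [hW]
          show wg b lam g r X h ≤ X * η
          unfold wg
          have h3 : (b : ℝ) ^ lam < (η * X) * (g * nd ((h : ℝ) * r / g)) := by
            rw [div_le_iff₀ (by positivity)] at hEX
            have : (E : ℝ) * (η * X) < (g * nd ((h : ℝ) * r / g)) * (η * X) :=
              mul_lt_mul_of_pos_right hlt (by positivity)
            linarith
          have h4 : 1 ≤ η * (X * (g * nd ((h : ℝ) * r / g) / (b : ℝ) ^ lam)) := by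
            have e5 : η * (X * (g * nd ((h : ℝ) * r / g) / (b : ℝ) ^ lam)) =
                ((η * X) * (g * nd ((h : ℝ) * r / g))) / (b : ℝ) ^ lam := by ring
            rw [e5, le_div_iff₀ hBr, one_mul]
            exact h3.le
          have hn := nd_nonneg ((h : ℝ) * r / g)
          rw [div_le_iff₀ (by positivity)]
          nlinarith
      _ = (X * η) * ∑ h ∈ (range (b ^ lam)).filter (fun h : ℕ => ¬ ∃ x : ℤ, |x| ≤ E ∧ (g : ℤ) ∣ h * r - x),
          F h ^ 2 := by rw [Finset.mul_sum]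
      _ ≤ (X * η) * 1 := by
          apply mul_le_mul_of_nonneg_left _ (by positivity)
          refine le_trans (Finset.sum_le_sum_of_subset_of_nonneg (Finset.filter_subset _ _)
            (fun _ _ _ => sq_nonneg _)) ?_
          rw [hF]
          simpa using hpar
      _ = X * η := mul_one _
  linarith

end Pool.Agent.LibHG31.TT
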