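import Pool.Agent.LibHG31.T23
import Pool.Agent.LibHG31.T24

/-!
# ROW T25 (HG31 block TT, STRONG): the sum over all pairs `(h, h')`, fixed prefix

PLAN. `B = b^lam`, `F(h) = ‖FF b K lam α w (h/B)‖`, for a pair put `g = gcd(h - h', B)` (`g ∣ B`, `h ≡ h' mod g`). `block` (T23) with `D = h - h'`, `θ = h r`, `N₀ = N`:
`∑_{nn ∈ [N,2N)} 2 mm X (..) ≤ 2 (N g/B + 1)(2 wg(h) + 4 (B/g)(1 + log B)) ≤ 4 N (g/B) wg(h) + 4 X + 8 (N + B)(1 + log B)` (`wg ≤ X`, `(N g/B + 1)(B/g) = N + B/g ≤ N + B`).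
The part `(4X + 8(N+B)(1+log B)) (∑_h F(h))^2` : `l1_FF` (T7) with `s = lam`, `x₀ = 0`. The part `4N ∑_{h,h'} F F' (g/B) wg_g(h)`: bound by the sum over ALL divisors `g ∣ B` of the sum over all pairs
with `h' ≡ h mod g` (terms `≥ 0`). For `g ∣ b^(lam-s)`: `wg ≤ X`, `pair_small` (T9): `≤ X 2 kap^(s-K)`. Otherwise `pair_large` (T24): `≤ X (η + √WW)`. The number of `g` is `(b^lam).divisors.card`.
-/

namespace Pool.Agent.LibHG31.TT

open Finset

theorem pair_sum (b K lam s ρ j₁ n N r E : ℕ) (hb : 2 ≤ b) (α : ℕ → ℝ) (w : ℕ → ℂ)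
    (hw : ∀ v, ‖w v‖ ≤ 1) (hj : j₁ + 2 * n + 1 ≤ lam) (hK : K ≤ j₁) (hKs : K ≤ s)
    (hsρ : s + ρ ≤ j₁) (hE : 2 * E < 2 ^ (lam - 1 - j₁ - 2 * n)) (hr0 : 0 < r)
    (hr : r < 2 ^ ρ) (X η : ℝ) (hX : 0 < X) (hη : 0 < η) (hEX : (b : ℝ) ^ lam / (η * X) ≤ E) :
    ∑ h ∈ range (b ^ lam), ∑ h' ∈ range (b ^ lam),
      ‖FF b K lam α w (h / (b : ℝ) ^ lam)‖ * ‖FF b K lam α w (h' / (b : ℝ) ^ lam)‖ *
        ∑ nn ∈ Ico N (2 * N), 2 * mm X (((((h : ℤ) - h' : ℤ) : ℝ) * nn + h * r) / (b : ℝ) ^ lam) ≤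
      4 * N * X * (b ^ lam).divisors.card *
          (2 * kap b ^ (s - K) + η + Real.sqrt (WW b α j₁ (j₁ + 2 * n))) +
        (4 * X + 8 * (N + (b : ℝ) ^ lam) * (1 + Real.log ((b : ℝ) ^ lam))) *
          (2 * (b : ℝ) ^ lam * kap b ^ (lam - K)) := by
  classical
  have hb0 : 0 < b := by omega
  have hbr : (1 : ℝ) ≤ b := by exact_mod_cast hb0
  have hbr0 : (0 : ℝ) < b := by linarith
  have hBn : 0 < b ^ lam := pow_pos hb0 _
  have hBr : (0 : ℝ) < (b : ℝ) ^ lam := by positivity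
  have hB1 : (1 : ℝ) ≤ (b : ℝ) ^ lam := one_le_pow₀ hbr
  have hlog : 0 ≤ Real.log ((b : ℝ) ^ lam) := Real.log_nonneg hB1
  have hkap : 0 ≤ kap b := by linarith [kap_pos b hb]
  have hs : s ≤ lam := by omega
  have hKlam : K ≤ lam := by omega
  obtain ⟨F, hF⟩ : ∃ F : ℕ → ℝ, F = fun h : ℕ => ‖FF b K lam α w (h / (b : ℝ) ^ lam)‖ := ⟨_, rfl⟩
  have hFh : ∀ h : ℕ, ‖FF b K lam α w (h / (b : ℝ) ^ lam)‖ = F h := fun h => by rw [hF]
  have hF0 : ∀ h, 0 ≤ F h := fun h => by rw [hF]; exact norm_nonneg _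
  have hden : ∀ g h : ℕ, 0 ≤ X * (g * nd (h * r / g) / (b : ℝ) ^ lam) := by
    intro g h
    have := nd_nonneg ((h : ℝ) * r / g)
    positivity
  have hwg0 : ∀ g h : ℕ, 0 ≤ wg b lam g r X h := by
    intro g h
    unfold wg
    have := hden g h
    positivity
  have hwgX : ∀ g h : ℕ, wg b lam g r X h ≤ X := by
    intro g h
    unfold wg
    have := hden g h
    exact div_le_self hX.le (by linarith)
  have hT0 : 0 ≤ Real.sqrt (WW b α j₁ (j₁ + 2 * n)) := Real.sqrt_nonneg _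
  have hkp : 0 ≤ kap b ^ (s - K) := pow_nonneg hkap _
  -- pointwise bound
  have hpt : ∀ h h' : ℕ,
      ∑ nn ∈ Ico N (2 * N), 2 * mm X (((((h : ℤ) - h' : ℤ) : ℝ) * nn + h * r) / (b : ℝ) ^ lam) ≤
      4 * N * ((Int.gcd ((h : ℤ) - h') ((b ^ lam : ℕ) : ℤ) : ℝ) / (b : ℝ) ^ lam *
          wg b lam (Int.gcd ((h : ℤ) - h') ((b ^ lam : ℕ) : ℤ)) r X h) +
        (4 * X + 8 * (N + (b : ℝ) ^ lam) * (1 + Real.log ((b : ℝ) ^ lam))) := by
    intro h h'
    have hblk := block (b ^ lam) hBn ((h : ℤ) - h') ((h : ℝ) * r) X hX.le N N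
    have hg0 : 0 < Int.gcd ((h : ℤ) - h') ((b ^ lam : ℕ) : ℤ) :=
      Int.gcd_pos_of_ne_zero_right _ (by exact_mod_cast hBn.ne')
    generalize Int.gcd ((h : ℤ) - h') ((b ^ lam : ℕ) : ℤ) = g at hblk hg0 ⊢
    rw [← mul_sum, two_mul N]
    have hcast : ((b ^ lam : ℕ) : ℝ) = (b : ℝ) ^ lam := by push_cast; rfl
    rw [hcast] at hblk
    have hg1 : (1 : ℝ) ≤ g := by exact_mod_cast hg0
    have hgr : (0 : ℝ) < g := by linarith
    have e1 : X / (1 + X * ((g : ℝ) * nd ((h : ℝ) * r / g) / (b : ℝ) ^ lam)) = wg b lam g r X h := rfl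
    rw [e1] at hblk
    have h1 := hwg0 g h
    have h2 := hwgX g h
    have hN0 : (0 : ℝ) ≤ N := Nat.cast_nonneg _
    have e2 : ((N : ℝ) * g / (b : ℝ) ^ lam + 1) *
        (2 * wg b lam g r X h + 4 * ((b : ℝ) ^ lam / g) * (1 + Real.log ((b : ℝ) ^ lam))) =
        2 * N * ((g : ℝ) / (b : ℝ) ^ lam * wg b lam g r X h) + 2 * wg b lam g r X h +
          4 * (N + (b : ℝ) ^ lam / g) * (1 + Real.log ((b : ℝ) ^ lam)) := by
      field_simp
    rw [e2] at hblk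
    have h3 : (b : ℝ) ^ lam / g ≤ (b : ℝ) ^ lam := div_le_self hBr.le hg1
    have h4 : 4 * ((N : ℝ) + (b : ℝ) ^ lam / g) * (1 + Real.log ((b : ℝ) ^ lam)) ≤
        4 * ((N : ℝ) + (b : ℝ) ^ lam) * (1 + Real.log ((b : ℝ) ^ lam)) :=
      mul_le_mul_of_nonneg_right (by linarith) (by linarith)
    linarith
  -- the diagonal classes
  have hclass : ∀ d ∈ (b ^ lam).divisors,
      ∑ h ∈ range (b ^ lam), ∑ h' ∈ (range (b ^ lam)).filter (fun h' => h' ≡ h [MOD d]),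
        F h * F h' * ((d : ℝ) / (b : ℝ) ^ lam * wg b lam d r X h) ≤
      X * (2 * kap b ^ (s - K) + η + Real.sqrt (WW b α j₁ (j₁ + 2 * n))) := by
    intro d hd
    have hdB : d ∣ b ^ lam := (Nat.mem_divisors.1 hd).1
    by_cases hds : d ∣ b ^ (lam - s)
    · have h1 := pair_small b K s lam hb hKs hs α w hw d hds
      simp only [hFh] at h1
      have h2 : ∑ h ∈ range (b ^ lam), ∑ h' ∈ (range (b ^ lam)).filter (fun h' => h' ≡ h [MOD d]),
          F h * F h' * ((d : ℝ) / (b : ℝ) ^ lam * wg b lam d r X h) ≤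
          X / (b : ℝ) ^ lam * ∑ h ∈ range (b ^ lam),
            ∑ h' ∈ (range (b ^ lam)).filter (fun h' => h' ≡ h [MOD d]), F h * F h' * d := by
        rw [mul_sum]
        refine sum_le_sum fun h _ => ?_
        rw [mul_sum]
        refine sum_le_sum fun h' _ => ?_
        have h3 : 0 ≤ F h * F h' := mul_nonneg (hF0 _) (hF0 _)
        have h4 : (d : ℝ) / (b : ℝ) ^ lam * wg b lam d r X h ≤ (d : ℝ) / (b : ℝ) ^ lam * X :=
          mul_le_mul_of_nonneg_left (hwgX d h) (by positivity)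
        have h5 := mul_le_mul_of_nonneg_left h4 h3
        refine h5.trans (le_of_eq ?_)
        ring
      have h6 : X / (b : ℝ) ^ lam * ∑ h ∈ range (b ^ lam),
            ∑ h' ∈ (range (b ^ lam)).filter (fun h' => h' ≡ h [MOD d]), F h * F h' * d ≤
          X / (b : ℝ) ^ lam * (2 * kap b ^ (s - K) * (b : ℝ) ^ lam) :=
        mul_le_mul_of_nonneg_left h1 (by positivity)
      have h7 : X / (b : ℝ) ^ lam * (2 * kap b ^ (s - K) * (b : ℝ) ^ lam) =
          X * (2 * kap b ^ (s - K)) := by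
        field_simp
      rw [h7] at h6
      refine (h2.trans h6).trans (mul_le_mul_of_nonneg_left ?_ hX.le)
      linarith
    · have h1 := pair_large b K lam s ρ j₁ n d r E hb α w hw hj hK hsρ hE hs hdB hds hr0 hr X η
        hX hη hEX
      simp only [hFh] at h1
      refine h1.trans (mul_le_mul_of_nonneg_left ?_ hX.le)
      linarith
  have hpair : ∑ h ∈ range (b ^ lam), ∑ h' ∈ range (b ^ lam),
      F h * F h' * ((Int.gcd ((h : ℤ) - h') ((b ^ lam : ℕ) : ℤ) : ℝ) / (b : ℝ) ^ lam *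
          wg b lam (Int.gcd ((h : ℤ) - h') ((b ^ lam : ℕ) : ℤ)) r X h) ≤
      (b ^ lam).divisors.card *
        (X * (2 * kap b ^ (s - K) + η + Real.sqrt (WW b α j₁ (j₁ + 2 * n)))) := by
    have h1 : ∑ h ∈ range (b ^ lam), ∑ h' ∈ range (b ^ lam),
        F h * F h' * ((Int.gcd ((h : ℤ) - h') ((b ^ lam : ℕ) : ℤ) : ℝ) / (b : ℝ) ^ lam *
          wg b lam (Int.gcd ((h : ℤ) - h') ((b ^ lam : ℕ) : ℤ)) r X h) ≤
        ∑ h ∈ range (b ^ lam), ∑ h' ∈ range (b ^ lam), ∑ d ∈ (b ^ lam).divisors,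
          if h' ≡ h [MOD d] then F h * F h' * ((d : ℝ) / (b : ℝ) ^ lam * wg b lam d r X h)
          else 0 := by
      refine sum_le_sum fun h _ => sum_le_sum fun h' _ => ?_
      have hmem : Int.gcd ((h : ℤ) - h') ((b ^ lam : ℕ) : ℤ) ∈ (b ^ lam).divisors := by
        rw [Nat.mem_divisors]
        exact ⟨Int.natCast_dvd_natCast.1 (Int.gcd_dvd_right _ _), hBn.ne'⟩
      have hmod : h' ≡ h [MOD Int.gcd ((h : ℤ) - h') ((b ^ lam : ℕ) : ℤ)] :=
        Nat.modEq_iff_dvd.2 (Int.gcd_dvd_left _ _)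
      have h2 := single_le_sum (f := fun d : ℕ => if h' ≡ h [MOD d] then
        F h * F h' * ((d : ℝ) / (b : ℝ) ^ lam * wg b lam d r X h) else 0)
        (s := (b ^ lam).divisors) (fun d _ => by
          change 0 ≤ if h' ≡ h [MOD d] then
            F h * F h' * ((d : ℝ) / (b : ℝ) ^ lam * wg b lam d r X h) else 0
          split_ifs
          · have := hF0 h
            have := hF0 h'
            have := hwg0 d h
            positivity
          · exact le_rfl) hmem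
      change (if h' ≡ h [MOD Int.gcd ((h : ℤ) - h') ((b ^ lam : ℕ) : ℤ)] then
        F h * F h' * ((Int.gcd ((h : ℤ) - h') ((b ^ lam : ℕ) : ℤ) : ℝ) / (b : ℝ) ^ lam *
          wg b lam (Int.gcd ((h : ℤ) - h') ((b ^ lam : ℕ) : ℤ)) r X h) else 0) ≤ _ at h2
      rw [if_pos hmod] at h2
      exact h2
    have h3 : ∑ h ∈ range (b ^ lam), ∑ h' ∈ range (b ^ lam), ∑ d ∈ (b ^ lam).divisors,
          (if h' ≡ h [MOD d] then F h * F h' * ((d : ℝ) / (b : ℝ) ^ lam * wg b lam d r X h)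
          else 0) = ∑ d ∈ (b ^ lam).divisors, ∑ h ∈ range (b ^ lam),
          ∑ h' ∈ (range (b ^ lam)).filter (fun h' => h' ≡ h [MOD d]),
        F h * F h' * ((d : ℝ) / (b : ℝ) ^ lam * wg b lam d r X h) := by
      rw [sum_comm' (s := (b ^ lam).divisors) (t := fun _ => range (b ^ lam))
        (s' := fun _ => (b ^ lam).divisors) (t' := range (b ^ lam)) (by simp [and_comm])]
      refine sum_congr rfl fun h _ => ?_
      rw [sum_comm]
      exact sum_congr rfl fun d _ => (sum_filter _ _).symm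
    rw [h3] at h1
    refine h1.trans ?_
    refine (sum_le_sum hclass).trans ?_
    rw [sum_const, nsmul_eq_mul]
  have hl1 := l1_FF b K lam hb hKlam α w hw 0
  simp only [zero_add, hFh] at hl1
  have hsq : ∑ h ∈ range (b ^ lam), ∑ h' ∈ range (b ^ lam), F h * F h' =
      (∑ h ∈ range (b ^ lam), F h) ^ 2 := by
    rw [sq, sum_mul_sum]
  simp only [hFh]
  have hmain : ∑ h ∈ range (b ^ lam), ∑ h' ∈ range (b ^ lam), F h * F h' *
        ∑ nn ∈ Ico N (2 * N), 2 * mm X (((((h : ℤ) - h' : ℤ) : ℝ) * nn + h * r) / (b : ℝ) ^ lam) ≤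
      4 * N * (∑ h ∈ range (b ^ lam), ∑ h' ∈ range (b ^ lam),
      F h * F h' * ((Int.gcd ((h : ℤ) - h') ((b ^ lam : ℕ) : ℤ) : ℝ) / (b : ℝ) ^ lam *
          wg b lam (Int.gcd ((h : ℤ) - h') ((b ^ lam : ℕ) : ℤ)) r X h)) +
      (4 * X + 8 * (N + (b : ℝ) ^ lam) * (1 + Real.log ((b : ℝ) ^ lam))) *
        ∑ h ∈ range (b ^ lam), ∑ h' ∈ range (b ^ lam), F h * F h' := by
    rw [mul_sum, mul_sum, ← sum_add_distrib]
    refine sum_le_sum fun h _ => ?_
    rw [mul_sum, mul_sum, ← sum_add_distrib]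
    refine sum_le_sum fun h' _ => ?_
    have h3 : 0 ≤ F h * F h' := mul_nonneg (hF0 _) (hF0 _)
    refine (mul_le_mul_of_nonneg_left (hpt h h') h3).trans (le_of_eq ?_)
    ring
  refine hmain.trans ?_
  rw [hsq]
  have hC0 : 0 ≤ 4 * X + 8 * ((N : ℝ) + (b : ℝ) ^ lam) * (1 + Real.log ((b : ℝ) ^ lam)) := by
    positivity
  have h8 := mul_le_mul_of_nonneg_left hl1 hC0
  have h9 := mul_le_mul_of_nonneg_left hpair (show (0 : ℝ) ≤ 4 * N by positivity)
  have e9 : 4 * (N : ℝ) * ((b ^ lam).divisors.card *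
        (X * (2 * kap b ^ (s - K) + η + Real.sqrt (WW b α j₁ (j₁ + 2 * n))))) =
      4 * N * X * (b ^ lam).divisors.card *
          (2 * kap b ^ (s - K) + η + Real.sqrt (WW b α j₁ (j₁ + 2 * n))) := by
    ring
  rw [e9] at h9
  exact add_le_add h9 h8

end Pool.Agent.LibHG31.TT
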