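import Pool.Agent.LibHG31.T18
import Pool.Agent.LibHG31.T19
import Pool.Agent.LibHG31.T20
import Pool.Agent.LibHG31.T26

/-!
# ROW T27 (HG31 block TT): the type II theorem

PLAN. If `4 M N ≤ b^(L-1)`: all `m n < 4MN ≤ b^(L-1)`, so `(m n) / b^(L-u) < b^(u-1)` and `fd = 0`. Otherwise `b^L ≤ 4 b M N`. `vdc` (T18) with `R = b^u ≤ N`, `s = Ico M (2M)`,
`z m n = β n * fd (m n)`; `‖z‖ ≤ 1`. For `1 ≤ r < R`: `‖∑_n ∑_m ..‖ ≤ ∑_{n ∈ [N,2N)} (‖U_n‖ + 2 #exc_n)` where `lam = Nat.log b M + 2u + 3 ≤ L - u` (`M^2 ≤ b^L`), `exc_n = {m : b^lam ≤ (m n) % b^lam + m r}`,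
`U_n` = the inner sum of `U_bound` (T26): for `m ∉ exc_n` use `fd_trunc` (T19) with `k = m n`, `δ = m r`; for `m ∈ exc_n` both expressions have norm `≤ 1`. `exc_count` (T20) with `B = b^lam ≥ M b^(2u+2)`
(`M < b^(Nat.log b M + 1)`). So the sum is `≤ (2N/b^u)(M N + 2 b^u (C L^A M N TH^(1/2) + 8 M N/b^u)) ≤ C' L^A M N^2 (b^(-u) + TH^(1/2))`, `b^(-u) ≤ 2^(-u) ≤ TH ≤ 2 TH^(1/2)`, `M N ≤ b^L`.
-/

namespace Pool.Agent.LibHG31.TT

open Finset
open scoped ComplexConjugate

/-- the inner sum for one `r` and one `n` -/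
theorem t27_inner (b u L lam M n r : ℕ) (hb : 2 ≤ b) (hlam : lam ≤ L - u) (α : ℕ → ℝ) (ω : ℕ → ℕ → ℂ)
    (hω : ∀ c v, ‖ω c v‖ ≤ 1) :
    ‖∑ m ∈ Ico M (2 * M), fd b u L α ω (m * n + m * r) * conj (fd b u L α ω (m * n))‖ ≤
      ‖∑ m ∈ Ico M (2 * M), gf b u lam α (ω (m * n / b ^ (L - u))) (m * n + m * r) *
          conj (gf b u lam α (ω (m * n / b ^ (L - u))) (m * n))‖ +
        2 * (#{m ∈ Ico M (2 * M) | b ^ lam ≤ (m * n) % b ^ lam + m * r} : ℝ) := by
  have e : ∑ m ∈ Ico M (2 * M), fd b u L α ω (m * n + m * r) * conj (fd b u L α ω (m * n)) =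
      ∑ m ∈ Ico M (2 * M), gf b u lam α (ω (m * n / b ^ (L - u))) (m * n + m * r) *
          conj (gf b u lam α (ω (m * n / b ^ (L - u))) (m * n)) +
      ∑ m ∈ Ico M (2 * M), (fd b u L α ω (m * n + m * r) * conj (fd b u L α ω (m * n)) -
        gf b u lam α (ω (m * n / b ^ (L - u))) (m * n + m * r) *
          conj (gf b u lam α (ω (m * n / b ^ (L - u))) (m * n))) := by
    rw [← Finset.sum_add_distrib]
    refine Finset.sum_congr rfl fun m _ => ?_
    ring
  rw [e]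
  refine (norm_add_le _ _).trans (add_le_add le_rfl ?_)
  refine (norm_sum_le _ _).trans ?_
  have hb1 : ∀ m ∈ Ico M (2 * M), ‖fd b u L α ω (m * n + m * r) * conj (fd b u L α ω (m * n)) -
        gf b u lam α (ω (m * n / b ^ (L - u))) (m * n + m * r) *
          conj (gf b u lam α (ω (m * n / b ^ (L - u))) (m * n))‖ ≤
      if b ^ lam ≤ (m * n) % b ^ lam + m * r then (2 : ℝ) else 0 := by
    intro m _
    split_ifs with h
    · refine (norm_sub_le _ _).trans ?_
      rw [norm_mul, norm_mul, RCLike.norm_conj, RCLike.norm_conj]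
      have a1 := norm_fd_le b u L α ω hω (m * n + m * r)
      have a2 := norm_fd_le b u L α ω hω (m * n)
      have a3 := norm_gf_le b u lam α (ω (m * n / b ^ (L - u))) (hω _) (m * n + m * r)
      have a4 := norm_gf_le b u lam α (ω (m * n / b ^ (L - u))) (hω _) (m * n)
      have c1 := mul_le_one₀ a1 (norm_nonneg _) a2
      have c2 := mul_le_one₀ a3 (norm_nonneg _) a4
      linarith
    · rw [fd_trunc b u L lam (m * n) (m * r) hb hlam (not_le.mp h) α ω, sub_self, norm_zero]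
  refine (Finset.sum_le_sum hb1).trans (le_of_eq ?_)
  rw [← Finset.sum_filter, Finset.sum_const, nsmul_eq_mul, mul_comm]

theorem typeII (b D : ℕ) (hb : 2 ≤ b) (hD : 20 * b ≤ D) (hκ : kap b ^ (D - 1) ≤ 1 / (b : ℝ) ^ 20) :
    ∃ (C : ℝ) (A : ℕ), 0 < C ∧ ∀ (L u : ℕ), 1 ≤ u → 64 * D * u ≤ L →
      ∀ (α : ℕ → ℝ) (ω : ℕ → ℕ → ℂ), (∀ c v, ‖ω c v‖ ≤ 1) → (∀ c v, b ^ u ≤ c → ω c v = 0) →
      (∀ c v, c < b ^ (u - 1) → ω c v = 0) → ∀ M N : ℕ, b ^ (8 * D * u) ≤ M → M ≤ N →
      M * N ≤ b ^ L → ∀ β : ℕ → ℂ, (∀ n, ‖β n‖ ≤ 1) →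
      ∑ m ∈ Ico M (2 * M), ‖∑ n ∈ Ico N (2 * N), β n * fd b u L α ω (m * n)‖ ^ 2 ≤
        C * (L : ℝ) ^ A * TH b D u α ^ (1 / 2 : ℝ) * N * (b : ℝ) ^ L := by
  obtain ⟨C, A, hC, H⟩ := U_bound b D hb hD hκ
  have hb2 : (2 : ℝ) ≤ b := by exact_mod_cast hb
  have hb1 : (1 : ℝ) ≤ b := by linarith
  have hb0 : (0 : ℝ) < b := by linarith
  refine ⟨68 + 4 * C, A, by positivity, ?_⟩
  intro L u hu hL α ω hω1 hω0 hω2 M N hM hMN hMNL β hβ
  have hD40 : 40 ≤ D := by omega
  have hDu : 40 * u ≤ D * u := Nat.mul_le_mul_right u hD40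
  have hL' : 64 * (D * u) ≤ L := by rw [← mul_assoc]; exact hL
  have hM1 : 1 ≤ M := le_trans (Nat.one_le_pow _ _ (by omega)) hM
  have hN1 : 1 ≤ N := hM1.trans hMN
  have hMr : (1 : ℝ) ≤ M := by exact_mod_cast hM1
  have hNr : (1 : ℝ) ≤ N := by exact_mod_cast hN1
  have hL1 : (1 : ℝ) ≤ L := by exact_mod_cast (by omega : 1 ≤ L)
  obtain ⟨TT1, hTT1⟩ : ∃ TT1 : ℝ, TT1 = TH b D u α ^ (1 / 2 : ℝ) := ⟨_, rfl⟩
  rw [← hTT1]
  have hTHpos := TH_pos b D u hb α
  have hTT0 : 0 ≤ TT1 := by rw [hTT1]; exact Real.rpow_nonneg hTHpos.le _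
  have hTHle : TH b D u α ≤ 2 * TT1 := by
    rw [hTT1]
    exact t26_half _ hTHpos.le (TH_le_two b D u hb α)
  have hWWnn := WW_nonneg b hb α (2 * D * u) (4 * D * u)
  have hhalf : (1 / 2 : ℝ) ^ u ≤ 2 * TT1 := by
    refine le_trans ?_ hTHle
    unfold TH
    linarith
  have hLA : (1 : ℝ) ≤ (L : ℝ) ^ A := one_le_pow₀ hL1
  rcases le_or_gt (4 * M * N) (b ^ (L - 1)) with hcase | hcase
  · -- all terms vanish
    have hz : ∑ m ∈ Ico M (2 * M), ‖∑ n ∈ Ico N (2 * N), β n * fd b u L α ω (m * n)‖ ^ 2 = 0 := by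
      refine Finset.sum_eq_zero fun m hm => ?_
      have h1 : ∑ n ∈ Ico N (2 * N), β n * fd b u L α ω (m * n) = 0 := by
        refine Finset.sum_eq_zero fun n hn => ?_
        rw [Finset.mem_Ico] at hm hn
        have hmn : m * n < 4 * M * N := by
          calc m * n < (2 * M) * (2 * N) := Nat.mul_lt_mul'' hm.2 hn.2
            _ = 4 * M * N := by ring
        have hlt : m * n / b ^ (L - u) < b ^ (u - 1) := by
          rw [Nat.div_lt_iff_lt_mul (Nat.pow_pos (by omega)), ← pow_add]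
          have e : u - 1 + (L - u) = L - 1 := by omega
          rw [e]
          omega
        unfold fd gf
        rw [hω2 _ _ hlt, zero_mul, mul_zero]
      rw [h1]
      simp
    rw [hz]
    positivity
  · have hLMN : b ^ L ≤ 4 * b * M * N := by
      have e : b ^ L = b * b ^ (L - 1) := by
        rw [← pow_succ']
        congr 1
        omega
      rw [e]
      calc b * b ^ (L - 1) ≤ b * (4 * M * N) := Nat.mul_le_mul_left b hcase.le
        _ = 4 * b * M * N := by ring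
    have hbuN : b ^ u ≤ N := by
      have h1 : b ^ u ≤ b ^ (8 * D * u) := by
        apply Nat.pow_le_pow_right (by omega)
        have : 8 * D * u = 8 * (D * u) := by ring
        omega
      exact h1.trans (hM.trans hMN)
    have hvdc := vdc N (b ^ u) (Nat.one_le_pow _ _ (by omega)) hbuN (Ico M (2 * M))
      (fun m n => β n * fd b u L α ω (m * n))
    refine hvdc.trans ?_
    -- trivial part
    have htriv : ∑ m ∈ Ico M (2 * M), ∑ n ∈ Ico N (2 * N), ‖β n * fd b u L α ω (m * n)‖ ^ 2 ≤ M * N := by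
      have h1 : ∑ m ∈ Ico M (2 * M), ∑ n ∈ Ico N (2 * N), ‖β n * fd b u L α ω (m * n)‖ ^ 2 ≤
          ∑ m ∈ Ico M (2 * M), ∑ n ∈ Ico N (2 * N), (1 : ℝ) := by
        refine Finset.sum_le_sum fun m _ => Finset.sum_le_sum fun n _ => ?_
        apply pow_le_one₀ (norm_nonneg _)
        rw [norm_mul]
        exact mul_le_one₀ (hβ n) (norm_nonneg _) (norm_fd_le b u L α ω hω1 _)
      refine h1.trans (le_of_eq ?_)
      rw [Finset.sum_const, Finset.sum_const, Nat.card_Ico, Nat.card_Ico, nsmul_eq_mul, nsmul_eq_mul, mul_one]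
      have e1 : 2 * M - M = M := by omega
      have e2 : 2 * N - N = N := by omega
      rw [e1, e2]
    -- the correlations
    obtain ⟨lam, hlam⟩ : ∃ lam, lam = Nat.log b M + 2 * u + 3 := ⟨_, rfl⟩
    have hlog2 : 2 * Nat.log b M ≤ L := by
      have h1 : b ^ Nat.log b M ≤ M := Nat.pow_log_le_self b (by omega)
      have h2 : b ^ (2 * Nat.log b M) ≤ b ^ L := by
        calc b ^ (2 * Nat.log b M) = b ^ Nat.log b M * b ^ Nat.log b M := by rw [two_mul, pow_add]
          _ ≤ M * M := Nat.mul_le_mul h1 h1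
          _ ≤ M * N := Nat.mul_le_mul_left M hMN
          _ ≤ b ^ L := hMNL
      exact (Nat.pow_le_pow_iff_right (by omega)).mp h2
    have hlamL : lam ≤ L - u := by omega
    have hBM : M * b ^ (2 * u + 2) ≤ b ^ lam := by
      have h1 : M < b ^ (Nat.log b M + 1) := Nat.lt_pow_succ_log_self (by omega) M
      have e : b ^ lam = b ^ (Nat.log b M + 1) * b ^ (2 * u + 2) := by
        rw [← pow_add, hlam]
        congr 1
        ring
      rw [e]
      exact Nat.mul_le_mul_right _ h1.le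
    have hb2uN : b ^ (2 * u) ≤ N := by
      have h1 : b ^ (2 * u) ≤ b ^ (8 * D * u) := by
        apply Nat.pow_le_pow_right (by omega)
        have : 8 * D * u = 8 * (D * u) := by ring
        omega
      exact h1.trans (hM.trans hMN)
    have hcorr : ∀ r ∈ Ico 1 (b ^ u), ‖∑ n ∈ Ico N (2 * N - r), ∑ m ∈ Ico M (2 * M),
        (fun m n => β n * fd b u L α ω (m * n)) m (n + r) *
          conj ((fun m n => β n * fd b u L α ω (m * n)) m n)‖ ≤
        C * (L : ℝ) ^ A * (M * N) * TT1 + 8 * M * N / (b : ℝ) ^ u := by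
      intro r hr
      rw [Finset.mem_Ico] at hr
      have h1 : ‖∑ n ∈ Ico N (2 * N - r), ∑ m ∈ Ico M (2 * M),
          (fun m n => β n * fd b u L α ω (m * n)) m (n + r) *
            conj ((fun m n => β n * fd b u L α ω (m * n)) m n)‖ ≤
          ∑ n ∈ Ico N (2 * N - r), ‖∑ m ∈ Ico M (2 * M),
            fd b u L α ω (m * n + m * r) * conj (fd b u L α ω (m * n))‖ := by
        refine (norm_sum_le _ _).trans (Finset.sum_le_sum fun n _ => ?_)
        have e : ∑ m ∈ Ico M (2 * M), (fun m n => β n * fd b u L α ω (m * n)) m (n + r) *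
            conj ((fun m n => β n * fd b u L α ω (m * n)) m n) =
            (β (n + r) * conj (β n)) * ∑ m ∈ Ico M (2 * M),
              fd b u L α ω (m * n + m * r) * conj (fd b u L α ω (m * n)) := by
          rw [Finset.mul_sum]
          refine Finset.sum_congr rfl fun m _ => ?_
          show β (n + r) * fd b u L α ω (m * (n + r)) * conj (β n * fd b u L α ω (m * n)) = _
          rw [map_mul, mul_add]
          ring
        rw [e, norm_mul]
        have hbb : ‖β (n + r) * conj (β n)‖ ≤ 1 := by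
          rw [norm_mul, RCLike.norm_conj]
          exact mul_le_one₀ (hβ _) (norm_nonneg _) (hβ n)
        calc _ ≤ 1 * _ := mul_le_mul_of_nonneg_right hbb (norm_nonneg _)
          _ = _ := one_mul _
      refine h1.trans ?_
      have h2 : ∑ n ∈ Ico N (2 * N - r), ‖∑ m ∈ Ico M (2 * M),
            fd b u L α ω (m * n + m * r) * conj (fd b u L α ω (m * n))‖ ≤
          ∑ n ∈ Ico N (2 * N), ‖∑ m ∈ Ico M (2 * M),
            fd b u L α ω (m * n + m * r) * conj (fd b u L α ω (m * n))‖ := by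
        apply Finset.sum_le_sum_of_subset_of_nonneg
        · apply Finset.Ico_subset_Ico le_rfl
          omega
        · intro _ _ _
          exact norm_nonneg _
      refine h2.trans ?_
      have h3 : ∑ n ∈ Ico N (2 * N), ‖∑ m ∈ Ico M (2 * M),
            fd b u L α ω (m * n + m * r) * conj (fd b u L α ω (m * n))‖ ≤
          ∑ n ∈ Ico N (2 * N), (‖∑ m ∈ Ico M (2 * M), gf b u lam α (ω (m * n / b ^ (L - u))) (m * n + m * r) *
          conj (gf b u lam α (ω (m * n / b ^ (L - u))) (m * n))‖ +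
            2 * (#{m ∈ Ico M (2 * M) | b ^ lam ≤ (m * n) % b ^ lam + m * r} : ℝ)) :=
        Finset.sum_le_sum fun n _ => t27_inner b u L lam M n r hb hlamL α ω hω1
      refine h3.trans ?_
      rw [Finset.sum_add_distrib, ← Finset.mul_sum]
      have h4 := H L u M N r hu hL hM hMN hMNL hLMN (by omega) hr.2 α ω hω1 hω0
      rw [← hlam, ← hTT1] at h4
      have h5 := exc_count b u M N r (b ^ lam) hb hM1 hBM hr.2 hb2uN
      push_cast at h5
      have e6 : 8 * (M : ℝ) * N / (b : ℝ) ^ u = 2 * (4 * M * N / (b : ℝ) ^ u) := by ring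
      rw [e6]
      linarith
    have hsum : ∑ r ∈ Ico 1 (b ^ u), ‖∑ n ∈ Ico N (2 * N - r), ∑ m ∈ Ico M (2 * M),
        (fun m n => β n * fd b u L α ω (m * n)) m (n + r) *
          conj ((fun m n => β n * fd b u L α ω (m * n)) m n)‖ ≤
        (b : ℝ) ^ u * (C * (L : ℝ) ^ A * (M * N) * TT1 + 8 * M * N / (b : ℝ) ^ u) := by
      refine (Finset.sum_le_sum hcorr).trans ?_
      rw [Finset.sum_const, Nat.card_Ico, nsmul_eq_mul]
      apply mul_le_mul_of_nonneg_right _ (by positivity)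
      have h1 : ((b ^ u - 1 : ℕ) : ℝ) ≤ ((b ^ u : ℕ) : ℝ) := by exact_mod_cast Nat.sub_le _ _
      push_cast at h1
      exact h1
    have hbu0 : (0 : ℝ) < (b : ℝ) ^ u := by positivity
    have hbuinv : 1 / (b : ℝ) ^ u ≤ 2 * TT1 := by
      refine le_trans ?_ hhalf
      rw [← one_div_pow]
      apply pow_le_pow_left₀ (by positivity)
      exact one_div_le_one_div_of_le (by norm_num) hb2
    have hMNr : (M : ℝ) * N ≤ (b : ℝ) ^ L := by exact_mod_cast hMNL
    push_cast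
    calc 2 * (N : ℝ) / (b : ℝ) ^ u * (∑ m ∈ Ico M (2 * M), ∑ n ∈ Ico N (2 * N), ‖β n * fd b u L α ω (m * n)‖ ^ 2 +
          2 * ∑ r ∈ Ico 1 (b ^ u), ‖∑ n ∈ Ico N (2 * N - r), ∑ m ∈ Ico M (2 * M),
            (fun m n => β n * fd b u L α ω (m * n)) m (n + r) *
              conj ((fun m n => β n * fd b u L α ω (m * n)) m n)‖)
        ≤ 2 * (N : ℝ) / (b : ℝ) ^ u * (M * N +
          2 * ((b : ℝ) ^ u * (C * (L : ℝ) ^ A * (M * N) * TT1 + 8 * M * N / (b : ℝ) ^ u))) := by
          apply mul_le_mul_of_nonneg_left _ (by positivity)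
          linarith
      _ = 2 * N * (M * N) * (17 * (1 / (b : ℝ) ^ u) + 2 * C * (L : ℝ) ^ A * TT1) := by
          field_simp
          ring
      _ ≤ 2 * N * (M * N) * (17 * ((2 * TT1) * (L : ℝ) ^ A) + 2 * C * (L : ℝ) ^ A * TT1) := by
          apply mul_le_mul_of_nonneg_left _ (by positivity)
          have h1 : 2 * TT1 ≤ (2 * TT1) * (L : ℝ) ^ A := by nlinarith
          linarith
      _ = (68 + 4 * C) * (L : ℝ) ^ A * TT1 * N * (M * N) := by ring
      _ ≤ (68 + 4 * C) * (L : ℝ) ^ A * TT1 * N * (b : ℝ) ^ L := by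
          apply mul_le_mul_of_nonneg_left hMNr (by positivity)

end Pool.Agent.LibHG31.TT
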