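import Pool.Agent.LibHG31.V3
import Pool.Agent.LibHG31.T17
import Pool.Agent.LibHG31.T27

/-!
# ROW T28 (HG31 block TT): the digital prime sum (`fd` form)

PLAN. `VG` (V3.lean) with `X = b^L`, `U = b^(8Du)`, `f = fd b u L α ω`, `B = Bf` (T17), `E2 = min 1 (C₂ L^(A₂) TH^(1/2))` (T27; with `E2 = 1` the hypothesis is trivial: `≤ M N^2 ≤ N X`).
`log X = L log b ≤ L b`; `U ≤ b^(L/8)`, `U ≤ b^L 2^(-u) ≤ b^L TH`; `TH, TH^(1/4) ≤ 2 TH^(1/8)` (`0 < TH ≤ 2`); `E2^(1/4) ≤ (C₂ L^(A₂))^(1/4) TH^(1/8) ≤ (C₂ + 1) L^(A₂) TH^(1/8)`.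
-/

namespace Pool.Agent.LibHG31.TT

open Finset
open scoped ArithmeticFunction.vonMangoldt

/-- powers of `0 < T ≤ 2` -/
theorem T28_rpow {T e : ℝ} (h0 : 0 < T) (h2 : T ≤ 2) (he : 1 / 8 ≤ e) (he1 : e ≤ 1) :
    T ^ e ≤ 2 * T ^ (1 / 8 : ℝ) := by
  have h1 : T ^ e = T ^ (e - 1 / 8) * T ^ (1 / 8 : ℝ) := by
    rw [← Real.rpow_add h0]
    congr 1
    ring
  have h3 : T ^ (e - 1 / 8) ≤ 2 := by
    calc T ^ (e - 1 / 8) ≤ 2 ^ (e - 1 / 8) :=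
          Real.rpow_le_rpow h0.le h2 (by linarith)
      _ ≤ 2 ^ (1 : ℝ) := Real.rpow_le_rpow_of_exponent_le (by norm_num) (by linarith)
      _ = 2 := Real.rpow_one 2
  rw [h1]
  exact mul_le_mul_of_nonneg_right h3 (by positivity)

/-- fourth roots -/
theorem T28_root {z z' : ℝ} (h0 : 0 ≤ z) (h1 : z ≤ z') (h2 : 1 ≤ z') : z ^ (1 / 4 : ℝ) ≤ z' := by
  calc z ^ (1 / 4 : ℝ) ≤ z' ^ (1 / 4 : ℝ) := Real.rpow_le_rpow h0 h1 (by norm_num)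
    _ ≤ z' ^ (1 : ℝ) := Real.rpow_le_rpow_of_exponent_le h2 (by norm_num)
    _ = z' := Real.rpow_one z'

theorem T28_zero (b u L : ℕ) (hb : 2 ≤ b) (huL : u ≤ L) (α : ℕ → ℝ) (ω : ℕ → ℕ → ℂ)
    (h : ∀ c v, b ^ u ≤ c → ω c v = 0) (n : ℕ) (hn : b ^ L ≤ n) : fd b u L α ω n = 0 := by
  unfold fd gf
  rw [h, zero_mul]
  rw [Nat.le_div_iff_mul_le (by positivity), ← pow_add]
  have : u + (L - u) = L := by omega
  rwa [this]

/-- the trivial bound for the bilinear sums -/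
theorem T28_triv (X M N : ℕ) (f : ℕ → ℂ) (hf : ∀ n, ‖f n‖ ≤ 1) (hX : M * N ≤ X) (β : ℕ → ℂ)
    (hβ : ∀ n, ‖β n‖ ≤ 1) :
    ∑ m ∈ Ico M (2 * M), ‖∑ n ∈ Ico N (2 * N), β n * f (m * n)‖ ^ 2 ≤ (N : ℝ) * X := by
  have h1 : ∀ m ∈ Ico M (2 * M), ‖∑ n ∈ Ico N (2 * N), β n * f (m * n)‖ ^ 2 ≤ (N : ℝ) ^ 2 := by
    intro m _
    refine pow_le_pow_left₀ (norm_nonneg _) ?_ 2
    refine (norm_sum_le _ _).trans ?_
    calc ∑ n ∈ Ico N (2 * N), ‖β n * f (m * n)‖ ≤ ∑ n ∈ Ico N (2 * N), (1 : ℝ) := by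
          refine sum_le_sum fun n _ => ?_
          rw [norm_mul]
          exact mul_le_one₀ (hβ n) (norm_nonneg _) (hf _)
      _ = N := by
          rw [sum_const, Nat.card_Ico, nsmul_eq_mul, mul_one]
          congr 1
          omega
  refine (sum_le_sum h1).trans ?_
  rw [sum_const, Nat.card_Ico, nsmul_eq_mul]
  have h2 : 2 * M - M = M := by omega
  rw [h2]
  have h3 : ((M * N : ℕ) : ℝ) ≤ X := Nat.cast_le.2 hX
  push_cast at h3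
  have h4 : (0 : ℝ) ≤ N := Nat.cast_nonneg N
  nlinarith

theorem tt_fd (b D : ℕ) (hb : 2 ≤ b) (hD : 20 * b ≤ D) (hκ : kap b ^ (D - 1) ≤ 1 / (b : ℝ) ^ 20) :
    ∃ (C : ℝ) (A : ℕ), 0 < C ∧ ∀ (L u : ℕ), 1 ≤ u → 64 * D * u ≤ L →
      ∀ (α : ℕ → ℝ) (ω : ℕ → ℕ → ℂ), (∀ c v, ‖ω c v‖ ≤ 1) → (∀ c v, b ^ u ≤ c → ω c v = 0) →
      (∀ c v, c < b ^ (u - 1) → ω c v = 0) →
      ‖∑ n ∈ range (b ^ L), ((Λ n : ℝ) : ℂ) * fd b u L α ω n‖ ≤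
        C * (L : ℝ) ^ A * (b : ℝ) ^ L * TH b D u α ^ (1 / 8 : ℝ) := by
  obtain ⟨Cv, hCv, hVG⟩ := VG
  obtain ⟨C1, A1, hC1, h1⟩ := typeI b D hb (by omega)
  obtain ⟨C2, A2, hC2, h2⟩ := typeII b D hb hD hκ
  refine ⟨Cv * (b : ℝ) ^ 8 * (2 + 2 * C1 + (C2 + 1)), 8 + A1 + A2, by positivity, ?_⟩
  intro L u hu hL α ω hω hω1 hω2
  obtain ⟨Bf, hB0, hB1, hB2⟩ := h1 L u hu hL α ω hω
  have hDu : u ≤ D * u := Nat.le_mul_of_pos_left u (by omega)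
  have hL' : 64 * (D * u) ≤ L := by
    rw [← mul_assoc]
    exact hL
  have h8 : 8 * D * u = 8 * (D * u) := mul_assoc _ _ _
  have hb1 : (1 : ℝ) < b := by exact_mod_cast (show 1 < b by omega)
  have hb2 : (2 : ℝ) ≤ b := by exact_mod_cast hb
  have hL1 : (1 : ℝ) ≤ L := by exact_mod_cast (show 1 ≤ L by omega)
  set T := TH b D u α with hT
  have hT0 : 0 < T := TH_pos b D u hb α
  have hT2 : T ≤ 2 := TH_le_two b D u hb α
  set y : ℝ := C2 * (L : ℝ) ^ A2 * T ^ (1 / 2 : ℝ) with hy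
  have hy0 : 0 < y := by positivity
  have hbL : ((b ^ L : ℕ) : ℝ) = (b : ℝ) ^ L := by push_cast; rfl
  have hmain := hVG (b ^ L) (b ^ (8 * D * u)) (fd b u L α ω) Bf (min 1 y)
    (by
      calc 2 ≤ b := hb
        _ = b ^ 1 := (pow_one b).symm
        _ ≤ b ^ (8 * D * u) := Nat.pow_le_pow_right (by omega) (by omega))
    (by
      rw [← pow_mul]
      exact Nat.pow_le_pow_right (by omega) (by omega))
    (norm_fd_le b u L α ω hω)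
    (T28_zero b u L hb (by omega) α ω hω1) hB0 hB1 (lt_min one_pos hy0) (min_le_left _ _)
    (by
      intro M N hM hMN hX β hβ
      have h3 := T28_triv (b ^ L) M N (fd b u L α ω) (norm_fd_le b u L α ω hω) hX β hβ
      have h4 := h2 L u hu hL α ω hω hω1 hω2 M N hM hMN hX β hβ
      rcases min_choice 1 y with h5 | h5
      · rw [h5, one_mul]
        exact h3
      · rw [h5, hbL]
        exact h4)
  have hlog0 : 0 ≤ Real.log ((b ^ L : ℕ) : ℝ) := by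
    rw [hbL]
    exact Real.log_nonneg (one_le_pow₀ hb1.le)
  have hlog : Real.log ((b ^ L : ℕ) : ℝ) ≤ b * L := by
    rw [hbL, Real.log_pow]
    have : Real.log b ≤ b := Real.log_le_self (by linarith)
    nlinarith
  have hlog8 : Real.log ((b ^ L : ℕ) : ℝ) ^ 8 ≤ (b : ℝ) ^ 8 * (L : ℝ) ^ 8 := by
    rw [← mul_pow]
    exact pow_le_pow_left₀ hlog0 hlog 8
  set W : ℝ := (b : ℝ) ^ L * T ^ (1 / 8 : ℝ) with hW
  have hW0 : 0 < W := by positivity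
  -- the first term
  have hU : ((b ^ (8 * D * u) : ℕ) : ℝ) ≤ 2 * W := by
    have h3 : ((b ^ (8 * D * u) : ℕ) : ℝ) * (b : ℝ) ^ u ≤ (b : ℝ) ^ L := by
      push_cast
      rw [← pow_add]
      exact pow_le_pow_right₀ hb1.le (by omega)
    have h4 : (1 / 2 : ℝ) ^ u ≤ T := by
      rw [hT]
      unfold TH
      linarith [WW_nonneg b hb α (2 * D * u) (4 * D * u)]
    have h5 : (1 : ℝ) ≤ (b : ℝ) ^ u * (1 / 2) ^ u := by
      rw [← mul_pow]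
      exact one_le_pow₀ (by linarith)
    have h6 : T ≤ 2 * T ^ (1 / 8 : ℝ) := by
      have := T28_rpow hT0 hT2 (e := 1) (by norm_num) le_rfl
      rwa [Real.rpow_one] at this
    calc ((b ^ (8 * D * u) : ℕ) : ℝ)
        ≤ ((b ^ (8 * D * u) : ℕ) : ℝ) * ((b : ℝ) ^ u * (1 / 2) ^ u) :=
          le_mul_of_one_le_right (Nat.cast_nonneg _) h5
      _ = (((b ^ (8 * D * u) : ℕ) : ℝ) * (b : ℝ) ^ u) * (1 / 2) ^ u := by ring
      _ ≤ (b : ℝ) ^ L * (1 / 2) ^ u := mul_le_mul_of_nonneg_right h3 (by positivity)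
      _ ≤ (b : ℝ) ^ L * T := mul_le_mul_of_nonneg_left h4 (by positivity)
      _ ≤ (b : ℝ) ^ L * (2 * T ^ (1 / 8 : ℝ)) := mul_le_mul_of_nonneg_left h6 (by positivity)
      _ = 2 * W := by rw [hW]; ring
  have hp1 : (L : ℝ) ^ A1 ≤ (L : ℝ) ^ (A1 + A2) := pow_le_pow_right₀ hL1 (by omega)
  have hp2 : (L : ℝ) ^ A2 ≤ (L : ℝ) ^ (A1 + A2) := pow_le_pow_right₀ hL1 (by omega)
  have hp0 : (1 : ℝ) ≤ (L : ℝ) ^ (A1 + A2) := one_le_pow₀ hL1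
  -- the second term
  have hB : ∑ m ∈ Icc 1 ((b ^ (8 * D * u)) ^ 2), Bf m ≤ 2 * C1 * (L : ℝ) ^ (A1 + A2) * W := by
    refine hB2.trans ?_
    have h3 : T ^ (1 / 4 : ℝ) ≤ 2 * T ^ (1 / 8 : ℝ) :=
      T28_rpow hT0 hT2 (by norm_num) (by norm_num)
    calc C1 * (L : ℝ) ^ A1 * (b : ℝ) ^ L * T ^ (1 / 4 : ℝ)
        ≤ C1 * (L : ℝ) ^ (A1 + A2) * (b : ℝ) ^ L * (2 * T ^ (1 / 8 : ℝ)) := by
          refine mul_le_mul ?_ h3 (by positivity) (by positivity)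
          exact mul_le_mul_of_nonneg_right (mul_le_mul_of_nonneg_left hp1 hC1.le) (by positivity)
      _ = 2 * C1 * (L : ℝ) ^ (A1 + A2) * W := by rw [hW]; ring
  -- the third term
  have hE : ((b ^ L : ℕ) : ℝ) * (min 1 y) ^ (1 / 4 : ℝ) ≤ (C2 + 1) * (L : ℝ) ^ (A1 + A2) * W := by
    have h3 : (min 1 y) ^ (1 / 4 : ℝ) ≤ y ^ (1 / 4 : ℝ) :=
      Real.rpow_le_rpow (lt_min one_pos hy0).le (min_le_right _ _) (by norm_num)
    have h4 : y ^ (1 / 4 : ℝ) = (C2 * (L : ℝ) ^ A2) ^ (1 / 4 : ℝ) * T ^ (1 / 8 : ℝ) := by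
      rw [hy, Real.mul_rpow (by positivity) (by positivity), ← Real.rpow_mul hT0.le]
      congr 2
      norm_num
    have h5 : (C2 * (L : ℝ) ^ A2) ^ (1 / 4 : ℝ) ≤ (C2 + 1) * (L : ℝ) ^ (A1 + A2) := by
      refine T28_root (by positivity) ?_ ?_
      · exact mul_le_mul (by linarith) hp2 (by positivity) (by linarith)
      · nlinarith
    rw [hbL]
    calc (b : ℝ) ^ L * (min 1 y) ^ (1 / 4 : ℝ)
        ≤ (b : ℝ) ^ L * (((C2 + 1) * (L : ℝ) ^ (A1 + A2)) * T ^ (1 / 8 : ℝ)) := by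
          refine mul_le_mul_of_nonneg_left (h3.trans ?_) (by positivity)
          rw [h4]
          exact mul_le_mul_of_nonneg_right h5 (by positivity)
      _ = (C2 + 1) * (L : ℝ) ^ (A1 + A2) * W := by rw [hW]; ring
  have hsum : ((b ^ (8 * D * u) : ℕ) : ℝ) + ∑ m ∈ Icc 1 ((b ^ (8 * D * u)) ^ 2), Bf m +
      ((b ^ L : ℕ) : ℝ) * (min 1 y) ^ (1 / 4 : ℝ) ≤
      (2 + 2 * C1 + (C2 + 1)) * (L : ℝ) ^ (A1 + A2) * W := by
    have h3 : 2 * W ≤ 2 * (L : ℝ) ^ (A1 + A2) * W := by nlinarith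
    calc _ ≤ 2 * (L : ℝ) ^ (A1 + A2) * W + 2 * C1 * (L : ℝ) ^ (A1 + A2) * W +
          (C2 + 1) * (L : ℝ) ^ (A1 + A2) * W := add_le_add (add_le_add (hU.trans h3) hB) hE
      _ = _ := by ring
  refine hmain.trans ?_
  calc Cv * Real.log ((b ^ L : ℕ) : ℝ) ^ 8 * (((b ^ (8 * D * u) : ℕ) : ℝ) +
        ∑ m ∈ Icc 1 ((b ^ (8 * D * u)) ^ 2), Bf m + ((b ^ L : ℕ) : ℝ) * (min 1 y) ^ (1 / 4 : ℝ))
      ≤ Cv * ((b : ℝ) ^ 8 * (L : ℝ) ^ 8) *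
        ((2 + 2 * C1 + (C2 + 1)) * (L : ℝ) ^ (A1 + A2) * W) := by
        refine mul_le_mul (mul_le_mul_of_nonneg_left hlog8 hCv.le) hsum ?_ (by positivity)
        have : 0 ≤ ∑ m ∈ Icc 1 ((b ^ (8 * D * u)) ^ 2), Bf m := sum_nonneg fun m _ => hB0 m
        have : 0 ≤ (min 1 y) ^ (1 / 4 : ℝ) :=
          Real.rpow_nonneg (lt_min one_pos hy0).le _
        positivity
    _ = Cv * (b : ℝ) ^ 8 * (2 + 2 * C1 + (C2 + 1)) * (L : ℝ) ^ (8 + A1 + A2) * (b : ℝ) ^ L *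
        T ^ (1 / 8 : ℝ) := by
        rw [hW, add_assoc 8 A1 A2, pow_add (L : ℝ) 8]
        ring

end Pool.Agent.LibHG31.TT
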