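import Pool.Agent.LibHG31.T28

/-!
# HG31 block TT: the interface statement `TTStmt`
-/

namespace Pool.Agent.LibHG31.TT

open Finset
open scoped ArithmeticFunction.vonMangoldt

theorem mem_II_iff (b L u l n : ℕ) (hb : 2 ≤ b) (hu : 1 ≤ u) (huL : u ≤ L) :
    n ∈ II b L l ↔ l * b ^ (u - 1) ≤ n / b ^ (L - u) ∧ n / b ^ (L - u) < (l + 1) * b ^ (u - 1) := by
  have hpos : 0 < b ^ (L - u) := by positivity
  have hpow : b ^ (L - 1) = b ^ (u - 1) * b ^ (L - u) := by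
    rw [← pow_add]
    congr 1
    omega
  unfold II
  rw [mem_Ico, hpow, Nat.le_div_iff_mul_le hpos, Nat.div_lt_iff_lt_mul hpos, mul_assoc, mul_assoc]

theorem coprime_mod_iff (b u n : ℕ) (hu : 1 ≤ u) : (n % b ^ u).Coprime b ↔ n.Coprime b := by
  have h : n % b ^ u ≡ n [MOD b] := (Nat.mod_modEq n (b ^ u)).of_dvd (dvd_pow_self b (by omega))
  unfold Nat.Coprime
  rw [h.gcd_eq]

/-- the phases restricted to the middle digits -/
noncomputable def alr (L J : ℕ) (α : ℕ → ℝ) (j : ℕ) : ℝ := if J ≤ j ∧ j < L - J then α j else 0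

/-- the joint function in terms of `u` digits -/
noncomputable def omr (b u J l : ℕ) (Om : ℕ → ℕ → ℂ) (c v : ℕ) : ℂ :=
  if l * b ^ (u - 1) ≤ c ∧ c < (l + 1) * b ^ (u - 1) ∧ v.Coprime b then
    Om (c / b ^ (u - J)) (v % b ^ J) else 0

theorem dp_alr (b L J : ℕ) (α : ℕ → ℝ) (n : ℕ) :
    dp b L (alr L J α) n = ∑ j ∈ Ico J (L - J), α j * dg b j n := by
  unfold dp alr
  rw [← sum_filter_add_sum_filter_not (range L) (fun j => J ≤ j ∧ j < L - J)]
  have h1 : (range L).filter (fun j => J ≤ j ∧ j < L - J) = Ico J (L - J) := by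
    ext j
    simp only [mem_filter, mem_range, mem_Ico]
    omega
  rw [h1]
  have h2 : ∑ x ∈ (range L).filter (fun j => ¬ (J ≤ j ∧ j < L - J)),
      (if J ≤ x ∧ x < L - J then α x else 0) * (dg b x n : ℝ) = 0 := by
    refine sum_eq_zero fun x hx => ?_
    rw [if_neg (mem_filter.1 hx).2, zero_mul]
  rw [h2, add_zero]
  refine sum_congr rfl fun x hx => ?_
  rw [mem_Ico] at hx
  rw [if_pos hx]

theorem fd_eq (b u L J l : ℕ) (hb : 2 ≤ b) (hu : 1 ≤ u) (huL : u ≤ L) (hJu : J ≤ u) (α : ℕ → ℝ)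
    (Om : ℕ → ℕ → ℂ) (n : ℕ) :
    fd b u L (alr L J α) (omr b u J l Om) n =
      if n ∈ II b L l ∧ n.Coprime b then ff b L J α Om n else 0 := by
  have hiff : (l * b ^ (u - 1) ≤ n / b ^ (L - u) ∧ n / b ^ (L - u) < (l + 1) * b ^ (u - 1) ∧
      (n % b ^ u).Coprime b) ↔ (n ∈ II b L l ∧ n.Coprime b) := by
    rw [coprime_mod_iff b u n hu, mem_II_iff b L u l n hb hu huL, and_assoc]
  unfold fd gf omr
  rw [dp_alr]
  by_cases h : n ∈ II b L l ∧ n.Coprime b
  · rw [if_pos h, if_pos (hiff.2 h)]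
    unfold ff
    congr 2
    · rw [Nat.div_div_eq_div_mul, ← pow_add]
      congr 2
      omega
    · exact mod_pow_mod b J u n hJu
  · rw [if_neg h, if_neg (fun h' => h (hiff.1 h')), zero_mul]

theorem sum_fd_eq (b u L J l : ℕ) (hb : 2 ≤ b) (hu : 1 ≤ u) (huL : u ≤ L) (hJu : J ≤ u) (hl : l < b)
    (α : ℕ → ℝ) (Om : ℕ → ℕ → ℂ) :
    ∑ n ∈ (II b L l).filter (fun n => n.Coprime b), ((Λ n : ℝ) : ℂ) * ff b L J α Om n =
      ∑ n ∈ range (b ^ L), ((Λ n : ℝ) : ℂ) * fd b u L (alr L J α) (omr b u J l Om) n := by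
  have hsub : (II b L l).filter (fun n => n.Coprime b) ⊆ range (b ^ L) := by
    intro n hn
    rw [mem_filter] at hn
    unfold II at hn
    rw [mem_Ico] at hn
    rw [mem_range]
    calc n < (l + 1) * b ^ (L - 1) := hn.1.2
      _ ≤ b * b ^ (L - 1) := Nat.mul_le_mul_right _ hl
      _ = b ^ L := by rw [← pow_succ']; congr 1; omega
  symm
  rw [← sum_subset hsub]
  · refine sum_congr rfl fun n hn => ?_
    rw [mem_filter] at hn
    rw [fd_eq b u L J l hb hu huL hJu, if_pos hn]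
  · intro n _ hn
    rw [mem_filter] at hn
    rw [fd_eq b u L J l hb hu huL hJu, if_neg hn, mul_zero]

theorem WW_alr_le (b D u L J : ℕ) (hb : 2 ≤ b) (hu : u = L / (64 * D)) (hD : 1 ≤ D)
    (hL : 1088 * D ≤ L) (hJ : 1088 * D * J ≤ L) (α : ℕ → ℝ) :
    WW b (alr L J α) (2 * D * u) (4 * D * u) ≤ GG b (1 / (2 * (b : ℝ) ^ 3)) α (L / 31) (L / 17) := by
  have h1 : 64 * (D * u) ≤ L := by
    have := Nat.mul_div_le L (64 * D)
    rw [← hu] at this
    linarith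
  have h2 : L < 64 * (D * u) + 64 * D := by
    have := Nat.lt_mul_div_succ L (show 0 < 64 * D by omega)
    rw [← hu] at this
    linarith
  have h3 : 1088 * J ≤ L := by
    calc 1088 * J ≤ 1088 * D * J := by nlinarith
      _ ≤ L := hJ
  have e1 : 2 * D * u = 2 * (D * u) := by ring
  have e2 : 4 * D * u = 4 * (D * u) := by ring
  have hsub : Ico (L / 31) (L / 17) ⊆ Ico (2 * D * u) (4 * D * u) := by
    rw [e1, e2]
    apply Ico_subset_Ico <;> omega
  have h4 : GG b (1 / (2 * (b : ℝ) ^ 3)) α (L / 31) (L / 17) =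
      ∏ j ∈ Ico (L / 31) (L / 17),
        (1 - nd (b * alr L J α j - alr L J α (j + 1)) ^ 2 / (2 * (b : ℝ) ^ 3)) := by
    unfold GG
    refine prod_congr rfl fun j hj => ?_
    rw [mem_Ico] at hj
    have h5 : alr L J α j = α j := by
      unfold alr
      rw [if_pos]
      omega
    have h6 : alr L J α (j + 1) = α (j + 1) := by
      unfold alr
      rw [if_pos]
      omega
    rw [h5, h6]
    ring
  rw [h4, WW_eq, ← prod_sdiff hsub]
  refine mul_le_of_le_one_left ?_ ?_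
  · exact prod_nonneg fun j _ => by linarith [(factor_mem b hb (b * alr L J α j - alr L J α (j + 1))).1]
  · exact prod_le_one (fun j _ => by linarith [(factor_mem b hb (b * alr L J α j - alr L J α (j + 1))).1])
      fun j _ => (factor_mem b hb (b * alr L J α j - alr L J α (j + 1))).2

/-- numerology of the end -/
theorem TH_le_end (b D u L : ℕ) (hb : 2 ≤ b) (hu : u = L / (64 * D)) (hD : 1 ≤ D) (W g : ℝ)
    (hW : 0 ≤ W) (hWg : W ≤ g) (hg : g ≤ 1) :
    (W + (1 / 2) ^ u) ^ (1 / 8 : ℝ) ≤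
      2 * (g ^ (1 / (512 * D * b) : ℝ) + (b : ℝ) ^ (-((1 / (512 * D * b) : ℝ) * L))) := by
  have hD' : (1 : ℝ) ≤ D := by exact_mod_cast hD
  have hb' : (2 : ℝ) ≤ b := by exact_mod_cast hb
  have hg0 : 0 ≤ g := hW.trans hWg
  have hb0 : (0 : ℝ) < b := by linarith
  set c : ℝ := 1 / (512 * D * b) with hc
  have hc0 : 0 < c := by positivity
  have hc1 : c ≤ 1 / 8 := by
    rw [hc]
    apply one_div_le_one_div_of_le (by norm_num)
    nlinarith
  have h1 : (W + (1 / 2) ^ u) ^ (1 / 8 : ℝ) ≤ W ^ (1 / 8 : ℝ) + ((1 / 2 : ℝ) ^ u) ^ (1 / 8 : ℝ) :=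
    Real.rpow_add_le_add_rpow hW (by positivity) (by norm_num) (by norm_num)
  have h2 : W ^ (1 / 8 : ℝ) ≤ g ^ c := by
    calc W ^ (1 / 8 : ℝ) ≤ g ^ (1 / 8 : ℝ) := Real.rpow_le_rpow hW hWg (by norm_num)
      _ ≤ g ^ c := Real.rpow_le_rpow_of_exponent_ge' hg0 hg hc0.le hc1
  have hL : (L : ℝ) < 64 * D * (u + 1) := by
    have := Nat.lt_mul_div_succ L (show 0 < 64 * D by omega)
    rw [← hu] at this
    exact_mod_cast this
  have h3 : ((1 / 2 : ℝ) ^ u) ^ (1 / 8 : ℝ) ≤ 2 * (b : ℝ) ^ (-(c * L)) := by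
    have e1 : ((1 / 2 : ℝ) ^ u) ^ (1 / 8 : ℝ) = (2 : ℝ) ^ (-((u : ℝ) / 8)) := by
      rw [one_div, inv_pow, ← Real.rpow_natCast, ← Real.rpow_neg (by norm_num), ← Real.rpow_mul (by norm_num)]
      congr 1
      ring
    have hb2 : (b : ℝ) ≤ 2 ^ (b : ℝ) := by
      rw [Real.rpow_natCast]
      exact_mod_cast (Nat.lt_two_pow_self (n := b)).le
    have e2 : (2 : ℝ) ^ (-((b : ℝ) * (c * L))) ≤ (b : ℝ) ^ (-(c * L)) := by
      rw [Real.rpow_neg (by norm_num), Real.rpow_neg hb0.le]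
      apply inv_anti₀ (by positivity)
      have hcL : 0 ≤ c * (L : ℝ) := by positivity
      rw [show (2 : ℝ) ^ ((b : ℝ) * (c * L)) = ((2 : ℝ) ^ (b : ℝ)) ^ (c * (L : ℝ)) from
        Real.rpow_mul (by norm_num) _ _]
      exact Real.rpow_le_rpow hb0.le hb2 hcL
    have e3 : (b : ℝ) * (c * L) = L / (512 * D) := by
      rw [hc]
      field_simp
    have e4 : (L : ℝ) / (512 * D) ≤ (u + 1) / 8 := by
      rw [div_le_iff₀ (by positivity)]
      nlinarith
    rw [e1]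
    calc (2 : ℝ) ^ (-((u : ℝ) / 8)) ≤ 2 ^ (1 + -((b : ℝ) * (c * L))) := by
          apply Real.rpow_le_rpow_of_exponent_le (by norm_num)
          rw [e3]
          linarith
      _ = 2 * 2 ^ (-((b : ℝ) * (c * L))) := by
          rw [Real.rpow_add (by norm_num), Real.rpow_one]
      _ ≤ 2 * (b : ℝ) ^ (-(c * L)) := by gcongr
  have h4 : 0 ≤ g ^ c := by positivity
  linarith

theorem tt_stmt (b : ℕ) (hb : 2 ≤ b) : TTStmt b := by
  obtain ⟨D, hD, hκ⟩ := exists_D b hb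
  obtain ⟨C, A, hC, H⟩ := tt_fd b D hb hD hκ
  have hD1 : 1 ≤ D := by omega
  have hb' : (2 : ℝ) ≤ b := by exact_mod_cast hb
  have hD' : (1 : ℝ) ≤ D := by exact_mod_cast hD1
  refine ⟨1088 * D + A + 2, 1 / (2 * (b : ℝ) ^ 3), 1 / (512 * D * b), 2 * C, by omega, by positivity,
    ?_, by positivity, by positivity, 31, 17, by norm_num, by norm_num, ?_⟩
  · rw [div_lt_one (by positivity)]
    have : (8 : ℝ) ≤ (b : ℝ) ^ 3 := by
      calc (8 : ℝ) = 2 ^ 3 := by norm_num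
        _ ≤ (b : ℝ) ^ 3 := by gcongr
    linarith
  intro L J l hL hJL hJ hl hlb α Om hOm
  set u := L / (64 * D) with hu
  have hL1 : 1088 * D ≤ L := by omega
  have hJ1 : 1088 * D * J ≤ L := by
    calc 1088 * D * J ≤ (1088 * D + A + 2) * J := Nat.mul_le_mul_right _ (by omega)
      _ ≤ L := hJL
  have hu1 : 1 ≤ u := by
    rw [hu, Nat.le_div_iff_mul_le (by omega)]
    omega
  have huL : 64 * D * u ≤ L := Nat.mul_div_le L (64 * D)
  have huL' : u ≤ L := by nlinarith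
  have hJu : J ≤ u := by
    rw [hu, Nat.le_div_iff_mul_le (by omega)]
    nlinarith
  rw [sum_fd_eq b u L J l hb hu1 huL' hJu hlb]
  have hω1 : ∀ c v, ‖omr b u J l Om c v‖ ≤ 1 := by
    intro c v
    unfold omr
    split_ifs
    · rw [hOm]
    · simp
  have hω2 : ∀ c v, b ^ u ≤ c → omr b u J l Om c v = 0 := by
    intro c v hc
    unfold omr
    rw [if_neg]
    rintro ⟨_, h2, _⟩
    have : (l + 1) * b ^ (u - 1) ≤ b ^ u := by
      calc (l + 1) * b ^ (u - 1) ≤ b * b ^ (u - 1) := Nat.mul_le_mul_right _ hlb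
        _ = b ^ u := by rw [← pow_succ']; congr 1; omega
    omega
  have hω3 : ∀ c v, c < b ^ (u - 1) → omr b u J l Om c v = 0 := by
    intro c v hc
    unfold omr
    rw [if_neg]
    rintro ⟨h1, _, _⟩
    have : 1 * b ^ (u - 1) ≤ l * b ^ (u - 1) := Nat.mul_le_mul_right _ hl
    omega
  have h1 := H L u hu1 huL (alr L J α) (omr b u J l Om) hω1 hω2 hω3
  refine h1.trans ?_
  have hW := WW_alr_le b D u L J hb hu hD1 hL1 hJ1 α
  have hG1 : GG b (1 / (2 * (b : ℝ) ^ 3)) α (L / 31) (L / 17) ≤ 1 := WW_le_one b hb α _ _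
  have h2 := TH_le_end b D u L hb hu hD1 (WW b (alr L J α) (2 * D * u) (4 * D * u))
    (GG b (1 / (2 * (b : ℝ) ^ 3)) α (L / 31) (L / 17)) (WW_nonneg b hb _ _ _) hW hG1
  have hL0 : (1 : ℝ) ≤ L := by
    have : 1 ≤ L := by omega
    exact_mod_cast this
  have h3 : (L : ℝ) ^ A ≤ (L : ℝ) ^ (1088 * D + A + 2) := pow_le_pow_right₀ hL0 (by omega)
  calc C * (L : ℝ) ^ A * (b : ℝ) ^ L * TH b D u (alr L J α) ^ (1 / 8 : ℝ)
      ≤ C * (L : ℝ) ^ (1088 * D + A + 2) * (b : ℝ) ^ L *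
        (2 * (GG b (1 / (2 * (b : ℝ) ^ 3)) α (L / 31) (L / 17) ^ (1 / (512 * D * b) : ℝ) +
          (b : ℝ) ^ (-((1 / (512 * D * b) : ℝ) * L)))) := by
        have h5 : TH b D u (alr L J α) ^ (1 / 8 : ℝ) ≤ 2 *
            (GG b (1 / (2 * (b : ℝ) ^ 3)) α (L / 31) (L / 17) ^ (1 / (512 * D * b) : ℝ) +
              (b : ℝ) ^ (-((1 / (512 * D * b) : ℝ) * L))) := h2
        have h6 : 0 ≤ TH b D u (alr L J α) ^ (1 / 8 : ℝ) :=
          Real.rpow_nonneg (TH_pos b D u hb _).le _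
        gcongr
    _ = _ := by ring

end Pool.Agent.LibHG31.TT
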