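import Pool.Agent.LibHG31.T1

/-!
# ROW T2a (HG31 block TT): Fourier analysis of `gf` / `FF`, first part

Definitions in T0.lean, helper lemmas in T0.lean and T1.lean (all proved): `orth` (orthogonality),
`gf_succ`, `gf_mod`, `sum_range_pow_succ`, `sum_range_pow_add`, `ee_*`.

PLANS.
* `parseval`: `‖z‖^2 = z * conj z`, expand, interchange, `orth` with `d = k' - k` for `k, k' < N`:
  `N ∣ k' - k` iff `k = k'`.
* `FF_succ`: `sum_range_pow_succ`, `gf_succ`; `e(-(v + b^L d) x) = e(-v x) e(-b^L d x)`; the sum factorizes: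
  `∑_d e(α_L d) e(-b^L d x) = ∑_d e(d (α_L - b^L x))`.
* `norm_FF_succ`: norm of the previous one, `ph` is the norm of the second factor.
* `norm_FF_add`: induction on `n` (`prod_range_succ`).
* `FF_add_int`: `e(-(k (x + n))) = e(-k x)`.
* `norm_FF_le_one`: triangle inequality, `norm_gf_le`.
* `norm_FF_zero`: `norm_FF_add` with `K = L = 0` (`FF b 0 0 α 1 x = 1`).
-/

namespace Pool.Agent.LibHG31.TT

open Finset
open scoped ComplexConjugate

theorem parseval (N : ℕ) (hN : 0 < N) (a : ℕ → ℂ) (x₀ : ℝ) :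
    ∑ j ∈ range N, ‖∑ k ∈ range N, a k * ee (-(k * (x₀ + j / N)))‖ ^ 2 =
      N * ∑ k ∈ range N, ‖a k‖ ^ 2 := by
  have hN' : (N : ℝ) ≠ 0 := by positivity
  have h0 : ∀ z : ℂ, ((‖z‖ ^ 2 : ℝ) : ℂ) = z * conj z := by
    intro z
    rw [Complex.mul_conj, Complex.normSq_eq_norm_sq]
  rw [← Complex.ofReal_inj]
  push_cast
  have h1 : ∀ z : ℂ, (‖z‖ : ℂ) ^ 2 = z * conj z := by
    intro z
    rw [← h0]
    push_cast
    rfl
  simp_rw [h1]
  have h2 : ∀ j : ℕ, (∑ k ∈ range N, a k * ee (-(k * (x₀ + j / N)))) *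
      conj (∑ k ∈ range N, a k * ee (-(k * (x₀ + j / N)))) =
      ∑ k ∈ range N, ∑ k' ∈ range N, (a k * conj (a k') * ee (-(k * x₀)) * ee (k' * x₀)) *
        ee ((((k' : ℤ) - k : ℤ) : ℝ) * j / N) := by
    intro j
    rw [map_sum, sum_mul_sum]
    refine sum_congr rfl fun k _ => sum_congr rfl fun k' _ => ?_
    rw [map_mul, conj_ee]
    have e1 : ee (-(k * (x₀ + j / N))) * ee (-(-(k' * (x₀ + j / N)))) =
        ee (-(k * x₀)) * ee (k' * x₀) * ee ((((k' : ℤ) - k : ℤ) : ℝ) * j / N) := by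
      rw [← ee_add, ← ee_add, ← ee_add]
      congr 1
      push_cast
      field_simp
      ring
    calc a k * ee (-(k * (x₀ + j / N))) * (conj (a k') * ee (-(-(k' * (x₀ + j / N)))))
        = a k * conj (a k') * (ee (-(k * (x₀ + j / N))) * ee (-(-(k' * (x₀ + j / N))))) := by ring
      _ = _ := by rw [e1]; ring
  rw [sum_congr rfl fun j _ => h2 j, sum_comm, mul_sum]
  refine sum_congr rfl fun k hk => ?_
  rw [sum_comm]
  simp_rw [← mul_sum]
  rw [sum_eq_single k]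
  · rw [orth N hN]
    rw [if_pos (by simp)]
    have e2 : ee (-(k * x₀)) * ee (k * x₀) = 1 := by
      rw [← ee_add]
      simp
    calc a k * conj (a k) * ee (-(k * x₀)) * ee (k * x₀) * (N : ℂ)
        = a k * conj (a k) * (ee (-(k * x₀)) * ee (k * x₀)) * N := by ring
      _ = _ := by rw [e2]; ring
  · intro k' hk' hne
    rw [orth N hN, if_neg, mul_zero]
    intro hdvd
    apply hne
    rw [mem_range] at hk hk'
    have h3 : ((k' : ℤ) - k) = 0 := by
      apply Int.eq_zero_of_abs_lt_dvd hdvd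
      rw [abs_lt]
      constructor <;> omega
    omega
  · intro h
    exact absurd hk h

theorem FF_succ (b K L : ℕ) (hb : 0 < b) (hKL : K ≤ L) (α : ℕ → ℝ) (w : ℕ → ℂ) (x : ℝ) :
    FF b K (L + 1) α w x =
      FF b K L α w x * ((∑ d ∈ range b, ee (d * (α L - (b : ℝ) ^ L * x))) / b) := by
  unfold FF
  have h1 : ∑ k ∈ range (b ^ (L + 1)), gf b K (L + 1) α w k * ee (-(k * x)) =
      (∑ v ∈ range (b ^ L), gf b K L α w v * ee (-(v * x))) *
        ∑ d ∈ range b, ee (d * (α L - (b : ℝ) ^ L * x)) := by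
    rw [sum_range_pow_succ, sum_mul_sum]
    refine sum_congr rfl fun v hv => sum_congr rfl fun d hd => ?_
    rw [mem_range] at hv hd
    rw [gf_succ b K L hb hKL α w v d hv hd]
    have e1 : ee (α L * d) * ee (-(((v + b ^ L * d : ℕ) : ℝ) * x)) =
        ee (-(v * x)) * ee (d * (α L - (b : ℝ) ^ L * x)) := by
      rw [← ee_add, ← ee_add]
      congr 1
      push_cast
      ring
    rw [mul_assoc, e1]
    ring
  rw [h1, pow_succ, mul_div_mul_comm]

theorem norm_FF_succ (b K L : ℕ) (hb : 0 < b) (hKL : K ≤ L) (α : ℕ → ℝ) (w : ℕ → ℂ) (x : ℝ) :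
    ‖FF b K (L + 1) α w x‖ = ‖FF b K L α w x‖ * ph b (α L - (b : ℝ) ^ L * x) := by
  rw [FF_succ b K L hb hKL, norm_mul, norm_div, Complex.norm_natCast, ph]

theorem norm_FF_add (b K L : ℕ) (hb : 0 < b) (hKL : K ≤ L) (α : ℕ → ℝ) (w : ℕ → ℂ) (n : ℕ) (x : ℝ) :
    ‖FF b K (L + n) α w x‖ =
      ‖FF b K L α w x‖ * ∏ j ∈ range n, ph b (α (L + j) - (b : ℝ) ^ (L + j) * x) := by
  induction n with
  | zero => simp
  | succ n ih =>
    rw [← add_assoc, norm_FF_succ b K (L + n) hb (by omega), ih, prod_range_succ, mul_assoc]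

theorem FF_add_int (b K L : ℕ) (α : ℕ → ℝ) (w : ℕ → ℂ) (x : ℝ) (n : ℤ) :
    FF b K L α w (x + n) = FF b K L α w x := by
  unfold FF
  congr 1
  refine sum_congr rfl fun k _ => ?_
  congr 1
  have : -((k : ℝ) * (x + n)) = -(k * x) + ((-(k * n) : ℤ) : ℝ) := by
    push_cast
    ring
  rw [this, ee_add_int]

theorem norm_FF_le_one (b K L : ℕ) (hb : 0 < b) (α : ℕ → ℝ) (w : ℕ → ℂ) (hw : ∀ v, ‖w v‖ ≤ 1)
    (x : ℝ) : ‖FF b K L α w x‖ ≤ 1 := by
  unfold FF
  rw [norm_div, norm_pow, Complex.norm_natCast]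
  apply div_le_one_of_le₀ _ (by positivity)
  calc ‖∑ k ∈ range (b ^ L), gf b K L α w k * ee (-(k * x))‖
      ≤ ∑ k ∈ range (b ^ L), ‖gf b K L α w k * ee (-(k * x))‖ := norm_sum_le _ _
    _ ≤ ∑ k ∈ range (b ^ L), (1 : ℝ) := by
        refine sum_le_sum fun k _ => ?_
        rw [norm_mul, norm_ee, mul_one]
        exact norm_gf_le b K L α w hw k
    _ = (b : ℝ) ^ L := by simp

/-- the window product as a Fourier transform with trivial suffix function -/
theorem norm_FF_zero (b : ℕ) (hb : 0 < b) (α : ℕ → ℝ) (n : ℕ) (x : ℝ) :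
    ‖FF b 0 n α (fun _ => 1) x‖ = ∏ j ∈ range n, ph b (α j - (b : ℝ) ^ j * x) := by
  have h := norm_FF_add b 0 0 hb le_rfl α (fun _ => 1) n x
  rw [zero_add] at h
  rw [h]
  have h1 : FF b 0 0 α (fun _ => 1) x = 1 := by
    unfold FF gf dp
    simp
  rw [h1]
  simp

end Pool.Agent.LibHG31.TT
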