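import Pool.Agent.LibHG31.T2

namespace Pool.Agent.LibHG31.TT

open Finset

theorem ph_sq_eq (b : ℕ) (t : ℝ) : ph b t ^ 2 = ‖∑ d ∈ range b, ee (d * t)‖ ^ 2 / (b : ℝ) ^ 2 := by
  unfold ph
  rw [div_pow]

theorem ph_sq_restrict_aux (p b' : ℕ) (hp : 0 < p) (hb : 0 < b') (c : ℕ) (hc : c < p) (y : ℝ) :
    ∑ k ∈ (range (p * b')).filter (fun k => k % p = c), ph (p * b') (y - k / (p * b' : ℕ)) ^ 2 =
      ph p (b' * y - c / p) ^ 2 := by
  have hp' : (p : ℝ) ≠ 0 := by positivity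
  have hb' : (b' : ℝ) ≠ 0 := by positivity
  -- parametrize
  have h1 : ∑ k ∈ (range (p * b')).filter (fun k => k % p = c), ph (p * b') (y - k / (p * b' : ℕ)) ^ 2 =
      ∑ j ∈ range b', ph (p * b') (y - (c + p * j : ℕ) / (p * b' : ℕ)) ^ 2 := by
    rw [sum_filter, sum_range_mul_split]
    rw [sum_eq_single c]
    · refine sum_congr rfl fun j _ => ?_
      rw [if_pos]
      rw [Nat.add_mul_mod_self_left, Nat.mod_eq_of_lt hc]
    · intro v hv hvc
      refine sum_eq_zero fun j _ => ?_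
      rw [if_neg]
      rw [Nat.add_mul_mod_self_left, Nat.mod_eq_of_lt (mem_range.1 hv)]
      exact hvc
    · intro h
      exact absurd (mem_range.2 hc) h
  rw [h1]
  set y₀ : ℝ := y - c / (p * b') with hy₀
  set S : ℂ := ∑ d₁ ∈ range p, ee (d₁ * (b' * y₀)) with hS
  have h2 : ∀ j : ℕ, ∑ d ∈ range (p * b'), ee (d * (y - (c + p * j : ℕ) / (p * b' : ℕ))) =
      ∑ d₀ ∈ range b', (ee (d₀ * y₀) * S) * ee (-(d₀ * (0 + j / b'))) := by
    intro j
    rw [mul_comm p b', sum_range_mul_split]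
    refine sum_congr rfl fun d₀ _ => ?_
    rw [hS, mul_sum, sum_mul]
    refine sum_congr rfl fun d₁ _ => ?_
    rw [← ee_add, ← ee_add]
    have e1 : ((d₀ + b' * d₁ : ℕ) : ℝ) * (y - (c + p * j : ℕ) / ((b' * p : ℕ) : ℝ)) =
        (d₀ * y₀ + d₁ * (b' * y₀)) + -(d₀ * (0 + j / b')) + ((-(d₁ * j : ℤ) : ℤ) : ℝ) := by
      rw [hy₀]
      push_cast
      field_simp
      ring
    rw [e1, ee_add_int]
  have h3 : ∀ j : ℕ, ph (p * b') (y - (c + p * j : ℕ) / (p * b' : ℕ)) ^ 2 =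
      ‖∑ d₀ ∈ range b', (ee (d₀ * y₀) * S) * ee (-(d₀ * (0 + j / b')))‖ ^ 2 / ((p * b' : ℕ) : ℝ) ^ 2 := by
    intro j
    rw [ph_sq_eq, h2]
  simp_rw [h3]
  rw [← sum_div, parseval b' hb]
  simp_rw [norm_mul, norm_ee, one_mul]
  rw [ph_sq_eq]
  have h4 : ∑ d ∈ range p, ee (d * (b' * y - c / p)) = S := by
    rw [hS]
    refine sum_congr rfl fun d _ => ?_
    congr 2
    rw [hy₀]
    field_simp
  rw [h4]
  simp
  field_simp

theorem ph_sq_restrict (p b' : ℕ) (hp : 0 < p) (hb : 0 < b') (c : ℕ) (y : ℝ) :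
    ∑ k ∈ (range (p * b')).filter (fun k => k % p = c % p), ph (p * b') (y - k / (p * b' : ℕ)) ^ 2 =
      ph p (b' * y - c / p) ^ 2 := by
  rw [ph_sq_restrict_aux p b' hp hb (c % p) (Nat.mod_lt _ hp)]
  have hp' : (p : ℝ) ≠ 0 := by positivity
  have h : (c : ℝ) / p = ((c % p : ℕ) : ℝ) / p + ((c / p : ℕ) : ℝ) := by
    have := Nat.div_add_mod c p
    have h2 : (c : ℝ) = p * ((c / p : ℕ) : ℝ) + ((c % p : ℕ) : ℝ) := by exact_mod_cast this.symm
    field_simp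
    linarith
  rw [h, ← sub_sub, ph_sub_nat]

theorem ph_sq_sum (b : ℕ) (hb : 0 < b) (y : ℝ) : ∑ k ∈ range b, ph b (y - k / b) ^ 2 = 1 := by
  have h := ph_sq_restrict 1 b one_pos hb 0 y
  simp only [Nat.mod_one, one_mul] at h
  rw [filter_true] at h
  rw [h]
  unfold ph
  simp

end Pool.Agent.LibHG31.TT
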