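import Pool.Agent.LibHG31.T3
import Pool.Agent.LibHG31.T4

/-! # HG31 block TT, row T5: two-level sum of squares restricted to classes mod `p ∣ b` -/

namespace Pool.Agent.LibHG31.TT

open Finset

/-- one level, restricted to a class -/
theorem one_level_restrict (b p b' : ℕ) (hbp : b = p * b') (hp : 0 < p) (hb' : 0 < b') (c : ℕ) (y : ℝ) :
    ∑ k ∈ (range b).filter (fun k => k % p = c % p), ph b (y - k / b) ^ 2 =
      ph p (b' * y - c / p) ^ 2 := by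
  subst hbp
  exact ph_sq_restrict p b' hp hb' c y

/-- the restricted mass is at most `1 - (4/p^3) nd(b y)^2` -/
theorem one_level_le (b p b' : ℕ) (hbp : b = p * b') (hp : 2 ≤ p) (hb' : 0 < b') (c : ℕ) (y : ℝ) :
    ph p (b' * y - c / p) ^ 2 ≤ 1 - 4 / (p : ℝ) ^ 3 * nd (b * y) ^ 2 := by
  have hp0 : (0 : ℝ) < p := by positivity
  have h1 := ph_sq_le p hp (b' * y - c / p)
  have h2 : nd (b * y) ≤ p * nd (b' * y - c / p) := by
    have e : (p : ℝ) * (b' * y - c / p) = b * y - (c : ℕ) := by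
      rw [hbp]
      push_cast
      field_simp
    calc nd (b * y) = nd (p * (b' * y - c / p)) := by rw [e, nd_sub_nat]
      _ ≤ _ := nd_nat_mul_le _ _
  have h3 : nd (b * y) ^ 2 ≤ (p : ℝ) ^ 2 * nd (b' * y - c / p) ^ 2 := by
    have := nd_nonneg (b * y)
    calc nd (b * y) ^ 2 ≤ (p * nd (b' * y - c / p)) ^ 2 := by gcongr
      _ = _ := by ring
  have h4 : 4 / (p : ℝ) ^ 3 * nd (b * y) ^ 2 ≤ 4 * nd (b' * y - c / p) ^ 2 / p := by
    rw [div_mul_eq_mul_div, div_le_div_iff₀ (by positivity) hp0]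
    calc 4 * nd (b * y) ^ 2 * p ≤ 4 * ((p : ℝ) ^ 2 * nd (b' * y - c / p) ^ 2) * p := by gcongr
      _ = _ := by ring
  linarith

/-- the version with full classes -/
theorem two_level_class (b p : ℕ) (hb : 2 ≤ b) (hp : 2 ≤ p) (hpb : p ∣ b) (x x' : ℝ) (c₀ : ℕ)
    (c₁ : ℕ → ℕ) :
    ∑ k₀ ∈ (range b).filter (fun k => k % p = c₀ % p), ph b (x' - k₀ / b) ^ 2 *
      ∑ k₁ ∈ (range b).filter (fun k => k % p = c₁ k₀ % p), ph b (x - k₀ / (b : ℝ) ^ 2 - k₁ / b) ^ 2 ≤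
      1 - nd (b * x - x') ^ 2 / (2 * (b : ℝ) ^ 3) := by
  obtain ⟨b', hbp⟩ := hpb
  have hb0 : 0 < b := by omega
  have hp0 : 0 < p := by omega
  have hb'0 : 0 < b' := by
    rcases Nat.eq_zero_or_pos b' with h | h
    · rw [h, mul_zero] at hbp
      omega
    · exact h
  have hbR : (2 : ℝ) ≤ b := by exact_mod_cast hb
  have hpR : (2 : ℝ) ≤ p := by exact_mod_cast hp
  have hpbR : (p : ℝ) ≤ b := by
    have : p ≤ b := by rw [hbp]; exact Nat.le_mul_of_pos_right p hb'0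
    exact_mod_cast this
  set γ : ℝ := 1 / (p : ℝ) ^ 3 with hγ
  have hγ0 : 0 < γ := by positivity
  set ξ : ℝ := b * x - x' with hξ
  set S := (range b).filter (fun k => k % p = c₀ % p) with hS
  set m₀ : ℝ := ∑ k₀ ∈ S, ph b (x' - k₀ / b) ^ 2 with hm₀
  set T : ℝ := ∑ k₀ ∈ S, ph b (x' - k₀ / b) ^ 2 * nd (x' - k₀ / b) ^ 2 with hT
  -- step 1
  have h1 : ∀ k₀ : ℕ, ∑ k₁ ∈ (range b).filter (fun k => k % p = c₁ k₀ % p),
      ph b (x - k₀ / (b : ℝ) ^ 2 - k₁ / b) ^ 2 ≤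
      1 - γ * (nd ξ ^ 2 / 2 - nd (x' - k₀ / b) ^ 2) := by
    intro k₀
    rw [one_level_restrict b p b' hbp hp0 hb'0]
    refine (one_level_le b p b' hbp hp hb'0 _ _).trans ?_
    have e1 : (b : ℝ) * (x - k₀ / (b : ℝ) ^ 2) = ξ + (x' - k₀ / b) := by
      rw [hξ]
      field_simp
      ring
    rw [e1]
    have h2 : nd ξ ≤ nd (ξ + (x' - k₀ / b)) + nd (x' - k₀ / b) := by
      have := nd_sub_le (ξ + (x' - k₀ / b)) (x' - k₀ / b)
      rwa [add_sub_cancel_right] at this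
    have h3 := nd_nonneg ξ
    have h4 := nd_nonneg (ξ + (x' - k₀ / b))
    have h5 := nd_nonneg (x' - k₀ / b)
    have h6 : nd ξ ^ 2 / 2 - nd (x' - k₀ / b) ^ 2 ≤ nd (ξ + (x' - k₀ / b)) ^ 2 := by
      nlinarith [sq_nonneg (nd (ξ + (x' - k₀ / b)) - nd (x' - k₀ / b))]
    have h7 : γ * (nd ξ ^ 2 / 2 - nd (x' - k₀ / b) ^ 2) ≤
        4 / (p : ℝ) ^ 3 * nd (ξ + (x' - k₀ / b)) ^ 2 := by
      calc γ * (nd ξ ^ 2 / 2 - nd (x' - k₀ / b) ^ 2) ≤ γ * nd (ξ + (x' - k₀ / b)) ^ 2 := by gcongr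
        _ ≤ 4 / (p : ℝ) ^ 3 * nd (ξ + (x' - k₀ / b)) ^ 2 := by
            rw [hγ]
            gcongr
            norm_num
    linarith
  -- step 2
  have h2 : ∑ k₀ ∈ S, ph b (x' - k₀ / b) ^ 2 *
      ∑ k₁ ∈ (range b).filter (fun k => k % p = c₁ k₀ % p), ph b (x - k₀ / (b : ℝ) ^ 2 - k₁ / b) ^ 2 ≤
      m₀ - γ * m₀ * nd ξ ^ 2 / 2 + γ * T := by
    calc _ ≤ ∑ k₀ ∈ S, ph b (x' - k₀ / b) ^ 2 * (1 - γ * (nd ξ ^ 2 / 2 - nd (x' - k₀ / b) ^ 2)) := by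
          refine sum_le_sum fun k₀ _ => ?_
          exact mul_le_mul_of_nonneg_left (h1 k₀) (by positivity)
      _ = m₀ - γ * m₀ * nd ξ ^ 2 / 2 + γ * T := by
          rw [hm₀, hT, mul_sum, mul_sum, sum_mul, sum_div, ← sum_sub_distrib, ← sum_add_distrib]
          refine sum_congr rfl fun k₀ _ => ?_
          ring
  -- step 3
  have h3 : T ≤ 4 * nd (b * x') ^ 2 / b := by
    have e : ∀ k₀ ∈ S, ph b (x' - k₀ / b) ^ 2 * nd (x' - k₀ / b) ^ 2 ≤ 4 * nd (b * x') ^ 2 / (b : ℝ) ^ 2 := by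
      intro k₀ _
      have a1 := ph_mul_nd_le b (by omega) (x' - k₀ / b)
      have a2 : (b : ℝ) * (x' - k₀ / b) = b * x' - (k₀ : ℕ) := by
        field_simp
      rw [a2, nd_sub_nat] at a1
      have a3 := ph_nonneg b (x' - k₀ / b)
      have a4 := nd_nonneg (x' - k₀ / b)
      calc ph b (x' - k₀ / b) ^ 2 * nd (x' - k₀ / b) ^ 2
          = (ph b (x' - k₀ / b) * nd (x' - k₀ / b)) ^ 2 := by ring
        _ ≤ (2 * nd (b * x') / b) ^ 2 := by gcongr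
        _ = _ := by ring
    calc T ≤ ∑ _k₀ ∈ S, 4 * nd (b * x') ^ 2 / (b : ℝ) ^ 2 := sum_le_sum e
      _ = (S.card : ℝ) * (4 * nd (b * x') ^ 2 / (b : ℝ) ^ 2) := by rw [sum_const, nsmul_eq_mul]
      _ ≤ b * (4 * nd (b * x') ^ 2 / (b : ℝ) ^ 2) := by
          have : (S.card : ℝ) ≤ b := by
            have := (card_filter_le (range b) (fun k => k % p = c₀ % p))
            rw [card_range] at this
            exact_mod_cast this
          gcongr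
      _ = _ := by field_simp
  -- step 4
  have h4 : m₀ ≤ 1 - 4 / (p : ℝ) ^ 3 * nd (b * x') ^ 2 := by
    rw [hm₀, hS, one_level_restrict b p b' hbp hp0 hb'0]
    exact one_level_le b p b' hbp hp hb'0 _ _
  have h5 : γ * T ≤ (1 - m₀) / 2 := by
    have a1 : γ * T ≤ γ * (4 * nd (b * x') ^ 2 / b) := by gcongr
    have a2 : γ * (4 * nd (b * x') ^ 2 / b) ≤ γ * (4 * nd (b * x') ^ 2 / 2) := by gcongr
    have a3 : γ * (4 * nd (b * x') ^ 2 / 2) = (4 / (p : ℝ) ^ 3 * nd (b * x') ^ 2) / 2 := by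
      rw [hγ]
      ring
    linarith
  have h6 : 0 ≤ m₀ := sum_nonneg fun _ _ => by positivity
  have h7 : m₀ ≤ 1 := by
    have : 0 ≤ 4 / (p : ℝ) ^ 3 * nd (b * x') ^ 2 := by positivity
    linarith
  have h8 : nd ξ ^ 2 ≤ 1 / 4 := by
    have a1 := nd_nonneg ξ
    have a2 := nd_le_half ξ
    nlinarith
  have h9 : γ ≤ 1 / 8 := by
    rw [hγ]
    apply one_div_le_one_div_of_le (by norm_num)
    calc (8 : ℝ) = 2 ^ 3 := by norm_num
      _ ≤ (p : ℝ) ^ 3 := by gcongr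
  have h10 : nd ξ ^ 2 / (2 * (b : ℝ) ^ 3) ≤ γ * nd ξ ^ 2 / 2 := by
    have : 1 / (b : ℝ) ^ 3 ≤ γ := by
      rw [hγ]
      apply one_div_le_one_div_of_le (by positivity)
      gcongr
    calc nd ξ ^ 2 / (2 * (b : ℝ) ^ 3) = (1 / (b : ℝ) ^ 3) * nd ξ ^ 2 / 2 := by ring
      _ ≤ γ * nd ξ ^ 2 / 2 := by gcongr
  have h11 : γ * nd ξ ^ 2 / 2 * (1 - m₀) ≤ (1 - m₀) / 2 := by
    have : γ * nd ξ ^ 2 / 2 ≤ 1 / 2 := by nlinarith [sq_nonneg (nd ξ)]
    nlinarith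
  nlinarith

theorem two_level_restrict (b p : ℕ) (hb : 2 ≤ b) (hp : 2 ≤ p) (hpb : p ∣ b) (x x' : ℝ)
    (Z : Finset (ℕ × ℕ)) (hZ : ∀ z ∈ Z, z.1 < b ∧ z.2 < b)
    (h0 : ∀ z ∈ Z, ∀ z' ∈ Z, z.1 % p = z'.1 % p)
    (h1 : ∀ z ∈ Z, ∀ z' ∈ Z, z.1 = z'.1 → z.2 % p = z'.2 % p) :
    ∑ z ∈ Z, ph b (x' - z.1 / b) ^ 2 * ph b (x - z.1 / (b : ℝ) ^ 2 - z.2 / b) ^ 2 ≤
      1 - nd (b * x - x') ^ 2 / (2 * (b : ℝ) ^ 3) := by
  classical
  rcases Z.eq_empty_or_nonempty with rfl | ⟨z₀, hz₀⟩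
  · rw [sum_empty]
    linarith [(factor_mem b hb (b * x - x')).1]
  set c₁ : ℕ → ℕ := fun k => if h : ∃ v, (k, v) ∈ Z then h.choose else 0 with hc₁
  refine le_trans ?_ (two_level_class b p hb hp hpb x x' z₀.1 c₁)
  set A := (range b).filter (fun k => k % p = z₀.1 % p) with hA
  set B : ℕ → Finset ℕ := fun k => (range b).filter (fun v => v % p = c₁ k % p) with hB
  have hsub : Z ⊆ (A.sigma B).map ⟨fun s => (s.1, s.2), fun s t h => by
      simp only [Prod.mk.injEq] at h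
      exact Sigma.ext h.1 (heq_of_eq h.2)⟩ := by
    intro z hz
    rw [mem_map]
    refine ⟨⟨z.1, z.2⟩, ?_, rfl⟩
    rw [mem_sigma]
    refine ⟨?_, ?_⟩
    · rw [hA, mem_filter, mem_range]
      exact ⟨(hZ z hz).1, h0 z hz z₀ hz₀⟩
    · have hex : ∃ v, (z.1, v) ∈ Z := ⟨z.2, hz⟩
      simp only [hB, mem_filter, mem_range]
      refine ⟨(hZ z hz).2, ?_⟩
      have e : c₁ z.1 = hex.choose := by
        simp only [hc₁]
        rw [dif_pos hex]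
      rw [e]
      exact h1 z hz (z.1, hex.choose) hex.choose_spec rfl
  calc ∑ z ∈ Z, ph b (x' - z.1 / b) ^ 2 * ph b (x - z.1 / (b : ℝ) ^ 2 - z.2 / b) ^ 2
      ≤ ∑ z ∈ (A.sigma B).map ⟨fun s => (s.1, s.2), fun s t h => by
          simp only [Prod.mk.injEq] at h
          exact Sigma.ext h.1 (heq_of_eq h.2)⟩,
        ph b (x' - z.1 / b) ^ 2 * ph b (x - z.1 / (b : ℝ) ^ 2 - z.2 / b) ^ 2 :=
        sum_le_sum_of_subset_of_nonneg hsub fun _ _ _ => by positivity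
    _ = _ := by
        rw [sum_map, sum_sigma]
        refine sum_congr rfl fun k₀ _ => ?_
        rw [mul_sum]
        rfl

end Pool.Agent.LibHG31.TT
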