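import Pool.Agent.LibHG31.T3

/-! # HG31 block TT, row T6: two-level l1 bound, explicit -/

namespace Pool.Agent.LibHG31.TT

open Finset
open scoped ComplexConjugate

theorem sum_ee_div_eq_zero (b : ℕ) (hb : 2 ≤ b) : ∑ k ∈ range b, ee (k / b) = 0 := by
  have h := orth b (by omega) 1
  rw [if_neg] at h
  · rw [← h]
    refine sum_congr rfl fun k _ => ?_
    congr 1
    push_cast
    ring
  · intro h1
    have := Int.le_of_dvd one_pos h1
    omega

/-- first Fourier moment of the weights `ph b (y - k/b)^2` -/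
theorem moment (b : ℕ) (hb : 2 ≤ b) (y : ℝ) :
    ‖∑ k ∈ range b, ((ph b (y - k / b) ^ 2 : ℝ) : ℂ) * ee (k / b)‖ =
      ‖((b : ℂ) - 1) + ee (-(b * y))‖ / b := by
  have hb0 : 0 < b := by omega
  have hbR : (b : ℝ) ≠ 0 := by positivity
  have hbC : (b : ℂ) ≠ 0 := by exact_mod_cast hb0.ne'
  have h1 : ∀ k : ℕ, ((ph b (y - k / b) ^ 2 : ℝ) : ℂ) * ee (k / b) =
      ∑ d' ∈ range b, ∑ d ∈ range b, (ee (((d : ℝ) - d') * y) / (b : ℂ) ^ 2) *
        ee (((1 - ((d : ℤ) - d') : ℤ) : ℝ) * k / b) := by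
    intro k
    rw [ph_sq_eq]
    have h2 : ((‖∑ d ∈ range b, ee (d * (y - k / b))‖ ^ 2 / (b : ℝ) ^ 2 : ℝ) : ℂ) =
        (∑ d ∈ range b, ee (d * (y - k / b))) * conj (∑ d ∈ range b, ee (d * (y - k / b))) /
          (b : ℂ) ^ 2 := by
      rw [Complex.mul_conj, Complex.normSq_eq_norm_sq]
      push_cast
      rfl
    rw [h2, map_sum, sum_mul_sum, sum_comm, sum_div, sum_mul]
    refine sum_congr rfl fun d' _ => ?_
    rw [sum_div, sum_mul]
    refine sum_congr rfl fun d _ => ?_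
    rw [conj_ee]
    have e1 : ee (d * (y - k / b)) * ee (-(d' * (y - k / b))) * ee (k / b) =
        ee (((d : ℝ) - d') * y) * ee (((1 - ((d : ℤ) - d') : ℤ) : ℝ) * k / b) := by
      rw [← ee_add, ← ee_add, ← ee_add]
      congr 1
      push_cast
      field_simp
      ring
    calc ee (d * (y - k / b)) * ee (-(d' * (y - k / b))) / (b : ℂ) ^ 2 * ee (k / b)
        = (ee (d * (y - k / b)) * ee (-(d' * (y - k / b))) * ee (k / b)) / (b : ℂ) ^ 2 := by ring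
      _ = _ := by rw [e1]; ring
  rw [sum_congr rfl fun k _ => h1 k, sum_comm]
  have h3 : ∀ d' ∈ range b, ∑ k ∈ range b, ∑ d ∈ range b, (ee (((d : ℝ) - d') * y) / (b : ℂ) ^ 2) *
        ee (((1 - ((d : ℤ) - d') : ℤ) : ℝ) * k / b) =
      ee (((((d' + 1) % b : ℕ) : ℝ) - d') * y) / b := by
    intro d' hd'
    rw [mem_range] at hd'
    rw [sum_comm]
    simp_rw [← mul_sum, orth b hb0]
    rw [sum_eq_single ((d' + 1) % b)]
    · rw [if_pos]
      · field_simp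
      · refine ⟨((d' + 1) / b : ℕ), ?_⟩
        have := Nat.div_add_mod (d' + 1) b
        zify at this
        push_cast
        linarith
    · intro d hd hne
      rw [if_neg, mul_zero]
      intro hdvd
      apply hne
      have h4 : d ≡ d' + 1 [MOD b] := by
        rw [Nat.modEq_iff_dvd]
        have : ((d' + 1 : ℕ) : ℤ) - d = 1 - ((d : ℤ) - d') := by
          push_cast
          ring
        rw [this]
        exact hdvd
      rw [mem_range] at hd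
      rw [← h4, Nat.mod_eq_of_lt hd]
    · intro h
      exact absurd (mem_range.2 (Nat.mod_lt _ hb0)) h
  rw [sum_congr rfl h3]
  obtain ⟨m, rfl⟩ : ∃ m, b = m + 1 := ⟨b - 1, by omega⟩
  rw [sum_range_succ]
  have h5 : ∑ x ∈ range m, ee (((((x + 1) % (m + 1) : ℕ) : ℝ) - x) * y) / ((m + 1 : ℕ) : ℂ) =
      m * (ee y / ((m + 1 : ℕ) : ℂ)) := by
    rw [sum_congr rfl (g := fun _ => ee y / ((m + 1 : ℕ) : ℂ))]
    · simp
    · intro x hx
      rw [mem_range] at hx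
      rw [Nat.mod_eq_of_lt (by omega : x + 1 < m + 1)]
      congr 2
      push_cast
      ring
  rw [h5, Nat.mod_self]
  have h6 : ee (((0 : ℕ) - (m : ℝ)) * y) = ee y * ee (-(((m + 1 : ℕ) : ℝ) * y)) := by
    rw [← ee_add]
    congr 1
    push_cast
    ring
  rw [h6]
  have h7 : (m : ℂ) * (ee y / ((m + 1 : ℕ) : ℂ)) + ee y * ee (-(((m + 1 : ℕ) : ℝ) * y)) / ((m + 1 : ℕ) : ℂ) =
      ee y * ((((m + 1 : ℕ) : ℂ) - 1) + ee (-(((m + 1 : ℕ) : ℝ) * y))) / ((m + 1 : ℕ) : ℂ) := by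
    push_cast
    ring
  rw [h7, norm_div, norm_mul, norm_ee, one_mul, Complex.norm_natCast]

/-- one level with a gain -/
theorem one_level_sq (b : ℕ) (hb : 2 ≤ b) (y : ℝ) :
    (∑ k ∈ range b, ph b (y - k / b)) ^ 2 ≤
      b - (‖((b : ℂ) - 1) + ee (-(b * y))‖ / b) ^ 2 / 8 := by
  have hb0 : 0 < b := by omega
  have hbR : (2 : ℝ) ≤ b := by exact_mod_cast hb
  set s : ℝ := ∑ k ∈ range b, ph b (y - k / b) with hs
  set D : ℝ := ‖((b : ℂ) - 1) + ee (-(b * y))‖ / b with hD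
  set w : ℝ := 1 / Real.sqrt b with hw
  have hsq : Real.sqrt b ^ 2 = b := Real.sq_sqrt (by positivity)
  have hsq0 : 0 < Real.sqrt b := Real.sqrt_pos.2 (by positivity)
  have hw0 : 0 < w := by positivity
  have hw2 : w ^ 2 = 1 / b := by
    rw [hw, div_pow, one_pow, hsq]
  have hw1 : w ≤ 1 := by
    rw [hw, div_le_one hsq0]
    nlinarith
  have hs0 : 0 ≤ s := sum_nonneg fun k _ => ph_nonneg b _
  have h1 : D ≤ ∑ k ∈ range b, |ph b (y - k / b) ^ 2 - 1 / b| := by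
    have e1 : ∑ k ∈ range b, ((ph b (y - k / b) ^ 2 : ℝ) : ℂ) * ee (k / b) =
        ∑ k ∈ range b, ((ph b (y - k / b) ^ 2 - 1 / b : ℝ) : ℂ) * ee (k / b) := by
      have : ∑ k ∈ range b, ((ph b (y - k / b) ^ 2 - 1 / b : ℝ) : ℂ) * ee (k / b) =
          ∑ k ∈ range b, ((ph b (y - k / b) ^ 2 : ℝ) : ℂ) * ee (k / b) -
            (1 / b : ℂ) * ∑ k ∈ range b, ee (k / b) := by
        rw [mul_sum, ← sum_sub_distrib]
        refine sum_congr rfl fun k _ => ?_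
        push_cast
        ring
      rw [this, sum_ee_div_eq_zero b hb, mul_zero, sub_zero]
    rw [hD, ← moment b hb y, e1]
    refine (norm_sum_le _ _).trans (sum_le_sum fun k _ => ?_)
    rw [norm_mul, norm_ee, mul_one, Complex.norm_real, Real.norm_eq_abs]
  have h2 : (∑ k ∈ range b, |ph b (y - k / b) ^ 2 - 1 / b|) ^ 2 ≤
      (b : ℝ) * ∑ k ∈ range b, |ph b (y - k / b) ^ 2 - 1 / b| ^ 2 := by
    have := sq_sum_le_card_mul_sum_sq (s := range b) (f := fun k : ℕ => |ph b (y - k / b) ^ 2 - 1 / b|)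
    rwa [card_range] at this
  have h3 : ∀ k ∈ range b, |ph b (y - k / b) ^ 2 - 1 / b| ^ 2 ≤ 4 * (ph b (y - k / b) - w) ^ 2 := by
    intro k _
    have a1 := ph_nonneg b (y - k / b)
    have a2 := ph_le_one b (y - k / b)
    rw [sq_abs, ← hw2]
    have e : (ph b (y - k / b) ^ 2 - w ^ 2) ^ 2 =
        (ph b (y - k / b) - w) ^ 2 * (ph b (y - k / b) + w) ^ 2 := by ring
    have e2 : (ph b (y - k / b) + w) ^ 2 ≤ 4 := by nlinarith
    rw [e]
    nlinarith [sq_nonneg (ph b (y - k / b) - w)]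
  have h4 : ∑ k ∈ range b, 4 * (ph b (y - k / b) - w) ^ 2 = 4 * (2 - 2 * (w * s)) := by
    have e : ∀ k ∈ range b, 4 * (ph b (y - k / b) - w) ^ 2 =
        4 * ph b (y - k / b) ^ 2 - 8 * w * ph b (y - k / b) + 4 * w ^ 2 := fun k _ => by ring
    rw [sum_congr rfl e, sum_add_distrib, sum_sub_distrib, ← mul_sum, ← mul_sum, ph_sq_sum b hb0,
      ← hs, sum_const, card_range, nsmul_eq_mul, hw2]
    field_simp
    ring
  have hD0 : 0 ≤ D := by positivity
  have h5 : D ^ 2 ≤ (b : ℝ) * (4 * (2 - 2 * (w * s))) := by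
    calc D ^ 2 ≤ (∑ k ∈ range b, |ph b (y - k / b) ^ 2 - 1 / b|) ^ 2 := by gcongr
      _ ≤ (b : ℝ) * ∑ k ∈ range b, |ph b (y - k / b) ^ 2 - 1 / b| ^ 2 := h2
      _ ≤ (b : ℝ) * ∑ k ∈ range b, 4 * (ph b (y - k / b) - w) ^ 2 := by
          gcongr with k hk
          exact h3 k hk
      _ = _ := by rw [h4]
  have h6 : w * s ≤ 1 := by nlinarith [sq_nonneg D]
  have h7 : (w * s) ^ 2 ≤ w * s := by
    have : 0 ≤ w * s := by positivity
    nlinarith
  have h8 : (w * s) ^ 2 * b = s ^ 2 := by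
    rw [mul_pow, hw2]
    field_simp
  rw [← h8]
  nlinarith

theorem norm_add_sq_eq (b : ℕ) (z : ℝ) :
    ‖((b : ℂ) - 1) + ee z‖ ^ 2 = ((b : ℝ) - 1) ^ 2 + 1 + 2 * ((b : ℝ) - 1) * (ee z).re := by
  have h1 : ‖ee z‖ ^ 2 = (ee z).re ^ 2 + (ee z).im ^ 2 := by
    rw [← Complex.normSq_eq_norm_sq, Complex.normSq_apply]
    ring
  rw [norm_ee] at h1
  rw [← Complex.normSq_eq_norm_sq, Complex.normSq_apply]
  simp only [Complex.add_re, Complex.sub_re, Complex.natCast_re, Complex.one_re, Complex.add_im,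
    Complex.sub_im, Complex.natCast_im, Complex.one_im]
  nlinarith

theorem two_level_l1 (b : ℕ) (hb : 2 ≤ b) (x x' : ℝ) :
    ∑ k₀ ∈ range b, ∑ k₁ ∈ range b,
      ph b (x' - k₀ / b) * ph b (x - k₀ / (b : ℝ) ^ 2 - k₁ / b) ≤ b * kap b := by
  have hb0 : 0 < b := by omega
  have hbR : (2 : ℝ) ≤ b := by exact_mod_cast hb
  simp_rw [← mul_sum]
  set s : ℕ → ℝ := fun k₀ => ∑ k₁ ∈ range b, ph b (x - k₀ / (b : ℝ) ^ 2 - k₁ / b) with hs
  have h1 : (∑ k₀ ∈ range b, ph b (x' - k₀ / b) * s k₀) ^ 2 ≤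
      (∑ k₀ ∈ range b, ph b (x' - k₀ / b) ^ 2) * ∑ k₀ ∈ range b, s k₀ ^ 2 :=
    sum_mul_sq_le_sq_mul_sq _ _ _
  rw [ph_sq_sum b hb0, one_mul] at h1
  have h2 : ∑ k₀ ∈ range b, s k₀ ^ 2 ≤ (b : ℝ) ^ 2 - 1 / 8 := by
    have e1 : ∀ k₀ ∈ range b, s k₀ ^ 2 ≤
        b - (((b : ℝ) - 1) ^ 2 + 1 + 2 * ((b : ℝ) - 1) * (ee (-(b * x)) * ee (k₀ / b)).re) /
          (8 * (b : ℝ) ^ 2) := by
      intro k₀ _
      have := one_level_sq b hb (x - k₀ / (b : ℝ) ^ 2)
      refine this.trans (le_of_eq ?_)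
      rw [div_pow, norm_add_sq_eq, ← ee_add]
      have e2 : -((b : ℝ) * (x - k₀ / (b : ℝ) ^ 2)) = -(b * x) + k₀ / b := by
        field_simp
        ring
      rw [e2]
      field_simp
    have e3 : ∑ k₀ ∈ range b, (ee (-(b * x)) * ee (k₀ / b)).re = 0 := by
      rw [← Complex.re_sum, ← mul_sum, sum_ee_div_eq_zero b hb, mul_zero, Complex.zero_re]
    calc ∑ k₀ ∈ range b, s k₀ ^ 2
        ≤ ∑ k₀ ∈ range b, (b - (((b : ℝ) - 1) ^ 2 + 1 +
            2 * ((b : ℝ) - 1) * (ee (-(b * x)) * ee (k₀ / b)).re) / (8 * (b : ℝ) ^ 2)) :=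
          sum_le_sum e1
      _ = (b : ℝ) ^ 2 - (((b : ℝ) - 1) ^ 2 + 1) / (8 * b) := by
          rw [sum_sub_distrib, ← sum_div, sum_add_distrib, ← mul_sum, e3]
          simp
          field_simp
      _ ≤ (b : ℝ) ^ 2 - 1 / 8 := by
          have : (1 : ℝ) / 8 ≤ (((b : ℝ) - 1) ^ 2 + 1) / (8 * b) := by
            rw [div_le_div_iff₀ (by norm_num) (by positivity)]
            nlinarith
          linarith
  have h3 : (b : ℝ) ^ 2 - 1 / 8 ≤ (b * kap b) ^ 2 := by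
    unfold kap
    have e : ((b : ℝ) * (1 - 1 / (16 * (b : ℝ) ^ 2))) ^ 2 =
        (b : ℝ) ^ 2 - 1 / 8 + 1 / (256 * (b : ℝ) ^ 2) := by
      field_simp
      ring
    rw [e]
    have : (0 : ℝ) ≤ 1 / (256 * (b : ℝ) ^ 2) := by positivity
    linarith
  have h4 : 0 ≤ b * kap b := by
    have := kap_pos b hb
    positivity
  exact abs_le_of_sq_le_sq' (h1.trans (h2.trans h3)) h4 |>.2

end Pool.Agent.LibHG31.TT
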