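import Pool.Agent.LibHG31.T2
import Pool.Agent.LibHG31.T6

/-!
# ROW T7 (HG31 block TT): l1 norm of `FF`

PLAN. Let `q(s) = (∑_{h<b^s} ‖FF b K s α w (x₀ + h/b^s)‖)^2`, uniformly in `x₀`. Claim by strong induction (two levels at a time): for all `x₀`,
`q(s) ≤ 2 b^s kap^(s-K)`.
* For every `s ≥ K`: Cauchy + `parseval_FF`: `q(s) ≤ b^s · 1`. For `s = K` and `s = K+1` this is enough (`kap ≥ 63/64 ≥ 1/2`).
* `s = s'+2`, `s' ≥ K`: write `h = k₀ + b k₁ + b^2 h'`, `k₀,k₁ < b`, `h' < b^(s')` (`sum_range_mul_split`, `pow_succ`). With `x = x₀ + h/b^s`: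
  `b^(s-1) x = b^(s-1) x₀ + k₀/b + integer`, `b^(s-2) x = b^(s-2) x₀ + k₀/b^2 + k₁/b + integer`; `norm_FF_succ` twice, `ph_sub_nat`:
  `‖FF_s(x)‖ = ‖FF_{s'}(x)‖ ph b (α_{s-2} - b^(s-2) x₀ - k₀/b^2 - k₁/b) ph b (α_{s-1} - b^(s-1) x₀ - k₀/b)`, `x = (x₀ + k₀/b^s + k₁/b^(s-1)) + h'/b^(s')`.
  Sum over `h'` `≤ √(2 b^(s') kap^(s'-K))`, then `two_level_l1` (T6): `√q(s) ≤ b kap √(2 b^(s') kap^(s'-K))`. Square: `b^2 kap^2 · 2 b^(s') kap^(s'-K)`.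
-/

namespace Pool.Agent.LibHG31.TT

open Finset

private theorem T7_triv (b K s : ℕ) (hb : 2 ≤ b) (α : ℕ → ℝ) (w : ℕ → ℂ)
    (hw : ∀ v, ‖w v‖ ≤ 1) (x₀ : ℝ) :
    (∑ h ∈ range (b ^ s), ‖FF b K s α w (x₀ + h / (b : ℝ) ^ s)‖) ^ 2 ≤ (b : ℝ) ^ s := by
  have h1 := sq_sum_le_card_mul_sum_sq (s := range (b ^ s))
    (f := fun h : ℕ => ‖FF b K s α w (x₀ + h / (b : ℝ) ^ s)‖)
  have h2 := parseval_FF b K s (by omega) α w hw x₀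
  rw [card_range] at h1
  refine h1.trans ?_
  have h3 : (0 : ℝ) ≤ ((b ^ s : ℕ) : ℝ) := Nat.cast_nonneg _
  refine (mul_le_mul_of_nonneg_left h2 h3).trans ?_
  rw [mul_one]
  push_cast
  exact le_rfl

private theorem T7_step (b K s : ℕ) (hb : 2 ≤ b) (hKs : K ≤ s) (α : ℕ → ℝ) (w : ℕ → ℂ)
    (B : ℝ) (hB : ∀ x₀ : ℝ, ∑ h ∈ range (b ^ s), ‖FF b K s α w (x₀ + h / (b : ℝ) ^ s)‖ ≤ B)
    (x₀ : ℝ) :
    ∑ h ∈ range (b ^ (s + 2)), ‖FF b K (s + 2) α w (x₀ + h / (b : ℝ) ^ (s + 2))‖ ≤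
      B * (b * kap b) := by
  have hb0 : 0 < b := by omega
  have hbr : (b : ℝ) ≠ 0 := by
    have : (0 : ℝ) < b := by exact_mod_cast hb0
    exact this.ne'
  have hpow : b ^ (s + 2) = b * (b * b ^ s) := by ring
  rw [hpow, sum_range_mul_split]
  have hterm : ∀ k₀ k₁ h' : ℕ,
      ‖FF b K (s + 2) α w (x₀ + ((k₀ + b * (k₁ + b * h') : ℕ) : ℝ) / (b : ℝ) ^ (s + 2))‖ =
      ‖FF b K s α w (x₀ + k₀ / (b : ℝ) ^ (s + 2) + k₁ / (b : ℝ) ^ (s + 1) + h' / (b : ℝ) ^ s)‖ *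
        (ph b (α (s + 1) - (b : ℝ) ^ (s + 1) * x₀ - k₀ / b) *
          ph b (α s - (b : ℝ) ^ s * x₀ - k₀ / (b : ℝ) ^ 2 - k₁ / b)) := by
    intro k₀ k₁ h'
    have hx : x₀ + ((k₀ + b * (k₁ + b * h') : ℕ) : ℝ) / (b : ℝ) ^ (s + 2) =
        x₀ + k₀ / (b : ℝ) ^ (s + 2) + k₁ / (b : ℝ) ^ (s + 1) + h' / (b : ℝ) ^ s := by
      push_cast
      field_simp
      ring
    rw [hx]
    generalize hxx : x₀ + k₀ / (b : ℝ) ^ (s + 2) + k₁ / (b : ℝ) ^ (s + 1) + h' / (b : ℝ) ^ s = x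
    have e1 : α (s + 1) - (b : ℝ) ^ (s + 1) * x = α (s + 1) - (b : ℝ) ^ (s + 1) * x₀ - k₀ / b -
        ((k₁ + b * h' : ℕ) : ℝ) := by
      rw [← hxx]
      push_cast
      field_simp
      ring
    have e2 : α s - (b : ℝ) ^ s * x = α s - (b : ℝ) ^ s * x₀ - k₀ / (b : ℝ) ^ 2 - k₁ / b -
        ((h' : ℕ) : ℝ) := by
      rw [← hxx]
      field_simp
      ring
    rw [norm_FF_succ b K (s + 1) hb0 (by omega), norm_FF_succ b K s hb0 hKs, e1, e2, ph_sub_nat,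
      ph_sub_nat]
    ring
  have hsum : ∀ k₀ ∈ range b, ∑ d ∈ range (b * b ^ s),
      ‖FF b K (s + 2) α w (x₀ + ((k₀ + b * d : ℕ) : ℝ) / (b : ℝ) ^ (s + 2))‖ ≤
      ∑ k₁ ∈ range b, B * (ph b (α (s + 1) - (b : ℝ) ^ (s + 1) * x₀ - k₀ / b) *
          ph b (α s - (b : ℝ) ^ s * x₀ - k₀ / (b : ℝ) ^ 2 - k₁ / b)) := by
    intro k₀ _
    rw [sum_range_mul_split]
    refine sum_le_sum fun k₁ _ => ?_
    have h1 : ∑ d ∈ range (b ^ s),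
        ‖FF b K (s + 2) α w (x₀ + ((k₀ + b * (k₁ + b * d) : ℕ) : ℝ) / (b : ℝ) ^ (s + 2))‖ =
        (∑ d ∈ range (b ^ s), ‖FF b K s α w ((x₀ + k₀ / (b : ℝ) ^ (s + 2) +
          k₁ / (b : ℝ) ^ (s + 1)) + d / (b : ℝ) ^ s)‖) *
        (ph b (α (s + 1) - (b : ℝ) ^ (s + 1) * x₀ - k₀ / b) *
          ph b (α s - (b : ℝ) ^ s * x₀ - k₀ / (b : ℝ) ^ 2 - k₁ / b)) := by
      rw [sum_mul]
      exact sum_congr rfl fun d _ => hterm k₀ k₁ d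
    rw [h1]
    exact mul_le_mul_of_nonneg_right (hB _) (mul_nonneg (ph_nonneg _ _) (ph_nonneg _ _))
  refine (sum_le_sum hsum).trans ?_
  have hB0 : 0 ≤ B := le_trans (sum_nonneg fun _ _ => norm_nonneg _) (hB 0)
  have h2 := two_level_l1 b hb (α s - (b : ℝ) ^ s * x₀) (α (s + 1) - (b : ℝ) ^ (s + 1) * x₀)
  have h3 : ∑ k₀ ∈ range b, ∑ k₁ ∈ range b,
      B * (ph b (α (s + 1) - (b : ℝ) ^ (s + 1) * x₀ - k₀ / b) *
          ph b (α s - (b : ℝ) ^ s * x₀ - k₀ / (b : ℝ) ^ 2 - k₁ / b)) =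
      B * ∑ k₀ ∈ range b, ∑ k₁ ∈ range b,
      ph b (α (s + 1) - (b : ℝ) ^ (s + 1) * x₀ - k₀ / b) *
          ph b (α s - (b : ℝ) ^ s * x₀ - k₀ / (b : ℝ) ^ 2 - k₁ / b) := by
    rw [mul_sum]
    exact sum_congr rfl fun k₀ _ => (mul_sum _ _ _).symm
  rw [h3]
  exact mul_le_mul_of_nonneg_left h2 hB0

theorem l1_FF (b K s : ℕ) (hb : 2 ≤ b) (hKs : K ≤ s) (α : ℕ → ℝ) (w : ℕ → ℂ) (hw : ∀ v, ‖w v‖ ≤ 1)
    (x₀ : ℝ) :
    (∑ h ∈ range (b ^ s), ‖FF b K s α w (x₀ + h / (b : ℝ) ^ s)‖) ^ 2 ≤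
      2 * (b : ℝ) ^ s * kap b ^ (s - K) := by
  obtain ⟨t, rfl⟩ := Nat.exists_eq_add_of_le hKs
  rw [Nat.add_sub_cancel_left]
  have hk := kap_pos b hb
  have hbr : (0 : ℝ) < b := by
    have : 0 < b := by omega
    exact_mod_cast this
  induction t using Nat.twoStepInduction generalizing x₀ with
  | zero =>
    have h1 := T7_triv b K (K + 0) hb α w hw x₀
    have h2 : (0 : ℝ) ≤ (b : ℝ) ^ (K + 0) := by positivity
    rw [pow_zero, mul_one]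
    linarith
  | one =>
    have h1 := T7_triv b K (K + 1) hb α w hw x₀
    have h2 : (0 : ℝ) ≤ (b : ℝ) ^ (K + 1) := by positivity
    rw [pow_one]
    nlinarith
  | more t ih _ =>
    have ih' := fun x₀ : ℝ => ih x₀ (Nat.le_add_right K t)
    have hX : (0 : ℝ) ≤ 2 * (b : ℝ) ^ (K + t) * kap b ^ t := by positivity
    have h1 : ∀ x₀ : ℝ, ∑ h ∈ range (b ^ (K + t)), ‖FF b K (K + t) α w
        (x₀ + h / (b : ℝ) ^ (K + t))‖ ≤ √(2 * (b : ℝ) ^ (K + t) * kap b ^ t) := fun x₀ =>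
      Real.le_sqrt_of_sq_le (ih' x₀)
    have h2 := T7_step b K (K + t) hb (Nat.le_add_right K t) α w _ h1 x₀
    have h3 : (0 : ℝ) ≤ ∑ h ∈ range (b ^ (K + t + 2)), ‖FF b K (K + t + 2) α w
        (x₀ + h / (b : ℝ) ^ (K + t + 2))‖ := sum_nonneg fun _ _ => norm_nonneg _
    have h4 := pow_le_pow_left₀ h3 h2 2
    have h5 : (√(2 * (b : ℝ) ^ (K + t) * kap b ^ t) * (b * kap b)) ^ 2 =
        2 * (b : ℝ) ^ (K + (t + 2)) * kap b ^ (t + 2) := by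
      rw [mul_pow, Real.sq_sqrt hX]
      ring
    rw [h5] at h4
    exact h4

end Pool.Agent.LibHG31.TT
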