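import Pool.Agent.LibHG31.T2
import Pool.Agent.LibHG31.T5

/-!
# ROW T8 (HG31 block TT): the tree lemma (mass of a set whose digits are restricted mod `p`)

`A` is a set of `h < b^lam` such that, for `i₀ ≤ i < i₀ + 2n`, the digit number `i` of `h ∈ A` is determined mod `p` by the lower digits.

PLAN. Notation `a i = α (lam - 1 - i)`. For `m ≤ lam - K` and `h = y + b^m z` (`y < b^m`):
`‖FF b K lam α w (h/b^lam)‖ = ‖FF b K (lam-m) α w (y/b^lam + z/b^(lam-m))‖ · ∏_{i<m} ph b (a i - y/b^(i+1))`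
(`norm_FF_add`, reindex `j = lam-1-i`; `b^j h/b^lam = h/b^(i+1) = y/b^(i+1) + integer`, `ph_sub_nat`). Put `T m y = ∏_{i<m} ph b (a i - y/b^(i+1))^2`.
(1) `∑_{h∈A} ‖FF‖^2 ≤ ∑_{y ∈ A_m} T m y`, `m = i₀ + 2n`, `A_m = {y < b^m : ∃ h ∈ A, h % b^m = y}` (for fixed `y` the sum over `z` of `‖FF_{lam-m}‖^2` is `≤ 1`: `parseval_FF`).
(2) `∑_{y ∈ A_{i+2}} T (i+2) y ≤ (1 - nd(b a_{i+1} - a_i)^2/(2b^3)) ∑_{y' ∈ A_i} T i y'` for `i = i₀ + 2l`: `y = y' + b^i k₀ + b^(i+1) k₁`; the set `Z_{y'}` of `(k₀,k₁)` with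
    `y ∈ A_{i+2}` satisfies the hypotheses of `two_level_restrict` (T5) with `x' = a_i - y'/b^(i+1)`, `x = a_{i+1} - y'/b^(i+2)` by `hA` (at `i` and at `i+1`), `b x - x' = b a_{i+1} - a_i`.
    [From `h ≡ h' mod b^i`, `h ≡ h' mod p b^i`: `k₀ ≡ k₀' mod p`. If also `k₀ = k₀'` then `h ≡ h' mod b^(i+1)`, hence mod `p b^(i+1)`: `k₁ ≡ k₁' mod p`.]
(3) `∑_{y ∈ A_{i₀}} T i₀ y ≤ ∑_{y < b^(i₀)} T i₀ y = 1` (induction with `ph_sq_sum`, or `parseval_FF_one` for the reversed phases).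
(4) `a_{i+1} = α(lam - 2 - i)`, `a_i = α (lam-1-i)`, `i = i₀ + 2l`.
-/

namespace Pool.Agent.LibHG31.TT

open Finset

/-- the product of the kernels of the top `m` levels -/
noncomputable def Tm (b : ℕ) (a : ℕ → ℝ) (m y : ℕ) : ℝ :=
  ∏ i ∈ range m, ph b (a i - y / (b : ℝ) ^ (i + 1)) ^ 2

theorem Tm_nonneg (b : ℕ) (a : ℕ → ℝ) (m y : ℕ) : 0 ≤ Tm b a m y :=
  prod_nonneg fun _ _ => sq_nonneg _

theorem Tm_add (b : ℕ) (hb : 0 < b) (a : ℕ → ℝ) (m y z : ℕ) : Tm b a m (y + b ^ m * z) = Tm b a m y := by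
  unfold Tm
  refine prod_congr rfl fun i hi => ?_
  have hi' := mem_range.1 hi
  have hb' : (b : ℝ) ≠ 0 := by positivity
  obtain ⟨c, rfl⟩ : ∃ c, m = i + 1 + c := ⟨m - (i + 1), by omega⟩
  have : a i - ((y + b ^ (i + 1 + c) * z : ℕ) : ℝ) / (b : ℝ) ^ (i + 1) =
      a i - (y : ℝ) / (b : ℝ) ^ (i + 1) - ((b ^ c * z : ℕ) : ℝ) := by
    push_cast
    rw [pow_add]
    field_simp
    ring
  rw [this, ph_sub_nat]

theorem Tm_succ (b : ℕ) (hb : 0 < b) (a : ℕ → ℝ) (m y k : ℕ) :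
    Tm b a (m + 1) (y + b ^ m * k) = Tm b a m y * ph b (a m - y / (b : ℝ) ^ (m + 1) - k / b) ^ 2 := by
  have hb' : (b : ℝ) ≠ 0 := by positivity
  have h1 : Tm b a (m + 1) (y + b ^ m * k) =
      Tm b a m (y + b ^ m * k) * ph b (a m - ((y + b ^ m * k : ℕ) : ℝ) / (b : ℝ) ^ (m + 1)) ^ 2 := by
    unfold Tm
    rw [prod_range_succ]
  rw [h1, Tm_add b hb]
  congr 3
  push_cast
  rw [pow_succ]
  field_simp
  ring

theorem Tm_two (b : ℕ) (hb : 0 < b) (a : ℕ → ℝ) (m y k₀ k₁ : ℕ) :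
    Tm b a (m + 2) (y + b ^ m * (k₀ + b * k₁)) = Tm b a m y *
      (ph b ((a m - y / (b : ℝ) ^ (m + 1)) - k₀ / b) ^ 2 *
        ph b ((a (m + 1) - y / (b : ℝ) ^ (m + 2)) - k₀ / (b : ℝ) ^ 2 - k₁ / b) ^ 2) := by
  have hb' : (b : ℝ) ≠ 0 := by positivity
  have h1 : y + b ^ m * (k₀ + b * k₁) = (y + b ^ m * k₀) + b ^ (m + 1) * k₁ := by
    rw [pow_succ]; ring
  rw [h1, Tm_succ b hb, Tm_succ b hb, mul_assoc]
  congr 4
  push_cast
  rw [pow_succ, pow_succ, pow_succ]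
  field_simp
  ring

theorem sum_Tm (b : ℕ) (hb : 0 < b) (a : ℕ → ℝ) (m : ℕ) : ∑ y ∈ range (b ^ m), Tm b a m y = 1 := by
  induction m with
  | zero => simp [Tm]
  | succ m ih =>
    rw [sum_range_pow_succ]
    have : ∀ v ∈ range (b ^ m), ∑ d ∈ range b, Tm b a (m + 1) (v + b ^ m * d) = Tm b a m v := by
      intro v _
      simp only [Tm_succ b hb]
      rw [← mul_sum, ph_sq_sum b hb, mul_one]
    rw [sum_congr rfl this, ih]

theorem norm_FF_split (b K lam m : ℕ) (hb : 0 < b) (hm : K + m ≤ lam) (α : ℕ → ℝ) (w : ℕ → ℂ) (y z : ℕ) :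
    ‖FF b K lam α w (((y + b ^ m * z : ℕ) : ℝ) / (b : ℝ) ^ lam)‖ ^ 2 =
      ‖FF b K (lam - m) α w (y / (b : ℝ) ^ lam + z / (b : ℝ) ^ (lam - m))‖ ^ 2 *
        Tm b (fun i => α (lam - 1 - i)) m y := by
  have hb' : (b : ℝ) ≠ 0 := by positivity
  obtain ⟨L, rfl⟩ : ∃ L, lam = L + m := ⟨lam - m, by omega⟩
  have h1 := norm_FF_add b K L hb (by omega) α w m (((y + b ^ m * z : ℕ) : ℝ) / (b : ℝ) ^ (L + m))
  rw [h1, mul_pow, Nat.add_sub_cancel]
  congr 1
  · congr 2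
    congr 1
    push_cast
    rw [pow_add]
    field_simp
  · rw [← Tm_add b hb _ m y z]
    unfold Tm
    rw [← prod_pow, ← prod_range_reflect]
    refine prod_congr rfl fun i hi => ?_
    have hi' := mem_range.1 hi
    have e1 : L + (m - 1 - i) = L + m - 1 - i := by omega
    rw [e1]
    congr 3
    have e2 : L + m = (L + m - 1 - i) + (i + 1) := by omega
    rw [show (b : ℝ) ^ (L + m) = (b : ℝ) ^ (L + m - 1 - i) * (b : ℝ) ^ (i + 1) by rw [← pow_add, ← e2]]
    field_simp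

open scoped Classical in
/-- residues of `A` modulo `b^m` -/
noncomputable def Am (b : ℕ) (A : Set ℕ) (m : ℕ) : Finset ℕ :=
  (range (b ^ m)).filter (fun y => ∃ h ∈ A, h % b ^ m = y)

theorem mem_Am {b : ℕ} {A : Set ℕ} {m y : ℕ} : y ∈ Am b A m ↔ y < b ^ m ∧ ∃ h ∈ A, h % b ^ m = y := by
  classical
  unfold Am
  rw [mem_filter, mem_range]

open scoped Classical in
theorem step (b p i : ℕ) (hb : 2 ≤ b) (hp : 2 ≤ p) (hpb : p ∣ b) (a : ℕ → ℝ) (A : Set ℕ)
    (hA : ∀ j, j = i ∨ j = i + 1 → ∀ h ∈ A, ∀ h' ∈ A, h ≡ h' [MOD b ^ j] → h ≡ h' [MOD p * b ^ j]) :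
    ∑ y ∈ Am b A (i + 2), Tm b a (i + 2) y ≤
      (1 - nd (b * a (i + 1) - a i) ^ 2 / (2 * (b : ℝ) ^ 3)) * ∑ y ∈ Am b A i, Tm b a i y := by
  have hb0 : 0 < b := by omega
  have hb' : (b : ℝ) ≠ 0 := by positivity
  -- consequence of hA for quotients
  have key : ∀ j, j = i ∨ j = i + 1 → ∀ h ∈ A, ∀ h' ∈ A, h % b ^ j = h' % b ^ j →
      (h / b ^ j) % p = (h' / b ^ j) % p := by
    intro j hj h hh h' hh' he
    have h1 : h ≡ h' [MOD p * b ^ j] := hA j hj h hh h' hh' he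
    have h2 : h % (b ^ j * p) = h' % (b ^ j * p) := by rw [mul_comm]; exact h1
    have h3 : h % (b ^ j * p) / b ^ j = h / b ^ j % p := Nat.mod_mul_right_div_self _ _ _
    have h4 : h' % (b ^ j * p) / b ^ j = h' / b ^ j % p := Nat.mod_mul_right_div_self _ _ _
    rw [← h3, ← h4, h2]
  -- decomposition of the left side
  have h1 : ∑ y ∈ Am b A (i + 2), Tm b a (i + 2) y =
      ∑ y' ∈ range (b ^ i), ∑ z ∈ (range b ×ˢ range b).filter
        (fun z => y' + b ^ i * (z.1 + b * z.2) ∈ Am b A (i + 2)),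
        Tm b a (i + 2) (y' + b ^ i * (z.1 + b * z.2)) := by
    have e1 : ∑ y ∈ Am b A (i + 2), Tm b a (i + 2) y =
        ∑ y ∈ range (b ^ (i + 2)), if y ∈ Am b A (i + 2) then Tm b a (i + 2) y else 0 := by
      rw [← sum_filter]
      refine sum_congr ?_ fun _ _ => rfl
      ext y
      simp only [mem_filter, mem_range]
      constructor
      · intro h
        exact ⟨(mem_Am.1 h).1, h⟩
      · exact fun h => h.2
    rw [e1, sum_range_pow_add]
    refine sum_congr rfl fun y' _ => ?_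
    rw [sum_filter, sum_product, pow_two, sum_range_mul_split]
  rw [h1]
  have h2 : ∀ y' ∈ range (b ^ i), ∑ z ∈ (range b ×ˢ range b).filter
        (fun z => y' + b ^ i * (z.1 + b * z.2) ∈ Am b A (i + 2)),
        Tm b a (i + 2) (y' + b ^ i * (z.1 + b * z.2)) ≤
      if y' ∈ Am b A i then (1 - nd (b * a (i + 1) - a i) ^ 2 / (2 * (b : ℝ) ^ 3)) * Tm b a i y' else 0 := by
    intro y' hy'
    have hy'' := mem_range.1 hy'
    have hmod : ∀ h k : ℕ, h % b ^ (i + 2) = y' + b ^ i * k → h % b ^ i = y' := by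
      intro h k he
      rw [← mod_pow_mod b i (i + 2) h (by omega), he, Nat.add_mul_mod_self_left, Nat.mod_eq_of_lt hy'']
    split_ifs with hyA
    · simp only [Tm_two b hb0]
      rw [← mul_sum, mul_comm (1 - _)]
      apply mul_le_mul_of_nonneg_left _ (Tm_nonneg _ _ _ _)
      have hx : b * (a (i + 1) - y' / (b : ℝ) ^ (i + 2)) - (a i - y' / (b : ℝ) ^ (i + 1)) =
          b * a (i + 1) - a i := by
        rw [pow_succ (b : ℝ) (i + 1)]
        field_simp
        ring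
      rw [← hx]
      -- quotients
      have hdiv : ∀ h k₀ k₁ : ℕ, k₀ < b → k₁ < b → h % b ^ (i + 2) = y' + b ^ i * (k₀ + b * k₁) →
          (h / b ^ i) % b = k₀ ∧ (h / b ^ (i + 1)) % b = k₁ ∧ h % b ^ (i + 1) = y' + b ^ i * k₀ := by
        intro h k₀ k₁ hk₀ hk₁ he
        have e2 : h / b ^ i % b ^ 2 = k₀ + b * k₁ := by
          have := Nat.mod_mul_right_div_self h (b ^ i) (b ^ 2)
          rw [← this, ← pow_add, he, Nat.add_mul_div_left _ _ (by positivity), Nat.div_eq_of_lt hy'', zero_add]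
        have e3 : h / b ^ i % b = k₀ := by
          have h5 : h / b ^ i % b ^ 2 % b = h / b ^ i % b := Nat.mod_mod_of_dvd _ (dvd_pow_self b (by norm_num))
          rw [← h5, e2, Nat.add_mul_mod_self_left, Nat.mod_eq_of_lt hk₀]
        have e4 : h / b ^ (i + 1) % b = k₁ := by
          rw [pow_succ, ← Nat.div_div_eq_div_mul]
          have h6 : h / b ^ i % (b * b) / b = h / b ^ i / b % b := Nat.mod_mul_right_div_self _ _ _
          rw [← h6, ← pow_two, e2, Nat.add_mul_div_left _ _ hb0, Nat.div_eq_of_lt hk₀, zero_add]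
        refine ⟨e3, e4, ?_⟩
        have h7 : h % b ^ (i + 2) % b ^ (i + 1) = h % b ^ (i + 1) := mod_pow_mod b (i + 1) (i + 2) h (by omega)
        have h8 : y' + b ^ i * (k₀ + b * k₁) = (y' + b ^ i * k₀) + b ^ (i + 1) * k₁ := by rw [pow_succ]; ring
        rw [← h7, he, h8, Nat.add_mul_mod_self_left]
        apply Nat.mod_eq_of_lt
        calc y' + b ^ i * k₀ < b ^ i + b ^ i * k₀ := by omega
          _ = b ^ i * (k₀ + 1) := by ring
          _ ≤ b ^ i * b := Nat.mul_le_mul_left _ hk₀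
          _ = b ^ (i + 1) := by rw [pow_succ]
      have hpp : ∀ x : ℕ, x % b % p = x % p := fun x => Nat.mod_mod_of_dvd _ hpb
      apply two_level_restrict b p hb hp hpb
      · intro z hz
        have := (mem_filter.1 hz).1
        rw [mem_product, mem_range, mem_range] at this
        exact this
      · intro z hz z' hz'
        rw [mem_filter, mem_product, mem_range, mem_range] at hz hz'
        obtain ⟨h, hh, he⟩ := (mem_Am.1 hz.2).2
        obtain ⟨h', hh', he'⟩ := (mem_Am.1 hz'.2).2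
        obtain ⟨q1, -, -⟩ := hdiv h _ _ hz.1.1 hz.1.2 he
        obtain ⟨q1', -, -⟩ := hdiv h' _ _ hz'.1.1 hz'.1.2 he'
        have h9 := key i (Or.inl rfl) h hh h' hh' (by rw [hmod _ _ he, hmod _ _ he'])
        rw [← q1, ← q1', hpp, hpp, h9]
      · intro z hz z' hz' hzz
        rw [mem_filter, mem_product, mem_range, mem_range] at hz hz'
        obtain ⟨h, hh, he⟩ := (mem_Am.1 hz.2).2
        obtain ⟨h', hh', he'⟩ := (mem_Am.1 hz'.2).2
        obtain ⟨-, q2, q3⟩ := hdiv h _ _ hz.1.1 hz.1.2 he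
        obtain ⟨-, q2', q3'⟩ := hdiv h' _ _ hz'.1.1 hz'.1.2 he'
        have h9 := key (i + 1) (Or.inr rfl) h hh h' hh' (by rw [q3, q3', hzz])
        rw [← q2, ← q2', hpp, hpp, h9]
    · apply le_of_eq
      apply sum_eq_zero
      intro z hz
      exfalso
      rw [mem_filter] at hz
      obtain ⟨h, hh, he⟩ := (mem_Am.1 hz.2).2
      exact hyA (mem_Am.2 ⟨hy'', h, hh, hmod _ _ he⟩)
  refine (sum_le_sum h2).trans ?_
  rw [← sum_filter, ← mul_sum]
  apply le_of_eq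
  congr 1
  refine sum_congr ?_ fun _ _ => rfl
  ext y
  simp only [mem_filter, mem_range]
  constructor
  · exact fun h => h.2
  · intro h
    exact ⟨(mem_Am.1 h).1, h⟩

open scoped Classical in
theorem tree (b p K lam i₀ n : ℕ) (hb : 2 ≤ b) (hp : 2 ≤ p) (hpb : p ∣ b)
    (hlam : K + i₀ + 2 * n ≤ lam) (α : ℕ → ℝ) (w : ℕ → ℂ) (hw : ∀ v, ‖w v‖ ≤ 1) (A : Set ℕ)
    (hA : ∀ h ∈ A, ∀ h' ∈ A, ∀ i, i₀ ≤ i → i < i₀ + 2 * n →
      h ≡ h' [MOD b ^ i] → h ≡ h' [MOD p * b ^ i]) :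
    ∑ h ∈ (range (b ^ lam)).filter (fun h => h ∈ A), ‖FF b K lam α w (h / (b : ℝ) ^ lam)‖ ^ 2 ≤
      ∏ l ∈ range n, (1 - nd (b * α (lam - 2 - i₀ - 2 * l) - α (lam - 1 - i₀ - 2 * l)) ^ 2 /
        (2 * (b : ℝ) ^ 3)) := by
  have hb0 : 0 < b := by omega
  have hb' : (b : ℝ) ≠ 0 := by positivity
  set a : ℕ → ℝ := fun i => α (lam - 1 - i) with ha
  -- (1)
  have h1 : ∑ h ∈ (range (b ^ lam)).filter (fun h => h ∈ A), ‖FF b K lam α w (h / (b : ℝ) ^ lam)‖ ^ 2 ≤
      ∑ y ∈ Am b A (i₀ + 2 * n), Tm b a (i₀ + 2 * n) y := by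
    set m := i₀ + 2 * n with hm
    have e1 : ∑ h ∈ (range (b ^ lam)).filter (fun h => h ∈ A), ‖FF b K lam α w (h / (b : ℝ) ^ lam)‖ ^ 2 =
        ∑ y ∈ range (b ^ m), ∑ z ∈ range (b ^ (lam - m)), if y + b ^ m * z ∈ A then
          ‖FF b K (lam - m) α w (y / (b : ℝ) ^ lam + z / (b : ℝ) ^ (lam - m))‖ ^ 2 * Tm b a m y else 0 := by
      rw [sum_filter]
      have e2 : b ^ lam = b ^ (m + (lam - m)) := by congr 1; omega
      rw [e2, sum_range_pow_add]
      refine sum_congr rfl fun y _ => sum_congr rfl fun z _ => ?_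
      split_ifs
      · exact norm_FF_split b K lam m hb0 (by omega) α w y z
      · rfl
    rw [e1]
    have e3 : ∑ y ∈ Am b A m, Tm b a m y = ∑ y ∈ range (b ^ m), if y ∈ Am b A m then Tm b a m y else 0 := by
      rw [← sum_filter]
      refine sum_congr ?_ fun _ _ => rfl
      ext y
      simp only [mem_filter, mem_range]
      constructor
      · intro h
        exact ⟨(mem_Am.1 h).1, h⟩
      · exact fun h => h.2
    rw [e3]
    refine sum_le_sum fun y hy => ?_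
    have hy' := mem_range.1 hy
    split_ifs with hyA
    · calc ∑ z ∈ range (b ^ (lam - m)), (if y + b ^ m * z ∈ A then
          ‖FF b K (lam - m) α w (y / (b : ℝ) ^ lam + z / (b : ℝ) ^ (lam - m))‖ ^ 2 * Tm b a m y else 0)
          ≤ ∑ z ∈ range (b ^ (lam - m)),
            ‖FF b K (lam - m) α w (y / (b : ℝ) ^ lam + z / (b : ℝ) ^ (lam - m))‖ ^ 2 * Tm b a m y := by
            refine sum_le_sum fun z _ => ?_
            split_ifs
            · exact le_rfl
            · exact mul_nonneg (sq_nonneg _) (Tm_nonneg _ _ _ _)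
        _ ≤ 1 * Tm b a m y := by
            rw [← sum_mul]
            exact mul_le_mul_of_nonneg_right (parseval_FF b K (lam - m) hb0 α w hw _) (Tm_nonneg _ _ _ _)
        _ = Tm b a m y := one_mul _
    · apply le_of_eq
      apply sum_eq_zero
      intro z _
      rw [if_neg]
      intro hz
      apply hyA
      refine mem_Am.2 ⟨hy', _, hz, ?_⟩
      rw [Nat.add_mul_mod_self_left, Nat.mod_eq_of_lt hy']
  refine h1.trans ?_
  -- (2), (3)
  have h2 : ∀ l ≤ n, ∑ y ∈ Am b A (i₀ + 2 * l), Tm b a (i₀ + 2 * l) y ≤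
      ∏ l ∈ range l, (1 - nd (b * α (lam - 2 - i₀ - 2 * l) - α (lam - 1 - i₀ - 2 * l)) ^ 2 /
        (2 * (b : ℝ) ^ 3)) := by
    intro l
    induction l with
    | zero =>
      intro _
      rw [prod_range_zero, mul_zero, add_zero, ← sum_Tm b hb0 a i₀]
      apply sum_le_sum_of_subset_of_nonneg
      · intro y hy
        exact mem_range.2 (mem_Am.1 hy).1
      · intro y _ _
        exact Tm_nonneg _ _ _ _
    | succ l ih =>
      intro hl
      have hs := step b p (i₀ + 2 * l) hb hp hpb a A (by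
        intro j hj h hh h' hh' he
        exact hA h hh h' hh' j (by omega) (by omega) he)
      have e4 : i₀ + 2 * (l + 1) = i₀ + 2 * l + 2 := by ring
      rw [e4, prod_range_succ]
      refine hs.trans ?_
      have e5 : a (i₀ + 2 * l + 1) = α (lam - 2 - i₀ - 2 * l) := by
        show α _ = α _
        congr 1; omega
      have e6 : a (i₀ + 2 * l) = α (lam - 1 - i₀ - 2 * l) := by
        show α _ = α _
        congr 1; omega
      rw [e5, e6, mul_comm]
      exact mul_le_mul_of_nonneg_right (ih (by omega)) (by linarith [(factor_mem b hb (b * α (lam - 2 - i₀ - 2 * l) - α (lam - 1 - i₀ - 2 * l))).1])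
  exact h2 n le_rfl

end Pool.Agent.LibHG31.TT
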