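import Pool.Agent.LibHG31.T7

/-! # HG31 block TT, row T9: pairs congruent modulo `g`, `g ∣ b^(lam - s)` -/

namespace Pool.Agent.LibHG31.TT

open Finset

/-- number of elements of a class -/
theorem card_class (g m : ℕ) (hg : 0 < g) (hgm : g ∣ m) (h : ℕ) :
    ((range m).filter (fun h' => h' ≡ h [MOD g])).card = m / g := by
  obtain ⟨q, rfl⟩ := hgm
  rw [Nat.mul_div_cancel_left q hg]
  have h1 : (range (g * q)).filter (fun h' => h' ≡ h [MOD g]) =
      (range q).image (fun d => h % g + g * d) := by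
    ext x
    simp only [mem_filter, mem_range, mem_image]
    constructor
    · rintro ⟨hx, hmod⟩
      refine ⟨x / g, ?_, ?_⟩
      · exact Nat.div_lt_of_lt_mul hx
      · have h2 : x % g = h % g := hmod
        rw [← h2, add_comm]
        exact Nat.div_add_mod x g
    · rintro ⟨d, hd, rfl⟩
      refine ⟨?_, ?_⟩
      · have h2 : h % g < g := Nat.mod_lt _ hg
        calc h % g + g * d < g + g * d := by omega
          _ = g * (d + 1) := by ring
          _ ≤ g * q := Nat.mul_le_mul_left _ hd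
      · show (h % g + g * d) % g = h % g
        rw [Nat.add_mul_mod_self_left, Nat.mod_mod]
  rw [h1, card_image_of_injective, card_range]
  intro a c hac
  simp only at hac
  have : g * a = g * c := by omega
  exact Nat.eq_of_mul_eq_mul_left hg this

/-- Schur type inequality for the pairs in a congruence relation -/
theorem sum_pairs_le (g m : ℕ) (hg : 0 < g) (hgm : g ∣ m) (P : ℕ → ℝ) :
    ∑ h ∈ range m, ∑ h' ∈ (range m).filter (fun h' => h' ≡ h [MOD g]), P h * P h' ≤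
      (m / g : ℕ) * ∑ h ∈ range m, P h ^ 2 := by
  have h1 : ∑ h ∈ range m, ∑ h' ∈ (range m).filter (fun h' => h' ≡ h [MOD g]), P h * P h' ≤
      ∑ h ∈ range m, ∑ h' ∈ (range m).filter (fun h' => h' ≡ h [MOD g]), (P h ^ 2 + P h' ^ 2) / 2 := by
    refine sum_le_sum fun h _ => sum_le_sum fun h' _ => ?_
    nlinarith [sq_nonneg (P h - P h')]
  have h2 : ∑ h ∈ range m, ∑ h' ∈ (range m).filter (fun h' => h' ≡ h [MOD g]), P h ^ 2 =
      (m / g : ℕ) * ∑ h ∈ range m, P h ^ 2 := by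
    rw [mul_sum]
    refine sum_congr rfl fun h _ => ?_
    rw [sum_const, card_class g m hg hgm, nsmul_eq_mul]
  have h3 : ∑ h ∈ range m, ∑ h' ∈ (range m).filter (fun h' => h' ≡ h [MOD g]), P h' ^ 2 =
      (m / g : ℕ) * ∑ h ∈ range m, P h ^ 2 := by
    simp_rw [sum_filter]
    rw [sum_comm, mul_sum]
    refine sum_congr rfl fun h _ => ?_
    rw [← sum_filter]
    have h4 : (range m).filter (fun x => h ≡ x [MOD g]) = (range m).filter (fun x => x ≡ h [MOD g]) := by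
      ext x
      simp only [mem_filter]
      exact and_congr_right fun _ => ⟨Nat.ModEq.symm, Nat.ModEq.symm⟩
    rw [h4, sum_const, card_class g m hg hgm, nsmul_eq_mul]
  refine h1.trans (le_of_eq ?_)
  have h5 : ∑ h ∈ range m, ∑ h' ∈ (range m).filter (fun h' => h' ≡ h [MOD g]), (P h ^ 2 + P h' ^ 2) / 2 =
      (∑ h ∈ range m, ∑ h' ∈ (range m).filter (fun h' => h' ≡ h [MOD g]), P h ^ 2 +
        ∑ h ∈ range m, ∑ h' ∈ (range m).filter (fun h' => h' ≡ h [MOD g]), P h' ^ 2) / 2 := by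
    rw [← sum_add_distrib, sum_div]
    refine sum_congr rfl fun h _ => ?_
    rw [← sum_add_distrib, sum_div]
  rw [h5, h2, h3]
  ring

/-- splitting off the lower levels -/
theorem T9_norm_FF_split (b K s t : ℕ) (hb : 0 < b) (hKs : K ≤ s) (α : ℕ → ℝ) (w : ℕ → ℂ) (h₁ h₂ : ℕ) :
    ‖FF b K (s + t) α w (((h₁ + b ^ t * h₂ : ℕ) : ℝ) / (b : ℝ) ^ (s + t))‖ =
      ‖FF b K s α w (h₁ / (b : ℝ) ^ (s + t) + h₂ / (b : ℝ) ^ s)‖ *
        ‖FF b 0 t (fun j => α (s + j)) (fun _ => 1) (0 + h₁ / (b : ℝ) ^ t)‖ := by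
  have hb' : (b : ℝ) ≠ 0 := by positivity
  rw [norm_FF_add b K s hb hKs, norm_FF_zero b hb]
  congr 1
  · congr 2
    push_cast
    rw [pow_add]
    field_simp
  · refine prod_congr rfl fun j hj => ?_
    rw [mem_range] at hj
    have e1 : α (s + j) - (b : ℝ) ^ (s + j) * (((h₁ + b ^ t * h₂ : ℕ) : ℝ) / (b : ℝ) ^ (s + t)) =
        α (s + j) - (b : ℝ) ^ j * (0 + h₁ / (b : ℝ) ^ t) - ((b ^ j * h₂ : ℕ) : ℝ) := by
      push_cast
      rw [pow_add, pow_add]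
      field_simp
      ring
    rw [e1, ph_sub_nat]

theorem pair_small (b K s lam : ℕ) (hb : 2 ≤ b) (hKs : K ≤ s) (hs : s ≤ lam) (α : ℕ → ℝ)
    (w : ℕ → ℂ) (hw : ∀ v, ‖w v‖ ≤ 1) (g : ℕ) (hg : g ∣ b ^ (lam - s)) :
    ∑ h ∈ range (b ^ lam), ∑ h' ∈ (range (b ^ lam)).filter (fun h' => h' ≡ h [MOD g]),
      ‖FF b K lam α w (h / (b : ℝ) ^ lam)‖ * ‖FF b K lam α w (h' / (b : ℝ) ^ lam)‖ * g ≤
      2 * kap b ^ (s - K) * (b : ℝ) ^ lam := by
  have hb0 : 0 < b := by omega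
  obtain ⟨t, rfl⟩ : ∃ t, lam = s + t := ⟨lam - s, by omega⟩
  rw [Nat.add_sub_cancel_left] at hg
  have hbt : 0 < b ^ t := by positivity
  have hg0 : 0 < g := Nat.pos_of_dvd_of_pos hg hbt
  have hbR : (0 : ℝ) < b := by positivity
  set P : ℕ → ℝ := fun h₁ => ‖FF b 0 t (fun j => α (s + j)) (fun _ => 1) (0 + h₁ / (b : ℝ) ^ t)‖ with hP
  set F : ℕ → ℕ → ℝ := fun h₁ h₂ => ‖FF b K s α w (h₁ / (b : ℝ) ^ (s + t) + h₂ / (b : ℝ) ^ s)‖ with hF
  set ℓ : ℝ := Real.sqrt (2 * (b : ℝ) ^ s * kap b ^ (s - K)) with hℓ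
  have hkap : 0 < kap b := by linarith [kap_pos b hb]
  have hℓ2 : ℓ ^ 2 = 2 * (b : ℝ) ^ s * kap b ^ (s - K) := Real.sq_sqrt (by positivity)
  have hℓ0 : 0 ≤ ℓ := Real.sqrt_nonneg _
  have hFℓ : ∀ h₁, ∑ h₂ ∈ range (b ^ s), F h₁ h₂ ≤ ℓ := by
    intro h₁
    apply Real.le_sqrt_of_sq_le
    exact l1_FF b K s hb hKs α w hw _
  have hF0 : ∀ h₁ h₂, 0 ≤ F h₁ h₂ := fun _ _ => norm_nonneg _
  have hP0 : ∀ h₁, 0 ≤ P h₁ := fun _ => norm_nonneg _
  -- rewrite both sums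
  have hsplit : ∀ f : ℕ → ℝ, ∑ h ∈ range (b ^ (s + t)), f h =
      ∑ h₁ ∈ range (b ^ t), ∑ h₂ ∈ range (b ^ s), f (h₁ + b ^ t * h₂) := by
    intro f
    rw [add_comm s t, sum_range_pow_add]
  have hmod : ∀ h₁ h₂ h₁' h₂' : ℕ, (h₁' + b ^ t * h₂' ≡ h₁ + b ^ t * h₂ [MOD g]) ↔ (h₁' ≡ h₁ [MOD g]) := by
    intro h₁ h₂ h₁' h₂'
    have a1 : h₁' + b ^ t * h₂' ≡ h₁' [MOD g] := by
      have : b ^ t * h₂' ≡ 0 [MOD g] := (Nat.modEq_zero_iff_dvd).2 (hg.mul_right _)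
      simpa using (Nat.ModEq.refl h₁').add this
    have a2 : h₁ + b ^ t * h₂ ≡ h₁ [MOD g] := by
      have : b ^ t * h₂ ≡ 0 [MOD g] := (Nat.modEq_zero_iff_dvd).2 (hg.mul_right _)
      simpa using (Nat.ModEq.refl h₁).add this
    exact ⟨fun h => a1.symm.trans (h.trans a2), fun h => a1.trans (h.trans a2.symm)⟩
  have h1 : ∑ h ∈ range (b ^ (s + t)), ∑ h' ∈ (range (b ^ (s + t))).filter (fun h' => h' ≡ h [MOD g]),
      ‖FF b K (s + t) α w (h / (b : ℝ) ^ (s + t))‖ * ‖FF b K (s + t) α w (h' / (b : ℝ) ^ (s + t))‖ * g =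
      ∑ h₁ ∈ range (b ^ t), ∑ h₁' ∈ (range (b ^ t)).filter (fun h' => h' ≡ h₁ [MOD g]),
        (P h₁ * P h₁' * g) * ((∑ h₂ ∈ range (b ^ s), F h₁ h₂) * ∑ h₂' ∈ range (b ^ s), F h₁' h₂') := by
    simp_rw [sum_filter]
    rw [hsplit]
    refine sum_congr rfl fun h₁ _ => ?_
    simp_rw [hsplit]
    rw [sum_comm]
    refine sum_congr rfl fun h₁' _ => ?_
    simp_rw [hmod]
    split_ifs with hc
    · rw [sum_mul_sum, mul_sum]
      refine sum_congr rfl fun h₂ _ => ?_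
      rw [mul_sum]
      refine sum_congr rfl fun h₂' _ => ?_
      rw [T9_norm_FF_split b K s t hb0 hKs, T9_norm_FF_split b K s t hb0 hKs]
      simp only [hP, hF]
      ring
    · simp
  rw [h1]
  calc _ ≤ ∑ h₁ ∈ range (b ^ t), ∑ h₁' ∈ (range (b ^ t)).filter (fun h' => h' ≡ h₁ [MOD g]),
        (P h₁ * P h₁' * g) * (ℓ * ℓ) := by
        refine sum_le_sum fun h₁ _ => sum_le_sum fun h₁' _ => ?_
        have a1 := hP0 h₁
        have a2 := hP0 h₁'
        refine mul_le_mul_of_nonneg_left ?_ (by positivity)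
        exact mul_le_mul (hFℓ h₁) (hFℓ h₁') (sum_nonneg fun _ _ => hF0 _ _) hℓ0
    _ = (∑ h₁ ∈ range (b ^ t), ∑ h₁' ∈ (range (b ^ t)).filter (fun h' => h' ≡ h₁ [MOD g]),
        P h₁ * P h₁') * (g * ℓ ^ 2) := by
        rw [sum_mul]
        refine sum_congr rfl fun h₁ _ => ?_
        rw [sum_mul]
        refine sum_congr rfl fun h₁' _ => ?_
        ring
    _ ≤ ((b ^ t / g : ℕ) * ∑ h ∈ range (b ^ t), P h ^ 2) * (g * ℓ ^ 2) := by
        gcongr
        exact sum_pairs_le g (b ^ t) hg0 hg P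
    _ = ((b ^ t / g : ℕ) : ℝ) * (g * ℓ ^ 2) := by
        have := parseval_FF_one b t hb0 (fun j => α (s + j)) 0
        simp only [hP]
        rw [this, mul_one]
    _ = 2 * kap b ^ (s - K) * (b : ℝ) ^ (s + t) := by
        have : ((b ^ t / g : ℕ) : ℝ) * g = (b : ℝ) ^ t := by
          rw [← Nat.cast_mul, Nat.div_mul_cancel hg]
          push_cast
          rfl
        rw [← mul_assoc, this, hℓ2, pow_add]
        ring

end Pool.Agent.LibHG31.TT
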