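import Pool.Agent.LibHG31.V1

/-! ROW V2: Type I part and the first reduction of sums over `Λ`. -/

namespace Pool.Agent.LibHG31

open Finset
open scoped ArithmeticFunction.vonMangoldt ArithmeticFunction.Moebius

/-- the bilinear sum of the identity -/
noncomputable def bil (U X : ℕ) (f : ℕ → ℂ) : ℂ :=
  ∑ m ∈ Ico (U + 1) X, ∑ n ∈ Ico (U + 1) X, ((aaf U m * Λ n : ℝ) : ℂ) * f (m * n)

/-- logarithmic weight by Abel summation: if all partial sums of `g` over `k < Y`, `Y ≤ X`, have norm `≤ B`, then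
`‖∑_{k<X} log(k) g(k)‖ ≤ 2 log X * B`. (`log` is monotone; `Finset.sum_range_by_parts`.) Here `g 0 = 0` is not needed since `log 0 = 0`. -/
theorem norm_sum_log_le (X : ℕ) (hX : 2 ≤ X) (g : ℕ → ℂ) (B : ℝ) (hB : ∀ Y ≤ X, ‖∑ k ∈ range Y, g k‖ ≤ B) :
    ‖∑ k ∈ range X, (Real.log k : ℂ) * g k‖ ≤ 2 * Real.log X * B := by
  have hB0 : 0 ≤ B := (norm_nonneg _).trans (hB 0 (Nat.zero_le _))
  have hmono : ∀ i : ℕ, Real.log (i : ℝ) ≤ Real.log ((i + 1 : ℕ) : ℝ) := by
    intro i
    rcases Nat.eq_zero_or_pos i with rfl | hi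
    · simp
    · exact Real.log_le_log (by exact_mod_cast hi) (by exact_mod_cast Nat.le_succ i)
  have key := Finset.sum_range_by_parts (fun k : ℕ => (Real.log k : ℂ)) g X
  simp only [smul_eq_mul] at key
  rw [key]
  refine (norm_sub_le _ _).trans ?_
  have h1 : ‖(Real.log ((X - 1 : ℕ) : ℝ) : ℂ) * ∑ i ∈ range X, g i‖ ≤ Real.log ((X - 1 : ℕ) : ℝ) * B := by
    rw [norm_mul, Complex.norm_real, Real.norm_of_nonneg (Real.log_natCast_nonneg _)]
    exact mul_le_mul_of_nonneg_left (hB X le_rfl) (Real.log_natCast_nonneg _)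
  have h2 : ‖∑ i ∈ range (X - 1), ((Real.log ((i + 1 : ℕ) : ℝ) : ℂ) - (Real.log (i : ℝ) : ℂ)) *
      ∑ j ∈ range (i + 1), g j‖ ≤ Real.log ((X - 1 : ℕ) : ℝ) * B := by
    refine (norm_sum_le _ _).trans ?_
    calc ∑ i ∈ range (X - 1), ‖((Real.log ((i + 1 : ℕ) : ℝ) : ℂ) - (Real.log (i : ℝ) : ℂ)) *
          ∑ j ∈ range (i + 1), g j‖
        ≤ ∑ i ∈ range (X - 1), (Real.log ((i + 1 : ℕ) : ℝ) - Real.log (i : ℝ)) * B := by
          refine Finset.sum_le_sum fun i hi => ?_
          rw [norm_mul, ← Complex.ofReal_sub, Complex.norm_real,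
            Real.norm_of_nonneg (sub_nonneg.mpr (hmono i))]
          exact mul_le_mul_of_nonneg_left (hB _ (by have := Finset.mem_range.mp hi; omega))
            (sub_nonneg.mpr (hmono i))
      _ = Real.log ((X - 1 : ℕ) : ℝ) * B := by
          rw [← Finset.sum_mul, Finset.sum_range_sub (fun i : ℕ => Real.log (i : ℝ))]
          simp
  have h3 : Real.log ((X - 1 : ℕ) : ℝ) ≤ Real.log X := by
    apply Real.log_le_log
    · have : 0 < X - 1 := by omega
      exact_mod_cast this
    · exact_mod_cast Nat.sub_le X 1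
  have h4 : Real.log ((X - 1 : ℕ) : ℝ) * B ≤ Real.log X * B := mul_le_mul_of_nonneg_right h3 hB0
  linarith [h1, h2]

/-- part one for `f 0 = 0` -/
theorem v2_part1 (X U : ℕ) (f : ℕ → ℂ) (B : ℕ → ℝ) (hU : 2 ≤ U) (hUX : U ^ 2 ≤ X)
    (hf0 : f 0 = 0) (hB : ∀ m, 0 ≤ B m)
    (hS : ∀ m ∈ Icc 1 (U ^ 2), ∀ Y ≤ X, ‖∑ k ∈ (range Y).filter (fun k => m ∣ k), f k‖ ≤ B m) :
    ‖∑ n ∈ range X, ((∑ p ∈ n.divisorsAntidiagonal.filter (fun p => p.1 ≤ U),
        ((ArithmeticFunction.moebius p.1 : ℤ) : ℝ) * Real.log p.2 : ℝ) : ℂ) * f n‖ ≤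
      3 * Real.log X * ∑ m ∈ Icc 1 (U ^ 2), B m := by
  have hX : 2 ≤ X := by nlinarith
  have hterm : ∀ n ∈ range X, ((∑ p ∈ n.divisorsAntidiagonal.filter (fun p => p.1 ≤ U),
        ((ArithmeticFunction.moebius p.1 : ℤ) : ℝ) * Real.log p.2 : ℝ) : ℂ) * f n =
      ∑ u ∈ Icc 1 U, (((ArithmeticFunction.moebius u : ℤ) : ℝ) : ℂ) *
        ((Real.log n : ℂ) * (if u ∣ n then f n else 0) -
          (Real.log u : ℂ) * (if u ∣ n then f n else 0)) := by
    intro n _
    rcases Nat.eq_zero_or_pos n with rfl | hn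
    · simp [hf0]
    · have e1 : (∑ p ∈ n.divisorsAntidiagonal.filter (fun p => p.1 ≤ U),
          ((ArithmeticFunction.moebius p.1 : ℤ) : ℝ) * Real.log p.2 : ℝ) =
          ∑ u ∈ n.divisors.filter (fun u => u ≤ U),
            ((ArithmeticFunction.moebius u : ℤ) : ℝ) * (Real.log n - Real.log u) := by
        rw [Finset.sum_filter, Finset.sum_filter,
          Nat.sum_divisorsAntidiagonal (fun a b => if a ≤ U then
            ((ArithmeticFunction.moebius a : ℤ) : ℝ) * Real.log (b : ℝ) else 0)]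
        refine Finset.sum_congr rfl fun u hu => ?_
        by_cases h : u ≤ U
        · rw [if_pos h, if_pos h]
          have hud : u ∣ n := (Nat.mem_divisors.mp hu).1
          have hu0 : u ≠ 0 := by
            rintro rfl
            exact hn.ne' (Nat.eq_zero_of_zero_dvd hud)
          rw [Nat.cast_div hud (by exact_mod_cast hu0), Real.log_div (by exact_mod_cast hn.ne')
            (by exact_mod_cast hu0)]
        · rw [if_neg h, if_neg h]
      have e2 : n.divisors.filter (fun u => u ≤ U) = (Icc 1 U).filter (fun u => u ∣ n) := by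
        ext u
        simp only [Finset.mem_filter, Nat.mem_divisors, Finset.mem_Icc]
        constructor
        · rintro ⟨⟨h1, h2⟩, h3⟩
          exact ⟨⟨Nat.pos_of_dvd_of_pos h1 hn, h3⟩, h1⟩
        · rintro ⟨⟨h1, h2⟩, h3⟩
          exact ⟨⟨h3, hn.ne'⟩, h2⟩
      rw [e1, e2, Finset.sum_filter, Complex.ofReal_sum, Finset.sum_mul]
      refine Finset.sum_congr rfl fun u _ => ?_
      by_cases h : u ∣ n
      · simp only [if_pos h]
        push_cast
        ring
      · simp only [if_neg h]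
        simp
  rw [Finset.sum_congr rfl hterm, Finset.sum_comm]
  have hL0 : 0 ≤ Real.log X := Real.log_natCast_nonneg _
  have hb : ∀ u ∈ Icc 1 U, ‖∑ n ∈ range X, (((ArithmeticFunction.moebius u : ℤ) : ℝ) : ℂ) *
        ((Real.log n : ℂ) * (if u ∣ n then f n else 0) -
          (Real.log u : ℂ) * (if u ∣ n then f n else 0))‖ ≤ 3 * Real.log X * B u := by
    intro u hu
    rw [Finset.mem_Icc] at hu
    have hu2 : u ∈ Icc 1 (U ^ 2) := by
      rw [Finset.mem_Icc]
      exact ⟨hu.1, by nlinarith⟩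
    have hps : ∀ Y ≤ X, ‖∑ k ∈ range Y, (if u ∣ k then f k else 0)‖ ≤ B u := by
      intro Y hY
      rw [← Finset.sum_filter]
      exact hS u hu2 Y hY
    rw [← Finset.mul_sum, Finset.sum_sub_distrib, ← Finset.mul_sum, norm_mul]
    have hmu : ‖(((ArithmeticFunction.moebius u : ℤ) : ℝ) : ℂ)‖ ≤ 1 := by
      rw [Complex.norm_real, Real.norm_eq_abs]
      have := ArithmeticFunction.abs_moebius_le_one (n := u)
      exact_mod_cast this
    have hlogu : Real.log u ≤ Real.log X := by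
      apply Real.log_le_log
      · exact_mod_cast hu.1
      · have : u ≤ X := by nlinarith
        exact_mod_cast this
    have h1 := norm_sum_log_le X hX _ (B u) hps
    have h2 : ‖(Real.log u : ℂ) * ∑ k ∈ range X, (if u ∣ k then f k else 0)‖ ≤ Real.log X * B u := by
      rw [norm_mul, Complex.norm_real, Real.norm_of_nonneg (Real.log_natCast_nonneg _)]
      exact mul_le_mul hlogu (hps X le_rfl) (norm_nonneg _) hL0
    have h3 := norm_sub_le (∑ k ∈ range X, (Real.log k : ℂ) * (if u ∣ k then f k else 0))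
      ((Real.log u : ℂ) * ∑ k ∈ range X, (if u ∣ k then f k else 0))
    calc _ ≤ 1 * ‖(∑ k ∈ range X, (Real.log k : ℂ) * (if u ∣ k then f k else 0)) -
          ((Real.log u : ℂ) * ∑ k ∈ range X, (if u ∣ k then f k else 0))‖ :=
          mul_le_mul_of_nonneg_right hmu (norm_nonneg _)
      _ ≤ _ := by linarith
  refine (norm_sum_le _ _).trans ?_
  refine (Finset.sum_le_sum hb).trans ?_
  rw [← Finset.mul_sum]
  refine mul_le_mul_of_nonneg_left ?_ (by positivity)
  refine Finset.sum_le_sum_of_subset_of_nonneg ?_ (fun _ _ _ => hB _)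
  intro u hu
  rw [Finset.mem_Icc] at hu ⊢
  exact ⟨hu.1, by nlinarith⟩

/-- part two for `f 0 = 0` -/
theorem v2_part2 (X U : ℕ) (f : ℕ → ℂ) (B : ℕ → ℝ) (hUX : U ^ 2 ≤ X)
    (hf0 : f 0 = 0) (hB : ∀ m, 0 ≤ B m)
    (hS : ∀ m ∈ Icc 1 (U ^ 2), ∀ Y ≤ X, ‖∑ k ∈ (range Y).filter (fun k => m ∣ k), f k‖ ≤ B m) :
    ‖∑ n ∈ range X, ((∑ d ∈ n.divisors, ccf U d : ℝ) : ℂ) * f n‖ ≤
      Real.log X * ∑ m ∈ Icc 1 (U ^ 2), B m := by
  have hterm : ∀ n ∈ range X, ((∑ d ∈ n.divisors, ccf U d : ℝ) : ℂ) * f n =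
      ∑ d ∈ Icc 1 (U ^ 2), (ccf U d : ℂ) * (if d ∣ n then f n else 0) := by
    intro n _
    rcases Nat.eq_zero_or_pos n with rfl | hn
    · simp [hf0]
    · have e1 : (∑ d ∈ n.divisors, ccf U d : ℝ) =
          ∑ d ∈ n.divisors.filter (fun d => d ≤ U ^ 2), ccf U d := by
        symm
        apply Finset.sum_filter_of_ne
        intro d _ hne
        by_contra h
        exact hne (ccf_eq_zero U d (not_le.mp h))
      have e2 : n.divisors.filter (fun u => u ≤ U ^ 2) = (Icc 1 (U ^ 2)).filter (fun u => u ∣ n) := by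
        ext u
        simp only [Finset.mem_filter, Nat.mem_divisors, Finset.mem_Icc]
        constructor
        · rintro ⟨⟨h1, h2⟩, h3⟩
          exact ⟨⟨Nat.pos_of_dvd_of_pos h1 hn, h3⟩, h1⟩
        · rintro ⟨⟨h1, h2⟩, h3⟩
          exact ⟨⟨h3, hn.ne'⟩, h2⟩
      rw [e1, e2, Finset.sum_filter, Complex.ofReal_sum, Finset.sum_mul]
      refine Finset.sum_congr rfl fun u _ => ?_
      by_cases h : u ∣ n
      · simp only [if_pos h]
      · simp only [if_neg h]
        simp
  rw [Finset.sum_congr rfl hterm, Finset.sum_comm]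
  have hL0 : 0 ≤ Real.log X := Real.log_natCast_nonneg _
  refine (norm_sum_le _ _).trans ?_
  rw [Finset.mul_sum]
  refine Finset.sum_le_sum fun d hd => ?_
  have hd' := Finset.mem_Icc.mp hd
  rw [← Finset.mul_sum, norm_mul, ← Finset.sum_filter, Complex.norm_real, Real.norm_eq_abs]
  refine mul_le_mul ?_ (hS d hd X le_rfl) (norm_nonneg _) hL0
  refine (abs_ccf_le U d hd'.1).trans ?_
  apply Real.log_le_log
  · exact_mod_cast hd'.1
  · exact_mod_cast hd'.2.trans hUX

/-- part three -/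
theorem v2_part3 (X U : ℕ) (f : ℕ → ℂ) (hfX : ∀ n, X ≤ n → f n = 0) :
    ∑ n ∈ range X, ((∑ p ∈ n.divisorsAntidiagonal.filter (fun p => U < p.1 ∧ U < p.2),
        aaf U p.1 * Λ p.2 : ℝ) : ℂ) * f n = bil U X f := by
  unfold bil
  rw [← Finset.sum_product' (Ico (U + 1) X) (Ico (U + 1) X)
    (fun m n => ((aaf U m * Λ n : ℝ) : ℂ) * f (m * n))]
  have e1 : ∑ x ∈ Ico (U + 1) X ×ˢ Ico (U + 1) X, ((aaf U x.1 * Λ x.2 : ℝ) : ℂ) * f (x.1 * x.2) =
      ∑ x ∈ (Ico (U + 1) X ×ˢ Ico (U + 1) X).filter (fun x => x.1 * x.2 < X),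
        ((aaf U x.1 * Λ x.2 : ℝ) : ℂ) * f (x.1 * x.2) := by
    symm
    apply Finset.sum_filter_of_ne
    intro x _ hne
    by_contra h
    exact hne (by rw [hfX _ (not_lt.mp h), mul_zero])
  rw [e1, ← Finset.sum_fiberwise_of_maps_to (t := range X) (g := fun x : ℕ × ℕ => x.1 * x.2)
    (fun x hx => Finset.mem_range.mpr (Finset.mem_filter.mp hx).2)]
  refine Finset.sum_congr rfl fun n hn => ?_
  rw [Finset.mem_range] at hn
  have e2 : ((Ico (U + 1) X ×ˢ Ico (U + 1) X).filter (fun x => x.1 * x.2 < X)).filter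
      (fun x => x.1 * x.2 = n) = n.divisorsAntidiagonal.filter (fun p => U < p.1 ∧ U < p.2) := by
    ext ⟨a, b⟩
    simp only [Finset.mem_filter, Finset.mem_product, Finset.mem_Ico, Nat.mem_divisorsAntidiagonal]
    constructor
    · rintro ⟨⟨⟨⟨h1, h2⟩, h3, h4⟩, h5⟩, h6⟩
      refine ⟨⟨h6, ?_⟩, by omega, by omega⟩
      rw [← h6]
      exact Nat.mul_ne_zero (by omega) (by omega)
    · rintro ⟨⟨h1, h2⟩, h3, h4⟩
      have ha : 1 ≤ a := by omega
      have hb : 1 ≤ b := by omega
      have h5 : a ≤ a * b := Nat.le_mul_of_pos_right a hb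
      have h6 : b ≤ a * b := Nat.le_mul_of_pos_left b ha
      exact ⟨⟨⟨⟨by omega, by omega⟩, by omega, by omega⟩, by omega⟩, h1⟩
  rw [e2, Complex.ofReal_sum, Finset.sum_mul]
  refine Finset.sum_congr rfl fun p hp => ?_
  have := (Nat.mem_divisorsAntidiagonal.mp (Finset.mem_filter.mp hp).1).1
  rw [this]

/-- the identity at every `n`, with the small `n` corrected -/
theorem v2_vaughan_all (U n : ℕ) (hU : 1 ≤ U) :
    Λ n = ∑ p ∈ n.divisorsAntidiagonal.filter (fun p => p.1 ≤ U),
        ((ArithmeticFunction.moebius p.1 : ℤ) : ℝ) * Real.log p.2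
      - ∑ d ∈ n.divisors, ccf U d
      - ∑ p ∈ n.divisorsAntidiagonal.filter (fun p => U < p.1 ∧ U < p.2), aaf U p.1 * Λ p.2
      + (if n ≤ U then Λ n else 0) := by
  by_cases hn : n ≤ U
  · rcases Nat.eq_zero_or_pos n with rfl | hn0
    · simp
    · have h1 : ∑ p ∈ n.divisorsAntidiagonal.filter (fun p => p.1 ≤ U),
          ((ArithmeticFunction.moebius p.1 : ℤ) : ℝ) * Real.log p.2 = Λ n := by
        rw [← ArithmeticFunction.moebius_mul_log_eq_vonMangoldt, ArithmeticFunction.mul_apply]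
        rw [Finset.filter_true_of_mem]
        · rfl
        · intro p hp
          have h := (Nat.mem_divisorsAntidiagonal.mp hp)
          have hp2 : 0 < p.2 := by
            rcases Nat.eq_zero_or_pos p.2 with h0 | h0
            · rw [h0, mul_zero] at h
              omega
            · exact h0
          have := Nat.le_mul_of_pos_right p.1 hp2
          omega
      have h2 : ∑ d ∈ n.divisors, ccf U d = Λ n := by
        have e1 : ∀ d ∈ n.divisors, ccf U d =
            ((ArithmeticFunction.moebius : ArithmeticFunction ℝ) * Λ) d := by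
          intro d hd
          have hdn : d ≤ n := Nat.divisor_le hd
          rw [ArithmeticFunction.mul_apply]
          unfold ccf
          rw [Finset.filter_true_of_mem]
          · rfl
          · intro p hp
            have h := (Nat.mem_divisorsAntidiagonal.mp hp)
            have hp1 : 0 < p.1 := by
              rcases Nat.eq_zero_or_pos p.1 with h0 | h0
              · rw [h0, zero_mul] at h
                omega
              · exact h0
            have hp2 : 0 < p.2 := by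
              rcases Nat.eq_zero_or_pos p.2 with h0 | h0
              · rw [h0, mul_zero] at h
                omega
              · exact h0
            have h3 := Nat.le_mul_of_pos_right p.1 hp2
            have h4 := Nat.le_mul_of_pos_left p.2 hp1
            omega
        rw [Finset.sum_congr rfl e1, ← ArithmeticFunction.coe_zeta_mul_apply, ← mul_assoc,
          ArithmeticFunction.coe_zeta_mul_coe_moebius, one_mul]
      have h3 : n.divisorsAntidiagonal.filter (fun p => U < p.1 ∧ U < p.2) = ∅ := by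
        rw [Finset.filter_eq_empty_iff]
        intro p hp
        have h := (Nat.mem_divisorsAntidiagonal.mp hp)
        rintro ⟨h5, h6⟩
        have h7 := Nat.le_mul_of_pos_right p.1 (show 0 < p.2 by omega)
        omega
      rw [h1, h2, h3, if_pos hn]
      simp
  · rw [if_neg hn, add_zero]
    exact vaughan U n hU (not_le.mp hn)

/-- reduction. `f` vanishes from `X` on.
`∑_{n<X} Λ(n) f(n) = ∑_{n≤U} Λ f + ∑_{U<n<X} [three terms of V1.vaughan] f(n)`. Write the second term as
`∑_{u≤U} μ(u) ∑_{k<X, u|k} log(k/u) f(k) - (n ≤ U part)`, `log(k/u) = log k - log u`, and use `norm_sum_log_le`; the third as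
`∑_{d ≤ U²} c_d ∑_{k<X, d|k} f(k)`; the parts with `n ≤ U` are at most `U * (log U + 1)^2 * 4` in absolute value (count: for `n ≤ U`,
`|∑_{u|n} μ(u) log(n/u)| ≤ τ(n) log n`, `∑_{d | n} |c_d| ≤ τ(n) log n`, and `∑_{n ≤ U} τ(n) ≤ U (1 + log U)`). -/
theorem sum_vonMangoldt_le : ∃ C : ℝ, 0 < C ∧ ∀ (X U : ℕ) (f : ℕ → ℂ) (B : ℕ → ℝ),
    2 ≤ U → U ^ 2 ≤ X → (∀ n, ‖f n‖ ≤ 1) → (∀ n, X ≤ n → f n = 0) → (∀ m, 0 ≤ B m) →
    (∀ m ∈ Icc 1 (U ^ 2), ∀ Y ≤ X, ‖∑ k ∈ (range Y).filter (fun k => m ∣ k), f k‖ ≤ B m) →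
    ‖∑ n ∈ range X, ((Λ n : ℝ) : ℂ) * f n‖ ≤
      C * Real.log X ^ 3 * (U + ∑ m ∈ Icc 1 (U ^ 2), B m) + ‖bil U X f‖ := by
  refine ⟨8, by norm_num, ?_⟩
  intro X U f B hU hUX hf hfX hB hS
  have hX4 : 4 ≤ X := by nlinarith
  have hL : 1 ≤ Real.log X := by
    rw [Real.le_log_iff_exp_le (by positivity)]
    have h1 := Real.exp_one_lt_d9
    have h2 : (4 : ℝ) ≤ X := by exact_mod_cast hX4
    linarith
  -- replace `f 0` by `0`
  obtain ⟨g, hg⟩ : ∃ g : ℕ → ℂ, g = fun n => if n = 0 then 0 else f n := ⟨_, rfl⟩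
  have hg0 : g 0 = 0 := by rw [hg]; simp
  have hgn : ∀ n, n ≠ 0 → g n = f n := by
    intro n hn
    rw [hg]
    simp [hn]
  have hgX : ∀ n, X ≤ n → g n = 0 := by
    intro n hn
    rw [hgn n (by omega), hfX n hn]
  have hS' : ∀ m ∈ Icc 1 (U ^ 2), ∀ Y ≤ X,
      ‖∑ k ∈ (range Y).filter (fun k => m ∣ k), g k‖ ≤ 2 * B m := by
    intro m hm Y hY
    rcases Nat.eq_zero_or_pos Y with rfl | hY0
    · simp [hB m]
    · have h0 := hS m hm 1 (by omega)
      have e0 : (range 1).filter (fun k => m ∣ k) = {0} := by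
        ext k
        simp only [Finset.mem_filter, Finset.mem_range, Finset.mem_singleton]
        constructor
        · rintro ⟨h, _⟩
          omega
        · rintro rfl
          exact ⟨by omega, dvd_zero _⟩
      rw [e0, Finset.sum_singleton] at h0
      have e1 : ∑ k ∈ (range Y).filter (fun k => m ∣ k), g k =
          ∑ k ∈ (range Y).filter (fun k => m ∣ k), f k - f 0 := by
        have hmem : 0 ∈ (range Y).filter (fun k => m ∣ k) := by
          rw [Finset.mem_filter, Finset.mem_range]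
          exact ⟨hY0, dvd_zero _⟩
        rw [← Finset.add_sum_erase _ _ hmem, ← Finset.add_sum_erase _ f hmem, hg0, zero_add,
          add_sub_cancel_left]
        refine Finset.sum_congr rfl fun k hk => hgn k (Finset.ne_of_mem_erase hk)
      rw [e1]
      have h3 := norm_sub_le (∑ k ∈ (range Y).filter (fun k => m ∣ k), f k) (f 0)
      have h4 := hS m hm Y hY
      linarith
  have hbil : bil U X g = bil U X f := by
    unfold bil
    refine Finset.sum_congr rfl fun m hm => Finset.sum_congr rfl fun n hn => ?_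
    rw [Finset.mem_Ico] at hm hn
    rw [hgn (m * n) (Nat.mul_ne_zero (by omega) (by omega))]
  have hsum : ∑ n ∈ range X, ((Λ n : ℝ) : ℂ) * f n = ∑ n ∈ range X, ((Λ n : ℝ) : ℂ) * g n := by
    refine Finset.sum_congr rfl fun n _ => ?_
    rcases Nat.eq_zero_or_pos n with rfl | hn
    · simp
    · rw [hgn n hn.ne']
  have hdec : ∑ n ∈ range X, ((Λ n : ℝ) : ℂ) * g n =
      ∑ n ∈ range X, ((∑ p ∈ n.divisorsAntidiagonal.filter (fun p => p.1 ≤ U),
        ((ArithmeticFunction.moebius p.1 : ℤ) : ℝ) * Real.log p.2 : ℝ) : ℂ) * g n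
      - ∑ n ∈ range X, ((∑ d ∈ n.divisors, ccf U d : ℝ) : ℂ) * g n
      - ∑ n ∈ range X, ((∑ p ∈ n.divisorsAntidiagonal.filter (fun p => U < p.1 ∧ U < p.2),
        aaf U p.1 * Λ p.2 : ℝ) : ℂ) * g n
      + ∑ n ∈ range X, (((if n ≤ U then Λ n else 0) : ℝ) : ℂ) * g n := by
    rw [← Finset.sum_sub_distrib, ← Finset.sum_sub_distrib, ← Finset.sum_add_distrib]
    refine Finset.sum_congr rfl fun n _ => ?_
    rw [← sub_mul, ← sub_mul, ← add_mul]
    congr 1
    rw [← Complex.ofReal_sub, ← Complex.ofReal_sub, ← Complex.ofReal_add]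
    congr 1
    exact v2_vaughan_all U n (by omega)
  have hp1 := v2_part1 X U g (fun m => 2 * B m) hU hUX hg0 (fun m => by have := hB m; positivity) hS'
  have hp2 := v2_part2 X U g (fun m => 2 * B m) hUX hg0 (fun m => by have := hB m; positivity) hS'
  have hp3 := v2_part3 X U g hgX
  have hp4 : ‖∑ n ∈ range X, (((if n ≤ U then Λ n else 0) : ℝ) : ℂ) * g n‖ ≤
      2 * U * Real.log X := by
    refine (norm_sum_le _ _).trans ?_
    have hb : ∀ n ∈ range X, ‖(((if n ≤ U then Λ n else 0) : ℝ) : ℂ) * g n‖ ≤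
        if n ≤ U then Real.log X else 0 := by
      intro n hn
      rw [norm_mul, Complex.norm_real, Real.norm_eq_abs]
      by_cases h : n ≤ U
      · rw [if_pos h, if_pos h, abs_of_nonneg ArithmeticFunction.vonMangoldt_nonneg]
        have hgle : ‖g n‖ ≤ 1 := by
          rcases Nat.eq_zero_or_pos n with rfl | hn0
          · rw [hg0]; simp
          · rw [hgn n hn0.ne']; exact hf n
        have hΛ : Λ n ≤ Real.log X := by
          rcases Nat.eq_zero_or_pos n with rfl | hn0
          · simp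
            exact Real.log_natCast_nonneg _
          · refine ArithmeticFunction.vonMangoldt_le_log.trans ?_
            apply Real.log_le_log
            · exact_mod_cast hn0
            · have := Finset.mem_range.mp hn
              exact_mod_cast this.le
        calc Λ n * ‖g n‖ ≤ Real.log X * 1 := mul_le_mul hΛ hgle (norm_nonneg _) (by linarith)
          _ = Real.log X := mul_one _
      · rw [if_neg h, if_neg h]
        simp
    refine (Finset.sum_le_sum hb).trans ?_
    rw [← Finset.sum_filter, Finset.sum_const, nsmul_eq_mul]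
    refine mul_le_mul_of_nonneg_right ?_ (by linarith)
    have hc : ((range X).filter (fun n => n ≤ U)).card ≤ U + 1 := by
      calc ((range X).filter (fun n => n ≤ U)).card ≤ (range (U + 1)).card := by
            apply Finset.card_le_card
            intro n hn
            rw [Finset.mem_filter] at hn
            rw [Finset.mem_range]
            omega
        _ = U + 1 := Finset.card_range _
    have : U + 1 ≤ 2 * U := by omega
    exact_mod_cast hc.trans this
  rw [hsum, hdec, hp3, hbil]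
  rw [← Finset.mul_sum] at hp1 hp2
  set S := ∑ m ∈ Icc 1 (U ^ 2), B m with hSdef
  have hS0 : 0 ≤ S := Finset.sum_nonneg fun m _ => hB m
  set P1 := ∑ n ∈ range X, ((∑ p ∈ n.divisorsAntidiagonal.filter (fun p => p.1 ≤ U),
        ((ArithmeticFunction.moebius p.1 : ℤ) : ℝ) * Real.log p.2 : ℝ) : ℂ) * g n with hP1
  set P2 := ∑ n ∈ range X, ((∑ d ∈ n.divisors, ccf U d : ℝ) : ℂ) * g n with hP2
  set P4 := ∑ n ∈ range X, (((if n ≤ U then Λ n else 0) : ℝ) : ℂ) * g n with hP4
  have hn1 : ‖P1 - P2 - bil U X f + P4‖ ≤ ‖P1‖ + ‖P2‖ + ‖bil U X f‖ + ‖P4‖ := by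
    calc ‖P1 - P2 - bil U X f + P4‖ ≤ ‖P1 - P2 - bil U X f‖ + ‖P4‖ := norm_add_le _ _
      _ ≤ (‖P1 - P2‖ + ‖bil U X f‖) + ‖P4‖ := by
          gcongr
          exact norm_sub_le _ _
      _ ≤ ((‖P1‖ + ‖P2‖) + ‖bil U X f‖) + ‖P4‖ := by
          gcongr
          exact norm_sub_le _ _
  have hU0 : (0 : ℝ) ≤ U := Nat.cast_nonneg _
  have hpow : Real.log X ≤ Real.log X ^ 3 := by
    calc Real.log X = Real.log X ^ 1 := (pow_one _).symm
      _ ≤ Real.log X ^ 3 := pow_le_pow_right₀ hL (by norm_num)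
  have hfin : 8 * Real.log X * (U + S) ≤ 8 * Real.log X ^ 3 * (U + S) := by
    apply mul_le_mul_of_nonneg_right _ (by positivity)
    linarith
  have hUL : 0 ≤ (U : ℝ) * Real.log X := mul_nonneg hU0 (by linarith)
  have hfin2 : 3 * Real.log X * (2 * S) + Real.log X * (2 * S) + 2 * U * Real.log X ≤
      8 * Real.log X * (U + S) := by
    nlinarith [hUL]
  linarith [hn1, hp1, hp2, hp4, hfin, hfin2]

end Pool.Agent.LibHG31
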